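import Mathlib

/-!
# Pairs with few sums: squares modulo a product of primes
-/

set_option autoImplicit false

namespace Pool.Agent.Zk23.APSq

open Finset

theorem card_key {V κ β : Type} [DecidableEq β] (s : Finset V) (F : V → β)
    (key : V → κ) (T : Finset κ) (h1 : ∀ v ∈ s, key v ∈ T)
    (h2 : ∀ v ∈ s, ∀ v' ∈ s, key v = key v' → F v = F v') : (s.image F).card ≤ T.card := by
  classical
  rcases s.eq_empty_or_nonempty with rfl | ⟨v₀, _⟩
  · simp
  · have : Nonempty V := ⟨v₀⟩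
    have hex : ∀ b ∈ s.image F, ∃ v ∈ s, F v = b := fun b hb => mem_image.1 hb
    choose! g hg1 hg2 using hex
    refine card_le_card_of_injOn (fun b => key (g b)) (fun b hb => h1 _ (hg1 b hb)) ?_
    intro b hb b' hb' hbb
    have := h2 _ (hg1 b hb) _ (hg1 b' hb') hbb
    rwa [hg2 b hb, hg2 b' hb'] at this

theorem card_sq (p : ℕ) (hp : p.Prime) (hp2 : p ≠ 2) :
    (((range p).image fun n : ℕ => ((n : ZMod p)) ^ 2).card) ≤ (p + 1) / 2 := by
  have hodd : p % 2 = 1 := (hp.eq_two_or_odd).resolve_left hp2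
  have hsub : ((range p).image fun n : ℕ => ((n : ZMod p)) ^ 2) ⊆
      ((range ((p + 1) / 2)).image fun n : ℕ => ((n : ZMod p)) ^ 2) := by
    intro b hb
    obtain ⟨n, hn, rfl⟩ := mem_image.1 hb
    rw [mem_range] at hn
    by_cases h : n < (p + 1) / 2
    · exact mem_image_of_mem _ (mem_range.2 h)
    · refine mem_image.2 ⟨p - n, mem_range.2 (by omega), ?_⟩
      rw [Nat.cast_sub hn.le, ZMod.natCast_self]
      ring
  exact (card_le_card hsub).trans (card_image_le.trans (by rw [card_range]))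

theorem sq_classes (T : Finset ℕ) (hT : ∀ p ∈ T, p.Prime ∧ p ≠ 2) (k : ℕ) :
    ∃ A : Finset (ℤ × ℤ), (A.image Prod.snd).card = ∏ p ∈ T, p ∧
      ∀ j < k, (A.image fun p => p.1 + (j : ℤ) * p.2).card ≤ k * ∏ p ∈ T, ((p + 1) / 2) := by
  classical
  set Q : ℕ := ∏ p ∈ T, p with hQ
  have hQpos : 0 < Q := prod_pos fun p hp => (hT p hp).1.pos
  have hQ0 : (0 : ℤ) < (Q : ℤ) := by exact_mod_cast hQpos
  have hdvd : ∀ p ∈ T, p ∣ Q := fun p hp => dvd_prod_of_mem _ hp
  have hodd : Q % 2 = 1 := by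
    rw [← Nat.odd_iff]
    rw [hQ]
    refine Finset.prod_induction _ Odd (fun a b => Odd.mul) odd_one fun p hp => ?_
    exact (hT p hp).1.odd_of_ne_two (hT p hp).2
  set u : ℕ := (Q + 1) / 2 with hu
  have hu2 : 2 * u = Q + 1 := by omega
  let Y : ℕ → ℤ := fun v => (((v * u) ^ 2 : ℕ) : ℤ) % (Q : ℤ)
  refine ⟨(range Q).image fun v : ℕ => (Y v, (v : ℤ)), ?_, fun j hj => ?_⟩
  · rw [image_image]
    have : (Prod.snd ∘ fun v : ℕ => (Y v, (v : ℤ))) = fun v : ℕ => (v : ℤ) := rfl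
    rw [this, card_image_of_injective _ Nat.cast_injective, card_range]
  · rw [image_image]
    have hF : ((fun p : ℤ × ℤ => p.1 + (j : ℤ) * p.2) ∘ fun v : ℕ => (Y v, (v : ℤ))) =
        fun v : ℕ => Y v + (j : ℤ) * (v : ℤ) := rfl
    rw [hF]
    have hYv : ∀ p ∈ T, ∀ v : ℕ, ((Y v + (j : ℤ) * (v : ℤ) : ℤ) : ZMod p) =
        (((v * u + j : ℕ)) : ZMod p) ^ 2 - (j : ZMod p) ^ 2 := by
      intro p hp v
      have h1 : ((Y v : ℤ) : ZMod p) = (((v * u) ^ 2 : ℕ) : ZMod p) := by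
        have h2 : (((Y v : ℤ)) : ZMod p) = (((((v * u) ^ 2 : ℕ) : ℤ)) : ZMod p) := by
          rw [ZMod.intCast_eq_intCast_iff_dvd_sub]
          have h3 : (Q : ℤ) ∣ ((((v * u) ^ 2 : ℕ) : ℤ)) - Y v := Int.dvd_self_sub_emod
          exact dvd_trans (by exact_mod_cast hdvd p hp) h3
        rw [h2]
        push_cast
        rfl
      have h4 : (2 : ZMod p) * (u : ZMod p) = 1 := by
        have h5 : ((2 * u : ℕ) : ZMod p) = ((Q + 1 : ℕ) : ZMod p) := by rw [hu2]
        push_cast at h5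
        rw [h5, (ZMod.natCast_eq_zero_iff Q p).2 (hdvd p hp), zero_add]
      push_cast at h1 ⊢
      rw [h1]
      linear_combination (-(j : ZMod p) * v) * h4
    refine (card_key (range Q) _ (fun v : ℕ => (((Y v + (j : ℤ) * (v : ℤ)) / (Q : ℤ)).toNat,
      fun p : T => (((v * u + j : ℕ)) : ZMod p.1) ^ 2))
      ((range k) ×ˢ Fintype.piFinset fun p : T =>
        (range p.1).image fun n : ℕ => ((n : ZMod p.1)) ^ 2) ?_ ?_).trans ?_
    · intro v hv
      rw [mem_range] at hv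
      rw [mem_product]
      have hY0 : 0 ≤ Y v := Int.emod_nonneg _ hQ0.ne'
      have hY1 : Y v < Q := Int.emod_lt_of_pos _ hQ0
      have hv' : (v : ℤ) < Q := by exact_mod_cast hv
      constructor
      · rw [mem_range]
        have h1 : (Y v + (j : ℤ) * (v : ℤ)) / (Q : ℤ) < k := by
          apply Int.ediv_lt_of_lt_mul hQ0
          have h2 : (j : ℤ) * v ≤ j * Q := mul_le_mul_of_nonneg_left hv'.le (by positivity)
          have h3 : ((j : ℤ) + 1) * Q ≤ k * Q := by
            refine mul_le_mul_of_nonneg_right ?_ hQ0.le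
            exact_mod_cast hj
          linarith
        have h4 : 0 ≤ (Y v + (j : ℤ) * (v : ℤ)) / (Q : ℤ) := Int.ediv_nonneg (by positivity) hQ0.le
        omega
      · rw [Fintype.mem_piFinset]
        intro p
        have hp := (hT p.1 p.2).1
        have : NeZero p.1 := ⟨hp.pos.ne'⟩
        refine mem_image.2 ⟨(((v * u + j : ℕ)) : ZMod p.1).val, mem_range.2 (ZMod.val_lt _), ?_⟩
        rw [ZMod.natCast_zmod_val]
    · intro v hv v' hv' hkey
      have h1 := (Prod.ext_iff.1 hkey).1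
      have h2 := (Prod.ext_iff.1 hkey).2
      simp only at h1 h2
      have hnn : ∀ v : ℕ, 0 ≤ (Y v + (j : ℤ) * (v : ℤ)) / (Q : ℤ) := fun v =>
        Int.ediv_nonneg (add_nonneg (Int.emod_nonneg _ hQ0.ne') (by positivity)) hQ0.le
      have h3 : (Y v + (j : ℤ) * (v : ℤ)) / (Q : ℤ) = (Y v' + (j : ℤ) * (v' : ℤ)) / (Q : ℤ) := by
        have a := hnn v
        have b := hnn v'
        omega
      have h4 : (Q : ℤ) ∣ (Y v + (j : ℤ) * (v : ℤ)) - (Y v' + (j : ℤ) * (v' : ℤ)) := by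
        rw [hQ]
        push_cast
        refine Finset.prod_dvd_of_coprime ?_ ?_
        · intro p hp q hq hpq
          have := (Nat.coprime_primes (hT p hp).1 (hT q hq).1).2 hpq
          exact (Nat.isCoprime_iff_coprime).2 this
        · intro p hp
          have h5 := congrFun h2 ⟨p, hp⟩
          simp only at h5
          have h6 : ((Y v' + (j : ℤ) * (v' : ℤ) : ℤ) : ZMod p) =
              ((Y v + (j : ℤ) * (v : ℤ) : ℤ) : ZMod p) := by
            rw [hYv p hp, hYv p hp, h5]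
          rwa [ZMod.intCast_eq_intCast_iff_dvd_sub] at h6
      have h7 : (Y v + (j : ℤ) * (v : ℤ)) % (Q : ℤ) = (Y v' + (j : ℤ) * (v' : ℤ)) % (Q : ℤ) :=
        (Int.emod_emod_of_dvd _ dvd_rfl).symm.trans (by
          rw [Int.emod_emod_of_dvd _ dvd_rfl]
          exact (Int.emod_emod_of_dvd _ dvd_rfl).symm.trans (by
            rw [Int.emod_emod_of_dvd _ dvd_rfl]
            exact Int.emod_eq_emod_iff_emod_sub_eq_zero.2 (Int.emod_eq_zero_of_dvd h4)))
      rw [← Int.emod_add_mul_ediv (Y v + (j : ℤ) * (v : ℤ)) Q,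
        ← Int.emod_add_mul_ediv (Y v' + (j : ℤ) * (v' : ℤ)) Q, h3, h7]
    · rw [card_product, card_range, Fintype.card_piFinset]
      refine Nat.mul_le_mul_left _ ?_
      rw [← Finset.prod_coe_sort T (fun p => (p + 1) / 2)]
      exact Finset.prod_le_prod' fun p _ => card_sq p.1 (hT p.1 p.2).1 (hT p.1 p.2).2

end Pool.Agent.Zk23.APSq
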