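import Pool.Agent.Zk23.APFinal
import Pool.Agent.Zk23.APSq
import Pool.Agent.Zk63.AKL2

/-!
# Lower bounds for the exponents of the `k`-term progressions
-/

set_option autoImplicit false

namespace Pool.Agent.Zk23.APLow

open Pool.Agent.Zk23.AKAP
open Pool.Agent.Zk23.APSq (sq_classes)
open Pool.Agent.Zk63.AKL2 (numerics)

theorem prod_le (T : Finset ℕ) (hT : ∀ p ∈ T, p.Prime ∧ p ≠ 2) :
    ((∏ p ∈ T, ((p + 1) / 2) : ℕ) : ℝ) ≤ (2 / 3 : ℝ) ^ T.card * ((∏ p ∈ T, p : ℕ) : ℝ) := by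
  push_cast
  rw [← Finset.prod_const, ← Finset.prod_mul_distrib]
  refine Finset.prod_le_prod (fun p _ => Nat.cast_nonneg _) fun p hp => ?_
  obtain ⟨h1, h2⟩ := hT p hp
  have h3 : 3 ≤ p := by
    have := h1.two_le
    omega
  have h4 : (((p + 1) / 2 : ℕ) : ℝ) ≤ ((p + 1 : ℕ) : ℝ) / 2 := Nat.cast_div_le
  have h5 : (3 : ℝ) ≤ p := by exact_mod_cast h3
  push_cast at h4
  linarith

theorem ap_bad_loglog : ∃ c : ℝ, 0 < c ∧ ∀ k : ℕ, 3 ≤ k → ∀ κ : ℝ,
    κ ≤ 1 + c / (Real.log (Real.log k) + 1) → ¬ APBound k κ := by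
  obtain ⟨C, hC, hnum⟩ := numerics
  refine ⟨1 / C, by positivity, fun k hk κ hκ hB => ?_⟩
  obtain ⟨T, hT, ht, hQ⟩ := hnum k hk
  obtain ⟨A, hA1, hA2⟩ := sq_classes T hT k
  have hk3 : (3 : ℝ) ≤ k := by exact_mod_cast hk
  have hx : 1 < Real.log k := by
    rw [Real.lt_log_iff_exp_lt (by linarith)]
    exact lt_of_lt_of_le Real.exp_one_lt_three hk3
  have hlx : 0 < Real.log (Real.log k) := Real.log_pos hx
  set x := Real.log k with hxdef
  have hQpos : 0 < ∏ p ∈ T, p := Finset.prod_pos fun p hp => (hT p hp).1.pos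
  set Q : ℕ := ∏ p ∈ T, p with hQdef
  have hAne : A.Nonempty := by
    rw [Finset.nonempty_iff_ne_empty]
    rintro rfl
    simp only [Finset.image_empty, Finset.card_empty] at hA1
    omega
  set K : ℕ := (Finset.range k).sup fun j => (A.image fun p => p.1 + (j : ℤ) * p.2).card with hK
  have hK1 : 1 ≤ K := Pool.Agent.Zk23.APAll.mx_pos (by omega) hAne
  have hK2 : K ≤ k * ∏ p ∈ T, ((p + 1) / 2) := Finset.sup_le fun j hj =>
    hA2 j (Finset.mem_range.1 hj)
  have hK3 : (K : ℝ) ≤ k * ((2 / 3 : ℝ) ^ T.card * (Q : ℝ)) := by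
    have h1 : (K : ℝ) ≤ k * ((∏ p ∈ T, ((p + 1) / 2) : ℕ) : ℝ) := by exact_mod_cast hK2
    exact h1.trans (mul_le_mul_of_nonneg_left (prod_le T hT) (by linarith))
  have hK1' : (1 : ℝ) ≤ K := by exact_mod_cast hK1
  have hQ0 : (0 : ℝ) < Q := by exact_mod_cast hQpos
  have hlogK : Real.log K ≤ Real.log Q - x := by
    have h1 := Real.log_le_log (by linarith) hK3
    rw [Real.log_mul (by linarith) (by positivity), Real.log_mul (by positivity) (by positivity),
      Real.log_pow] at h1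
    have h2 : Real.log (2 / 3 : ℝ) = - Real.log (3 / 2) := by
      rw [← Real.log_inv]
      norm_num
    rw [h2] at h1
    linarith
  have hlogK0 : 0 ≤ Real.log K := Real.log_nonneg hK1'
  have h1 := hB A
  rw [hA1] at h1
  have h2 : Real.log Q ≤ κ * Real.log K := by
    have h3 := Real.log_le_log hQ0 h1
    rwa [Real.log_rpow (by linarith)] at h3
  set δ : ℝ := 1 / C / (Real.log x + 1) with hδ
  have hδ0 : 0 < δ := by positivity
  have h3 : κ * Real.log K ≤ (1 + δ) * (Real.log Q - x) :=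
    (mul_le_mul_of_nonneg_right hκ hlogK0).trans
      (mul_le_mul_of_nonneg_left hlogK (by linarith))
  have h4 : δ * Real.log Q ≤ x := by
    calc δ * Real.log Q ≤ δ * (C * x * (Real.log x + 1)) := mul_le_mul_of_nonneg_left hQ hδ0.le
      _ = x := by
          rw [hδ]
          field_simp
  have h5 : 0 < δ * x := by positivity
  nlinarith

end Pool.Agent.Zk23.APLow
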