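import Pool.Agent.Zk23.KKEquiv

/-!
# A `C^1` map of `ℝ^7` into `ℝ^11` whose image contains three-term progressions
-/

set_option autoImplicit false

open Set
open scoped ContDiff

namespace Pool.Agent.Zk23.KKEx

open Pool.Agent.Zk23.KKEquiv
open Pool.Agent.Zk25.KakCode (c1_code)

/-- the digits of the layers: `{0,2}`, `{1,2}`, `{2,4}` -/
def D (j : ℕ) : Finset ℤ := {2, if j = 0 then 0 else if j = 1 then 1 else 4}

/-- the numbers with `m` digits in `D j` in base `3` -/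
def L (j : ℕ) : ℕ → Finset ℤ
  | 0 => {0}
  | m + 1 => (D j ×ˢ L j m).image fun p => p.1 + 3 * p.2

theorem card_L (j m : ℕ) : (L j m).card ≤ 2 ^ m := by
  induction m with
  | zero => simp [L]
  | succ m ih =>
    rw [L]
    refine Finset.card_image_le.trans ?_
    rw [Finset.card_product, pow_succ, mul_comm (2 ^ m)]
    exact Nat.mul_le_mul Finset.card_le_two ih

theorem digit (v : ℕ) (hv : v < 3) : ∃ α : ℤ, ∀ j : ℕ, j < 3 → α + (j : ℤ) * (v : ℤ) ∈ D j := by
  refine ⟨if v = 0 then 2 else 0, fun j hj => ?_⟩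
  interval_cases v <;> interval_cases j <;> simp [D]

theorem digits (m : ℕ) : ∀ v : ℕ, v < 3 ^ m →
    ∃ α : ℤ, ∀ j : ℕ, j < 3 → α + (j : ℤ) * (v : ℤ) ∈ L j m := by
  induction m with
  | zero =>
    intro v hv
    have : v = 0 := by simpa using hv
    subst this
    exact ⟨0, fun j _ => by simp [L]⟩
  | succ m ih =>
    intro v hv
    have h1 : v / 3 < 3 ^ m := by
      rw [Nat.div_lt_iff_lt_mul (by norm_num)]
      rwa [pow_succ] at hv
    obtain ⟨α, hα⟩ := ih (v / 3) h1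
    obtain ⟨β, hβ⟩ := digit (v % 3) (Nat.mod_lt _ (by norm_num))
    refine ⟨β + 3 * α, fun j hj => ?_⟩
    rw [L, Finset.mem_image]
    refine ⟨(β + (j : ℤ) * ((v % 3 : ℕ) : ℤ), α + (j : ℤ) * ((v / 3 : ℕ) : ℤ)), ?_, ?_⟩
    · rw [Finset.mem_product]
      exact ⟨hβ j hj, hα j hj⟩
    · have h2 : (v : ℤ) = ((v % 3 : ℕ) : ℤ) + 3 * ((v / 3 : ℕ) : ℤ) := by
        have := Nat.mod_add_div v 3
        exact_mod_cast this.symm
      rw [h2]
      ring

theorem c1_of (m c N : ℕ) (hN : N = 3 ^ m) (hc : 1 ≤ c) (hcN : 2 * c < N)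
    (h : 3 * (2 ^ m) ^ 11 ≤ c ^ 7) : ∃ g : E 7 → E 11, ContDiff ℝ 1 g ∧
    HasProg 3 (g '' {x | ∀ i, x i ∈ Icc (0 : ℝ) 1}) := by
  classical
  set A : Finset (Fin 11 → ℤ) := (Finset.range 3).biUnion
    (fun j => Fintype.piFinset (fun _ : Fin 11 => L j m)) with hA
  have hcard : A.card ≤ c ^ 7 := by
    calc A.card ≤ ∑ j ∈ Finset.range 3, (Fintype.piFinset (fun _ : Fin 11 => L j m)).card :=
          Finset.card_biUnion_le
      _ ≤ ∑ _j ∈ Finset.range 3, (2 ^ m) ^ 11 := by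
          apply Finset.sum_le_sum
          intro j _
          rw [Fintype.card_piFinset, Finset.prod_const, Finset.card_univ, Fintype.card_fin]
          exact Nat.pow_le_pow_left (card_L j m) 11
      _ = 3 * (2 ^ m) ^ 11 := by rw [Finset.sum_const, Finset.card_range, smul_eq_mul]
      _ ≤ c ^ 7 := h
  obtain ⟨g, hg, hgα⟩ := c1_code 7 11 c N hc hcN A hcard
  refine ⟨g, hg, ?_⟩
  refine code_prog (N := N) (by norm_num) (by omega) A ?_ ?_
  · intro v hv
    choose α hα using fun i => digits m (v i) (by rw [← hN]; exact hv i)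
    refine ⟨α, fun j hj => ?_⟩
    rw [hA, Finset.mem_biUnion]
    refine ⟨j, Finset.mem_range.2 hj, ?_⟩
    rw [Fintype.mem_piFinset]
    exact fun i => hα i j hj
  · intro α hα
    obtain ⟨x, hx, hx2⟩ := hgα α hα
    exact ⟨g x, ⟨x, hx, rfl⟩, hx2⟩

theorem c1_example : ∃ g : E 7 → E 11, ContDiff ℝ 1 g ∧
    HasProg 3 (g '' {x | ∀ i, x i ∈ Icc (0 : ℝ) 1}) :=
  c1_of 140 (3 ^ 139) (3 ^ 140) rfl (by norm_num) (by norm_num) (by norm_num)

end Pool.Agent.Zk23.KKEx
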