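import Pool.Agent.Zk85.SardNullCore
import Pool.Agent.Zk9.FlatNull
import Pool.Agent.Zk9.TaylorF

/-!
# The borderline case of the sharp Sard theorem
-/

set_option autoImplicit false

open Set Filter Topology Metric Module MeasureTheory
open scoped ContDiff ENNReal

namespace Pool.Agent.Zk23.KKNull

open Pool.Agent.Zk23.KKSard (vert)
open Pool.Agent.Zk23.KKSardR (kk)

theorem sard_null {N Q F : Type} [NormedAddCommGroup N] [NormedSpace ℝ N] [FiniteDimensional ℝ N]
    [NormedAddCommGroup Q] [NormedSpace ℝ Q] [FiniteDimensional ℝ Q]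
    [NormedAddCommGroup F] [NormedSpace ℝ F] [FiniteDimensional ℝ F] [MeasurableSpace F] [BorelSpace F]
    {r : ℕ} (hr : 1 ≤ r) {π : N → Q} {ρ : N → F} (hπ : ContDiff ℝ r π) (hρ : ContDiff ℝ r ρ) (z : Q)
    (w μ : ℕ) (hμ : 1 ≤ μ) (hdim : r * w + μ = r * finrank ℝ F) (ν : Measure F) [ν.IsAddHaarMeasure] :
    ν (ρ '' {x | π x = z ∧ finrank ℝ (vert π ρ x) = w ∧ finrank ℝ (kk π ρ x) = μ}) = 0 :=
  Pool.Agent.Zk85.SardNull.sard_null_of
    (fun r hr g hg hY => Pool.Agent.Zk9.flat_null r hr g hg hY)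
    (fun r hr f hf => Pool.Agent.Zk9.taylor_family r hr f hf)
    hr hπ hρ z w μ hμ hdim ν

end Pool.Agent.Zk23.KKNull
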