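import Pool.Agent.Zk23.KKFinR
import Pool.Agent.Zk23.KKNull

/-!
# The borderline case: strict inequality for progressions of length at least `r + 2`
-/

set_option autoImplicit false

open Set Filter Topology Module MeasureTheory
open scoped ContDiff ENNReal

namespace Pool.Agent.Zk23.KKStrict

open Pool.Agent.Zk23.KKSard (vert exists_proj)
open Pool.Agent.Zk23.KKSardR (kk sard)
open Pool.Agent.Zk23.KKMain (E G rho Pi V)
open Pool.Agent.Zk23.KKMainR
open Pool.Agent.Zk23.KKCor (le_dimH_of_volume)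
open Pool.Agent.Zk23.KKFinR (T card_T set_T lower)
open Pool.Agent.Zk23.KKNull (sard_null)

section

variable {n d : ℕ} (S : Finset ℝ) {f : ∀ t : S, E d → E n}

/-- elements of the kernel of `f t` give elements of `kk` -/
theorem kf_eq_bot (hf : ∀ t, ContDiff ℝ 1 (f t)) (p : (E n × E n) × (∀ t : S, E d))
    (h : finrank ℝ (kk (G S f) (rho S) p) = 0) (t : S) : kf S f p t = ⊥ := by
  classical
  have h0 : kk (G S f) (rho S) p = ⊥ := Submodule.finrank_eq_zero.1 h
  rw [Submodule.eq_bot_iff]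
  intro ξ hξ
  have hξ' : fderiv ℝ (f t) (p.2 t) ξ = 0 := hξ
  have hmem : (((0, 0), Pi.single t ξ) : (E n × E n) × (∀ t : S, E d)) ∈ kk (G S f) (rho S) p := by
    refine ⟨?_, ?_⟩
    · change fderiv ℝ (G S f) p _ = 0
      ext1 s
      rw [fderiv_G S hf]
      by_cases hs : s = t
      · subst hs
        simp [hξ']
      · simp [Pi.single_eq_of_ne hs]
    · change fderiv ℝ (rho S) p _ = 0
      rw [fderiv_rho]
  rw [h0, Submodule.mem_bot] at hmem
  have h1 := congrArg (fun q => q.2 t) hmem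
  simpa using h1

theorem inter_eq_zero (hf : ∀ t, ContDiff ℝ 1 (f t)) (p : (E n × E n) × (∀ t : S, E d))
    (h : finrank ℝ (kk (G S f) (rho S) p) = 0) (α : E n) (hα : ∀ t ∈ S, α ∈ V S p f t) : α = 0 := by
  have h0 : kk (G S f) (rho S) p = ⊥ := Submodule.finrank_eq_zero.1 h
  have h1 : ∀ t : S, ∃ ξ : E d, fderiv ℝ (f t) (p.2 t) ξ = α := by
    intro t
    have := hα t t.2
    rw [V, dif_pos t.2] at this
    exact this
  choose ξ hξ using h1
  have hmem : (((α, 0), ξ) : (E n × E n) × (∀ t : S, E d)) ∈ kk (G S f) (rho S) p := by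
    refine ⟨?_, ?_⟩
    · change fderiv ℝ (G S f) p _ = 0
      ext1 s
      rw [fderiv_G S hf, hξ]
      simp
    · change fderiv ℝ (rho S) p _ = 0
      rw [fderiv_rho]
  rw [h0, Submodule.mem_bot] at hmem
  exact congrArg (fun q => q.1.1) hmem

/-- the pieces of dimension less than `n` -/
theorem piece_null {r : ℕ} (hr : 1 ≤ r) (hf : ∀ t, ContDiff ℝ r (f t)) (w μ : ℕ)
    (h : r * w + μ ≤ r * n) (hne : ¬ (w = n ∧ μ = 0)) :
    volume (rho S '' {p : (E n × E n) × (∀ t : S, E d) | G S f p = 0 ∧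
      finrank ℝ (vert (G S f) (rho S) p) = w ∧ finrank ℝ (kk (G S f) (rho S) p) = μ}) = 0 := by
  have hr0 : (r : ℝ≥0∞) ≠ 0 := by exact_mod_cast (by omega : r ≠ 0)
  have hrt : (r : ℝ≥0∞) ≠ ⊤ := ENNReal.natCast_ne_top r
  rcases h.lt_or_eq with h1 | h1
  · by_contra hcon
    have h2 := le_dimH_of_volume hcon
    have h3 := sard hr (contDiff_G S (f := f) hf) (contDiff_rho S (n := n)) {0} w μ
    rw [dimH_singleton, zero_add] at h3
    have h4 := h2.trans h3
    have h5 : (r : ℝ≥0∞) * n ≤ r * ((w : ℝ≥0∞) + (μ : ℝ≥0∞) / r) := by gcongr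
    rw [mul_add, ENNReal.mul_div_cancel hr0 hrt] at h5
    have h6 : r * n ≤ r * w + μ := by exact_mod_cast h5
    omega
  · have hμ : 1 ≤ μ := by
      by_contra hcon
      have h0 : μ = 0 := by omega
      apply hne
      refine ⟨?_, h0⟩
      rw [h0, add_zero] at h1
      exact Nat.eq_of_mul_eq_mul_left (by omega) h1
    exact sard_null hr (contDiff_G S (f := f) hf) (contDiff_rho S (n := n)) 0 w μ hμ
      (by simpa using h1) volume

end

/-- **Strict inequality** -/
theorem strict {n k r d : ℕ} (hn : 1 ≤ n) (hr : 1 ≤ r) (hk : r + 2 ≤ k) {B : Set (E n)}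
    (hB : CoverR r n d B)
    (hv : volume {ρ : E n | ∃ a, ∀ j : ℕ, j < k → a + (j : ℝ) • ρ ∈ B} ≠ 0) :
    r * n < (r + 1) * d := by
  classical
  by_contra hcon
  push Not at hcon
  apply hv
  -- only `r + 2` terms
  have hsub : {ρ : E n | ∃ a, ∀ j : ℕ, j < k → a + (j : ℝ) • ρ ∈ B} ⊆
      {ρ | ∃ a, ∀ t ∈ T (r + 2), a + t • ρ ∈ B} := by
    rw [← set_T]
    rintro ρ ⟨a, ha⟩
    exact ⟨a, fun j hj => ha j (by omega)⟩
  refine measure_mono_null hsub ?_
  obtain ⟨f, hf, hcov⟩ := hB
  have hr1 : (1 : WithTop ℕ∞) ≤ r := by exact_mod_cast hr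
  have hf1 : ∀ i, ContDiff ℝ 1 (f i) := fun i => (hf i).of_le hr1
  set W := T (r + 2) with hW
  have hWc : W.card = r + 2 := card_T _
  -- restriction of the configurations
  let F : ∀ (S : Finset ℝ) (c : ℝ → ℕ), ∀ t : S, E d → E n := fun S c t => f (c t)
  let I : Finset ℝ → (W → ℕ) → ℕ → ℕ → Set (E n) := fun S c w μ =>
    rho S '' {p : (E n × E n) × (∀ t : S, E d) |
      G S (fun t : S => f (if h : (t : ℝ) ∈ W then c ⟨t, h⟩ else 0)) p = 0 ∧
      finrank ℝ (vert (G S (fun t : S => f (if h : (t : ℝ) ∈ W then c ⟨t, h⟩ else 0))) (rho S) p) = w ∧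
      finrank ℝ (kk (G S (fun t : S => f (if h : (t : ℝ) ∈ W then c ⟨t, h⟩ else 0))) (rho S) p) = μ}
  have hnull : ∀ (S : Finset ℝ) (c : W → ℕ) (w μ : ℕ), r * w + μ ≤ r * n → ¬ (w = n ∧ μ = 0) →
      volume (I S c w μ) = 0 := fun S c w μ h1 h2 =>
    piece_null S hr (fun t => hf _) w μ h1 h2
  have hcover : {ρ : E n | ∃ a, ∀ t ∈ W, a + t • ρ ∈ B} ⊆
      ⋃ S : W.powerset, ⋃ x : {x : ℕ × ℕ // r * x.1 + x.2 ≤ r * n ∧
        ¬ (x.1 = n ∧ x.2 = 0)}, ⋃ c : W → ℕ, I S.1 c x.1.1 x.1.2 := by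
    rintro ρ ⟨a, ha⟩
    have h1 : ∀ t : W, ∃ (i : ℕ) (x : E d), f i x = a + (t : ℝ) • ρ := by
      intro t
      obtain ⟨i, x, hx⟩ := mem_iUnion.1 (hcov (ha t t.2))
      exact ⟨i, x, hx⟩
    choose c x hx using h1
    -- the configuration on a subset
    let P : ∀ S : Finset ℝ, (E n × E n) × (∀ t : S, E d) := fun S =>
      ((a, ρ), fun t => if h : (t : ℝ) ∈ W then x ⟨t, h⟩ else 0)
    let g : ∀ S : Finset ℝ, ∀ t : S, E d → E n := fun S t =>
      f (if h : (t : ℝ) ∈ W then c ⟨t, h⟩ else 0)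
    have hgS : ∀ (S : Finset ℝ) (t : S), ContDiff ℝ 1 (g S t) := fun S t => hf1 _
    have hG : ∀ S ∈ W.powerset, G S (g S) (P S) = 0 := by
      intro S hS
      rw [Finset.mem_powerset] at hS
      ext1 t
      simp only [G, g, P, Pi.zero_apply]
      rw [dif_pos (hS t.2), dif_pos (hS t.2), hx]
      abel
    -- it is enough to find a subset with a good pair of ranks
    suffices hex : ∃ S ∈ W.powerset,
        r * finrank ℝ (vert (G S (g S)) (rho S) (P S)) + finrank ℝ (kk (G S (g S)) (rho S) (P S)) ≤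
          r * n ∧
        ¬ (finrank ℝ (vert (G S (g S)) (rho S) (P S)) = n ∧
          finrank ℝ (kk (G S (g S)) (rho S) (P S)) = 0) by
      obtain ⟨S, hS, h2, h3⟩ := hex
      exact mem_iUnion.2 ⟨⟨S, hS⟩, mem_iUnion.2 ⟨⟨(_, _), h2, h3⟩,
        mem_iUnion.2 ⟨c, P S, ⟨hG S hS, rfl, rfl⟩, rfl⟩⟩⟩
    by_contra hno
    push Not at hno
    obtain ⟨t₀, ht₀⟩ := Infinite.exists_notMem_finset W
    -- the subsets of `r + 1` elements
    have hsub : ∀ t₁ ∈ W, finrank ℝ (vert (G (W.erase t₁) (g (W.erase t₁))) (rho (W.erase t₁))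
          (P (W.erase t₁))) = n ∧
        finrank ℝ (kk (G (W.erase t₁) (g (W.erase t₁))) (rho (W.erase t₁)) (P (W.erase t₁))) = 0 := by
      intro t₁ ht₁
      apply hno _ (Finset.mem_powerset.2 (Finset.erase_subset _ _))
      have hc : (W.erase t₁).card = r + 1 := by rw [Finset.card_erase_of_mem ht₁, hWc]; rfl
      have hnum := numeric (W.erase t₁) (f := g (W.erase t₁)) (hgS _) (t₀ := t₀)
        (fun h => ht₀ (Finset.mem_of_mem_erase h)) hr hc (zero_add r) (P (W.erase t₁))
      rw [zero_mul, zero_add, mul_assoc] at hnum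
      have h4 := Nat.le_of_mul_le_mul_left (Nat.le_of_mul_le_mul_left hnum (by omega)) (by omega)
      refine h4.trans ?_
      rw [Finset.sum_const, Finset.card_univ, Fintype.card_coe, hc, smul_eq_mul]
      exact hcon
    have hrange : ∀ (S : Finset ℝ) (t : ℝ) (ht : t ∈ S) (htW : t ∈ W),
        V S (P S) (g S) t = V W (P W) (g W) t := by
      intro S t ht htW
      rw [V, V, dif_pos ht, dif_pos htW]
    -- all maps are immersions at the points
    have hker : ∀ t : W, finrank ℝ (V W (P W) (g W) t) = d := by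
      intro t
      obtain ⟨t₁, ht₁, hne⟩ : ∃ t₁ ∈ W, t₁ ≠ (t : ℝ) := by
        by_contra hall
        push Not at hall
        have : W ⊆ {(t : ℝ)} := fun s hs => by rw [Finset.mem_singleton]; exact hall s hs
        have := Finset.card_le_card this
        rw [hWc, Finset.card_singleton] at this
        omega
      have htS : (t : ℝ) ∈ W.erase t₁ := Finset.mem_erase.2 ⟨hne.symm, t.2⟩
      have h5 := kf_eq_bot (W.erase t₁) (f := g (W.erase t₁)) (hgS _) (P (W.erase t₁)) (hsub t₁ ht₁).2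
        ⟨t, htS⟩
      have h6 := rank_add_kf (W.erase t₁) (f := g (W.erase t₁)) (P (W.erase t₁)) ⟨t, htS⟩
      rw [h5, finrank_bot, add_zero] at h6
      rw [← hrange _ _ htS t.2]
      exact h6
    -- the tangent spaces have no common vector
    have hw : ∀ α : E n, (∀ t ∈ W, α ∈ V W (P W) (g W) t) → α = 0 := by
      intro α hα
      obtain ⟨t₁, ht₁⟩ : W.Nonempty := by rw [← Finset.card_pos, hWc]; omega
      refine inter_eq_zero (W.erase t₁) (f := g (W.erase t₁)) (hgS _) (P (W.erase t₁)) (hsub t₁ ht₁).2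
        α fun t ht => ?_
      rw [hrange _ _ ht (Finset.mem_of_mem_erase ht)]
      exact hα t (Finset.mem_of_mem_erase ht)
    have hvert0 : finrank ℝ (vert (Pi W (g W) t₀) (rho W) (P W)) = 0 := by
      have : vert (Pi W (g W) t₀) (rho W) (P W) = ⊥ := by
        rw [Submodule.eq_bot_iff]
        intro α hα
        exact hw α ((mem_vert_Pi W (hgS W) ht₀ (P W) α).1 hα)
      rw [this, finrank_bot]
    have hkf0 : ∀ t : W, finrank ℝ (kf W (g W) (P W) t) = 0 := by
      intro t
      have h6 := rank_add_kf W (f := g W) (P W) t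
      rw [hker t] at h6
      omega
    have hkk0 : finrank ℝ (kk (G W (g W)) (rho W) (P W)) = 0 := by
      have h7 := finrank_kk_G W (f := g W) (hgS W) ht₀ (P W)
      rw [hvert0, Finset.sum_eq_zero fun t _ => hkf0 t] at h7
      omega
    have hkl := Pool.Agent.Zk50.Kak.kakeya_linear W (V W (P W) (g W)) (vert (G W (g W)) (rho W) (P W))
      (vert (Pi W (g W) t₀) (rho W) (P W)) (mem_vert_G W (hgS W) (P W))
      (mem_vert_Pi W (hgS W) ht₀ (P W))
    rw [hvert0, zero_add] at hkl
    have hkl' : (r + 2) * (finrank ℝ (vert (G W (g W)) (rho W) (P W)) - d) ≤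
        finrank ℝ (vert (G W (g W)) (rho W) (P W)) := by
      refine le_trans (le_of_eq ?_) hkl
      have : ∑ t ∈ W, (finrank ℝ (vert (G W (g W)) (rho W) (P W)) - finrank ℝ (V W (P W) (g W) t)) =
          ∑ t ∈ W, (finrank ℝ (vert (G W (g W)) (rho W) (P W)) - d) :=
        Finset.sum_congr rfl fun t ht => by rw [hker ⟨t, ht⟩]
      rw [this, Finset.sum_const, hWc, smul_eq_mul]
    set l := finrank ℝ (vert (G W (g W)) (rho W) (P W)) with hl
    have hln : l < n := by
      by_contra hge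
      push Not at hge
      have hln' : l ≤ n := by
        rw [hl]
        refine (Submodule.finrank_le _).trans ?_
        simp
      have : l = n := le_antisymm hln' hge
      rw [this] at hkl'
      -- `(r + 2) (n - d) ≤ n` and `(r + 1) d ≤ r n`
      rcases Nat.lt_or_ge d n with h8 | h8
      · obtain ⟨e, rfl⟩ := Nat.exists_eq_add_of_lt h8
        have e1 : d + e + 1 - d = e + 1 := by omega
        rw [e1] at hkl'
        nlinarith
      · nlinarith
    have hfin := hno W (Finset.mem_powerset_self W) (by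
      rw [hkk0, add_zero]
      exact Nat.mul_le_mul_left _ hln.le)
    omega
  refine measure_mono_null hcover ?_
  rw [measure_iUnion_null_iff]
  intro S
  rw [measure_iUnion_null_iff]
  intro x
  rw [measure_iUnion_null_iff]
  intro c
  exact hnull _ c _ _ x.2.1 x.2.2

end Pool.Agent.Zk23.KKStrict
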