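import Pool.Agent.Zk23.KKCor
import Pool.Agent.Zk23.KKEx
import Pool.Agent.Zk50.KakPack
import Pool.Agent.Zk72.KakEx

/-!
# Exact least dimensions for countable unions of smooth images
-/

set_option autoImplicit false

open Set Filter Topology Module MeasureTheory
open scoped ContDiff ENNReal

namespace Pool.Agent.Zk23.KKFin

open Pool.Agent.Zk23.KKMain (SmoothDim)
open Pool.Agent.Zk23.KKCor
open Pool.Agent.Results.MP_4b405e_nt.AlgebraicSets (coverNum upperMinkowski)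

abbrev E (n : ℕ) := EuclideanSpace ℝ (Fin n)

/-- the packing dimension of `X` is less than `s` -/
def PackingLT {n : ℕ} (X : Set (E n)) (s : ℝ) : Prop :=
  ∃ s' : ℝ, 0 ≤ s' ∧ s' < s ∧ ∃ Y : ℕ → Set (E n), X ⊆ ⋃ i, Y i ∧
    ∀ i, Bornology.IsBounded (Y i) ∧ upperMinkowski (Y i) ≤ (s' : EReal)

theorem packing_bounds {n : ℕ} {X : Set (E n)} (h : PackingLT X ((n : ℝ) / 2)) :
    2 * dimH X ≤ n ∧ dimH (X ×ˢ X) < n := by
  obtain ⟨s, hs0, hs, Y, hXY, hY⟩ := h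
  have h1 : ∀ i j, dimH (Y i) ≤ ENNReal.ofReal s ∧ dimH (Y i ×ˢ Y j) ≤ ENNReal.ofReal (2 * s) :=
    fun i j => Pool.Agent.Zk50.KakPack.dimH_le_and_prod_le (Y i) (Y j) (hY i).1 (hY j).1 s hs0
      (hY i).2 (hY j).2
  have h2 : ENNReal.ofReal (2 * s) < (n : ℝ≥0∞) := by
    rw [← ENNReal.ofReal_natCast]
    exact (ENNReal.ofReal_lt_ofReal_iff_of_nonneg (by positivity)).2 (by linarith)
  constructor
  · have h3 : dimH X ≤ ENNReal.ofReal s := by
      refine (dimH_mono hXY).trans ?_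
      rw [dimH_iUnion]
      exact iSup_le fun i => (h1 i i).1
    calc 2 * dimH X ≤ 2 * ENNReal.ofReal s := by gcongr
      _ = ENNReal.ofReal (2 * s) := by
          rw [ENNReal.ofReal_mul (by norm_num)]
          simp
      _ ≤ n := h2.le
  · refine lt_of_le_of_lt ?_ h2
    have h3 : X ×ˢ X ⊆ ⋃ i, ⋃ j, Y i ×ˢ Y j := by
      rintro ⟨x, y⟩ ⟨hx, hy⟩
      obtain ⟨i, hi⟩ := mem_iUnion.1 (hXY hx)
      obtain ⟨j, hj⟩ := mem_iUnion.1 (hXY hy)
      exact mem_iUnion.2 ⟨i, mem_iUnion.2 ⟨j, hi, hj⟩⟩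
    refine (dimH_mono h3).trans ?_
    rw [dimH_iUnion]
    refine iSup_le fun i => ?_
    rw [dimH_iUnion]
    exact iSup_le fun j => (h1 i j).2

theorem upperMinkowski_nonneg {n : ℕ} (B : Set (E n)) : 0 ≤ upperMinkowski B := by
  have h1 : ∀ᶠ δ : ℝ in 𝓝[>] 0, (0 : EReal) ≤
      ((Real.log (coverNum B δ) / Real.log (1 / δ) : ℝ) : EReal) := by
    have h2 : ∀ᶠ δ : ℝ in 𝓝[>] 0, δ < 1 :=
      mem_nhdsWithin_of_mem_nhds (Iio_mem_nhds one_pos)
    filter_upwards [h2, self_mem_nhdsWithin] with δ h3 h4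
    have h4' : (0 : ℝ) < δ := h4
    have h5 : 0 ≤ Real.log (coverNum B δ) := Real.log_natCast_nonneg _
    have h6 : 0 ≤ Real.log (1 / δ) := Real.log_nonneg (by
      rw [le_div_iff₀ h4']; linarith)
    have h7 : 0 ≤ Real.log (coverNum B δ) / Real.log (1 / δ) := div_nonneg h5 h6
    exact_mod_cast h7
  exact le_limsup_of_frequently_le h1.frequently

theorem le_upperMinkowski {n c : ℕ} {B : Set (E n)} (hb : Bornology.IsBounded B)
    (h : (c : ℝ≥0∞) ≤ dimH B) : ((c : ℝ) : EReal) ≤ upperMinkowski B := by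
  by_contra hcon
  push Not at hcon
  obtain ⟨s, hs1, hs2⟩ := EReal.lt_iff_exists_real_btwn.1 hcon
  have hs0 : 0 ≤ s := by
    have := (upperMinkowski_nonneg B).trans hs1.le
    exact_mod_cast this
  have h1 := (Pool.Agent.Zk50.KakPack.dimH_le_and_prod_le B B hb hb s hs0 hs1.le hs1.le).1
  have h2 : ENNReal.ofReal s < (c : ℝ≥0∞) := by
    rw [← ENNReal.ofReal_natCast]
    exact (ENNReal.ofReal_lt_ofReal_iff_of_nonneg hs0).2 (by exact_mod_cast hs2)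
  exact absurd (h.trans h1) (not_le.2 h2)

/-- `B` is a countable union of smooth images, up to a set of packing dimension less than `n/2` -/
def Admissible {n : ℕ} (B : Set (E n)) : Prop :=
  ∃ (m : ℕ → ℕ) (f : ∀ i, E (m i) → E n) (X : Set (E n)), (∀ i, ContDiff ℝ ∞ (f i)) ∧
    PackingLT X ((n : ℝ) / 2) ∧ B = (⋃ i, range (f i)) ∪ X

theorem lower {n k : ℕ} (hk : 1 ≤ k) {B : Set (E n)} (hB : Admissible B)
    (hv : volume {r | ∃ a, ∀ j : ℕ, j < k → a + (j : ℝ) • r ∈ B} ≠ 0) :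
    ((n - n / k : ℕ) : ℝ≥0∞) ≤ dimH B := by
  obtain ⟨m, f, X, hf, hX, rfl⟩ := hB
  obtain ⟨h1, h2⟩ := packing_bounds hX
  exact (images_lower n k hk hf X h1 h2 hv).trans (dimH_mono subset_union_left)

theorem volume_cube_ne {n : ℕ} {R : Set (E n)} (h : {r : E n | ∀ i, r i ∈ Icc (0 : ℝ) 1} ⊆ R) :
    volume R ≠ 0 := by
  have h1 : (interior {r : E n | ∀ i, r i ∈ Icc (0 : ℝ) 1}).Nonempty := by
    refine ⟨WithLp.toLp 2 fun _ => 1 / 2, ?_⟩
    rw [mem_interior_iff_mem_nhds]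
    have h2 : ∀ i : Fin n, ∀ᶠ r : E n in 𝓝 (WithLp.toLp 2 fun _ => (1 / 2 : ℝ)), r i ∈ Icc (0 : ℝ) 1 := by
      intro i
      have hc : ContinuousAt (fun r : E n => r i) (WithLp.toLp 2 fun _ => (1 / 2 : ℝ)) :=
        (EuclideanSpace.proj i : E n →L[ℝ] ℝ).continuous.continuousAt
      exact hc.eventually (Icc_mem_nhds (by norm_num) (by norm_num))
    exact (eventually_all.2 h2)
  have h3 : 0 < volume {r : E n | ∀ i, r i ∈ Icc (0 : ℝ) 1} := by
    refine lt_of_lt_of_le ?_ (measure_mono interior_subset)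
    exact isOpen_interior.measure_pos volume h1
  exact (lt_of_lt_of_le h3 (measure_mono h)).ne'

theorem example_mem (n k : ℕ) (hn : 1 ≤ n) (hk : 1 ≤ k) : ∃ B : Set (E n), Bornology.IsBounded B ∧
    Admissible B ∧ {r : E n | ∀ i, r i ∈ Icc (0 : ℝ) 1} ⊆
      {r | ∃ a, ∀ j : ℕ, j < k → a + (j : ℝ) • r ∈ B} ∧
    upperMinkowski B ≤ (((n - n / k : ℕ) : ℝ) : EReal) := by
  obtain ⟨f, hf, hb, hP, hd⟩ := Pool.Agent.Zk72.KakEx.smooth_example n k hk
  refine ⟨⋃ j, range (f j), hb, ?_, fun r hr => hP r hr, hd⟩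
  refine ⟨fun _ => n, fun i => f ⟨i % k, Nat.mod_lt _ (by omega)⟩, ∅, fun i => hf _, ?_, ?_⟩
  · refine ⟨0, le_rfl, by positivity, fun _ => ∅, by simp, fun i => ⟨Bornology.isBounded_empty, ?_⟩⟩
    have h1 : ∀ δ : ℝ, coverNum (∅ : Set (E n)) δ = 0 := by
      intro δ
      rw [coverNum]
      apply Nat.sInf_eq_zero.2
      left
      exact ⟨fun i => i.elim0, fun i => i.elim0, by simp⟩
    rw [upperMinkowski]
    simp only [h1, Nat.cast_zero, Real.log_zero, zero_div]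
    exact (limsup_const _).le
  · rw [union_empty]
    ext x
    simp only [mem_iUnion]
    constructor
    · rintro ⟨j, hj⟩
      refine ⟨j, ?_⟩
      have : (⟨(j : ℕ) % k, Nat.mod_lt _ (by omega)⟩ : Fin k) = j := by
        ext
        exact Nat.mod_eq_of_lt j.2
      rw [this]
      exact hj
    · rintro ⟨i, hi⟩
      exact ⟨_, hi⟩

theorem least (n k : ℕ) (hn : 1 ≤ n) (hk : 1 ≤ k) :
    IsLeast {D : EReal | ∃ B : Set (E n), Bornology.IsBounded B ∧ Admissible B ∧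
      {r : E n | ∀ i, r i ∈ Icc (0 : ℝ) 1} ⊆ {r | ∃ a, ∀ j : ℕ, j < k → a + (j : ℝ) • r ∈ B} ∧
      upperMinkowski B = D} (((n - n / k : ℕ) : ℝ) : EReal) ∧
    IsLeast {D : ℝ≥0∞ | ∃ B : Set (E n), Bornology.IsBounded B ∧ Admissible B ∧
      {r : E n | ∀ i, r i ∈ Icc (0 : ℝ) 1} ⊆ {r | ∃ a, ∀ j : ℕ, j < k → a + (j : ℝ) • r ∈ B} ∧
      dimH B = D} ((n - n / k : ℕ) : ℝ≥0∞) := by
  obtain ⟨B, hb, hA, hP, hd⟩ := example_mem n k hn hk
  have hlow : ∀ B : Set (E n), Admissible B → {r : E n | ∀ i, r i ∈ Icc (0 : ℝ) 1} ⊆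
      {r | ∃ a, ∀ j : ℕ, j < k → a + (j : ℝ) • r ∈ B} → ((n - n / k : ℕ) : ℝ≥0∞) ≤ dimH B :=
    fun B hA hP => lower hk hA (volume_cube_ne hP)
  refine ⟨⟨⟨B, hb, hA, hP, le_antisymm hd (le_upperMinkowski hb (hlow B hA hP))⟩, ?_⟩,
    ⟨⟨B, hb, hA, hP, le_antisymm ?_ (hlow B hA hP)⟩, ?_⟩⟩
  · rintro D ⟨B', hb', hA', hP', rfl⟩
    exact le_upperMinkowski hb' (hlow B' hA' hP')
  · have h1 := (Pool.Agent.Zk50.KakPack.dimH_le_and_prod_le B B hb hb ((n - n / k : ℕ) : ℝ)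
      (by positivity) hd hd).1
    rwa [ENNReal.ofReal_natCast] at h1
  · rintro D ⟨B', hb', hA', hP', rfl⟩
    exact hlow B' hA' hP'

end Pool.Agent.Zk23.KKFin
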