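import Pool.Agent.Zk23.KKExact

/-!
# Integers without the digit zero: `f(k) ≤ log k / log (k + 1)`
-/

set_option autoImplicit false

open Set Filter Topology MeasureTheory
open scoped ContDiff

namespace Pool.Agent.Zk23.KKDigit

open Pool.Agent.Zk23.KKEquiv (E)
open Pool.Agent.Zk23.KKGraphR (graphSet)
open Pool.Agent.Zk23.KKGraphS (Fin1 graph_exact)
open Pool.Agent.Zk23.KKFinal (diffs cube)

theorem exists_start (k v : ℕ) (L : ℕ) : ∃ α < (k + 1) ^ L, ∀ j < k, ∀ i < L,
    ((α + j * v) / (k + 1) ^ i) % (k + 1) ≠ 0 := by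
  induction L with
  | zero => exact ⟨0, by simp, fun j _ i hi => absurd hi (Nat.not_lt_zero i)⟩
  | succ L ih =>
    obtain ⟨α, hα, h⟩ := ih
    -- the next digit
    obtain ⟨a, ha1, ha2⟩ : ∃ a < k + 1, ∀ j < k, ((α + j * v) / (k + 1) ^ L + a) % (k + 1) ≠ 0 := by
      by_contra hcon
      push Not at hcon
      have h1 : Finset.range (k + 1) ⊆ (Finset.range k).image (fun j =>
          (k + 1 - (α + j * v) / (k + 1) ^ L % (k + 1)) % (k + 1)) := by
        intro a ha
        obtain ⟨j, hj, hja⟩ := hcon a (Finset.mem_range.1 ha)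
        refine Finset.mem_image.2 ⟨j, Finset.mem_range.2 hj, ?_⟩
        set c := (α + j * v) / (k + 1) ^ L with hc
        have h2 : c % (k + 1) < k + 1 := Nat.mod_lt _ (by omega)
        have h3 : a < k + 1 := Finset.mem_range.1 ha
        have h4 : (c % (k + 1) + a) % (k + 1) = 0 := by
          rw [Nat.mod_add_mod]
          exact hja
        have h5 : k + 1 ∣ c % (k + 1) + a := Nat.dvd_of_mod_eq_zero h4
        obtain ⟨e, he⟩ := h5
        have h6 : e < 2 := by
          by_contra hcon2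
          have : (k + 1) * 2 ≤ (k + 1) * e := Nat.mul_le_mul_left _ (not_lt.1 hcon2)
          omega
        interval_cases e
        · have h7 : c % (k + 1) = 0 := by omega
          have h8 : a = 0 := by omega
          rw [h7, h8, Nat.sub_zero, Nat.mod_self]
        · have h7 : k + 1 - c % (k + 1) = a := by omega
          rw [h7, Nat.mod_eq_of_lt h3]
      have h9 := (Finset.card_le_card h1).trans Finset.card_image_le
      rw [Finset.card_range, Finset.card_range] at h9
      omega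
    refine ⟨α + a * (k + 1) ^ L, ?_, fun j hj i hi => ?_⟩
    · have h1 : a * (k + 1) ^ L ≤ k * (k + 1) ^ L := Nat.mul_le_mul_right _ (by omega)
      calc α + a * (k + 1) ^ L < (k + 1) ^ L + k * (k + 1) ^ L := by omega
        _ = (k + 1) ^ (L + 1) := by ring
    · have h1 : α + a * (k + 1) ^ L + j * v = α + j * v + (k + 1) ^ i * (a * (k + 1) ^ (L - i)) := by
        have h2 : (k + 1) ^ L = (k + 1) ^ i * (k + 1) ^ (L - i) := by
          rw [← pow_add]
          congr 1
          omega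
        rw [h2]
        ring
      rw [h1, Nat.add_mul_div_left _ _ (pow_pos (by omega) i)]
      rcases Nat.lt_or_ge i L with hiL | hiL
      · have h3 : a * (k + 1) ^ (L - i) = (k + 1) * (a * (k + 1) ^ (L - i - 1)) := by
          obtain ⟨e, he⟩ : ∃ e, L - i = e + 1 := ⟨L - i - 1, by omega⟩
          rw [he, Nat.add_sub_cancel]
          ring
        rw [h3, Nat.add_mul_mod_self_left]
        exact h j hj i hiL
      · obtain rfl : i = L := by omega
        rw [Nat.sub_self, pow_zero, mul_one]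
        exact ha2 j hj

theorem digit_expand (q x : ℕ) (L : ℕ) :
    ∑ i : Fin L, q ^ (i : ℕ) * (x / q ^ (i : ℕ) % q) + q ^ L * (x / q ^ L) = x := by
  induction L with
  | zero => simp
  | succ L ih =>
    rw [Fin.sum_univ_castSucc]
    simp only [Fin.val_castSucc, Fin.val_last]
    have h1 : x / q ^ (L + 1) = x / q ^ L / q := by rw [pow_succ, Nat.div_div_eq_div_mul]
    have h2 := Nat.mod_add_div (x / q ^ L) q
    calc ∑ i : Fin L, q ^ (i : ℕ) * (x / q ^ (i : ℕ) % q) + q ^ L * (x / q ^ L % q) +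
          q ^ (L + 1) * (x / q ^ (L + 1))
        = ∑ i : Fin L, q ^ (i : ℕ) * (x / q ^ (i : ℕ) % q) +
          q ^ L * (x / q ^ L % q + q * (x / q ^ L / q)) := by rw [h1]; ring
      _ = x := by rw [h2, ih]

/-- a set of integers of size `k^L (k + 1)` -/
theorem finite_set (k : ℕ) (L : ℕ) : ∃ A : Finset (Fin 1 → ℤ), A.card ≤ k ^ L * (k + 1) ∧
    ∀ v : Fin 1 → ℕ, (∀ i, v i < (k + 1) ^ L) → ∃ α : Fin 1 → ℤ, ∀ j : ℕ, j < k →
      (fun i => α i + (j : ℤ) * (v i : ℤ)) ∈ A := by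
  classical
  refine ⟨(Finset.univ : Finset ((Fin L → Fin k) × Fin (k + 1))).image (fun c _ =>
    ((∑ i : Fin L, (k + 1) ^ (i : ℕ) * ((c.1 i : ℕ) + 1) + (k + 1) ^ L * (c.2 : ℕ) : ℕ) : ℤ)), ?_, ?_⟩
  · refine Finset.card_image_le.trans ?_
    simp
  · intro v hv
    obtain ⟨α, hα, h⟩ := exists_start k (v 0) L
    refine ⟨fun _ => α, fun j hj => ?_⟩
    rw [Finset.mem_image]
    have hk : 0 < k := by omega
    have hdig : ∀ i : Fin L, (α + j * v 0) / (k + 1) ^ (i : ℕ) % (k + 1) - 1 < k := by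
      intro i
      have h1 := Nat.mod_lt ((α + j * v 0) / (k + 1) ^ (i : ℕ)) (by omega : 0 < k + 1)
      omega
    have htop : (α + j * v 0) / (k + 1) ^ L < k + 1 := by
      rw [Nat.div_lt_iff_lt_mul (by positivity)]
      have h1 : j * v 0 ≤ k * (k + 1) ^ L := Nat.mul_le_mul hj.le (hv 0).le
      calc α + j * v 0 < (k + 1) ^ L + k * (k + 1) ^ L := by omega
        _ = (k + 1) * (k + 1) ^ L := by ring
    refine ⟨(fun i => ⟨_, hdig i⟩, ⟨_, htop⟩), Finset.mem_univ _, ?_⟩
    ext i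
    obtain rfl : i = 0 := Subsingleton.elim _ _
    simp only
    have h2 : ∑ i : Fin L, (k + 1) ^ (i : ℕ) * ((α + j * v 0) / (k + 1) ^ (i : ℕ) % (k + 1) - 1 + 1) =
        ∑ i : Fin L, (k + 1) ^ (i : ℕ) * ((α + j * v 0) / (k + 1) ^ (i : ℕ) % (k + 1)) := by
      refine Finset.sum_congr rfl fun i _ => ?_
      rw [Nat.sub_add_cancel (Nat.one_le_iff_ne_zero.2 (h j hj i i.2))]
    rw [h2, digit_expand]
    push_cast
    ring

/-- the exponent of `k`-term progressions is at most `log k / log (k + 1)` -/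
theorem fin1 (k : ℕ) (hk : 1 ≤ k) (t : ℝ) (ht : Real.log k < t * Real.log (k + 1)) : Fin1 k t := by
  have hk1 : (1 : ℝ) ≤ k := by exact_mod_cast hk
  have hlog : 0 < Real.log ((k : ℝ) + 1) := Real.log_pos (by linarith)
  set τ : ℝ := Real.log k / Real.log (k + 1) with hτ
  have hτ0 : 0 ≤ τ := div_nonneg (Real.log_nonneg hk1) hlog.le
  have hτt : τ < t := by
    rw [hτ, div_lt_iff₀ hlog]
    exact ht
  have hkτ : ((k : ℝ) + 1) ^ τ = k := by
    rw [Real.rpow_def_of_pos (by linarith), hτ, mul_div_cancel₀ _ hlog.ne',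
      Real.exp_log (by linarith)]
  have hev1 : ∀ᶠ q : ℕ in atTop, (((k : ℝ) + 1) ^ τ * (k + 1) : ℝ) ≤ (q : ℝ) ^ (t - τ) := by
    have h1 : Tendsto (fun p : ℕ => (p : ℝ) ^ (t - τ)) atTop atTop :=
      (tendsto_rpow_atTop (by linarith)).comp tendsto_natCast_atTop_atTop
    exact h1.eventually_ge_atTop _
  filter_upwards [hev1, eventually_ge_atTop 2] with Q hQ hQ2
  have hQ0 : (0 : ℝ) < Q := by
    have : 0 < Q := by omega
    exact_mod_cast this
  obtain ⟨A, hA1, hA2⟩ := finite_set k (Nat.clog (k + 1) Q)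
  refine ⟨A, ?_, fun v hv => hA2 v fun i => (hv i).trans_le (Nat.le_pow_clog (by omega) Q)⟩
  have hclog : (((k + 1) ^ Nat.clog (k + 1) Q : ℕ) : ℝ) ≤ (k + 1) * Q := by
    have h1 : (k + 1) ^ (Nat.clog (k + 1) Q).pred < Q := Nat.pow_pred_clog_lt_self (by omega) (by omega)
    have h2 : 0 < Nat.clog (k + 1) Q := Nat.clog_pos (by omega) hQ2
    have h3 : (k + 1) ^ Nat.clog (k + 1) Q = (k + 1) * (k + 1) ^ (Nat.clog (k + 1) Q).pred := by
      rw [← pow_succ', Nat.pred_eq_sub_one, Nat.sub_add_cancel h2]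
    rw [h3]
    push_cast
    have h4 : (((k + 1) ^ (Nat.clog (k + 1) Q).pred : ℕ) : ℝ) ≤ Q := by exact_mod_cast h1.le
    push_cast at h4
    gcongr
  calc (A.card : ℝ) ≤ (k : ℝ) ^ (Nat.clog (k + 1) Q) * (k + 1) := by exact_mod_cast hA1
    _ = ((((k + 1) ^ Nat.clog (k + 1) Q : ℕ) : ℝ)) ^ τ * (k + 1) := by
        push_cast
        rw [← Real.rpow_natCast ((k : ℝ) + 1), ← Real.rpow_mul (by linarith), mul_comm _ τ,
          Real.rpow_mul (by linarith), hkτ, Real.rpow_natCast]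
    _ ≤ (((k : ℝ) + 1) * Q) ^ τ * (k + 1) := by gcongr
    _ = (((k : ℝ) + 1) ^ τ * (k + 1)) * (Q : ℝ) ^ τ := by
        rw [Real.mul_rpow (by linarith) hQ0.le]
        ring
    _ ≤ (Q : ℝ) ^ (t - τ) * (Q : ℝ) ^ τ := by gcongr
    _ = (Q : ℝ) ^ t := by
        rw [← Real.rpow_add hQ0]
        congr 1
        ring

/-- **Graphs with nearly all differences, for every length** -/
theorem graphs (s d m k : ℕ) (hs : 1 ≤ s) (hd : 1 ≤ d) (hk : 1 ≤ k)
    (h : s * m * Real.log k < d * Real.log (1 + 1 / k)) (ε : ℝ) (hε : 0 < ε) :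
    ∃ g : E d → E m, ContDiff ℝ s g ∧
      ENNReal.ofReal (1 - ε) ≤ volume (cube (d + m) ∩ diffs k (graphSet g)) := by
  have hk1 : (1 : ℝ) ≤ k := by exact_mod_cast hk
  have hlog : 0 < Real.log ((k : ℝ) + 1) := Real.log_pos (by linarith)
  have hd0 : (0 : ℝ) < d := by exact_mod_cast hd
  have hden : (0 : ℝ) < d + s * m := by positivity
  have h1 : Real.log (1 + 1 / (k : ℝ)) = Real.log (k + 1) - Real.log k := by
    rw [← Real.log_div (by linarith) (by linarith)]
    congr 1
    field_simp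
  rw [h1] at h
  have h2 : Real.log k / Real.log (k + 1) < d / (d + s * m) := by
    rw [div_lt_div_iff₀ hlog hden]
    nlinarith
  obtain ⟨t, ht1, ht2⟩ := exists_between h2
  rw [div_lt_iff₀ hlog] at ht1
  rw [lt_div_iff₀ hden] at ht2
  refine graph_exact k d m s hk hd hs t ?_ (fin1 k hk t ht1) ε hε
  push_cast
  calc t * (d + m * s) = t * (d + s * m) := by ring
    _ < d := ht2

end Pool.Agent.Zk23.KKDigit
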