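import Pool.Agent.Zk23.KKSq

/-!
# `C^s` graphs with nearly all differences for `s m ≤ c d / (log log k + 1)`
-/

set_option autoImplicit false

open Set Filter Topology MeasureTheory
open scoped ContDiff

namespace Pool.Agent.Zk23.KKSq2

open Pool.Agent.Zk23.KKEquiv (E)
open Pool.Agent.Zk23.KKGraphR (graphSet)
open Pool.Agent.Zk23.KKGraphS (Fin1 graph_exact)
open Pool.Agent.Zk23.KKFinal (diffs cube)
open Pool.Agent.Zk23.KKSq (int_classes)
open Pool.Agent.Zk23.KKDigit (digit_expand)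
open Pool.Agent.Zk63.AKL2 (numerics)

theorem prod_le (T : Finset ℕ) (hT : ∀ p ∈ T, p.Prime ∧ p ≠ 2) :
    ((∏ p ∈ T, ((p + 1) / 2) : ℕ) : ℝ) ≤ (2 / 3 : ℝ) ^ T.card * ((∏ p ∈ T, p : ℕ) : ℝ) := by
  push_cast
  rw [← Finset.prod_const, ← Finset.prod_mul_distrib]
  refine Finset.prod_le_prod (fun p _ => Nat.cast_nonneg _) fun p hp => ?_
  obtain ⟨h1, h2⟩ := hT p hp
  have h3 : 3 ≤ p := by
    have := h1.two_le
    omega
  have h4 : (((p + 1) / 2 : ℕ) : ℝ) ≤ ((p + 1 : ℕ) : ℝ) / 2 := Nat.cast_div_le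
  have h5 : (3 : ℝ) ≤ p := by exact_mod_cast h3
  push_cast at h4
  linarith

/-- a set of integers with digits in base `Q` -/
theorem digit_set (Q k : ℕ) (Y : ℕ → ℤ) (P : Finset ℤ)
    (hP : ∀ j < k, ∀ v < Q, Y v + (j : ℤ) * (v : ℤ) ∈ P) (hQ : 1 ≤ Q) (L : ℕ) :
    ∃ A : Finset (Fin 1 → ℤ), A.card ≤ P.card ^ L ∧
      ∀ v : Fin 1 → ℕ, (∀ i, v i < Q ^ L) → ∃ α : Fin 1 → ℤ, ∀ j : ℕ, j < k →
        (fun i => α i + (j : ℤ) * (v i : ℤ)) ∈ A := by
  classical
  refine ⟨(Fintype.piFinset fun _ : Fin L => P).image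
    (fun a _ => ∑ i : Fin L, (Q : ℤ) ^ (i : ℕ) * a i), ?_, ?_⟩
  · refine Finset.card_image_le.trans ?_
    simp
  · intro v hv
    refine ⟨fun _ => ∑ i : Fin L, (Q : ℤ) ^ (i : ℕ) * Y (v 0 / Q ^ (i : ℕ) % Q), fun j hj => ?_⟩
    rw [Finset.mem_image]
    refine ⟨fun i => Y (v 0 / Q ^ (i : ℕ) % Q) + (j : ℤ) * ((v 0 / Q ^ (i : ℕ) % Q : ℕ) : ℤ), ?_, ?_⟩
    · rw [Fintype.mem_piFinset]
      intro i
      exact hP j hj _ (Nat.mod_lt _ hQ)
    · ext i
      obtain rfl : i = 0 := Subsingleton.elim _ _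
      simp only
      have h1 := digit_expand Q (v 0) L
      rw [Nat.div_eq_of_lt (hv 0), mul_zero, add_zero] at h1
      have h2 : (v 0 : ℤ) = ∑ i : Fin L, (Q : ℤ) ^ (i : ℕ) * ((v 0 / Q ^ (i : ℕ) % Q : ℕ) : ℤ) := by
        conv_lhs => rw [← h1]
        push_cast
        rfl
      have h3 : (j : ℤ) * (v 0 : ℤ) =
          ∑ i : Fin L, (Q : ℤ) ^ (i : ℕ) * ((j : ℤ) * ((v 0 / Q ^ (i : ℕ) % Q : ℕ) : ℤ)) := by
        rw [h2, Finset.mul_sum]
        exact Finset.sum_congr rfl fun i _ => by ring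
      rw [h3, ← Finset.sum_add_distrib]
      exact Finset.sum_congr rfl fun i _ => by ring

/-- from one base to all lengths -/
theorem fin1_of_base (Q k : ℕ) (Y : ℕ → ℤ) (P : Finset ℤ)
    (hP : ∀ j < k, ∀ v < Q, Y v + (j : ℤ) * (v : ℤ) ∈ P) (hQ : 2 ≤ Q) (hP1 : 1 ≤ P.card) (t : ℝ)
    (ht : Real.log P.card < t * Real.log Q) : Fin1 k t := by
  have hQ1 : (2 : ℝ) ≤ Q := by exact_mod_cast hQ
  have hQ0 : (0 : ℝ) < Q := by linarith
  have hPR : (1 : ℝ) ≤ P.card := by exact_mod_cast hP1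
  have hlog : 0 < Real.log (Q : ℝ) := Real.log_pos (by linarith)
  set τ : ℝ := Real.log P.card / Real.log Q with hτ
  have hτ0 : 0 ≤ τ := div_nonneg (Real.log_nonneg hPR) hlog.le
  have hτt : τ < t := by
    rw [hτ, div_lt_iff₀ hlog]
    exact ht
  have hkτ : (Q : ℝ) ^ τ = P.card := by
    rw [Real.rpow_def_of_pos hQ0, hτ, mul_div_cancel₀ _ hlog.ne', Real.exp_log (by linarith)]
  have hev1 : ∀ᶠ q : ℕ in atTop, ((Q : ℝ) ^ τ : ℝ) ≤ (q : ℝ) ^ (t - τ) := by
    have h1 : Tendsto (fun p : ℕ => (p : ℝ) ^ (t - τ)) atTop atTop :=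
      (tendsto_rpow_atTop (by linarith)).comp tendsto_natCast_atTop_atTop
    exact h1.eventually_ge_atTop _
  filter_upwards [hev1, eventually_ge_atTop 2] with q hq hq2
  have hq0 : (0 : ℝ) < q := by
    have : 0 < q := by omega
    exact_mod_cast this
  obtain ⟨A, hA1, hA2⟩ := digit_set Q k Y P hP (by omega) (Nat.clog Q q)
  refine ⟨A, ?_, fun v hv => hA2 v fun i => (hv i).trans_le (Nat.le_pow_clog (by omega) q)⟩
  have hclog : ((Q ^ Nat.clog Q q : ℕ) : ℝ) ≤ Q * q := by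
    have h1 : Q ^ (Nat.clog Q q).pred < q := Nat.pow_pred_clog_lt_self (by omega) (by omega)
    have h2 : 0 < Nat.clog Q q := Nat.clog_pos (by omega) hq2
    have h3 : Q ^ Nat.clog Q q = Q * Q ^ (Nat.clog Q q).pred := by
      rw [← pow_succ', Nat.pred_eq_sub_one, Nat.sub_add_cancel h2]
    rw [h3]
    push_cast
    have h4 : ((Q ^ (Nat.clog Q q).pred : ℕ) : ℝ) ≤ q := by exact_mod_cast h1.le
    push_cast at h4
    gcongr
  calc (A.card : ℝ) ≤ (P.card : ℝ) ^ (Nat.clog Q q) := by exact_mod_cast hA1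
    _ = (((Q ^ Nat.clog Q q : ℕ) : ℝ)) ^ τ := by
        push_cast
        rw [← Real.rpow_natCast (Q : ℝ), ← Real.rpow_mul hQ0.le, mul_comm _ τ,
          Real.rpow_mul hQ0.le, hkτ, Real.rpow_natCast]
    _ ≤ ((Q : ℝ) * q) ^ τ := Real.rpow_le_rpow (by positivity) hclog hτ0
    _ = (Q : ℝ) ^ τ * (q : ℝ) ^ τ := Real.mul_rpow hQ0.le hq0.le
    _ ≤ (q : ℝ) ^ (t - τ) * (q : ℝ) ^ τ := mul_le_mul_of_nonneg_right hq (by positivity)
    _ = (q : ℝ) ^ t := by
        rw [← Real.rpow_add hq0]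
        congr 1
        ring

/-- the exponent of the `k`-term progressions is at most `1 - c / (log log k + 1)` -/
theorem fin1_loglog : ∃ c : ℝ, 0 < c ∧ ∀ k : ℕ, 3 ≤ k → ∀ t : ℝ,
    1 - c / (Real.log (Real.log k) + 1) < t → Fin1 k t := by
  classical
  obtain ⟨C, hC, hnum⟩ := numerics
  refine ⟨1 / (2 * C), by positivity, fun k hk t ht => ?_⟩
  obtain ⟨T, hT, hcard, hQ⟩ := hnum (k ^ 2) (by nlinarith)
  have hk3 : (3 : ℝ) ≤ k := by exact_mod_cast hk
  have hx : 1 < Real.log k := by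
    rw [Real.lt_log_iff_exp_lt (by linarith)]
    exact lt_of_lt_of_le Real.exp_one_lt_three hk3
  have hlx : 0 < Real.log (Real.log k) := Real.log_pos hx
  have hlk2 : Real.log ((k ^ 2 : ℕ) : ℝ) = 2 * Real.log k := by
    push_cast
    rw [Real.log_pow]
    norm_num
  rw [hlk2] at hcard hQ
  set x := Real.log k with hxdef
  have hl2 : Real.log (2 * x) = Real.log 2 + Real.log x := Real.log_mul (by norm_num) (by linarith)
  have hlog2 : Real.log 2 < 1 := by
    have := Real.log_two_lt_d9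
    linarith
  have hQpos : 0 < ∏ p ∈ T, p := Finset.prod_pos fun p hp => (hT p hp).1.pos
  obtain ⟨Y, hY⟩ := int_classes T hT k
  set Q : ℕ := ∏ p ∈ T, p with hQdef
  have hQ0 : (0 : ℝ) < Q := by exact_mod_cast hQpos
  -- the digits
  let P : Finset ℤ := (Finset.range k).biUnion fun j =>
    (Finset.range Q).image fun v : ℕ => Y v + (j : ℤ) * (v : ℤ)
  have hP : ∀ j < k, ∀ v < Q, Y v + (j : ℤ) * (v : ℤ) ∈ P := by
    intro j hj v hv
    exact Finset.mem_biUnion.2 ⟨j, Finset.mem_range.2 hj,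
      Finset.mem_image_of_mem (fun v : ℕ => Y v + (j : ℤ) * (v : ℤ)) (Finset.mem_range.2 hv)⟩
  have hPc : P.card ≤ k * (k * ∏ p ∈ T, ((p + 1) / 2)) := by
    have h1 := Finset.card_biUnion_le_card_mul (Finset.range k) (fun j =>
      (Finset.range Q).image fun v : ℕ => Y v + (j : ℤ) * (v : ℤ)) (k * ∏ p ∈ T, ((p + 1) / 2))
      fun j hj => hY j (Finset.mem_range.1 hj)
    rwa [Finset.card_range] at h1
  have hP1 : 1 ≤ P.card := Finset.card_pos.2 ⟨_, hP 0 (by omega) 0 hQpos⟩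
  have hPR : (1 : ℝ) ≤ P.card := by exact_mod_cast hP1
  have hPc' : (P.card : ℝ) ≤ k * (k * ((2 / 3 : ℝ) ^ T.card * (Q : ℝ))) := by
    have h1 : (P.card : ℝ) ≤ k * (k * ((∏ p ∈ T, ((p + 1) / 2) : ℕ) : ℝ)) := by exact_mod_cast hPc
    refine h1.trans ?_
    have := prod_le T hT
    gcongr
  have hlogP : Real.log P.card ≤ Real.log Q - 2 * x := by
    have h1 := Real.log_le_log (by linarith) hPc'
    rw [Real.log_mul (by linarith) (by positivity), Real.log_mul (by linarith) (by positivity),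
      Real.log_mul (by positivity) (by positivity), Real.log_pow] at h1
    have h2 : Real.log (2 / 3 : ℝ) = - Real.log (3 / 2) := by
      rw [← Real.log_inv]
      norm_num
    rw [h2] at h1
    linarith
  have hlogP0 : 0 ≤ Real.log P.card := Real.log_nonneg hPR
  have hlogQ : 0 < Real.log Q := by linarith
  have hQ2 : 2 ≤ Q := by
    by_contra hcon
    have h1 : Q = 1 := by omega
    rw [h1, Nat.cast_one, Real.log_one] at hlogQ
    exact lt_irrefl _ hlogQ
  refine fin1_of_base Q k Y P hP hQ2 hP1 t ?_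
  set δ : ℝ := 1 / (2 * C) / (Real.log x + 1) with hδ
  have h3 : δ * Real.log Q < 2 * x := by
    have h4 : Real.log Q < C * (2 * x) * (2 * (Real.log x + 1)) := by
      refine lt_of_le_of_lt hQ ?_
      rw [hl2]
      have h5 : 0 < C * (2 * x) := by positivity
      refine mul_lt_mul_of_pos_left ?_ h5
      linarith
    calc δ * Real.log Q < δ * (C * (2 * x) * (2 * (Real.log x + 1))) :=
          mul_lt_mul_of_pos_left h4 (by positivity)
      _ = 2 * x := by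
          rw [hδ]
          field_simp
  have h6 : (1 - δ) * Real.log Q < t * Real.log Q := mul_lt_mul_of_pos_right ht hlogQ
  linarith

/-- **Graphs with nearly all differences, for every length** -/
theorem graphs : ∃ c : ℝ, 0 < c ∧ ∀ s d m k : ℕ, 1 ≤ s → 1 ≤ d → 3 ≤ k →
    (s : ℝ) * m ≤ c * d / (Real.log (Real.log k) + 1) → ∀ ε : ℝ, 0 < ε →
    ∃ g : E d → E m, ContDiff ℝ s g ∧
      ENNReal.ofReal (1 - ε) ≤ volume (cube (d + m) ∩ diffs k (graphSet g)) := by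
  obtain ⟨c, hc, hf⟩ := fin1_loglog
  refine ⟨c, hc, fun s d m k hs hd hk h ε hε => ?_⟩
  have hk3 : (3 : ℝ) ≤ k := by exact_mod_cast hk
  have hx : 1 < Real.log k := by
    rw [Real.lt_log_iff_exp_lt (by linarith)]
    exact lt_of_lt_of_le Real.exp_one_lt_three hk3
  have hlx : 0 < Real.log (Real.log k) := Real.log_pos hx
  have hd0 : (0 : ℝ) < d := by exact_mod_cast hd
  have hden : (0 : ℝ) < d + s * m := by positivity
  set δ : ℝ := c / (Real.log (Real.log k) + 1) with hδ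
  have hδ0 : 0 < δ := by positivity
  have h' : (s : ℝ) * m ≤ δ * d := by
    rw [hδ, div_mul_eq_mul_div]
    exact h
  have h2 : 1 - δ < d / (d + s * m) := by
    rw [lt_div_iff₀ hden]
    have h3 : 0 ≤ (s : ℝ) * m := by positivity
    nlinarith [mul_pos hδ0 hd0, mul_nonneg hδ0.le h3, mul_pos hδ0 hδ0]
  obtain ⟨t, ht1, ht2⟩ := exists_between h2
  rw [lt_div_iff₀ hden] at ht2
  refine graph_exact k d m s (by omega) hd hs t ?_ (hf k hk t ht1) ε hε
  push_cast
  calc t * (d + m * s) = t * (d + s * m) := by ring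
    _ < d := ht2

end Pool.Agent.Zk23.KKSq2
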