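import Mathlib
import Pool.Agent.W757.RD.Main

/-! Maximal configurations, in the form which keeps the labels of the marked attracted points
(adapted from `Pool.Agent.W440.RE.Nu`). -/

set_option autoImplicit false

open Topology Filter Metric Set MeasureTheory

open Pool.Agent.H790R3.RB (CV hF cr ND wr rt Ix yx yc sp HypTop StLA StWR hF_iter_smul)
open Pool.Agent.W757.RD

namespace Pool.Agent.Zk23

/-- At a good configuration to which no critical point can be added the other critical points are
not attracted. -/
def StNUr : Prop :=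
  ∀ (d n s l : ℕ) (S : Sys d n s) (KK : Fin s → (Fin n → ℂ) × (ℂ × ℂ) → ℂ)
    (e : Fin l → (Fin n → ℂ) → ℂ) (A : Finset (Pt d))
    (ks : Pt d → Fin s) (ls : Pt d → ℕ) (R : ℕ)
    (y : Ix d n s → ℂ), Goodc S KK e A ks ls R y →
    (∀ (i : Fin (2 * d - 2)), Sum.inl i ∉ A → ∀ (k : Fin s) (l' : ℕ),
      ¬ Goodc S KK e (insert (Sum.inl i) A) (Function.update ks (Sum.inl i) k)
        (Function.update ls (Sum.inl i) l') 0 y) →
    ∀ i : Fin (2 * d - 2), Sum.inl i ∉ A →
      ∀ k, ∀ m : ℕ, ¬ S.InC k (yx y) ((S.F (yx y))^[m] (yc y i, 1))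

theorem NUr (hLA : StLA) : StNUr := by
  intro d n s l S KK e A ks ls R y hgood hmax i₀ hi₀ k m hInC
  obtain ⟨hadm, sel, col, hdet⟩ := hgood
  set i : Pt d := Sum.inl i₀ with hidef
  have hi : i ∉ A := hi₀
  refine hmax i₀ hi₀ k (m % S.per k)
    ⟨⟨hadm.xU, hadm.lam0, hadm.kap0, hadm.crit, ?_, ?_⟩, ?_⟩
  · intro i' hi'
    by_cases h : i' = i
    · subst h
      rw [Function.update_self, Function.update_self]
      exact Nat.mod_lt _ (S.hper k)
    · rw [Function.update_of_ne h, Function.update_of_ne h]
      exact hadm.lsp i' ((Finset.mem_insert.1 hi').resolve_left h)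
  · intro i' hi'
    by_cases h : i' = i
    · subst h
      rw [Function.update_self, Function.update_self]
      refine ⟨hadm.xU, hadm.lam0 k, m / S.per k, ?_⟩
      rw [← Function.iterate_add_apply, Nat.div_add_mod]
      exact hInC
    · rw [Function.update_of_ne h, Function.update_of_ne h]
      exact hadm.att i' ((Finset.mem_insert.1 hi').resolve_left h)
  · obtain ⟨col', hcol'⟩ := hLA (Ix d n s) (Fin (2 * d - 2)) (Fin R)
      (fun j c => fderiv ℂ (S.Er j) y (Pi.single c 1))
      (fun i c => fderiv ℂ (S.Gr KK e A ks ls (sel i)) y (Pi.single c 1)) col (by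
        convert hdet using 2
        ext a c
        rcases a with a | a <;> rfl)
    refine ⟨fun a => a.elim0, Sum.elim col' (fun a => a.elim0), ?_⟩
    have e1 : S.Mx KK e (insert i A) (Function.update ks i k)
        (Function.update ls i (m % S.per k)) (fun a : Fin 0 => a.elim0)
        (Sum.elim col' (fun a => a.elim0)) y =
        (Matrix.of fun j c : Fin (2 * d - 2) =>
          fderiv ℂ (S.Er j) y (Pi.single (col' c) 1)).submatrix
          (Equiv.sumEmpty (Fin (2 * d - 2)) (Fin 0)) (Equiv.sumEmpty (Fin (2 * d - 2)) (Fin 0)) := by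
      ext a c
      rcases a with a | a
      · rcases c with c | c
        · rfl
        · exact c.elim0
      · exact a.elim0
    rw [e1, Matrix.det_submatrix_equiv_self]
    exact hcol'

theorem p_NUr : StNUr := NUr Pool.Agent.H790R3.RB.LA

end Pool.Agent.Zk23
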