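import Mathlib
import Pool.Agent.Zk23.NU

/-! The minimal principle which keeps the labels of the attracted points, part 1: the local part of
the argument (adapted from `Pool.Agent.W402.RE.MINP1`). -/

set_option autoImplicit false
set_option linter.unusedVariables false

open Topology Filter Metric Set MeasureTheory
open Pool.Agent.H790R3.RB (CV hF cr ND wr rt Ix yx yc yx_diff yc_diff exists_low
  lsc_comp StDISC StMAXI StCONT)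
open Pool.Agent.W757.RD
open Pool.Agent.W402.RE.MINP (ys_diff DIprop exists_L)

namespace Pool.Agent.Zk23

/-- the local part of the argument: there is no minimal point -/
theorem no_minr (hLAM : StLAM) (hDISC : StDISC) (hADO : StADO) (hLF : StLF)
    (hOPN : StOPN) (hEXC : StEXC) (hNU : StNUr) (hBAD : StBAD)
    (hNC : StNC) (hCONT : StCONT)
    {β : ℝ} {d n s l : ℕ} (S : Sys d n s) (hNrm : ∀ x ∈ S.U, Nrm (S.co x))
    (e : Fin l → (Fin n → ℂ) → ℂ)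
    (hed : ∀ i, DifferentiableOn ℂ (e i) S.U)
    {KK : Fin s → (Fin n → ℂ) × (ℂ × ℂ) → ℂ} (hK : S.Koe KK)
    {R : ℕ} {C : Set (Fin n → ℂ)} {Ω : Set (Ix d n s → ℂ)} (hΩ : IsOpen Ω)
    {x₀ : CV d} {c₀ ε₀ σ : ℝ} (hc₀ : 0 < c₀) (wT : CV d)
    (hdi : DIprop β d x₀ c₀ ε₀ σ)
    {A : Finset (Pt d)} {ks : Pt d → Fin s}
    {ls : Pt d → ℕ} (hA : l + A.card < n) (hls : ∀ i ∈ A, ls i < S.per (ks i))
    (hA0 : Sum.inr 0 ∈ A) (hA1 : Sum.inr 1 ∈ A)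
    (hmax : ∀ z ∈ Ω, (∀ (i : Fin (2 * d - 2)), Sum.inl i ∉ A → ∀ (k : Fin s) (l' : ℕ),
        ¬ Goodc S KK e (insert (Sum.inl i) A) (Function.update ks (Sum.inl i) k)
        (Function.update ls (Sum.inl i) l') 0 z) ∧ ¬ Goodc S KK e A ks ls (R + 1) z)
    {y₀ : Ix d n s → ℂ} (hlam0 : ∀ k, S.lam k (yx y₀) ≠ 0)
    (sel : Fin R → Pool.Agent.W757.RD.Sys.Rw l d s A) (col : Fin (2 * d - 2) ⊕ Fin R → Ix d n s)
    {N : Set (Fin n → ℂ)} {r : ℝ} {ω : Fin s → (Fin n → ℂ) × ℂ → ℂ}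
    (hL : S.Lin KK N r ω) {Kc r₁ r₂ : ℝ}
    (hr₁ : 0 < r₁) (hr₁₂ : r₁ < r₂) (hr₂ : Kc * r₂ < r)
    {L : ℕ} {Fh : Pt d → ℂ}
    (hKL : ∀ i ∈ A, Kc * ‖S.lam (ks i) (yx y₀) ^ L * Fh i‖ < r)
    {Nt : ℕ} (hNt : ∀ k, S.per k ∣ Nt)
    (hbase : ∀ j : Fin 2, ∃ L' a : ℕ, L ≤ L' ∧ a < S.per (ks (Sum.inr j)) ∧
      Nt = ls (Sum.inr j) + (S.per (ks (Sum.inr j)) * L' + a) ∧
      ‖S.lam (ks (Sum.inr j)) (yx y₀) ^ L' * Fh (Sum.inr j)‖ < r₂)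
    {Jt : (Ix d n s → ℂ) → ℂ}
    (hJd : DifferentiableOn ℂ Jt {y | yx y ∈ S.U ∧ (∀ k, S.lam k (yx y) ≠ 0) ∧
        ∀ i ∈ A, (yx y, (S.F (yx y))^[ls i] (pc y i, 1)) ∈ S.Dom (ks i)})
    (hJ0 : ∀ y : Ix d n s → ℂ, yx y ∈ S.U → (∀ k, S.lam k (yx y) ≠ 0) →
        (∀ i ∈ A, (yx y, (S.F (yx y))^[ls i] (pc y i, 1)) ∈ S.Dom (ks i)) → (∀ k, ys y k ≠ 0) →
        (Jt y = 0 ↔ (S.Mx KK e A ks ls sel col y).det = 0))
    {δ₀ : ℝ} (hδ₀ : 0 < δ₀)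
    (y : Ix d n s → ℂ) (hyL : y ∈ S.Leaf ω e A ks ls L C Kc y₀ Fh)
    (hyN : yx y ∈ N) (hyΩ : y ∈ Ω)
    (hyC : ∀ᶠ z in 𝓝 y, (∀ i, e i (yx z) = e i (yx y)) →
      (∀ k, S.lam k (yx z) = S.lam k (yx y)) → yx z ∈ C)
    (hsep : ∃ ε : ℝ, 0 < ε ∧ ∀ x ∈ S.U, ‖x - yx y‖ < ε → (∀ i, e i x = e i (yx y)) →
      S.co x = S.co (yx y) → x = yx y)
    (hyk : ∀ k, ys y k ≠ 0)
    (hykK : ∀ k, ‖ys y k‖ < Kc) (hyF : ∀ k : Fin s, ∃ i ∈ A, ks i = k ∧ Fh i ≠ 0)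
    (hyJ : Jt y ≠ 0) (hynear : ‖S.co (yx y) - x₀‖ < σ) (hyAN : S.AN β ω Nt r₁ (yx y) (ys y) ≤ ε₀)
    (hymin : ∀ z ∈ S.Leaf ω e A ks ls L C Kc y₀ Fh, z ∈ Ω →
      0 < ‖Jt z * ∏ k : Fin s, ys z k‖ →
      S.AN β ω Nt r₁ (yx y) (ys y) + c₀ / 2 * ∑ i : Fin 2 × Fin (d + 1),
          ‖S.co (yx y) i - wT i‖ ^ 2 -
        δ₀ * Real.log ‖Jt y * ∏ k : Fin s, ys y k‖ ≤
      S.AN β ω Nt r₁ (yx z) (ys z) + c₀ / 2 * ∑ i : Fin 2 × Fin (d + 1),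
          ‖S.co (yx z) i - wT i‖ ^ 2 -
        δ₀ * Real.log ‖Jt z * ∏ k : Fin s, ys z k‖) : False := by
  classical
  obtain ⟨hlamd, hlamθ, -⟩ := hLAM d n s S
  obtain ⟨Oo, hOo, hOe, hErd, -, hGrd⟩ := hADO d n s l S KK e A ks ls hK hed
  -- facts on the leaf
  have hleaf : ∀ z ∈ S.Leaf ω e A ks ls L C Kc y₀ Fh, yx z ∈ N → z ∈ Oo := by
    intro z hz hzN
    obtain ⟨h1, -, -⟩ := hLF d n s l S KK r N ω e A ks ls L C Kc y₀ z Fh hK hL hlam0 hls hKL hzN hz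
    rw [hOe]
    exact ⟨hL.NU hzN, fun k => hL.lam0 _ hzN k, h1⟩
  have hadm : ∀ z ∈ S.Leaf ω e A ks ls L C Kc y₀ Fh, yx z ∈ N → (∀ k, ys z k ≠ 0) →
      S.Adm A ks ls z ∧ ∀ i ∈ A,
        KK (ks i) (yx z, (S.F (yx z))^[ls i] (pc z i, 1)) / ys z (ks i) = Fh i := by
    intro z hz hzN hzk
    exact (hLF d n s l S KK r N ω e A ks ls L C Kc y₀ z Fh hK hL hlam0 hls hKL hzN hz).2.2 hzk
  have hyO : y ∈ Oo := hleaf y hyL hyN
  have hyA := (hadm y hyL hyN hyk).1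
  have hdet : (S.Mx KK e A ks ls sel col y).det ≠ 0 := by
    intro h
    exact hyJ ((hJ0 y hyA.xU hyA.lam0 hyA.att hyk).mpr h)
  -- the open set for the disc lemma
  have hyxc : Continuous (yx : (Ix d n s → ℂ) → (Fin n → ℂ)) := yx_diff.continuous
  set O : Set (Ix d n s → ℂ) := (Oo ∩ {z | ∀ k, ys z k ≠ 0}) ∩ Ω with hO
  have hkopen : IsOpen {z : Ix d n s → ℂ | ∀ k, ys z k ≠ 0} := by
    have : {z : Ix d n s → ℂ | ∀ k, ys z k ≠ 0} = ⋂ k, {z | ys z k ≠ 0} := by ext; simp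
    rw [this]
    exact isOpen_iInter_of_finite fun k =>
      isOpen_ne_fun (ys_diff k).continuous continuous_const
  have hOopen : IsOpen O := (hOo.inter hkopen).inter hΩ
  have hcard : Fintype.card (Fin (2 * d - 2)) + Fintype.card (Pool.Agent.W757.RD.Sys.Rw l d s A) <
      Fintype.card (Ix d n s) := by
    have h1 : Fintype.card (Pool.Agent.W757.RD.Sys.Rw l d s A) = l + (s + A.card) := by
      simp [Pool.Agent.W757.RD.Sys.Rw, Fintype.card_sum, Fintype.card_coe]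
    have h2 : Fintype.card (Ix d n s) = n + ((2 * d - 2) + s) := by
      simp [Ix, Fintype.card_sum]
    rw [h1, h2, Fintype.card_fin]
    omega
  obtain ⟨τ, γ, hτ, hγd, hγ0, hγ', hγ⟩ := hDISC (Ix d n s) (Fin (2 * d - 2))
    (Pool.Agent.W757.RD.Sys.Rw l d s A)
    S.Er (S.Gr KK e A ks ls) O y R sel col hOopen ⟨⟨hyO, hyk⟩, hyΩ⟩
    (fun i => (hErd i).mono (fun z hz => hz.1.1)) (fun a => (hGrd a).mono (fun z hz => hz.1))
    hcard (fun i => hyA.crit i) (by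
      refine mt (fun h => ?_) hdet
      convert h using 2
      ext a c
      rcases a with a | a
      · rfl
      · rfl) (by
      intro z hz hEz sel' col'
      by_contra hne
      have hne' : (S.Mx KK e A ks ls sel' col' z).det ≠ 0 := by
        refine mt (fun h => ?_) hne
        convert h using 2
        ext a c
        rcases a with a | a
        · rfl
        · rfl
      have hz' := hz.1.1
      rw [hOe] at hz'
      exact (hmax z hz.2).2 ⟨⟨hz'.1, hz'.2.1, hz.1.2, hEz, hls, hz'.2.2⟩,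
        sel', col', hne'⟩)
  -- the disc stays in the leaf
  have h0 : (0 : ℂ) ∈ ball (0 : ℂ) τ := mem_ball_self hτ
  have hγc : ContinuousOn γ (ball (0 : ℂ) τ) := hγd.continuousOn
  have hγc0 : ContinuousAt γ 0 := hγc.continuousAt (isOpen_ball.mem_nhds h0)
  have hγC : ∀ᶠ t in 𝓝 (0 : ℂ), yx (γ t) ∈ C := by
    have h1 : Tendsto γ (𝓝 0) (𝓝 y) := by
      have := hγc0.tendsto
      rwa [hγ0] at this
    have h2 := h1.eventually hyC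
    filter_upwards [h2, isOpen_ball.mem_nhds h0] with t ht htb
    refine ht (fun i => ?_) (fun k => ?_)
    · exact (hγ t htb).2.2 (Sum.inl i)
    · exact (hγ t htb).2.2 (Sum.inr (Sum.inl k))
  obtain ⟨τ₁, hτ₁, hτ₁τ, hγ1⟩ := hOPN d n s l S KK r N ω e A ks ls L C Kc τ y₀ Fh γ hK hL hlam0 hls
    hKL hτ hγd (by rw [hγ0]; exact hyN) (by rw [hγ0]; exact hyL) (by rw [hγ0]; exact hyk)
    hγC (by rw [hγ0]; exact hykK)
    (fun t ht => ⟨(hγ t ht).2.1, fun a => by rw [(hγ t ht).2.2 a, hγ0]⟩)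
  -- a smaller disc
  obtain ⟨εs, hεs, hsep⟩ := hsep
  have hJc : ContinuousAt (fun t => Jt (γ t)) 0 := by
    have h1 : ContinuousAt Jt (γ 0) := by
      rw [hγ0]
      apply hJd.continuousOn.continuousAt
      rw [← hOe]
      exact hOo.mem_nhds hyO
    exact h1.comp hγc0
  have hev : ∀ᶠ t in 𝓝 (0 : ℂ), Jt (γ t) ≠ 0 ∧ ‖yx (γ t) - yx y‖ < εs ∧ γ t ∈ Ω := by
    have h1 : ∀ᶠ t in 𝓝 (0 : ℂ), Jt (γ t) ≠ 0 := hJc.eventually_ne (by rw [hγ0]; exact hyJ)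
    have h2 : ContinuousAt (fun t => yx (γ t)) 0 := hyxc.continuousAt.comp hγc0
    have h3 : ∀ᶠ t in 𝓝 (0 : ℂ), ‖yx (γ t) - yx y‖ < εs := by
      have h4 : ContinuousAt (fun t => ‖yx (γ t) - yx y‖) 0 := (h2.sub continuousAt_const).norm
      apply h4.eventually_lt continuousAt_const
      rw [hγ0, sub_self, norm_zero]; exact hεs
    have h5 : ∀ᶠ t in 𝓝 (0 : ℂ), γ t ∈ Ω := by
      apply hγc0.eventually_mem
      rw [hγ0]; exact hΩ.mem_nhds hyΩ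
    filter_upwards [h1, h3, h5] with t a b c
    exact ⟨a, b, c⟩
  obtain ⟨τ₂', hτ₂', hball⟩ := Metric.eventually_nhds_iff_ball.mp hev
  set τ₂ : ℝ := min τ₁ τ₂' with hτ₂
  have hτ₂0 : 0 < τ₂ := lt_min hτ₁ hτ₂'
  have hb1 : ball (0 : ℂ) τ₂ ⊆ ball 0 τ₁ := ball_subset_ball (min_le_left _ _)
  have hb2 : ball (0 : ℂ) τ₂ ⊆ ball 0 τ₂' := ball_subset_ball (min_le_right _ _)
  have hb : ball (0 : ℂ) τ₂ ⊆ ball 0 τ := hb1.trans (ball_subset_ball hτ₁τ)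
  have hLt : ∀ t ∈ ball (0 : ℂ) τ₂, yx (γ t) ∈ N ∧ (∀ k, ys (γ t) k ≠ 0) ∧
      γ t ∈ S.Leaf ω e A ks ls L C Kc y₀ Fh := fun t ht => hγ1 t (hb1 ht)
  have hAt : ∀ t ∈ ball (0 : ℂ) τ₂, S.Adm A ks ls (γ t) ∧ ∀ i ∈ A,
      KK (ks i) (yx (γ t), (S.F (yx (γ t)))^[ls i] (pc (γ t) i, 1)) / ys (γ t) (ks i) = Fh i :=
    fun t ht => hadm _ (hLt t ht).2.2 (hLt t ht).1 (hLt t ht).2.1
  have hJt : ∀ t ∈ ball (0 : ℂ) τ₂, Jt (γ t) ≠ 0 := fun t ht => (hball t (hb2 ht)).1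
  -- the other critical points are not attracted
  have hnon : ∀ t ∈ ball (0 : ℂ) τ₂, ∀ i : Fin (2 * d - 2), Sum.inl i ∉ A → ∀ k, ∀ m : ℕ,
      ¬ S.InC k (yx (γ t)) ((S.F (yx (γ t)))^[m] (yc (γ t) i, 1)) := by
    intro t ht
    have hAd := (hAt t ht).1
    apply hNU d n s l S KK e A ks ls R (γ t)
    · refine ⟨hAd, sel, col, ?_⟩
      intro h
      exact hJt t ht ((hJ0 _ hAd.xU hAd.lam0 hAd.att hAd.kap0).mpr h)
    · exact (hmax (γ t) (hball t (hb2 ht)).2.2).1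
  -- exceptional values
  have hlamt : ∀ t ∈ ball (0 : ℂ) τ₂, ∀ k, S.lam k (yx (γ t)) = S.lam k (yx y₀) := fun t ht k =>
    (hLt t ht).2.2.2.2.1 k
  set Sx : Fin s → ℕ → Set ℂ := fun k l' =>
    ((((A ×ˢ Finset.range (Nt + 1)).image (fun p : Pt d × ℕ =>
      S.lam k (yx y₀) ^ p.2 * Fh p.1 / S.lam k (yx y₀) ^ ((l' + ls p.1) / S.per k)) :
        Finset ℂ)) : Set ℂ) with hSx
  set x : ℂ → (Fin n → ℂ) := fun t => yx (γ t) with hx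
  set κ : Fin s → ℂ → ℂ := fun k t => ys (γ t) k with hκ
  have hxd : DifferentiableOn ℂ x (ball 0 τ₂) := yx_diff.comp_differentiableOn (hγd.mono hb)
  have hκd : ∀ k, DifferentiableOn ℂ (κ k) (ball 0 τ₂) := fun k =>
    (ys_diff k).comp_differentiableOn (hγd.mono hb)
  have h02 : (0 : ℂ) ∈ ball (0 : ℂ) τ₂ := mem_ball_self hτ₂0
  have hr₂0 : 0 < r₂ := hr₁.trans hr₁₂
  have hKκ : ∀ t ∈ ball (0 : ℂ) τ₂, ∀ k, ‖κ k t‖ ≤ Kc := fun t ht k =>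
    (hLt t ht).2.2.2.2.2.2.1 k
  have hκr : ∀ k, ∀ t ∈ ball (0 : ℂ) τ₂, ‖κ k t‖ * r₂ < r := fun k t ht =>
    (mul_le_mul_of_nonneg_right (hKκ t ht k) hr₂0.le).trans_lt hr₂
  have hdisc : S.Disc N r r₂ τ₂ x κ := by
    refine ⟨hτ₂0, hxd, fun t ht => (hLt t ht).1, hκd, fun k t ht => (hLt t ht).2.1 k,
      hκr, fun k t ht => ?_⟩
    rw [hlamt t ht k, hlamt 0 h02 k]
  have hexc : ∀ t ∈ ball (0 : ℂ) τ₂, ∀ c : ℂ × ℂ, c ≠ 0 → wr (S.co (x t)) c = 0 → ∀ m ≤ Nt, ∀ k,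
        ∀ l < S.per k, ∀ w : ℂ, w ≠ 0 → ‖w‖ < r₂ →
        cr ((S.F (x t))^[m] c) (S.pt ω k l (x t) (κ k t * w)) = 0 → w ∈ Sx k l := by
    intro t ht c hc hwc m' hm' k l' _ w _ hw hcr
    have hn : ‖ys (γ t) k * w‖ < r := by
      rw [norm_mul]
      exact (mul_le_mul_of_nonneg_left hw.le (norm_nonneg _)).trans_lt (hκr k t ht)
    obtain ⟨i, hi, -, hrel⟩ := hEXC d n s l S KK r N ω e A ks ls L C Kc y₀ (γ t) Fh hK hL hKL
      (hLt t ht).1 (hLt t ht).2.2 (hLt t ht).2.1 (hnon t ht) c hc hwc m' k l' w hn hcr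
    rw [hlamt t ht k] at hrel
    simp only [hSx, Finset.coe_image, mem_image, Finset.mem_coe]
    refine ⟨(Sum.inl i, m' / S.per k), Finset.mem_product.mpr ⟨hi, Finset.mem_range.mpr ?_⟩, ?_⟩
    · have := Nat.div_le_self m' (S.per k)
      omega
    · simp only
      rw [hrel, mul_div_assoc, mul_comm, div_mul_cancel₀]
      exact pow_ne_zero _ (hlam0 k)
  have hDD : DD S KK r N ω Nt r₂ τ₂ x κ Sx :=
    ⟨hK, hL, hr₂0, hNt, hdisc, fun k l => Finset.finite_toSet _, hexc⟩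
  have hx0 : x 0 = yx y := by simp only [hx, hγ0]
  have hκ0 : (fun k => κ k 0) = ys y := by
    funext k
    simp only [hκ, hγ0]
  -- the base points
  have hbaseA : ∀ j : Fin 2, Sum.inr j ∈ A := by
    intro j
    fin_cases j
    · exact hA0
    · exact hA1
  have hbz : ∀ j : Fin 2, ∃ k, ∃ l < S.per k, ∃ w : ℂ, ‖w‖ < r₂ ∧ ∀ t ∈ ball (0 : ℂ) τ₂,
        Ad S ω Nt x κ t k l w (bz j) := by
    intro j
    obtain ⟨L', a, hLL', ha, hNa, hw⟩ := hbase j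
    refine ⟨ks (Sum.inr j), a, ha, S.lam (ks (Sum.inr j)) (yx y₀) ^ L' * Fh (Sum.inr j), hw, ?_⟩
    intro t ht
    have h1 := hBAD d n s l S KK r N ω e A ks ls L C Kc y₀ (γ t) Fh hK hL hKL (hLt t ht).1
      (hLt t ht).2.2 (Sum.inr j) (hbaseA j) L' a hLL'
    unfold Ad
    rw [hNa]
    exact h1
  -- nonconstancy
  have hnc : ∀ τ' : ℝ, 0 < τ' → τ' ≤ τ₂ → ∃ t ∈ ball (0 : ℂ) τ', S.co (x t) ≠ S.co (x 0) := by
    intro τ' hτ' hττ'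
    have hbb : ball (0 : ℂ) τ' ⊆ ball 0 τ₂ := ball_subset_ball hττ'
    obtain ⟨t₁, ht₁, hxt₁⟩ := hNC d n s S KK A ks ls τ' γ Fh hτ' (hγd.mono (hbb.trans hb)) hγ'
      (fun t ht => hAt t (hbb ht)) hyF
    refine ⟨t₁, ht₁, fun hco => hxt₁ ?_⟩
    show x t₁ = x 0
    rw [hx0]
    apply hsep (x t₁) (hL.NU (hLt t₁ (hbb ht₁)).1) (hball t₁ (hb2 (hbb ht₁))).2.1
    · intro i
      have a1 := (hLt t₁ (hbb ht₁)).2.2.2.1 i
      have a2 := hyL.2.1 i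
      rw [a2]; exact a1
    · rw [← hx0]; exact hco
  obtain ⟨ρ₁, hρ₁, hρ₁τ, hint⟩ := hdi n s S hNrm KK r N ω Nt r₁ r₂ τ₂ x κ Sx hDD hr₁ hr₁₂ hbz
    (by rw [hx0]; exact hynear) (by rw [hx0, hκ0]; exact hyAN) (hnc τ₂ hτ₂0 le_rfl)
  obtain ⟨t₁, ht₁, hxt₁⟩ := hnc ρ₁ hρ₁ hρ₁τ
  have ht₁0 : t₁ ≠ 0 := by
    rintro rfl; exact hxt₁ rfl
  have hρc : 0 < ‖t₁‖ := norm_pos_iff.mpr ht₁0
  have hρcρ : ‖t₁‖ < ρ₁ := mem_ball_zero_iff.mp ht₁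
  have hρcτ : ‖t₁‖ < τ₂ := hρcρ.trans_le hρ₁τ
  have hcirc : ∀ θ : ℝ, circleMap 0 ‖t₁‖ θ ∈ ball (0 : ℂ) τ₂ := by
    intro θ
    rw [mem_ball_zero_iff, norm_circleMap_zero, abs_of_pos hρc]
    exact hρcτ
  have hθ₁ : circleMap 0 ‖t₁‖ (Complex.arg t₁) = t₁ := by
    rw [circleMap_zero]
    exact Complex.norm_mul_exp_arg_mul_I t₁
  -- the functions on the disc
  have hfd : ∀ i : Fin 2 × Fin (d + 1), DifferentiableOn ℂ (fun t => S.co (x t) i) (ball 0 τ₂) := by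
    intro i
    have h1 : DifferentiableOn ℂ (fun t => S.co (x t)) (ball 0 τ₂) :=
      S.hco.comp hxd (fun t ht => hL.NU (hLt t ht).1)
    exact (differentiableOn_pi.mp h1) i
  have hgd : DifferentiableOn ℂ (fun t => Jt (γ t) * ∏ k : Fin s, ys (γ t) k)
      (ball 0 τ₂) := by
    apply DifferentiableOn.mul
    · apply hJd.comp (hγd.mono hb)
      intro t ht
      have := hleaf _ (hLt t ht).2.2 (hLt t ht).1
      rw [hOe] at this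
      exact this
    · apply DifferentiableOn.fun_finsetProd
      intro k _
      exact (ys_diff k).comp_differentiableOn (hγd.mono hb)
  have hg0 : ∀ t ∈ ball (0 : ℂ) τ₂, Jt (γ t) * ∏ k : Fin s, ys (γ t) k ≠ 0 := by
    intro t ht
    exact mul_ne_zero (hJt t ht) (Finset.prod_ne_zero_iff.mpr fun k _ => (hLt t ht).2.1 _)
  refine hCONT (Fin 2 × Fin (d + 1)) τ₂ ‖t₁‖ c₀ δ₀ (S.AN β ω Nt r₁ (yx y) (ys y))
    (fun i t => S.co (x t) i)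
    (fun i => wT i)
    (fun t => Jt (γ t) * ∏ k : Fin s, ys (γ t) k)
    (fun θ => S.AN β ω Nt r₁ (x (circleMap 0 ‖t₁‖ θ)) (fun k => κ k (circleMap 0 ‖t₁‖ θ)))
    hρc hρcτ hc₀ hδ₀ hfd hgd hg0 ?_ (fun θ => ENNReal.toReal_nonneg) ?_ ?_
  · by_contra hcon
    push Not at hcon
    apply hxt₁
    funext i
    have := hcon (Complex.arg t₁) i
    rwa [hθ₁] at this
  · intro θ
    have h1 := hymin (γ (circleMap 0 ‖t₁‖ θ)) (hLt _ (hcirc θ)).2.2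
      (hball _ (hb2 (hcirc θ))).2.2 (norm_pos_iff.mpr (hg0 _ (hcirc θ)))
    simp only [hx0, hγ0]
    exact h1
  · intro q hq hqA
    have h1 := hint ‖t₁‖ hρc hρcρ q hq hqA
    rw [hκ0, hx0] at h1
    simp only [hx0]
    exact h1

end Pool.Agent.Zk23
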