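import Mathlib
import Pool.Agent.Zk23.MINP1

/-! The minimal principle which keeps the labels of the attracted points and the position of the
marked points (adapted from `Pool.Agent.W402.RE.MINP`). -/

set_option autoImplicit false
set_option linter.unusedVariables false

open Topology Filter Metric Set MeasureTheory
open Pool.Agent.H790R3.RB (CV hF cr ND wr rt Ix yx yc yx_diff yc_diff exists_low
  lsc_comp StDISC StMAXI StCONT)
open Pool.Agent.W757.RD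
open Pool.Agent.W402.RE.MINP (ys_diff DIprop exists_L xp_diff ee_diff ext_sep sqrt_add_le')

namespace Pool.Agent.Zk23

/-- The minimal principle which keeps the labels of the attracted points and the position of the
marked points. -/
def StMINPr : Prop :=
  ∀ (β : ℝ) (d : ℕ) (u₀ : Fin (2 * d) → ℂ), 1 / 2 < β → β < 1 → 2 ≤ d → u₀ ∈ U₀ d →
    Gz (fam u₀) → ∃ C₁ c₁ ε₁ σ₁ : ℝ, 0 < C₁ ∧ 0 < c₁ ∧ 0 < ε₁ ∧ 0 < σ₁ ∧
    closedBall u₀ σ₁ ⊆ U₀ d ∧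
    ∀ ρ : ℝ, 0 < ρ → ρ ≤ σ₁ / 2 →
    ∀ (s : ℕ) (S : Sys d (2 * d + s) s) (KK : Fin s → (Fin (2 * d + s) → ℂ) × (ℂ × ℂ) → ℂ)
      (A : Finset (Pt d)) (ks : Pt d → Fin s) (ls : Pt d → ℕ) (R : ℕ)
      (y : Ix d (2 * d + s) s → ℂ), Ext S → S.Koe KK → (∀ k, S.b k (yx y) = bp (yx y) k) →
      IsCompact {q | q ∈ S.U ∧ xp q ∈ closedBall u₀ σ₁ ∧ (∀ k, S.b k q = bp q k) ∧
        ∀ k, S.lam k q = S.lam k (yx y)} →
      ‖xp (yx y) - u₀‖ < σ₁ / 2 → ∀ a : ℝ, 0 ≤ a → a < ε₁ → a < c₁ * ρ ^ 2 →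
      mu β (S.KS (yx y)) ≤ ENNReal.ofReal a →
      Goodc S KK (ee S) A ks ls R y → Sum.inr 0 ∈ A → Sum.inr 1 ∈ A → A.card < 2 * d →
      ∀ E : Set ((Fin s → ℂ) × (Fin (2 * d - 2) → ℂ)), IsClosed E →
      ((fun k => S.b k (yx y)), yc y) ∈ E →
      (∀ z : Ix d (2 * d + s) s → ℂ, yx z ∈ S.U → ‖xp (yx z) - xp (yx y)‖ ≤ ρ →
        (∀ j, S.Er j z = 0) → ((fun k => S.b k (yx z)), yc z) ∈ E →
        ((fun k => S.b k (yx z)), yc z) ∈ interior E) →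
      ∀ η : ℝ, 0 < η →
      ∃ (A' : Finset (Pt d)) (ks' : Pt d → Fin s) (ls' : Pt d → ℕ)
        (z : Ix d (2 * d + s) s → ℂ), ‖xp (yx z) - xp (yx y)‖ ≤ C₁ * Real.sqrt a + η ∧
        mu β (S.KS (yx z)) ≤ ENNReal.ofReal (a + η) ∧ A ⊆ A' ∧ (∀ i ∈ A, ks' i = ks i) ∧
        ((fun k => S.b k (yx z)), yc z) ∈ E ∧
        ((A.card < A'.card ∧ Goodc S KK (ee S) A' ks' ls' 0 z) ∨
          (A' = A ∧ Goodc S KK (ee S) A' ks' ls' (R + 1) z))

theorem MINPr (hFM : StFM) (hLAM : StLAM) (hLIN : StLIN) (hLSC : StLSC) (hDI : StDI) (hUSC : StUSC)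
    (hADO : StADO) (hLF : StLF) (hIN : StIN) (hBAD : StBAD) (hCPT : StCPT) (hOPN : StOPN)
    (hEXC : StEXC) (hFKB : StFKB) (hPOLE : StPOLE) (hNU : StNUr) (hJT : StJT) (hST : StST)
    (hNC : StNC) (hFWD : StFWD) (hMU : StMU)
    (hDISC : StDISC) (hMAXI : StMAXI) (hCONT : StCONT) : StMINPr := by
  classical
  intro β d u₀ hβ1 hβ2 hd hu₀ hGz
  obtain ⟨hU₀, hfamd, hfamn, hfamN, -⟩ := hFM d hd
  obtain ⟨c₀, ε₀, σ, hc₀, hε₀, hσ, hdi⟩ := hDI β d (fam u₀) hβ1 hβ2 hd hu₀.1 (hfamN u₀) hGz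
  obtain ⟨CK, hCK, hFKB'⟩ := hFKB
  obtain ⟨hmufin, -⟩ := hMU β hβ1 hβ2
  obtain ⟨σ', hσ', hball⟩ := Metric.isOpen_iff.mp hU₀ u₀ hu₀
  set σ₁ : ℝ := min σ (σ' / 2) with hσ₁def
  have hσ₁0 : 0 < σ₁ := lt_min hσ (half_pos hσ')
  have hσ₁σ : σ₁ ≤ σ := min_le_left _ _
  have hσ₁σ' : σ₁ < σ' := (min_le_right _ _).trans_lt (half_lt_self hσ')
  set C₁ : ℝ := Real.sqrt (2 / c₀) with hC₁def
  have hC₁0 : 0 < C₁ := Real.sqrt_pos.mpr (by positivity)
  refine ⟨C₁, c₀ / 8, ε₀ / 2, σ₁, hC₁0, by positivity, half_pos hε₀,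
    hσ₁0, (closedBall_subset_ball hσ₁σ').trans hball, ?_⟩
  intro ρ₂ hρ₂0 hρ₂σ s S KK A ks ls R y₀ hExt hK hbq hcomp₀ hy₀ a ha0 ha2 ha3' hvol₀ hG₀ hA0 hA1
    hAc E hEc hy₀E hEint η hη
  have ha3 : a < c₀ * ρ₂ ^ 2 / 8 := by linarith
  set η' : ℝ := min (min (ε₀ / 4) (c₀ * ρ₂ ^ 2 / 16)) (min ((η / (2 * C₁)) ^ 2 / 2) (η / 4))
    with hη'def
  have hη'0 : 0 < η' := by
    apply lt_min (lt_min (by positivity) (by positivity)) (lt_min (by positivity) (by positivity))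
  have hη'1 : η' ≤ ε₀ / 4 := (min_le_left _ _).trans (min_le_left _ _)
  have hη'2 : η' ≤ c₀ * ρ₂ ^ 2 / 16 := (min_le_left _ _).trans (min_le_right _ _)
  have hη'3 : η' ≤ (η / (2 * C₁)) ^ 2 / 2 := (min_le_right _ _).trans (min_le_left _ _)
  have hη'4 : η' ≤ η / 4 := (min_le_right _ _).trans (min_le_right _ _)
  by_contra hcon
  push Not at hcon
  obtain ⟨hlamd, hlamθ, -⟩ := hLAM d (2 * d + s) s S
  obtain ⟨hAdm₀, sel, col, hdet₀⟩ := hG₀
  have hls : ∀ i ∈ A, ls i < S.per (ks i) := hAdm₀.lsp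
  have hlam0 : ∀ k, S.lam k (yx y₀) ≠ 0 := hAdm₀.lam0
  -- the compact set of parameters
  set C : Set (Fin (2 * d + s) → ℂ) := {q | q ∈ S.U ∧ xp q ∈ closedBall (xp (yx y₀)) ρ₂ ∧
    (∀ k, S.b k q = bp q k) ∧ ∀ k, S.lam k q = S.lam k (yx y₀)} with hC
  have hCc : IsCompact C := by
    have h1 : C = {q | q ∈ S.U ∧ xp q ∈ closedBall u₀ σ₁ ∧ (∀ k, S.b k q = bp q k) ∧
        ∀ k, S.lam k q = S.lam k (yx y₀)} ∩ xp ⁻¹' closedBall (xp (yx y₀)) ρ₂ := by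
      ext q
      simp only [hC, mem_ofPred_eq, mem_inter_iff, mem_preimage]
      constructor
      · rintro ⟨h1, h2, h3, h4⟩
        refine ⟨⟨h1, ?_, h3, h4⟩, h2⟩
        rw [mem_closedBall, dist_eq_norm] at h2 ⊢
        calc ‖xp q - u₀‖ = ‖(xp q - xp (yx y₀)) + (xp (yx y₀) - u₀)‖ := by congr 1; abel
          _ ≤ ‖xp q - xp (yx y₀)‖ + ‖xp (yx y₀) - u₀‖ := norm_add_le _ _
          _ ≤ ρ₂ + σ₁ / 2 := add_le_add h2 hy₀.le
          _ ≤ σ₁ := by linarith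
      · rintro ⟨⟨h1, -, h3, h4⟩, h2⟩
        exact ⟨h1, h2, h3, h4⟩
    rw [h1]
    exact hcomp₀.inter_right (isClosed_closedBall.preimage xp_diff.continuous)
  have hCU : C ⊆ S.U := fun q hq => hq.1
  have hy₀C : yx y₀ ∈ C := by
    refine ⟨hAdm₀.xU, mem_closedBall_self hρ₂0.le, hbq, fun _ => rfl⟩
  have hNrm : ∀ x ∈ S.U, Nrm (S.co x) := by
    intro x hx
    rw [hExt.co x hx]
    exact hfamN _
  -- the linearised discs
  obtain ⟨N, r, ω, hKN, hL⟩ := hLIN d (2 * d + s) s S KK hK C hCc (by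
    intro x hx
    refine ⟨hCU hx, fun k => ?_⟩
    rw [hx.2.2.2 k]; exact hlam0 k)
  have hy₀N : yx y₀ ∈ N := hKN hy₀C
  set Fh : Pt d → ℂ := fun i =>
    KK (ks i) (yx y₀, (S.F (yx y₀))^[ls i] (pc y₀ i, 1)) / ys y₀ (ks i) with hFh
  obtain ⟨rF, hrF, hlow⟩ := exists_low A Fh
  have hr := hL.hr
  -- bounds on the compact set
  obtain ⟨B₁, hB₁⟩ := hPOLE d (2 * d + s) s S C hCc hCU
  have hbb : ∀ k : Fin s, ∃ b : ℝ, ∀ x ∈ C, ‖S.b k x‖ ≤ b := fun k =>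
    hCc.exists_bound_of_continuousOn ((S.hb k).continuousOn.mono hCU)
  choose Bb hBb using hbb
  set Bs : ℝ := ∑ k : Fin s, |Bb k| + |B₁| with hBsdef
  have hBs0 : 0 ≤ Bs := add_nonneg (Finset.sum_nonneg fun k _ => abs_nonneg _) (abs_nonneg _)
  set Kc : ℝ := CK * Bs / rF + 1 + ∑ k : Fin s, ‖ys y₀ k‖ with hKcdef
  have hsum0 : 0 ≤ ∑ k : Fin s, ‖ys y₀ k‖ := Finset.sum_nonneg fun k _ => norm_nonneg _
  have hq0 : 0 ≤ CK * Bs / rF := by positivity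
  have hKc1 : 1 ≤ Kc := by rw [hKcdef]; linarith
  have hKcq : CK * Bs / rF < Kc := by rw [hKcdef]; linarith
  have hKc0 : 0 < Kc := by linarith
  have hKcy : ∀ k, ‖ys y₀ k‖ ≤ Kc := by
    intro k
    have h1 : ‖ys y₀ k‖ ≤ ∑ k : Fin s, ‖ys y₀ k‖ :=
      Finset.single_le_sum (f := fun k : Fin s => ‖ys y₀ k‖)
        (fun k _ => norm_nonneg _) (Finset.mem_univ k)
    rw [hKcdef]; linarith
  set r₁ : ℝ := r / (4 * Kc) with hr₁def
  set r₂ : ℝ := r / (2 * Kc) with hr₂def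
  have hr₁0 : 0 < r₁ := by positivity
  have hr₂0 : 0 < r₂ := by positivity
  have hr₁₂ : r₁ < r₂ := by
    rw [hr₁def, hr₂def]
    apply div_lt_div_of_pos_left hr (by positivity)
    linarith
  have hKr₁ : Kc * r₁ < r := by
    have : Kc * r₁ = r / 4 := by rw [hr₁def]; field_simp
    rw [this]; linarith
  have hKr₂ : Kc * r₂ < r := by
    have : Kc * r₂ = r / 2 := by rw [hr₂def]; field_simp
    rw [this]; linarith
  have hr₁r : r₁ < r := by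
    have : r₁ ≤ Kc * r₁ := le_mul_of_one_le_left hr₁0.le hKc1
    linarith
  have hed : ∀ i, DifferentiableOn ℂ (ee S i) S.U := fun i => ee_diff S i
  obtain ⟨L₀, hL₀⟩ := hIN d (2 * d + s) s s S KK r N ω (ee S) A ks ls C Kc y₀ hK hL hy₀N hy₀C
    hAdm₀ hKcy
  obtain ⟨L, hLL₀, hKL'⟩ := exists_L hLAM S hAdm₀.xU A ks Fh Kc hr L₀
  obtain ⟨L₂, -, hL₂⟩ := exists_L hLAM S hAdm₀.xU A ks Fh 1 hr₂0 L₀
  have hKL := hKL' L le_rfl
  have hy₀L : y₀ ∈ S.Leaf ω (ee S) A ks ls L C Kc y₀ Fh := hL₀ L hLL₀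
  have hcompL := hCPT d (2 * d + s) s s S KK r N ω (ee S) A ks ls L C Kc y₀ Fh hK hL hed hCc hCU
    (fun x hx => hKN hx.1) hKL
  have hleafN : ∀ z ∈ S.Leaf ω (ee S) A ks ls L C Kc y₀ Fh, yx z ∈ N := by
    intro z hz
    exact hKN hz.1
  obtain ⟨Jt, hJd, hJ0⟩ := hJT d (2 * d + s) s s S KK (ee S) A ks ls R sel col hK hed
  -- the area at the starting point
  obtain ⟨σU, N₀, hσU, hUSC'⟩ := hUSC β d (2 * d + s) s S (yx y₀) hβ1 hβ2 hAdm₀.xU η' hη'0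
  obtain ⟨Nt, hM₀, hNt, hst⟩ := hST d (2 * d + s) s S KK r N ω hK hL r₁ N₀
    ((∑ k, S.per k) * (max L L₂ + 1)) (ys y₀) hr₁0 hr₁r
    hAdm₀.kap0 (fun k => (mul_le_mul_of_nonneg_right (hKcy k) hr₁0.le).trans_lt hKr₁)
  have hAN₀ : S.AN β ω Nt r₁ (yx y₀) (ys y₀) ≤ a + η' := by
    apply ENNReal.toReal_le_of_le_ofReal (by positivity)
    have h1 := hUSC' (yx y₀) hAdm₀.xU (by simpa using hσU)
    calc mu β (S.WN ω Nt r₁ (yx y₀) (ys y₀))ᶜ
        ≤ mu β {ζ : ℂ | ∀ k, ∀ m ≤ N₀, ¬ S.InC k (yx y₀) ((S.F (yx y₀))^[m] (ζ, 1))} := by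
          refine measure_mono ?_
          intro ζ hζ k m' hm' hin
          exact hζ (hst (yx y₀) hy₀N ζ ⟨k, m', hm', hin⟩)
      _ ≤ mu β (S.KS (yx y₀)) + ENNReal.ofReal η' := h1
      _ ≤ ENNReal.ofReal a + ENNReal.ofReal η' := by gcongr
      _ = ENNReal.ofReal (a + η') := by
          rw [← ENNReal.ofReal_add ha0 hη'0.le]
  -- the base points
  have hbase : ∀ j : Fin 2, ∃ L' a : ℕ, L ≤ L' ∧ a < S.per (ks (Sum.inr j)) ∧
      Nt = ls (Sum.inr j) + (S.per (ks (Sum.inr j)) * L' + a) ∧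
      ‖S.lam (ks (Sum.inr j)) (yx y₀) ^ L' * Fh (Sum.inr j)‖ < r₂ := by
    intro j
    have hjA : Sum.inr j ∈ A := by
      fin_cases j
      · exact hA0
      · exact hA1
    have hp1 := S.hper (ks (Sum.inr j))
    have hlt := hls (Sum.inr j) hjA
    obtain ⟨q, hq⟩ := hNt (ks (Sum.inr j))
    have hle : S.per (ks (Sum.inr j)) * (max L L₂ + 1) ≤ Nt :=
      (Nat.mul_le_mul_right _ (Finset.single_le_sum (f := fun k => S.per k)
        (fun k _ => Nat.zero_le _) (Finset.mem_univ _))).trans hM₀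
    rw [hq] at hle
    have hq1 : max L L₂ + 1 ≤ q := Nat.le_of_mul_le_mul_left hle hp1
    have hsm : ∀ L' : ℕ, L₂ ≤ L' →
        ‖S.lam (ks (Sum.inr j)) (yx y₀) ^ L' * Fh (Sum.inr j)‖ < r₂ := by
      intro L' hL'
      have := hL₂ L' hL' (Sum.inr j) hjA
      rwa [one_mul] at this
    have hmL := le_max_left L L₂
    have hmL₂ := le_max_right L L₂
    by_cases hl0 : ls (Sum.inr j) = 0
    · refine ⟨q, 0, by omega, by omega, ?_, hsm q (by omega)⟩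
      rw [hl0, hq]
      ring
    · refine ⟨q - 1, S.per (ks (Sum.inr j)) - ls (Sum.inr j), by omega, by omega, ?_,
        hsm (q - 1) (by omega)⟩
      obtain ⟨q', rfl⟩ : ∃ q', q = q' + 1 := ⟨q - 1, by omega⟩
      rw [hq, Nat.add_sub_cancel, mul_add, mul_one]
      omega
  -- the functions on the leaf
  have hlsc : LowerSemicontinuousOn
      (fun z : Ix d (2 * d + s) s → ℂ => S.AN β ω Nt r₁ (yx z) (ys z))
      (S.Leaf ω (ee S) A ks ls L C Kc y₀ Fh) := by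
    refine lsc_comp (g := fun z : Ix d (2 * d + s) s → ℂ => (yx z, ys z))
      (hLSC β d (2 * d + s) s S KK r N ω Nt r₁ hβ1 hβ2 hK hL hr₁0) ?_ ?_
    · apply Continuous.continuousOn
      exact yx_diff.continuous.prodMk (continuous_pi fun k => (ys_diff k).continuous)
    · intro z hz
      refine ⟨hleafN z hz, fun k => ?_⟩
      exact (mul_le_mul_of_nonneg_right (hz.2.2.2.2.1 k) hr₁0.le).trans_lt hKr₁
  set Df : (Ix d (2 * d + s) s → ℂ) → ℝ := fun z => ∑ i : Fin 2 × Fin (d + 1),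
    ‖S.co (yx z) i - S.co (yx y₀) i‖ ^ 2 with hDf
  have hhc : ContinuousOn (fun z : Ix d (2 * d + s) s → ℂ => c₀ / 2 * ∑ i : Fin 2 × Fin (d + 1),
      ‖S.co (yx z) i - S.co (yx y₀) i‖ ^ 2)
      (S.Leaf ω (ee S) A ks ls L C Kc y₀ Fh) := by
    apply continuousOn_const.mul
    apply continuousOn_finsetSum
    intro i _
    have h1 : ContinuousOn (fun z : Ix d (2 * d + s) s → ℂ => S.co (yx z))
        (S.Leaf ω (ee S) A ks ls L C Kc y₀ Fh) :=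
      S.hco.continuousOn.comp yx_diff.continuous.continuousOn (fun z hz => hCU hz.1)
    exact ((((continuous_apply i).comp_continuousOn h1).sub continuousOn_const).norm).pow 2
  have hatt : ∀ z ∈ S.Leaf ω (ee S) A ks ls L C Kc y₀ Fh,
      ∀ i ∈ A, (yx z, (S.F (yx z))^[ls i] (pc z i, 1)) ∈ S.Dom (ks i) := by
    intro z hz
    exact (hLF d (2 * d + s) s s S KK r N ω (ee S) A ks ls L C Kc y₀ z Fh hK hL hlam0 hls hKL
      (hleafN z hz) hz).1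
  have hjc : ContinuousOn (fun z : Ix d (2 * d + s) s → ℂ => ‖Jt z * ∏ k : Fin s, ys z k‖)
      (S.Leaf ω (ee S) A ks ls L C Kc y₀ Fh) := by
    apply ContinuousOn.norm
    apply ContinuousOn.mul
    · apply hJd.continuousOn.mono
      intro z hz
      exact ⟨hL.NU (hleafN z hz), fun k => hL.lam0 _ (hleafN z hz) k, hatt z hz⟩
    · apply continuousOn_finsetProd
      intro k _
      exact (ys_diff k).continuous.continuousOn
  have hj₀ : 0 < ‖Jt y₀ * ∏ k : Fin s, ys y₀ k‖ := by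
    rw [norm_pos_iff]
    refine mul_ne_zero ?_ (Finset.prod_ne_zero_iff.mpr fun k _ => hAdm₀.kap0 _)
    intro h
    exact hdet₀ ((hJ0 y₀ hAdm₀.xU hAdm₀.lam0 hAdm₀.att hAdm₀.kap0).mp h)
  obtain ⟨B, hB⟩ := hcompL.bddAbove_image hjc
  have hB' : ∀ z ∈ S.Leaf ω (ee S) A ks ls L C Kc y₀ Fh,
      ‖Jt z * ∏ k : Fin s, ys z k‖ ≤ max B 1 := fun z hz =>
    (hB (mem_image_of_mem _ hz)).trans (le_max_left _ _)
  set lj : ℝ := |Real.log ‖Jt y₀ * ∏ k : Fin s, ys y₀ k‖| with hlj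
  set lB : ℝ := |Real.log (max B 1)| with hlB
  have hlj0 : 0 ≤ lj := abs_nonneg _
  have hlB0 : 0 ≤ lB := abs_nonneg _
  set δ₀ : ℝ := η' / (1 + lB + lj) with hδ₀def
  have hδ₀ : 0 < δ₀ := by positivity
  have hδ₀le : δ₀ * (lB + lj) ≤ η' := by
    rw [hδ₀def, div_mul_eq_mul_div, div_le_iff₀ (by positivity)]
    nlinarith
  -- the part of the leaf given by `E`
  set bc : (Ix d (2 * d + s) s → ℂ) → (Fin s → ℂ) × (Fin (2 * d - 2) → ℂ) :=
    fun z => ((fun k => S.b k (yx z)), yc z) with hbc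
  have hVo : IsOpen {z : Ix d (2 * d + s) s → ℂ | yx z ∈ S.U} :=
    S.hU.preimage yx_diff.continuous
  have hbcc : ContinuousOn bc {z : Ix d (2 * d + s) s → ℂ | yx z ∈ S.U} := by
    refine ContinuousOn.prodMk ?_ ?_
    · refine continuousOn_pi.2 fun k => ?_
      exact (S.hb k).continuousOn.comp yx_diff.continuous.continuousOn (fun z hz => hz)
    · exact (continuous_pi fun i => (yc_diff i).continuous).continuousOn
  set LE : Set (Ix d (2 * d + s) s → ℂ) := S.Leaf ω (ee S) A ks ls L C Kc y₀ Fh ∩ bc ⁻¹' E with hLE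
  have hLEs : LE ⊆ S.Leaf ω (ee S) A ks ls L C Kc y₀ Fh := inter_subset_left
  have hcompLE : IsCompact LE := by
    refine hcompL.of_isClosed_subset ?_ hLEs
    exact (hbcc.mono (fun z hz => hCU hz.1)).preimage_isClosed_of_isClosed hcompL.isClosed hEc
  obtain ⟨y, hyLE, hjy, hymin⟩ := hMAXI (Ix d (2 * d + s) s → ℂ) _ _ _ _ y₀ δ₀ hcompLE
    (hlsc.mono hLEs) (hhc.mono hLEs) (hjc.mono hLEs)
    (fun z _ => norm_nonneg _) hδ₀ ⟨hy₀L, hy₀E⟩ hj₀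
  have hyL : y ∈ S.Leaf ω (ee S) A ks ls L C Kc y₀ Fh := hyLE.1
  -- the minimal point is inside
  have hyN : yx y ∈ N := hleafN y hyL
  have hyC : yx y ∈ C := hyL.1
  have hmin0 : S.AN β ω Nt r₁ (yx y) (ys y) + c₀ / 2 * Df y ≤ a + 2 * η' := by
    have h1 := hymin y₀ ⟨hy₀L, hy₀E⟩ hj₀
    have h3 : Real.log ‖Jt y * ∏ k : Fin s, ys y k‖ ≤ lB :=
      (Real.log_le_log hjy (hB' y hyL)).trans (le_abs_self _)
    have h4 : - lj ≤ Real.log ‖Jt y₀ * ∏ k : Fin s, ys y₀ k‖ := neg_abs_le _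
    have h5 : Df y₀ = 0 := by
      simp only [hDf, sub_self, norm_zero]
      exact Finset.sum_eq_zero fun i _ => by ring
    have h7 : S.AN β ω Nt r₁ (yx y) (ys y) + c₀ / 2 * Df y -
        δ₀ * Real.log ‖Jt y * ∏ k : Fin s, ys y k‖ ≤
        S.AN β ω Nt r₁ (yx y₀) (ys y₀) + c₀ / 2 * Df y₀ -
        δ₀ * Real.log ‖Jt y₀ * ∏ k : Fin s, ys y₀ k‖ := h1
    rw [h5] at h7
    have h8 := mul_le_mul_of_nonneg_left h3 hδ₀.le
    have h9 := mul_le_mul_of_nonneg_left h4 hδ₀.le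
    nlinarith
  have hANy0 : 0 ≤ S.AN β ω Nt r₁ (yx y) (ys y) := ENNReal.toReal_nonneg
  have hDf0 : 0 ≤ Df y := Finset.sum_nonneg fun i _ => by positivity
  have hDf0' : 0 ≤ c₀ / 2 * Df y := mul_nonneg (by positivity) hDf0
  have hANy : S.AN β ω Nt r₁ (yx y) (ys y) ≤ a + 2 * η' := by linarith
  have hANε : S.AN β ω Nt r₁ (yx y) (ys y) ≤ ε₀ := by linarith
  have hDfle : Df y ≤ 2 / c₀ * (a + 2 * η') := by
    have h1 : c₀ / 2 * Df y ≤ a + 2 * η' := by linarith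
    have h2 : Df y = 2 / c₀ * (c₀ / 2 * Df y) := by field_simp
    rw [h2]
    exact mul_le_mul_of_nonneg_left h1 (by positivity)
  have hdist : ‖xp (yx y) - xp (yx y₀)‖ ≤ Real.sqrt (Df y) := by
    have e1 : ‖S.co (yx y) - S.co (yx y₀)‖ = ‖xp (yx y) - xp (yx y₀)‖ := by
      rw [hExt.co _ (hCU hyC), hExt.co _ hAdm₀.xU]
      exact hfamn _ _
    rw [← e1, pi_norm_le_iff_of_nonneg (Real.sqrt_nonneg _)]
    intro i
    apply Real.le_sqrt_of_sq_le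
    exact Finset.single_le_sum (f := fun i : Fin 2 × Fin (d + 1) =>
      ‖S.co (yx y) i - S.co (yx y₀) i‖ ^ 2) (fun i _ => by positivity) (Finset.mem_univ i)
  have hdist2 : ‖xp (yx y) - xp (yx y₀)‖ ≤ C₁ * Real.sqrt a + η / 2 := by
    have h1 : Real.sqrt (Df y) ≤ C₁ * Real.sqrt (a + 2 * η') := by
      rw [hC₁def, ← Real.sqrt_mul (by positivity)]
      exact Real.sqrt_le_sqrt hDfle
    have h2 : Real.sqrt (a + 2 * η') ≤ Real.sqrt a + Real.sqrt (2 * η') :=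
      sqrt_add_le' ha0 (by positivity)
    have h3 : Real.sqrt (2 * η') ≤ η / (2 * C₁) := by
      rw [Real.sqrt_le_left (by positivity)]
      linarith
    have h4 : C₁ * (η / (2 * C₁)) = η / 2 := by field_simp
    calc ‖xp (yx y) - xp (yx y₀)‖ ≤ Real.sqrt (Df y) := hdist
      _ ≤ C₁ * Real.sqrt (a + 2 * η') := h1
      _ ≤ C₁ * (Real.sqrt a + η / (2 * C₁)) :=
          mul_le_mul_of_nonneg_left (h2.trans (by linarith)) hC₁0.le
      _ = C₁ * Real.sqrt a + η / 2 := by rw [mul_add, h4]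
  have hyρ : ‖xp (yx y) - xp (yx y₀)‖ < ρ₂ := by
    have h1 : Df y < ρ₂ ^ 2 := by
      have h2 : 2 / c₀ * (a + 2 * η') < ρ₂ ^ 2 := by
        rw [div_mul_eq_mul_div, div_lt_iff₀ hc₀]
        nlinarith [mul_pos hc₀ (pow_pos hρ₂0 2)]
      exact hDfle.trans_lt h2
    calc ‖xp (yx y) - xp (yx y₀)‖ ≤ Real.sqrt (Df y) := hdist
      _ < Real.sqrt (ρ₂ ^ 2) := Real.sqrt_lt_sqrt hDf0 h1
      _ = ρ₂ := Real.sqrt_sq hρ₂0.le
  have hynear : ‖S.co (yx y) - fam u₀‖ < σ := by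
    rw [hExt.co _ (hCU hyC), hfamn]
    calc ‖xp (yx y) - u₀‖ = ‖(xp (yx y) - xp (yx y₀)) + (xp (yx y₀) - u₀)‖ := by congr 1; abel
      _ ≤ ‖xp (yx y) - xp (yx y₀)‖ + ‖xp (yx y₀) - u₀‖ := norm_add_le _ _
      _ < ρ₂ + σ₁ / 2 := add_lt_add hyρ hy₀
      _ ≤ σ₁ := by linarith
      _ ≤ σ := hσ₁σ
  have hne := norm_pos_iff.mp hjy
  have hyJ : Jt y ≠ 0 := (mul_ne_zero_iff.mp hne).1
  have hyk : ∀ k, ys y k ≠ 0 := by
    intro k
    exact Finset.prod_ne_zero_iff.mp (mul_ne_zero_iff.mp hne).2 k (Finset.mem_univ k)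
  have hyA : S.Adm A ks ls y := ((hLF d (2 * d + s) s s S KK r N ω (ee S) A ks ls L C Kc y₀ y Fh
    hK hL hlam0 hls hKL hyN hyL).2.2 hyk).1
  -- the area at the minimal point
  have hκy : ∀ k, ‖ys y k‖ * r₁ < r := fun k =>
    (mul_le_mul_of_nonneg_right (hyL.2.2.2.2.1 k) hr₁0.le).trans_lt hKr₁
  have hfin : mu β (S.WN ω Nt r₁ (yx y) (ys y))ᶜ ≠ ⊤ :=
    ((measure_mono (subset_univ _)).trans_lt hmufin).ne
  have hKSsub : S.KS (yx y) ⊆ (S.WN ω Nt r₁ (yx y) (ys y))ᶜ := by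
    intro ζ hζ hW
    exact (hFWD d (2 * d + s) s S KK r N ω Nt r₁ (yx y) (ys y) hK hL hyN hr₁0 hκy ζ hW).2.2 hζ
  have hvoly : mu β (S.KS (yx y)) ≤ ENNReal.ofReal (a + 2 * η') := by
    refine (measure_mono hKSsub).trans ?_
    rw [← ENNReal.ofReal_toReal hfin]
    exact ENNReal.ofReal_le_ofReal hANy
  obtain ⟨σy, Ny, hσy, hUSCy⟩ := hUSC β d (2 * d + s) s S (yx y) hβ1 hβ2 hyA.xU (η / 2)
    (half_pos hη)
  have hvolz : ∀ x ∈ S.U, ‖x - yx y‖ < σy → mu β (S.KS x) ≤ ENNReal.ofReal (a + η) := by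
    intro x hx hxy
    calc mu β (S.KS x)
        ≤ mu β {ζ : ℂ | ∀ k, ∀ m ≤ Ny, ¬ S.InC k x ((S.F x)^[m] (ζ, 1))} := by
          refine measure_mono ?_
          intro ζ hζ k m _
          exact hζ k m
      _ ≤ mu β (S.KS (yx y)) + ENNReal.ofReal (η / 2) := hUSCy x hx hxy
      _ ≤ ENNReal.ofReal (a + 2 * η') + ENNReal.ofReal (η / 2) := by gcongr
      _ = ENNReal.ofReal (a + 2 * η' + η / 2) := by
          rw [← ENNReal.ofReal_add (by positivity) (half_pos hη).le]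
      _ ≤ ENNReal.ofReal (a + η) := ENNReal.ofReal_le_ofReal (by linarith)
  -- the open set
  set Ω : Set (Ix d (2 * d + s) s → ℂ) :=
    ({z | ‖xp (yx z) - xp (yx y)‖ < η / 2} ∩ {z | ‖yx z - yx y‖ < σy}) ∩
      ({z | yx z ∈ S.U} ∩ bc ⁻¹' interior E)
    with hΩdef
  have hΩ : IsOpen Ω := by
    apply IsOpen.inter
    · apply IsOpen.inter
      · exact isOpen_lt (((xp_diff.continuous.comp yx_diff.continuous).sub continuous_const).norm)
          continuous_const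
      · exact isOpen_lt ((yx_diff.continuous.sub continuous_const).norm) continuous_const
    · exact hbcc.isOpen_inter_preimage hVo isOpen_interior
  have hyΩ : y ∈ Ω := by
    refine ⟨⟨?_, ?_⟩, hyA.xU, ?_⟩
    · simp only [mem_ofPred_eq, sub_self, norm_zero]
      exact half_pos hη
    · simp only [mem_ofPred_eq, sub_self, norm_zero]
      exact hσy
    · exact hEint y hyA.xU hyρ.le hyA.crit hyLE.2
  have hΩE : ∀ z ∈ Ω, bc z ∈ E := fun z hz => interior_subset hz.2.2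
  have hΩd : ∀ z ∈ Ω, ‖xp (yx z) - xp (yx y₀)‖ ≤ C₁ * Real.sqrt a + η := by
    intro z hz
    have h1 : ‖xp (yx z) - xp (yx y)‖ < η / 2 := hz.1.1
    calc ‖xp (yx z) - xp (yx y₀)‖
        = ‖(xp (yx z) - xp (yx y)) + (xp (yx y) - xp (yx y₀))‖ := by congr 1; abel
      _ ≤ ‖xp (yx z) - xp (yx y)‖ + ‖xp (yx y) - xp (yx y₀)‖ := norm_add_le _ _
      _ ≤ η / 2 + (C₁ * Real.sqrt a + η / 2) := add_le_add h1.le hdist2
      _ = C₁ * Real.sqrt a + η := by ring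
  have hmax : ∀ z ∈ Ω, (∀ (i : Fin (2 * d - 2)), Sum.inl i ∉ A → ∀ (k : Fin s) (l' : ℕ),
        ¬ Goodc S KK (ee S) (insert (Sum.inl i) A) (Function.update ks (Sum.inl i) k)
        (Function.update ls (Sum.inl i) l') 0 z) ∧ ¬ Goodc S KK (ee S) A ks ls (R + 1) z := by
    intro z hz
    constructor
    · intro i hi k l' hG
      refine (hcon (insert (Sum.inl i) A) (Function.update ks (Sum.inl i) k)
        (Function.update ls (Sum.inl i) l') z (hΩd z hz) (hvolz _ hG.1.xU hz.1.2)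
        (Finset.subset_insert _ _) ?_ (hΩE z hz)).1 ?_ hG
      · intro i' hi'
        rw [Function.update_of_ne]
        rintro rfl
        exact hi hi'
      · rw [Finset.card_insert_of_notMem hi]
        exact Nat.lt_succ_self _
    · intro hG
      exact (hcon A ks ls z (hΩd z hz) (hvolz _ hG.1.xU hz.1.2) (Finset.Subset.refl _)
        (fun _ _ => rfl) (hΩE z hz)).2 rfl hG
  have hnon : ∀ i : Fin (2 * d - 2), Sum.inl i ∉ A → ∀ k, ∀ m : ℕ,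
      ¬ S.InC k (yx y) ((S.F (yx y))^[m] (yc y i, 1)) := by
    apply hNU d (2 * d + s) s s S KK (ee S) A ks ls R y
    · refine ⟨hyA, sel, col, fun h => hyJ ((hJ0 y hyA.xU hyA.lam0 hyA.att hyk).mpr h)⟩
    · exact (hmax y hyΩ).1
  obtain ⟨ζ₀, hζ₀, hζ₀B⟩ := hB₁ (yx y) hyC
  have hfkb := fun k : Fin s => hFKB' d (2 * d + s) s s S KK r N ω (ee S) A ks ls L C Kc rF y₀ y
    Fh ζ₀ hK hL hls hKL hyN hyL hyk hnon hζ₀ hrF k (fun i hi _ hF => hlow (Sum.inl i) hi hF)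
  have hevC : ∀ᶠ z in 𝓝 y, (∀ i, ee S i (yx z) = ee S i (yx y)) →
      (∀ k, S.lam k (yx z) = S.lam k (yx y)) → yx z ∈ C := by
    have h1 : ∀ᶠ z in 𝓝 y, yx z ∈ S.U :=
      (S.hU.preimage yx_diff.continuous).mem_nhds hyA.xU
    have h2 : ∀ᶠ z in 𝓝 y, ‖xp (yx z) - xp (yx y₀)‖ < ρ₂ :=
      (isOpen_lt (((xp_diff.continuous.comp yx_diff.continuous).sub continuous_const).norm)
        continuous_const).mem_nhds hyρ
    filter_upwards [h1, h2] with z hz1 hz2 hze hzl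
    refine ⟨hz1, ?_, fun k => ?_, fun k => ?_⟩
    · rw [mem_closedBall, dist_eq_norm]; exact hz2.le
    · have h3 := hze k
      unfold ee at h3
      rw [hyC.2.2.1 k, sub_self] at h3
      exact (sub_eq_zero.mp h3).symm
    · rw [hzl k, hyC.2.2.2 k]
  refine no_minr hLAM hDISC hADO hLF hOPN hEXC hNU hBAD hNC hCONT S hNrm (ee S) hed hK hΩ
    hc₀ (S.co (yx y₀)) hdi (by omega) hls hA0 hA1 hmax hlam0 sel col hL
    hr₁0 hr₁₂ hKr₂ hKL hNt hbase hJd hJ0 hδ₀ y hyL hyN hyΩ hevC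
    (ext_sep hFM hd hExt (yx y) hyA.xU) hyk ?_ ?_ hyJ hynear hANε
    (fun z hz hzΩ hj => hymin z ⟨hz, hΩE z hzΩ⟩ hj)
  · intro k
    have h1 := (hfkb k).1
    have h2 : ‖S.b k (yx y) - ζ₀‖ ≤ Bs := by
      calc ‖S.b k (yx y) - ζ₀‖ ≤ ‖S.b k (yx y)‖ + ‖ζ₀‖ := norm_sub_le _ _
        _ ≤ |Bb k| + |B₁| := add_le_add ((hBb k (yx y) hyC).trans (le_abs_self _))
            (hζ₀B.trans (le_abs_self _))
        _ ≤ Bs := by
            rw [hBsdef]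
            apply add_le_add _ le_rfl
            exact Finset.single_le_sum (f := fun k => |Bb k|) (fun k _ => abs_nonneg _)
              (Finset.mem_univ k)
    have h3 : ‖ys y k‖ ≤ CK * Bs / rF := by
      rw [le_div_iff₀ hrF]
      exact h1.trans (mul_le_mul_of_nonneg_left h2 hCK.le)
    exact h3.trans_lt hKcq
  · intro k
    obtain ⟨i, hi, hik, hFi⟩ := (hfkb k).2
    exact ⟨Sum.inl i, hi, hik, hFi⟩

theorem p_MINPr : StMINPr :=
  MINPr p_FM p_LAM p_LIN p_LSC p_DI p_USC p_ADO p_LF p_IN p_BAD p_CPT p_OPN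
    p_EXC p_FKB p_POLE p_NUr p_JT p_ST p_NC p_FWD p_MU Pool.Agent.H790R3.RB.DISC
    Pool.Agent.H790R3.RB.MAXI Pool.Agent.H790R3.RB.CONT

end Pool.Agent.Zk23
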