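import Mathlib
import Pool.Agent.Zk23.MINP

/-! Hyperbolic maps near a given configuration: the marked attracting cycles, their position and
the labels of the attracted points are kept (adapted from `Pool.Agent.W757.RD.TSEL`). -/

set_option autoImplicit false
set_option linter.style.haveILetI false

open Topology Filter Metric Set MeasureTheory
open Pool.Agent.H790R3.RB (CV hF cr ND wr rt Ix yx yc sp HypTop Attd Sink)
open Pool.Agent.W757.RD
open scoped OnePoint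

namespace Pool.Agent.Zk23

/-- The set `E` of positions of the marked points and critical points is closed, and the positions
which belong to `E` for a map close to `u₁` are in the interior of `E`. -/
def Epos {d s : ℕ} (per : Fin s → ℕ) (u₁ : Fin (2 * d) → ℂ) (ρ : ℝ)
    (E : Set ((Fin s → ℂ) × (Fin (2 * d - 2) → ℂ))) : Prop :=
  IsClosed E ∧ ∀ (u : Fin (2 * d) → ℂ) (b : Fin s → ℂ) (c : Fin (2 * d - 2) → ℂ), ‖u - u₁‖ ≤ ρ →
    u ∈ U₀ d → (∀ k, cr ((hF (fam u))^[per k] (b k, 1)) (b k, 1) = 0) →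
    (∀ ζ : ℂ, wr (fam u) (ζ, 1) = wr (fam u) (1, 0) * ∏ i, (ζ - c i)) → (b, c) ∈ E →
    (b, c) ∈ interior E

/-- Hyperbolic maps near a given configuration. -/
def StSELr : Prop :=
  ∀ (β : ℝ) (d : ℕ) (u₀ : Fin (2 * d) → ℂ), 1 / 2 < β → β < 1 → 2 ≤ d → u₀ ∈ U₀ d →
    Gz (fam u₀) → ∃ C₂ c₂ ε₂ σ₂ : ℝ, 0 < C₂ ∧ 0 < c₂ ∧ 0 < ε₂ ∧ 0 < σ₂ ∧
    closedBall u₀ (2 * σ₂) ⊆ U₀ d ∧
    ∀ ρ : ℝ, 0 < ρ → ρ ≤ σ₂ →
    ∀ (s : ℕ) (S : Sys d (2 * d + s) s) (KK : Fin s → (Fin (2 * d + s) → ℂ) × (ℂ × ℂ) → ℂ)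
      (A : Finset (Pt d)) (ks : Pt d → Fin s) (ls : Pt d → ℕ) (y : Ix d (2 * d + s) s → ℂ),
      Ext S → S.Koe KK → ‖xp (yx y) - u₀‖ < σ₂ → Sum.inr 0 ∈ A → Sum.inr 1 ∈ A →
      Goodc S KK (ee S) A ks ls 0 y → ∀ a : ℝ, 0 ≤ a → a < ε₂ → a < c₂ * ρ ^ 2 →
      mu β (S.KS (yx y)) ≤ ENNReal.ofReal a →
      ∀ E : Set ((Fin s → ℂ) × (Fin (2 * d - 2) → ℂ)), Epos S.per (xp (yx y)) ρ E →
      ((fun k => S.b k (yx y)), yc y) ∈ E → ∀ η : ℝ, 0 < η →
      ∃ (S' : Sys d (2 * d + s) s) (ks' : Pt d → Fin s) (ls' : Pt d → ℕ)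
        (z : Ix d (2 * d + s) s → ℂ), Ext S' ∧ S'.per = S.per ∧ S'.Adm Finset.univ ks' ls' z ∧
        ‖xp (yx z) - xp (yx y)‖ ≤ C₂ * Real.sqrt a + η ∧ (∀ i ∈ A, ks' i = ks i) ∧
        ((fun k => S'.b k (yx z)), yc z) ∈ E

/-- configurations with potential at least `j` -/
def Cfr (d : ℕ) (β : ℝ) (s : ℕ) (per : Fin s → ℕ) (A₀ : Finset (Pt d)) (ks₀ : Pt d → Fin s)
    (E : Set ((Fin s → ℂ) × (Fin (2 * d - 2) → ℂ))) (u₁ : Fin (2 * d) → ℂ) (j : ℕ) (x b : ℝ) :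
    Prop :=
  ∃ (S : Sys d (2 * d + s) s) (KK : Fin s → (Fin (2 * d + s) → ℂ) × (ℂ × ℂ) → ℂ)
    (A : Finset (Pt d)) (ks : Pt d → Fin s)
    (ls : Pt d → ℕ) (R : ℕ) (y : Ix d (2 * d + s) s → ℂ), Ext S ∧ S.Koe KK ∧ S.per = per ∧
    ‖xp (yx y) - u₁‖ ≤ x ∧ mu β (S.KS (yx y)) ≤ ENNReal.ofReal b ∧
    A₀ ⊆ A ∧ (∀ i ∈ A₀, ks i = ks₀ i) ∧ ((fun k => S.b k (yx y)), yc y) ∈ E ∧
    Goodc S KK (ee S) A ks ls R y ∧ (A.card = 2 * d ∨ j ≤ A.card * (6 * d) + R)

open Pool.Agent.W757.RD.SEL (sel_inj R_le s_le card_le cr_smul_self par_of_cr mk_of)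

theorem SELr (hMARK : StMARK) (hTRF : StTRF) (hMINP : StMINPr) (hNUM : StNUM)
    (hER : StER) (hLAM : StLAM) (hKOE : StKOE) : StSELr := by
  classical
  intro β d u₀ hβ hβ1 hd hu₀ hGz
  obtain ⟨C₁, c₁, ε₁, σ₁, hC₁, hc₁, hε₁, hσ₁, hBU, hmin⟩ := hMINP β d u₀ hβ hβ1 hd hu₀ hGz
  -- one step
  have hstep : ∀ (ρ : ℝ), 0 < ρ → ρ ≤ σ₁ / 4 →
      ∀ (s : ℕ) (per : Fin s → ℕ) (A₀ : Finset (Pt d)) (ks₀ : Pt d → Fin s)
      (E : Set ((Fin s → ℂ) × (Fin (2 * d - 2) → ℂ))) (u₁ : Fin (2 * d) → ℂ),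
      Epos per u₁ ρ E → Sum.inr 0 ∈ A₀ → Sum.inr 1 ∈ A₀ → ∀ (j : ℕ) (x b : ℝ), 0 ≤ b → b < ε₁ →
      b < c₁ * (ρ / 2) ^ 2 → x ≤ ρ / 2 →
      x + ‖u₁ - u₀‖ < σ₁ / 2 → Cfr d β s per A₀ ks₀ E u₁ j x b → ∀ η : ℝ, 0 < η →
      Cfr d β s per A₀ ks₀ E u₁ (j + 1) (x + (C₁ * Real.sqrt b + η)) (b + η) := by
    rintro ρ hρ0 hρσ s per A₀ ks₀ E u₁ hE hA₀0 hA₀1 j x b hb hbε hbρ hxρ hx
      ⟨S, KK, A, ks, ls, R, y, h1, h2, hper, h3, h4, hAA, hks, hyE, h5, h6⟩ η hη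
    have hsq : 0 ≤ C₁ * Real.sqrt b := mul_nonneg hC₁.le (Real.sqrt_nonneg _)
    by_cases hcard : A.card = 2 * d
    · refine ⟨S, KK, A, ks, ls, R, y, h1, h2, hper, by linarith, ?_, hAA, hks, hyE, h5,
        Or.inl hcard⟩
      exact h4.trans (ENNReal.ofReal_le_ofReal (by linarith))
    have hlt : A.card < 2 * d := lt_of_le_of_ne (card_le hd A) hcard
    have hj : j ≤ A.card * (6 * d) + R := h6.resolve_left hcard
    have hq : yx y ∈ S.U := h5.1.xU
    have hMk := mk_of hLAM h1 hq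
    have hdist : ‖xp (yx y) - u₀‖ < σ₁ / 2 := by
      have : xp (yx y) - u₀ = (xp (yx y) - u₁) + (u₁ - u₀) := by abel
      rw [this]
      exact lt_of_le_of_lt (norm_add_le _ _) (by linarith)
    obtain ⟨S', q₀, g1, g2, g3, g4, g5, g6, g7⟩ := hMARK d (closedBall u₀ σ₁) hd
      (isCompact_closedBall _ _) hBU (xp (yx y)) (by
        rw [mem_closedBall, dist_eq_norm]
        linarith) s S.per _ hMk
    obtain ⟨KK', hKK'⟩ := hKOE d (2 * d + s) s S'
    let y' : Ix d (2 * d + s) s → ℂ := Sum.elim q₀ (Sum.elim (yc y) (fun k => ys y k))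
    have hyx : yx y' = q₀ := rfl
    have hyc : yc y = yc y' := rfl
    have hyk : ys y = ys y' := rfl
    obtain ⟨t1, t2, t3⟩ := hTRF d s S S' h1 g1 g2.symm (yx y) q₀ hq g3 g4.symm
      (fun k => (g6 k).symm)
    have hG' := t3 KK KK' A ks ls R y y' h2 hKK' rfl rfl hyc hyk h5
    have hbE : ((fun k => S'.b k (yx y')), yc y') ∈ E := by
      rw [hyx, ← hyc]
      have e1 : (fun k => S'.b k q₀) = fun k => S.b k (yx y) := funext fun k => g6 k
      rw [e1]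
      exact hyE
    obtain ⟨A', ks', ls', z, z1, z2, z3, z3', z3'', z4⟩ := hmin (ρ / 2) (by linarith)
      (by linarith) s S' KK' A ks ls R y' g1 hKK'
      (fun k => by rw [hyx, g6, g5]) (by
        rw [hyx]
        exact g7) (by
        rw [hyx, g4]
        exact hdist) b hb hbε hbρ (by
        rw [hyx, ← t1]
        exact h4) hG' (hAA hA₀0) (hAA hA₀1) hlt E hE.1 hbE (by
        intro z hzU hzρ hzE hzm
        have hpz := (mk_of hLAM g1 hzU).cyc
        rw [g2, hper] at hpz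
        refine hE.2 (xp (yx z)) _ _ ?_ (g1.U _ hzU) hpz ?_ hzm
        · have e1 : xp (yx z) - u₁ = (xp (yx z) - xp (yx y')) + (xp (yx y) - u₁) := by
            rw [hyx, g4]; abel
          rw [e1]
          exact (norm_add_le _ _).trans (by linarith)
        · have := hER d (2 * d + s) s S' z hzE
          rw [g1.co _ hzU] at this
          exact this) η hη
    have hz : ‖xp (yx z) - u₁‖ ≤ x + (C₁ * Real.sqrt b + η) := by
      rw [hyx, g4] at z1
      have : xp (yx z) - u₁ = (xp (yx y) - u₁) + (xp (yx z) - xp (yx y)) := by abel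
      rw [this]
      exact (norm_add_le _ _).trans (by linarith)
    have hRle := R_le h5
    have hsle := s_le hNUM hER h5
    have hks' : ∀ i ∈ A₀, ks' i = ks₀ i := fun i hi => (z3' i (hAA hi)).trans (hks i hi)
    rcases z4 with ⟨z5, z6⟩ | ⟨z5, z6⟩
    · refine ⟨S', KK', A', ks', ls', 0, z, g1, hKK', g2.trans hper, hz, z2, hAA.trans z3, hks',
        z3'', z6, Or.inr ?_⟩
      have h7 : (A.card + 1) * (6 * d) ≤ A'.card * (6 * d) := Nat.mul_le_mul_right _ z5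
      have h8 : (A.card + 1) * (6 * d) = A.card * (6 * d) + 6 * d := by ring
      omega
    · refine ⟨S', KK', A', ks', ls', R + 1, z, g1, hKK', g2.trans hper, hz, z2, hAA.trans z3,
        hks', z3'', z6, Or.inr ?_⟩
      rw [z5]
      omega
  -- constants
  set T : ℕ := 2 * d * (6 * d) + 6 * d with hT
  have hT0 : (0 : ℝ) ≤ (T : ℝ) := Nat.cast_nonneg _
  set M : ℝ := T * C₁ with hM
  have hM0 : 0 ≤ M := mul_nonneg hT0 hC₁.le
  set τ : ℝ := 1 / (8 * (M + 1)) with hτ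
  have hτ0 : 0 < τ := by positivity
  have hMτ : M * τ ≤ 1 / 8 := by
    have h1 : (M + 1) * τ = 1 / 8 := by
      rw [hτ]; field_simp
    linarith
  refine ⟨M + 1, min (c₁ / 8) (τ ^ 2), ε₁ / 2, σ₁ / 4, by linarith,
    lt_min (by positivity) (by positivity), by linarith, by linarith,
    (closedBall_subset_closedBall (by linarith)).trans hBU, ?_⟩
  intro ρ hρ0 hρσ s S KK A ks ls y hExt hKK hu₁ hA0 hA1 hG a ha0 haε ha1 hmu E hE hyE η hη
  set u₁ : Fin (2 * d) → ℂ := xp (yx y) with hu₁def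
  have hρ2 : 0 < ρ ^ 2 := by positivity
  have hac : a < c₁ / 8 * ρ ^ 2 :=
    lt_of_lt_of_le ha1 (mul_le_mul_of_nonneg_right (min_le_left _ _) hρ2.le)
  have haτ : a < τ ^ 2 * ρ ^ 2 :=
    lt_of_lt_of_le ha1 (mul_le_mul_of_nonneg_right (min_le_right _ _) hρ2.le)
  have haρ : Real.sqrt a < τ * ρ := by
    rw [Real.sqrt_lt' (by positivity), mul_pow]
    exact haτ
  -- choice of the small number
  obtain ⟨η', hη'0, hη'1, hη'2⟩ : ∃ η' : ℝ, 0 < η' ∧ (T + 1) * η' + M * Real.sqrt ((T + 1) * η') <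
      min η (ρ / 8) ∧ (T + 1) * η' < min (ε₁ / 2) (c₁ / 8 * ρ ^ 2) := by
    have hc : Continuous fun t : ℝ => (T + 1) * t + M * Real.sqrt ((T + 1) * t) := by fun_prop
    have h1 : ∀ᶠ t : ℝ in 𝓝 0, (T + 1) * t + M * Real.sqrt ((T + 1) * t) < min η (ρ / 8) := by
      refine (hc.tendsto 0).eventually_lt_const ?_
      simp only [mul_zero, Real.sqrt_zero, add_zero]
      exact lt_min hη (by linarith)
    have hc2 : Continuous fun t : ℝ => ((T : ℝ) + 1) * t := by fun_prop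
    have h2 : ∀ᶠ t : ℝ in 𝓝 0, ((T : ℝ) + 1) * t < min (ε₁ / 2) (c₁ / 8 * ρ ^ 2) := by
      refine (hc2.tendsto 0).eventually_lt_const ?_
      simp only [mul_zero]
      exact lt_min (by linarith) (by positivity)
    obtain ⟨t, ⟨ht1, ht2⟩, ht3⟩ := (((h1.and h2).filter_mono nhdsWithin_le_nhds).and
      (self_mem_nhdsWithin : Ioi (0 : ℝ) ∈ 𝓝[>] (0 : ℝ))).exists
    exact ⟨t, ht3, ht1, ht2⟩
  set b : ℝ := a + (T + 1) * η' with hb
  have hsqb : Real.sqrt b ≤ Real.sqrt a + Real.sqrt ((T + 1) * η') := by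
    have hc0 : (0 : ℝ) ≤ (T + 1) * η' := by positivity
    rw [Real.sqrt_le_iff]
    refine ⟨by positivity, ?_⟩
    have e1 := Real.sq_sqrt ha0
    have e2 := Real.sq_sqrt hc0
    have e3 : 0 ≤ Real.sqrt a * Real.sqrt ((T + 1) * η') := by positivity
    rw [hb]
    nlinarith
  have hMb : M * Real.sqrt b ≤ M * Real.sqrt a + M * Real.sqrt ((T + 1) * η') := by
    rw [← mul_add]
    exact mul_le_mul_of_nonneg_left hsqb hM0
  have hMa : M * Real.sqrt a ≤ ρ / 8 := by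
    calc M * Real.sqrt a ≤ M * (τ * ρ) := mul_le_mul_of_nonneg_left haρ.le hM0
      _ = (M * τ) * ρ := by ring
      _ ≤ 1 / 8 * ρ := mul_le_mul_of_nonneg_right hMτ hρ0.le
      _ = ρ / 8 := by ring
  have hη'3 := lt_of_lt_of_le hη'1 (min_le_left _ _)
  have hη'4 := lt_of_lt_of_le hη'1 (min_le_right _ _)
  have hη'5 := lt_of_lt_of_le hη'2 (min_le_left _ _)
  have hη'6 := lt_of_lt_of_le hη'2 (min_le_right _ _)
  -- the induction
  have hind : ∀ j : ℕ, j ≤ T → Cfr d β s S.per A ks E u₁ j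
      ((j + 1) * η' + j * (C₁ * Real.sqrt b)) (a + (j + 1) * η') := by
    intro j
    induction j with
    | zero =>
      intro _
      refine ⟨S, KK, A, ks, ls, 0, y, hExt, hKK, rfl, ?_, ?_, Finset.Subset.refl _,
        fun _ _ => rfl, hyE, hG, Or.inr (Nat.zero_le _)⟩
      · rw [← hu₁def, sub_self, norm_zero]
        have : (0 : ℝ) ≤ ((0 : ℕ) + 1) * η' + (0 : ℕ) * (C₁ * Real.sqrt b) := by
          simp only [Nat.cast_zero, zero_mul, add_zero, zero_add, one_mul]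
          exact hη'0.le
        exact this
      · refine hmu.trans (ENNReal.ofReal_le_ofReal ?_)
        simp only [Nat.cast_zero, zero_add, one_mul]
        linarith
    | succ j ih =>
      intro hj
      have hjT : (j : ℝ) + 1 ≤ T := by exact_mod_cast hj
      have hj0 : (0 : ℝ) ≤ j := Nat.cast_nonneg _
      have hCf := ih (by omega)
      have e0 : ((j : ℝ) + 1) * η' ≤ (T + 1) * η' :=
        mul_le_mul_of_nonneg_right (by linarith) hη'0.le
      have hbj : a + (j + 1) * η' ≤ b := by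
        rw [hb]
        linarith
      have hsb : 0 ≤ C₁ * Real.sqrt b := mul_nonneg hC₁.le (Real.sqrt_nonneg _)
      have e2 : (j : ℝ) * (C₁ * Real.sqrt b) ≤ T * (C₁ * Real.sqrt b) :=
        mul_le_mul_of_nonneg_right (by linarith) hsb
      have e3 : (T : ℝ) * (C₁ * Real.sqrt b) = M * Real.sqrt b := by rw [hM]; ring
      have h7 := hstep ρ hρ0 hρσ s S.per A ks E u₁ hE hA0 hA1 j _ _ (by positivity)
        (by linarith) (by
          have : c₁ * (ρ / 2) ^ 2 = c₁ / 8 * ρ ^ 2 + c₁ / 8 * ρ ^ 2 := by ring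
          rw [this]; linarith) (by linarith) (by linarith) hCf η' hη'0
      obtain ⟨S', KK', A', ks', ls', R, y', h1, h2, h3, h4, h5, h6⟩ := h7
      refine ⟨S', KK', A', ks', ls', R, y', h1, h2, h3, h4.trans ?_, h5.trans ?_, h6⟩
      · have e1 : C₁ * Real.sqrt (a + (j + 1) * η') ≤ C₁ * Real.sqrt b :=
          mul_le_mul_of_nonneg_left (Real.sqrt_le_sqrt hbj) hC₁.le
        push_cast
        linarith
      · apply ENNReal.ofReal_le_ofReal
        push_cast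
        linarith
  obtain ⟨S', KK', A', ks', ls', R, z, h1, h2, hper, h3, h4, hAA, hks, hzE, h5, h6⟩ :=
    hind T le_rfl
  have hcard : A'.card = 2 * d := by
    by_contra hcard
    have h7 := h6.resolve_left hcard
    have hRle := R_le h5
    have hsle := s_le hNUM hER h5
    have hlt : A'.card + 1 ≤ 2 * d := by
      have := card_le hd A'
      omega
    have h8 : (A'.card + 1) * (6 * d) ≤ (2 * d) * (6 * d) := Nat.mul_le_mul_right _ hlt
    have h9 : (A'.card + 1) * (6 * d) = A'.card * (6 * d) + 6 * d := by ring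
    omega
  have hA : A' = Finset.univ := by
    apply Finset.eq_univ_of_card
    rw [hcard]
    simp only [Fintype.card_sum, Fintype.card_fin]
    omega
  subst hA
  refine ⟨S', ks', ls', z, h1, hper, h5.1, h3.trans ?_, hks, hzE⟩
  have e3 : (T : ℝ) * (C₁ * Real.sqrt b) = M * Real.sqrt b := by rw [hM]; ring
  have := Real.sqrt_nonneg a
  linarith

theorem p_SELr : StSELr := SELr p_MARK p_TRF p_MINPr p_NUM p_ER p_LAM p_KOE

end Pool.Agent.Zk23
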