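import Mathlib
import Pool.Agent.Zk23.SEL

/-! Good configurations near a given system of marked cycles (adapted from
`Pool.Agent.W210.RESTART`). -/

set_option autoImplicit false

open Topology Filter Metric Set MeasureTheory
open Pool.Agent.H790R3.RB (CV hF cr ND wr rt Ix yx yc sp HypTop Attd Sink)
open Pool.Agent.W757.RD
open scoped OnePoint

namespace Pool.Agent.Zk23

/-- Generic configurations near a point of a system. -/
theorem gen_config {d s : ℕ} (hd : 2 ≤ d) (S : Sys d (2 * d + s) s) (hExt : Ext S)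
    (q₀ : Fin (2 * d + s) → ℂ) (hq₀ : q₀ ∈ S.U) (ε : ℝ) (hε : 0 < ε) :
    ∃ y : Ix d (2 * d + s) s → ℂ, ‖yx y - q₀‖ < ε ∧ yx y ∈ S.U ∧ (∀ k, S.lam k (yx y) ≠ 0) ∧
      (∀ j, S.Er j y = 0) ∧
      ∀ (KK : Fin s → (Fin (2 * d + s) → ℂ) × (ℂ × ℂ) → ℂ) (A : Finset (Pt d))
        (ks : Pt d → Fin s) (ls : Pt d → ℕ), (∀ i ∈ A, ls i < S.per (ks i)) →
        (∀ i ∈ A, (yx y, (S.F (yx y))^[ls i] (pc y i, 1)) ∈ S.Dom (ks i)) →
        Goodc S KK (ee S) A ks ls 0 y := by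
  obtain ⟨ρ, hρ, hBU⟩ := Metric.isOpen_iff.1 S.hU q₀ hq₀
  have hq1 : 1 ≤ ∏ k : Fin s, S.per k := Finset.one_le_prod' fun k _ => S.hper k
  have hdvd : ∀ k, S.per k ∣ ∏ k : Fin s, S.per k :=
    fun k => Finset.dvd_prod_of_mem S.per (Finset.mem_univ k)
  have hε' : 0 < min ε ρ := lt_min hε hρ
  obtain ⟨x₂, hx₂, hw, ⟨c, hc, hfac⟩, hncr⟩ := p_GENX d (xp q₀) _ hd hq1 _ hε'
  set q₂ : Fin (2 * d + s) → ℂ := Fin.append x₂ (bp q₀) with hq₂
  have hxp₂ : xp q₂ = x₂ := by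
    funext i
    simp [xp, hq₂]
  have hd₂ : ‖q₂ - q₀‖ < min ε ρ := by
    rw [pi_norm_lt_iff hε']
    intro i
    rw [Pi.sub_apply]
    refine Fin.addCases (fun i => ?_) (fun k => ?_) i
    · have h1 : q₂ (Fin.castAdd s i) = x₂ i := by simp [hq₂]
      rw [h1]
      exact lt_of_le_of_lt (norm_le_pi_norm (x₂ - xp q₀) i) hx₂
    · have h1 : q₂ (Fin.natAdd (2 * d) k) = bp q₀ k := by simp [hq₂]
      have h2 : q₀ (Fin.natAdd (2 * d) k) = bp q₀ k := rfl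
      rw [h1, h2, sub_self, norm_zero]
      exact hε'
  have hq₂U : q₂ ∈ S.U := hBU (by
    rw [mem_ball, dist_eq_norm]
    exact hd₂.trans_le (min_le_right _ _))
  have hco : S.co q₂ = fam x₂ := by rw [hExt.co q₂ hq₂U, hxp₂]
  have hlam : ∀ k, S.lam k q₂ ≠ 0 :=
    p_LNE d (2 * d + s) s S _ q₂ hq₂U hdvd hq1 (by rw [hco]; exact hncr)
  let y : Ix d (2 * d + s) s → ℂ := Sum.elim q₂ (Sum.elim c (fun _ => 1))
  have hyx : yx y = q₂ := rfl
  have hyc : yc y = c := rfl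
  have hys : ∀ k, ys y k ≠ 0 := fun k => one_ne_zero
  have hEr : ∀ j, S.Er j y = 0 := by
    intro j
    unfold Sys.Er
    rw [hyx, hyc, hco, hfac, sub_self]
  refine ⟨y, ?_, hq₂U, hlam, hEr, ?_⟩
  · rw [hyx]
    exact hd₂.trans_le (min_le_left _ _)
  · intro KK A ks ls h1 h2
    refine ⟨⟨hq₂U, hlam, hys, hEr, h1, h2⟩, ?_⟩
    obtain ⟨col, hcol⟩ := p_EMIN d (2 * d + s) s S y hq₂U hc
    refine ⟨Fin.elim0, Sum.elim col Fin.elim0, ?_⟩
    have hM : S.Mx KK (ee S) A ks ls (R := 0) Fin.elim0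
        (Sum.elim col Fin.elim0) y =
        (Matrix.of fun j c : Fin (2 * d - 2) =>
          fderiv ℂ (S.Er j) y (Pi.single (col c) 1)).submatrix
          (Equiv.sumEmpty (Fin (2 * d - 2)) (Fin 0)) (Equiv.sumEmpty (Fin (2 * d - 2)) (Fin 0)) := by
      ext a b
      rcases a with a | a
      · rcases b with b | b
        · rfl
        · exact b.elim0
      · exact a.elim0
    rw [hM, Matrix.det_submatrix_equiv_self]
    exact hcol

/-- points which enter a disc are in the domain of the Koenigs map -/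
theorem dom_of_inC {d n s : ℕ} (S : Sys d n s) {q : Fin n → ℂ} (hq : q ∈ S.U)
    {k : Fin s} (hl : S.lam k q ≠ 0) {m : ℕ} {p : ℂ × ℂ} (h : S.InC k q ((S.F q)^[m] p)) :
    (q, (S.F q)^[m % S.per k] p) ∈ S.Dom k := by
  refine ⟨hq, hl, m / S.per k, ?_⟩
  have h1 : (S.F q)^[S.per k * (m / S.per k)] ((S.F q)^[m % S.per k] p) = (S.F q)^[m] p := by
    rw [← Function.iterate_add_apply, Nat.div_add_mod]
  show S.InC k q ((S.F q)^[S.per k * (m / S.per k)] ((S.F q)^[m % S.per k] p))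
  rw [h1]
  exact h

/-- entering a disc is an open condition on the map and the point of the plane -/
theorem ev_inC_pt {d n s : ℕ} (S : Sys d n s) {q : Fin n → ℂ} (hq : q ∈ S.U)
    {k : Fin s} {m : ℕ} {ζ : ℂ} (h : S.InC k q ((S.F q)^[m] (ζ, 1))) :
    ∀ᶠ p : (Fin n → ℂ) × ℂ in 𝓝 (q, ζ), S.InC k p.1 ((S.F p.1)^[m] (p.2, 1)) := by
  have h1 := KOE.ev_inC S k m (q := (q, (ζ, 1))) hq h
  have h2 : Tendsto (fun p : (Fin n → ℂ) × ℂ => (p.1, ((p.2, 1) : ℂ × ℂ))) (𝓝 (q, ζ))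
      (𝓝 (q, (ζ, 1))) := by
    have : Continuous fun p : (Fin n → ℂ) × ℂ => (p.1, ((p.2, 1) : ℂ × ℂ)) := by fun_prop
    exact this.tendsto _
  exact h2.eventually h1

/-- the marked critical points close to a critical point -/
theorem ev_crit {d n s : ℕ} (S : Sys d n s) {q : Fin n → ℂ} (hq : q ∈ S.U)
    {ζ : ℂ} (h : wr (S.co q) (ζ, 1) = 0) (δ : ℝ) (hδ : 0 < δ) :
    ∀ᶠ q' in 𝓝 q, ∀ y : Ix d n s → ℂ, yx y = q' → (∀ j, S.Er j y = 0) →
      ∃ i : Fin (2 * d - 2), ‖yc y i - ζ‖ < δ := by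
  have hco : ContinuousAt S.co q := (S.hco.differentiableAt (S.hU.mem_nhds hq)).continuousAt
  have hwc : Continuous fun p : CV d × (ℂ × ℂ) => wr p.1 p.2 :=
    (Pool.Agent.H790R3.RB.wr_contDiff d 1).continuous
  have h0 : wr (S.co q) (1, 0) ≠ 0 := S.hwr q hq
  have c1 : ContinuousAt (fun q' => wr (S.co q') (ζ, 1)) q :=
    ContinuousAt.comp (f := fun q' => (S.co q', ((ζ, 1) : ℂ × ℂ))) (g := fun p => wr p.1 p.2)
      hwc.continuousAt (hco.prodMk continuousAt_const)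
  have c2 : ContinuousAt (fun q' => wr (S.co q') (1, 0)) q :=
    ContinuousAt.comp (f := fun q' => (S.co q', ((1, 0) : ℂ × ℂ))) (g := fun p => wr p.1 p.2)
      hwc.continuousAt (hco.prodMk continuousAt_const)
  have hpos : 0 < ‖wr (S.co q) (1, 0)‖ := norm_pos_iff.2 h0
  have e1 : ∀ᶠ q' in 𝓝 q, ‖wr (S.co q') (ζ, 1)‖ <
      ‖wr (S.co q) (1, 0)‖ / 2 * δ ^ (2 * d - 2) := by
    refine c1.norm.eventually_lt continuousAt_const ?_
    rw [h, norm_zero]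
    positivity
  have e2 : ∀ᶠ q' in 𝓝 q, ‖wr (S.co q) (1, 0)‖ / 2 < ‖wr (S.co q') (1, 0)‖ := by
    refine continuousAt_const.eventually_lt c2.norm ?_
    linarith
  filter_upwards [e1, e2] with q' h1 h2 y hy hEr
  by_contra hcon
  push Not at hcon
  have hfac := p_ER d n s S y hEr ζ
  rw [hy] at hfac
  have h3 : δ ^ (2 * d - 2) ≤ ∏ i : Fin (2 * d - 2), ‖ζ - yc y i‖ := by
    calc δ ^ (2 * d - 2) = ∏ i : Fin (2 * d - 2), δ := by simp
      _ ≤ ∏ i : Fin (2 * d - 2), ‖ζ - yc y i‖ :=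
          Finset.prod_le_prod (fun i _ => hδ.le) (fun i _ => by
            rw [norm_sub_rev]; exact hcon i)
  have h4 : ‖wr (S.co q') (ζ, 1)‖ =
      ‖wr (S.co q') (1, 0)‖ * ∏ i : Fin (2 * d - 2), ‖ζ - yc y i‖ := by
    rw [hfac, norm_mul, norm_prod]
  have h5 : ‖wr (S.co q) (1, 0)‖ / 2 * δ ^ (2 * d - 2) ≤
      ‖wr (S.co q') (1, 0)‖ * ∏ i : Fin (2 * d - 2), ‖ζ - yc y i‖ :=
    mul_le_mul h2.le h3 (by positivity) (norm_nonneg _)
  linarith

end Pool.Agent.Zk23
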