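import Mathlib
import Pool.Agent.Zk23.START

/-! Positions of the marked points and of a critical point. -/

set_option autoImplicit false
set_option maxHeartbeats 400000

open Topology Filter Metric Set MeasureTheory
open Pool.Agent.H790R3.RB (CV hF cr ND wr rt Ix yx yc sp HypTop Attd Sink hF_iter_continuous
  wr_contDiff cr_eq_zero_iff)
open Pool.Agent.W757.RD
open scoped OnePoint

namespace Pool.Agent.Zk23

/-- positions close to given ones -/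
def Eset {d s : ℕ} (p : Fin s → ℂ) (K : Set (Fin s)) (I : Set (Fin (2 * d - 2))) (ζ₀ : ℂ) (δ : ℝ) :
    Set ((Fin s → ℂ) × (Fin (2 * d - 2) → ℂ)) :=
  {x | (∀ k ∈ K, ‖x.1 k - p k‖ ≤ δ) ∧ ∀ i ∈ I, ‖x.2 i - ζ₀‖ ≤ δ}

theorem eset_closed {d s : ℕ} (p : Fin s → ℂ) (K : Set (Fin s)) (I : Set (Fin (2 * d - 2)))
    (ζ₀ : ℂ) (δ : ℝ) : IsClosed (Eset (d := d) p K I ζ₀ δ) := by
  have e : Eset (d := d) p K I ζ₀ δ = (⋂ k ∈ K, {x | ‖x.1 k - p k‖ ≤ δ}) ∩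
      ⋂ i ∈ I, {x | ‖x.2 i - ζ₀‖ ≤ δ} := by
    ext x
    simp [Eset]
  rw [e]
  refine IsClosed.inter (isClosed_biInter fun k _ => ?_) (isClosed_biInter fun i _ => ?_)
  · exact isClosed_le (by fun_prop) continuous_const
  · exact isClosed_le (by fun_prop) continuous_const

theorem eset_interior {d s : ℕ} (p : Fin s → ℂ) (K : Set (Fin s)) (I : Set (Fin (2 * d - 2)))
    (ζ₀ : ℂ) (δ : ℝ) (x : (Fin s → ℂ) × (Fin (2 * d - 2) → ℂ)) (h1 : ∀ k ∈ K, ‖x.1 k - p k‖ < δ)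
    (h2 : ∀ i ∈ I, ‖x.2 i - ζ₀‖ < δ) : x ∈ interior (Eset (d := d) p K I ζ₀ δ) := by
  rw [mem_interior]
  refine ⟨(⋂ k ∈ K, {x | ‖x.1 k - p k‖ < δ}) ∩ ⋂ i ∈ I, {x | ‖x.2 i - ζ₀‖ < δ}, ?_, ?_, ?_⟩
  · rintro y ⟨h3, h4⟩
    simp only [mem_iInter] at h3 h4
    exact ⟨fun k hk => (h3 k hk).le, fun i hi => (h4 i hi).le⟩
  · refine IsOpen.inter ?_ ?_
    · exact K.toFinite.isOpen_biInter fun k _ => isOpen_lt (by fun_prop) continuous_const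
    · exact I.toFinite.isOpen_biInter fun i _ => isOpen_lt (by fun_prop) continuous_const
  · refine ⟨?_, ?_⟩
    · simp only [mem_iInter]
      exact h1
    · simp only [mem_iInter]
      exact h2

/-- no marked point and no critical point is on the circles of radius `δ` -/
structure Circ {d s : ℕ} (per : Fin s → ℕ) (u₀ : Fin (2 * d) → ℂ) (ρ : ℝ) (p : Fin s → ℂ)
    (K : Set (Fin s)) (I : Set (Fin (2 * d - 2))) (ζ₀ : ℂ) (δ : ℝ) : Prop where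
  b : ∀ u : Fin (2 * d) → ℂ, ‖u - u₀‖ ≤ ρ → ∀ k ∈ K, ∀ b : ℂ, ‖b - p k‖ = δ →
    cr ((hF (fam u))^[per k] (b, 1)) (b, 1) ≠ 0
  c : ∀ u : Fin (2 * d) → ℂ, ‖u - u₀‖ ≤ ρ → ∀ i ∈ I, ∀ ζ : ℂ, ‖ζ - ζ₀‖ = δ →
    wr (fam u) (ζ, 1) ≠ 0

theorem epos_of {d s : ℕ} {per : Fin s → ℕ} {u₀ : Fin (2 * d) → ℂ} {ρt : ℝ} {p : Fin s → ℂ}
    {K : Set (Fin s)} {I : Set (Fin (2 * d - 2))} {ζ₀ : ℂ} {δ : ℝ}
    (h : Circ per u₀ ρt p K I ζ₀ δ) (u₁ : Fin (2 * d) → ℂ) (ρ : ℝ) (hu : ‖u₁ - u₀‖ + ρ ≤ ρt) :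
    Epos per u₁ ρ (Eset (d := d) p K I ζ₀ δ) := by
  refine ⟨eset_closed _ _ _ _ _, ?_⟩
  rintro u b c hu1 hU hb hc ⟨h1, h2⟩
  have hur : ‖u - u₀‖ ≤ ρt := by
    have e : u - u₀ = (u - u₁) + (u₁ - u₀) := by abel
    rw [e]
    exact (norm_add_le _ _).trans (by linarith)
  apply eset_interior
  · intro k hk
    refine lt_of_le_of_ne (h1 k hk) fun he => ?_
    exact h.b u hur k hk (b k) he (hb k)
  · intro i hi
    refine lt_of_le_of_ne (h2 i hi) fun he => ?_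
    refine h.c u hur i hi (c i) he ?_
    rw [hc]
    rw [Finset.prod_eq_zero (Finset.mem_univ i) (sub_self _), mul_zero]

/-- a point with zero cross product is fixed up to a factor, hence the base point -/
theorem fix_unique {d s : ℕ} {S : Sys d (2 * d + s) s} (hE : Ext S)
    {q : Fin (2 * d + s) → ℂ} (hq : q ∈ S.U) {k : Fin s} {b : ℂ} (hb : ‖b - S.b k q‖ < S.r₀ k)
    (h : cr ((hF (fam (xp q)))^[S.per k] (b, 1)) (b, 1) = 0) : b = S.b k q := by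
  obtain ⟨a, z', ha, hz', he⟩ := S.contr q hq k (b - S.b k q) hb
  have e1 : S.b k q + (b - S.b k q) = b := by ring
  rw [e1, hE.co q hq] at he
  rw [he] at h
  unfold cr at h
  simp only [Prod.smul_fst, Prod.smul_snd, smul_eq_mul, mul_one] at h
  have h2 : a * (S.b k q + z' - b) = 0 := by linear_combination h
  have h3 : S.b k q + z' - b = 0 := (mul_eq_zero.mp h2).resolve_left ha
  have h4 : z' = b - S.b k q := by linear_combination h3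
  rw [h4] at hz'
  have h5 : ‖b - S.b k q‖ = 0 := by
    by_contra hne
    have h6 : 0 < ‖b - S.b k q‖ := lt_of_le_of_ne (norm_nonneg _) (Ne.symm hne)
    have h7 : S.θ * ‖b - S.b k q‖ < 1 * ‖b - S.b k q‖ := mul_lt_mul_of_pos_right S.hθ h6
    linarith
  exact sub_eq_zero.1 (norm_eq_zero.1 h5)

theorem fam_cont {d : ℕ} (hd : 2 ≤ d) : Continuous (fam : (Fin (2 * d) → ℂ) → CV d) :=
  ((p_FM d hd).2.1).continuous

theorem circ_b {d s : ℕ} (S : Sys d (2 * d + s) s) (hE : Ext S)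
    (q₀ : Fin (2 * d + s) → ℂ) (hq : q₀ ∈ S.U) (k : Fin s) (δ : ℝ) (hδ : 0 < δ)
    (hδr : δ < S.r₀ k) :
    ∀ᶠ u in 𝓝 (xp q₀), ∀ b : ℂ, ‖b - S.b k q₀‖ = δ →
      cr ((hF (fam u))^[S.per k] (b, 1)) (b, 1) ≠ 0 := by
  have hd := S.hd
  have hc : Continuous fun p : (Fin (2 * d) → ℂ) × ℂ =>
      cr ((hF (fam p.1))^[S.per k] (p.2, 1)) (p.2, 1) := by
    have h1 : Continuous fun p : (Fin (2 * d) → ℂ) × ℂ =>
        (hF (fam p.1))^[S.per k] (p.2, 1) := by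
      have h2 : Continuous fun p : (Fin (2 * d) → ℂ) × ℂ =>
          ((fam p.1 : CV d), ((p.2, 1) : ℂ × ℂ)) := by
        refine Continuous.prodMk ((fam_cont hd).comp continuous_fst) (by fun_prop)
      exact (hF_iter_continuous d (S.per k)).comp h2
    unfold cr
    fun_prop
  have hK : IsCompact (sphere (S.b k q₀) δ) := isCompact_sphere _ _
  have h3 : ∀ᶠ u in 𝓝 (xp q₀), ∀ b ∈ sphere (S.b k q₀) δ,
      cr ((hF (fam u))^[S.per k] (b, 1)) (b, 1) ≠ 0 := by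
    refine hK.eventually_forall_of_forall_eventually fun b hb => ?_
    refine hc.continuousAt.eventually_ne ?_
    intro h0
    have h4 : ‖b - S.b k q₀‖ = δ := by rw [← dist_eq_norm]; exact hb
    have h5 : b = S.b k q₀ := fix_unique hE hq (by rw [h4]; exact hδr) h0
    rw [h5, sub_self, norm_zero] at h4
    linarith
  filter_upwards [h3] with u hu b hb
  exact hu b (by rw [mem_sphere, dist_eq_norm]; exact hb)

theorem circ_c {d : ℕ} (hd : 2 ≤ d) (u₀ : Fin (2 * d) → ℂ) (ζ₀ : ℂ) (δ : ℝ)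
    (hδ : ∀ ζ : ℂ, ‖ζ - ζ₀‖ = δ → wr (fam u₀) (ζ, 1) ≠ 0) :
    ∀ᶠ u in 𝓝 u₀, ∀ ζ : ℂ, ‖ζ - ζ₀‖ = δ → wr (fam u) (ζ, 1) ≠ 0 := by
  have hc : Continuous fun p : (Fin (2 * d) → ℂ) × ℂ => wr (fam p.1) (p.2, 1) := by
    rw [← continuousOn_univ]
    exact Pool.Agent.H790R3.RB.CPT.wr_cont ((fam_cont hd).comp continuous_fst).continuousOn
      (Continuous.continuousOn (by fun_prop))
  have h3 : ∀ᶠ u in 𝓝 u₀, ∀ ζ ∈ sphere ζ₀ δ, wr (fam u) (ζ, 1) ≠ 0 := by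
    refine (isCompact_sphere ζ₀ δ).eventually_forall_of_forall_eventually fun ζ hζ => ?_
    have h5 : wr (fam u₀) (ζ, 1) ≠ 0 := hδ ζ (by rw [← dist_eq_norm]; exact hζ)
    exact (hc.continuousAt (x := (u₀, ζ))).eventually_ne h5
  filter_upwards [h3] with u hu ζ hζ
  exact hu ζ (by rw [mem_sphere, dist_eq_norm]; exact hζ)

/-- critical points are isolated -/
theorem crit_isol {d : ℕ} (hd : 2 ≤ d) (u₀ : Fin (2 * d) → ℂ) (hu : u₀ ∈ U₀ d) (ζ₀ : ℂ) :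
    ∃ δ₀ : ℝ, 0 < δ₀ ∧ ∀ δ : ℝ, 0 < δ → δ < δ₀ → ∀ ζ : ℂ, ‖ζ - ζ₀‖ = δ →
      wr (fam u₀) (ζ, 1) ≠ 0 := by
  obtain ⟨-, ⟨W, hW1, hW2, hW3⟩, -⟩ := Pool.Agent.H790R3.RB.WR d (fam u₀) hd
  have hW0 : W ≠ 0 := by
    rintro rfl
    rw [Polynomial.coeff_zero] at hW3
    exact hu.2 hW3.symm
  have hfin : {ζ : ℂ | wr (fam u₀) (ζ, 1) = 0}.Finite := by
    have : {ζ : ℂ | wr (fam u₀) (ζ, 1) = 0} = {ζ | W.IsRoot ζ} := by
      ext ζ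
      simp only [mem_ofPred_eq, Polynomial.IsRoot]
      rw [hW2]
    rw [this]
    exact Polynomial.finite_setOfPred_isRoot hW0
  have h1 : ∀ᶠ ζ in 𝓝[≠] ζ₀, ζ ∉ {ζ : ℂ | wr (fam u₀) (ζ, 1) = 0} := by
    have := hfin.isClosed
    have h2 : (({ζ : ℂ | wr (fam u₀) (ζ, 1) = 0} \ {ζ₀})ᶜ : Set ℂ) ∈ 𝓝 ζ₀ := by
      refine (hfin.subset sdiff_subset).isClosed.isOpen_compl.mem_nhds ?_
      simp
    rw [eventually_nhdsWithin_iff]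
    filter_upwards [h2] with ζ hζ hne hcon
    exact hζ ⟨hcon, hne⟩
  rw [eventually_nhdsWithin_iff] at h1
  obtain ⟨δ₀, hδ₀, hb⟩ := Metric.eventually_nhds_iff.1 h1
  refine ⟨δ₀, hδ₀, fun δ hδ hδδ ζ hζ => ?_⟩
  refine hb (by rw [dist_eq_norm, hζ]; exact hδδ) ?_
  rintro rfl
  simp at hζ
  linarith

/-- all small circles are good, for nearby maps -/
theorem circ_of {d s : ℕ} (S : Sys d (2 * d + s) s) (hE : Ext S)
    (q₀ : Fin (2 * d + s) → ℂ) (hq : q₀ ∈ S.U) (I : Set (Fin (2 * d - 2))) (ζ₀ : ℂ)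
    (δ₁ : ℝ) (hδ₁ : 0 < δ₁) :
    ∃ δ ρ : ℝ, 0 < δ ∧ δ < δ₁ ∧ (∀ k, δ < S.r₀ k) ∧ 0 < ρ ∧
      Circ S.per (xp q₀) ρ (fun k => S.b k q₀) univ I ζ₀ δ := by
  have hd := S.hd
  obtain ⟨δ₀, hδ₀, hc⟩ := crit_isol hd (xp q₀) (hE.U q₀ hq) ζ₀
  obtain ⟨δ, hδ, ⟨h1, h2⟩, h3⟩ : ∃ δ : ℝ, 0 < δ ∧ (δ < δ₀ ∧ δ < δ₁) ∧ ∀ k, δ < S.r₀ k := by
    have e1 : ∀ᶠ δ : ℝ in 𝓝[>] 0, 0 < δ := eventually_mem_nhdsWithin
    have e2 : ∀ᶠ δ : ℝ in 𝓝[>] 0, δ < δ₀ ∧ δ < δ₁ :=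
      (eventually_nhdsWithin_of_eventually_nhds (eventually_lt_nhds hδ₀)).and
        (eventually_nhdsWithin_of_eventually_nhds (eventually_lt_nhds hδ₁))
    have e3 : ∀ᶠ δ : ℝ in 𝓝[>] 0, ∀ k, δ < S.r₀ k := eventually_all.2 fun k =>
      eventually_nhdsWithin_of_eventually_nhds (eventually_lt_nhds (S.hr₀ k))
    obtain ⟨δ, a1, a2, a3⟩ := (e1.and (e2.and e3)).exists
    exact ⟨δ, a1, a2, a3⟩
  have e1 : ∀ᶠ u in 𝓝 (xp q₀), ∀ k, ∀ b : ℂ, ‖b - S.b k q₀‖ = δ →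
      cr ((hF (fam u))^[S.per k] (b, 1)) (b, 1) ≠ 0 :=
    eventually_all.2 fun k => circ_b S hE q₀ hq k δ hδ (h3 k)
  have e2 := circ_c hd (xp q₀) ζ₀ δ (hc δ hδ h1)
  obtain ⟨ρ, hρ, hb⟩ := Metric.eventually_nhds_iff.1 (e1.and e2)
  refine ⟨δ, ρ / 2, hδ, h2, h3, half_pos hρ, ?_, ?_⟩
  · intro u hu k _ b hbk
    exact (hb (y := u) (by rw [dist_eq_norm]; linarith)).1 k b hbk
  · intro u hu i _ ζ hζ
    exact (hb (y := u) (by rw [dist_eq_norm]; linarith)).2 ζ hζ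

end Pool.Agent.Zk23
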