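import Mathlib
import Pool.Agent.Zk23.POS

/-! A holomorphic retraction onto the set of maps with a marked critical point. -/

set_option autoImplicit false
set_option maxHeartbeats 400000

open Topology Filter Metric Set MeasureTheory
open Pool.Agent.H790R3.RB (CV hF cr ND wr rt Ix yx yc sp HypTop Attd Sink hF_contDiff
  wr_contDiff cr_eq_zero_iff)
open Pool.Agent.W757.RD
open scoped OnePoint

namespace Pool.Agent.Zk23

theorem sum_two {d : ℕ} (hd : 1 ≤ d) (a b : ℂ) (h : ℕ → ℂ) :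
    ∑ j : Fin (d + 1), (if (j : ℕ) = 0 then a else if (j : ℕ) = 1 then b else 0) * h (j : ℕ) =
      a * h 0 + b * h 1 := by
  obtain ⟨e, rfl⟩ : ∃ e, d = e + 1 := ⟨d - 1, by omega⟩
  rw [Fin.sum_univ_succ, Fin.sum_univ_succ]
  simp

/-- adding a multiple of `(α, β) (z - ζ)` to the pair of polynomials -/
theorem wr_add {d : ℕ} (hd : 1 ≤ d) (x x' : CV d) (s α β ζ : ℂ)
    (h0 : ∀ j : Fin (d + 1), x' (0, j) = x (0, j) +
      s * (if (j : ℕ) = 0 then -(α * ζ) else if (j : ℕ) = 1 then α else 0))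
    (h1 : ∀ j : Fin (d + 1), x' (1, j) = x (1, j) +
      s * (if (j : ℕ) = 0 then -(β * ζ) else if (j : ℕ) = 1 then β else 0)) :
    wr x' (ζ, 1) = wr x (ζ, 1) +
      s * (d * (α * (hF x (ζ, 1)).2 - β * (hF x (ζ, 1)).1)) := by
  have hs : ∀ (c : Fin (d + 1) → ℂ) (a b : ℂ) (h : ℕ → ℂ),
      ∑ j : Fin (d + 1), (c j + s * (if (j : ℕ) = 0 then a else if (j : ℕ) = 1 then b else 0)) *
        h (j : ℕ) = ∑ j : Fin (d + 1), c j * h (j : ℕ) + s * (a * h 0 + b * h 1) := by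
    intro c a b h
    rw [← sum_two hd a b h, Finset.mul_sum, ← Finset.sum_add_distrib]
    refine Finset.sum_congr rfl fun j _ => ?_
    ring
  have e1 : ∀ c : Fin (d + 1) → ℂ,
      (∑ j : Fin (d + 1), c j * (((d - (j : ℕ) : ℕ) : ℂ) * ζ ^ (j : ℕ))) +
        ζ * (∑ j : Fin (d + 1), c j * (((j : ℕ) : ℂ) * ζ ^ ((j : ℕ) - 1))) =
      d * ∑ j : Fin (d + 1), c j * ζ ^ (j : ℕ) := by
    intro c
    rw [Finset.mul_sum, Finset.mul_sum, ← Finset.sum_add_distrib]
    refine Finset.sum_congr rfl fun j _ => ?_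
    have hj : (j : ℕ) ≤ d := Nat.lt_succ_iff.mp j.2
    rw [Nat.cast_sub hj]
    rcases Nat.eq_zero_or_pos (j : ℕ) with h | h
    · rw [h]; simp; ring
    · obtain ⟨e, he⟩ : ∃ e, (j : ℕ) = e + 1 := ⟨(j : ℕ) - 1, by omega⟩
      rw [he, Nat.add_sub_cancel]
      push_cast
      ring
  unfold wr hF
  simp only [one_pow, mul_one]
  simp only [h0, h1]
  rw [hs (fun j => x (0, j)) _ _ (fun j => ((j : ℕ) : ℂ) * ζ ^ (j - 1)),
    hs (fun j => x (1, j)) _ _ (fun j => ((d - j : ℕ) : ℂ) * ζ ^ j),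
    hs (fun j => x (0, j)) _ _ (fun j => ((d - j : ℕ) : ℂ) * ζ ^ j),
    hs (fun j => x (1, j)) _ _ (fun j => ((j : ℕ) : ℂ) * ζ ^ (j - 1))]
  have e2 := e1 (fun j => x (0, j))
  have e3 := e1 (fun j => x (1, j))
  simp only [Nat.cast_zero, Nat.cast_one, Nat.sub_zero, zero_mul, mul_zero, zero_add, Nat.sub_self,
    pow_zero, mul_one, pow_one]
  rw [Nat.cast_sub hd, Nat.cast_one]
  set A := ∑ j : Fin (d + 1), x (0, j) * (((j : ℕ) : ℂ) * ζ ^ ((j : ℕ) - 1)) with hA
  set B := ∑ j : Fin (d + 1), x (1, j) * (((d - (j : ℕ) : ℕ) : ℂ) * ζ ^ (j : ℕ)) with hB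
  set C := ∑ j : Fin (d + 1), x (0, j) * (((d - (j : ℕ) : ℕ) : ℂ) * ζ ^ (j : ℕ)) with hC
  set D := ∑ j : Fin (d + 1), x (1, j) * (((j : ℕ) : ℂ) * ζ ^ ((j : ℕ) - 1)) with hD
  set P := ∑ j : Fin (d + 1), x (0, j) * ζ ^ (j : ℕ) with hP
  set Q := ∑ j : Fin (d + 1), x (1, j) * ζ ^ (j : ℕ) with hQ
  linear_combination s * α * e3 - s * β * e2

/-- the direction of the perturbation in the coordinates of the universal family -/
noncomputable def dirv (d : ℕ) (α β ζ : ℂ) : Fin (2 * d) → ℂ := fun i =>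
  if (i : ℕ) = 0 then -(α * ζ) else if (i : ℕ) = 1 then α else
    if (i : ℕ) = d then -(β * ζ) else if (i : ℕ) = d + 1 then β else 0

theorem fam_dirv {d : ℕ} (hd : 2 ≤ d) (u : Fin (2 * d) → ℂ) (s α β ζ : ℂ) :
    (∀ j : Fin (d + 1), fam (u + s • dirv d α β ζ) (0, j) = fam u (0, j) +
      s * (if (j : ℕ) = 0 then -(α * ζ) else if (j : ℕ) = 1 then α else 0)) ∧
    ∀ j : Fin (d + 1), fam (u + s • dirv d α β ζ) (1, j) = fam u (1, j) +
      s * (if (j : ℕ) = 0 then -(β * ζ) else if (j : ℕ) = 1 then β else 0) := by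
  constructor
  · intro j
    unfold fam
    by_cases h : (j : ℕ) < d
    · simp only [h, dif_pos, Pi.add_apply, Pi.smul_apply, smul_eq_mul]
      congr 2
      unfold dirv
      have h2 : (j : ℕ) ≠ d := by omega
      have h3 : (j : ℕ) ≠ d + 1 := by omega
      simp [h2, h3]
    · simp only [h, dif_neg, not_false_eq_true]
      have h2 : (j : ℕ) ≠ 0 := by omega
      have h3 : (j : ℕ) ≠ 1 := by omega
      simp [h2, h3]
  · intro j
    unfold fam
    by_cases h : (j : ℕ) < d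
    · simp only [h, dif_pos, Pi.add_apply, Pi.smul_apply, smul_eq_mul]
      congr 2
      unfold dirv
      have h1 : ((1 : Fin 2) : ℕ) = 1 := rfl
      have h2 : 1 * d + (j : ℕ) ≠ 0 := by omega
      have h3 : 1 * d + (j : ℕ) ≠ 1 := by omega
      simp only [h1, h2, h3, if_false]
      by_cases h4 : (j : ℕ) = 0
      · simp [h4]
      · by_cases h5 : (j : ℕ) = 1
        · simp [h5]
        · have h6 : ¬ (1 * d + (j : ℕ) = d) := by omega
          have h7 : ¬ (1 * d + (j : ℕ) = d + 1) := by omega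
          simp only [h4, h5, h6, h7, if_false]
    · simp only [h, dif_neg, not_false_eq_true]
      have h2 : (j : ℕ) ≠ 0 := by omega
      have h3 : (j : ℕ) ≠ 1 := by omega
      simp [h2, h3]

theorem wrf_diff {d : ℕ} (hd : 2 ≤ d) :
    Differentiable ℂ fun w : (Fin (2 * d) → ℂ) × ℂ => wr (fam w.1) (w.2, 1) := by
  have h : Differentiable ℂ (fun q : CV d × (ℂ × ℂ) => wr q.1 q.2) :=
    (wr_contDiff d 1).differentiable (by norm_num)
  have h2 : Differentiable ℂ (fun w : (Fin (2 * d) → ℂ) × ℂ =>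
      ((fam w.1 : CV d), ((w.2, 1) : ℂ × ℂ))) := by
    refine Differentiable.prodMk ((p_FM d hd).2.1.comp differentiable_fst) ?_
    exact differentiable_snd.prodMk (differentiable_const _)
  have h3 := h.comp h2
  exact h3

theorem hFf_diff {d : ℕ} (hd : 2 ≤ d) (N : ℕ) :
    Differentiable ℂ fun w : (Fin (2 * d) → ℂ) × ℂ => (hF (fam w.1))^[N] (w.2, 1) := by
  have h := Pool.Agent.H790R3.RB.hF_iter_differentiable d N
  have h2 : Differentiable ℂ (fun w : (Fin (2 * d) → ℂ) × ℂ =>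
      ((fam w.1 : CV d), ((w.2, 1) : ℂ × ℂ))) := by
    refine Differentiable.prodMk ((p_FM d hd).2.1.comp differentiable_fst) ?_
    exact differentiable_snd.prodMk (differentiable_const _)
  have h3 := h.comp h2
  exact h3

theorem dirv_diff (d : ℕ) (α β : ℂ) : Differentiable ℂ (dirv d α β) := by
  rw [differentiable_pi]
  intro i
  unfold dirv
  by_cases h1 : (i : ℕ) = 0
  · simp only [h1, if_true]; fun_prop
  · by_cases h2 : (i : ℕ) = 1
    · simp only [h2, one_ne_zero, if_false, if_true]; fun_prop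
    · by_cases h3 : (i : ℕ) = d
      · simp only [h1, h2, h3, if_false, if_true]
        split_ifs <;> fun_prop
      · simp only [h1, h2, h3, if_false]
        split_ifs <;> fun_prop

/-- A holomorphic retraction onto the maps with a marked critical point. -/
theorem retract {d : ℕ} (hd : 2 ≤ d) (u₀ : Fin (2 * d) → ℂ) (hu₀ : u₀ ∈ U₀ d) (ζ₀ : ℂ) :
    ∃ (Γ : (Fin (2 * d) → ℂ) × ℂ → (Fin (2 * d) → ℂ) × ℂ) (r : ℝ), 0 < r ∧
      DifferentiableOn ℂ Γ (ball (u₀, ζ₀) r) ∧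
      (∀ w ∈ ball (u₀, ζ₀) r, wr (fam (Γ w).1) ((Γ w).2, 1) = 0) ∧
      ∀ w : (Fin (2 * d) → ℂ) × ℂ, wr (fam w.1) (w.2, 1) = 0 → Γ w = w := by
  have hne : hF (fam u₀) (ζ₀, 1) ≠ 0 := by
    intro h
    have := hu₀.1 _ h
    have h2 := congrArg Prod.snd this
    simp at h2
  obtain ⟨α, β, hαβ⟩ : ∃ α β : ℂ, α * (hF (fam u₀) (ζ₀, 1)).2 - β * (hF (fam u₀) (ζ₀, 1)).1 ≠ 0 := by
    by_cases h : (hF (fam u₀) (ζ₀, 1)).2 = 0
    · refine ⟨0, 1, ?_⟩
      have h1 : (hF (fam u₀) (ζ₀, 1)).1 ≠ 0 := fun h1 => hne (Prod.ext h1 h)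
      simpa using h1
    · exact ⟨1, 0, by simpa using h⟩
  set g : (Fin (2 * d) → ℂ) × ℂ → ℂ := fun w =>
    α * (hF (fam w.1) (w.2, 1)).2 - β * (hF (fam w.1) (w.2, 1)).1 with hg
  have hgd : Differentiable ℂ g := by
    have h1 := hFf_diff hd 1
    simp only [Function.iterate_one] at h1
    exact (h1.snd.const_mul α).sub (h1.fst.const_mul β)
  obtain ⟨r, hr, hb⟩ := Metric.eventually_nhds_iff_ball.1
    ((hgd.continuous.continuousAt (x := (u₀, ζ₀))).eventually_ne hαβ)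
  have hd0 : (d : ℂ) ≠ 0 := by
    have : d ≠ 0 := by omega
    exact_mod_cast this
  set σ : (Fin (2 * d) → ℂ) × ℂ → ℂ := fun w => -(wr (fam w.1) (w.2, 1)) / (d * g w) with hσ
  refine ⟨fun w => (w.1 + σ w • dirv d α β w.2, w.2), r, hr, ?_, ?_, ?_⟩
  · refine DifferentiableOn.prodMk ?_ differentiable_snd.differentiableOn
    refine differentiable_fst.differentiableOn.add ?_
    have hσd : DifferentiableOn ℂ σ (ball (u₀, ζ₀) r) := by
      have e : σ = fun w => -(wr (fam w.1) (w.2, 1)) * (d * g w)⁻¹ := by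
        funext w
        simp only [hσ, div_eq_mul_inv]
      rw [e]
      refine DifferentiableOn.mul (wrf_diff hd).neg.differentiableOn ?_
      refine DifferentiableOn.inv (hgd.const_mul _).differentiableOn ?_
      intro w hw
      exact mul_ne_zero hd0 (hb w hw)
    exact hσd.smul ((dirv_diff d α β).comp differentiable_snd).differentiableOn
  · intro w hw
    obtain ⟨h0, h1⟩ := fam_dirv hd w.1 (σ w) α β w.2
    have h2 := wr_add (by omega : 1 ≤ d) (fam w.1) _ (σ w) α β w.2 h0 h1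
    show wr (fam (w.1 + σ w • dirv d α β w.2)) (w.2, 1) = 0
    rw [h2]
    have h3 : g w ≠ 0 := hb w hw
    have h4 : α * (hF (fam w.1) (w.2, 1)).2 - β * (hF (fam w.1) (w.2, 1)).1 = g w := rfl
    rw [h4]
    simp only [hσ]
    field_simp
    ring
  · intro w hw
    have h1 : σ w = 0 := by simp only [hσ, hw, neg_zero, zero_div]
    simp [h1]

end Pool.Agent.Zk23
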