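import Mathlib
import Pool.Agent.Zk23.RET
import Pool.Agent.Lev.J_schottky

/-! Activity of a critical point which is not attracted: Montel's argument. -/

set_option autoImplicit false
set_option maxHeartbeats 400000

open Topology Filter Metric Set MeasureTheory
open Pool.Agent.H790R3.RB (CV hF cr ND wr rt Ix yx yc sp HypTop Attd Sink cr_eq_zero_iff
  cr_smul_left cr_smul_right cr_comm)
open Pool.Agent.W757.RD
open scoped OnePoint

namespace Pool.Agent.Zk23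

/-- functions which omit two values are equicontinuous -/
theorem equi (M r : ℝ) (hr : 0 < r) : ∃ K : ℝ, 0 < K ∧ ∀ (f : ℂ → ℂ) (c : ℂ),
    DifferentiableOn ℂ f (ball c r) → (∀ z ∈ ball c r, f z ≠ 0 ∧ f z ≠ 1) → ‖f c‖ ≤ M →
    ∀ z : ℂ, ‖z - c‖ < r / 2 → ‖f z - f c‖ ≤ K * ‖z - c‖ := by
  obtain ⟨C, hC⟩ := Pool.Agent.Lev.J_schottky.main M
  refine ⟨(2 * |C| + 1) / (r / 2), by positivity, ?_⟩
  intro f c hf h01 hM z hz
  have h1 := hC f c r hr hf h01 hM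
  have hc : c ∈ ball c (r / 2) := mem_ball_self (by linarith)
  have hmaps : MapsTo f (ball c (r / 2)) (ball (f c) (2 * |C| + 1)) := by
    intro w hw
    rw [mem_ball, dist_eq_norm]
    have h2 := h1 w hw
    have h3 := h1 c hc
    have h4 := le_abs_self C
    calc ‖f w - f c‖ ≤ ‖f w‖ + ‖f c‖ := norm_sub_le _ _
      _ < 2 * |C| + 1 := by linarith
  have hzm : z ∈ ball c (r / 2) := by rw [mem_ball, dist_eq_norm]; exact hz
  have := Complex.dist_le_div_mul_dist_of_mapsTo_ball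
    (hf.mono (ball_subset_ball (by linarith))) (hmaps.mono_right ball_subset_closedBall) hzm
  rwa [dist_eq_norm, dist_eq_norm] at this

theorem plu (V a b c : ℂ × ℂ) : cr V a * cr c b - cr V b * cr c a = cr V c * cr a b := by
  unfold cr
  ring

/-- inverse of the cross ratio -/
theorem chi_inv (p0 p1 : ℂ × ℂ) (a b β : ℂ) (ha : a ≠ 0) (hb : b ≠ 0) (h01 : cr p0 p1 ≠ 0)
    (h1 : cr (β, 1) p1 ≠ 0) (r : ℝ) (hr : 0 < r) :
    ∃ η : ℝ, 0 < η ∧ ∀ V : ℂ × ℂ, V ≠ 0 → cr V p1 ≠ 0 →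
      ‖cr V p0 * a / (cr V p1 * b) - cr (β, 1) p0 * a / (cr (β, 1) p1 * b)‖ < η →
      ∃ α z : ℂ, α ≠ 0 ∧ ‖z‖ < r ∧ V = α • ((β + z, 1) : ℂ × ℂ) := by
  set x₀ : ℂ := cr (β, 1) p0 * a / (cr (β, 1) p1 * b) with hx₀
  set L : ℂ → ℂ × ℂ := fun x => a • p0 - (x * b) • p1 with hL
  have hL1 : ∀ x, (L x).1 = a * p0.1 - x * b * p1.1 := fun x => rfl
  have hL2 : ∀ x, (L x).2 = a * p0.2 - x * b * p1.2 := fun x => rfl
  have hcrL : ∀ V : ℂ × ℂ, ∀ x : ℂ, cr V p1 ≠ 0 → cr V p0 * a / (cr V p1 * b) = x →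
      cr V (L x) = 0 := by
    intro V x hV hx
    rw [div_eq_iff (mul_ne_zero hV hb)] at hx
    unfold cr at hx ⊢
    rw [hL1, hL2]
    linear_combination hx
  have hcrL0 := hcrL (β, 1) x₀ h1 rfl
  have hLne : ∀ x, L x ≠ 0 := by
    intro x hx
    have h2 : cr (L x) p1 = a * cr p0 p1 := by
      unfold cr
      rw [hL1, hL2]
      ring
    rw [hx] at h2
    have h3 : cr 0 p1 = 0 := by unfold cr; simp
    rw [h3] at h2
    exact mul_ne_zero ha h01 h2.symm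
  have hL02 : (L x₀).2 ≠ 0 := by
    intro h2
    apply hLne x₀
    unfold cr at hcrL0
    simp only [h2, mul_zero, zero_sub, one_mul, neg_eq_zero] at hcrL0
    exact Prod.ext hcrL0 h2
  have hL0 : (L x₀).1 / (L x₀).2 = β := by
    rw [div_eq_iff hL02]
    unfold cr at hcrL0
    linear_combination -hcrL0
  have c2 : Continuous fun x => (L x).2 := by
    simp only [hL2]; fun_prop
  have c1 : Continuous fun x => (L x).1 := by
    simp only [hL1]; fun_prop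
  have e1 : ∀ᶠ x in 𝓝 x₀, (L x).2 ≠ 0 := c2.continuousAt.eventually_ne hL02
  have e2 : ∀ᶠ x in 𝓝 x₀, ‖(L x).1 / (L x).2 - β‖ < r := by
    have c3 : ContinuousAt (fun x => ‖(L x).1 / (L x).2 - β‖) x₀ :=
      ((c1.continuousAt.div c2.continuousAt hL02).sub continuousAt_const).norm
    refine c3.eventually_lt continuousAt_const ?_
    rw [hL0, sub_self, norm_zero]
    exact hr
  obtain ⟨η, hη, hb'⟩ := Metric.eventually_nhds_iff.1 (e1.and e2)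
  refine ⟨η, hη, ?_⟩
  intro V hV hV1 hlt
  obtain ⟨g1, g2⟩ := hb' (y := cr V p0 * a / (cr V p1 * b)) (by rw [dist_eq_norm]; exact hlt)
  have h3 := hcrL V _ hV1 rfl
  obtain ⟨α, hα, hVα⟩ := (cr_eq_zero_iff hV (hLne _)).1 h3
  refine ⟨α * (L (cr V p0 * a / (cr V p1 * b))).2,
    (L (cr V p0 * a / (cr V p1 * b))).1 / (L (cr V p0 * a / (cr V p1 * b))).2 - β,
    mul_ne_zero hα g1, g2, ?_⟩
  refine hVα.trans ?_
  ext
  · simp only [Prod.smul_fst, smul_eq_mul]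
    field_simp
    ring
  · simp only [Prod.smul_snd, smul_eq_mul, mul_one]

/-- Activity of a critical point which is not attracted. -/
theorem act {d s : ℕ} (S : Sys d (2 * d + s) s) (hE : Ext S) (q₀ : Fin (2 * d + s) → ℂ)
    (hq₀ : q₀ ∈ S.U) (ζ₀ : ℂ) (hcrit : wr (fam (xp q₀)) (ζ₀, 1) = 0)
    (hN : ∀ k, ∀ m : ℕ, ¬ S.InC k q₀ ((S.F q₀)^[m] (ζ₀, 1))) (N : ℕ)
    (hH : ∀ δ : ℝ, 0 < δ → ∃ (w : (Fin (2 * d) → ℂ) × ℂ) (k : Fin s) (n : ℕ) (z : ℂ),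
      ‖w - (xp q₀, ζ₀)‖ < δ ∧ wr (fam w.1) (w.2, 1) = 0 ∧ N ≤ n ∧ ‖z - S.b k q₀‖ < δ ∧
      cr ((hF (fam w.1))^[n] (w.2, 1)) (z, 1) = 0)
    (p : Fin 3 → (Fin (2 * d) → ℂ) × ℂ → ℂ × ℂ) (rp : ℝ) (hrp : 0 < rp)
    (hp : ∀ i, DifferentiableOn ℂ (p i) (ball (xp q₀, ζ₀) rp))
    (h01 : cr (p 0 (xp q₀, ζ₀)) (p 1 (xp q₀, ζ₀)) ≠ 0)
    (h21 : cr (p 2 (xp q₀, ζ₀)) (p 1 (xp q₀, ζ₀)) ≠ 0)
    (h20 : cr (p 2 (xp q₀, ζ₀)) (p 0 (xp q₀, ζ₀)) ≠ 0)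
    (hpb : ∀ k, cr (S.b k q₀, 1) (p 1 (xp q₀, ζ₀)) ≠ 0) (δ : ℝ) (hδ : 0 < δ) :
    ∃ w : (Fin (2 * d) → ℂ) × ℂ, ‖w - (xp q₀, ζ₀)‖ < δ ∧ wr (fam w.1) (w.2, 1) = 0 ∧
      ∃ n : ℕ, N ≤ n ∧ ∃ i, cr ((hF (fam w.1))^[n] (w.2, 1)) (p i w) = 0 := by
  by_contra hcon
  push Not at hcon
  have hd := S.hd
  set w₀ : (Fin (2 * d) → ℂ) × ℂ := (xp q₀, ζ₀) with hw₀
  obtain ⟨Γ, rΓ, hrΓ, hΓd, hΓ1, hΓ2⟩ := retract hd (xp q₀) (hE.U q₀ hq₀) ζ₀
  have hΓ0 : Γ w₀ = w₀ := hΓ2 w₀ hcrit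
  have hΓc : ContinuousAt Γ w₀ := (hΓd.differentiableAt (ball_mem_nhds _ hrΓ)).continuousAt
  have hpc : ∀ i, ContinuousAt (fun w => p i (Γ w)) w₀ := by
    intro i
    have h1 : ContinuousAt (p i) (Γ w₀) := by
      rw [hΓ0]
      exact ((hp i).differentiableAt (ball_mem_nhds _ hrp)).continuousAt
    exact ContinuousAt.comp (f := Γ) (g := p i) h1 hΓc
  have hcrc : ∀ i j, ContinuousAt (fun w => cr (p i (Γ w)) (p j (Γ w))) w₀ := by
    intro i j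
    unfold cr
    exact ((hpc i).fst.mul (hpc j).snd).sub ((hpc i).snd.mul (hpc j).fst)
  -- a small ball
  have ev1 : ∀ᶠ w in 𝓝 w₀, ‖Γ w - w₀‖ < min δ rp := by
    have c1 : ContinuousAt (fun w => ‖Γ w - w₀‖) w₀ := (hΓc.sub continuousAt_const).norm
    refine c1.eventually_lt continuousAt_const ?_
    rw [hΓ0, sub_self, norm_zero]
    exact lt_min hδ hrp
  have ev2 : ∀ᶠ w in 𝓝 w₀, cr (p 2 (Γ w)) (p 1 (Γ w)) ≠ 0 :=
    (hcrc 2 1).eventually_ne (by rw [hΓ0]; exact h21)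
  have ev3 : ∀ᶠ w in 𝓝 w₀, cr (p 2 (Γ w)) (p 0 (Γ w)) ≠ 0 :=
    (hcrc 2 0).eventually_ne (by rw [hΓ0]; exact h20)
  have ev3' : ∀ᶠ w in 𝓝 w₀, cr (p 0 (Γ w)) (p 1 (Γ w)) ≠ 0 :=
    (hcrc 0 1).eventually_ne (by rw [hΓ0]; exact h01)
  have ev4 : ∀ᶠ w in 𝓝 w₀, w ∈ ball w₀ rΓ := ball_mem_nhds _ hrΓ
  obtain ⟨r, hr, hball⟩ := Metric.eventually_nhds_iff_ball.1
    (ev1.and (ev2.and (ev3.and (ev4.and ev3'))))
  -- the functions
  set V : ℕ → (Fin (2 * d) → ℂ) × ℂ → ℂ × ℂ := fun n w =>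
    (hF (fam (Γ w).1))^[n] ((Γ w).2, 1) with hV
  set h : ℕ → (Fin (2 * d) → ℂ) × ℂ → ℂ := fun n w =>
    cr (V n w) (p 0 (Γ w)) * cr (p 2 (Γ w)) (p 1 (Γ w)) /
      (cr (V n w) (p 1 (Γ w)) * cr (p 2 (Γ w)) (p 0 (Γ w))) with hh
  have hne : ∀ n, N ≤ n → ∀ w ∈ ball w₀ r, ∀ i, cr (V n w) (p i (Γ w)) ≠ 0 := by
    intro n hn w hw i
    obtain ⟨g1, -, -, g4, -⟩ := hball w hw
    exact hcon (Γ w) (g1.trans_le (min_le_left _ _)) (hΓ1 w g4) n hn i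
  have hsub : ball w₀ r ⊆ ball w₀ rΓ := fun w hw => (hball w hw).2.2.2.1
  have hΓd' : DifferentiableOn ℂ Γ (ball w₀ r) := hΓd.mono hsub
  have hVd : ∀ n, DifferentiableOn ℂ (V n) (ball w₀ r) := fun n =>
    (hFf_diff hd n).comp_differentiableOn hΓd'
  have hpd : ∀ i, DifferentiableOn ℂ (fun w => p i (Γ w)) (ball w₀ r) := by
    intro i
    refine (hp i).comp hΓd' ?_
    intro w hw
    rw [mem_ball, dist_eq_norm]
    exact (hball w hw).1.trans_le (min_le_right _ _)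
  have hcrd : ∀ f g : (Fin (2 * d) → ℂ) × ℂ → ℂ × ℂ, DifferentiableOn ℂ f (ball w₀ r) →
      DifferentiableOn ℂ g (ball w₀ r) → DifferentiableOn ℂ (fun w => cr (f w) (g w)) (ball w₀ r) := by
    intro f g hf hg
    unfold cr
    exact (hf.fst.mul hg.snd).sub (hf.snd.mul hg.fst)
  have hhd : ∀ n, N ≤ n → DifferentiableOn ℂ (h n) (ball w₀ r) := by
    intro n hn
    have e : h n = fun w => (cr (V n w) (p 0 (Γ w)) * cr (p 2 (Γ w)) (p 1 (Γ w))) *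
      (cr (V n w) (p 1 (Γ w)) * cr (p 2 (Γ w)) (p 0 (Γ w)))⁻¹ := by
      funext w
      simp only [hh, div_eq_mul_inv]
    rw [e]
    refine DifferentiableOn.mul ?_ ?_
    · exact (hcrd _ _ (hVd n) (hpd 0)).mul (hcrd _ _ (hpd 2) (hpd 1))
    · refine DifferentiableOn.inv ?_ ?_
      · exact (hcrd _ _ (hVd n) (hpd 1)).mul (hcrd _ _ (hpd 2) (hpd 0))
      · intro w hw
        exact mul_ne_zero (hne n hn w hw 1) (hball w hw).2.2.1
  have hh01 : ∀ n, N ≤ n → ∀ w ∈ ball w₀ r, h n w ≠ 0 ∧ h n w ≠ 1 := by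
    intro n hn w hw
    have n1 := hne n hn w hw 1
    have n0 := hne n hn w hw 0
    have n2 := hne n hn w hw 2
    obtain ⟨-, g2, g3, -, g5⟩ := hball w hw
    constructor
    · exact div_ne_zero (mul_ne_zero n0 g2) (mul_ne_zero n1 g3)
    · intro h1
      simp only [hh] at h1
      rw [div_eq_one_iff_eq (mul_ne_zero n1 g3)] at h1
      have h2 := plu (V n w) (p 0 (Γ w)) (p 1 (Γ w)) (p 2 (Γ w))
      rw [h1, sub_self] at h2
      exact mul_ne_zero n2 g5 h2.symm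
  -- the value at the attracting cycles
  set a : ℂ := cr (p 2 w₀) (p 1 w₀) with ha
  set b : ℂ := cr (p 2 w₀) (p 0 w₀) with hb
  set x : Fin s → ℂ := fun k => cr (S.b k q₀, 1) (p 0 w₀) * a / (cr (S.b k q₀, 1) (p 1 w₀) * b)
    with hx
  have hinv : ∀ k, ∃ η : ℝ, 0 < η ∧ ∀ V : ℂ × ℂ, V ≠ 0 → cr V (p 1 w₀) ≠ 0 →
      ‖cr V (p 0 w₀) * a / (cr V (p 1 w₀) * b) - x k‖ < η →
      ∃ α z : ℂ, α ≠ 0 ∧ ‖z‖ < S.r₀ k ∧ V = α • ((S.b k q₀ + z, 1) : ℂ × ℂ) := fun k =>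
    chi_inv (p 0 w₀) (p 1 w₀) a b (S.b k q₀) h21 h20 h01 (hpb k) (S.r₀ k) (S.hr₀ k)
  choose η hη hinv using hinv
  -- continuity of the cross ratio
  set χ : ((Fin (2 * d) → ℂ) × ℂ) × ℂ → ℂ := fun v =>
    cr (v.2, 1) (p 0 (Γ v.1)) * cr (p 2 (Γ v.1)) (p 1 (Γ v.1)) /
      (cr (v.2, 1) (p 1 (Γ v.1)) * cr (p 2 (Γ v.1)) (p 0 (Γ v.1))) with hχ
  have hχ0 : ∀ k, χ (w₀, S.b k q₀) = x k := by
    intro k
    simp only [hχ, hΓ0, hx, ha, hb]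
  have hχc : ∀ k, ContinuousAt χ (w₀, S.b k q₀) := by
    intro k
    have k1 : ∀ i, ContinuousAt (fun v : ((Fin (2 * d) → ℂ) × ℂ) × ℂ => p i (Γ v.1))
        (w₀, S.b k q₀) := fun i =>
      ContinuousAt.comp (f := fun v : ((Fin (2 * d) → ℂ) × ℂ) × ℂ => v.1)
        (g := fun w => p i (Γ w)) (hpc i) continuousAt_fst
    have k2 : ∀ i j, ContinuousAt (fun v : ((Fin (2 * d) → ℂ) × ℂ) × ℂ =>
        cr (p i (Γ v.1)) (p j (Γ v.1))) (w₀, S.b k q₀) := by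
      intro i j
      unfold cr
      exact ((k1 i).fst.mul (k1 j).snd).sub ((k1 i).snd.mul (k1 j).fst)
    have k3 : ∀ i, ContinuousAt (fun v : ((Fin (2 * d) → ℂ) × ℂ) × ℂ =>
        cr (v.2, 1) (p i (Γ v.1))) (w₀, S.b k q₀) := by
      intro i
      unfold cr
      exact (continuousAt_snd.mul (k1 i).snd).sub (continuousAt_const.mul (k1 i).fst)
    simp only [hχ]
    refine ((k3 0).mul (k2 2 1)).div ((k3 1).mul (k2 2 0)) ?_
    simp only [hΓ0]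
    exact mul_ne_zero (hpb k) h20
  -- constants
  set M : ℝ := ∑ k, ‖x k‖ + 1 with hM
  obtain ⟨K, hK, heq⟩ := equi M (r / 2) (by linarith)
  have hsm : ∀ᶠ δ' : ℝ in 𝓝[>] 0, (∀ k, ∀ v : ((Fin (2 * d) → ℂ) × ℂ) × ℂ, ‖v.1 - w₀‖ < δ' →
      ‖v.2 - S.b k q₀‖ < δ' → ‖χ v - x k‖ < min (η k / 2) 1) ∧ (∀ k, K * δ' < η k / 2) ∧
      δ' < r / 4 := by
    refine Filter.Eventually.and (eventually_all.2 fun k => ?_)
      (Filter.Eventually.and (eventually_all.2 fun k => ?_) ?_)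
    · have h1 : ∀ᶠ v in 𝓝 (w₀, S.b k q₀), ‖χ v - x k‖ < min (η k / 2) 1 := by
        have c1 : ContinuousAt (fun v => ‖χ v - x k‖) (w₀, S.b k q₀) :=
          ((hχc k).sub continuousAt_const).norm
        refine c1.eventually_lt continuousAt_const ?_
        rw [hχ0, sub_self, norm_zero]
        exact lt_min (by linarith [hη k]) one_pos
      obtain ⟨δ', hδ', hb'⟩ := Metric.eventually_nhds_iff.1 h1
      have e1 : ∀ᶠ t : ℝ in 𝓝[>] 0, t < δ' :=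
        eventually_nhdsWithin_of_eventually_nhds (eventually_lt_nhds hδ')
      filter_upwards [e1] with t ht v hv1 hv2
      refine hb' ?_
      rw [Prod.dist_eq, max_lt_iff, dist_eq_norm, dist_eq_norm]
      exact ⟨hv1.trans ht, hv2.trans ht⟩
    · refine eventually_nhdsWithin_of_eventually_nhds ?_
      have c1 : Continuous fun t : ℝ => K * t := by fun_prop
      refine (c1.tendsto 0).eventually_lt_const ?_
      rw [mul_zero]
      linarith [hη k]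
    · exact eventually_nhdsWithin_of_eventually_nhds (eventually_lt_nhds (by linarith))
  obtain ⟨δ', ⟨hs1, hs2, hs3⟩, hδ'0⟩ := (hsm.and
    (eventually_mem_nhdsWithin : ∀ᶠ δ' : ℝ in 𝓝[>] 0, δ' ∈ Ioi (0 : ℝ))).exists
  have hδ'0 : 0 < δ' := hδ'0
  obtain ⟨w, k, n, z, hw, hwc, hn, hz, hcr⟩ := hH δ' hδ'0
  have hΓw : Γ w = w := hΓ2 w hwc
  -- the line through `w₀` and `w`
  set ε : ℝ := ‖w - w₀‖ with hε
  obtain ⟨v, hv1, hv2⟩ : ∃ v : (Fin (2 * d) → ℂ) × ℂ, ‖v‖ ≤ 1 ∧ w₀ + (ε : ℂ) • v = w := by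
    by_cases h0 : ε = 0
    · refine ⟨0, by simp, ?_⟩
      have : w = w₀ := sub_eq_zero.1 (norm_eq_zero.1 h0)
      rw [this]; simp
    · refine ⟨((ε : ℂ))⁻¹ • (w - w₀), ?_, ?_⟩
      · rw [norm_smul, norm_inv, Complex.norm_real, Real.norm_eq_abs,
          abs_of_nonneg (norm_nonneg _), ← hε, inv_mul_cancel₀ h0]
      · rw [smul_smul, mul_inv_cancel₀ (by exact_mod_cast h0), one_smul]
        abel
  have hε0 : 0 ≤ ε := norm_nonneg _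
  have hεr : ε < r / 4 := hw.trans hs3
  set ℓ : ℂ → (Fin (2 * d) → ℂ) × ℂ := fun τ => w₀ + τ • v with hℓ
  have hℓd : Differentiable ℂ ℓ := by
    intro τ
    exact (differentiableAt_const _).add (differentiableAt_id.smul_const v)
  have hℓm : ∀ τ ∈ ball (ε : ℂ) (r / 2), ℓ τ ∈ ball w₀ r := by
    intro τ hτ
    rw [mem_ball, dist_eq_norm] at hτ ⊢
    have e1 : ℓ τ - w₀ = τ • v := by simp [hℓ]
    rw [e1, norm_smul]
    have e2 : ‖τ‖ ≤ ‖τ - ε‖ + ‖(ε : ℂ)‖ := by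
      calc ‖τ‖ = ‖(τ - ε) + ε‖ := by ring_nf
        _ ≤ _ := norm_add_le _ _
    rw [Complex.norm_real, Real.norm_eq_abs, abs_of_nonneg hε0] at e2
    calc ‖τ‖ * ‖v‖ ≤ ‖τ‖ * 1 := mul_le_mul_of_nonneg_left hv1 (norm_nonneg _)
      _ < r := by linarith
  set f : ℂ → ℂ := fun τ => h n (ℓ τ) with hf
  have hfd : DifferentiableOn ℂ f (ball (ε : ℂ) (r / 2)) :=
    (hhd n hn).comp hℓd.differentiableOn hℓm
  have hf01 : ∀ τ ∈ ball (ε : ℂ) (r / 2), f τ ≠ 0 ∧ f τ ≠ 1 := fun τ hτ =>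
    hh01 n hn _ (hℓm τ hτ)
  -- the value at `w`
  have hℓε : ℓ (ε : ℂ) = w := hv2
  have hwb : w ∈ ball w₀ r := by
    rw [mem_ball, dist_eq_norm]
    exact hw.trans (hs3.trans (by linarith))
  have hVw : V n w ≠ 0 := by
    intro h0
    have := hne n hn w hwb 0
    rw [h0] at this
    apply this
    unfold cr; simp
  have hz1 : ((z, 1) : ℂ × ℂ) ≠ 0 := by
    intro h0
    have := congrArg Prod.snd h0
    simp at this
  have hVn : V n w = (hF (fam w.1))^[n] (w.2, 1) := by simp only [hV, hΓw]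
  have hfε : f ε = χ (w, z) := by
    obtain ⟨α, hα, he⟩ := (cr_eq_zero_iff hVw hz1).1 (by rw [hVn]; exact hcr)
    simp only [hf, hℓε, hh, hχ]
    rw [he, cr_smul_left, cr_smul_left, mul_assoc, mul_assoc, mul_div_mul_left _ _ hα]
  have hfx : ‖f ε - x k‖ < min (η k / 2) 1 := by
    rw [hfε]
    exact hs1 k (w, z) hw hz
  have hfM : ‖f ε‖ ≤ M := by
    have e1 : ‖f ε‖ ≤ ‖f ε - x k‖ + ‖x k‖ := by
      calc ‖f ε‖ = ‖(f ε - x k) + x k‖ := by ring_nf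
        _ ≤ _ := norm_add_le _ _
    have e2 : ‖x k‖ ≤ ∑ k, ‖x k‖ :=
      Finset.single_le_sum (f := fun k => ‖x k‖) (fun k _ => norm_nonneg _) (Finset.mem_univ k)
    have e3 := hfx.trans_le (min_le_right _ _)
    rw [hM]; linarith
  have h0ε : ‖(0 : ℂ) - ε‖ < r / 2 / 2 := by
    rw [zero_sub, norm_neg, Complex.norm_real, Real.norm_eq_abs, abs_of_nonneg hε0]
    linarith
  have hfin := heq f ε hfd hf01 hfM 0 h0ε
  rw [zero_sub, norm_neg, Complex.norm_real, Real.norm_eq_abs, abs_of_nonneg hε0] at hfin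
  have hℓ0 : ℓ 0 = w₀ := by simp [hℓ]
  have hf0 : ‖f 0 - x k‖ < η k := by
    have e1 : ‖f 0 - x k‖ ≤ ‖f 0 - f ε‖ + ‖f ε - x k‖ := by
      calc ‖f 0 - x k‖ = ‖(f 0 - f ε) + (f ε - x k)‖ := by ring_nf
        _ ≤ _ := norm_add_le _ _
    have e2 : K * ε ≤ K * δ' := mul_le_mul_of_nonneg_left hw.le hK.le
    have e3 := hs2 k
    have e4 := hfx.trans_le (min_le_left _ _)
    linarith
  have hw0b : w₀ ∈ ball w₀ r := mem_ball_self hr
  have hV0 : V n w₀ = (S.F q₀)^[n] (ζ₀, 1) := by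
    simp only [hV, hΓ0]
    unfold Sys.F
    rw [hE.co q₀ hq₀]
  have hV0ne : V n w₀ ≠ 0 := by
    intro h0
    have := hne n hn w₀ hw0b 0
    rw [h0] at this
    apply this
    unfold cr; simp
  have hf0' : f 0 = cr (V n w₀) (p 0 w₀) * a / (cr (V n w₀) (p 1 w₀) * b) := by
    simp only [hf, hℓ0, hh, hΓ0, ha, hb]
  have hcr1 : cr (V n w₀) (p 1 w₀) ≠ 0 := by
    have := hne n hn w₀ hw0b 1
    rwa [hΓ0] at this
  obtain ⟨α, z', hα, hz', he⟩ := hinv k (V n w₀) hV0ne hcr1 (by rw [← hf0']; exact hf0)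
  exact hN k n ⟨α, z', hα, hz', by rw [← hV0]; exact he⟩

end Pool.Agent.Zk23
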