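import Mathlib
import Pool.Agent.Zk23.ACT

/-! Hyperbolic maps near a given system of marked cycles, with a labelled critical point. -/

set_option autoImplicit false
set_option maxHeartbeats 400000
set_option linter.unusedVariables false

open Topology Filter Metric Set MeasureTheory
open Pool.Agent.H790R3.RB (CV hF cr ND wr rt Ix yx yc sp HypTop Attd Sink cr_eq_zero_iff)
open Pool.Agent.W757.RD
open scoped OnePoint

namespace Pool.Agent.Zk23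

/-- the constants of the approximation theorem -/
structure Cst (β : ℝ) (d : ℕ) (u₀ : Fin (2 * d) → ℂ) (C₂ c₂ ε₂ σ₂ : ℝ) : Prop where
  C : 0 < C₂
  c : 0 < c₂
  ε : 0 < ε₂
  σ : 0 < σ₂
  U : closedBall u₀ (2 * σ₂) ⊆ U₀ d
  sel : ∀ ρ : ℝ, 0 < ρ → ρ ≤ σ₂ →
    ∀ (s : ℕ) (S : Sys d (2 * d + s) s) (KK : Fin s → (Fin (2 * d + s) → ℂ) × (ℂ × ℂ) → ℂ)
      (A : Finset (Pt d)) (ks : Pt d → Fin s) (ls : Pt d → ℕ) (y : Ix d (2 * d + s) s → ℂ),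
      Ext S → S.Koe KK → ‖xp (yx y) - u₀‖ < σ₂ → Sum.inr 0 ∈ A → Sum.inr 1 ∈ A →
      Goodc S KK (ee S) A ks ls 0 y → ∀ a : ℝ, 0 ≤ a → a < ε₂ → a < c₂ * ρ ^ 2 →
      mu β (S.KS (yx y)) ≤ ENNReal.ofReal a →
      ∀ E : Set ((Fin s → ℂ) × (Fin (2 * d - 2) → ℂ)), Epos S.per (xp (yx y)) ρ E →
      ((fun k => S.b k (yx y)), yc y) ∈ E → ∀ η : ℝ, 0 < η →
      ∃ (S' : Sys d (2 * d + s) s) (ks' : Pt d → Fin s) (ls' : Pt d → ℕ)
        (z : Ix d (2 * d + s) s → ℂ), Ext S' ∧ S'.per = S.per ∧ S'.Adm Finset.univ ks' ls' z ∧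
        ‖xp (yx z) - xp (yx y)‖ ≤ C₂ * Real.sqrt a + η ∧ (∀ i ∈ A, ks' i = ks i) ∧
        ((fun k => S'.b k (yx z)), yc z) ∈ E

theorem exists_cst (β : ℝ) (d : ℕ) (u₀ : Fin (2 * d) → ℂ) (hβ : 1 / 2 < β) (hβ1 : β < 1)
    (hd : 2 ≤ d) (hu₀ : u₀ ∈ U₀ d) (hG : Gz (fam u₀)) : ∃ C₂ c₂ ε₂ σ₂ : ℝ,
    Cst β d u₀ C₂ c₂ ε₂ σ₂ := by
  obtain ⟨C₂, c₂, ε₂, σ₂, h1, h2, h3, h4, h5, h6⟩ := p_SELr β d u₀ hβ hβ1 hd hu₀ hG
  exact ⟨C₂, c₂, ε₂, σ₂, h1, h2, h3, h4, h5, h6⟩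

variable {β : ℝ} {d : ℕ} {u₀ : Fin (2 * d) → ℂ} {C₂ c₂ ε₂ σ₂ : ℝ}

/-- from a generic configuration -/
theorem near_y (hC : Cst β d u₀ C₂ c₂ ε₂ σ₂) {ρ : ℝ} (hρ : 0 < ρ) (hρσ : ρ ≤ σ₂) {s : ℕ}
    (S : Sys d (2 * d + s) s) (hE : Ext S) (y : Ix d (2 * d + s) s → ℂ) (hyU : yx y ∈ S.U)
    (hlam : ∀ k, S.lam k (yx y) ≠ 0)
    (hG : ∀ (KK : Fin s → (Fin (2 * d + s) → ℂ) × (ℂ × ℂ) → ℂ) (A : Finset (Pt d))
        (ks : Pt d → Fin s) (ls : Pt d → ℕ), (∀ i ∈ A, ls i < S.per (ks i)) →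
        (∀ i ∈ A, (yx y, (S.F (yx y))^[ls i] (pc y i, 1)) ∈ S.Dom (ks i)) →
        Goodc S KK (ee S) A ks ls 0 y)
    (hy : ‖xp (yx y) - u₀‖ < σ₂)
    (hb : ∀ j : Fin 2, ∃ k, ∃ m : ℕ, S.InC k (yx y) ((S.F (yx y))^[m] (bz j, 1)))
    (I : Finset (Fin (2 * d - 2))) (ki : Fin (2 * d - 2) → Fin s) (mi : Fin (2 * d - 2) → ℕ)
    (hI : ∀ i ∈ I, S.InC (ki i) (yx y) ((S.F (yx y))^[mi i] (yc y i, 1)))
    (a : ℝ) (ha0 : 0 ≤ a) (haε : a < ε₂) (haρ : a < c₂ * ρ ^ 2)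
    (hmu : mu β (S.KS (yx y)) ≤ ENNReal.ofReal a)
    (E : Set ((Fin s → ℂ) × (Fin (2 * d - 2) → ℂ))) (hEp : Epos S.per (xp (yx y)) ρ E)
    (hEm : ((fun k => S.b k (yx y)), yc y) ∈ E) (η : ℝ) (hη : 0 < η) :
    ∃ (S' : Sys d (2 * d + s) s) (ks' : Pt d → Fin s) (ls' : Pt d → ℕ)
        (z : Ix d (2 * d + s) s → ℂ), Ext S' ∧ S'.per = S.per ∧ S'.Adm Finset.univ ks' ls' z ∧
        ‖xp (yx z) - xp (yx y)‖ ≤ C₂ * Real.sqrt a + η ∧ (∀ i ∈ I, ks' (Sum.inl i) = ki i) ∧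
        ((fun k => S'.b k (yx z)), yc z) ∈ E := by
  classical
  choose kj mj hkm using hb
  obtain ⟨KK, hKK⟩ := p_KOE d (2 * d + s) s S
  let ks : Pt d → Fin s := Sum.elim ki kj
  let ls : Pt d → ℕ := Sum.elim (fun i => mi i % S.per (ki i)) (fun j => mj j % S.per (kj j))
  set A : Finset (Pt d) := {Sum.inr 0, Sum.inr 1} ∪ I.image Sum.inl with hA
  have hAj : ∀ j : Fin 2, (Sum.inr j : Pt d) ∈ A := by
    intro j
    rw [hA, Finset.mem_union]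
    left
    fin_cases j
    · simp
    · simp
  have hAi : ∀ i ∈ I, (Sum.inl i : Pt d) ∈ A := by
    intro i hi
    rw [hA, Finset.mem_union]
    right
    exact Finset.mem_image_of_mem _ hi
  have hAe : ∀ i : Fin (2 * d - 2), (Sum.inl i : Pt d) ∈ A → i ∈ I := by
    intro i hi
    rw [hA, Finset.mem_union] at hi
    rcases hi with hi | hi
    · simp at hi
    · obtain ⟨i', hi', he⟩ := Finset.mem_image.1 hi
      rw [← Sum.inl_injective he]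
      exact hi'
  have hGood : Goodc S KK (ee S) A ks ls 0 y := by
    refine hG KK A ks ls ?_ ?_
    · rintro (i | j) _
      · exact Nat.mod_lt _ (S.hper _)
      · exact Nat.mod_lt _ (S.hper _)
    · rintro (i | j) hi
      · exact dom_of_inC S hyU (hlam _) (hI i (hAe i hi))
      · exact dom_of_inC S hyU (hlam _) (hkm j)
  obtain ⟨S', ks', ls', z, h1, h2, h3, h4, h5, h6⟩ := hC.sel ρ hρ hρσ s S KK A ks ls y hE hKK hy
    (hAj 0) (hAj 1) hGood a ha0 haε haρ hmu E hEp hEm η hη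
  exact ⟨S', ks', ls', z, h1, h2, h3, h4, fun i hi => h5 _ (hAi i hi), h6⟩

/-- the area of the set of points which are not attracted, for nearby maps -/
theorem ev_KS {s n : ℕ} (hβ : 1 / 2 < β) (hβ1 : β < 1) (S : Sys d n s) {q₁ : Fin n → ℂ}
    (hq : q₁ ∈ S.U) {a : ℝ} (ha0 : 0 ≤ a) (hmu : mu β (S.KS q₁) ≤ ENNReal.ofReal a)
    (η : ℝ) (hη : 0 < η) : ∀ᶠ q in 𝓝 q₁, mu β (S.KS q) ≤ ENNReal.ofReal (a + η) := by
  obtain ⟨σ, N₀, hσ, h⟩ := p_USC β d n s S q₁ hβ hβ1 hq η hη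
  have h1 : ∀ᶠ q in 𝓝 q₁, q ∈ S.U := S.hU.mem_nhds hq
  have h2 : ∀ᶠ q in 𝓝 q₁, ‖q - q₁‖ < σ := by
    filter_upwards [ball_mem_nhds q₁ hσ] with q hq
    rwa [mem_ball, dist_eq_norm] at hq
  filter_upwards [h1, h2] with q g1 g2
  calc mu β (S.KS q)
      ≤ mu β {ζ : ℂ | ∀ k, ∀ m ≤ N₀, ¬ S.InC k q ((S.F q)^[m] (ζ, 1))} :=
        measure_mono fun ζ hζ k m _ => hζ k m
    _ ≤ mu β (S.KS q₁) + ENNReal.ofReal η := h q g1 g2
    _ ≤ ENNReal.ofReal a + ENNReal.ofReal η := by gcongr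
    _ = ENNReal.ofReal (a + η) := by rw [← ENNReal.ofReal_add ha0 hη.le]

theorem circ_sub {s : ℕ} {per : Fin s → ℕ} {ρ : ℝ} {p : Fin s → ℂ}
    {K : Set (Fin s)} {ζ₀ : ℂ} {δ : ℝ} (h : Circ per u₀ ρ p K univ ζ₀ δ)
    (I : Set (Fin (2 * d - 2))) : Circ per u₀ ρ p K I ζ₀ δ :=
  ⟨h.b, fun u hu i _ => h.c u hu i (mem_univ i)⟩

theorem xp_cont {n s : ℕ} : Continuous (xp : (Fin (n + s) → ℂ) → (Fin n → ℂ)) :=
  (Pool.Agent.W402.RE.MINP.xp_diff).continuous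

/-- Hyperbolic maps near a given system of marked cycles; `lab` is a labelled critical point, if
any, with its cycle and the time to reach the disc. -/
theorem near_core (hβ : 1 / 2 < β) (hβ1 : β < 1) (hC : Cst β d u₀ C₂ c₂ ε₂ σ₂) {ρ : ℝ}
    (hρ : 0 < ρ) (hρσ : ρ ≤ σ₂) {s : ℕ} (S : Sys d (2 * d + s) s) (hE : Ext S)
    (q₁ : Fin (2 * d + s) → ℂ) (hq₁ : q₁ ∈ S.U) (hq : ‖xp q₁ - u₀‖ < σ₂)
    (hb : ∀ j : Fin 2, ∃ k, ∃ m : ℕ, S.InC k q₁ ((S.F q₁)^[m] (bz j, 1)))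
    (a : ℝ) (ha0 : 0 ≤ a) (haε : a < ε₂) (haρ : a < c₂ * ρ ^ 2)
    (hmu : mu β (S.KS q₁) ≤ ENNReal.ofReal a)
    (uc : Fin (2 * d) → ℂ) (ρt : ℝ) (p : Fin s → ℂ) (K : Set (Fin s)) (ζc : ℂ) (δ : ℝ)
    (hcirc : Circ S.per uc ρt p K univ ζc δ) (huc : ‖xp q₁ - uc‖ + ρ < ρt)
    (hpK : ∀ k ∈ K, ‖S.b k q₁ - p k‖ < δ)
    (lab : Option (ℂ × Fin s × ℕ))
    (hlab : ∀ x ∈ lab, wr (S.co q₁) (x.1, 1) = 0 ∧
      S.InC x.2.1 q₁ ((S.F q₁)^[x.2.2] (x.1, 1)) ∧ ‖x.1 - ζc‖ < δ) (η : ℝ) (hη : 0 < η) :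
    ∃ (S' : Sys d (2 * d + s) s) (ks' : Pt d → Fin s) (ls' : Pt d → ℕ)
        (z : Ix d (2 * d + s) s → ℂ), Ext S' ∧ S'.per = S.per ∧ S'.Adm Finset.univ ks' ls' z ∧
        ‖xp (yx z) - xp q₁‖ ≤ C₂ * Real.sqrt a + η ∧ (∀ k ∈ K, ‖S'.b k (yx z) - p k‖ ≤ δ) ∧
        ∀ x ∈ lab, ∃ i : Fin (2 * d - 2), ks' (Sum.inl i) = x.2.1 ∧ ‖yc z i - ζc‖ ≤ δ := by
  classical
  have hd := S.hd
  -- the small number
  obtain ⟨η', hη'0, g1, g2, g3⟩ : ∃ η' : ℝ, 0 < η' ∧ a + η' < ε₂ ∧ a + η' < c₂ * ρ ^ 2 ∧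
      C₂ * Real.sqrt η' + 2 * η' < η := by
    have hc : Continuous fun t : ℝ => C₂ * Real.sqrt t + 2 * t := by fun_prop
    have h1 : ∀ᶠ t : ℝ in 𝓝 0, C₂ * Real.sqrt t + 2 * t < η := by
      refine (hc.tendsto 0).eventually_lt_const ?_
      simpa using hη
    have hc2 : Continuous fun t : ℝ => a + t := by fun_prop
    have h2 : ∀ᶠ t : ℝ in 𝓝 0, a + t < ε₂ :=
      (hc2.tendsto 0).eventually_lt_const (by simpa using haε)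
    have h3 : ∀ᶠ t : ℝ in 𝓝 0, a + t < c₂ * ρ ^ 2 :=
      (hc2.tendsto 0).eventually_lt_const (by simpa using haρ)
    obtain ⟨t, ⟨⟨ht1, ht2⟩, ht3⟩, ht0⟩ := (((h1.and h2).and h3).filter_mono
      nhdsWithin_le_nhds |>.and (self_mem_nhdsWithin : Ioi (0 : ℝ) ∈ 𝓝[>] (0 : ℝ))).exists
    exact ⟨t, ht0, ht2, ht3, ht1⟩
  have hxc : ContinuousAt (fun q : Fin (2 * d + s) → ℂ => xp q) q₁ := xp_cont.continuousAt
  -- open conditions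
  have e1 : ∀ᶠ q in 𝓝 q₁, mu β (S.KS q) ≤ ENNReal.ofReal (a + η') :=
    ev_KS hβ hβ1 S hq₁ ha0 hmu η' hη'0
  have e2 : ∀ᶠ q in 𝓝 q₁, ‖xp q - u₀‖ < σ₂ :=
    (hxc.sub continuousAt_const).norm.eventually_lt continuousAt_const hq
  have e3 : ∀ᶠ q in 𝓝 q₁, ‖xp q - uc‖ + ρ < ρt :=
    ((hxc.sub continuousAt_const).norm.add continuousAt_const).eventually_lt
      continuousAt_const huc
  have e4 : ∀ᶠ q in 𝓝 q₁, ‖xp q - xp q₁‖ < η' :=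
    (hxc.sub continuousAt_const).norm.eventually_lt continuousAt_const (by simpa using hη'0)
  have e5 : ∀ᶠ q in 𝓝 q₁, ∀ j : Fin 2, ∃ k, ∃ m : ℕ, S.InC k q ((S.F q)^[m] (bz j, 1)) := by
    refine eventually_all.2 fun j => ?_
    obtain ⟨k, m, hkm⟩ := hb j
    have h1 := ev_inC_pt S hq₁ hkm
    have h2 : Tendsto (fun q : Fin (2 * d + s) → ℂ => (q, (bz j : ℂ))) (𝓝 q₁)
        (𝓝 (q₁, (bz j : ℂ))) := (Continuous.prodMk continuous_id continuous_const).tendsto _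
    exact (h2.eventually h1).mono fun q hq => ⟨k, m, hq⟩
  have e6 : ∀ᶠ q in 𝓝 q₁, ∀ k ∈ K, ‖S.b k q - p k‖ < δ := by
    refine eventually_all.2 fun k => ?_
    by_cases hk : k ∈ K
    · have hbc : ContinuousAt (S.b k) q₁ :=
        ((S.hb k).differentiableAt (S.hU.mem_nhds hq₁)).continuousAt
      exact ((hbc.sub continuousAt_const).norm.eventually_lt continuousAt_const (hpK k hk)).mono
        fun q hq _ => hq
    · exact Eventually.of_forall fun q hk' => absurd hk' hk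
  have e7 : ∀ᶠ q in 𝓝 q₁, ∀ y : Ix d (2 * d + s) s → ℂ, yx y = q → (∀ j, S.Er j y = 0) →
      ∀ x ∈ lab, ∃ i : Fin (2 * d - 2), ‖yc y i - ζc‖ < δ ∧
        S.InC x.2.1 (yx y) ((S.F (yx y))^[x.2.2] (yc y i, 1)) := by
    rcases lab with _ | x
    · exact Eventually.of_forall fun q y _ _ x hx => by simp at hx
    · obtain ⟨h1, h2, h3⟩ := hlab x rfl
      have h4 := ev_inC_pt S hq₁ h2
      rw [nhds_prod_eq] at h4
      obtain ⟨pa, hpa, pb, hpb, hab⟩ := Filter.eventually_prod_iff.1 h4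
      obtain ⟨δ₂, hδ₂, hball⟩ := Metric.eventually_nhds_iff.1 hpb
      have h5 := ev_crit S hq₁ h1 (min δ₂ (δ - ‖x.1 - ζc‖)) (lt_min hδ₂ (by linarith))
      filter_upwards [hpa, h5] with q k1 k2 y hy hEr x' hx'
      have hxx : x' = x := by simpa using hx'.symm
      subst hxx
      obtain ⟨i, hi⟩ := k2 y hy hEr
      refine ⟨i, ?_, ?_⟩
      · have h6 := hi.trans_le (min_le_right _ _)
        calc ‖yc y i - ζc‖ = ‖(yc y i - x'.1) + (x'.1 - ζc)‖ := by congr 1; ring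
          _ ≤ ‖yc y i - x'.1‖ + ‖x'.1 - ζc‖ := norm_add_le _ _
          _ < δ := by linarith
      · have h6 := hab k1 (hball (y := yc y i) (by
          rw [dist_eq_norm]; exact hi.trans_le (min_le_left _ _)))
        rw [hy]
        exact h6
  obtain ⟨ε', hε', hball⟩ := Metric.eventually_nhds_iff.1
    (e1.and (e2.and (e3.and (e4.and (e5.and (e6.and e7))))))
  obtain ⟨y, hy, hyU, hlam, hEr, hG⟩ := gen_config hd S hE q₁ hq₁ ε' hε'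
  obtain ⟨f1, f2, f3, f4, f5, f6, f7⟩ := hball (y := yx y) (by rw [dist_eq_norm]; exact hy)
  -- the label
  obtain ⟨I, ki, mi, hI1, hI2⟩ : ∃ (I : Finset (Fin (2 * d - 2))) (ki : Fin (2 * d - 2) → Fin s)
      (mi : Fin (2 * d - 2) → ℕ), (∀ i ∈ I, S.InC (ki i) (yx y) ((S.F (yx y))^[mi i] (yc y i, 1)) ∧
        ‖yc y i - ζc‖ < δ) ∧ ∀ x ∈ lab, ∃ i ∈ I, ki i = x.2.1 := by
    obtain ⟨k₀, -, -⟩ := hb 0
    rcases lab with _ | x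
    · exact ⟨∅, fun _ => k₀, fun _ => 0, by simp, by simp⟩
    · obtain ⟨i, hi1, hi2⟩ := f7 y rfl hEr x rfl
      refine ⟨{i}, fun _ => x.2.1, fun _ => x.2.2, ?_, ?_⟩
      · intro i' hi'
        rw [Finset.mem_singleton] at hi'
        subst hi'
        exact ⟨hi2, hi1⟩
      · intro x' hx'
        have hxx : x' = x := by simpa using hx'.symm
        subst hxx
        exact ⟨i, Finset.mem_singleton_self i, rfl⟩
  obtain ⟨S', ks', ls', z, k1, k2, k3, k4, k5, k6⟩ := near_y hC hρ hρσ S hE y hyU hlam hG f2 f5 I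
    ki mi (fun i hi => (hI1 i hi).1) (a + η') (by linarith) g1 g2 f1
    (Eset (d := d) p K (I : Set (Fin (2 * d - 2))) ζc δ)
    (epos_of (circ_sub hcirc _) (xp (yx y)) ρ f3.le)
    ⟨fun k hk => (f6 k hk).le, fun i hi => (hI1 i hi).2.le⟩ η' hη'0
  refine ⟨S', ks', ls', z, k1, k2, k3, ?_, k6.1, ?_⟩
  · have h1 : Real.sqrt (a + η') ≤ Real.sqrt a + Real.sqrt η' :=
      Pool.Agent.W402.RE.MINP.sqrt_add_le' ha0 hη'0.le
    have h2 := mul_le_mul_of_nonneg_left h1 hC.C.le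
    calc ‖xp (yx z) - xp q₁‖ = ‖(xp (yx z) - xp (yx y)) + (xp (yx y) - xp q₁)‖ := by
          congr 1; abel
      _ ≤ ‖xp (yx z) - xp (yx y)‖ + ‖xp (yx y) - xp q₁‖ := norm_add_le _ _
      _ ≤ C₂ * Real.sqrt a + η := by linarith
  · intro x hx
    obtain ⟨i, hi, hik⟩ := hI2 x hx
    exact ⟨i, (k5 i hi).trans hik, k6.2 i hi⟩

end Pool.Agent.Zk23
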