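import Mathlib
import Pool.Agent.Zk23.NEAR

/-! The critical point in a prescribed basin, for normalised maps. -/

set_option autoImplicit false
set_option maxHeartbeats 400000
set_option linter.unusedVariables false

open Topology Filter Metric Set MeasureTheory
open Pool.Agent.H790R3.RB (CV hF cr ND wr rt Ix yx yc sp HypTop Attd Sink cr_eq_zero_iff
  cr_smul_left cr_self)
open Pool.Agent.W757.RD
open scoped OnePoint

namespace Pool.Agent.Zk23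

/-- critical points of nearby maps -/
theorem ev_crit_fam {d : ℕ} (hd : 2 ≤ d) {u₁ : Fin (2 * d) → ℂ} (hu : u₁ ∈ U₀ d)
    {ζ : ℂ} (h : wr (fam u₁) (ζ, 1) = 0) (δ : ℝ) (hδ : 0 < δ) :
    ∀ᶠ u in 𝓝 u₁, ∀ c : Fin (2 * d - 2) → ℂ,
      (∀ ζ : ℂ, wr (fam u) (ζ, 1) = wr (fam u) (1, 0) * ∏ i, (ζ - c i)) →
      ∃ i : Fin (2 * d - 2), ‖c i - ζ‖ < δ := by
  have hco : ContinuousAt (fam : (Fin (2 * d) → ℂ) → CV d) u₁ := (fam_cont hd).continuousAt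
  have hwc : Continuous fun p : CV d × (ℂ × ℂ) => wr p.1 p.2 :=
    (Pool.Agent.H790R3.RB.wr_contDiff d 1).continuous
  have h0 : wr (fam u₁) (1, 0) ≠ 0 := hu.2
  have c1 : ContinuousAt (fun q' => wr (fam q') (ζ, 1)) u₁ :=
    ContinuousAt.comp (f := fun q' : Fin (2 * d) → ℂ => ((fam q' : CV d), ((ζ, 1) : ℂ × ℂ)))
      (g := fun p => wr p.1 p.2) hwc.continuousAt (hco.prodMk continuousAt_const)
  have c2 : ContinuousAt (fun q' => wr (fam q') (1, 0)) u₁ :=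
    ContinuousAt.comp (f := fun q' : Fin (2 * d) → ℂ => ((fam q' : CV d), ((1, 0) : ℂ × ℂ)))
      (g := fun p => wr p.1 p.2) hwc.continuousAt (hco.prodMk continuousAt_const)
  have hpos : 0 < ‖wr (fam u₁) (1, 0)‖ := norm_pos_iff.2 h0
  have e1 : ∀ᶠ q' in 𝓝 u₁, ‖wr (fam q') (ζ, 1)‖ <
      ‖wr (fam u₁) (1, 0)‖ / 2 * δ ^ (2 * d - 2) := by
    refine c1.norm.eventually_lt continuousAt_const ?_
    rw [h, norm_zero]
    positivity
  have e2 : ∀ᶠ q' in 𝓝 u₁, ‖wr (fam u₁) (1, 0)‖ / 2 < ‖wr (fam q') (1, 0)‖ := by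
    refine continuousAt_const.eventually_lt c2.norm ?_
    linarith
  filter_upwards [e1, e2] with q' h1 h2 c hfac
  by_contra hcon
  push Not at hcon
  have h3 : δ ^ (2 * d - 2) ≤ ∏ i : Fin (2 * d - 2), ‖ζ - c i‖ := by
    calc δ ^ (2 * d - 2) = ∏ i : Fin (2 * d - 2), δ := by simp
      _ ≤ ∏ i : Fin (2 * d - 2), ‖ζ - c i‖ :=
          Finset.prod_le_prod (fun i _ => hδ.le) (fun i _ => by
            rw [norm_sub_rev]; exact hcon i)
  have h4 : ‖wr (fam q') (ζ, 1)‖ =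
      ‖wr (fam q') (1, 0)‖ * ∏ i : Fin (2 * d - 2), ‖ζ - c i‖ := by
    rw [hfac, norm_mul, norm_prod]
  have h5 : ‖wr (fam u₁) (1, 0)‖ / 2 * δ ^ (2 * d - 2) ≤
      ‖wr (fam q') (1, 0)‖ * ∏ i : Fin (2 * d - 2), ‖ζ - c i‖ :=
    mul_le_mul h2.le h3 (by positivity) (norm_nonneg _)
  linarith

/-- late entrance in small discs -/
theorem late {d n s : ℕ} (S : Sys d n s) {u : Fin n → ℂ} (hu : u ∈ S.U) (k : Fin s)
    {p : ℂ × ℂ} {m : ℕ} (hp : S.InC k u ((S.F u)^[m] p)) (N : ℕ) (r : ℝ) (hr : 0 < r) :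
    ∃ m' : ℕ, N ≤ m' ∧ ∃ a z : ℂ, a ≠ 0 ∧ ‖z‖ < r ∧ (S.F u)^[m'] p = a • S.cht k u z := by
  obtain ⟨a, z, ha, hz, he⟩ := hp
  obtain ⟨-, h2, b, hb, he'⟩ := TRF.iter_contr S p_LAM hu k N hz
  have h3 : S.InC k u ((S.F u)^[S.per k * N + m] p) := by
    refine ⟨a ^ (d ^ (S.per k * N)) * b, _, mul_ne_zero (pow_ne_zero _ ha) hb, h2, ?_⟩
    rw [Function.iterate_add_apply, he]
    change (hF (S.co u))^[S.per k * N] _ = _
    rw [Pool.Agent.H790R3.RB.hF_iter_smul]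
    change a ^ (d ^ (S.per k * N)) • (S.F u)^[S.per k * N] _ = _
    rw [he', smul_smul]
  obtain ⟨j, a', z', ha', hz', he''⟩ := TRF.inC_later S p_LAM hu k hr h3
  refine ⟨S.per k * j + (S.per k * N + m), ?_, a', z', ha', hz', ?_⟩
  · have := Nat.le_mul_of_pos_left N (S.hper k)
    have h4 : N ≤ S.per k * N := Nat.le_mul_of_pos_left N (S.hper k)
    omega
  · rw [Function.iterate_add_apply]
    exact he''

/-- the normalised situation -/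
structure Sit (β : ℝ) (d : ℕ) (u₀ : Fin (2 * d) → ℂ) (C₂ c₂ ε₂ σ₂ : ℝ) {s : ℕ}
    (S : Sys d (2 * d + s) s) (q₀ : Fin (2 * d + s) → ℂ) (ζ₀ : ℂ) : Prop where
  hβ : 1 / 2 < β
  hβ1 : β < 1
  cst : Cst β d u₀ C₂ c₂ ε₂ σ₂
  ext : Ext S
  qU : q₀ ∈ S.U
  near : ‖xp q₀ - u₀‖ < σ₂
  base : ∀ j : Fin 2, ∃ k, ∃ m : ℕ, S.InC k q₀ ((S.F q₀)^[m] (bz j, 1))
  area : mu β (S.KS q₀) = 0
  crit : wr (fam (xp q₀)) (ζ₀, 1) = 0
  natt : ∀ k, ∀ m : ℕ, ¬ S.InC k q₀ ((S.F q₀)^[m] (ζ₀, 1))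

variable {β : ℝ} {d : ℕ} {u₀ : Fin (2 * d) → ℂ} {C₂ c₂ ε₂ σ₂ : ℝ} {s : ℕ}
  {S : Sys d (2 * d + s) s} {q₀ : Fin (2 * d + s) → ℂ} {ζ₀ : ℂ}

/-- hyperbolic approximations in which the critical point is attracted by some cycle -/
theorem Sit.approx (h : Sit β d u₀ C₂ c₂ ε₂ σ₂ S q₀ ζ₀) (N : ℕ) (δ : ℝ) (hδ : 0 < δ) :
    ∃ (w : (Fin (2 * d) → ℂ) × ℂ) (k : Fin s) (n : ℕ) (z : ℂ),
      ‖w - (xp q₀, ζ₀)‖ < δ ∧ wr (fam w.1) (w.2, 1) = 0 ∧ N ≤ n ∧ ‖z - S.b k q₀‖ < δ ∧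
      cr ((hF (fam w.1))^[n] (w.2, 1)) (z, 1) = 0 := by
  have hd := S.hd
  obtain ⟨δ', ρt, hδ', hδ'δ, -, hρt, hcirc⟩ := circ_of S h.ext q₀ h.qU univ ζ₀ (δ / 2) (by linarith)
  obtain ⟨ε', hε', hball⟩ := Metric.eventually_nhds_iff.1
    (ev_crit_fam hd (h.ext.U q₀ h.qU) h.crit δ hδ)
  set ρ : ℝ := min σ₂ (ρt / 2) with hρ
  have hρ0 : 0 < ρ := lt_min h.cst.σ (by linarith)
  have hρ1 : ρ ≤ ρt / 2 := min_le_right _ _
  obtain ⟨S', ks', ls', z, k1, k2, k3, k4, k5, -⟩ := near_core h.hβ h.hβ1 h.cst hρ0 (min_le_left _ _)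
    S h.ext q₀ h.qU h.near h.base 0 le_rfl h.cst.ε
    (mul_pos h.cst.c (by positivity)) (by rw [h.area]; exact zero_le)
    (xp q₀) ρt (fun k => S.b k q₀) univ ζ₀ δ' hcirc (by rw [sub_self, norm_zero]; linarith)
    (fun k _ => by rw [sub_self, norm_zero]; exact hδ') none (by simp) (min δ ε' / 2)
    (half_pos (lt_min hδ hε'))
  rw [Real.sqrt_zero, mul_zero, zero_add] at k4
  have hm := lt_min hδ hε'
  have hzx : ‖xp (yx z) - xp q₀‖ < min δ ε' := by linarith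
  have hfac := p_ER d (2 * d + s) s S' z k3.crit
  rw [k1.co _ k3.xU] at hfac
  obtain ⟨i, hi⟩ := hball (y := xp (yx z)) (by
    rw [dist_eq_norm]; exact hzx.trans_le (min_le_right _ _)) (yc z) hfac
  obtain ⟨-, -, M, hM⟩ := k3.att (Sum.inl i) (Finset.mem_univ _)
  have hM' : S'.InC (ks' (Sum.inl i)) (yx z)
      ((S'.F (yx z))^[S'.per (ks' (Sum.inl i)) * M + ls' (Sum.inl i)] (yc z i, 1)) := by
    rw [Function.iterate_add_apply]
    exact hM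
  obtain ⟨n, hn, a, z', ha, hz', he⟩ := late S' k3.xU _ hM' N (δ / 2) (by linarith)
  refine ⟨(xp (yx z), yc z i), ks' (Sum.inl i), n, S'.b (ks' (Sum.inl i)) (yx z) + z', ?_, ?_, hn,
    ?_, ?_⟩
  · rw [Prod.norm_def, max_lt_iff]
    exact ⟨hzx.trans_le (min_le_left _ _), hi⟩
  · rw [hfac]
    rw [Finset.prod_eq_zero (Finset.mem_univ i) (sub_self _), mul_zero]
  · have h1 := k5 (ks' (Sum.inl i)) (mem_univ _)
    calc ‖S'.b (ks' (Sum.inl i)) (yx z) + z' - S.b (ks' (Sum.inl i)) q₀‖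
        = ‖(S'.b (ks' (Sum.inl i)) (yx z) - S.b (ks' (Sum.inl i)) q₀) + z'‖ := by congr 1; ring
      _ ≤ ‖S'.b (ks' (Sum.inl i)) (yx z) - S.b (ks' (Sum.inl i)) q₀‖ + ‖z'‖ := norm_add_le _ _
      _ < δ := by linarith
  · unfold Sys.F at he
    rw [k1.co _ k3.xU] at he
    simp only
    rw [he]
    unfold Sys.cht
    rw [cr_smul_left, cr_self, mul_zero]

/-- the conclusion of the theorems for normalised maps -/
def Concl {d s s' : ℕ} (S : Sys d (2 * d + s) s) (q₀ : Fin (2 * d + s) → ℂ) (ζ₀ : ℂ)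
    (per' : Fin s' → ℕ) (em : Fin s → Fin s') (k₀ : Fin s') (ε : ℝ) : Prop :=
  ∃ (S' : Sys d (2 * d + s') s') (ks' : Pt d → Fin s') (ls' : Pt d → ℕ)
    (z : Ix d (2 * d + s') s' → ℂ), Ext S' ∧ S'.per = per' ∧ S'.Adm Finset.univ ks' ls' z ∧
    ‖xp (yx z) - xp q₀‖ < ε ∧ (∀ k, ‖S'.b (em k) (yx z) - S.b k q₀‖ < ε) ∧
    ∃ i : Fin (2 * d - 2), ks' (Sum.inl i) = k₀ ∧ ‖yc z i - ζ₀‖ < ε

/-- the point of the system over a nearby map -/
theorem append_near {d s : ℕ} (q₀ : Fin (2 * d + s) → ℂ) (u : Fin (2 * d) → ℂ) :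
    ‖(Fin.append u (bp q₀) : Fin (2 * d + s) → ℂ) - q₀‖ ≤ ‖u - xp q₀‖ := by
  rw [pi_norm_le_iff_of_nonneg (norm_nonneg _)]
  intro i
  rw [Pi.sub_apply]
  refine Fin.addCases (fun i => ?_) (fun k => ?_) i
  · have h1 : (Fin.append u (bp q₀) : Fin (2 * d + s) → ℂ) (Fin.castAdd s i) = u i := by simp
    rw [h1]
    exact norm_le_pi_norm (u - xp q₀) i
  · have h1 : (Fin.append u (bp q₀) : Fin (2 * d + s) → ℂ) (Fin.natAdd (2 * d) k) = bp q₀ k := by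
      simp
    have h2 : q₀ (Fin.natAdd (2 * d) k) = bp q₀ k := rfl
    rw [h1, h2, sub_self, norm_zero]
    exact norm_nonneg _

theorem xp_app {d s : ℕ} (q₀ : Fin (2 * d + s) → ℂ) (u : Fin (2 * d) → ℂ) :
    xp (Fin.append u (bp q₀) : Fin (2 * d + s) → ℂ) = u := by
  funext i; simp [xp]

/-- The critical point in a prescribed basin. -/
theorem Sit.basin (h : Sit β d u₀ C₂ c₂ ε₂ σ₂ S q₀ ζ₀) (k₀ : Fin s) (ε : ℝ) (hε : 0 < ε) :
    Concl S q₀ ζ₀ S.per id k₀ ε := by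
  have hd := S.hd
  obtain ⟨δ', ρt, hδ', hδ'ε, hδ'r, hρt, hcirc⟩ := circ_of S h.ext q₀ h.qU univ ζ₀ ε hε
  set ρ : ℝ := min σ₂ (ρt / 2) with hρ
  have hρ0 : 0 < ρ := lt_min h.cst.σ (by linarith)
  have hρ1 : ρ ≤ ρt / 2 := min_le_right _ _
  -- the small number
  obtain ⟨a, ha0, ha1, ha2, ha3⟩ : ∃ a : ℝ, 0 < a ∧ a < ε₂ ∧ a < c₂ * ρ ^ 2 ∧
      C₂ * Real.sqrt a + a < ε / 2 := by
    have hc : Continuous fun t : ℝ => C₂ * Real.sqrt t + t := by fun_prop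
    have h1 : ∀ᶠ t : ℝ in 𝓝 0, C₂ * Real.sqrt t + t < ε / 2 := by
      refine (hc.tendsto 0).eventually_lt_const ?_
      simpa using hε
    have h2 : ∀ᶠ t : ℝ in 𝓝 0, t < ε₂ := eventually_lt_nhds h.cst.ε
    have h3 : ∀ᶠ t : ℝ in 𝓝 0, t < c₂ * ρ ^ 2 :=
      eventually_lt_nhds (mul_pos h.cst.c (by positivity))
    obtain ⟨t, ⟨⟨ht1, ht2⟩, ht3⟩, ht0⟩ := (((h1.and h2).and h3).filter_mono
      nhdsWithin_le_nhds |>.and (self_mem_nhdsWithin : Ioi (0 : ℝ) ∈ 𝓝[>] (0 : ℝ))).exists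
    exact ⟨t, ht0, ht2, ht3, ht1⟩
  -- open conditions
  have hxc : ContinuousAt (fun q : Fin (2 * d + s) → ℂ => xp q) q₀ := xp_cont.continuousAt
  have e0 : ∀ᶠ q in 𝓝 q₀, q ∈ S.U := S.hU.mem_nhds h.qU
  have e1 : ∀ᶠ q in 𝓝 q₀, mu β (S.KS q) ≤ ENNReal.ofReal (0 + a) :=
    ev_KS h.hβ h.hβ1 S h.qU le_rfl (by rw [h.area]; exact zero_le) a ha0
  have e2 : ∀ᶠ q in 𝓝 q₀, ‖xp q - u₀‖ < σ₂ :=
    (hxc.sub continuousAt_const).norm.eventually_lt continuousAt_const h.near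
  have e3 : ∀ᶠ q in 𝓝 q₀, ‖xp q - xp q₀‖ + ρ < ρt := by
    refine ((hxc.sub continuousAt_const).norm.add continuousAt_const).eventually_lt
      continuousAt_const ?_
    show ‖xp q₀ - xp q₀‖ + ρ < ρt
    rw [sub_self, norm_zero]; linarith
  have e4 : ∀ᶠ q in 𝓝 q₀, ‖xp q - xp q₀‖ < ε / 2 :=
    (hxc.sub continuousAt_const).norm.eventually_lt continuousAt_const (by simpa using hε)
  have e5 : ∀ᶠ q in 𝓝 q₀, ∀ j : Fin 2, ∃ k, ∃ m : ℕ, S.InC k q ((S.F q)^[m] (bz j, 1)) := by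
    refine eventually_all.2 fun j => ?_
    obtain ⟨k, m, hkm⟩ := h.base j
    have h1 := ev_inC_pt S h.qU hkm
    have h2 : Tendsto (fun q : Fin (2 * d + s) → ℂ => (q, (bz j : ℂ))) (𝓝 q₀)
        (𝓝 (q₀, (bz j : ℂ))) := (Continuous.prodMk continuous_id continuous_const).tendsto _
    exact (h2.eventually h1).mono fun q hq => ⟨k, m, hq⟩
  have e6 : ∀ᶠ q in 𝓝 q₀, ∀ k, ‖S.b k q - S.b k q₀‖ < δ' / 2 := by
    refine eventually_all.2 fun k => ?_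
    have hbc : ContinuousAt (S.b k) q₀ :=
      ((S.hb k).differentiableAt (S.hU.mem_nhds h.qU)).continuousAt
    refine (hbc.sub continuousAt_const).norm.eventually_lt continuousAt_const ?_
    show ‖S.b k q₀ - S.b k q₀‖ < δ' / 2
    rw [sub_self, norm_zero]; linarith
  obtain ⟨ε', hε', hball⟩ := Metric.eventually_nhds_iff.1
    (e0.and (e1.and (e2.and (e3.and (e4.and (e5.and e6))))))
  -- the targets
  set rr : Fin 3 → ℝ := fun i => δ' / ((i : ℕ) + 3) with hrr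
  have hrr0 : ∀ i, 0 < rr i := fun i => by simp only [hrr]; positivity
  have hrr1 : ∀ i, rr i ≤ δ' / 3 := by
    intro i
    simp only [hrr]
    apply div_le_div_of_nonneg_left hδ'.le (by norm_num)
    have : (0 : ℝ) ≤ ((i : ℕ) : ℝ) := Nat.cast_nonneg _
    linarith
  have hrrne : ∀ i j : Fin 3, i ≠ j → rr i ≠ rr j := by
    intro i j hij he
    simp only [hrr] at he
    rw [div_eq_div_iff (by positivity) (by positivity)] at he
    have h2 := mul_left_cancel₀ hδ'.ne' he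
    have h3 : ((j : ℕ) : ℝ) = ((i : ℕ) : ℝ) := by linarith
    exact hij (Fin.ext (by exact_mod_cast h3.symm))
  set p : Fin 3 → (Fin (2 * d) → ℂ) × ℂ → ℂ × ℂ := fun i _ => (S.b k₀ q₀ + (rr i : ℂ), 1) with hp
  have hcr : ∀ i j w w', i ≠ j → cr (p i w) (p j w') ≠ 0 := by
    intro i j w w' hij h0
    simp only [hp, cr, mul_one, one_mul] at h0
    have h1 : (rr i : ℂ) = rr j := by linear_combination h0
    exact hrrne i j hij (by exact_mod_cast h1)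
  have hpb : ∀ k, cr (S.b k q₀, 1) (p 1 (xp q₀, ζ₀)) ≠ 0 := by
    intro k h0
    simp only [hp, cr, mul_one, one_mul] at h0
    have h1 : S.b k q₀ = S.b k₀ q₀ + (rr 1 : ℂ) := by linear_combination h0
    have h2 : k = k₀ := by
      refine (S.sep q₀ h.qU k k₀ 0 (rr 1 : ℂ) 1 0 (by simpa using S.hr₀ k) ?_ ?_).1
      · rw [Complex.norm_real, Real.norm_eq_abs, abs_of_pos (hrr0 1)]
        have := hrr1 1
        have := hδ'r k₀
        linarith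
      · simp only [Function.iterate_zero, id, one_smul, add_zero]
        rw [h1]
    rw [h2] at h1
    have h3 : (rr 1 : ℂ) = 0 := by linear_combination -h1
    have h4 : rr 1 = 0 := by exact_mod_cast h3
    exact (hrr0 1).ne' h4
  obtain ⟨w, hw, hwc, n, -, i, hi⟩ := act S h.ext q₀ h.qU ζ₀ h.crit h.natt 0 (h.approx 0) p 1 one_pos
    (fun i => differentiableOn_const _) (hcr 0 1 (xp q₀, ζ₀) (xp q₀, ζ₀) (by decide))
    (hcr 2 1 (xp q₀, ζ₀) (xp q₀, ζ₀) (by decide)) (hcr 2 0 (xp q₀, ζ₀) (xp q₀, ζ₀) (by decide))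
    hpb (min ε' δ') (lt_min hε' hδ')
  set q : Fin (2 * d + s) → ℂ := Fin.append w.1 (bp q₀) with hq
  have hxq : xp q = w.1 := xp_app _ _
  have hw1 : ‖w.1 - xp q₀‖ < min ε' δ' := lt_of_le_of_lt (norm_fst_le (w - (xp q₀, ζ₀))) hw
  have hw2 : ‖w.2 - ζ₀‖ < min ε' δ' := lt_of_le_of_lt (norm_snd_le (w - (xp q₀, ζ₀))) hw
  obtain ⟨f0, f1, f2, f3, f4, f5, f6⟩ := hball (y := q) (by
    rw [dist_eq_norm]
    exact lt_of_le_of_lt (append_near _ _) (hw1.trans_le (min_le_left _ _)))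
  have hFq : S.F q = hF (fam w.1) := by
    unfold Sys.F
    rw [h.ext.co q f0, hxq]
  have hIn : S.InC k₀ q ((S.F q)^[n] (w.2, 1)) := by
    have hne : (hF (fam w.1))^[n] (w.2, 1) ≠ 0 := by
      have hU : w.1 ∈ U₀ d := by rw [← hxq]; exact h.ext.U q f0
      refine hU.1.iter_ne n ?_
      intro h0
      have := congrArg Prod.snd h0
      simp at this
    have hne2 : p i w ≠ 0 := by
      intro h0
      have := congrArg Prod.snd h0
      simp [hp] at this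
    obtain ⟨α, hα, he⟩ := (cr_eq_zero_iff hne hne2).1 hi
    refine ⟨α, S.b k₀ q₀ + (rr i : ℂ) - S.b k₀ q, hα, ?_, ?_⟩
    · calc ‖S.b k₀ q₀ + (rr i : ℂ) - S.b k₀ q‖ = ‖-(S.b k₀ q - S.b k₀ q₀) + (rr i : ℂ)‖ := by
            congr 1; ring
        _ ≤ ‖-(S.b k₀ q - S.b k₀ q₀)‖ + ‖(rr i : ℂ)‖ := norm_add_le _ _
        _ < S.r₀ k₀ := by
            rw [norm_neg, Complex.norm_real, Real.norm_eq_abs, abs_of_pos (hrr0 i)]
            have := f6 k₀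
            have := hrr1 i
            have := hδ'r k₀
            linarith
    · rw [hFq, he]
      unfold Sys.cht
      simp only [hp]
      congr 2
      ring
  obtain ⟨S', ks', ls', z, k1, k2, k3, k4, k5, k6⟩ := near_core h.hβ h.hβ1 h.cst hρ0
    (min_le_left _ _) S h.ext q f0 f2 f5 a ha0.le ha1 ha2 (by rw [zero_add] at f1; exact f1)
    (xp q₀) ρt (fun k => S.b k q₀) univ ζ₀ δ' hcirc f3
    (fun k _ => (f6 k).trans (by linarith)) (some (w.2, k₀, n)) (by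
      intro x hx
      have hxx : x = (w.2, k₀, n) := by simpa using hx.symm
      subst hxx
      refine ⟨?_, hIn, hw2.trans_le (min_le_right _ _)⟩
      rw [h.ext.co q f0, hxq]
      exact hwc) a ha0
  refine ⟨S', ks', ls', z, k1, k2, k3, ?_, ?_, ?_⟩
  · calc ‖xp (yx z) - xp q₀‖ = ‖(xp (yx z) - xp q) + (xp q - xp q₀)‖ := by congr 1; abel
      _ ≤ ‖xp (yx z) - xp q‖ + ‖xp q - xp q₀‖ := norm_add_le _ _
      _ < ε := by linarith
  · intro k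
    exact lt_of_le_of_lt (k5 k (mem_univ k)) hδ'ε
  · obtain ⟨i, hi1, hi2⟩ := k6 (w.2, k₀, n) rfl
    exact ⟨i, hi1, lt_of_le_of_lt hi2 hδ'ε⟩

end Pool.Agent.Zk23
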