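import Mathlib
import Pool.Agent.Zk23.BNORM
import Pool.Agent.Helper202.Univ

/-! Derivatives at critical points; implicit functions. -/

set_option autoImplicit false
set_option maxHeartbeats 400000
set_option linter.unusedVariables false

open Topology Filter Metric Set MeasureTheory
open Pool.Agent.H790R3.RB (CV hF cr ND wr rt Ix yx yc sp pr hc HypTop Attd Sink cr_eq_zero_iff
  cr_smul_left cr_smul_right cr_self cr_comm WR SP)
open Pool.Agent.H790R3.RB.HYP (iter_diff euler iter_cr)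
open Pool.Agent.W757.RD
open scoped OnePoint

namespace Pool.Agent.Zk23

theorem one_ne (z : ℂ) : ((z, 1) : ℂ × ℂ) ≠ 0 := by
  intro h; have := congrArg Prod.snd h; simp at this

/-- the derivative of the iterate along the plane -/
theorem along_deriv {d : ℕ} (x : CV d) (N : ℕ) (ζ : ℂ) :
    HasDerivAt (fun z : ℂ => (hF x)^[N] (z, 1))
      (fderiv ℂ (fun q => (hF x)^[N] q) (ζ, 1) (1, 0)) ζ := by
  have h1 : HasDerivAt (fun z : ℂ => ((z, 1) : ℂ × ℂ)) (1, 0) ζ :=
    (hasDerivAt_id ζ).prodMk (hasDerivAt_const ζ (1 : ℂ))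
  have h2 : HasFDerivAt (fun q => (hF x)^[N] q) (fderiv ℂ (fun q => (hF x)^[N] q) (ζ, 1))
      ((fun z : ℂ => ((z, 1) : ℂ × ℂ)) ζ) := (iter_diff x N (ζ, 1)).hasFDerivAt
  exact h2.comp_hasDerivAt ζ h1

theorem cr_deriv {d : ℕ} (hd : 2 ≤ d) (x : CV d) (N : ℕ) (ζ : ℂ) :
    cr (fderiv ℂ (fun q => (hF x)^[N] q) (ζ, 1) (1, 0)) ((hF x)^[N] (ζ, 1)) * (d ^ N : ℕ) =
      ∏ m ∈ Finset.range N, wr x ((hF x)^[m] (ζ, 1)) := by
  have h1 := iter_cr WR hd x N (ζ, 1) (1, 0) (ζ, 1)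
  rw [euler, cr_smul_right] at h1
  have h2 : cr ((1, 0) : ℂ × ℂ) (ζ, 1) = 1 := by unfold cr; ring
  rw [h2, mul_one] at h1
  rw [← h1]
  ring

/-- critical points have multiplier zero -/
theorem rt_deriv_zero {d : ℕ} (hd : 2 ≤ d) (x : CV d) (N : ℕ) (hN : 1 ≤ N) (ζ : ℂ)
    (hw : wr x (ζ, 1) = 0) (h2 : ((hF x)^[N] (ζ, 1)).2 ≠ 0) : deriv (rt x N) ζ = 0 := by
  have h1 := cr_deriv hd x N ζ
  have h3 : ∏ m ∈ Finset.range N, wr x ((hF x)^[m] (ζ, 1)) = 0 :=
    Finset.prod_eq_zero (Finset.mem_range.2 hN) (by simpa using hw)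
  rw [h3] at h1
  have hd0 : ((d ^ N : ℕ) : ℂ) ≠ 0 := by
    have : d ^ N ≠ 0 := pow_ne_zero _ (by omega)
    exact_mod_cast this
  have h4 := (mul_eq_zero.1 h1).resolve_right hd0
  have h5 := along_deriv x N ζ
  have h6 : HasDerivAt (fun z : ℂ => ((hF x)^[N] (z, 1)).1)
      (fderiv ℂ (fun q => (hF x)^[N] q) (ζ, 1) (1, 0)).1 ζ :=
    (ContinuousLinearMap.fst ℂ ℂ ℂ).hasFDerivAt.comp_hasDerivAt ζ h5
  have h7 : HasDerivAt (fun z : ℂ => ((hF x)^[N] (z, 1)).2)
      (fderiv ℂ (fun q => (hF x)^[N] q) (ζ, 1) (1, 0)).2 ζ :=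
    (ContinuousLinearMap.snd ℂ ℂ ℂ).hasFDerivAt.comp_hasDerivAt ζ h5
  have h8 := h6.fun_div h7 h2
  have e : rt x N = fun z : ℂ => ((hF x)^[N] (z, 1)).1 / ((hF x)^[N] (z, 1)).2 := rfl
  rw [e, h8.deriv]
  unfold cr at h4
  rw [div_eq_zero_iff]
  left
  linear_combination h4

/-- the derivative at a preimage of `ζ` -/
theorem preim_deriv {d : ℕ} (hd : 2 ≤ d) (x : CV d) (p ζ : ℂ) (hp : hF x (p, 1) ≠ 0)
    (hw : wr x (p, 1) ≠ 0) (h0 : cr (hF x (p, 1)) (ζ, 1) = 0) :
    deriv (fun z : ℂ => cr (hF x (z, 1)) (ζ, 1)) p ≠ 0 := by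
  have h1 := cr_deriv hd x 1 p
  simp only [Function.iterate_one, Finset.prod_range_one, Function.iterate_zero, id, pow_one] at h1
  have h5 := along_deriv x 1 p
  simp only [Function.iterate_one] at h5
  set D : ℂ × ℂ := fderiv ℂ (fun q => hF x q) (p, 1) (1, 0) with hD
  have h6 : HasDerivAt (fun z : ℂ => (hF x (z, 1)).1) D.1 p :=
    (ContinuousLinearMap.fst ℂ ℂ ℂ).hasFDerivAt.comp_hasDerivAt p h5
  have h7 : HasDerivAt (fun z : ℂ => (hF x (z, 1)).2) D.2 p :=
    (ContinuousLinearMap.snd ℂ ℂ ℂ).hasFDerivAt.comp_hasDerivAt p h5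
  have h8 : HasDerivAt (fun z : ℂ => cr (hF x (z, 1)) (ζ, 1)) (cr D (ζ, 1)) p := by
    unfold cr
    exact (h6.mul_const 1).sub (h7.mul_const ζ)
  rw [h8.deriv]
  obtain ⟨a, ha, he⟩ := (cr_eq_zero_iff hp (one_ne ζ)).1 h0
  rw [he, cr_smul_right] at h1
  intro h9
  rw [h9, mul_zero, zero_mul] at h1
  exact hw h1.symm

/-- critical points are not points of local injectivity -/
theorem crit_not_inj {d : ℕ} (hd : 2 ≤ d) (x : CV d) (hx : ND x) (ζ : ℂ)
    (hw : wr x (ζ, 1) = 0) : ¬ ∃ U ∈ 𝓝 ((ζ : ℂ) : OnePoint ℂ), InjOn (sp x) U := by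
  rintro ⟨U, hU, hinj⟩
  obtain ⟨-, hsp, hprcr, -, -⟩ := SP d x (by omega) hx
  set P := hF x (ζ, 1) with hP
  have hP0 : P ≠ 0 := fun h => one_ne ζ (hx _ h)
  obtain ⟨f, hf⟩ : ∃ f : ℂ × ℂ, cr P f ≠ 0 := by
    by_cases h2 : P.2 = 0
    · refine ⟨(0, 1), ?_⟩
      have h1 : P.1 ≠ 0 := fun h => hP0 (Prod.ext h h2)
      simpa [cr] using h1
    · exact ⟨(1, 0), by simpa [cr] using h2⟩
  have h1 := cr_deriv hd x 1 ζ
  simp only [Function.iterate_one, Finset.prod_range_one, Function.iterate_zero, id, pow_one,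
    hw] at h1
  have h5 := along_deriv x 1 ζ
  simp only [Function.iterate_one] at h5
  set D : ℂ × ℂ := fderiv ℂ (fun q => hF x q) (ζ, 1) (1, 0) with hD
  have hd0 : (d : ℂ) ≠ 0 := by
    have : d ≠ 0 := by omega
    exact_mod_cast this
  have hcr0 : cr D P = 0 := (mul_eq_zero.1 h1).resolve_right hd0
  have hdiff : Differentiable ℂ (fun z : ℂ => hF x (z, 1)) := by
    intro z
    have := (along_deriv x 1 z).differentiableAt
    simpa only [Function.iterate_one] using this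
  have hcrd : ∀ w : ℂ × ℂ, Differentiable ℂ (fun z : ℂ => cr (hF x (z, 1)) w) := by
    intro w
    unfold cr
    exact (hdiff.fst.mul_const _).sub (hdiff.snd.mul_const _)
  have hcrD : ∀ w : ℂ × ℂ, HasDerivAt (fun z : ℂ => cr (hF x (z, 1)) w) (cr D w) ζ := by
    intro w
    have h6 : HasDerivAt (fun z : ℂ => (hF x (z, 1)).1) D.1 ζ :=
      (ContinuousLinearMap.fst ℂ ℂ ℂ).hasFDerivAt.comp_hasDerivAt ζ h5
    have h7 : HasDerivAt (fun z : ℂ => (hF x (z, 1)).2) D.2 ζ :=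
      (ContinuousLinearMap.snd ℂ ℂ ℂ).hasFDerivAt.comp_hasDerivAt ζ h5
    unfold cr
    exact (h6.mul_const w.2).sub (h7.mul_const w.1)
  -- the neighbourhood
  have hU' : (fun z : ℂ => (z : OnePoint ℂ)) ⁻¹' U ∈ 𝓝 ζ :=
    OnePoint.continuous_coe.continuousAt hU
  have hev : ∀ᶠ z : ℂ in 𝓝 ζ, ((z : ℂ) : OnePoint ℂ) ∈ U ∧ cr (hF x (z, 1)) f ≠ 0 := by
    have k1 : ∀ᶠ z : ℂ in 𝓝 ζ, ((z : ℂ) : OnePoint ℂ) ∈ U := hU'
    exact k1.and ((hcrd f).continuous.continuousAt.eventually_ne hf)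
  obtain ⟨r, hr, hball⟩ := Metric.eventually_nhds_iff_ball.1 hev
  set φ : ℂ → ℂ := fun z => cr (hF x (z, 1)) P / cr (hF x (z, 1)) f with hφ
  have hφd : DifferentiableOn ℂ φ (ball ζ r) :=
    (hcrd P).differentiableOn.div (hcrd f).differentiableOn fun z hz => (hball z hz).2
  have hφi : InjOn φ (ball ζ r) := by
    intro z hz z' hz' he
    have hF0 : ∀ t : ℂ, hF x (t, 1) ≠ 0 := fun t h => one_ne t (hx _ h)
    have h2 : cr (hF x (z, 1)) (hF x (z', 1)) = 0 := by
      have k1 := (hball z hz).2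
      have k2 := (hball z' hz').2
      simp only [hφ] at he
      rw [div_eq_div_iff k1 k2] at he
      have h3 : cr (hF x (z, 1)) P * cr (hF x (z', 1)) f -
          cr (hF x (z', 1)) P * cr (hF x (z, 1)) f =
          cr (hF x (z, 1)) (hF x (z', 1)) * cr P f := by
        unfold cr; ring
      rw [he, sub_self] at h3
      have h4 : cr (hF x (z, 1)) (hF x (z', 1)) * cr P f = 0 := h3.symm
      exact (mul_eq_zero.1 h4).resolve_right hf
    have h3 : sp x (z : OnePoint ℂ) = sp x (z' : OnePoint ℂ) := by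
      have e1 := hsp (z, 1) (one_ne z) 1
      have e2 := hsp (z', 1) (one_ne z') 1
      simp only [Function.iterate_one, Pool.Agent.W586.RESMK.pr_one] at e1 e2
      rw [e1, e2]
      exact (hprcr _ _ (hF0 z) (hF0 z')).2 h2
    exact OnePoint.coe_injective (hinj (hball z hz).1 (hball z' hz').1 h3)
  have h6 := Pool.Agent.Helper202.Univ.deriv_ne_zero isOpen_ball hφd hφi (mem_ball_self hr)
  apply h6
  have h7 := (hcrD P).fun_div (hcrD f) hf
  simp only [hφ]
  rw [h7.deriv]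
  have h8 : cr (hF x (ζ, 1)) P = 0 := cr_self P
  rw [h8, hcr0]
  simp

/-- Implicit functions. -/
theorem ift {V : Type} [NormedAddCommGroup V] [NormedSpace ℂ V] [FiniteDimensional ℂ V]
    (G : V × ℂ → ℂ) (hG : ContDiff ℂ 2 G) (x₀ : V) (p₀ : ℂ) (h0 : G (x₀, p₀) = 0)
    (h1 : deriv (fun p => G (x₀, p)) p₀ ≠ 0) :
    ∃ (r : ℝ) (g : V → ℂ), 0 < r ∧ DifferentiableOn ℂ g (ball x₀ r) ∧ g x₀ = p₀ ∧
      ∀ x ∈ ball x₀ r, G (x, g x) = 0 := by
  have hGd : Differentiable ℂ G := hG.differentiable (by norm_num)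
  set D : V → ℂ := fun x => fderiv ℂ G (x, p₀) (0, 1) with hD
  have hDd : Differentiable ℂ D := by
    have h2 : Differentiable ℂ (fderiv ℂ G) :=
      (hG.fderiv_right (m := 1) (by norm_num)).differentiable (by norm_num)
    have h3 : Differentiable ℂ fun x : V => (x, p₀) := by fun_prop
    exact (h2.comp h3).clm_apply (differentiable_const _)
  have hline : ∀ (x : V) (z : ℂ), HasDerivAt (fun p : ℂ => G (x, p)) (fderiv ℂ G (x, z) (0, 1)) z := by
    intro x z
    have h2 : HasDerivAt (fun p : ℂ => ((x, p) : V × ℂ)) (0, 1) z :=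
      (hasDerivAt_const z x).prodMk (hasDerivAt_id z)
    exact (hGd (x, z)).hasFDerivAt.comp_hasDerivAt z h2
  have hD0 : D x₀ ≠ 0 := by
    rw [(hline x₀ p₀).deriv] at h1
    exact h1
  set B : Set V := {x | D x ≠ 0} with hB
  have hBo : IsOpen B := isOpen_ne_fun hDd.continuous continuous_const
  set L : V → ℂ → ℂ := fun x z => (G (x, p₀ + z) - G (x, p₀)) * (D x)⁻¹ with hL
  obtain ⟨N, r, r', r'', ω, hNo, hKN, hNB, hr, -, -, -, hωd, hω⟩ :=
    Pool.Agent.H790R3.RB.INV V B {x₀} 1 L hBo one_pos isCompact_singleton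
      (by rw [singleton_subset_iff]; exact hD0) (by
        simp only [hL]
        refine DifferentiableOn.mul ?_ ?_
        · have e1 : Differentiable ℂ fun p : V × ℂ => G (p.1, p₀ + p.2) :=
            hGd.comp (differentiable_fst.prodMk ((differentiable_const _).add differentiable_snd))
          have e2 : Differentiable ℂ fun p : V × ℂ => G (p.1, p₀) :=
            hGd.comp (differentiable_fst.prodMk (differentiable_const _))
          exact (e1.sub e2).differentiableOn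
        · refine DifferentiableOn.inv (hDd.comp differentiable_fst).differentiableOn ?_
          rintro p ⟨hp, -⟩
          exact hp) (by
        intro x hx
        constructor
        · simp [hL]
        · have e1 : HasDerivAt (fun z : ℂ => G (x, p₀ + z)) (D x) 0 := by
            have e2 := hline x (p₀ + 0)
            rw [add_zero] at e2
            have e3 : HasDerivAt (fun z : ℂ => p₀ + z) 1 0 := by
              simpa using (hasDerivAt_id (0 : ℂ)).const_add p₀
            have e2' : HasDerivAt (fun p : ℂ => G (x, p)) (fderiv ℂ G (x, p₀) (0, 1))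
                ((fun z : ℂ => p₀ + z) 0) := by simpa using e2
            have e4 := HasDerivAt.comp (0 : ℂ) e2' e3
            simpa [hD, Function.comp_def] using e4
          have e5 := (e1.sub_const (G (x, p₀))).mul_const (D x)⁻¹
          have e6 : D x * (D x)⁻¹ = 1 := mul_inv_cancel₀ hx
          rw [e6] at e5
          exact e5.deriv)
  set w : V → ℂ := fun x => -(G (x, p₀)) * (D x)⁻¹ with hw
  have hx₀N : x₀ ∈ N := hKN rfl
  have hwd : DifferentiableOn ℂ w B := by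
    refine DifferentiableOn.mul ?_ (DifferentiableOn.inv hDd.differentiableOn fun x hx => hx)
    have e2 : Differentiable ℂ fun x : V => G (x, p₀) :=
      hGd.comp (differentiable_id.prodMk (differentiable_const _))
    exact e2.neg.differentiableOn
  have hw0 : w x₀ = 0 := by simp [hw, h0]
  have hwc : ContinuousAt w x₀ := (hwd.differentiableAt (hBo.mem_nhds hD0)).continuousAt
  have hev : ∀ᶠ x in 𝓝 x₀, ‖w x‖ < r ∧ x ∈ N := by
    refine (hwc.norm.eventually_lt continuousAt_const ?_).and (hNo.mem_nhds hx₀N)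
    rw [hw0, norm_zero]; exact hr
  obtain ⟨ρ, hρ, hball⟩ := Metric.eventually_nhds_iff_ball.1 hev
  refine ⟨ρ, fun x => p₀ + ω x (w x), hρ, ?_, ?_, ?_⟩
  · refine (differentiableOn_const _).add ?_
    have e1 : DifferentiableOn ℂ (fun x : V => (x, w x)) (ball x₀ ρ) :=
      differentiableOn_id.prodMk (hwd.mono fun x hx => hNB (hball x hx).2)
    exact hωd.comp e1 fun x hx => ⟨(hball x hx).2, by
      rw [mem_ball_zero_iff]; exact (hball x hx).1⟩
  · simp only [hw0, (hω x₀ hx₀N).1, add_zero]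
  · intro x hx
    obtain ⟨g1, g2⟩ := hball x hx
    have e1 := ((hω x g2).2.1 (w x) g1).2
    have hDx : D x ≠ 0 := hNB g2
    simp only [hL, hw] at e1 ⊢
    have e2 : (G (x, p₀ + ω x (-(G (x, p₀)) * (D x)⁻¹)) - G (x, p₀)) * (D x)⁻¹ * D x =
        -(G (x, p₀)) * (D x)⁻¹ * D x := by rw [e1]
    rw [mul_assoc, inv_mul_cancel₀ hDx, mul_one, mul_assoc, inv_mul_cancel₀ hDx, mul_one] at e2
    linear_combination e2

end Pool.Agent.Zk23
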