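import Mathlib
import Pool.Agent.Zk23.ALG

/-! A new attracting cycle of high period, for normalised maps. -/

set_option autoImplicit false
set_option maxHeartbeats 800000
set_option linter.unusedVariables false

open Topology Filter Metric Set MeasureTheory
open Pool.Agent.H790R3.RB (CV hF cr ND wr rt Ix yx yc sp pr hc HypTop Attd Sink cr_eq_zero_iff
  cr_smul_left cr_smul_right cr_self cr_comm cr_iter cr_trans WR SP)
open Pool.Agent.W757.RD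
open scoped OnePoint

namespace Pool.Agent.Zk23

theorem fam_contDiff (d : ℕ) : ContDiff ℂ 2 (fam : (Fin (2 * d) → ℂ) → CV d) := by
  rw [contDiff_pi]
  intro p
  unfold fam
  by_cases h : (p.2 : ℕ) < d
  · simp only [h, dif_pos]
    exact contDiff_apply ℂ ℂ _
  · simp only [h, dif_neg, not_false_eq_true]
    exact contDiff_const

theorem G_contDiff (d : ℕ) : ContDiff ℂ 2
    (fun v : ((Fin (2 * d) → ℂ) × ℂ) × ℂ => cr (hF (fam v.1.1) (v.2, 1)) (v.1.2, 1)) := by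
  have h1 : ContDiff ℂ 2 (fun v : ((Fin (2 * d) → ℂ) × ℂ) × ℂ => hF (fam v.1.1) (v.2, 1)) := by
    have h2 : ContDiff ℂ 2 (fun v : ((Fin (2 * d) → ℂ) × ℂ) × ℂ =>
        ((fam v.1.1 : CV d), ((v.2, 1) : ℂ × ℂ))) := by
      refine ContDiff.prodMk ((fam_contDiff d).comp ?_) (ContDiff.prodMk contDiff_snd contDiff_const)
      exact contDiff_fst.comp contDiff_fst
    have h3 := (Pool.Agent.H790R3.RB.hF_contDiff d 2).comp h2
    exact h3
  unfold cr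
  refine ContDiff.sub ?_ ?_
  · exact h1.fst.mul contDiff_const
  · exact h1.snd.mul (contDiff_snd.comp contDiff_fst)

/-- two preimages of a noncritical value -/
theorem two_preim {d : ℕ} (hd : 2 ≤ d) (u : Fin (2 * d) → ℂ) (hu : u ∈ U₀ d) (ζ : ℂ)
    (hcv : ∀ p : ℂ, cr (hF (fam u) (p, 1)) (ζ, 1) = 0 → wr (fam u) (p, 1) ≠ 0) :
    ∃ p p' : ℂ, p ≠ p' ∧ cr (hF (fam u) (p, 1)) (ζ, 1) = 0 ∧
      cr (hF (fam u) (p', 1)) (ζ, 1) = 0 := by
  classical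
  obtain ⟨-, -, -, hNrm, -⟩ := p_FM d hd
  have hN := hNrm u
  set x := fam u with hx
  set R : Polynomial ℂ := ∑ j : Fin (d + 1), Polynomial.monomial (j : ℕ)
    (x (0, j) - ζ * x (1, j)) with hR
  have hev : ∀ z : ℂ, R.eval z = cr (hF x (z, 1)) (ζ, 1) := by
    intro z
    unfold cr hF
    simp only [one_pow, mul_one]
    rw [hR, Polynomial.eval_finsetSum, Finset.sum_mul, ← Finset.sum_sub_distrib]
    refine Finset.sum_congr rfl fun j _ => ?_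
    rw [Polynomial.eval_monomial]
    ring
  have hcoeff : R.coeff d = 1 := by
    rw [hR, Polynomial.finsetSum_coeff, Finset.sum_eq_single (Fin.last d)]
    · rw [Fin.val_last, Polynomial.coeff_monomial, if_pos rfl, hN.1, hN.2]
      ring
    · intro j _ hj
      rw [Polynomial.coeff_monomial, if_neg]
      intro h
      exact hj (Fin.ext h)
    · intro h; exact absurd (Finset.mem_univ _) h
  have hdeg : R.natDegree = d := by
    apply le_antisymm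
    · rw [hR]
      refine Polynomial.natDegree_sum_le_of_forall_le _ _ fun j _ => ?_
      exact (Polynomial.natDegree_monomial_le _).trans (Nat.lt_succ_iff.1 j.2)
    · apply Polynomial.le_natDegree_of_ne_zero
      rw [hcoeff]; exact one_ne_zero
  have hR0 : R ≠ 0 := by
    rintro h0
    rw [h0] at hcoeff
    simp at hcoeff
  obtain ⟨p, hp⟩ := IsAlgClosed.exists_root R (by
    rw [Polynomial.degree_eq_natDegree hR0, hdeg]
    have : d ≠ 0 := by omega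
    exact_mod_cast this)
  obtain ⟨R₁, hR₁⟩ := Polynomial.dvd_iff_isRoot.2 hp
  have hR₁0 : R₁ ≠ 0 := by
    rintro rfl
    rw [mul_zero] at hR₁
    exact hR0 hR₁
  have hdeg1 : R₁.natDegree = d - 1 := by
    have h1 := congrArg Polynomial.natDegree hR₁
    rw [Polynomial.natDegree_mul (Polynomial.X_sub_C_ne_zero p) hR₁0,
      Polynomial.natDegree_X_sub_C, hdeg] at h1
    omega
  obtain ⟨p', hp'⟩ := IsAlgClosed.exists_root R₁ (by
    rw [Polynomial.degree_eq_natDegree hR₁0, hdeg1]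
    have : d - 1 ≠ 0 := by omega
    exact_mod_cast this)
  have e1 : cr (hF x (p, 1)) (ζ, 1) = 0 := by rw [← hev]; exact hp
  have e2 : cr (hF x (p', 1)) (ζ, 1) = 0 := by
    rw [← hev, hR₁, Polynomial.eval_mul, hp', mul_zero]
  refine ⟨p, p', ?_, e1, e2⟩
  rintro rfl
  have h3 := preim_deriv hd x p ζ (fun h => one_ne p (hu.1 _ h)) (hcv p e1) e1
  apply h3
  have e : (fun z : ℂ => cr (hF x (z, 1)) (ζ, 1)) = fun z => R.eval z := by
    funext z; rw [hev]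
  rw [e, Polynomial.deriv, hR₁, Polynomial.derivative_mul, Polynomial.eval_add,
    Polynomial.eval_mul, Polynomial.eval_mul, hp']
  simp

/-- the sphere map and cross products -/
theorem sp_key {d : ℕ} (hd : 2 ≤ d) {x : CV d} (hx : ND x) (a b : ℂ) (m : ℕ) :
    cr ((hF x)^[m] (a, 1)) (b, 1) = 0 ↔ (sp x)^[m] ((a : ℂ) : OnePoint ℂ) = ((b : ℂ) : OnePoint ℂ) := by
  obtain ⟨hfc, hit, hcr, hhc, hprc⟩ := SP d x (by omega) hx
  rw [← hcr _ _ (hx.iter_ne m (one_ne a)) (one_ne b), ← hit _ (one_ne a),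
    Pool.Agent.W586.RESMK.pr_one, Pool.Agent.W586.RESMK.pr_one]

/-- entering a disc of another system about the same point -/
theorem trans_inC {d n n' s s' : ℕ} (S : Sys d n s) (S' : Sys d n' s') {q : Fin n → ℂ}
    {q' : Fin n' → ℂ} (hq : q ∈ S.U) (hF' : S.F q = S'.F q') (k : Fin s) (k' : Fin s')
    (hb : S'.b k' q' = S.b k q) {p : ℂ × ℂ} {m : ℕ} (h : S.InC k q ((S.F q)^[m] p)) :
    ∃ m' : ℕ, S'.InC k' q' ((S'.F q')^[m'] p) := by
  obtain ⟨m', -, a, z, ha, hz, he⟩ := late S hq k h 0 (S'.r₀ k') (S'.hr₀ k')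
  refine ⟨m', a, z, ha, hz, ?_⟩
  rw [← hF', he]
  unfold Sys.cht
  rw [hb]

/-- marking an additional superattracting cycle -/
theorem mk_snoc {d s : ℕ} {S : Sys d (2 * d + s) s} (hE : Ext S) {q : Fin (2 * d + s) → ℂ}
    (hq : q ∈ S.U) (ζ : ℂ) (hw : wr (fam (xp q)) (ζ, 1) = 0) (n : ℕ) (hn : 1 ≤ n)
    (hper : cr ((hF (fam (xp q)))^[n] (ζ, 1)) (ζ, 1) = 0) (N₀ : ℕ)
    (hN₀ : ∀ j : ℕ, 1 ≤ j → j ≤ N₀ → cr ((hF (fam (xp q)))^[j] (ζ, 1)) (ζ, 1) ≠ 0)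
    (hSN : ∀ k, S.per k ≤ N₀) :
    ∃ N₁ : ℕ, N₀ < N₁ ∧ Mk (xp q) (s + 1) (Fin.snoc (α := fun _ => ℕ) S.per N₁)
      (Fin.snoc (α := fun _ => ℂ) (fun k => S.b k q) ζ) := by
  have hd := S.hd
  have hU := hE.U q hq
  have hMk := Pool.Agent.W757.RD.SEL.mk_of p_LAM hE hq
  set x := fam (xp q) with hx
  set f := sp x with hf
  have key := fun a b m => sp_key hd hU.1 a b m
  have hζp : f^[n] ((ζ : ℂ) : OnePoint ℂ) = ((ζ : ℂ) : OnePoint ℂ) := (key ζ ζ n).1 hper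
  have hIP : Function.IsPeriodicPt f n ((ζ : ℂ) : OnePoint ℂ) := hζp
  set N₁ : ℕ := Function.minimalPeriod f ((ζ : ℂ) : OnePoint ℂ) with hN₁
  have hN₁0 : 0 < N₁ := hIP.minimalPeriod_pos hn
  have hN₁p : f^[N₁] ((ζ : ℂ) : OnePoint ℂ) = ((ζ : ℂ) : OnePoint ℂ) :=
    Function.isPeriodicPt_minimalPeriod f _
  have hN₁N : N₀ < N₁ := by
    by_contra hcon
    push Not at hcon
    exact hN₀ N₁ hN₁0 hcon ((key ζ ζ N₁).2 hN₁p)
  have hb : ∀ k, f^[S.per k] ((S.b k q : ℂ) : OnePoint ℂ) = ((S.b k q : ℂ) : OnePoint ℂ) :=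
    fun k => (key _ _ _).1 (hMk.cyc k)
  have hno : ∀ k, ∀ m : ℕ, f^[m] ((S.b k q : ℂ) : OnePoint ℂ) ≠ ((ζ : ℂ) : OnePoint ℂ) := by
    intro k m h
    have h1 : f^[S.per k] ((ζ : ℂ) : OnePoint ℂ) = ((ζ : ℂ) : OnePoint ℂ) := by
      rw [← h, ← Function.iterate_add_apply, add_comm, Function.iterate_add_apply, hb]
    exact hN₀ (S.per k) (S.hper k) (hSN k) ((key ζ ζ _).2 h1)
  have hno' : ∀ k, ∀ m : ℕ, f^[m] ((ζ : ℂ) : OnePoint ℂ) ≠ ((S.b k q : ℂ) : OnePoint ℂ) := by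
    intro k m h
    apply hno k (N₁ * m - m)
    rw [← h, ← Function.iterate_add_apply]
    have e : N₁ * m - m + m = N₁ * m := by
      have : m ≤ N₁ * m := Nat.le_mul_of_pos_left m hN₁0
      omega
    rw [e, Function.iterate_mul]
    exact Function.iterate_fixed hN₁p m
  refine ⟨N₁, hN₁N, hU, ?_, ?_, ?_, ?_⟩
  · intro k
    refine Fin.lastCases ?_ (fun i => ?_) k
    · rw [Fin.snoc_last]; exact hN₁0
    · rw [Fin.snoc_castSucc]; exact S.hper i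
  · intro k
    refine Fin.lastCases ?_ (fun i => ?_) k
    · rw [Fin.snoc_last, Fin.snoc_last]
      exact (key ζ ζ N₁).2 hN₁p
    · rw [Fin.snoc_castSucc, Fin.snoc_castSucc]
      exact hMk.cyc i
  · intro k
    refine Fin.lastCases ?_ (fun i => ?_) k
    · rw [Fin.snoc_last, Fin.snoc_last]
      have h1 : ((hF x)^[N₁] (ζ, 1)).2 ≠ 0 := by
        intro h2
        have h3 : cr ((hF x)^[N₁] (ζ, 1)) (ζ, 1) = 0 := (key ζ ζ N₁).2 hN₁p
        unfold cr at h3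
        rw [h2, zero_mul, sub_zero, mul_one] at h3
        exact hU.1.iter_ne N₁ (one_ne ζ) (Prod.ext h3 h2)
      rw [rt_deriv_zero hd x N₁ hN₁0 ζ hw h1, norm_zero]
      exact one_pos
    · rw [Fin.snoc_castSucc, Fin.snoc_castSucc]
      exact hMk.mul i
  · intro k k' m
    refine Fin.lastCases ?_ (fun i => ?_) k
    · refine Fin.lastCases ?_ (fun i' => ?_) k'
      · rw [Fin.snoc_last, Fin.snoc_last]
        intro h
        exact ⟨rfl, Function.IsPeriodicPt.minimalPeriod_dvd ((key ζ ζ m).1 h)⟩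
      · rw [Fin.snoc_last, Fin.snoc_castSucc]
        intro h
        exact absurd ((key _ _ _).1 h) (hno' i' m)
    · refine Fin.lastCases ?_ (fun i' => ?_) k'
      · rw [Fin.snoc_last, Fin.snoc_castSucc]
        intro h
        exact absurd ((key _ _ _).1 h) (hno i m)
      · rw [Fin.snoc_castSucc, Fin.snoc_castSucc, Fin.snoc_castSucc]
        intro h
        obtain ⟨h1, h2⟩ := hMk.dis i i' m h
        exact ⟨by rw [h1], h2⟩

variable {β : ℝ} {d : ℕ} {u₀ : Fin (2 * d) → ℂ} {C₂ c₂ ε₂ σ₂ : ℝ} {s : ℕ}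
  {S : Sys d (2 * d + s) s} {q₀ : Fin (2 * d + s) → ℂ} {ζ₀ : ℂ}

/-- holomorphic preimages -/
theorem preim_fun {d : ℕ} (hd : 2 ≤ d) (u : Fin (2 * d) → ℂ) (hu : u ∈ U₀ d) (ζ p : ℂ)
    (hw : wr (fam u) (p, 1) ≠ 0) (h0 : cr (hF (fam u) (p, 1)) (ζ, 1) = 0) :
    ∃ (r : ℝ) (g : (Fin (2 * d) → ℂ) × ℂ → ℂ), 0 < r ∧ DifferentiableOn ℂ g (ball (u, ζ) r) ∧
      g (u, ζ) = p ∧ ∀ w ∈ ball (u, ζ) r, cr (hF (fam w.1) (g w, 1)) (w.2, 1) = 0 := by
  have h1 := preim_deriv hd (fam u) p ζ (fun h0 => one_ne p (hu.1 _ h0)) hw h0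
  obtain ⟨r, g, hr, hg1, hg2, hg3⟩ := ift (V := (Fin (2 * d) → ℂ) × ℂ)
    (fun v : ((Fin (2 * d) → ℂ) × ℂ) × ℂ => cr (hF (fam v.1.1) (v.2, 1)) (v.1.2, 1))
    (G_contDiff d) (u, ζ) p h0 h1
  exact ⟨r, g, hr, hg1, hg2, hg3⟩

/-- nearby maps with a periodic critical point -/
theorem Sit.periodic (h : Sit β d u₀ C₂ c₂ ε₂ σ₂ S q₀ ζ₀)
    (hcv : ∀ p : ℂ, cr (hF (fam (xp q₀)) (p, 1)) (ζ₀, 1) = 0 → wr (fam (xp q₀)) (p, 1) ≠ 0)
    (hnp : cr (hF (fam (xp q₀)) (ζ₀, 1)) (ζ₀, 1) ≠ 0) (ε : ℝ) (hε : 0 < ε) :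
    ∃ w : (Fin (2 * d) → ℂ) × ℂ, ‖w - (xp q₀, ζ₀)‖ < ε ∧ wr (fam w.1) (w.2, 1) = 0 ∧
      ∃ n : ℕ, 1 ≤ n ∧ cr ((hF (fam w.1))^[n] (w.2, 1)) (w.2, 1) = 0 := by
  have hd := S.hd
  have hU := h.ext.U q₀ h.qU
  obtain ⟨ρU, hρU, hballU⟩ := Metric.isOpen_iff.1 (p_FM d hd).1 (xp q₀) hU
  -- the preimages
  obtain ⟨p₂, p₃, hp23, hp2, hp3⟩ := two_preim hd (xp q₀) hU ζ₀ hcv
  have hFne : ∀ p : ℂ, hF (fam (xp q₀)) (p, 1) ≠ 0 := fun p h0 => one_ne p (hU.1 _ h0)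
  obtain ⟨r₂, g₂, hr₂, hg₂d, hg₂0, hg₂⟩ := preim_fun hd (xp q₀) hU ζ₀ p₂ (hcv p₂ hp2) hp2
  obtain ⟨r₃, g₃, hr₃, hg₃d, hg₃0, hg₃⟩ := preim_fun hd (xp q₀) hU ζ₀ p₃ (hcv p₃ hp3) hp3
  have hpζ : ∀ p : ℂ, cr (hF (fam (xp q₀)) (p, 1)) (ζ₀, 1) = 0 → p ≠ ζ₀ := by
    rintro p hp rfl
    exact hnp hp
  have hcrp : ∀ a b : ℂ, a ≠ b → cr ((a, 1) : ℂ × ℂ) (b, 1) ≠ 0 := by
    intro a b hab h0
    unfold cr at h0
    apply hab
    simp only [mul_one, one_mul] at h0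
    linear_combination h0
  have hpb : ∀ k, S.b k q₀ ≠ p₂ := by
    intro k hk
    have hFq : S.F q₀ = hF (fam (xp q₀)) := by unfold Sys.F; rw [h.ext.co q₀ h.qU]
    obtain ⟨c, hc, he⟩ := (cr_eq_zero_iff (hFne p₂) (one_ne ζ₀)).1 hp2
    obtain ⟨z, z', hz, hz', he'⟩ := S.contr q₀ h.qU k 0 (by simpa using S.hr₀ k)
    rw [norm_zero, mul_zero] at hz'
    have hz0 : z' = 0 := norm_le_zero_iff.1 hz'
    rw [hz0, add_zero, h.ext.co q₀ h.qU, hk] at he'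
    have hP := S.hper k
    have e1 : (hF (fam (xp q₀)))^[S.per k - 1] (c • ((ζ₀, 1) : ℂ × ℂ)) = z • ((p₂, 1) : ℂ × ℂ) := by
      rw [← he, ← Function.iterate_succ_apply, Nat.succ_eq_add_one, Nat.sub_add_cancel hP, he']
    rw [Pool.Agent.H790R3.RB.hF_iter_smul] at e1
    apply h.natt k (S.per k - 1)
    refine ⟨(c ^ (d ^ (S.per k - 1)))⁻¹ * z, 0, mul_ne_zero (inv_ne_zero (pow_ne_zero _ hc)) hz,
      by simpa using S.hr₀ k, ?_⟩
    rw [hFq]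
    unfold Sys.cht
    rw [add_zero, hk, ← smul_smul, ← e1, smul_smul, inv_mul_cancel₀ (pow_ne_zero _ hc), one_smul]
  -- Montel's argument
  obtain ⟨p, hpe0, hpe1, hpe2⟩ : ∃ p : Fin 3 → (Fin (2 * d) → ℂ) × ℂ → ℂ × ℂ,
      (p 0 = fun w => (w.2, 1)) ∧ (p 1 = fun w => (g₂ w, 1)) ∧ (p 2 = fun w => (g₃ w, 1)) :=
    ⟨![fun w => (w.2, 1), fun w => (g₂ w, 1), fun w => (g₃ w, 1)], rfl, rfl, rfl⟩
  obtain ⟨w, hw, hwc, n, hn, i, hi⟩ := act S h.ext q₀ h.qU ζ₀ h.crit h.natt 1 (h.approx 1) p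
    (min r₂ r₃) (lt_min hr₂ hr₃) (by
      intro i
      have hi : i = 0 ∨ i = 1 ∨ i = 2 := by
        fin_cases i <;> simp
      rcases hi with rfl | rfl | rfl
      · rw [hpe0]
        exact (differentiable_snd.prodMk (differentiable_const _)).differentiableOn
      · rw [hpe1]
        exact (hg₂d.mono (ball_subset_ball (min_le_left _ _))).prodMk (differentiableOn_const _)
      · rw [hpe2]
        exact (hg₃d.mono (ball_subset_ball (min_le_right _ _))).prodMk (differentiableOn_const _))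
    (by rw [hpe0, hpe1]; simp only [hg₂0]; exact hcrp _ _ (hpζ p₂ hp2).symm)
    (by rw [hpe2, hpe1]; simp only [hg₂0, hg₃0]; exact hcrp _ _ hp23.symm)
    (by rw [hpe2, hpe0]; simp only [hg₃0]; exact hcrp _ _ (hpζ p₃ hp3))
    (by intro k; rw [hpe1]; simp only [hg₂0]; exact hcrp _ _ (hpb k))
    (min (min ε ρU) (min r₂ r₃)) (lt_min (lt_min hε hρU) (lt_min hr₂ hr₃))
  have hw1 := hw.trans_le (min_le_left _ _)
  have hw2 := hw.trans_le (min_le_right _ _)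
  have hwr2 : w ∈ ball (xp q₀, ζ₀) r₂ := by
    rw [mem_ball, dist_eq_norm]; exact hw2.trans_le (min_le_left _ _)
  have hwr3 : w ∈ ball (xp q₀, ζ₀) r₃ := by
    rw [mem_ball, dist_eq_norm]; exact hw2.trans_le (min_le_right _ _)
  have hUw : w.1 ∈ U₀ d := hballU (by
    rw [mem_ball, dist_eq_norm]
    exact lt_of_le_of_lt (norm_fst_le (w - (xp q₀, ζ₀))) (hw1.trans_le (min_le_right _ _)))
  have hne : ∀ m : ℕ, (hF (fam w.1))^[m] (w.2, 1) ≠ 0 := fun m => hUw.1.iter_ne m (one_ne _)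
  refine ⟨w, hw1.trans_le (min_le_left _ _), hwc, ?_⟩
  have hstep : ∀ g : ℂ, cr ((hF (fam w.1))^[n] (w.2, 1)) (g, 1) = 0 →
      cr (hF (fam w.1) (g, 1)) (w.2, 1) = 0 →
      ∃ n' : ℕ, 1 ≤ n' ∧ cr ((hF (fam w.1))^[n'] (w.2, 1)) (w.2, 1) = 0 := by
    intro g h1 h2
    refine ⟨n + 1, by omega, ?_⟩
    rw [Function.iterate_succ_apply']
    have h3 := cr_iter (fam w.1) 1 (hne n) (one_ne g) h1
    simp only [Function.iterate_one] at h3
    exact cr_trans (fun h0 => one_ne g (hUw.1 _ h0)) h3 h2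
  have hi3 : i = 0 ∨ i = 1 ∨ i = 2 := by
    fin_cases i <;> simp
  rcases hi3 with rfl | rfl | rfl
  · rw [hpe0] at hi
    exact ⟨n, hn, hi⟩
  · rw [hpe1] at hi
    exact hstep (g₂ w) hi (hg₂ w hwr2)
  · rw [hpe2] at hi
    exact hstep (g₃ w) hi (hg₃ w hwr3)

/-- A new attracting cycle of high period. -/
theorem Sit.newsink (h : Sit β d u₀ C₂ c₂ ε₂ σ₂ S q₀ ζ₀)
    (hcv : ∀ p : ℂ, cr (hF (fam (xp q₀)) (p, 1)) (ζ₀, 1) = 0 → wr (fam (xp q₀)) (p, 1) ≠ 0)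
    (hnp : ∀ j : ℕ, 1 ≤ j → cr ((hF (fam (xp q₀)))^[j] (ζ₀, 1)) (ζ₀, 1) ≠ 0)
    (N₀ : ℕ) (ε : ℝ) (hε : 0 < ε) :
    ∃ N₁ : ℕ, N₀ < N₁ ∧
      Concl S q₀ ζ₀ (Fin.snoc (α := fun _ => ℕ) S.per N₁) Fin.castSucc (Fin.last s) ε := by
  classical
  have hd := S.hd
  have hU := h.ext.U q₀ h.qU
  obtain ⟨δ', ρt, hδ', hδ'ε, hδ'r, hρt, hcirc⟩ := circ_of S h.ext q₀ h.qU univ ζ₀ ε hε
  set ρ : ℝ := min σ₂ (ρt / 2) with hρ
  have hρ0 : 0 < ρ := lt_min h.cst.σ (by linarith)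
  have hρ1 : ρ ≤ ρt / 2 := min_le_right _ _
  -- the small number
  obtain ⟨a, ha0, ha1, ha2, ha3⟩ : ∃ a : ℝ, 0 < a ∧ a < ε₂ ∧ a < c₂ * ρ ^ 2 ∧
      C₂ * Real.sqrt a + a < ε / 2 := by
    have hc : Continuous fun t : ℝ => C₂ * Real.sqrt t + t := by fun_prop
    have h1 : ∀ᶠ t : ℝ in 𝓝 0, C₂ * Real.sqrt t + t < ε / 2 := by
      refine (hc.tendsto 0).eventually_lt_const ?_
      simpa using hε
    have h2 : ∀ᶠ t : ℝ in 𝓝 0, t < ε₂ := eventually_lt_nhds h.cst.ε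
    have h3 : ∀ᶠ t : ℝ in 𝓝 0, t < c₂ * ρ ^ 2 :=
      eventually_lt_nhds (mul_pos h.cst.c (by positivity))
    obtain ⟨t, ⟨⟨ht1, ht2⟩, ht3⟩, ht0⟩ := (((h1.and h2).and h3).filter_mono
      nhdsWithin_le_nhds |>.and (self_mem_nhdsWithin : Ioi (0 : ℝ) ∈ 𝓝[>] (0 : ℝ))).exists
    exact ⟨t, ht0, ht2, ht3, ht1⟩
  -- open conditions
  have hxc : ContinuousAt (fun q : Fin (2 * d + s) → ℂ => xp q) q₀ := xp_cont.continuousAt
  have e0 : ∀ᶠ q in 𝓝 q₀, q ∈ S.U := S.hU.mem_nhds h.qU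
  have e1 : ∀ᶠ q in 𝓝 q₀, mu β (S.KS q) ≤ ENNReal.ofReal (0 + a) :=
    ev_KS h.hβ h.hβ1 S h.qU le_rfl (by rw [h.area]; exact zero_le) a ha0
  have e2 : ∀ᶠ q in 𝓝 q₀, ‖xp q - u₀‖ < σ₂ :=
    (hxc.sub continuousAt_const).norm.eventually_lt continuousAt_const h.near
  have e3 : ∀ᶠ q in 𝓝 q₀, ‖xp q - xp q₀‖ + ρ < ρt := by
    refine ((hxc.sub continuousAt_const).norm.add continuousAt_const).eventually_lt
      continuousAt_const ?_
    show ‖xp q₀ - xp q₀‖ + ρ < ρt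
    rw [sub_self, norm_zero]; linarith
  have e4 : ∀ᶠ q in 𝓝 q₀, ‖xp q - xp q₀‖ < ε / 2 :=
    (hxc.sub continuousAt_const).norm.eventually_lt continuousAt_const (by simpa using hε)
  have e5 : ∀ᶠ q in 𝓝 q₀, ∀ j : Fin 2, ∃ k, ∃ m : ℕ, S.InC k q ((S.F q)^[m] (bz j, 1)) := by
    refine eventually_all.2 fun j => ?_
    obtain ⟨k, m, hkm⟩ := h.base j
    have h1 := ev_inC_pt S h.qU hkm
    have h2 : Tendsto (fun q : Fin (2 * d + s) → ℂ => (q, (bz j : ℂ))) (𝓝 q₀)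
        (𝓝 (q₀, (bz j : ℂ))) := (Continuous.prodMk continuous_id continuous_const).tendsto _
    exact (h2.eventually h1).mono fun q hq => ⟨k, m, hq⟩
  have e6 : ∀ᶠ q in 𝓝 q₀, ∀ k, ‖S.b k q - S.b k q₀‖ < δ' / 2 := by
    refine eventually_all.2 fun k => ?_
    have hbc : ContinuousAt (S.b k) q₀ :=
      ((S.hb k).differentiableAt (S.hU.mem_nhds h.qU)).continuousAt
    refine (hbc.sub continuousAt_const).norm.eventually_lt continuousAt_const ?_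
    show ‖S.b k q₀ - S.b k q₀‖ < δ' / 2
    rw [sub_self, norm_zero]; linarith
  obtain ⟨ε', hε', hball⟩ := Metric.eventually_nhds_iff.1
    (e0.and (e1.and (e2.and (e3.and (e4.and (e5.and e6))))))
  -- no small periods
  set N₂ : ℕ := N₀ + ∑ k, S.per k with hN₂
  have hSN : ∀ k, S.per k ≤ N₂ := by
    intro k
    have : S.per k ≤ ∑ k, S.per k :=
      Finset.single_le_sum (f := fun k => S.per k) (fun k _ => Nat.zero_le _) (Finset.mem_univ k)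
    omega
  have hevp : ∀ᶠ w : (Fin (2 * d) → ℂ) × ℂ in 𝓝 (xp q₀, ζ₀), ∀ j ∈ Finset.Icc 1 N₂,
      cr ((hF (fam w.1))^[j] (w.2, 1)) (w.2, 1) ≠ 0 := by
    rw [Filter.eventually_all_finset]
    intro j hj
    have hc : Continuous fun w : (Fin (2 * d) → ℂ) × ℂ =>
        cr ((hF (fam w.1))^[j] (w.2, 1)) (w.2, 1) := by
      have h1 := (hFf_diff hd j).continuous
      unfold cr
      exact (h1.fst.mul continuous_const).sub (h1.snd.mul continuous_snd)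
    exact hc.continuousAt.eventually_ne (hnp j (Finset.mem_Icc.1 hj).1)
  obtain ⟨ε'', hε'', hball'⟩ := Metric.eventually_nhds_iff.1 hevp
  obtain ⟨w, hw, hwc, n', hn', hper⟩ := h.periodic hcv (by
      have := hnp 1 le_rfl
      simpa only [Function.iterate_one] using this) (min (min ε' ε'') δ')
    (lt_min (lt_min hε' hε'') hδ')
  have hw1 := hw.trans_le (min_le_left _ _)
  have hwδ := hw.trans_le (min_le_right _ _)
  have hwe' := hw1.trans_le (min_le_left _ _)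
  have hwe'' := hw1.trans_le (min_le_right _ _)
  set q : Fin (2 * d + s) → ℂ := Fin.append w.1 (bp q₀) with hq
  have hxq : xp q = w.1 := xp_app _ _
  obtain ⟨f0, f1, f2, f3, f4, f5, f6⟩ := hball (y := q) (by
    rw [dist_eq_norm]
    exact lt_of_le_of_lt (append_near _ _)
      (lt_of_le_of_lt (norm_fst_le (w - (xp q₀, ζ₀))) hwe'))
  have hnosmall := hball' (y := w) (by rw [dist_eq_norm]; exact hwe'')
  obtain ⟨N₁, hN₁, hMk⟩ := mk_snoc h.ext f0 w.2 (by rw [hxq]; exact hwc) n' hn'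
    (by rw [hxq]; exact hper) N₂ (by
      intro j hj1 hj2
      rw [hxq]
      exact hnosmall j (Finset.mem_Icc.2 ⟨hj1, hj2⟩)) hSN
  refine ⟨N₁, by omega, ?_⟩
  -- the extended system
  obtain ⟨S', q', hE', hper', hq'U, hxq', -, hbq', -⟩ := p_MARK d {xp q} hd isCompact_singleton
    (by simpa using h.ext.U q f0) (xp q) (mem_singleton _) (s + 1) _ _ hMk
  have hFF : S.F q = S'.F q' := by
    unfold Sys.F
    rw [h.ext.co q f0, hE'.co q' hq'U, hxq']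
  have hbold : ∀ k : Fin s, S'.b k.castSucc q' = S.b k q := by
    intro k
    rw [hbq' k.castSucc, Fin.snoc_castSucc]
  have hbnew : S'.b (Fin.last s) q' = w.2 := by
    rw [hbq' (Fin.last s), Fin.snoc_last]
  have hperold : ∀ k : Fin s, S'.per k.castSucc = S.per k := by
    intro k
    rw [hper', Fin.snoc_castSucc]
  have hbase : ∀ j : Fin 2, ∃ k, ∃ m : ℕ, S'.InC k q' ((S'.F q')^[m] (bz j, 1)) := by
    intro j
    obtain ⟨k, m, hkm⟩ := f5 j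
    obtain ⟨m', hm'⟩ := trans_inC S S' f0 hFF k k.castSucc (hbold k) hkm
    exact ⟨_, m', hm'⟩
  have hKS : S'.KS q' ⊆ S.KS q := by
    intro ζ hζ k m hkm
    obtain ⟨m', hm'⟩ := trans_inC S S' f0 hFF k k.castSucc (hbold k) hkm
    exact hζ _ _ hm'
  have hcirc' : Circ S'.per (xp q₀) ρt (Fin.snoc (α := fun _ => ℂ) (fun k => S.b k q₀) 0)
      (range Fin.castSucc) univ ζ₀ δ' := by
    refine ⟨?_, hcirc.c⟩
    rintro u hu k ⟨k', rfl⟩ b hb
    rw [Fin.snoc_castSucc] at hb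
    rw [hperold]
    exact hcirc.b u hu k' (mem_univ _) b hb
  obtain ⟨S'', ks', ls', z, k1, k2, k3, k4, k5, k6⟩ := near_core h.hβ h.hβ1 h.cst hρ0
    (min_le_left _ _) S' hE' q' hq'U (by rw [hxq']; exact f2) hbase a ha0.le ha1 ha2
    ((measure_mono hKS).trans (by rw [zero_add] at f1; exact f1))
    (xp q₀) ρt (Fin.snoc (α := fun _ => ℂ) (fun k => S.b k q₀) 0) (range Fin.castSucc) ζ₀ δ' hcirc'
    (by rw [hxq']; exact f3)
    (by
      rintro k ⟨k', rfl⟩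
      rw [Fin.snoc_castSucc, hbold]
      exact (f6 k').trans (by linarith)) (some (w.2, Fin.last s, 0)) (by
      intro x hx
      have hxx : x = (w.2, Fin.last s, 0) := by simpa using hx.symm
      subst hxx
      refine ⟨?_, ?_, lt_of_le_of_lt (norm_snd_le (w - (xp q₀, ζ₀))) hwδ⟩
      · rw [hE'.co q' hq'U, hxq', hxq]
        exact hwc
      · refine ⟨1, 0, one_ne_zero, by simpa using S'.hr₀ _, ?_⟩
        simp only [Function.iterate_zero, id, one_smul]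
        unfold Sys.cht
        rw [hbnew, add_zero]) a ha0
  refine ⟨S'', ks', ls', z, k1, k2.trans hper', k3, ?_, ?_, ?_⟩
  · rw [hxq'] at k4
    calc ‖xp (yx z) - xp q₀‖ = ‖(xp (yx z) - xp q) + (xp q - xp q₀)‖ := by congr 1; abel
      _ ≤ ‖xp (yx z) - xp q‖ + ‖xp q - xp q₀‖ := norm_add_le _ _
      _ < ε := by linarith
  · intro k
    have h1 := k5 k.castSucc ⟨k, rfl⟩
    rw [Fin.snoc_castSucc] at h1
    exact lt_of_le_of_lt h1 hδ'ε
  · obtain ⟨i, hi1, hi2⟩ := k6 (w.2, Fin.last s, 0) rfl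
    exact ⟨i, hi1, lt_of_le_of_lt hi2 hδ'ε⟩

end Pool.Agent.Zk23
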