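import Mathlib
import Pool.Agent.Zk23.CNORM

/-! Sphere level: sinks, captured critical points, counting of the sinks. -/

set_option autoImplicit false
set_option maxHeartbeats 400000
set_option linter.unusedVariables false

open Topology Filter Metric Set MeasureTheory
open Pool.Agent.H790R3.RB (CV hF cr ND wr rt Ix yx yc sp pr hc HypTop Attd Sink cr_eq_zero_iff
  cr_smul_left cr_smul_right cr_self cr_comm WR SP)
open Pool.Agent.W757.RD
open Pool.Agent.W440.RE.TOP (pr_some Dk Dk_nhds iter_chart tend_chart pr_smul cht_ne_zero)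
open scoped OnePoint

namespace Pool.Agent.Zk23

variable {d n s : ℕ}

/-! ### General dynamics on the sphere -/

section gen

variable {f : OnePoint ℂ → OnePoint ℂ}

/-- `c` is attracted by the cycle of the point `a`, which is fixed by the `m`-th iterate -/
def Cap (f : OnePoint ℂ → OnePoint ℂ) (m : ℕ) (a c : OnePoint ℂ) : Prop :=
  ∃ i : ℕ, Tendsto (fun j : ℕ => f^[m * j] (f^[i] c)) atTop (𝓝 a)

theorem iter_comm (f : OnePoint ℂ → OnePoint ℂ) (a b : ℕ) (z : OnePoint ℂ) :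
    f^[a] (f^[b] z) = f^[b] (f^[a] z) := by
  rw [← Function.iterate_add_apply, ← Function.iterate_add_apply, add_comm]

theorem same_cycle (hf : Continuous f) {m m' : ℕ} {a b c : OnePoint ℂ} (hm : 0 < m)
    (ha : f^[m] a = a) (hm' : 0 < m') (hc : Cap f m a c) (hc' : Cap f m' b c) :
    ∃ j : ℕ, a = f^[j] b := by
  obtain ⟨i, hi⟩ := hc
  obtain ⟨i', hi'⟩ := hc'
  have h1 : Tendsto (fun j : ℕ => f^[i'] (f^[m * (m' * j)] (f^[i] c))) atTop (𝓝 (f^[i'] a)) :=
    ((hf.iterate i').tendsto a).comp (hi.comp (tendsto_id.const_mul_atTop' hm'))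
  have h2 : Tendsto (fun j : ℕ => f^[i] (f^[m' * (m * j)] (f^[i'] c))) atTop (𝓝 (f^[i] b)) :=
    ((hf.iterate i).tendsto b).comp (hi'.comp (tendsto_id.const_mul_atTop' hm))
  have h3 : (fun j : ℕ => f^[i'] (f^[m * (m' * j)] (f^[i] c))) =
      fun j : ℕ => f^[i] (f^[m' * (m * j)] (f^[i'] c)) := by
    funext j
    rw [← Function.iterate_add_apply, ← Function.iterate_add_apply, ← Function.iterate_add_apply,
      ← Function.iterate_add_apply]
    congr 1
    ring
  rw [h3] at h1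
  have h4 : f^[i'] a = f^[i] b := tendsto_nhds_unique h1 h2
  obtain ⟨j, hj⟩ := Pool.Agent.H790R3.RB.INF.back hm ha h4
  exact ⟨j + i, by rw [Function.iterate_add_apply, hj]⟩

theorem sink_fwd (hf : Continuous f) {m : ℕ} {a : OnePoint ℂ} (h : Sink f m a) (j : ℕ) :
    Sink f m (f^[j] a) := by
  obtain ⟨hm, ha, U, hU, hV⟩ := h
  have hmj : j ≤ m * j := Nat.le_mul_of_pos_left j hm
  have hfix : ∀ i : ℕ, f^[m * i] a = a := fun i => by
    rw [Function.iterate_mul]; exact Function.iterate_fixed ha i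
  have hback : f^[m * j - j] (f^[j] a) = a := by
    rw [← Function.iterate_add_apply, Nat.sub_add_cancel hmj, hfix]
  refine ⟨hm, by rw [iter_comm, ha], f^[m * j - j] ⁻¹' U, ?_, ?_⟩
  · refine (hf.iterate _).continuousAt.preimage_mem_nhds ?_
    rw [hback]; exact hU
  · intro V hVn
    have h1 : f^[j] ⁻¹' V ∈ 𝓝 a := (hf.iterate j).continuousAt.preimage_mem_nhds hVn
    have h2 := (tendsto_sub_atTop_nat j).eventually (hV _ h1)
    filter_upwards [h2, eventually_ge_atTop j] with k hk hjk w hw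
    have h3 := hk _ hw
    rw [mem_preimage, ← Function.iterate_add_apply, ← Function.iterate_add_apply] at h3
    have h4 : j + m * (k - j) + (m * j - j) = m * k := by
      obtain ⟨i, rfl⟩ := Nat.exists_eq_add_of_le hjk
      rw [Nat.add_sub_cancel_left, mul_add]
      omega
    rwa [← h4]

theorem sink_mul {n m : ℕ} {a : OnePoint ℂ} (h : Sink f n a) (hm : 0 < m) (hnm : n ∣ m) :
    Sink f m a := by
  obtain ⟨l, rfl⟩ := hnm
  obtain ⟨hn, ha, U, hU, hV⟩ := h
  have hl : 0 < l := Nat.pos_of_mul_pos_left hm |> fun _ => by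
    rcases Nat.eq_zero_or_pos l with h0 | h0
    · rw [h0, mul_zero] at hm; omega
    · exact h0
  refine ⟨hm, by rw [Function.iterate_mul]; exact Function.iterate_fixed ha l, U, hU, ?_⟩
  intro V hVn
  have h1 := (tendsto_id.const_mul_atTop' hl).eventually (hV V hVn)
  filter_upwards [h1] with k hk w hw
  have := hk w hw
  simp only [id] at this
  rwa [mul_assoc]

theorem cap_self (f : OnePoint ℂ → OnePoint ℂ) {m : ℕ} {a : OnePoint ℂ} (ha : f^[m] a = a) :
    Cap f m a a := by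
  refine ⟨0, ?_⟩
  have : (fun j : ℕ => f^[m * j] (f^[0] a)) = fun _ => a := by
    funext j
    rw [Function.iterate_mul]
    exact Function.iterate_fixed ha j
  rw [this]
  exact tendsto_const_nhds

theorem cap_of_attd {m : ℕ} {a z : OnePoint ℂ}
    (h : Tendsto (fun k : ℕ => f^[m * k] z) atTop (𝓝 a)) : Cap f m a z := ⟨0, h⟩

/-- transport of capture -/
theorem cap_conj {g : OnePoint ℂ → OnePoint ℂ} (h : OnePoint ℂ ≃ₜ OnePoint ℂ)
    (hs : ∀ z, g (h z) = h (f z)) {m : ℕ} {a c : OnePoint ℂ} (hc : Cap f m a c) :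
    Cap g m (h a) (h c) := by
  obtain ⟨i, hi⟩ := hc
  refine ⟨i, ?_⟩
  have := (h.continuous.tendsto a).comp hi
  refine this.congr fun k => ?_
  simp only [Function.comp]
  rw [Pool.Agent.H790R3.RB.ALL.iter h hs, Pool.Agent.H790R3.RB.ALL.iter h hs]

/-- transport of local injectivity -/
theorem inj_conj {g : OnePoint ℂ → OnePoint ℂ} (h : OnePoint ℂ ≃ₜ OnePoint ℂ)
    (hs : ∀ z, g (h z) = h (f z)) {c : OnePoint ℂ} (hc : ∃ U ∈ 𝓝 c, InjOn f U) :
    ∃ U ∈ 𝓝 (h c), InjOn g U := by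
  obtain ⟨U, hU, hinj⟩ := hc
  refine ⟨h '' U, h.isOpenMap.image_mem_nhds hU, ?_⟩
  rintro _ ⟨u, hu, rfl⟩ _ ⟨v, hv, rfl⟩ huv
  rw [hs, hs] at huv
  rw [hinj hu hv (h.injective huv)]

theorem conj_symm {g : OnePoint ℂ → OnePoint ℂ} (h : OnePoint ℂ ≃ₜ OnePoint ℂ)
    (hs : ∀ z, g (h z) = h (f z)) (z : OnePoint ℂ) : f (h.symm z) = h.symm (g z) := by
  apply h.injective
  rw [h.apply_symm_apply, ← hs, h.apply_symm_apply]

end gen

/-! ### Marked systems -/

theorem sp_cont' {d : ℕ} (hd : 2 ≤ d) {x : CV d} (hx : ND x) : Continuous (sp x) :=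
  (SP d x (by omega) hx).1

/-- the base points are attracting periodic points -/
theorem sink_base (S : Sys d n s) {x : Fin n → ℂ} (hx : x ∈ S.U) (k : Fin s) :
    Sink (sp (S.co x)) (S.per k) ((S.b k x : ℂ) : OnePoint ℂ) := by
  have hd := S.hd
  obtain ⟨hcont, hit, -, hhc, hprc⟩ := SP d (S.co x) (by omega) (S.nd x hx)
  have hb : pr (S.cht k x 0) = ((S.b k x : ℂ) : OnePoint ℂ) := by rw [pr_some, add_zero]
  refine ⟨S.hper k, ?_, Dk S k x, ?_, ?_⟩
  · obtain ⟨z', h1, h2⟩ := iter_chart S hx k hit 1 0 (by rw [norm_zero]; exact S.hr₀ k)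
    rw [norm_zero, mul_zero] at h1
    have h3 : z' = 0 := norm_le_zero_iff.1 h1
    rw [h3, mul_one, hb] at h2
    exact h2
  · rw [← hb]; exact Dk_nhds S k x
  · intro V hV
    have h1 : (fun w : ℂ => (w : OnePoint ℂ)) ⁻¹' V ∈ 𝓝 (S.b k x) :=
      OnePoint.continuous_coe.continuousAt hV
    obtain ⟨ε, hε, hball⟩ := Metric.mem_nhds_iff.1 h1
    have h2 : Tendsto (fun j : ℕ => S.θ ^ j * S.r₀ k) atTop (𝓝 0) := by
      have := (tendsto_pow_atTop_nhds_zero_of_lt_one S.hθ0 S.hθ).mul_const (S.r₀ k)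
      rwa [zero_mul] at this
    filter_upwards [h2.eventually_lt_const hε] with j hj
    rintro w ⟨z, hz, rfl⟩
    obtain ⟨z', hz', he⟩ := iter_chart S hx k hit j z hz
    rw [he, pr_some]
    apply hball
    rw [mem_ball, dist_eq_norm]
    have h3 : S.θ ^ j * ‖z‖ ≤ S.θ ^ j * S.r₀ k :=
      mul_le_mul_of_nonneg_left hz.le (pow_nonneg S.hθ0 j)
    calc ‖S.b k x + z' - S.b k x‖ = ‖z'‖ := by congr 1; ring
      _ ≤ S.θ ^ j * ‖z‖ := hz'
      _ < ε := by linarith

/-- points which enter the discs are captured -/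
theorem cap_of_inC (S : Sys d n s) {x : Fin n → ℂ} (hx : x ∈ S.U) {k : Fin s} {c : OnePoint ℂ}
    {m : ℕ} (h : S.InC k x ((S.F x)^[m] (hc c))) :
    Cap (sp (S.co x)) (S.per k) ((S.b k x : ℂ) : OnePoint ℂ) c := by
  have hd := S.hd
  obtain ⟨hcont, hit, -, hhc, hprc⟩ := SP d (S.co x) (by omega) (S.nd x hx)
  have hb : pr (S.cht k x 0) = ((S.b k x : ℂ) : OnePoint ℂ) := by rw [pr_some, add_zero]
  refine ⟨m, ?_⟩
  rw [← hb]
  refine tend_chart S hx k hit hprc _ ?_
  obtain ⟨a, z, ha, hz, he⟩ := h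
  refine ⟨z, hz, ?_⟩
  have h1 := hit (hc c) (hhc c).2 m
  rw [(hhc c).1] at h1
  rw [h1]
  change pr ((S.F x)^[m] (hc c)) = _
  rw [he, pr_smul ha]

/-- captured points enter the discs -/
theorem inC_of_cap (S : Sys d n s) {x : Fin n → ℂ} (hx : x ∈ S.U) {k : Fin s} {c : OnePoint ℂ}
    (h : Cap (sp (S.co x)) (S.per k) ((S.b k x : ℂ) : OnePoint ℂ) c) :
    ∃ m : ℕ, S.InC k x ((S.F x)^[m] (hc c)) := by
  have hd := S.hd
  obtain ⟨hcont, hit, hcr, hhc, hprc⟩ := SP d (S.co x) (by omega) (S.nd x hx)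
  have hb : pr (S.cht k x 0) = ((S.b k x : ℂ) : OnePoint ℂ) := by rw [pr_some, add_zero]
  obtain ⟨i, hi⟩ := h
  rw [← hb] at hi
  obtain ⟨j, hj⟩ := (hi.eventually (Dk_nhds S k x)).exists
  rw [← Function.iterate_add_apply] at hj
  obtain ⟨z, hz, he⟩ := hj
  refine ⟨S.per k * j + i, ?_⟩
  have h1 := hit (hc c) (hhc c).2 (S.per k * j + i)
  rw [(hhc c).1] at h1
  rw [h1] at he
  have h2 := (S.nd x hx).iter_ne (S.per k * j + i) (hhc c).2
  obtain ⟨a, ha, h3⟩ := (cr_eq_zero_iff h2 (cht_ne_zero S k x z)).1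
    ((hcr _ _ h2 (cht_ne_zero S k x z)).1 he)
  exact ⟨a, z, ha, hz, h3⟩

/-- relations between the marked points -/
theorem base_rel (S : Sys d n s) {x : Fin n → ℂ} (hx : x ∈ S.U) {k k' : Fin s} {m : ℕ}
    (h : (sp (S.co x))^[m] ((S.b k x : ℂ) : OnePoint ℂ) = ((S.b k' x : ℂ) : OnePoint ℂ)) :
    k = k' ∧ S.per k ∣ m := by
  have hnd := S.nd x hx
  have h1 := (sp_key S.hd hnd (S.b k x) (S.b k' x) m).2 h
  obtain ⟨a, ha, h2⟩ := (cr_eq_zero_iff (hnd.iter_ne m (one_ne _)) (one_ne _)).1 h1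
  refine S.sep x hx k k' 0 0 a m (by rw [norm_zero]; exact S.hr₀ k)
    (by rw [norm_zero]; exact S.hr₀ k') ?_
  rw [add_zero, add_zero]
  exact h2

/-- the number of attracting periodic points of period dividing `m` -/
def cnt {s : ℕ} (per : Fin s → ℕ) (m : ℕ) : ℕ :=
  if m = 0 then 0 else ∑ k : Fin s, if per k ∣ m then per k else 0

/-- all attracting cycles are marked -/
def AllM (S : Sys d n s) (x : Fin n → ℂ) : Prop :=
  ∀ (m : ℕ) (a : OnePoint ℂ), Sink (sp (S.co x)) m a →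
    ∃ (k : Fin s) (j : ℕ), a = (sp (S.co x))^[j] ((S.b k x : ℂ) : OnePoint ℂ)

theorem encard_sinks (S : Sys d n s) {x : Fin n → ℂ} (hx : x ∈ S.U) (hall : AllM S x) (m : ℕ) :
    {a | Sink (sp (S.co x)) m a}.encard = cnt S.per m := by
  classical
  set f := sp (S.co x) with hf
  have hcont : Continuous f := sp_cont' S.hd (S.nd x hx)
  unfold cnt
  by_cases hm : m = 0
  · rw [if_pos hm]
    have : {a | Sink f m a} = ∅ := by
      ext a
      simp only [mem_ofPred_eq, mem_empty_iff_false, iff_false]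
      intro h
      exact absurd h.1 (by omega)
    rw [this]
    simp
  rw [if_neg hm]
  have hm0 : 0 < m := Nat.pos_of_ne_zero hm
  let T := Σ k : {k : Fin s // S.per k ∣ m}, Fin (S.per k.1)
  let g : T → OnePoint ℂ := fun t => f^[(t.2 : ℕ)] ((S.b t.1.1 x : ℂ) : OnePoint ℂ)
  have hfix : ∀ k, f^[S.per k] ((S.b k x : ℂ) : OnePoint ℂ) = ((S.b k x : ℂ) : OnePoint ℂ) :=
    fun k => (sink_base S hx k).2.1
  have hset : {a | Sink f m a} = Set.range g := by
    ext a
    constructor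
    · intro ha
      obtain ⟨k, j, rfl⟩ := hall m a ha
      have hdvd : S.per k ∣ m := by
        have h1 : f^[m] (f^[j] ((S.b k x : ℂ) : OnePoint ℂ)) = f^[j] ((S.b k x : ℂ) : OnePoint ℂ) :=
          ha.2.1
        obtain ⟨i, hi⟩ := Pool.Agent.H790R3.RB.INF.back (S.hper k) (hfix k)
          (rfl : f^[j] ((S.b k x : ℂ) : OnePoint ℂ) = _)
        have h2 : f^[m] ((S.b k x : ℂ) : OnePoint ℂ) = ((S.b k x : ℂ) : OnePoint ℂ) := by
          conv_lhs => rw [← hi]
          rw [iter_comm, h1, hi]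
        exact (base_rel S hx h2).2
      refine ⟨⟨⟨k, hdvd⟩, ⟨j % S.per k, Nat.mod_lt _ (S.hper k)⟩⟩, ?_⟩
      show f^[j % S.per k] ((S.b k x : ℂ) : OnePoint ℂ) = _
      exact Function.IsPeriodicPt.iterate_mod_apply (hfix k) j
    · rintro ⟨⟨⟨k, hk⟩, j⟩, rfl⟩
      exact sink_mul (sink_fwd hcont (sink_base S hx k) _) hm0 hk
  have hinj : Function.Injective g := by
    rintro ⟨⟨k, hk⟩, j⟩ ⟨⟨k', hk'⟩, j'⟩ he
    have he' : f^[(j : ℕ)] ((S.b k x : ℂ) : OnePoint ℂ) =
        f^[(j' : ℕ)] ((S.b k' x : ℂ) : OnePoint ℂ) := he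
    have h1 : f^[S.per k' - (j' : ℕ) + (j : ℕ)] ((S.b k x : ℂ) : OnePoint ℂ) =
        ((S.b k' x : ℂ) : OnePoint ℂ) := by
      rw [Function.iterate_add_apply, he', ← Function.iterate_add_apply,
        Nat.sub_add_cancel j'.2.le, hfix]
    obtain ⟨h2, h3⟩ := base_rel S hx h1
    subst h2
    have h4 : (j : ℕ) = (j' : ℕ) := by
      have hj : (j : ℕ) < S.per k := j.2
      have hj' : (j' : ℕ) < S.per k := j'.2
      obtain ⟨q, hq⟩ := h3
      have hq1 : q = 1 := by
        have hq0 : q ≠ 0 := by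
          rintro rfl
          rw [mul_zero] at hq
          omega
        have hq2 : q < 2 := by
          by_contra hcon
          have h5 : S.per k * 2 ≤ S.per k * q := Nat.mul_le_mul_left _ (by omega)
          omega
        omega
      rw [hq1, mul_one] at hq
      omega
    have h5 : j = j' := Fin.ext h4
    rw [h5]
  rw [hset, ← image_univ, hinj.encard_image, encard_univ]
  rw [ENat.card_eq_coe_fintype_card]
  congr 1
  rw [Fintype.card_sigma]
  simp only [Fintype.card_fin]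
  rw [← Finset.sum_filter]
  rw [Finset.sum_subtype (Finset.univ.filter fun k => S.per k ∣ m) (p := fun k => S.per k ∣ m)
    (by intro k; simp) (fun k => S.per k)]

theorem cnt_snoc {s : ℕ} (per : Fin s → ℕ) (N : ℕ) (m : ℕ) :
    cnt (Fin.snoc per N : Fin (s + 1) → ℕ) m =
      cnt per m + if m ≠ 0 ∧ N ∣ m then N else 0 := by
  unfold cnt
  by_cases hm : m = 0
  · simp [hm]
  · simp [hm, Fin.sum_univ_castSucc]

end Pool.Agent.Zk23
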