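import Mathlib
import Pool.Agent.Zk23.SPH

/-! Every attracting cycle of a rational map attracts a critical point. -/

set_option autoImplicit false
set_option maxHeartbeats 400000
set_option linter.unusedVariables false

open Topology Filter Metric Set MeasureTheory
open Pool.Agent.H790R3.RB (CV hF cr ND wr rt Ix yx yc sp pr hc HypTop Attd Sink cr_eq_zero_iff
  cr_smul_left cr_smul_right cr_self cr_comm WR SP INJL)
open Pool.Agent.W757.RD
open Pool.Agent.W440.RE.TOP (pr_some Dk Dk_nhds iter_chart tend_chart pr_smul cht_ne_zero)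
open Pool.Agent.W586.RESMK (pr_one)
open scoped OnePoint

namespace Pool.Agent.Zk23

variable {d n s : ℕ}

theorem wr_of_not_inj {x : CV d} (hd : 2 ≤ d) (hx : ND x) {c : OnePoint ℂ}
    (h : ¬ ∃ U ∈ 𝓝 c, InjOn (sp x) U) : wr x (hc c) = 0 := by
  by_contra hne
  obtain ⟨e1, e2⟩ := (SP d x (by omega) hx).2.2.2.1 c
  obtain ⟨U, hU, hinj⟩ := INJL SP WR d x (hc c) hd hx e2 hne
  rw [e1] at hU
  exact h ⟨U, hU, hinj⟩

theorem fin_crit (hd : 2 ≤ d) {u : Fin (2 * d) → ℂ} (hu : u ∈ U₀ d) {c : ℂ × ℂ} (hc0 : c ≠ 0)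
    (hw : wr (fam u) c = 0) : c.2 ≠ 0 ∧ wr (fam u) (c.1 / c.2, 1) = 0 ∧
      c = c.2 • ((c.1 / c.2, 1) : ℂ × ℂ) ∧ pr c = ((c.1 / c.2 : ℂ) : OnePoint ℂ) := by
  obtain ⟨hW, -, -⟩ := WR d (fam u) hd
  have h2 : c.2 ≠ 0 := by
    intro h2
    have h1 : c.1 ≠ 0 := fun h1 => hc0 (Prod.ext h1 h2)
    have h3 : c = c.1 • ((1, 0) : ℂ × ℂ) := by
      apply Prod.ext
      · simp
      · simp [h2]
    rw [h3, hW] at hw
    rcases mul_eq_zero.1 hw with h4 | h4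
    · exact h1 (by simpa using eq_zero_of_pow_eq_zero h4)
    · exact hu.2 h4
  have h3 : c = c.2 • ((c.1 / c.2, 1) : ℂ × ℂ) := by
    apply Prod.ext
    · simp only [Prod.smul_fst, smul_eq_mul]
      field_simp
    · simp
  refine ⟨h2, ?_, h3, ?_⟩
  · rw [h3, hW] at hw
    rcases mul_eq_zero.1 hw with h4 | h4
    · exact absurd (eq_zero_of_pow_eq_zero h4) h2
    · exact h4
  · exact Pool.Agent.H790R3.RB.SP.pr_ne h2

theorem cap_mul {f : OnePoint ℂ → OnePoint ℂ} {m l : ℕ} {a c : OnePoint ℂ} (hl : 0 < l)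
    (h : Cap f m a c) : Cap f (m * l) a c := by
  obtain ⟨i, hi⟩ := h
  refine ⟨i, ?_⟩
  have h1 := hi.comp (tendsto_id.const_mul_atTop' hl)
  refine h1.congr fun j => ?_
  simp only [Function.comp, id]
  rw [mul_assoc]

/-- Fatou's theorem in the universal family -/
theorem fatou_fam (hd : 2 ≤ d) {u : Fin (2 * d) → ℂ} (hu : u ∈ U₀ d) {m : ℕ} {p : ℂ}
    (hS : Sink (sp (fam u)) m (p : OnePoint ℂ)) :
    ∃ c : ℂ, wr (fam u) (c, 1) = 0 ∧ Cap (sp (fam u)) m (p : OnePoint ℂ) (c : OnePoint ℂ) := by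
  obtain ⟨hcont, hit, hcr, hhc, hprc⟩ := SP d (fam u) (by omega) hu.1
  have hmin := Pool.Agent.H790R3.RB.INF.sink_min hcont hS
  have hG : Pool.Agent.W586.RESMK.Good (sp (fam u)) 1 (fun _ => p) :=
    ⟨fun _ => hmin, fun k k' _ _ => Subsingleton.elim k k'⟩
  have hM := Pool.Agent.W586.RESMK.mk_of_good hd hu hG
  obtain ⟨S, q₀, hE, hper, hqU, hxq, hbq, hb, -⟩ := p_MARK d {u} hd isCompact_singleton
    (by simpa using hu) u (mem_singleton u) 1 _ _ hM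
  have hco : S.co q₀ = fam u := by rw [hE.co q₀ hqU, hxq]
  have hb0 : S.b 0 q₀ = p := hb 0
  obtain ⟨l, hl⟩ : Function.minimalPeriod (sp (fam u)) (p : OnePoint ℂ) ∣ m :=
    Function.IsPeriodicPt.minimalPeriod_dvd hS.2.1
  have hl0 : 0 < l := by
    rcases Nat.eq_zero_or_pos l with h0 | h0
    · rw [h0, mul_zero] at hl
      have := hS.1
      omega
    · exact h0
  by_cases hlam : S.lam 0 q₀ = 0
  · obtain ⟨j, hj⟩ : ∃ j, wr (S.co q₀) ((hF (S.co q₀))^[j] (S.cht 0 q₀ 0)) = 0 := by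
      by_contra hcon
      push Not at hcon
      exact Pool.Agent.W440.RE.LNE.lam_neX S WR q₀ hqU 0 hcon hlam
    have hch : S.cht 0 q₀ 0 = (p, 1) := by
      unfold Sys.cht
      rw [add_zero, hb0]
    rw [hco, hch] at hj
    have hne := hu.1.iter_ne j (one_ne p)
    obtain ⟨h1, h2, h3, h4⟩ := fin_crit hd hu hne hj
    refine ⟨_, h2, ?_⟩
    rw [← h4, ← hit _ (one_ne p), pr_one]
    obtain ⟨i, hi⟩ := Pool.Agent.H790R3.RB.INF.back hS.1 hS.2.1
      (rfl : (sp (fam u))^[j] (p : OnePoint ℂ) = _)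
    refine ⟨i, ?_⟩
    rw [hi]
    have : (fun j : ℕ => (sp (fam u))^[m * j] (p : OnePoint ℂ)) = fun _ => (p : OnePoint ℂ) := by
      funext j
      rw [Function.iterate_mul]
      exact Function.iterate_fixed hS.2.1 j
    rw [this]
    exact tendsto_const_nhds
  · obtain ⟨c, hc0, hcw, M, hM⟩ := p_ONE d _ 1 S q₀ hqU (fun k => by
      rw [Subsingleton.elim k 0]; exact hlam) 0
    rw [hco] at hcw
    obtain ⟨h1, h2, h3, h4⟩ := fin_crit hd hu hc0 hcw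
    refine ⟨_, h2, ?_⟩
    have h5 : S.InC 0 q₀ ((S.F q₀)^[M] (hc ((c.1 / c.2 : ℂ) : OnePoint ℂ))) := by
      obtain ⟨a, z, ha, hz, he⟩ := hM
      have e1 : hc ((c.1 / c.2 : ℂ) : OnePoint ℂ) = (c.1 / c.2, 1) := rfl
      rw [e1]
      rw [h3] at he
      have e2 : (S.F q₀)^[M] (c.2 • ((c.1 / c.2, 1) : ℂ × ℂ)) =
          c.2 ^ (d ^ M) • (S.F q₀)^[M] ((c.1 / c.2, 1) : ℂ × ℂ) :=
        Pool.Agent.H790R3.RB.hF_iter_smul (S.co q₀) M c.2 _
      rw [e2] at he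
      refine ⟨(c.2 ^ (d ^ M))⁻¹ * a, z, mul_ne_zero (inv_ne_zero (pow_ne_zero _ h1)) ha, hz, ?_⟩
      rw [mul_smul, ← he, smul_smul, inv_mul_cancel₀ (pow_ne_zero _ h1), one_smul]
    have h6 := cap_of_inC S hqU h5
    rw [hco, hb0, hper] at h6
    have h7 := cap_mul hl0 h6
    rw [hl]
    exact h7

/-- a normal form of a rational map -/
theorem exists_norm (hd : 2 ≤ d) {x : CV d} (hx : ND x) :
    ∃ (u : Fin (2 * d) → ℂ) (h : OnePoint ℂ ≃ₜ OnePoint ℂ), u ∈ U₀ d ∧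
      (∀ z, sp (fam u) (h z) = h (sp x z)) ∧ ∀ m, ¬ Sink (sp (fam u)) m ∞ := by
  obtain ⟨q, hq, hns⟩ := p_NAF d x hd hx
  have hw : wr x (hc q) ≠ 0 := by
    intro h0
    obtain ⟨δ, hδ, V, hV, H⟩ := p_NAC d x q hd hx hq h0
    exact hns 1 (H x (by rw [sub_self, norm_zero]; exact hδ) q (mem_of_mem_nhds hV) hq)
  obtain ⟨b₁, b₂, u₀, -, -, -, hu₀, -, H⟩ := p_NM d x q hd hx hq hw
  obtain ⟨ε, hε, hball⟩ := Metric.isOpen_iff.1 (p_FM d hd).1 u₀ hu₀
  obtain ⟨C, δ, hC, hδ, V, hV, H1⟩ := H ε hε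
  obtain ⟨u, h, Q, -, -, -, hhq, -, -, hun, hs, -⟩ := H1 x (by rw [sub_self, norm_zero]; exact hδ) q
    (mem_of_mem_nhds hV) hq b₁ b₂ (by rw [sub_self, norm_zero]; exact hδ)
    (by rw [sub_self, norm_zero]; exact hδ)
  have hs1 : ∀ z, sp (fam u) (h z) = h (sp x z) := fun z => (hs z).symm
  refine ⟨u, h, hball (by rw [mem_ball, dist_eq_norm]; exact hun), hs1, fun m hm => hns m ?_⟩
  have h1 := Pool.Agent.H790R3.RB.ALL.sink h.symm (conj_symm h hs1) hm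
  rwa [← hhq, h.symm_apply_apply] at h1

/-- Fatou's theorem: every attracting cycle attracts a critical point. -/
theorem fatou_sink (hd : 2 ≤ d) {x : CV d} (hx : ND x) {m : ℕ} {a : OnePoint ℂ}
    (hS : Sink (sp x) m a) : ∃ c : OnePoint ℂ, wr x (hc c) = 0 ∧ Cap (sp x) m a c := by
  obtain ⟨u, h, hu, hs, hns⟩ := exists_norm hd hx
  have h1 := Pool.Agent.H790R3.RB.ALL.sink h hs hS
  obtain ⟨p, hp⟩ := OnePoint.ne_infty_iff_exists.1 (show h a ≠ ∞ from fun he => hns m (by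
    rw [← he]; exact h1))
  rw [← hp] at h1
  obtain ⟨c, hc1, hc2⟩ := fatou_fam hd hu h1
  refine ⟨h.symm (c : OnePoint ℂ), ?_, ?_⟩
  · refine wr_of_not_inj hd hx fun hinj => ?_
    have h2 := inj_conj h hs hinj
    rw [h.apply_symm_apply] at h2
    exact crit_not_inj hd (fam u) hu.1 c hc1 h2
  · have h2 := cap_conj h.symm (conj_symm h hs) hc2
    rwa [hp, h.symm_apply_apply] at h2

/-- if the marked cycles attract all critical points then all attracting cycles are marked -/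
theorem allM_of_crit (S : Sys d n s) {x : Fin n → ℂ} (hx : x ∈ S.U)
    (h : ∀ c : ℂ × ℂ, c ≠ 0 → wr (S.co x) c = 0 → ∃ k, ∃ m : ℕ, S.InC k x ((S.F x)^[m] c)) :
    AllM S x := by
  intro m a hS
  obtain ⟨c, hc1, hc2⟩ := fatou_sink S.hd (S.nd x hx) hS
  obtain ⟨k, M, hM⟩ := h (hc c) (Pool.Agent.H790R3.RB.SP.pr_hc c).2 hc1
  obtain ⟨j, hj⟩ := same_cycle (sp_cont' S.hd (S.nd x hx)) hS.1 hS.2.1 (S.hper k) hc2
    (cap_of_inC S hx hM)
  exact ⟨k, j, hj⟩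

/-- if all attracted points enter the discs then all attracting cycles are marked -/
theorem allM_of_attd (S : Sys d n s) {x : Fin n → ℂ} (hx : x ∈ S.U)
    (hinf : ∀ m, ¬ Sink (sp (S.co x)) m ∞)
    (h : ∀ ζ : ℂ, Attd (sp (S.co x)) (ζ : OnePoint ℂ) → ∃ k, ∃ m : ℕ,
      S.InC k x ((S.F x)^[m] (ζ, 1))) : AllM S x := by
  intro m a hS
  obtain ⟨p, rfl⟩ := OnePoint.ne_infty_iff_exists.1 (show a ≠ ∞ from fun he => hinf m (by
    rw [← he]; exact hS))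
  have h1 : Attd (sp (S.co x)) (p : OnePoint ℂ) := by
    refine ⟨m, _, hS, ?_⟩
    have : (fun k : ℕ => (sp (S.co x))^[m * k] (p : OnePoint ℂ)) = fun _ => (p : OnePoint ℂ) := by
      funext k
      rw [Function.iterate_mul]
      exact Function.iterate_fixed hS.2.1 k
    rw [this]
    exact tendsto_const_nhds
  obtain ⟨k, M, hM⟩ := h p h1
  obtain ⟨j, hj⟩ := same_cycle (sp_cont' S.hd (S.nd x hx)) hS.1 hS.2.1 (S.hper k)
    (cap_self _ hS.2.1) (cap_of_inC S hx (c := (p : OnePoint ℂ)) hM)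
  exact ⟨k, j, hj⟩

end Pool.Agent.Zk23
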