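import Mathlib
import Pool.Agent.Zk23.SPH2
import Pool.Agent.W462.RESEQ
import Pool.Agent.W462.RENORM

/-! Hyperbolic maps near a given map, without new attracting cycles. -/

set_option autoImplicit false
set_option maxHeartbeats 400000
set_option linter.unusedVariables false

open Topology Filter Metric Set MeasureTheory
open Pool.Agent.H790R3.RB (CV hF cr ND wr rt Ix yx yc sp pr hc HypTop Attd Sink cr_eq_zero_iff
  cr_smul_left cr_smul_right cr_self cr_comm WR SP INJL hF_contDiff)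
open Pool.Agent.W324.RQOPA (ph ph_open ph_cont sp_ph exists_chart)
open Pool.Agent.H790R3.RB.FAM (cp cp_ne cp_cont zb)
open Pool.Agent.W757.RD
open scoped OnePoint

namespace Pool.Agent.Zk23

variable {d n s : ℕ}

/-- the admissible configurations with all critical points attracted are hyperbolic maps whose
attracting cycles are the marked ones -/
theorem adm_hyp {s : ℕ} (S : Sys d (2 * d + s) s) (hE : Ext S) {ks : Pt d → Fin s}
    {ls : Pt d → ℕ} {z : Ix d (2 * d + s) s → ℂ} (h : S.Adm Finset.univ ks ls z) :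
    HypTop (sp (fam (xp (yx z)))) ∧ AllM S (yx z) ∧ ∀ m,
      {a | Sink (sp (fam (xp (yx z)))) m a}.encard = cnt S.per m := by
  have h1 := p_ALLC d _ s S ks ls z h
  have h2 := allM_of_crit S h.xU h1
  have h3 := hE.co _ h.xU
  refine ⟨?_, h2, fun m => ?_⟩
  · rw [← h3]
    exact p_TOP d _ s S _ h.xU h1
  · rw [← h3]
    exact encard_sinks S h.xU h2 m

/-- systems which mark all attracting cycles of a map -/
theorem exists_full (hd : 2 ≤ d) {u₁ : Fin (2 * d) → ℂ} (hu : u₁ ∈ U₀ d)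
    (hinf : ∀ p : ℕ, ¬ Sink (sp (fam u₁)) p ∞) :
    ∃ (s : ℕ) (S : Sys d (2 * d + s) s) (q : Fin (2 * d + s) → ℂ), Ext S ∧ q ∈ S.U ∧ xp q = u₁ ∧
      (∀ ζ : ℂ, Attd (sp (fam u₁)) (ζ : OnePoint ℂ) → ∃ k, ∃ m : ℕ, S.InC k q ((S.F q)^[m] (ζ, 1))) ∧
      AllM S q ∧ (∀ m, {a | Sink (sp (fam u₁)) m a}.encard = cnt S.per m) ∧
      S.KS q = {ζ : ℂ | ¬ Attd (sp (fam u₁)) (ζ : OnePoint ℂ)} := by
  obtain ⟨s, per, p, hM, H⟩ := p_SMK d u₁ hd hu hinf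
  obtain ⟨S, q, hE, hper, hqU, hxq, hbq, hb, -⟩ := p_MARK d {u₁} hd isCompact_singleton
    (by simpa using hu) u₁ (mem_singleton u₁) s per p hM
  have hco : S.co q = fam u₁ := by rw [hE.co q hqU, hxq]
  have h1 := H S q hE hper hqU hxq hb
  have h2 : AllM S q := allM_of_attd S hqU (by rw [hco]; exact hinf) (by rw [hco]; exact h1)
  refine ⟨s, S, q, hE, hqU, hxq, h1, h2, fun m => ?_, ?_⟩
  · rw [← hco]; exact encard_sinks S hqU h2 m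
  · ext ζ
    constructor
    · intro hζ hA
      obtain ⟨k, m, hkm⟩ := h1 ζ hA
      exact hζ k m hkm
    · intro hζ k m hkm
      apply hζ
      obtain ⟨i, hi⟩ := cap_of_inC S hqU (c := (ζ : OnePoint ℂ)) hkm
      rw [hco] at hi
      -- the iterate is attracted, and so is the point
      have hS := sink_base S hqU k
      rw [hco] at hS
      set f := sp (fam u₁) with hf
      have hcont : Continuous f := sp_cont' hd hu.1
      have hper1 : 1 ≤ S.per k := S.hper k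
      refine ⟨S.per k, f^[S.per k * i - i] ((S.b k q : ℂ) : OnePoint ℂ), sink_fwd hcont hS _, ?_⟩
      have h3 : Tendsto (fun j : ℕ => f^[S.per k * i - i] (f^[S.per k * (j - i)]
          (f^[i] (ζ : OnePoint ℂ)))) atTop
          (𝓝 (f^[S.per k * i - i] ((S.b k q : ℂ) : OnePoint ℂ))) :=
        ((hcont.iterate _).tendsto _).comp (hi.comp (tendsto_sub_atTop_nat i))
      refine h3.congr' ?_
      filter_upwards [eventually_ge_atTop i] with j hj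
      rw [← Function.iterate_add_apply, ← Function.iterate_add_apply]
      congr 1
      obtain ⟨l, rfl⟩ := Nat.exists_eq_add_of_le hj
      have h4 : i ≤ S.per k * i := Nat.le_mul_of_pos_left i hper1
      rw [Nat.add_sub_cancel_left, mul_add]
      omega

/-- no new attracting cycles, in the universal family -/
theorem nns_fam (β : ℝ) (d : ℕ) (u₀ : Fin (2 * d) → ℂ) (hβ : 1 / 2 < β) (hβ1 : β < 1)
    (hd : 2 ≤ d) (hu₀ : u₀ ∈ U₀ d) (hG : Gz (fam u₀)) :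
    ∃ C₂ ε₂ σ₂ : ℝ, 0 < C₂ ∧ 0 < ε₂ ∧ 0 < σ₂ ∧
    ∀ u₁ : Fin (2 * d) → ℂ, ‖u₁ - u₀‖ < σ₂ → (∀ p : ℕ, ¬ Sink (sp (fam u₁)) p ∞) →
      (∀ j : Fin 2, Attd (sp (fam u₁)) ((bz j : ℂ) : OnePoint ℂ)) →
      ∀ a : ℝ, 0 ≤ a → a < ε₂ →
      mu β {ζ : ℂ | ¬ Attd (sp (fam u₁)) (ζ : OnePoint ℂ)} ≤ ENNReal.ofReal a →
      ∀ η : ℝ, 0 < η → ∃ u : Fin (2 * d) → ℂ, ‖u - u₁‖ ≤ C₂ * Real.sqrt a + η ∧ u ∈ U₀ d ∧
        HypTop (sp (fam u)) ∧
        ∀ m, {a | Sink (sp (fam u)) m a}.encard = {a | Sink (sp (fam u₁)) m a}.encard := by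
  obtain ⟨C₂, c₂, ε₂, σ₂, hC⟩ := exists_cst β d u₀ hβ hβ1 hd hu₀ hG
  -- circles without critical points
  obtain ⟨δ₀, hδ₀, hcr⟩ := crit_isol hd u₀ hu₀ 0
  obtain ⟨ρ₁, hρ₁, hb⟩ := Metric.eventually_nhds_iff.1
    (circ_c hd u₀ 0 (δ₀ / 2) (hcr (δ₀ / 2) (half_pos hδ₀) (half_lt_self hδ₀)))
  set ρt : ℝ := ρ₁ / 2 with hρt
  have hρt0 : 0 < ρt := half_pos hρ₁
  set ρ : ℝ := min σ₂ (ρt / 2) with hρ
  have hρ0 : 0 < ρ := lt_min hC.σ (half_pos hρt0)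
  have hρ1 : ρ ≤ ρt / 2 := min_le_right _ _
  refine ⟨C₂, min ε₂ (c₂ * ρ ^ 2), min σ₂ (ρt / 2), hC.C,
    lt_min hC.ε (mul_pos hC.c (by positivity)), hρ0, ?_⟩
  intro u₁ hu₁ hinf hbz a ha0 haε hmu η hη
  have hu₁U : u₁ ∈ U₀ d := hC.U (by
    rw [mem_closedBall, dist_eq_norm]
    have := hu₁.trans_le (min_le_left _ _)
    have := hC.σ
    linarith)
  obtain ⟨s, S, q, hE, hqU, hxq, h1, h2, h3, h4⟩ := exists_full hd hu₁U hinf
  obtain ⟨S', ks', ls', z, k1, k2, k3, k4, -, -⟩ := near_core hβ hβ1 hC hρ0 (min_le_left _ _)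
    S hE q hqU (by rw [hxq]; exact hu₁.trans_le (min_le_left _ _)) (fun j => h1 _ (hbz j)) a ha0
    (haε.trans_le (min_le_left _ _)) (haε.trans_le (min_le_right _ _)) (by rw [h4]; exact hmu)
    u₀ ρt (fun k => S.b k q) ∅ 0 (δ₀ / 2)
    ⟨fun u hu k hk => absurd hk (notMem_empty k), fun u hu i _ ζ hζ =>
      hb (y := u) (by rw [dist_eq_norm]; linarith) ζ hζ⟩
    (by
      rw [hxq]
      have := hu₁.trans_le (min_le_right _ _)
      linarith) (fun k hk => absurd hk (notMem_empty k)) none (by simp) η hη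
  rw [hxq] at k4
  obtain ⟨g1, g2, g3⟩ := adm_hyp S' k1 k3
  refine ⟨xp (yx z), k4, k1.U _ k3.xU, g1, fun m => ?_⟩
  rw [g3, h3, k2]

/-- normalisation, with the conjugacy -/
theorem norm_full (β : ℝ) (d : ℕ) (x₀ : CV d) (q₀ : OnePoint ℂ) (hβ : 1 / 2 < β) (hβ1 : β < 1)
    (hd : 2 ≤ d) (hx₀ : ND x₀) (hq₀ : sp x₀ q₀ = q₀) (hw₀ : wr x₀ (hc q₀) ≠ 0) :
    ∃ u₀ : Fin (2 * d) → ℂ, u₀ ∈ U₀ d ∧ Gz (fam u₀) ∧
      ∀ ε : ℝ, 0 < ε → ∃ C B δ : ℝ, 0 < C ∧ 0 < B ∧ 0 < δ ∧ ∃ V ∈ 𝓝 q₀, ∀ x : CV d,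
        ‖x - x₀‖ < δ → ∀ q ∈ V, sp x q = q → (∀ p : ℕ, ¬ Sink (sp x) p q) → ∀ a : ℝ, 0 < a →
        a < δ → sar {z : ℂ | ¬ Attd (sp x) (z : OnePoint ℂ)} ≤ ENNReal.ofReal a →
        ∃ (u₁ : Fin (2 * d) → ℂ) (h : OnePoint ℂ ≃ₜ OnePoint ℂ), ‖u₁ - u₀‖ < ε ∧
          (∀ p : ℕ, ¬ Sink (sp (fam u₁)) p ∞) ∧
          (∀ j : Fin 2, Attd (sp (fam u₁)) ((bz j : ℂ) : OnePoint ℂ)) ∧
          mu β {z : ℂ | ¬ Attd (sp (fam u₁)) (z : OnePoint ℂ)} ≤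
            ENNReal.ofReal (B * a ^ (2 * β - 1)) ∧
          (∀ z, sp (fam u₁) (h z) = h (sp x z)) ∧
          ∀ u : Fin (2 * d) → ℂ, ‖u - u₁‖ < 1 → ND (fam u) →
            ∃ x' : CV d, ‖x' - x‖ ≤ C * ‖u - u₁‖ ∧ ND x' ∧ ∀ z, sp (fam u) (h z) = h (sp x' z) := by
  have hMU := p_MU
  obtain ⟨b₁, b₂, u₀, hb, hb1, hb2, hu₀, hG, H⟩ := p_NM d x₀ q₀ hd hx₀ hq₀ hw₀
  refine ⟨u₀, hu₀, hG, ?_⟩
  intro ε hε
  obtain ⟨C, δ₁, hC, hδ₁, V₁, hV₁, H1⟩ := H ε hε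
  obtain ⟨B, δ₂, hB, hδ₂, V₂, hV₂, H2⟩ := p_NA β q₀ b₁ b₂ hβ hβ1 hb hb1 hb2 δ₁ hδ₁
  obtain ⟨δ₃, hδ₃, hball⟩ := Metric.eventually_nhds_iff.1 (Pool.Agent.H790R3.RB.FAM.ND_open hx₀)
  refine ⟨C, B, min δ₁ (min δ₂ δ₃), hC, hB, lt_min hδ₁ (lt_min hδ₂ hδ₃), V₁ ∩ V₂,
    inter_mem hV₁ hV₂, ?_⟩
  intro x hx q hq hfix hns a ha haδ hsar
  have hxd1 : ‖x - x₀‖ < δ₁ := lt_of_lt_of_le hx (min_le_left _ _)
  have hxd3 : ‖x - x₀‖ < δ₃ := lt_of_lt_of_le hx ((min_le_right _ _).trans (min_le_right _ _))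
  have had2 : a < δ₂ := lt_of_lt_of_le haδ ((min_le_right _ _).trans (min_le_left _ _))
  have hND : ND x := hball (by rw [dist_eq_norm]; exact hxd3)
  set E : Set ℂ := {z : ℂ | ¬ Attd (sp x) (z : OnePoint ℂ)} with hE
  have hEm : MeasurableSet E := Pool.Agent.W462.RENORM.closed_na hd hND
  obtain ⟨a₁, a₂, ha1, ha2, ha1E, ha2E, hmu⟩ := H2 q hq.2 E hEm a ha had2 hsar
  obtain ⟨u₁, h, Q, hQ0, hQq, hh, hhq, hh1, hh2, hu, hs, hx'⟩ :=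
    H1 x hxd1 q hq.1 hfix a₁ a₂ ha1 ha2
  have hs1 : ∀ z, sp (fam u₁) (h z) = h (sp x z) := fun z => (hs z).symm
  refine ⟨u₁, h, hu, ?_, ?_, ?_, hs1, ?_⟩
  · intro p hp
    apply hns p
    have := Pool.Agent.H790R3.RB.ALL.sink h.symm (conj_symm h hs1) hp
    rwa [← hhq, h.symm_apply_apply] at this
  · have e1 : Attd (sp x) (a₁ : OnePoint ℂ) := by
      by_contra hcon
      exact ha1E hcon
    have e2 : Attd (sp x) (a₂ : OnePoint ℂ) := by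
      by_contra hcon
      exact ha2E hcon
    have f1 := Pool.Agent.H790R3.RB.ALL.attd h hs1 e1
    have f2 := Pool.Agent.H790R3.RB.ALL.attd h hs1 e2
    rw [hh1] at f1
    rw [hh2] at f2
    intro j
    fin_cases j
    · simpa [bz] using f1
    · simpa [bz] using f2
  · have hle := hmu h Q hQ0 hQq hh
    have hsub : {z : ℂ | ¬ Attd (sp (fam u₁)) (z : OnePoint ℂ)} ⊆
        {w : ℂ | ∃ z ∈ E, h (z : OnePoint ℂ) = (w : OnePoint ℂ)} ∪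
          {w : ℂ | h ∞ = (w : OnePoint ℂ)} := by
      intro w hw
      have hw1 : ¬ Attd (sp x) (h.symm (w : OnePoint ℂ)) := by
        intro hA
        apply hw
        have := Pool.Agent.H790R3.RB.ALL.attd h hs1 hA
        rwa [h.apply_symm_apply] at this
      rcases ne_or_eq (h.symm (w : OnePoint ℂ)) ∞ with hc | hc
      · obtain ⟨z, hz⟩ := OnePoint.ne_infty_iff_exists.1 hc
        left
        refine ⟨z, ?_, ?_⟩
        · show ¬ Attd (sp x) (z : OnePoint ℂ)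
          rw [hz]; exact hw1
        · rw [hz, h.apply_symm_apply]
      · right
        show h ∞ = (w : OnePoint ℂ)
        rw [← hc, h.apply_symm_apply]
    have hsing : mu β {w : ℂ | h ∞ = (w : OnePoint ℂ)} = 0 := by
      rw [← (hMU β hβ hβ1).2]
      refine Set.Subsingleton.measure_zero ?_ _
      intro w hw w' hw'
      exact OnePoint.coe_injective (hw.symm.trans hw')
    calc mu β {z : ℂ | ¬ Attd (sp (fam u₁)) (z : OnePoint ℂ)}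
        ≤ mu β ({w : ℂ | ∃ z ∈ E, h (z : OnePoint ℂ) = (w : OnePoint ℂ)} ∪
          {w : ℂ | h ∞ = (w : OnePoint ℂ)}) := measure_mono hsub
      _ ≤ mu β {w : ℂ | ∃ z ∈ E, h (z : OnePoint ℂ) = (w : OnePoint ℂ)} +
          mu β {w : ℂ | h ∞ = (w : OnePoint ℂ)} := measure_union_le _ _
      _ = mu β {w : ℂ | ∃ z ∈ E, h (z : OnePoint ℂ) = (w : OnePoint ℂ)} := by
          rw [hsing, add_zero]
      _ ≤ _ := hle
  · intro u hu1 hNDu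
    obtain ⟨x', hn, hND', hsx⟩ := hx' u hu1 hNDu
    exact ⟨x', hn, hND', fun z => (hsx z).symm⟩

theorem sinks_conj {f g : OnePoint ℂ → OnePoint ℂ} (h : OnePoint ℂ ≃ₜ OnePoint ℂ)
    (hs : ∀ z, g (h z) = h (f z)) (m : ℕ) :
    {a | Sink g m a}.encard = {a | Sink f m a}.encard := by
  have : {a | Sink g m a} = h '' {a | Sink f m a} := by
    ext a
    constructor
    · intro ha
      refine ⟨h.symm a, ?_, h.apply_symm_apply a⟩
      exact Pool.Agent.H790R3.RB.ALL.sink h.symm (conj_symm h hs) ha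
    · rintro ⟨b, hb, rfl⟩
      exact Pool.Agent.H790R3.RB.ALL.sink h hs hb
  rw [this, h.injective.encard_image]

/-- the local form of the statement near a fixed point -/
def LocN (γ : ℝ) (d : ℕ) (x₀ : CV d) (q₀ : OnePoint ℂ) : Prop :=
  ∃ C δ : ℝ, 0 < C ∧ 0 < δ ∧ ∃ V ∈ 𝓝 q₀, ∀ x : CV d, ‖x - x₀‖ < δ → ∀ q ∈ V, sp x q = q →
    (∀ p : ℕ, ¬ Sink (sp x) p q) → ∀ a : ℝ, 0 < a → a < δ →
    sar {z : ℂ | ¬ Attd (sp x) (z : OnePoint ℂ)} ≤ ENNReal.ofReal a →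
    ∃ x' : CV d, ‖x' - x‖ ≤ C * a ^ γ ∧ ND x' ∧ HypTop (sp x') ∧
      ∀ m, {a | Sink (sp x') m a}.encard = {a | Sink (sp x) m a}.encard

theorem locN_ne {γ : ℝ} {d : ℕ} (hd : 2 ≤ d) {x₀ : CV d} (hx₀ : ND x₀) {q₀ : OnePoint ℂ}
    (hne : sp x₀ q₀ ≠ q₀) : LocN γ d x₀ q₀ := by
  obtain ⟨k, β, hkβ⟩ := exists_chart q₀
  set w₀ := zb β k () with hw₀
  have h0 : hF x₀ (cp k w₀) ≠ 0 := fun h => cp_ne k w₀ (hx₀ _ h)
  have c1 : Continuous (fun y : CV d × ℂ => hF y.1 (cp k y.2)) :=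
    (hF_contDiff d 1).continuous.comp (continuous_fst.prodMk
      ((cp_cont k).continuous.comp continuous_snd))
  have c2 : ContinuousAt (fun y : CV d × ℂ => pr (hF y.1 (cp k y.2))) (x₀, w₀) :=
    ContinuousAt.comp (f := fun y : CV d × ℂ => hF y.1 (cp k y.2)) (g := pr) (x := (x₀, w₀))
      (Pool.Agent.H790R3.RB.SP.continuousAt_pr h0) c1.continuousAt
  have c3 : ContinuousAt (fun y : CV d × ℂ => ph k y.2) (x₀, w₀) :=
    ((ph_cont k).comp continuous_snd).continuousAt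
  have hne' : pr (hF x₀ (cp k w₀)) ≠ ph k w₀ := by
    have h1 := sp_ph hx₀ (by omega : 1 ≤ d) k w₀ 1
    simp only [Function.iterate_one] at h1
    rw [← h1, hkβ]
    exact hne
  have h2 : ∀ᶠ y : CV d × ℂ in 𝓝 (x₀, w₀), pr (hF y.1 (cp k y.2)) ≠ ph k y.2 :=
    (ContinuousAt.ne_iff_eventually_ne c2 c3).1 hne'
  obtain ⟨δ₁, hδ₁, hb1⟩ := Metric.eventually_nhds_iff_ball.1 h2
  obtain ⟨δ₃, hδ₃, hb3⟩ := Metric.eventually_nhds_iff.1 (Pool.Agent.H790R3.RB.FAM.ND_open hx₀)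
  refine ⟨1, min δ₁ δ₃, one_pos, lt_min hδ₁ hδ₃, ph k '' ball w₀ δ₁, ?_, ?_⟩
  · rw [← hkβ]
    exact (ph_open k).image_mem_nhds (ball_mem_nhds w₀ hδ₁)
  · intro x hx q hq hfix
    exfalso
    obtain ⟨w, hw, rfl⟩ := hq
    have hND : ND x := hb3 (by rw [dist_eq_norm]; exact lt_of_lt_of_le hx (min_le_right _ _))
    have h3 := hb1 (x, w) (by
      rw [← ball_prod_same]
      exact ⟨by rw [mem_ball, dist_eq_norm]; exact lt_of_lt_of_le hx (min_le_left _ _), hw⟩)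
    have h4 := sp_ph hND (by omega : 1 ≤ d) k w 1
    simp only [Function.iterate_one] at h4
    exact h3 (h4.symm.trans hfix)

theorem locN_crit {γ : ℝ} {d : ℕ} (hd : 2 ≤ d) {x₀ : CV d} (hx₀ : ND x₀)
    {q₀ : OnePoint ℂ} (hfix : sp x₀ q₀ = q₀) (hw : wr x₀ (hc q₀) = 0) : LocN γ d x₀ q₀ := by
  obtain ⟨δ, hδ, V, hV, h⟩ := p_NAC d x₀ q₀ hd hx₀ hfix hw
  exact ⟨1, δ, one_pos, hδ, V, hV, fun x hx q hq hf hns => absurd (h x hx q hq hf) (hns 1)⟩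

theorem locN_main {γ : ℝ} (hγ : 0 < γ) (hγ2 : γ < 1 / 2) {d : ℕ}
    (hd : 2 ≤ d) {x₀ : CV d} (hx₀ : ND x₀)
    {q₀ : OnePoint ℂ} (hfix : sp x₀ q₀ = q₀) (hw : wr x₀ (hc q₀) ≠ 0) : LocN γ d x₀ q₀ := by
  obtain ⟨u₀, hu₀, hG, H⟩ := norm_full (γ + 1 / 2) d x₀ q₀ (by linarith) (by linarith) hd hx₀
    hfix hw
  obtain ⟨C₂, ε₂, σ₂, hC₂, hε₂, hσ₂, H2⟩ :=
    nns_fam (γ + 1 / 2) d u₀ (by linarith) (by linarith) hd hu₀ hG
  obtain ⟨C, B, δ, hC, hB, hδ, V, hV, H3⟩ := H σ₂ hσ₂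
  have hexp : 2 * (γ + 1 / 2) - 1 = γ + γ := by ring
  have hK : 0 < C₂ * Real.sqrt B + 1 := by positivity
  have e1 : ∀ᶠ a : ℝ in 𝓝 0, B * a ^ (γ + γ) < ε₂ := by
    have c : ContinuousAt (fun a : ℝ => B * a ^ (γ + γ)) 0 :=
      continuousAt_const.mul (Real.continuousAt_rpow_const 0 _ (Or.inr (by linarith)))
    have := c.tendsto.eventually_lt_const (u := ε₂)
      (by rw [Real.zero_rpow (by linarith)]; simpa using hε₂)
    exact this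
  have e2 : ∀ᶠ a : ℝ in 𝓝 0, (C₂ * Real.sqrt B + 1) * a ^ γ < 1 := by
    have c : ContinuousAt (fun a : ℝ => (C₂ * Real.sqrt B + 1) * a ^ γ) 0 :=
      continuousAt_const.mul (Real.continuousAt_rpow_const 0 _ (Or.inr hγ.le))
    have := c.tendsto.eventually_lt_const (u := (1 : ℝ))
      (by rw [Real.zero_rpow hγ.ne']; simp)
    exact this
  obtain ⟨δ', hδ', hb⟩ := Metric.eventually_nhds_iff.1 (e1.and e2)
  refine ⟨C * (C₂ * Real.sqrt B + 1), min δ δ', by positivity, lt_min hδ hδ', V, hV, ?_⟩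
  intro x hx q hq hf hns a ha haδ hsar
  obtain ⟨u₁, h, hu₁, hns1, hatt, hmu, hs1, hback⟩ := H3 x (lt_of_lt_of_le hx (min_le_left _ _)) q
    hq hf hns a ha (lt_of_lt_of_le haδ (min_le_left _ _)) hsar
  obtain ⟨hs1', hs2⟩ := hb (y := a) (by
    rw [Real.dist_eq, sub_zero, abs_of_pos ha]; exact lt_of_lt_of_le haδ (min_le_right _ _))
  rw [hexp] at hmu
  have hag : 0 < a ^ γ := Real.rpow_pos_of_pos ha _
  obtain ⟨u, hu, huU, hhyp, hcard⟩ := H2 u₁ hu₁ hns1 hatt (B * a ^ (γ + γ))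
    (by have := Real.rpow_nonneg ha.le (γ + γ); positivity) hs1' hmu (a ^ γ) hag
  have hsqrt : Real.sqrt (B * a ^ (γ + γ)) = Real.sqrt B * a ^ γ := by
    rw [Real.sqrt_mul hB.le, Real.rpow_add ha, Real.sqrt_mul_self hag.le]
  have hle : ‖u - u₁‖ ≤ (C₂ * Real.sqrt B + 1) * a ^ γ := by
    rw [hsqrt] at hu
    linarith
  obtain ⟨x', hx', hND', hsx'⟩ := hback u (lt_of_le_of_lt hle hs2) huU.1
  refine ⟨x', ?_, hND', Pool.Agent.H790R3.RB.ALL.hyp h.symm (conj_symm h hsx') hhyp, fun m => ?_⟩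
  · calc ‖x' - x‖ ≤ C * ‖u - u₁‖ := hx'
      _ ≤ C * ((C₂ * Real.sqrt B + 1) * a ^ γ) := mul_le_mul_of_nonneg_left hle hC.le
      _ = C * (C₂ * Real.sqrt B + 1) * a ^ γ := by ring
  · rw [← sinks_conj h hsx' m, hcard, sinks_conj h hs1 m]

/-- No new attracting cycles. -/
theorem nns (γ : ℝ) (d : ℕ) (x₀ : CV d) (hγ : 0 < γ) (hγ2 : γ < 1 / 2) (hd : 2 ≤ d)
    (hx₀ : ND x₀) : ∃ C δ : ℝ, 0 < C ∧ 0 < δ ∧ ∀ x : CV d, ‖x - x₀‖ < δ → ∀ a : ℝ, 0 < a →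
      a < δ → sar {z : ℂ | ¬ Attd (sp x) (z : OnePoint ℂ)} ≤ ENNReal.ofReal a →
      ∃ x' : CV d, ‖x' - x‖ ≤ C * a ^ γ ∧ ND x' ∧ HypTop (sp x') ∧
        ∀ m, {a | Sink (sp x') m a}.encard = {a | Sink (sp x) m a}.encard := by
  have hloc : ∀ q₀ : OnePoint ℂ, LocN γ d x₀ q₀ := by
    intro q₀
    by_cases h1 : sp x₀ q₀ = q₀
    · by_cases h2 : wr x₀ (hc q₀) = 0
      · exact locN_crit hd hx₀ h1 h2
      · exact locN_main hγ hγ2 hd hx₀ h1 h2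
    · exact locN_ne hd hx₀ h1
  choose C δ hC hδ V hV H using hloc
  obtain ⟨t, -, ht⟩ := isCompact_univ.elim_nhds_subcover V (fun q _ => hV q)
  obtain ⟨δ₃, hδ₃, hb3⟩ := Metric.eventually_nhds_iff.1 (Pool.Agent.H790R3.RB.FAM.ND_open hx₀)
  obtain ⟨η, hη, hη1, hη2⟩ : ∃ η : ℝ, 0 < η ∧ η < δ₃ ∧ ∀ q ∈ t, η < δ q := by
    have e1 : ∀ᶠ η : ℝ in 𝓝[>] 0, 0 < η := eventually_mem_nhdsWithin
    have e2 : ∀ᶠ η : ℝ in 𝓝[>] 0, η < δ₃ :=
      eventually_nhdsWithin_of_eventually_nhds (eventually_lt_nhds hδ₃)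
    have e3 : ∀ᶠ η : ℝ in 𝓝[>] 0, ∀ q ∈ t, η < δ q :=
      (Finset.eventually_all t).2 fun q _ =>
        eventually_nhdsWithin_of_eventually_nhds (eventually_lt_nhds (hδ q))
    obtain ⟨η, h1, h2, h3⟩ := (e1.and (e2.and e3)).exists
    exact ⟨η, h1, h2, h3⟩
  have hS : 0 ≤ ∑ q ∈ t, C q := Finset.sum_nonneg fun q _ => (hC q).le
  refine ⟨∑ q ∈ t, C q + 1, η, by linarith, hη, ?_⟩
  intro x hx a ha haη hsar
  have hag : 0 < a ^ γ := Real.rpow_pos_of_pos ha _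
  have hND : ND x := hb3 (by rw [dist_eq_norm]; exact hx.trans hη1)
  obtain ⟨q, hq, hns⟩ := p_NAF d x hd hND
  obtain ⟨q₀, hq₀, hqV⟩ := mem_iUnion₂.1 (ht (mem_univ q))
  obtain ⟨x', hx', hND', hh'⟩ := H q₀ x (hx.trans (hη2 q₀ hq₀)) q hqV hq hns a ha
    (haη.trans (hη2 q₀ hq₀)) hsar
  refine ⟨x', hx'.trans (mul_le_mul_of_nonneg_right ?_ hag.le), hND', hh'⟩
  have := Finset.single_le_sum (f := C) (fun q _ => (hC q).le) hq₀
  linarith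

end Pool.Agent.Zk23
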