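import Mathlib
import Pool.Agent.Zk23.MINP

/-! Every assignment of the free critical points, part 2: upper semicontinuity of the area functional
when the radius increases a little. -/

set_option autoImplicit false
set_option linter.unusedVariables false

open Topology Filter Metric Set MeasureTheory
open Pool.Agent.H790R3.RB (CV hF cr ND wr rt Ix yx yc yx_diff yc_diff hF_iter_smul cr_smul_left
  cr_smul_right cr_iter cr_trans cr_comm cr_eq_zero_iff ch_ne_zero hF_iter_differentiable)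
open Pool.Agent.W757.RD

namespace Pool.Agent.Zk23

/-- persistence of zeros -/
theorem zero_persist {X : Type*} [TopologicalSpace X] {f : X → ℂ → ℂ} {x₀ : X} {w₀ : ℂ} {ρ : ℝ}
    (hρ : 0 < ρ) (hd : ∀ᶠ x in 𝓝 x₀, DiffContOnCl ℂ (f x) (ball w₀ ρ))
    (hc : ∀ w ∈ closedBall w₀ ρ, ContinuousAt (fun p : X × ℂ => f p.1 p.2) (x₀, w))
    (h0 : f x₀ w₀ = 0) (hs : ∀ w ∈ sphere w₀ ρ, f x₀ w ≠ 0) :
    ∀ᶠ x in 𝓝 x₀, ∃ w ∈ closedBall w₀ ρ, f x w = 0 := by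
  have hsc : ∀ w ∈ sphere w₀ ρ, ContinuousAt (fun w => f x₀ w) w := by
    intro w hw
    exact ContinuousAt.comp (f := fun w : ℂ => (x₀, w)) (g := fun p : X × ℂ => f p.1 p.2)
      (hc w (sphere_subset_closedBall hw)) (Continuous.prodMk_right x₀).continuousAt
  obtain ⟨ε, hε, hεs⟩ : ∃ ε : ℝ, 0 < ε ∧ ∀ w ∈ sphere w₀ ρ, ε < ‖f x₀ w‖ := by
    have hne : (sphere w₀ ρ).Nonempty := NormedSpace.sphere_nonempty.mpr hρ.le
    obtain ⟨w₁, hw₁, hmin⟩ := (isCompact_sphere w₀ ρ).exists_isMinOn hne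
      (f := fun w => ‖f x₀ w‖) (fun w hw => (hsc w hw).norm.continuousWithinAt)
    have hpos : 0 < ‖f x₀ w₁‖ := norm_pos_iff.mpr (hs w₁ hw₁)
    refine ⟨‖f x₀ w₁‖ / 2, half_pos hpos, fun w hw => ?_⟩
    have := hmin hw
    simp only [mem_ofPred_eq] at this
    linarith
  have e1 : ∀ᶠ x in 𝓝 x₀, ∀ w ∈ sphere w₀ ρ, ε < ‖f x w‖ := by
    apply (isCompact_sphere w₀ ρ).eventually_forall_of_forall_eventually
    intro w hw
    exact continuousAt_const.eventually_lt (hc w (sphere_subset_closedBall hw)).norm (hεs w hw)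
  have e2 : ∀ᶠ x in 𝓝 x₀, ‖f x w₀‖ < ε := by
    have h1 : ContinuousAt (fun x => f x w₀) x₀ :=
      ContinuousAt.comp (f := fun x : X => (x, w₀)) (g := fun p : X × ℂ => f p.1 p.2)
        (hc w₀ (mem_closedBall_self hρ.le)) (Continuous.prodMk_left w₀).continuousAt
    exact h1.norm.eventually_lt continuousAt_const (by rw [h0, norm_zero]; exact hε)
  filter_upwards [hd, e1, e2] with x h1 h2 h3
  by_contra hcon
  push Not at hcon
  have hcl : closure (ball w₀ ρ) = closedBall w₀ ρ := closure_ball _ hρ.ne'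
  have h4 : DiffContOnCl ℂ (f x)⁻¹ (ball w₀ ρ) := h1.inv (by rw [hcl]; exact hcon)
  have h5 := Complex.norm_le_of_forall_mem_frontier_norm_le isBounded_ball h4
    (C := ε⁻¹) (by
      intro z hz
      rw [frontier_ball _ hρ.ne'] at hz
      rw [Pi.inv_apply, norm_inv]
      exact inv_anti₀ hε (h2 z hz).le) (subset_closure (mem_ball_self hρ))
  rw [Pi.inv_apply, norm_inv] at h5
  have h6 : 0 < ‖f x w₀‖ := norm_pos_iff.mpr (hcon w₀ (mem_closedBall_self hρ.le))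
  have h7 := (inv_le_inv₀ h6 hε).mp h5
  linarith

/-- the linearised points depend holomorphically on the coordinate -/
theorem pt_diffOn {d n s : ℕ} (S : Sys d n s) {KK : Fin s → (Fin n → ℂ) × (ℂ × ℂ) → ℂ} {r : ℝ}
    {N : Set (Fin n → ℂ)} {ω : Fin s → (Fin n → ℂ) × ℂ → ℂ} (hL : S.Lin KK N r ω)
    (k : Fin s) (l : ℕ) {x : Fin n → ℂ} (hx : x ∈ N) (κ : ℂ) {r₂ : ℝ} (hr₂ : ‖κ‖ * r₂ < r) :
    DifferentiableOn ℂ (fun w : ℂ => S.pt ω k l x (κ * w)) (closedBall 0 r₂) := by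
  have hmem : ∀ w ∈ closedBall (0 : ℂ) r₂, κ * w ∈ ball (0 : ℂ) r := by
    intro w hw
    rw [mem_ball_zero_iff, norm_mul]
    exact (mul_le_mul_of_nonneg_left (mem_closedBall_zero_iff.1 hw) (norm_nonneg _)).trans_lt hr₂
  have hω : DifferentiableOn ℂ (fun w : ℂ => ω k (x, κ * w)) (closedBall 0 r₂) := by
    refine (hL.ωd k).comp (f := fun w : ℂ => (x, κ * w)) ?_ ?_
    · exact (differentiableOn_const x).prodMk (differentiableOn_id.const_mul κ)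
    · intro w hw
      exact ⟨hx, hmem w hw⟩
  have hch : DifferentiableOn ℂ (fun w : ℂ => S.cht k x (ω k (x, κ * w))) (closedBall 0 r₂) :=
    (hω.const_add (S.b k x)).prodMk (differentiableOn_const (1 : ℂ))
  exact (hF_iter_differentiable d l).comp_differentiableOn
    ((differentiableOn_const (S.co x)).prodMk hch)

/-- points of the sets `WN` persist when the radius increases -/
theorem wn_persist {d n s : ℕ} (S : Sys d n s)
    {KK : Fin s → (Fin n → ℂ) × (ℂ × ℂ) → ℂ} {r : ℝ}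
    {N : Set (Fin n → ℂ)} {ω : Fin s → (Fin n → ℂ) × ℂ → ℂ} (Nt : ℕ) {r₁ r₁' : ℝ}
    (hK : S.Koe KK) (hL : S.Lin KK N r ω) (hr₁ : 0 < r₁) (hr₁' : r₁ < r₁')
    {q₀ : (Fin n → ℂ) × (Fin s → ℂ)} (hq : q₀.1 ∈ N) (hk0 : ∀ k, q₀.2 k ≠ 0)
    (hk : ∀ k, ‖q₀.2 k‖ * r₁' < r)
    {ζ : ℂ} (hζ : ζ ∈ S.WN ω Nt r₁ q₀.1 q₀.2) :
    ∀ᶠ q : (Fin n → ℂ) × (Fin s → ℂ) in 𝓝 q₀, ζ ∈ S.WN ω Nt r₁' q.1 q.2 := by
  obtain ⟨k, l, hl, w, hw, h0⟩ := hζ
  set ρ : ℝ := r₁' - r₁ with hρdef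
  have hρ : 0 < ρ := sub_pos.2 hr₁'
  have hsub : closedBall w ρ ⊆ closedBall (0 : ℂ) r₁' := by
    intro w' hw'
    rw [mem_closedBall_zero_iff]
    rw [mem_closedBall, dist_eq_norm] at hw'
    calc ‖w'‖ = ‖(w' - w) + w‖ := by congr 1; ring
      _ ≤ ‖w' - w‖ + ‖w‖ := norm_add_le _ _
      _ ≤ r₁' := by rw [hρdef] at hw'; linarith
  have hne : ∀ x ∈ S.U, (S.F x)^[Nt] (ζ, 1) ≠ 0 := fun x hx =>
    (S.nd x hx).iter_ne Nt (fun h => one_ne_zero (congrArg Prod.snd h : (1 : ℂ) = 0))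
  have hN : ∀ᶠ q : (Fin n → ℂ) × (Fin s → ℂ) in 𝓝 q₀, q.1 ∈ N ∧ ‖q.2 k‖ * r₁' < r := by
    have h1 : ∀ᶠ q : (Fin n → ℂ) × (Fin s → ℂ) in 𝓝 q₀, q.1 ∈ N :=
      continuous_fst.continuousAt.eventually_mem (hL.No.mem_nhds hq)
    have h2 : ∀ᶠ q : (Fin n → ℂ) × (Fin s → ℂ) in 𝓝 q₀, ‖q.2 k‖ * r₁' < r := by
      have h3 : Continuous fun q : (Fin n → ℂ) × (Fin s → ℂ) => ‖q.2 k‖ * r₁' := by fun_prop
      exact h3.continuousAt.eventually_lt continuousAt_const (hk k)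
    exact h1.and h2
  have hmain := zero_persist (X := (Fin n → ℂ) × (Fin s → ℂ))
    (f := fun q w' => cr ((S.F q.1)^[Nt] (ζ, 1)) (S.pt ω k l q.1 (q.2 k * w'))) (x₀ := q₀)
    (w₀ := w) hρ ?_ ?_ h0 ?_
  · refine (hmain.and hN).mono ?_
    rintro q ⟨⟨w', hw', h1⟩, -, -⟩
    exact ⟨k, l, hl, w', mem_closedBall_zero_iff.1 (hsub hw'), h1⟩
  · filter_upwards [hN] with q hq
    have h1 := pt_diffOn S hL k l hq.1 (q.2 k) hq.2
    have h2 : DifferentiableOn ℂ (fun w' : ℂ => cr ((S.F q.1)^[Nt] (ζ, 1))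
        (S.pt ω k l q.1 (q.2 k * w'))) (closedBall 0 r₁') := by
      unfold cr
      exact (h1.snd.const_mul _).sub (h1.fst.const_mul _)
    apply DifferentiableOn.diffContOnCl
    rw [closure_ball _ hρ.ne']
    exact h2.mono hsub
  · intro w' hw'
    have hkw : ‖q₀.2 k * w'‖ < r := by
      rw [norm_mul]
      exact (mul_le_mul_of_nonneg_left (mem_closedBall_zero_iff.1 (hsub hw'))
        (norm_nonneg _)).trans_lt (hk k)
    have c1 : ContinuousAt (fun y : ((Fin n → ℂ) × (Fin s → ℂ)) × ℂ =>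
        (S.F y.1.1)^[Nt] (ζ, 1)) (q₀, w') :=
      ContinuousAt.comp (x := (q₀, w'))
        (g := fun z : (Fin n → ℂ) × (ℂ × ℂ) => (S.F z.1)^[Nt] z.2)
        (f := fun y : ((Fin n → ℂ) × (Fin s → ℂ)) × ℂ => (y.1.1, ((ζ, 1) : ℂ × ℂ)))
        (LSC.F_cont S Nt (hL.NU hq) (ζ, 1)) (by fun_prop)
    have c2 : ContinuousAt (fun y : ((Fin n → ℂ) × (Fin s → ℂ)) × ℂ =>
        S.pt ω k l y.1.1 (y.1.2 k * y.2)) (q₀, w') :=
      ContinuousAt.comp (x := (q₀, w'))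
        (g := fun z : (Fin n → ℂ) × ℂ => S.pt ω k l z.1 z.2)
        (f := fun y : ((Fin n → ℂ) × (Fin s → ℂ)) × ℂ => (y.1.1, y.1.2 k * y.2))
        (LSC.pt_cont S KK r N ω hL k l hq hkw) (by fun_prop)
    unfold cr
    exact (c1.fst.mul c2.snd).sub (c1.snd.mul c2.fst)
  · intro w' hw' h1
    have hw'1 : ‖w' - w‖ = ρ := by rw [mem_sphere, dist_eq_norm] at hw'; exact hw'
    have hb : ∀ v : ℂ, ‖v‖ ≤ r₁' → ‖q₀.2 k * v‖ < r := by
      intro v hv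
      rw [norm_mul]
      exact (mul_le_mul_of_nonneg_left hv (norm_nonneg _)).trans_lt (hk k)
    have h2 : cr (S.pt ω k l q₀.1 (q₀.2 k * w)) (S.pt ω k l q₀.1 (q₀.2 k * w')) = 0 := by
      apply cr_trans (hne q₀.1 (hL.NU hq)) _ h1
      rw [cr_comm, h0, neg_zero]
    have hw2 : ‖w'‖ ≤ r₁' := mem_closedBall_zero_iff.1 (hsub (sphere_subset_closedBall hw'))
    obtain ⟨-, -, h3, -⟩ := p_ORB d n s S KK r N ω hK hL q₀.1 hq k k (q₀.2 k * w) (q₀.2 k * w')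
      (hb w (hw.trans hr₁'.le)) (hb w' hw2) l l
    obtain ⟨-, -, h4⟩ := h3 h2
    have hlam : S.lam k q₀.1 ^ (l / S.per k) ≠ 0 := pow_ne_zero _ (hL.lam0 _ hq k)
    have h5 := mul_left_cancel₀ (hk0 k) (mul_left_cancel₀ hlam h4)
    rw [h5, sub_self, norm_zero] at hw'1
    exact hρ.ne hw'1

/-- the sets `WN` are closed -/
theorem wn_closed {d n s : ℕ} (S : Sys d n s)
    {KK : Fin s → (Fin n → ℂ) × (ℂ × ℂ) → ℂ} {r : ℝ}
    {N : Set (Fin n → ℂ)} {ω : Fin s → (Fin n → ℂ) × ℂ → ℂ} (Nt : ℕ) {r₁ : ℝ}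
    (hL : S.Lin KK N r ω) (hr₁ : 0 < r₁)
    {q₀ : (Fin n → ℂ) × (Fin s → ℂ)} (hq : q₀.1 ∈ N)
    (hk : ∀ k, ‖q₀.2 k‖ * r₁ < r) : IsClosed (S.WN ω Nt r₁ q₀.1 q₀.2) := by
  rw [← isOpen_compl_iff, isOpen_iff_mem_nhds]
  intro ζ hζ
  have h1 := LSC.key S KK r N ω Nt r₁ hL hr₁ q₀ hq hk ζ hζ
  have h2 : Tendsto (fun ζ' : ℂ => (q₀, ζ')) (𝓝 ζ) (𝓝 (q₀, ζ)) :=
    (Continuous.prodMk_right q₀).tendsto ζ
  exact h2.eventually h1

/-- Upper semicontinuity of the area functional when the radius increases. -/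
theorem an_drift {β : ℝ} {d n s : ℕ} (S : Sys d n s)
    {KK : Fin s → (Fin n → ℂ) × (ℂ × ℂ) → ℂ} {r : ℝ}
    {N : Set (Fin n → ℂ)} {ω : Fin s → (Fin n → ℂ) × ℂ → ℂ} (Nt : ℕ) {r₁ r₁' : ℝ}
    (hβ1 : 1 / 2 < β) (hβ2 : β < 1)
    (hK : S.Koe KK) (hL : S.Lin KK N r ω) (hr₁ : 0 < r₁) (hr₁' : r₁ < r₁')
    {q₀ : (Fin n → ℂ) × (Fin s → ℂ)} (hq : q₀.1 ∈ N) (hk0 : ∀ k, q₀.2 k ≠ 0)
    (hk : ∀ k, ‖q₀.2 k‖ * r₁' < r) {η : ℝ} (hη : 0 < η) :
    ∀ᶠ q : (Fin n → ℂ) × (Fin s → ℂ) in 𝓝 q₀,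
      S.AN β ω Nt r₁' q.1 q.2 < S.AN β ω Nt r₁ q₀.1 q₀.2 + η := by
  haveI : IsFiniteMeasure (mu β) := ⟨(p_MU β hβ1 hβ2).1⟩
  have hr₁'0 : 0 < r₁' := hr₁.trans hr₁'
  -- a ball of good parameters
  have hN : ∀ᶠ q : (Fin n → ℂ) × (Fin s → ℂ) in 𝓝 q₀, q.1 ∈ N ∧ ∀ k, ‖q.2 k‖ * r₁' < r := by
    have h1 : ∀ᶠ q : (Fin n → ℂ) × (Fin s → ℂ) in 𝓝 q₀, q.1 ∈ N :=
      continuous_fst.continuousAt.eventually_mem (hL.No.mem_nhds hq)
    have h2 : ∀ᶠ q : (Fin n → ℂ) × (Fin s → ℂ) in 𝓝 q₀, ∀ k, ‖q.2 k‖ * r₁' < r := by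
      refine eventually_all.2 fun k => ?_
      have h3 : Continuous fun q : (Fin n → ℂ) × (Fin s → ℂ) => ‖q.2 k‖ * r₁' := by fun_prop
      exact h3.continuousAt.eventually_lt continuousAt_const (hk k)
    exact h1.and h2
  obtain ⟨δ, hδ, hball⟩ := Metric.eventually_nhds_iff_ball.mp hN
  set W : Set ℂ := S.WN ω Nt r₁ q₀.1 q₀.2 with hW
  have hWc : IsClosed W := by
    refine wn_closed S Nt hL hr₁ hq fun k => ?_
    exact (mul_le_mul_of_nonneg_left hr₁'.le (norm_nonneg _)).trans_lt (hk k)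
  -- the increasing closed sets
  set Q : ℕ → Set ((Fin n → ℂ) × (Fin s → ℂ)) := fun j => ball q₀ (min δ (1 / ((j : ℝ) + 1)))
    with hQ
  set Aj : ℕ → Set ℂ := fun j => W ∩ ⋂ q ∈ Q j, S.WN ω Nt r₁' q.1 q.2 with hAj
  have hAc : ∀ j, IsClosed (Aj j) := by
    intro j
    refine hWc.inter (isClosed_biInter fun q hq' => ?_)
    have := hball q (ball_subset_ball (min_le_left _ _) hq')
    exact wn_closed S Nt hL hr₁'0 this.1 this.2
  have hmono : Monotone Aj := by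
    intro i j hij
    refine inter_subset_inter_right _ (biInter_subset_biInter_left ?_)
    apply ball_subset_ball
    apply min_le_min_left
    apply one_div_le_one_div_of_le (by positivity)
    have : (i : ℝ) ≤ j := by exact_mod_cast hij
    linarith
  have hU : ⋃ j, Aj j = W := by
    apply subset_antisymm
    · exact iUnion_subset fun j => inter_subset_left
    · intro ζ hζ
      have h1 := wn_persist S Nt hK hL hr₁ hr₁' hq hk0 hk hζ
      obtain ⟨ε, hε, hb⟩ := Metric.eventually_nhds_iff_ball.mp h1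
      obtain ⟨j, hj⟩ := exists_nat_one_div_lt hε
      refine mem_iUnion.2 ⟨j, hζ, mem_iInter₂.2 fun q hq' => hb q ?_⟩
      exact ball_subset_ball ((min_le_right _ _).trans hj.le) hq'
  have hlim : Tendsto (fun j => mu β (Aj j)) atTop (𝓝 (mu β W)) := by
    rw [← hU]
    exact tendsto_measure_iUnion_atTop hmono
  have hlim2 : Tendsto (fun j => (mu β (Aj j)ᶜ).toReal) atTop (𝓝 (mu β Wᶜ).toReal) := by
    apply (ENNReal.tendsto_toReal (measure_ne_top _ _)).comp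
    rw [measure_compl hWc.measurableSet (measure_ne_top _ _)]
    have h1 : (fun j => mu β (Aj j)ᶜ) = fun j => mu β univ - mu β (Aj j) := by
      funext j
      exact measure_compl (hAc j).measurableSet (measure_ne_top _ _)
    rw [h1]
    exact ENNReal.Tendsto.sub tendsto_const_nhds hlim (Or.inl (measure_ne_top _ _))
  have hev : ∀ᶠ j in atTop, (mu β (Aj j)ᶜ).toReal < (mu β Wᶜ).toReal + η :=
    hlim2.eventually (gt_mem_nhds (by linarith))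
  obtain ⟨j, hj⟩ := hev.exists
  have hQn : Q j ∈ 𝓝 q₀ := ball_mem_nhds _ (lt_min hδ (by positivity))
  filter_upwards [hQn] with q hq'
  refine lt_of_le_of_lt ?_ hj
  apply ENNReal.toReal_mono (measure_ne_top _ _)
  apply measure_mono
  apply compl_subset_compl.2
  intro ζ hζ
  exact mem_iInter₂.1 hζ.2 q hq'

end Pool.Agent.Zk23
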