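import Mathlib
import Pool.Agent.Zk23.ETM
import Pool.Agent.Zk23.ETA

/-! Every assignment of the free critical points, part 3: minors with additional rows. -/

set_option autoImplicit false
set_option linter.unusedVariables false

open Topology Filter Metric Set MeasureTheory
open Pool.Agent.H790R3.RB (CV hF cr ND wr rt Ix yx yc yx_diff yc_diff)
open Pool.Agent.W757.RD
open Pool.Agent.W440.RE.JT (KP ent fac diff_yx diff_yk quot prod_diff det_diff)

namespace Pool.Agent.Zk23

variable {d n s m : ℕ}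

/-- no normalisations -/
def e0 {n : ℕ} : Fin 0 → (Fin n → ℂ) → ℂ := fun i => i.elim0

/-- the rows -/
abbrev Rx (d s m : ℕ) (A : Finset (Pt d)) (I : Finset (Fin m)) : Type :=
  Sys.Rw 0 d s A ⊕ {j : Fin m // j ∈ I}

/-- the other equations and the additional functions -/
noncomputable def Gx (S : Sys d n s) (KK : Fin s → (Fin n → ℂ) × (ℂ × ℂ) → ℂ) (A : Finset (Pt d))
    (ks : Pt d → Fin s) (ls : Pt d → ℕ) (Ps : Fin m → (Ix d n s → ℂ) → ℂ) (I : Finset (Fin m))
    (a : Rx d s m A I) (y : Ix d n s → ℂ) : ℂ :=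
  match a with
  | Sum.inl a => S.Gr KK e0 A ks ls a y
  | Sum.inr j => Ps j.1 y

/-- the matrix of partial derivatives -/
noncomputable def Mr (S : Sys d n s) (KK : Fin s → (Fin n → ℂ) × (ℂ × ℂ) → ℂ) (A : Finset (Pt d))
    (ks : Pt d → Fin s) (ls : Pt d → ℕ) (Ps : Fin m → (Ix d n s → ℂ) → ℂ) (I : Finset (Fin m))
    {R : ℕ} (sel : Fin R → Rx d s m A I) (col : Fin (2 * d - 2) ⊕ Fin R → Ix d n s)
    (y : Ix d n s → ℂ) : Matrix (Fin (2 * d - 2) ⊕ Fin R) (Fin (2 * d - 2) ⊕ Fin R) ℂ :=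
  Matrix.of fun a c => match a with
    | Sum.inl j => fderiv ℂ (S.Er j) y (Pi.single (col c) 1)
    | Sum.inr i => fderiv ℂ (Gx S KK A ks ls Ps I (sel i)) y (Pi.single (col c) 1)

/-- nonvanishing minors at an admissible configuration -/
def Goode (S : Sys d n s) (KK : Fin s → (Fin n → ℂ) × (ℂ × ℂ) → ℂ) (A : Finset (Pt d))
    (ks : Pt d → Fin s) (ls : Pt d → ℕ) (Ps : Fin m → (Ix d n s → ℂ) → ℂ) (I : Finset (Fin m))
    (R : ℕ) (y : Ix d n s → ℂ) : Prop :=
  S.Adm A ks ls y ∧ ∃ (sel : Fin R → Rx d s m A I) (col : Fin (2 * d - 2) ⊕ Fin R → Ix d n s),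
    (Mr S KK A ks ls Ps I sel col y).det ≠ 0

/-- the rank is bounded -/
theorem Goode.le {S : Sys d n s} {KK : Fin s → (Fin n → ℂ) × (ℂ × ℂ) → ℂ} {A : Finset (Pt d)}
    {ks : Pt d → Fin s} {ls : Pt d → ℕ} {Ps : Fin m → (Ix d n s → ℂ) → ℂ} {I : Finset (Fin m)}
    {R : ℕ} {y : Ix d n s → ℂ} (h : Goode S KK A ks ls Ps I R y) : R ≤ n + s := by
  obtain ⟨-, sel, col, hdet⟩ := h
  have hinj : Function.Injective col := by
    intro c c' hcc
    by_contra hne
    apply hdet
    apply Matrix.det_zero_of_column_eq hne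
    intro a
    unfold Mr
    simp only [Matrix.of_apply, hcc]
  have h1 := Fintype.card_le_of_injective col hinj
  simp only [Fintype.card_sum, Fintype.card_fin, Ix] at h1
  omega

/-- simple critical points: the structural rows are independent -/
theorem goode_zero {S : Sys d n s} {KK : Fin s → (Fin n → ℂ) × (ℂ × ℂ) → ℂ} {A : Finset (Pt d)}
    {ks : Pt d → Fin s} {ls : Pt d → ℕ} {Ps : Fin m → (Ix d n s → ℂ) → ℂ} {I : Finset (Fin m)}
    {y : Ix d n s → ℂ} (h : S.Adm A ks ls y) (hinj : Function.Injective (yc y)) :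
    Goode S KK A ks ls Ps I 0 y := by
  obtain ⟨col, hcol⟩ := p_EMIN d n s S y h.xU hinj
  refine ⟨h, fun i => i.elim0, fun c => Sum.elim col (fun i => i.elim0) c, ?_⟩
  intro h0
  apply hcol
  have e1 : (Matrix.of fun j c : Fin (2 * d - 2) => fderiv ℂ (S.Er j) y (Pi.single (col c) 1)) =
      (Mr S KK A ks ls Ps I (R := 0) (fun i => i.elim0)
        (fun c => Sum.elim col (fun i => i.elim0) c) y).submatrix
        (Equiv.sumEmpty (Fin (2 * d - 2)) (Fin 0)).symm
        (Equiv.sumEmpty (Fin (2 * d - 2)) (Fin 0)).symm := by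
    ext a c
    rfl
  rw [e1, Matrix.det_submatrix_equiv_self]
  exact h0

theorem gx_diff (S : Sys d n s) {KK : Fin s → (Fin n → ℂ) × (ℂ × ℂ) → ℂ} (hK : S.Koe KK)
    (A : Finset (Pt d)) (ks : Pt d → Fin s) (ls : Pt d → ℕ) {Ps : Fin m → (Ix d n s → ℂ) → ℂ}
    (I : Finset (Fin m)) {O₂ : Set (Ix d n s → ℂ)} (hPs : ∀ j ∈ I, DifferentiableOn ℂ (Ps j) O₂)
    (a : Rx d s m A I) :
    DifferentiableOn ℂ (Gx S KK A ks ls Ps I a) (({y | yx y ∈ S.U ∧ (∀ k, S.lam k (yx y) ≠ 0) ∧
        ∀ i ∈ A, (yx y, (S.F (yx y))^[ls i] (pc y i, 1)) ∈ S.Dom (ks i)} ∩ O₂) ∩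
          {y | ∀ k, ys y k ≠ 0}) := by
  obtain ⟨O, hO, hOe, hEr, hKP, hGr⟩ := p_ADO d n s 0 S KK e0 A ks ls hK (fun i => i.elim0)
  rw [← hOe]
  rcases a with a | j
  · exact (hGr a).mono fun y hy => ⟨hy.1.1, hy.2⟩
  · exact (hPs j.1 j.2).mono fun y hy => hy.1.2

/-- A holomorphic function with the same zeros as the minor. -/
theorem jt_ext (S : Sys d n s) {KK : Fin s → (Fin n → ℂ) × (ℂ × ℂ) → ℂ} (hK : S.Koe KK)
    (A : Finset (Pt d)) (ks : Pt d → Fin s) (ls : Pt d → ℕ) {Ps : Fin m → (Ix d n s → ℂ) → ℂ}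
    (I : Finset (Fin m)) {R : ℕ} (sel : Fin R → Rx d s m A I)
    (col : Fin (2 * d - 2) ⊕ Fin R → Ix d n s) {O₂ : Set (Ix d n s → ℂ)} (hO₂ : IsOpen O₂)
    (hPs : ∀ j ∈ I, DifferentiableOn ℂ (Ps j) O₂) :
    ∃ Jt : (Ix d n s → ℂ) → ℂ,
      DifferentiableOn ℂ Jt ({y | yx y ∈ S.U ∧ (∀ k, S.lam k (yx y) ≠ 0) ∧
        ∀ i ∈ A, (yx y, (S.F (yx y))^[ls i] (pc y i, 1)) ∈ S.Dom (ks i)} ∩ O₂) ∧
      ∀ y : Ix d n s → ℂ, yx y ∈ S.U → (∀ k, S.lam k (yx y) ≠ 0) →
        (∀ i ∈ A, (yx y, (S.F (yx y))^[ls i] (pc y i, 1)) ∈ S.Dom (ks i)) → y ∈ O₂ →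
        (∀ k, ys y k ≠ 0) →
        (Jt y = 0 ↔ (Mr S KK A ks ls Ps I sel col y).det = 0) := by
  obtain ⟨O, hO, hOe, hEr, hKP, -⟩ := p_ADO d n s 0 S KK e0 A ks ls hK (fun i => i.elim0)
  obtain ⟨hlam, -⟩ := p_LAM d n s S
  have hOU : ∀ y ∈ O, yx y ∈ S.U := by
    intro y hy
    rw [hOe] at hy
    exact hy.1
  have hcomp : ∀ f : (Fin n → ℂ) → ℂ, DifferentiableOn ℂ f S.U →
      DifferentiableOn ℂ (fun y : Ix d n s → ℂ => f (yx y)) O := fun f hf =>
    hf.comp diff_yx.differentiableOn hOU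
  have hent : ∀ (a : Sys.Rw 0 d s A) (v : Ix d n s → ℂ),
      DifferentiableOn ℂ (fun y => ent S KK e0 A ks ls a y v) O := by
    intro a v
    rcases a with i | k | i
    · exact i.elim0
    · exact Pool.Agent.Helper540.differentiableOn_fderiv_apply hO (hcomp _ (hlam k)) v
    · have h1 : DifferentiableOn ℂ (KP S KK ks ls i) O := hKP i i.2
      have h2 : DifferentiableOn ℂ (fun y : Ix d n s → ℂ => ys y (ks i)) O :=
        (diff_yk (ks i)).differentiableOn
      exact (h2.mul (Pool.Agent.Helper540.differentiableOn_fderiv_apply hO h1 v)).sub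
        (h1.mul (Pool.Agent.Helper540.differentiableOn_fderiv_apply hO h2 v))
  refine ⟨fun y => (Matrix.of fun (a c : Fin (2 * d - 2) ⊕ Fin R) =>
    match a with
    | Sum.inl j => fderiv ℂ (S.Er j) y (Pi.single (col c) 1)
    | Sum.inr i => Sum.elim (fun a => ent S KK e0 A ks ls a y (Pi.single (col c) 1))
        (fun j : {j : Fin m // j ∈ I} => fderiv ℂ (Ps j.1) y (Pi.single (col c) 1)) (sel i)).det,
    ?_, ?_⟩
  · rw [← hOe]
    apply det_diff
    intro a c
    rcases a with j | i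
    · exact (Pool.Agent.Helper540.differentiableOn_fderiv_apply hO (hEr j) _).mono
        inter_subset_left
    · simp only [Matrix.of_apply]
      rcases sel i with a | j
      · exact (hent a _).mono inter_subset_left
      · exact (Pool.Agent.Helper540.differentiableOn_fderiv_apply hO₂ (hPs j.1 j.2) _).mono
          inter_subset_right
  · intro y h1 h2 h3 hy2 h4
    have hyO : y ∈ O := by
      rw [hOe]
      exact ⟨h1, h2, h3⟩
    set fc : Rx d s m A I → ℂ := fun a => Sum.elim (fun a => fac A ks a y) (fun _ => 1) a with hfc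
    have hmat : (Matrix.of fun (a c : Fin (2 * d - 2) ⊕ Fin R) =>
        match a with
        | Sum.inl j => fderiv ℂ (S.Er j) y (Pi.single (col c) 1)
        | Sum.inr i => Sum.elim (fun a => ent S KK e0 A ks ls a y (Pi.single (col c) 1))
            (fun j : {j : Fin m // j ∈ I} => fderiv ℂ (Ps j.1) y (Pi.single (col c) 1))
            (sel i)) =
        Matrix.of fun (a c : Fin (2 * d - 2) ⊕ Fin R) =>
          (Sum.elim (fun _ => 1) (fun i => fc (sel i)) a : ℂ) *
            Mr S KK A ks ls Ps I sel col y a c := by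
      ext a c
      rcases a with j | i
      · change fderiv ℂ (S.Er j) y (Pi.single (col c) 1) =
          1 * fderiv ℂ (S.Er j) y (Pi.single (col c) 1)
        rw [one_mul]
      · change Sum.elim (fun a => ent S KK e0 A ks ls a y (Pi.single (col c) 1))
            (fun j : {j : Fin m // j ∈ I} => fderiv ℂ (Ps j.1) y (Pi.single (col c) 1))
            (sel i) =
          fc (sel i) * fderiv ℂ (Gx S KK A ks ls Ps I (sel i)) y (Pi.single (col c) 1)
        rcases sel i with (i' | k | i') | j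
        · exact (one_mul _).symm
        · exact (one_mul _).symm
        · exact quot ((hKP i' i'.2).differentiableAt (hO.mem_nhds hyO))
            (diff_yk (ks i')).differentiableAt (h4 (ks i')) _
        · exact (one_mul _).symm
    dsimp only
    rw [hmat, Matrix.det_mul_column]
    have hne : (∏ a : Fin (2 * d - 2) ⊕ Fin R,
        (Sum.elim (fun _ => 1) (fun i => fc (sel i)) a : ℂ)) ≠ 0 := by
      rw [Finset.prod_ne_zero_iff]
      intro a _
      rcases a with j | i
      · exact one_ne_zero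
      · change fc (sel i) ≠ 0
        rcases sel i with (i' | k | i') | j
        · exact one_ne_zero
        · exact one_ne_zero
        · exact pow_ne_zero 2 (h4 (ks i'))
        · exact one_ne_zero
    rw [mul_eq_zero]
    exact ⟨fun h => h.resolve_left hne, fun h => Or.inr h⟩

/-- The product of the differences of the critical points. -/
noncomputable def Vd (y : Ix d n s → ℂ) : ℂ :=
  ∏ i : Fin (2 * d - 2), ∏ j ∈ Finset.univ.erase i, (yc y i - yc y j)

theorem vd_diff : Differentiable ℂ (Vd : (Ix d n s → ℂ) → ℂ) := by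
  unfold Vd
  have h : ∀ i : Fin (2 * d - 2), Differentiable ℂ (fun y : Ix d n s → ℂ => yc y i) := by
    intro i
    unfold yc
    fun_prop
  rw [← differentiableOn_univ]
  apply prod_diff
  intro i _
  apply prod_diff
  intro j _
  exact ((h i).sub (h j)).differentiableOn

theorem vd_ne {y : Ix d n s → ℂ} : Vd y ≠ 0 ↔ Function.Injective (yc y) := by
  unfold Vd
  rw [Finset.prod_ne_zero_iff]
  constructor
  · intro h i j hij
    by_contra hne
    have h1 := h i (Finset.mem_univ i)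
    rw [Finset.prod_ne_zero_iff] at h1
    exact h1 j (Finset.mem_erase.2 ⟨Ne.symm hne, Finset.mem_univ j⟩) (by rw [hij, sub_self])
  · intro h i _
    rw [Finset.prod_ne_zero_iff]
    intro j hj h0
    exact (Finset.mem_erase.1 hj).1 (h (sub_eq_zero.1 h0)).symm

end Pool.Agent.Zk23
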