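import Mathlib
import Pool.Agent.Zk23.ETJ

/-! Every assignment of the free critical points, part 4: one step of the construction. -/

set_option autoImplicit false
set_option linter.unusedVariables false

open Topology Filter Metric Set MeasureTheory
open Pool.Agent.H790R3.RB (CV hF cr ND wr rt Ix yx yc yx_diff yc_diff exists_low lsc_comp)
open Pool.Agent.W757.RD
open Pool.Agent.W440.RE.JT (prod_diff)
open Pool.Agent.W402.RE.MINP (ys_diff DIprop exists_L)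

namespace Pool.Agent.Zk23

/-- The data of the construction. -/
structure Dat (β : ℝ) (d m s : ℕ) where
  S : Sys d (2 * d) s
  KK : Fin s → (Fin (2 * d) → ℂ) × (ℂ × ℂ) → ℂ
  N : Set (Fin (2 * d) → ℂ)
  r : ℝ
  ω : Fin s → (Fin (2 * d) → ℂ) × ℂ → ℂ
  A : Finset (Pt d)
  ks : Pt d → Fin s
  ls : Pt d → ℕ
  ik : Fin s → Pt d
  σ : Fin m → Fin (2 * d - 2)
  cl : Fin (2 * d - 2) → ℂ
  uf : Fin (2 * d) → ℂ
  Nf : Fin m → (Ix d (2 * d) s → ℂ) → ℂ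
  Df : Fin m → (Ix d (2 * d) s → ℂ) → ℂ
  rr : ℝ
  RR : ℝ
  L : ℕ
  Nt : ℕ
  Kc : ℝ
  ra : ℝ
  ρ : ℝ
  Dsp : ℝ
  M : ℝ
  f₀ : ℝ
  F₁ : ℝ
  Tm : ℕ
  x₀ : CV d
  c₀ : ℝ
  ε₀ : ℝ
  σ₀ : ℝ
  α : ℝ
  g₀ : ℝ
  η₁ : ℝ

namespace Dat

variable {β : ℝ} {d m s : ℕ} (D : Dat β d m s)

/-- the box -/
def bx : Set (Ix d (2 * d) s → ℂ) :=
  {y | ‖yx y - D.uf‖ ≤ (D.Tm + 2) * D.Dsp ∧ ∀ i, ‖yc y i - D.cl i‖ ≤ D.ρ}

/-- the windows -/
def wn : Set (Ix d (2 * d) s → ℂ) :=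
  {y | ∀ j, D.rr / 2 * ‖D.Df j y‖ ≤ ‖D.Nf j y‖ ∧ ‖D.Nf j y‖ ≤ D.RR * ‖D.Df j y‖}

/-- the functions which measure the distance to the targets -/
noncomputable def Ps (j : Fin m) (y : Ix d (2 * d) s → ℂ) : ℂ := D.Nf j y / D.Df j y

/-- their logarithms -/
noncomputable def lg (j : Fin m) (y : Ix d (2 * d) s → ℂ) : ℝ :=
  Real.log (‖D.Nf j y‖ / ‖D.Df j y‖)

/-- the sum of the logarithms -/
noncomputable def Psi (I : Finset (Fin m)) (y : Ix d (2 * d) s → ℂ) : ℝ :=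
  ∑ j ∈ Iᶜ, D.lg j y + I.card * Real.log D.rr

/-- the radii -/
noncomputable def rad (T : ℕ) : ℝ := D.ra * (1 + T / (D.Tm + 1))

/-- the positions -/
noncomputable def pv (i : Pt d) (y : Ix d (2 * d) s → ℂ) : ℂ :=
  D.KK (D.ks i) (yx y, (D.S.F (yx y))^[D.ls i] (pc y i, 1))

/-- The properties of the data. -/
structure Ok : Prop where
  hβ1 : 1 / 2 < β
  hβ2 : β < 1
  card : D.A.card + m = 2 * d
  co : ∀ x ∈ D.S.U, D.S.co x = fam x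
  koe : D.S.Koe D.KK
  lin : D.S.Lin D.KK D.N D.r D.ω
  lsp : ∀ i ∈ D.A, D.ls i < D.S.per (D.ks i)
  bA : ∀ j : Fin 2, Sum.inr j ∈ D.A
  σA : ∀ i : Fin (2 * d - 2), Sum.inl i ∉ D.A → ∃ j, D.σ j = i
  Nd : ∀ j, DifferentiableOn ℂ (D.Nf j) {y | yx y ∈ D.S.U}
  Dd : ∀ j, DifferentiableOn ℂ (D.Df j) {y | yx y ∈ D.S.U}
  nz : ∀ y ∈ D.bx, ∀ j, ¬ (D.Nf j y = 0 ∧ D.Df j y = 0)
  bN : ∀ x, ‖x - D.uf‖ ≤ (D.Tm + 2) * D.Dsp → x ∈ D.N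
  prot : ∀ y ∈ D.bx, y ∈ D.wn → ∀ j k, ∀ i ≤ D.Nt + D.S.per k,
    ¬ D.S.InC k (yx y) ((D.S.F (yx y))^[i] (yc y (D.σ j), 1))
  pos1 : ∀ y ∈ D.bx, ∀ i ∈ D.A, (yx y, (D.S.F (yx y))^[D.ls i] (pc y i, 1)) ∈ D.S.Dom (D.ks i)
  pos2 : ∀ y ∈ D.bx, ∀ i ∈ D.A, ‖D.pv i y‖ ≤ D.M
  pos3 : ∀ y ∈ D.bx, ∀ i ∈ D.A, cr ((D.S.F (yx y))^[D.ls i + D.S.per (D.ks i) * D.L] (pc y i, 1))
    (D.S.cht (D.ks i) (yx y) (D.ω (D.ks i) (yx y, D.S.lam (D.ks i) (yx y) ^ D.L * D.pv i y))) = 0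
  ikA : ∀ k, D.ik k ∈ D.A ∧ D.ks (D.ik k) = k
  f0 : 0 < D.f₀
  M0 : 0 ≤ D.M
  MK : D.M / D.f₀ < D.Kc
  strict : ∀ y ∈ D.bx, (∀ j, D.S.Er j y = 0) → ∀ i, ‖yc y i - D.cl i‖ < D.ρ
  F1 : 0 < D.F₁
  KF : D.Kc * (D.S.θ ^ D.L * D.F₁) < D.r
  base : ∀ j : Fin 2, ∃ L' a : ℕ, D.L ≤ L' ∧ a < D.S.per (D.ks (Sum.inr j)) ∧
      D.Nt = D.ls (Sum.inr j) + (D.S.per (D.ks (Sum.inr j)) * L' + a) ∧
      D.S.θ ^ L' * D.F₁ < 3 * D.ra
  per : ∀ k, D.S.per k ∣ D.Nt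
  ra0 : 0 < D.ra
  Kra : D.Kc * (3 * D.ra) < D.r
  rr0 : 0 < D.rr
  rr1 : D.rr ≤ 1
  rR : 2 * D.rr < D.RR
  dsp : 0 < D.Dsp
  near : ‖fam D.uf - D.x₀‖ + (D.Tm + 2) * D.Dsp < D.σ₀
  di : DIprop β d D.x₀ D.c₀ D.ε₀ D.σ₀
  c0 : 0 < D.c₀
  α0 : 0 < D.α
  η0 : 0 < D.η₁
  b1 : D.g₀ + (D.Tm + 1) * D.η₁ - D.α * (m * Real.log D.rr) ≤ D.ε₀
  b2 : D.g₀ + (D.Tm + 1) * D.η₁ - D.α * (m * Real.log D.rr) < D.c₀ / 2 * D.Dsp ^ 2
  b3 : (D.g₀ + (D.Tm + 1) * D.η₁) / D.α - ((m : ℝ) - 1) * Real.log D.rr < Real.log D.RR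

/-- The state after `T` steps. -/
structure Inv (T : ℕ) (I : Finset (Fin m)) (R : ℕ) (z : Ix d (2 * d) s → ℂ) : Prop where
  good : Goode D.S D.KK D.A D.ks D.ls D.Ps I R z
  inj : Function.Injective (yc z)
  ycl : ∀ i, ‖yc z i - D.cl i‖ ≤ D.ρ
  u : ‖yx z - D.uf‖ < (T + 1) * D.Dsp
  kc : ∀ k, ‖ys z k‖ < D.Kc
  Fup : ∀ i ∈ D.A, ‖D.pv i z / ys z (D.ks i)‖ < D.F₁
  Flow : ∀ k, D.f₀ < ‖D.pv (D.ik k) z / ys z (D.ks (D.ik k))‖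
  win1 : ∀ j ∉ I, D.rr * ‖D.Df j z‖ ≤ ‖D.Nf j z‖ ∧ ‖D.Nf j z‖ < D.RR * ‖D.Df j z‖
  win2 : ∀ j ∈ I, D.rr / 2 * ‖D.Df j z‖ < ‖D.Nf j z‖ ∧ ‖D.Nf j z‖ < 2 * D.rr * ‖D.Df j z‖
  G : D.S.AN β D.ω D.Nt (D.rad T) (yx z) (ys z) + D.α * D.Psi I z < D.g₀ + T * D.η₁

variable {D}

namespace Ok

variable (H : D.Ok)
include H

theorem rad0 (T : ℕ) : 0 < D.rad T := by
  unfold Dat.rad
  have := H.ra0
  positivity

theorem rad_succ (T : ℕ) : D.rad T < D.rad (T + 1) := by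
  unfold Dat.rad
  have := H.ra0
  apply mul_lt_mul_of_pos_left _ this
  have h1 : (0 : ℝ) < D.Tm + 1 := by positivity
  have h2 : (T : ℝ) / (D.Tm + 1) < ((T + 1 : ℕ) : ℝ) / (D.Tm + 1) := by
    apply div_lt_div_of_pos_right _ h1
    push_cast
    linarith
  linarith

theorem rad_lt {T : ℕ} (hT : T ≤ D.Tm + 1) : D.rad T < 3 * D.ra := by
  unfold Dat.rad
  have := H.ra0
  have h1 : (0 : ℝ) < D.Tm + 1 := by positivity
  have h2 : (T : ℝ) / (D.Tm + 1) ≤ 1 := by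
    rw [div_le_one h1]
    exact_mod_cast hT
  nlinarith

/-- the denominators and numerators do not vanish in the windows -/
theorem ne {y : Ix d (2 * d) s → ℂ} (hy : y ∈ D.bx) (hw : y ∈ D.wn) (j : Fin m) :
    D.Df j y ≠ 0 ∧ D.Nf j y ≠ 0 := by
  obtain ⟨h1, h2⟩ := hw j
  have h3 := H.nz y hy j
  have hr := H.rr0
  constructor
  · intro h0
    apply h3
    rw [h0, norm_zero, mul_zero] at h2
    exact ⟨norm_le_zero_iff.1 h2, h0⟩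
  · intro h0
    apply h3
    rw [h0, norm_zero] at h1
    refine ⟨h0, norm_le_zero_iff.1 ?_⟩
    nlinarith [norm_nonneg (D.Df j y)]

theorem Nt_le {T : ℕ} (hT : T ≤ D.Tm) {x : Fin (2 * d) → ℂ} {z : Fin (2 * d) → ℂ}
    (hz : ‖z - D.uf‖ < (T + 1) * D.Dsp) (hx : ‖x - z‖ ≤ D.Dsp) :
    ‖x - D.uf‖ < (T + 2) * D.Dsp ∧ ‖x - D.uf‖ ≤ (D.Tm + 2) * D.Dsp := by
  have hd := H.dsp
  have hT' : (T : ℝ) ≤ D.Tm := by exact_mod_cast hT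
  have h1 : ‖x - D.uf‖ < (T + 2) * D.Dsp := by
    calc ‖x - D.uf‖ = ‖(x - z) + (z - D.uf)‖ := by congr 1; abel
      _ ≤ ‖x - z‖ + ‖z - D.uf‖ := norm_add_le _ _
      _ < D.Dsp + (T + 1) * D.Dsp := by linarith
      _ = (T + 2) * D.Dsp := by ring
  refine ⟨h1, h1.le.trans ?_⟩
  nlinarith

/-- lower bound of the sum of the logarithms -/
theorem psi_low {I : Finset (Fin m)} {y : Ix d (2 * d) s → ℂ}
    (h : ∀ j ∉ I, D.rr * ‖D.Df j y‖ ≤ ‖D.Nf j y‖) (hD : ∀ j, D.Df j y ≠ 0) :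
    m * Real.log D.rr ≤ D.Psi I y := by
  unfold Dat.Psi
  have h1 : ∀ j ∈ Iᶜ, Real.log D.rr ≤ D.lg j y := by
    intro j hj
    apply Real.log_le_log H.rr0
    rw [le_div_iff₀ (norm_pos_iff.2 (hD j))]
    exact h j (Finset.mem_compl.1 hj)
  have h2 := Finset.sum_le_sum h1
  rw [Finset.sum_const, nsmul_eq_mul] at h2
  have h3 : Iᶜ.card + I.card = m := by
    rw [Finset.card_compl, Fintype.card_fin]
    have := Finset.card_le_univ I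
    rw [Fintype.card_fin] at this
    omega
  have h4 : ((Iᶜ.card : ℕ) : ℝ) + I.card = m := by exact_mod_cast h3
  calc (m : ℝ) * Real.log D.rr = Iᶜ.card * Real.log D.rr + I.card * Real.log D.rr := by
        rw [← h4]; ring
    _ ≤ _ := by linarith

/-- upper bound of one logarithm -/
theorem lg_lt {I : Finset (Fin m)} {y : Ix d (2 * d) s → ℂ}
    (h : ∀ j ∉ I, D.rr * ‖D.Df j y‖ ≤ ‖D.Nf j y‖) (hD : ∀ j, D.Df j y ≠ 0)
    (hN : ∀ j, D.Nf j y ≠ 0)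
    (hP : D.Psi I y ≤ (D.g₀ + (D.Tm + 1) * D.η₁) / D.α) {j : Fin m} (hj : j ∉ I) :
    ‖D.Nf j y‖ < D.RR * ‖D.Df j y‖ := by
  have hDj := norm_pos_iff.2 (hD j)
  have hNj := norm_pos_iff.2 (hN j)
  rw [← div_lt_iff₀ hDj]
  have hR : 0 < D.RR := by
    have := H.rR
    have := H.rr0
    linarith
  rw [← Real.log_lt_log_iff (div_pos hNj hDj) hR]
  have h1 : ∀ i ∈ Iᶜ.erase j, Real.log D.rr ≤ D.lg i y := by
    intro i hi
    apply Real.log_le_log H.rr0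
    rw [le_div_iff₀ (norm_pos_iff.2 (hD i))]
    exact h i (Finset.mem_compl.1 (Finset.mem_of_mem_erase hi))
  have h2 := Finset.sum_le_sum h1
  rw [Finset.sum_const, nsmul_eq_mul] at h2
  have hjc : j ∈ Iᶜ := Finset.mem_compl.2 hj
  have h3 : Iᶜ.card + I.card = m := by
    rw [Finset.card_compl, Fintype.card_fin]
    have := Finset.card_le_univ I
    rw [Fintype.card_fin] at this
    omega
  have h5 : (Iᶜ.erase j).card + 1 = Iᶜ.card := Finset.card_erase_add_one hjc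
  have h4 : (((Iᶜ.erase j).card : ℕ) : ℝ) + I.card = m - 1 := by
    have : (((Iᶜ.erase j).card + 1 + I.card : ℕ) : ℝ) = m := by rw [h5]; exact_mod_cast h3
    push_cast at this
    linarith
  have h6 : D.Psi I y = D.lg j y + ∑ i ∈ Iᶜ.erase j, D.lg i y + I.card * Real.log D.rr := by
    unfold Dat.Psi
    rw [← Finset.add_sum_erase _ (fun j => D.lg j y) hjc]
  have h7 : ((m : ℝ) - 1) * Real.log D.rr =
      ((Iᶜ.erase j).card : ℝ) * Real.log D.rr + I.card * Real.log D.rr := by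
    rw [← h4]; ring
  have h8 := H.b3
  show D.lg j y < Real.log D.RR
  linarith

end Ok

end Dat

/-- closed sets given by inequalities -/
theorem closed_le' {X : Type*} [TopologicalSpace X] {K : Set X} (hK : IsClosed K) {f g : X → ℝ}
    (hf : ContinuousOn f K) (hg : ContinuousOn g K) : IsClosed (K ∩ {y | f y ≤ g y}) := by
  have h := hK.isClosed_le hf hg
  have e : K ∩ {y | f y ≤ g y} = {y ∈ K | f y ≤ g y} := by ext y; simp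
  rw [e]
  exact h

theorem closed_eq' {X : Type*} [TopologicalSpace X] {K : Set X} (hK : IsClosed K) {f g : X → ℂ}
    (hf : ContinuousOn f K) (hg : ContinuousOn g K) : IsClosed (K ∩ {y | f y = g y}) := by
  have h := (hf.sub hg).preimage_isClosed_of_isClosed hK (isClosed_singleton (x := (0 : ℂ)))
  convert h using 1
  ext y
  simp only [mem_inter_iff, mem_ofPred_eq, mem_preimage, mem_singleton_iff, Pi.sub_apply,
    sub_eq_zero]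

end Pool.Agent.Zk23
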