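import Mathlib
import Pool.Agent.Zk23.ETS

/-! Every assignment of the free critical points, part 5: one step of the construction. -/

set_option autoImplicit false
set_option linter.unusedVariables false

open Topology Filter Metric Set MeasureTheory
open Pool.Agent.H790R3.RB (CV hF cr ND wr rt Ix yx yc yx_diff yc_diff exists_low lsc_comp)
open Pool.Agent.W757.RD
open Pool.Agent.W440.RE.JT (prod_diff)
open Pool.Agent.W402.RE.MINP (ys_diff DIprop exists_L)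

namespace Pool.Agent.Zk23

/-- logarithm of the auxiliary function -/
theorem log_aux {m : ℕ} (s : Finset (Fin m)) (g : ℂ) (a b : Fin m → ℂ) (hg : g ≠ 0)
    (ha : ∀ j, a j ≠ 0) (hb : ∀ j, b j ≠ 0) (p : ℕ) :
    Real.log ‖g * ∏ j ∈ s, (a j / b j) ^ p‖ =
      Real.log ‖g‖ - p * ∑ j ∈ s, Real.log (‖b j‖ / ‖a j‖) := by
  have h1 : ∀ j, ‖(a j / b j) ^ p‖ ≠ 0 := fun j =>
    norm_ne_zero_iff.2 (pow_ne_zero _ (div_ne_zero (ha j) (hb j)))
  rw [norm_mul, norm_prod, Real.log_mul (norm_ne_zero_iff.2 hg)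
    (Finset.prod_ne_zero_iff.2 fun j _ => h1 j), Real.log_prod (fun j _ => h1 j), Finset.mul_sum,
    sub_eq_add_neg, ← Finset.sum_neg_distrib]
  congr 1
  refine Finset.sum_congr rfl fun j _ => ?_
  rw [norm_pow, Real.log_pow, norm_div, Real.log_div (norm_ne_zero_iff.2 (ha j))
    (norm_ne_zero_iff.2 (hb j)), Real.log_div (norm_ne_zero_iff.2 (hb j))
    (norm_ne_zero_iff.2 (ha j))]
  ring

/-- quotients -/
theorem diffOn_div {E : Type*} [NormedAddCommGroup E] [NormedSpace ℂ E] {f g : E → ℂ} {s : Set E}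
    (hf : DifferentiableOn ℂ f s) (hg : DifferentiableOn ℂ g s) (h0 : ∀ y ∈ s, g y ≠ 0) :
    DifferentiableOn ℂ (fun y => f y / g y) s := by
  have h1 : DifferentiableOn ℂ (fun y => (g y)⁻¹) s := fun y hy =>
    (differentiableAt_inv (h0 y hy)).comp_differentiableWithinAt y (hg y hy)
  have h2 := hf.mul h1
  refine h2.congr fun y _ => ?_
  rw [Pi.mul_apply, div_eq_mul_inv]

theorem Dat.Ok.step {β : ℝ} {d m s : ℕ} {D : Dat β d m s} (H : D.Ok) {T : ℕ}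
    {I : Finset (Fin m)} {R : ℕ} {z : Ix d (2 * d) s → ℂ} (h : D.Inv T I R z)
    (hI : I ≠ Finset.univ) (hT : T ≤ D.Tm) :
    ∃ (I' : Finset (Fin m)) (R' : ℕ) (z' : Ix d (2 * d) s → ℂ), D.Inv (T + 1) I' R' z' ∧
      ((I' = I ∧ R' = R + 1) ∨ (I ⊂ I' ∧ R' = 0)) := by
  classical
  obtain ⟨hAdm₀, sel, col, hdet₀⟩ := h.good
  have hd : 2 ≤ d := D.S.hd
  obtain ⟨-, -, hfamn, hfamN, -⟩ := p_FM d hd
  obtain ⟨-, hlamθ, -⟩ := p_LAM d (2 * d) s D.S
  obtain ⟨Oo, hOo, hOe, hErd, hKPd, hGrd⟩ :=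
    p_ADO d (2 * d) s 0 D.S D.KK e0 D.A D.ks D.ls H.koe (fun i => i.elim0)
  have hdsp := H.dsp
  have hr0 := H.rr0
  have hη1 := H.η0
  have hα0 := H.α0
  have hc0 := H.c0
  have hNrm : ∀ x ∈ D.S.U, Nrm (D.S.co x) := fun x hx => by rw [H.co x hx]; exact hfamN x
  have hlam0 : ∀ k, D.S.lam k (yx z) ≠ 0 := hAdm₀.lam0
  -- the ball of parameters
  obtain ⟨C, hC⟩ : ∃ C : Set (Fin (2 * d) → ℂ), C = closedBall (yx z) D.Dsp := ⟨_, rfl⟩
  have hCc : IsCompact C := by rw [hC]; exact isCompact_closedBall _ _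
  have hCd : ∀ x ∈ C, ‖x - yx z‖ ≤ D.Dsp := by
    intro x hx
    rwa [hC, mem_closedBall, dist_eq_norm] at hx
  have hCb : ∀ x ∈ C, ‖x - D.uf‖ < (T + 2) * D.Dsp ∧ ‖x - D.uf‖ ≤ (D.Tm + 2) * D.Dsp :=
    fun x hx => H.Nt_le hT h.u (hCd x hx)
  have hCN : C ⊆ D.N := fun x hx => H.bN x (hCb x hx).2
  have hCU : C ⊆ D.S.U := fun x hx => H.lin.NU (hCN hx)
  have hzC : yx z ∈ C := by rw [hC]; exact mem_closedBall_self hdsp.le
  have hzb : z ∈ D.bx := ⟨(hCb _ hzC).2, h.ycl⟩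
  have hzw : z ∈ D.wn := by
    intro j
    by_cases hj : j ∈ I
    · obtain ⟨a, b⟩ := h.win2 j hj
      exact ⟨a.le, b.le.trans (mul_le_mul_of_nonneg_right H.rR.le (norm_nonneg _))⟩
    · obtain ⟨a, b⟩ := h.win1 j hj
      refine ⟨le_trans ?_ a, b.le⟩
      exact mul_le_mul_of_nonneg_right (by linarith) (norm_nonneg _)
  have hzne := H.ne hzb hzw
  -- the relative positions
  obtain ⟨Fh, hFh⟩ : ∃ Fh : Pt d → ℂ, Fh = fun i => D.pv i z / ys z (D.ks i) := ⟨_, rfl⟩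
  have hFhi : ∀ i, Fh i = D.pv i z / ys z (D.ks i) := fun i => by rw [hFh]
  have hKc0 : 0 < D.Kc := (div_nonneg H.M0 H.f0.le).trans_lt H.MK
  have hlamF : ∀ i ∈ D.A, ∀ j : ℕ, ‖D.S.lam (D.ks i) (yx z) ^ j * Fh i‖ ≤ D.S.θ ^ j * D.F₁ := by
    intro i hi j
    rw [norm_mul, norm_pow]
    have h1 : ‖Fh i‖ < D.F₁ := by rw [hFhi]; exact h.Fup i hi
    exact mul_le_mul (pow_le_pow_left₀ (norm_nonneg _) (hlamθ _ _ hAdm₀.xU) j) h1.le (norm_nonneg _)
      (pow_nonneg D.S.hθ0 j)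
  have hKL : ∀ i ∈ D.A, D.Kc * ‖D.S.lam (D.ks i) (yx z) ^ D.L * Fh i‖ < D.r := fun i hi =>
    (mul_le_mul_of_nonneg_left (hlamF i hi D.L) hKc0.le).trans_lt H.KF
  have hbase : ∀ j : Fin 2, ∃ L' a : ℕ, D.L ≤ L' ∧ a < D.S.per (D.ks (Sum.inr j)) ∧
      D.Nt = D.ls (Sum.inr j) + (D.S.per (D.ks (Sum.inr j)) * L' + a) ∧
      ‖D.S.lam (D.ks (Sum.inr j)) (yx z) ^ L' * Fh (Sum.inr j)‖ < 3 * D.ra := by
    intro j
    obtain ⟨L', a, h1, h2, h3, h4⟩ := H.base j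
    exact ⟨L', a, h1, h2, h3, (hlamF _ (H.bA j) L').trans_lt h4⟩
  obtain ⟨LF, hLF⟩ : ∃ LF, LF = D.S.Leaf D.ω e0 D.A D.ks D.ls D.L C D.Kc z Fh := ⟨_, rfl⟩
  have hzL : z ∈ LF := by
    rw [hLF]
    refine ⟨hzC, fun i => i.elim0, fun _ => rfl, hAdm₀.crit, fun k => (h.kc k).le, ?_⟩
    intro i hi
    have h1 := H.pos3 z hzb i hi
    have e1 : ys z (D.ks i) * (D.S.lam (D.ks i) (yx z) ^ D.L * Fh i) =
        D.S.lam (D.ks i) (yx z) ^ D.L * D.pv i z := by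
      rw [hFhi]
      have := hAdm₀.kap0 (D.ks i)
      field_simp
    rw [e1]
    exact h1
  have hcompL : IsCompact LF := by
    rw [hLF]
    exact p_CPT d (2 * d) s 0 D.S D.KK D.r D.N D.ω e0 D.A D.ks D.ls D.L C D.Kc z Fh H.koe H.lin
      (fun i => i.elim0) hCc hCU (fun x hx => hCN hx.1) hKL
  have hLC : ∀ y ∈ LF, yx y ∈ C := by
    intro y hy
    rw [hLF] at hy
    exact hy.1
  have hLU : ∀ y ∈ LF, yx y ∈ D.S.U := fun y hy => hCU (hLC y hy)
  have hLO : ∀ y ∈ LF, y ∈ Oo := by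
    intro y hy
    have h1 := hy
    rw [hLF] at h1
    rw [hOe]
    exact ⟨hLU y hy, fun k => H.lin.lam0 _ (hCN (hLC y hy)) k,
      (p_LF d (2 * d) s 0 D.S D.KK D.r D.N D.ω e0 D.A D.ks D.ls D.L C D.Kc z y Fh H.koe H.lin hlam0
        H.lsp hKL (hCN (hLC y hy)) h1).1⟩
  have hLadm : ∀ y ∈ LF, (∀ k, ys y k ≠ 0) → D.S.Adm D.A D.ks D.ls y ∧
      ∀ i ∈ D.A, D.pv i y / ys y (D.ks i) = Fh i := by
    intro y hy hk
    have h1 := hy
    rw [hLF] at h1
    exact (p_LF d (2 * d) s 0 D.S D.KK D.r D.N D.ω e0 D.A D.ks D.ls D.L C D.Kc z y Fh H.koe H.lin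
      hlam0 H.lsp hKL (hCN (hLC y hy)) h1).2.2 hk
  -- the functions
  have hVo : IsOpen {y : Ix d (2 * d) s → ℂ | yx y ∈ D.S.U} := D.S.hU.preimage yx_diff.continuous
  have hNc : ∀ j, ContinuousOn (D.Nf j) {y | yx y ∈ D.S.U} := fun j => (H.Nd j).continuousOn
  have hDc : ∀ j, ContinuousOn (D.Df j) {y | yx y ∈ D.S.U} := fun j => (H.Dd j).continuousOn
  obtain ⟨O₂, hO₂e⟩ : ∃ O₂ : Set (Ix d (2 * d) s → ℂ),
    O₂ = {y | yx y ∈ D.S.U ∧ ∀ j, D.Df j y ≠ 0} := ⟨_, rfl⟩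
  have hO₂ : IsOpen O₂ := by
    have h1 : O₂ = {y | yx y ∈ D.S.U} ∩ ⋂ j, ({y | yx y ∈ D.S.U} ∩ (D.Df j) ⁻¹' {0}ᶜ) := by
      rw [hO₂e]
      ext y
      simp only [mem_ofPred_eq, mem_inter_iff, mem_iInter, mem_preimage, mem_compl_iff,
        mem_singleton_iff]
      constructor
      · rintro ⟨a, b⟩
        exact ⟨a, fun j => ⟨a, b j⟩⟩
      · rintro ⟨a, b⟩
        exact ⟨a, fun j => (b j).2⟩
    rw [h1]
    exact hVo.inter (isOpen_iInter_of_finite fun j =>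
      (hDc j).isOpen_inter_preimage hVo isOpen_compl_singleton)
  have hPsd : ∀ j ∈ I, DifferentiableOn ℂ (D.Ps j) O₂ := by
    intro j _
    have h1 : O₂ ⊆ {y | yx y ∈ D.S.U} := fun y hy => by rw [hO₂e] at hy; exact hy.1
    refine diffOn_div ((H.Nd j).mono h1) ((H.Dd j).mono h1) ?_
    intro y hy
    rw [hO₂e] at hy
    exact hy.2 j
  obtain ⟨Jt, hJd, hJ0⟩ := jt_ext D.S H.koe D.A D.ks D.ls I sel col hO₂ hPsd
  rw [← hOe] at hJd
  -- the part of the leaf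
  obtain ⟨wl, hwl⟩ : ∃ wl : Fin m → ℝ, wl = fun j => if j ∈ I then D.rr / 2 else D.rr := ⟨_, rfl⟩
  obtain ⟨wh, hwh⟩ : ∃ wh : Fin m → ℝ, wh = fun j => if j ∈ I then 2 * D.rr else D.RR := ⟨_, rfl⟩
  have hwl1 : ∀ j ∈ I, wl j = D.rr / 2 := fun j hj => by rw [hwl]; simp [hj]
  have hwl2 : ∀ j ∉ I, wl j = D.rr := fun j hj => by rw [hwl]; simp [hj]
  have hwh1 : ∀ j ∈ I, wh j = 2 * D.rr := fun j hj => by rw [hwh]; simp [hj]
  have hwh2 : ∀ j ∉ I, wh j = D.RR := fun j hj => by rw [hwh]; simp [hj]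
  obtain ⟨LE, hLE⟩ : ∃ LE : Set (Ix d (2 * d) s → ℂ), LE = {y | y ∈ LF ∧
    (∀ i, ‖yc y i - D.cl i‖ ≤ D.ρ) ∧ (∀ j, wl j * ‖D.Df j y‖ ≤ ‖D.Nf j y‖) ∧
    (∀ j, ‖D.Nf j y‖ ≤ wh j * ‖D.Df j y‖) ∧
    ∀ j ∈ I, D.Nf j y * D.Df j z = D.Nf j z * D.Df j y} := ⟨_, rfl⟩
  have hLEL : LE ⊆ LF := fun y hy => by rw [hLE] at hy; exact hy.1
  have hcompLE : IsCompact LE := by
    refine hcompL.of_isClosed_subset ?_ hLEL
    have hcl := hcompL.isClosed
    have hn : ∀ j, ContinuousOn (fun y => D.Nf j y) LF := fun j => (hNc j).mono hLU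
    have hde : ∀ j, ContinuousOn (fun y => D.Df j y) LF := fun j => (hDc j).mono hLU
    have h1 : LE = LF ∩ ((⋂ i, LF ∩ {y | ‖yc y i - D.cl i‖ ≤ D.ρ}) ∩
        ((⋂ j, LF ∩ {y | wl j * ‖D.Df j y‖ ≤ ‖D.Nf j y‖}) ∩
        ((⋂ j, LF ∩ {y | ‖D.Nf j y‖ ≤ wh j * ‖D.Df j y‖}) ∩
        ⋂ j : {j : Fin m // j ∈ I},
          LF ∩ {y | D.Nf j y * D.Df j z = D.Nf j z * D.Df j y}))) := by
      rw [hLE]
      ext y
      simp only [mem_ofPred_eq, mem_inter_iff, mem_iInter]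
      constructor
      · rintro ⟨a, b, c, e, f⟩
        exact ⟨a, fun i => ⟨a, b i⟩, fun j => ⟨a, c j⟩, fun j => ⟨a, e j⟩,
          fun j => ⟨a, f j.1 j.2⟩⟩
      · rintro ⟨a, b, c, e, f⟩
        exact ⟨a, fun i => (b i).2, fun j => (c j).2, fun j => (e j).2,
          fun j hj => (f ⟨j, hj⟩).2⟩
    rw [h1]
    refine hcl.inter ((isClosed_iInter fun i => ?_).inter ((isClosed_iInter fun j => ?_).inter
      ((isClosed_iInter fun j => ?_).inter (isClosed_iInter fun j => ?_))))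
    · refine closed_le' hcl ?_ continuousOn_const
      exact (((yc_diff i).continuous.sub continuous_const).norm).continuousOn
    · exact closed_le' hcl (continuousOn_const.mul (hde j).norm) (hn j).norm
    · exact closed_le' hcl (hn j).norm (continuousOn_const.mul (hde j).norm)
    · exact closed_eq' hcl ((hn j).mul continuousOn_const) (continuousOn_const.mul (hde j))
  have hLEb : ∀ y ∈ LE, y ∈ D.bx := by
    intro y hy
    refine ⟨(hCb _ (hLC y (hLEL hy))).2, ?_⟩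
    rw [hLE] at hy
    exact hy.2.1
  have hLEw : ∀ y ∈ LE, y ∈ D.wn := by
    intro y hy
    rw [hLE] at hy
    intro j
    have h1 := hy.2.2.1 j
    have h2 := hy.2.2.2.1 j
    have h3 := norm_nonneg (D.Df j y)
    by_cases hj : j ∈ I
    · rw [hwl1 j hj] at h1
      rw [hwh1 j hj] at h2
      exact ⟨h1, h2.trans (mul_le_mul_of_nonneg_right H.rR.le h3)⟩
    · rw [hwl2 j hj] at h1
      rw [hwh2 j hj] at h2
      exact ⟨le_trans (mul_le_mul_of_nonneg_right (by linarith) h3) h1, h2⟩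
  have hzE : z ∈ LE := by
    rw [hLE]
    refine ⟨hzL, h.ycl, fun j => ?_, fun j => ?_, fun j _ => rfl⟩
    · by_cases hj : j ∈ I
      · rw [hwl1 j hj]; exact (h.win2 j hj).1.le
      · rw [hwl2 j hj]; exact (h.win1 j hj).1
    · by_cases hj : j ∈ I
      · rw [hwh1 j hj]; exact (h.win2 j hj).2.le
      · rw [hwh2 j hj]; exact (h.win1 j hj).2.le
  -- the auxiliary functions
  obtain ⟨G₁, hG₁⟩ : ∃ G₁ : (Ix d (2 * d) s → ℂ) → ℂ,
    G₁ = fun y => (Jt y * ∏ k : Fin s, ys y k) * Vd y := ⟨_, rfl⟩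
  have hG₁y : ∀ y, G₁ y = (Jt y * ∏ k : Fin s, ys y k) * Vd y := fun y => by rw [hG₁]
  have hLEO : ∀ y ∈ LE, y ∈ Oo ∩ O₂ := by
    intro y hy
    refine ⟨hLO y (hLEL hy), ?_⟩
    rw [hO₂e]
    exact ⟨hLU y (hLEL hy), fun j => (H.ne (hLEb y hy) (hLEw y hy) j).1⟩
  have hG₁d : DifferentiableOn ℂ G₁ (Oo ∩ O₂) := by
    rw [hG₁]
    refine (hJd.mul ?_).mul vd_diff.differentiableOn
    apply prod_diff
    intro k _
    exact (ys_diff k).differentiableOn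
  have hG₁c : ContinuousOn G₁ LE := hG₁d.continuousOn.mono hLEO
  have hG₁z : G₁ z ≠ 0 := by
    rw [hG₁y]
    refine mul_ne_zero (mul_ne_zero ?_ (Finset.prod_ne_zero_iff.mpr fun k _ => hAdm₀.kap0 _))
      (vd_ne.2 h.inj)
    intro h0
    exact hdet₀ ((hJ0 z hAdm₀.xU hAdm₀.lam0 hAdm₀.att (hLEO z hzE).2 hAdm₀.kap0).mp h0)
  obtain ⟨B, hB⟩ := hcompLE.bddAbove_image hG₁c.norm
  have hB' : ∀ y ∈ LE, ‖G₁ y‖ ≤ max B 1 := fun y hy =>
    (hB (mem_image_of_mem _ hy)).trans (le_max_left _ _)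
  obtain ⟨lj, hlj⟩ : ∃ lj : ℝ, lj = |Real.log ‖G₁ z‖| := ⟨_, rfl⟩
  obtain ⟨lB, hlB⟩ : ∃ lB : ℝ, lB = |Real.log (max B 1)| := ⟨_, rfl⟩
  have hlj0 : 0 ≤ lj := by rw [hlj]; exact abs_nonneg _
  have hlB0 : 0 ≤ lB := by rw [hlB]; exact abs_nonneg _
  obtain ⟨δ₁, hδ₁⟩ : ∃ δ₁ : ℝ, δ₁ = D.η₁ / 2 / (1 + lB + lj) := ⟨_, rfl⟩
  have hδ₁0 : 0 < δ₁ := by rw [hδ₁]; positivity
  obtain ⟨p, hp⟩ := exists_nat_gt (D.α / δ₁)
  have hp0 : (0 : ℝ) < p := (div_pos hα0 hδ₁0).trans hp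
  obtain ⟨δ₀, hδ₀e⟩ : ∃ δ₀ : ℝ, δ₀ = D.α / p := ⟨_, rfl⟩
  have hδ₀ : 0 < δ₀ := by rw [hδ₀e]; positivity
  have hδ₀p : δ₀ * p = D.α := by rw [hδ₀e]; field_simp
  have hδ₀1 : δ₀ < δ₁ := by
    rw [hδ₀e, div_lt_iff₀ hp0]
    rwa [div_lt_iff₀ hδ₁0, mul_comm] at hp
  have hδ₀le : δ₀ * (lB + lj) ≤ D.η₁ / 2 := by
    have h1 : δ₁ * (lB + lj) ≤ D.η₁ / 2 := by
      rw [hδ₁, div_mul_eq_mul_div, div_le_iff₀ (by positivity)]
      nlinarith
    exact (mul_le_mul_of_nonneg_right hδ₀1.le (by positivity)).trans h1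
  obtain ⟨Gt, hGt⟩ : ∃ Gt : (Ix d (2 * d) s → ℂ) → ℂ,
    Gt = fun y => G₁ y * ∏ j ∈ Iᶜ, (D.Df j y / D.Nf j y) ^ p := ⟨_, rfl⟩
  have hGty : ∀ y, Gt y = G₁ y * ∏ j ∈ Iᶜ, (D.Df j y / D.Nf j y) ^ p := fun y => by rw [hGt]
  have hGtlog : ∀ y ∈ D.bx, y ∈ D.wn → G₁ y ≠ 0 →
      Real.log ‖Gt y‖ = Real.log ‖G₁ y‖ - p * ∑ j ∈ Iᶜ, D.lg j y := by
    intro y hy1 hy2 hy3
    have h1 := H.ne hy1 hy2
    rw [hGty]
    exact log_aux Iᶜ (G₁ y) (fun j => D.Df j y) (fun j => D.Nf j y) hy3 (fun j => (h1 j).1)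
      (fun j => (h1 j).2) p
  have hGtd : DifferentiableOn ℂ Gt ((Oo ∩ O₂) ∩ {y | ∀ j, D.Nf j y ≠ 0}) := by
    rw [hGt]
    refine (hG₁d.mono inter_subset_left).mul ?_
    apply prod_diff
    intro j _
    have h1 : (Oo ∩ O₂) ∩ {y | ∀ j, D.Nf j y ≠ 0} ⊆ {y | yx y ∈ D.S.U} := by
      intro y hy
      have := hy.1.2
      rw [hO₂e] at this
      exact this.1
    exact (diffOn_div ((H.Dd j).mono h1) ((H.Nd j).mono h1) (fun y hy => hy.2 j)).pow p
  have hGtc : ContinuousOn (fun y => ‖Gt y‖) LE := by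
    refine (hGtd.continuousOn.mono ?_).norm
    intro y hy
    exact ⟨hLEO y hy, fun j => (H.ne (hLEb y hy) (hLEw y hy) j).2⟩
  have hGtz : 0 < ‖Gt z‖ := by
    rw [norm_pos_iff, hGty]
    refine mul_ne_zero hG₁z (Finset.prod_ne_zero_iff.mpr fun j _ => pow_ne_zero _ ?_)
    exact div_ne_zero (hzne j).1 (hzne j).2
  have hκr : ∀ y ∈ LF, ∀ k, ‖ys y k‖ * (3 * D.ra) < D.r := by
    intro y hy k
    have h1 := hy
    rw [hLF] at h1
    have := H.ra0
    exact (mul_le_mul_of_nonneg_right (h1.2.2.2.2.1 k) (by linarith)).trans_lt H.Kra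
  have hradT : D.rad T < 3 * D.ra := H.rad_lt (by omega)
  have hradT1 : D.rad (T + 1) < 3 * D.ra := H.rad_lt (by omega)
  have hlsc : LowerSemicontinuousOn
      (fun y : Ix d (2 * d) s → ℂ => D.S.AN β D.ω D.Nt (D.rad T) (yx y) (ys y)) LE := by
    refine lsc_comp (g := fun y : Ix d (2 * d) s → ℂ => (yx y, ys y))
      (p_LSC β d (2 * d) s D.S D.KK D.r D.N D.ω D.Nt (D.rad T) H.hβ1 H.hβ2 H.koe H.lin (H.rad0 T))
      ?_ ?_
    · apply Continuous.continuousOn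
      exact yx_diff.continuous.prodMk (continuous_pi fun k => (ys_diff k).continuous)
    · intro y hy
      refine ⟨hCN (hLC y (hLEL hy)), fun k => ?_⟩
      exact (mul_le_mul_of_nonneg_left hradT.le (norm_nonneg _)).trans_lt (hκr y (hLEL hy) k)
  have hhc : ContinuousOn (fun y : Ix d (2 * d) s → ℂ => D.c₀ / 2 * ∑ i : Fin 2 × Fin (d + 1),
      ‖D.S.co (yx y) i - D.S.co (yx z) i‖ ^ 2) LE := by
    apply continuousOn_const.mul
    apply continuousOn_finsetSum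
    intro i _
    have h1 : ContinuousOn (fun y : Ix d (2 * d) s → ℂ => D.S.co (yx y)) LE :=
      D.S.hco.continuousOn.comp yx_diff.continuous.continuousOn (fun y hy => hLU y (hLEL hy))
    exact ((((continuous_apply i).comp_continuousOn h1).sub continuousOn_const).norm).pow 2
  obtain ⟨y, hyE, hGy, hymin⟩ := Pool.Agent.H790R3.RB.MAXI (Ix d (2 * d) s → ℂ) LE _ _ _ z δ₀
    hcompLE hlsc hhc hGtc (fun y _ => norm_nonneg _) hδ₀ hzE hGtz
  -- the minimal point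
  have hyL : y ∈ LF := hLEL hyE
  have hyb := hLEb y hyE
  have hyw := hLEw y hyE
  have hyne := H.ne hyb hyw
  have hyOO := hLEO y hyE
  have hyC : yx y ∈ C := hLC y hyL
  have hyN : yx y ∈ D.N := hCN hyC
  have hyU : yx y ∈ D.S.U := hCU hyC
  have hyG : Gt y ≠ 0 := norm_pos_iff.1 hGy
  have hG₁y0 : G₁ y ≠ 0 := by
    rw [hGty] at hyG
    exact (mul_ne_zero_iff.1 hyG).1
  have hyJV := hG₁y0
  rw [hG₁y] at hyJV
  have hyJ : Jt y ≠ 0 := (mul_ne_zero_iff.1 (mul_ne_zero_iff.1 hyJV).1).1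
  have hyk : ∀ k, ys y k ≠ 0 := fun k =>
    Finset.prod_ne_zero_iff.mp (mul_ne_zero_iff.1 (mul_ne_zero_iff.1 hyJV).1).2 k
      (Finset.mem_univ k)
  have hyV : Function.Injective (yc y) := vd_ne.1 (mul_ne_zero_iff.1 hyJV).2
  obtain ⟨hyA, hyF⟩ := hLadm y hyL hyk
  have hyE' := hyE
  rw [hLE] at hyE'
  obtain ⟨-, -, hyE1, hyE2, hyE3⟩ := hyE'
  have hT' : (T : ℝ) ≤ D.Tm := by exact_mod_cast hT
  -- the inequality
  obtain ⟨Q, hQ⟩ : ∃ Q : ℝ, Q = ∑ i : Fin 2 × Fin (d + 1),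
    ‖D.S.co (yx y) i - D.S.co (yx z) i‖ ^ 2 := ⟨_, rfl⟩
  have hQ0 : 0 ≤ Q := by rw [hQ]; exact Finset.sum_nonneg fun i _ => by positivity
  have hen : D.S.AN β D.ω D.Nt (D.rad T) (yx y) (ys y) + D.c₀ / 2 * Q + D.α * D.Psi I y <
      D.g₀ + T * D.η₁ + D.η₁ / 2 := by
    have h1 := hymin z hzE hGtz
    simp only [sub_self, norm_zero, ne_eq, OfNat.ofNat_ne_zero, not_false_eq_true, zero_pow,
      Finset.sum_const_zero, mul_zero, add_zero] at h1
    rw [← hQ, hGtlog y hyb hyw hG₁y0, hGtlog z hzb hzw hG₁z] at h1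
    have h3 : Real.log ‖G₁ y‖ ≤ lB := by
      rw [hlB]
      exact (Real.log_le_log (norm_pos_iff.2 hG₁y0) (hB' y hyE)).trans (le_abs_self _)
    have h4 : - lj ≤ Real.log ‖G₁ z‖ := by rw [hlj]; exact neg_abs_le _
    have h5 := h.G
    have h6 : D.Psi I y = ∑ j ∈ Iᶜ, D.lg j y + I.card * Real.log D.rr := rfl
    have h7 : D.Psi I z = ∑ j ∈ Iᶜ, D.lg j z + I.card * Real.log D.rr := rfl
    have h8 : ∀ a : ℝ, δ₀ * (p * a) = D.α * a := fun a => by rw [← mul_assoc, hδ₀p]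
    rw [mul_sub, mul_sub, h8, h8] at h1
    have h9 := mul_le_mul_of_nonneg_left h3 hδ₀.le
    have h10 := mul_le_mul_of_nonneg_left h4 hδ₀.le
    rw [h6]
    rw [h7] at h5
    nlinarith
  have hANy0 : 0 ≤ D.S.AN β D.ω D.Nt (D.rad T) (yx y) (ys y) := ENNReal.toReal_nonneg
  have hlow : m * Real.log D.rr ≤ D.Psi I y := by
    refine H.psi_low (fun j hj => ?_) (fun j => (hyne j).1)
    have := hyE1 j
    rwa [hwl2 j hj] at this
  have hlow' := mul_le_mul_of_nonneg_left hlow hα0.le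
  have hTη : (T : ℝ) * D.η₁ ≤ D.Tm * D.η₁ := mul_le_mul_of_nonneg_right hT' hη1.le
  have hANε : D.S.AN β D.ω D.Nt (D.rad T) (yx y) (ys y) ≤ D.ε₀ := by
    have h1 := H.b1
    nlinarith [mul_nonneg (half_pos hc0).le hQ0]
  have hup : D.Psi I y ≤ (D.g₀ + (D.Tm + 1) * D.η₁) / D.α := by
    rw [le_div_iff₀ hα0]
    nlinarith [mul_nonneg (half_pos hc0).le hQ0]
  have hRR : ∀ j ∉ I, ‖D.Nf j y‖ < D.RR * ‖D.Df j y‖ := fun j hj => by
    refine H.lg_lt (fun j hj => ?_) (fun j => (hyne j).1) (fun j => (hyne j).2) hup hj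
    have := hyE1 j
    rwa [hwl2 j hj] at this
  have hQlt : Q < D.Dsp ^ 2 := by
    have h1 := H.b2
    have h2 : D.c₀ / 2 * Q < D.c₀ / 2 * D.Dsp ^ 2 := by nlinarith
    exact lt_of_mul_lt_mul_left h2 (half_pos hc0).le
  have hdist : ‖yx y - yx z‖ < D.Dsp := by
    have e1 : ‖D.S.co (yx y) - D.S.co (yx z)‖ = ‖yx y - yx z‖ := by
      rw [H.co _ hyU, H.co _ hAdm₀.xU]
      exact hfamn _ _
    have e2 : ‖yx y - yx z‖ ≤ Real.sqrt Q := by
      rw [← e1, pi_norm_le_iff_of_nonneg (Real.sqrt_nonneg _)]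
      intro i
      apply Real.le_sqrt_of_sq_le
      rw [hQ]
      exact Finset.single_le_sum (f := fun i : Fin 2 × Fin (d + 1) =>
        ‖D.S.co (yx y) i - D.S.co (yx z) i‖ ^ 2) (fun i _ => by positivity) (Finset.mem_univ i)
    calc ‖yx y - yx z‖ ≤ Real.sqrt Q := e2
      _ < Real.sqrt (D.Dsp ^ 2) := Real.sqrt_lt_sqrt hQ0 hQlt
      _ = D.Dsp := Real.sqrt_sq hdsp.le
  have hwI : ∀ j ∈ I, D.rr / 2 * ‖D.Df j y‖ < ‖D.Nf j y‖ ∧
      ‖D.Nf j y‖ < 2 * D.rr * ‖D.Df j y‖ := by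
    intro j hj
    have h1 := congrArg norm (hyE3 j hj)
    rw [norm_mul, norm_mul] at h1
    obtain ⟨h2, h3⟩ := h.win2 j hj
    have h4 := norm_pos_iff.2 (hyne j).1
    have h5 := norm_pos_iff.2 (hzne j).1
    constructor
    · apply lt_of_mul_lt_mul_right _ h5.le
      rw [h1]
      calc D.rr / 2 * ‖D.Df j y‖ * ‖D.Df j z‖ = D.rr / 2 * ‖D.Df j z‖ * ‖D.Df j y‖ := by ring
        _ < ‖D.Nf j z‖ * ‖D.Df j y‖ := mul_lt_mul_of_pos_right h2 h4
    · apply lt_of_mul_lt_mul_right _ h5.le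
      rw [h1]
      calc ‖D.Nf j z‖ * ‖D.Df j y‖ < 2 * D.rr * ‖D.Df j z‖ * ‖D.Df j y‖ :=
            mul_lt_mul_of_pos_right h3 h4
        _ = 2 * D.rr * ‖D.Df j y‖ * ‖D.Df j z‖ := by ring
  have hycl := H.strict y hyb hyA.crit
  have hFhn : ∀ k, D.f₀ < ‖Fh (D.ik k)‖ := fun k => by rw [hFhi]; exact h.Flow k
  have hykc : ∀ k, ‖ys y k‖ < D.Kc := by
    intro k
    obtain ⟨h1, h2⟩ := H.ikA k
    have h3 := hyF (D.ik k) h1
    rw [h2] at h3
    have h4 : ‖Fh (D.ik k)‖ * ‖ys y k‖ = ‖D.pv (D.ik k) y‖ := by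
      rw [← h3, ← norm_mul, div_mul_cancel₀ _ (hyk k)]
    have h5 := H.pos2 y hyb _ h1
    have h6 : ‖ys y k‖ ≤ D.M / D.f₀ := by
      rw [le_div_iff₀ H.f0]
      have := mul_le_mul_of_nonneg_right (hFhn k).le (norm_nonneg (ys y k))
      linarith [mul_comm ‖ys y k‖ D.f₀]
    exact h6.trans_lt H.MK
  -- near the minimal point
  have hysc : ∀ k, ContinuousAt (fun z' : Ix d (2 * d) s → ℂ => ys z' k) y := fun k =>
    (ys_diff k).continuous.continuousAt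
  have hpvc : ∀ i ∈ D.A, ContinuousAt (fun z' => D.pv i z' / ys z' (D.ks i)) y := by
    intro i hi
    have h1 : ContinuousAt (D.pv i) y :=
      ((hKPd i hi).differentiableAt (hOo.mem_nhds hyOO.1)).continuousAt
    exact h1.div (hysc _) (hyk _)
  have hNcy : ∀ j, ContinuousAt (D.Nf j) y := fun j => (hNc j).continuousAt (hVo.mem_nhds hyU)
  have hDcy : ∀ j, ContinuousAt (D.Df j) y := fun j => (hDc j).continuousAt (hVo.mem_nhds hyU)
  have E1 : ∀ᶠ z' in 𝓝 y, ∀ i, ‖yc z' i - D.cl i‖ < D.ρ := by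
    refine eventually_all.2 fun i => ?_
    exact (((yc_diff i).continuous.sub continuous_const).norm).continuousAt.eventually_lt
      continuousAt_const (hycl i)
  have E2 : ∀ᶠ z' in 𝓝 y, ‖yx z' - D.uf‖ < (T + 2) * D.Dsp :=
    ((yx_diff.continuous.sub continuous_const).norm).continuousAt.eventually_lt
      continuousAt_const (hCb _ hyC).1
  have E3 : ∀ᶠ z' in 𝓝 y, ∀ k, ‖ys z' k‖ < D.Kc := by
    refine eventually_all.2 fun k => ?_
    exact (hysc k).norm.eventually_lt continuousAt_const (hykc k)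
  have E4 : ∀ᶠ z' in 𝓝 y, ∀ i, i ∈ D.A → ‖D.pv i z' / ys z' (D.ks i)‖ < D.F₁ := by
    refine eventually_all.2 fun i => ?_
    by_cases hi : i ∈ D.A
    · have h1 : ‖D.pv i y / ys y (D.ks i)‖ < D.F₁ := by
        rw [hyF i hi, hFhi]; exact h.Fup i hi
      exact ((hpvc i hi).norm.eventually_lt continuousAt_const h1).mono fun _ a _ => a
    · exact Eventually.of_forall fun _ a => absurd a hi
  have E5 : ∀ᶠ z' in 𝓝 y, ∀ k, D.f₀ < ‖D.pv (D.ik k) z' / ys z' (D.ks (D.ik k))‖ := by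
    refine eventually_all.2 fun k => ?_
    have h1 : D.f₀ < ‖D.pv (D.ik k) y / ys y (D.ks (D.ik k))‖ := by
      rw [hyF _ (H.ikA k).1]; exact hFhn k
    exact continuousAt_const.eventually_lt (hpvc _ (H.ikA k).1).norm h1
  have E6 : ∀ᶠ z' in 𝓝 y, D.S.AN β D.ω D.Nt (D.rad (T + 1)) (yx z') (ys z') <
      D.S.AN β D.ω D.Nt (D.rad T) (yx y) (ys y) + D.η₁ / 4 := by
    have h1 := an_drift D.S D.Nt (β := β) H.hβ1 H.hβ2 H.koe H.lin (H.rad0 T) (H.rad_succ T)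
      (q₀ := (yx y, ys y)) hyN hyk (fun k =>
        (mul_le_mul_of_nonneg_left hradT1.le (norm_nonneg _)).trans_lt (hκr y hyL k))
      (η := D.η₁ / 4) (by positivity)
    have h2 : Continuous fun z' : Ix d (2 * d) s → ℂ => (yx z', ys z') :=
      yx_diff.continuous.prodMk (continuous_pi fun k => (ys_diff k).continuous)
    exact h2.continuousAt.eventually h1
  have E7 : ∀ᶠ z' in 𝓝 y, D.α * D.Psi I z' < D.α * D.Psi I y + D.η₁ / 4 := by
    have h1 : ContinuousAt (fun z' => D.α * D.Psi I z') y := by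
      refine continuousAt_const.mul ?_
      unfold Dat.Psi
      refine ContinuousAt.add ?_ continuousAt_const
      refine tendsto_finsetSum _ fun j _ => ?_
      unfold Dat.lg
      exact ((hNcy j).norm.div (hDcy j).norm (norm_ne_zero_iff.2 (hyne j).1)).log
        (div_ne_zero (norm_ne_zero_iff.2 (hyne j).2) (norm_ne_zero_iff.2 (hyne j).1))
    exact h1.eventually_lt continuousAt_const (by linarith)
  have E8 : ∀ᶠ z' in 𝓝 y, ∀ j ∈ I, D.rr / 2 * ‖D.Df j z'‖ < ‖D.Nf j z'‖ ∧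
      ‖D.Nf j z'‖ < 2 * D.rr * ‖D.Df j z'‖ := by
    refine (eventually_all.2 fun j => ?_ : ∀ᶠ z' in 𝓝 y, ∀ j, j ∈ I → _)
    by_cases hj : j ∈ I
    · have h1 := (continuousAt_const.mul (hDcy j).norm).eventually_lt (hNcy j).norm (hwI j hj).1
      have h2 := (hNcy j).norm.eventually_lt (continuousAt_const.mul (hDcy j).norm) (hwI j hj).2
      filter_upwards [h1, h2] with z' a b _ using ⟨a, b⟩
    · exact Eventually.of_forall fun _ a => absurd a hj
  by_cases hact : ∃ j, j ∉ I ∧ ‖D.Nf j y‖ = D.rr * ‖D.Df j y‖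
  · -- a new function reaches the lower bound
    obtain ⟨j, hj, hjr⟩ := hact
    have hPsi : D.Psi (insert j I) y = D.Psi I y := by
      have e1 : (insert j I)ᶜ = Iᶜ.erase j := by
        ext i
        simp only [Finset.mem_compl, Finset.mem_insert, Finset.mem_erase]
        tauto
      have e2 : D.lg j y = Real.log D.rr := by
        unfold Dat.lg
        rw [hjr, mul_div_assoc, div_self (norm_ne_zero_iff.2 (hyne j).1), mul_one]
      unfold Dat.Psi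
      rw [e1, Finset.card_insert_of_notMem hj,
        ← Finset.add_sum_erase Iᶜ (fun i => D.lg i y) (Finset.mem_compl.2 hj), e2]
      push_cast
      ring
    refine ⟨insert j I, 0, y, ⟨goode_zero hyA hyV, hyV, fun i => (hycl i).le, ?_, hykc, ?_, ?_, ?_,
      ?_, ?_⟩, Or.inr ⟨Finset.ssubset_insert hj, rfl⟩⟩
    · have := E2.self_of_nhds
      push_cast
      linarith
    · intro i hi
      exact E4.self_of_nhds i hi
    · exact E5.self_of_nhds
    · intro i hi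
      have hi' : i ∉ I := fun a => hi (Finset.mem_insert_of_mem a)
      have := hyE1 i
      rw [hwl2 i hi'] at this
      exact ⟨this, hRR i hi'⟩
    · intro i hi
      rcases Finset.mem_insert.1 hi with rfl | hi'
      · have h4 := norm_pos_iff.2 (hyne i).1
        rw [hjr]
        constructor
        · exact mul_lt_mul_of_pos_right (by linarith) h4
        · exact mul_lt_mul_of_pos_right (by linarith) h4
      · exact hwI i hi'
    · rw [hPsi]
      have h6 := E6.self_of_nhds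
      have h7 := mul_nonneg (half_pos hc0).le hQ0
      push_cast
      linarith
  · -- no function reaches the lower bound
    push Not at hact
    have hst : ∀ j ∉ I, D.rr * ‖D.Df j y‖ < ‖D.Nf j y‖ := by
      intro j hj
      have := hyE1 j
      rw [hwl2 j hj] at this
      exact lt_of_le_of_ne this (Ne.symm (hact j hj))
    by_contra hcon
    have hcon' : ∀ z', ¬ D.Inv (T + 1) I (R + 1) z' := fun z' hz' =>
      hcon ⟨I, R + 1, z', hz', Or.inl ⟨rfl, rfl⟩⟩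
    have E9 : ∀ᶠ z' in 𝓝 y, ∀ j ∉ I, D.rr * ‖D.Df j z'‖ < ‖D.Nf j z'‖ ∧
        ‖D.Nf j z'‖ < D.RR * ‖D.Df j z'‖ := by
      refine (eventually_all.2 fun j => ?_ : ∀ᶠ z' in 𝓝 y, ∀ j, j ∉ I → _)
      by_cases hj : j ∈ I
      · exact Eventually.of_forall fun _ a => absurd hj a
      · have h1 := (continuousAt_const.mul (hDcy j).norm).eventually_lt (hNcy j).norm (hst j hj)
        have h2 := (hNcy j).norm.eventually_lt (continuousAt_const.mul (hDcy j).norm) (hRR j hj)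
        filter_upwards [h1, h2] with z' a b _ using ⟨a, b⟩
    have E10 : ∀ᶠ z' in 𝓝 y, z' ∈ Oo ∩ O₂ := (hOo.inter hO₂).mem_nhds hyOO
    have E11 : ∀ᶠ z' in 𝓝 y, G₁ z' ≠ 0 :=
      ((hG₁d.differentiableAt ((hOo.inter hO₂).mem_nhds hyOO)).continuousAt).eventually_ne hG₁y0
    obtain ⟨Ω, hΩ1, hΩo, hyΩ⟩ := _root_.eventually_nhds_iff.1 (E1.and (E2.and (E3.and (E4.and (E5.and
      (E6.and (E7.and (E8.and (E9.and (E10.and E11))))))))))
    have hΩi : ∀ z' ∈ Ω, Function.Injective (yc z') ∧ (∀ k, ys z' k ≠ 0) := by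
      intro z' hz'
      have h1 := (hΩ1 z' hz').2.2.2.2.2.2.2.2.2.2
      rw [hG₁y] at h1
      exact ⟨vd_ne.1 (mul_ne_zero_iff.1 h1).2, fun k => Finset.prod_ne_zero_iff.mp
        (mul_ne_zero_iff.1 (mul_ne_zero_iff.1 h1).1).2 k (Finset.mem_univ k)⟩
    have hΩb : ∀ z' ∈ Ω, z' ∈ D.bx := by
      intro z' hz'
      obtain ⟨a1, a2, -⟩ := hΩ1 z' hz'
      refine ⟨a2.le.trans ?_, fun i => (a1 i).le⟩
      exact mul_le_mul_of_nonneg_right (by linarith) hdsp.le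
    have hΩw : ∀ z' ∈ Ω, z' ∈ D.wn := by
      intro z' hz' j
      obtain ⟨-, -, -, -, -, -, -, a8, a9, -⟩ := hΩ1 z' hz'
      have h3 := norm_nonneg (D.Df j z')
      by_cases hj : j ∈ I
      · exact ⟨(a8 j hj).1.le, (a8 j hj).2.le.trans (mul_le_mul_of_nonneg_right H.rR.le h3)⟩
      · exact ⟨(mul_le_mul_of_nonneg_right (by linarith) h3).trans (a9 j hj).1.le,
          (a9 j hj).2.le⟩
    have hΩn : ∀ z' ∈ Ω, ∀ j, D.Df j z' ≠ 0 ∧ D.Nf j z' ≠ 0 := fun z' hz' =>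
      H.ne (hΩb z' hz') (hΩw z' hz')
    -- the disc
    have hkopen : IsOpen {z' : Ix d (2 * d) s → ℂ | ∀ k, ys z' k ≠ 0} := by
      have : {z' : Ix d (2 * d) s → ℂ | ∀ k, ys z' k ≠ 0} = ⋂ k, {z' | ys z' k ≠ 0} := by
        ext; simp
      rw [this]
      exact isOpen_iInter_of_finite fun k =>
        isOpen_ne_fun (ys_diff k).continuous continuous_const
    have hgx := gx_diff D.S H.koe D.A D.ks D.ls (Ps := D.Ps) I (O₂ := O₂) hPsd
    rw [← hOe] at hgx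
    have hIc : I.card < m := by
      have := (Finset.card_lt_iff_ne_univ I).2 hI
      rwa [Fintype.card_fin] at this
    have hcard : Fintype.card (Fin (2 * d - 2)) + Fintype.card (Rx d s m D.A I) <
        Fintype.card (Ix d (2 * d) s) := by
      have h1 : Fintype.card (Rx d s m D.A I) = (s + D.A.card) + I.card := by
        simp [Rx, Pool.Agent.W757.RD.Sys.Rw, Fintype.card_sum, Fintype.card_coe]
      have h2 : Fintype.card (Ix d (2 * d) s) = 2 * d + ((2 * d - 2) + s) := by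
        simp [Ix, Fintype.card_sum]
      have h3 := H.card
      rw [h1, h2, Fintype.card_fin]
      omega
    have hdety : (Mr D.S D.KK D.A D.ks D.ls D.Ps I sel col y).det ≠ 0 := by
      intro h0
      exact hyJ ((hJ0 y hyU hyA.lam0 hyA.att hyOO.2 hyk).mpr h0)
    obtain ⟨τ, γ, hτ, hγd, hγ0, hγ', hγ⟩ := Pool.Agent.H790R3.RB.DISC (Ix d (2 * d) s)
      (Fin (2 * d - 2)) (Rx d s m D.A I) D.S.Er (Gx D.S D.KK D.A D.ks D.ls D.Ps I)
      (((Oo ∩ O₂) ∩ {z' | ∀ k, ys z' k ≠ 0}) ∩ Ω) y R sel col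
      (((hOo.inter hO₂).inter hkopen).inter hΩo) ⟨⟨hyOO, hyk⟩, hyΩ⟩
      (fun i => (hErd i).mono (fun z' hz' => hz'.1.1.1))
      (fun a => (hgx a).mono (fun z' hz' => hz'.1)) hcard (fun i => hyA.crit i) (by
        refine mt (fun h => ?_) hdety
        convert h using 2
        ext a c
        rcases a with a | a
        · rfl
        · rfl) (by
        intro z' hz' hEz sel' col'
        by_contra hne
        have hne' : (Mr D.S D.KK D.A D.ks D.ls D.Ps I sel' col' z').det ≠ 0 := by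
          refine mt (fun h => ?_) hne
          convert h using 2
          ext a c
          rcases a with a | a
          · rfl
          · rfl
        obtain ⟨⟨⟨hzO, hzO2⟩, hzk⟩, hzΩ⟩ := hz'
        rw [hOe] at hzO
        obtain ⟨a1, a2, a3, a4, a5, a6, a7, a8, a9, a10, a11⟩ := hΩ1 z' hzΩ
        apply hcon' z'
        refine ⟨⟨⟨hzO.1, hzO.2.1, hzk, hEz, H.lsp, hzO.2.2⟩, sel', col', hne'⟩,
          (hΩi z' hzΩ).1, fun i => (a1 i).le, ?_, a3, fun i hi => a4 i hi, a5,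
          fun j hj => ⟨(a9 j hj).1.le, (a9 j hj).2⟩, a8, ?_⟩
        · push_cast
          linarith
        · have h7 := mul_nonneg (half_pos hc0).le hQ0
          push_cast
          linarith)
    refine no_mine p_LAM p_ADO p_LF p_OPN p_BAD p_NC Pool.Agent.H790R3.RB.CONT D.S hNrm e0
      (fun i => i.elim0) H.koe hΩo hc0 (D.S.co (yx z)) H.di H.lsp (H.bA 0) (H.bA 1) hlam0 H.lin
      (H.rad0 T) hradT H.Kra hKL H.per hbase (Gt := Gt) ?_ ?_ hδ₀ y (by rw [← hLF]; exact hyL) hyN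
      hyΩ ?_ ?_ ?_ hyk hykc ?_ ?_ hANε hτ hγd hγ0 hγ' ?_ ?_
    · refine hGtd.mono fun z' hz' => ⟨(hΩ1 z' hz').2.2.2.2.2.2.2.2.2.1, fun j => (hΩn z' hz' j).2⟩
    · intro z' hz'
      rw [hGty]
      refine mul_ne_zero (hΩ1 z' hz').2.2.2.2.2.2.2.2.2.2
        (Finset.prod_ne_zero_iff.mpr fun j _ => pow_ne_zero _ ?_)
      exact div_ne_zero (hΩn z' hz' j).1 (hΩn z' hz' j).2
    · intro z' _ hz' i hi k n hn
      obtain ⟨j, rfl⟩ := H.σA i hi
      exact H.prot z' (hΩb z' hz') (hΩw z' hz') j k n hn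
    · have h1 : ∀ᶠ z' in 𝓝 y, ‖yx z' - yx z‖ < D.Dsp :=
        ((yx_diff.continuous.sub continuous_const).norm).continuousAt.eventually_lt
          continuousAt_const hdist
      filter_upwards [h1] with z' hz' _ _
      rw [hC, mem_closedBall, dist_eq_norm]
      exact hz'.le
    · refine ⟨1, one_pos, fun x hx _ _ hco => ?_⟩
      rw [H.co x hx, H.co _ hyU] at hco
      have h1 := hfamn x (yx y)
      rw [hco, sub_self, norm_zero] at h1
      exact sub_eq_zero.1 (norm_eq_zero.1 h1.symm)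
    · intro k
      refine ⟨D.ik k, (H.ikA k).1, (H.ikA k).2, ?_⟩
      have := hFhn k
      have h0 := H.f0
      intro h1
      rw [h1, norm_zero] at this
      linarith
    · rw [H.co _ hyU]
      have h1 := H.near
      have h2 : ‖fam (yx y) - fam D.uf‖ ≤ (D.Tm + 2) * D.Dsp := by
        rw [hfamn]
        exact (hCb _ hyC).2
      calc ‖fam (yx y) - D.x₀‖ = ‖(fam (yx y) - fam D.uf) + (fam D.uf - D.x₀)‖ := by
            congr 1; abel
        _ ≤ ‖fam (yx y) - fam D.uf‖ + ‖fam D.uf - D.x₀‖ := norm_add_le _ _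
        _ < D.σ₀ := by linarith
    · intro t ht
      exact ⟨(hγ t ht).2.1, fun a => (hγ t ht).2.2 (Sum.inl a)⟩
    · intro t ht htL htΩ
      have htE : γ t ∈ LE := by
        rw [hLE]
        obtain ⟨a1, a2, a3, a4, a5, a6, a7, a8, a9, a10, a11⟩ := hΩ1 (γ t) htΩ
        refine ⟨by rw [hLF]; exact htL, fun i => (a1 i).le, fun j => ?_, fun j => ?_,
          fun j hj => ?_⟩
        · by_cases hj : j ∈ I
          · rw [hwl1 j hj]; exact (a8 j hj).1.le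
          · rw [hwl2 j hj]; exact (a9 j hj).1.le
        · by_cases hj : j ∈ I
          · rw [hwh1 j hj]; exact (a8 j hj).2.le
          · rw [hwh2 j hj]; exact (a9 j hj).2.le
        · have h1 : D.Nf j (γ t) / D.Df j (γ t) = D.Nf j y / D.Df j y :=
            (hγ t ht).2.2 (Sum.inr ⟨j, hj⟩)
          have h2 := hyE3 j hj
          have h3 := (hΩn _ htΩ j).1
          have h4 := (hyne j).1
          rw [div_eq_div_iff h3 h4] at h1
          have h5 : D.Nf j (γ t) * D.Df j z * D.Df j y = D.Nf j z * D.Df j (γ t) * D.Df j y := by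
            linear_combination D.Df j z * h1 + D.Df j (γ t) * h2
          exact mul_right_cancel₀ h4 h5
      have htG : 0 < ‖Gt (γ t)‖ := by
        rw [norm_pos_iff, hGty]
        refine mul_ne_zero (hΩ1 _ htΩ).2.2.2.2.2.2.2.2.2.2
          (Finset.prod_ne_zero_iff.mpr fun j _ => pow_ne_zero _ ?_)
        exact div_ne_zero (hΩn _ htΩ j).1 (hΩn _ htΩ j).2
      exact hymin (γ t) htE htG

end Pool.Agent.Zk23
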