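import Mathlib
import Pool.Agent.Zk23.ETR
import Pool.Agent.Zk23.START

/-! Every assignment of the free critical points, part 7: uniform lemmas near a map. -/

set_option autoImplicit false
set_option linter.unusedVariables false

open Topology Filter Metric Set MeasureTheory
open Pool.Agent.H790R3.RB (CV hF cr ND wr rt Ix yx yc yx_diff yc_diff hF_iter_smul cr_smul_left
  cr_smul_right cr_self cr_iter cr_eq_zero_iff)
open Pool.Agent.W757.RD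
open Pool.Agent.W440.RE.JT (prod_diff)

namespace Pool.Agent.Zk23

variable {d n s : ℕ}

/-- entering a smaller disc is an open condition -/
theorem ev_small (S : Sys d n s) (k : Fin s) (N : ℕ) (ρ : ℝ) {q : (Fin n → ℂ) × (ℂ × ℂ)}
    (hq : q.1 ∈ S.U)
    (h : ∃ a z : ℂ, a ≠ 0 ∧ ‖z‖ < ρ ∧ (S.F q.1)^[N] q.2 = a • S.cht k q.1 z) :
    ∀ᶠ q' in 𝓝 q, ∃ a z : ℂ, a ≠ 0 ∧ ‖z‖ < ρ ∧ (S.F q'.1)^[N] q'.2 = a • S.cht k q'.1 z := by
  obtain ⟨a, z, ha, hz, he⟩ := h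
  have h1 : KOE.den k ((S.F q.1)^[N] q.2) ≠ 0 := by
    rw [he]
    change KOE.den k (a • KOE.chh S.b k q.1 z) ≠ 0
    rw [KOE.den_smul_ch]
    exact ha
  have h2 : ‖KOE.lcc S.b k q.1 ((S.F q.1)^[N] q.2)‖ < ρ := by
    rw [he]
    change ‖KOE.lcc S.b k q.1 (a • KOE.chh S.b k q.1 z)‖ < ρ
    rw [KOE.loc_smul_ch _ _ _ _ ha]
    exact hz
  have c1 : ContinuousAt (fun q : (Fin n → ℂ) × (ℂ × ℂ) => KOE.den k ((S.F q.1)^[N] q.2)) q :=
    (KOE.den_continuous k).continuousAt.comp (KOE.F_diffAt S N hq).continuousAt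
  have c2 : ContinuousAt (fun q : (Fin n → ℂ) × (ℂ × ℂ) =>
      ‖KOE.lcc S.b k q.1 ((S.F q.1)^[N] q.2)‖) q := (KOE.locF_diffAt S k N hq h1).continuousAt.norm
  filter_upwards [c1.eventually_ne h1, c2.eventually_lt continuousAt_const h2] with q' e1 e2
  exact ⟨_, _, e1, e2, KOE.eq_smul_ch S.b k q'.1 e1⟩

/-- positions of the orbit of an attracted point, uniformly near it -/
theorem pos_one (S : Sys d n s) {KK : Fin s → (Fin n → ℂ) × (ℂ × ℂ) → ℂ} {r : ℝ}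
    {N : Set (Fin n → ℂ)} {ω : Fin s → (Fin n → ℂ) × ℂ → ℂ} (hK : S.Koe KK)
    (hL : S.Lin KK N r ω) {x₀ : Fin n → ℂ} (hx : x₀ ∈ N) (k : Fin s) (l : ℕ) {p₀ : ℂ × ℂ}
    (hp : (x₀, (S.F x₀)^[l] p₀) ∈ S.Dom k) :
    ∃ L₁ : ℕ, ∀ᶠ q : (Fin n → ℂ) × (ℂ × ℂ) in 𝓝 (x₀, p₀),
      (q.1, (S.F q.1)^[l] q.2) ∈ S.Dom k ∧
      ‖KK k (q.1, (S.F q.1)^[l] q.2)‖ ≤ ‖KK k (x₀, (S.F x₀)^[l] p₀)‖ + 1 ∧
      ∀ L ≥ L₁, cr ((S.F q.1)^[l + S.per k * L] q.2)
        (S.cht k q.1 (ω k (q.1, S.lam k q.1 ^ L * KK k (q.1, (S.F q.1)^[l] q.2)))) = 0 := by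
  obtain ⟨r', r'', hr'', hr1, hr2, hinv⟩ := hL.inv
  have hxU : x₀ ∈ S.U := hL.NU hx
  have hp' : (x₀, (S.F x₀)^[l] p₀) ∈ S.Dom k := hp
  obtain ⟨-, -, N₀, hN₀⟩ := hp
  obtain ⟨j, a, z, ha, hz, he⟩ := TRF.inC_later S p_LAM hxU k hr'' hN₀
  have he' : (S.F x₀)^[l + S.per k * (j + N₀)] p₀ = a • S.cht k x₀ z := by
    rw [← he]
    simp only
    rw [← Function.iterate_add_apply, ← Function.iterate_add_apply]
    congr 1
    ring
  have e1 := ev_small S k (l + S.per k * (j + N₀)) r'' (q := (x₀, p₀)) hxU ⟨a, z, ha, hz, he'⟩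
  have cF : ContinuousAt (fun q : (Fin n → ℂ) × (ℂ × ℂ) => (q.1, (S.F q.1)^[l] q.2)) (x₀, p₀) :=
    continuousAt_fst.prodMk (KOE.F_diffAt S l (q := (x₀, p₀)) hxU).continuousAt
  have hDo := KOE.isOpen_Dom S p_LAM k
  have e2 : ∀ᶠ q : (Fin n → ℂ) × (ℂ × ℂ) in 𝓝 (x₀, p₀), (q.1, (S.F q.1)^[l] q.2) ∈ S.Dom k :=
    cF.eventually (hDo.mem_nhds hp')
  have e3 : ∀ᶠ q : (Fin n → ℂ) × (ℂ × ℂ) in 𝓝 (x₀, p₀),
      ‖KK k (q.1, (S.F q.1)^[l] q.2)‖ < ‖KK k (x₀, (S.F x₀)^[l] p₀)‖ + 1 := by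
    have c1 : ContinuousAt (fun q : (Fin n → ℂ) × (ℂ × ℂ) =>
        ‖KK k (q.1, (S.F q.1)^[l] q.2)‖) (x₀, p₀) := by
      have c2 : ContinuousAt (KK k) (x₀, (S.F x₀)^[l] p₀) :=
        (hK.dif k).continuousOn.continuousAt (hDo.mem_nhds hp')
      exact (ContinuousAt.comp (f := fun q : (Fin n → ℂ) × (ℂ × ℂ) => (q.1, (S.F q.1)^[l] q.2))
        (g := KK k) c2 cF).norm
    exact c1.eventually_lt continuousAt_const (by simp)
  have e4 : ∀ᶠ q : (Fin n → ℂ) × (ℂ × ℂ) in 𝓝 (x₀, p₀), q.1 ∈ N :=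
    continuousAt_fst.eventually (hL.No.mem_nhds hx)
  refine ⟨j + N₀, ?_⟩
  filter_upwards [e1, e2, e3, e4] with q h1 h2 h3 h4
  refine ⟨h2, h3.le, ?_⟩
  intro L hLL
  obtain ⟨m, rfl⟩ : ∃ m, L = m + (j + N₀) := ⟨L - (j + N₀), by omega⟩
  obtain ⟨b, w, hb, hw, hbw⟩ := h1
  have hw0 : ‖w‖ < S.r₀ k := hw.trans_le (hr1.trans (hr2 k))
  have hqU := hL.NU h4
  obtain ⟨c1, c2, c, hc, hce⟩ := TRF.iter_contr S p_LAM hqU k m hw0
  set w' := (S.hk k q.1)^[m] w with hw'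
  have hw'' : ‖w'‖ < r'' := by
    refine lt_of_le_of_lt c1 (lt_of_le_of_lt ?_ hw)
    have : S.θ ^ m ≤ 1 := pow_le_one₀ S.hθ0 S.hθ.le
    nlinarith [norm_nonneg w]
  have hit : (S.F q.1)^[l + S.per k * (m + (j + N₀))] q.2 =
      (b ^ (d ^ (S.per k * m)) * c) • S.cht k q.1 w' := by
    have e : l + S.per k * (m + (j + N₀)) = S.per k * m + (l + S.per k * (j + N₀)) := by ring
    rw [e, Function.iterate_add_apply, hbw]
    change (hF (S.co q.1))^[S.per k * m] _ = _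
    rw [hF_iter_smul]
    change b ^ (d ^ (S.per k * m)) • (S.F q.1)^[S.per k * m] _ = _
    rw [hce, smul_smul]
  have hbc : b ^ (d ^ (S.per k * m)) * c ≠ 0 := mul_ne_zero (pow_ne_zero _ hb) hc
  have hfe := IN.fe_iter S hK k h2 (m + (j + N₀))
  have hit2 : (S.F q.1)^[S.per k * (m + (j + N₀))] ((S.F q.1)^[l] q.2) =
      (b ^ (d ^ (S.per k * m)) * c) • S.cht k q.1 w' := by
    rw [← hit, ← Function.iterate_add_apply, Nat.add_comm]
  rw [hit2, hK.hom k q.1 _ (IN.dom_cht S hqU k (hL.lam0 _ h4 k) c2) _ hbc] at hfe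
  rw [← hfe, hit]
  have hkk : ‖KK k (q.1, S.cht k q.1 w')‖ < r := (hinv k q.1 h4).2.2 w' hw''
  rw [(hinv k q.1 h4).2.1 w' (hw''.trans_le hr1) hkk, cr_smul_left, cr_self, mul_zero]

/-- the product of the cross products with the points of the marked cycles -/
noncomputable def Bd (S : Sys d n s) (x : Fin n → ℂ) (w : ℂ × ℂ) : ℂ :=
  ∏ k, ∏ a ∈ Finset.range (S.per k), cr w ((S.F x)^[a] (S.cht k x 0))

/-- the degree of `Bd` -/
def Sg (S : Sys d n s) : ℕ := ∑ k, S.per k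

theorem bd_smul (S : Sys d n s) (x : Fin n → ℂ) (c : ℂ) (w : ℂ × ℂ) :
    Bd S x (c • w) = c ^ Sg S * Bd S x w := by
  unfold Bd Sg
  simp only [cr_smul_left, Finset.prod_mul_distrib, Finset.prod_const, Finset.card_range]
  rw [Finset.prod_pow_eq_pow_sum]

theorem cr_diff {E : Type} [NormedAddCommGroup E] [NormedSpace ℂ E] {f g : E → ℂ × ℂ} {s : Set E}
    (hf : DifferentiableOn ℂ f s) (hg : DifferentiableOn ℂ g s) :
    DifferentiableOn ℂ (fun w => cr (f w) (g w)) s := by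
  unfold cr
  exact (hf.fst.mul hg.snd).sub (hf.snd.mul hg.fst)

theorem bd_diff (S : Sys d n s) {E : Type} [NormedAddCommGroup E] [NormedSpace ℂ E]
    {f : E → (Fin n → ℂ)} {g : E → ℂ × ℂ} {s : Set E}
    (hf : DifferentiableOn ℂ f s) (hg : DifferentiableOn ℂ g s) (hU : ∀ y ∈ s, f y ∈ S.U) :
    DifferentiableOn ℂ (fun y => Bd S (f y) (g y)) s := by
  unfold Bd
  apply prod_diff
  intro k _
  apply prod_diff
  intro a _
  refine cr_diff hg ?_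
  have h1 : DifferentiableOn ℂ (fun q : (Fin n → ℂ) × (ℂ × ℂ) => (S.F q.1)^[a] q.2)
      (S.U ×ˢ univ) := fun q hq => (KOE.F_diffAt S a hq.1).differentiableWithinAt
  have h2 : DifferentiableOn ℂ (fun y => (f y, S.cht k (f y) 0)) s := by
    refine hf.prodMk ?_
    unfold Sys.cht
    exact (((S.hb k).comp hf hU).add (differentiableOn_const _)).prodMk (differentiableOn_const _)
  exact h1.comp h2 (fun y hy => ⟨hU y hy, mem_univ _⟩)

theorem bd_cont (S : Sys d n s) :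
    ContinuousOn (fun q : (Fin n → ℂ) × (ℂ × ℂ) => Bd S q.1 q.2) (S.U ×ˢ univ) := 
  (bd_diff S (f := fun q : (Fin n → ℂ) × (ℂ × ℂ) => q.1) (g := fun q => q.2)
    differentiableOn_fst differentiableOn_snd (fun y hy => hy.1)).continuousOn

/-- upper bound of the product -/
theorem bd_le (S : Sys d n s) {C : Set (Fin n → ℂ)} (hC : IsCompact C) (hCU : C ⊆ S.U) :
    ∃ C₁ : ℝ, 0 < C₁ ∧ ∀ x ∈ C, ∀ w : ℂ × ℂ, ‖Bd S x w‖ ≤ C₁ * ‖w‖ ^ Sg S := by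
  have hK : IsCompact (C ×ˢ sphere (0 : ℂ × ℂ) 1) := hC.prod (isCompact_sphere _ _)
  obtain ⟨B, hB⟩ := hK.exists_bound_of_continuousOn
    ((bd_cont S).mono (prod_mono hCU (subset_univ _)))
  refine ⟨max B 1 + ∑ k : Fin s, (1 : ℝ), by positivity, ?_⟩
  intro x hx w
  by_cases hw : w = 0
  · rw [hw]
    have h1 := bd_smul S x 0 0
    rw [zero_smul] at h1
    by_cases hs : Sg S = 0
    · -- no factors
      have : ∀ k, S.per k = 0 := by
        intro k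
        unfold Sg at hs
        exact (Finset.sum_eq_zero_iff.1 hs) k (Finset.mem_univ k)
      have h2 : Bd S x 0 = 1 := by
        unfold Bd
        apply Finset.prod_eq_one
        intro k _
        rw [this k, Finset.range_zero, Finset.prod_empty]
      rw [h2, hs, pow_zero, mul_one, norm_one]
      have h3 : (0 : ℝ) ≤ ∑ k : Fin s, (1 : ℝ) := Finset.sum_nonneg fun _ _ => zero_le_one
      have h4 := le_max_right B 1
      linarith
    · rw [zero_pow hs, zero_mul] at h1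
      rw [h1, norm_zero]
      positivity
  · have hn : 0 < ‖w‖ := norm_pos_iff.2 hw
    have h1 : w = (‖w‖ : ℂ) • (((‖w‖ : ℂ))⁻¹ • w) := by
      rw [smul_smul, mul_inv_cancel₀ (by exact_mod_cast hn.ne'), one_smul]
    have h2 : ‖((‖w‖ : ℂ))⁻¹ • w‖ = 1 := by
      rw [norm_smul, norm_inv, Complex.norm_real, norm_norm, inv_mul_cancel₀ hn.ne']
    have h3 := hB (x, ((‖w‖ : ℂ))⁻¹ • w) ⟨hx, by simpa using h2⟩
    simp only at h3
    have h5 : ‖Bd S x w‖ = ‖w‖ ^ Sg S * ‖Bd S x (((‖w‖ : ℂ))⁻¹ • w)‖ := by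
      conv_lhs => rw [h1]
      rw [bd_smul, norm_mul, norm_pow, Complex.norm_real, norm_norm]
    rw [h5, mul_comm]
    apply mul_le_mul_of_nonneg_right _ (by positivity)
    have h6 : (0 : ℝ) ≤ ∑ k : Fin s, (1 : ℝ) := Finset.sum_nonneg fun _ _ => zero_le_one
    have h4 := le_max_left B 1
    linarith

/-- zeros of the product are attracted -/
theorem bd_zero (S : Sys d n s) {x : Fin n → ℂ} (hx : x ∈ S.U) {w : ℂ × ℂ} (hw : w ≠ 0)
    (h : Bd S x w = 0) : ∃ k, ∃ a < S.per k, cr w ((S.F x)^[a] (S.cht k x 0)) = 0 ∧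
      S.InC k x ((S.F x)^[S.per k - a] w) := by
  unfold Bd at h
  obtain ⟨k, -, hk⟩ := Finset.prod_eq_zero_iff.1 h
  obtain ⟨a, ha, hka⟩ := Finset.prod_eq_zero_iff.1 hk
  have ha := Finset.mem_range.1 ha
  refine ⟨k, a, ha, hka, ?_⟩
  have hnd : ND (S.co x) := S.nd x hx
  have hne : ((S.F x)^[a] (S.cht k x 0)) ≠ 0 := by
    apply hnd.iter_ne a
    unfold Sys.cht
    intro h0
    have := congrArg Prod.snd h0
    simp at this
  obtain ⟨c, hc, he⟩ := (cr_eq_zero_iff hw hne).1 hka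
  obtain ⟨a', z', ha', hz', h1⟩ := S.contr x hx k 0 (by simpa using S.hr₀ k)
  have h2 : (S.F x)^[S.per k - a] w = (c ^ (d ^ (S.per k - a)) * a') • S.cht k x z' := by
    rw [he]
    change (hF (S.co x))^[S.per k - a] _ = _
    rw [hF_iter_smul]
    change c ^ (d ^ (S.per k - a)) • (S.F x)^[S.per k - a] _ = _
    rw [← Function.iterate_add_apply, Nat.sub_add_cancel ha.le]
    change c ^ (d ^ (S.per k - a)) • (hF (S.co x))^[S.per k] (S.b k x + 0, 1) = _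
    rw [h1, smul_smul]
    rfl
  refine ⟨_, z', mul_ne_zero (pow_ne_zero _ hc) ha', ?_, h2⟩
  rw [norm_zero, mul_zero] at hz'
  exact lt_of_le_of_lt hz' (S.hr₀ k)

/-- lower bound of the product at points which are not attracted -/
theorem bd_ge (S : Sys d n s) {x : Fin n → ℂ} (hx : x ∈ S.U) :
    ∃ C₂ : ℝ, 0 < C₂ ∧ ∀ w : ℂ × ℂ, w ≠ 0 → (∀ k, ∀ m : ℕ, ¬ S.InC k x ((S.F x)^[m] w)) →
      C₂ * ‖w‖ ^ Sg S ≤ ‖Bd S x w‖ := by
  set E : Set (ℂ × ℂ) := {w | ∀ k, ∀ m : ℕ, ¬ S.InC k x ((S.F x)^[m] w)} with hE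
  have hEc : IsClosed E := by
    have e : E = ⋂ k, ⋂ m : ℕ, {w | S.InC k x ((S.F x)^[m] w)}ᶜ := by
      ext w
      simp [hE]
    rw [e]
    refine isClosed_iInter fun k => isClosed_iInter fun m => ?_
    rw [isClosed_compl_iff, isOpen_iff_mem_nhds]
    intro w hw
    have h1 := KOE.ev_inC S k m (q := (x, w)) hx hw
    have h2 : Tendsto (fun w : ℂ × ℂ => (x, w)) (𝓝 w) (𝓝 (x, w)) :=
      (Continuous.prodMk continuous_const continuous_id).tendsto _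
    exact h2.eventually h1
  have hK : IsCompact (sphere (0 : ℂ × ℂ) 1 ∩ E) := (isCompact_sphere _ _).inter_right hEc
  have hc : ContinuousOn (fun w : ℂ × ℂ => ‖Bd S x w‖) (sphere (0 : ℂ × ℂ) 1 ∩ E) := by
    refine ContinuousOn.norm ?_
    exact (bd_cont S).comp (f := fun w : ℂ × ℂ => (x, w))
      (Continuous.prodMk continuous_const continuous_id).continuousOn
      (fun w _ => ⟨hx, mem_univ _⟩)
  have hpos : ∀ w ∈ sphere (0 : ℂ × ℂ) 1 ∩ E, 0 < ‖Bd S x w‖ := by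
    rintro w ⟨hw, hwE⟩
    rw [norm_pos_iff]
    intro h0
    have hw0 : w ≠ 0 := by
      rintro rfl
      simp at hw
    obtain ⟨k, a, -, -, hin⟩ := bd_zero S hx hw0 h0
    exact hwE k _ hin
  obtain ⟨C₂, hC₂, hmin⟩ : ∃ C₂ : ℝ, 0 < C₂ ∧ ∀ w ∈ sphere (0 : ℂ × ℂ) 1 ∩ E, C₂ ≤ ‖Bd S x w‖ := by
    rcases (sphere (0 : ℂ × ℂ) 1 ∩ E).eq_empty_or_nonempty with he | hne
    · exact ⟨1, one_pos, by rw [he]; simp⟩
    · obtain ⟨w, hw, hmin⟩ := hK.exists_isMinOn hne hc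
      exact ⟨_, hpos w hw, fun w' hw' => hmin hw'⟩
  refine ⟨C₂, hC₂, ?_⟩
  intro w hw hwE
  have hn : 0 < ‖w‖ := norm_pos_iff.2 hw
  have hn0 : ((‖w‖ : ℂ))⁻¹ ≠ 0 := inv_ne_zero (by exact_mod_cast hn.ne')
  have h1 : w = (‖w‖ : ℂ) • (((‖w‖ : ℂ))⁻¹ • w) := by
    rw [smul_smul, mul_inv_cancel₀ (by exact_mod_cast hn.ne'), one_smul]
  have h2 : ‖((‖w‖ : ℂ))⁻¹ • w‖ = 1 := by
    rw [norm_smul, norm_inv, Complex.norm_real, norm_norm, inv_mul_cancel₀ hn.ne']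
  have h3 : ((‖w‖ : ℂ))⁻¹ • w ∈ sphere (0 : ℂ × ℂ) 1 ∩ E := by
    refine ⟨by simpa using h2, ?_⟩
    intro k m hin
    apply hwE k m
    have e : (S.F x)^[m] (((‖w‖ : ℂ))⁻¹ • w) =
        (((‖w‖ : ℂ))⁻¹) ^ (d ^ m) • (S.F x)^[m] w := hF_iter_smul (S.co x) m _ w
    rw [e] at hin
    obtain ⟨a, z, ha, hz, hh⟩ := hin
    have hne : (((‖w‖ : ℂ))⁻¹) ^ (d ^ m) ≠ 0 := pow_ne_zero _ hn0
    refine ⟨((((‖w‖ : ℂ))⁻¹) ^ (d ^ m))⁻¹ * a, z, mul_ne_zero (inv_ne_zero hne) ha, hz, ?_⟩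
    rw [← smul_smul, ← hh, smul_smul, inv_mul_cancel₀ hne, one_smul]
  have h4 := hmin _ h3
  have h5 : ‖Bd S x w‖ = ‖w‖ ^ Sg S * ‖Bd S x (((‖w‖ : ℂ))⁻¹ • w)‖ := by
    conv_lhs => rw [h1]
    rw [bd_smul, norm_mul, norm_pow, Complex.norm_real, norm_norm]
  rw [h5, mul_comm]
  exact mul_le_mul_of_nonneg_left h4 (by positivity)

end Pool.Agent.Zk23
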