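import Mathlib
import Pool.Agent.Zk23.ETU

/-! Every assignment of the free critical points, part 8: targets. -/

set_option autoImplicit false
set_option linter.unusedVariables false

open Topology Filter Metric Set MeasureTheory
open Pool.Agent.H790R3.RB (CV hF cr ND wr rt Ix yx yc yx_diff yc_diff hF_iter_smul cr_smul_left
  cr_smul_right cr_self cr_iter cr_eq_zero_iff)
open Pool.Agent.W757.RD
open Pool.Agent.W440.RE.JT (prod_diff)

namespace Pool.Agent.Zk23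

variable {d n s : ℕ}

/-- the target in the disc of the cycle `k` -/
noncomputable def tg (S : Sys d n s) (x₀ : Fin n → ℂ) (k : Fin s) : ℂ × ℂ :=
  (S.b k x₀ + ((S.r₀ k / 2 : ℝ) : ℂ), 1)

theorem tg_ne (S : Sys d n s) (x₀ : Fin n → ℂ) (k : Fin s) : tg S x₀ k ≠ 0 := by
  intro h
  have := congrArg Prod.snd h
  simp [tg] at this

/-- points close to the target are in the disc -/
theorem tgt_in (S : Sys d n s) {x₀ : Fin n → ℂ} (hx : x₀ ∈ S.U) (k : Fin s) :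
    ∃ δ : ℝ, 0 < δ ∧ ∀ᶠ x in 𝓝 x₀, ∀ w : ℂ × ℂ, w ≠ 0 → ‖cr w (tg S x₀ k)‖ < δ * ‖w‖ →
      S.InC k x w := by
  set t : ℂ := S.b k x₀ + ((S.r₀ k / 2 : ℝ) : ℂ) with ht
  have hR := S.hr₀ k
  set T : ℝ := max ‖t‖ 1 with hT
  have hT1 : 1 ≤ T := le_max_right _ _
  have hTt : ‖t‖ ≤ T := le_max_left _ _
  refine ⟨min (1 / 2) (S.r₀ k / (16 * T)), lt_min (by norm_num) (by positivity), ?_⟩
  have hbc : ContinuousAt (S.b k) x₀ :=
    ((S.hb k).differentiableAt (S.hU.mem_nhds hx)).continuousAt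
  have e1 : ∀ᶠ x in 𝓝 x₀, ‖S.b k x - S.b k x₀‖ < S.r₀ k / 4 := by
    refine (hbc.sub continuousAt_const).norm.eventually_lt continuousAt_const ?_
    show ‖S.b k x₀ - S.b k x₀‖ < S.r₀ k / 4
    rw [sub_self, norm_zero]
    linarith
  filter_upwards [e1] with x hb w hw hlt
  have hcr : cr w (tg S x₀ k) = w.1 - w.2 * t := by
    unfold cr tg
    simp only [mul_one]
    rw [ht]
  rw [hcr] at hlt
  have hn : 0 < ‖w‖ := norm_pos_iff.2 hw
  have h1 : ‖w.1 - w.2 * t‖ < 1 / 2 * ‖w‖ :=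
    hlt.trans_le (mul_le_mul_of_nonneg_right (min_le_left _ _) hn.le)
  have h2 : ‖w.1 - w.2 * t‖ < S.r₀ k / (16 * T) * ‖w‖ :=
    hlt.trans_le (mul_le_mul_of_nonneg_right (min_le_right _ _) hn.le)
  have h3 : ‖w.1‖ ≤ 1 / 2 * ‖w‖ + ‖w.2‖ * T := by
    calc ‖w.1‖ = ‖(w.1 - w.2 * t) + w.2 * t‖ := by congr 1; ring
      _ ≤ ‖w.1 - w.2 * t‖ + ‖w.2 * t‖ := norm_add_le _ _
      _ ≤ 1 / 2 * ‖w‖ + ‖w.2‖ * T := by
          rw [norm_mul]
          exact add_le_add h1.le (mul_le_mul_of_nonneg_left hTt (norm_nonneg _))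
  have h4 : ‖w‖ ≤ 2 * T * ‖w.2‖ := by
    have h5 : ‖w‖ = max ‖w.1‖ ‖w.2‖ := rfl
    have h6 : ‖w‖ ≤ 1 / 2 * ‖w‖ + ‖w.2‖ * T := by
      conv_lhs => rw [h5]
      apply max_le h3
      have : ‖w.2‖ * 1 ≤ ‖w.2‖ * T := mul_le_mul_of_nonneg_left hT1 (norm_nonneg _)
      linarith
    linarith
  have h20 : w.2 ≠ 0 := by
    intro h0
    rw [h0, norm_zero, mul_zero] at h4
    linarith
  have h2p : 0 < ‖w.2‖ := norm_pos_iff.2 h20
  have h7 : ‖w.1 / w.2 - t‖ < S.r₀ k / 8 := by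
    have e : w.1 / w.2 - t = (w.1 - w.2 * t) / w.2 := by field_simp
    rw [e, norm_div, div_lt_iff₀ h2p]
    calc ‖w.1 - w.2 * t‖ < S.r₀ k / (16 * T) * ‖w‖ := h2
      _ ≤ S.r₀ k / (16 * T) * (2 * T * ‖w.2‖) := mul_le_mul_of_nonneg_left h4 (by positivity)
      _ = S.r₀ k / 8 * ‖w.2‖ := by field_simp; ring
  refine ⟨w.2, w.1 / w.2 - S.b k x, h20, ?_, ?_⟩
  · calc ‖w.1 / w.2 - S.b k x‖ =
        ‖(w.1 / w.2 - t) + ((S.r₀ k / 2 : ℝ) : ℂ) + -(S.b k x - S.b k x₀)‖ := by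
          congr 1; rw [ht]; ring
      _ ≤ ‖(w.1 / w.2 - t) + ((S.r₀ k / 2 : ℝ) : ℂ)‖ + ‖-(S.b k x - S.b k x₀)‖ := norm_add_le _ _
      _ ≤ ‖w.1 / w.2 - t‖ + ‖((S.r₀ k / 2 : ℝ) : ℂ)‖ + ‖-(S.b k x - S.b k x₀)‖ := by
          gcongr; exact norm_add_le _ _
      _ < S.r₀ k := by
          rw [norm_neg, Complex.norm_real, Real.norm_eq_abs, abs_of_pos (by linarith)]
          linarith
  · unfold Sys.cht
    ext
    · simp only [Prod.smul_fst, smul_eq_mul]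
      field_simp
      ring
    · simp

/-- the targets are not on the marked cycles -/
theorem tgt_ne (S : Sys d n s) {x₀ : Fin n → ℂ} (hx : x₀ ∈ S.U) (k' k : Fin s) (a : ℕ)
    (ha : a < S.per k) :
    ∀ᶠ x in 𝓝 x₀, cr ((S.F x)^[a] (S.cht k x 0)) (tg S x₀ k') ≠ 0 := by
  have hF : ContinuousAt (fun x : Fin n → ℂ => (S.F x)^[a] (S.cht k x 0)) x₀ := by
    have h1 := (KOE.F_diffAt S a (q := (x₀, S.cht k x₀ 0)) hx).continuousAt
    have hbc : ContinuousAt (S.b k) x₀ :=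
      ((S.hb k).differentiableAt (S.hU.mem_nhds hx)).continuousAt
    have h2 : ContinuousAt (fun x : Fin n → ℂ => (x, S.cht k x 0)) x₀ := by
      unfold Sys.cht
      exact continuousAt_id.prodMk ((hbc.add continuousAt_const).prodMk continuousAt_const)
    exact ContinuousAt.comp (f := fun x : Fin n → ℂ => (x, S.cht k x 0))
      (g := fun q : (Fin n → ℂ) × (ℂ × ℂ) => (S.F q.1)^[a] q.2) h1 h2
  have hc : ContinuousAt (fun x : Fin n → ℂ => cr ((S.F x)^[a] (S.cht k x 0)) (tg S x₀ k')) x₀ := by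
    unfold cr
    exact (hF.fst.mul continuousAt_const).sub (hF.snd.mul continuousAt_const)
  refine hc.eventually_ne ?_
  intro h0
  have hnd : ND (S.co x₀) := S.nd x₀ hx
  have hne : ((S.F x₀)^[a] (S.cht k x₀ 0)) ≠ 0 := by
    apply hnd.iter_ne a
    unfold Sys.cht
    intro h0
    have := congrArg Prod.snd h0
    simp at this
  obtain ⟨c, hc0, he⟩ := (cr_eq_zero_iff hne (tg_ne S x₀ k')).1 h0
  have hr := S.hr₀ k'
  obtain ⟨h1, h2⟩ := S.sep x₀ hx k k' 0 ((S.r₀ k' / 2 : ℝ) : ℂ) c a (by simpa using S.hr₀ k)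
    (by
      rw [Complex.norm_real, Real.norm_eq_abs, abs_of_pos (by linarith)]
      linarith) he
  have ha0 : a = 0 := Nat.eq_zero_of_dvd_of_lt h2 ha
  subst ha0
  subst h1
  simp only [Function.iterate_zero, id] at he
  unfold Sys.cht tg at he
  have e2 := congrArg Prod.snd he
  have e1 := congrArg Prod.fst he
  simp only [Prod.smul_fst, Prod.smul_snd, smul_eq_mul, mul_one] at e1 e2
  rw [← e2, one_mul, add_zero] at e1
  have e3 : ((S.r₀ k / 2 : ℝ) : ℂ) = 0 := by linear_combination -e1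
  have e4 : S.r₀ k / 2 = 0 := by exact_mod_cast e3
  linarith

/-- points which stay in the discs for a long time are far from the targets -/
theorem deep (S : Sys d n s) {C : Set (Fin n → ℂ)} (hC : IsCompact C) (hCU : C ⊆ S.U) (t : ℂ × ℂ)
    (ht : ∀ x ∈ C, ∀ k, ∀ a < S.per k, cr ((S.F x)^[a] (S.cht k x 0)) t ≠ 0) (RR : ℝ) :
    ∃ T₄ : ℕ, ∀ x ∈ C, ∀ k, ∀ p, S.InC k x p → ∀ N ≥ T₄,
      RR * ‖Bd S x ((S.F x)^[N] p)‖ < ‖cr ((S.F x)^[N] p) t‖ ^ Sg S := by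
  have hev : ∀ᶠ z in 𝓝 (0 : ℂ), ∀ k, ∀ a ∈ Finset.range (S.per k), ∀ x ∈ C,
      RR * ‖Bd S x ((S.F x)^[a] (S.cht k x z))‖ <
        ‖cr ((S.F x)^[a] (S.cht k x z)) t‖ ^ Sg S := by
    refine eventually_all.2 fun k => ?_
    rw [Filter.eventually_all_finset]
    intro a ha
    have ha := Finset.mem_range.1 ha
    refine hC.eventually_forall_of_forall_eventually (P := fun z x =>
      RR * ‖Bd S x ((S.F x)^[a] (S.cht k x z))‖ <
        ‖cr ((S.F x)^[a] (S.cht k x z)) t‖ ^ Sg S) fun x hx => ?_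
    have hxU := hCU hx
    have hbc : ContinuousAt (S.b k) x :=
      ((S.hb k).differentiableAt (S.hU.mem_nhds hxU)).continuousAt
    have h2 : ContinuousAt (fun q : ℂ × (Fin n → ℂ) => (q.2, S.cht k q.2 q.1)) ((0 : ℂ), x) := by
      unfold Sys.cht
      have h3 : ContinuousAt (fun q : ℂ × (Fin n → ℂ) => S.b k q.2) ((0 : ℂ), x) :=
        ContinuousAt.comp (f := fun q : ℂ × (Fin n → ℂ) => q.2) (g := S.b k) hbc continuousAt_snd
      exact continuousAt_snd.prodMk ((h3.add continuousAt_fst).prodMk continuousAt_const)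
    have h1 := (KOE.F_diffAt S a (q := (x, S.cht k x 0)) hxU).continuousAt
    have hF : ContinuousAt (fun q : ℂ × (Fin n → ℂ) => (S.F q.2)^[a] (S.cht k q.2 q.1))
        ((0 : ℂ), x) :=
      ContinuousAt.comp (f := fun q : ℂ × (Fin n → ℂ) => (q.2, S.cht k q.2 q.1))
        (g := fun q : (Fin n → ℂ) × (ℂ × ℂ) => (S.F q.1)^[a] q.2) h1 h2
    have hBd : ContinuousAt (fun q : ℂ × (Fin n → ℂ) =>
        Bd S q.2 ((S.F q.2)^[a] (S.cht k q.2 q.1))) ((0 : ℂ), x) := by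
      have h4 : ContinuousAt (fun q : (Fin n → ℂ) × (ℂ × ℂ) => Bd S q.1 q.2)
          (x, (S.F x)^[a] (S.cht k x 0)) :=
        (bd_cont S).continuousAt ((S.hU.prod isOpen_univ).mem_nhds ⟨hxU, mem_univ _⟩)
      exact ContinuousAt.comp (f := fun q : ℂ × (Fin n → ℂ) =>
        (q.2, (S.F q.2)^[a] (S.cht k q.2 q.1))) (g := fun q : (Fin n → ℂ) × (ℂ × ℂ) =>
        Bd S q.1 q.2) h4 (continuousAt_snd.prodMk hF)
    have hcr : ContinuousAt (fun q : ℂ × (Fin n → ℂ) =>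
        cr ((S.F q.2)^[a] (S.cht k q.2 q.1)) t) ((0 : ℂ), x) := by
      unfold cr
      exact (hF.fst.mul continuousAt_const).sub (hF.snd.mul continuousAt_const)
    refine (continuousAt_const.mul hBd.norm).eventually_lt (hcr.norm.pow _) ?_
    have h5 : Bd S x ((S.F x)^[a] (S.cht k x 0)) = 0 := by
      unfold Bd
      apply Finset.prod_eq_zero (Finset.mem_univ k)
      apply Finset.prod_eq_zero (Finset.mem_range.2 ha)
      exact cr_self _
    show RR * ‖Bd S x ((S.F x)^[a] (S.cht k x 0))‖ < ‖cr ((S.F x)^[a] (S.cht k x 0)) t‖ ^ Sg S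
    rw [h5, norm_zero, mul_zero]
    exact pow_pos (norm_pos_iff.2 (ht x hx k a ha)) _
  obtain ⟨δ, hδ, hball⟩ := Metric.eventually_nhds_iff.1 hev
  have hev2 : ∀ᶠ q : ℕ in atTop, ∀ k, S.θ ^ q * S.r₀ k < δ := by
    refine eventually_all.2 fun k => ?_
    have hlim : Tendsto (fun m : ℕ => S.θ ^ m * (S.r₀ k)) atTop (𝓝 0) := by
      have := (tendsto_pow_atTop_nhds_zero_of_lt_one S.hθ0 S.hθ).mul_const (S.r₀ k)
      simpa using this
    exact hlim.eventually (gt_mem_nhds hδ)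
  obtain ⟨q₀, hq₀⟩ := eventually_atTop.1 hev2
  refine ⟨(∑ k, S.per k) * q₀, ?_⟩
  rintro x hx k p ⟨a, z, ha, hz, hp⟩ N hN
  have hper := S.hper k
  have h1 : S.per k * q₀ ≤ N := by
    refine le_trans (Nat.mul_le_mul_right _ ?_) hN
    exact Finset.single_le_sum (f := fun k => S.per k) (fun k _ => Nat.zero_le _)
      (Finset.mem_univ k)
  have h2 : q₀ ≤ N / S.per k := by
    rw [Nat.le_div_iff_mul_le hper, mul_comm]
    exact h1
  obtain ⟨a', z', ha', hz', hzq, he⟩ := IN.iter S (hCU hx) k ha hz hp (N / S.per k)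
  have h3 : ‖z'‖ < δ := hzq.trans_lt (hq₀ _ h2 k)
  have h4 := hball (y := z') (by simpa using h3) k (N % S.per k)
    (Finset.mem_range.2 (Nat.mod_lt _ hper)) x hx
  have h5 : (S.F x)^[N] p = a' ^ (d ^ (N % S.per k)) • (S.F x)^[N % S.per k] (S.cht k x z') := by
    have e : N = N % S.per k + S.per k * (N / S.per k) := (Nat.mod_add_div _ _).symm
    conv_lhs => rw [e]
    rw [Function.iterate_add_apply, he]
    exact hF_iter_smul (S.co x) _ a' _
  set c := a' ^ (d ^ (N % S.per k)) with hc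
  have hc0 : 0 < ‖c‖ := norm_pos_iff.2 (pow_ne_zero _ ha')
  rw [h5, bd_smul, cr_smul_left, norm_mul, norm_mul, norm_pow, mul_pow]
  have h6 : 0 < ‖c‖ ^ Sg S := pow_pos hc0 _
  calc RR * (‖c‖ ^ Sg S * ‖Bd S x ((S.F x)^[N % S.per k] (S.cht k x z'))‖) =
      ‖c‖ ^ Sg S * (RR * ‖Bd S x ((S.F x)^[N % S.per k] (S.cht k x z'))‖) := by ring
    _ < ‖c‖ ^ Sg S * ‖cr ((S.F x)^[N % S.per k] (S.cht k x z')) t‖ ^ Sg S :=
        mul_lt_mul_of_pos_left h4 h6

end Pool.Agent.Zk23
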