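import Mathlib
import Pool.Agent.Zk23.ETV
import Pool.Agent.Zk23.BNORM

/-! Every assignment of the free critical points, part 9: critical points near given ones. -/

set_option autoImplicit false
set_option linter.unusedVariables false

open Topology Filter Metric Set MeasureTheory
open Pool.Agent.H790R3.RB (CV hF cr ND wr rt Ix yx yc yx_diff yc_diff hF_iter_smul cr_smul_left
  cr_smul_right cr_self cr_iter cr_eq_zero_iff)
open Pool.Agent.W757.RD
open Pool.Agent.W440.RE.JT (prod_diff)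

namespace Pool.Agent.Zk23

/-- equal products of linear factors -/
theorem perm_of_prod {n : ℕ} {c c' : Fin n → ℂ}
    (h : ∀ ζ : ℂ, ∏ i, (ζ - c i) = ∏ i, (ζ - c' i)) : ∃ π : Equiv.Perm (Fin n), ∀ i, c (π i) = c' i := by
  classical
  have h1 : ∀ c : Fin n → ℂ, (∏ i, (Polynomial.X - Polynomial.C (c i))) =
      ((Finset.univ.val.map c).map fun a => Polynomial.X - Polynomial.C a).prod := by
    intro c
    rw [Multiset.map_map]
    rfl
  have h2 : (∏ i, (Polynomial.X - Polynomial.C (c i))) =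
      ∏ i, (Polynomial.X - Polynomial.C (c' i)) := by
    apply Polynomial.funext
    intro ζ
    simp only [Polynomial.eval_prod, Polynomial.eval_sub, Polynomial.eval_X, Polynomial.eval_C]
    exact h ζ
  have h3 : Finset.univ.val.map c = Finset.univ.val.map c' := by
    rw [h1, h1] at h2
    have h4 := congrArg Polynomial.roots h2
    rwa [Polynomial.roots_multiset_prod_X_sub_C, Polynomial.roots_multiset_prod_X_sub_C] at h4
  have h5 : ∀ z : ℂ, Nonempty ({i // c' i = z} ≃ {i // c i = z}) := by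
    intro z
    rw [← Fintype.card_eq]
    have h6 := congrArg (Multiset.count z) h3
    rw [Multiset.count_map, Multiset.count_map] at h6
    rw [Fintype.card_subtype, Fintype.card_subtype]
    have e1 : ∀ c : Fin n → ℂ, (Finset.univ.filter fun i => c i = z).card =
        (Multiset.filter (fun i => z = c i) Finset.univ.val).card := by
      intro c
      rw [← Finset.filter_val]
      change _ = (Finset.filter (fun i => z = c i) Finset.univ).card
      congr 1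
      ext i
      simp [eq_comm]
    rw [e1, e1]
    exact h6.symm
  refine ⟨Equiv.ofFiberEquiv (f := c') (g := c) fun z => (h5 z).some, fun i => ?_⟩
  exact Equiv.ofFiberEquiv_map _ i

/-- critical points are bounded -/
theorem crit_bdd {d : ℕ} (hd : 2 ≤ d) {u₁ : Fin (2 * d) → ℂ} (hu : u₁ ∈ U₀ d) :
    ∃ B : ℝ, 0 < B ∧ ∀ᶠ u in 𝓝 u₁, ∀ ζ : ℂ, wr (fam u) (ζ, 1) = 0 → ‖ζ‖ ≤ B := by
  obtain ⟨hW1, -, -⟩ := Pool.Agent.H790R3.RB.WR d (fam u₁) hd
  have hc : Continuous fun p : (Fin (2 * d) → ℂ) × ℂ => wr (fam p.1) (1, p.2) := by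
    rw [← continuousOn_univ]
    exact Pool.Agent.H790R3.RB.CPT.wr_cont ((fam_cont hd).comp continuous_fst).continuousOn
      (Continuous.continuousOn (by fun_prop))
  have h1 : ∀ᶠ p : (Fin (2 * d) → ℂ) × ℂ in 𝓝 (u₁, 0), wr (fam p.1) (1, p.2) ≠ 0 :=
    (hc.continuousAt (x := (u₁, 0))).eventually_ne hu.2
  obtain ⟨δ, hδ, hball⟩ := Metric.eventually_nhds_iff.1 h1
  refine ⟨2 / δ, by positivity, ?_⟩
  have h2 : ∀ᶠ u in 𝓝 u₁, dist u u₁ < δ := Metric.ball_mem_nhds _ hδ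
  filter_upwards [h2] with u hu' ζ hζ
  by_contra hcon
  push Not at hcon
  have hζ0 : ζ ≠ 0 := by
    rintro rfl
    rw [norm_zero] at hcon
    have : 0 < 2 / δ := by positivity
    linarith
  have hn : 0 < ‖ζ‖ := norm_pos_iff.2 hζ0
  have h3 : dist ((u, ζ⁻¹) : (Fin (2 * d) → ℂ) × ℂ) (u₁, 0) < δ := by
    rw [Prod.dist_eq, max_lt_iff]
    refine ⟨hu', ?_⟩
    simp only [dist_zero_right, norm_inv]
    rw [inv_lt_comm₀ hn hδ]
    calc δ⁻¹ < 2 / δ := by
          rw [div_eq_mul_inv]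
          have : 0 < δ⁻¹ := inv_pos.2 hδ
          linarith
      _ < ‖ζ‖ := hcon
  apply hball h3
  obtain ⟨hW1', -, -⟩ := Pool.Agent.H790R3.RB.WR d (fam u) hd
  have e : ((ζ, 1) : ℂ × ℂ) = ζ • ((1, ζ⁻¹) : ℂ × ℂ) := by
    ext
    · simp
    · simp [mul_inv_cancel₀ hζ0]
  rw [e, hW1'] at hζ
  exact (mul_eq_zero.1 hζ).resolve_left (pow_ne_zero _ hζ0)

/-- critical points of nearby maps are close to the given ones, with multiplicities -/
theorem match_roots {d : ℕ} (hd : 2 ≤ d) {u₁ : Fin (2 * d) → ℂ} (hu : u₁ ∈ U₀ d)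
    (cl : Fin (2 * d - 2) → ℂ)
    (hcl : ∀ ζ : ℂ, wr (fam u₁) (ζ, 1) = wr (fam u₁) (1, 0) * ∏ i, (ζ - cl i))
    (ε : ℝ) (hε : 0 < ε) :
    ∀ᶠ u in 𝓝 u₁, ∀ c : Fin (2 * d - 2) → ℂ,
      (∀ ζ : ℂ, wr (fam u) (ζ, 1) = wr (fam u) (1, 0) * ∏ i, (ζ - c i)) →
      ∃ π : Equiv.Perm (Fin (2 * d - 2)), ∀ i, ‖c (π i) - cl i‖ < ε := by
  classical
  obtain ⟨B, hB, hbdd⟩ := crit_bdd hd hu
  have hK : IsCompact {c : Fin (2 * d - 2) → ℂ | ∀ i, ‖c i‖ ≤ B} := by
    have e : {c : Fin (2 * d - 2) → ℂ | ∀ i, ‖c i‖ ≤ B} =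
        Set.pi univ fun _ => closedBall (0 : ℂ) B := by
      ext c
      simp
    rw [e]
    exact isCompact_univ_pi fun _ => isCompact_closedBall _ _
  have hwc : ∀ ζ : ℂ, Continuous fun u : Fin (2 * d) → ℂ => wr (fam u) (ζ, 1) := by
    intro ζ
    rw [← continuousOn_univ]
    exact Pool.Agent.H790R3.RB.CPT.wr_cont (fam_cont hd).continuousOn continuousOn_const
  have hwc0 : Continuous fun u : Fin (2 * d) → ℂ => wr (fam u) (1, 0) := by
    rw [← continuousOn_univ]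
    exact Pool.Agent.H790R3.RB.CPT.wr_cont (fam_cont hd).continuousOn continuousOn_const
  have h1 : ∀ᶠ u in 𝓝 u₁, ∀ c ∈ {c : Fin (2 * d - 2) → ℂ | ∀ i, ‖c i‖ ≤ B},
      ¬ ((∀ ζ : ℂ, wr (fam u) (ζ, 1) = wr (fam u) (1, 0) * ∏ i, (ζ - c i)) ∧
        ∀ π : Equiv.Perm (Fin (2 * d - 2)), ∃ i, ε ≤ ‖c (π i) - cl i‖) := by
    refine hK.eventually_forall_of_forall_eventually (P := fun u c =>
      ¬ ((∀ ζ : ℂ, wr (fam u) (ζ, 1) = wr (fam u) (1, 0) * ∏ i, (ζ - c i)) ∧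
        ∀ π : Equiv.Perm (Fin (2 * d - 2)), ∃ i, ε ≤ ‖c (π i) - cl i‖)) fun c _ => ?_
    by_cases hc : ∀ ζ : ℂ, wr (fam u₁) (ζ, 1) = wr (fam u₁) (1, 0) * ∏ i, (ζ - c i)
    · obtain ⟨π, hπ⟩ := perm_of_prod (c := c) (c' := cl) fun ζ =>
        mul_left_cancel₀ hu.2 ((hc ζ).symm.trans (hcl ζ))
      have h2 : ∀ᶠ q : (Fin (2 * d) → ℂ) × (Fin (2 * d - 2) → ℂ) in 𝓝 (u₁, c),
          ∀ i, ‖q.2 (π i) - cl i‖ < ε := by
        refine eventually_all.2 fun i => ?_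
        have c1 : Continuous fun q : (Fin (2 * d) → ℂ) × (Fin (2 * d - 2) → ℂ) =>
            ‖q.2 (π i) - cl i‖ := by fun_prop
        refine (c1.continuousAt (x := (u₁, c))).eventually_lt continuousAt_const ?_
        simp only
        rw [hπ, sub_self, norm_zero]
        exact hε
      filter_upwards [h2] with q hq hcon
      obtain ⟨i, hi⟩ := hcon.2 π
      exact absurd (hq i) (not_lt.2 hi)
    · push Not at hc
      obtain ⟨ζ, hζ⟩ := hc
      have c1 : Continuous fun q : (Fin (2 * d) → ℂ) × (Fin (2 * d - 2) → ℂ) =>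
          wr (fam q.1) (ζ, 1) - wr (fam q.1) (1, 0) * ∏ i, (ζ - q.2 i) := by
        refine ((hwc ζ).comp continuous_fst).sub ((hwc0.comp continuous_fst).mul ?_)
        fun_prop
      have h2 : ∀ᶠ q : (Fin (2 * d) → ℂ) × (Fin (2 * d - 2) → ℂ) in 𝓝 (u₁, c),
          wr (fam q.1) (ζ, 1) - wr (fam q.1) (1, 0) * ∏ i, (ζ - q.2 i) ≠ 0 :=
        (c1.continuousAt (x := (u₁, c))).eventually_ne (sub_ne_zero.2 hζ)
      filter_upwards [h2] with q hq hcon
      exact hq (sub_eq_zero.2 (hcon.1 ζ))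
  filter_upwards [h1, hbdd] with u h2 h3 c hc
  by_contra hcon
  push Not at hcon
  refine h2 c (fun i => h3 _ ?_) ⟨hc, hcon⟩
  rw [hc, Finset.prod_eq_zero (Finset.mem_univ i) (sub_self _), mul_zero]

/-- the point of the plane with given critical points -/
noncomputable def pcc {d : ℕ} (c : Fin (2 * d - 2) → ℂ) (i : Pt d) : ℂ :=
  match i with
  | Sum.inl i => c i
  | Sum.inr j => bz j

theorem pc_eq {d n s : ℕ} (y : Ix d n s → ℂ) (i : Pt d) : pc y i = pcc (yc y) i := by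
  rcases i with i | j <;> rfl

theorem pcc_cont {d : ℕ} (i : Pt d) :
    Continuous fun c : Fin (2 * d - 2) → ℂ => pcc c i := by
  rcases i with i | j
  · exact continuous_apply i
  · exact continuous_const

/-- the final configuration -/
noncomputable def yf {d s : ℕ} (uf : Fin (2 * d) → ℂ) (cl : Fin (2 * d - 2) → ℂ) :
    Ix d (2 * d) s → ℂ := Sum.elim uf (Sum.elim cl fun _ => 1)

/-- configurations with simple critical points -/
theorem start {d s : ℕ} (S : Sys d (2 * d) s) (hco : ∀ x ∈ S.U, S.co x = fam x)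
    {uf : Fin (2 * d) → ℂ} (huf : uf ∈ S.U) (hu₀ : uf ∈ U₀ d) (cl : Fin (2 * d - 2) → ℂ)
    (hcl : ∀ ζ : ℂ, wr (fam uf) (ζ, 1) = wr (fam uf) (1, 0) * ∏ i, (ζ - cl i))
    {P : (Ix d (2 * d) s → ℂ) → Prop} (hP : ∀ᶠ y in 𝓝 (yf uf cl), P y) :
    ∃ z : Ix d (2 * d) s → ℂ, P z ∧ (∀ k, ys z k = 1) ∧ (∀ j, S.Er j z = 0) ∧
      Function.Injective (yc z) := by
  have hd := S.hd
  obtain ⟨δ, hδ, hball⟩ := Metric.eventually_nhds_iff.1 hP
  obtain ⟨ρ, hρ, hm⟩ := Metric.eventually_nhds_iff.1 (match_roots hd hu₀ cl hcl δ hδ)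
  obtain ⟨ρU, hρU, hBU⟩ := Metric.isOpen_iff.1 S.hU uf huf
  obtain ⟨x₂, hx₂, hw, ⟨c, hc, hfac⟩, -⟩ := p_GENX d uf 1 hd le_rfl (min δ (min ρ ρU))
    (lt_min hδ (lt_min hρ hρU))
  obtain ⟨π, hπ⟩ := hm (y := x₂) (by
    rw [dist_eq_norm]
    exact hx₂.trans_le ((min_le_right _ _).trans (min_le_left _ _))) c hfac
  have hxU : x₂ ∈ S.U := hBU (by
    rw [mem_ball, dist_eq_norm]
    exact hx₂.trans_le ((min_le_right _ _).trans (min_le_right _ _)))
  refine ⟨Sum.elim x₂ (Sum.elim (fun i => c (π i)) fun _ => 1), ?_, fun k => rfl, ?_, ?_⟩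
  · apply hball
    rw [dist_pi_lt_iff hδ]
    rintro (i | i | i)
    · rw [dist_eq_norm]
      exact lt_of_le_of_lt (norm_le_pi_norm (x₂ - uf) i) (hx₂.trans_le (min_le_left _ _))
    · rw [dist_eq_norm]
      exact hπ i
    · simp [yf, hδ]
  · intro j
    show wr (S.co x₂) (((j : ℕ) : ℂ), 1) - wr (S.co x₂) (1, 0) *
      ∏ i : Fin (2 * d - 2), (((j : ℕ) : ℂ) - c (π i)) = 0
    rw [hco x₂ hxU, hfac, Equiv.prod_comp π (fun i => ((j : ℕ) : ℂ) - c i), sub_self]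
  · exact hc.comp π.injective

end Pool.Agent.Zk23
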