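import Mathlib
import Pool.Agent.Zk23.ETW

/-! Every assignment of the free critical points, part 10: data at the final map. -/

set_option autoImplicit false
set_option linter.unusedVariables false

open Topology Filter Metric Set MeasureTheory
open Pool.Agent.H790R3.RB (CV hF cr ND wr rt Ix yx yc yx_diff yc_diff hF_iter_smul cr_smul_left
  cr_smul_right cr_self cr_iter cr_eq_zero_iff exists_low)
open Pool.Agent.W757.RD
open Pool.Agent.W440.RE.JT (prod_diff)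
open Pool.Agent.W402.RE.MINP (exists_L)

namespace Pool.Agent.Zk23

/-- the attracted points and the free critical points -/
theorem pack1 {d s : ℕ} (S : Sys d (2 * d) s) {uf : Fin (2 * d) → ℂ} (huf : uf ∈ S.U)
    (hlam : ∀ k, S.lam k uf ≠ 0)
    (hbase : ∀ j : Fin 2, ∃ k, ∃ m : ℕ, S.InC k uf ((S.F uf)^[m] (bz j, 1)))
    (cl : Fin (2 * d - 2) → ℂ) (τ : Fin (2 * d - 2) → Fin s)
    (hτ : ∀ i k, ∀ m : ℕ, S.InC k uf ((S.F uf)^[m] (cl i, 1)) → k = τ i) :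
    ∃ (A : Finset (Pt d)) (m : ℕ) (σ : Fin m → Fin (2 * d - 2)) (ks : Pt d → Fin s)
      (ls : Pt d → ℕ), A.card + m = 2 * d ∧ (∀ j : Fin 2, Sum.inr j ∈ A) ∧
      (∀ i : Fin (2 * d - 2), Sum.inl i ∉ A → ∃ j, σ j = i) ∧
      (∀ j k, ∀ m' : ℕ, ¬ S.InC k uf ((S.F uf)^[m'] (cl (σ j), 1))) ∧
      (∀ i : Fin (2 * d - 2), Sum.inl i ∉ A → ∀ k, ∀ m' : ℕ,
        ¬ S.InC k uf ((S.F uf)^[m'] (cl i, 1))) ∧
      (∀ i ∈ A, ls i < S.per (ks i)) ∧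
      (∀ i ∈ A, (uf, (S.F uf)^[ls i] (pcc cl i, 1)) ∈ S.Dom (ks i)) ∧
      ∀ i : Fin (2 * d - 2), Sum.inl i ∈ A → ks (Sum.inl i) = τ i := by
  classical
  set Fr : Finset (Fin (2 * d - 2)) := Finset.univ.filter fun i =>
    ∀ k, ∀ m' : ℕ, ¬ S.InC k uf ((S.F uf)^[m'] (cl i, 1)) with hFr
  have hmem : ∀ i, i ∈ Fr ↔ ∀ k, ∀ m' : ℕ, ¬ S.InC k uf ((S.F uf)^[m'] (cl i, 1)) := by
    intro i
    simp [hFr]
  set A : Finset (Pt d) := (Fr.map ⟨Sum.inl, Sum.inl_injective⟩)ᶜ with hA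
  have hAl : ∀ i : Fin (2 * d - 2), Sum.inl i ∈ A ↔ i ∉ Fr := by
    intro i
    simp [hA]
  have hAr : ∀ j : Fin 2, Sum.inr j ∈ A := by
    intro j
    simp [hA]
  have hatt : ∀ i : Pt d, ∃ (k : Fin s) (M : ℕ), i ∈ A → S.InC k uf ((S.F uf)^[M] (pcc cl i, 1)) := by
    intro i
    obtain ⟨k₀, -, -⟩ := hbase 0
    rcases i with i | j
    · by_cases hi : i ∈ Fr
      · exact ⟨k₀, 0, fun h => absurd hi ((hAl i).1 h)⟩
      · rw [hmem] at hi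
        push Not at hi
        obtain ⟨k, M, h⟩ := hi
        exact ⟨k, M, fun _ => h⟩
    · obtain ⟨k, M, h⟩ := hbase j
      exact ⟨k, M, fun _ => h⟩
  choose ks M hks using hatt
  refine ⟨A, Fr.card, Fr.orderEmbOfFin rfl, ks, fun i => M i % S.per (ks i), ?_, hAr, ?_, ?_, ?_,
    ?_, ?_, ?_⟩
  · have h1 : Fr.card ≤ 2 * d - 2 := by
      have := Finset.card_le_univ Fr
      rwa [Fintype.card_fin] at this
    have h2 : Fintype.card (Pt d) = 2 * d - 2 + 2 := by simp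
    have hd := S.hd
    rw [hA, Finset.card_compl, Finset.card_map, h2]
    omega
  · intro i hi
    have hi' : i ∈ Fr := by
      by_contra h
      exact hi ((hAl i).2 h)
    have h3 : i ∈ Set.range (Fr.orderEmbOfFin rfl) := by
      rw [Finset.range_orderEmbOfFin]
      exact hi'
    exact h3
  · intro j
    exact (hmem _).1 (Finset.orderEmbOfFin_mem Fr rfl j)
  · intro i hi
    refine (hmem i).1 ?_
    by_contra h
    exact hi ((hAl i).2 h)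
  · intro i _
    exact Nat.mod_lt _ (S.hper _)
  · intro i hi
    exact dom_of_inC S huf (hlam _) (hks i hi)
  · intro i hi
    exact hτ i _ _ (hks _ hi)

/-- uniform positions -/
theorem pack2 {d s : ℕ} (S : Sys d (2 * d) s) {KK : Fin s → (Fin (2 * d) → ℂ) × (ℂ × ℂ) → ℂ}
    {r : ℝ} {N : Set (Fin (2 * d) → ℂ)} {ω : Fin s → (Fin (2 * d) → ℂ) × ℂ → ℂ} (hK : S.Koe KK)
    (hL : S.Lin KK N r ω) {uf : Fin (2 * d) → ℂ} (huf : uf ∈ N) (cl : Fin (2 * d - 2) → ℂ)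
    (A : Finset (Pt d)) (ks : Pt d → Fin s) (ls : Pt d → ℕ)
    (hdom : ∀ i ∈ A, (uf, (S.F uf)^[ls i] (pcc cl i, 1)) ∈ S.Dom (ks i)) :
    ∃ (L₁ : ℕ) (M : ℝ), 0 ≤ M ∧ ∀ᶠ q : (Fin (2 * d) → ℂ) × (Fin (2 * d - 2) → ℂ) in 𝓝 (uf, cl),
      ∀ i ∈ A, (q.1, (S.F q.1)^[ls i] (pcc q.2 i, 1)) ∈ S.Dom (ks i) ∧
      ‖KK (ks i) (q.1, (S.F q.1)^[ls i] (pcc q.2 i, 1))‖ ≤ M ∧
      ∀ L ≥ L₁, cr ((S.F q.1)^[ls i + S.per (ks i) * L] (pcc q.2 i, 1))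
        (S.cht (ks i) q.1 (ω (ks i) (q.1, S.lam (ks i) q.1 ^ L *
          KK (ks i) (q.1, (S.F q.1)^[ls i] (pcc q.2 i, 1))))) = 0 := by
  classical
  have h1 : ∀ i : Pt d, ∃ L₁ : ℕ, i ∈ A →
      ∀ᶠ q : (Fin (2 * d) → ℂ) × (ℂ × ℂ) in 𝓝 (uf, (pcc cl i, 1)),
      (q.1, (S.F q.1)^[ls i] q.2) ∈ S.Dom (ks i) ∧
      ‖KK (ks i) (q.1, (S.F q.1)^[ls i] q.2)‖ ≤
        ‖KK (ks i) (uf, (S.F uf)^[ls i] (pcc cl i, 1))‖ + 1 ∧
      ∀ L ≥ L₁, cr ((S.F q.1)^[ls i + S.per (ks i) * L] q.2)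
        (S.cht (ks i) q.1 (ω (ks i) (q.1, S.lam (ks i) q.1 ^ L *
          KK (ks i) (q.1, (S.F q.1)^[ls i] q.2)))) = 0 := by
    intro i
    by_cases hi : i ∈ A
    · obtain ⟨L₁, h⟩ := pos_one S hK hL huf (ks i) (ls i) (hdom i hi)
      exact ⟨L₁, fun _ => h⟩
    · exact ⟨0, fun h => absurd h hi⟩
  choose L₁ hL₁ using h1
  refine ⟨A.sup L₁, ∑ i ∈ A, ‖KK (ks i) (uf, (S.F uf)^[ls i] (pcc cl i, 1))‖ + 1, ?_, ?_⟩
  · have := Finset.sum_nonneg fun i (_ : i ∈ A) =>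
      norm_nonneg (KK (ks i) (uf, (S.F uf)^[ls i] (pcc cl i, 1)))
    linarith
  · rw [Filter.eventually_all_finset]
    intro i hi
    have hc : Tendsto (fun q : (Fin (2 * d) → ℂ) × (Fin (2 * d - 2) → ℂ) =>
        ((q.1, (pcc q.2 i, 1)) : (Fin (2 * d) → ℂ) × (ℂ × ℂ))) (𝓝 (uf, cl))
        (𝓝 (uf, (pcc cl i, 1))) := by
      have h2 : Continuous (fun q : (Fin (2 * d) → ℂ) × (Fin (2 * d - 2) → ℂ) =>
        ((q.1, (pcc q.2 i, 1)) : (Fin (2 * d) → ℂ) × (ℂ × ℂ))) :=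
        continuous_fst.prodMk (((pcc_cont i).comp continuous_snd).prodMk continuous_const)
      exact h2.tendsto (uf, cl)
    filter_upwards [hc.eventually (hL₁ i hi)] with q hq
    obtain ⟨a, b, c⟩ := hq
    refine ⟨a, b.trans ?_, fun L hLL => c L ((Finset.le_sup hi).trans hLL)⟩
    have := Finset.single_le_sum
      (f := fun i => ‖KK (ks i) (uf, (S.F uf)^[ls i] (pcc cl i, 1))‖)
      (fun i _ => norm_nonneg _) hi
    linarith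

/-- every marked cycle attracts a critical point with a nonzero position -/
theorem free_idx {d s : ℕ} (S : Sys d (2 * d) s) (hco : ∀ x ∈ S.U, S.co x = fam x)
    {KK : Fin s → (Fin (2 * d) → ℂ) × (ℂ × ℂ) → ℂ}
    {r : ℝ} {N : Set (Fin (2 * d) → ℂ)} {ω : Fin s → (Fin (2 * d) → ℂ) × ℂ → ℂ} (hK : S.Koe KK)
    (hL : S.Lin KK N r ω) {uf : Fin (2 * d) → ℂ} (huf : uf ∈ N) (cl : Fin (2 * d - 2) → ℂ)
    (hcl : ∀ ζ : ℂ, wr (fam uf) (ζ, 1) = wr (fam uf) (1, 0) * ∏ i, (ζ - cl i))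
    (A : Finset (Pt d)) (ks : Pt d → Fin s) (ls : Pt d → ℕ)
    (hls : ∀ i ∈ A, ls i < S.per (ks i))
    (hdom : ∀ i ∈ A, (uf, (S.F uf)^[ls i] (pcc cl i, 1)) ∈ S.Dom (ks i))
    (hnot : ∀ i : Fin (2 * d - 2), Sum.inl i ∉ A → ∀ k, ∀ m' : ℕ,
        ¬ S.InC k uf ((S.F uf)^[m'] (cl i, 1))) (k : Fin s) :
    ∃ i ∈ A, ks i = k ∧ KK (ks i) (uf, (S.F uf)^[ls i] (pcc cl i, 1)) ≠ 0 := by
  obtain ⟨CK, hCK, hF⟩ := p_FKB
  have hU := hL.NU huf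
  set y₀ : Ix d (2 * d) s → ℂ := yf uf cl with hy₀
  have hpc : ∀ i, pc y₀ i = pcc cl i := fun i => pc_eq y₀ i
  have hAdm : S.Adm A ks ls y₀ := by
    refine ⟨hU, hL.lam0 _ huf, fun k => one_ne_zero, ?_, hls, ?_⟩
    · intro j
      show wr (S.co uf) (((j : ℕ) : ℂ), 1) - wr (S.co uf) (1, 0) *
        ∏ i : Fin (2 * d - 2), (((j : ℕ) : ℂ) - cl i) = 0
      rw [hco uf hU, hcl, sub_self]
    · intro i hi
      rw [hpc]
      exact hdom i hi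
  set Fh : Pt d → ℂ := fun i =>
    KK (ks i) (yx y₀, (S.F (yx y₀))^[ls i] (pc y₀ i, 1)) / ys y₀ (ks i) with hFh
  obtain ⟨rF, hrF, hlow⟩ := exists_low A Fh
  obtain ⟨L₀, hL₀⟩ := p_IN d (2 * d) s 0 S KK r N ω e0 A ks ls {uf} 1 y₀ hK hL huf
    (mem_singleton _) hAdm (fun k => by
      show ‖(1 : ℂ)‖ ≤ 1
      rw [norm_one])
  obtain ⟨L, hLL, hKL⟩ := exists_L p_LAM S hU A ks Fh 1 hL.hr L₀
  obtain ⟨B, hB⟩ := p_POLE d (2 * d) s S {uf} isCompact_singleton (by simpa using hU)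
  obtain ⟨ζ₀, hζ₀, -⟩ := hB uf (mem_singleton _)
  obtain ⟨-, i, hi, hki, hFi⟩ := hF d (2 * d) s 0 S KK r N ω e0 A ks ls L {uf} 1 rF y₀ y₀ Fh ζ₀ hK
    hL hls (hKL L le_rfl) huf (hL₀ L hLL) (fun k => one_ne_zero) hnot hζ₀ hrF k
    (fun i hi _ h0 => hlow _ hi h0)
  refine ⟨Sum.inl i, hi, hki, ?_⟩
  intro h0
  apply hFi
  have e1 : (S.F (yx y₀))^[ls (Sum.inl i)] (pc y₀ (Sum.inl i), 1) =
      (S.F uf)^[ls (Sum.inl i)] (pcc cl (Sum.inl i), 1) := rfl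
  have e2 : KK (ks (Sum.inl i)) (yx y₀, (S.F (yx y₀))^[ls (Sum.inl i)] (pc y₀ (Sum.inl i), 1)) =
      0 := h0
  rw [hFh]
  simp only
  rw [e2, zero_div]

/-- small circles about the critical points -/
theorem circ_all {d : ℕ} (hd : 2 ≤ d) {uf : Fin (2 * d) → ℂ} (hu : uf ∈ U₀ d)
    (cl : Fin (2 * d - 2) → ℂ) (ε : ℝ) (hε : 0 < ε) :
    ∃ ρ : ℝ, 0 < ρ ∧ ρ < ε ∧ ∀ᶠ u in 𝓝 uf, ∀ i, ∀ ζ : ℂ, ‖ζ - cl i‖ = ρ → wr (fam u) (ζ, 1) ≠ 0 := by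
  choose δ hδ hc using fun i => crit_isol hd uf hu (cl i)
  have e3 : ∀ᶠ ρ : ℝ in 𝓝[>] 0, (∀ i, ρ < δ i) ∧ ρ < ε := by
    refine (eventually_all.2 fun i => ?_).and ?_
    · exact eventually_nhdsWithin_of_eventually_nhds (eventually_lt_nhds (hδ i))
    · exact eventually_nhdsWithin_of_eventually_nhds (eventually_lt_nhds hε)
  obtain ⟨ρ, ⟨h1, h2⟩, h3⟩ := (e3.and (eventually_mem_nhdsWithin :
    ∀ᶠ ρ : ℝ in 𝓝[>] 0, ρ ∈ Ioi (0 : ℝ))).exists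
  have h3 : 0 < ρ := h3
  refine ⟨ρ, h3, h2, eventually_all.2 fun i => ?_⟩
  exact circ_c hd uf (cl i) ρ (hc i ρ h3 (h1 i))

end Pool.Agent.Zk23
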