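import Mathlib
import Pool.Agent.Zk23.ETX

/-! Every assignment of the free critical points, part 11: the engine. -/

set_option autoImplicit false
set_option linter.unusedVariables false

open Topology Filter Metric Set MeasureTheory
open Pool.Agent.H790R3.RB (CV hF cr ND wr rt Ix yx yc yx_diff yc_diff hF_iter_smul cr_smul_left
  cr_smul_right cr_self cr_iter cr_eq_zero_iff exists_low cr_trans cr_comm)
open Pool.Agent.W757.RD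
open Pool.Agent.W440.RE.JT (prod_diff)
open Pool.Agent.W402.RE.MINP (exists_L DIprop)

namespace Pool.Agent.Zk23

theorem cr_norm_le (w t : ℂ × ℂ) : ‖cr w t‖ ≤ 2 * ‖w‖ * ‖t‖ := by
  unfold cr
  have h1 : ‖w.1‖ ≤ ‖w‖ := norm_fst_le w
  have h2 : ‖w.2‖ ≤ ‖w‖ := norm_snd_le w
  have h3 : ‖t.1‖ ≤ ‖t‖ := norm_fst_le t
  have h4 : ‖t.2‖ ≤ ‖t‖ := norm_snd_le t
  calc ‖w.1 * t.2 - w.2 * t.1‖ ≤ ‖w.1 * t.2‖ + ‖w.2 * t.1‖ := norm_sub_le _ _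
    _ ≤ ‖w‖ * ‖t‖ + ‖w‖ * ‖t‖ := by
        rw [norm_mul, norm_mul]
        exact add_le_add (mul_le_mul h1 h4 (norm_nonneg _) (norm_nonneg _))
          (mul_le_mul h2 h3 (norm_nonneg _) (norm_nonneg _))
    _ = 2 * ‖w‖ * ‖t‖ := by ring

/-- Windows at points which are not attracted. -/
theorem atw {d n s : ℕ} (S : Sys d n s) {uf : Fin n → ℂ} (huf : uf ∈ S.U)
    (C₁ δ₂ : ℝ) (hC₁ : 0 < C₁) (hδ₂ : 0 < δ₂)
    (hB : ∀ w : ℂ × ℂ, ‖Bd S uf w‖ ≤ C₁ * ‖w‖ ^ Sg S)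
    (hδ : ∀ k, ∀ w : ℂ × ℂ, w ≠ 0 → ‖cr w (tg S uf k)‖ < δ₂ * ‖w‖ → S.InC k uf w) :
    ∃ R₀ : ℝ, 1 ≤ R₀ ∧ ∀ k, ∀ w : ℂ × ℂ, w ≠ 0 →
      (∀ k, ∀ m : ℕ, ¬ S.InC k uf ((S.F uf)^[m] w)) →
      δ₂ ^ Sg S / C₁ * ‖Bd S uf w‖ ≤ ‖cr w (tg S uf k)‖ ^ Sg S ∧
      ‖cr w (tg S uf k)‖ ^ Sg S ≤ R₀ * ‖Bd S uf w‖ ∧ 0 < ‖Bd S uf w‖ := by
  obtain ⟨C₂, hC₂, hge⟩ := bd_ge S huf
  set Tt : ℝ := ∑ k, ‖tg S uf k‖ with hTt
  have hTt0 : 0 ≤ Tt := Finset.sum_nonneg fun _ _ => norm_nonneg _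
  have hTtk : ∀ k, ‖tg S uf k‖ ≤ Tt := fun k =>
    Finset.single_le_sum (f := fun k => ‖tg S uf k‖) (fun _ _ => norm_nonneg _) (Finset.mem_univ k)
  refine ⟨(2 * Tt) ^ Sg S / C₂ + 1, ?_, ?_⟩
  · have : 0 ≤ (2 * Tt) ^ Sg S / C₂ := by positivity
    linarith
  intro k w hw hna
  have h1 := hge w hw hna
  have hn : 0 < ‖w‖ := norm_pos_iff.2 hw
  have hB0 : 0 < ‖Bd S uf w‖ := lt_of_lt_of_le (by positivity) h1
  refine ⟨?_, ?_, hB0⟩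
  · have h2 : δ₂ * ‖w‖ ≤ ‖cr w (tg S uf k)‖ := by
      by_contra hcon
      push Not at hcon
      exact hna k 0 (hδ k w hw hcon)
    calc δ₂ ^ Sg S / C₁ * ‖Bd S uf w‖ ≤ δ₂ ^ Sg S / C₁ * (C₁ * ‖w‖ ^ Sg S) :=
          mul_le_mul_of_nonneg_left (hB w) (by positivity)
      _ = (δ₂ * ‖w‖) ^ Sg S := by
          rw [mul_pow]
          field_simp
      _ ≤ ‖cr w (tg S uf k)‖ ^ Sg S := pow_le_pow_left₀ (by positivity) h2 _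
  · have h3 : ‖cr w (tg S uf k)‖ ≤ 2 * Tt * ‖w‖ := by
      calc ‖cr w (tg S uf k)‖ ≤ 2 * ‖w‖ * ‖tg S uf k‖ := cr_norm_le _ _
        _ ≤ 2 * ‖w‖ * Tt := mul_le_mul_of_nonneg_left (hTtk k) (by positivity)
        _ = 2 * Tt * ‖w‖ := by ring
    calc ‖cr w (tg S uf k)‖ ^ Sg S ≤ (2 * Tt * ‖w‖) ^ Sg S :=
          pow_le_pow_left₀ (norm_nonneg _) h3 _
      _ = (2 * Tt) ^ Sg S / C₂ * (C₂ * ‖w‖ ^ Sg S) := by
          rw [mul_pow]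
          field_simp
      _ ≤ (2 * Tt) ^ Sg S / C₂ * ‖Bd S uf w‖ := mul_le_mul_of_nonneg_left h1 (by positivity)
      _ ≤ ((2 * Tt) ^ Sg S / C₂ + 1) * ‖Bd S uf w‖ := by
          apply mul_le_mul_of_nonneg_right _ hB0.le
          linarith

/-- the time of the base points -/
theorem base_time {s : ℕ} (per : Fin s → ℕ) (hper : ∀ k, 1 ≤ per k) (L L₂ Nt : ℕ)
    (hM₀ : (∑ k, per k) * (max L L₂ + 1) ≤ Nt) (hNt : ∀ k, per k ∣ Nt) (k : Fin s) (l : ℕ)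
    (hl : l < per k) :
    ∃ L' a : ℕ, L ≤ L' ∧ L₂ ≤ L' ∧ a < per k ∧ Nt = l + (per k * L' + a) := by
  obtain ⟨q, hq⟩ := hNt k
  have hle : per k * (max L L₂ + 1) ≤ Nt :=
    (Nat.mul_le_mul_right _ (Finset.single_le_sum (f := fun k => per k)
      (fun k _ => Nat.zero_le _) (Finset.mem_univ _))).trans hM₀
  rw [hq] at hle
  have hq1 : max L L₂ + 1 ≤ q := Nat.le_of_mul_le_mul_left hle (hper k)
  have hmL := le_max_left L L₂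
  have hmL₂ := le_max_right L L₂
  by_cases hl0 : l = 0
  · refine ⟨q, 0, by omega, by omega, by omega, ?_⟩
    rw [hl0, hq]
    ring
  · refine ⟨q - 1, per k - l, by omega, by omega, by omega, ?_⟩
    obtain ⟨q', rfl⟩ : ∃ q', q = q' + 1 := ⟨q - 1, by omega⟩
    rw [hq, Nat.add_sub_cancel, mul_add, mul_one]
    omega

/-- the area at the start -/
theorem an_start {β : ℝ} (hβ1 : 1 / 2 < β) (hβ2 : β < 1) {d n s : ℕ} (S : Sys d n s)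
    {KK : Fin s → (Fin n → ℂ) × (ℂ × ℂ) → ℂ} {r : ℝ} {N : Set (Fin n → ℂ)}
    {ω : Fin s → (Fin n → ℂ) × ℂ → ℂ} (hK : S.Koe KK) (hL : S.Lin KK N r ω) {uf : Fin n → ℂ}
    (huN : uf ∈ N) (harea : mu β (S.KS uf) = 0) {ra : ℝ} (hra : 0 < ra) (hrar : ra < r) (M₀ : ℕ)
    {η : ℝ} (hη : 0 < η) :
    ∃ (σ : ℝ) (Nt : ℕ), 0 < σ ∧ M₀ ≤ Nt ∧ (∀ k, S.per k ∣ Nt) ∧
      ∀ x ∈ N, ‖x - uf‖ < σ → S.AN β ω Nt ra x (fun _ => 1) ≤ η := by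
  obtain ⟨σU, N₀, hσU, hUSC'⟩ := p_USC β d n s S uf hβ1 hβ2 (hL.NU huN) η hη
  obtain ⟨Nt, hM₀, hNt, hst⟩ := p_ST d n s S KK r N ω hK hL ra N₀ M₀ (fun _ => 1) hra hrar
    (fun _ => one_ne_zero) (fun k => by rw [norm_one, one_mul]; exact hrar)
  refine ⟨σU, Nt, hσU, hM₀, hNt, ?_⟩
  intro x hx hxu
  apply ENNReal.toReal_le_of_le_ofReal hη.le
  calc mu β (S.WN ω Nt ra x (fun _ => 1))ᶜ
      ≤ mu β {ζ : ℂ | ∀ k, ∀ m ≤ N₀, ¬ S.InC k x ((S.F x)^[m] (ζ, 1))} := by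
        refine measure_mono ?_
        intro ζ hζ k m' hm' hin
        exact hζ (hst x hx ζ ⟨k, m', hm', hin⟩)
    _ ≤ mu β (S.KS uf) + ENNReal.ofReal η := hUSC' x (hL.NU hx) hxu
    _ = ENNReal.ofReal η := by rw [harea, zero_add]

end Pool.Agent.Zk23
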