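import Mathlib
import Pool.Agent.Zk23.NNS

/-! Normalisation of a rational map with a critical point which is not attracted, and the theorems
about prescribed basins and new attracting cycles. -/

set_option autoImplicit false
set_option maxHeartbeats 400000
set_option linter.unusedVariables false

open Topology Filter Metric Set MeasureTheory
open Pool.Agent.H790R3.RB (CV hF cr ND wr rt Ix yx yc sp pr hc HypTop Attd Sink cr_eq_zero_iff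
  cr_smul_left cr_smul_right cr_self cr_comm WR SP INJL hF_contDiff MOB hF_iter_continuous)
open Pool.Agent.W757.RD
open Pool.Agent.W586.RESMK (pr_one)
open scoped OnePoint

namespace Pool.Agent.Zk23

variable {d n s : ℕ}

/-- the normalising map preserves null sets -/
theorem null_mb {a₁ a₂ : ℂ} {Q : ℂ × ℂ} {q : OnePoint ℂ} (h : OnePoint ℂ ≃ₜ OnePoint ℂ)
    (hQ0 : Q ≠ 0) (hQq : pr Q = q) (hh : ∀ p : ℂ × ℂ, p ≠ 0 → h (pr p) = pr (mb a₁ a₂ Q p))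
    (hhq : h q = ∞) (h1 : h (a₁ : OnePoint ℂ) = ((0 : ℂ) : OnePoint ℂ))
    (h2 : h (a₂ : OnePoint ℂ) = ((1 : ℂ) : OnePoint ℂ)) (A : Set (OnePoint ℂ))
    (hA : volume {z : ℂ | (z : OnePoint ℂ) ∈ A} = 0) :
    volume {z : ℂ | (z : OnePoint ℂ) ∈ h '' A} = 0 := by
  have e12 : a₁ ≠ a₂ := by
    rintro rfl
    rw [h1] at h2
    have := OnePoint.coe_injective h2
    exact zero_ne_one this
  have eQ1 : cr ((a₁, 1) : ℂ × ℂ) Q ≠ 0 := by
    intro h0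
    have h3 := (Pool.Agent.H790R3.RB.SP.pr_eq_iff (one_ne a₁) hQ0).2 h0
    rw [pr_one, hQq] at h3
    rw [h3, hhq] at h1
    exact OnePoint.infty_ne_coe _ h1
  have eQ2 : cr ((a₂, 1) : ℂ × ℂ) Q ≠ 0 := by
    intro h0
    have h3 := (Pool.Agent.H790R3.RB.SP.pr_eq_iff (one_ne a₂) hQ0).2 h0
    rw [pr_one, hQq] at h3
    rw [h3, hhq] at h2
    exact OnePoint.infty_ne_coe _ h2
  have e21 : cr ((a₂, 1) : ℂ × ℂ) (a₁, 1) ≠ 0 := by
    intro h0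
    unfold cr at h0
    simp only [mul_one, one_mul] at h0
    exact e12 (by linear_combination -h0)
  set α := cr ((a₂, 1) : ℂ × ℂ) Q with hα
  set γ := cr ((a₂, 1) : ℂ × ℂ) (a₁, 1) with hγ
  have hdet : α * (-(Q.1 * γ)) - (-(a₁ * α)) * (Q.2 * γ) ≠ 0 := by
    have e : α * (-(Q.1 * γ)) - (-(a₁ * α)) * (Q.2 * γ) = α * γ * cr ((a₁, 1) : ℂ × ℂ) Q := by
      unfold cr; ring
    rw [e]
    exact mul_ne_zero (mul_ne_zero eQ2 e21) eQ1
  obtain ⟨h', hh', hn⟩ := MOB SP α (-(a₁ * α)) (Q.2 * γ) (-(Q.1 * γ)) hdet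
  have heq : ∀ z, h z = h' z := by
    intro z
    obtain ⟨e1, e2⟩ := Pool.Agent.H790R3.RB.SP.pr_hc z
    rw [← e1, hh _ e2, hh' _ e2]
    congr 1
    unfold mb
    rw [← hα, ← hγ]
    apply Prod.ext
    · show cr (hc z) (a₁, 1) * α = α * (hc z).1 + -(a₁ * α) * (hc z).2
      unfold cr; ring
    · show cr (hc z) Q * γ = Q.2 * γ * (hc z).1 + -(Q.1 * γ) * (hc z).2
      unfold cr; ring
  have himg : h '' A = h' '' A := by
    ext w
    constructor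
    · rintro ⟨z, hz, rfl⟩; exact ⟨z, hz, (heq z).symm⟩
    · rintro ⟨z, hz, rfl⟩; exact ⟨z, hz, heq z⟩
  rw [himg]
  exact hn A hA

/-- the normalised situation of a map with a critical point which is not attracted -/
theorem exists_sit (hd : 2 ≤ d) {x₀ : CV d} (hx₀ : ND x₀)
    (harea : volume {z : ℂ | ¬ Attd (sp x₀) (z : OnePoint ℂ)} = 0) {c : OnePoint ℂ}
    (hc : ¬ ∃ U ∈ 𝓝 c, InjOn (sp x₀) U) (hna : ¬ Attd (sp x₀) c) :
    ∃ (u₀ : Fin (2 * d) → ℂ) (C₂ c₂ ε₂ σ₂ : ℝ) (s : ℕ) (S : Sys d (2 * d + s) s)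
      (q₀ : Fin (2 * d + s) → ℂ) (ζ₀ : ℂ) (h : OnePoint ℂ ≃ₜ OnePoint ℂ) (C : ℝ),
      Sit (3 / 4) d u₀ C₂ c₂ ε₂ σ₂ S q₀ ζ₀ ∧ 0 < C ∧ h c = (ζ₀ : OnePoint ℂ) ∧
      (∀ z, sp (fam (xp q₀)) (h z) = h (sp x₀ z)) ∧ AllM S q₀ ∧
      (∀ m, {a | Sink (sp (fam (xp q₀))) m a}.encard = cnt S.per m) ∧
      ∀ u : Fin (2 * d) → ℂ, ‖u - xp q₀‖ < 1 → ND (fam u) →
        ∃ x' : CV d, ‖x' - x₀‖ ≤ C * ‖u - xp q₀‖ ∧ ND x' ∧ ∀ z, sp (fam u) (h z) = h (sp x' z) := by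
  obtain ⟨q, hq, hns⟩ := p_NAF d x₀ hd hx₀
  have hw : wr x₀ (Pool.Agent.H790R3.RB.hc q) ≠ 0 := by
    intro h0
    obtain ⟨δ, hδ, V, hV, H⟩ := p_NAC d x₀ q hd hx₀ hq h0
    exact hns 1 (H x₀ (by rw [sub_self, norm_zero]; exact hδ) q (mem_of_mem_nhds hV) hq)
  obtain ⟨b₁, b₂, u₀, -, -, -, hu₀, hG, H⟩ := p_NM d x₀ q hd hx₀ hq hw
  obtain ⟨C₂, c₂, ε₂, σ₂, hC⟩ := exists_cst (3 / 4) d u₀ (by norm_num) (by norm_num) hd hu₀ hG
  obtain ⟨C, δ, hCC, hδ, V, hV, H1⟩ := H σ₂ hC.σ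
  -- attracted base points
  have hatt : ∀ b : ℂ, ∃ a : ℂ, ‖a - b‖ < δ ∧ Attd (sp x₀) (a : OnePoint ℂ) := by
    intro b
    by_contra hcon
    push Not at hcon
    have hsub : ball b δ ⊆ {z : ℂ | ¬ Attd (sp x₀) (z : OnePoint ℂ)} := by
      intro z hz
      exact hcon z (by rw [← dist_eq_norm]; exact hz)
    have h0 := measure_mono_null hsub harea
    exact (measure_ball_pos volume b hδ).ne' h0
  obtain ⟨a₁, ha₁, hA₁⟩ := hatt b₁
  obtain ⟨a₂, ha₂, hA₂⟩ := hatt b₂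
  obtain ⟨u₁, h, Q, hQ0, hQq, hh, hhq, hh1, hh2, hun, hs, hback⟩ :=
    H1 x₀ (by rw [sub_self, norm_zero]; exact hδ) q (mem_of_mem_nhds hV) hq a₁ a₂ ha₁ ha₂
  have hs1 : ∀ z, sp (fam u₁) (h z) = h (sp x₀ z) := fun z => (hs z).symm
  have hu₁U : u₁ ∈ U₀ d := hC.U (by
    rw [mem_closedBall, dist_eq_norm]
    have := hC.σ
    linarith)
  have hinf : ∀ p : ℕ, ¬ Sink (sp (fam u₁)) p ∞ := by
    intro p hp
    apply hns p
    have := Pool.Agent.H790R3.RB.ALL.sink h.symm (conj_symm h hs1) hp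
    rwa [← hhq, h.symm_apply_apply] at this
  obtain ⟨s, S, q₀, hE, hqU, hxq, h1, h2, h3, h4⟩ := exists_full hd hu₁U hinf
  -- the area
  have hvol : volume {z : ℂ | ¬ Attd (sp (fam u₁)) (z : OnePoint ℂ)} = 0 := by
    have h5 := null_mb h hQ0 hQq hh hhq hh1 hh2 {z | ¬ Attd (sp x₀) z} harea
    refine measure_mono_null ?_ h5
    intro w hw
    refine ⟨h.symm (w : OnePoint ℂ), ?_, h.apply_symm_apply _⟩
    intro hA
    apply hw
    have := Pool.Agent.H790R3.RB.ALL.attd h hs1 hA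
    rwa [h.apply_symm_apply] at this
  -- the critical point
  have hninj : ¬ ∃ U ∈ 𝓝 (h c), InjOn (sp (fam u₁)) U := by
    intro hinj
    apply hc
    have h5 := inj_conj h.symm (conj_symm h hs1) hinj
    rwa [h.symm_apply_apply] at h5
  have hwr := wr_of_not_inj hd hu₁U.1 hninj
  obtain ⟨ζ₀, hζ₀⟩ := OnePoint.ne_infty_iff_exists.1 (show h c ≠ ∞ from fun he => by
    rw [he] at hwr
    exact hu₁U.2 hwr)
  rw [← hζ₀] at hwr
  have hbase : ∀ j : Fin 2, Attd (sp (fam u₁)) ((bz j : ℂ) : OnePoint ℂ) := by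
    have f1 := Pool.Agent.H790R3.RB.ALL.attd h hs1 hA₁
    have f2 := Pool.Agent.H790R3.RB.ALL.attd h hs1 hA₂
    rw [hh1] at f1
    rw [hh2] at f2
    intro j
    fin_cases j
    · simpa [bz] using f1
    · simpa [bz] using f2
  refine ⟨u₀, C₂, c₂, ε₂, σ₂, s, S, q₀, ζ₀, h, C, ?_, hCC, hζ₀.symm, by rw [hxq]; exact hs1, h2,
    by rw [hxq]; exact h3, ?_⟩
  · refine ⟨by norm_num, by norm_num, hC, hE, hqU, by rw [hxq]; exact hun,
      fun j => h1 _ (hbase j), ?_, by rw [hxq]; exact hwr, ?_⟩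
    · rw [h4]
      exact (p_MU (3 / 4) (by norm_num) (by norm_num)).2 _ |>.1 hvol
    · have hmem : ζ₀ ∈ S.KS q₀ := by
        rw [h4]
        intro hA
        apply hna
        have := Pool.Agent.H790R3.RB.ALL.attd h.symm (conj_symm h hs1) hA
        rwa [hζ₀, h.symm_apply_apply] at this
      exact hmem
  · rw [hxq]
    intro u hu hNDu
    obtain ⟨x', hn, hND', hsx⟩ := hback u hu hNDu
    exact ⟨x', hn, hND', fun z => (hsx z).symm⟩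

theorem cap_fwd {f : OnePoint ℂ → OnePoint ℂ} (hf : Continuous f) {m : ℕ} {a c : OnePoint ℂ}
    (h : Cap f m a c) (j : ℕ) : Cap f m (f^[j] a) c := by
  obtain ⟨i, hi⟩ := h
  refine ⟨j + i, ?_⟩
  have h1 := ((hf.iterate j).tendsto a).comp hi
  refine h1.congr fun k => ?_
  simp only [Function.comp]
  rw [Function.iterate_add_apply, iter_comm]

/-- continuity of the orbits in the parameter -/
theorem orb_cont (hd : 2 ≤ d) {u₁ : Fin (2 * d) → ℂ} (hu : ND (fam u₁)) (b : ℂ) (j : ℕ) :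
    ContinuousAt (fun w : (Fin (2 * d) → ℂ) × ℂ => pr ((hF (fam w.1))^[j] (w.2, 1))) (u₁, b) := by
  have h1 : Continuous fun w : (Fin (2 * d) → ℂ) × ℂ => (hF (fam w.1))^[j] (w.2, 1) := by
    have h2 : Continuous fun w : (Fin (2 * d) → ℂ) × ℂ =>
        ((fam w.1 : CV d), ((w.2, 1) : ℂ × ℂ)) := by
      refine Continuous.prodMk ((fam_cont hd).comp continuous_fst) (by fun_prop)
    exact (hF_iter_continuous d j).comp h2
  exact ContinuousAt.comp (f := fun w : (Fin (2 * d) → ℂ) × ℂ => (hF (fam w.1))^[j] (w.2, 1))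
    (g := pr) (Pool.Agent.H790R3.RB.SP.continuousAt_pr (hu.iter_ne j (one_ne b))) h1.continuousAt

/-- Transfer of the conclusions for normalised maps. -/
theorem transfer (hd : 2 ≤ d) {x₀ : CV d} {s : ℕ} {S : Sys d (2 * d + s) s}
    {q₀ : Fin (2 * d + s) → ℂ} {ζ₀ : ℂ} {h : OnePoint ℂ ≃ₜ OnePoint ℂ} {C : ℝ} (hC : 0 < C)
    (hU : xp q₀ ∈ U₀ d) {c : OnePoint ℂ} (hcz : h c = (ζ₀ : OnePoint ℂ))
    (hback : ∀ u : Fin (2 * d) → ℂ, ‖u - xp q₀‖ < 1 → ND (fam u) →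
        ∃ x' : CV d, ‖x' - x₀‖ ≤ C * ‖u - xp q₀‖ ∧ ND x' ∧ ∀ z, sp (fam u) (h z) = h (sp x' z))
    {ε : ℝ} (hε : 0 < ε) {U : Set (OnePoint ℂ)} (hUc : U ∈ 𝓝 c)
    (k : Fin s) (j : ℕ) {V : Set (OnePoint ℂ)}
    (hV : V ∈ 𝓝 (h.symm ((sp (fam (xp q₀)))^[j] ((S.b k q₀ : ℂ) : OnePoint ℂ)))) :
    ∃ ε' : ℝ, 0 < ε' ∧ ∀ {s' : ℕ} (per' : Fin s' → ℕ) (em : Fin s → Fin s') (k₀ : Fin s'),
      Concl S q₀ ζ₀ per' em k₀ ε' → ∃ (x' : CV d) (c' : OnePoint ℂ) (b' : Fin s' → OnePoint ℂ),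
        ‖x' - x₀‖ < ε ∧ ND x' ∧ HypTop (sp x') ∧
        (∀ m, {a | Sink (sp x') m a}.encard = cnt per' m) ∧ c' ∈ U ∧
        (¬ ∃ W ∈ 𝓝 c', InjOn (sp x') W) ∧ (∀ k, Sink (sp x') (per' k) (b' k)) ∧
        (∀ k m, (sp x')^[m] (b' k) = b' k → per' k ∣ m) ∧
        Cap (sp x') (per' k₀) (b' k₀) c' ∧ (sp x')^[j] (b' (em k)) ∈ V := by
  have hcs : h.symm (ζ₀ : OnePoint ℂ) = c := by rw [← hcz, h.symm_apply_apply]
  have e1 : ∀ᶠ ζ : ℂ in 𝓝 ζ₀, h.symm (ζ : OnePoint ℂ) ∈ U := by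
    have h1 : ContinuousAt (fun ζ : ℂ => h.symm (ζ : OnePoint ℂ)) ζ₀ :=
      (h.symm.continuous.comp OnePoint.continuous_coe).continuousAt
    exact h1.eventually_mem (by rw [hcs]; exact hUc)
  have e2 : ∀ᶠ w : (Fin (2 * d) → ℂ) × ℂ in 𝓝 (xp q₀, S.b k q₀),
      h.symm (pr ((hF (fam w.1))^[j] (w.2, 1))) ∈ V := by
    have h1 := h.symm.continuous.continuousAt.comp (orb_cont hd hU.1 (S.b k q₀) j)
    refine h1.eventually_mem ?_
    simp only [Function.comp]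
    have h2 := (SP d (fam (xp q₀)) (by omega) hU.1).2.1 (S.b k q₀, 1) (one_ne _) j
    rw [pr_one] at h2
    rw [← h2]
    exact hV
  obtain ⟨ε₁, hε₁, hb1⟩ := Metric.eventually_nhds_iff.1 e1
  obtain ⟨ε₂, hε₂, hb2⟩ := Metric.eventually_nhds_iff.1 e2
  refine ⟨min (min ε₁ ε₂) (min 1 (ε / C)), lt_min (lt_min hε₁ hε₂)
    (lt_min one_pos (div_pos hε hC)), ?_⟩
  intro s' per' em k₀ hcon
  obtain ⟨S', ks', ls', z, k1, k2, k3, k4, k5, i, hi1, hi2⟩ := hcon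
  have l1 : ‖xp (yx z) - xp q₀‖ < ε₂ :=
    k4.trans_le ((min_le_left _ _).trans (min_le_right _ _))
  have l2 : ‖xp (yx z) - xp q₀‖ < 1 :=
    k4.trans_le ((min_le_right _ _).trans (min_le_left _ _))
  have l3 : ‖xp (yx z) - xp q₀‖ < ε / C :=
    k4.trans_le ((min_le_right _ _).trans (min_le_right _ _))
  have hUz := k1.U _ k3.xU
  obtain ⟨x', hx', hND', hsx⟩ := hback (xp (yx z)) l2 hUz.1
  obtain ⟨g1, g2, g3⟩ := adm_hyp S' k1 k3
  have hco := k1.co _ k3.xU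
  have hsym := conj_symm h hsx
  refine ⟨x', h.symm ((yc z i : ℂ) : OnePoint ℂ), fun k => h.symm ((S'.b k (yx z) : ℂ) : OnePoint ℂ),
    ?_, hND', Pool.Agent.H790R3.RB.ALL.hyp h.symm hsym g1, ?_, ?_, ?_, ?_, ?_, ?_, ?_⟩
  · calc ‖x' - x₀‖ ≤ C * ‖xp (yx z) - xp q₀‖ := hx'
      _ < C * (ε / C) := mul_lt_mul_of_pos_left l3 hC
      _ = ε := by field_simp
  · intro m
    rw [← sinks_conj h hsx m, g3, k2]
  · exact hb1 (y := yc z i) (by
      rw [dist_eq_norm]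
      exact hi2.trans_le ((min_le_left _ _).trans (min_le_left _ _)))
  · intro hinj
    have h5 := inj_conj h hsx hinj
    rw [h.apply_symm_apply] at h5
    refine crit_not_inj hd (fam (xp (yx z))) hUz.1 (yc z i) ?_ h5
    have hfac := p_ER d (2 * d + s') s' S' z k3.crit
    rw [hco] at hfac
    rw [hfac, Finset.prod_eq_zero (Finset.mem_univ i) (sub_self _), mul_zero]
  · intro k
    have h5 := sink_base S' k3.xU k
    rw [hco, k2] at h5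
    exact Pool.Agent.H790R3.RB.ALL.sink h.symm hsym h5
  · intro k m hm
    rw [Pool.Agent.H790R3.RB.ALL.iter h.symm hsym] at hm
    have h5 := h.symm.injective hm
    have h6 := (base_rel S' k3.xU (k := k) (k' := k) (m := m) (by rw [hco]; exact h5)).2
    rwa [k2] at h6
  · obtain ⟨-, -, M, hM⟩ := k3.att (Sum.inl i) (Finset.mem_univ _)
    have hM' : S'.InC (ks' (Sum.inl i)) (yx z)
        ((S'.F (yx z))^[S'.per (ks' (Sum.inl i)) * M + ls' (Sum.inl i)] (yc z i, 1)) := by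
      rw [Function.iterate_add_apply]
      exact hM
    have h5 := cap_of_inC S' k3.xU (c := ((yc z i : ℂ) : OnePoint ℂ)) hM'
    rw [hi1, hco, k2] at h5
    exact cap_conj h.symm hsym h5
  · have l4 : ‖S'.b (em k) (yx z) - S.b k q₀‖ < ε₂ :=
      (k5 k).trans_le ((min_le_left _ _).trans (min_le_right _ _))
    have h5 := hb2 (y := (xp (yx z), S'.b (em k) (yx z))) (by
      rw [dist_eq_norm, Prod.norm_def]
      exact max_lt l1 l4)
    simp only at h5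
    rw [Pool.Agent.H790R3.RB.ALL.iter h.symm hsym]
    have h6 := (SP d (fam (xp (yx z))) (by omega) hUz.1).2.1 (S'.b (em k) (yx z), 1) (one_ne _) j
    rw [pr_one] at h6
    rw [h6]
    exact h5

/-- The critical point in a prescribed basin. -/
theorem basin (hd : 2 ≤ d) {x₀ : CV d} (hx₀ : ND x₀)
    (harea : volume {z : ℂ | ¬ Attd (sp x₀) (z : OnePoint ℂ)} = 0) {c : OnePoint ℂ}
    (hc : ¬ ∃ U ∈ 𝓝 c, InjOn (sp x₀) U) (hna : ¬ Attd (sp x₀) c) {m : ℕ} {a : OnePoint ℂ}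
    (ha : Sink (sp x₀) m a) {ε : ℝ} (hε : 0 < ε) {U : Set (OnePoint ℂ)} (hU : U ∈ 𝓝 c)
    {V : Set (OnePoint ℂ)} (hV : V ∈ 𝓝 a) :
    ∃ (x' : CV d) (c' a' : OnePoint ℂ), ‖x' - x₀‖ < ε ∧ ND x' ∧ HypTop (sp x') ∧
      (∀ m, {a | Sink (sp x') m a}.encard = {a | Sink (sp x₀) m a}.encard) ∧ c' ∈ U ∧
      (¬ ∃ W ∈ 𝓝 c', InjOn (sp x') W) ∧ a' ∈ V ∧ Sink (sp x') m a' ∧ Cap (sp x') m a' c' := by
  obtain ⟨u₀, C₂, c₂, ε₂, σ₂, s, S, q₀, ζ₀, h, C, hS, hC, hcz, hs, hall, hcard, hback⟩ :=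
    exists_sit hd hx₀ harea hc hna
  have hUq := hS.ext.U _ hS.qU
  have hco := hS.ext.co _ hS.qU
  have h1 := Pool.Agent.H790R3.RB.ALL.sink h hs ha
  obtain ⟨k, j, hkj⟩ := hall m (h a) (by rw [hco]; exact h1)
  rw [hco] at hkj
  have haV : V ∈ 𝓝 (h.symm ((sp (fam (xp q₀)))^[j] ((S.b k q₀ : ℂ) : OnePoint ℂ))) := by
    rw [← hkj, h.symm_apply_apply]
    exact hV
  -- the period divides `m`
  have hdvd : S.per k ∣ m := by
    have h2 : (sp (fam (xp q₀)))^[m] (h a) = h a := h1.2.1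
    rw [hkj] at h2
    have hfix := (sink_base S hS.qU k).2.1
    rw [hco] at hfix
    obtain ⟨i, hi⟩ := Pool.Agent.H790R3.RB.INF.back (S.hper k) hfix
      (rfl : (sp (fam (xp q₀)))^[j] ((S.b k q₀ : ℂ) : OnePoint ℂ) = _)
    refine (base_rel S hS.qU (k := k) (k' := k) (m := m) ?_).2
    rw [hco]
    conv_lhs => rw [← hi]
    rw [iter_comm, h2, hi]
  obtain ⟨ε', hε', H⟩ := transfer hd (S := S) (ζ₀ := ζ₀) hC hUq hcz hback hε hU k j haV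
  obtain ⟨x', c', b', g1, g2, g3, g4, g5, g6, g7, g8, g9, g10⟩ :=
    H S.per id k (hS.basin k ε' hε')
  obtain ⟨l, hl⟩ := hdvd
  have hm := ha.1
  have hl0 : 0 < l := by
    rcases Nat.eq_zero_or_pos l with h0 | h0
    · rw [h0, mul_zero] at hl; omega
    · exact h0
  have hcont := sp_cont' hd g2
  refine ⟨x', c', (sp x')^[j] (b' k), g1, g2, g3, fun m => ?_, g5, g6, g10, ?_, ?_⟩
  · rw [g4, ← hcard, sinks_conj h hs]
  · exact sink_mul (sink_fwd hcont (g7 k) j) hm ⟨l, hl⟩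
  · rw [hl]
    exact cap_mul hl0 (cap_fwd hcont g9 j)

/-- A new attracting cycle of high period. -/
theorem newsink (hd : 2 ≤ d) {x₀ : CV d} (hx₀ : ND x₀)
    (harea : volume {z : ℂ | ¬ Attd (sp x₀) (z : OnePoint ℂ)} = 0) {c : OnePoint ℂ}
    (hc : ¬ ∃ U ∈ 𝓝 c, InjOn (sp x₀) U) (hna : ¬ Attd (sp x₀) c)
    (hcv : ∀ p : OnePoint ℂ, (¬ ∃ U ∈ 𝓝 p, InjOn (sp x₀) U) → sp x₀ p ≠ c)
    (N : ℕ) {ε : ℝ} (hε : 0 < ε) {U : Set (OnePoint ℂ)} (hU : U ∈ 𝓝 c) :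
    ∃ (x' : CV d) (c' a' : OnePoint ℂ) (N₁ : ℕ), N < N₁ ∧ ‖x' - x₀‖ < ε ∧ ND x' ∧
      HypTop (sp x') ∧ (∀ m, {a | Sink (sp x') m a}.encard = {a | Sink (sp x₀) m a}.encard +
        ((if m ≠ 0 ∧ N₁ ∣ m then N₁ else 0 : ℕ) : ℕ∞)) ∧ c' ∈ U ∧
      (¬ ∃ W ∈ 𝓝 c', InjOn (sp x') W) ∧ Sink (sp x') N₁ a' ∧
      (∀ m, (sp x')^[m] a' = a' → N₁ ∣ m) ∧ Cap (sp x') N₁ a' c' := by
  obtain ⟨u₀, C₂, c₂, ε₂, σ₂, s, S, q₀, ζ₀, h, C, hS, hC, hcz, hs, hall, hcard, hback⟩ :=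
    exists_sit hd hx₀ harea hc hna
  have hUq := hS.ext.U _ hS.qU
  have hco := hS.ext.co _ hS.qU
  obtain ⟨hcont, hit, hcr, -, -⟩ := SP d (fam (xp q₀)) (by omega) hUq.1
  obtain ⟨k₁, -, -⟩ := hS.base 0
  -- not a critical value
  have h1 : ∀ p : ℂ, cr (hF (fam (xp q₀)) (p, 1)) (ζ₀, 1) = 0 → wr (fam (xp q₀)) (p, 1) ≠ 0 := by
    intro p hp hwp
    have h2 := (sp_key hd hUq.1 p ζ₀ 1).1 (by simpa only [Function.iterate_one] using hp)
    simp only [Function.iterate_one] at h2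
    refine hcv (h.symm (p : OnePoint ℂ)) ?_ ?_
    · intro hinj
      have h5 := inj_conj h hs hinj
      rw [h.apply_symm_apply] at h5
      exact crit_not_inj hd _ hUq.1 p hwp h5
    · rw [conj_symm h hs, h2, ← hcz, h.symm_apply_apply]
  -- not periodic
  have h2 : ∀ j : ℕ, 1 ≤ j → cr ((hF (fam (xp q₀)))^[j] (ζ₀, 1)) (ζ₀, 1) ≠ 0 := by
    intro j hj hp
    -- a superattracting cycle
    obtain ⟨N₂, hN₂⟩ : ∃ N₂ : ℕ, 1 ≤ N₂ ∧ cr ((hF (fam (xp q₀)))^[N₂] (ζ₀, 1)) (ζ₀, 1) = 0 ∧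
        ∀ m : ℕ, cr ((hF (fam (xp q₀)))^[m] (ζ₀, 1)) (ζ₀, 1) = 0 → N₂ ∣ m := by
      refine ⟨Function.minimalPeriod (sp (fam (xp q₀))) (ζ₀ : OnePoint ℂ), ?_, ?_, ?_⟩
      · exact Function.IsPeriodicPt.minimalPeriod_pos hj ((sp_key hd hUq.1 ζ₀ ζ₀ j).1 hp)
      · exact (sp_key hd hUq.1 ζ₀ ζ₀ _).2 (Function.isPeriodicPt_minimalPeriod _ _)
      · intro m hm
        exact Function.IsPeriodicPt.minimalPeriod_dvd ((sp_key hd hUq.1 ζ₀ ζ₀ m).1 hm)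
    obtain ⟨n1, n2, n3⟩ := hN₂
    have hMk : Mk (xp q₀) 1 (fun _ => N₂) (fun _ => ζ₀) := by
      refine ⟨hUq, fun _ => n1, fun _ => n2, fun _ => ?_, fun k k' m hm =>
        ⟨Subsingleton.elim _ _, n3 m hm⟩⟩
      have h3 : ((hF (fam (xp q₀)))^[N₂] (ζ₀, 1)).2 ≠ 0 := by
        obtain ⟨α, hα, he⟩ := (cr_eq_zero_iff (hUq.1.iter_ne N₂ (one_ne ζ₀)) (one_ne ζ₀)).1 n2
        rw [he]
        simpa using hα
      rw [rt_deriv_zero hd (fam (xp q₀)) N₂ n1 ζ₀ hS.crit h3, norm_zero]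
      exact one_pos
    obtain ⟨S₁, q₁, hE₁, hper₁, hq₁U, hxq₁, -, hb₁, -⟩ := p_MARK d {xp q₀} hd
      isCompact_singleton (by simpa using hUq) (xp q₀) (mem_singleton _) 1 _ _ hMk
    have h4 := sink_base S₁ hq₁U 0
    rw [hE₁.co _ hq₁U, hxq₁, hb₁ 0] at h4
    obtain ⟨k, i, hki⟩ := hall _ _ (by rw [hco]; exact h4)
    rw [hco] at hki
    -- then the critical point enters a marked disc
    have hfix := (sink_base S hS.qU k).2.1
    rw [hco] at hfix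
    obtain ⟨i', hi'⟩ := Pool.Agent.H790R3.RB.INF.back (S.hper k) hfix hki.symm
    have h5 : Cap (sp (S.co q₀)) (S.per k) ((S.b k q₀ : ℂ) : OnePoint ℂ) (ζ₀ : OnePoint ℂ) := by
      refine ⟨i', ?_⟩
      rw [hco, hi']
      have : (fun j : ℕ => (sp (fam (xp q₀)))^[S.per k * j] ((S.b k q₀ : ℂ) : OnePoint ℂ)) =
          fun _ => ((S.b k q₀ : ℂ) : OnePoint ℂ) := by
        funext j
        rw [Function.iterate_mul]
        exact Function.iterate_fixed hfix j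
      rw [this]
      exact tendsto_const_nhds
    obtain ⟨M, hM⟩ := inC_of_cap S hS.qU h5
    exact hS.natt k M hM
  obtain ⟨ε', hε', H⟩ := transfer hd (S := S) (ζ₀ := ζ₀) hC hUq hcz hback hε hU k₁ 0
    (V := univ) univ_mem
  obtain ⟨N₁, hN₁, hcon⟩ := hS.newsink h1 h2 N ε' hε'
  obtain ⟨x', c', b', g1, g2, g3, g4, g5, g6, g7, g8, g9, -⟩ := H _ _ _ hcon
  have hlast : (Fin.snoc (α := fun _ => ℕ) S.per N₁ : Fin (s + 1) → ℕ) (Fin.last s) = N₁ := by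
    simp
  refine ⟨x', c', b' (Fin.last s), N₁, hN₁, g1, g2, g3, fun m => ?_, g5, g6, ?_, ?_, ?_⟩
  · rw [g4, cnt_snoc, ← sinks_conj h hs, hcard]
    push_cast
    rfl
  · have := g7 (Fin.last s)
    rwa [hlast] at this
  · intro m hm
    have := g8 (Fin.last s) m hm
    rwa [hlast] at this
  · rwa [hlast] at g9

end Pool.Agent.Zk23
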