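import Mathlib
import Pool.Agent.Zk23.ETX
import Pool.Agent.Zk23.BC

/-! Every assignment of the free critical points, part 13: critical points with multiplicities on
the sphere. -/

set_option autoImplicit false
set_option linter.unusedVariables false

open Topology Filter Metric Set MeasureTheory
open Pool.Agent.H790R3.RB (CV hF cr ND wr rt Ix yx yc sp pr hc HypTop Attd Sink cr_eq_zero_iff
  cr_smul_left cr_smul_right cr_self cr_comm WR SP PQ pol INJL)
open Pool.Agent.W757.RD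
open Pool.Agent.W364.NM (ap ad dt ap_smul ap_ad ad_ap ad_ad ap_ne cr_ap hF_csmul wr_conj wr_eval
  sp_pr exists_pr pr_csmul)
open scoped OnePoint

namespace Pool.Agent.Zk23

/-- proportional homogeneous maps -/
theorem prop_hF {d : ℕ} (hd : 1 ≤ d) {x y : CV d} (hx : ND x) (hy : ND y)
    (h : ∀ p : ℂ × ℂ, p ≠ 0 → cr (hF y p) (hF x p) = 0) :
    ∃ e : ℂ, e ≠ 0 ∧ ∀ p, hF y p = e • hF x p := by
  obtain ⟨hcx, hmx, hox, hhx, -⟩ := (PQ SP d hd).1 x hx
  obtain ⟨hcy, hmy, hoy, hhy, -⟩ := (PQ SP d hd).1 y hy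
  have h1 : pol y 0 * pol x 1 = pol y 1 * pol x 0 := by
    apply Polynomial.funext
    intro ζ
    have h2 := h (ζ, 1) (one_ne ζ)
    rw [Pool.Agent.H790R3.RB.PQ.hF_one, Pool.Agent.H790R3.RB.PQ.hF_one] at h2
    unfold cr at h2
    simp only at h2
    rw [Polynomial.eval_mul, Polynomial.eval_mul]
    linear_combination h2
  -- the quotient
  obtain ⟨E, hE⟩ : pol x 0 ∣ pol y 0 := by
    refine hcx.dvd_of_dvd_mul_right ?_
    rw [h1]
    exact Dvd.intro_left _ rfl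
  have hE1 : pol y 1 = pol x 1 * E := by
    by_cases h0 : pol x 0 = 0
    · -- impossible
      have h2 : IsUnit (pol x 1) := by
        rw [h0] at hcx
        exact isCoprime_zero_left.1 hcx
      have h3 : (pol x 1).natDegree = 0 := Polynomial.natDegree_eq_zero_of_isUnit h2
      rw [h0, h3, Polynomial.natDegree_zero] at hmx
      simp at hmx
      omega
    · rw [hE] at h1
      have h2 : pol x 0 * (pol x 1 * E) = pol x 0 * pol y 1 := by linear_combination h1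
      exact (mul_left_cancel₀ h0 h2).symm
  have hEu : IsUnit E := by
    refine hcy.isUnit_of_dvd' ?_ ?_
    · rw [hE]; exact Dvd.intro_left _ rfl
    · rw [hE1]; exact Dvd.intro_left _ rfl
  obtain ⟨e, he, heE⟩ := Polynomial.isUnit_iff.1 hEu
  have he0 : e ≠ 0 := he.ne_zero
  have hyx : y = e • x := by
    funext ⟨i, j⟩
    rw [Pi.smul_apply, smul_eq_mul, ← hoy i j, ← hox i j]
    have h3 : pol y i = Polynomial.C e * pol x i := by
      rw [heE, mul_comm]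
      have h4 : i = 0 ∨ i = 1 := by omega
      rcases h4 with rfl | rfl
      · exact hE
      · exact hE1
    rw [h3, Polynomial.coeff_C_mul]
  refine ⟨e, he0, fun p => ?_⟩
  rw [hyx, hF_csmul]

/-- semiconjugacies in homogeneous coordinates -/
theorem semi_hom {d : ℕ} (hd : 1 ≤ d) {x y : CV d} (hx : ND x) (hy : ND y)
    {m : (ℂ × ℂ) × (ℂ × ℂ)} (hm : dt m ≠ 0) (H : OnePoint ℂ → OnePoint ℂ)
    (hH : ∀ p : ℂ × ℂ, p ≠ 0 → H (pr p) = pr (ap m p))
    (h : ∀ z, sp y (H z) = H (sp x z)) :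
    ∃ c : ℂ, c ≠ 0 ∧ ∀ p, hF y (ap m p) = c • ap m (hF x p) := by
  obtain ⟨cj, -, -, -, -, hcj⟩ := Pool.Agent.H790R3.RB.CJ d
  -- the conjugate map
  have hdad : dt (ad m) = dt m := by simp only [dt, ad]; ring
  set y' : CV d := cj (ad m) y with hy'
  have hy'F : ∀ p, hF y' p = ap (ad m) (hF y (ap m p)) := by
    intro p
    rw [hy', hcj]
    have e1 : ((ad m).2.2 * p.1 - (ad m).1.2 * p.2, (ad m).1.1 * p.2 - (ad m).2.1 * p.1) =
        ap m p := by
      apply Prod.ext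
      · simp only [ap, ad]; ring
      · simp only [ap, ad]; ring
    rw [e1]
    rfl
  have hy'n : ND y' := by
    intro p hp
    rw [hy'F] at hp
    by_contra hp0
    have h1 : hF y (ap m p) ≠ 0 := fun h0 => (ap_ne hm hp0) (hy _ h0)
    exact ap_ne (m := ad m) (by rw [hdad]; exact hm) h1 hp
  obtain ⟨e, he, heq⟩ := prop_hF hd hx hy'n (by
    intro p hp
    have h1 : hF x p ≠ 0 := fun h0 => hp (hx _ h0)
    have h2 : hF y (ap m p) ≠ 0 := fun h0 => (ap_ne hm hp) (hy _ h0)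
    have h3 := h (pr p)
    rw [sp_pr hd hx hp, hH _ hp, hH _ h1, sp_pr hd hy (ap_ne hm hp)] at h3
    have h4 := (Pool.Agent.H790R3.RB.SP.pr_eq_iff h2 (ap_ne hm h1)).1 h3
    rw [hy'F]
    have h5 : cr (ap (ad m) (hF y (ap m p))) (ap (ad m) (ap m (hF x p))) = 0 := by
      rw [cr_ap, h4, mul_zero]
    rw [ap_ad, cr_smul_right] at h5
    exact (mul_eq_zero.1 h5).resolve_left hm)
  refine ⟨e / dt m, div_ne_zero he hm, fun p => ?_⟩
  have h1 := congrArg (ap m) (heq p)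
  rw [hy'F, ad_ap, ap_smul] at h1
  rw [div_eq_inv_mul, mul_smul, ← h1, smul_smul, inv_mul_cancel₀ hm, one_smul]

/-- the list of the critical points with multiplicities -/
def HCrit {d : ℕ} (x : CV d) (c : Fin (2 * d - 2) → OnePoint ℂ) : Prop :=
  ∃ κ : ℂ, κ ≠ 0 ∧ ∀ p : ℂ × ℂ, wr x p = κ * ∏ i, cr p (hc (c i))

theorem pr_hc' (z : OnePoint ℂ) : pr (hc z) = z ∧ hc z ≠ 0 := Pool.Agent.H790R3.RB.SP.pr_hc z

/-- transport of the list -/
theorem hcrit_map {d : ℕ} (hd : 2 ≤ d) {x y : CV d} (hx : ND x) (hy : ND y)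
    {m : (ℂ × ℂ) × (ℂ × ℂ)} (hm : dt m ≠ 0) (H : OnePoint ℂ → OnePoint ℂ)
    (hH : ∀ p : ℂ × ℂ, p ≠ 0 → H (pr p) = pr (ap m p))
    (h : ∀ z, sp y (H z) = H (sp x z)) {c : Fin (2 * d - 2) → OnePoint ℂ} (hcx : HCrit x c) :
    HCrit y (fun i => H (c i)) := by
  obtain ⟨e, he, heq⟩ := semi_hom (by omega) hx hy hm H hH h
  obtain ⟨κ, hκ, hw⟩ := hcx
  obtain ⟨hW1, -, -⟩ := WR d y hd
  have hb : ∀ i, ∃ b : ℂ, b ≠ 0 ∧ ap m (hc (c i)) = b • hc (H (c i)) := by
    intro i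
    have h1 := (pr_hc' (c i)).2
    have h2 := hH _ h1
    rw [(pr_hc' (c i)).1] at h2
    have h3 : pr (ap m (hc (c i))) = pr (hc (H (c i))) := by
      rw [← h2, (pr_hc' (H (c i))).1]
    have h4 := (Pool.Agent.H790R3.RB.SP.pr_eq_iff (ap_ne hm h1) (pr_hc' (H (c i))).2).1 h3
    obtain ⟨b, hb, hb'⟩ := (cr_eq_zero_iff (ap_ne hm h1) (pr_hc' (H (c i))).2).1 h4
    exact ⟨b, hb, hb'⟩
  choose b hb hb' using hb
  have hcr : ∀ q v : ℂ × ℂ, cr (ap (ad m) q) v = cr q (ap m v) := by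
    intro q v
    simp only [cr, ap, ad]
    ring
  have hdp : (dt m) ^ (2 * d - 2) ≠ 0 := pow_ne_zero _ hm
  refine ⟨e ^ 2 * κ * (∏ i, b i) / (dt m) ^ (2 * d - 2), ?_, ?_⟩
  · refine div_ne_zero (mul_ne_zero (mul_ne_zero (pow_ne_zero _ he) hκ) ?_) hdp
    exact Finset.prod_ne_zero_iff.2 fun i _ => hb i
  · intro q
    have h1 := wr_conj hd hm heq (ap (ad m) q)
    rw [ad_ap, hW1, hw] at h1
    have h2 : ∏ i, cr (ap (ad m) q) (hc (c i)) = (∏ i, b i) * ∏ i, cr q (hc (H (c i))) := by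
      rw [← Finset.prod_mul_distrib]
      refine Finset.prod_congr rfl fun i _ => ?_
      rw [hcr, hb', cr_smul_right]
    rw [h2] at h1
    rw [div_mul_eq_mul_div, eq_div_iff hdp]
    linear_combination h1

/-- the factors of the polynomial -/
noncomputable def fct (z : OnePoint ℂ) : Polynomial ℂ :=
  match z with
  | none => 1
  | some z => Polynomial.X - Polynomial.C z

theorem cr_fct (ζ : ℂ) (z : OnePoint ℂ) :
    ∃ b : ℂ, b ≠ 0 ∧ ∀ ζ : ℂ, cr ((ζ, 1) : ℂ × ℂ) (hc z) = b * (fct z).eval ζ := by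
  induction z using OnePoint.rec with
  | infty =>
    refine ⟨-1, by norm_num, fun ζ => ?_⟩
    have e1 : hc (∞ : OnePoint ℂ) = (1, 0) := rfl
    have e2 : fct (∞ : OnePoint ℂ) = 1 := rfl
    rw [e1, e2]
    simp [cr]
  | coe z =>
    refine ⟨1, one_ne_zero, fun ζ => ?_⟩
    have e1 : hc (z : OnePoint ℂ) = (z, 1) := rfl
    have e2 : fct (z : OnePoint ℂ) = Polynomial.X - Polynomial.C z := rfl
    rw [e1, e2]
    simp [cr]

/-- homogeneous equations from inhomogeneous ones -/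
theorem hom_ext {d : ℕ} (hd : 2 ≤ d) (x : CV d) (κ : ℂ) (v : Fin (2 * d - 2) → ℂ × ℂ)
    (h : ∀ ζ : ℂ, wr x (ζ, 1) = κ * ∏ i, cr ((ζ, 1) : ℂ × ℂ) (v i)) (p : ℂ × ℂ) :
    wr x p = κ * ∏ i, cr p (v i) := by
  obtain ⟨hW1, -, -⟩ := WR d x hd
  have key : ∀ p : ℂ × ℂ, p.2 ≠ 0 → wr x p = κ * ∏ i, cr p (v i) := by
    intro p hp
    have e : p = p.2 • ((p.1 / p.2, 1) : ℂ × ℂ) := by
      ext
      · simp only [Prod.smul_fst, smul_eq_mul]; field_simp
      · simp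
    rw [e, hW1, h]
    simp only [cr_smul_left, Finset.prod_mul_distrib, Finset.prod_const, Finset.card_univ,
      Fintype.card_fin]
    ring
  by_cases hp : p.2 = 0
  · have hc1 : Continuous fun t : ℂ => wr x (p.1, t) := by
      have hwc : Continuous fun q : CV d × (ℂ × ℂ) => wr q.1 q.2 :=
        (Pool.Agent.H790R3.RB.wr_contDiff d 1).continuous
      exact hwc.comp (continuous_const.prodMk (continuous_const.prodMk continuous_id))
    have hc2 : Continuous fun t : ℂ => κ * ∏ i, cr ((p.1, t) : ℂ × ℂ) (v i) := by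
      unfold cr
      fun_prop
    have h1 : Tendsto (fun t : ℂ => wr x (p.1, t)) (𝓝[≠] 0) (𝓝 (wr x (p.1, 0))) :=
      (hc1.tendsto 0).mono_left nhdsWithin_le_nhds
    have h2 : Tendsto (fun t : ℂ => κ * ∏ i, cr ((p.1, t) : ℂ × ℂ) (v i)) (𝓝[≠] 0)
        (𝓝 (κ * ∏ i, cr ((p.1, 0) : ℂ × ℂ) (v i))) :=
      (hc2.tendsto 0).mono_left nhdsWithin_le_nhds
    have h3 : (fun t : ℂ => wr x (p.1, t)) =ᶠ[𝓝[≠] 0]
        fun t : ℂ => κ * ∏ i, cr ((p.1, t) : ℂ × ℂ) (v i) := by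
      filter_upwards [self_mem_nhdsWithin] with t ht
      exact key (p.1, t) ht
    have h4 := tendsto_nhds_unique_of_eventuallyEq h1 h2 h3
    have e : p = (p.1, 0) := Prod.ext rfl hp
    rw [e]
    exact h4
  · exact key p hp

/-- the list of critical points is given by the derivative -/
theorem hcrit_iff {d : ℕ} (hd : 2 ≤ d) (x : CV d) (c : Fin (2 * d - 2) → OnePoint ℂ) :
    HCrit x c ↔ ∃ a : ℂ, a ≠ 0 ∧ Polynomial.derivative (pol x 0) * pol x 1 -
      pol x 0 * Polynomial.derivative (pol x 1) = Polynomial.C a * ∏ i, fct (c i) := by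
  choose b hb hb' using fun i => cr_fct 0 (c i)
  have hB : (∏ i, b i) ≠ 0 := Finset.prod_ne_zero_iff.2 fun i _ => hb i
  have hd0 : (d : ℂ) ≠ 0 := by
    have : d ≠ 0 := by omega
    exact_mod_cast this
  have hpr : ∀ ζ : ℂ, ∏ i, cr ((ζ, 1) : ℂ × ℂ) (hc (c i)) =
      (∏ i, b i) * ∏ i, (fct (c i)).eval ζ := by
    intro ζ
    rw [← Finset.prod_mul_distrib]
    exact Finset.prod_congr rfl fun i _ => hb' i ζ
  constructor
  · rintro ⟨κ, hκ, hw⟩
    refine ⟨κ * (∏ i, b i) / d, div_ne_zero (mul_ne_zero hκ hB) hd0, ?_⟩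
    apply Polynomial.funext
    intro ζ
    have h1 := hw (ζ, 1)
    rw [wr_eval hd, hpr] at h1
    rw [Polynomial.eval_sub, Polynomial.eval_mul, Polynomial.eval_mul, Polynomial.eval_mul,
      Polynomial.eval_C, Polynomial.eval_prod, div_mul_eq_mul_div, eq_div_iff hd0]
    linear_combination h1
  · rintro ⟨a, ha, hE⟩
    refine ⟨d * a / ∏ i, b i, div_ne_zero (mul_ne_zero hd0 ha) hB, ?_⟩
    refine hom_ext hd x _ _ fun ζ => ?_
    have h1 := congrArg (Polynomial.eval ζ) hE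
    rw [Polynomial.eval_sub, Polynomial.eval_mul, Polynomial.eval_mul, Polynomial.eval_mul,
      Polynomial.eval_C, Polynomial.eval_prod] at h1
    rw [wr_eval hd, h1, hpr]
    field_simp

/-- lists of finite critical points -/
theorem hcrit_fin {d : ℕ} (hd : 2 ≤ d) {u : Fin (2 * d) → ℂ} (hu : u ∈ U₀ d)
    {c : Fin (2 * d - 2) → OnePoint ℂ} (h : HCrit (fam u) c) :
    ∃ cl : Fin (2 * d - 2) → ℂ, (∀ i, c i = ((cl i : ℂ) : OnePoint ℂ)) ∧
      ∀ ζ : ℂ, wr (fam u) (ζ, 1) = wr (fam u) (1, 0) * ∏ i, (ζ - cl i) := by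
  obtain ⟨κ, hκ, hw⟩ := h
  have h0 := hw (1, 0)
  have hfin : ∀ i, c i ≠ ∞ := by
    intro i hi
    apply hu.2
    rw [h0, Finset.prod_eq_zero (Finset.mem_univ i), mul_zero]
    rw [hi]
    show cr ((1, 0) : ℂ × ℂ) (1, 0) = 0
    exact cr_self _
  choose cl hcl using fun i => OnePoint.ne_infty_iff_exists.1 (hfin i)
  refine ⟨cl, fun i => (hcl i).symm, fun ζ => ?_⟩
  have e1 : ∀ i, hc (c i) = (cl i, 1) := fun i => by rw [← hcl i]; rfl
  have h1 : wr (fam u) (1, 0) = κ := by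
    rw [h0]
    simp [e1, cr]
  rw [h1, hw]
  congr 1
  refine Finset.prod_congr rfl fun i _ => ?_
  rw [e1]
  simp [cr]

/-- finite critical points give the homogeneous list -/
theorem hcrit_of_fin {d : ℕ} (hd : 2 ≤ d) {u : Fin (2 * d) → ℂ} (hu : u ∈ U₀ d)
    (cl : Fin (2 * d - 2) → ℂ)
    (h : ∀ ζ : ℂ, wr (fam u) (ζ, 1) = wr (fam u) (1, 0) * ∏ i, (ζ - cl i)) :
    HCrit (fam u) (fun i => ((cl i : ℂ) : OnePoint ℂ)) := by
  refine ⟨wr (fam u) (1, 0), hu.2, hom_ext hd _ _ _ fun ζ => ?_⟩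
  rw [h]
  congr 1
  refine Finset.prod_congr rfl fun i _ => ?_
  show ζ - cl i = cr ((ζ, 1) : ℂ × ℂ) (cl i, 1)
  simp [cr]

end Pool.Agent.Zk23
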