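import Mathlib
import Pool.Agent.Zk23.ETH

/-! Every assignment of the free critical points, part 14: systems and normalisation. -/

set_option autoImplicit false
set_option linter.unusedVariables false

open Topology Filter Metric Set MeasureTheory
open Pool.Agent.H790R3.RB (CV hF cr ND wr rt Ix yx yc sp pr hc HypTop Attd Sink cr_eq_zero_iff
  cr_smul_left cr_smul_right cr_self cr_comm WR SP PQ pol INJL hF_iter_smul)
open Pool.Agent.W757.RD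
open Pool.Agent.W364.NM (ap ad dt ap_smul ap_ad ad_ap ad_ad ap_ne cr_ap hF_csmul wr_conj wr_eval
  sp_pr exists_pr pr_csmul mt mb_eq dt_mt)
open Pool.Agent.W402.RE.MINP (DIprop)
open scoped OnePoint

namespace Pool.Agent.Zk23

theorem attd_of_cap {f : OnePoint ℂ → OnePoint ℂ} (hf : Continuous f) {m : ℕ}
    {a z : OnePoint ℂ} (hS : Sink f m a) (h : Cap f m a z) : Attd f z := by
  obtain ⟨i, hi⟩ := h
  have hm : 1 ≤ m := hS.1
  refine ⟨m, f^[m * i - i] a, sink_fwd hf hS _, ?_⟩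
  have h3 : Tendsto (fun j : ℕ => f^[m * i - i] (f^[m * (j - i)] (f^[i] z))) atTop
      (𝓝 (f^[m * i - i] a)) :=
    ((hf.iterate _).tendsto _).comp (hi.comp (tendsto_sub_atTop_nat i))
  refine h3.congr' ?_
  filter_upwards [eventually_ge_atTop i] with j hj
  rw [← Function.iterate_add_apply, ← Function.iterate_add_apply]
  congr 1
  obtain ⟨l, rfl⟩ := Nat.exists_eq_add_of_le hj
  have h4 : i ≤ m * i := Nat.le_mul_of_pos_left i hm
  rw [Nat.add_sub_cancel_left, mul_add]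
  omega

/-- relations between points of the marked cycles -/
theorem rel_iff {d n s : ℕ} (S : Sys d n s) {x : Fin n → ℂ} (hx : x ∈ S.U) (k k' : Fin s)
    (j j' : ℕ) :
    (sp (S.co x))^[j] ((S.b k x : ℂ) : OnePoint ℂ) = (sp (S.co x))^[j'] ((S.b k' x : ℂ) : OnePoint ℂ) ↔
      k = k' ∧ j ≡ j' [MOD S.per k] := by
  have hfix : ∀ k, (sp (S.co x))^[S.per k] ((S.b k x : ℂ) : OnePoint ℂ) =
      ((S.b k x : ℂ) : OnePoint ℂ) := fun k => (sink_base S hx k).2.1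
  set f := sp (S.co x) with hf
  constructor
  · intro h
    have hle : j' ≤ S.per k' * j' := Nat.le_mul_of_pos_left j' (S.hper k')
    have h1 : f^[S.per k' * j' - j' + j] ((S.b k x : ℂ) : OnePoint ℂ) =
        ((S.b k' x : ℂ) : OnePoint ℂ) := by
      rw [Function.iterate_add_apply, h, ← Function.iterate_add_apply, Nat.sub_add_cancel hle,
        Function.iterate_mul]
      exact Function.iterate_fixed (hfix k') j'
    obtain ⟨h2, h3⟩ := base_rel S hx h1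
    subst h2
    refine ⟨rfl, ?_⟩
    have h4 : (S.per k * j' - j' + j) ≡ 0 [MOD S.per k] := (Nat.modEq_zero_iff_dvd).2 h3
    have h5 : j' + (S.per k * j' - j' + j) = S.per k * j' + j := by omega
    have h6 : S.per k * j' ≡ 0 [MOD S.per k] := (Nat.modEq_zero_iff_dvd).2 (Dvd.intro _ rfl)
    have h7 : S.per k * j' + j ≡ 0 + j [MOD S.per k] := h6.add_right j
    have h8 : j' + (S.per k * j' - j' + j) ≡ j' + 0 [MOD S.per k] := h4.add_left j'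
    rw [h5] at h8
    rw [zero_add] at h7
    rw [add_zero] at h8
    exact h7.symm.trans h8
  · rintro ⟨rfl, h⟩
    have h1 : ∀ j : ℕ, f^[j % S.per k] ((S.b k x : ℂ) : OnePoint ℂ) =
        f^[j] ((S.b k x : ℂ) : OnePoint ℂ) := fun j =>
      Function.IsPeriodicPt.iterate_mod_apply (hfix k) j
    rw [← h1 j, ← h1 j', h]

theorem dvd_of_sink {d n s : ℕ} (S : Sys d n s) {x : Fin n → ℂ} (hx : x ∈ S.U) {k : Fin s}
    {j m : ℕ} (h : Sink (sp (S.co x)) m ((sp (S.co x))^[j] ((S.b k x : ℂ) : OnePoint ℂ))) :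
    S.per k ∣ m := by
  have h1 := h.2.1
  rw [← Function.iterate_add_apply] at h1
  have h2 := ((rel_iff S hx k k (m + j) j).1 h1).2
  have h3 : m + j ≡ 0 + j [MOD S.per k] := by rw [zero_add]; exact h2
  exact (Nat.modEq_zero_iff_dvd).1 (Nat.ModEq.add_right_cancel' j h3)

/-- the bijection between the attracting periodic points -/
theorem sig {d n s : ℕ} (S : Sys d n s) {x₁ x₂ : Fin n → ℂ} (h1 : x₁ ∈ S.U) (h2 : x₂ ∈ S.U)
    (hA1 : AllM S x₁) (hA2 : AllM S x₂) :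
    ∃ σ : OnePoint ℂ → OnePoint ℂ,
      (∀ k j, σ ((sp (S.co x₁))^[j] ((S.b k x₁ : ℂ) : OnePoint ℂ)) =
        (sp (S.co x₂))^[j] ((S.b k x₂ : ℂ) : OnePoint ℂ)) ∧
      ∀ m, BijOn σ {z | Sink (sp (S.co x₁)) m z} {z | Sink (sp (S.co x₂)) m z} := by
  classical
  set f := sp (S.co x₁) with hf
  set g := sp (S.co x₂) with hg
  obtain ⟨σ, hσ⟩ : ∃ σ : OnePoint ℂ → OnePoint ℂ, ∀ k j,
      σ (f^[j] ((S.b k x₁ : ℂ) : OnePoint ℂ)) = g^[j] ((S.b k x₂ : ℂ) : OnePoint ℂ) := by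
    refine ⟨fun z => if h : ∃ (k : Fin s) (j : ℕ), z = f^[j] ((S.b k x₁ : ℂ) : OnePoint ℂ) then
      g^[h.choose_spec.choose] ((S.b h.choose x₂ : ℂ) : OnePoint ℂ) else z, fun k j => ?_⟩
    have h : ∃ (k' : Fin s) (j' : ℕ), f^[j] ((S.b k x₁ : ℂ) : OnePoint ℂ) =
        f^[j'] ((S.b k' x₁ : ℂ) : OnePoint ℂ) := ⟨k, j, rfl⟩
    simp only
    rw [dif_pos h]
    have h3 := h.choose_spec.choose_spec
    have h4 := (rel_iff S h1 k h.choose j h.choose_spec.choose).1 h3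
    exact ((rel_iff S h2 k h.choose j h.choose_spec.choose).2 h4).symm
  refine ⟨σ, hσ, fun m => ⟨?_, ?_, ?_⟩⟩
  · intro z hz
    have hz : Sink f m z := hz
    obtain ⟨k, j, rfl⟩ := hA1 m z hz
    show Sink g m (σ _)
    rw [hσ]
    exact sink_mul (sink_fwd (sp_cont' S.hd (S.nd _ h2)) (sink_base S h2 k) j) hz.1
      (dvd_of_sink S h1 hz)
  · intro z hz z' hz' he
    have hz : Sink f m z := hz
    have hz' : Sink f m z' := hz'
    obtain ⟨k, j, rfl⟩ := hA1 m z hz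
    obtain ⟨k', j', rfl⟩ := hA1 m z' hz'
    rw [hσ, hσ] at he
    exact (rel_iff S h1 k k' j j').2 ((rel_iff S h2 k k' j j').1 he)
  · intro z hz
    have hz : Sink g m z := hz
    obtain ⟨k, j, rfl⟩ := hA2 m z hz
    refine ⟨f^[j] ((S.b k x₁ : ℂ) : OnePoint ℂ), ?_, hσ k j⟩
    exact sink_mul (sink_fwd (sp_cont' S.hd (S.nd _ h1)) (sink_base S h1 k) j) hz.1
      (dvd_of_sink S h2 hz)

/-- the system over the family which marks all attracting cycles of a map -/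
theorem fam_sys {d : ℕ} (hd : 2 ≤ d) {u₁ : Fin (2 * d) → ℂ} (hu : u₁ ∈ U₀ d)
    (hinf : ∀ p : ℕ, ¬ Sink (sp (fam u₁)) p ∞) :
    ∃ (s : ℕ) (S : Sys d (2 * d) s), (∀ x ∈ S.U, S.co x = fam x) ∧ u₁ ∈ S.U ∧ AllM S u₁ ∧
      ∀ ζ : ℂ, Attd (sp (fam u₁)) (ζ : OnePoint ℂ) →
        ∃ k, ∃ m : ℕ, S.InC k u₁ ((S.F u₁)^[m] (ζ, 1)) := by
  obtain ⟨hU₀, hfamd, hfamn, hfamN, -⟩ := p_FM d hd
  obtain ⟨s, S', q, hE, hqU, hxq, h1, h2, h3, h4⟩ := exists_full hd hu hinf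
  have hMk := Pool.Agent.W757.RD.SEL.mk_of p_LAM hE hqU
  rw [hxq] at hMk
  obtain ⟨ε, r, θ, b, hε, hr, hθ0, hθ1, hsub, hb1, hbd, hb2, hct, hsp, -⟩ :=
    p_LOCM d u₁ s S'.per (fun k => S'.b k q) hd hMk
  have hinf' : ∀ u : Fin (2 * d) → ℂ, (hF (fam u) (1, 0)).2 = 0 := by
    intro u
    rw [Pool.Agent.W364.NM.hF_inf']
    exact (hfamN u).2
  let S : Sys d (2 * d) s :=
    { co := fam
      U := ball u₁ ε
      per := S'.per
      b := b
      r₀ := fun _ => r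
      θ := θ
      hd := hd
      hU := isOpen_ball
      hr₀ := fun _ => hr
      hθ0 := hθ0
      hθ := hθ1
      hper := S'.hper
      hco := hfamd.differentiableOn
      hb := hbd
      nd := fun x hx => (hsub hx).1
      hinf := fun x _ => hinf' x
      hwr := fun x hx => (hsub hx).2
      contr := fun x hx k z hz => hct x hx k z hz
      sep := fun x hx k k' z z' a m hz hz' he => hsp x hx k k' z z' a m hz hz' he }
  have hu₁ : u₁ ∈ S.U := mem_ball_self hε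
  have hFF : S'.F q = S.F u₁ := by
    unfold Sys.F
    rw [hE.co q hqU, hxq]
  have hbb : ∀ k, S.b k u₁ = S'.b k q := hb1
  have hcoq : S'.co q = fam u₁ := by rw [hE.co q hqU, hxq]
  refine ⟨s, S, fun x _ => rfl, hu₁, ?_, ?_⟩
  · intro m a ha
    have ha' : Sink (sp (fam u₁)) m a := ha
    obtain ⟨k, j, hkj⟩ := h2 m a (by rw [hcoq]; exact ha')
    refine ⟨k, j, ?_⟩
    rw [hcoq, ← hbb k] at hkj
    exact hkj
  · intro ζ hζ
    obtain ⟨k, m, hkm⟩ := h1 ζ hζ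
    obtain ⟨m', hm'⟩ := trans_inC S' S hqU hFF k k (hbb k) hkm
    exact ⟨k, m', hm'⟩

/-- normalisation of a map of zero area type -/
theorem norm_zero {d : ℕ} (hd : 2 ≤ d) {x₀ : CV d} (hx₀ : ND x₀)
    (harea : volume {z : ℂ | ¬ Attd (sp x₀) (z : OnePoint ℂ)} = 0) :
    ∃ (u₁ : Fin (2 * d) → ℂ) (h : OnePoint ℂ ≃ₜ OnePoint ℂ) (m : (ℂ × ℂ) × (ℂ × ℂ)) (C : ℝ)
      (y₀ : CV d) (c₀ ε₀ σ₀ : ℝ), u₁ ∈ U₀ d ∧ 0 < c₀ ∧ 0 < ε₀ ∧ DIprop (3 / 4) d y₀ c₀ ε₀ σ₀ ∧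
      ‖fam u₁ - y₀‖ < σ₀ ∧ (∀ p : ℕ, ¬ Sink (sp (fam u₁)) p ∞) ∧
      (∀ j : Fin 2, Attd (sp (fam u₁)) ((bz j : ℂ) : OnePoint ℂ)) ∧
      volume {z : ℂ | ¬ Attd (sp (fam u₁)) (z : OnePoint ℂ)} = 0 ∧ dt m ≠ 0 ∧
      (∀ p : ℂ × ℂ, p ≠ 0 → h (pr p) = pr (ap m p)) ∧
      (∀ z, sp (fam u₁) (h z) = h (sp x₀ z)) ∧ 0 < C ∧
      ∀ u : Fin (2 * d) → ℂ, ‖u - u₁‖ < 1 → ND (fam u) →
        ∃ x' : CV d, ‖x' - x₀‖ ≤ C * ‖u - u₁‖ ∧ ND x' ∧ ∀ z, sp (fam u) (h z) = h (sp x' z) := by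
  obtain ⟨hU₀, hfamd, hfamn, hfamN, -⟩ := p_FM d hd
  obtain ⟨q, hq, hns⟩ := p_NAF d x₀ hd hx₀
  have hw : wr x₀ (Pool.Agent.H790R3.RB.hc q) ≠ 0 := by
    intro h0
    obtain ⟨δ, hδ, V, hV, H⟩ := p_NAC d x₀ q hd hx₀ hq h0
    exact hns 1 (H x₀ (by rw [sub_self, _root_.norm_zero]; exact hδ) q (mem_of_mem_nhds hV) hq)
  obtain ⟨b₁, b₂, u₀, -, -, -, hu₀, hG, H⟩ := p_NM d x₀ q hd hx₀ hq hw
  obtain ⟨c₀, ε₀, σ₀, hc₀, hε₀, hσ₀, hdi⟩ := p_DI (3 / 4) d (fam u₀) (by norm_num) (by norm_num) hd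
    hu₀.1 (hfamN u₀) hG
  obtain ⟨σ', hσ', hball⟩ := Metric.isOpen_iff.mp hU₀ u₀ hu₀
  obtain ⟨C, δ, hCC, hδ, V, hV, H1⟩ := H (min σ₀ σ') (lt_min hσ₀ hσ')
  -- attracted base points
  have hatt : ∀ b : ℂ, ∃ a : ℂ, ‖a - b‖ < δ ∧ Attd (sp x₀) (a : OnePoint ℂ) := by
    intro b
    by_contra hcon
    push Not at hcon
    have hsub : ball b δ ⊆ {z : ℂ | ¬ Attd (sp x₀) (z : OnePoint ℂ)} := by
      intro z hz
      exact hcon z (by rw [← dist_eq_norm]; exact hz)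
    have h0 := measure_mono_null hsub harea
    exact (measure_ball_pos volume b hδ).ne' h0
  obtain ⟨a₁, ha₁, hA₁⟩ := hatt b₁
  obtain ⟨a₂, ha₂, hA₂⟩ := hatt b₂
  obtain ⟨u₁, h, Q, hQ0, hQq, hh, hhq, hh1, hh2, hun, hs, hback⟩ :=
    H1 x₀ (by rw [sub_self, _root_.norm_zero]; exact hδ) q (mem_of_mem_nhds hV) hq a₁ a₂ ha₁ ha₂
  have hs1 : ∀ z, sp (fam u₁) (h z) = h (sp x₀ z) := fun z => (hs z).symm
  have hu₁U : u₁ ∈ U₀ d := hball (by
    rw [mem_ball, dist_eq_norm]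
    exact hun.trans_le (min_le_right _ _))
  have hinf : ∀ p : ℕ, ¬ Sink (sp (fam u₁)) p ∞ := by
    intro p hp
    apply hns p
    have := Pool.Agent.H790R3.RB.ALL.sink h.symm (conj_symm h hs1) hp
    rwa [← hhq, h.symm_apply_apply] at this
  have hvol : volume {z : ℂ | ¬ Attd (sp (fam u₁)) (z : OnePoint ℂ)} = 0 := by
    have h5 := null_mb h hQ0 hQq hh hhq hh1 hh2 {z | ¬ Attd (sp x₀) z} harea
    refine measure_mono_null ?_ h5
    intro w hw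
    refine ⟨h.symm (w : OnePoint ℂ), ?_, h.apply_symm_apply _⟩
    intro hA
    apply hw
    have := Pool.Agent.H790R3.RB.ALL.attd h hs1 hA
    rwa [h.apply_symm_apply] at this
  have hbase : ∀ j : Fin 2, Attd (sp (fam u₁)) ((bz j : ℂ) : OnePoint ℂ) := by
    have f1 := Pool.Agent.H790R3.RB.ALL.attd h hs1 hA₁
    have f2 := Pool.Agent.H790R3.RB.ALL.attd h hs1 hA₂
    rw [hh1] at f1
    rw [hh2] at f2
    intro j
    fin_cases j
    · simpa [bz] using f1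
    · simpa [bz] using f2
  have e12 : a₁ ≠ a₂ := by
    rintro rfl
    rw [hh1] at hh2
    have := OnePoint.coe_injective hh2
    exact zero_ne_one this
  have eQ1 : cr ((a₁, 1) : ℂ × ℂ) Q ≠ 0 := by
    intro h0
    have h3 := (Pool.Agent.H790R3.RB.SP.pr_eq_iff (one_ne a₁) hQ0).2 h0
    rw [Pool.Agent.W586.RESMK.pr_one, hQq] at h3
    rw [h3, hhq] at hh1
    exact OnePoint.infty_ne_coe _ hh1
  have eQ2 : cr ((a₂, 1) : ℂ × ℂ) Q ≠ 0 := by
    intro h0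
    have h3 := (Pool.Agent.H790R3.RB.SP.pr_eq_iff (one_ne a₂) hQ0).2 h0
    rw [Pool.Agent.W586.RESMK.pr_one, hQq] at h3
    rw [h3, hhq] at hh2
    exact OnePoint.infty_ne_coe _ hh2
  refine ⟨u₁, h, mt a₁ a₂ Q, C, fam u₀, c₀, ε₀, σ₀, hu₁U, hc₀, hε₀, hdi, ?_, hinf, hbase, hvol,
    ?_, ?_, hs1, hCC, ?_⟩
  · rw [hfamn]
    exact hun.trans_le (min_le_left _ _)
  · rw [dt_mt]
    exact mul_ne_zero (mul_ne_zero eQ2 (sub_ne_zero.2 (Ne.symm e12))) eQ1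
  · intro p hp
    rw [hh p hp, mb_eq]
  · intro u hu hNDu
    obtain ⟨x', hn, hND', hsx⟩ := hback u hu hNDu
    exact ⟨x', hn, hND', fun z => (hsx z).symm⟩

end Pool.Agent.Zk23
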