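import Mathlib
import Pool.Agent.Zk23.ETG
import Pool.Agent.Zk23.ETI

/-! Every assignment of the free critical points, part 15: the theorem on the sphere. -/

set_option autoImplicit false
set_option linter.unusedVariables false

open Topology Filter Metric Set MeasureTheory
open Pool.Agent.H790R3.RB (CV hF cr ND wr rt Ix yx yc sp pr hc HypTop Attd Sink cr_eq_zero_iff
  cr_smul_left cr_smul_right cr_self cr_comm WR SP PQ pol INJL hF_iter_smul)
open Pool.Agent.W757.RD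
open Pool.Agent.W364.NM (ap ad dt ap_smul ap_ad ad_ap ad_ad ap_ne cr_ap hF_csmul wr_conj wr_eval
  sp_pr exists_pr pr_csmul mt mb_eq dt_mt)
open Pool.Agent.W402.RE.MINP (DIprop)
open scoped OnePoint

namespace Pool.Agent.Zk23

theorem inC_smul {d n s : ℕ} {S : Sys d n s} {k : Fin s} {x : Fin n → ℂ} {p : ℂ × ℂ} {a : ℂ}
    (ha : a ≠ 0) (h : S.InC k x p) : S.InC k x (a • p) := by
  obtain ⟨b, z, hb, hz, rfl⟩ := h
  exact ⟨a * b, z, mul_ne_zero ha hb, hz, by rw [smul_smul]⟩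

/-- Every assignment of the critical points of a map of zero area type to its attracting cycles. -/
theorem every {d : ℕ} (hd : 2 ≤ d) {x₀ : CV d} (hx₀ : ND x₀)
    (harea : volume {z : ℂ | ¬ Attd (sp x₀) (z : OnePoint ℂ)} = 0)
    {c : Fin (2 * d - 2) → OnePoint ℂ} (hcx : HCrit x₀ c)
    (hsup : ∀ i m, ¬ Sink (sp x₀) m (c i)) {n : Fin (2 * d - 2) → ℕ}
    {a : Fin (2 * d - 2) → OnePoint ℂ} (ha : ∀ i, Sink (sp x₀) (n i) (a i))
    (hcomp : ∀ i, Attd (sp x₀) (c i) → Cap (sp x₀) (n i) (a i) (c i))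
    {ε : ℝ} (hε : 0 < ε) {U : Fin (2 * d - 2) → Set (OnePoint ℂ)} (hU : ∀ i, U i ∈ 𝓝 (c i))
    {V : OnePoint ℂ → Set (OnePoint ℂ)} (hV : ∀ z, V z ∈ 𝓝 z) :
    ∃ (x' : CV d) (c' : Fin (2 * d - 2) → OnePoint ℂ) (σ : OnePoint ℂ → OnePoint ℂ),
      ‖x' - x₀‖ < ε ∧ ND x' ∧ HypTop (sp x') ∧ HCrit x' c' ∧ Function.Injective c' ∧
      (∀ i, c' i ∈ U i) ∧
      (∀ m, BijOn σ {z | Sink (sp x₀) m z} {z | Sink (sp x') m z}) ∧
      (∀ m z, Sink (sp x₀) m z → σ z ∈ V z ∧ σ (sp x₀ z) = sp x' (σ z)) ∧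
      ∀ i, Cap (sp x') (n i) (σ (a i)) (c' i) := by
  classical
  obtain ⟨u₁, h, mm, C, y₀, c₀, ε₀, σ₀, hu₁, hc₀, hε₀, hdi, hnear, hinf, hbase, hvol, hmm, hhm,
    hs, hC, hback⟩ := norm_zero hd hx₀ harea
  obtain ⟨s, S, hco, huS, hall, hatt⟩ := fam_sys hd hu₁ hinf
  have hsym := conj_symm h hs
  have hcou : S.co u₁ = fam u₁ := hco _ huS
  have hcont₁ : Continuous (sp (fam u₁)) := sp_cont' hd hu₁.1
  have hcont₀ : Continuous (sp x₀) := sp_cont' hd hx₀
  -- the critical points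
  have hcu := hcrit_map hd hx₀ hu₁.1 hmm h hhm hs hcx
  obtain ⟨cl, hcl, hfac⟩ := hcrit_fin hd hu₁ hcu
  have hcl' : ∀ i, h.symm ((cl i : ℂ) : OnePoint ℂ) = c i := fun i => by
    rw [← hcl i, h.symm_apply_apply]
  -- sinks
  have hsk : ∀ m z, Sink (sp x₀) m z → Sink (sp (fam u₁)) m (h z) := fun m z hz =>
    Pool.Agent.H790R3.RB.ALL.sink h hs hz
  have hsk' : ∀ m z, Sink (sp (fam u₁)) m (h z) → Sink (sp x₀) m z := fun m z hz => by
    have := Pool.Agent.H790R3.RB.ALL.sink h.symm hsym hz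
    rwa [h.symm_apply_apply] at this
  have hmark : ∀ m z, Sink (sp x₀) m z → ∃ (k : Fin s) (j : ℕ),
      h z = (sp (fam u₁))^[j] ((S.b k u₁ : ℂ) : OnePoint ℂ) := by
    intro m z hz
    obtain ⟨k, j, hkj⟩ := hall m (h z) (by rw [hcou]; exact hsk m z hz)
    rw [hcou] at hkj
    exact ⟨k, j, hkj⟩
  choose τ J hτJ using fun i => hmark (n i) (a i) (ha i)
  -- the cycles are not superattracting
  have hlam : ∀ k, S.lam k u₁ ≠ 0 := by
    intro k
    apply Pool.Agent.W440.RE.LNE.lam_neX S WR u₁ huS k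
    intro j hj
    rw [hcou] at hj
    have hne : (hF (fam u₁))^[j] (S.cht k u₁ 0) ≠ 0 :=
      hu₁.1.iter_ne j (Pool.Agent.W440.RE.TOP.cht_ne_zero S k u₁ 0)
    obtain ⟨h1, h2, h3, h4⟩ := fin_crit hd hu₁ hne hj
    rw [hfac] at h2
    have h5 := (mul_eq_zero.1 h2).resolve_left hu₁.2
    obtain ⟨i, -, hi⟩ := Finset.prod_eq_zero_iff.1 h5
    have h6 : ((hF (fam u₁))^[j] (S.cht k u₁ 0)).1 / ((hF (fam u₁))^[j] (S.cht k u₁ 0)).2 = cl i :=
      sub_eq_zero.1 hi
    rw [h6] at h4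
    have h7 := (SP d (fam u₁) (by omega) hu₁.1).2.1 (S.cht k u₁ 0) (Pool.Agent.W440.RE.TOP.cht_ne_zero S k u₁ 0) j
    have h8 : pr (S.cht k u₁ 0) = ((S.b k u₁ : ℂ) : OnePoint ℂ) := by
      rw [Pool.Agent.W440.RE.TOP.pr_some, add_zero]
    rw [h4, h8] at h7
    have h9 := sink_fwd hcont₁ (by have := sink_base S huS k; rwa [hcou] at this) j
    rw [h7, ← hcl i] at h9
    exact hsup i _ (hsk' _ _ h9)
  -- compatibility
  have hτ : ∀ i k, ∀ m : ℕ, S.InC k u₁ ((S.F u₁)^[m] (cl i, 1)) → k = τ i := by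
    intro i k m hkm
    have h1 := cap_of_inC S huS (c := ((cl i : ℂ) : OnePoint ℂ)) hkm
    rw [hcou, ← hcl i] at h1
    have hsb := sink_base S huS k
    rw [hcou] at hsb
    have h2 : Attd (sp (fam u₁)) (h (c i)) := attd_of_cap hcont₁ hsb h1
    have h3 : Attd (sp x₀) (c i) := by
      have := Pool.Agent.H790R3.RB.ALL.attd h.symm hsym h2
      rwa [h.symm_apply_apply] at this
    have h4 : Cap (sp (fam u₁)) (n i) (h (a i)) (h (c i)) := cap_conj h hs (hcomp i h3)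
    obtain ⟨l, hl⟩ := same_cycle hcont₁ (S.hper k) hsb.2.1 (ha i).1 h1 h4
    rw [hτJ i, ← Function.iterate_add_apply] at hl
    have h5 := (rel_iff S huS k (τ i) 0 (l + J i)).1 (by rw [hcou]; exact hl)
    exact h5.1
  -- the area
  have hmu : mu (3 / 4) (S.KS u₁) = 0 := by
    have h1 : volume (S.KS u₁) = 0 := by
      refine measure_mono_null ?_ hvol
      intro ζ hζ hA
      obtain ⟨k, m, hkm⟩ := hatt ζ hA
      exact hζ k m hkm
    exact (p_MU (3 / 4) (by norm_num) (by norm_num)).2 _ |>.1 h1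
  -- open conditions
  have e1 : ∀ i, ∀ᶠ ζ : ℂ in 𝓝 (cl i), h.symm (ζ : OnePoint ℂ) ∈ U i := by
    intro i
    have h1 : ContinuousAt (fun ζ : ℂ => h.symm (ζ : OnePoint ℂ)) (cl i) :=
      (h.symm.continuous.comp OnePoint.continuous_coe).continuousAt
    exact h1.eventually_mem (by rw [hcl']; exact hU i)
  have e2 : ∀ᶠ u in 𝓝 u₁, ∀ k, ∀ j ∈ Finset.range (S.per k),
      h.symm (pr ((hF (fam u))^[j] (S.b k u, 1))) ∈
        V (h.symm ((sp (fam u₁))^[j] ((S.b k u₁ : ℂ) : OnePoint ℂ))) := by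
    refine eventually_all.2 fun k => ?_
    rw [Filter.eventually_all_finset]
    intro j _
    have hbc : ContinuousAt (S.b k) u₁ :=
      ((S.hb k).differentiableAt (S.hU.mem_nhds huS)).continuousAt
    have h1 : ContinuousAt (fun u : Fin (2 * d) → ℂ => pr ((hF (fam u))^[j] (S.b k u, 1))) u₁ :=
      ContinuousAt.comp (f := fun u : Fin (2 * d) → ℂ => (u, S.b k u))
        (g := fun w : (Fin (2 * d) → ℂ) × ℂ => pr ((hF (fam w.1))^[j] (w.2, 1)))
        (orb_cont hd hu₁.1 (S.b k u₁) j) (continuousAt_id.prodMk hbc)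
    have h2 := h.symm.continuous.continuousAt.comp h1
    refine h2.eventually_mem ?_
    simp only [Function.comp]
    have h3 := (SP d (fam u₁) (by omega) hu₁.1).2.1 (S.b k u₁, 1) (one_ne _) j
    rw [Pool.Agent.W586.RESMK.pr_one] at h3
    rw [← h3]
    exact hV _
  choose δc hδc hbc using fun i => Metric.eventually_nhds_iff.1 (e1 i)
  obtain ⟨δ₁, hδ₁, hδ₁le⟩ := LIN.exists_min δc hδc
  obtain ⟨δ₂, hδ₂, hb2⟩ := Metric.eventually_nhds_iff.1 e2
  obtain ⟨y, hyU, hyu, hyE, hyi, hyl, hyc, hyIn⟩ := engine (by norm_num) (by norm_num) S hco huS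
    hlam hmu (fun j => hatt _ (hbase j)) hc₀ hε₀ hdi hnear cl hfac τ hτ
    (min (min δ₁ δ₂) (min 1 (ε / C)))
    (lt_min (lt_min hδ₁ hδ₂) (lt_min one_pos (div_pos hε hC)))
  have l1 : ∀ i, ‖yc y i - cl i‖ < δ₁ := fun i =>
    (hyc i).trans_le ((min_le_left _ _).trans (min_le_left _ _))
  have l2 : ‖yx y - u₁‖ < δ₂ := hyu.trans_le ((min_le_left _ _).trans (min_le_right _ _))
  have l3 : ‖yx y - u₁‖ < 1 := hyu.trans_le ((min_le_right _ _).trans (min_le_left _ _))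
  have l4 : ‖yx y - u₁‖ < ε / C := hyu.trans_le ((min_le_right _ _).trans (min_le_right _ _))
  obtain ⟨u, hu⟩ : ∃ u, u = yx y := ⟨_, rfl⟩
  rw [← hu] at hyU hyl hyIn l2 l3 l4
  have hcoy : S.co u = fam u := hco _ hyU
  have huU : u ∈ U₀ d := by
    have h1 := S.nd _ hyU
    have h2 := S.hwr _ hyU
    rw [hcoy] at h1 h2
    exact ⟨h1, h2⟩
  have hfacy : ∀ ζ : ℂ, wr (fam u) (ζ, 1) = wr (fam u) (1, 0) * ∏ i, (ζ - yc y i) := by
    have := p_ER d (2 * d) s S y hyE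
    rw [← hu, hcoy] at this
    exact this
  obtain ⟨x', hx', hND', hsx⟩ := hback u l3 huU.1
  have hsymx := conj_symm h hsx
  -- all critical points are attracted
  have hallc : ∀ v : ℂ × ℂ, v ≠ 0 → wr (S.co u) v = 0 →
      ∃ k, ∃ m : ℕ, S.InC k u ((S.F u)^[m] v) := by
    intro v hv hwv
    rw [hcoy] at hwv
    obtain ⟨h1, h2, h3, h4⟩ := fin_crit hd huU hv hwv
    rw [hfacy] at h2
    have h5 := (mul_eq_zero.1 h2).resolve_left huU.2
    obtain ⟨i, -, hi⟩ := Finset.prod_eq_zero_iff.1 h5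
    have h6 : v.1 / v.2 = yc y i := sub_eq_zero.1 hi
    obtain ⟨m, hm⟩ := hyIn i
    refine ⟨τ i, m, ?_⟩
    rw [h6] at h3
    rw [h3]
    have h7 : (S.F u)^[m] (v.2 • ((yc y i, 1) : ℂ × ℂ)) =
        v.2 ^ (d ^ m) • (S.F u)^[m] ((yc y i, 1) : ℂ × ℂ) := hF_iter_smul (S.co u) m v.2 _
    rw [h7]
    exact inC_smul (pow_ne_zero _ h1) hm
  have hhyp : HypTop (sp (fam u)) := by
    rw [← hcoy]
    exact p_TOP d _ s S _ hyU hallc
  have hall' : AllM S u := allM_of_crit S hyU hallc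
  obtain ⟨σ, hσ1, hσ2⟩ := sig S huS hyU hall hall'
  rw [hcou, hcoy] at hσ1
  have hσ2' : ∀ m, BijOn σ {z | Sink (sp (fam u₁)) m z} {z | Sink (sp (fam u)) m z} := by
    intro m
    have := hσ2 m
    rwa [hcou, hcoy] at this
  have hcont' : Continuous (sp (fam u)) := sp_cont' hd huU.1
  have hskx : ∀ m z, Sink (sp (fam u)) m z → Sink (sp x') m (h.symm z) := fun m z hz =>
    Pool.Agent.H790R3.RB.ALL.sink h.symm hsymx hz
  have hskx' : ∀ m z, Sink (sp x') m z → Sink (sp (fam u)) m (h z) := fun m z hz =>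
    Pool.Agent.H790R3.RB.ALL.sink h hsx hz
  -- critical points of the new map
  have hcu' := hcrit_of_fin hd huU (yc y) hfacy
  have hdad : dt (ad mm) = dt mm := by simp only [dt, ad]; ring
  have hhm' : ∀ p : ℂ × ℂ, p ≠ 0 → h.symm (pr p) = pr (ap (ad mm) p) := by
    intro p hp
    have h1 : ap (ad mm) p ≠ 0 := ap_ne (by rw [hdad]; exact hmm) hp
    apply h.injective
    rw [h.apply_symm_apply, hhm _ h1, ad_ap, pr_csmul hmm]
  have hcx' : HCrit x' (fun i => h.symm ((yc y i : ℂ) : OnePoint ℂ)) :=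
    hcrit_map hd huU.1 hND' (by rw [hdad]; exact hmm) h.symm hhm'
      (fun z => (hsymx z)) hcu'
  refine ⟨x', fun i => h.symm ((yc y i : ℂ) : OnePoint ℂ), fun z => h.symm (σ (h z)), ?_, hND',
    Pool.Agent.H790R3.RB.ALL.hyp h.symm hsymx hhyp, hcx', ?_, ?_, ?_, ?_, ?_⟩
  · calc ‖x' - x₀‖ ≤ C * ‖u - u₁‖ := hx'
      _ < C * (ε / C) := mul_lt_mul_of_pos_left l4 hC
      _ = ε := by field_simp
  · intro i j hij
    exact hyi (OnePoint.coe_injective (h.symm.injective hij))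
  · intro i
    refine hbc i (y := yc y i) ?_
    rw [dist_eq_norm]
    exact (l1 i).trans_le (hδ₁le i)
  · intro m
    refine ⟨?_, ?_, ?_⟩
    · intro z hz
      exact hskx m _ ((hσ2' m).mapsTo (hsk m z hz))
    · intro z hz z' hz' he
      exact h.injective ((hσ2' m).injOn (hsk m z hz) (hsk m z' hz') (h.symm.injective he))
    · intro z hz
      obtain ⟨w, hw, hwz⟩ := (hσ2' m).surjOn (hskx' m z hz)
      refine ⟨h.symm w, ?_, ?_⟩
      · refine hsk' m _ ?_
        rw [h.apply_symm_apply]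
        exact hw
      · show h.symm (σ (h (h.symm w))) = z
        rw [h.apply_symm_apply, hwz, h.symm_apply_apply]
  · intro m z hz
    obtain ⟨k, j, hkj⟩ := hmark m z hz
    constructor
    · show h.symm (σ (h z)) ∈ V z
      have hper := S.hper k
      have h1 : h z = (sp (fam u₁))^[j % S.per k] ((S.b k u₁ : ℂ) : OnePoint ℂ) := by
        rw [hkj]
        have := (rel_iff S huS k k j (j % S.per k)).2 ⟨rfl, (Nat.mod_modEq j _).symm⟩
        rwa [hcou] at this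
      have h2 := hb2 (y := u) (by rw [dist_eq_norm]; exact l2) k (j % S.per k)
        (Finset.mem_range.2 (Nat.mod_lt _ hper))
      rw [← h1, h.symm_apply_apply] at h2
      rw [h1, hσ1]
      have h3 := (SP d (fam u) (by omega) huU.1).2.1 (S.b k u, 1) (one_ne _) (j % S.per k)
      rw [Pool.Agent.W586.RESMK.pr_one] at h3
      rw [h3]
      exact h2
    · show h.symm (σ (h (sp x₀ z))) = sp x' (h.symm (σ (h z)))
      rw [hsymx, ← hs, hkj, ← Function.iterate_succ_apply' (sp (fam u₁)) j, hσ1, hσ1,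
        Function.iterate_succ_apply' (sp (fam u)) j]
  · intro i
    obtain ⟨m, hm⟩ := hyIn i
    have h1 := cap_of_inC S hyU (c := ((yc y i : ℂ) : OnePoint ℂ)) hm
    rw [hcoy] at h1
    have h2 := cap_fwd hcont' h1 (J i)
    have h3 : S.per (τ i) ∣ n i := by
      refine dvd_of_sink S huS (k := τ i) (j := J i) ?_
      rw [hcou, ← hτJ i]
      exact hsk _ _ (ha i)
    obtain ⟨l, hl⟩ := h3
    have hl0 : 0 < l := by
      rcases Nat.eq_zero_or_pos l with h0 | h0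
      · have := (ha i).1
        rw [hl, h0, mul_zero] at this
        omega
      · exact h0
    have h4 := cap_mul hl0 h2
    rw [← hl] at h4
    show Cap (sp x') (n i) (h.symm (σ (h (a i)))) (h.symm ((yc y i : ℂ) : OnePoint ℂ))
    rw [hτJ i, hσ1]
    exact cap_conj h.symm hsymx h4

end Pool.Agent.Zk23
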