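import Mathlib
import Pool.Agent.Zk23.ETM

/-! All free critical points in new cycles, part 1: the local part of the minimal principle with an
additional superharmonic function. -/

set_option autoImplicit false
set_option linter.unusedVariables false

open Topology Filter Metric Set MeasureTheory
open Pool.Agent.H790R3.RB (CV hF cr ND wr rt Ix yx yc yx_diff yc_diff exists_low
  lsc_comp StDISC StMAXI StCONT hF_iter_smul cr_smul_left cr_smul_right cr_iter cr_trans cr_comm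
  cr_eq_zero_iff ch_ne_zero)
open Pool.Agent.W757.RD
open Pool.Agent.W402.RE.MINP (ys_diff DIprop exists_L)

namespace Pool.Agent.Zk23

open Pool.Agent.H790R3.RB.CONT Pool.Agent.H713R3.ZA in
/-- The final computation, with an additional function. -/
theorem cont_ext (P : Type) [Fintype P] (τ ρ c₀ δ a : ℝ) (f : P → ℂ → ℂ) (w : P → ℂ) (g : ℂ → ℂ)
    (A : ℝ → ℝ) (h₀ : ℝ) (hf' : ℝ → ℝ) (hρ : 0 < ρ) (hτ : ρ < τ) (hc : 0 < c₀) (hδ : 0 < δ)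
    (hf : ∀ i, DifferentiableOn ℂ (f i) (ball 0 τ))
    (hg : DifferentiableOn ℂ g (ball 0 τ)) (hg0 : ∀ t ∈ ball (0 : ℂ) τ, g t ≠ 0)
    (hne : ∃ θ : ℝ, ∃ i, f i (circleMap 0 ρ θ) ≠ f i 0) (hA : ∀ θ, 0 ≤ A θ)
    (hfc : Continuous hf') (hfi : ∫ θ in (0 : ℝ)..(2 * Real.pi), hf' θ ≤ 2 * Real.pi * h₀)
    (hm : ∀ θ : ℝ, a + c₀ / 2 * ∑ i, ‖f i 0 - w i‖ ^ 2 - δ * Real.log ‖g 0‖ + h₀ ≤
      A θ + c₀ / 2 * ∑ i, ‖f i (circleMap 0 ρ θ) - w i‖ ^ 2 -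
        δ * Real.log ‖g (circleMap 0 ρ θ)‖ + hf' θ)
    (hq : ∀ q : ℝ → ℝ, Continuous q → (∀ θ, 0 ≤ q θ ∧ q θ ≤ A θ) →
      ∫ θ in (0 : ℝ)..(2 * Real.pi), (q θ + c₀ * ∑ i, ‖f i (circleMap 0 ρ θ) - f i 0‖ ^ 2) ≤
        2 * Real.pi * a) : False := by
  obtain ⟨θ₀, i₀, hne⟩ := hne
  have hpi := Real.pi_pos
  set G : ℝ → ℝ := fun θ => ∑ i, ‖f i (circleMap 0 ρ θ) - f i 0‖ ^ 2 with hG
  set K : ℝ → ℝ := fun θ => ∑ i, ‖f i (circleMap 0 ρ θ) - w i‖ ^ 2 with hK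
  set L : ℝ → ℝ := fun θ => Real.log ‖g (circleMap 0 ρ θ)‖ with hL
  have cG : Continuous G := sum_cont hρ hτ hf (fun i => f i 0)
  have cK : Continuous K := sum_cont hρ hτ hf w
  have cL : Continuous L := log_cont hρ hτ hg hg0
  have iK : ∫ θ in (0 : ℝ)..(2 * Real.pi), K θ = 2 * Real.pi * ∑ i, ‖f i 0 - w i‖ ^ 2 +
      ∫ θ in (0 : ℝ)..(2 * Real.pi), G θ := sum_int hρ hτ hf w
  have iL : ∫ θ in (0 : ℝ)..(2 * Real.pi), L θ = 2 * Real.pi * Real.log ‖g 0‖ :=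
    circ_log hρ hτ hg hg0
  set B : ℝ := a + c₀ / 2 * ∑ i, ‖f i 0 - w i‖ ^ 2 - δ * Real.log ‖g 0‖ + h₀ with hB
  set m : ℝ → ℝ := fun θ => (B - c₀ / 2 * K θ + δ * L θ) - hf' θ with hmdef
  have cm0 : Continuous fun θ => B - c₀ / 2 * K θ + δ * L θ :=
    (continuous_const.sub (continuous_const.mul cK)).add (continuous_const.mul cL)
  have cm : Continuous m := cm0.sub hfc
  have im : 2 * Real.pi * a - c₀ / 2 * ∫ θ in (0 : ℝ)..(2 * Real.pi), G θ ≤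
      ∫ θ in (0 : ℝ)..(2 * Real.pi), m θ := by
    have i1 : IntervalIntegrable (fun θ : ℝ => B - c₀ / 2 * K θ) volume 0 (2 * Real.pi) :=
      (continuous_const.sub (continuous_const.mul cK)).intervalIntegrable _ _
    have i2 : IntervalIntegrable (fun θ : ℝ => δ * L θ) volume 0 (2 * Real.pi) :=
      (continuous_const.mul cL).intervalIntegrable _ _
    have i3 : IntervalIntegrable (fun _ : ℝ => B) volume 0 (2 * Real.pi) :=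
      continuous_const.intervalIntegrable _ _
    have i4 : IntervalIntegrable (fun θ : ℝ => c₀ / 2 * K θ) volume 0 (2 * Real.pi) :=
      (continuous_const.mul cK).intervalIntegrable _ _
    simp only [hmdef]
    rw [intervalIntegral.integral_sub (cm0.intervalIntegrable _ _) (hfc.intervalIntegrable _ _),
      intervalIntegral.integral_add i1 i2, intervalIntegral.integral_sub i3 i4,
      intervalIntegral.integral_const_mul, intervalIntegral.integral_const_mul,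
      intervalIntegral.integral_const, iK, iL, smul_eq_mul, sub_zero, hB]
    linarith
  have h1 := hq (fun θ => max (m θ) 0) (cm.max continuous_const) (fun θ => by
    refine ⟨le_max_right _ _, max_le ?_ (hA θ)⟩
    have := hm θ
    simp only [hmdef, hB, hK, hL]
    linarith)
  have h2 : ∫ θ in (0 : ℝ)..(2 * Real.pi), (m θ + c₀ * G θ) ≤
      ∫ θ in (0 : ℝ)..(2 * Real.pi), (max (m θ) 0 + c₀ * G θ) := by
    apply intervalIntegral.integral_mono_on (by positivity)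
    · exact (cm.add (continuous_const.mul cG)).intervalIntegrable _ _
    · exact ((cm.max continuous_const).add (continuous_const.mul cG)).intervalIntegrable _ _
    · intro θ _
      have := le_max_left (m θ) 0
      linarith
  have h3 : ∫ θ in (0 : ℝ)..(2 * Real.pi), (m θ + c₀ * G θ) =
      (∫ θ in (0 : ℝ)..(2 * Real.pi), m θ) + c₀ * ∫ θ in (0 : ℝ)..(2 * Real.pi), G θ := by
    have i5 : IntervalIntegrable (fun θ : ℝ => c₀ * G θ) volume 0 (2 * Real.pi) :=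
      (continuous_const.mul cG).intervalIntegrable _ _
    rw [intervalIntegral.integral_add (cm.intervalIntegrable _ _) i5,
      intervalIntegral.integral_const_mul]
  have hper : Function.Periodic G (2 * Real.pi) := by
    intro θ
    simp only [hG]
    rw [periodic_circleMap 0 ρ θ]
  have hGpos : 0 < ∫ θ in (0 : ℝ)..(2 * Real.pi), G θ := by
    have h4 := hper.intervalIntegral_add_eq 0 θ₀
    rw [zero_add] at h4
    rw [h4]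
    apply intervalIntegral.integral_pos (by linarith) cG.continuousOn
    · intro θ _
      exact Finset.sum_nonneg fun i _ => by positivity
    · refine ⟨θ₀, ⟨le_rfl, by linarith⟩, ?_⟩
      apply Finset.sum_pos' (fun i _ => by positivity)
      refine ⟨i₀, Finset.mem_univ _, ?_⟩
      have : 0 < ‖f i₀ (circleMap 0 ρ θ₀) - f i₀ 0‖ := norm_pos_iff.2 (sub_ne_zero.2 hne)
      positivity
  have h5 := h2.trans h1
  rw [h3] at h5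
  have h6 : 0 < c₀ * ∫ θ in (0 : ℝ)..(2 * Real.pi), G θ := mul_pos hc hGpos
  linarith

/-- the local part of the argument: there is no minimal point on a disc in the leaf -/
theorem no_minw (hLAM : StLAM) (hADO : StADO) (hLF : StLF)
    (hOPN : StOPN) (hBAD : StBAD)
    (hNC : StNC)
    {β : ℝ} {d n s l : ℕ} (S : Sys d n s) (hNrm : ∀ x ∈ S.U, Nrm (S.co x))
    (e : Fin l → (Fin n → ℂ) → ℂ)
    (hed : ∀ i, DifferentiableOn ℂ (e i) S.U)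
    {KK : Fin s → (Fin n → ℂ) × (ℂ × ℂ) → ℂ} (hK : S.Koe KK)
    {C : Set (Fin n → ℂ)} {Ω : Set (Ix d n s → ℂ)} (hΩ : IsOpen Ω)
    {x₀ : CV d} {c₀ ε₀ σ : ℝ} (hc₀ : 0 < c₀) (wT : CV d)
    (hdi : DIprop β d x₀ c₀ ε₀ σ)
    {A : Finset (Pt d)} {ks : Pt d → Fin s}
    {ls : Pt d → ℕ} (hls : ∀ i ∈ A, ls i < S.per (ks i))
    (hA0 : Sum.inr 0 ∈ A) (hA1 : Sum.inr 1 ∈ A)
    {y₀ : Ix d n s → ℂ} (hlam0 : ∀ k, S.lam k (yx y₀) ≠ 0)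
    {N : Set (Fin n → ℂ)} {r : ℝ} {ω : Fin s → (Fin n → ℂ) × ℂ → ℂ}
    (hL : S.Lin KK N r ω) {Kc r₁ r₂ : ℝ}
    (hr₁ : 0 < r₁) (hr₁₂ : r₁ < r₂) (hr₂ : Kc * r₂ < r)
    {L : ℕ} {Fh : Pt d → ℂ}
    (hKL : ∀ i ∈ A, Kc * ‖S.lam (ks i) (yx y₀) ^ L * Fh i‖ < r)
    {Nt : ℕ} (hNt : ∀ k, S.per k ∣ Nt)
    (hbase : ∀ j : Fin 2, ∃ L' a : ℕ, L ≤ L' ∧ a < S.per (ks (Sum.inr j)) ∧
      Nt = ls (Sum.inr j) + (S.per (ks (Sum.inr j)) * L' + a) ∧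
      ‖S.lam (ks (Sum.inr j)) (yx y₀) ^ L' * Fh (Sum.inr j)‖ < r₂)
    {Gt : (Ix d n s → ℂ) → ℂ} (hGd : DifferentiableOn ℂ Gt Ω) (hG0 : ∀ z ∈ Ω, Gt z ≠ 0)
    {δ₀ : ℝ} (hδ₀ : 0 < δ₀)
    (y : Ix d n s → ℂ) (hyL : y ∈ S.Leaf ω e A ks ls L C Kc y₀ Fh)
    (hyN : yx y ∈ N) (hyΩ : y ∈ Ω)
    (hprot : ∀ z ∈ S.Leaf ω e A ks ls L C Kc y₀ Fh, z ∈ Ω →
      ∀ i : Fin (2 * d - 2), Sum.inl i ∉ A → ∀ k, ∀ m : ℕ, m ≤ Nt + S.per k →
        ¬ S.InC k (yx z) ((S.F (yx z))^[m] (yc z i, 1)))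
    (hyC : ∀ᶠ z in 𝓝 y, (∀ i, e i (yx z) = e i (yx y)) →
      (∀ k, S.lam k (yx z) = S.lam k (yx y)) → yx z ∈ C)
    (hsep : ∃ ε : ℝ, 0 < ε ∧ ∀ x ∈ S.U, ‖x - yx y‖ < ε → (∀ i, e i x = e i (yx y)) →
      S.co x = S.co (yx y) → x = yx y)
    (hyk : ∀ k, ys y k ≠ 0)
    (hykK : ∀ k, ‖ys y k‖ < Kc) (hyF : ∀ k : Fin s, ∃ i ∈ A, ks i = k ∧ Fh i ≠ 0)
    (hynear : ‖S.co (yx y) - x₀‖ < σ) (hyAN : S.AN β ω Nt r₁ (yx y) (ys y) ≤ ε₀)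
    {τ : ℝ} {γ : ℂ → Ix d n s → ℂ} (hτ : 0 < τ) (hγd : DifferentiableOn ℂ γ (ball 0 τ))
    (hγ0 : γ 0 = y) (hγ' : deriv γ 0 ≠ 0)
    (hγ : ∀ t ∈ ball (0 : ℂ) τ, (∀ j, S.Er j (γ t) = 0) ∧
      ∀ a, S.Gr KK e A ks ls a (γ t) = S.Gr KK e A ks ls a y)
    {Wt : ℂ → ℝ} (hWt : ∃ ρ₀ : ℝ, 0 < ρ₀ ∧ ∀ ρ : ℝ, 0 < ρ → ρ < ρ₀ → ∃ h : ℝ → ℝ, Continuous h ∧
      (∀ θ, Wt (circleMap 0 ρ θ) ≤ h θ) ∧ ∫ θ in (0 : ℝ)..(2 * Real.pi), h θ ≤ 2 * Real.pi * Wt 0)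
    (hymin : ∀ t ∈ ball (0 : ℂ) τ, γ t ∈ S.Leaf ω e A ks ls L C Kc y₀ Fh → γ t ∈ Ω →
      S.AN β ω Nt r₁ (yx y) (ys y) + c₀ / 2 * ∑ i : Fin 2 × Fin (d + 1),
          ‖S.co (yx y) i - wT i‖ ^ 2 - δ₀ * Real.log ‖Gt y‖ + Wt 0 ≤
      S.AN β ω Nt r₁ (yx (γ t)) (ys (γ t)) + c₀ / 2 * ∑ i : Fin 2 × Fin (d + 1),
          ‖S.co (yx (γ t)) i - wT i‖ ^ 2 - δ₀ * Real.log ‖Gt (γ t)‖ + Wt t) : False := by
  classical
  obtain ⟨hlamd, hlamθ, -⟩ := hLAM d n s S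
  obtain ⟨Oo, hOo, hOe, hErd, -, hGrd⟩ := hADO d n s l S KK e A ks ls hK hed
  -- facts on the leaf
  have hadm : ∀ z ∈ S.Leaf ω e A ks ls L C Kc y₀ Fh, yx z ∈ N → (∀ k, ys z k ≠ 0) →
      S.Adm A ks ls z ∧ ∀ i ∈ A,
        KK (ks i) (yx z, (S.F (yx z))^[ls i] (pc z i, 1)) / ys z (ks i) = Fh i := by
    intro z hz hzN hzk
    exact (hLF d n s l S KK r N ω e A ks ls L C Kc y₀ z Fh hK hL hlam0 hls hKL hzN hz).2.2 hzk
  have hyA := (hadm y hyL hyN hyk).1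
  have hyxc : Continuous (yx : (Ix d n s → ℂ) → (Fin n → ℂ)) := yx_diff.continuous
  -- the disc stays in the leaf
  have h0 : (0 : ℂ) ∈ ball (0 : ℂ) τ := mem_ball_self hτ
  have hγc : ContinuousOn γ (ball (0 : ℂ) τ) := hγd.continuousOn
  have hγc0 : ContinuousAt γ 0 := hγc.continuousAt (isOpen_ball.mem_nhds h0)
  have hγC : ∀ᶠ t in 𝓝 (0 : ℂ), yx (γ t) ∈ C := by
    have h1 : Tendsto γ (𝓝 0) (𝓝 y) := by
      have := hγc0.tendsto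
      rwa [hγ0] at this
    have h2 := h1.eventually hyC
    filter_upwards [h2, isOpen_ball.mem_nhds h0] with t ht htb
    refine ht (fun i => ?_) (fun k => ?_)
    · exact (hγ t htb).2 (Sum.inl i)
    · exact (hγ t htb).2 (Sum.inr (Sum.inl k))
  obtain ⟨τ₁, hτ₁, hτ₁τ, hγ1⟩ := hOPN d n s l S KK r N ω e A ks ls L C Kc τ y₀ Fh γ hK hL hlam0 hls
    hKL hτ hγd (by rw [hγ0]; exact hyN) (by rw [hγ0]; exact hyL) (by rw [hγ0]; exact hyk)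
    hγC (by rw [hγ0]; exact hykK)
    (fun t ht => ⟨(hγ t ht).1, fun a => by rw [(hγ t ht).2 a, hγ0]⟩)
  -- a smaller disc
  obtain ⟨εs, hεs, hsep⟩ := hsep
  have hev : ∀ᶠ t in 𝓝 (0 : ℂ), ‖yx (γ t) - yx y‖ < εs ∧ γ t ∈ Ω := by
    have h2 : ContinuousAt (fun t => yx (γ t)) 0 := hyxc.continuousAt.comp hγc0
    have h3 : ∀ᶠ t in 𝓝 (0 : ℂ), ‖yx (γ t) - yx y‖ < εs := by
      have h4 : ContinuousAt (fun t => ‖yx (γ t) - yx y‖) 0 := (h2.sub continuousAt_const).norm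
      apply h4.eventually_lt continuousAt_const
      rw [hγ0, sub_self, norm_zero]; exact hεs
    have h5 : ∀ᶠ t in 𝓝 (0 : ℂ), γ t ∈ Ω := by
      apply hγc0.eventually_mem
      rw [hγ0]; exact hΩ.mem_nhds hyΩ
    filter_upwards [h3, h5] with t b c
    exact ⟨b, c⟩
  obtain ⟨τ₂', hτ₂', hball⟩ := Metric.eventually_nhds_iff_ball.mp hev
  set τ₂ : ℝ := min τ₁ τ₂' with hτ₂
  have hτ₂0 : 0 < τ₂ := lt_min hτ₁ hτ₂'
  have hb1 : ball (0 : ℂ) τ₂ ⊆ ball 0 τ₁ := ball_subset_ball (min_le_left _ _)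
  have hb2 : ball (0 : ℂ) τ₂ ⊆ ball 0 τ₂' := ball_subset_ball (min_le_right _ _)
  have hb : ball (0 : ℂ) τ₂ ⊆ ball 0 τ := hb1.trans (ball_subset_ball hτ₁τ)
  have hLt : ∀ t ∈ ball (0 : ℂ) τ₂, yx (γ t) ∈ N ∧ (∀ k, ys (γ t) k ≠ 0) ∧
      γ t ∈ S.Leaf ω e A ks ls L C Kc y₀ Fh := fun t ht => hγ1 t (hb1 ht)
  have hΩt : ∀ t ∈ ball (0 : ℂ) τ₂, γ t ∈ Ω := fun t ht => (hball t (hb2 ht)).2
  have hAt : ∀ t ∈ ball (0 : ℂ) τ₂, S.Adm A ks ls (γ t) ∧ ∀ i ∈ A,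
      KK (ks i) (yx (γ t), (S.F (yx (γ t)))^[ls i] (pc (γ t) i, 1)) / ys (γ t) (ks i) = Fh i :=
    fun t ht => hadm _ (hLt t ht).2.2 (hLt t ht).1 (hLt t ht).2.1
  -- exceptional values
  have hlamt : ∀ t ∈ ball (0 : ℂ) τ₂, ∀ k, S.lam k (yx (γ t)) = S.lam k (yx y₀) := fun t ht k =>
    (hLt t ht).2.2.2.2.1 k
  set Sx : Fin s → ℕ → Set ℂ := fun k l' =>
    ((((A ×ˢ Finset.range (Nt + 1)).image (fun p : Pt d × ℕ =>
      S.lam k (yx y₀) ^ p.2 * Fh p.1 / S.lam k (yx y₀) ^ ((l' + ls p.1) / S.per k)) :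
        Finset ℂ)) : Set ℂ) with hSx
  set x : ℂ → (Fin n → ℂ) := fun t => yx (γ t) with hx
  set κ : Fin s → ℂ → ℂ := fun k t => ys (γ t) k with hκ
  have hxd : DifferentiableOn ℂ x (ball 0 τ₂) := yx_diff.comp_differentiableOn (hγd.mono hb)
  have hκd : ∀ k, DifferentiableOn ℂ (κ k) (ball 0 τ₂) := fun k =>
    (ys_diff k).comp_differentiableOn (hγd.mono hb)
  have h02 : (0 : ℂ) ∈ ball (0 : ℂ) τ₂ := mem_ball_self hτ₂0
  have hr₂0 : 0 < r₂ := hr₁.trans hr₁₂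
  have hKκ : ∀ t ∈ ball (0 : ℂ) τ₂, ∀ k, ‖κ k t‖ ≤ Kc := fun t ht k =>
    (hLt t ht).2.2.2.2.2.2.1 k
  have hκr : ∀ k, ∀ t ∈ ball (0 : ℂ) τ₂, ‖κ k t‖ * r₂ < r := fun k t ht =>
    (mul_le_mul_of_nonneg_right (hKκ t ht k) hr₂0.le).trans_lt hr₂
  have hdisc : S.Disc N r r₂ τ₂ x κ := by
    refine ⟨hτ₂0, hxd, fun t ht => (hLt t ht).1, hκd, fun k t ht => (hLt t ht).2.1 k,
      hκr, fun k t ht => ?_⟩
    rw [hlamt t ht k, hlamt 0 h02 k]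
  have hexc : ∀ t ∈ ball (0 : ℂ) τ₂, ∀ c : ℂ × ℂ, c ≠ 0 → wr (S.co (x t)) c = 0 → ∀ m ≤ Nt, ∀ k,
        ∀ l < S.per k, ∀ w : ℂ, w ≠ 0 → ‖w‖ < r₂ →
        cr ((S.F (x t))^[m] c) (S.pt ω k l (x t) (κ k t * w)) = 0 → w ∈ Sx k l := by
    intro t ht c hc hwc m' hm' k l' hl' w _ hw hcr
    have hn : ‖ys (γ t) k * w‖ < r := by
      rw [norm_mul]
      exact (mul_le_mul_of_nonneg_left hw.le (norm_nonneg _)).trans_lt (hκr k t ht)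
    obtain ⟨i, hi, -, hrel⟩ := exc_prot S KK r N ω e A ks ls L C Kc y₀ (γ t) Fh hK hL hKL
      (hLt t ht).1 (hLt t ht).2.2 (hLt t ht).2.1 Nt
      (hprot (γ t) (hLt t ht).2.2 (hΩt t ht)) c hc hwc m' hm' k l' hl' w hn hcr
    rw [hlamt t ht k] at hrel
    simp only [hSx, Finset.coe_image, mem_image, Finset.mem_coe]
    refine ⟨(Sum.inl i, m' / S.per k), Finset.mem_product.mpr ⟨hi, Finset.mem_range.mpr ?_⟩, ?_⟩
    · have := Nat.div_le_self m' (S.per k)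
      omega
    · simp only
      rw [hrel, mul_div_assoc, mul_comm, div_mul_cancel₀]
      exact pow_ne_zero _ (hlam0 k)
  have hDD : DD S KK r N ω Nt r₂ τ₂ x κ Sx :=
    ⟨hK, hL, hr₂0, hNt, hdisc, fun k l => Finset.finite_toSet _, hexc⟩
  have hx0 : x 0 = yx y := by simp only [hx, hγ0]
  have hκ0 : (fun k => κ k 0) = ys y := by
    funext k
    simp only [hκ, hγ0]
  -- the base points
  have hbaseA : ∀ j : Fin 2, Sum.inr j ∈ A := by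
    intro j
    fin_cases j
    · exact hA0
    · exact hA1
  have hbz : ∀ j : Fin 2, ∃ k, ∃ l < S.per k, ∃ w : ℂ, ‖w‖ < r₂ ∧ ∀ t ∈ ball (0 : ℂ) τ₂,
        Ad S ω Nt x κ t k l w (bz j) := by
    intro j
    obtain ⟨L', a, hLL', ha, hNa, hw⟩ := hbase j
    refine ⟨ks (Sum.inr j), a, ha, S.lam (ks (Sum.inr j)) (yx y₀) ^ L' * Fh (Sum.inr j), hw, ?_⟩
    intro t ht
    have h1 := hBAD d n s l S KK r N ω e A ks ls L C Kc y₀ (γ t) Fh hK hL hKL (hLt t ht).1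
      (hLt t ht).2.2 (Sum.inr j) (hbaseA j) L' a hLL'
    unfold Ad
    rw [hNa]
    exact h1
  -- nonconstancy
  have hnc : ∀ τ' : ℝ, 0 < τ' → τ' ≤ τ₂ → ∃ t ∈ ball (0 : ℂ) τ', S.co (x t) ≠ S.co (x 0) := by
    intro τ' hτ' hττ'
    have hbb : ball (0 : ℂ) τ' ⊆ ball 0 τ₂ := ball_subset_ball hττ'
    obtain ⟨t₁, ht₁, hxt₁⟩ := hNC d n s S KK A ks ls τ' γ Fh hτ' (hγd.mono (hbb.trans hb)) hγ'
      (fun t ht => hAt t (hbb ht)) hyF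
    refine ⟨t₁, ht₁, fun hco => hxt₁ ?_⟩
    show x t₁ = x 0
    rw [hx0]
    apply hsep (x t₁) (hL.NU (hLt t₁ (hbb ht₁)).1) (hball t₁ (hb2 (hbb ht₁))).1
    · intro i
      have a1 := (hLt t₁ (hbb ht₁)).2.2.2.1 i
      have a2 := hyL.2.1 i
      rw [a2]; exact a1
    · rw [← hx0]; exact hco
  obtain ⟨ρ₁, hρ₁, hρ₁τ, hint⟩ := hdi n s S hNrm KK r N ω Nt r₁ r₂ τ₂ x κ Sx hDD hr₁ hr₁₂ hbz
    (by rw [hx0]; exact hynear) (by rw [hx0, hκ0]; exact hyAN) (hnc τ₂ hτ₂0 le_rfl)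
  obtain ⟨ρ₀, hρ₀, hWt⟩ := hWt
  obtain ⟨t₁, ht₁', hxt₁⟩ := hnc (min ρ₁ ρ₀) (lt_min hρ₁ hρ₀) ((min_le_left _ _).trans hρ₁τ)
  have ht₁ : t₁ ∈ ball (0 : ℂ) ρ₁ := ball_subset_ball (min_le_left _ _) ht₁'
  have ht₁0 : t₁ ≠ 0 := by
    rintro rfl; exact hxt₁ rfl
  have hρc : 0 < ‖t₁‖ := norm_pos_iff.mpr ht₁0
  have hρcρ : ‖t₁‖ < ρ₁ := mem_ball_zero_iff.mp ht₁
  have hρcτ : ‖t₁‖ < τ₂ := hρcρ.trans_le hρ₁τ
  have hρc0 : ‖t₁‖ < ρ₀ := (mem_ball_zero_iff.mp ht₁').trans_le (min_le_right _ _)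
  obtain ⟨hw, hwc, hwle, hwi⟩ := hWt ‖t₁‖ hρc hρc0
  have hcirc : ∀ θ : ℝ, circleMap 0 ‖t₁‖ θ ∈ ball (0 : ℂ) τ₂ := by
    intro θ
    rw [mem_ball_zero_iff, norm_circleMap_zero, abs_of_pos hρc]
    exact hρcτ
  have hθ₁ : circleMap 0 ‖t₁‖ (Complex.arg t₁) = t₁ := by
    rw [circleMap_zero]
    exact Complex.norm_mul_exp_arg_mul_I t₁
  -- the functions on the disc
  have hfd : ∀ i : Fin 2 × Fin (d + 1), DifferentiableOn ℂ (fun t => S.co (x t) i) (ball 0 τ₂) := by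
    intro i
    have h1 : DifferentiableOn ℂ (fun t => S.co (x t)) (ball 0 τ₂) :=
      S.hco.comp hxd (fun t ht => hL.NU (hLt t ht).1)
    exact (differentiableOn_pi.mp h1) i
  have hgd : DifferentiableOn ℂ (fun t => Gt (γ t)) (ball 0 τ₂) := hGd.comp (hγd.mono hb) hΩt
  have hg0 : ∀ t ∈ ball (0 : ℂ) τ₂, Gt (γ t) ≠ 0 := fun t ht => hG0 _ (hΩt t ht)
  refine cont_ext (Fin 2 × Fin (d + 1)) τ₂ ‖t₁‖ c₀ δ₀ (S.AN β ω Nt r₁ (yx y) (ys y))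
    (fun i t => S.co (x t) i)
    (fun i => wT i)
    (fun t => Gt (γ t))
    (fun θ => S.AN β ω Nt r₁ (x (circleMap 0 ‖t₁‖ θ)) (fun k => κ k (circleMap 0 ‖t₁‖ θ)))
    (Wt 0) hw hρc hρcτ hc₀ hδ₀ hfd hgd hg0 ?_ (fun θ => ENNReal.toReal_nonneg) hwc hwi ?_ ?_
  · by_contra hcon
    push Not at hcon
    apply hxt₁
    funext i
    have := hcon (Complex.arg t₁) i
    rwa [hθ₁] at this
  · intro θ
    have h1 := hymin (circleMap 0 ‖t₁‖ θ) (hb (hcirc θ)) (hLt _ (hcirc θ)).2.2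
      (hΩt _ (hcirc θ))
    simp only [hx0, hγ0]
    have h2 := hwle θ
    exact h1.trans (by linarith)
  · intro q hq hqA
    have h1 := hint ‖t₁‖ hρc hρcρ q hq hqA
    rw [hκ0, hx0] at h1
    simp only [hx0]
    exact h1

end Pool.Agent.Zk23
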