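import Mathlib
import Pool.Agent.Zk23.ETE

/-! All free critical points in new cycles, part 2: the escape rate of the homogeneous maps. -/

set_option autoImplicit false
set_option linter.unusedVariables false

open Topology Filter Metric Set MeasureTheory
open Pool.Agent.H790R3.RB (CV hF cr ND wr rt Ix yx yc yx_diff yc_diff hF_iter_smul hF_smul
  cr_smul_left cr_smul_right cr_self cr_iter cr_eq_zero_iff)
open Pool.Agent.W757.RD

namespace Pool.Agent.Zk23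

variable {d n s : ℕ}

/-- the approximations of the escape rate -/
noncomputable def gn (S : Sys d n s) (i : ℕ) (q : (Fin n → ℂ) × (ℂ × ℂ)) : ℝ :=
  Real.log ‖(S.F q.1)^[i] q.2‖ / (d : ℝ) ^ i

/-- the escape rate -/
noncomputable def GG (S : Sys d n s) (q : (Fin n → ℂ) × (ℂ × ℂ)) : ℝ :=
  limUnder atTop fun i => gn S i q

theorem F_ne (S : Sys d n s) {x : Fin n → ℂ} (hx : x ∈ S.U) (i : ℕ) {v : ℂ × ℂ} (hv : v ≠ 0) :
    (S.F x)^[i] v ≠ 0 := (S.nd x hx).iter_ne i hv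

theorem F_contOn (S : Sys d n s) (i : ℕ) :
    ContinuousOn (fun q : (Fin n → ℂ) × (ℂ × ℂ) => (S.F q.1)^[i] q.2) (S.U ×ˢ univ) := fun q hq =>
  (KOE.F_diffAt S i hq.1).continuousAt.continuousWithinAt

theorem gg_step (S : Sys d n s) {C : Set (Fin n → ℂ)} (hC : IsCompact C) (hCU : C ⊆ S.U) :
    ∃ B : ℝ, 0 ≤ B ∧ ∀ x ∈ C, ∀ v : ℂ × ℂ, v ≠ 0 →
      |Real.log ‖S.F x v‖ - d * Real.log ‖v‖| ≤ B := by
  have hK : IsCompact (C ×ˢ sphere (0 : ℂ × ℂ) 1) := hC.prod (isCompact_sphere _ _)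
  have hc : ContinuousOn (fun q : (Fin n → ℂ) × (ℂ × ℂ) => Real.log ‖S.F q.1 q.2‖)
      (C ×ˢ sphere (0 : ℂ × ℂ) 1) := by
    refine ContinuousOn.log ?_ ?_
    · exact ((F_contOn S 1).mono (prod_mono hCU (subset_univ _))).norm
    · rintro ⟨x, v⟩ ⟨hx, hv⟩
      rw [norm_ne_zero_iff]
      have hv0 : v ≠ 0 := by
        rintro rfl
        simp at hv
      exact F_ne S (hCU hx) 1 hv0
  obtain ⟨B, hB⟩ := hK.exists_bound_of_continuousOn hc
  refine ⟨|B|, abs_nonneg _, ?_⟩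
  intro x hx v hv
  have hn : 0 < ‖v‖ := norm_pos_iff.2 hv
  have h1 : v = (‖v‖ : ℂ) • (((‖v‖ : ℂ))⁻¹ • v) := by
    rw [smul_smul, mul_inv_cancel₀ (by exact_mod_cast hn.ne'), one_smul]
  have h2 : ‖((‖v‖ : ℂ))⁻¹ • v‖ = 1 := by
    rw [norm_smul, norm_inv, Complex.norm_real, norm_norm, inv_mul_cancel₀ hn.ne']
  have h2' : ((‖v‖ : ℂ))⁻¹ • v ≠ 0 := by
    intro h0
    rw [h0, norm_zero] at h2
    exact zero_ne_one h2
  have h3 := hB (x, ((‖v‖ : ℂ))⁻¹ • v) ⟨hx, by simpa using h2⟩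
  simp only [Real.norm_eq_abs] at h3
  have h4 : S.F x v = ((‖v‖ : ℂ) ^ d) • S.F x (((‖v‖ : ℂ))⁻¹ • v) := by
    conv_lhs => rw [h1]
    exact hF_smul _ _ _
  have h5 : 0 < ‖S.F x (((‖v‖ : ℂ))⁻¹ • v)‖ := norm_pos_iff.2 (F_ne S (hCU hx) 1 h2')
  rw [h4, norm_smul, norm_pow, Complex.norm_real, norm_norm,
    Real.log_mul (pow_pos hn _).ne' h5.ne', Real.log_pow]
  rw [add_sub_cancel_left]
  exact h3.trans (le_abs_self B)

/-- uniform convergence -/
theorem gg_unif (S : Sys d n s) {C : Set (Fin n → ℂ)} (hC : IsCompact C) (hCU : C ⊆ S.U) :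
    ∃ B : ℝ, 0 ≤ B ∧ ∀ x ∈ C, ∀ v : ℂ × ℂ, v ≠ 0 →
      Tendsto (fun i => gn S i (x, v)) atTop (𝓝 (GG S (x, v))) ∧
      ∀ i : ℕ, |gn S i (x, v) - GG S (x, v)| ≤ B * (1 / d) ^ i := by
  obtain ⟨B, hB0, hB⟩ := gg_step S hC hCU
  refine ⟨B, hB0, ?_⟩
  intro x hx v hv
  have hd : (2 : ℝ) ≤ d := by exact_mod_cast S.hd
  have hd0 : (0 : ℝ) < d := by linarith
  have hr1 : (1 / d : ℝ) < 1 := by
    rw [div_lt_one hd0]
    linarith
  have hstep : ∀ i : ℕ, dist (gn S i (x, v)) (gn S (i + 1) (x, v)) ≤ (B / d) * (1 / d : ℝ) ^ i := by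
    intro i
    have h1 := hB x hx _ (F_ne S (hCU hx) i hv)
    have h2 : gn S (i + 1) (x, v) - gn S i (x, v) =
        (Real.log ‖S.F x ((S.F x)^[i] v)‖ - d * Real.log ‖(S.F x)^[i] v‖) / (d : ℝ) ^ (i + 1) := by
      unfold gn
      simp only
      rw [Function.iterate_succ_apply', pow_succ]
      field_simp
    rw [dist_comm, Real.dist_eq, h2, abs_div, abs_of_pos (pow_pos hd0 (i + 1)),
      div_le_iff₀ (pow_pos hd0 _)]
    have h3 : B / d * (1 / d : ℝ) ^ i * (d : ℝ) ^ (i + 1) = B := by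
      rw [one_div, inv_pow, pow_succ]
      field_simp
    rw [h3]
    exact h1
  have hcau := cauchySeq_of_le_geometric (1 / d : ℝ) (B / d) hr1 hstep
  have hlim : Tendsto (fun i => gn S i (x, v)) atTop (𝓝 (GG S (x, v))) :=
    hcau.tendsto_limUnder
  refine ⟨hlim, fun i => ?_⟩
  have h4 := dist_le_of_le_geometric_of_tendsto (1 / d : ℝ) (B / d) hr1 hstep hlim i
  rw [Real.dist_eq] at h4
  refine h4.trans ?_
  rw [div_le_iff₀ (by linarith)]
  have h5 : 0 ≤ B * (1 / d : ℝ) ^ i := by positivity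
  have h6 : (1 / 2 : ℝ) ≤ 1 - 1 / d := by
    have : (1 / d : ℝ) ≤ 1 / 2 := one_div_le_one_div_of_le (by norm_num) hd
    linarith
  have h7 : B / d * (1 / d : ℝ) ^ i = B * (1 / d : ℝ) ^ i * (1 / d) := by ring
  have h8 : (1 / d : ℝ) ≤ 1 - 1 / d := by
    have : (1 / d : ℝ) ≤ 1 / 2 := one_div_le_one_div_of_le (by norm_num) hd
    linarith
  rw [h7]
  exact mul_le_mul_of_nonneg_left h8 h5

/-- continuity of the escape rate -/
theorem gg_cont (S : Sys d n s) {C : Set (Fin n → ℂ)} (hC : IsCompact C) (hCU : C ⊆ S.U) :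
    ContinuousOn (GG S) (C ×ˢ {0}ᶜ) := by
  obtain ⟨B, hB0, hB⟩ := gg_unif S hC hCU
  have hd : (2 : ℝ) ≤ d := by exact_mod_cast S.hd
  have hd0 : (0 : ℝ) < d := by linarith
  have hr1 : (1 / d : ℝ) < 1 := by
    rw [div_lt_one hd0]
    linarith
  have hu : TendstoUniformlyOn (fun i q => gn S i q) (GG S) atTop (C ×ˢ {0}ᶜ) := by
    rw [Metric.tendstoUniformlyOn_iff]
    intro ε hε
    have h1 : Tendsto (fun i : ℕ => B * (1 / d : ℝ) ^ i) atTop (𝓝 0) := by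
      have := (tendsto_pow_atTop_nhds_zero_of_lt_one (by positivity : (0 : ℝ) ≤ 1 / d) hr1).const_mul B
      simpa using this
    filter_upwards [h1.eventually (gt_mem_nhds hε)] with i hi q hq
    obtain ⟨x, v⟩ := q
    have h2 := (hB x hq.1 v hq.2).2 i
    rw [dist_comm, Real.dist_eq]
    exact h2.trans_lt hi
  refine hu.continuousOn (Eventually.of_forall fun i => ?_).frequently
  unfold gn
  refine ContinuousOn.div_const ?_ _
  refine ContinuousOn.log ?_ ?_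
  · exact ((F_contOn S i).mono (prod_mono hCU (subset_univ _))).norm
  · rintro ⟨x, v⟩ ⟨hx, hv⟩
    rw [norm_ne_zero_iff]
    exact F_ne S (hCU hx) i hv

theorem gg_tend (S : Sys d n s) {x : Fin n → ℂ} (hx : x ∈ S.U) {v : ℂ × ℂ} (hv : v ≠ 0) :
    Tendsto (fun i => gn S i (x, v)) atTop (𝓝 (GG S (x, v))) := by
  obtain ⟨B, -, hB⟩ := gg_unif S (isCompact_singleton (x := x)) (by simpa using hx)
  exact (hB x rfl v hv).1

/-- the escape rate of the images -/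
theorem gg_iter (S : Sys d n s) {x : Fin n → ℂ} (hx : x ∈ S.U) {v : ℂ × ℂ} (hv : v ≠ 0) (m : ℕ) :
    GG S (x, (S.F x)^[m] v) = (d : ℝ) ^ m * GG S (x, v) := by
  have hd0 : (0 : ℝ) < d := by
    have : (2 : ℝ) ≤ d := by exact_mod_cast S.hd
    linarith
  have h1 := gg_tend S hx (F_ne S hx m hv)
  have h2 := (gg_tend S hx hv).comp (tendsto_add_atTop_nat m)
  have h3 := h2.const_mul ((d : ℝ) ^ m)
  refine tendsto_nhds_unique h1 (h3.congr fun i => ?_)
  simp only [Function.comp, gn]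
  rw [← Function.iterate_add_apply, pow_add]
  field_simp

/-- the escape rate of multiples -/
theorem gg_smul (S : Sys d n s) {x : Fin n → ℂ} (hx : x ∈ S.U) {v : ℂ × ℂ} (hv : v ≠ 0) {a : ℂ}
    (ha : a ≠ 0) : GG S (x, a • v) = Real.log ‖a‖ + GG S (x, v) := by
  have hd0 : (0 : ℝ) < d := by
    have : (2 : ℝ) ≤ d := by exact_mod_cast S.hd
    linarith
  have h1 := gg_tend S hx (smul_ne_zero ha hv)
  have h2 := (gg_tend S hx hv).const_add (Real.log ‖a‖)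
  refine tendsto_nhds_unique h1 (h2.congr fun i => ?_)
  simp only [gn]
  have e : (S.F x)^[i] (a • v) = a ^ (d ^ i) • (S.F x)^[i] v := hF_iter_smul (S.co x) i a v
  rw [e, norm_smul, norm_pow, Real.log_mul (pow_ne_zero _ (norm_ne_zero_iff.2 ha))
    (norm_ne_zero_iff.2 (F_ne S hx i hv)), Real.log_pow]
  push_cast
  field_simp

end Pool.Agent.Zk23
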