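import Mathlib
import Pool.Agent.Zk23.NCB

/-! All free critical points in new cycles, part 3: the escape rate is harmonic along discs of
attracted points. -/

set_option autoImplicit false
set_option linter.unusedVariables false

open Topology Filter Metric Set MeasureTheory
open Pool.Agent.H790R3.RB (CV hF cr ND wr rt Ix yx yc yx_diff yc_diff hF_iter_smul hF_smul
  cr_smul_left cr_smul_right cr_self cr_iter cr_eq_zero_iff)
open Pool.Agent.W757.RD
open Pool.Agent.H713R3.ZA (circ_cont circ_mem circ_log)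

namespace Pool.Agent.Zk23

variable {d n s : ℕ}

theorem gg_mean (S : Sys d n s) {τ : ℝ} {x : ℂ → (Fin n → ℂ)} {v : ℂ → ℂ × ℂ}
    (hx : DifferentiableOn ℂ x (ball 0 τ)) (hxU : ∀ t ∈ ball (0 : ℂ) τ, x t ∈ S.U)
    (hv : DifferentiableOn ℂ v (ball 0 τ)) (hv0 : ∀ t ∈ ball (0 : ℂ) τ, v t ≠ 0) {k : Fin s} {m : ℕ}
    (hin : ∀ t ∈ ball (0 : ℂ) τ, S.InC k (x t) ((S.F (x t))^[m] (v t))) {ρ : ℝ} (hρ : 0 < ρ)
    (hρτ : ρ < τ) :
    (Continuous fun θ : ℝ => GG S (x (circleMap 0 ρ θ), v (circleMap 0 ρ θ))) ∧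
    ∫ θ in (0 : ℝ)..(2 * Real.pi), GG S (x (circleMap 0 ρ θ), v (circleMap 0 ρ θ)) =
      2 * Real.pi * GG S (x 0, v 0) := by
  have hpi := Real.pi_pos
  have hd : (2 : ℝ) ≤ d := by exact_mod_cast S.hd
  have hd0 : (0 : ℝ) < d := by linarith
  have hr1 : (1 / d : ℝ) < 1 := by
    rw [div_lt_one hd0]
    linarith
  have hcb : closedBall (0 : ℂ) ρ ⊆ ball 0 τ := closedBall_subset_ball hρτ
  obtain ⟨C, hC⟩ : ∃ C : Set (Fin n → ℂ), C = x '' closedBall 0 ρ := ⟨_, rfl⟩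
  have hCc : IsCompact C := by
    rw [hC]
    exact (isCompact_closedBall _ _).image_of_continuousOn (hx.continuousOn.mono hcb)
  have hCU : C ⊆ S.U := by
    rw [hC]
    rintro _ ⟨t, ht, rfl⟩
    exact hxU t (hcb ht)
  have hmem : ∀ θ : ℝ, circleMap 0 ρ θ ∈ closedBall (0 : ℂ) ρ := fun θ => by
    rw [mem_closedBall_zero_iff, norm_circleMap_zero, abs_of_pos hρ]
  have hmC : ∀ t ∈ closedBall (0 : ℂ) ρ, x t ∈ C := fun t ht => by
    rw [hC]
    exact mem_image_of_mem _ ht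
  obtain ⟨B, hB0, hB⟩ := gg_unif S hCc hCU
  have hbC : ContinuousOn (S.b k) C := (S.hb k).continuousOn.mono hCU
  obtain ⟨B₁, hB₁⟩ := hCc.exists_bound_of_continuousOn hbC
  obtain ⟨B', hB'⟩ : ∃ B' : ℝ, B' = |B₁| + S.r₀ k + 1 := ⟨_, rfl⟩
  have hr0 := S.hr₀ k
  have hB'0 : 0 ≤ B' := by rw [hB']; positivity
  have hcont : Continuous fun θ : ℝ => GG S (x (circleMap 0 ρ θ), v (circleMap 0 ρ θ)) := by
    have h1 := gg_cont S hCc hCU
    refine h1.comp_continuous (f := fun θ : ℝ => (x (circleMap 0 ρ θ), v (circleMap 0 ρ θ))) ?_ ?_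
    · exact (circ_cont hρ hρτ hx.continuousOn).prodMk (circ_cont hρ hρτ hv.continuousOn)
    · intro θ
      exact ⟨hmC _ (hmem θ), hv0 _ (hcb (hmem θ))⟩
  refine ⟨hcont, ?_⟩
  -- the approximations
  have hkey : ∀ i : ℕ, ∀ t ∈ ball (0 : ℂ) τ, ((S.F (x t))^[m + S.per k * i] (v t)).2 ≠ 0 ∧
      (t ∈ closedBall (0 : ℂ) ρ →
      |Real.log ‖((S.F (x t))^[m + S.per k * i] (v t)).2‖ / (d : ℝ) ^ (m + S.per k * i) -
        GG S (x t, v t)| ≤ (B + B') * (1 / d) ^ (m + S.per k * i)) := by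
    intro i t ht
    obtain ⟨a, z, ha, hz, hp⟩ := hin t ht
    obtain ⟨a', z', ha', hz', hzq, he⟩ := IN.iter S (hxU t ht) k ha hz hp i
    have e1 : (S.F (x t))^[m + S.per k * i] (v t) = a' • S.cht k (x t) z' := by
      rw [← he, ← Function.iterate_add_apply, Nat.add_comm]
    have e2 : ((S.F (x t))^[m + S.per k * i] (v t)).2 = a' := by
      rw [e1]
      simp [Sys.cht]
    refine ⟨by rw [e2]; exact ha', fun htρ => ?_⟩
    have hxC := hmC t htρ
    have h1 := (hB (x t) hxC (v t) (hv0 t ht)).2 (m + S.per k * i)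
    have e3 : ‖(S.F (x t))^[m + S.per k * i] (v t)‖ = ‖a'‖ * ‖S.cht k (x t) z'‖ := by
      rw [e1, norm_smul]
    have h2 : 1 ≤ ‖S.cht k (x t) z'‖ := by
      have h3 : ‖(S.cht k (x t) z').2‖ ≤ ‖S.cht k (x t) z'‖ := norm_snd_le _
      simpa [Sys.cht] using h3
    have h3 : ‖S.cht k (x t) z'‖ ≤ B' := by
      have h4 := hB₁ (x t) hxC
      have h5 : ‖S.cht k (x t) z'‖ = max ‖S.b k (x t) + z'‖ ‖(1 : ℂ)‖ := rfl
      rw [h5, norm_one]
      apply max_le
      · calc ‖S.b k (x t) + z'‖ ≤ ‖S.b k (x t)‖ + ‖z'‖ := norm_add_le _ _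
          _ ≤ |B₁| + S.r₀ k := add_le_add (h4.trans (le_abs_self _)) hz'.le
          _ ≤ B' := by rw [hB']; linarith
      · rw [hB']
        have := abs_nonneg B₁
        linarith
    have h4 : 0 ≤ Real.log ‖S.cht k (x t) z'‖ := Real.log_nonneg h2
    have h5 : Real.log ‖S.cht k (x t) z'‖ ≤ B' :=
      (Real.log_le_sub_one_of_pos (by linarith)).trans (by linarith)
    have hD : 0 < (d : ℝ) ^ (m + S.per k * i) := pow_pos hd0 _
    have h6 : gn S (m + S.per k * i) (x t, v t) =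
        Real.log ‖a'‖ / (d : ℝ) ^ (m + S.per k * i) +
          Real.log ‖S.cht k (x t) z'‖ * (1 / d) ^ (m + S.per k * i) := by
      unfold gn
      simp only
      rw [e3, Real.log_mul (norm_ne_zero_iff.2 ha') (by linarith), one_div, inv_pow]
      field_simp
    rw [h6] at h1
    rw [e2]
    have h7 : 0 ≤ (1 / d : ℝ) ^ (m + S.per k * i) := by positivity
    have h8 : Real.log ‖S.cht k (x t) z'‖ * (1 / d : ℝ) ^ (m + S.per k * i) ≤
        B' * (1 / d : ℝ) ^ (m + S.per k * i) := mul_le_mul_of_nonneg_right h5 h7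
    have h9 : 0 ≤ Real.log ‖S.cht k (x t) z'‖ * (1 / d : ℝ) ^ (m + S.per k * i) :=
      mul_nonneg h4 h7
    rw [abs_le] at h1 ⊢
    constructor
    · linarith [h1.1]
    · linarith [h1.2]
  -- the mean of the approximations
  have hmean : ∀ i : ℕ, |(∫ θ in (0 : ℝ)..(2 * Real.pi),
      GG S (x (circleMap 0 ρ θ), v (circleMap 0 ρ θ))) - 2 * Real.pi * GG S (x 0, v 0)| ≤
      4 * Real.pi * ((B + B') * (1 / d) ^ (m + S.per k * i)) := by
    intro i
    obtain ⟨N, hN⟩ : ∃ N, N = m + S.per k * i := ⟨_, rfl⟩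
    rw [← hN]
    have hk := hkey i
    rw [← hN] at hk
    have hαd : DifferentiableOn ℂ (fun t => ((S.F (x t))^[N] (v t)).2) (ball 0 τ) := by
      have h1 : DifferentiableOn ℂ (fun q : (Fin n → ℂ) × (ℂ × ℂ) => (S.F q.1)^[N] q.2)
          (S.U ×ˢ univ) := fun q hq => (KOE.F_diffAt S N hq.1).differentiableWithinAt
      exact (h1.comp (hx.prodMk hv) (fun t ht => ⟨hxU t ht, mem_univ _⟩)).snd
    have h2 := circ_log hρ hρτ hαd (fun t ht => (hk t ht).1)
    have hlc : Continuous fun θ : ℝ =>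
        Real.log ‖((S.F (x (circleMap 0 ρ θ)))^[N] (v (circleMap 0 ρ θ))).2‖ / (d : ℝ) ^ N := by
      refine Continuous.div_const ?_ _
      refine Continuous.log (circ_cont hρ hρτ hαd.continuousOn).norm fun θ => ?_
      exact norm_ne_zero_iff.2 (hk _ (circ_mem hρ hρτ θ)).1
    have h3 : ∫ θ in (0 : ℝ)..(2 * Real.pi),
        Real.log ‖((S.F (x (circleMap 0 ρ θ)))^[N] (v (circleMap 0 ρ θ))).2‖ / (d : ℝ) ^ N =
        2 * Real.pi * (Real.log ‖((S.F (x 0))^[N] (v 0)).2‖ / (d : ℝ) ^ N) := by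
      rw [intervalIntegral.integral_div, h2]
      ring
    have h0 : (0 : ℂ) ∈ closedBall (0 : ℂ) ρ := mem_closedBall_self hρ.le
    have h4 := (hk 0 (hcb h0)).2 h0
    have h5 : |∫ θ in (0 : ℝ)..(2 * Real.pi),
        (GG S (x (circleMap 0 ρ θ), v (circleMap 0 ρ θ)) -
        Real.log ‖((S.F (x (circleMap 0 ρ θ)))^[N] (v (circleMap 0 ρ θ))).2‖ / (d : ℝ) ^ N)| ≤
        (B + B') * (1 / d) ^ N * |2 * Real.pi - 0| := by
      have h6 := intervalIntegral.norm_integral_le_of_norm_le_const (a := (0 : ℝ))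
        (b := 2 * Real.pi) (C := (B + B') * (1 / d) ^ N) (f := fun θ : ℝ =>
        (GG S (x (circleMap 0 ρ θ), v (circleMap 0 ρ θ)) -
        Real.log ‖((S.F (x (circleMap 0 ρ θ)))^[N] (v (circleMap 0 ρ θ))).2‖ / (d : ℝ) ^ N)) (by
          intro θ _
          rw [Real.norm_eq_abs, abs_sub_comm]
          exact (hk _ (circ_mem hρ hρτ θ)).2 (hmem θ))
      rwa [Real.norm_eq_abs] at h6
    rw [intervalIntegral.integral_sub (hcont.intervalIntegrable _ _)
      (hlc.intervalIntegrable _ _), h3] at h5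
    have h7 : |2 * Real.pi - 0| = 2 * Real.pi := by
      rw [sub_zero, abs_of_pos (by linarith)]
    rw [h7] at h5
    have h8 : 0 ≤ (B + B') * (1 / d : ℝ) ^ N := by positivity
    rw [abs_le] at h4 h5 ⊢
    obtain ⟨h4a, h4b⟩ := h4
    obtain ⟨h5a, h5b⟩ := h5
    have h9 : 2 * Real.pi * -((B + B') * (1 / d : ℝ) ^ N) ≤
        2 * Real.pi * (Real.log ‖((S.F (x 0))^[N] (v 0)).2‖ / (d : ℝ) ^ N - GG S (x 0, v 0)) :=
      mul_le_mul_of_nonneg_left h4a (by linarith)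
    have h10 : 2 * Real.pi * (Real.log ‖((S.F (x 0))^[N] (v 0)).2‖ / (d : ℝ) ^ N - GG S (x 0, v 0)) ≤
        2 * Real.pi * ((B + B') * (1 / d : ℝ) ^ N) :=
      mul_le_mul_of_nonneg_left h4b (by linarith)
    constructor
    · linarith
    · linarith
  have hlim : Tendsto (fun i : ℕ => 4 * Real.pi * ((B + B') * (1 / d : ℝ) ^ (m + S.per k * i)))
      atTop (𝓝 0) := by
    have h1 : Tendsto (fun i : ℕ => m + S.per k * i) atTop atTop := by
      refine tendsto_atTop_mono (fun i => ?_) tendsto_id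
      have := S.hper k
      simp only [id]
      nlinarith
    have h2 := (tendsto_pow_atTop_nhds_zero_of_lt_one
      (by positivity : (0 : ℝ) ≤ 1 / d) hr1).comp h1
    have h3 := (h2.const_mul (B + B')).const_mul (4 * Real.pi)
    simpa using h3
  have h0 := ge_of_tendsto' hlim hmean
  have := abs_nonpos_iff.1 h0
  linarith

end Pool.Agent.Zk23
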