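import Mathlib
import Pool.Agent.Zk23.NCC

/-! All free critical points in new cycles, part 4: the penalty function. -/

set_option autoImplicit false
set_option linter.unusedVariables false

open Topology Filter Metric Set MeasureTheory
open Pool.Agent.H790R3.RB (CV hF cr ND wr rt Ix yx yc yx_diff yc_diff hF_iter_smul hF_smul
  cr_smul_left cr_smul_right cr_self cr_iter cr_eq_zero_iff)
open Pool.Agent.W757.RD
open Pool.Agent.H713R3.ZA (circ_cont circ_mem circ_log)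

namespace Pool.Agent.Zk23

variable {d n s : ℕ}

/-- attracted to a marked cycle -/
def At (S : Sys d n s) (q : (Fin n → ℂ) × (ℂ × ℂ)) : Prop :=
  ∃ k, ∃ m : ℕ, S.InC k q.1 ((S.F q.1)^[m] q.2)

theorem inC_smul' {S : Sys d n s} {k : Fin s} {x : Fin n → ℂ} {p : ℂ × ℂ} {a : ℂ}
    (ha : a ≠ 0) (h : S.InC k x (a • p)) : S.InC k x p := by
  obtain ⟨b, z, hb, hz, he⟩ := h
  refine ⟨a⁻¹ * b, z, mul_ne_zero (inv_ne_zero ha) hb, hz, ?_⟩
  rw [← smul_smul, ← he, smul_smul, inv_mul_cancel₀ ha, one_smul]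

theorem at_iter {S : Sys d n s} {x : Fin n → ℂ} {v : ℂ × ℂ} (N : ℕ)
    (h : At S (x, (S.F x)^[N] v)) : At S (x, v) := by
  obtain ⟨k, m, hm⟩ := h
  refine ⟨k, m + N, ?_⟩
  rw [Function.iterate_add_apply]
  exact hm

/-- the function which is small near the marked cycles -/
noncomputable def EE (S : Sys d n s) (q : (Fin n → ℂ) × (ℂ × ℂ)) : ℝ :=
  ‖Bd S q.1 q.2‖ * Real.exp (-(Sg S * GG S q))

/-- lower bound of the product at points which are not attracted, uniformly -/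
theorem bd_ge_unif (S : Sys d n s) {C : Set (Fin n → ℂ)} (hC : IsCompact C) (hCU : C ⊆ S.U) :
    ∃ C₂ : ℝ, 0 < C₂ ∧ ∀ x ∈ C, ∀ w : ℂ × ℂ, w ≠ 0 → ¬ At S (x, w) →
      C₂ * ‖w‖ ^ Sg S ≤ ‖Bd S x w‖ := by
  obtain ⟨K, hK⟩ : ∃ K : Set ((Fin n → ℂ) × (ℂ × ℂ)),
    K = {q | q ∈ C ×ˢ sphere (0 : ℂ × ℂ) 1 ∧ ¬ At S q} := ⟨_, rfl⟩
  have hCS : IsCompact (C ×ˢ sphere (0 : ℂ × ℂ) 1) := hC.prod (isCompact_sphere _ _)
  have hKc : IsCompact K := by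
    refine hCS.of_isClosed_subset ?_ (by rw [hK]; exact fun q hq => hq.1)
    rw [← isOpen_compl_iff, isOpen_iff_mem_nhds]
    intro q hq
    by_cases h1 : q ∈ C ×ˢ sphere (0 : ℂ × ℂ) 1
    · have h2 : At S q := by
        by_contra h2
        apply hq
        rw [hK]
        exact ⟨h1, h2⟩
      obtain ⟨k, m, hm⟩ := h2
      filter_upwards [KOE.ev_inC S k m (hCU h1.1) hm] with q' hq' hqK
      rw [hK] at hqK
      exact hqK.2 ⟨k, m, hq'⟩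
    · filter_upwards [hCS.isClosed.isOpen_compl.mem_nhds h1] with q' hq' hqK
      rw [hK] at hqK
      exact hq' hqK.1
  have hc : ContinuousOn (fun q : (Fin n → ℂ) × (ℂ × ℂ) => ‖Bd S q.1 q.2‖) K := by
    refine ((bd_cont S).mono ?_).norm
    intro q hq
    rw [hK] at hq
    exact ⟨hCU hq.1.1, mem_univ _⟩
  have hpos : ∀ q ∈ K, 0 < ‖Bd S q.1 q.2‖ := by
    rintro ⟨x, w⟩ hq
    rw [hK] at hq
    obtain ⟨⟨hx, hw⟩, hna⟩ := hq
    rw [norm_pos_iff]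
    intro h0
    have hw0 : w ≠ 0 := by
      rintro rfl
      simp at hw
    obtain ⟨k, a, -, -, hin⟩ := bd_zero S (hCU hx) hw0 h0
    exact hna ⟨k, _, hin⟩
  obtain ⟨C₂, hC₂, hmin⟩ : ∃ C₂ : ℝ, 0 < C₂ ∧ ∀ q ∈ K, C₂ ≤ ‖Bd S q.1 q.2‖ := by
    rcases K.eq_empty_or_nonempty with he | hne
    · exact ⟨1, one_pos, by rw [he]; simp⟩
    · obtain ⟨q, hq, hmin⟩ := hKc.exists_isMinOn hne hc
      exact ⟨_, hpos q hq, fun q' hq' => hmin hq'⟩
  refine ⟨C₂, hC₂, ?_⟩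
  intro x hx w hw hna
  have hn : 0 < ‖w‖ := norm_pos_iff.2 hw
  have hn0 : ((‖w‖ : ℂ))⁻¹ ≠ 0 := inv_ne_zero (by exact_mod_cast hn.ne')
  have h1 : w = (‖w‖ : ℂ) • (((‖w‖ : ℂ))⁻¹ • w) := by
    rw [smul_smul, mul_inv_cancel₀ (by exact_mod_cast hn.ne'), one_smul]
  have h2 : ‖((‖w‖ : ℂ))⁻¹ • w‖ = 1 := by
    rw [norm_smul, norm_inv, Complex.norm_real, norm_norm, inv_mul_cancel₀ hn.ne']
  have h3 : (x, ((‖w‖ : ℂ))⁻¹ • w) ∈ K := by
    rw [hK]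
    refine ⟨⟨hx, by simpa using h2⟩, ?_⟩
    rintro ⟨k, m, hin⟩
    apply hna
    refine ⟨k, m, ?_⟩
    have e : (S.F x)^[m] (((‖w‖ : ℂ))⁻¹ • w) =
        (((‖w‖ : ℂ))⁻¹) ^ (d ^ m) • (S.F x)^[m] w := hF_iter_smul (S.co x) m _ w
    rw [e] at hin
    exact inC_smul' (pow_ne_zero _ hn0) hin
  have h4 := hmin _ h3
  have h5 : ‖Bd S x w‖ = ‖w‖ ^ Sg S * ‖Bd S x (((‖w‖ : ℂ))⁻¹ • w)‖ := by
    conv_lhs => rw [h1]
    rw [bd_smul, norm_mul, norm_pow, Complex.norm_real, norm_norm]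
  rw [h5, mul_comm]
  exact mul_le_mul_of_nonneg_left h4 (by positivity)

/-- the escape rate and the logarithm of the norm -/
theorem gg_log (S : Sys d n s) {C : Set (Fin n → ℂ)} (hC : IsCompact C) (hCU : C ⊆ S.U) :
    ∃ B : ℝ, 0 < B ∧ ∀ x ∈ C, ∀ v : ℂ × ℂ, v ≠ 0 →
      ‖v‖ ^ Sg S * Real.exp (-(Sg S * GG S (x, v))) ≤ B ∧
      B⁻¹ ≤ ‖v‖ ^ Sg S * Real.exp (-(Sg S * GG S (x, v))) := by
  obtain ⟨B, hB0, hB⟩ := gg_unif S hC hCU
  refine ⟨Real.exp (Sg S * B), Real.exp_pos _, ?_⟩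
  intro x hx v hv
  have h1 := (hB x hx v hv).2 0
  simp only [gn, pow_zero, div_one, mul_one, Function.iterate_zero, id] at h1
  rw [abs_le] at h1
  have hn : 0 < ‖v‖ := norm_pos_iff.2 hv
  have h2 : ‖v‖ ^ Sg S = Real.exp (Sg S * Real.log ‖v‖) := by
    rw [mul_comm, ← Real.rpow_def_of_pos hn, Real.rpow_natCast]
  have hS : (0 : ℝ) ≤ Sg S := Nat.cast_nonneg _
  rw [h2, ← Real.exp_add, ← Real.exp_neg]
  constructor
  · apply Real.exp_le_exp.2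
    have := mul_le_mul_of_nonneg_left h1.2 hS
    nlinarith
  · apply Real.exp_le_exp.2
    have := mul_le_mul_of_nonneg_left h1.1 hS
    nlinarith

/-- continuity -/
theorem ee_cont (S : Sys d n s) {C : Set (Fin n → ℂ)} (hC : IsCompact C) (hCU : C ⊆ S.U) :
    ContinuousOn (EE S) (C ×ˢ {0}ᶜ) := by
  unfold EE
  refine ContinuousOn.mul ?_ ?_
  · exact ((bd_cont S).mono (prod_mono hCU (subset_univ _))).norm
  · exact Real.continuous_exp.comp_continuousOn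
      ((continuousOn_const.mul (gg_cont S hC hCU)).neg)

/-- bounds -/
theorem ee_bd (S : Sys d n s) {C : Set (Fin n → ℂ)} (hC : IsCompact C) (hCU : C ⊆ S.U) :
    ∃ Cu κ₁ : ℝ, 0 < κ₁ ∧ (∀ x ∈ C, ∀ v : ℂ × ℂ, v ≠ 0 → EE S (x, v) ≤ Real.exp Cu) ∧
      ∀ x ∈ C, ∀ v : ℂ × ℂ, v ≠ 0 → ¬ At S (x, v) → κ₁ ≤ EE S (x, v) := by
  obtain ⟨B, hB0, hB⟩ := gg_log S hC hCU
  obtain ⟨C₁, hC₁, hle⟩ := bd_le S hC hCU
  obtain ⟨C₂, hC₂, hge⟩ := bd_ge_unif S hC hCU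
  refine ⟨Real.log (C₁ * B), C₂ * B⁻¹, by positivity, ?_, ?_⟩
  · intro x hx v hv
    rw [Real.exp_log (by positivity)]
    unfold EE
    have h1 := (hB x hx v hv).1
    calc ‖Bd S x v‖ * Real.exp (-(Sg S * GG S (x, v))) ≤
        (C₁ * ‖v‖ ^ Sg S) * Real.exp (-(Sg S * GG S (x, v))) :=
          mul_le_mul_of_nonneg_right (hle x hx v) (Real.exp_pos _).le
      _ = C₁ * (‖v‖ ^ Sg S * Real.exp (-(Sg S * GG S (x, v)))) := by ring
      _ ≤ C₁ * B := mul_le_mul_of_nonneg_left h1 hC₁.le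
  · intro x hx v hv hna
    unfold EE
    have h1 := (hB x hx v hv).2
    calc C₂ * B⁻¹ ≤ C₂ * (‖v‖ ^ Sg S * Real.exp (-(Sg S * GG S (x, v)))) :=
          mul_le_mul_of_nonneg_left h1 hC₂.le
      _ = (C₂ * ‖v‖ ^ Sg S) * Real.exp (-(Sg S * GG S (x, v))) := by ring
      _ ≤ _ := mul_le_mul_of_nonneg_right (hge x hx v hv hna) (Real.exp_pos _).le

/-- the point at infinity is not on the marked cycles -/
theorem inf_ne (S : Sys d n s) {x : Fin n → ℂ} (hx : x ∈ S.U) (k : Fin s) (a : ℕ)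
    (ha : a < S.per k) : cr ((S.F x)^[a] (S.cht k x 0)) (1, 0) ≠ 0 := by
  intro h0
  have hc0 : S.cht k x 0 ≠ 0 := by
    unfold Sys.cht
    intro h
    have := congrArg Prod.snd h
    simp at this
  have h10 : ((1, 0) : ℂ × ℂ) ≠ 0 := by
    intro h
    have := congrArg Prod.fst h
    simp at this
  obtain ⟨c, hc, he⟩ := (cr_eq_zero_iff (F_ne S hx a hc0) h10).1 h0
  have hfix : ∀ m : ℕ, ((S.F x)^[m] ((1, 0) : ℂ × ℂ)).2 = 0 := by
    intro m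
    induction m with
    | zero => rfl
    | succ m ih =>
      rw [Function.iterate_succ_apply']
      have h1 : (S.F x)^[m] ((1, 0) : ℂ × ℂ) = ((S.F x)^[m] ((1, 0) : ℂ × ℂ)).1 • ((1, 0) : ℂ × ℂ) := by
        ext
        · simp
        · simp [ih]
      rw [h1]
      have h2 : S.F x (((S.F x)^[m] ((1, 0) : ℂ × ℂ)).1 • ((1, 0) : ℂ × ℂ)) =
          ((S.F x)^[m] ((1, 0) : ℂ × ℂ)).1 ^ d • S.F x (1, 0) := hF_smul _ _ _
      rw [h2]
      have h3 : (S.F x (1, 0)).2 = 0 := S.hinf x hx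
      simp [h3]
  obtain ⟨a', z', ha', hz', h1⟩ := S.contr x hx k 0 (by simpa using S.hr₀ k)
  have h2 : (S.F x)^[S.per k - a] ((S.F x)^[a] (S.cht k x 0)) = a' • S.cht k x z' := by
    rw [← Function.iterate_add_apply, Nat.sub_add_cancel ha.le]
    exact h1
  rw [he] at h2
  have h3 : (S.F x)^[S.per k - a] (c • ((1, 0) : ℂ × ℂ)) =
      c ^ (d ^ (S.per k - a)) • (S.F x)^[S.per k - a] ((1, 0) : ℂ × ℂ) :=
    hF_iter_smul (S.co x) _ c _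
  rw [h3] at h2
  have h4 := congrArg Prod.snd h2
  simp only [Prod.smul_snd, smul_eq_mul, hfix, mul_zero, Sys.cht, mul_one] at h4
  exact ha' h4.symm

/-- points which stay in the discs for a long time -/
theorem ee_deep (S : Sys d n s) {C : Set (Fin n → ℂ)} (hC : IsCompact C) (hCU : C ⊆ S.U) {κ : ℝ}
    (hκ : 0 < κ) : ∃ T₄ : ℕ, ∀ x ∈ C, ∀ k, ∀ p, S.InC k x p → ∀ N ≥ T₄,
      EE S (x, (S.F x)^[N] p) < κ := by
  obtain ⟨B, hB0, hB⟩ := gg_log S hC hCU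
  obtain ⟨T₄, hT₄⟩ := deep S hC hCU (1, 0) (fun x hx k a ha => inf_ne S (hCU hx) k a ha)
    (2 ^ Sg S * B / κ)
  refine ⟨T₄, ?_⟩
  intro x hx k p hp N hN
  have h1 := hT₄ x hx k p hp N hN
  have hp0 : p ≠ 0 := by
    obtain ⟨a, z, ha, hz, he⟩ := hp
    rw [he]
    intro h0
    have := congrArg Prod.snd h0
    simp [Sys.cht, ha] at this
  have hv := F_ne S (hCU hx) N hp0
  obtain ⟨v, hve⟩ : ∃ v, v = (S.F x)^[N] p := ⟨_, rfl⟩
  rw [← hve] at h1 hv ⊢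
  have h2 : ‖cr v (1, 0)‖ ≤ 2 * ‖v‖ := by
    have h3 := cr_norm_le v (1, 0)
    have h4 : ‖((1, 0) : ℂ × ℂ)‖ = 1 := by simp [Prod.norm_def]
    rw [h4, mul_one] at h3
    exact h3
  have h3 : ‖cr v (1, 0)‖ ^ Sg S ≤ 2 ^ Sg S * ‖v‖ ^ Sg S := by
    rw [← mul_pow]
    exact pow_le_pow_left₀ (norm_nonneg _) h2 _
  have h4 : B / κ * ‖Bd S x v‖ < ‖v‖ ^ Sg S := by
    have h5 : (0 : ℝ) < 2 ^ Sg S := by positivity
    have h6 : 2 ^ Sg S * (B / κ * ‖Bd S x v‖) < 2 ^ Sg S * ‖v‖ ^ Sg S := by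
      calc 2 ^ Sg S * (B / κ * ‖Bd S x v‖) = 2 ^ Sg S * B / κ * ‖Bd S x v‖ := by ring
        _ < _ := h1.trans_le h3
    exact lt_of_mul_lt_mul_left h6 h5.le
  have h5 := (hB x hx v hv).1
  have h6 : B / κ * EE S (x, v) < B := by
    unfold EE
    calc B / κ * (‖Bd S x v‖ * Real.exp (-(Sg S * GG S (x, v)))) =
        (B / κ * ‖Bd S x v‖) * Real.exp (-(Sg S * GG S (x, v))) := by ring
      _ < ‖v‖ ^ Sg S * Real.exp (-(Sg S * GG S (x, v))) :=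
          mul_lt_mul_of_pos_right h4 (Real.exp_pos _)
      _ ≤ B := h5
  have h7 : B / κ * EE S (x, v) < B / κ * κ := by
    rw [div_mul_cancel₀ _ hκ.ne']
    exact h6
  exact lt_of_mul_lt_mul_left h7 (by positivity)

end Pool.Agent.Zk23
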