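import Mathlib
import Pool.Agent.Zk23.NCD

/-! All free critical points in new cycles, part 5: the penalty function, continued. -/

set_option autoImplicit false
set_option linter.unusedVariables false

open Topology Filter Metric Set MeasureTheory
open Pool.Agent.H790R3.RB (CV hF cr ND wr rt Ix yx yc yx_diff yc_diff hF_iter_smul hF_smul
  cr_smul_left cr_smul_right cr_self cr_iter cr_eq_zero_iff)
open Pool.Agent.W757.RD
open Pool.Agent.H713R3.ZA (circ_cont circ_mem circ_log)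

namespace Pool.Agent.Zk23

variable {d n s : ℕ}

/-- the first function -/
noncomputable def w0 (S : Sys d n s) (κ Cu : ℝ) (T₁ : ℕ) (q : (Fin n → ℂ) × (ℂ × ℂ)) : ℝ :=
  (Cu - Real.log (max (EE S (q.1, (S.F q.1)^[T₁] q.2)) κ)) / (Cu - Real.log κ)

open Classical in
/-- the penalty function -/
noncomputable def WW (S : Sys d n s) (κ Cu : ℝ) (T₁ : ℕ) (q : (Fin n → ℂ) × (ℂ × ℂ)) : ℝ :=
  if At S q then w0 S κ Cu T₁ q else 0

/-- the properties of the penalty function -/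
structure Pen (S : Sys d n s) (C : Set (Fin n → ℂ)) (Nt : ℕ) (wN : ℝ)
    (W : (Fin n → ℂ) × (ℂ × ℂ) → ℝ) : Prop where
  nn : ∀ x ∈ C, ∀ v : ℂ × ℂ, v ≠ 0 → 0 ≤ W (x, v)
  lsc : LowerSemicontinuousOn W (C ×ˢ {0}ᶜ)
  prot : ∀ x ∈ interior C, ∀ v : ℂ × ℂ, v ≠ 0 → W (x, v) < 1 → ∀ᶠ q in 𝓝 (x, v),
    ∀ k, ∀ i ≤ Nt + S.per k, ¬ S.InC k q.1 ((S.F q.1)^[i] q.2)
  drift : ∀ x ∈ interior C, ∀ v : ℂ × ℂ, v ≠ 0 → ∀ η : ℝ, 0 < η → ∀ᶠ q in 𝓝 (x, v),
    W q < max (W (x, v)) wN + η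
  zero : ∀ q, ¬ At S q → W q = 0
  disc : ∀ (τ : ℝ) (x : ℂ → (Fin n → ℂ)) (v : ℂ → ℂ × ℂ), 0 < τ →
    DifferentiableOn ℂ x (ball 0 τ) → DifferentiableOn ℂ v (ball 0 τ) →
    (∀ t ∈ ball (0 : ℂ) τ, x t ∈ interior C ∧ v t ≠ 0) → At S (x 0, v 0) →
    ∃ ρ₀ : ℝ, 0 < ρ₀ ∧ ∀ ρ : ℝ, 0 < ρ → ρ < ρ₀ → ∃ h : ℝ → ℝ, Continuous h ∧
      (∀ θ, W (x (circleMap 0 ρ θ), v (circleMap 0 ρ θ)) ≤ h θ) ∧
      ∫ θ in (0 : ℝ)..(2 * Real.pi), h θ ≤ 2 * Real.pi * W (x 0, v 0)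

theorem ev_At (S : Sys d n s) {q : (Fin n → ℂ) × (ℂ × ℂ)} (hq : q.1 ∈ S.U) (h : At S q) :
    ∀ᶠ q' in 𝓝 q, At S q' := by
  obtain ⟨k, m, hm⟩ := h
  filter_upwards [KOE.ev_inC S k m hq hm] with q' hq'
  exact ⟨k, m, hq'⟩

theorem w0_cont (S : Sys d n s) {C : Set (Fin n → ℂ)} (hC : IsCompact C) (hCU : C ⊆ S.U) {κ : ℝ}
    (hκ : 0 < κ) (Cu : ℝ) (T₁ : ℕ) : ContinuousOn (w0 S κ Cu T₁) (C ×ˢ {0}ᶜ) := by
  unfold w0
  refine ContinuousOn.div_const (continuousOn_const.sub (ContinuousOn.log ?_ ?_)) _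
  · refine ContinuousOn.sup ?_ continuousOn_const
    refine (ee_cont S hC hCU).comp (f := fun q : (Fin n → ℂ) × (ℂ × ℂ) =>
      (q.1, (S.F q.1)^[T₁] q.2)) ?_ ?_
    · exact continuousOn_fst.prodMk ((F_contOn S T₁).mono (prod_mono hCU (subset_univ _)))
    · rintro ⟨x, v⟩ ⟨hx, hv⟩
      exact ⟨hx, F_ne S (hCU hx) T₁ hv⟩
  · intro q _
    exact (hκ.trans_le (le_max_right _ _)).ne'

theorem pen_exists (S : Sys d n s) {C : Set (Fin n → ℂ)} (hC : IsCompact C) (hCU : C ⊆ S.U)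
    (Nt : ℕ) {wN : ℝ} (hwN : 0 < wN) : ∃ W : (Fin n → ℂ) × (ℂ × ℂ) → ℝ, Pen S C Nt wN W := by
  obtain ⟨Cu, κ₁, hκ₁, hup, hlow⟩ := ee_bd S hC hCU
  -- the level
  obtain ⟨κ, hκ0, hκκ₁, hκC, hκw⟩ : ∃ κ : ℝ, 0 < κ ∧ κ < κ₁ ∧ 0 < Cu - Real.log κ ∧
      Cu - Real.log κ₁ ≤ wN * (Cu - Real.log κ) := by
    have h1 : Tendsto (fun κ : ℝ => Real.log κ) (𝓝[>] 0) atBot := Real.tendsto_log_nhdsGT_zero
    have e1 := h1.eventually (eventually_lt_atBot Cu)
    have e2 := h1.eventually (eventually_le_atBot (Cu - (Cu - Real.log κ₁) / wN))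
    have e3 : ∀ᶠ κ : ℝ in 𝓝[>] 0, κ < κ₁ :=
      eventually_nhdsWithin_of_eventually_nhds (eventually_lt_nhds hκ₁)
    obtain ⟨κ, ⟨⟨a1, a2⟩, a3⟩, a4⟩ := (((e1.and e2).and e3).and
      (eventually_mem_nhdsWithin : ∀ᶠ κ : ℝ in 𝓝[>] 0, κ ∈ Ioi (0 : ℝ))).exists
    refine ⟨κ, a4, a3, by linarith, ?_⟩
    have a5 : (Cu - Real.log κ₁) / wN ≤ Cu - Real.log κ := by linarith
    rw [div_le_iff₀ hwN] at a5
    linarith
  obtain ⟨T₄, hT₄⟩ := ee_deep S hC hCU hκ0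
  obtain ⟨T₁, hT₁⟩ : ∃ T₁ : ℕ, T₁ = Nt + ∑ k, S.per k + T₄ := ⟨_, rfl⟩
  have hdeep : ∀ x ∈ C, ∀ v : ℂ × ℂ, ∀ k, ∀ i ≤ Nt + S.per k, S.InC k x ((S.F x)^[i] v) →
      EE S (x, (S.F x)^[T₁] v) < κ := by
    intro x hx v k i hi hin
    have h1 : S.per k ≤ ∑ k, S.per k :=
      Finset.single_le_sum (f := fun k => S.per k) (fun k _ => Nat.zero_le _) (Finset.mem_univ k)
    have h2 := hT₄ x hx k _ hin (T₁ - i) (by omega)
    rw [← Function.iterate_add_apply] at h2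
    have h3 : T₁ - i + i = T₁ := by omega
    rwa [h3] at h2
  have hmem : ∀ x ∈ C, ∀ v : ℂ × ℂ, v ≠ 0 → ((x, v) : (Fin n → ℂ) × (ℂ × ℂ)) ∈ C ×ˢ {0}ᶜ :=
    fun x hx v hv => ⟨hx, hv⟩
  have hnhds : ∀ x ∈ interior C, ∀ v : ℂ × ℂ, v ≠ 0 →
      (C ×ˢ {0}ᶜ : Set ((Fin n → ℂ) × (ℂ × ℂ))) ∈ 𝓝 (x, v) := by
    intro x hx v hv
    exact prod_mem_nhds (mem_interior_iff_mem_nhds.1 hx) (isOpen_compl_singleton.mem_nhds hv)
  have hw0c := w0_cont S hC hCU hκ0 Cu T₁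
  have hEc : ContinuousOn (fun q : (Fin n → ℂ) × (ℂ × ℂ) => EE S (q.1, (S.F q.1)^[T₁] q.2))
      (C ×ˢ {0}ᶜ) := by
    refine (ee_cont S hC hCU).comp (f := fun q : (Fin n → ℂ) × (ℂ × ℂ) =>
      (q.1, (S.F q.1)^[T₁] q.2)) ?_ ?_
    · exact continuousOn_fst.prodMk ((F_contOn S T₁).mono (prod_mono hCU (subset_univ _)))
    · rintro ⟨x, v⟩ ⟨hx, hv⟩
      exact ⟨hx, F_ne S (hCU hx) T₁ hv⟩
  have hw0nn : ∀ x ∈ C, ∀ v : ℂ × ℂ, v ≠ 0 → 0 ≤ w0 S κ Cu T₁ (x, v) := by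
    intro x hx v hv
    unfold w0
    apply div_nonneg _ hκC.le
    have h1 := hup x hx _ (F_ne S (hCU hx) T₁ hv)
    have h2 : Real.log (max (EE S (x, (S.F x)^[T₁] v)) κ) ≤ Cu := by
      rw [Real.log_le_iff_le_exp (hκ0.trans_le (le_max_right _ _))]
      apply max_le h1
      rw [← Real.log_le_iff_le_exp hκ0]
      linarith
    simp only
    linarith
  have hw0le : ∀ q, w0 S κ Cu T₁ q ≤ 1 := by
    intro q
    unfold w0
    rw [div_le_one hκC]
    have := Real.log_le_log hκ0 (le_max_right (EE S (q.1, (S.F q.1)^[T₁] q.2)) κ)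
    linarith
  have hw01 : ∀ q : (Fin n → ℂ) × (ℂ × ℂ), EE S (q.1, (S.F q.1)^[T₁] q.2) ≤ κ →
      w0 S κ Cu T₁ q = 1 := by
    intro q hq
    unfold w0
    rw [max_eq_right hq, div_self hκC.ne']
  have hnaF : ∀ x v, ¬ At S (x, v) → ¬ At S (x, (S.F x)^[T₁] v) := fun x v h h' => h (at_iter T₁ h')
  have hw0N : ∀ x ∈ C, ∀ v : ℂ × ℂ, v ≠ 0 → ¬ At S (x, v) → w0 S κ Cu T₁ (x, v) ≤ wN := by
    intro x hx v hv hna
    have h1 := hlow x hx _ (F_ne S (hCU hx) T₁ hv) (hnaF x v hna)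
    unfold w0
    rw [div_le_iff₀ hκC]
    have h2 : Real.log κ₁ ≤ Real.log (max (EE S (x, (S.F x)^[T₁] v)) κ) :=
      Real.log_le_log hκ₁ (h1.trans (le_max_left _ _))
    simp only
    linarith
  have hWat : ∀ q, At S q → WW S κ Cu T₁ q = w0 S κ Cu T₁ q := fun q hq => by
    unfold WW
    rw [if_pos hq]
  have hWna : ∀ q, ¬ At S q → WW S κ Cu T₁ q = 0 := fun q hq => by
    unfold WW
    rw [if_neg hq]
  have hWle : ∀ x ∈ C, ∀ v : ℂ × ℂ, v ≠ 0 →
      0 ≤ WW S κ Cu T₁ (x, v) ∧ WW S κ Cu T₁ (x, v) ≤ w0 S κ Cu T₁ (x, v) := by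
    intro x hx v hv
    have h1 := hw0nn x hx v hv
    by_cases hq : At S (x, v)
    · rw [hWat _ hq]
      exact ⟨h1, le_rfl⟩
    · rw [hWna _ hq]
      exact ⟨le_rfl, h1⟩
  refine ⟨WW S κ Cu T₁, ?_, ?_, ?_, ?_, hWna, ?_⟩
  · intro x hx v hv
    exact (hWle x hx v hv).1
  · intro q hq y hy
    by_cases hA : At S q
    · have e1 : ∀ᶠ q' in 𝓝[C ×ˢ {0}ᶜ] q, At S q' :=
        eventually_nhdsWithin_of_eventually_nhds (ev_At S (hCU hq.1) hA)
      have e2 : ∀ᶠ q' in 𝓝[C ×ˢ {0}ᶜ] q, y < w0 S κ Cu T₁ q' := by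
        have h1 := hw0c q hq
        rw [hWat q hA] at hy
        exact h1.eventually (lt_mem_nhds hy)
      filter_upwards [e1, e2] with q' a1 a2
      rw [hWat q' a1]
      exact a2
    · rw [hWna q hA] at hy
      filter_upwards [self_mem_nhdsWithin] with q' a1
      exact hy.trans_le (hWle q'.1 a1.1 q'.2 a1.2).1
  · intro x hx v hv hlt
    have hxC := interior_subset hx
    have hE : κ < EE S (x, (S.F x)^[T₁] v) := by
      by_cases hA : At S (x, v)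
      · rw [hWat _ hA] at hlt
        by_contra hcon
        push Not at hcon
        rw [hw01 (x, v) hcon] at hlt
        exact lt_irrefl _ hlt
      · exact hκκ₁.trans_le (hlow x hxC _ (F_ne S (hCU hxC) T₁ hv) (hnaF x v hA))
    have hc := hEc.continuousAt (hnhds x hx v hv)
    have e1 := hc.eventually (lt_mem_nhds (a := κ) hE)
    filter_upwards [e1, hnhds x hx v hv] with q a1 a2 k i hi hin
    have h1 := hdeep q.1 a2.1 q.2 k i hi hin
    exact lt_asymm h1 a1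
  · intro x hx v hv η hη
    have hxC := interior_subset hx
    have hc := hw0c.continuousAt (hnhds x hx v hv)
    by_cases hA : At S (x, v)
    · have e1 : ∀ᶠ q in 𝓝 (x, v), w0 S κ Cu T₁ q < w0 S κ Cu T₁ (x, v) + η :=
        hc.eventually_lt continuousAt_const (by linarith)
      filter_upwards [e1, hnhds x hx v hv] with q a1 a2
      rw [hWat _ hA]
      have h1 : WW S κ Cu T₁ q ≤ w0 S κ Cu T₁ q := (hWle q.1 a2.1 q.2 a2.2).2
      have h2 := le_max_left (w0 S κ Cu T₁ (x, v)) wN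
      linarith
    · have h0 := hw0N x hxC v hv hA
      have e1 : ∀ᶠ q in 𝓝 (x, v), w0 S κ Cu T₁ q < wN + η :=
        hc.eventually_lt continuousAt_const (by linarith)
      filter_upwards [e1, hnhds x hx v hv] with q a1 a2
      rw [hWna _ hA]
      have h1 : WW S κ Cu T₁ q ≤ w0 S κ Cu T₁ q := (hWle q.1 a2.1 q.2 a2.2).2
      have h2 := le_max_right (0 : ℝ) wN
      linarith
  · intro τ x v hτ hxd hvd hxv hA
    have h0 : (0 : ℂ) ∈ ball (0 : ℂ) τ := mem_ball_self hτ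
    have hxc : ContinuousAt x 0 := hxd.continuousOn.continuousAt (isOpen_ball.mem_nhds h0)
    have hvc : ContinuousAt v 0 := hvd.continuousOn.continuousAt (isOpen_ball.mem_nhds h0)
    have hqc : ContinuousAt (fun t => (x t, v t)) 0 := hxc.prodMk hvc
    by_cases hE : EE S (x 0, (S.F (x 0))^[T₁] (v 0)) ≤ κ
    · refine ⟨τ, hτ, fun ρ hρ hρτ => ⟨fun _ => 1, continuous_const, fun θ => ?_, ?_⟩⟩
      · have h1 := hxv (circleMap 0 ρ θ) (circ_mem hρ hρτ θ)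
        exact (hWle (x (circleMap 0 ρ θ)) (interior_subset h1.1) (v (circleMap 0 ρ θ)) h1.2).2.trans
          (hw0le _)
      · rw [hWat _ hA, hw01 (x 0, v 0) hE, intervalIntegral.integral_const]
        simp
    · push Not at hE
      obtain ⟨k, m, hm⟩ := id hA
      have hx0 := hxv 0 h0
      have e1 : ∀ᶠ t in 𝓝 (0 : ℂ), S.InC k (x t) ((S.F (x t))^[m] (v t)) :=
        hqc.eventually (KOE.ev_inC S k m (q := (x 0, v 0)) (hCU (interior_subset hx0.1)) hm)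
      have e2 : ∀ᶠ t in 𝓝 (0 : ℂ), κ < EE S (x t, (S.F (x t))^[T₁] (v t)) := by
        have hc := hEc.continuousAt (hnhds (x 0) hx0.1 (v 0) hx0.2)
        have hc2 : ContinuousAt (fun t => EE S (x t, (S.F (x t))^[T₁] (v t))) 0 :=
          ContinuousAt.comp (f := fun t => (x t, v t)) (g := fun q : (Fin n → ℂ) × (ℂ × ℂ) =>
            EE S (q.1, (S.F q.1)^[T₁] q.2)) hc hqc
        exact hc2.eventually (lt_mem_nhds hE)
      obtain ⟨ρ₁, hρ₁, hb⟩ := Metric.eventually_nhds_iff_ball.1 (e1.and e2)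
      obtain ⟨τ', hτ'⟩ : ∃ τ' : ℝ, τ' = min τ ρ₁ := ⟨_, rfl⟩
      have hτ'0 : 0 < τ' := by rw [hτ']; exact lt_min hτ hρ₁
      have hbτ : ball (0 : ℂ) τ' ⊆ ball 0 τ := ball_subset_ball (by rw [hτ']; exact min_le_left _ _)
      have hb1 : ball (0 : ℂ) τ' ⊆ ball 0 ρ₁ :=
        ball_subset_ball (by rw [hτ']; exact min_le_right _ _)
      refine ⟨τ', hτ'0, fun ρ hρ hρτ => ?_⟩
      have hxU : ∀ t ∈ ball (0 : ℂ) τ', x t ∈ S.U := fun t ht =>
        hCU (interior_subset (hxv t (hbτ ht)).1)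
      have hv0 : ∀ t ∈ ball (0 : ℂ) τ', v t ≠ 0 := fun t ht => (hxv t (hbτ ht)).2
      obtain ⟨hgc, hgi⟩ := gg_mean S (hxd.mono hbτ) hxU (hvd.mono hbτ) hv0
        (fun t ht => (hb t (hb1 ht)).1) hρ hρτ
      have hBd : DifferentiableOn ℂ (fun t => Bd S (x t) ((S.F (x t))^[T₁] (v t))) (ball 0 τ') := by
        refine bd_diff S (hxd.mono hbτ) ?_ hxU
        have h1 : DifferentiableOn ℂ (fun q : (Fin n → ℂ) × (ℂ × ℂ) => (S.F q.1)^[T₁] q.2)
            (S.U ×ˢ univ) := fun q hq => (KOE.F_diffAt S T₁ hq.1).differentiableWithinAt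
        exact h1.comp ((hxd.mono hbτ).prodMk (hvd.mono hbτ)) (fun t ht => ⟨hxU t ht, mem_univ _⟩)
      have hBne : ∀ t ∈ ball (0 : ℂ) τ', Bd S (x t) ((S.F (x t))^[T₁] (v t)) ≠ 0 := by
        intro t ht h0'
        have h2 := (hb t (hb1 ht)).2
        unfold EE at h2
        simp only at h2
        rw [h0', norm_zero, zero_mul] at h2
        linarith
      have hlogE : ∀ t ∈ ball (0 : ℂ) τ', w0 S κ Cu T₁ (x t, v t) =
          (Cu - Real.log ‖Bd S (x t) ((S.F (x t))^[T₁] (v t))‖ +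
            Sg S * (d : ℝ) ^ T₁ * GG S (x t, v t)) / (Cu - Real.log κ) := by
        intro t ht
        unfold w0
        simp only
        rw [max_eq_left (hb t (hb1 ht)).2.le]
        congr 1
        unfold EE
        simp only
        rw [Real.log_mul (norm_ne_zero_iff.2 (hBne t ht)) (Real.exp_pos _).ne', Real.log_exp,
          gg_iter S (hxU t ht) (hv0 t ht)]
        ring
      have hlc : Continuous fun θ : ℝ => Real.log
          ‖Bd S (x (circleMap 0 ρ θ)) ((S.F (x (circleMap 0 ρ θ)))^[T₁] (v (circleMap 0 ρ θ)))‖ := by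
        refine Continuous.log (circ_cont hρ hρτ hBd.continuousOn).norm fun θ => ?_
        exact norm_ne_zero_iff.2 (hBne _ (circ_mem hρ hρτ θ))
      have hli := circ_log hρ hρτ hBd hBne
      refine ⟨fun θ => (Cu - Real.log
          ‖Bd S (x (circleMap 0 ρ θ)) ((S.F (x (circleMap 0 ρ θ)))^[T₁] (v (circleMap 0 ρ θ)))‖ +
            Sg S * (d : ℝ) ^ T₁ * GG S (x (circleMap 0 ρ θ), v (circleMap 0 ρ θ))) /
              (Cu - Real.log κ), ?_, ?_, ?_⟩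
      · exact ((continuous_const.sub hlc).add (continuous_const.mul hgc)).div_const _
      · intro θ
        have ht := circ_mem hρ hρτ θ
        have h1 := hxv _ (hbτ ht)
        exact (hWle (x (circleMap 0 ρ θ)) (interior_subset h1.1) (v (circleMap 0 ρ θ)) h1.2).2.trans
          (hlogE _ ht).le
      · rw [hWat _ hA, hlogE 0 (mem_ball_self hτ'0), intervalIntegral.integral_div,
          intervalIntegral.integral_add, intervalIntegral.integral_sub,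
          intervalIntegral.integral_const_mul, intervalIntegral.integral_const, hgi, hli]
        · apply le_of_eq
          rw [smul_eq_mul, sub_zero]
          ring
        · exact continuous_const.intervalIntegrable _ _
        · exact hlc.intervalIntegrable _ _
        · exact (continuous_const.sub hlc).intervalIntegrable _ _
        · exact (continuous_const.mul hgc).intervalIntegrable _ _

end Pool.Agent.Zk23
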