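import Mathlib
import Pool.Agent.Zk23.NCE
import Pool.Agent.Zk23.CNORM

/-! All free critical points in new cycles, part 6: critical points which are not attracted and not
active stay so. -/

set_option autoImplicit false
set_option linter.unusedVariables false

open Topology Filter Metric Set MeasureTheory
open Pool.Agent.H790R3.RB (CV hF cr ND wr rt Ix yx yc yx_diff yc_diff hF_iter_smul hF_smul
  cr_smul_left cr_smul_right cr_self cr_iter cr_eq_zero_iff cr_comm cr_trans)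
open Pool.Agent.W757.RD

namespace Pool.Agent.Zk23

/-- Montel's argument in one variable. -/
theorem mont {d n s : ℕ} (S : Sys d n s) {r : ℝ} (hr : 0 < r) (x : ℂ → (Fin n → ℂ))
    (v : ℂ → ℂ × ℂ) (hxd : DifferentiableOn ℂ x (ball 0 r)) (hvd : DifferentiableOn ℂ v (ball 0 r))
    (hxU : ∀ t ∈ ball (0 : ℂ) r, x t ∈ S.U) (hv0 : ∀ t ∈ ball (0 : ℂ) r, v t ≠ 0)
    (p0 p1 p2 : ℂ → ℂ × ℂ) (hp0 : DifferentiableOn ℂ p0 (ball 0 r))
    (hp1 : DifferentiableOn ℂ p1 (ball 0 r)) (hp2 : DifferentiableOn ℂ p2 (ball 0 r))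
    (h01 : ∀ t ∈ ball (0 : ℂ) r, cr (p0 t) (p1 t) ≠ 0)
    (h21 : ∀ t ∈ ball (0 : ℂ) r, cr (p2 t) (p1 t) ≠ 0)
    (h20 : ∀ t ∈ ball (0 : ℂ) r, cr (p2 t) (p0 t) ≠ 0)
    (hpb : ∀ k, cr (S.b k (x 0), 1) (p1 0) ≠ 0) (N : ℕ)
    (hne : ∀ m, N ≤ m → ∀ t ∈ ball (0 : ℂ) r, cr ((S.F (x t))^[m] (v t)) (p0 t) ≠ 0 ∧
      cr ((S.F (x t))^[m] (v t)) (p1 t) ≠ 0 ∧ cr ((S.F (x t))^[m] (v t)) (p2 t) ≠ 0)
    (hna : ¬ At S (x 0, v 0)) : ∀ᶠ t in 𝓝 (0 : ℂ), ¬ At S (x t, v t) := by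
  have h0 : (0 : ℂ) ∈ ball (0 : ℂ) r := mem_ball_self hr
  have hnb : ball (0 : ℂ) r ∈ 𝓝 (0 : ℂ) := ball_mem_nhds _ hr
  have c0 : ContinuousAt p0 0 := (hp0.differentiableAt hnb).continuousAt
  have c1 : ContinuousAt p1 0 := (hp1.differentiableAt hnb).continuousAt
  have c2 : ContinuousAt p2 0 := (hp2.differentiableAt hnb).continuousAt
  obtain ⟨h, hh⟩ : ∃ h : ℕ → ℂ → ℂ, h = fun m t =>
    cr ((S.F (x t))^[m] (v t)) (p0 t) * cr (p2 t) (p1 t) /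
      (cr ((S.F (x t))^[m] (v t)) (p1 t) * cr (p2 t) (p0 t)) := ⟨_, rfl⟩
  have hVd : ∀ m : ℕ, DifferentiableOn ℂ (fun t => (S.F (x t))^[m] (v t)) (ball 0 r) := by
    intro m
    have h1 : DifferentiableOn ℂ (fun q : (Fin n → ℂ) × (ℂ × ℂ) => (S.F q.1)^[m] q.2)
        (S.U ×ˢ univ) := fun q hq => (KOE.F_diffAt S m hq.1).differentiableWithinAt
    exact h1.comp (hxd.prodMk hvd) (fun t ht => ⟨hxU t ht, mem_univ _⟩)
  have hhd : ∀ m, N ≤ m → DifferentiableOn ℂ (h m) (ball 0 r) := by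
    intro m hm
    have e : h m = fun t => (cr ((S.F (x t))^[m] (v t)) (p0 t) * cr (p2 t) (p1 t)) *
      (cr ((S.F (x t))^[m] (v t)) (p1 t) * cr (p2 t) (p0 t))⁻¹ := by
      funext t
      rw [hh]
      simp only [div_eq_mul_inv]
    rw [e]
    refine DifferentiableOn.mul ?_ ?_
    · exact (cr_diff (hVd m) hp0).mul (cr_diff hp2 hp1)
    · refine DifferentiableOn.inv ?_ ?_
      · exact (cr_diff (hVd m) hp1).mul (cr_diff hp2 hp0)
      · intro t ht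
        exact mul_ne_zero (hne m hm t ht).2.1 (h20 t ht)
  have hh01 : ∀ m, N ≤ m → ∀ t ∈ ball (0 : ℂ) r, h m t ≠ 0 ∧ h m t ≠ 1 := by
    intro m hm t ht
    obtain ⟨n0, n1, n2⟩ := hne m hm t ht
    rw [hh]
    constructor
    · exact div_ne_zero (mul_ne_zero n0 (h21 t ht)) (mul_ne_zero n1 (h20 t ht))
    · intro h1
      simp only at h1
      rw [div_eq_one_iff_eq (mul_ne_zero n1 (h20 t ht))] at h1
      have h2 := plu ((S.F (x t))^[m] (v t)) (p0 t) (p1 t) (p2 t)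
      rw [h1, sub_self] at h2
      exact mul_ne_zero n2 (h01 t ht) h2.symm
  -- the value at the attracting cycles
  obtain ⟨a, ha⟩ : ∃ a : ℂ, a = cr (p2 0) (p1 0) := ⟨_, rfl⟩
  obtain ⟨b, hb⟩ : ∃ b : ℂ, b = cr (p2 0) (p0 0) := ⟨_, rfl⟩
  obtain ⟨X, hX⟩ : ∃ X : Fin s → ℂ, X = fun k =>
    cr (S.b k (x 0), 1) (p0 0) * a / (cr (S.b k (x 0), 1) (p1 0) * b) := ⟨_, rfl⟩
  have hinv : ∀ k, ∃ η : ℝ, 0 < η ∧ ∀ V : ℂ × ℂ, V ≠ 0 → cr V (p1 0) ≠ 0 →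
      ‖cr V (p0 0) * a / (cr V (p1 0) * b) - X k‖ < η →
      ∃ α z : ℂ, α ≠ 0 ∧ ‖z‖ < S.r₀ k ∧ V = α • ((S.b k (x 0) + z, 1) : ℂ × ℂ) := fun k => by
    have h1 := chi_inv (p0 0) (p1 0) a b (S.b k (x 0)) (by rw [ha]; exact h21 0 h0)
      (by rw [hb]; exact h20 0 h0) (h01 0 h0) (hpb k) (S.r₀ k) (S.hr₀ k)
    rw [hX]
    exact h1
  choose η hη hinv using hinv
  -- continuity of the cross ratio
  obtain ⟨χ, hχ⟩ : ∃ χ : ℂ × ℂ → ℂ, χ = fun q =>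
    cr (q.2, 1) (p0 q.1) * cr (p2 q.1) (p1 q.1) /
      (cr (q.2, 1) (p1 q.1) * cr (p2 q.1) (p0 q.1)) := ⟨_, rfl⟩
  have hχ0 : ∀ k, χ (0, S.b k (x 0)) = X k := by
    intro k
    rw [hχ, hX, ha, hb]
  have hχc : ∀ k, ContinuousAt χ (0, S.b k (x 0)) := by
    intro k
    have k1 : ∀ f : ℂ → ℂ × ℂ, ContinuousAt f 0 →
        ContinuousAt (fun q : ℂ × ℂ => f q.1) (0, S.b k (x 0)) := fun f hf =>
      ContinuousAt.comp (f := fun q : ℂ × ℂ => q.1) (g := f) hf continuousAt_fst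
    have k2 : ∀ f g : ℂ → ℂ × ℂ, ContinuousAt f 0 → ContinuousAt g 0 →
        ContinuousAt (fun q : ℂ × ℂ => cr (f q.1) (g q.1)) (0, S.b k (x 0)) := by
      intro f g hf hg
      unfold cr
      exact ((k1 f hf).fst.mul (k1 g hg).snd).sub ((k1 f hf).snd.mul (k1 g hg).fst)
    have k3 : ∀ f : ℂ → ℂ × ℂ, ContinuousAt f 0 →
        ContinuousAt (fun q : ℂ × ℂ => cr (q.2, 1) (f q.1)) (0, S.b k (x 0)) := by
      intro f hf
      unfold cr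
      exact (continuousAt_snd.mul (k1 f hf).snd).sub (continuousAt_const.mul (k1 f hf).fst)
    rw [hχ]
    refine ((k3 p0 c0).mul (k2 p2 p1 c2 c1)).div ((k3 p1 c1).mul (k2 p2 p0 c2 c0)) ?_
    exact mul_ne_zero (hpb k) (h20 0 h0)
  -- constants
  obtain ⟨M, hM⟩ : ∃ M : ℝ, M = ∑ k, ‖X k‖ + 1 := ⟨_, rfl⟩
  obtain ⟨K, hK, heq⟩ := equi M (r / 2) (by linarith)
  have hsm : ∀ᶠ t : ℂ in 𝓝 0, (∀ k, ∃ δ' : ℝ, 0 < δ' ∧ ∀ z : ℂ, ‖z‖ < δ' →
      ‖χ (t, S.b k (x t) + z) - X k‖ < min (η k / 2) 1) ∧ (∀ k, K * ‖t‖ < η k / 2) ∧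
      ‖t‖ < r / 4 := by
    refine Filter.Eventually.and (eventually_all.2 fun k => ?_)
      (Filter.Eventually.and (eventually_all.2 fun k => ?_) ?_)
    · have c0 : ContinuousAt (fun t => S.b k (x t)) 0 := by
        have hbc : ContinuousAt (S.b k) (x 0) :=
          ((S.hb k).differentiableAt (S.hU.mem_nhds (hxU 0 h0))).continuousAt
        exact ContinuousAt.comp (f := x) (g := S.b k) hbc (hxd.differentiableAt hnb).continuousAt
      have c1 : ContinuousAt (fun q : ℂ × ℂ => (q.1, S.b k (x q.1) + q.2)) (0, 0) := by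
        refine continuousAt_fst.prodMk (ContinuousAt.add ?_ continuousAt_snd)
        exact ContinuousAt.comp (f := fun q : ℂ × ℂ => q.1) (g := fun t => S.b k (x t)) c0
          continuousAt_fst
      have c2 : ContinuousAt (fun q : ℂ × ℂ => ‖χ (q.1, S.b k (x q.1) + q.2) - X k‖) (0, 0) := by
        have h1 : ContinuousAt χ ((fun q : ℂ × ℂ => (q.1, S.b k (x q.1) + q.2)) (0, 0)) := by
          simp only [add_zero]
          exact hχc k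
        exact ((ContinuousAt.comp (f := fun q : ℂ × ℂ => (q.1, S.b k (x q.1) + q.2)) (g := χ) h1
          c1).sub continuousAt_const).norm
      have h1 : ∀ᶠ q : ℂ × ℂ in 𝓝 (0, 0), ‖χ (q.1, S.b k (x q.1) + q.2) - X k‖ <
          min (η k / 2) 1 := by
        refine c2.eventually_lt continuousAt_const ?_
        simp only [add_zero]
        rw [hχ0, sub_self, norm_zero]
        exact lt_min (by linarith [hη k]) one_pos
      obtain ⟨δ', hδ', hb'⟩ := Metric.eventually_nhds_iff.1 h1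
      have e1 : ∀ᶠ t : ℂ in 𝓝 0, dist t 0 < δ' := Metric.ball_mem_nhds _ hδ'
      filter_upwards [e1] with t ht
      refine ⟨δ', hδ', fun z hz => hb' (y := (t, z)) ?_⟩
      rw [Prod.dist_eq, max_lt_iff]
      exact ⟨ht, by simpa using hz⟩
    · have c1 : Continuous fun t : ℂ => K * ‖t‖ := by fun_prop
      refine (c1.tendsto 0).eventually_lt_const ?_
      rw [norm_zero, mul_zero]
      linarith [hη k]
    · have c1 : Continuous fun t : ℂ => ‖t‖ := continuous_norm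
      refine (c1.tendsto 0).eventually_lt_const ?_
      rw [norm_zero]
      linarith
  filter_upwards [hsm, hnb] with t₁ hs htb
  obtain ⟨hs1, hs2, hs3⟩ := hs
  rintro ⟨k, m, a₁, z₁, ha₁, hz₁, he₁⟩
  obtain ⟨δ', hδ', hs1⟩ := hs1 k
  -- a late time
  have hlim : Tendsto (fun i : ℕ => S.θ ^ i * S.r₀ k) atTop (𝓝 0) := by
    have := (tendsto_pow_atTop_nhds_zero_of_lt_one S.hθ0 S.hθ).mul_const (S.r₀ k)
    simpa using this
  obtain ⟨i, hi1, hi2⟩ := ((hlim.eventually (gt_mem_nhds hδ')).and (eventually_ge_atTop N)).exists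
  obtain ⟨a', z', ha', hz', hzq, he⟩ := IN.iter S (hxU t₁ htb) k ha₁ hz₁ he₁ i
  obtain ⟨m', hm'⟩ : ∃ m', m' = S.per k * i + m := ⟨_, rfl⟩
  have hNm : N ≤ m' := by
    have := S.hper k
    rw [hm']
    nlinarith
  have hVe : (S.F (x t₁))^[m'] (v t₁) = a' • S.cht k (x t₁) z' := by
    rw [hm', Function.iterate_add_apply]
    exact he
  have hz'' : ‖z'‖ < δ' := hzq.trans_lt hi1
  have hf : DifferentiableOn ℂ (h m') (ball t₁ (r / 2)) := by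
    refine (hhd m' hNm).mono ?_
    intro t ht
    rw [mem_ball, dist_eq_norm] at ht
    rw [mem_ball_zero_iff]
    calc ‖t‖ = ‖(t - t₁) + t₁‖ := by ring_nf
      _ ≤ ‖t - t₁‖ + ‖t₁‖ := norm_add_le _ _
      _ < r := by linarith
  have hf01 : ∀ t ∈ ball t₁ (r / 2), h m' t ≠ 0 ∧ h m' t ≠ 1 := by
    intro t ht
    apply hh01 m' hNm
    rw [mem_ball, dist_eq_norm] at ht
    rw [mem_ball_zero_iff]
    calc ‖t‖ = ‖(t - t₁) + t₁‖ := by ring_nf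
      _ ≤ ‖t - t₁‖ + ‖t₁‖ := norm_add_le _ _
      _ < r := by linarith
  have hft : h m' t₁ = χ (t₁, S.b k (x t₁) + z') := by
    rw [hh, hχ]
    simp only
    rw [hVe]
    unfold Sys.cht
    rw [cr_smul_left, cr_smul_left, mul_assoc, mul_assoc, mul_div_mul_left _ _ ha']
  have hfx : ‖h m' t₁ - X k‖ < min (η k / 2) 1 := by
    rw [hft]
    exact hs1 z' hz''
  have hfM : ‖h m' t₁‖ ≤ M := by
    have e1 : ‖h m' t₁‖ ≤ ‖h m' t₁ - X k‖ + ‖X k‖ := by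
      calc ‖h m' t₁‖ = ‖(h m' t₁ - X k) + X k‖ := by ring_nf
        _ ≤ _ := norm_add_le _ _
    have e2 : ‖X k‖ ≤ ∑ k, ‖X k‖ :=
      Finset.single_le_sum (f := fun k => ‖X k‖) (fun k _ => norm_nonneg _) (Finset.mem_univ k)
    have e3 := hfx.trans_le (min_le_right _ _)
    rw [hM]; linarith
  have hfin := heq (h m') t₁ hf hf01 hfM 0 (by rw [zero_sub, norm_neg]; linarith)
  rw [zero_sub, norm_neg] at hfin
  have hf0 : ‖h m' 0 - X k‖ < η k := by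
    have e1 : ‖h m' 0 - X k‖ ≤ ‖h m' 0 - h m' t₁‖ + ‖h m' t₁ - X k‖ := by
      calc ‖h m' 0 - X k‖ = ‖(h m' 0 - h m' t₁) + (h m' t₁ - X k)‖ := by ring_nf
        _ ≤ _ := norm_add_le _ _
    have e3 := hs2 k
    have e4 := hfx.trans_le (min_le_left _ _)
    linarith
  have hV0ne : (S.F (x 0))^[m'] (v 0) ≠ 0 := F_ne S (hxU 0 h0) m' (hv0 0 h0)
  have hf0' : h m' 0 = cr ((S.F (x 0))^[m'] (v 0)) (p0 0) * a /
      (cr ((S.F (x 0))^[m'] (v 0)) (p1 0) * b) := by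
    rw [hh, ha, hb]
  obtain ⟨α, z'', hα, hz'', he''⟩ := hinv k _ hV0ne (hne m' hNm 0 h0).2.1
    (by rw [← hf0']; exact hf0)
  exact hna ⟨k, m', α, z'', hα, hz'', he''⟩

/-- preimages on the marked cycles -/
theorem at_of_b {d n s : ℕ} (S : Sys d n s) {x : Fin n → ℂ} (hx : x ∈ S.U) {k : Fin s} {g c : ℂ}
    (h1 : cr (S.b k x, 1) (g, 1) = 0) (h2 : cr (S.F x (g, 1)) (c, 1) = 0) : At S (x, (c, 1)) := by
  have hb1 := one_ne (S.b k x)
  have h3 : cr (S.F x (S.b k x, 1)) (S.F x (g, 1)) = 0 := cr_iter (S.co x) 1 hb1 (one_ne g) h1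
  have h4 : cr (S.F x (S.b k x, 1)) (c, 1) = 0 := cr_trans (F_ne S hx 1 (one_ne _)) h3 h2
  obtain ⟨a, ha, he⟩ := (cr_eq_zero_iff (F_ne S hx 1 hb1) (one_ne c)).1 h4
  obtain ⟨a', z', ha', hz', h5⟩ := S.contr x hx k 0 (by simpa using S.hr₀ k)
  rw [add_zero] at h5
  refine ⟨k, S.per k - 1, ?_⟩
  have hper := S.hper k
  have h6 : (S.F x)^[S.per k] (S.b k x, 1) = (S.F x)^[S.per k - 1] (S.F x (S.b k x, 1)) := by
    rw [← Function.iterate_succ_apply]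
    congr 1
    congr 1
    omega
  have he' : S.F x (S.b k x, 1) = a • ((c, 1) : ℂ × ℂ) := he
  rw [he'] at h6
  have h7 : (S.F x)^[S.per k - 1] (a • ((c, 1) : ℂ × ℂ)) =
      a ^ (d ^ (S.per k - 1)) • (S.F x)^[S.per k - 1] (c, 1) := hF_iter_smul (S.co x) _ a _
  rw [h7] at h6
  apply inC_smul' (pow_ne_zero _ ha)
  refine ⟨a', z', ha', ?_, ?_⟩
  · rw [norm_zero, mul_zero] at hz'
    exact lt_of_le_of_lt hz' (S.hr₀ k)
  · rw [← h6]
    exact h5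

theorem rel_ne {d n s : ℕ} (S : Sys d n s) {x : Fin n → ℂ} (hx : x ∈ S.U) {g c : ℂ}
    (hnp : ∀ m : ℕ, 1 ≤ m → cr ((S.F x)^[m] (c, 1)) (c, 1) ≠ 0)
    (hg : cr (S.F x (g, 1)) (c, 1) = 0) (m : ℕ) : cr ((S.F x)^[m] (c, 1)) (g, 1) ≠ 0 := by
  intro h1
  have h2 : cr (S.F x ((S.F x)^[m] (c, 1))) (S.F x (g, 1)) = 0 :=
    cr_iter (S.co x) 1 (F_ne S hx m (one_ne c)) (one_ne g) h1
  have h3 : (S.F x)^[m + 1] (c, 1) = S.F x ((S.F x)^[m] (c, 1)) :=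
    Function.iterate_succ_apply' _ _ _
  rw [← h3] at h2
  exact hnp (m + 1) (by omega) (cr_trans (F_ne S hx 1 (one_ne g)) h2 hg)

/-- A critical point which is not attracted, not a critical value and not periodic nearby is not
attracted nearby. -/
theorem dich {d s : ℕ} (S : Sys d (2 * d) s) (hco : ∀ x ∈ S.U, S.co x = fam x) {τ : ℝ}
    {x : ℂ → (Fin (2 * d) → ℂ)} {c : ℂ → ℂ} (hτ : 0 < τ)
    (hxd : DifferentiableOn ℂ x (ball 0 τ)) (hcd : DifferentiableOn ℂ c (ball 0 τ))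
    (hxU : ∀ t ∈ ball (0 : ℂ) τ, x t ∈ S.U)
    (hcv : ∀ p : ℂ, cr (hF (fam (x 0)) (p, 1)) (c 0, 1) = 0 → wr (fam (x 0)) (p, 1) ≠ 0)
    (hnp : ∀ t ∈ ball (0 : ℂ) τ, ∀ m : ℕ, 1 ≤ m →
      cr ((S.F (x t))^[m] (c t, 1)) (c t, 1) ≠ 0)
    (hna : ¬ At S (x 0, (c 0, 1))) : ∀ᶠ t in 𝓝 (0 : ℂ), ¬ At S (x t, (c t, 1)) := by
  have hd := S.hd
  have h0 : (0 : ℂ) ∈ ball (0 : ℂ) τ := mem_ball_self hτ
  have hnb : ball (0 : ℂ) τ ∈ 𝓝 (0 : ℂ) := ball_mem_nhds _ hτ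
  have hx0U := hxU 0 h0
  have hu₀ : x 0 ∈ U₀ d := by
    have h1 := hco _ hx0U
    exact ⟨by rw [← h1]; exact S.nd _ hx0U, by rw [← h1]; exact S.hwr _ hx0U⟩
  obtain ⟨p₁, p₂, hp12, hp1, hp2⟩ := two_preim hd (x 0) hu₀ (c 0) hcv
  obtain ⟨r₁, g₁, hr₁, hg₁d, hg₁0, hg₁⟩ := preim_fun hd (x 0) hu₀ (c 0) p₁ (hcv p₁ hp1) hp1
  obtain ⟨r₂, g₂, hr₂, hg₂d, hg₂0, hg₂⟩ := preim_fun hd (x 0) hu₀ (c 0) p₂ (hcv p₂ hp2) hp2
  have hxc : ContinuousAt x 0 := (hxd.differentiableAt hnb).continuousAt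
  have hcc : ContinuousAt c 0 := (hcd.differentiableAt hnb).continuousAt
  have hqc : ContinuousAt (fun t => (x t, c t)) 0 := hxc.prodMk hcc
  have e1 : ∀ᶠ t in 𝓝 (0 : ℂ), (x t, c t) ∈ ball (x 0, c 0) r₁ := hqc.eventually (ball_mem_nhds _ hr₁)
  have e2 : ∀ᶠ t in 𝓝 (0 : ℂ), (x t, c t) ∈ ball (x 0, c 0) r₂ := hqc.eventually (ball_mem_nhds _ hr₂)
  have cg₁ : ContinuousAt (fun t => g₁ (x t, c t)) 0 :=
    ContinuousAt.comp (f := fun t => (x t, c t)) (g := g₁)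
      ((hg₁d.differentiableAt (ball_mem_nhds _ hr₁)).continuousAt) hqc
  have cg₂ : ContinuousAt (fun t => g₂ (x t, c t)) 0 :=
    ContinuousAt.comp (f := fun t => (x t, c t)) (g := g₂)
      ((hg₂d.differentiableAt (ball_mem_nhds _ hr₂)).continuousAt) hqc
  have e3 : ∀ᶠ t in 𝓝 (0 : ℂ), g₂ (x t, c t) - g₁ (x t, c t) ≠ 0 := by
    refine (cg₂.sub cg₁).eventually_ne ?_
    show g₂ (x 0, c 0) - g₁ (x 0, c 0) ≠ 0
    rw [hg₁0, hg₂0]
    exact sub_ne_zero.2 hp12.symm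
  obtain ⟨r, hr, hball⟩ := Metric.eventually_nhds_iff_ball.1 ((e1.and (e2.and e3)).and hnb)
  have hsub : ball (0 : ℂ) r ⊆ ball 0 τ := fun t ht => (hball t ht).2
  have h0r : (0 : ℂ) ∈ ball (0 : ℂ) r := mem_ball_self hr
  have hFt : ∀ t ∈ ball (0 : ℂ) r, ∀ p, S.F (x t) p = hF (fam (x t)) p := fun t ht p => by
    unfold Sys.F
    rw [hco _ (hxU t (hsub ht))]
  have hg1 : ∀ t ∈ ball (0 : ℂ) r, cr (S.F (x t) (g₁ (x t, c t), 1)) (c t, 1) = 0 :=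
    fun t ht => by
      rw [hFt t ht]
      exact hg₁ (x t, c t) (hball t ht).1.1
  have hg2 : ∀ t ∈ ball (0 : ℂ) r, cr (S.F (x t) (g₂ (x t, c t), 1)) (c t, 1) = 0 :=
    fun t ht => by
      rw [hFt t ht]
      exact hg₂ (x t, c t) (hball t ht).1.2.1
  have hcd' : DifferentiableOn ℂ (fun t => ((c t, 1) : ℂ × ℂ)) (ball 0 r) :=
    (hcd.mono hsub).prodMk (differentiableOn_const _)
  have hgd : ∀ g : (Fin (2 * d) → ℂ) × ℂ → ℂ, ∀ r', DifferentiableOn ℂ g (ball (x 0, c 0) r') →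
      (∀ t ∈ ball (0 : ℂ) r, (x t, c t) ∈ ball (x 0, c 0) r') →
      DifferentiableOn ℂ (fun t => ((g (x t, c t), 1) : ℂ × ℂ)) (ball 0 r) := by
    intro g r' hg hm
    exact (hg.comp ((hxd.mono hsub).prodMk (hcd.mono hsub)) hm).prodMk (differentiableOn_const _)
  have k1 : ∀ t ∈ ball (0 : ℂ) r, ∀ m : ℕ,
      cr ((S.F (x t))^[m] (c t, 1)) (g₁ (x t, c t), 1) ≠ 0 := fun t ht m =>
    rel_ne S (hxU t (hsub ht)) (hnp t (hsub ht)) (hg1 t ht) m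
  have k2 : ∀ t ∈ ball (0 : ℂ) r, ∀ m : ℕ,
      cr ((S.F (x t))^[m] (c t, 1)) (g₂ (x t, c t), 1) ≠ 0 := fun t ht m =>
    rel_ne S (hxU t (hsub ht)) (hnp t (hsub ht)) (hg2 t ht) m
  refine mont S hr x (fun t => (c t, 1)) (hxd.mono hsub) hcd' (fun t ht => hxU t (hsub ht))
    (fun t _ => one_ne (c t)) (fun t => (c t, 1)) (fun t => (g₁ (x t, c t), 1))
    (fun t => (g₂ (x t, c t), 1)) hcd' (hgd g₁ r₁ hg₁d (fun t ht => (hball t ht).1.1))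
    (hgd g₂ r₂ hg₂d (fun t ht => (hball t ht).1.2.1)) (fun t ht => k1 t ht 0) ?_ ?_ ?_ 1
    (fun m hm t ht => ⟨hnp t (hsub ht) m hm, k1 t ht m, k2 t ht m⟩) hna
  · intro t ht
    have := (hball t ht).1.2.2
    unfold cr
    simpa using this
  · intro t ht
    rw [cr_comm]
    exact neg_ne_zero.2 (k2 t ht 0)
  · intro k h1
    exact hna (at_of_b S hx0U h1 (hg1 0 h0r))

end Pool.Agent.Zk23
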