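import Mathlib
import Pool.Agent.Zk23.ETH
import Pool.Agent.Zk23.NCH

/-! All free critical points in new cycles, part 7: critical points in attracting cycles of a given
period, and the gap lemma. -/

set_option autoImplicit false
set_option linter.unusedVariables false

open Topology Filter Metric Set MeasureTheory
open Pool.Agent.H790R3.RB (CV hF cr ND wr rt Ix yx yc sp pr yx_diff yc_diff hF_iter_smul hF_smul
  cr_smul_left cr_smul_right cr_self cr_iter cr_eq_zero_iff cr_comm cr_trans Sink Attd)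
open Pool.Agent.W757.RD
open scoped OnePoint

namespace Pool.Agent.Zk23

/-- systems with given marked points -/
theorem mk_sys {d : ℕ} (hd : 2 ≤ d) {u₁ : Fin (2 * d) → ℂ} {s : ℕ} {per : Fin s → ℕ}
    {p : Fin s → ℂ} (hMk : Mk u₁ s per p) :
    ∃ S : Sys d (2 * d) s, (∀ x ∈ S.U, S.co x = fam x) ∧ u₁ ∈ S.U ∧ (∀ k, S.per k = per k) ∧
      ∀ k, S.b k u₁ = p k := by
  obtain ⟨hU₀, hfamd, hfamn, hfamN, -⟩ := p_FM d hd
  obtain ⟨ε, r, θ, b, hε, hr, hθ0, hθ1, hsub, hb1, hbd, hb2, hct, hsp, -⟩ :=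
    p_LOCM d u₁ s per p hd hMk
  have hinf' : ∀ u : Fin (2 * d) → ℂ, (hF (fam u) (1, 0)).2 = 0 := by
    intro u
    rw [Pool.Agent.W364.NM.hF_inf']
    exact (hfamN u).2
  let S : Sys d (2 * d) s :=
    { co := fam
      U := ball u₁ ε
      per := per
      b := b
      r₀ := fun _ => r
      θ := θ
      hd := hd
      hU := isOpen_ball
      hr₀ := fun _ => hr
      hθ0 := hθ0
      hθ := hθ1
      hper := hMk.pp
      hco := hfamd.differentiableOn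
      hb := hbd
      nd := fun x hx => (hsub hx).1
      hinf := fun x _ => hinf' x
      hwr := fun x hx => (hsub hx).2
      contr := fun x hx k z hz => hct x hx k z hz
      sep := fun x hx k k' z z' a m hz hz' he => hsp x hx k k' z z' a m hz hz' he }
  exact ⟨S, fun x _ => rfl, mem_ball_self hε, fun k => rfl, hb1⟩

/-- the relation of period `p` -/
noncomputable def Ep {d : ℕ} (p : ℕ) (q : (Fin (2 * d) → ℂ) × ℂ) : ℂ :=
  cr ((hF (fam q.1))^[p] (q.2, 1)) (q.2, 1)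

/-- the product of the relations of smaller periods -/
noncomputable def Gp {d : ℕ} (p : ℕ) (q : (Fin (2 * d) → ℂ) × ℂ) : ℂ :=
  ∏ a ∈ Finset.Ico 1 p, Ep a q

/-- `ζ` is close to a point of an attracting cycle of exact period `p` and attracted by it -/
def Qp {d : ℕ} (p : ℕ) (q : (Fin (2 * d) → ℂ) × ℂ) : Prop :=
  ∃ S : Sys d (2 * d) 1, (∀ x ∈ S.U, S.co x = fam x) ∧ q.1 ∈ S.U ∧ S.per 0 = p ∧
    S.InC 0 q.1 (q.2, 1)

theorem ep_cont {d : ℕ} (hd : 2 ≤ d) (p : ℕ) : Continuous (Ep (d := d) p) := by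
  have h1 : Continuous fun q : (Fin (2 * d) → ℂ) × ℂ => (hF (fam q.1))^[p] (q.2, 1) :=
    (hFf_diff hd p).continuous
  unfold Ep cr
  exact (h1.fst.mul continuous_const).sub (h1.snd.mul continuous_snd)

theorem gp_cont {d : ℕ} (hd : 2 ≤ d) (p : ℕ) : Continuous (Gp (d := d) p) := by
  unfold Gp
  exact continuous_finsetProd _ fun a _ => ep_cont hd a

theorem gp_ne {d : ℕ} {p : ℕ} {q : (Fin (2 * d) → ℂ) × ℂ} :
    Gp p q ≠ 0 ↔ ∀ a : ℕ, 1 ≤ a → a < p → Ep a q ≠ 0 := by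
  unfold Gp
  rw [Finset.prod_ne_zero_iff]
  constructor
  · intro h a h1 h2
    exact h a (Finset.mem_Ico.2 ⟨h1, h2⟩)
  · intro h a ha
    obtain ⟨h1, h2⟩ := Finset.mem_Ico.1 ha
    exact h a h1 h2

/-- periods -/
theorem ep_dvd {d : ℕ} {u : Fin (2 * d) → ℂ} (hu : u ∈ U₀ d) {ζ : ℂ} {p : ℕ}
    (hp : 1 ≤ p) (h0 : Ep p (u, ζ) = 0) (hmin : ∀ a : ℕ, 1 ≤ a → a < p → Ep a (u, ζ) ≠ 0) {m : ℕ}
    (hm : Ep m (u, ζ) = 0) : p ∣ m := by
  have hne : ∀ N : ℕ, (hF (fam u))^[N] (ζ, 1) ≠ 0 := fun N => hu.1.iter_ne N (one_ne ζ)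
  have h1 : ∀ j : ℕ, Ep (p * j) (u, ζ) = 0 := by
    intro j
    induction j with
    | zero => simp only [Ep, mul_zero, Function.iterate_zero, id, cr_self]
    | succ j ih =>
      unfold Ep at ih h0 ⊢
      simp only at ih h0 ⊢
      have h2 := cr_iter (fam u) p (hne (p * j)) (one_ne ζ) ih
      rw [← Function.iterate_add_apply] at h2
      have h3 : p * (j + 1) = p + p * j := by ring
      rw [h3]
      exact cr_trans (hne p) h2 h0
  by_contra hcon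
  have hr0 : 0 < m % p := Nat.pos_of_ne_zero fun h => hcon (Nat.dvd_of_mod_eq_zero h)
  apply hmin (m % p) hr0 (Nat.mod_lt _ (by omega))
  have h4 := h1 (m / p)
  unfold Ep at h4 hm ⊢
  simp only at h4 hm ⊢
  have h5 := cr_iter (fam u) (m % p) (hne (p * (m / p))) (one_ne ζ) h4
  rw [← Function.iterate_add_apply, Nat.mod_add_div] at h5
  have h6 : cr ((hF (fam u))^[m % p] (ζ, 1)) ((hF (fam u))^[m] (ζ, 1)) = 0 := by
    rw [cr_comm, h5, neg_zero]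
  exact cr_trans (hne m) h6 hm

/-- superattracting cycles can be marked -/
theorem mk_crit {d : ℕ} (hd : 2 ≤ d) {u : Fin (2 * d) → ℂ} (hu : u ∈ U₀ d) {ζ : ℂ}
    (hw : wr (fam u) (ζ, 1) = 0) {p : ℕ} (hp : 1 ≤ p) (h0 : Ep p (u, ζ) = 0)
    (hmin : ∀ a : ℕ, 1 ≤ a → a < p → Ep a (u, ζ) ≠ 0) :
    ∃ S : Sys d (2 * d) 1, (∀ x ∈ S.U, S.co x = fam x) ∧ u ∈ S.U ∧ S.per 0 = p ∧
      S.b 0 u = ζ := by
  have hne : ∀ N : ℕ, (hF (fam u))^[N] (ζ, 1) ≠ 0 := fun N => hu.1.iter_ne N (one_ne ζ)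
  have h2 : ((hF (fam u))^[p] (ζ, 1)).2 ≠ 0 := by
    intro h2
    unfold Ep cr at h0
    simp only [h2, mul_one, zero_mul, sub_zero] at h0
    exact hne p (Prod.ext h0 h2)
  have hMk : Mk u 1 (fun _ => p) (fun _ => ζ) := by
    refine ⟨hu, fun _ => hp, fun _ => h0, fun _ => ?_, ?_⟩
    · rw [rt_deriv_zero hd (fam u) p hp ζ hw h2, norm_zero]
      exact one_pos
    · intro k k' m hm
      exact ⟨Subsingleton.elim _ _, ep_dvd hu hp h0 hmin hm⟩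
  obtain ⟨S, h3, h4, h5, h6⟩ := mk_sys hd hMk
  exact ⟨S, h3, h4, h5 0, h6 0⟩

theorem inC_base {d n s : ℕ} (S : Sys d n s) (k : Fin s) (x : Fin n → ℂ) {ζ : ℂ}
    (h : S.b k x = ζ) : S.InC k x (ζ, 1) := by
  refine ⟨1, 0, one_ne_zero, by rw [norm_zero]; exact S.hr₀ k, ?_⟩
  unfold Sys.cht
  rw [one_smul, add_zero, h]

theorem qp_open {d : ℕ} (hd : 2 ≤ d) {q : (Fin (2 * d) → ℂ) × ℂ} (hu : q.1 ∈ U₀ d)
    (hw : wr (fam q.1) (q.2, 1) = 0) {p : ℕ} (hp : 1 ≤ p) (h0 : Ep p q = 0) (h1 : Gp p q ≠ 0) :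
    ∀ᶠ q' in 𝓝 q, Qp p q' := by
  obtain ⟨S, h3, h4, h5, h6⟩ := mk_crit hd hu hw hp h0 (gp_ne.1 h1)
  have h7 := KOE.ev_inC S 0 0 (q := (q.1, (q.2, 1))) h4 (inC_base S 0 q.1 h6)
  have hc : Tendsto (fun q' : (Fin (2 * d) → ℂ) × ℂ => (q'.1, ((q'.2, 1) : ℂ × ℂ))) (𝓝 q)
      (𝓝 (q.1, (q.2, 1))) :=
    (continuous_fst.prodMk (continuous_snd.prodMk continuous_const)).tendsto q
  have h8 : ∀ᶠ q' : (Fin (2 * d) → ℂ) × ℂ in 𝓝 q, q'.1 ∈ S.U :=
    continuous_fst.continuousAt.eventually_mem (S.hU.mem_nhds h4)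
  filter_upwards [hc.eventually h7, h8] with q' a1 a2
  exact ⟨S, h3, a2, h5, a1⟩

theorem qp_clopen {d : ℕ} (hd : 2 ≤ d) {q : (Fin (2 * d) → ℂ) × ℂ} (hu : q.1 ∈ U₀ d)
    (hw : wr (fam q.1) (q.2, 1) = 0) {p : ℕ} (hp : 1 ≤ p) (h0 : Ep p q = 0) (h1 : Gp p q = 0) :
    ∀ᶠ q' in 𝓝 q, Ep p q' = 0 → Gp p q' = 0 := by
  classical
  have hex : ∃ a : ℕ, 1 ≤ a ∧ Ep a q = 0 := ⟨p, hp, h0⟩
  obtain ⟨r, hr⟩ : ∃ r, r = Nat.find hex := ⟨_, rfl⟩
  have hr1 : 1 ≤ r ∧ Ep r q = 0 := by rw [hr]; exact Nat.find_spec hex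
  have hmin : ∀ a : ℕ, 1 ≤ a → a < r → Ep a q ≠ 0 := by
    intro a ha har h
    rw [hr] at har
    exact Nat.find_min hex har ⟨ha, h⟩
  have hrp : r ∣ p := ep_dvd hu hr1.1 hr1.2 hmin h0
  have hrlt : r < p := by
    by_contra hcon
    push Not at hcon
    have h2 : Gp p q ≠ 0 := gp_ne.2 fun a ha hap => hmin a ha (by omega)
    exact h2 h1
  obtain ⟨S, h3, h4, h5, h6⟩ := mk_crit hd hu hw hr1.1 hr1.2 hmin
  have h7 := KOE.ev_inC S 0 0 (q := (q.1, (q.2, 1))) h4 (inC_base S 0 q.1 h6)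
  have hc : Tendsto (fun q' : (Fin (2 * d) → ℂ) × ℂ => (q'.1, ((q'.2, 1) : ℂ × ℂ))) (𝓝 q)
      (𝓝 (q.1, (q.2, 1))) :=
    (continuous_fst.prodMk (continuous_snd.prodMk continuous_const)).tendsto q
  have h8 : ∀ᶠ q' : (Fin (2 * d) → ℂ) × ℂ in 𝓝 q, q'.1 ∈ S.U :=
    continuous_fst.continuousAt.eventually_mem (S.hU.mem_nhds h4)
  filter_upwards [hc.eventually h7, h8] with q' a1 a2 hE
  obtain ⟨u, ζ⟩ := q'
  have a1 : S.InC 0 u (ζ, 1) := a1
  have a2 : u ∈ S.U := a2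
  obtain ⟨a, z, ha, hz, he⟩ := a1
  have hFF : S.F u = hF (fam u) := by
    unfold Sys.F
    rw [h3 u a2]
  have huU : u ∈ U₀ d := by
    have h9 := S.nd _ a2
    have h10 := S.hwr _ a2
    rw [h3 u a2] at h9 h10
    exact ⟨h9, h10⟩
  have hne : ∀ N : ℕ, (hF (fam u))^[N] (ζ, 1) ≠ 0 := fun N => huU.1.iter_ne N (one_ne ζ)
  -- the point in the chart
  have ha1 : a = 1 := by
    have := congrArg Prod.snd he
    simp only [Sys.cht, Prod.smul_snd, smul_eq_mul, mul_one] at this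
    exact this.symm
  have hzb : ζ = S.b 0 u + z := by
    have := congrArg Prod.fst he
    simp only [Sys.cht, Prod.smul_fst, smul_eq_mul, ha1, one_mul] at this
    exact this
  obtain ⟨l, hl⟩ := hrp
  have hl0 : 0 < l := by
    rcases Nat.eq_zero_or_pos l with h | h
    · rw [h, mul_zero] at hl; omega
    · exact h
  -- the iterates
  have hper : ∀ j : ℕ, Ep (p * j) (u, ζ) = 0 := by
    intro j
    induction j with
    | zero => simp only [Ep, mul_zero, Function.iterate_zero, id, cr_self]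
    | succ j ih =>
      unfold Ep at ih hE ⊢
      simp only at ih hE ⊢
      have h2 := cr_iter (fam u) p (hne (p * j)) (one_ne ζ) ih
      rw [← Function.iterate_add_apply] at h2
      have h9 : p * (j + 1) = p + p * j := by ring
      rw [h9]
      exact cr_trans (hne p) h2 hE
  have hzle : ∀ j : ℕ, ‖z‖ ≤ S.θ ^ (l * j) * S.r₀ 0 := by
    intro j
    obtain ⟨a', z', ha', hz', hzq, he'⟩ := IN.iter S a2 0 ha hz he (l * j)
    have h9 : S.per 0 * (l * j) = p * j := by rw [h5, hl]; ring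
    rw [h9, hFF] at he'
    have h10 := hper j
    unfold Ep at h10
    simp only at h10
    rw [he', cr_smul_left] at h10
    have h11 := (mul_eq_zero.1 h10).resolve_left ha'
    have h12 : z' = z := by
      unfold Sys.cht cr at h11
      simp only [mul_one, one_mul] at h11
      rw [hzb] at h11
      linear_combination h11
    rw [← h12]
    exact hzq
  have hz0 : z = 0 := by
    have hlim : Tendsto (fun j : ℕ => S.θ ^ (l * j) * S.r₀ 0) atTop (𝓝 0) := by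
      have h9 : Tendsto (fun j : ℕ => l * j) atTop atTop := tendsto_id.const_mul_atTop' hl0
      have := ((tendsto_pow_atTop_nhds_zero_of_lt_one S.hθ0 S.hθ).comp h9).mul_const (S.r₀ 0)
      simpa using this
    exact norm_le_zero_iff.1 (ge_of_tendsto' hlim hzle)
  have hEr : Ep r (u, ζ) = 0 := by
    obtain ⟨a', z', ha', hz', h9⟩ := S.contr u a2 0 0 (by simpa using S.hr₀ 0)
    rw [norm_zero, mul_zero] at hz'
    have h10 : z' = 0 := norm_le_zero_iff.1 hz'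
    rw [h10, h5, h3 u a2] at h9
    unfold Ep
    simp only
    have h11 : ζ = S.b 0 u + 0 := by rw [hzb, hz0]
    rw [h11, h9, cr_smul_left, cr_self, mul_zero]
  by_contra hcon
  exact gp_ne.1 hcon r hr1.1 hrlt hEr

/-- points in new cycles are not attracted to the marked ones -/
theorem qp_na {d s : ℕ} (S : Sys d (2 * d) s) (hco : ∀ x ∈ S.U, S.co x = fam x) {p : ℕ}
    (hp : ∀ k, S.per k < p) {u : Fin (2 * d) → ℂ} (hu : u ∈ S.U) {ζ : ℂ} (h : Qp p (u, ζ)) :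
    ¬ At S (u, (ζ, 1)) := by
  rintro ⟨k, m, hm⟩
  obtain ⟨S₁, h3, h4, h5, h6⟩ := h
  have h4 : u ∈ S₁.U := h4
  have c1 := cap_of_inC S hu (c := ((ζ : ℂ) : OnePoint ℂ)) hm
  have c2 := cap_of_inC S₁ h4 (c := ((ζ : ℂ) : OnePoint ℂ)) (k := 0) (m := 0) h6
  have hcont : Continuous (sp (fam u)) := by
    have := S.nd u hu
    rw [hco u hu] at this
    exact sp_cont' S.hd this
  rw [hco u hu] at c1
  rw [h3 u h4] at c2
  have s1 := sink_base S hu k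
  have s2 := sink_base S₁ h4 0
  rw [hco u hu] at s1
  rw [h3 u h4] at s2
  obtain ⟨j, hj⟩ := same_cycle hcont (S₁.hper 0) s2.2.1 (S.hper k) c2 c1
  have h7 : (sp (fam u))^[S.per k] ((S₁.b 0 u : ℂ) : OnePoint ℂ) = ((S₁.b 0 u : ℂ) : OnePoint ℂ) := by
    rw [hj, ← Function.iterate_add_apply, add_comm, Function.iterate_add_apply, s1.2.1]
  have h8 := base_rel S₁ h4 (k := 0) (k' := 0) (m := S.per k) (by rw [h3 u h4]; exact h7)
  rw [h5] at h8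
  have h9 := Nat.le_of_dvd (S.hper k) h8.2
  have h10 := hp k
  omega

/-- the gap lemma, topological part -/
theorem gap_top {X : Type} [TopologicalSpace X] [T2Space X] {K : Set X} (hK : IsCompact K)
    {f g : X → ℂ} (hf : ContinuousOn f K) (hg : ContinuousOn g K) {Q : X → Prop}
    (h1 : ∀ p ∈ K, f p = 0 → g p = 0 → ∀ᶠ p' in 𝓝[K] p, f p' = 0 → g p' = 0)
    (h2 : ∀ p ∈ K, f p = 0 → g p ≠ 0 → ∀ᶠ p' in 𝓝[K] p, Q p') :
    ∃ ε δ : ℝ, 0 < ε ∧ 0 < δ ∧ ∀ p ∈ K, (f p = 0 → g p ≠ 0 → 2 * δ ≤ ‖g p‖) ∧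
      (‖f p‖ ≤ ε → (δ ≤ ‖g p‖ ∨ ‖g p‖ < δ / 2) ∧ (δ ≤ ‖g p‖ → Q p)) := by
  obtain ⟨Z, hZ⟩ : ∃ Z : Set X, Z = {p | p ∈ K ∧ f p = 0 ∧ g p ≠ 0} := ⟨_, rfl⟩
  have hZc : IsCompact Z := by
    refine hK.of_isClosed_subset ?_ (by rw [hZ]; exact fun p hp => hp.1)
    rw [← isOpen_compl_iff, isOpen_iff_mem_nhds]
    intro p hp
    by_cases hpK : p ∈ K
    · by_cases hf0 : f p = 0
      · have hg0 : g p = 0 := by
          by_contra hg0
          apply hp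
          rw [hZ]
          exact ⟨hpK, hf0, hg0⟩
        filter_upwards [eventually_nhdsWithin_iff.1 (h1 p hpK hf0 hg0)] with p' h3 h4
        rw [hZ] at h4
        exact h4.2.2 (h3 h4.1 h4.2.1)
      · have h3 : ∀ᶠ p' in 𝓝[K] p, f p' ≠ 0 := (hf p hpK).eventually_ne hf0
        filter_upwards [eventually_nhdsWithin_iff.1 h3] with p' h3 h4
        rw [hZ] at h4
        exact h3 h4.1 h4.2.1
    · filter_upwards [hK.isClosed.isOpen_compl.mem_nhds hpK] with p' h3 h4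
      rw [hZ] at h4
      exact h3 h4.1
  obtain ⟨δ, hδ, hδle⟩ : ∃ δ : ℝ, 0 < δ ∧ ∀ p ∈ Z, 2 * δ ≤ ‖g p‖ := by
    rcases Z.eq_empty_or_nonempty with he | hne
    · exact ⟨1, one_pos, by rw [he]; simp⟩
    · have hgc : ContinuousOn (fun p => ‖g p‖) Z := (hg.mono (by rw [hZ]; exact fun p hp => hp.1)).norm
      obtain ⟨p, hp, hmin⟩ := hZc.exists_isMinOn hne hgc
      have hp' := hp
      rw [hZ] at hp'
      have h3 : 0 < ‖g p‖ := norm_pos_iff.2 hp'.2.2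
      refine ⟨‖g p‖ / 2, half_pos h3, fun p' hp' => ?_⟩
      have := hmin hp'
      simp only [mem_ofPred_eq] at this
      linarith
  have key : ∃ ε : ℝ, 0 < ε ∧ ∀ p ∈ K, ‖f p‖ ≤ ε →
      (δ ≤ ‖g p‖ ∨ ‖g p‖ < δ / 2) ∧ (δ ≤ ‖g p‖ → Q p) := by
    have h3 : ∃ ε : ℝ, 0 < ε ∧ ∀ p ∈ K ∩ K, ‖f p‖ ≤ ε →
        (δ ≤ ‖g p‖ ∨ ‖g p‖ < δ / 2) ∧ (δ ≤ ‖g p‖ → Q p) := by
      refine hK.induction_on (p := fun s => ∃ ε : ℝ, 0 < ε ∧ ∀ p ∈ s ∩ K, ‖f p‖ ≤ ε →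
        (δ ≤ ‖g p‖ ∨ ‖g p‖ < δ / 2) ∧ (δ ≤ ‖g p‖ → Q p)) ?_ ?_ ?_ ?_
      · exact ⟨1, one_pos, fun p hp => absurd hp.1 (notMem_empty p)⟩
      · rintro s t hst ⟨ε, hε, h⟩
        exact ⟨ε, hε, fun p hp => h p ⟨hst hp.1, hp.2⟩⟩
      · rintro s t ⟨ε, hε, h⟩ ⟨ε', hε', h'⟩
        refine ⟨min ε ε', lt_min hε hε', fun p hp hle => ?_⟩
        rcases hp.1 with h3 | h3
        · exact h p ⟨h3, hp.2⟩ (hle.trans (min_le_left _ _))
        · exact h' p ⟨h3, hp.2⟩ (hle.trans (min_le_right _ _))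
      · intro p hp
        by_cases hf0 : f p = 0
        · by_cases hg0 : g p = 0
          · have h3 : ∀ᶠ p' in 𝓝[K] p, ‖g p'‖ < δ / 2 := by
              refine (hg p hp).norm.eventually_lt continuousWithinAt_const ?_
              show ‖g p‖ < δ / 2
              rw [hg0, norm_zero]
              exact half_pos hδ
            refine ⟨{p' | ‖g p'‖ < δ / 2}, h3, 1, one_pos, fun p' hp' _ => ?_⟩
            have h4 : ‖g p'‖ < δ / 2 := hp'.1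
            exact ⟨Or.inr h4, fun h5 => absurd h5 (by linarith)⟩
          · have h3 : ∀ᶠ p' in 𝓝[K] p, δ < ‖g p'‖ := by
              refine continuousWithinAt_const.eventually_lt (hg p hp).norm ?_
              have := hδle p (by rw [hZ]; exact ⟨hp, hf0, hg0⟩)
              linarith
            refine ⟨{p' | δ < ‖g p'‖ ∧ Q p'}, h3.and (h2 p hp hf0 hg0), 1, one_pos,
              fun p' hp' _ => ?_⟩
            have h4 : δ < ‖g p'‖ ∧ Q p' := hp'.1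
            exact ⟨Or.inl h4.1.le, fun _ => h4.2⟩
        · have h3 : 0 < ‖f p‖ := norm_pos_iff.2 hf0
          have h4 : ∀ᶠ p' in 𝓝[K] p, ‖f p‖ / 2 < ‖f p'‖ :=
            continuousWithinAt_const.eventually_lt (hf p hp).norm (by linarith)
          refine ⟨{p' | ‖f p‖ / 2 < ‖f p'‖}, h4, ‖f p‖ / 2, half_pos h3, fun p' hp' hle => ?_⟩
          have h5 : ‖f p‖ / 2 < ‖f p'‖ := hp'.1
          linarith
    obtain ⟨ε, hε, h⟩ := h3
    exact ⟨ε, hε, fun p hp => h p ⟨hp, hp⟩⟩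
  obtain ⟨ε, hε, h⟩ := key
  exact ⟨ε, δ, hε, hδ, fun p hp => ⟨fun h3 h4 => hδle p (by rw [hZ]; exact ⟨hp, h3, h4⟩), h p hp⟩⟩

/-- the gap property -/
def Gap {d : ℕ} (C : Set (Fin (2 * d) → ℂ)) (c₀ : ℂ) (ρ : ℝ) (p : ℕ) (ε δ : ℝ) : Prop :=
  0 < ε ∧ 0 < δ ∧ ∀ u ∈ C, ∀ ζ : ℂ, wr (fam u) (ζ, 1) = 0 → ‖ζ - c₀‖ ≤ ρ →
    (Ep p (u, ζ) = 0 → Gp p (u, ζ) ≠ 0 → 2 * δ ≤ ‖Gp p (u, ζ)‖) ∧
    (‖Ep p (u, ζ)‖ ≤ ε → (δ ≤ ‖Gp p (u, ζ)‖ ∨ ‖Gp p (u, ζ)‖ < δ / 2) ∧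
      (δ ≤ ‖Gp p (u, ζ)‖ → Qp p (u, ζ)))

theorem gap_exists {d : ℕ} (hd : 2 ≤ d) {C : Set (Fin (2 * d) → ℂ)} (hC : IsCompact C)
    (hCU : C ⊆ U₀ d) (c₀ : ℂ) (ρ : ℝ) {p : ℕ} (hp : 1 ≤ p) : ∃ ε δ : ℝ, Gap C c₀ ρ p ε δ := by
  obtain ⟨K, hK⟩ : ∃ K : Set ((Fin (2 * d) → ℂ) × ℂ),
    K = {q | q ∈ C ×ˢ closedBall c₀ ρ ∧ wr (fam q.1) (q.2, 1) = 0} := ⟨_, rfl⟩
  have hwc : Continuous fun q : (Fin (2 * d) → ℂ) × ℂ => wr (fam q.1) (q.2, 1) := by
    rw [← continuousOn_univ]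
    exact Pool.Agent.H790R3.RB.CPT.wr_cont ((fam_cont hd).comp continuous_fst).continuousOn
      (Continuous.continuousOn (by fun_prop))
  have hKc : IsCompact K := by
    have e : K = (C ×ˢ closedBall c₀ ρ) ∩ {q | wr (fam q.1) (q.2, 1) = 0} := by
      rw [hK]
      ext q
      simp
    rw [e]
    exact (hC.prod (isCompact_closedBall _ _)).inter_right (isClosed_eq hwc continuous_const)
  have hmem : ∀ q ∈ K, q.1 ∈ U₀ d ∧ wr (fam q.1) (q.2, 1) = 0 := by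
    intro q hq
    rw [hK] at hq
    exact ⟨hCU hq.1.1, hq.2⟩
  obtain ⟨ε, δ, hε, hδ, h⟩ := gap_top hKc (ep_cont hd p).continuousOn (gp_cont hd p).continuousOn
    (Q := Qp p)
    (fun q hq h0 h1 => eventually_nhdsWithin_of_eventually_nhds
      (qp_clopen hd (hmem q hq).1 (hmem q hq).2 hp h0 h1))
    (fun q hq h0 h1 => eventually_nhdsWithin_of_eventually_nhds
      (qp_open hd (hmem q hq).1 (hmem q hq).2 hp h0 h1))
  refine ⟨ε, δ, hε, hδ, fun u hu ζ hw hζ => h (u, ζ) ?_⟩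
  rw [hK]
  refine ⟨⟨hu, ?_⟩, hw⟩
  rw [mem_closedBall, dist_eq_norm]
  exact hζ

end Pool.Agent.Zk23
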