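import Mathlib
import Pool.Agent.Zk23.NCP

/-! All free critical points in new cycles, part 8: generic perturbations. -/

set_option autoImplicit false
set_option linter.unusedVariables false

open Topology Filter Metric Set MeasureTheory
open Pool.Agent.H790R3.RB (CV hF cr ND wr rt Ix yx yc sp pr yx_diff yc_diff hF_iter_smul hF_smul
  cr_smul_left cr_smul_right cr_self cr_iter cr_eq_zero_iff cr_comm cr_trans Sink Attd)
open Pool.Agent.W757.RD

namespace Pool.Agent.Zk23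

/-- post-composition with a translation -/
noncomputable def shf {d : ℕ} (u : Fin (2 * d) → ℂ) (ε : ℂ) : Fin (2 * d) → ℂ := fun i =>
  u i + ε * if h : (i : ℕ) < d then u ⟨d + i, by omega⟩ else 0

theorem fam_shf {d : ℕ} (u : Fin (2 * d) → ℂ) (ε : ℂ) (j : Fin (d + 1)) :
    fam (shf u ε) (0, j) = fam u (0, j) + ε * fam u (1, j) ∧
      fam (shf u ε) (1, j) = fam u (1, j) := by
  have h00 : ((0 : Fin 2) : ℕ) = 0 := rfl
  have h11 : ((1 : Fin 2) : ℕ) = 1 := rfl
  by_cases hj : (j : ℕ) < d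
  · constructor
    · simp only [fam, hj, dif_pos, h00, h11, shf, zero_mul, zero_add, one_mul]
    · simp only [fam, hj, dif_pos, h11, shf, one_mul]
      rw [dif_neg (by omega), mul_zero, add_zero]
  · constructor
    · simp [fam, hj]
    · simp [fam, hj]

theorem hF_shf {d : ℕ} (u : Fin (2 * d) → ℂ) (ε : ℂ) (p : ℂ × ℂ) :
    hF (fam (shf u ε)) p = ((hF (fam u) p).1 + ε * (hF (fam u) p).2, (hF (fam u) p).2) := by
  unfold hF
  ext
  · simp only
    rw [Finset.mul_sum, ← Finset.sum_add_distrib]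
    refine Finset.sum_congr rfl fun j _ => ?_
    rw [(fam_shf u ε j).1]
    ring
  · simp only
    refine Finset.sum_congr rfl fun j _ => ?_
    rw [(fam_shf u ε j).2]

theorem wr_shf {d : ℕ} (u : Fin (2 * d) → ℂ) (ε : ℂ) (p : ℂ × ℂ) :
    wr (fam (shf u ε)) p = wr (fam u) p := by
  unfold wr
  have e1 : ∀ w : Fin (d + 1) → ℂ, ∑ j : Fin (d + 1), fam (shf u ε) (0, j) * w j =
      ∑ j : Fin (d + 1), fam u (0, j) * w j + ε * ∑ j : Fin (d + 1), fam u (1, j) * w j := by
    intro w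
    rw [Finset.mul_sum, ← Finset.sum_add_distrib]
    refine Finset.sum_congr rfl fun j _ => ?_
    rw [(fam_shf u ε j).1]
    ring
  have e2 : ∀ w : Fin (d + 1) → ℂ, ∑ j : Fin (d + 1), fam (shf u ε) (1, j) * w j =
      ∑ j : Fin (d + 1), fam u (1, j) * w j := by
    intro w
    refine Finset.sum_congr rfl fun j _ => ?_
    rw [(fam_shf u ε j).2]
  rw [e1, e1, e2, e2]
  ring

theorem shf_cont {d : ℕ} (u : Fin (2 * d) → ℂ) : Continuous (shf u) := by
  refine continuous_pi fun i => ?_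
  unfold shf
  exact continuous_const.add (continuous_id.mul continuous_const)

theorem shf_zero {d : ℕ} (u : Fin (2 * d) → ℂ) : shf u 0 = u := by
  funext i
  simp [shf]

/-- configurations with simple critical points without relations -/
theorem startq {d s : ℕ} (S : Sys d (2 * d) s) (hco : ∀ x ∈ S.U, S.co x = fam x)
    {y₀ : Ix d (2 * d) s → ℂ} (hU : yx y₀ ∈ S.U) (hE : ∀ j, S.Er j y₀ = 0) {q : ℕ} (hq : 1 ≤ q)
    {P : (Ix d (2 * d) s → ℂ) → Prop} (hP : ∀ᶠ y in 𝓝 y₀, P y) :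
    ∃ z : Ix d (2 * d) s → ℂ, P z ∧ (∀ k, ys z k = ys y₀ k) ∧ (∀ j, S.Er j z = 0) ∧
      Function.Injective (yc z) ∧ yx z ∈ S.U ∧ (∀ i, Ep q (yx z, yc z i) ≠ 0) ∧
      ∀ i i', cr (hF (fam (yx z)) (yc z i, 1)) (yc z i', 1) ≠ 0 := by
  have hd := S.hd
  have hu₀ : yx y₀ ∈ U₀ d := by
    have h1 := hco _ hU
    exact ⟨by rw [← h1]; exact S.nd _ hU, by rw [← h1]; exact S.hwr _ hU⟩
  have hcl : ∀ ζ : ℂ, wr (fam (yx y₀)) (ζ, 1) = wr (fam (yx y₀)) (1, 0) * ∏ i, (ζ - yc y₀ i) := by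
    have := p_ER d (2 * d) s S y₀ hE
    rwa [hco _ hU] at this
  obtain ⟨δ, hδ, hball⟩ := Metric.eventually_nhds_iff.1 hP
  obtain ⟨ρ, hρ, hm⟩ := Metric.eventually_nhds_iff.1
    ((match_roots hd hu₀ (yc y₀) hcl δ hδ).and (S.hU.mem_nhds hU))
  obtain ⟨u, hu, hw, ⟨c, hc, hfac⟩, hgn⟩ := p_GENX d (yx y₀) q hd hq (min δ ρ) (lt_min hδ hρ)
  -- the translation
  have hcrit : ∀ i, wr (fam u) (c i, 1) = 0 := by
    intro i
    rw [hfac, Finset.prod_eq_zero (Finset.mem_univ i) (sub_self _), mul_zero]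
  have hsc : Tendsto (shf u) (𝓝 0) (𝓝 u) := by
    have := (shf_cont u).tendsto 0
    rwa [shf_zero] at this
  have e1 : ∀ᶠ ε in 𝓝 (0 : ℂ), ‖shf u ε - yx y₀‖ < min δ ρ := by
    have c1 : Continuous fun x : Fin (2 * d) → ℂ => ‖x - yx y₀‖ :=
      (continuous_id.sub continuous_const).norm
    exact hsc.eventually (c1.continuousAt.eventually_lt continuousAt_const hu)
  have e2 : ∀ᶠ ε in 𝓝 (0 : ℂ), ∀ i, Ep q (shf u ε, c i) ≠ 0 := by
    refine eventually_all.2 fun i => ?_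
    have h1 : Tendsto (fun ε => Ep q (shf u ε, c i)) (𝓝 0) (𝓝 (Ep q (u, c i))) := by
      have h2 : Continuous fun ε : ℂ => Ep q (shf u ε, c i) :=
        (ep_cont hd q).comp ((shf_cont u).prodMk continuous_const)
      have h3 := h2.tendsto 0
      rwa [shf_zero] at h3
    exact h1.eventually_ne (hgn (c i, 1) (one_ne _) (hcrit i))
  have e3 : ∀ᶠ ε in 𝓝[≠] (0 : ℂ), ∀ i i',
      cr (hF (fam (shf u ε)) (c i, 1)) (c i', 1) ≠ 0 := by
    refine eventually_all.2 fun i => eventually_all.2 fun i' => ?_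
    have h1 : ∀ ε : ℂ, cr (hF (fam (shf u ε)) (c i, 1)) (c i', 1) =
        cr (hF (fam u) (c i, 1)) (c i', 1) + ε * (hF (fam u) (c i, 1)).2 := by
      intro ε
      rw [hF_shf]
      unfold cr
      ring
    by_cases hA : cr (hF (fam u) (c i, 1)) (c i', 1) = 0
    · filter_upwards [self_mem_nhdsWithin] with ε hε
      have hε : ε ≠ 0 := hε
      rw [h1, hA, zero_add]
      refine mul_ne_zero hε fun h2 => ?_
      have hU0 : (hF (fam u) (c i, 1)) ≠ 0 := by
        intro h0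
        have h3 := hgn (c i, 1) (one_ne _) (hcrit i)
        apply h3
        obtain ⟨q', rfl⟩ : ∃ q', q = q' + 1 := ⟨q - 1, by omega⟩
        rw [Function.iterate_succ_apply, h0]
        have h4 : (hF (fam u))^[q'] (0 : ℂ × ℂ) = 0 := by
          have h5 := hF_iter_smul (fam u) q' 0 (0 : ℂ × ℂ)
          rw [smul_zero] at h5
          have h6 : d ^ q' ≠ 0 := pow_ne_zero _ (by omega)
          rw [zero_pow h6, zero_smul] at h5
          exact h5
        rw [h4]
        unfold cr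
        simp
      apply hU0
      unfold cr at hA
      rw [h2, zero_mul, sub_zero, mul_one] at hA
      exact Prod.ext hA h2
    · have h2 : Continuous fun ε : ℂ => cr (hF (fam (shf u ε)) (c i, 1)) (c i', 1) := by
        simp only [h1]
        fun_prop
      refine eventually_nhdsWithin_of_eventually_nhds (h2.continuousAt.eventually_ne ?_)
      rw [h1, zero_mul, add_zero]
      exact hA
  obtain ⟨ε, ⟨a1, a2⟩, a3⟩ := ((eventually_nhdsWithin_of_eventually_nhds (e1.and e2)).and e3 :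
    ∀ᶠ ε in 𝓝[≠] (0 : ℂ), _).exists
  have hfac' : ∀ ζ : ℂ, wr (fam (shf u ε)) (ζ, 1) =
      wr (fam (shf u ε)) (1, 0) * ∏ i, (ζ - c i) := by
    intro ζ
    rw [wr_shf, wr_shf]
    exact hfac ζ
  obtain ⟨b1, b2⟩ := hm (y := shf u ε) (by
    rw [dist_eq_norm]
    exact a1.trans_le (min_le_right _ _))
  obtain ⟨π, hπ⟩ := b1 c hfac'
  refine ⟨Sum.elim (shf u ε) (Sum.elim (fun i => c (π i)) fun k => ys y₀ k), ?_, fun k => rfl, ?_,
    ?_, b2, fun i => a2 (π i), fun i i' => a3 (π i) (π i')⟩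
  · apply hball
    rw [dist_pi_lt_iff hδ]
    rintro (i | i | i)
    · rw [dist_eq_norm]
      exact lt_of_le_of_lt (norm_le_pi_norm (shf u ε - yx y₀) i) (a1.trans_le (min_le_left _ _))
    · rw [dist_eq_norm]
      exact hπ i
    · rw [dist_eq_norm]
      show ‖ys y₀ i - y₀ (Sum.inr (Sum.inr i))‖ < δ
      unfold ys
      rw [sub_self, norm_zero]
      exact hδ
  · intro j
    show wr (S.co (shf u ε)) (((j : ℕ) : ℂ), 1) - wr (S.co (shf u ε)) (1, 0) *
      ∏ i : Fin (2 * d - 2), (((j : ℕ) : ℂ) - c (π i)) = 0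
    rw [hco _ b2, hfac', Equiv.prod_comp π (fun i => ((j : ℕ) : ℂ) - c i), sub_self]
  · exact hc.comp π.injective

end Pool.Agent.Zk23
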