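import Mathlib
import Pool.Agent.Zk23.NCA
import Pool.Agent.Zk23.NCQ
import Pool.Agent.Zk23.ETS

/-! All free critical points in new cycles, part 9: the data of the construction. -/

set_option autoImplicit false
set_option linter.unusedVariables false

open Topology Filter Metric Set MeasureTheory
open Pool.Agent.H790R3.RB (CV hF cr ND wr rt Ix yx yc yx_diff yc_diff exists_low lsc_comp)
open Pool.Agent.W757.RD
open Pool.Agent.W440.RE.JT (prod_diff)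
open Pool.Agent.W402.RE.MINP (ys_diff DIprop exists_L)

namespace Pool.Agent.Zk23

/-- the values on small circles have continuous majorants with small means -/
def DP (W : ℂ → ℝ) : Prop :=
  ∃ ρ₀ : ℝ, 0 < ρ₀ ∧ ∀ ρ : ℝ, 0 < ρ → ρ < ρ₀ → ∃ h : ℝ → ℝ, Continuous h ∧
    (∀ θ, W (circleMap 0 ρ θ) ≤ h θ) ∧ ∫ θ in (0 : ℝ)..(2 * Real.pi), h θ ≤ 2 * Real.pi * W 0

theorem DP.sum {ι : Type} (s : Finset ι) {W : ι → ℂ → ℝ} (h : ∀ j ∈ s, DP (W j)) :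
    DP (fun t => ∑ j ∈ s, W j t) := by
  classical
  induction s using Finset.induction_on with
  | empty =>
    refine ⟨1, one_pos, fun ρ _ _ => ⟨fun _ => 0, continuous_const, fun θ => ?_, ?_⟩⟩
    · simp
    · simp
  | insert a s ha ih =>
    obtain ⟨ρ₁, hρ₁, h1⟩ := h a (Finset.mem_insert_self a s)
    obtain ⟨ρ₂, hρ₂, h2⟩ := ih (fun j hj => h j (Finset.mem_insert_of_mem hj))
    refine ⟨min ρ₁ ρ₂, lt_min hρ₁ hρ₂, fun ρ h0 hρ => ?_⟩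
    obtain ⟨g1, c1, l1, i1⟩ := h1 ρ h0 (hρ.trans_le (min_le_left _ _))
    obtain ⟨g2, c2, l2, i2⟩ := h2 ρ h0 (hρ.trans_le (min_le_right _ _))
    refine ⟨fun θ => g1 θ + g2 θ, c1.add c2, fun θ => ?_, ?_⟩
    · simp only [Finset.sum_insert ha]
      exact add_le_add (l1 θ) (l2 θ)
    · rw [intervalIntegral.integral_add (c1.intervalIntegrable _ _) (c2.intervalIntegrable _ _)]
      simp only [Finset.sum_insert ha, mul_add]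
      exact add_le_add i1 i2

theorem DP.mul {W : ℂ → ℝ} (h : DP W) {c : ℝ} (hc : 0 ≤ c) : DP (fun t => c * W t) := by
  obtain ⟨ρ₁, hρ₁, h1⟩ := h
  refine ⟨ρ₁, hρ₁, fun ρ h0 hρ => ?_⟩
  obtain ⟨g1, c1, l1, i1⟩ := h1 ρ h0 hρ
  refine ⟨fun θ => c * g1 θ, continuous_const.mul c1, fun θ => ?_, ?_⟩
  · exact mul_le_mul_of_nonneg_left (l1 θ) hc
  · rw [intervalIntegral.integral_const_mul]
    have := mul_le_mul_of_nonneg_left i1 hc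
    linarith

theorem lsc_mul {X : Type*} [TopologicalSpace X] {f : X → ℝ} {s : Set X}
    (h : LowerSemicontinuousOn f s) {c : ℝ} (hc : 0 < c) :
    LowerSemicontinuousOn (fun x => c * f x) s := by
  intro x hx y hy
  have hy : y < c * f x := hy
  have h1 : y / c < f x := by
    rw [div_lt_iff₀ hc]
    linarith [mul_comm c (f x)]
  filter_upwards [h x hx (y / c) h1] with x' hx'
  have hx' : y / c < f x' := hx'
  rw [div_lt_iff₀ hc] at hx'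
  show y < c * f x'
  linarith [mul_comm c (f x')]

theorem lsc_sum {X : Type*} [TopologicalSpace X] {ι : Type} (I : Finset ι) {f : ι → X → ℝ}
    {s : Set X} (h : ∀ i ∈ I, LowerSemicontinuousOn (f i) s) :
    LowerSemicontinuousOn (fun x => ∑ i ∈ I, f i x) s := by
  classical
  induction I using Finset.induction_on with
  | empty =>
    simp only [Finset.sum_empty]
    exact continuousOn_const.lowerSemicontinuousOn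
  | insert a I ha ih =>
    simp only [Finset.sum_insert ha]
    exact (h a (Finset.mem_insert_self a I)).add (ih fun i hi => h i (Finset.mem_insert_of_mem hi))

theorem ep_mul {d : ℕ} {u : Fin (2 * d) → ℂ} (hu : u ∈ U₀ d) {ζ : ℂ} {p : ℕ}
    (h0 : Ep p (u, ζ) = 0) {q : ℕ} (hpq : p ∣ q) : Ep q (u, ζ) = 0 := by
  obtain ⟨j, rfl⟩ := hpq
  have hne : ∀ N : ℕ, (hF (fam u))^[N] (ζ, 1) ≠ 0 := fun N => hu.1.iter_ne N (one_ne ζ)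
  induction j with
  | zero => simp only [Ep, mul_zero, Function.iterate_zero, id, Pool.Agent.H790R3.RB.cr_self]
  | succ j ih =>
    unfold Ep at ih h0 ⊢
    simp only at ih h0 ⊢
    have h2 := Pool.Agent.H790R3.RB.cr_iter (fam u) p (hne (p * j)) (one_ne ζ) ih
    rw [← Function.iterate_add_apply] at h2
    have h9 : p * (j + 1) = p + p * j := by ring
    rw [h9]
    exact Pool.Agent.H790R3.RB.cr_trans (hne p) h2 h0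

theorem ep_diff {d : ℕ} (hd : 2 ≤ d) (p : ℕ) : Differentiable ℂ (Ep (d := d) p) := by
  have h1 := hFf_diff hd p
  unfold Ep cr
  exact (h1.fst.mul (differentiable_const _)).sub (h1.snd.mul differentiable_snd)

/-- the relations as functions of the configuration -/
noncomputable def ey {d s m : ℕ} (σ : Fin m → Fin (2 * d - 2)) (p : ℕ) (j : Fin m)
    (y : Ix d (2 * d) s → ℂ) : ℂ := Ep p (yx y, yc y (σ j))

/-- the product of the relations of smaller periods -/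
noncomputable def gy {d s m : ℕ} (σ : Fin m → Fin (2 * d - 2)) (p : ℕ) (j : Fin m)
    (y : Ix d (2 * d) s → ℂ) : ℂ := Gp p (yx y, yc y (σ j))

/-- the images of the critical points -/
noncomputable def vy {d s m : ℕ} (σ : Fin m → Fin (2 * d - 2)) (j : Fin m)
    (y : Ix d (2 * d) s → ℂ) : ℂ :=
  ∏ i, cr (hF (fam (yx y)) (yc y i, 1)) (yc y (σ j), 1)

theorem ey_diff {d s m : ℕ} (hd : 2 ≤ d) (σ : Fin m → Fin (2 * d - 2)) (p : ℕ) (j : Fin m) :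
    Differentiable ℂ (ey (s := s) σ p j) := by
  unfold ey
  exact (ep_diff hd p).comp (yx_diff.prodMk (yc_diff (σ j)))

theorem gy_cont {d s m : ℕ} (hd : 2 ≤ d) (σ : Fin m → Fin (2 * d - 2)) (p : ℕ) (j : Fin m) :
    Continuous (gy (s := s) σ p j) := by
  unfold gy
  exact (gp_cont hd p).comp (yx_diff.continuous.prodMk (yc_diff (σ j)).continuous)

theorem vy_diff {d s m : ℕ} (hd : 2 ≤ d) (σ : Fin m → Fin (2 * d - 2)) (j : Fin m) :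
    Differentiable ℂ (vy (s := s) σ j) := by
  unfold vy
  rw [← differentiableOn_univ]
  apply prod_diff
  intro i _
  have h1 : Differentiable ℂ fun y : Ix d (2 * d) s → ℂ => hF (fam (yx y)) (yc y i, 1) := by
    have h2 := hFf_diff hd 1
    have h3 : Differentiable ℂ fun y : Ix d (2 * d) s → ℂ => (yx y, yc y i) :=
      yx_diff.prodMk (yc_diff i)
    exact h2.comp h3
  have h4 : Differentiable ℂ fun y : Ix d (2 * d) s → ℂ => ((yc y (σ j), 1) : ℂ × ℂ) :=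
    (yc_diff (σ j)).prodMk (differentiable_const _)
  unfold cr
  exact ((h1.fst.mul h4.snd).sub (h1.snd.mul h4.fst)).differentiableOn

/-- The data of the construction. -/
structure DatN (β : ℝ) (d m s : ℕ) where
  S : Sys d (2 * d) s
  KK : Fin s → (Fin (2 * d) → ℂ) × (ℂ × ℂ) → ℂ
  N : Set (Fin (2 * d) → ℂ)
  r : ℝ
  ω : Fin s → (Fin (2 * d) → ℂ) × ℂ → ℂ
  A : Finset (Pt d)
  ks : Pt d → Fin s
  ls : Pt d → ℕ
  ik : Fin s → Pt d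
  σ : Fin m → Fin (2 * d - 2)
  cl : Fin (2 * d - 2) → ℂ
  uf : Fin (2 * d) → ℂ
  W : Fin m → (Ix d (2 * d) s → ℂ) → ℝ
  L : ℕ
  Nt : ℕ
  Kc : ℝ
  ra : ℝ
  ρ : ℝ
  Dsp : ℝ
  M : ℝ
  f₀ : ℝ
  F₁ : ℝ
  Tm : ℕ
  x₀ : CV d
  c₀ : ℝ
  ε₀ : ℝ
  σ₀ : ℝ
  g₀ : ℝ
  η₁ : ℝ
  Mw : ℝ
  wN : ℝ
  N₀ : ℕ

namespace DatN

variable {β : ℝ} {d m s : ℕ} (D : DatN β d m s)

/-- the box -/
def bx : Set (Ix d (2 * d) s → ℂ) :=
  {y | ‖yx y - D.uf‖ ≤ (D.Tm + 2) * D.Dsp ∧ ∀ i, ‖yc y i - D.cl i‖ ≤ D.ρ}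

/-- the radii -/
noncomputable def rad (T : ℕ) : ℝ := D.ra * (1 + T / (D.Tm + 1))

/-- the positions -/
noncomputable def pv (i : Pt d) (y : Ix d (2 * d) s → ℂ) : ℂ :=
  D.KK (D.ks i) (yx y, (D.S.F (yx y))^[D.ls i] (pc y i, 1))

/-- the gap property -/
def gap (j : Fin m) (p : ℕ) (ε δ : ℝ) : Prop :=
  Gap (closedBall D.uf ((D.Tm + 2) * D.Dsp)) (D.cl (D.σ j)) D.ρ p ε δ

/-- The properties of the data. -/
structure Ok : Prop where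
  hβ1 : 1 / 2 < β
  hβ2 : β < 1
  card : D.A.card + m = 2 * d
  co : ∀ x ∈ D.S.U, D.S.co x = fam x
  koe : D.S.Koe D.KK
  lin : D.S.Lin D.KK D.N D.r D.ω
  lsp : ∀ i ∈ D.A, D.ls i < D.S.per (D.ks i)
  bA : ∀ j : Fin 2, Sum.inr j ∈ D.A
  σA : ∀ i : Fin (2 * d - 2), Sum.inl i ∉ D.A → ∃ j, D.σ j = i
  bN : ∀ x, ‖x - D.uf‖ ≤ (D.Tm + 2) * D.Dsp → x ∈ D.N
  Wnn : ∀ y ∈ D.bx, ∀ j, 0 ≤ D.W j y
  Wlsc : ∀ j, LowerSemicontinuousOn (D.W j) D.bx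
  Wprot : ∀ y, ‖yx y - D.uf‖ < (D.Tm + 2) * D.Dsp → ∀ j, D.W j y < 1 → ∀ᶠ z in 𝓝 y,
    ∀ k, ∀ i ≤ D.Nt + D.S.per k, ¬ D.S.InC k (yx z) ((D.S.F (yx z))^[i] (yc z (D.σ j), 1))
  Wdr : ∀ y, ‖yx y - D.uf‖ < (D.Tm + 2) * D.Dsp → ∀ j, ∀ η : ℝ, 0 < η → ∀ᶠ z in 𝓝 y,
    D.W j z < max (D.W j y) D.wN + η
  Wdisc : ∀ (τ : ℝ) (γ : ℂ → Ix d (2 * d) s → ℂ), 0 < τ → DifferentiableOn ℂ γ (ball 0 τ) →
    (∀ t ∈ ball (0 : ℂ) τ, ‖yx (γ t) - D.uf‖ < (D.Tm + 2) * D.Dsp ∧ ∀ j, D.S.Er j (γ t) = 0) →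
    ∀ j, vy D.σ j (γ 0) ≠ 0 → (∀ t ∈ ball (0 : ℂ) τ, ∀ p : ℕ, 1 ≤ p → ey D.σ p j (γ t) ≠ 0) →
    DP (fun t => D.W j (γ t))
  pos1 : ∀ y ∈ D.bx, ∀ i ∈ D.A, (yx y, (D.S.F (yx y))^[D.ls i] (pc y i, 1)) ∈ D.S.Dom (D.ks i)
  pos2 : ∀ y ∈ D.bx, ∀ i ∈ D.A, ‖D.pv i y‖ ≤ D.M
  pos3 : ∀ y ∈ D.bx, ∀ i ∈ D.A, cr ((D.S.F (yx y))^[D.ls i + D.S.per (D.ks i) * D.L] (pc y i, 1))
    (D.S.cht (D.ks i) (yx y) (D.ω (D.ks i) (yx y, D.S.lam (D.ks i) (yx y) ^ D.L * D.pv i y))) = 0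
  ikA : ∀ k, D.ik k ∈ D.A ∧ D.ks (D.ik k) = k
  f0 : 0 < D.f₀
  M0 : 0 ≤ D.M
  MK : D.M / D.f₀ < D.Kc
  strict : ∀ y ∈ D.bx, (∀ j, D.S.Er j y = 0) → ∀ i, ‖yc y i - D.cl i‖ < D.ρ
  F1 : 0 < D.F₁
  KF : D.Kc * (D.S.θ ^ D.L * D.F₁) < D.r
  base : ∀ j : Fin 2, ∃ L' a : ℕ, D.L ≤ L' ∧ a < D.S.per (D.ks (Sum.inr j)) ∧
      D.Nt = D.ls (Sum.inr j) + (D.S.per (D.ks (Sum.inr j)) * L' + a) ∧
      D.S.θ ^ L' * D.F₁ < 3 * D.ra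
  per : ∀ k, D.S.per k ∣ D.Nt
  ra0 : 0 < D.ra
  Kra : D.Kc * (3 * D.ra) < D.r
  dsp : 0 < D.Dsp
  near : ‖fam D.uf - D.x₀‖ + (D.Tm + 2) * D.Dsp < D.σ₀
  di : DIprop β d D.x₀ D.c₀ D.ε₀ D.σ₀
  c0 : 0 < D.c₀
  η0 : 0 < D.η₁
  Mw0 : 0 < D.Mw
  wN0 : 0 ≤ D.wN
  b1 : D.g₀ + (D.Tm + 1) * D.η₁ ≤ D.ε₀
  b2 : D.g₀ + (D.Tm + 1) * D.η₁ < D.c₀ / 2 * D.Dsp ^ 2
  b3 : D.g₀ + (D.Tm + 1) * D.η₁ < D.Mw
  b4 : D.Mw * (m * D.wN) ≤ D.η₁ / 4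
  perN : ∀ k, D.S.per k ≤ D.N₀

/-- The state after `T` steps. -/
structure Inv (T : ℕ) (I : Finset (Fin m)) (P : Fin m → ℕ) (εc δc : Fin m → ℝ) (Pm : ℕ) (R : ℕ)
    (z : Ix d (2 * d) s → ℂ) : Prop where
  good : Goode D.S D.KK D.A D.ks D.ls (fun j => ey D.σ (P j) j) I R z
  inj : Function.Injective (yc z)
  ycl : ∀ i, ‖yc z i - D.cl i‖ ≤ D.ρ
  u : ‖yx z - D.uf‖ < (T + 1) * D.Dsp
  kc : ∀ k, ‖ys z k‖ < D.Kc
  Fup : ∀ i ∈ D.A, ‖D.pv i z / ys z (D.ks i)‖ < D.F₁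
  Flow : ∀ k, D.f₀ < ‖D.pv (D.ik k) z / ys z (D.ks (D.ik k))‖
  crv : ∀ j ∉ I, vy D.σ j z ≠ 0
  np : ∀ j ∉ I, ∀ a : ℕ, 1 ≤ a → a ≤ Pm → ey D.σ a j z ≠ 0
  NP : D.N₀ ≤ Pm
  per : ∀ j ∈ I, D.N₀ < P j ∧ P j ≤ Pm
  pin : ∀ i ∈ I, ∀ j ∈ I, P i = P j → i = j
  gap : ∀ j ∈ I, D.gap j (P j) (εc j) (δc j)
  don : ∀ j ∈ I, ‖ey D.σ (P j) j z‖ < εc j ∧ δc j ≤ ‖gy D.σ (P j) j z‖
  G : D.S.AN β D.ω D.Nt (D.rad T) (yx z) (ys z) + D.Mw * ∑ j ∈ Iᶜ, D.W j z < D.g₀ + T * D.η₁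

variable {D}

namespace Ok

variable (H : D.Ok)
include H

theorem rad0 (T : ℕ) : 0 < D.rad T := by
  unfold DatN.rad
  have := H.ra0
  positivity

theorem rad_succ (T : ℕ) : D.rad T < D.rad (T + 1) := by
  unfold DatN.rad
  have := H.ra0
  apply mul_lt_mul_of_pos_left _ this
  have h1 : (0 : ℝ) < D.Tm + 1 := by positivity
  have h2 : (T : ℝ) / (D.Tm + 1) < ((T + 1 : ℕ) : ℝ) / (D.Tm + 1) := by
    apply div_lt_div_of_pos_right _ h1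
    push_cast
    linarith
  linarith

theorem rad_lt {T : ℕ} (hT : T ≤ D.Tm + 1) : D.rad T < 3 * D.ra := by
  unfold DatN.rad
  have := H.ra0
  have h1 : (0 : ℝ) < D.Tm + 1 := by positivity
  have h2 : (T : ℝ) / (D.Tm + 1) ≤ 1 := by
    rw [div_le_one h1]
    exact_mod_cast hT
  nlinarith

theorem Nt_le {T : ℕ} (hT : T ≤ D.Tm) {x : Fin (2 * d) → ℂ} {z : Fin (2 * d) → ℂ}
    (hz : ‖z - D.uf‖ < (T + 1) * D.Dsp) (hx : ‖x - z‖ ≤ D.Dsp) :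
    ‖x - D.uf‖ < (T + 2) * D.Dsp ∧ ‖x - D.uf‖ ≤ (D.Tm + 2) * D.Dsp := by
  have hd := H.dsp
  have hT' : (T : ℝ) ≤ D.Tm := by exact_mod_cast hT
  have h1 : ‖x - D.uf‖ < (T + 2) * D.Dsp := by
    calc ‖x - D.uf‖ = ‖(x - z) + (z - D.uf)‖ := by congr 1; abel
      _ ≤ ‖x - z‖ + ‖z - D.uf‖ := norm_add_le _ _
      _ < D.Dsp + (T + 1) * D.Dsp := by linarith
      _ = (T + 2) * D.Dsp := by ring
  refine ⟨h1, h1.le.trans ?_⟩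
  nlinarith

theorem inU₀ {x : Fin (2 * d) → ℂ} (hx : x ∈ D.S.U) : x ∈ U₀ d := by
  have h1 := D.S.nd _ hx
  have h2 := D.S.hwr _ hx
  rw [H.co x hx] at h1 h2
  exact ⟨h1, h2⟩

theorem wr0 {y : Ix d (2 * d) s → ℂ} (hy : yx y ∈ D.S.U) (hE : ∀ j, D.S.Er j y = 0)
    (i : Fin (2 * d - 2)) : wr (fam (yx y)) (yc y i, 1) = 0 := by
  have h1 := p_ER d (2 * d) s D.S y hE (yc y i)
  rw [H.co _ hy] at h1
  rw [h1, Finset.prod_eq_zero (Finset.mem_univ i) (sub_self _), mul_zero]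

/-- use of the gap property -/
theorem use_gap {j : Fin m} {p : ℕ} {ε δ : ℝ} (hg : D.gap j p ε δ) {y : Ix d (2 * d) s → ℂ}
    (hy : y ∈ D.bx) (hE : ∀ j, D.S.Er j y = 0) (h1 : ‖ey D.σ p j y‖ < ε)
    (h2 : δ / 2 < ‖gy D.σ p j y‖) : δ ≤ ‖gy D.σ p j y‖ ∧ Qp p (yx y, yc y (D.σ j)) := by
  obtain ⟨-, hδ, h⟩ := hg
  have hyU : yx y ∈ D.S.U := H.lin.NU (H.bN _ hy.1)
  have h3 := (h (yx y) (by rw [mem_closedBall, dist_eq_norm]; exact hy.1) (yc y (D.σ j))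
    (H.wr0 hyU hE _) (hy.2 _)).2 h1.le
  have h4 : δ ≤ ‖gy D.σ p j y‖ := by
    rcases h3.1 with h4 | h4
    · exact h4
    · exact absurd h4 (not_lt.2 h2.le)
  exact ⟨h4, h3.2 h4⟩

end Ok

end DatN

end Pool.Agent.Zk23
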