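import Mathlib
import Pool.Agent.Zk23.NCS
import Pool.Agent.Zk23.ETS

/-! Mixed assignments of the free critical points, part 1: the data of the construction. -/

set_option autoImplicit false
set_option linter.unusedVariables false

open Topology Filter Metric Set MeasureTheory
open Pool.Agent.H790R3.RB (CV hF cr ND wr rt Ix yx yc yx_diff yc_diff exists_low lsc_comp)
open Pool.Agent.W757.RD
open Pool.Agent.W440.RE.JT (prod_diff)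
open Pool.Agent.W402.RE.MINP (ys_diff DIprop exists_L)

namespace Pool.Agent.Zk23

/-- The data of the construction. -/
structure DatX (β : ℝ) (d m s : ℕ) where
  S : Sys d (2 * d) s
  KK : Fin s → (Fin (2 * d) → ℂ) × (ℂ × ℂ) → ℂ
  N : Set (Fin (2 * d) → ℂ)
  r : ℝ
  ω : Fin s → (Fin (2 * d) → ℂ) × ℂ → ℂ
  A : Finset (Pt d)
  ks : Pt d → Fin s
  ls : Pt d → ℕ
  ik : Fin s → Pt d
  σ : Fin m → Fin (2 * d - 2)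
  cl : Fin (2 * d - 2) → ℂ
  uf : Fin (2 * d) → ℂ
  J : Finset (Fin m)
  Nf : Fin m → (Ix d (2 * d) s → ℂ) → ℂ
  Df : Fin m → (Ix d (2 * d) s → ℂ) → ℂ
  rr : ℝ
  RR : ℝ
  W : Fin m → (Ix d (2 * d) s → ℂ) → ℝ
  L : ℕ
  Nt : ℕ
  Kc : ℝ
  ra : ℝ
  ρ : ℝ
  Dsp : ℝ
  M : ℝ
  f₀ : ℝ
  F₁ : ℝ
  Tm : ℕ
  x₀ : CV d
  c₀ : ℝ
  ε₀ : ℝ
  σ₀ : ℝ
  α : ℝ
  g₀ : ℝ
  η₁ : ℝ
  Mw : ℝ
  wN : ℝ
  N₀ : ℕ

namespace DatX

variable {β : ℝ} {d m s : ℕ} (D : DatX β d m s)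

/-- the box -/
def bx : Set (Ix d (2 * d) s → ℂ) :=
  {y | ‖yx y - D.uf‖ ≤ (D.Tm + 2) * D.Dsp ∧ ∀ i, ‖yc y i - D.cl i‖ ≤ D.ρ}

/-- the windows -/
def wn : Set (Ix d (2 * d) s → ℂ) :=
  {y | ∀ j ∈ D.J, D.rr / 2 * ‖D.Df j y‖ ≤ ‖D.Nf j y‖ ∧ ‖D.Nf j y‖ ≤ D.RR * ‖D.Df j y‖}

open Classical in
/-- the functions which are kept constant -/
noncomputable def Ps (P : Fin m → ℕ) (j : Fin m) (y : Ix d (2 * d) s → ℂ) : ℂ :=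
  if j ∈ D.J then D.Nf j y / D.Df j y else ey D.σ (P j) j y

/-- the logarithms -/
noncomputable def lg (j : Fin m) (y : Ix d (2 * d) s → ℂ) : ℝ :=
  Real.log (‖D.Nf j y‖ / ‖D.Df j y‖)

/-- the sum of the logarithms -/
noncomputable def Psi (I : Finset (Fin m)) (y : Ix d (2 * d) s → ℂ) : ℝ :=
  ∑ j ∈ D.J \ I, D.lg j y + (D.J \ I)ᶜ.card * Real.log D.rr

/-- the radii -/
noncomputable def rad (T : ℕ) : ℝ := D.ra * (1 + T / (D.Tm + 1))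

/-- the positions -/
noncomputable def pv (i : Pt d) (y : Ix d (2 * d) s → ℂ) : ℂ :=
  D.KK (D.ks i) (yx y, (D.S.F (yx y))^[D.ls i] (pc y i, 1))

/-- the gap property -/
def gap (j : Fin m) (p : ℕ) (ε δ : ℝ) : Prop :=
  Gap (closedBall D.uf ((D.Tm + 2) * D.Dsp)) (D.cl (D.σ j)) D.ρ p ε δ

/-- The properties of the data. -/
structure Ok : Prop where
  hβ1 : 1 / 2 < β
  hβ2 : β < 1
  card : D.A.card + m = 2 * d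
  co : ∀ x ∈ D.S.U, D.S.co x = fam x
  koe : D.S.Koe D.KK
  lin : D.S.Lin D.KK D.N D.r D.ω
  lsp : ∀ i ∈ D.A, D.ls i < D.S.per (D.ks i)
  bA : ∀ j : Fin 2, Sum.inr j ∈ D.A
  σA : ∀ i : Fin (2 * d - 2), Sum.inl i ∉ D.A → ∃ j, D.σ j = i
  Nd : ∀ j, DifferentiableOn ℂ (D.Nf j) {y | yx y ∈ D.S.U}
  Dd : ∀ j, DifferentiableOn ℂ (D.Df j) {y | yx y ∈ D.S.U}
  nz : ∀ y ∈ D.bx, ∀ j, ¬ (D.Nf j y = 0 ∧ D.Df j y = 0)
  bN : ∀ x, ‖x - D.uf‖ ≤ (D.Tm + 2) * D.Dsp → x ∈ D.N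
  prot : ∀ y ∈ D.bx, y ∈ D.wn → ∀ j ∈ D.J, ∀ k, ∀ i ≤ D.Nt + D.S.per k,
    ¬ D.S.InC k (yx y) ((D.S.F (yx y))^[i] (yc y (D.σ j), 1))
  Wnn : ∀ y ∈ D.bx, ∀ j, 0 ≤ D.W j y
  Wlsc : ∀ j, LowerSemicontinuousOn (D.W j) D.bx
  Wprot : ∀ y, ‖yx y - D.uf‖ < (D.Tm + 2) * D.Dsp → ∀ j, D.W j y < 1 → ∀ᶠ z in 𝓝 y,
    ∀ k, ∀ i ≤ D.Nt + D.S.per k, ¬ D.S.InC k (yx z) ((D.S.F (yx z))^[i] (yc z (D.σ j), 1))
  Wdr : ∀ y, ‖yx y - D.uf‖ < (D.Tm + 2) * D.Dsp → ∀ j, ∀ η : ℝ, 0 < η → ∀ᶠ z in 𝓝 y,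
    D.W j z < max (D.W j y) D.wN + η
  Wdisc : ∀ (τ : ℝ) (γ : ℂ → Ix d (2 * d) s → ℂ), 0 < τ → DifferentiableOn ℂ γ (ball 0 τ) →
    (∀ t ∈ ball (0 : ℂ) τ, ‖yx (γ t) - D.uf‖ < (D.Tm + 2) * D.Dsp ∧ ∀ j, D.S.Er j (γ t) = 0) →
    ∀ j, vy D.σ j (γ 0) ≠ 0 → (∀ t ∈ ball (0 : ℂ) τ, ∀ p : ℕ, 1 ≤ p → ey D.σ p j (γ t) ≠ 0) →
    DP (fun t => D.W j (γ t))
  pos1 : ∀ y ∈ D.bx, ∀ i ∈ D.A, (yx y, (D.S.F (yx y))^[D.ls i] (pc y i, 1)) ∈ D.S.Dom (D.ks i)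
  pos2 : ∀ y ∈ D.bx, ∀ i ∈ D.A, ‖D.pv i y‖ ≤ D.M
  pos3 : ∀ y ∈ D.bx, ∀ i ∈ D.A, cr ((D.S.F (yx y))^[D.ls i + D.S.per (D.ks i) * D.L] (pc y i, 1))
    (D.S.cht (D.ks i) (yx y) (D.ω (D.ks i) (yx y, D.S.lam (D.ks i) (yx y) ^ D.L * D.pv i y))) = 0
  ikA : ∀ k, D.ik k ∈ D.A ∧ D.ks (D.ik k) = k
  f0 : 0 < D.f₀
  M0 : 0 ≤ D.M
  MK : D.M / D.f₀ < D.Kc
  strict : ∀ y ∈ D.bx, (∀ j, D.S.Er j y = 0) → ∀ i, ‖yc y i - D.cl i‖ < D.ρ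
  F1 : 0 < D.F₁
  KF : D.Kc * (D.S.θ ^ D.L * D.F₁) < D.r
  base : ∀ j : Fin 2, ∃ L' a : ℕ, D.L ≤ L' ∧ a < D.S.per (D.ks (Sum.inr j)) ∧
      D.Nt = D.ls (Sum.inr j) + (D.S.per (D.ks (Sum.inr j)) * L' + a) ∧
      D.S.θ ^ L' * D.F₁ < 3 * D.ra
  per : ∀ k, D.S.per k ∣ D.Nt
  ra0 : 0 < D.ra
  Kra : D.Kc * (3 * D.ra) < D.r
  rr0 : 0 < D.rr
  rr1 : D.rr ≤ 1
  rR : 2 * D.rr < D.RR
  dsp : 0 < D.Dsp
  near : ‖fam D.uf - D.x₀‖ + (D.Tm + 2) * D.Dsp < D.σ₀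
  di : DIprop β d D.x₀ D.c₀ D.ε₀ D.σ₀
  c0 : 0 < D.c₀
  α0 : 0 < D.α
  η0 : 0 < D.η₁
  Mw0 : 0 < D.Mw
  wN0 : 0 ≤ D.wN
  b1 : D.g₀ + (D.Tm + 1) * D.η₁ - D.α * (m * Real.log D.rr) ≤ D.ε₀
  b2 : D.g₀ + (D.Tm + 1) * D.η₁ - D.α * (m * Real.log D.rr) < D.c₀ / 2 * D.Dsp ^ 2
  b3 : (D.g₀ + (D.Tm + 1) * D.η₁) / D.α - ((m : ℝ) - 1) * Real.log D.rr < Real.log D.RR
  b5 : D.g₀ + (D.Tm + 1) * D.η₁ - D.α * (m * Real.log D.rr) < D.Mw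
  b4 : D.Mw * (m * D.wN) ≤ D.η₁ / 4
  perN : ∀ k, D.S.per k ≤ D.N₀

/-- The state after `T` steps. -/
structure Inv (T : ℕ) (I : Finset (Fin m)) (P : Fin m → ℕ) (εc δc : Fin m → ℝ) (Pm : ℕ) (R : ℕ)
    (z : Ix d (2 * d) s → ℂ) : Prop where
  good : Goode D.S D.KK D.A D.ks D.ls (D.Ps P) I R z
  inj : Function.Injective (yc z)
  ycl : ∀ i, ‖yc z i - D.cl i‖ ≤ D.ρ
  u : ‖yx z - D.uf‖ < (T + 1) * D.Dsp
  kc : ∀ k, ‖ys z k‖ < D.Kc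
  Fup : ∀ i ∈ D.A, ‖D.pv i z / ys z (D.ks i)‖ < D.F₁
  Flow : ∀ k, D.f₀ < ‖D.pv (D.ik k) z / ys z (D.ks (D.ik k))‖
  win1 : ∀ j ∈ D.J, j ∉ I → D.rr * ‖D.Df j z‖ ≤ ‖D.Nf j z‖ ∧ ‖D.Nf j z‖ < D.RR * ‖D.Df j z‖
  win2 : ∀ j ∈ D.J, j ∈ I → D.rr / 2 * ‖D.Df j z‖ < ‖D.Nf j z‖ ∧
    ‖D.Nf j z‖ < 2 * D.rr * ‖D.Df j z‖
  crv : ∀ j ∉ I, j ∉ D.J → vy D.σ j z ≠ 0
  np : ∀ j ∉ I, j ∉ D.J → ∀ a : ℕ, 1 ≤ a → a ≤ Pm → ey D.σ a j z ≠ 0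
  NP : D.N₀ ≤ Pm
  per : ∀ j ∈ I, j ∉ D.J → D.N₀ < P j ∧ P j ≤ Pm
  pin : ∀ i ∈ I, i ∉ D.J → ∀ j ∈ I, j ∉ D.J → P i = P j → i = j
  gap : ∀ j ∈ I, j ∉ D.J → D.gap j (P j) (εc j) (δc j)
  don : ∀ j ∈ I, j ∉ D.J → ‖ey D.σ (P j) j z‖ < εc j ∧ δc j ≤ ‖gy D.σ (P j) j z‖
  G : D.S.AN β D.ω D.Nt (D.rad T) (yx z) (ys z) + D.α * D.Psi I z +
    D.Mw * ∑ j ∈ (I ∪ D.J)ᶜ, D.W j z < D.g₀ + T * D.η₁

variable {D}

theorem ps_old {P : Fin m → ℕ} {j : Fin m} (hj : j ∈ D.J) :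
    D.Ps P j = fun y => D.Nf j y / D.Df j y := by
  funext y
  simp [DatX.Ps, hj]

theorem ps_new {P : Fin m → ℕ} {j : Fin m} (hj : j ∉ D.J) : D.Ps P j = ey D.σ (P j) j := by
  funext y
  simp [DatX.Ps, hj]

namespace Ok

variable (H : D.Ok)
include H

theorem rad0 (T : ℕ) : 0 < D.rad T := by
  unfold DatX.rad
  have := H.ra0
  positivity

theorem rad_succ (T : ℕ) : D.rad T < D.rad (T + 1) := by
  unfold DatX.rad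
  have := H.ra0
  apply mul_lt_mul_of_pos_left _ this
  have h1 : (0 : ℝ) < D.Tm + 1 := by positivity
  have h2 : (T : ℝ) / (D.Tm + 1) < ((T + 1 : ℕ) : ℝ) / (D.Tm + 1) := by
    apply div_lt_div_of_pos_right _ h1
    push_cast
    linarith
  linarith

theorem rad_lt {T : ℕ} (hT : T ≤ D.Tm + 1) : D.rad T < 3 * D.ra := by
  unfold DatX.rad
  have := H.ra0
  have h1 : (0 : ℝ) < D.Tm + 1 := by positivity
  have h2 : (T : ℝ) / (D.Tm + 1) ≤ 1 := by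
    rw [div_le_one h1]
    exact_mod_cast hT
  nlinarith

/-- the denominators and numerators do not vanish in the windows -/
theorem ne {y : Ix d (2 * d) s → ℂ} (hy : y ∈ D.bx) (hw : y ∈ D.wn) {j : Fin m} (hj : j ∈ D.J) :
    D.Df j y ≠ 0 ∧ D.Nf j y ≠ 0 := by
  obtain ⟨h1, h2⟩ := hw j hj
  have h3 := H.nz y hy j
  have hr := H.rr0
  constructor
  · intro h0
    apply h3
    rw [h0, norm_zero, mul_zero] at h2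
    exact ⟨norm_le_zero_iff.1 h2, h0⟩
  · intro h0
    apply h3
    rw [h0, norm_zero] at h1
    refine ⟨h0, norm_le_zero_iff.1 ?_⟩
    nlinarith [norm_nonneg (D.Df j y)]

theorem Nt_le {T : ℕ} (hT : T ≤ D.Tm) {x : Fin (2 * d) → ℂ} {z : Fin (2 * d) → ℂ}
    (hz : ‖z - D.uf‖ < (T + 1) * D.Dsp) (hx : ‖x - z‖ ≤ D.Dsp) :
    ‖x - D.uf‖ < (T + 2) * D.Dsp ∧ ‖x - D.uf‖ ≤ (D.Tm + 2) * D.Dsp := by
  have hd := H.dsp
  have hT' : (T : ℝ) ≤ D.Tm := by exact_mod_cast hT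
  have h1 : ‖x - D.uf‖ < (T + 2) * D.Dsp := by
    calc ‖x - D.uf‖ = ‖(x - z) + (z - D.uf)‖ := by congr 1; abel
      _ ≤ ‖x - z‖ + ‖z - D.uf‖ := norm_add_le _ _
      _ < D.Dsp + (T + 1) * D.Dsp := by linarith
      _ = (T + 2) * D.Dsp := by ring
  refine ⟨h1, h1.le.trans ?_⟩
  nlinarith

theorem inU₀ {x : Fin (2 * d) → ℂ} (hx : x ∈ D.S.U) : x ∈ U₀ d := by
  have h1 := D.S.nd _ hx
  have h2 := D.S.hwr _ hx
  rw [H.co x hx] at h1 h2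
  exact ⟨h1, h2⟩

theorem wr0 {y : Ix d (2 * d) s → ℂ} (hy : yx y ∈ D.S.U) (hE : ∀ j, D.S.Er j y = 0)
    (i : Fin (2 * d - 2)) : wr (fam (yx y)) (yc y i, 1) = 0 := by
  have h1 := p_ER d (2 * d) s D.S y hE (yc y i)
  rw [H.co _ hy] at h1
  rw [h1, Finset.prod_eq_zero (Finset.mem_univ i) (sub_self _), mul_zero]

/-- use of the gap property -/
theorem use_gap {j : Fin m} {p : ℕ} {ε δ : ℝ} (hg : D.gap j p ε δ) {y : Ix d (2 * d) s → ℂ}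
    (hy : y ∈ D.bx) (hE : ∀ j, D.S.Er j y = 0) (h1 : ‖ey D.σ p j y‖ < ε)
    (h2 : δ / 2 < ‖gy D.σ p j y‖) : δ ≤ ‖gy D.σ p j y‖ ∧ Qp p (yx y, yc y (D.σ j)) := by
  obtain ⟨-, hδ, h⟩ := hg
  have hyU : yx y ∈ D.S.U := H.lin.NU (H.bN _ hy.1)
  have h3 := (h (yx y) (by rw [mem_closedBall, dist_eq_norm]; exact hy.1) (yc y (D.σ j))
    (H.wr0 hyU hE _) (hy.2 _)).2 h1.le
  have h4 : δ ≤ ‖gy D.σ p j y‖ := by
    rcases h3.1 with h4 | h4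
    · exact h4
    · exact absurd h4 (not_lt.2 h2.le)
  exact ⟨h4, h3.2 h4⟩

theorem cards (K : Finset (Fin m)) : K.card + Kᶜ.card = m := by
  rw [Finset.card_compl, Fintype.card_fin]
  have := Finset.card_le_univ K
  rw [Fintype.card_fin] at this
  omega

/-- lower bound of the sum of the logarithms -/
theorem psi_low {I : Finset (Fin m)} {y : Ix d (2 * d) s → ℂ}
    (h : ∀ j ∈ D.J, j ∉ I → D.rr * ‖D.Df j y‖ ≤ ‖D.Nf j y‖) (hD : ∀ j ∈ D.J, D.Df j y ≠ 0) :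
    m * Real.log D.rr ≤ D.Psi I y := by
  unfold DatX.Psi
  have h1 : ∀ j ∈ D.J \ I, Real.log D.rr ≤ D.lg j y := by
    intro j hj
    obtain ⟨hj1, hj2⟩ := Finset.mem_sdiff.1 hj
    apply Real.log_le_log H.rr0
    rw [le_div_iff₀ (norm_pos_iff.2 (hD j hj1))]
    exact h j hj1 hj2
  have h2 := Finset.sum_le_sum h1
  rw [Finset.sum_const, nsmul_eq_mul] at h2
  have h3 := H.cards (D.J \ I)
  have h4 : (((D.J \ I).card : ℕ) : ℝ) + (D.J \ I)ᶜ.card = m := by exact_mod_cast h3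
  calc (m : ℝ) * Real.log D.rr = (D.J \ I).card * Real.log D.rr +
        (D.J \ I)ᶜ.card * Real.log D.rr := by
        rw [← h4]; ring
    _ ≤ _ := by linarith

/-- upper bound of one logarithm -/
theorem lg_lt {I : Finset (Fin m)} {y : Ix d (2 * d) s → ℂ}
    (h : ∀ j ∈ D.J, j ∉ I → D.rr * ‖D.Df j y‖ ≤ ‖D.Nf j y‖) (hD : ∀ j ∈ D.J, D.Df j y ≠ 0)
    (hN : ∀ j ∈ D.J, D.Nf j y ≠ 0)
    (hP : D.Psi I y ≤ (D.g₀ + (D.Tm + 1) * D.η₁) / D.α) {j : Fin m} (hjJ : j ∈ D.J)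
    (hj : j ∉ I) : ‖D.Nf j y‖ < D.RR * ‖D.Df j y‖ := by
  have hDj := norm_pos_iff.2 (hD j hjJ)
  have hNj := norm_pos_iff.2 (hN j hjJ)
  rw [← div_lt_iff₀ hDj]
  have hR : 0 < D.RR := by
    have := H.rR
    have := H.rr0
    linarith
  rw [← Real.log_lt_log_iff (div_pos hNj hDj) hR]
  have hjc : j ∈ D.J \ I := Finset.mem_sdiff.2 ⟨hjJ, hj⟩
  have h1 : ∀ i ∈ (D.J \ I).erase j, Real.log D.rr ≤ D.lg i y := by
    intro i hi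
    obtain ⟨hi1, hi2⟩ := Finset.mem_sdiff.1 (Finset.mem_of_mem_erase hi)
    apply Real.log_le_log H.rr0
    rw [le_div_iff₀ (norm_pos_iff.2 (hD i hi1))]
    exact h i hi1 hi2
  have h2 := Finset.sum_le_sum h1
  rw [Finset.sum_const, nsmul_eq_mul] at h2
  have h3 := H.cards (D.J \ I)
  have h5 : ((D.J \ I).erase j).card + 1 = (D.J \ I).card := Finset.card_erase_add_one hjc
  have h4 : ((((D.J \ I).erase j).card : ℕ) : ℝ) + (D.J \ I)ᶜ.card = m - 1 := by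
    have : ((((D.J \ I).erase j).card + 1 + (D.J \ I)ᶜ.card : ℕ) : ℝ) = m := by
      rw [h5]; exact_mod_cast h3
    push_cast at this
    linarith
  have h6 : D.Psi I y = D.lg j y + ∑ i ∈ (D.J \ I).erase j, D.lg i y +
      (D.J \ I)ᶜ.card * Real.log D.rr := by
    unfold DatX.Psi
    rw [← Finset.add_sum_erase _ (fun j => D.lg j y) hjc]
  have h7 : ((m : ℝ) - 1) * Real.log D.rr =
      (((D.J \ I).erase j).card : ℝ) * Real.log D.rr + (D.J \ I)ᶜ.card * Real.log D.rr := by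
    rw [← h4]; ring
  have h8 := H.b3
  show D.lg j y < Real.log D.RR
  linarith

/-- a function of the windows reaches its lower bound -/
theorem psi_insert {I : Finset (Fin m)} {y : Ix d (2 * d) s → ℂ} {j : Fin m} (hjJ : j ∈ D.J)
    (hj : j ∉ I) (hD : D.Df j y ≠ 0) (hjr : ‖D.Nf j y‖ = D.rr * ‖D.Df j y‖) :
    D.Psi (insert j I) y = D.Psi I y := by
  have hjc : j ∈ D.J \ I := Finset.mem_sdiff.2 ⟨hjJ, hj⟩
  have e1 : D.J \ insert j I = (D.J \ I).erase j := by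
    ext i
    simp only [Finset.mem_sdiff, Finset.mem_insert, Finset.mem_erase]
    tauto
  have e2 : D.lg j y = Real.log D.rr := by
    unfold DatX.lg
    rw [hjr, mul_div_assoc, div_self (norm_ne_zero_iff.2 hD), mul_one]
  have e3 : (((D.J \ I).erase j)ᶜ.card : ℝ) = (D.J \ I)ᶜ.card + 1 := by
    have h1 := H.cards (D.J \ I)
    have h2 := H.cards ((D.J \ I).erase j)
    have h3 : ((D.J \ I).erase j).card + 1 = (D.J \ I).card := Finset.card_erase_add_one hjc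
    have h4 : ((D.J \ I).erase j)ᶜ.card = (D.J \ I)ᶜ.card + 1 := by omega
    rw [h4]
    push_cast
    ring
  unfold DatX.Psi
  rw [e1, e3, ← Finset.add_sum_erase (D.J \ I) (fun i => D.lg i y) hjc, e2]
  ring

theorem psi_new {I : Finset (Fin m)} {y : Ix d (2 * d) s → ℂ} {j : Fin m} (hjJ : j ∉ D.J) :
    D.Psi (insert j I) y = D.Psi I y := by
  have e1 : D.J \ insert j I = D.J \ I := by
    ext i
    simp only [Finset.mem_sdiff, Finset.mem_insert]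
    constructor
    · rintro ⟨a, b⟩
      exact ⟨a, fun h => b (Or.inr h)⟩
    · rintro ⟨a, b⟩
      refine ⟨a, ?_⟩
      rintro (rfl | h)
      · exact hjJ a
      · exact b h
  unfold DatX.Psi
  rw [e1]

end Ok

end DatX

end Pool.Agent.Zk23
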