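import Mathlib
import Pool.Agent.Zk23.NCS

/-! All free critical points in new cycles, part 10: one step of the construction. -/

set_option autoImplicit false
set_option linter.unusedVariables false

open Topology Filter Metric Set MeasureTheory
open Pool.Agent.H790R3.RB (CV hF cr ND wr rt Ix yx yc yx_diff yc_diff exists_low lsc_comp)
open Pool.Agent.W757.RD
open Pool.Agent.W440.RE.JT (prod_diff)
open Pool.Agent.W402.RE.MINP (ys_diff DIprop exists_L)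

namespace Pool.Agent.Zk23

theorem DatN.Ok.step {β : ℝ} {d m s : ℕ} {D : DatN β d m s} (H : D.Ok) {T : ℕ}
    {I : Finset (Fin m)} {P : Fin m → ℕ} {εc δc : Fin m → ℝ} {Pm : ℕ} {R : ℕ}
    {z : Ix d (2 * d) s → ℂ} (h : D.Inv T I P εc δc Pm R z)
    (hI : I ≠ Finset.univ) (hT : T ≤ D.Tm) :
    ∃ (I' : Finset (Fin m)) (P' : Fin m → ℕ) (εc' δc' : Fin m → ℝ) (Pm' : ℕ) (R' : ℕ)
      (z' : Ix d (2 * d) s → ℂ), D.Inv (T + 1) I' P' εc' δc' Pm' R' z' ∧
      ((I' = I ∧ R' = R + 1) ∨ (I ⊂ I' ∧ R' = 0)) := by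
  classical
  obtain ⟨hAdm₀, sel, col, hdet₀⟩ := h.good
  have hd : 2 ≤ d := D.S.hd
  obtain ⟨-, -, hfamn, hfamN, -⟩ := p_FM d hd
  obtain ⟨-, hlamθ, -⟩ := p_LAM d (2 * d) s D.S
  obtain ⟨Oo, hOo, hOe, hErd, hKPd, hGrd⟩ :=
    p_ADO d (2 * d) s 0 D.S D.KK e0 D.A D.ks D.ls H.koe (fun i => i.elim0)
  have hdsp := H.dsp
  have hη1 := H.η0
  have hc0 := H.c0
  have hNrm : ∀ x ∈ D.S.U, Nrm (D.S.co x) := fun x hx => by rw [H.co x hx]; exact hfamN x
  have hlam0 : ∀ k, D.S.lam k (yx z) ≠ 0 := hAdm₀.lam0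
  -- the ball of parameters
  obtain ⟨C, hC⟩ : ∃ C : Set (Fin (2 * d) → ℂ), C = closedBall (yx z) D.Dsp := ⟨_, rfl⟩
  have hCc : IsCompact C := by rw [hC]; exact isCompact_closedBall _ _
  have hCd : ∀ x ∈ C, ‖x - yx z‖ ≤ D.Dsp := by
    intro x hx
    rwa [hC, mem_closedBall, dist_eq_norm] at hx
  have hCb : ∀ x ∈ C, ‖x - D.uf‖ < (T + 2) * D.Dsp ∧ ‖x - D.uf‖ ≤ (D.Tm + 2) * D.Dsp :=
    fun x hx => H.Nt_le hT h.u (hCd x hx)
  have hCN : C ⊆ D.N := fun x hx => H.bN x (hCb x hx).2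
  have hCU : C ⊆ D.S.U := fun x hx => H.lin.NU (hCN hx)
  have hzC : yx z ∈ C := by rw [hC]; exact mem_closedBall_self hdsp.le
  have hzb : z ∈ D.bx := ⟨(hCb _ hzC).2, h.ycl⟩
  -- the relative positions
  obtain ⟨Fh, hFh⟩ : ∃ Fh : Pt d → ℂ, Fh = fun i => D.pv i z / ys z (D.ks i) := ⟨_, rfl⟩
  have hFhi : ∀ i, Fh i = D.pv i z / ys z (D.ks i) := fun i => by rw [hFh]
  have hKc0 : 0 < D.Kc := (div_nonneg H.M0 H.f0.le).trans_lt H.MK
  have hlamF : ∀ i ∈ D.A, ∀ j : ℕ, ‖D.S.lam (D.ks i) (yx z) ^ j * Fh i‖ ≤ D.S.θ ^ j * D.F₁ := by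
    intro i hi j
    rw [norm_mul, norm_pow]
    have h1 : ‖Fh i‖ < D.F₁ := by rw [hFhi]; exact h.Fup i hi
    exact mul_le_mul (pow_le_pow_left₀ (norm_nonneg _) (hlamθ _ _ hAdm₀.xU) j) h1.le (norm_nonneg _)
      (pow_nonneg D.S.hθ0 j)
  have hKL : ∀ i ∈ D.A, D.Kc * ‖D.S.lam (D.ks i) (yx z) ^ D.L * Fh i‖ < D.r := fun i hi =>
    (mul_le_mul_of_nonneg_left (hlamF i hi D.L) hKc0.le).trans_lt H.KF
  have hbase : ∀ j : Fin 2, ∃ L' a : ℕ, D.L ≤ L' ∧ a < D.S.per (D.ks (Sum.inr j)) ∧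
      D.Nt = D.ls (Sum.inr j) + (D.S.per (D.ks (Sum.inr j)) * L' + a) ∧
      ‖D.S.lam (D.ks (Sum.inr j)) (yx z) ^ L' * Fh (Sum.inr j)‖ < 3 * D.ra := by
    intro j
    obtain ⟨L', a, h1, h2, h3, h4⟩ := H.base j
    exact ⟨L', a, h1, h2, h3, (hlamF _ (H.bA j) L').trans_lt h4⟩
  obtain ⟨LF, hLF⟩ : ∃ LF, LF = D.S.Leaf D.ω e0 D.A D.ks D.ls D.L C D.Kc z Fh := ⟨_, rfl⟩
  have hzL : z ∈ LF := by
    rw [hLF]
    refine ⟨hzC, fun i => i.elim0, fun _ => rfl, hAdm₀.crit, fun k => (h.kc k).le, ?_⟩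
    intro i hi
    have h1 := H.pos3 z hzb i hi
    have e1 : ys z (D.ks i) * (D.S.lam (D.ks i) (yx z) ^ D.L * Fh i) =
        D.S.lam (D.ks i) (yx z) ^ D.L * D.pv i z := by
      rw [hFhi]
      have := hAdm₀.kap0 (D.ks i)
      field_simp
    rw [e1]
    exact h1
  have hcompL : IsCompact LF := by
    rw [hLF]
    exact p_CPT d (2 * d) s 0 D.S D.KK D.r D.N D.ω e0 D.A D.ks D.ls D.L C D.Kc z Fh H.koe H.lin
      (fun i => i.elim0) hCc hCU (fun x hx => hCN hx.1) hKL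
  have hLC : ∀ y ∈ LF, yx y ∈ C := by
    intro y hy
    rw [hLF] at hy
    exact hy.1
  have hLU : ∀ y ∈ LF, yx y ∈ D.S.U := fun y hy => hCU (hLC y hy)
  have hLO : ∀ y ∈ LF, y ∈ Oo := by
    intro y hy
    have h1 := hy
    rw [hLF] at h1
    rw [hOe]
    exact ⟨hLU y hy, fun k => H.lin.lam0 _ (hCN (hLC y hy)) k,
      (p_LF d (2 * d) s 0 D.S D.KK D.r D.N D.ω e0 D.A D.ks D.ls D.L C D.Kc z y Fh H.koe H.lin hlam0
        H.lsp hKL (hCN (hLC y hy)) h1).1⟩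
  have hLadm : ∀ y ∈ LF, (∀ k, ys y k ≠ 0) → D.S.Adm D.A D.ks D.ls y ∧
      ∀ i ∈ D.A, D.pv i y / ys y (D.ks i) = Fh i := by
    intro y hy hk
    have h1 := hy
    rw [hLF] at h1
    exact (p_LF d (2 * d) s 0 D.S D.KK D.r D.N D.ω e0 D.A D.ks D.ls D.L C D.Kc z y Fh H.koe H.lin
      hlam0 H.lsp hKL (hCN (hLC y hy)) h1).2.2 hk
  -- the functions
  obtain ⟨Ps, hPs⟩ : ∃ Ps : Fin m → (Ix d (2 * d) s → ℂ) → ℂ, Ps = fun j => ey D.σ (P j) j :=
    ⟨_, rfl⟩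
  rw [← hPs] at hdet₀
  have hPsd : ∀ j ∈ I, DifferentiableOn ℂ (Ps j) univ := by
    intro j _
    rw [hPs]
    exact (ey_diff hd D.σ (P j) j).differentiableOn
  obtain ⟨Jt, hJd, hJ0⟩ := jt_ext D.S H.koe D.A D.ks D.ls I sel col isOpen_univ hPsd
  rw [← hOe, inter_univ] at hJd
  -- the part of the leaf
  obtain ⟨LE, hLE⟩ : ∃ LE : Set (Ix d (2 * d) s → ℂ), LE = {y | y ∈ LF ∧
    (∀ i, ‖yc y i - D.cl i‖ ≤ D.ρ) ∧
    ∀ j ∈ I, ey D.σ (P j) j y = ey D.σ (P j) j z ∧ δc j ≤ ‖gy D.σ (P j) j y‖} := ⟨_, rfl⟩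
  have hLEL : LE ⊆ LF := fun y hy => by rw [hLE] at hy; exact hy.1
  have hcompLE : IsCompact LE := by
    have h1 : LE = LF ∩ ((⋂ i, {y | ‖yc y i - D.cl i‖ ≤ D.ρ}) ∩
        ⋂ j : {j : Fin m // j ∈ I}, ({y | ey D.σ (P j) j y = ey D.σ (P j) j z} ∩
          {y | δc j ≤ ‖gy D.σ (P j) j y‖})) := by
      rw [hLE]
      ext y
      simp only [mem_ofPred_eq, mem_inter_iff, mem_iInter]
      constructor
      · rintro ⟨a, b, c⟩
        exact ⟨a, b, fun j => c j.1 j.2⟩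
      · rintro ⟨a, b, c⟩
        exact ⟨a, b, fun j hj => c ⟨j, hj⟩⟩
    rw [h1]
    refine hcompL.inter_right ((isClosed_iInter fun i => ?_).inter (isClosed_iInter fun j => ?_))
    · exact isClosed_le (((yc_diff i).continuous.sub continuous_const).norm) continuous_const
    · exact (isClosed_eq (ey_diff hd D.σ (P j) j).continuous continuous_const).inter
        (isClosed_le continuous_const (gy_cont hd D.σ (P j) j).norm)
  have hLEb : ∀ y ∈ LE, y ∈ D.bx := by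
    intro y hy
    refine ⟨(hCb _ (hLC y (hLEL hy))).2, ?_⟩
    rw [hLE] at hy
    exact hy.2.1
  have hzE : z ∈ LE := by
    rw [hLE]
    exact ⟨hzL, h.ycl, fun j hj => ⟨rfl, (h.don j hj).2⟩⟩
  -- the auxiliary function
  obtain ⟨Gt, hGt⟩ : ∃ Gt : (Ix d (2 * d) s → ℂ) → ℂ,
    Gt = fun y => ((Jt y * ∏ k : Fin s, ys y k) * Vd y) *
      ∏ j ∈ Iᶜ, ((∏ a ∈ Finset.Ico 1 (Pm + 1), ey D.σ a j y) * vy D.σ j y) := ⟨_, rfl⟩
  have hGty : ∀ y, Gt y = ((Jt y * ∏ k : Fin s, ys y k) * Vd y) *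
      ∏ j ∈ Iᶜ, ((∏ a ∈ Finset.Ico 1 (Pm + 1), ey D.σ a j y) * vy D.σ j y) := fun y => by rw [hGt]
  have hGtne : ∀ y, Gt y ≠ 0 ↔ (Jt y ≠ 0 ∧ (∀ k, ys y k ≠ 0) ∧ Function.Injective (yc y)) ∧
      (∀ j ∉ I, vy D.σ j y ≠ 0) ∧ ∀ j ∉ I, ∀ a : ℕ, 1 ≤ a → a ≤ Pm → ey D.σ a j y ≠ 0 := by
    intro y
    rw [hGty, mul_ne_zero_iff, mul_ne_zero_iff, mul_ne_zero_iff, Finset.prod_ne_zero_iff,
      Finset.prod_ne_zero_iff, vd_ne]
    constructor
    · rintro ⟨⟨⟨a1, a2⟩, a3⟩, a4⟩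
      refine ⟨⟨a1, fun k => a2 k (Finset.mem_univ k), a3⟩, fun j hj => ?_, fun j hj a ha hap => ?_⟩
      · exact (mul_ne_zero_iff.1 (a4 j (Finset.mem_compl.2 hj))).2
      · have h1 := (mul_ne_zero_iff.1 (a4 j (Finset.mem_compl.2 hj))).1
        rw [Finset.prod_ne_zero_iff] at h1
        exact h1 a (Finset.mem_Ico.2 ⟨ha, by omega⟩)
    · rintro ⟨⟨a1, a2, a3⟩, a4, a5⟩
      refine ⟨⟨⟨a1, fun k _ => a2 k⟩, a3⟩, fun j hj => ?_⟩
      have hj := Finset.mem_compl.1 hj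
      refine mul_ne_zero ?_ (a4 j hj)
      rw [Finset.prod_ne_zero_iff]
      intro a ha
      have ha := Finset.mem_Ico.1 ha
      exact a5 j hj a ha.1 (by omega)
  have hGtd : DifferentiableOn ℂ Gt Oo := by
    rw [hGt]
    refine ((hJd.mul ?_).mul vd_diff.differentiableOn).mul ?_
    · apply prod_diff
      intro k _
      exact (ys_diff k).differentiableOn
    · apply prod_diff
      intro j _
      refine DifferentiableOn.mul ?_ (vy_diff hd D.σ j).differentiableOn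
      apply prod_diff
      intro a _
      exact (ey_diff hd D.σ a j).differentiableOn
  have hLEO : ∀ y ∈ LE, y ∈ Oo := fun y hy => hLO y (hLEL hy)
  have hGtc : ContinuousOn (fun y => ‖Gt y‖) LE := (hGtd.continuousOn.mono hLEO).norm
  have hGtz0 : Gt z ≠ 0 := by
    rw [hGtne]
    refine ⟨⟨?_, hAdm₀.kap0, h.inj⟩, h.crv, h.np⟩
    intro h0
    exact hdet₀ ((hJ0 z hAdm₀.xU hAdm₀.lam0 hAdm₀.att (mem_univ _) hAdm₀.kap0).mp h0)
  have hGtz : 0 < ‖Gt z‖ := norm_pos_iff.2 hGtz0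
  obtain ⟨B, hB⟩ := hcompLE.bddAbove_image hGtc
  have hB' : ∀ y ∈ LE, ‖Gt y‖ ≤ max B 1 := fun y hy =>
    (hB (mem_image_of_mem _ hy)).trans (le_max_left _ _)
  obtain ⟨lj, hlj⟩ : ∃ lj : ℝ, lj = |Real.log ‖Gt z‖| := ⟨_, rfl⟩
  obtain ⟨lB, hlB⟩ : ∃ lB : ℝ, lB = |Real.log (max B 1)| := ⟨_, rfl⟩
  have hlj0 : 0 ≤ lj := by rw [hlj]; exact abs_nonneg _
  have hlB0 : 0 ≤ lB := by rw [hlB]; exact abs_nonneg _
  obtain ⟨δ₀, hδ₀e⟩ : ∃ δ₀ : ℝ, δ₀ = D.η₁ / 4 / (1 + lB + lj) := ⟨_, rfl⟩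
  have hδ₀ : 0 < δ₀ := by rw [hδ₀e]; positivity
  have hδ₀le : δ₀ * (lB + lj) ≤ D.η₁ / 4 := by
    rw [hδ₀e, div_mul_eq_mul_div, div_le_iff₀ (by positivity)]
    nlinarith
  have hκr : ∀ y ∈ LF, ∀ k, ‖ys y k‖ * (3 * D.ra) < D.r := by
    intro y hy k
    have h1 := hy
    rw [hLF] at h1
    have := H.ra0
    exact (mul_le_mul_of_nonneg_right (h1.2.2.2.2.1 k) (by linarith)).trans_lt H.Kra
  have hradT : D.rad T < 3 * D.ra := H.rad_lt (by omega)
  have hradT1 : D.rad (T + 1) < 3 * D.ra := H.rad_lt (by omega)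
  have hlsc1 : LowerSemicontinuousOn
      (fun y : Ix d (2 * d) s → ℂ => D.S.AN β D.ω D.Nt (D.rad T) (yx y) (ys y)) LE := by
    refine lsc_comp (g := fun y : Ix d (2 * d) s → ℂ => (yx y, ys y))
      (p_LSC β d (2 * d) s D.S D.KK D.r D.N D.ω D.Nt (D.rad T) H.hβ1 H.hβ2 H.koe H.lin (H.rad0 T))
      ?_ ?_
    · apply Continuous.continuousOn
      exact yx_diff.continuous.prodMk (continuous_pi fun k => (ys_diff k).continuous)
    · intro y hy
      refine ⟨hCN (hLC y (hLEL hy)), fun k => ?_⟩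
      exact (mul_le_mul_of_nonneg_left hradT.le (norm_nonneg _)).trans_lt (hκr y (hLEL hy) k)
  have hlsc : LowerSemicontinuousOn
      (fun y : Ix d (2 * d) s → ℂ => D.S.AN β D.ω D.Nt (D.rad T) (yx y) (ys y) +
        D.Mw * ∑ j ∈ Iᶜ, D.W j y) LE :=
    hlsc1.add (lsc_mul (lsc_sum Iᶜ fun j _ => (H.Wlsc j).mono fun y hy => hLEb y hy) H.Mw0)
  have hhc : ContinuousOn (fun y : Ix d (2 * d) s → ℂ => D.c₀ / 2 * ∑ i : Fin 2 × Fin (d + 1),
      ‖D.S.co (yx y) i - D.S.co (yx z) i‖ ^ 2) LE := by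
    apply continuousOn_const.mul
    apply continuousOn_finsetSum
    intro i _
    have h1 : ContinuousOn (fun y : Ix d (2 * d) s → ℂ => D.S.co (yx y)) LE :=
      D.S.hco.continuousOn.comp yx_diff.continuous.continuousOn (fun y hy => hLU y (hLEL hy))
    exact ((((continuous_apply i).comp_continuousOn h1).sub continuousOn_const).norm).pow 2
  obtain ⟨y, hyE, hGy, hymin⟩ := Pool.Agent.H790R3.RB.MAXI (Ix d (2 * d) s → ℂ) LE _ _ _ z δ₀
    hcompLE hlsc hhc hGtc (fun y _ => norm_nonneg _) hδ₀ hzE hGtz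
  -- the minimal point
  have hyL : y ∈ LF := hLEL hyE
  have hyb := hLEb y hyE
  have hyOO := hLEO y hyE
  have hyC : yx y ∈ C := hLC y hyL
  have hyN : yx y ∈ D.N := hCN hyC
  have hyU : yx y ∈ D.S.U := hCU hyC
  have hyG : Gt y ≠ 0 := norm_pos_iff.1 hGy
  obtain ⟨⟨hyJ, hyk, hyV⟩, hycr, hynp⟩ := (hGtne y).1 hyG
  obtain ⟨hyA, hyF⟩ := hLadm y hyL hyk
  have hyE' := hyE
  rw [hLE] at hyE'
  obtain ⟨-, -, hyE3⟩ := hyE'
  have hT' : (T : ℝ) ≤ D.Tm := by exact_mod_cast hT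
  have hyin : ‖yx y - D.uf‖ < (D.Tm + 2) * D.Dsp := by
    refine (hCb _ hyC).1.trans_le ?_
    exact mul_le_mul_of_nonneg_right (by linarith) hdsp.le
  -- the inequality
  obtain ⟨Q, hQ⟩ : ∃ Q : ℝ, Q = ∑ i : Fin 2 × Fin (d + 1),
    ‖D.S.co (yx y) i - D.S.co (yx z) i‖ ^ 2 := ⟨_, rfl⟩
  have hQ0 : 0 ≤ Q := by rw [hQ]; exact Finset.sum_nonneg fun i _ => by positivity
  have hcQ := mul_nonneg (half_pos hc0).le hQ0
  have hen : D.S.AN β D.ω D.Nt (D.rad T) (yx y) (ys y) + D.c₀ / 2 * Q +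
      D.Mw * ∑ j ∈ Iᶜ, D.W j y < D.g₀ + T * D.η₁ + D.η₁ / 4 := by
    have h1 := hymin z hzE hGtz
    simp only [sub_self, norm_zero, ne_eq, OfNat.ofNat_ne_zero, not_false_eq_true, zero_pow,
      Finset.sum_const_zero, mul_zero, add_zero] at h1
    rw [← hQ] at h1
    have h3 : Real.log ‖Gt y‖ ≤ lB := by
      rw [hlB]
      exact (Real.log_le_log (norm_pos_iff.2 hyG) (hB' y hyE)).trans (le_abs_self _)
    have h4 : - lj ≤ Real.log ‖Gt z‖ := by rw [hlj]; exact neg_abs_le _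
    have h5 := h.G
    have h9 := mul_le_mul_of_nonneg_left h3 hδ₀.le
    have h10 := mul_le_mul_of_nonneg_left h4 hδ₀.le
    linarith
  have hANy0 : 0 ≤ D.S.AN β D.ω D.Nt (D.rad T) (yx y) (ys y) := ENNReal.toReal_nonneg
  have hWy0 : ∀ j, 0 ≤ D.W j y := H.Wnn y hyb
  have hWs0 : 0 ≤ D.Mw * ∑ j ∈ Iᶜ, D.W j y :=
    mul_nonneg H.Mw0.le (Finset.sum_nonneg fun j _ => hWy0 j)
  have hTη : (T : ℝ) * D.η₁ ≤ D.Tm * D.η₁ := mul_le_mul_of_nonneg_right hT' hη1.le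
  have hANε : D.S.AN β D.ω D.Nt (D.rad T) (yx y) (ys y) ≤ D.ε₀ := by
    have h1 := H.b1
    linarith
  have hW1 : ∀ j ∉ I, D.W j y < 1 := by
    intro j hj
    have h1 : D.W j y ≤ ∑ j ∈ Iᶜ, D.W j y :=
      Finset.single_le_sum (f := fun j => D.W j y) (fun j _ => hWy0 j) (Finset.mem_compl.2 hj)
    have h2 := mul_le_mul_of_nonneg_left h1 H.Mw0.le
    have h3 := H.b3
    have h4 : D.Mw * D.W j y < D.Mw * 1 := by linarith
    exact lt_of_mul_lt_mul_left h4 H.Mw0.le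
  have hQlt : Q < D.Dsp ^ 2 := by
    have h1 := H.b2
    have h2 : D.c₀ / 2 * Q < D.c₀ / 2 * D.Dsp ^ 2 := by linarith
    exact lt_of_mul_lt_mul_left h2 (half_pos hc0).le
  have hdist : ‖yx y - yx z‖ < D.Dsp := by
    have e1 : ‖D.S.co (yx y) - D.S.co (yx z)‖ = ‖yx y - yx z‖ := by
      rw [H.co _ hyU, H.co _ hAdm₀.xU]
      exact hfamn _ _
    have e2 : ‖yx y - yx z‖ ≤ Real.sqrt Q := by
      rw [← e1, pi_norm_le_iff_of_nonneg (Real.sqrt_nonneg _)]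
      intro i
      apply Real.le_sqrt_of_sq_le
      rw [hQ]
      exact Finset.single_le_sum (f := fun i : Fin 2 × Fin (d + 1) =>
        ‖D.S.co (yx y) i - D.S.co (yx z) i‖ ^ 2) (fun i _ => by positivity) (Finset.mem_univ i)
    calc ‖yx y - yx z‖ ≤ Real.sqrt Q := e2
      _ < Real.sqrt (D.Dsp ^ 2) := Real.sqrt_lt_sqrt hQ0 hQlt
      _ = D.Dsp := Real.sqrt_sq hdsp.le
  have hycl := H.strict y hyb hyA.crit
  have hFhn : ∀ k, D.f₀ < ‖Fh (D.ik k)‖ := fun k => by rw [hFhi]; exact h.Flow k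
  have hykc : ∀ k, ‖ys y k‖ < D.Kc := by
    intro k
    obtain ⟨h1, h2⟩ := H.ikA k
    have h3 := hyF (D.ik k) h1
    rw [h2] at h3
    have h4 : ‖Fh (D.ik k)‖ * ‖ys y k‖ = ‖D.pv (D.ik k) y‖ := by
      rw [← h3, ← norm_mul, div_mul_cancel₀ _ (hyk k)]
    have h5 := H.pos2 y hyb _ h1
    have h6 : ‖ys y k‖ ≤ D.M / D.f₀ := by
      rw [le_div_iff₀ H.f0]
      have := mul_le_mul_of_nonneg_right (hFhn k).le (norm_nonneg (ys y k))
      linarith [mul_comm ‖ys y k‖ D.f₀]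
    exact h6.trans_lt H.MK
  -- near the minimal point
  have hysc : ∀ k, ContinuousAt (fun z' : Ix d (2 * d) s → ℂ => ys z' k) y := fun k =>
    (ys_diff k).continuous.continuousAt
  have hpvc : ∀ i ∈ D.A, ContinuousAt (fun z' => D.pv i z' / ys z' (D.ks i)) y := by
    intro i hi
    have h1 : ContinuousAt (D.pv i) y :=
      ((hKPd i hi).differentiableAt (hOo.mem_nhds hyOO)).continuousAt
    exact h1.div (hysc _) (hyk _)
  have E1 : ∀ᶠ z' in 𝓝 y, ∀ i, ‖yc z' i - D.cl i‖ < D.ρ := by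
    refine eventually_all.2 fun i => ?_
    exact (((yc_diff i).continuous.sub continuous_const).norm).continuousAt.eventually_lt
      continuousAt_const (hycl i)
  have E2 : ∀ᶠ z' in 𝓝 y, ‖yx z' - D.uf‖ < (T + 2) * D.Dsp :=
    ((yx_diff.continuous.sub continuous_const).norm).continuousAt.eventually_lt
      continuousAt_const (hCb _ hyC).1
  have E3 : ∀ᶠ z' in 𝓝 y, ∀ k, ‖ys z' k‖ < D.Kc := by
    refine eventually_all.2 fun k => ?_
    exact (hysc k).norm.eventually_lt continuousAt_const (hykc k)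
  have E4 : ∀ᶠ z' in 𝓝 y, ∀ i, i ∈ D.A → ‖D.pv i z' / ys z' (D.ks i)‖ < D.F₁ := by
    refine eventually_all.2 fun i => ?_
    by_cases hi : i ∈ D.A
    · have h1 : ‖D.pv i y / ys y (D.ks i)‖ < D.F₁ := by
        rw [hyF i hi, hFhi]; exact h.Fup i hi
      exact ((hpvc i hi).norm.eventually_lt continuousAt_const h1).mono fun _ a _ => a
    · exact Eventually.of_forall fun _ a => absurd a hi
  have E5 : ∀ᶠ z' in 𝓝 y, ∀ k, D.f₀ < ‖D.pv (D.ik k) z' / ys z' (D.ks (D.ik k))‖ := by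
    refine eventually_all.2 fun k => ?_
    have h1 : D.f₀ < ‖D.pv (D.ik k) y / ys y (D.ks (D.ik k))‖ := by
      rw [hyF _ (H.ikA k).1]; exact hFhn k
    exact continuousAt_const.eventually_lt (hpvc _ (H.ikA k).1).norm h1
  have E6 : ∀ᶠ z' in 𝓝 y, D.S.AN β D.ω D.Nt (D.rad (T + 1)) (yx z') (ys z') <
      D.S.AN β D.ω D.Nt (D.rad T) (yx y) (ys y) + D.η₁ / 8 := by
    have h1 := an_drift D.S D.Nt (β := β) H.hβ1 H.hβ2 H.koe H.lin (H.rad0 T) (H.rad_succ T)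
      (q₀ := (yx y, ys y)) hyN hyk (fun k =>
        (mul_le_mul_of_nonneg_left hradT1.le (norm_nonneg _)).trans_lt (hκr y hyL k))
      (η := D.η₁ / 8) (by positivity)
    have h2 : Continuous fun z' : Ix d (2 * d) s → ℂ => (yx z', ys z') :=
      yx_diff.continuous.prodMk (continuous_pi fun k => (ys_diff k).continuous)
    exact h2.continuousAt.eventually h1
  obtain ⟨η₂, hη₂⟩ : ∃ η₂ : ℝ, η₂ = D.η₁ / (8 * D.Mw * (m + 1)) := ⟨_, rfl⟩
  have hMw := H.Mw0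
  have hη₂0 : 0 < η₂ := by rw [hη₂]; positivity
  have hη₂m : D.Mw * (m * η₂) ≤ D.η₁ / 8 := by
    have e1 : D.Mw * ((m + 1) * η₂) = D.η₁ / 8 := by
      rw [hη₂]
      field_simp
    have e2 : D.Mw * (m * η₂) ≤ D.Mw * ((m + 1) * η₂) := by
      apply mul_le_mul_of_nonneg_left _ hMw.le
      nlinarith
    linarith
  have E7 : ∀ᶠ z' in 𝓝 y, ∀ j, D.W j z' < max (D.W j y) D.wN + η₂ :=
    eventually_all.2 fun j => H.Wdr y hyin j η₂ hη₂0
  have E8 : ∀ᶠ z' in 𝓝 y, ∀ j ∈ I, ‖ey D.σ (P j) j z'‖ < εc j ∧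
      δc j / 2 < ‖gy D.σ (P j) j z'‖ := by
    refine (eventually_all.2 fun j => ?_ : ∀ᶠ z' in 𝓝 y, ∀ j, j ∈ I → _)
    by_cases hj : j ∈ I
    · obtain ⟨a1, a2⟩ := hyE3 j hj
      obtain ⟨-, g2, -⟩ := h.gap j hj
      have h1 : ∀ᶠ z' in 𝓝 y, ‖ey D.σ (P j) j z'‖ < εc j := by
        refine ((ey_diff (s := s) hd D.σ (P j) j).continuous.norm.continuousAt).eventually_lt
          continuousAt_const ?_
        rw [a1]
        exact (h.don j hj).1
      have h2 : ∀ᶠ z' in 𝓝 y, δc j / 2 < ‖gy D.σ (P j) j z'‖ := by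
        refine continuousAt_const.eventually_lt
          ((gy_cont (s := s) hd D.σ (P j) j).norm.continuousAt) ?_
        linarith
      filter_upwards [h1, h2] with z' b1 b2 _ using ⟨b1, b2⟩
    · exact Eventually.of_forall fun _ a => absurd a hj
  have E9 : ∀ᶠ z' in 𝓝 y, ∀ j, j ∉ I → ∀ k, ∀ i ≤ D.Nt + D.S.per k,
      ¬ D.S.InC k (yx z') ((D.S.F (yx z'))^[i] (yc z' (D.σ j), 1)) := by
    refine eventually_all.2 fun j => ?_
    by_cases hj : j ∈ I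
    · exact Eventually.of_forall fun _ a => absurd hj a
    · exact (H.Wprot y hyin j (hW1 j hj)).mono fun _ a _ => a
  have E10 : ∀ᶠ z' in 𝓝 y, z' ∈ Oo := hOo.mem_nhds hyOO
  have E11 : ∀ᶠ z' in 𝓝 y, Gt z' ≠ 0 :=
    ((hGtd.differentiableAt (hOo.mem_nhds hyOO)).continuousAt).eventually_ne hyG
  obtain ⟨Ω, hΩ1, hΩo, hyΩ⟩ := _root_.eventually_nhds_iff.1 (E1.and (E2.and (E3.and (E4.and (E5.and
    (E6.and (E7.and (E8.and (E9.and (E10.and E11))))))))))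
  have hΩb : ∀ z' ∈ Ω, z' ∈ D.bx := by
    intro z' hz'
    obtain ⟨a1, a2, -⟩ := hΩ1 z' hz'
    refine ⟨a2.le.trans ?_, fun i => (a1 i).le⟩
    exact mul_le_mul_of_nonneg_right (by linarith) hdsp.le
  have hΩin : ∀ z' ∈ Ω, ‖yx z' - D.uf‖ < (D.Tm + 2) * D.Dsp := by
    intro z' hz'
    obtain ⟨a1, a2, -⟩ := hΩ1 z' hz'
    refine a2.trans_le ?_
    exact mul_le_mul_of_nonneg_right (by linarith) hdsp.le
  have hΩU : ∀ z' ∈ Ω, yx z' ∈ D.S.U := fun z' hz' => H.lin.NU (H.bN _ (hΩb z' hz').1)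
  have hΩg : ∀ z' ∈ Ω, (∀ j, D.S.Er j z' = 0) → ∀ j ∈ I,
      δc j ≤ ‖gy D.σ (P j) j z'‖ ∧ Qp (P j) (yx z', yc z' (D.σ j)) := by
    intro z' hz' hE j hj
    obtain ⟨-, -, -, -, -, -, -, a8, -⟩ := hΩ1 z' hz'
    exact H.use_gap (h.gap j hj) (hΩb z' hz') hE (a8 j hj).1 (a8 j hj).2
  -- the functional at nearby points
  have hfun : ∀ z' ∈ Ω, ∀ I' : Finset (Fin m), I ⊆ I' →
      D.S.AN β D.ω D.Nt (D.rad (T + 1)) (yx z') (ys z') + D.Mw * ∑ j ∈ I'ᶜ, D.W j z' <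
        D.g₀ + ((T + 1 : ℕ) : ℝ) * D.η₁ := by
    intro z' hz' I' hII
    obtain ⟨-, -, -, -, -, a6, a7, -⟩ := hΩ1 z' hz'
    have h1 : ∑ j ∈ I'ᶜ, D.W j z' ≤ ∑ j ∈ Iᶜ, D.W j z' := by
      apply Finset.sum_le_sum_of_subset_of_nonneg
      · exact Finset.compl_subset_compl.2 hII
      · intro j _ _
        exact H.Wnn z' (hΩb z' hz') j
    have h2 : ∑ j ∈ Iᶜ, D.W j z' ≤ ∑ j ∈ Iᶜ, (D.W j y + (D.wN + η₂)) := by
      apply Finset.sum_le_sum
      intro j _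
      have b1 := a7 j
      have b2 : max (D.W j y) D.wN ≤ D.W j y + D.wN :=
        max_le (by linarith [H.wN0]) (by linarith [hWy0 j])
      linarith
    have h3 : ∑ j ∈ Iᶜ, (D.W j y + (D.wN + η₂)) ≤ ∑ j ∈ Iᶜ, D.W j y + m * (D.wN + η₂) := by
      rw [Finset.sum_add_distrib, Finset.sum_const, nsmul_eq_mul]
      have b1 : (Iᶜ.card : ℝ) ≤ m := by
        have := Finset.card_le_univ (Iᶜ)
        rw [Fintype.card_fin] at this
        exact_mod_cast this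
      have b2 : (Iᶜ.card : ℝ) * (D.wN + η₂) ≤ m * (D.wN + η₂) :=
        mul_le_mul_of_nonneg_right b1 (by linarith [H.wN0])
      linarith
    have h4 := mul_le_mul_of_nonneg_left (h1.trans (h2.trans h3)) hMw.le
    have h5 : D.Mw * (∑ j ∈ Iᶜ, D.W j y + m * (D.wN + η₂)) =
        D.Mw * ∑ j ∈ Iᶜ, D.W j y + D.Mw * (m * D.wN) + D.Mw * (m * η₂) := by ring
    rw [h5] at h4
    have h6 := H.b4
    push_cast
    linarith
  by_cases hrel : ∃ z' ∈ Ω, (∀ j, D.S.Er j z' = 0) ∧ ∃ j, j ∉ I ∧ ∃ p : ℕ, 1 ≤ p ∧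
      ey D.σ p j z' = 0
  · -- a new critical point becomes periodic
    obtain ⟨z₁, hz₁, hz₁E, j, hj, hex⟩ := hrel
    obtain ⟨p, hp⟩ : ∃ p, p = Nat.find hex := ⟨_, rfl⟩
    have hp1 : 1 ≤ p ∧ ey D.σ p j z₁ = 0 := by rw [hp]; exact Nat.find_spec hex
    have hmin : ∀ a : ℕ, 1 ≤ a → a < p → ey D.σ a j z₁ ≠ 0 := by
      intro a ha hap h0
      rw [hp] at hap
      exact Nat.find_min hex hap ⟨ha, h0⟩
    have hz₁G : Gt z₁ ≠ 0 := (hΩ1 z₁ hz₁).2.2.2.2.2.2.2.2.2.2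
    have hpPm : Pm < p := by
      by_contra hcon
      push Not at hcon
      exact ((hGtne z₁).1 hz₁G).2.2 j hj p hp1.1 hcon hp1.2
    obtain ⟨ε', δ', hgap⟩ := gap_exists hd
      (isCompact_closedBall D.uf ((D.Tm + 2) * D.Dsp)) (fun x hx => by
        rw [mem_closedBall, dist_eq_norm] at hx
        exact H.inU₀ (H.lin.NU (H.bN x hx))) (D.cl (D.σ j)) D.ρ hp1.1
    have hgap' := hgap
    obtain ⟨hε', hδ', hg⟩ := hgap'
    have hz₁b := hΩb z₁ hz₁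
    have hg1 := (hg (yx z₁) (by rw [mem_closedBall, dist_eq_norm]; exact hz₁b.1)
      (yc z₁ (D.σ j)) (H.wr0 (hΩU z₁ hz₁) hz₁E _) (hz₁b.2 _)).1 hp1.2
      (gp_ne.2 fun a ha hap => hmin a ha hap)
    have F1 : ∀ᶠ z' in 𝓝 z₁, z' ∈ Ω := hΩo.mem_nhds hz₁
    have F2 : ∀ᶠ z' in 𝓝 z₁, ‖ey D.σ p j z'‖ < ε' := by
      refine ((ey_diff (s := s) hd D.σ p j).continuous.norm.continuousAt).eventually_lt
        continuousAt_const ?_
      rw [hp1.2, norm_zero]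
      exact hε'
    have F3 : ∀ᶠ z' in 𝓝 z₁, δ' < ‖gy D.σ p j z'‖ := by
      refine continuousAt_const.eventually_lt ((gy_cont (s := s) hd D.σ p j).norm.continuousAt) ?_
      show δ' < ‖Gp p (yx z₁, yc z₁ (D.σ j))‖
      linarith
    obtain ⟨z₂, ⟨hz₂, hz₂e, hz₂g⟩, hz₂s, hz₂E, hz₂i, hz₂U, hz₂q, hz₂v⟩ :=
      startq D.S H.co (hΩU z₁ hz₁) hz₁E (q := p.factorial) (Nat.factorial_pos p)
        (F1.and (F2.and F3))
    obtain ⟨a1, a2, a3, a4, a5, a6, a7, a8, a9, a10, a11⟩ := hΩ1 z₂ hz₂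
    rw [hOe] at a10
    have hz₂G := (hGtne z₂).1 a11
    have hAdm₂ : D.S.Adm D.A D.ks D.ls z₂ :=
      ⟨a10.1, a10.2.1, hz₂G.1.2.1, hz₂E, H.lsp, a10.2.2⟩
    have hupd : ∀ {β' : Type} (f : Fin m → β') (b : β') (i : Fin m), i ∈ I →
        Function.update f j b i = f i := fun f b i hi =>
      Function.update_of_ne (fun h0 : i = j => hj (by rw [← h0]; exact hi)) b f
    refine ⟨insert j I, Function.update P j p, Function.update εc j ε', Function.update δc j δ', p,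
      0, z₂, ⟨goode_zero hAdm₂ hz₂i, hz₂i, fun i => (a1 i).le, ?_, a3, fun i hi => a4 i hi, a5,
      ?_, ?_, ?_, ?_, ?_, ?_, ?_, ?_⟩, Or.inr ⟨Finset.ssubset_insert hj, rfl⟩⟩
    · push_cast
      linarith
    · intro i _
      unfold vy
      rw [Finset.prod_ne_zero_iff]
      intro i' _
      exact hz₂v i' (D.σ i)
    · intro i _ a ha hap h0
      exact hz₂q (D.σ i) (ep_mul (H.inU₀ hz₂U) h0 (Nat.dvd_factorial ha hap))
    · exact h.NP.trans hpPm.le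
    · intro i hi
      rcases Finset.mem_insert.1 hi with rfl | hi'
      · rw [Function.update_self]
        exact ⟨lt_of_le_of_lt h.NP hpPm, le_rfl⟩
      · rw [hupd P p i hi']
        exact ⟨(h.per i hi').1, (h.per i hi').2.trans hpPm.le⟩
    · intro i hi i' hi' he
      rcases Finset.mem_insert.1 hi with h1 | h1
      · rcases Finset.mem_insert.1 hi' with h2 | h2
        · rw [h1, h2]
        · rw [h1, Function.update_self, hupd P p i' h2] at he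
          have := (h.per i' h2).2
          omega
      · rcases Finset.mem_insert.1 hi' with h2 | h2
        · rw [h2, Function.update_self, hupd P p i h1] at he
          have := (h.per i h1).2
          omega
        · rw [hupd P p i h1, hupd P p i' h2] at he
          exact h.pin i h1 i' h2 he
    · intro i hi
      rcases Finset.mem_insert.1 hi with h1 | h1
      · rw [h1, Function.update_self, Function.update_self, Function.update_self]
        exact hgap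
      · rw [hupd P p i h1, hupd εc ε' i h1, hupd δc δ' i h1]
        exact h.gap i h1
    · intro i hi
      rcases Finset.mem_insert.1 hi with h1 | h1
      · rw [h1, Function.update_self, Function.update_self, Function.update_self]
        exact ⟨hz₂e, hz₂g.le⟩
      · rw [hupd P p i h1, hupd εc ε' i h1, hupd δc δ' i h1]
        exact ⟨(a8 i h1).1, (hΩg z₂ hz₂ hz₂E i h1).1⟩
    · exact hfun z₂ hz₂ (insert j I) (Finset.subset_insert j I)
  · -- no relations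
    push Not at hrel
    by_contra hcon
    have hcon' : ∀ z', ¬ D.Inv (T + 1) I P εc δc Pm (R + 1) z' := fun z' hz' =>
      hcon ⟨I, P, εc, δc, Pm, R + 1, z', hz', Or.inl ⟨rfl, rfl⟩⟩
    -- the disc
    have hkopen : IsOpen {z' : Ix d (2 * d) s → ℂ | ∀ k, ys z' k ≠ 0} := by
      have : {z' : Ix d (2 * d) s → ℂ | ∀ k, ys z' k ≠ 0} = ⋂ k, {z' | ys z' k ≠ 0} := by
        ext; simp
      rw [this]
      exact isOpen_iInter_of_finite fun k =>
        isOpen_ne_fun (ys_diff k).continuous continuous_const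
    have hgx := gx_diff D.S H.koe D.A D.ks D.ls (Ps := Ps) I (O₂ := univ) hPsd
    rw [← hOe, inter_univ] at hgx
    have hIc : I.card < m := by
      have := (Finset.card_lt_iff_ne_univ I).2 hI
      rwa [Fintype.card_fin] at this
    have hcard : Fintype.card (Fin (2 * d - 2)) + Fintype.card (Rx d s m D.A I) <
        Fintype.card (Ix d (2 * d) s) := by
      have h1 : Fintype.card (Rx d s m D.A I) = (s + D.A.card) + I.card := by
        simp [Rx, Pool.Agent.W757.RD.Sys.Rw, Fintype.card_sum, Fintype.card_coe]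
      have h2 : Fintype.card (Ix d (2 * d) s) = 2 * d + ((2 * d - 2) + s) := by
        simp [Ix, Fintype.card_sum]
      have h3 := H.card
      rw [h1, h2, Fintype.card_fin]
      omega
    have hdety : (Mr D.S D.KK D.A D.ks D.ls Ps I sel col y).det ≠ 0 := by
      intro h0
      exact hyJ ((hJ0 y hyU hyA.lam0 hyA.att (mem_univ _) hyk).mpr h0)
    obtain ⟨τ, γ, hτ, hγd, hγ0, hγ', hγ⟩ := Pool.Agent.H790R3.RB.DISC (Ix d (2 * d) s)
      (Fin (2 * d - 2)) (Rx d s m D.A I) D.S.Er (Gx D.S D.KK D.A D.ks D.ls Ps I)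
      ((Oo ∩ {z' | ∀ k, ys z' k ≠ 0}) ∩ Ω) y R sel col
      ((hOo.inter hkopen).inter hΩo) ⟨⟨hyOO, hyk⟩, hyΩ⟩
      (fun i => (hErd i).mono (fun z' hz' => hz'.1.1))
      (fun a => (hgx a).mono (fun z' hz' => hz'.1)) hcard (fun i => hyA.crit i) (by
        refine mt (fun h => ?_) hdety
        convert h using 2
        ext a c
        rcases a with a | a
        · rfl
        · rfl) (by
        intro z' hz' hEz sel' col'
        by_contra hne
        have hne' : (Mr D.S D.KK D.A D.ks D.ls Ps I sel' col' z').det ≠ 0 := by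
          refine mt (fun h => ?_) hne
          convert h using 2
          ext a c
          rcases a with a | a
          · rfl
          · rfl
        obtain ⟨⟨hzO, hzk⟩, hzΩ⟩ := hz'
        rw [hOe] at hzO
        obtain ⟨a1, a2, a3, a4, a5, a6, a7, a8, a9, a10, a11⟩ := hΩ1 z' hzΩ
        have hzG := (hGtne z').1 a11
        apply hcon' z'
        rw [hPs] at hne'
        refine ⟨⟨⟨hzO.1, hzO.2.1, hzk, hEz, H.lsp, hzO.2.2⟩, sel', col', hne'⟩,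
          hzG.1.2.2, fun i => (a1 i).le, ?_, a3, fun i hi => a4 i hi, a5, hzG.2.1, hzG.2.2, h.NP,
          h.per, h.pin, h.gap, fun j hj => ⟨(a8 j hj).1, (hΩg z' hzΩ hEz j hj).1⟩,
          hfun z' hzΩ I (Finset.Subset.refl I)⟩
        push_cast
        linarith)
    have hγΩ : ∀ t ∈ ball (0 : ℂ) τ, γ t ∈ Ω := fun t ht => (hγ t ht).1.2
    have hDP : DP (fun t => D.Mw * ∑ j ∈ Iᶜ, D.W j (γ t)) := by
      refine (DP.sum Iᶜ fun j hj => ?_).mul hMw.le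
      refine H.Wdisc τ γ hτ hγd (fun t ht => ⟨hΩin _ (hγΩ t ht), (hγ t ht).2.1⟩) j ?_ ?_
      · rw [hγ0]
        exact hycr j (Finset.mem_compl.1 hj)
      · intro t ht p hp h0
        exact hrel (γ t) (hγΩ t ht) (hγ t ht).2.1 j (Finset.mem_compl.1 hj) p hp h0
    refine no_minw p_LAM p_ADO p_LF p_OPN p_BAD p_NC D.S hNrm e0
      (fun i => i.elim0) H.koe hΩo hc0 (D.S.co (yx z)) H.di H.lsp (H.bA 0) (H.bA 1) hlam0 H.lin
      (H.rad0 T) hradT H.Kra hKL H.per hbase (Gt := Gt) ?_ ?_ hδ₀ y (by rw [← hLF]; exact hyL) hyN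
      hyΩ ?_ ?_ ?_ hyk hykc ?_ ?_ hANε hτ hγd hγ0 hγ' ?_
      (Wt := fun t => D.Mw * ∑ j ∈ Iᶜ, D.W j (γ t)) hDP ?_
    · exact hGtd.mono fun z' hz' => (hΩ1 z' hz').2.2.2.2.2.2.2.2.2.1
    · intro z' hz'
      exact (hΩ1 z' hz').2.2.2.2.2.2.2.2.2.2
    · intro z' hz'L hz' i hi k n hn hin
      obtain ⟨j, rfl⟩ := H.σA i hi
      by_cases hj : j ∈ I
      · have hq := (hΩg z' hz' hz'L.2.2.2.1 j hj).2
        have hPj : ∀ k, D.S.per k < P j := fun k => lt_of_le_of_lt (H.perN k) (h.per j hj).1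
        exact qp_na D.S H.co hPj (hΩU z' hz') hq ⟨k, n, hin⟩
      · exact (hΩ1 z' hz').2.2.2.2.2.2.2.2.1 j hj k n hn hin
    · have h1 : ∀ᶠ z' in 𝓝 y, ‖yx z' - yx z‖ < D.Dsp :=
        ((yx_diff.continuous.sub continuous_const).norm).continuousAt.eventually_lt
          continuousAt_const hdist
      filter_upwards [h1] with z' hz' _ _
      rw [hC, mem_closedBall, dist_eq_norm]
      exact hz'.le
    · refine ⟨1, one_pos, fun x hx _ _ hco => ?_⟩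
      rw [H.co x hx, H.co _ hyU] at hco
      have h1 := hfamn x (yx y)
      rw [hco, sub_self, norm_zero] at h1
      exact sub_eq_zero.1 (norm_eq_zero.1 h1.symm)
    · intro k
      refine ⟨D.ik k, (H.ikA k).1, (H.ikA k).2, ?_⟩
      have := hFhn k
      have h0 := H.f0
      intro h1
      rw [h1, norm_zero] at this
      linarith
    · rw [H.co _ hyU]
      have h1 := H.near
      have h2 : ‖fam (yx y) - fam D.uf‖ ≤ (D.Tm + 2) * D.Dsp := by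
        rw [hfamn]
        exact (hCb _ hyC).2
      calc ‖fam (yx y) - D.x₀‖ = ‖(fam (yx y) - fam D.uf) + (fam D.uf - D.x₀)‖ := by
            congr 1; abel
        _ ≤ ‖fam (yx y) - fam D.uf‖ + ‖fam D.uf - D.x₀‖ := norm_add_le _ _
        _ < D.σ₀ := by linarith
    · intro t ht
      exact ⟨(hγ t ht).2.1, fun a => (hγ t ht).2.2 (Sum.inl a)⟩
    · intro t ht htL htΩ
      have htE : γ t ∈ LE := by
        rw [hLE]
        obtain ⟨a1, a2, a3, a4, a5, a6, a7, a8, a9, a10, a11⟩ := hΩ1 (γ t) htΩ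
        refine ⟨by rw [hLF]; exact htL, fun i => (a1 i).le, fun j hj => ⟨?_, ?_⟩⟩
        · have h1 : Gx D.S D.KK D.A D.ks D.ls Ps I (Sum.inr ⟨j, hj⟩) (γ t) =
              Gx D.S D.KK D.A D.ks D.ls Ps I (Sum.inr ⟨j, hj⟩) y := (hγ t ht).2.2 (Sum.inr ⟨j, hj⟩)
          have h2 : Ps j (γ t) = Ps j y := h1
          rw [hPs] at h2
          exact h2.trans (hyE3 j hj).1
        · exact (hΩg _ htΩ (hγ t ht).2.1 j hj).1
      have htG : 0 < ‖Gt (γ t)‖ := norm_pos_iff.2 (hΩ1 _ htΩ).2.2.2.2.2.2.2.2.2.2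
      have h3 := hymin (γ t) htE htG
      simp only [hγ0]
      linarith

end Pool.Agent.Zk23
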