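import Mathlib
import Pool.Agent.Zk23.MXS
import Pool.Agent.Zk23.NCT
import Pool.Agent.Zk23.ETT

/-! Mixed assignments of the free critical points, part 2: one step of the construction. -/

set_option autoImplicit false
set_option linter.unusedVariables false

open Topology Filter Metric Set MeasureTheory
open Pool.Agent.H790R3.RB (CV hF cr ND wr rt Ix yx yc yx_diff yc_diff exists_low lsc_comp)
open Pool.Agent.W757.RD
open Pool.Agent.W440.RE.JT (prod_diff)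
open Pool.Agent.W402.RE.MINP (ys_diff DIprop exists_L)

namespace Pool.Agent.Zk23

theorem log_auxJ {ι : Type} [DecidableEq ι] (s : Finset ι) (g : ℂ) (a b : ι → ℂ) (hg : g ≠ 0)
    (ha : ∀ j ∈ s, a j ≠ 0) (hb : ∀ j ∈ s, b j ≠ 0) (p : ℕ) :
    Real.log ‖g * ∏ j ∈ s, (a j / b j) ^ p‖ =
      Real.log ‖g‖ - p * ∑ j ∈ s, Real.log (‖b j‖ / ‖a j‖) := by
  have h1 : ∀ j ∈ s, ‖(a j / b j) ^ p‖ ≠ 0 := fun j hj =>
    norm_ne_zero_iff.2 (pow_ne_zero _ (div_ne_zero (ha j hj) (hb j hj)))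
  rw [norm_mul, norm_prod, Real.log_mul (norm_ne_zero_iff.2 hg)
    (Finset.prod_ne_zero_iff.2 fun j hj => h1 j hj), Real.log_prod (fun j hj => h1 j hj),
    Finset.mul_sum, sub_eq_add_neg, ← Finset.sum_neg_distrib]
  congr 1
  refine Finset.sum_congr rfl fun j hj => ?_
  rw [norm_pow, Real.log_pow, norm_div, Real.log_div (norm_ne_zero_iff.2 (ha j hj))
    (norm_ne_zero_iff.2 (hb j hj)), Real.log_div (norm_ne_zero_iff.2 (hb j hj))
    (norm_ne_zero_iff.2 (ha j hj))]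
  ring

theorem DatX.Ok.step {β : ℝ} {d m s : ℕ} {D : DatX β d m s} (H : D.Ok) {T : ℕ}
    {I : Finset (Fin m)} {P : Fin m → ℕ} {εc δc : Fin m → ℝ} {Pm : ℕ} {R : ℕ}
    {z : Ix d (2 * d) s → ℂ} (h : D.Inv T I P εc δc Pm R z)
    (hI : I ≠ Finset.univ) (hT : T ≤ D.Tm) :
    ∃ (I' : Finset (Fin m)) (P' : Fin m → ℕ) (εc' δc' : Fin m → ℝ) (Pm' : ℕ) (R' : ℕ)
      (z' : Ix d (2 * d) s → ℂ), D.Inv (T + 1) I' P' εc' δc' Pm' R' z' ∧
      ((I' = I ∧ R' = R + 1) ∨ (I ⊂ I' ∧ R' = 0)) := by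
  classical
  obtain ⟨hAdm₀, sel, col, hdet₀⟩ := h.good
  have hd : 2 ≤ d := D.S.hd
  obtain ⟨-, -, hfamn, hfamN, -⟩ := p_FM d hd
  obtain ⟨-, hlamθ, -⟩ := p_LAM d (2 * d) s D.S
  obtain ⟨Oo, hOo, hOe, hErd, hKPd, hGrd⟩ :=
    p_ADO d (2 * d) s 0 D.S D.KK e0 D.A D.ks D.ls H.koe (fun i => i.elim0)
  have hdsp := H.dsp
  have hr0 := H.rr0
  have hη1 := H.η0
  have hα0 := H.α0
  have hc0 := H.c0
  have hMw := H.Mw0
  have hNrm : ∀ x ∈ D.S.U, Nrm (D.S.co x) := fun x hx => by rw [H.co x hx]; exact hfamN x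
  have hlam0 : ∀ k, D.S.lam k (yx z) ≠ 0 := hAdm₀.lam0
  -- the ball of parameters
  obtain ⟨C, hC⟩ : ∃ C : Set (Fin (2 * d) → ℂ), C = closedBall (yx z) D.Dsp := ⟨_, rfl⟩
  have hCc : IsCompact C := by rw [hC]; exact isCompact_closedBall _ _
  have hCd : ∀ x ∈ C, ‖x - yx z‖ ≤ D.Dsp := by
    intro x hx
    rwa [hC, mem_closedBall, dist_eq_norm] at hx
  have hCb : ∀ x ∈ C, ‖x - D.uf‖ < (T + 2) * D.Dsp ∧ ‖x - D.uf‖ ≤ (D.Tm + 2) * D.Dsp :=
    fun x hx => H.Nt_le hT h.u (hCd x hx)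
  have hCN : C ⊆ D.N := fun x hx => H.bN x (hCb x hx).2
  have hCU : C ⊆ D.S.U := fun x hx => H.lin.NU (hCN hx)
  have hzC : yx z ∈ C := by rw [hC]; exact mem_closedBall_self hdsp.le
  have hzb : z ∈ D.bx := ⟨(hCb _ hzC).2, h.ycl⟩
  have hzw : z ∈ D.wn := by
    intro j hjJ
    by_cases hj : j ∈ I
    · obtain ⟨a, b⟩ := h.win2 j hjJ hj
      exact ⟨a.le, b.le.trans (mul_le_mul_of_nonneg_right H.rR.le (norm_nonneg _))⟩
    · obtain ⟨a, b⟩ := h.win1 j hjJ hj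
      refine ⟨le_trans ?_ a, b.le⟩
      exact mul_le_mul_of_nonneg_right (by linarith) (norm_nonneg _)
  have hzne : ∀ j ∈ D.J, D.Df j z ≠ 0 ∧ D.Nf j z ≠ 0 := fun j hj => H.ne hzb hzw hj
  -- the relative positions
  obtain ⟨Fh, hFh⟩ : ∃ Fh : Pt d → ℂ, Fh = fun i => D.pv i z / ys z (D.ks i) := ⟨_, rfl⟩
  have hFhi : ∀ i, Fh i = D.pv i z / ys z (D.ks i) := fun i => by rw [hFh]
  have hKc0 : 0 < D.Kc := (div_nonneg H.M0 H.f0.le).trans_lt H.MK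
  have hlamF : ∀ i ∈ D.A, ∀ j : ℕ, ‖D.S.lam (D.ks i) (yx z) ^ j * Fh i‖ ≤ D.S.θ ^ j * D.F₁ := by
    intro i hi j
    rw [norm_mul, norm_pow]
    have h1 : ‖Fh i‖ < D.F₁ := by rw [hFhi]; exact h.Fup i hi
    exact mul_le_mul (pow_le_pow_left₀ (norm_nonneg _) (hlamθ _ _ hAdm₀.xU) j) h1.le (norm_nonneg _)
      (pow_nonneg D.S.hθ0 j)
  have hKL : ∀ i ∈ D.A, D.Kc * ‖D.S.lam (D.ks i) (yx z) ^ D.L * Fh i‖ < D.r := fun i hi =>
    (mul_le_mul_of_nonneg_left (hlamF i hi D.L) hKc0.le).trans_lt H.KF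
  have hbase : ∀ j : Fin 2, ∃ L' a : ℕ, D.L ≤ L' ∧ a < D.S.per (D.ks (Sum.inr j)) ∧
      D.Nt = D.ls (Sum.inr j) + (D.S.per (D.ks (Sum.inr j)) * L' + a) ∧
      ‖D.S.lam (D.ks (Sum.inr j)) (yx z) ^ L' * Fh (Sum.inr j)‖ < 3 * D.ra := by
    intro j
    obtain ⟨L', a, h1, h2, h3, h4⟩ := H.base j
    exact ⟨L', a, h1, h2, h3, (hlamF _ (H.bA j) L').trans_lt h4⟩
  obtain ⟨LF, hLF⟩ : ∃ LF, LF = D.S.Leaf D.ω e0 D.A D.ks D.ls D.L C D.Kc z Fh := ⟨_, rfl⟩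
  have hzL : z ∈ LF := by
    rw [hLF]
    refine ⟨hzC, fun i => i.elim0, fun _ => rfl, hAdm₀.crit, fun k => (h.kc k).le, ?_⟩
    intro i hi
    have h1 := H.pos3 z hzb i hi
    have e1 : ys z (D.ks i) * (D.S.lam (D.ks i) (yx z) ^ D.L * Fh i) =
        D.S.lam (D.ks i) (yx z) ^ D.L * D.pv i z := by
      rw [hFhi]
      have := hAdm₀.kap0 (D.ks i)
      field_simp
    rw [e1]
    exact h1
  have hcompL : IsCompact LF := by
    rw [hLF]
    exact p_CPT d (2 * d) s 0 D.S D.KK D.r D.N D.ω e0 D.A D.ks D.ls D.L C D.Kc z Fh H.koe H.lin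
      (fun i => i.elim0) hCc hCU (fun x hx => hCN hx.1) hKL
  have hLC : ∀ y ∈ LF, yx y ∈ C := by
    intro y hy
    rw [hLF] at hy
    exact hy.1
  have hLU : ∀ y ∈ LF, yx y ∈ D.S.U := fun y hy => hCU (hLC y hy)
  have hLO : ∀ y ∈ LF, y ∈ Oo := by
    intro y hy
    have h1 := hy
    rw [hLF] at h1
    rw [hOe]
    exact ⟨hLU y hy, fun k => H.lin.lam0 _ (hCN (hLC y hy)) k,
      (p_LF d (2 * d) s 0 D.S D.KK D.r D.N D.ω e0 D.A D.ks D.ls D.L C D.Kc z y Fh H.koe H.lin hlam0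
        H.lsp hKL (hCN (hLC y hy)) h1).1⟩
  have hLadm : ∀ y ∈ LF, (∀ k, ys y k ≠ 0) → D.S.Adm D.A D.ks D.ls y ∧
      ∀ i ∈ D.A, D.pv i y / ys y (D.ks i) = Fh i := by
    intro y hy hk
    have h1 := hy
    rw [hLF] at h1
    exact (p_LF d (2 * d) s 0 D.S D.KK D.r D.N D.ω e0 D.A D.ks D.ls D.L C D.Kc z y Fh H.koe H.lin
      hlam0 H.lsp hKL (hCN (hLC y hy)) h1).2.2 hk
  -- the functions
  have hVo : IsOpen {y : Ix d (2 * d) s → ℂ | yx y ∈ D.S.U} := D.S.hU.preimage yx_diff.continuous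
  have hNc : ∀ j, ContinuousOn (D.Nf j) {y | yx y ∈ D.S.U} := fun j => (H.Nd j).continuousOn
  have hDc : ∀ j, ContinuousOn (D.Df j) {y | yx y ∈ D.S.U} := fun j => (H.Dd j).continuousOn
  obtain ⟨O₂, hO₂e⟩ : ∃ O₂ : Set (Ix d (2 * d) s → ℂ),
    O₂ = {y | yx y ∈ D.S.U ∧ ∀ j ∈ D.J, D.Df j y ≠ 0} := ⟨_, rfl⟩
  have hO₂ : IsOpen O₂ := by
    have h1 : O₂ = {y | yx y ∈ D.S.U} ∩ ⋂ j : {j : Fin m // j ∈ D.J},
        ({y | yx y ∈ D.S.U} ∩ (D.Df j) ⁻¹' {0}ᶜ) := by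
      rw [hO₂e]
      ext y
      simp only [mem_ofPred_eq, mem_inter_iff, mem_iInter, mem_preimage, mem_compl_iff,
        mem_singleton_iff]
      constructor
      · rintro ⟨a, b⟩
        exact ⟨a, fun j => ⟨a, b j.1 j.2⟩⟩
      · rintro ⟨a, b⟩
        exact ⟨a, fun j hj => (b ⟨j, hj⟩).2⟩
    rw [h1]
    exact hVo.inter (isOpen_iInter_of_finite fun j =>
      (hDc j).isOpen_inter_preimage hVo isOpen_compl_singleton)
  have hO₂U : O₂ ⊆ {y | yx y ∈ D.S.U} := fun y hy => by rw [hO₂e] at hy; exact hy.1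
  obtain ⟨Ps, hPs⟩ : ∃ Ps : Fin m → (Ix d (2 * d) s → ℂ) → ℂ, Ps = D.Ps P := ⟨_, rfl⟩
  rw [← hPs] at hdet₀
  have hPsd : ∀ j ∈ I, DifferentiableOn ℂ (Ps j) O₂ := by
    intro j _
    rw [hPs]
    by_cases hj : j ∈ D.J
    · rw [DatX.ps_old hj]
      refine diffOn_div ((H.Nd j).mono hO₂U) ((H.Dd j).mono hO₂U) ?_
      intro y hy
      rw [hO₂e] at hy
      exact hy.2 j hj
    · rw [DatX.ps_new hj]
      exact (ey_diff hd D.σ (P j) j).differentiableOn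
  obtain ⟨Jt, hJd, hJ0⟩ := jt_ext D.S H.koe D.A D.ks D.ls I sel col hO₂ hPsd
  rw [← hOe] at hJd
  -- the part of the leaf
  obtain ⟨wl, hwl⟩ : ∃ wl : Fin m → ℝ, wl = fun j => if j ∈ I then D.rr / 2 else D.rr := ⟨_, rfl⟩
  obtain ⟨wh, hwh⟩ : ∃ wh : Fin m → ℝ, wh = fun j => if j ∈ I then 2 * D.rr else D.RR := ⟨_, rfl⟩
  have hwl1 : ∀ j ∈ I, wl j = D.rr / 2 := fun j hj => by rw [hwl]; simp [hj]
  have hwl2 : ∀ j ∉ I, wl j = D.rr := fun j hj => by rw [hwl]; simp [hj]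
  have hwh1 : ∀ j ∈ I, wh j = 2 * D.rr := fun j hj => by rw [hwh]; simp [hj]
  have hwh2 : ∀ j ∉ I, wh j = D.RR := fun j hj => by rw [hwh]; simp [hj]
  obtain ⟨LE, hLE⟩ : ∃ LE : Set (Ix d (2 * d) s → ℂ), LE = {y | y ∈ LF ∧
    (∀ i, ‖yc y i - D.cl i‖ ≤ D.ρ) ∧ (∀ j ∈ D.J, wl j * ‖D.Df j y‖ ≤ ‖D.Nf j y‖) ∧
    (∀ j ∈ D.J, ‖D.Nf j y‖ ≤ wh j * ‖D.Df j y‖) ∧
    (∀ j ∈ D.J, j ∈ I → D.Nf j y * D.Df j z = D.Nf j z * D.Df j y) ∧
    ∀ j ∈ I, j ∉ D.J → ey D.σ (P j) j y = ey D.σ (P j) j z ∧ δc j ≤ ‖gy D.σ (P j) j y‖} :=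
    ⟨_, rfl⟩
  have hLEL : LE ⊆ LF := fun y hy => by rw [hLE] at hy; exact hy.1
  have hcompLE : IsCompact LE := by
    refine hcompL.of_isClosed_subset ?_ hLEL
    have hcl := hcompL.isClosed
    have hn : ∀ j, ContinuousOn (fun y => D.Nf j y) LF := fun j => (hNc j).mono hLU
    have hde : ∀ j, ContinuousOn (fun y => D.Df j y) LF := fun j => (hDc j).mono hLU
    have h1 : LE = LF ∩ ((⋂ i, LF ∩ {y | ‖yc y i - D.cl i‖ ≤ D.ρ}) ∩
        ((⋂ j : {j : Fin m // j ∈ D.J}, LF ∩ {y | wl j * ‖D.Df j y‖ ≤ ‖D.Nf j y‖}) ∩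
        ((⋂ j : {j : Fin m // j ∈ D.J}, LF ∩ {y | ‖D.Nf j y‖ ≤ wh j * ‖D.Df j y‖}) ∩
        ((⋂ j : {j : Fin m // j ∈ D.J ∧ j ∈ I},
          LF ∩ {y | D.Nf j y * D.Df j z = D.Nf j z * D.Df j y}) ∩
        ⋂ j : {j : Fin m // j ∈ I ∧ j ∉ D.J}, ({y | ey D.σ (P j) j y = ey D.σ (P j) j z} ∩
          {y | δc j ≤ ‖gy D.σ (P j) j y‖}))))) := by
      rw [hLE]
      ext y
      simp only [mem_ofPred_eq, mem_inter_iff, mem_iInter]
      constructor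
      · rintro ⟨a, b, c, e, f, g⟩
        exact ⟨a, fun i => ⟨a, b i⟩, fun j => ⟨a, c j.1 j.2⟩, fun j => ⟨a, e j.1 j.2⟩,
          fun j => ⟨a, f j.1 j.2.1 j.2.2⟩, fun j => g j.1 j.2.1 j.2.2⟩
      · rintro ⟨a, b, c, e, f, g⟩
        exact ⟨a, fun i => (b i).2, fun j hj => (c ⟨j, hj⟩).2, fun j hj => (e ⟨j, hj⟩).2,
          fun j hj hj' => (f ⟨j, hj, hj'⟩).2, fun j hj hj' => g ⟨j, hj, hj'⟩⟩
    rw [h1]
    refine hcl.inter ((isClosed_iInter fun i => ?_).inter ((isClosed_iInter fun j => ?_).inter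
      ((isClosed_iInter fun j => ?_).inter ((isClosed_iInter fun j => ?_).inter
      (isClosed_iInter fun j => ?_)))))
    · refine closed_le' hcl ?_ continuousOn_const
      exact (((yc_diff i).continuous.sub continuous_const).norm).continuousOn
    · exact closed_le' hcl (continuousOn_const.mul (hde j).norm) (hn j).norm
    · exact closed_le' hcl (hn j).norm (continuousOn_const.mul (hde j).norm)
    · exact closed_eq' hcl ((hn j).mul continuousOn_const) (continuousOn_const.mul (hde j))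
    · exact (isClosed_eq (ey_diff hd D.σ (P j) j).continuous continuous_const).inter
        (isClosed_le continuous_const (gy_cont hd D.σ (P j) j).norm)
  have hLEb : ∀ y ∈ LE, y ∈ D.bx := by
    intro y hy
    refine ⟨(hCb _ (hLC y (hLEL hy))).2, ?_⟩
    rw [hLE] at hy
    exact hy.2.1
  have hLEw : ∀ y ∈ LE, y ∈ D.wn := by
    intro y hy
    rw [hLE] at hy
    intro j hjJ
    have h1 := hy.2.2.1 j hjJ
    have h2 := hy.2.2.2.1 j hjJ
    have h3 := norm_nonneg (D.Df j y)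
    by_cases hj : j ∈ I
    · rw [hwl1 j hj] at h1
      rw [hwh1 j hj] at h2
      exact ⟨h1, h2.trans (mul_le_mul_of_nonneg_right H.rR.le h3)⟩
    · rw [hwl2 j hj] at h1
      rw [hwh2 j hj] at h2
      exact ⟨le_trans (mul_le_mul_of_nonneg_right (by linarith) h3) h1, h2⟩
  have hzE : z ∈ LE := by
    rw [hLE]
    refine ⟨hzL, h.ycl, fun j hjJ => ?_, fun j hjJ => ?_, fun j _ _ => rfl,
      fun j hj hjJ => ⟨rfl, (h.don j hj hjJ).2⟩⟩
    · by_cases hj : j ∈ I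
      · rw [hwl1 j hj]; exact (h.win2 j hjJ hj).1.le
      · rw [hwl2 j hj]; exact (h.win1 j hjJ hj).1
    · by_cases hj : j ∈ I
      · rw [hwh1 j hj]; exact (h.win2 j hjJ hj).2.le
      · rw [hwh2 j hj]; exact (h.win1 j hjJ hj).2.le
  -- the auxiliary functions
  obtain ⟨G₁, hG₁⟩ : ∃ G₁ : (Ix d (2 * d) s → ℂ) → ℂ,
    G₁ = fun y => ((Jt y * ∏ k : Fin s, ys y k) * Vd y) *
      ∏ j ∈ (I ∪ D.J)ᶜ, ((∏ a ∈ Finset.Ico 1 (Pm + 1), ey D.σ a j y) * vy D.σ j y) := ⟨_, rfl⟩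
  have hG₁y : ∀ y, G₁ y = ((Jt y * ∏ k : Fin s, ys y k) * Vd y) *
      ∏ j ∈ (I ∪ D.J)ᶜ, ((∏ a ∈ Finset.Ico 1 (Pm + 1), ey D.σ a j y) * vy D.σ j y) :=
    fun y => by rw [hG₁]
  have hmemc : ∀ j, j ∈ (I ∪ D.J)ᶜ ↔ j ∉ I ∧ j ∉ D.J := by
    intro j
    rw [Finset.mem_compl, Finset.mem_union, not_or]
  have hG₁ne : ∀ y, G₁ y ≠ 0 ↔ (Jt y ≠ 0 ∧ (∀ k, ys y k ≠ 0) ∧ Function.Injective (yc y)) ∧
      (∀ j ∉ I, j ∉ D.J → vy D.σ j y ≠ 0) ∧
      ∀ j ∉ I, j ∉ D.J → ∀ a : ℕ, 1 ≤ a → a ≤ Pm → ey D.σ a j y ≠ 0 := by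
    intro y
    rw [hG₁y, mul_ne_zero_iff, mul_ne_zero_iff, mul_ne_zero_iff, Finset.prod_ne_zero_iff,
      Finset.prod_ne_zero_iff, vd_ne]
    constructor
    · rintro ⟨⟨⟨a1, a2⟩, a3⟩, a4⟩
      refine ⟨⟨a1, fun k => a2 k (Finset.mem_univ k), a3⟩, fun j hj hjJ => ?_,
        fun j hj hjJ a ha hap => ?_⟩
      · exact (mul_ne_zero_iff.1 (a4 j ((hmemc j).2 ⟨hj, hjJ⟩))).2
      · have h1 := (mul_ne_zero_iff.1 (a4 j ((hmemc j).2 ⟨hj, hjJ⟩))).1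
        rw [Finset.prod_ne_zero_iff] at h1
        exact h1 a (Finset.mem_Ico.2 ⟨ha, by omega⟩)
    · rintro ⟨⟨a1, a2, a3⟩, a4, a5⟩
      refine ⟨⟨⟨a1, fun k _ => a2 k⟩, a3⟩, fun j hj => ?_⟩
      obtain ⟨hj, hjJ⟩ := (hmemc j).1 hj
      refine mul_ne_zero ?_ (a4 j hj hjJ)
      rw [Finset.prod_ne_zero_iff]
      intro a ha
      have ha := Finset.mem_Ico.1 ha
      exact a5 j hj hjJ a ha.1 (by omega)
  have hLEO : ∀ y ∈ LE, y ∈ Oo ∩ O₂ := by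
    intro y hy
    refine ⟨hLO y (hLEL hy), ?_⟩
    rw [hO₂e]
    exact ⟨hLU y (hLEL hy), fun j hj => (H.ne (hLEb y hy) (hLEw y hy) hj).1⟩
  have hG₁d : DifferentiableOn ℂ G₁ (Oo ∩ O₂) := by
    rw [hG₁]
    refine ((hJd.mul ?_).mul vd_diff.differentiableOn).mul ?_
    · apply prod_diff
      intro k _
      exact (ys_diff k).differentiableOn
    · apply prod_diff
      intro j _
      refine DifferentiableOn.mul ?_ (vy_diff hd D.σ j).differentiableOn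
      apply prod_diff
      intro a _
      exact (ey_diff hd D.σ a j).differentiableOn
  have hG₁c : ContinuousOn G₁ LE := hG₁d.continuousOn.mono hLEO
  have hG₁z : G₁ z ≠ 0 := by
    rw [hG₁ne]
    refine ⟨⟨?_, hAdm₀.kap0, h.inj⟩, h.crv, h.np⟩
    intro h0
    exact hdet₀ ((hJ0 z hAdm₀.xU hAdm₀.lam0 hAdm₀.att (hLEO z hzE).2 hAdm₀.kap0).mp h0)
  obtain ⟨B, hB⟩ := hcompLE.bddAbove_image hG₁c.norm
  have hB' : ∀ y ∈ LE, ‖G₁ y‖ ≤ max B 1 := fun y hy =>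
    (hB (mem_image_of_mem _ hy)).trans (le_max_left _ _)
  obtain ⟨lj, hlj⟩ : ∃ lj : ℝ, lj = |Real.log ‖G₁ z‖| := ⟨_, rfl⟩
  obtain ⟨lB, hlB⟩ : ∃ lB : ℝ, lB = |Real.log (max B 1)| := ⟨_, rfl⟩
  have hlj0 : 0 ≤ lj := by rw [hlj]; exact abs_nonneg _
  have hlB0 : 0 ≤ lB := by rw [hlB]; exact abs_nonneg _
  obtain ⟨δ₁, hδ₁⟩ : ∃ δ₁ : ℝ, δ₁ = D.η₁ / 4 / (1 + lB + lj) := ⟨_, rfl⟩
  have hδ₁0 : 0 < δ₁ := by rw [hδ₁]; positivity
  obtain ⟨p, hp⟩ := exists_nat_gt (D.α / δ₁)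
  have hp0 : (0 : ℝ) < p := (div_pos hα0 hδ₁0).trans hp
  obtain ⟨δ₀, hδ₀e⟩ : ∃ δ₀ : ℝ, δ₀ = D.α / p := ⟨_, rfl⟩
  have hδ₀ : 0 < δ₀ := by rw [hδ₀e]; positivity
  have hδ₀p : δ₀ * p = D.α := by rw [hδ₀e]; field_simp
  have hδ₀1 : δ₀ < δ₁ := by
    rw [hδ₀e, div_lt_iff₀ hp0]
    rwa [div_lt_iff₀ hδ₁0, mul_comm] at hp
  have hδ₀le : δ₀ * (lB + lj) ≤ D.η₁ / 4 := by
    have h1 : δ₁ * (lB + lj) ≤ D.η₁ / 4 := by
      rw [hδ₁, div_mul_eq_mul_div, div_le_iff₀ (by positivity)]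
      nlinarith
    exact (mul_le_mul_of_nonneg_right hδ₀1.le (by positivity)).trans h1
  obtain ⟨Gt, hGt⟩ : ∃ Gt : (Ix d (2 * d) s → ℂ) → ℂ,
    Gt = fun y => G₁ y * ∏ j ∈ D.J \ I, (D.Df j y / D.Nf j y) ^ p := ⟨_, rfl⟩
  have hGty : ∀ y, Gt y = G₁ y * ∏ j ∈ D.J \ I, (D.Df j y / D.Nf j y) ^ p :=
    fun y => by rw [hGt]
  have hGtlog : ∀ y ∈ D.bx, y ∈ D.wn → G₁ y ≠ 0 →
      Real.log ‖Gt y‖ = Real.log ‖G₁ y‖ - p * ∑ j ∈ D.J \ I, D.lg j y := by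
    intro y hy1 hy2 hy3
    rw [hGty]
    exact log_auxJ (D.J \ I) (G₁ y) (fun j => D.Df j y) (fun j => D.Nf j y) hy3
      (fun j hj => (H.ne hy1 hy2 (Finset.mem_sdiff.1 hj).1).1)
      (fun j hj => (H.ne hy1 hy2 (Finset.mem_sdiff.1 hj).1).2) p
  have hGtd : DifferentiableOn ℂ Gt ((Oo ∩ O₂) ∩ {y | ∀ j ∈ D.J, D.Nf j y ≠ 0}) := by
    rw [hGt]
    refine (hG₁d.mono inter_subset_left).mul ?_
    apply prod_diff
    intro j hj
    have h1 : (Oo ∩ O₂) ∩ {y | ∀ j ∈ D.J, D.Nf j y ≠ 0} ⊆ {y | yx y ∈ D.S.U} := by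
      intro y hy
      exact hO₂U hy.1.2
    exact (diffOn_div ((H.Dd j).mono h1) ((H.Nd j).mono h1)
      (fun y hy => hy.2 j (Finset.mem_sdiff.1 hj).1)).pow p
  have hGtc : ContinuousOn (fun y => ‖Gt y‖) LE := by
    refine (hGtd.continuousOn.mono ?_).norm
    intro y hy
    exact ⟨hLEO y hy, fun j hj => (H.ne (hLEb y hy) (hLEw y hy) hj).2⟩
  have hGtz : 0 < ‖Gt z‖ := by
    rw [norm_pos_iff, hGty]
    refine mul_ne_zero hG₁z (Finset.prod_ne_zero_iff.mpr fun j hj => pow_ne_zero _ ?_)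
    exact div_ne_zero (hzne j (Finset.mem_sdiff.1 hj).1).1 (hzne j (Finset.mem_sdiff.1 hj).1).2
  have hκr : ∀ y ∈ LF, ∀ k, ‖ys y k‖ * (3 * D.ra) < D.r := by
    intro y hy k
    have h1 := hy
    rw [hLF] at h1
    have := H.ra0
    exact (mul_le_mul_of_nonneg_right (h1.2.2.2.2.1 k) (by linarith)).trans_lt H.Kra
  have hradT : D.rad T < 3 * D.ra := H.rad_lt (by omega)
  have hradT1 : D.rad (T + 1) < 3 * D.ra := H.rad_lt (by omega)
  have hlsc1 : LowerSemicontinuousOn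
      (fun y : Ix d (2 * d) s → ℂ => D.S.AN β D.ω D.Nt (D.rad T) (yx y) (ys y)) LE := by
    refine lsc_comp (g := fun y : Ix d (2 * d) s → ℂ => (yx y, ys y))
      (p_LSC β d (2 * d) s D.S D.KK D.r D.N D.ω D.Nt (D.rad T) H.hβ1 H.hβ2 H.koe H.lin (H.rad0 T))
      ?_ ?_
    · apply Continuous.continuousOn
      exact yx_diff.continuous.prodMk (continuous_pi fun k => (ys_diff k).continuous)
    · intro y hy
      refine ⟨hCN (hLC y (hLEL hy)), fun k => ?_⟩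
      exact (mul_le_mul_of_nonneg_left hradT.le (norm_nonneg _)).trans_lt (hκr y (hLEL hy) k)
  have hlsc : LowerSemicontinuousOn
      (fun y : Ix d (2 * d) s → ℂ => D.S.AN β D.ω D.Nt (D.rad T) (yx y) (ys y) +
        D.Mw * ∑ j ∈ (I ∪ D.J)ᶜ, D.W j y) LE :=
    hlsc1.add (lsc_mul (lsc_sum (I ∪ D.J)ᶜ fun j _ => (H.Wlsc j).mono fun y hy => hLEb y hy) H.Mw0)
  have hhc : ContinuousOn (fun y : Ix d (2 * d) s → ℂ => D.c₀ / 2 * ∑ i : Fin 2 × Fin (d + 1),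
      ‖D.S.co (yx y) i - D.S.co (yx z) i‖ ^ 2) LE := by
    apply continuousOn_const.mul
    apply continuousOn_finsetSum
    intro i _
    have h1 : ContinuousOn (fun y : Ix d (2 * d) s → ℂ => D.S.co (yx y)) LE :=
      D.S.hco.continuousOn.comp yx_diff.continuous.continuousOn (fun y hy => hLU y (hLEL hy))
    exact ((((continuous_apply i).comp_continuousOn h1).sub continuousOn_const).norm).pow 2
  obtain ⟨y, hyE, hGy, hymin⟩ := Pool.Agent.H790R3.RB.MAXI (Ix d (2 * d) s → ℂ) LE _ _ _ z δ₀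
    hcompLE hlsc hhc hGtc (fun y _ => norm_nonneg _) hδ₀ hzE hGtz
  -- the minimal point
  have hyL : y ∈ LF := hLEL hyE
  have hyb := hLEb y hyE
  have hyw := hLEw y hyE
  have hyne : ∀ j ∈ D.J, D.Df j y ≠ 0 ∧ D.Nf j y ≠ 0 := fun j hj => H.ne hyb hyw hj
  have hyOO := hLEO y hyE
  have hyC : yx y ∈ C := hLC y hyL
  have hyN : yx y ∈ D.N := hCN hyC
  have hyU : yx y ∈ D.S.U := hCU hyC
  have hyG : Gt y ≠ 0 := norm_pos_iff.1 hGy
  have hG₁y0 : G₁ y ≠ 0 := by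
    rw [hGty] at hyG
    exact (mul_ne_zero_iff.1 hyG).1
  obtain ⟨⟨hyJ, hyk, hyV⟩, hycr, hynp⟩ := (hG₁ne y).1 hG₁y0
  obtain ⟨hyA, hyF⟩ := hLadm y hyL hyk
  have hyE' := hyE
  rw [hLE] at hyE'
  obtain ⟨-, -, hyE1, hyE2, hyE3, hyE4⟩ := hyE'
  have hT' : (T : ℝ) ≤ D.Tm := by exact_mod_cast hT
  have hyin : ‖yx y - D.uf‖ < (D.Tm + 2) * D.Dsp := by
    refine (hCb _ hyC).1.trans_le ?_
    exact mul_le_mul_of_nonneg_right (by linarith) hdsp.le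
  -- the inequality
  obtain ⟨Q, hQ⟩ : ∃ Q : ℝ, Q = ∑ i : Fin 2 × Fin (d + 1),
    ‖D.S.co (yx y) i - D.S.co (yx z) i‖ ^ 2 := ⟨_, rfl⟩
  have hQ0 : 0 ≤ Q := by rw [hQ]; exact Finset.sum_nonneg fun i _ => by positivity
  have hcQ := mul_nonneg (half_pos hc0).le hQ0
  have hen : D.S.AN β D.ω D.Nt (D.rad T) (yx y) (ys y) + D.c₀ / 2 * Q + D.α * D.Psi I y +
      D.Mw * ∑ j ∈ (I ∪ D.J)ᶜ, D.W j y < D.g₀ + T * D.η₁ + D.η₁ / 4 := by
    have h1 := hymin z hzE hGtz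
    simp only [sub_self, norm_zero, ne_eq, OfNat.ofNat_ne_zero, not_false_eq_true, zero_pow,
      Finset.sum_const_zero, mul_zero, add_zero] at h1
    rw [← hQ, hGtlog y hyb hyw hG₁y0, hGtlog z hzb hzw hG₁z] at h1
    have h3 : Real.log ‖G₁ y‖ ≤ lB := by
      rw [hlB]
      exact (Real.log_le_log (norm_pos_iff.2 hG₁y0) (hB' y hyE)).trans (le_abs_self _)
    have h4 : - lj ≤ Real.log ‖G₁ z‖ := by rw [hlj]; exact neg_abs_le _
    have h5 := h.G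
    have h9 := mul_le_mul_of_nonneg_left h3 hδ₀.le
    have h10 := mul_le_mul_of_nonneg_left h4 hδ₀.le
    have e1 : δ₀ * (Real.log ‖G₁ y‖ - p * ∑ j ∈ D.J \ I, D.lg j y) =
        δ₀ * Real.log ‖G₁ y‖ - D.α * ∑ j ∈ D.J \ I, D.lg j y := by
      rw [← hδ₀p]; ring
    have e2 : δ₀ * (Real.log ‖G₁ z‖ - p * ∑ j ∈ D.J \ I, D.lg j z) =
        δ₀ * Real.log ‖G₁ z‖ - D.α * ∑ j ∈ D.J \ I, D.lg j z := by
      rw [← hδ₀p]; ring
    rw [e1, e2] at h1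
    have e3 : D.α * D.Psi I y = D.α * ∑ j ∈ D.J \ I, D.lg j y +
        D.α * ((D.J \ I)ᶜ.card * Real.log D.rr) := by unfold DatX.Psi; ring
    have e4 : D.α * D.Psi I z = D.α * ∑ j ∈ D.J \ I, D.lg j z +
        D.α * ((D.J \ I)ᶜ.card * Real.log D.rr) := by unfold DatX.Psi; ring
    rw [e4] at h5
    rw [e3]
    linarith
  have hANy0 : 0 ≤ D.S.AN β D.ω D.Nt (D.rad T) (yx y) (ys y) := ENNReal.toReal_nonneg
  have hWy0 : ∀ j, 0 ≤ D.W j y := H.Wnn y hyb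
  have hWs0 : 0 ≤ D.Mw * ∑ j ∈ (I ∪ D.J)ᶜ, D.W j y :=
    mul_nonneg H.Mw0.le (Finset.sum_nonneg fun j _ => hWy0 j)
  have hTη : (T : ℝ) * D.η₁ ≤ D.Tm * D.η₁ := mul_le_mul_of_nonneg_right hT' hη1.le
  have hψ : m * Real.log D.rr ≤ D.Psi I y :=
    H.psi_low (fun j hjJ hj => by have := hyE1 j hjJ; rwa [hwl2 j hj] at this)
      (fun j hj => (hyne j hj).1)
  have hψα : D.α * (m * Real.log D.rr) ≤ D.α * D.Psi I y := mul_le_mul_of_nonneg_left hψ hα0.le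
  have hANε : D.S.AN β D.ω D.Nt (D.rad T) (yx y) (ys y) ≤ D.ε₀ := by
    have h1 := H.b1
    linarith
  have hup : D.Psi I y ≤ (D.g₀ + (D.Tm + 1) * D.η₁) / D.α := by
    rw [le_div_iff₀ hα0]
    linarith
  have hRR : ∀ j ∈ D.J, j ∉ I → ‖D.Nf j y‖ < D.RR * ‖D.Df j y‖ := fun j hjJ hj => by
    refine H.lg_lt (fun j hjJ hj => ?_) (fun j hj => (hyne j hj).1) (fun j hj => (hyne j hj).2) hup
      hjJ hj
    have := hyE1 j hjJ
    rwa [hwl2 j hj] at this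
  have hW1 : ∀ j, j ∉ I → j ∉ D.J → D.W j y < 1 := by
    intro j hj hjJ
    have h1 : D.W j y ≤ ∑ j ∈ (I ∪ D.J)ᶜ, D.W j y :=
      Finset.single_le_sum (f := fun j => D.W j y) (fun j _ => hWy0 j) ((hmemc j).2 ⟨hj, hjJ⟩)
    have h2 := mul_le_mul_of_nonneg_left h1 H.Mw0.le
    have h3 := H.b5
    have h4 : D.Mw * D.W j y < D.Mw * 1 := by linarith
    exact lt_of_mul_lt_mul_left h4 H.Mw0.le
  have hQlt : Q < D.Dsp ^ 2 := by
    have h1 := H.b2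
    have h2 : D.c₀ / 2 * Q < D.c₀ / 2 * D.Dsp ^ 2 := by linarith
    exact lt_of_mul_lt_mul_left h2 (half_pos hc0).le
  have hdist : ‖yx y - yx z‖ < D.Dsp := by
    have e1 : ‖D.S.co (yx y) - D.S.co (yx z)‖ = ‖yx y - yx z‖ := by
      rw [H.co _ hyU, H.co _ hAdm₀.xU]
      exact hfamn _ _
    have e2 : ‖yx y - yx z‖ ≤ Real.sqrt Q := by
      rw [← e1, pi_norm_le_iff_of_nonneg (Real.sqrt_nonneg _)]
      intro i
      apply Real.le_sqrt_of_sq_le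
      rw [hQ]
      exact Finset.single_le_sum (f := fun i : Fin 2 × Fin (d + 1) =>
        ‖D.S.co (yx y) i - D.S.co (yx z) i‖ ^ 2) (fun i _ => by positivity) (Finset.mem_univ i)
    calc ‖yx y - yx z‖ ≤ Real.sqrt Q := e2
      _ < Real.sqrt (D.Dsp ^ 2) := Real.sqrt_lt_sqrt hQ0 hQlt
      _ = D.Dsp := Real.sqrt_sq hdsp.le
  have hwI : ∀ j ∈ D.J, j ∈ I → D.rr / 2 * ‖D.Df j y‖ < ‖D.Nf j y‖ ∧
      ‖D.Nf j y‖ < 2 * D.rr * ‖D.Df j y‖ := by
    intro j hjJ hj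
    have h1 := congrArg norm (hyE3 j hjJ hj)
    rw [norm_mul, norm_mul] at h1
    obtain ⟨h2, h3⟩ := h.win2 j hjJ hj
    have h4 := norm_pos_iff.2 (hyne j hjJ).1
    have h5 := norm_pos_iff.2 (hzne j hjJ).1
    constructor
    · apply lt_of_mul_lt_mul_right _ h5.le
      rw [h1]
      calc D.rr / 2 * ‖D.Df j y‖ * ‖D.Df j z‖ = D.rr / 2 * ‖D.Df j z‖ * ‖D.Df j y‖ := by ring
        _ < ‖D.Nf j z‖ * ‖D.Df j y‖ := mul_lt_mul_of_pos_right h2 h4
    · apply lt_of_mul_lt_mul_right _ h5.le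
      rw [h1]
      calc ‖D.Nf j z‖ * ‖D.Df j y‖ < 2 * D.rr * ‖D.Df j z‖ * ‖D.Df j y‖ :=
            mul_lt_mul_of_pos_right h3 h4
        _ = 2 * D.rr * ‖D.Df j y‖ * ‖D.Df j z‖ := by ring
  have hycl := H.strict y hyb hyA.crit
  have hFhn : ∀ k, D.f₀ < ‖Fh (D.ik k)‖ := fun k => by rw [hFhi]; exact h.Flow k
  have hykc : ∀ k, ‖ys y k‖ < D.Kc := by
    intro k
    obtain ⟨h1, h2⟩ := H.ikA k
    have h3 := hyF (D.ik k) h1
    rw [h2] at h3
    have h4 : ‖Fh (D.ik k)‖ * ‖ys y k‖ = ‖D.pv (D.ik k) y‖ := by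
      rw [← h3, ← norm_mul, div_mul_cancel₀ _ (hyk k)]
    have h5 := H.pos2 y hyb _ h1
    have h6 : ‖ys y k‖ ≤ D.M / D.f₀ := by
      rw [le_div_iff₀ H.f0]
      have := mul_le_mul_of_nonneg_right (hFhn k).le (norm_nonneg (ys y k))
      linarith [mul_comm ‖ys y k‖ D.f₀]
    exact h6.trans_lt H.MK
  -- near the minimal point
  have hysc : ∀ k, ContinuousAt (fun z' : Ix d (2 * d) s → ℂ => ys z' k) y := fun k =>
    (ys_diff k).continuous.continuousAt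
  have hpvc : ∀ i ∈ D.A, ContinuousAt (fun z' => D.pv i z' / ys z' (D.ks i)) y := by
    intro i hi
    have h1 : ContinuousAt (D.pv i) y :=
      ((hKPd i hi).differentiableAt (hOo.mem_nhds hyOO.1)).continuousAt
    exact h1.div (hysc _) (hyk _)
  have E1 : ∀ᶠ z' in 𝓝 y, ∀ i, ‖yc z' i - D.cl i‖ < D.ρ := by
    refine eventually_all.2 fun i => ?_
    exact (((yc_diff i).continuous.sub continuous_const).norm).continuousAt.eventually_lt
      continuousAt_const (hycl i)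
  have E2 : ∀ᶠ z' in 𝓝 y, ‖yx z' - D.uf‖ < (T + 2) * D.Dsp :=
    ((yx_diff.continuous.sub continuous_const).norm).continuousAt.eventually_lt
      continuousAt_const (hCb _ hyC).1
  have E3 : ∀ᶠ z' in 𝓝 y, ∀ k, ‖ys z' k‖ < D.Kc := by
    refine eventually_all.2 fun k => ?_
    exact (hysc k).norm.eventually_lt continuousAt_const (hykc k)
  have E4 : ∀ᶠ z' in 𝓝 y, ∀ i, i ∈ D.A → ‖D.pv i z' / ys z' (D.ks i)‖ < D.F₁ := by
    refine eventually_all.2 fun i => ?_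
    by_cases hi : i ∈ D.A
    · have h1 : ‖D.pv i y / ys y (D.ks i)‖ < D.F₁ := by
        rw [hyF i hi, hFhi]; exact h.Fup i hi
      exact ((hpvc i hi).norm.eventually_lt continuousAt_const h1).mono fun _ a _ => a
    · exact Eventually.of_forall fun _ a => absurd a hi
  have E5 : ∀ᶠ z' in 𝓝 y, ∀ k, D.f₀ < ‖D.pv (D.ik k) z' / ys z' (D.ks (D.ik k))‖ := by
    refine eventually_all.2 fun k => ?_
    have h1 : D.f₀ < ‖D.pv (D.ik k) y / ys y (D.ks (D.ik k))‖ := by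
      rw [hyF _ (H.ikA k).1]; exact hFhn k
    exact continuousAt_const.eventually_lt (hpvc _ (H.ikA k).1).norm h1
  have E6 : ∀ᶠ z' in 𝓝 y, D.S.AN β D.ω D.Nt (D.rad (T + 1)) (yx z') (ys z') <
      D.S.AN β D.ω D.Nt (D.rad T) (yx y) (ys y) + D.η₁ / 8 := by
    have h1 := an_drift D.S D.Nt (β := β) H.hβ1 H.hβ2 H.koe H.lin (H.rad0 T) (H.rad_succ T)
      (q₀ := (yx y, ys y)) hyN hyk (fun k =>
        (mul_le_mul_of_nonneg_left hradT1.le (norm_nonneg _)).trans_lt (hκr y hyL k))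
      (η := D.η₁ / 8) (by positivity)
    have h2 : Continuous fun z' : Ix d (2 * d) s → ℂ => (yx z', ys z') :=
      yx_diff.continuous.prodMk (continuous_pi fun k => (ys_diff k).continuous)
    exact h2.continuousAt.eventually h1
  obtain ⟨η₂, hη₂⟩ : ∃ η₂ : ℝ, η₂ = D.η₁ / (8 * D.Mw * (m + 1)) := ⟨_, rfl⟩
  have hη₂0 : 0 < η₂ := by rw [hη₂]; positivity
  have hη₂m : D.Mw * (m * η₂) ≤ D.η₁ / 8 := by
    have e1 : D.Mw * ((m + 1) * η₂) = D.η₁ / 8 := by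
      rw [hη₂]
      field_simp
    have e2 : D.Mw * (m * η₂) ≤ D.Mw * ((m + 1) * η₂) := by
      apply mul_le_mul_of_nonneg_left _ hMw.le
      nlinarith
    linarith
  have E7 : ∀ᶠ z' in 𝓝 y, ∀ j, D.W j z' < max (D.W j y) D.wN + η₂ :=
    eventually_all.2 fun j => H.Wdr y hyin j η₂ hη₂0
  have hNcy : ∀ j, ContinuousAt (D.Nf j) y := fun j => (hNc j).continuousAt (hVo.mem_nhds hyU)
  have hDcy : ∀ j, ContinuousAt (D.Df j) y := fun j => (hDc j).continuousAt (hVo.mem_nhds hyU)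
  have E7a : ∀ᶠ z' in 𝓝 y, D.α * D.Psi I z' < D.α * D.Psi I y + D.η₁ / 8 := by
    have h1 : ContinuousAt (fun z' => D.α * D.Psi I z') y := by
      refine continuousAt_const.mul ?_
      unfold DatX.Psi
      refine ContinuousAt.add ?_ continuousAt_const
      refine tendsto_finsetSum _ fun j hj => ?_
      have hjJ := (Finset.mem_sdiff.1 hj).1
      unfold DatX.lg
      exact ((hNcy j).norm.div (hDcy j).norm (norm_ne_zero_iff.2 (hyne j hjJ).1)).log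
        (div_ne_zero (norm_ne_zero_iff.2 (hyne j hjJ).2) (norm_ne_zero_iff.2 (hyne j hjJ).1))
    exact h1.eventually_lt continuousAt_const (by linarith)
  have E8 : ∀ᶠ z' in 𝓝 y, ∀ j ∈ I, j ∉ D.J → ‖ey D.σ (P j) j z'‖ < εc j ∧
      δc j / 2 < ‖gy D.σ (P j) j z'‖ := by
    refine (eventually_all.2 fun j => ?_ : ∀ᶠ z' in 𝓝 y, ∀ j, j ∈ I → _)
    by_cases hj : j ∈ I ∧ j ∉ D.J
    · obtain ⟨hj, hjJ⟩ := hj
      obtain ⟨a1, a2⟩ := hyE4 j hj hjJ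
      obtain ⟨-, g2, -⟩ := h.gap j hj hjJ
      have h1 : ∀ᶠ z' in 𝓝 y, ‖ey D.σ (P j) j z'‖ < εc j := by
        refine ((ey_diff (s := s) hd D.σ (P j) j).continuous.norm.continuousAt).eventually_lt
          continuousAt_const ?_
        rw [a1]
        exact (h.don j hj hjJ).1
      have h2 : ∀ᶠ z' in 𝓝 y, δc j / 2 < ‖gy D.σ (P j) j z'‖ := by
        refine continuousAt_const.eventually_lt
          ((gy_cont (s := s) hd D.σ (P j) j).norm.continuousAt) ?_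
        linarith
      filter_upwards [h1, h2] with z' b1 b2 _ _ using ⟨b1, b2⟩
    · exact Eventually.of_forall fun _ a b => absurd ⟨a, b⟩ hj
  have E8a : ∀ᶠ z' in 𝓝 y, ∀ j ∈ D.J, j ∈ I → D.rr / 2 * ‖D.Df j z'‖ < ‖D.Nf j z'‖ ∧
      ‖D.Nf j z'‖ < 2 * D.rr * ‖D.Df j z'‖ := by
    refine (eventually_all.2 fun j => ?_ : ∀ᶠ z' in 𝓝 y, ∀ j, j ∈ D.J → _)
    by_cases hj : j ∈ D.J ∧ j ∈ I
    · obtain ⟨hjJ, hj⟩ := hj
      have h1 := (continuousAt_const.mul (hDcy j).norm).eventually_lt (hNcy j).norm (hwI j hjJ hj).1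
      have h2 := (hNcy j).norm.eventually_lt (continuousAt_const.mul (hDcy j).norm) (hwI j hjJ hj).2
      filter_upwards [h1, h2] with z' a b _ _ using ⟨a, b⟩
    · exact Eventually.of_forall fun _ a b => absurd ⟨a, b⟩ hj
  by_cases hact : ∃ j, j ∈ D.J ∧ j ∉ I ∧ ‖D.Nf j y‖ = D.rr * ‖D.Df j y‖
  · -- a function of the windows reaches the lower bound
    obtain ⟨j, hjJ, hj, hjr⟩ := hact
    have hPsi := H.psi_insert hjJ hj (hyne j hjJ).1 hjr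
    have hun : insert j I ∪ D.J = I ∪ D.J := by
      rw [Finset.insert_union, Finset.insert_eq_of_mem (Finset.mem_union_right _ hjJ)]
    refine ⟨insert j I, P, εc, δc, Pm, 0, y, ⟨goode_zero hyA hyV, hyV, fun i => (hycl i).le, ?_,
      hykc, ?_, ?_, ?_, ?_, ?_, ?_, h.NP, ?_, ?_, ?_, ?_, ?_⟩,
      Or.inr ⟨Finset.ssubset_insert hj, rfl⟩⟩
    · have := E2.self_of_nhds
      push_cast
      linarith
    · intro i hi
      exact E4.self_of_nhds i hi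
    · exact E5.self_of_nhds
    · intro i hiJ hi
      have hi' : i ∉ I := fun a => hi (Finset.mem_insert_of_mem a)
      have := hyE1 i hiJ
      rw [hwl2 i hi'] at this
      exact ⟨this, hRR i hiJ hi'⟩
    · intro i hiJ hi
      rcases Finset.mem_insert.1 hi with rfl | hi'
      · have h4 := norm_pos_iff.2 (hyne i hiJ).1
        rw [hjr]
        constructor
        · exact mul_lt_mul_of_pos_right (by linarith) h4
        · exact mul_lt_mul_of_pos_right (by linarith) h4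
      · exact hwI i hiJ hi'
    · intro i hi hiJ
      exact hycr i (fun a => hi (Finset.mem_insert_of_mem a)) hiJ
    · intro i hi hiJ
      exact hynp i (fun a => hi (Finset.mem_insert_of_mem a)) hiJ
    · intro i hi hiJ
      rcases Finset.mem_insert.1 hi with rfl | hi'
      · exact absurd hjJ hiJ
      · exact h.per i hi' hiJ
    · intro i hi hiJ i' hi' hiJ' he
      rcases Finset.mem_insert.1 hi with rfl | h1
      · exact absurd hjJ hiJ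
      rcases Finset.mem_insert.1 hi' with rfl | h2
      · exact absurd hjJ hiJ'
      exact h.pin i h1 hiJ i' h2 hiJ' he
    · intro i hi hiJ
      rcases Finset.mem_insert.1 hi with rfl | h1
      · exact absurd hjJ hiJ
      exact h.gap i h1 hiJ
    · intro i hi hiJ
      rcases Finset.mem_insert.1 hi with rfl | h1
      · exact absurd hjJ hiJ
      obtain ⟨b1, b2⟩ := hyE4 i h1 hiJ
      rw [b1]
      exact ⟨(h.don i h1 hiJ).1, b2⟩
    · rw [hPsi, hun]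
      have h6 := E6.self_of_nhds
      push_cast
      linarith
  -- no function of the windows reaches the lower bound
  push Not at hact
  have hst : ∀ j ∈ D.J, j ∉ I → D.rr * ‖D.Df j y‖ < ‖D.Nf j y‖ := by
    intro j hjJ hj
    have := hyE1 j hjJ
    rw [hwl2 j hj] at this
    exact lt_of_le_of_ne this (Ne.symm (hact j hjJ hj))
  have E9 : ∀ᶠ z' in 𝓝 y, ∀ j ∈ D.J, j ∉ I → D.rr * ‖D.Df j z'‖ < ‖D.Nf j z'‖ ∧
      ‖D.Nf j z'‖ < D.RR * ‖D.Df j z'‖ := by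
    refine (eventually_all.2 fun j => ?_ : ∀ᶠ z' in 𝓝 y, ∀ j, j ∈ D.J → _)
    by_cases hj : j ∈ D.J ∧ j ∉ I
    · obtain ⟨hjJ, hj⟩ := hj
      have h1 := (continuousAt_const.mul (hDcy j).norm).eventually_lt (hNcy j).norm (hst j hjJ hj)
      have h2 := (hNcy j).norm.eventually_lt (continuousAt_const.mul (hDcy j).norm) (hRR j hjJ hj)
      filter_upwards [h1, h2] with z' a b _ _ using ⟨a, b⟩
    · exact Eventually.of_forall fun _ a b => absurd ⟨a, b⟩ hj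
  have E9a : ∀ᶠ z' in 𝓝 y, ∀ j, j ∉ I → j ∉ D.J → ∀ k, ∀ i ≤ D.Nt + D.S.per k,
      ¬ D.S.InC k (yx z') ((D.S.F (yx z'))^[i] (yc z' (D.σ j), 1)) := by
    refine eventually_all.2 fun j => ?_
    by_cases hj : j ∉ I ∧ j ∉ D.J
    · exact (H.Wprot y hyin j (hW1 j hj.1 hj.2)).mono fun _ a _ _ => a
    · exact Eventually.of_forall fun _ a b => absurd ⟨a, b⟩ hj
  have E10 : ∀ᶠ z' in 𝓝 y, z' ∈ Oo ∩ O₂ := (hOo.inter hO₂).mem_nhds hyOO
  have E11 : ∀ᶠ z' in 𝓝 y, G₁ z' ≠ 0 :=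
    ((hG₁d.differentiableAt ((hOo.inter hO₂).mem_nhds hyOO)).continuousAt).eventually_ne hG₁y0
  obtain ⟨Ω, hΩ1, hΩo, hyΩ⟩ := _root_.eventually_nhds_iff.1 (E1.and (E2.and (E3.and (E4.and (E5.and
    (E6.and (E7.and (E7a.and (E8.and (E8a.and (E9.and (E9a.and (E10.and E11)))))))))))))
  have hΩG : ∀ z' ∈ Ω, G₁ z' ≠ 0 := by
    intro z' hz'
    obtain ⟨-, -, -, -, -, -, -, -, -, -, -, -, -, a14⟩ := hΩ1 z' hz'
    exact a14
  have hΩO : ∀ z' ∈ Ω, z' ∈ Oo ∩ O₂ := by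
    intro z' hz'
    obtain ⟨-, -, -, -, -, -, -, -, -, -, -, -, a13, -⟩ := hΩ1 z' hz'
    exact a13
  have hΩpr : ∀ z' ∈ Ω, ∀ j, j ∉ I → j ∉ D.J → ∀ k, ∀ i ≤ D.Nt + D.S.per k,
      ¬ D.S.InC k (yx z') ((D.S.F (yx z'))^[i] (yc z' (D.σ j), 1)) := by
    intro z' hz'
    obtain ⟨-, -, -, -, -, -, -, -, -, -, -, a12, -, -⟩ := hΩ1 z' hz'
    exact a12
  have hΩi : ∀ z' ∈ Ω, Function.Injective (yc z') ∧ (∀ k, ys z' k ≠ 0) := by
    intro z' hz'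
    have h1 := (hG₁ne z').1 (hΩG z' hz')
    exact ⟨h1.1.2.2, h1.1.2.1⟩
  have hΩb : ∀ z' ∈ Ω, z' ∈ D.bx := by
    intro z' hz'
    obtain ⟨a1, a2, -⟩ := hΩ1 z' hz'
    refine ⟨a2.le.trans ?_, fun i => (a1 i).le⟩
    exact mul_le_mul_of_nonneg_right (by linarith) hdsp.le
  have hΩin : ∀ z' ∈ Ω, ‖yx z' - D.uf‖ < (D.Tm + 2) * D.Dsp := by
    intro z' hz'
    obtain ⟨a1, a2, -⟩ := hΩ1 z' hz'
    refine a2.trans_le ?_
    exact mul_le_mul_of_nonneg_right (by linarith) hdsp.le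
  have hΩU : ∀ z' ∈ Ω, yx z' ∈ D.S.U := fun z' hz' => H.lin.NU (H.bN _ (hΩb z' hz').1)
  have hΩw : ∀ z' ∈ Ω, z' ∈ D.wn := by
    intro z' hz' j hjJ
    obtain ⟨-, -, -, -, -, -, -, -, -, a10, a11, -, -, -⟩ := hΩ1 z' hz'
    have h3 := norm_nonneg (D.Df j z')
    by_cases hj : j ∈ I
    · exact ⟨(a10 j hjJ hj).1.le,
        (a10 j hjJ hj).2.le.trans (mul_le_mul_of_nonneg_right H.rR.le h3)⟩
    · exact ⟨(mul_le_mul_of_nonneg_right (by linarith) h3).trans (a11 j hjJ hj).1.le,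
        (a11 j hjJ hj).2.le⟩
  have hΩn : ∀ z' ∈ Ω, ∀ j ∈ D.J, D.Df j z' ≠ 0 ∧ D.Nf j z' ≠ 0 := fun z' hz' j hj =>
    H.ne (hΩb z' hz') (hΩw z' hz') hj
  have hΩg : ∀ z' ∈ Ω, (∀ j, D.S.Er j z' = 0) → ∀ j ∈ I, j ∉ D.J →
      δc j ≤ ‖gy D.σ (P j) j z'‖ ∧ Qp (P j) (yx z', yc z' (D.σ j)) := by
    intro z' hz' hE j hj hjJ
    obtain ⟨-, -, -, -, -, -, -, -, a9, -, -, -, -, -⟩ := hΩ1 z' hz'
    exact H.use_gap (h.gap j hj hjJ) (hΩb z' hz') hE (a9 j hj hjJ).1 (a9 j hj hjJ).2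
  -- the functional at nearby points
  have hfun : ∀ z' ∈ Ω, ∀ I' : Finset (Fin m), I ⊆ I' → D.Psi I' z' = D.Psi I z' →
      D.S.AN β D.ω D.Nt (D.rad (T + 1)) (yx z') (ys z') + D.α * D.Psi I' z' +
        D.Mw * ∑ j ∈ (I' ∪ D.J)ᶜ, D.W j z' < D.g₀ + ((T + 1 : ℕ) : ℝ) * D.η₁ := by
    intro z' hz' I' hII hPs'
    obtain ⟨-, -, -, -, -, a6, a7, a8, -⟩ := hΩ1 z' hz'
    have h1 : ∑ j ∈ (I' ∪ D.J)ᶜ, D.W j z' ≤ ∑ j ∈ (I ∪ D.J)ᶜ, D.W j z' := by
      apply Finset.sum_le_sum_of_subset_of_nonneg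
      · exact Finset.compl_subset_compl.2 (Finset.union_subset_union_left hII)
      · intro j _ _
        exact H.Wnn z' (hΩb z' hz') j
    have h2 : ∑ j ∈ (I ∪ D.J)ᶜ, D.W j z' ≤ ∑ j ∈ (I ∪ D.J)ᶜ, (D.W j y + (D.wN + η₂)) := by
      apply Finset.sum_le_sum
      intro j _
      have b1 := a7 j
      have b2 : max (D.W j y) D.wN ≤ D.W j y + D.wN :=
        max_le (by linarith [H.wN0]) (by linarith [hWy0 j])
      linarith
    have h3 : ∑ j ∈ (I ∪ D.J)ᶜ, (D.W j y + (D.wN + η₂)) ≤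
        ∑ j ∈ (I ∪ D.J)ᶜ, D.W j y + m * (D.wN + η₂) := by
      rw [Finset.sum_add_distrib, Finset.sum_const, nsmul_eq_mul]
      have b1 : ((I ∪ D.J)ᶜ.card : ℝ) ≤ m := by
        have := Finset.card_le_univ ((I ∪ D.J)ᶜ)
        rw [Fintype.card_fin] at this
        exact_mod_cast this
      have b2 : ((I ∪ D.J)ᶜ.card : ℝ) * (D.wN + η₂) ≤ m * (D.wN + η₂) :=
        mul_le_mul_of_nonneg_right b1 (by linarith [H.wN0])
      linarith
    have h4 := mul_le_mul_of_nonneg_left (h1.trans (h2.trans h3)) hMw.le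
    have h5 : D.Mw * (∑ j ∈ (I ∪ D.J)ᶜ, D.W j y + m * (D.wN + η₂)) =
        D.Mw * ∑ j ∈ (I ∪ D.J)ᶜ, D.W j y + D.Mw * (m * D.wN) + D.Mw * (m * η₂) := by ring
    rw [h5] at h4
    have h6 := H.b4
    rw [hPs']
    push_cast
    linarith
  by_cases hrel : ∃ z' ∈ Ω, (∀ j, D.S.Er j z' = 0) ∧ ∃ j, j ∉ I ∧ j ∉ D.J ∧ ∃ p : ℕ, 1 ≤ p ∧
      ey D.σ p j z' = 0
  · -- a new critical point becomes periodic
    obtain ⟨z₁, hz₁, hz₁E, j, hj, hjJ, hex⟩ := hrel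
    obtain ⟨q, hq⟩ : ∃ q, q = Nat.find hex := ⟨_, rfl⟩
    have hp1 : 1 ≤ q ∧ ey D.σ q j z₁ = 0 := by rw [hq]; exact Nat.find_spec hex
    have hmin : ∀ a : ℕ, 1 ≤ a → a < q → ey D.σ a j z₁ ≠ 0 := by
      intro a ha hap h0
      rw [hq] at hap
      exact Nat.find_min hex hap ⟨ha, h0⟩
    have hpPm : Pm < q := by
      by_contra hcon
      push Not at hcon
      exact ((hG₁ne z₁).1 (hΩG z₁ hz₁)).2.2 j hj hjJ q hp1.1 hcon hp1.2
    obtain ⟨ε', δ', hgap⟩ := gap_exists hd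
      (isCompact_closedBall D.uf ((D.Tm + 2) * D.Dsp)) (fun x hx => by
        rw [mem_closedBall, dist_eq_norm] at hx
        exact H.inU₀ (H.lin.NU (H.bN x hx))) (D.cl (D.σ j)) D.ρ hp1.1
    have hgap' := hgap
    obtain ⟨hε', hδ', hg⟩ := hgap'
    have hz₁b := hΩb z₁ hz₁
    have hg1 := (hg (yx z₁) (by rw [mem_closedBall, dist_eq_norm]; exact hz₁b.1)
      (yc z₁ (D.σ j)) (H.wr0 (hΩU z₁ hz₁) hz₁E _) (hz₁b.2 _)).1 hp1.2
      (gp_ne.2 fun a ha hap => hmin a ha hap)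
    have F1 : ∀ᶠ z' in 𝓝 z₁, z' ∈ Ω := hΩo.mem_nhds hz₁
    have F2 : ∀ᶠ z' in 𝓝 z₁, ‖ey D.σ q j z'‖ < ε' := by
      refine ((ey_diff (s := s) hd D.σ q j).continuous.norm.continuousAt).eventually_lt
        continuousAt_const ?_
      rw [hp1.2, norm_zero]
      exact hε'
    have F3 : ∀ᶠ z' in 𝓝 z₁, δ' < ‖gy D.σ q j z'‖ := by
      refine continuousAt_const.eventually_lt ((gy_cont (s := s) hd D.σ q j).norm.continuousAt) ?_
      show δ' < ‖Gp q (yx z₁, yc z₁ (D.σ j))‖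
      linarith
    obtain ⟨z₂, ⟨hz₂, hz₂e, hz₂g⟩, hz₂s, hz₂E, hz₂i, hz₂U, hz₂q, hz₂v⟩ :=
      startq D.S H.co (hΩU z₁ hz₁) hz₁E (q := q.factorial) (Nat.factorial_pos q)
        (F1.and (F2.and F3))
    obtain ⟨a1, a2, a3, a4, a5, a6, a7, a8, a9, a10, a11, a12, a13, a14⟩ := hΩ1 z₂ hz₂
    have a13' := a13.1
    rw [hOe] at a13'
    have hAdm₂ : D.S.Adm D.A D.ks D.ls z₂ :=
      ⟨a13'.1, a13'.2.1, (hΩi z₂ hz₂).2, hz₂E, H.lsp, a13'.2.2⟩
    have hupd : ∀ {β' : Type} (f : Fin m → β') (b : β') (i : Fin m), i ∈ I →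
        Function.update f j b i = f i := fun f b i hi =>
      Function.update_of_ne (fun h0 : i = j => hj (by rw [← h0]; exact hi)) b f
    refine ⟨insert j I, Function.update P j q, Function.update εc j ε', Function.update δc j δ', q,
      0, z₂, ⟨goode_zero hAdm₂ hz₂i, hz₂i, fun i => (a1 i).le, ?_, a3, fun i hi => a4 i hi, a5,
      ?_, ?_, ?_, ?_, ?_, ?_, ?_, ?_, ?_, ?_⟩, Or.inr ⟨Finset.ssubset_insert hj, rfl⟩⟩
    · push_cast
      linarith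
    · intro i hiJ hi
      have hi' : i ∉ I := fun a => hi (Finset.mem_insert_of_mem a)
      exact ⟨(a11 i hiJ hi').1.le, (a11 i hiJ hi').2⟩
    · intro i hiJ hi
      rcases Finset.mem_insert.1 hi with h1 | h1
      · exact absurd (h1 ▸ hiJ) hjJ
      · exact a10 i hiJ h1
    · intro i _ _
      unfold vy
      rw [Finset.prod_ne_zero_iff]
      intro i' _
      exact hz₂v i' (D.σ i)
    · intro i _ _ a ha hap h0
      exact hz₂q (D.σ i) (ep_mul (H.inU₀ hz₂U) h0 (Nat.dvd_factorial ha hap))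
    · exact h.NP.trans hpPm.le
    · intro i hi hiJ
      rcases Finset.mem_insert.1 hi with rfl | hi'
      · rw [Function.update_self]
        exact ⟨lt_of_le_of_lt h.NP hpPm, le_rfl⟩
      · rw [hupd P q i hi']
        exact ⟨(h.per i hi' hiJ).1, (h.per i hi' hiJ).2.trans hpPm.le⟩
    · intro i hi hiJ i' hi' hiJ' he
      rcases Finset.mem_insert.1 hi with h1 | h1
      · rcases Finset.mem_insert.1 hi' with h2 | h2
        · rw [h1, h2]
        · rw [h1, Function.update_self, hupd P q i' h2] at he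
          have := (h.per i' h2 hiJ').2
          omega
      · rcases Finset.mem_insert.1 hi' with h2 | h2
        · rw [h2, Function.update_self, hupd P q i h1] at he
          have := (h.per i h1 hiJ).2
          omega
        · rw [hupd P q i h1, hupd P q i' h2] at he
          exact h.pin i h1 hiJ i' h2 hiJ' he
    · intro i hi hiJ
      rcases Finset.mem_insert.1 hi with h1 | h1
      · rw [h1, Function.update_self, Function.update_self, Function.update_self]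
        exact hgap
      · rw [hupd P q i h1, hupd εc ε' i h1, hupd δc δ' i h1]
        exact h.gap i h1 hiJ
    · intro i hi hiJ
      rcases Finset.mem_insert.1 hi with h1 | h1
      · rw [h1, Function.update_self, Function.update_self, Function.update_self]
        exact ⟨hz₂e, hz₂g.le⟩
      · rw [hupd P q i h1, hupd εc ε' i h1, hupd δc δ' i h1]
        exact ⟨(a9 i h1 hiJ).1, (hΩg z₂ hz₂ hz₂E i h1 hiJ).1⟩
    · exact hfun z₂ hz₂ (insert j I) (Finset.subset_insert j I) (H.psi_new hjJ)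
  · -- no relations
    push Not at hrel
    by_contra hcon
    have hcon' : ∀ z', ¬ D.Inv (T + 1) I P εc δc Pm (R + 1) z' := fun z' hz' =>
      hcon ⟨I, P, εc, δc, Pm, R + 1, z', hz', Or.inl ⟨rfl, rfl⟩⟩
    -- the disc
    have hkopen : IsOpen {z' : Ix d (2 * d) s → ℂ | ∀ k, ys z' k ≠ 0} := by
      have : {z' : Ix d (2 * d) s → ℂ | ∀ k, ys z' k ≠ 0} = ⋂ k, {z' | ys z' k ≠ 0} := by
        ext; simp
      rw [this]
      exact isOpen_iInter_of_finite fun k =>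
        isOpen_ne_fun (ys_diff k).continuous continuous_const
    have hgx := gx_diff D.S H.koe D.A D.ks D.ls (Ps := Ps) I (O₂ := O₂) hPsd
    rw [← hOe] at hgx
    have hIc : I.card < m := by
      have := (Finset.card_lt_iff_ne_univ I).2 hI
      rwa [Fintype.card_fin] at this
    have hcard : Fintype.card (Fin (2 * d - 2)) + Fintype.card (Rx d s m D.A I) <
        Fintype.card (Ix d (2 * d) s) := by
      have h1 : Fintype.card (Rx d s m D.A I) = (s + D.A.card) + I.card := by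
        simp [Rx, Pool.Agent.W757.RD.Sys.Rw, Fintype.card_sum, Fintype.card_coe]
      have h2 : Fintype.card (Ix d (2 * d) s) = 2 * d + ((2 * d - 2) + s) := by
        simp [Ix, Fintype.card_sum]
      have h3 := H.card
      rw [h1, h2, Fintype.card_fin]
      omega
    have hdety : (Mr D.S D.KK D.A D.ks D.ls Ps I sel col y).det ≠ 0 := by
      intro h0
      exact hyJ ((hJ0 y hyU hyA.lam0 hyA.att hyOO.2 hyk).mpr h0)
    obtain ⟨τ, γ, hτ, hγd, hγ0, hγ', hγ⟩ := Pool.Agent.H790R3.RB.DISC (Ix d (2 * d) s)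
      (Fin (2 * d - 2)) (Rx d s m D.A I) D.S.Er (Gx D.S D.KK D.A D.ks D.ls Ps I)
      (((Oo ∩ O₂) ∩ {z' | ∀ k, ys z' k ≠ 0}) ∩ Ω) y R sel col
      (((hOo.inter hO₂).inter hkopen).inter hΩo) ⟨⟨hyOO, hyk⟩, hyΩ⟩
      (fun i => (hErd i).mono (fun z' hz' => hz'.1.1.1))
      (fun a => (hgx a).mono (fun z' hz' => hz'.1)) hcard (fun i => hyA.crit i) (by
        refine mt (fun h => ?_) hdety
        convert h using 2
        ext a c
        rcases a with a | a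
        · rfl
        · rfl) (by
        intro z' hz' hEz sel' col'
        by_contra hne
        have hne' : (Mr D.S D.KK D.A D.ks D.ls Ps I sel' col' z').det ≠ 0 := by
          refine mt (fun h => ?_) hne
          convert h using 2
          ext a c
          rcases a with a | a
          · rfl
          · rfl
        obtain ⟨⟨⟨hzO, hzO2⟩, hzk⟩, hzΩ⟩ := hz'
        rw [hOe] at hzO
        obtain ⟨a1, a2, a3, a4, a5, a6, a7, a8, a9, a10, a11, a12, a13, a14⟩ := hΩ1 z' hzΩ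
        have hzG := (hG₁ne z').1 a14
        apply hcon' z'
        rw [hPs] at hne'
        refine ⟨⟨⟨hzO.1, hzO.2.1, hzk, hEz, H.lsp, hzO.2.2⟩, sel', col', hne'⟩,
          hzG.1.2.2, fun i => (a1 i).le, ?_, a3, fun i hi => a4 i hi, a5,
          fun j hjJ hj => ⟨(a11 j hjJ hj).1.le, (a11 j hjJ hj).2⟩, a10, hzG.2.1, hzG.2.2, h.NP,
          h.per, h.pin, h.gap, fun j hj hjJ => ⟨(a9 j hj hjJ).1, (hΩg z' hzΩ hEz j hj hjJ).1⟩,
          hfun z' hzΩ I (Finset.Subset.refl I) rfl⟩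
        push_cast
        linarith)
    have hγΩ : ∀ t ∈ ball (0 : ℂ) τ, γ t ∈ Ω := fun t ht => (hγ t ht).1.2
    have hDP : DP (fun t => D.Mw * ∑ j ∈ (I ∪ D.J)ᶜ, D.W j (γ t)) := by
      refine (DP.sum (I ∪ D.J)ᶜ fun j hj => ?_).mul hMw.le
      obtain ⟨hj1, hj2⟩ := (hmemc j).1 hj
      refine H.Wdisc τ γ hτ hγd (fun t ht => ⟨hΩin _ (hγΩ t ht), (hγ t ht).2.1⟩) j ?_ ?_
      · rw [hγ0]
        exact hycr j hj1 hj2
      · intro t ht p hp h0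
        exact hrel (γ t) (hγΩ t ht) (hγ t ht).2.1 j hj1 hj2 p hp h0
    refine no_minw p_LAM p_ADO p_LF p_OPN p_BAD p_NC D.S hNrm e0
      (fun i => i.elim0) H.koe hΩo hc0 (D.S.co (yx z)) H.di H.lsp (H.bA 0) (H.bA 1) hlam0 H.lin
      (H.rad0 T) hradT H.Kra hKL H.per hbase (Gt := Gt) ?_ ?_ hδ₀ y (by rw [← hLF]; exact hyL) hyN
      hyΩ ?_ ?_ ?_ hyk hykc ?_ ?_ hANε hτ hγd hγ0 hγ' ?_
      (Wt := fun t => D.Mw * ∑ j ∈ (I ∪ D.J)ᶜ, D.W j (γ t)) hDP ?_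
    · exact hGtd.mono fun z' hz' => ⟨hΩO z' hz', fun j hj => (hΩn z' hz' j hj).2⟩
    · intro z' hz'
      rw [hGty]
      refine mul_ne_zero (hΩG z' hz') (Finset.prod_ne_zero_iff.mpr fun j hj => pow_ne_zero _ ?_)
      have hjJ := (Finset.mem_sdiff.1 hj).1
      exact div_ne_zero (hΩn z' hz' j hjJ).1 (hΩn z' hz' j hjJ).2
    · intro z' hz'L hz' i hi k n hn hin
      obtain ⟨j, rfl⟩ := H.σA i hi
      by_cases hjJ : j ∈ D.J
      · exact H.prot z' (hΩb z' hz') (hΩw z' hz') j hjJ k n hn hin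
      by_cases hj : j ∈ I
      · have hq := (hΩg z' hz' hz'L.2.2.2.1 j hj hjJ).2
        have hPj : ∀ k, D.S.per k < P j := fun k => lt_of_le_of_lt (H.perN k) (h.per j hj hjJ).1
        exact qp_na D.S H.co hPj (hΩU z' hz') hq ⟨k, n, hin⟩
      · exact hΩpr z' hz' j hj hjJ k n hn hin
    · have h1 : ∀ᶠ z' in 𝓝 y, ‖yx z' - yx z‖ < D.Dsp :=
        ((yx_diff.continuous.sub continuous_const).norm).continuousAt.eventually_lt
          continuousAt_const hdist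
      filter_upwards [h1] with z' hz' _ _
      rw [hC, mem_closedBall, dist_eq_norm]
      exact hz'.le
    · refine ⟨1, one_pos, fun x hx _ _ hco => ?_⟩
      rw [H.co x hx, H.co _ hyU] at hco
      have h1 := hfamn x (yx y)
      rw [hco, sub_self, norm_zero] at h1
      exact sub_eq_zero.1 (norm_eq_zero.1 h1.symm)
    · intro k
      refine ⟨D.ik k, (H.ikA k).1, (H.ikA k).2, ?_⟩
      have := hFhn k
      have h0 := H.f0
      intro h1
      rw [h1, norm_zero] at this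
      linarith
    · rw [H.co _ hyU]
      have h1 := H.near
      have h2 : ‖fam (yx y) - fam D.uf‖ ≤ (D.Tm + 2) * D.Dsp := by
        rw [hfamn]
        exact (hCb _ hyC).2
      calc ‖fam (yx y) - D.x₀‖ = ‖(fam (yx y) - fam D.uf) + (fam D.uf - D.x₀)‖ := by
            congr 1; abel
        _ ≤ ‖fam (yx y) - fam D.uf‖ + ‖fam D.uf - D.x₀‖ := norm_add_le _ _
        _ < D.σ₀ := by linarith
    · intro t ht
      exact ⟨(hγ t ht).2.1, fun a => (hγ t ht).2.2 (Sum.inl a)⟩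
    · intro t ht htL htΩ
      have hGxt : ∀ (j : Fin m) (hj : j ∈ I), Ps j (γ t) = Ps j y := by
        intro j hj
        have h1 : Gx D.S D.KK D.A D.ks D.ls Ps I (Sum.inr ⟨j, hj⟩) (γ t) =
            Gx D.S D.KK D.A D.ks D.ls Ps I (Sum.inr ⟨j, hj⟩) y := (hγ t ht).2.2 (Sum.inr ⟨j, hj⟩)
        exact h1
      have htE : γ t ∈ LE := by
        rw [hLE]
        obtain ⟨a1, a2, a3, a4, a5, a6, a7, a8, a9, a10, a11, a12, a13, a14⟩ := hΩ1 (γ t) htΩ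
        refine ⟨by rw [hLF]; exact htL, fun i => (a1 i).le, fun j hjJ => ?_, fun j hjJ => ?_,
          fun j hjJ hj => ?_, fun j hj hjJ => ⟨?_, ?_⟩⟩
        · by_cases hj : j ∈ I
          · rw [hwl1 j hj]; exact (a10 j hjJ hj).1.le
          · rw [hwl2 j hj]; exact (a11 j hjJ hj).1.le
        · by_cases hj : j ∈ I
          · rw [hwh1 j hj]; exact (a10 j hjJ hj).2.le
          · rw [hwh2 j hj]; exact (a11 j hjJ hj).2.le
        · have h0 := hGxt j hj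
          rw [hPs, DatX.ps_old hjJ] at h0
          have h1 : D.Nf j (γ t) / D.Df j (γ t) = D.Nf j y / D.Df j y := h0
          have h2 := hyE3 j hjJ hj
          have h3 := (hΩn _ htΩ j hjJ).1
          have h4 := (hyne j hjJ).1
          rw [div_eq_div_iff h3 h4] at h1
          have h5 : D.Nf j (γ t) * D.Df j z * D.Df j y = D.Nf j z * D.Df j (γ t) * D.Df j y := by
            linear_combination D.Df j z * h1 + D.Df j (γ t) * h2
          exact mul_right_cancel₀ h4 h5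
        · have h0 := hGxt j hj
          rw [hPs, DatX.ps_new hjJ] at h0
          exact h0.trans (hyE4 j hj hjJ).1
        · exact (hΩg _ htΩ (hγ t ht).2.1 j hj hjJ).1
      have htG : 0 < ‖Gt (γ t)‖ := by
        rw [norm_pos_iff, hGty]
        refine mul_ne_zero (hΩG _ htΩ) (Finset.prod_ne_zero_iff.mpr fun j hj => pow_ne_zero _ ?_)
        have hjJ := (Finset.mem_sdiff.1 hj).1
        exact div_ne_zero (hΩn _ htΩ j hjJ).1 (hΩn _ htΩ j hjJ).2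
      have h3 := hymin (γ t) htE htG
      simp only [hγ0]
      linarith

end Pool.Agent.Zk23
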