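import Mathlib
import Pool.Agent.Zk23.NCT

/-! All free critical points in new cycles, part 11: the iteration. -/

set_option autoImplicit false
set_option linter.unusedVariables false

open Topology Filter Metric Set MeasureTheory
open Pool.Agent.H790R3.RB (CV hF cr ND wr rt Ix yx yc yx_diff yc_diff)
open Pool.Agent.W757.RD

namespace Pool.Agent.Zk23

/-- all relations are reached -/
theorem DatN.Ok.run {β : ℝ} {d m s : ℕ} {D : DatN β d m s} (H : D.Ok)
    (hTm : (m + 1) * (2 * d + s + 1) ≤ D.Tm) {P : Fin m → ℕ} {εc δc : Fin m → ℝ} {Pm : ℕ}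
    {z : Ix d (2 * d) s → ℂ} (h0 : D.Inv 0 ∅ P εc δc Pm 0 z) :
    ∃ (T : ℕ) (P' : Fin m → ℕ) (εc' δc' : Fin m → ℝ) (Pm' R : ℕ) (z' : Ix d (2 * d) s → ℂ),
      T ≤ D.Tm ∧ D.Inv T Finset.univ P' εc' δc' Pm' R z' := by
  classical
  by_contra hcon
  push Not at hcon
  have key : ∀ T : ℕ, T ≤ D.Tm + 1 → ∃ (I : Finset (Fin m)) (P' : Fin m → ℕ)
      (εc' δc' : Fin m → ℝ) (Pm' R : ℕ) (z' : Ix d (2 * d) s → ℂ),
      D.Inv T I P' εc' δc' Pm' R z' ∧ T ≤ I.card * (2 * d + s + 1) + R := by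
    intro T
    induction T with
    | zero =>
      intro _
      exact ⟨∅, P, εc, δc, Pm, 0, z, h0, Nat.zero_le _⟩
    | succ T ih =>
      intro hT
      obtain ⟨I, P₁, ε₁, δ₁, Pm₁, R, z', hI, hTle⟩ := ih (by omega)
      have hIu : I ≠ Finset.univ := by
        rintro rfl
        exact hcon T P₁ ε₁ δ₁ Pm₁ R z' (by omega) hI
      obtain ⟨I', P₂, ε₂, δ₂, Pm₂, R', z'', hI', hor⟩ := H.step hI hIu (by omega)
      refine ⟨I', P₂, ε₂, δ₂, Pm₂, R', z'', hI', ?_⟩
      rcases hor with ⟨rfl, rfl⟩ | ⟨hss, rfl⟩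
      · omega
      · have h1 : I.card + 1 ≤ I'.card := Finset.card_lt_card hss
        have h2 : R ≤ 2 * d + s := hI.good.le
        have h3 : (I.card + 1) * (2 * d + s + 1) ≤ I'.card * (2 * d + s + 1) :=
          Nat.mul_le_mul_right _ h1
        have h4 : (I.card + 1) * (2 * d + s + 1) = I.card * (2 * d + s + 1) + (2 * d + s + 1) := by
          ring
        omega
  obtain ⟨I, P', ε', δ', Pm', R, z', hI, hle⟩ := key (D.Tm + 1) le_rfl
  have h1 : I.card ≤ m := by
    have := Finset.card_le_univ I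
    rwa [Fintype.card_fin] at this
  have h2 : R ≤ 2 * d + s := hI.good.le
  have h3 : I.card * (2 * d + s + 1) ≤ m * (2 * d + s + 1) := Nat.mul_le_mul_right _ h1
  have h4 : (m + 1) * (2 * d + s + 1) = m * (2 * d + s + 1) + (2 * d + s + 1) := by ring
  omega

end Pool.Agent.Zk23
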