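import Mathlib
import Pool.Agent.Zk23.NCR
import Pool.Agent.Zk23.NCE
import Pool.Agent.Zk23.NCH
import Pool.Agent.Zk23.ETG

/-! All free critical points in new cycles, part 12: the penalty function on discs. -/

set_option autoImplicit false
set_option linter.unusedVariables false

open Topology Filter Metric Set MeasureTheory
open Pool.Agent.H790R3.RB (CV hF cr ND wr rt Ix yx yc yx_diff yc_diff hF_iter_smul cr_smul_left
  cr_smul_right cr_self cr_iter cr_eq_zero_iff exists_low cr_trans cr_comm lsc_comp)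
open Pool.Agent.W757.RD
open Pool.Agent.W440.RE.JT (prod_diff)
open Pool.Agent.W402.RE.MINP (exists_L DIprop)

namespace Pool.Agent.Zk23

theorem pen_DP {d m s : ℕ} (S : Sys d (2 * d) s) (hco : ∀ x ∈ S.U, S.co x = fam x)
    {C : Set (Fin (2 * d) → ℂ)} (hCU : C ⊆ S.U) {Nt : ℕ} {wN : ℝ}
    {W : (Fin (2 * d) → ℂ) × (ℂ × ℂ) → ℝ} (hW : Pen S C Nt wN W) (σ : Fin m → Fin (2 * d - 2))
    (τ : ℝ) (γ : ℂ → Ix d (2 * d) s → ℂ) (hτ : 0 < τ) (hγ : DifferentiableOn ℂ γ (ball 0 τ))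
    (hγC : ∀ t ∈ ball (0 : ℂ) τ, yx (γ t) ∈ interior C ∧ ∀ j, S.Er j (γ t) = 0) (j : Fin m)
    (hv : vy σ j (γ 0) ≠ 0)
    (hnp : ∀ t ∈ ball (0 : ℂ) τ, ∀ p : ℕ, 1 ≤ p → ey σ p j (γ t) ≠ 0) :
    DP (fun t => W (yx (γ t), (yc (γ t) (σ j), 1))) := by
  have h0 : (0 : ℂ) ∈ ball (0 : ℂ) τ := mem_ball_self hτ
  have hxd : DifferentiableOn ℂ (fun t => yx (γ t)) (ball 0 τ) :=
    yx_diff.comp_differentiableOn hγ
  have hcd : DifferentiableOn ℂ (fun t => yc (γ t) (σ j)) (ball 0 τ) :=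
    (yc_diff (σ j)).comp_differentiableOn hγ
  have hvd : DifferentiableOn ℂ (fun t => ((yc (γ t) (σ j), 1) : ℂ × ℂ)) (ball 0 τ) :=
    hcd.prodMk (differentiableOn_const _)
  by_cases hat : At S (yx (γ 0), (yc (γ 0) (σ j), 1))
  · exact hW.disc τ (fun t => yx (γ t)) (fun t => (yc (γ t) (σ j), 1)) hτ hxd hvd
      (fun t ht => ⟨(hγC t ht).1, one_ne _⟩) hat
  · have hU : ∀ t ∈ ball (0 : ℂ) τ, yx (γ t) ∈ S.U := fun t ht =>
      hCU (interior_subset (hγC t ht).1)
    have hev : ∀ᶠ t in 𝓝 (0 : ℂ), ¬ At S (yx (γ t), (yc (γ t) (σ j), 1)) := by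
      refine dich S hco hτ hxd hcd hU ?_ ?_ hat
      · intro p hp hw
        apply hv
        have h1 := p_ER d (2 * d) s S (γ 0) (hγC 0 h0).2 p
        rw [hco _ (hU 0 h0), hw] at h1
        have hwr : wr (fam (yx (γ 0))) (1, 0) ≠ 0 := by
          have := S.hwr _ (hU 0 h0)
          rwa [hco _ (hU 0 h0)] at this
        have h2 : ∏ i, (p - yc (γ 0) i) = 0 := by
          rcases mul_eq_zero.1 h1.symm with h | h
          · exact absurd h hwr
          · exact h
        obtain ⟨i, -, hi⟩ := Finset.prod_eq_zero_iff.1 h2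
        have hpi : p = yc (γ 0) i := sub_eq_zero.1 hi
        unfold vy
        apply Finset.prod_eq_zero (Finset.mem_univ i)
        rw [← hpi]
        exact hp
      · intro t ht n hn
        have h1 := hnp t ht n hn
        unfold ey Ep at h1
        rw [Sys.F, hco _ (hU t ht)]
        exact h1
    obtain ⟨ρ₀, hρ₀, hb⟩ := Metric.eventually_nhds_iff.1 hev
    refine ⟨ρ₀, hρ₀, fun ρ hρ hρρ => ⟨fun _ => 0, continuous_const, fun θ => ?_, ?_⟩⟩
    · apply le_of_eq
      apply hW.zero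
      apply hb
      rw [dist_zero_right]
      have := circleMap_mem_sphere (0 : ℂ) hρ.le θ
      rw [mem_sphere_zero_iff_norm] at this
      rw [this]
      exact hρρ
    · have h1 : W (yx (γ 0), (yc (γ 0) (σ j), 1)) = 0 := hW.zero _ hat
      simp [h1]

end Pool.Agent.Zk23
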