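import Mathlib
import Pool.Agent.Zk23.NCV

/-! All free critical points in new cycles, part 13: the engine. -/

set_option autoImplicit false
set_option linter.unusedVariables false

open Topology Filter Metric Set MeasureTheory
open Pool.Agent.H790R3.RB (CV hF cr ND wr rt Ix yx yc yx_diff yc_diff hF_iter_smul cr_smul_left
  cr_smul_right cr_self cr_iter cr_eq_zero_iff exists_low cr_trans cr_comm lsc_comp)
open Pool.Agent.W757.RD
open Pool.Agent.W440.RE.JT (prod_diff)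
open Pool.Agent.W402.RE.MINP (exists_L DIprop)

namespace Pool.Agent.Zk23

theorem er_yf {d s : ℕ} (S : Sys d (2 * d) s) (hco : ∀ x ∈ S.U, S.co x = fam x)
    {uf : Fin (2 * d) → ℂ} (huf : uf ∈ S.U) (cl : Fin (2 * d - 2) → ℂ)
    (hcl : ∀ ζ : ℂ, wr (fam uf) (ζ, 1) = wr (fam uf) (1, 0) * ∏ i, (ζ - cl i)) (j : Fin (2 * d - 2)) :
    S.Er j (yf uf cl) = 0 := by
  show wr (S.co uf) (((j : ℕ) : ℂ), 1) - wr (S.co uf) (1, 0) *
    ∏ i : Fin (2 * d - 2), (((j : ℕ) : ℂ) - cl i) = 0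
  rw [hco uf huf, hcl, sub_self]

/-- All free critical points are put into new cycles. -/
theorem engineN {β : ℝ} {d s : ℕ} (hβ1 : 1 / 2 < β) (hβ2 : β < 1) (S : Sys d (2 * d) s)
    (hco : ∀ x ∈ S.U, S.co x = fam x) {uf : Fin (2 * d) → ℂ} (huf : uf ∈ S.U)
    (hlam : ∀ k, S.lam k uf ≠ 0) (harea : mu β (S.KS uf) = 0)
    (hbase : ∀ j : Fin 2, ∃ k, ∃ m : ℕ, S.InC k uf ((S.F uf)^[m] (bz j, 1)))
    {x₀ : CV d} {c₀ ε₀ σ₀ : ℝ} (hc₀ : 0 < c₀) (hε₀ : 0 < ε₀) (hdi : DIprop β d x₀ c₀ ε₀ σ₀)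
    (hnear : ‖fam uf - x₀‖ < σ₀) (cl : Fin (2 * d - 2) → ℂ)
    (hcl : ∀ ζ : ℂ, wr (fam uf) (ζ, 1) = wr (fam uf) (1, 0) * ∏ i, (ζ - cl i))
    (τ : Fin (2 * d - 2) → Fin s)
    (hτ : ∀ i k, ∀ m : ℕ, S.InC k uf ((S.F uf)^[m] (cl i, 1)) → k = τ i) (Np : ℕ)
    (ε : ℝ) (hε : 0 < ε) :
    ∃ y : Ix d (2 * d) s → ℂ, yx y ∈ S.U ∧ ‖yx y - uf‖ < ε ∧ (∀ j, S.Er j y = 0) ∧
      Function.Injective (yc y) ∧ (∀ k, S.lam k (yx y) ≠ 0) ∧ (∀ i, ‖yc y i - cl i‖ < ε) ∧
      (∀ i, (∃ k, ∃ m : ℕ, S.InC k uf ((S.F uf)^[m] (cl i, 1))) →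
        ∃ m : ℕ, S.InC (τ i) (yx y) ((S.F (yx y))^[m] (yc y i, 1))) ∧
      ∃ p : Fin (2 * d - 2) → ℕ,
        (∀ i, (∀ k, ∀ m : ℕ, ¬ S.InC k uf ((S.F uf)^[m] (cl i, 1))) →
          Np < p i ∧ Qp (p i) (yx y, yc y i)) ∧
        ∀ i i', (∀ k, ∀ m : ℕ, ¬ S.InC k uf ((S.F uf)^[m] (cl i, 1))) →
          (∀ k, ∀ m : ℕ, ¬ S.InC k uf ((S.F uf)^[m] (cl i', 1))) → p i = p i' → i = i' := by
  classical
  have hd := S.hd
  have hu₀ : uf ∈ U₀ d := by
    have h1 := hco uf huf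
    exact ⟨by rw [← h1]; exact S.nd uf huf, by rw [← h1]; exact S.hwr uf huf⟩
  have hSU₀ : ∀ x ∈ S.U, x ∈ U₀ d := by
    intro x hx
    have h1 := hco x hx
    exact ⟨by rw [← h1]; exact S.nd x hx, by rw [← h1]; exact S.hwr x hx⟩
  obtain ⟨hlamd, hlamθ, -⟩ := p_LAM d (2 * d) s S
  obtain ⟨KK, hK⟩ := p_KOE d (2 * d) s S
  obtain ⟨A, m, σ, ks, ls, hcard, hAr, hσA, hσn, hAn, hls, hdom, hksτ⟩ :=
    pack1 S huf hlam hbase cl τ hτ
  obtain ⟨N, r, ω, hKN, hL⟩ := p_LIN d (2 * d) s S KK hK {uf} isCompact_singleton (by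
    intro x hx
    rw [mem_singleton_iff] at hx
    subst hx
    exact ⟨huf, hlam⟩)
  have huN : uf ∈ N := hKN rfl
  have hr := hL.hr
  obtain ⟨L₁, M, hM0, hev2⟩ := pack2 S hK hL huN cl A ks ls hdom
  have hidx := free_idx S hco hK hL huN cl hcl A ks ls hls hdom hAn
  choose ik hikA hikk hik0 using hidx
  obtain ⟨f1, hf1, hf1le⟩ := LIN.exists_min
    (fun k => ‖KK (ks (ik k)) (uf, (S.F uf)^[ls (ik k)] (pcc cl (ik k), 1))‖)
    (fun k => norm_pos_iff.2 (hik0 k))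
  -- the region
  obtain ⟨ρ₂, hρ₂, hb2⟩ := Metric.eventually_nhds_iff.1 hev2
  obtain ⟨ρ, hρ, hρε, hcirc⟩ := circ_all hd hu₀ cl (min ε ρ₂) (lt_min hε hρ₂)
  have hevN : ∀ᶠ x in 𝓝 uf, x ∈ N := hL.No.mem_nhds huN
  obtain ⟨ρu, hρu, hbu⟩ := Metric.eventually_nhds_iff.1 (hevN.and hcirc)
  obtain ⟨ρc, hρc⟩ : ∃ ρc : ℝ, ρc = min ρu ρ₂ / 2 := ⟨_, rfl⟩
  have hρc0 : 0 < ρc := by rw [hρc]; exact half_pos (lt_min hρu hρ₂)
  have hρcu : ρc < ρu := by
    rw [hρc]
    exact (half_lt_self (lt_min hρu hρ₂)).trans_le (min_le_left _ _)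
  have hρc2 : ρc < ρ₂ := by
    rw [hρc]
    exact (half_lt_self (lt_min hρu hρ₂)).trans_le (min_le_right _ _)
  have hbu' : ∀ x : Fin (2 * d) → ℂ, ‖x - uf‖ ≤ ρc → x ∈ N ∧
      (∀ i, ∀ ζ : ℂ, ‖ζ - cl i‖ = ρ → wr (fam x) (ζ, 1) ≠ 0) := by
    intro x hx
    exact hbu (y := x) (by rw [dist_eq_norm]; exact lt_of_le_of_lt hx hρcu)
  have hb2' : ∀ y : Ix d (2 * d) s → ℂ, ‖yx y - uf‖ ≤ ρc → (∀ i, ‖yc y i - cl i‖ ≤ ρ) →
      ∀ i ∈ A, (yx y, (S.F (yx y))^[ls i] (pc y i, 1)) ∈ S.Dom (ks i) ∧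
      ‖KK (ks i) (yx y, (S.F (yx y))^[ls i] (pc y i, 1))‖ ≤ M ∧
      ∀ L ≥ L₁, cr ((S.F (yx y))^[ls i + S.per (ks i) * L] (pc y i, 1))
        (S.cht (ks i) (yx y) (ω (ks i) (yx y, S.lam (ks i) (yx y) ^ L *
          KK (ks i) (yx y, (S.F (yx y))^[ls i] (pc y i, 1))))) = 0 := by
    intro y hy1 hy2 i hi
    have h1 := hb2 (y := (yx y, yc y)) (by
      rw [Prod.dist_eq, max_lt_iff, dist_eq_norm]
      refine ⟨lt_of_le_of_lt hy1 hρc2, ?_⟩
      simp only
      rw [dist_pi_lt_iff hρ₂]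
      intro i
      rw [dist_eq_norm]
      exact lt_of_le_of_lt (hy2 i) (hρε.trans_le (min_le_right _ _))) i hi
    rw [← pc_eq y i] at h1
    exact h1
  obtain ⟨C, hC⟩ : ∃ C : Set (Fin (2 * d) → ℂ), C = closedBall uf ρc := ⟨_, rfl⟩
  have hCm : ∀ x, x ∈ C ↔ ‖x - uf‖ ≤ ρc := by
    intro x
    rw [hC, mem_closedBall, dist_eq_norm]
  have hCc : IsCompact C := by rw [hC]; exact isCompact_closedBall _ _
  have hCU : C ⊆ S.U := fun x hx => hL.NU (hbu' x ((hCm x).1 hx)).1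
  have huC : uf ∈ C := (hCm _).2 (by rw [sub_self, norm_zero]; exact hρc0.le)
  obtain ⟨Tm, hTm⟩ : ∃ Tm : ℕ, Tm = (m + 1) * (2 * d + s + 1) := ⟨_, rfl⟩
  obtain ⟨f₀, hf₀⟩ : ∃ f₀ : ℝ, f₀ = f1 / 2 := ⟨_, rfl⟩
  have hf₀0 : 0 < f₀ := by rw [hf₀]; linarith
  obtain ⟨Kc, hKc⟩ : ∃ Kc : ℝ, Kc = M / f₀ + 2 := ⟨_, rfl⟩
  have hMf : 0 ≤ M / f₀ := div_nonneg hM0 hf₀0.le
  have hKc2 : 2 ≤ Kc := by rw [hKc]; linarith
  have hKc0 : 0 < Kc := by linarith
  obtain ⟨F₁, hF₁⟩ : ∃ F₁ : ℝ, F₁ = M + 1 := ⟨_, rfl⟩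
  have hF₁0 : 0 < F₁ := by rw [hF₁]; linarith
  obtain ⟨ra, hra⟩ : ∃ ra : ℝ, ra = r / (6 * Kc) := ⟨_, rfl⟩
  have hra0 : 0 < ra := by rw [hra]; positivity
  have hKra : Kc * (3 * ra) = r / 2 := by rw [hra]; field_simp; ring
  have hrar : ra < r := by
    have h1 : ra ≤ Kc * ra := le_mul_of_one_le_left hra0.le (by linarith)
    nlinarith
  -- the long times
  have hθlim : Tendsto (fun L : ℕ => S.θ ^ L * F₁) atTop (𝓝 0) := by
    have := (tendsto_pow_atTop_nhds_zero_of_lt_one S.hθ0 S.hθ).mul_const F₁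
    simpa using this
  have hθlim2 : Tendsto (fun L : ℕ => Kc * (S.θ ^ L * F₁)) atTop (𝓝 0) := by
    have := hθlim.const_mul Kc
    simpa using this
  obtain ⟨L₃, hL₃⟩ := eventually_atTop.1 (hθlim2.eventually (gt_mem_nhds hr))
  obtain ⟨L₂, hL₂⟩ := eventually_atTop.1
    (hθlim.eventually (gt_mem_nhds (show 0 < 3 * ra by linarith)))
  obtain ⟨L, hLdef⟩ : ∃ L : ℕ, L = max L₁ L₃ := ⟨_, rfl⟩
  have hLL₁ : L₁ ≤ L := by rw [hLdef]; exact le_max_left _ _
  have hLL₃ : L₃ ≤ L := by rw [hLdef]; exact le_max_right _ _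
  -- the small numbers
  have hTm2 : (0 : ℝ) < Tm + 2 := by positivity
  have hTm1 : (0 : ℝ) < Tm + 1 := by positivity
  obtain ⟨B, hB⟩ : ∃ B : ℝ, B = min (min ρc ε) (σ₀ - ‖fam uf - x₀‖) := ⟨_, rfl⟩
  have hB0 : 0 < B := by rw [hB]; exact lt_min (lt_min hρc0 hε) (by linarith)
  have hBρ : B ≤ ρc := by rw [hB]; exact (min_le_left _ _).trans (min_le_left _ _)
  have hBε : B ≤ ε := by rw [hB]; exact (min_le_left _ _).trans (min_le_right _ _)
  have hBσ : B ≤ σ₀ - ‖fam uf - x₀‖ := by rw [hB]; exact min_le_right _ _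
  obtain ⟨Dsp, hDsp⟩ : ∃ Dsp : ℝ, Dsp = B / (2 * (Tm + 2)) := ⟨_, rfl⟩
  have hDsp0 : 0 < Dsp := by rw [hDsp]; positivity
  have hDsp2 : (Tm + 2) * Dsp = B / 2 := by rw [hDsp]; field_simp
  obtain ⟨E, hE⟩ : ∃ E : ℝ, E = min ε₀ (c₀ / 4 * Dsp ^ 2) := ⟨_, rfl⟩
  have hE0 : 0 < E := by rw [hE]; exact lt_min hε₀ (by positivity)
  have hE1 : E ≤ ε₀ := by rw [hE]; exact min_le_left _ _
  have hE2 : E ≤ c₀ / 4 * Dsp ^ 2 := by rw [hE]; exact min_le_right _ _
  obtain ⟨η₁, hη₁⟩ : ∃ η₁ : ℝ, η₁ = E / (4 * (Tm + 1)) := ⟨_, rfl⟩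
  have hη₁0 : 0 < η₁ := by rw [hη₁]; positivity
  have hη₁T : (Tm + 1) * η₁ = E / 4 := by rw [hη₁]; field_simp
  have hη₁E : η₁ ≤ E / 4 := by
    rw [← hη₁T]
    exact le_mul_of_one_le_left hη₁0.le (by
      have : (0 : ℝ) ≤ Tm := Nat.cast_nonneg _
      linarith)
  have hm1 : (0 : ℝ) < (m : ℝ) + 1 := by positivity
  obtain ⟨wN, hwN⟩ : ∃ wN : ℝ, wN = η₁ / (4 * E * (m + 1)) := ⟨_, rfl⟩
  have hwN0 : 0 < wN := by rw [hwN]; positivity
  have hwNm : E * (m * wN) ≤ η₁ / 4 := by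
    have h1 : E * ((m + 1) * wN) = η₁ / 4 := by rw [hwN]; field_simp
    have h2 : E * (m * wN) ≤ E * ((m + 1) * wN) := by
      apply mul_le_mul_of_nonneg_left _ hE0.le
      apply mul_le_mul_of_nonneg_right _ hwN0.le
      linarith
    linarith
  obtain ⟨ηw, hηw⟩ : ∃ ηw : ℝ, ηw = 1 / (16 * (m + 1)) := ⟨_, rfl⟩
  have hηw0 : 0 < ηw := by rw [hηw]; positivity
  have hηwm : E * (m * ηw) ≤ E / 16 := by
    have h1 : E * ((m + 1) * ηw) = E / 16 := by rw [hηw]; field_simp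
    have h2 : E * (m * ηw) ≤ E * ((m + 1) * ηw) := by
      apply mul_le_mul_of_nonneg_left _ hE0.le
      apply mul_le_mul_of_nonneg_right _ hηw0.le
      linarith
    linarith
  -- the time of the area functional
  obtain ⟨σU, Nt, hσU, hM₀, hNt, hAN⟩ := an_start hβ1 hβ2 S hK hL huN harea hra0 hrar
    ((∑ k, S.per k) * (max L L₂ + 1)) (η := E / 8) (by positivity)
  obtain ⟨W, hW⟩ := pen_exists S hCc hCU Nt hwN0
  obtain ⟨Wj, hWj⟩ : ∃ Wj : Fin m → (Ix d (2 * d) s → ℂ) → ℝ, Wj = fun j y =>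
    W (yx y, (yc y (σ j), 1)) := ⟨_, rfl⟩
  have hWje : ∀ j y, Wj j y = W (yx y, (yc y (σ j), 1)) := fun j y => by rw [hWj]
  obtain ⟨N₀, hN₀⟩ : ∃ N₀ : ℕ, N₀ = Np + ∑ k, S.per k := ⟨_, rfl⟩
  have hpc : ∀ j : Fin m, Continuous fun y : Ix d (2 * d) s → ℂ =>
      ((yx y, (yc y (σ j), 1)) : (Fin (2 * d) → ℂ) × (ℂ × ℂ)) := fun j =>
    yx_diff.continuous.prodMk ((yc_diff (σ j)).continuous.prodMk continuous_const)
  have hbox : ∀ x : Fin (2 * d) → ℂ, ‖x - uf‖ ≤ (Tm + 2) * Dsp → ‖x - uf‖ ≤ ρc := by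
    intro x hx
    linarith
  have hint : ∀ x : Fin (2 * d) → ℂ, ‖x - uf‖ < (Tm + 2) * Dsp → x ∈ interior C := by
    intro x hx
    rw [hC]
    apply ball_subset_interior_closedBall
    rw [mem_ball, dist_eq_norm]
    linarith
  have huint : uf ∈ interior C := hint uf (by rw [sub_self, norm_zero]; positivity)
  -- the values at the final configuration
  obtain ⟨y₀, hy₀⟩ : ∃ y₀ : Ix d (2 * d) s → ℂ, y₀ = yf uf cl := ⟨_, rfl⟩
  have hyx₀ : yx y₀ = uf := by rw [hy₀]; rfl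
  have hyc₀ : yc y₀ = cl := by rw [hy₀]; rfl
  have hys₀ : ∀ k, ys y₀ k = 1 := by rw [hy₀]; intro k; rfl
  have hy₀U : yx y₀ ∈ S.U := by rw [hyx₀]; exact huf
  have hEr₀ : ∀ j, S.Er j y₀ = 0 := by
    intro j
    rw [hy₀]
    exact er_yf S hco huf cl hcl j
  have hW0 : ∀ j : Fin m, W (uf, (cl (σ j), 1)) = 0 := by
    intro j
    apply hW.zero
    rintro ⟨k, m', hin⟩
    exact hσn j k m' hin
  -- open conditions
  have hUo : ∀ᶠ y in 𝓝 y₀, yx y ∈ S.U := by
    have : IsOpen {y : Ix d (2 * d) s → ℂ | yx y ∈ S.U} := S.hU.preimage yx_diff.continuous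
    exact this.mem_nhds hy₀U
  have hstart : ∀ᶠ y in 𝓝 y₀, yx y ∈ S.U ∧ ‖yx y - uf‖ < min Dsp σU ∧
      (∀ i, ‖yc y i - cl i‖ < ρ) ∧
      (∀ k, f₀ < ‖KK (ks (ik k)) (yx y, (S.F (yx y))^[ls (ik k)] (pcc (yc y) (ik k), 1))‖) ∧
      (∀ j, Wj j y < wN + ηw) := by
    refine hUo.and ?_
    refine Filter.Eventually.and ?_ (Filter.Eventually.and ?_ (Filter.Eventually.and ?_ ?_))
    · have c1 : Continuous fun y : Ix d (2 * d) s → ℂ => ‖yx y - uf‖ :=
        (yx_diff.continuous.sub continuous_const).norm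
      refine c1.continuousAt.eventually_lt continuousAt_const ?_
      rw [hyx₀, sub_self, norm_zero]
      exact lt_min hDsp0 hσU
    · refine eventually_all.2 fun i => ?_
      have c1 : Continuous fun y : Ix d (2 * d) s → ℂ => ‖yc y i - cl i‖ :=
        ((yc_diff i).continuous.sub continuous_const).norm
      refine c1.continuousAt.eventually_lt continuousAt_const ?_
      rw [hyc₀, sub_self, norm_zero]
      exact hρ
    · refine eventually_all.2 fun k => ?_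
      have c1 : ContinuousAt (fun y : Ix d (2 * d) s → ℂ =>
          ‖KK (ks (ik k)) (yx y, (S.F (yx y))^[ls (ik k)] (pcc (yc y) (ik k), 1))‖) y₀ := by
        have c2 : ContinuousAt (KK (ks (ik k)))
            (uf, (S.F uf)^[ls (ik k)] (pcc cl (ik k), 1)) :=
          (hK.dif _).continuousOn.continuousAt ((hK.opn _).mem_nhds (hdom _ (hikA k)))
        have c3 : ContinuousAt (fun y : Ix d (2 * d) s → ℂ =>
            ((yx y, (S.F (yx y))^[ls (ik k)] (pcc (yc y) (ik k), 1)) :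
              (Fin (2 * d) → ℂ) × (ℂ × ℂ))) y₀ := by
          have c4 : ContinuousAt (fun y : Ix d (2 * d) s → ℂ =>
              ((yx y, (pcc (yc y) (ik k), 1)) : (Fin (2 * d) → ℂ) × (ℂ × ℂ))) y₀ := by
            have c5 : Continuous fun y : Ix d (2 * d) s → ℂ => yc y :=
              continuous_pi fun i => (yc_diff i).continuous
            exact (yx_diff.continuous.prodMk (((pcc_cont (ik k)).comp c5).prodMk
              continuous_const)).continuousAt
          have c6 : ContinuousAt (fun q : (Fin (2 * d) → ℂ) × (ℂ × ℂ) =>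
              (S.F q.1)^[ls (ik k)] q.2) (yx y₀, (pcc (yc y₀) (ik k), 1)) :=
            (KOE.F_diffAt S _ hy₀U).continuousAt
          exact yx_diff.continuous.continuousAt.prodMk (ContinuousAt.comp
            (f := fun y : Ix d (2 * d) s → ℂ =>
              ((yx y, (pcc (yc y) (ik k), 1)) : (Fin (2 * d) → ℂ) × (ℂ × ℂ)))
            (g := fun q : (Fin (2 * d) → ℂ) × (ℂ × ℂ) => (S.F q.1)^[ls (ik k)] q.2) c6 c4)
        have c7 : ContinuousAt (KK (ks (ik k)))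
            (yx y₀, (S.F (yx y₀))^[ls (ik k)] (pcc (yc y₀) (ik k), 1)) := by
          rw [hyx₀, hyc₀]
          exact c2
        exact (ContinuousAt.comp (f := fun y : Ix d (2 * d) s → ℂ =>
            ((yx y, (S.F (yx y))^[ls (ik k)] (pcc (yc y) (ik k), 1)) :
              (Fin (2 * d) → ℂ) × (ℂ × ℂ))) (g := KK (ks (ik k))) c7 c3).norm
      refine continuousAt_const.eventually_lt c1 ?_
      rw [hyx₀, hyc₀]
      have := hf1le k
      linarith
    · refine eventually_all.2 fun j => ?_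
      have h1 := hW.drift uf huint (cl (σ j), 1) (one_ne _) ηw hηw0
      rw [hW0, max_eq_right hwN0.le] at h1
      have h2 : Tendsto (fun y : Ix d (2 * d) s → ℂ =>
          ((yx y, (yc y (σ j), 1)) : (Fin (2 * d) → ℂ) × (ℂ × ℂ))) (𝓝 y₀)
          (𝓝 (uf, (cl (σ j), 1))) := by
        have := (hpc j).tendsto y₀
        rwa [hyx₀, hyc₀] at this
      filter_upwards [h2.eventually h1] with y hy
      rw [hWje]
      exact hy
  obtain ⟨z, ⟨hzU', hzu, hzc, hzf, hzW⟩, hzs₀, hzE, hzi, hzU, hzq, hzv⟩ :=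
    startq S hco hy₀U hEr₀ (q := N₀.factorial) (Nat.succ_le_of_lt (Nat.factorial_pos _)) hstart
  have hzs : ∀ k, ys z k = 1 := fun k => by rw [hzs₀, hys₀]
  have hzN : yx z ∈ N := by
    refine (hbu' (yx z) ?_).1
    have h1 := hzu.trans_le (min_le_left _ _)
    have h2 : Dsp ≤ (Tm + 2) * Dsp := le_mul_of_one_le_left hDsp0.le (by linarith)
    linarith
  obtain ⟨D, hD⟩ : ∃ D : DatN β d m s, D =
    { S := S, KK := KK, N := N, r := r, ω := ω, A := A, ks := ks, ls := ls, ik := ik, σ := σ,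
      cl := cl, uf := uf, W := Wj, L := L, Nt := Nt, Kc := Kc,
      ra := ra, ρ := ρ, Dsp := Dsp, M := M, f₀ := f₀, F₁ := F₁, Tm := Tm, x₀ := x₀, c₀ := c₀,
      ε₀ := ε₀, σ₀ := σ₀, g₀ := E / 2, η₁ := η₁, Mw := E, wN := wN, N₀ := N₀ } := ⟨_, rfl⟩
  have hg : E / 2 + (Tm + 1) * η₁ = 3 * E / 4 := by rw [hη₁T]; ring
  have H : D.Ok := by
    rw [hD]
    constructor
    case hβ1 => exact hβ1
    case hβ2 => exact hβ2
    case card => exact hcard
    case co => exact hco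
    case koe => exact hK
    case lin => exact hL
    case lsp => exact hls
    case bA => exact hAr
    case σA => exact hσA
    case bN => exact fun x hx => (hbu' x (hbox x hx)).1
    case Wnn =>
      rintro y ⟨hy1, hy2⟩ j
      show 0 ≤ Wj j y
      rw [hWje]
      exact hW.nn _ ((hCm _).2 (hbox _ hy1)) _ (one_ne _)
    case Wlsc =>
      intro j
      show LowerSemicontinuousOn (Wj j) _
      rw [hWj]
      refine lsc_comp (g := fun y : Ix d (2 * d) s → ℂ =>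
        ((yx y, (yc y (σ j), 1)) : (Fin (2 * d) → ℂ) × (ℂ × ℂ))) hW.lsc (hpc j).continuousOn ?_
      rintro y ⟨hy1, hy2⟩
      exact ⟨(hCm _).2 (hbox _ hy1), one_ne _⟩
    case Wprot =>
      intro y hy j hw
      have hw : Wj j y < 1 := hw
      rw [hWje] at hw
      exact (hpc j).continuousAt.eventually (hW.prot _ (hint _ hy) _ (one_ne _) hw)
    case Wdr =>
      intro y hy j η hη
      have h1 := (hpc j).continuousAt.eventually (hW.drift _ (hint _ hy) _ (one_ne _) η hη)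
      show ∀ᶠ z in 𝓝 y, Wj j z < max (Wj j y) wN + η
      filter_upwards [h1] with z hz
      rw [hWje, hWje]
      exact hz
    case Wdisc =>
      intro τ' γ hτ' hγ hγC j hv hnp
      show DP (fun t => Wj j (γ t))
      rw [hWj]
      exact pen_DP S hco hCU hW σ τ' γ hτ' hγ (fun t ht => ⟨hint _ (hγC t ht).1, (hγC t ht).2⟩)
        j hv hnp
    case pos1 =>
      rintro y ⟨hy1, hy2⟩ i hi
      exact (hb2' y (hbox _ hy1) hy2 i hi).1
    case pos2 =>
      rintro y ⟨hy1, hy2⟩ i hi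
      exact (hb2' y (hbox _ hy1) hy2 i hi).2.1
    case pos3 =>
      rintro y ⟨hy1, hy2⟩ i hi
      exact (hb2' y (hbox _ hy1) hy2 i hi).2.2 L hLL₁
    case ikA => exact fun k => ⟨hikA k, hikk k⟩
    case f0 => exact hf₀0
    case M0 => exact hM0
    case MK =>
      show M / f₀ < Kc
      rw [hKc]
      linarith
    case strict =>
      rintro y ⟨hy1, hy2⟩ hEr i
      have hyρ := hbox _ hy1
      obtain ⟨b1, b2⟩ := hbu' _ hyρ
      have h1 : ‖yc y i - cl i‖ ≤ ρ := hy2 i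
      refine lt_of_le_of_ne h1 fun he => b2 i (yc y i) he ?_
      have h2 := p_ER d (2 * d) s S y hEr (yc y i)
      rw [hco _ (hL.NU b1)] at h2
      rw [h2, Finset.prod_eq_zero (Finset.mem_univ i) (sub_self _), mul_zero]
    case F1 => exact hF₁0
    case KF => exact hL₃ L hLL₃
    case base =>
      intro j
      obtain ⟨L', a, h1, h2, h3, h4⟩ := base_time S.per S.hper L L₂ Nt hM₀ hNt
        (ks (Sum.inr j)) (ls (Sum.inr j)) (hls _ (hAr j))
      exact ⟨L', a, h1, h3, h4, hL₂ L' h2⟩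
    case per => exact hNt
    case ra0 => exact hra0
    case Kra =>
      show Kc * (3 * ra) < r
      rw [hKra]
      linarith
    case dsp => exact hDsp0
    case near =>
      show ‖fam uf - x₀‖ + (Tm + 2) * Dsp < σ₀
      linarith
    case di => exact hdi
    case c0 => exact hc₀
    case η0 => exact hη₁0
    case Mw0 => exact hE0
    case wN0 => exact hwN0.le
    case b1 =>
      show E / 2 + (Tm + 1) * η₁ ≤ ε₀
      rw [hg]
      linarith
    case b2 =>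
      show E / 2 + (Tm + 1) * η₁ < c₀ / 2 * Dsp ^ 2
      rw [hg]
      have h1 : 0 < c₀ * Dsp ^ 2 := by positivity
      linarith
    case b3 =>
      show E / 2 + (Tm + 1) * η₁ < E
      rw [hg]
      linarith
    case b4 => exact hwNm
    case perN =>
      intro k
      show S.per k ≤ N₀
      rw [hN₀]
      have h1 : S.per k ≤ ∑ k, S.per k :=
        Finset.single_le_sum (f := fun k => S.per k) (fun k _ => Nat.zero_le _) (Finset.mem_univ k)
      omega
  have hradra : D.rad 0 = ra := by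
    rw [hD]
    simp [DatN.rad]
  have hInv : D.Inv 0 ∅ (fun _ => 0) (fun _ => 0) (fun _ => 0) N₀ 0 z := by
    have hzb : ‖yx z - uf‖ ≤ ρc := by
      apply hbox
      have h1 := hzu.trans_le (min_le_left _ _)
      have h2 : Dsp ≤ (Tm + 2) * Dsp := le_mul_of_one_le_left hDsp0.le (by linarith)
      linarith
    have hAdm : S.Adm A ks ls z := by
      refine ⟨hzU, fun k => hL.lam0 _ hzN k, fun k => by rw [hzs]; exact one_ne_zero, hzE, hls, ?_⟩
      intro i hi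
      exact (hb2' z hzb (fun i => (hzc i).le) i hi).1
    constructor
    case good =>
      rw [hD]
      exact goode_zero hAdm hzi
    case inj => exact hzi
    case ycl =>
      rw [hD]
      exact fun i => (hzc i).le
    case u =>
      rw [hD]
      show ‖yx z - uf‖ < ((0 : ℕ) + 1) * Dsp
      have h1 := hzu.trans_le (min_le_left _ _)
      simpa using h1
    case kc =>
      rw [hD]
      intro k
      show ‖ys z k‖ < Kc
      rw [hzs, norm_one]
      linarith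
    case Fup =>
      rw [hD]
      intro i hi
      show ‖KK (ks i) (yx z, (S.F (yx z))^[ls i] (pc z i, 1)) / ys z (ks i)‖ < F₁
      rw [hzs, div_one, hF₁]
      have := (hb2' z hzb (fun i => (hzc i).le) i hi).2.1
      linarith
    case Flow =>
      rw [hD]
      intro k
      show f₀ < ‖KK (ks (ik k)) (yx z, (S.F (yx z))^[ls (ik k)] (pc z (ik k), 1)) /
        ys z (ks (ik k))‖
      rw [hzs, div_one, pc_eq]
      exact hzf k
    case crv =>
      rw [hD]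
      intro j _
      show vy σ j z ≠ 0
      unfold vy
      exact Finset.prod_ne_zero_iff.2 fun i _ => hzv i (σ j)
    case np =>
      rw [hD]
      intro j _ a ha haP
      show ey σ a j z ≠ 0
      intro h0
      exact hzq (σ j) (ep_mul (hSU₀ _ hzU) h0 (Nat.dvd_factorial ha haP))
    case NP =>
      rw [hD]
    case per =>
      intro j hj
      exact absurd hj (Finset.notMem_empty j)
    case pin =>
      intro j hj
      exact absurd hj (Finset.notMem_empty j)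
    case gap =>
      intro j hj
      exact absurd hj (Finset.notMem_empty j)
    case don =>
      intro j hj
      exact absurd hj (Finset.notMem_empty j)
    case G =>
      rw [hradra]
      rw [hD]
      show S.AN β ω Nt ra (yx z) (ys z) + E * ∑ j ∈ (∅ : Finset (Fin m))ᶜ, Wj j z <
        E / 2 + ((0 : ℕ) : ℝ) * η₁
      have e1 : ys z = fun _ => 1 := funext hzs
      have h1 := hAN (yx z) hzN (hzu.trans_le (min_le_right _ _))
      rw [e1, Finset.compl_empty, Nat.cast_zero, zero_mul, add_zero]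
      have h2 : ∑ j, Wj j z ≤ m * (wN + ηw) := by
        calc ∑ j, Wj j z ≤ ∑ j : Fin m, (wN + ηw) := Finset.sum_le_sum fun j _ => (hzW j).le
          _ = m * (wN + ηw) := by
              rw [Finset.sum_const, Finset.card_univ, Fintype.card_fin, nsmul_eq_mul]
      have h3 := mul_le_mul_of_nonneg_left h2 hE0.le
      have h4 : E * (m * (wN + ηw)) = E * (m * wN) + E * (m * ηw) := by ring
      linarith
  obtain ⟨T, P', ε', δ', Pm', R, z', hT, hI⟩ := H.run (by rw [hD]; exact hTm.ge) hInv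
  have hgood := hI.good.1
  have hu' := hI.u
  have hycl := hI.ycl
  have hper := hI.per
  have hpin := hI.pin
  have hT1 : (D.Tm : ℕ) = Tm := by rw [hD]
  have hbx : z' ∈ D.bx := by
    refine ⟨?_, hycl⟩
    have hT' : (T : ℝ) ≤ D.Tm := by exact_mod_cast hT
    have h1 := H.dsp
    nlinarith
  have hQ : ∀ j, Qp (P' j) (yx z', yc z' (D.σ j)) := by
    intro j
    obtain ⟨h1, h2⟩ := hI.don j (Finset.mem_univ j)
    have hg := hI.gap j (Finset.mem_univ j)
    have hδ := hg.2.1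
    exact (H.use_gap hg hbx hgood.crit h1 (by linarith)).2
  rw [hD] at hgood hu' hycl hT hper hQ
  have hgood : S.Adm A ks ls z' := hgood
  have hu' : ‖yx z' - uf‖ < (T + 1) * Dsp := hu'
  have hycl : ∀ i, ‖yc z' i - cl i‖ ≤ ρ := hycl
  have hT : T ≤ Tm := hT
  have hQ : ∀ j, Qp (P' j) (yx z', yc z' (σ j)) := hQ
  have hper : ∀ j ∈ (Finset.univ : Finset (Fin m)), N₀ < P' j ∧ P' j ≤ Pm' := hper
  have hT' : (T : ℝ) ≤ Tm := by exact_mod_cast hT
  have hu2 : ‖yx z' - uf‖ < (Tm + 2) * Dsp := by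
    refine hu'.trans ?_
    nlinarith
  have hfree : ∀ i, (∀ k, ∀ m : ℕ, ¬ S.InC k uf ((S.F uf)^[m] (cl i, 1))) → ∃ j, σ j = i := by
    intro i hi
    apply hσA
    intro hA
    obtain ⟨-, -, n, hn⟩ := hdom _ hA
    have hn : S.InC (ks (Sum.inl i)) uf ((S.F uf)^[S.per (ks (Sum.inl i)) * n]
      ((S.F uf)^[ls (Sum.inl i)] (cl i, 1))) := hn
    rw [← Function.iterate_add_apply] at hn
    exact hi _ _ hn
  refine ⟨z', hgood.xU, by linarith, hgood.crit, hI.inj, hgood.lam0, fun i => ?_, fun i hi => ?_,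
    fun i => if h : ∃ j, σ j = i then P' h.choose else 0, fun i hi => ?_, fun i i' hi hi' he => ?_⟩
  · exact lt_of_le_of_lt (hycl i) (hρε.trans_le (min_le_left _ _))
  · have hiA : Sum.inl i ∈ A := by
      by_contra hA
      obtain ⟨k, m', hin⟩ := hi
      exact hAn i hA k m' hin
    obtain ⟨-, -, n, hn⟩ := hgood.att (Sum.inl i) hiA
    rw [hksτ i hiA] at hn
    refine ⟨S.per (τ i) * n + ls (Sum.inl i), ?_⟩
    rw [Function.iterate_add_apply]
    exact hn
  · have h := hfree i hi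
    simp only [dif_pos h]
    have h1 := (hper h.choose (Finset.mem_univ _)).1
    refine ⟨by omega, ?_⟩
    have h2 := hQ h.choose
    rwa [h.choose_spec] at h2
  · have h := hfree i hi
    have h' := hfree i' hi'
    simp only [dif_pos h, dif_pos h'] at he
    have h1 := hpin _ (Finset.mem_univ _) _ (Finset.mem_univ _) he
    rw [← h.choose_spec, ← h'.choose_spec, h1]

end Pool.Agent.Zk23
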