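import Mathlib
import Pool.Agent.Zk23.NCG
import Pool.Agent.Zk23.ETI

/-! All free critical points in new cycles, part 14: lemmas on the sphere. -/

set_option autoImplicit false
set_option linter.unusedVariables false

open Topology Filter Metric Set MeasureTheory
open Pool.Agent.H790R3.RB (CV hF cr ND wr rt Ix yx yc sp pr hc HypTop Attd Sink cr_eq_zero_iff
  cr_smul_left cr_smul_right cr_self cr_comm WR SP PQ pol INJL hF_iter_smul)
open Pool.Agent.W757.RD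
open Pool.Agent.W440.RE.TOP (pr_some Dk Dk_nhds iter_chart tend_chart pr_smul cht_ne_zero)
open scoped OnePoint

namespace Pool.Agent.Zk23

variable {d n s : ℕ}

/-- `z` is in the immediate basin of the point `a`, which is fixed by the `m`-th iterate -/
def Imm (f : OnePoint ℂ → OnePoint ℂ) (m : ℕ) (a z : OnePoint ℂ) : Prop :=
  ∃ U : Set (OnePoint ℂ), IsOpen U ∧ IsConnected U ∧ a ∈ U ∧ z ∈ U ∧ MapsTo f^[m] U U ∧
    ∀ w ∈ U, Tendsto (fun k : ℕ => f^[m * k] w) atTop (𝓝 a)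

theorem imm_conj {f g : OnePoint ℂ → OnePoint ℂ} (h : OnePoint ℂ ≃ₜ OnePoint ℂ)
    (hs : ∀ z, g (h z) = h (f z)) {m : ℕ} {a c : OnePoint ℂ} (hc : Imm f m a c) :
    Imm g m (h a) (h c) := by
  obtain ⟨U, h1, h2, h3, h4, h5, h6⟩ := hc
  refine ⟨h '' U, h.isOpenMap U h1, h2.image h h.continuous.continuousOn, mem_image_of_mem h h3,
    mem_image_of_mem h h4, ?_, ?_⟩
  · rintro _ ⟨w, hw, rfl⟩
    rw [Pool.Agent.H790R3.RB.ALL.iter h hs]
    exact mem_image_of_mem h (h5 hw)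
  · rintro _ ⟨w, hw, rfl⟩
    have := (h.continuous.tendsto a).comp (h6 w hw)
    refine this.congr fun k => ?_
    simp only [Function.comp]
    rw [Pool.Agent.H790R3.RB.ALL.iter h hs]

theorem imm_cap {f : OnePoint ℂ → OnePoint ℂ} {m : ℕ} {a c : OnePoint ℂ} (h : Imm f m a c) :
    Cap f m a c := by
  obtain ⟨U, h1, h2, h3, h4, h5, h6⟩ := h
  exact ⟨0, h6 c h4⟩

theorem imm_of_inC (S : Sys d n s) {x : Fin n → ℂ} (hx : x ∈ S.U) {k : Fin s} {ζ : ℂ}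
    (h : S.InC k x (ζ, 1)) :
    Imm (sp (S.co x)) (S.per k) ((S.b k x : ℂ) : OnePoint ℂ) (ζ : OnePoint ℂ) := by
  have hd := S.hd
  obtain ⟨hcont, hit, -, hhc, hprc⟩ := SP d (S.co x) (by omega) (S.nd x hx)
  have hb : pr (S.cht k x 0) = ((S.b k x : ℂ) : OnePoint ℂ) := by rw [pr_some, add_zero]
  have hmem : ∀ w : OnePoint ℂ, w ∈ (((↑) : ℂ → OnePoint ℂ) '' ball (S.b k x) (S.r₀ k)) →
      w ∈ Dk S k x := by
    rintro w ⟨u, hu, rfl⟩
    refine ⟨u - S.b k x, ?_, ?_⟩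
    · rw [mem_ball, dist_eq_norm] at hu
      exact hu
    · rw [pr_some]
      congr 1
      ring
  refine ⟨((↑) : ℂ → OnePoint ℂ) '' ball (S.b k x) (S.r₀ k),
    OnePoint.isOpenEmbedding_coe.isOpenMap _ isOpen_ball, ?_, ⟨_, mem_ball_self (S.hr₀ k), rfl⟩,
    ?_, ?_, ?_⟩
  · refine IsConnected.image ⟨⟨_, mem_ball_self (S.hr₀ k)⟩, ?_⟩ _
      OnePoint.continuous_coe.continuousOn
    exact (convex_ball _ _).isPreconnected
  · obtain ⟨a, z, ha, hz, he⟩ := h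
    have h2 := congrArg Prod.snd he
    have h1 := congrArg Prod.fst he
    have h3 : S.cht k x z = (S.b k x + z, 1) := rfl
    rw [h3] at h1 h2
    simp only [Prod.smul_fst, Prod.smul_snd, smul_eq_mul, mul_one] at h1 h2
    rw [← h2, one_mul] at h1
    refine ⟨ζ, ?_, rfl⟩
    rw [mem_ball, dist_eq_norm, h1, add_sub_cancel_left]
    exact hz
  · rintro w hw
    obtain ⟨z, hz, rfl⟩ := hmem w hw
    obtain ⟨z', h1, h2⟩ := iter_chart S hx k hit 1 z hz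
    rw [mul_one] at h2
    rw [h2, pr_some]
    refine ⟨_, ?_, rfl⟩
    rw [mem_ball, dist_eq_norm, add_sub_cancel_left]
    rw [pow_one] at h1
    have h3 : S.θ * ‖z‖ ≤ 1 * ‖z‖ := mul_le_mul_of_nonneg_right S.hθ.le (norm_nonneg _)
    linarith
  · intro w hw
    rw [← hb]
    exact tend_chart S hx k hit hprc w (hmem w hw)

/-- the map between the attracting periodic points -/
theorem sigN (S : Sys d n s) {x₁ x₂ : Fin n → ℂ} (h1 : x₁ ∈ S.U) (h2 : x₂ ∈ S.U)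
    (hA1 : AllM S x₁) :
    ∃ σ : OnePoint ℂ → OnePoint ℂ,
      (∀ k j, σ ((sp (S.co x₁))^[j] ((S.b k x₁ : ℂ) : OnePoint ℂ)) =
        (sp (S.co x₂))^[j] ((S.b k x₂ : ℂ) : OnePoint ℂ)) ∧
      (∀ m z, Sink (sp (S.co x₁)) m z → ∀ m', Sink (sp (S.co x₂)) m' (σ z) ↔
        Sink (sp (S.co x₁)) m' z) ∧
      InjOn σ {z | ∃ m, Sink (sp (S.co x₁)) m z} := by
  classical
  set f := sp (S.co x₁) with hf
  set g := sp (S.co x₂) with hg
  obtain ⟨σ, hσ⟩ : ∃ σ : OnePoint ℂ → OnePoint ℂ, ∀ k j,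
      σ (f^[j] ((S.b k x₁ : ℂ) : OnePoint ℂ)) = g^[j] ((S.b k x₂ : ℂ) : OnePoint ℂ) := by
    refine ⟨fun z => if h : ∃ (k : Fin s) (j : ℕ), z = f^[j] ((S.b k x₁ : ℂ) : OnePoint ℂ) then
      g^[h.choose_spec.choose] ((S.b h.choose x₂ : ℂ) : OnePoint ℂ) else z, fun k j => ?_⟩
    have h : ∃ (k' : Fin s) (j' : ℕ), f^[j] ((S.b k x₁ : ℂ) : OnePoint ℂ) =
        f^[j'] ((S.b k' x₁ : ℂ) : OnePoint ℂ) := ⟨k, j, rfl⟩
    simp only
    rw [dif_pos h]
    have h3 := h.choose_spec.choose_spec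
    have h4 := (rel_iff S h1 k h.choose j h.choose_spec.choose).1 h3
    exact ((rel_iff S h2 k h.choose j h.choose_spec.choose).2 h4).symm
  refine ⟨σ, hσ, fun m z hz m' => ⟨?_, ?_⟩, ?_⟩
  · intro hz'
    obtain ⟨k, j, rfl⟩ := hA1 m z hz
    rw [hσ] at hz'
    exact sink_mul (sink_fwd (sp_cont' S.hd (S.nd _ h1)) (sink_base S h1 k) j) hz'.1
      (dvd_of_sink S h2 hz')
  · intro hz'
    obtain ⟨k, j, rfl⟩ := hA1 m z hz
    rw [hσ]
    exact sink_mul (sink_fwd (sp_cont' S.hd (S.nd _ h2)) (sink_base S h2 k) j) hz'.1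
      (dvd_of_sink S h1 hz')
  · rintro z ⟨m, hz⟩ z' ⟨m', hz'⟩ he
    obtain ⟨k, j, rfl⟩ := hA1 m z hz
    obtain ⟨k', j', rfl⟩ := hA1 m' z' hz'
    rw [hσ, hσ] at he
    exact (rel_iff S h1 k k' j j').2 ((rel_iff S h2 k k' j j').1 he)

/-- a point is in the basin of at most one marked cycle -/
theorem uniqC (S : Sys d n s) {x : Fin n → ℂ} (hx : x ∈ S.U) {k k' : Fin s} {ζ : ℂ} {m m' : ℕ}
    (h : S.InC k x ((S.F x)^[m] (ζ, 1))) (h' : S.InC k' x ((S.F x)^[m'] (ζ, 1))) : k = k' := by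
  have hcont := sp_cont' S.hd (S.nd x hx)
  have h1 := cap_of_inC S hx (c := (ζ : OnePoint ℂ)) h
  have h2 := cap_of_inC S hx (c := (ζ : OnePoint ℂ)) h'
  obtain ⟨l, hl⟩ := same_cycle hcont (S.hper k) (sink_base S hx k).2.1 (S.hper k') h1 h2
  exact ((rel_iff S hx k k' 0 l).1 hl).1

/-- hyperbolicity -/
theorem hyp_of_attd {d : ℕ} (hd : 2 ≤ d) {x : CV d} (hx : ND x)
    (h : ∀ c : OnePoint ℂ, wr x (hc c) = 0 → Attd (sp x) c) : HypTop (sp x) := by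
  intro c hc
  obtain ⟨n, a, ⟨h1, h2, U, hU, hV⟩, h4⟩ := h c (wr_of_not_inj hd hx hc)
  refine ⟨a, n, h1, h2, ⟨U, hU, fun w hw => ?_⟩, h4⟩
  rw [tendsto_def]
  intro V hVn
  filter_upwards [hV V hVn] with k hk
  exact hk w hw

end Pool.Agent.Zk23
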