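import Mathlib

/-!
# Differences given by finite sets of points in `F_q^d × F_q^m`
-/

set_option autoImplicit false

namespace Pool.Agent.Zk23.AKStep

/-- the differences given by finite sets of points -/
def setDiff (q d m : ℕ) [Fact q.Prime] (S : Finset ℚ)
    (Γ : Option ℚ → Finset ((Fin d → ZMod q) × (Fin m → ZMod q))) :
    Set ((Fin d → ZMod q) × (Fin m → ZMod q)) :=
  {v | ∃ x y, v = x - y ∧ y ∈ Γ none ∧ ∀ r ∈ S, x + (r : ZMod q) • y ∈ Γ (some r)}

end Pool.Agent.Zk23.AKStep
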