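import Pool.Agent.Zk23.AKMain
import Pool.Agent.Zk9.AKP6b

/-!
# The arithmetic Kakeya conjecture: functions with all differences
-/

set_option autoImplicit false

namespace Pool.Agent.Zk23.AKAll

open Pool.Agent.Zk23.AKDefs
open Pool.Agent.Zk23.AKStep (setDiff)
open Pool.Agent.Zk9.AKP6 (step)
open Pool.Agent.Zk23.AKMain

theorem card_total (q d m : ℕ) [Fact q.Prime] :
    Nat.card ((Fin d → ZMod q) × (Fin m → ZMod q)) = q ^ (d + m) := by
  simp [Nat.card_eq_fintype_card, ZMod.card, pow_add]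

/-- several rounds -/
theorem iterate (q d m : ℕ) [Fact q.Prime] (S : Finset ℚ)
    (hS : ∀ r ∈ S, (1 : ZMod q) + (r : ZMod q) ≠ 0)
    (Γ : Option ℚ → Finset ((Fin d → ZMod q) × (Fin m → ZMod q)))
    (hΓ : ∀ r, Set.InjOn Prod.fst (Γ r : Set ((Fin d → ZMod q) × (Fin m → ZMod q))))
    (H : ℕ) (hH : ∀ r, (Γ r).card ≤ H)
    (η : ℝ) (hη0 : 0 ≤ η) (hη : (((setDiff q d m S Γ)ᶜ).ncard : ℝ) ≤ η * (q : ℝ) ^ (d + m))
    (t₀ : ℕ) (θ : ℝ) (hθ : η + (S.card + 1) * ((t₀ * H : ℕ) : ℝ) / (q : ℝ) ^ d ≤ θ) :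
    ∀ t : ℕ, t ≤ t₀ → ∃ Γ' : Option ℚ → Finset ((Fin d → ZMod q) × (Fin m → ZMod q)),
      (∀ r, Set.InjOn Prod.fst (Γ' r : Set ((Fin d → ZMod q) × (Fin m → ZMod q)))) ∧
      (∀ r, (Γ' r).card ≤ t * H) ∧
      (((setDiff q d m S Γ')ᶜ).ncard : ℝ) ≤ θ ^ t * (q : ℝ) ^ (d + m) := by
  have hq0 : (0 : ℝ) < q := by exact_mod_cast (Fact.out : q.Prime).pos
  intro t
  induction t with
  | zero =>
    intro _
    refine ⟨fun _ => ∅, fun r => ?_, fun r => by simp, ?_⟩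
    · simp only [Finset.coe_empty]
      exact Set.injOn_empty _
    · rw [pow_zero, one_mul]
      have h1 : ((setDiff q d m S fun _ => ∅)ᶜ).ncard ≤
          Nat.card ((Fin d → ZMod q) × (Fin m → ZMod q)) := Set.ncard_le_card _
      rw [card_total] at h1
      exact_mod_cast h1
  | succ t ih =>
    intro ht
    obtain ⟨Γ', h1, h2, h3⟩ := ih (by omega)
    obtain ⟨Γ'', h4, h5, h6⟩ := step q d m S hS Γ Γ' hΓ h1 η hη (t * H) h2
    refine ⟨Γ'', h4, fun r => ?_, ?_⟩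
    · calc (Γ'' r).card ≤ (Γ' r).card + (Γ r).card := h5 r
        _ ≤ t * H + H := add_le_add (h2 r) (hH r)
        _ = (t + 1) * H := by ring
    · have h7 : η + (S.card + 1) * ((t * H : ℕ) : ℝ) / (q : ℝ) ^ d ≤ θ := by
        refine le_trans ?_ hθ
        have h8 : ((t * H : ℕ) : ℝ) ≤ ((t₀ * H : ℕ) : ℝ) := by
          exact_mod_cast Nat.mul_le_mul_right H (by omega : t ≤ t₀)
        gcongr
      have hθ0 : 0 ≤ θ := le_trans (by positivity) h7
      calc (((setDiff q d m S Γ'')ᶜ).ncard : ℝ)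
          ≤ (η + (S.card + 1) * ((t * H : ℕ) : ℝ) / (q : ℝ) ^ d) *
              (((setDiff q d m S Γ')ᶜ).ncard : ℝ) := h6
        _ ≤ θ * (θ ^ t * (q : ℝ) ^ (d + m)) := by
            refine mul_le_mul h7 h3 (Nat.cast_nonneg _) hθ0
        _ = θ ^ (t + 1) * (q : ℝ) ^ (d + m) := by ring

/-- total functions -/
theorem total (q d m : ℕ) [Fact q.Prime] (S : Finset ℚ)
    (Γ : Option ℚ → Finset ((Fin d → ZMod q) × (Fin m → ZMod q)))
    (hΓ : ∀ r, Set.InjOn Prod.fst (Γ r : Set ((Fin d → ZMod q) × (Fin m → ZMod q)))) :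
    ∃ f : Option ℚ → (Fin d → ZMod q) → (Fin m → ZMod q),
      setDiff q d m S Γ ⊆ graphDiff q d m S f := by
  classical
  let f : Option ℚ → (Fin d → ZMod q) → (Fin m → ZMod q) := fun r u =>
    if h : ∃ w ∈ Γ r, w.1 = u then h.choose.2 else 0
  have hf : ∀ r, ∀ w ∈ Γ r, w ∈ graph (f r) := by
    intro r w hw
    have hex : ∃ w' ∈ Γ r, w'.1 = w.1 := ⟨w, hw, rfl⟩
    have h1 : hex.choose = w :=
      hΓ r (Finset.mem_coe.2 hex.choose_spec.1) (Finset.mem_coe.2 hw) hex.choose_spec.2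
    have h2 : f r w.1 = hex.choose.2 := by
      simp only [f]
      rw [dif_pos hex]
    change w.2 = f r w.1
    rw [h2, h1]
  refine ⟨f, ?_⟩
  rintro v ⟨x, y, hv, hy, hr⟩
  exact ⟨x, y, hv, hf _ _ hy, fun r hrS => hf _ _ (hr r hrS)⟩

theorem exists_one_add (S : Finset ℚ) (hS : (-1 : ℚ) ∉ S) : ∃ Q : ℕ, ∀ (q : ℕ) [Fact q.Prime],
    Q ≤ q → ∀ r ∈ S, (1 : ZMod q) + (r : ZMod q) ≠ 0 := by
  refine ⟨(S.sup fun r => r.den + (r.den + r.num).natAbs) + 1, ?_⟩
  intro q _ hq r hr h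
  have h1 : r.den + (r.den + r.num).natAbs < q :=
    lt_of_le_of_lt (Finset.le_sup (f := fun r : ℚ => r.den + (r.den + r.num).natAbs) hr)
      (Nat.lt_of_succ_le hq)
  have hden : ((r.den : ℕ) : ZMod q) ≠ 0 := by
    intro h2
    rw [ZMod.natCast_eq_zero_iff] at h2
    have := Nat.le_of_dvd r.den_pos h2
    omega
  have h3 : (((r.den + r.num : ℤ)) : ZMod q) = 0 := by
    have h4 : (r : ZMod q) = (r.num : ZMod q) / (r.den : ZMod q) := Rat.cast_def r
    rw [h4] at h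
    field_simp at h
    push_cast
    rw [h, mul_zero]
  rw [ZMod.intCast_zmod_eq_zero_iff_dvd] at h3
  have h5 : (r.den + r.num : ℤ) ≠ 0 := by
    intro h6
    apply hS
    have h7 : r = -1 := by
      have h8 : (r.num : ℤ) = -(r.den : ℤ) := by linarith
      have h9 := Rat.num_div_den r
      rw [← h9, h8]
      push_cast
      have : (r.den : ℚ) ≠ 0 := by exact_mod_cast r.den_pos.ne'
      field_simp
    rwa [h7] at hr
  have h10 := Int.natAbs_dvd_natAbs.2 h3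
  rw [Int.natAbs_natCast] at h10
  have := Nat.le_of_dvd (Int.natAbs_pos.2 h5) h10
  omega

/-- if `-1 ∈ S`, then there is nothing to prove -/
theorem bound_of_mem {S : Finset ℚ} (hS : (-1 : ℚ) ∈ S) {κ : ℝ} (hκ : 1 ≤ κ) : Bound S κ := by
  refine bound_mono (κ := 1) ?_ hκ
  intro A
  rw [Real.rpow_one]
  have : (A.image (pr (some (-1)))).card ≤ big S A :=
    le_max_of_le_right (Finset.le_sup (f := fun r => (A.image (pr (some r))).card) hS)
  exact_mod_cast this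

/-- if the inequality with the exponent `(d+m)/d` fails, then there are functions with all the
differences -/
theorem all (S : Finset ℚ) (d m : ℕ) (hd : 1 ≤ d)
    (h : ¬ Bound S (((d : ℝ) + m) / d)) :
    ∃ Q : ℕ, ∀ (q : ℕ) [Fact q.Prime], Q ≤ q →
      ∃ f : Option ℚ → (Fin d → ZMod q) → (Fin m → ZMod q),
        graphDiff q d m S f = Set.univ := by
  classical
  have hd0 : (0 : ℝ) < d := by exact_mod_cast hd
  have hS1 : (-1 : ℚ) ∉ S := by
    intro hS1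
    apply h
    refine bound_of_mem hS1 ?_
    rw [le_div_iff₀ hd0]
    linarith [(Nat.cast_nonneg m : (0 : ℝ) ≤ m)]
  obtain ⟨A, hA⟩ : ∃ A : Finset (ℤ × ℤ),
      (big S A : ℝ) ^ (((d : ℝ) + m) / d) < ((A.image (pr (some (-1)))).card : ℝ) := by
    simp only [Bound, not_forall, not_le] at h
    exact h
  have hAne : A.Nonempty := by
    rcases A.eq_empty_or_nonempty with rfl | hA'
    · simp only [Finset.image_empty, Finset.card_empty, Nat.cast_zero] at hA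
      exact absurd hA (not_lt.2 (by positivity))
    · exact hA'
  set K : ℝ := (big S A : ℝ) with hKdef
  set M : ℝ := ((A.image (pr (some (-1)))).card : ℝ) with hMdef
  have hK : 1 ≤ K := by
    rw [hKdef]
    exact_mod_cast big_pos hAne
  have hM : 1 < M := lt_of_le_of_lt (Real.one_le_rpow hK (by positivity)) hA
  have hlog : ((d : ℝ) + m) * Real.log K < d * Real.log M := by
    have h1 := Real.log_lt_log (by positivity) hA
    rw [Real.log_rpow (by linarith)] at h1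
    have h2 := mul_lt_mul_of_pos_left h1 hd0
    calc ((d : ℝ) + m) * Real.log K = d * (((d : ℝ) + m) / d * Real.log K) := by field_simp
      _ < _ := h2
  obtain ⟨c, hc, hL⟩ := choose_length K M ((d : ℝ) + m) d hK hM (by positivity) hlog
  obtain ⟨Q1, hQ1⟩ := exists_diff A
  obtain ⟨Q2, hQ2⟩ := exists_den S
  obtain ⟨Q3, hQ3⟩ := exists_one_add S hS1
  set t₀ : ℕ := ⌊2 * ((d : ℝ) + m) / c⌋₊ + 1 with ht₀
  set E : ℝ := 12 + 6 * (S.card + 1) * K with hE
  have hE0 : 0 < E := by positivity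
  set E' : ℝ := E + (S.card + 1) * t₀ * K with hE'
  have hE'0 : 0 < E' := by positivity
  refine ⟨max (max Q1 Q2) (max Q3 (max 2 ⌈E' ^ (2 / c)⌉₊)), ?_⟩
  intro q _ hq
  have hqQ1 : Q1 ≤ q := le_trans (le_trans (le_max_left _ _) (le_max_left _ _)) hq
  have hqQ2 : Q2 ≤ q := le_trans (le_trans (le_max_right _ _) (le_max_left _ _)) hq
  have hqQ3 : Q3 ≤ q := le_trans (le_trans (le_max_left _ _) (le_max_right _ _)) hq
  have hq2 : 2 ≤ q := le_trans (le_trans (le_max_left _ _)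
    (le_trans (le_max_right _ _) (le_max_right _ _))) hq
  have hqE : E' ^ (2 / c) ≤ q := by
    have : ⌈E' ^ (2 / c)⌉₊ ≤ q := le_trans (le_trans (le_max_right _ _)
      (le_trans (le_max_right _ _) (le_max_right _ _))) hq
    exact (Nat.le_ceil _).trans (by exact_mod_cast this)
  have hq2' : (2 : ℝ) ≤ q := by exact_mod_cast hq2
  have hq0 : (0 : ℝ) < q := by linarith
  have hq1' : (1 : ℝ) ≤ q := by linarith
  obtain ⟨L, hL1, hL2⟩ := hL q hq1'
  obtain ⟨Γ, hΓ1, hΓ2, hΓ3⟩ := sets q L d m S A hAne (hQ2 q hqQ2) (hQ1 q hqQ1)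
  rw [← hKdef, ← hMdef] at hΓ3
  have hMpos : 0 < M ^ L := by positivity
  set η : ℝ := 12 * (q : ℝ) ^ (d + m) / M ^ L + 6 * (S.card + 1) * K ^ L / (q : ℝ) ^ d with hη
  have hη0 : 0 ≤ η := by positivity
  -- first term
  have h1 : 12 * (q : ℝ) ^ (d + m) / M ^ L ≤ 12 * (q : ℝ) ^ (-c) := by
    rw [div_le_iff₀ hMpos]
    have h2 : (q : ℝ) ^ (d + m) = (q : ℝ) ^ (-c) * (q : ℝ) ^ (((d : ℝ) + m) + c) := by
      rw [← Real.rpow_add hq0, ← Real.rpow_natCast]
      congr 1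
      push_cast
      ring
    rw [h2, mul_assoc]
    have := mul_le_mul_of_nonneg_left hL1 (Real.rpow_nonneg hq0.le (-c))
    linarith
  have h4 : K ^ L ≤ K * ((q : ℝ) ^ (-c) * (q : ℝ) ^ d) := by
    refine hL2.trans (mul_le_mul_of_nonneg_left ?_ (by linarith))
    rw [← Real.rpow_natCast, ← Real.rpow_add hq0]
    exact Real.rpow_le_rpow_of_exponent_le hq1' (by linarith)
  have h3 : 6 * ((S.card : ℝ) + 1) * K ^ L / (q : ℝ) ^ d ≤
      6 * (S.card + 1) * K * (q : ℝ) ^ (-c) := by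
    rw [div_le_iff₀ (by positivity)]
    have := mul_le_mul_of_nonneg_left h4 (by positivity : (0 : ℝ) ≤ 6 * (S.card + 1))
    linarith
  have h3' : ((S.card : ℝ) + 1) * ((t₀ * big S A ^ L : ℕ) : ℝ) / (q : ℝ) ^ d ≤
      (S.card + 1) * t₀ * K * (q : ℝ) ^ (-c) := by
    rw [div_le_iff₀ (by positivity)]
    push_cast
    rw [← hKdef]
    have := mul_le_mul_of_nonneg_left h4 (by positivity : (0 : ℝ) ≤ (S.card + 1) * t₀)
    linarith
  have h5 : E' * (q : ℝ) ^ (-c) ≤ (q : ℝ) ^ (-(c / 2)) := by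
    have h6 : E' ≤ (q : ℝ) ^ (c / 2) := by
      have := Real.rpow_le_rpow (by positivity) hqE (by positivity : 0 ≤ c / 2)
      rw [← Real.rpow_mul hE'0.le] at this
      have h7 : 2 / c * (c / 2) = 1 := by field_simp
      rwa [h7, Real.rpow_one] at this
    calc E' * (q : ℝ) ^ (-c) ≤ (q : ℝ) ^ (c / 2) * (q : ℝ) ^ (-c) :=
          mul_le_mul_of_nonneg_right h6 (Real.rpow_nonneg hq0.le _)
      _ = _ := by
          rw [← Real.rpow_add hq0]
          congr 1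
          ring
  have hθ : η + (S.card + 1) * ((t₀ * big S A ^ L : ℕ) : ℝ) / (q : ℝ) ^ d ≤
      (q : ℝ) ^ (-(c / 2)) := by
    have h8 : E' * (q : ℝ) ^ (-c) = 12 * (q : ℝ) ^ (-c) + 6 * (S.card + 1) * K * (q : ℝ) ^ (-c) +
        (S.card + 1) * t₀ * K * (q : ℝ) ^ (-c) := by
      rw [hE', hE]; ring
    linarith
  obtain ⟨Γ', hΓ1', -, hΓ3'⟩ := iterate q d m S (hQ3 q hqQ3) Γ hΓ1 (big S A ^ L) hΓ2 η hη0 hΓ3 t₀
    ((q : ℝ) ^ (-(c / 2))) hθ t₀ le_rfl
  have hlt : ((q : ℝ) ^ (-(c / 2))) ^ t₀ * (q : ℝ) ^ (d + m) < 1 := by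
    rw [← Real.rpow_natCast ((q : ℝ) ^ (-(c / 2))) t₀, ← Real.rpow_mul hq0.le,
      ← Real.rpow_natCast (q : ℝ) (d + m), ← Real.rpow_add hq0]
    apply Real.rpow_lt_one_of_one_lt_of_neg (by linarith)
    have h9 := Nat.lt_floor_add_one (2 * ((d : ℝ) + m) / c)
    rw [div_lt_iff₀ hc] at h9
    rw [ht₀]
    push_cast
    linarith
  have hzero : ((setDiff q d m S Γ')ᶜ).ncard = 0 := by
    have := hΓ3'.trans_lt hlt
    have h10 : ((setDiff q d m S Γ')ᶜ).ncard < 1 := by exact_mod_cast this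
    omega
  have huniv : setDiff q d m S Γ' = Set.univ := by
    rw [Set.ncard_eq_zero (Set.toFinite _)] at hzero
    exact Set.compl_empty_iff.1 hzero
  obtain ⟨f, hf⟩ := total q d m S Γ' hΓ1'
  exact ⟨f, Set.eq_univ_of_univ_subset (huniv ▸ hf)⟩

end Pool.Agent.Zk23.AKAll
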