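import Mathlib

/-!
# Definitions for the arithmetic Kakeya conjecture (projection form) and functions over finite fields
-/

set_option autoImplicit false

namespace Pool.Agent.Zk23.AKDefs

/-- the projection `π_d` of a point: `x + r y` for the direction `some r` (the slope `r`), `y` for the
direction `none` (the slope `∞`) -/
def pr : Option ℚ → ℤ × ℤ → ℚ
  | none, z => z.2
  | some r, z => z.1 + r * z.2

/-- the largest size of a projection of `A` with a slope in `S ∪ {∞}` -/
def big (S : Finset ℚ) (A : Finset (ℤ × ℤ)) : ℕ :=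
  max (A.image (pr none)).card (S.sup fun r => (A.image (pr (some r))).card)

/-- the inequality of the conjecture with the slopes `S` and the exponent `κ` -/
def Bound (S : Finset ℚ) (κ : ℝ) : Prop :=
  ∀ A : Finset (ℤ × ℤ), ((A.image (pr (some (-1)))).card : ℝ) ≤ (big S A : ℝ) ^ κ

/-- the graph of a function `F_q^d → F_q^m` -/
def graph {q d m : ℕ} (g : (Fin d → ZMod q) → (Fin m → ZMod q)) :
    Set ((Fin d → ZMod q) × (Fin m → ZMod q)) := {w | w.2 = g w.1}

/-- the differences `x - y` of the pairs `x, y ∈ F_q^d × F_q^m` with `y` in the graph of `f none` and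
`x + r y` in the graph of `f (some r)` for all `r ∈ S` -/
def graphDiff (q d m : ℕ) [Fact q.Prime] (S : Finset ℚ)
    (f : Option ℚ → (Fin d → ZMod q) → (Fin m → ZMod q)) :
    Set ((Fin d → ZMod q) × (Fin m → ZMod q)) :=
  {v | ∃ x y, v = x - y ∧ y ∈ graph (f none) ∧ ∀ r ∈ S, x + (r : ZMod q) • y ∈ graph (f (some r))}

end Pool.Agent.Zk23.AKDefs
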