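import Mathlib

/-!
# Progressions in the graphs of functions over finite fields
-/

set_option autoImplicit false

namespace Pool.Agent.Zk23.AKAP

/-- the common differences of the `k`-term progressions in the set `Γ` -/
def apSet (q d m k : ℕ) (Γ : Set ((Fin d → ZMod q) × (Fin m → ZMod q))) :
    Set ((Fin d → ZMod q) × (Fin m → ZMod q)) :=
  {v | ∃ y, ∀ j < k, y + (j : ZMod q) • v ∈ Γ}

/-- the graph of a function `F_q^d → F_q^m` -/
def gr {q d m : ℕ} (f : (Fin d → ZMod q) → (Fin m → ZMod q)) :
    Set ((Fin d → ZMod q) × (Fin m → ZMod q)) := {w | w.2 = f w.1}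

/-- the inequality for the slopes of the progressions with `k` terms (pairs `(y, v)`) -/
def APBound (k : ℕ) (κ : ℝ) : Prop :=
  ∀ A : Finset (ℤ × ℤ), ((A.image Prod.snd).card : ℝ) ≤
    (((Finset.range k).sup fun j => (A.image fun p => p.1 + (j : ℤ) * p.2).card : ℕ) : ℝ) ^ κ

end Pool.Agent.Zk23.AKAP
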