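import Pool.Agent.Zk23.AKAll
import Pool.Agent.Zk9.AKP5

/-!
# The arithmetic Kakeya conjecture: the equivalences
-/

set_option autoImplicit false

open Filter Topology

namespace Pool.Agent.Zk23.AKFinal

open Pool.Agent.Zk23.AKDefs
open Pool.Agent.Zk23.AKMain (bound_mono big_pos exists_den)
open Pool.Agent.Zk23.AKAll (all card_total)
open Pool.Agent.Zk9.AKP5 (upper)

theorem eventually_lt (C e : ℝ) (he : 0 < e) : ∃ N : ℕ, ∀ q : ℕ, N ≤ q → C < (q : ℝ) ^ e := by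
  have h := ((tendsto_rpow_atTop he).comp tendsto_natCast_atTop_atTop).eventually
    (eventually_gt_atTop C)
  exact eventually_atTop.1 h

theorem exists_ratio {S : Finset ℚ} {κ : ℝ} (hκ : 1 ≤ κ) (h : ¬ Bound S κ) :
    ∃ d m : ℕ, 1 ≤ d ∧ κ * d < d + m ∧ ¬ Bound S (((d : ℝ) + m) / d) := by
  obtain ⟨A, hA⟩ : ∃ A : Finset (ℤ × ℤ),
      (big S A : ℝ) ^ κ < ((A.image (pr (some (-1)))).card : ℝ) := by
    simp only [Bound, not_forall, not_le] at h
    exact h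
  have hAne : A.Nonempty := by
    rcases A.eq_empty_or_nonempty with rfl | hA'
    · simp only [Finset.image_empty, Finset.card_empty, Nat.cast_zero] at hA
      exact absurd hA (not_lt.2 (by positivity))
    · exact hA'
  have hK : (1 : ℝ) ≤ (big S A : ℝ) := by exact_mod_cast big_pos hAne
  have hcont : ContinuousAt (fun t : ℝ => (big S A : ℝ) ^ t) κ :=
    Real.continuousAt_const_rpow (by linarith)
  have hev : ∀ᶠ t in 𝓝 κ, (big S A : ℝ) ^ t < ((A.image (pr (some (-1)))).card : ℝ) :=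
    hcont.eventually (gt_mem_nhds hA)
  obtain ⟨δ, hδ, hball⟩ := Metric.eventually_nhds_iff.1 hev
  obtain ⟨n, hn⟩ := exists_nat_gt (1 / δ)
  have hn0 : (0 : ℝ) < n := lt_trans (by positivity) hn
  have hn1 : 1 ≤ n := by exact_mod_cast hn0
  have hfl1 := Nat.lt_floor_add_one ((κ - 1) * n)
  have hfl2 := Nat.floor_le (mul_nonneg (by linarith : (0 : ℝ) ≤ κ - 1) hn0.le)
  refine ⟨n, ⌊(κ - 1) * n⌋₊ + 1, hn1, ?_, ?_⟩
  · push_cast
    linarith
  · intro hB
    have h1 := hB A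
    refine absurd h1 (not_le.2 (hball ?_))
    push_cast
    rw [Real.dist_eq, abs_lt]
    have h2 : (1 : ℝ) / n < δ := by
      rw [div_lt_iff₀ hn0]
      rw [div_lt_iff₀ hδ] at hn
      linarith
    have h3 : ((n : ℝ) + (⌊(κ - 1) * n⌋₊ + 1)) / n ≤ κ + 1 / n := by
      rw [div_le_iff₀ hn0]
      have : (κ + 1 / n) * (n : ℝ) = κ * n + 1 := by field_simp
      rw [this]
      linarith
    have h4 : κ < ((n : ℝ) + (⌊(κ - 1) * n⌋₊ + 1)) / n := by
      rw [lt_div_iff₀ hn0]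
      linarith
    constructor <;> linarith

theorem ne_univ {q d m : ℕ} [Fact q.Prime] {D : Set ((Fin d → ZMod q) × (Fin m → ZMod q))}
    (h : (D.ncard : ℝ) < (q : ℝ) ^ (d + m)) : D ≠ Set.univ := by
  rintro rfl
  rw [Set.ncard_univ, card_total] at h
  push_cast at h
  exact lt_irrefl _ h

/-- the three equivalent forms for given slopes and a given exponent -/
theorem tfae_slopes (S : Finset ℚ) (κ : ℝ) (hκ : 1 ≤ κ) : List.TFAE [
    Bound S κ,
    ∀ d m : ℕ, ∃ C : ℝ, ∀ (q : ℕ) [Fact q.Prime], (∀ r ∈ S, r.den < q) →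
      ∀ f : Option ℚ → (Fin d → ZMod q) → (Fin m → ZMod q),
        ((graphDiff q d m S f).ncard : ℝ) ≤ C * (q : ℝ) ^ (κ * d),
    ∀ d m : ℕ, κ * d < d + m → ∀ Q : ℕ, ∃ q : ℕ, Q ≤ q ∧ ∃ _ : Fact q.Prime,
      ∀ f : Option ℚ → (Fin d → ZMod q) → (Fin m → ZMod q),
        graphDiff q d m S f ≠ Set.univ] := by
  tfae_have 1 → 2 := fun h d m => upper S κ (by linarith) h d m
  tfae_have 2 → 3 := by
    intro h d m hdm Q
    obtain ⟨C, hC⟩ := h d m
    obtain ⟨N, hN⟩ := eventually_lt C ((d : ℝ) + m - κ * d) (by linarith)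
    obtain ⟨Q2, hQ2⟩ := exists_den S
    obtain ⟨q, hq, hprime⟩ := Nat.exists_infinite_primes (max Q (max N Q2))
    have : Fact q.Prime := ⟨hprime⟩
    refine ⟨q, le_trans (le_max_left _ _) hq, this, fun f => ne_univ ?_⟩
    have hq0 : (0 : ℝ) < q := by exact_mod_cast hprime.pos
    have h1 := hN q (le_trans (le_trans (le_max_left _ _) (le_max_right _ _)) hq)
    refine (hC q (hQ2 q (le_trans (le_trans (le_max_right _ _) (le_max_right _ _)) hq)) f).trans_lt ?_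
    calc C * (q : ℝ) ^ (κ * d) < (q : ℝ) ^ ((d : ℝ) + m - κ * d) * (q : ℝ) ^ (κ * d) :=
          mul_lt_mul_of_pos_right h1 (Real.rpow_pos_of_pos hq0 _)
      _ = (q : ℝ) ^ (d + m) := by
          rw [← Real.rpow_add hq0, ← Real.rpow_natCast]
          congr 1
          push_cast
          ring
  tfae_have 3 → 1 := by
    intro h
    by_contra hB
    obtain ⟨d, m, hd, hdm, hB'⟩ := exists_ratio hκ hB
    obtain ⟨Q, hQ⟩ := all S d m hd hB'
    obtain ⟨q, hq, hprime, hf⟩ := h d m hdm Q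
    obtain ⟨f, hf'⟩ := hQ q hq
    exact hf f hf'
  tfae_finish

/-- either functions with all the differences, or few differences in all dimensions -/
theorem dichotomy (S : Finset ℚ) (d m : ℕ) (hd : 1 ≤ d) :
    (∃ Q : ℕ, ∀ (q : ℕ) [Fact q.Prime], Q ≤ q →
      ∃ f : Option ℚ → (Fin d → ZMod q) → (Fin m → ZMod q),
        graphDiff q d m S f = Set.univ) ∨
    (∀ m' : ℕ, ∃ C : ℝ, ∀ (q : ℕ) [Fact q.Prime], (∀ r ∈ S, r.den < q) →
      ∀ f : Option ℚ → (Fin d → ZMod q) → (Fin m' → ZMod q),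
        ((graphDiff q d m' S f).ncard : ℝ) ≤ C * (q : ℝ) ^ (d + m)) := by
  have hd0 : (0 : ℝ) < d := by exact_mod_cast hd
  by_cases h : Bound S (((d : ℝ) + m) / d)
  · right
    intro m'
    obtain ⟨C, hC⟩ := upper S _ (by positivity) h d m'
    refine ⟨C, fun q _ hq f => ?_⟩
    have h1 := hC q hq f
    have h2 : ((d : ℝ) + m) / d * d = ((d + m : ℕ) : ℝ) := by
      push_cast
      field_simp
    rwa [h2, Real.rpow_natCast] at h1
  · left
    exact all S d m hd h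

/-- the conjecture -/
def Conj : Prop := ∀ ε : ℝ, 0 < ε → ∃ S : Finset ℚ, (-1 : ℚ) ∉ S ∧ Bound S (1 + ε)

theorem tfae_conj : List.TFAE [
    Conj,
    ∀ d m : ℕ, ∀ η : ℝ, 0 < η → ∃ S : Finset ℚ, (-1 : ℚ) ∉ S ∧
      ∃ Q : ℕ, ∀ (q : ℕ) [Fact q.Prime], Q ≤ q →
        ∀ f : Option ℚ → (Fin d → ZMod q) → (Fin m → ZMod q),
          ((graphDiff q d m S f).ncard : ℝ) ≤ (q : ℝ) ^ (d + η),
    ∀ D : ℕ, ∃ d : ℕ, D ≤ d ∧ ∃ S : Finset ℚ, (-1 : ℚ) ∉ S ∧
      ∀ Q : ℕ, ∃ q : ℕ, Q ≤ q ∧ ∃ _ : Fact q.Prime,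
        ∀ f : Option ℚ → (Fin d → ZMod q) → (Fin 1 → ZMod q),
          graphDiff q d 1 S f ≠ Set.univ] := by
  tfae_have 1 → 2 := by
    intro h d m η hη
    obtain ⟨S, hS, hB⟩ := h (η / (2 * (d + 1))) (by positivity)
    refine ⟨S, hS, ?_⟩
    obtain ⟨C, hC⟩ := upper S _ (by positivity) hB d m
    obtain ⟨N, hN⟩ := eventually_lt C (η / 2) (by positivity)
    obtain ⟨Q2, hQ2⟩ := exists_den S
    refine ⟨max N Q2, fun q hprime hq f => ?_⟩
    have hq0 : (0 : ℝ) < q := by exact_mod_cast hprime.out.pos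
    have hq1 : (1 : ℝ) ≤ q := by exact_mod_cast hprime.out.one_lt.le
    have h1 := hN q (le_trans (le_max_left _ _) hq)
    refine (hC q (hQ2 q (le_trans (le_max_right _ _) hq)) f).trans ?_
    have h2 : (1 + η / (2 * ((d : ℝ) + 1))) * d ≤ d + η / 2 := by
      have h3 : η / (2 * ((d : ℝ) + 1)) * d ≤ η / 2 := by
        rw [div_mul_eq_mul_div, div_le_iff₀ (by positivity)]
        nlinarith
      linarith
    calc C * (q : ℝ) ^ ((1 + η / (2 * ((d : ℝ) + 1))) * d)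
        ≤ (q : ℝ) ^ (η / 2) * (q : ℝ) ^ ((1 + η / (2 * ((d : ℝ) + 1))) * d) :=
          mul_le_mul_of_nonneg_right h1.le (Real.rpow_nonneg hq0.le _)
      _ ≤ (q : ℝ) ^ (η / 2) * (q : ℝ) ^ ((d : ℝ) + η / 2) :=
          mul_le_mul_of_nonneg_left (Real.rpow_le_rpow_of_exponent_le hq1 h2)
            (Real.rpow_nonneg hq0.le _)
      _ = _ := by
          rw [← Real.rpow_add hq0]
          congr 1
          ring
  tfae_have 2 → 3 := by
    intro h D
    obtain ⟨S, hS, Q1, hQ1⟩ := h D 1 (1 / 2) (by norm_num)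
    refine ⟨D, le_rfl, S, hS, fun Q => ?_⟩
    obtain ⟨q, hq, hprime⟩ := Nat.exists_infinite_primes (max Q Q1)
    have : Fact q.Prime := ⟨hprime⟩
    refine ⟨q, le_trans (le_max_left _ _) hq, this, fun f => ne_univ ?_⟩
    have hq1 : (1 : ℝ) < q := by exact_mod_cast hprime.one_lt
    refine (hQ1 q (le_trans (le_max_right _ _) hq) f).trans_lt ?_
    rw [← Real.rpow_natCast]
    apply Real.rpow_lt_rpow_of_exponent_lt hq1
    push_cast
    linarith
  tfae_have 3 → 1 := by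
    intro h ε hε
    obtain ⟨D, hD⟩ := exists_nat_gt (1 / ε)
    obtain ⟨d, hd, S, hS, hf⟩ := h D
    refine ⟨S, hS, ?_⟩
    by_contra hB
    have hD0 : (0 : ℝ) < D := lt_trans (by positivity) hD
    have hdD : (D : ℝ) ≤ d := by exact_mod_cast hd
    have hd0 : (0 : ℝ) < d := by linarith
    have hd1 : 1 ≤ d := by exact_mod_cast hd0
    have hB' : ¬ Bound S (((d : ℝ) + (1 : ℕ)) / d) := by
      intro hB'
      apply hB
      refine bound_mono hB' ?_
      rw [div_le_iff₀ hd0]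
      have h1 : 1 < D * ε := by rwa [div_lt_iff₀ hε] at hD
      push_cast
      nlinarith
    obtain ⟨Q, hQ⟩ := all S d 1 hd1 hB'
    obtain ⟨q, hq, hprime, hf⟩ := hf Q
    obtain ⟨f, hf'⟩ := hQ q hq
    exact hf f hf'
  tfae_finish

theorem not_conj (h : ¬ Conj) : ∃ ε : ℝ, 0 < ε ∧ ∀ d m : ℕ, 1 ≤ d → (m : ℝ) ≤ ε * d →
    ∀ S : Finset ℚ, (-1 : ℚ) ∉ S → ∃ Q : ℕ, ∀ (q : ℕ) [Fact q.Prime], Q ≤ q →
      ∃ f : Option ℚ → (Fin d → ZMod q) → (Fin m → ZMod q), graphDiff q d m S f = Set.univ := by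
  simp only [Conj, not_forall, not_exists, not_and] at h
  obtain ⟨ε, hε, h⟩ := h
  refine ⟨ε, hε, fun d m hd hm S hS => ?_⟩
  have hd0 : (0 : ℝ) < d := by exact_mod_cast hd
  refine all S d m hd fun hB => h S hS (bound_mono hB ?_)
  rw [div_le_iff₀ hd0]
  linarith

end Pool.Agent.Zk23.AKFinal
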