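import Pool.Agent.Zk23.AKDefs
import Pool.Agent.Zk23.AKDefs2
import Pool.Agent.Zk81.AKP1

/-!
# The arithmetic Kakeya conjecture and functions over finite fields
-/

set_option autoImplicit false

open Filter Topology

namespace Pool.Agent.Zk23.AKMain

open Pool.Agent.Zk23.AKDefs
open Pool.Agent.Zk23.AKStep (setDiff)
open Pool.Agent.Zk81.AK (random_map)

theorem cast_pr {q : ℕ} [Fact q.Prime] {r : ℚ} (hr : r.den < q) (a : ℤ × ℤ) :
    ((pr (some r) a : ℚ) : ZMod q) = (a.1 : ZMod q) + (r : ZMod q) * (a.2 : ZMod q) := by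
  have hq0 : ∀ e : ℕ, 0 < e → e < q → ((e : ℕ) : ZMod q) ≠ 0 := by
    intro e he1 he2 h
    rw [ZMod.natCast_eq_zero_iff] at h
    exact absurd (Nat.le_of_dvd he1 h) (not_le.2 he2)
  have h1 : (((a.1 : ℚ)).den : ZMod q) ≠ 0 := by simp
  have h2 : (((a.2 : ℚ)).den : ZMod q) ≠ 0 := by simp
  have h3 : ((r.den : ℕ) : ZMod q) ≠ 0 := hq0 _ r.den_pos hr
  have h4 : (((r * (a.2 : ℚ)).den : ℕ) : ZMod q) ≠ 0 := by
    refine hq0 _ (Rat.den_pos _) (lt_of_le_of_lt ?_ hr)
    have := Rat.mul_den_dvd r (a.2 : ℚ)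
    rw [Rat.den_intCast, mul_one] at this
    exact Nat.le_of_dvd r.den_pos this
  simp only [pr]
  rw [Rat.cast_add_of_ne_zero h1 h4, Rat.cast_mul_of_ne_zero h3 h2, Rat.cast_intCast,
    Rat.cast_intCast]

/-- sets of points which are graphs of partial functions, from a set of integer points -/
theorem sets (q : ℕ) [Fact q.Prime] (L d m : ℕ) (S : Finset ℚ) (A : Finset (ℤ × ℤ))
    (hA : A.Nonempty) (hS : ∀ r ∈ S, r.den < q)
    (hdiff : ∀ a ∈ A, ∀ b ∈ A, a.1 - a.2 ≠ b.1 - b.2 →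
      ((a.1 - a.2 : ℤ) : ZMod q) ≠ ((b.1 - b.2 : ℤ) : ZMod q)) :
    ∃ Γ : Option ℚ → Finset ((Fin d → ZMod q) × (Fin m → ZMod q)),
      (∀ r, Set.InjOn Prod.fst (Γ r : Set ((Fin d → ZMod q) × (Fin m → ZMod q)))) ∧
      (∀ r, (Γ r).card ≤ big S A ^ L) ∧
      (((setDiff q d m S Γ)ᶜ).ncard : ℝ) ≤
        (12 * (q : ℝ) ^ (d + m) / ((A.image (pr (some (-1)))).card : ℝ) ^ L +
          6 * (S.card + 1) * (big S A : ℝ) ^ L / (q : ℝ) ^ d) * (q : ℝ) ^ (d + m) := by
  classical
  -- representatives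
  let D : Type := {x // x ∈ A.image (pr (some (-1)))}
  have hrep : ∀ x : D, ∃ a ∈ A, pr (some (-1)) a = x.1 := fun x => Finset.mem_image.1 x.2
  choose rep hrepA hrep2 using hrep
  let R : Type := {r // r ∈ Finset.insertNone S}
  letI : Fintype D := inferInstanceAs (Fintype {x // x ∈ A.image (pr (some (-1)))})
  letI : Fintype R := inferInstanceAs (Fintype {r // r ∈ Finset.insertNone S})
  let δ : (Fin L → D) → Fin L → ZMod q :=
    fun i l => (((rep (i l)).1 - (rep (i l)).2 : ℤ) : ZMod q)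
  have hδ : Function.Injective δ := by
    intro i j hij
    funext l
    by_contra hne
    have h1 : (rep (i l)).1 - (rep (i l)).2 ≠ (rep (j l)).1 - (rep (j l)).2 := by
      intro h
      apply hne
      apply Subtype.ext
      rw [← hrep2, ← hrep2]
      simp only [pr]
      have := congrArg (fun t : ℤ => (t : ℚ)) h
      push_cast at this
      linarith
    exact hdiff _ (hrepA _) _ (hrepA _) h1 (congrFun hij l)
  let z : R → (Fin L → D) → Fin L → ZMod q := fun r i l => ((pr r.1 (rep (i l)) : ℚ) : ZMod q)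
  let B : R → Finset (Fin L → ZMod q) :=
    fun r => Fintype.piFinset (fun _ => (A.image (pr r.1)).image (fun x : ℚ => (x : ZMod q)))
  have hz : ∀ r i, z r i ∈ B r := by
    intro r i
    simp only [B, Fintype.mem_piFinset]
    intro l
    exact Finset.mem_image_of_mem _ (Finset.mem_image_of_mem _ (hrepA _))
  have hB : ∀ r, (B r).card ≤ (big S A) ^ L := by
    intro r
    simp only [B, Fintype.card_piFinset, Finset.prod_const, Finset.card_univ, Fintype.card_fin]
    apply Nat.pow_le_pow_left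
    refine Finset.card_image_le.trans ?_
    rcases r with ⟨r, hr⟩
    cases r with
    | none => exact le_max_left _ _
    | some r =>
      refine le_trans ?_ (le_max_right _ _)
      exact Finset.le_sup (f := fun r => (A.image (pr (some r))).card) (by simpa using hr)
  have hDcard : Fintype.card D = (A.image (pr (some (-1)))).card :=
    Fintype.card_coe _
  have hDpos : 0 < Fintype.card D := by
    rw [hDcard]
    exact Finset.card_pos.2 (hA.image _)
  have hιcard : Fintype.card (Fin L → D) = (A.image (pr (some (-1)))).card ^ L := by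
    rw [Fintype.card_fun, Fintype.card_fin, hDcard]
  have hRcard : Fintype.card R = S.card + 1 := by
    rw [← Finset.card_insertNone]
    exact Fintype.card_coe _
  obtain ⟨T, hT⟩ := random_map q L d m ((big S A) ^ L) δ hδ z B hz hB (by
    rw [hιcard, ← hDcard]
    exact Nat.one_le_pow _ _ hDpos)
  -- the sets of light points
  let Γ : Option ℚ → Finset ((Fin d → ZMod q) × (Fin m → ZMod q)) := fun r =>
    if hr : r ∈ Finset.insertNone S then
      ((B ⟨r, hr⟩).filter fun w => ∀ w' ∈ B ⟨r, hr⟩, (T w').1 = (T w).1 → w' = w).image T else ∅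
  have hΓ : ∀ (r : R) (w : Fin L → ZMod q), w ∈ B r →
      (∀ w' ∈ B r, (T w').1 = (T w).1 → w' = w) → T w ∈ Γ r.1 := by
    intro r w hw hu
    simp only [Γ]
    rw [dif_pos r.2]
    exact Finset.mem_image_of_mem _ (Finset.mem_filter.2 ⟨hw, hu⟩)
  refine ⟨Γ, ?_, ?_, ?_⟩
  · intro r
    by_cases hr : r ∈ Finset.insertNone S
    · intro a ha b hb hab
      simp only [Γ, dif_pos hr, Finset.coe_image, Set.mem_image, Finset.mem_coe,
        Finset.mem_filter] at ha hb
      obtain ⟨w, ⟨hw, hw2⟩, rfl⟩ := ha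
      obtain ⟨w', ⟨hw', hw2'⟩, rfl⟩ := hb
      rw [hw2 w' hw' hab.symm]
    · simp only [Γ, dif_neg hr, Finset.coe_empty]
      exact Set.injOn_empty _
  · intro r
    by_cases hr : r ∈ Finset.insertNone S
    · simp only [Γ, dif_pos hr]
      exact Finset.card_image_le.trans ((Finset.card_filter_le _ _).trans (hB ⟨r, hr⟩))
    · simp only [Γ, dif_neg hr, Finset.card_empty]
      exact Nat.zero_le _
  have hsub : {v | ∃ i, T (δ i) = v ∧ ∀ r, ∀ w ∈ B r, (T w).1 = (T (z r i)).1 → w = z r i} ⊆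
      setDiff q d m S Γ := by
    rintro v ⟨i, rfl, hi⟩
    let xx : Fin L → ZMod q := fun l => (((rep (i l)).1 : ℤ) : ZMod q)
    let yy : Fin L → ZMod q := fun l => (((rep (i l)).2 : ℤ) : ZMod q)
    refine ⟨T xx, T yy, ?_, ?_, ?_⟩
    · rw [← map_sub]
      congr 1
      funext l
      simp [δ, xx, yy]
    · have h1 : z ⟨none, by simp⟩ i = yy := by
        funext l
        simp [z, pr, yy]
      rw [← h1]
      exact hΓ ⟨none, by simp⟩ _ (hz _ _) (hi _)
    · intro r hr
      have h1 : z ⟨some r, by simpa using hr⟩ i = xx + (r : ZMod q) • yy := by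
        funext l
        simp only [z]
        rw [cast_pr (hS r hr)]
        simp [xx, yy]
      rw [← map_smul, ← map_add, ← h1]
      exact hΓ ⟨some r, by simpa using hr⟩ _ (hz _ _) (hi _)
  have hcard : (({v | ∃ i, T (δ i) = v ∧ ∀ r, ∀ w ∈ B r, (T w).1 = (T (z r i)).1 → w = z r i} :
      Set ((Fin d → ZMod q) × (Fin m → ZMod q))).ncard : ℝ) ≤
        ((setDiff q d m S Γ).ncard : ℝ) := by
    exact_mod_cast Set.ncard_le_ncard hsub (Set.toFinite _)
  have htot : ((setDiff q d m S Γ).ncard : ℝ) + (((setDiff q d m S Γ)ᶜ).ncard : ℝ) =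
      (q : ℝ) ^ (d + m) := by
    have h1 := Set.ncard_add_ncard_compl (setDiff q d m S Γ)
    have h2 : Nat.card ((Fin d → ZMod q) × (Fin m → ZMod q)) = q ^ (d + m) := by
      simp [Nat.card_eq_fintype_card, ZMod.card, pow_add]
    rw [h2] at h1
    exact_mod_cast h1
  rw [hιcard, hRcard] at hT
  have h3 := hT.trans hcard
  push_cast at h3
  have h4 : (q : ℝ) ^ (d + m) * (1 - 12 * (q : ℝ) ^ (d + m) /
      ((A.image (pr (some (-1)))).card : ℝ) ^ L - 6 * (S.card + 1) * (big S A : ℝ) ^ L / (q : ℝ) ^ d)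
      = (q : ℝ) ^ (d + m) - (12 * (q : ℝ) ^ (d + m) / ((A.image (pr (some (-1)))).card : ℝ) ^ L +
          6 * (S.card + 1) * (big S A : ℝ) ^ L / (q : ℝ) ^ d) * (q : ℝ) ^ (d + m) := by
    ring
  linarith

theorem big_pos {S : Finset ℚ} {A : Finset (ℤ × ℤ)} (hA : A.Nonempty) : 1 ≤ big S A :=
  le_max_of_le_left (Finset.card_pos.2 (hA.image _))

theorem bound_mono {S : Finset ℚ} {κ κ' : ℝ} (h : Bound S κ) (hκ : κ ≤ κ') : Bound S κ' := by
  intro A
  rcases A.eq_empty_or_nonempty with rfl | hA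
  · simp only [Finset.image_empty, Finset.card_empty, Nat.cast_zero]
    positivity
  · refine (h A).trans (Real.rpow_le_rpow_of_exponent_le ?_ hκ)
    exact_mod_cast big_pos hA

theorem exists_diff (A : Finset (ℤ × ℤ)) : ∃ Q : ℕ, ∀ q : ℕ, Q ≤ q →
    ∀ a ∈ A, ∀ b ∈ A, a.1 - a.2 ≠ b.1 - b.2 →
      ((a.1 - a.2 : ℤ) : ZMod q) ≠ ((b.1 - b.2 : ℤ) : ZMod q) := by
  classical
  refine ⟨((A ×ˢ A).sup fun w => ((w.2.1 - w.2.2) - (w.1.1 - w.1.2)).natAbs) + 1, ?_⟩
  intro q hq a ha b hb hne heq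
  rw [ZMod.intCast_eq_intCast_iff_dvd_sub] at heq
  have h1 : ((b.1 - b.2) - (a.1 - a.2)).natAbs < q := by
    refine lt_of_le_of_lt ?_ (Nat.lt_of_succ_le hq)
    exact Finset.le_sup (f := fun w : (ℤ × ℤ) × (ℤ × ℤ) =>
      ((w.2.1 - w.2.2) - (w.1.1 - w.1.2)).natAbs) (Finset.mem_product.2 ⟨ha, hb⟩ : (a, b) ∈ A ×ˢ A)
  have h2 : (b.1 - b.2) - (a.1 - a.2) ≠ 0 := fun h => hne (by linarith)
  have h3 := Int.natAbs_dvd_natAbs.2 heq
  rw [Int.natAbs_natCast] at h3
  exact absurd (Nat.le_of_dvd (Int.natAbs_pos.2 h2) h3) (not_le.2 h1)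

theorem exists_den (S : Finset ℚ) : ∃ Q : ℕ, ∀ q : ℕ, Q ≤ q → ∀ r ∈ S, r.den < q := by
  refine ⟨(S.sup fun r => r.den) + 1, ?_⟩
  intro q hq r hr
  exact lt_of_le_of_lt (Finset.le_sup (f := fun r : ℚ => r.den) hr) (Nat.lt_of_succ_le hq)

/-- the choice of the length -/
theorem choose_length (K M n d : ℝ) (hK : 1 ≤ K) (hM : 1 < M) (hn : 0 ≤ n)
    (h : n * Real.log K < d * Real.log M) :
    ∃ c : ℝ, 0 < c ∧ ∀ q : ℝ, 1 ≤ q → ∃ L : ℕ, q ^ (n + c) ≤ M ^ L ∧ K ^ L ≤ K * q ^ (d - 2 * c) := by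
  have hlK : 0 ≤ Real.log K := Real.log_nonneg hK
  have hlM : 0 < Real.log M := Real.log_pos hM
  have hs : 0 < Real.log K + 2 * Real.log M := by positivity
  set c : ℝ := (d * Real.log M - n * Real.log K) / (Real.log K + 2 * Real.log M) with hc
  have hc0 : 0 < c := div_pos (by linarith) hs
  have hceq : c * (Real.log K + 2 * Real.log M) = d * Real.log M - n * Real.log K :=
    div_mul_cancel₀ _ hs.ne'
  refine ⟨c, hc0, fun q hq => ?_⟩
  have hq0 : 0 < q := by linarith
  have hlq : 0 ≤ Real.log q := Real.log_nonneg hq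
  have hx : 0 ≤ (n + c) * Real.log q / Real.log M := by positivity
  refine ⟨⌈(n + c) * Real.log q / Real.log M⌉₊, ?_, ?_⟩
  · rw [← Real.log_le_log_iff (by positivity) (by positivity), Real.log_rpow hq0, Real.log_pow]
    have h1 := Nat.le_ceil ((n + c) * Real.log q / Real.log M)
    calc (n + c) * Real.log q = (n + c) * Real.log q / Real.log M * Real.log M := by
          field_simp
      _ ≤ _ := mul_le_mul_of_nonneg_right h1 hlM.le
  · rw [← Real.log_le_log_iff (by positivity) (by positivity),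
      Real.log_mul (by positivity) (by positivity), Real.log_rpow hq0, Real.log_pow]
    have h1 := (Nat.ceil_lt_add_one hx).le
    have h2 : (n + c) * Real.log q / Real.log M * Real.log K ≤ (d - 2 * c) * Real.log q := by
      rw [div_mul_eq_mul_div, div_le_iff₀ hlM]
      have : (n + c) * Real.log K = (d - 2 * c) * Real.log M := by linarith
      calc (n + c) * Real.log q * Real.log K = ((n + c) * Real.log K) * Real.log q := by ring
        _ = ((d - 2 * c) * Real.log M) * Real.log q := by rw [this]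
        _ ≤ _ := le_of_eq (by ring)
    have h3 := mul_le_mul_of_nonneg_right h1 hlK
    linarith

end Pool.Agent.Zk23.AKMain
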