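import Pool.Agent.Zk23.AKDefs3
import Pool.Agent.Zk23.AKMain
import Pool.Agent.Zk9.AKM2
import Pool.Agent.Zk81.AKM1

/-!
# The arithmetic Kakeya conjecture: graphs with progressions of all differences
-/

set_option autoImplicit false

namespace Pool.Agent.Zk23.APAll

open Pool.Agent.Zk23.AKAP
open Pool.Agent.Zk23.AKMain (choose_length)
open Pool.Agent.Zk81.AK (random_map_at)
open Pool.Agent.Zk9.AKM2 (step1)

/-- the largest of the sizes `|{y + j v}|`, `j < k` -/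
def mx (k : ℕ) (A : Finset (ℤ × ℤ)) : ℕ :=
  (Finset.range k).sup fun j => (A.image fun p => p.1 + (j : ℤ) * p.2).card

/-- sets of points which are graphs of partial functions, from a set of integer points -/
theorem sets_at (q : ℕ) [Fact q.Prime] (L d m k : ℕ) (A : Finset (ℤ × ℤ)) (hA : A.Nonempty)
    (hdiff : ∀ a ∈ A, ∀ b ∈ A, a.2 ≠ b.2 → ((a.2 : ℤ) : ZMod q) ≠ ((b.2 : ℤ) : ZMod q)) :
    ∃ (Ω : Type) (_ : Finite Ω) (_ : Nonempty Ω)
      (Γ : Ω → Finset ((Fin d → ZMod q) × (Fin m → ZMod q))),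
      (∀ ω, Set.InjOn Prod.fst (Γ ω : Set ((Fin d → ZMod q) × (Fin m → ZMod q)))) ∧
      (∀ ω, (Γ ω).card ≤ k * mx k A ^ L) ∧
      ∀ v : (Fin d → ZMod q) × (Fin m → ZMod q), v.1 ≠ 0 →
        (Nat.card {ω : Ω // v ∉ apSet q d m k (Γ ω)} : ℝ) ≤
          (12 * (q : ℝ) ^ (d + m) / ((A.image Prod.snd).card : ℝ) ^ L +
            6 * k * (k * (mx k A : ℝ) ^ L) / (q : ℝ) ^ d) * Nat.card Ω := by
  classical
  -- representatives
  let D : Type := {x // x ∈ A.image Prod.snd}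
  have hrep : ∀ x : D, ∃ a ∈ A, a.2 = x.1 := fun x => Finset.mem_image.1 x.2
  choose rep hrepA hrep2 using hrep
  letI : Fintype D := inferInstanceAs (Fintype {x // x ∈ A.image Prod.snd})
  let δ : (Fin L → D) → Fin L → ZMod q := fun i l => (((rep (i l)).2 : ℤ) : ZMod q)
  have hδ : Function.Injective δ := by
    intro i j hij
    funext l
    by_contra hne
    have h1 : (rep (i l)).2 ≠ (rep (j l)).2 := by
      intro h
      apply hne
      apply Subtype.ext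
      rw [← hrep2, ← hrep2, h]
    exact hdiff _ (hrepA _) _ (hrepA _) h1 (congrFun hij l)
  let z : Fin k → (Fin L → D) → Fin L → ZMod q :=
    fun j i l => (((rep (i l)).1 + ((j : ℕ) : ℤ) * (rep (i l)).2 : ℤ) : ZMod q)
  let B : Finset (Fin L → ZMod q) := (Finset.range k).biUnion fun j =>
    Fintype.piFinset (fun _ => (A.image fun p => p.1 + (j : ℤ) * p.2).image
      (fun x : ℤ => (x : ZMod q)))
  have hz : ∀ (r : Fin k) i, z r i ∈ B := by
    intro r i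
    refine Finset.mem_biUnion.2 ⟨(r : ℕ), Finset.mem_range.2 r.2, ?_⟩
    simp only [Fintype.mem_piFinset]
    intro l
    exact Finset.mem_image_of_mem _ (Finset.mem_image_of_mem
      (fun p : ℤ × ℤ => p.1 + ((r : ℕ) : ℤ) * p.2) (hrepA _))
  have hB : B.card ≤ k * (mx k A) ^ L := by
    have h1 := Finset.card_biUnion_le_card_mul (Finset.range k) (fun j =>
      Fintype.piFinset (fun _ : Fin L => (A.image fun p => p.1 + (j : ℤ) * p.2).image
        (fun x : ℤ => (x : ZMod q)))) ((mx k A) ^ L) (by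
      intro j hj
      simp only [Fintype.card_piFinset, Finset.prod_const, Finset.card_univ, Fintype.card_fin]
      apply Nat.pow_le_pow_left
      refine Finset.card_image_le.trans ?_
      exact Finset.le_sup (f := fun j : ℕ => (A.image fun p => p.1 + (j : ℤ) * p.2).card) hj)
    rwa [Finset.card_range] at h1
  have hDcard : Fintype.card D = (A.image Prod.snd).card := Fintype.card_coe _
  have hDpos : 0 < Fintype.card D := by
    rw [hDcard]
    exact Finset.card_pos.2 (hA.image _)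
  have hιcard : Fintype.card (Fin L → D) = (A.image Prod.snd).card ^ L := by
    rw [Fintype.card_fun, Fintype.card_fin, hDcard]
  let M := (Fin L → ZMod q) →ₗ[ZMod q] (Fin d → ZMod q) × (Fin m → ZMod q)
  have hMfin : Finite M := DFunLike.finite M
  let Γ : M → Finset ((Fin d → ZMod q) × (Fin m → ZMod q)) := fun T =>
    (B.filter fun w => ∀ w' ∈ B, (T w').1 = (T w).1 → w' = w).image T
  refine ⟨M, hMfin, ⟨0⟩, Γ, ?_, ?_, ?_⟩
  · intro T a ha b hb hab
    simp only [Γ, Finset.coe_image, Set.mem_image, Finset.mem_coe, Finset.mem_filter] at ha hb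
    obtain ⟨w, ⟨hw, hw2⟩, rfl⟩ := ha
    obtain ⟨w', ⟨hw', hw2'⟩, rfl⟩ := hb
    rw [hw2 w' hw' hab.symm]
  · intro T
    exact Finset.card_image_le.trans ((Finset.card_filter_le _ _).trans hB)
  · intro v hv
    have hT := random_map_at q L d m (k * mx k A ^ L) δ hδ z (fun _ => B) (fun r i => hz r i)
      (fun _ => hB) (by
        rw [hιcard, ← hDcard]
        exact Nat.one_le_pow _ _ hDpos) v hv
    have hsub : Nat.card {T : M // v ∉ apSet q d m k (Γ T)} ≤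
        Nat.card {T : M // ¬ ∃ i, T (δ i) = v ∧
          ∀ r : Fin k, ∀ w ∈ B, (T w).1 = (T (z r i)).1 → w = z r i} := by
      refine Nat.card_le_card_of_injective
        (fun T => ⟨T.1, fun hgood => T.2 ?_⟩) (fun T T' h => Subtype.ext (congrArg (fun t => t.1) h))
      obtain ⟨i, hi1, hi2⟩ := hgood
      refine ⟨T.1 (fun l => (((rep (i l)).1 : ℤ) : ZMod q)), fun j hj => ?_⟩
      have h1 : z ⟨j, hj⟩ i = (fun l => (((rep (i l)).1 : ℤ) : ZMod q)) + (j : ZMod q) • δ i := by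
        funext l
        simp [z, δ]
      have h2 : T.1 (fun l => (((rep (i l)).1 : ℤ) : ZMod q)) + (j : ZMod q) • v =
          T.1 (z ⟨j, hj⟩ i) := by
        rw [h1, map_add, map_smul, hi1]
      have h3 : T.1 (z ⟨j, hj⟩ i) ∈ Γ T.1 := Finset.mem_image_of_mem _
        (Finset.mem_filter.2 ⟨hz _ _, hi2 ⟨j, hj⟩⟩)
      exact Finset.mem_coe.2 (h2 ▸ h3)
    have hsub' : (Nat.card {T : M // v ∉ apSet q d m k (Γ T)} : ℝ) ≤
        (Nat.card {T : M // ¬ ∃ i, T (δ i) = v ∧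
          ∀ r : Fin k, ∀ w ∈ B, (T w).1 = (T (z r i)).1 → w = z r i} : ℝ) := by
      exact_mod_cast hsub
    refine hsub'.trans (hT.trans (le_of_eq ?_))
    rw [hιcard, Fintype.card_fin]
    push_cast
    rfl

theorem card_total (q d m : ℕ) [Fact q.Prime] :
    Nat.card ((Fin d → ZMod q) × (Fin m → ZMod q)) = q ^ (d + m) := by
  simp [Nat.card_eq_fintype_card, ZMod.card, pow_add]

/-- several rounds -/
theorem iterate1 (q d m k : ℕ) [Fact q.Prime] {Ω : Type} [Finite Ω] [Nonempty Ω]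
    (Γ : Ω → Finset ((Fin d → ZMod q) × (Fin m → ZMod q)))
    (hΓ : ∀ ω, Set.InjOn Prod.fst (Γ ω : Set ((Fin d → ZMod q) × (Fin m → ZMod q))))
    (η : ℝ) (hη0 : 0 ≤ η) (hη : ∀ v : (Fin d → ZMod q) × (Fin m → ZMod q), v.1 ≠ 0 →
      (Nat.card {ω : Ω // v ∉ apSet q d m k (Γ ω)} : ℝ) ≤ η * Nat.card Ω)
    (H : ℕ) (hH : ∀ ω, (Γ ω).card ≤ H)
    (t₀ : ℕ) (θ : ℝ) (hθ : η + k * ((t₀ * H : ℕ) : ℝ) / (q : ℝ) ^ d ≤ θ) :
    ∀ t : ℕ, t ≤ t₀ → ∃ Γ' : Finset ((Fin d → ZMod q) × (Fin m → ZMod q)),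
      Set.InjOn Prod.fst (Γ' : Set ((Fin d → ZMod q) × (Fin m → ZMod q))) ∧
      Γ'.card ≤ t * H ∧
      (Set.ncard {v : (Fin d → ZMod q) × (Fin m → ZMod q) |
        v.1 ≠ 0 ∧ v ∉ apSet q d m k Γ'} : ℝ) ≤ θ ^ t * (q : ℝ) ^ (d + m) := by
  have hq0 : (0 : ℝ) < q := by exact_mod_cast (Fact.out : q.Prime).pos
  intro t
  induction t with
  | zero =>
    intro _
    refine ⟨∅, ?_, by simp, ?_⟩
    · simp only [Finset.coe_empty]
      exact Set.injOn_empty _
    · rw [pow_zero, one_mul]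
      have h1 := Set.ncard_le_card {v : (Fin d → ZMod q) × (Fin m → ZMod q) |
        v.1 ≠ 0 ∧ v ∉ apSet q d m k ((∅ : Finset ((Fin d → ZMod q) × (Fin m → ZMod q))) :
          Set ((Fin d → ZMod q) × (Fin m → ZMod q)))}
      rw [card_total] at h1
      exact_mod_cast h1
  | succ t ih =>
    intro ht
    obtain ⟨Γ', h1, h2, h3⟩ := ih (by omega)
    obtain ⟨Γ'', h4, h5, h6⟩ := step1 q d m k Γ Γ' hΓ h1 η hη H hH
    refine ⟨Γ'', h4, ?_, ?_⟩
    · calc Γ''.card ≤ Γ'.card + H := h5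
        _ ≤ t * H + H := Nat.add_le_add_right h2 _
        _ = (t + 1) * H := by ring
    · have h7 : η + k * (Γ'.card : ℝ) / (q : ℝ) ^ d ≤ θ := by
        refine le_trans ?_ hθ
        have h8 : (Γ'.card : ℝ) ≤ ((t₀ * H : ℕ) : ℝ) := by
          exact_mod_cast h2.trans (Nat.mul_le_mul_right H (by omega : t ≤ t₀))
        gcongr
      have hθ0 : 0 ≤ θ := le_trans (by positivity) h7
      refine h6.trans ?_
      calc (η + k * (Γ'.card : ℝ) / (q : ℝ) ^ d) *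
            (Set.ncard {v : (Fin d → ZMod q) × (Fin m → ZMod q) |
              v.1 ≠ 0 ∧ v ∉ apSet q d m k Γ'} : ℝ)
          ≤ θ * (θ ^ t * (q : ℝ) ^ (d + m)) := mul_le_mul h7 h3 (Nat.cast_nonneg _) hθ0
        _ = θ ^ (t + 1) * (q : ℝ) ^ (d + m) := by ring

/-- a total function -/
theorem total1 (q d m k : ℕ) (Γ : Finset ((Fin d → ZMod q) × (Fin m → ZMod q)))
    (hΓ : Set.InjOn Prod.fst (Γ : Set ((Fin d → ZMod q) × (Fin m → ZMod q)))) :
    ∃ f : (Fin d → ZMod q) → (Fin m → ZMod q), apSet q d m k Γ ⊆ apSet q d m k (gr f) := by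
  classical
  let f : (Fin d → ZMod q) → (Fin m → ZMod q) := fun u =>
    if h : ∃ w ∈ Γ, w.1 = u then h.choose.2 else 0
  have hf : ∀ w ∈ Γ, w ∈ gr f := by
    intro w hw
    have hex : ∃ w' ∈ Γ, w'.1 = w.1 := ⟨w, hw, rfl⟩
    have h1 : hex.choose = w :=
      hΓ (Finset.mem_coe.2 hex.choose_spec.1) (Finset.mem_coe.2 hw) hex.choose_spec.2
    have h2 : f w.1 = hex.choose.2 := by
      simp only [f]
      rw [dif_pos hex]
    change w.2 = f w.1
    rw [h2, h1]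
  refine ⟨f, ?_⟩
  rintro v ⟨y, hy⟩
  exact ⟨y, fun j hj => hf _ (Finset.mem_coe.1 (hy j hj))⟩

theorem exists_diff (A : Finset (ℤ × ℤ)) : ∃ Q : ℕ, ∀ q : ℕ, Q ≤ q →
    ∀ a ∈ A, ∀ b ∈ A, a.2 ≠ b.2 → ((a.2 : ℤ) : ZMod q) ≠ ((b.2 : ℤ) : ZMod q) := by
  classical
  refine ⟨((A ×ˢ A).sup fun w => (w.2.2 - w.1.2).natAbs) + 1, ?_⟩
  intro q hq a ha b hb hne heq
  rw [ZMod.intCast_eq_intCast_iff_dvd_sub] at heq
  have h1 : (b.2 - a.2).natAbs < q := by
    refine lt_of_le_of_lt ?_ (Nat.lt_of_succ_le hq)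
    exact Finset.le_sup (f := fun w : (ℤ × ℤ) × (ℤ × ℤ) => (w.2.2 - w.1.2).natAbs)
      (Finset.mem_product.2 ⟨ha, hb⟩ : (a, b) ∈ A ×ˢ A)
  have h2 : b.2 - a.2 ≠ 0 := fun h => hne (by linarith)
  have h3 := Int.natAbs_dvd_natAbs.2 heq
  rw [Int.natAbs_natCast] at h3
  exact absurd (Nat.le_of_dvd (Int.natAbs_pos.2 h2) h3) (not_le.2 h1)

theorem mx_pos {k : ℕ} (hk : 1 ≤ k) {A : Finset (ℤ × ℤ)} (hA : A.Nonempty) : 1 ≤ mx k A := by
  refine le_trans ?_ (Finset.le_sup (f := fun j : ℕ => (A.image fun p => p.1 + (j : ℤ) * p.2).card)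
    (Finset.mem_range.2 hk))
  exact Finset.card_pos.2 (hA.image _)

/-- if the inequality with the exponent `(d+m)/d` fails, then there is a function whose graph
contains progressions with all the differences -/
theorem all1 (k d m : ℕ) (hk : 1 ≤ k) (hd : 1 ≤ d) (h : ¬ APBound k (((d : ℝ) + m) / d)) :
    ∃ Q : ℕ, ∀ (q : ℕ) [Fact q.Prime], Q ≤ q →
      ∃ f : (Fin d → ZMod q) → (Fin m → ZMod q),
        ∀ v : (Fin d → ZMod q) × (Fin m → ZMod q), v.1 ≠ 0 → v ∈ apSet q d m k (gr f) := by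
  classical
  have hd0 : (0 : ℝ) < d := by exact_mod_cast hd
  obtain ⟨A, hA⟩ : ∃ A : Finset (ℤ × ℤ),
      (mx k A : ℝ) ^ (((d : ℝ) + m) / d) < ((A.image Prod.snd).card : ℝ) := by
    simp only [APBound, not_forall, not_le] at h
    exact h
  have hAne : A.Nonempty := by
    rcases A.eq_empty_or_nonempty with rfl | hA'
    · simp only [Finset.image_empty, Finset.card_empty, Nat.cast_zero] at hA
      exact absurd hA (not_lt.2 (by positivity))
    · exact hA'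
  set K : ℝ := (mx k A : ℝ) with hKdef
  set M : ℝ := ((A.image Prod.snd).card : ℝ) with hMdef
  have hK : 1 ≤ K := by
    rw [hKdef]
    exact_mod_cast mx_pos hk hAne
  have hM : 1 < M := lt_of_le_of_lt (Real.one_le_rpow hK (by positivity)) hA
  have hlog : ((d : ℝ) + m) * Real.log K < d * Real.log M := by
    have h1 := Real.log_lt_log (by positivity) hA
    rw [Real.log_rpow (by linarith)] at h1
    have h2 := mul_lt_mul_of_pos_left h1 hd0
    calc ((d : ℝ) + m) * Real.log K = d * (((d : ℝ) + m) / d * Real.log K) := by field_simp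
      _ < _ := h2
  obtain ⟨c, hc, hL⟩ := choose_length K M ((d : ℝ) + m) d hK hM (by positivity) hlog
  obtain ⟨Q1, hQ1⟩ := exists_diff A
  set t₀ : ℕ := ⌊2 * ((d : ℝ) + m) / c⌋₊ + 1 with ht₀
  set E : ℝ := 12 + 6 * k * (k * K) with hE
  have hE0 : 0 < E := by positivity
  set E' : ℝ := E + k * (t₀ * (k * K)) with hE'
  have hE'0 : 0 < E' := by positivity
  refine ⟨max Q1 (max 2 ⌈E' ^ (2 / c)⌉₊), ?_⟩
  intro q _ hq
  have hqQ1 : Q1 ≤ q := le_trans (le_max_left _ _) hq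
  have hq2 : 2 ≤ q := le_trans (le_trans (le_max_left _ _) (le_max_right _ _)) hq
  have hqE : E' ^ (2 / c) ≤ q := by
    have : ⌈E' ^ (2 / c)⌉₊ ≤ q := le_trans (le_trans (le_max_right _ _) (le_max_right _ _)) hq
    exact (Nat.le_ceil _).trans (by exact_mod_cast this)
  have hq2' : (2 : ℝ) ≤ q := by exact_mod_cast hq2
  have hq0 : (0 : ℝ) < q := by linarith
  have hq1' : (1 : ℝ) ≤ q := by linarith
  obtain ⟨L, hL1, hL2⟩ := hL q hq1'
  obtain ⟨Ω, hΩ1, hΩ2, Γ, hΓ1, hΓ2, hΓ3⟩ := sets_at q L d m k A hAne (hQ1 q hqQ1)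
  rw [← hKdef, ← hMdef] at hΓ3
  have hMpos : 0 < M ^ L := by positivity
  set η : ℝ := 12 * (q : ℝ) ^ (d + m) / M ^ L + 6 * k * (k * K ^ L) / (q : ℝ) ^ d with hη
  have hη0 : 0 ≤ η := by positivity
  -- first term
  have h1 : 12 * (q : ℝ) ^ (d + m) / M ^ L ≤ 12 * (q : ℝ) ^ (-c) := by
    rw [div_le_iff₀ hMpos]
    have h2 : (q : ℝ) ^ (d + m) = (q : ℝ) ^ (-c) * (q : ℝ) ^ (((d : ℝ) + m) + c) := by
      rw [← Real.rpow_add hq0, ← Real.rpow_natCast]
      congr 1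
      push_cast
      ring
    rw [h2, mul_assoc]
    have := mul_le_mul_of_nonneg_left hL1 (Real.rpow_nonneg hq0.le (-c))
    linarith
  have h4 : K ^ L ≤ K * ((q : ℝ) ^ (-c) * (q : ℝ) ^ d) := by
    refine hL2.trans (mul_le_mul_of_nonneg_left ?_ (by linarith))
    rw [← Real.rpow_natCast, ← Real.rpow_add hq0]
    exact Real.rpow_le_rpow_of_exponent_le hq1' (by linarith)
  have h3 : 6 * (k : ℝ) * (k * K ^ L) / (q : ℝ) ^ d ≤
      6 * k * (k * K) * (q : ℝ) ^ (-c) := by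
    rw [div_le_iff₀ (by positivity)]
    have := mul_le_mul_of_nonneg_left h4 (by positivity : (0 : ℝ) ≤ 6 * k * k)
    linarith
  have h3' : (k : ℝ) * ((t₀ * (k * mx k A ^ L) : ℕ) : ℝ) / (q : ℝ) ^ d ≤
      k * (t₀ * (k * K)) * (q : ℝ) ^ (-c) := by
    rw [div_le_iff₀ (by positivity)]
    push_cast
    rw [← hKdef]
    have := mul_le_mul_of_nonneg_left h4 (by positivity : (0 : ℝ) ≤ k * (t₀ * k))
    linarith
  have h5 : E' * (q : ℝ) ^ (-c) ≤ (q : ℝ) ^ (-(c / 2)) := by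
    have h6 : E' ≤ (q : ℝ) ^ (c / 2) := by
      have := Real.rpow_le_rpow (by positivity) hqE (by positivity : 0 ≤ c / 2)
      rw [← Real.rpow_mul hE'0.le] at this
      have h7 : 2 / c * (c / 2) = 1 := by field_simp
      rwa [h7, Real.rpow_one] at this
    calc E' * (q : ℝ) ^ (-c) ≤ (q : ℝ) ^ (c / 2) * (q : ℝ) ^ (-c) :=
          mul_le_mul_of_nonneg_right h6 (Real.rpow_nonneg hq0.le _)
      _ = _ := by
          rw [← Real.rpow_add hq0]
          congr 1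
          ring
  have hθ : η + k * ((t₀ * (k * mx k A ^ L) : ℕ) : ℝ) / (q : ℝ) ^ d ≤
      (q : ℝ) ^ (-(c / 2)) := by
    have h8 : E' * (q : ℝ) ^ (-c) = 12 * (q : ℝ) ^ (-c) + 6 * k * (k * K) * (q : ℝ) ^ (-c) +
        k * (t₀ * (k * K)) * (q : ℝ) ^ (-c) := by
      rw [hE', hE]; ring
    linarith
  obtain ⟨Γ', hΓ1', -, hΓ3'⟩ := iterate1 q d m k Γ hΓ1 η hη0 hΓ3 (k * mx k A ^ L) hΓ2 t₀
    ((q : ℝ) ^ (-(c / 2))) hθ t₀ le_rfl
  have hlt : ((q : ℝ) ^ (-(c / 2))) ^ t₀ * (q : ℝ) ^ (d + m) < 1 := by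
    rw [← Real.rpow_natCast ((q : ℝ) ^ (-(c / 2))) t₀, ← Real.rpow_mul hq0.le,
      ← Real.rpow_natCast (q : ℝ) (d + m), ← Real.rpow_add hq0]
    apply Real.rpow_lt_one_of_one_lt_of_neg (by linarith)
    have h9 := Nat.lt_floor_add_one (2 * ((d : ℝ) + m) / c)
    rw [div_lt_iff₀ hc] at h9
    rw [ht₀]
    push_cast
    linarith
  have hzero : Set.ncard {v : (Fin d → ZMod q) × (Fin m → ZMod q) |
      v.1 ≠ 0 ∧ v ∉ apSet q d m k Γ'} = 0 := by
    have := hΓ3'.trans_lt hlt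
    have h10 : Set.ncard {v : (Fin d → ZMod q) × (Fin m → ZMod q) |
      v.1 ≠ 0 ∧ v ∉ apSet q d m k Γ'} < 1 := by exact_mod_cast this
    omega
  rw [Set.ncard_eq_zero (Set.toFinite _)] at hzero
  obtain ⟨f, hf⟩ := total1 q d m k Γ' hΓ1'
  refine ⟨f, fun v hv => hf ?_⟩
  by_contra hv'
  exact Set.eq_empty_iff_forall_notMem.1 hzero v ⟨hv, hv'⟩

end Pool.Agent.Zk23.APAll
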