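import Pool.Agent.Zk23.APAll
import Pool.Agent.Zk99.AKM3
import Pool.Agent.Zk85.AKM4

/-!
# The arithmetic Kakeya conjecture and progressions in graphs: the equivalences
-/

set_option autoImplicit false

open Filter Topology

namespace Pool.Agent.Zk23.APFinal

open Pool.Agent.Zk23.AKAP
open Pool.Agent.Zk23.AKDefs (Bound)
open Pool.Agent.Zk23.APAll (all1 card_total mx mx_pos)
open Pool.Agent.Zk85.AKM4 (upper_ap)
open Pool.Agent.Zk99.AKM3 (bound_iff)

theorem eventually_lt (C e : ℝ) (he : 0 < e) : ∃ N : ℕ, ∀ q : ℕ, N ≤ q → C < (q : ℝ) ^ e := by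
  have h := ((tendsto_rpow_atTop he).comp tendsto_natCast_atTop_atTop).eventually
    (eventually_gt_atTop C)
  exact eventually_atTop.1 h

theorem ap_mono {k : ℕ} (hk : 1 ≤ k) {κ κ' : ℝ} (h : APBound k κ) (hκ : κ ≤ κ') :
    APBound k κ' := by
  intro A
  rcases A.eq_empty_or_nonempty with rfl | hA
  · simp only [Finset.image_empty, Finset.card_empty, Nat.cast_zero]
    positivity
  · refine (h A).trans (Real.rpow_le_rpow_of_exponent_le ?_ hκ)
    exact_mod_cast mx_pos hk hA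

theorem exists_ratio {k : ℕ} (hk : 1 ≤ k) {κ : ℝ} (hκ : 1 ≤ κ) (h : ¬ APBound k κ) :
    ∃ d m : ℕ, 1 ≤ d ∧ κ * d < d + m ∧ ¬ APBound k (((d : ℝ) + m) / d) := by
  obtain ⟨A, hA⟩ : ∃ A : Finset (ℤ × ℤ),
      (mx k A : ℝ) ^ κ < ((A.image Prod.snd).card : ℝ) := by
    simp only [APBound, not_forall, not_le] at h
    exact h
  have hAne : A.Nonempty := by
    rcases A.eq_empty_or_nonempty with rfl | hA'
    · simp only [Finset.image_empty, Finset.card_empty, Nat.cast_zero] at hA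
      exact absurd hA (not_lt.2 (by positivity))
    · exact hA'
  have hK : (1 : ℝ) ≤ (mx k A : ℝ) := by exact_mod_cast mx_pos hk hAne
  have hcont : ContinuousAt (fun t : ℝ => (mx k A : ℝ) ^ t) κ :=
    Real.continuousAt_const_rpow (by linarith)
  have hev : ∀ᶠ t in 𝓝 κ, (mx k A : ℝ) ^ t < ((A.image Prod.snd).card : ℝ) :=
    hcont.eventually (gt_mem_nhds hA)
  obtain ⟨δ, hδ, hball⟩ := Metric.eventually_nhds_iff.1 hev
  obtain ⟨n, hn⟩ := exists_nat_gt (1 / δ)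
  have hn0 : (0 : ℝ) < n := lt_trans (by positivity) hn
  have hn1 : 1 ≤ n := by exact_mod_cast hn0
  have hfl1 := Nat.lt_floor_add_one ((κ - 1) * n)
  have hfl2 := Nat.floor_le (mul_nonneg (by linarith : (0 : ℝ) ≤ κ - 1) hn0.le)
  refine ⟨n, ⌊(κ - 1) * n⌋₊ + 1, hn1, ?_, ?_⟩
  · push_cast
    linarith
  · intro hB
    have h1 := hB A
    refine absurd h1 (not_le.2 (hball ?_))
    push_cast
    rw [Real.dist_eq, abs_lt]
    have h2 : (1 : ℝ) / n < δ := by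
      rw [div_lt_iff₀ hn0]
      rw [div_lt_iff₀ hδ] at hn
      linarith
    have h3 : ((n : ℝ) + (⌊(κ - 1) * n⌋₊ + 1)) / n ≤ κ + 1 / n := by
      rw [div_le_iff₀ hn0]
      have : (κ + 1 / n) * (n : ℝ) = κ * n + 1 := by field_simp
      rw [this]
      linarith
    have h4 : κ < ((n : ℝ) + (⌊(κ - 1) * n⌋₊ + 1)) / n := by
      rw [lt_div_iff₀ hn0]
      linarith
    constructor <;> linarith

/-- a set with less than half of the vectors misses a vector with `v.1 ≠ 0` -/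
theorem exists_missing {q d m : ℕ} [Fact q.Prime] (hd : 1 ≤ d)
    {D : Set ((Fin d → ZMod q) × (Fin m → ZMod q))}
    (h : 2 * (D.ncard : ℝ) < (q : ℝ) ^ (d + m)) : ∃ v, v.1 ≠ 0 ∧ v ∉ D := by
  by_contra hcon
  push Not at hcon
  have hq2 : (2 : ℝ) ≤ q := by exact_mod_cast (Fact.out : q.Prime).two_le
  have h1 : Dᶜ ⊆ Set.range (fun w : Fin m → ZMod q => ((0 : Fin d → ZMod q), w)) := by
    intro v hv
    refine ⟨v.2, ?_⟩
    have : v.1 = 0 := by
      by_contra h0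
      exact hv (hcon v h0)
    rw [← this]
  have h2 : (Dᶜ).ncard ≤ q ^ m := by
    have h3 := Set.ncard_le_ncard h1 (Set.toFinite _)
    rw [← Set.image_univ] at h3
    refine h3.trans ((Set.ncard_image_le (Set.toFinite _)).trans (le_of_eq ?_))
    rw [Set.ncard_univ]
    simp [Nat.card_eq_fintype_card, ZMod.card]
  have h4 := Set.ncard_add_ncard_compl D
  rw [card_total] at h4
  have h5 : (D.ncard : ℝ) + ((Dᶜ).ncard : ℝ) = (q : ℝ) ^ (d + m) := by exact_mod_cast h4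
  have h6 : ((Dᶜ).ncard : ℝ) ≤ (q : ℝ) ^ m := by exact_mod_cast h2
  have h7 : 2 * (q : ℝ) ^ m ≤ (q : ℝ) ^ (d + m) := by
    rw [pow_add]
    refine mul_le_mul_of_nonneg_right ?_ (by positivity)
    calc (2 : ℝ) ≤ q := hq2
      _ = (q : ℝ) ^ 1 := (pow_one _).symm
      _ ≤ (q : ℝ) ^ d := pow_le_pow_right₀ (by linarith) hd
  linarith

/-- the three equivalent forms for a given length and a given exponent -/
theorem tfae_length (k : ℕ) (κ : ℝ) (hk : 1 ≤ k) (hκ : 1 ≤ κ) : List.TFAE [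
    APBound k κ,
    ∀ d m : ℕ, ∃ C : ℝ, ∀ (q : ℕ) [Fact q.Prime], ∀ f : (Fin d → ZMod q) → (Fin m → ZMod q),
      ((apSet q d m k (gr f)).ncard : ℝ) ≤ C * (q : ℝ) ^ (κ * d),
    ∀ d m : ℕ, 1 ≤ d → κ * d < d + m → ∀ Q : ℕ, ∃ q : ℕ, Q ≤ q ∧ q.Prime ∧
      ∀ f : (Fin d → ZMod q) → (Fin m → ZMod q), ∃ v, v.1 ≠ 0 ∧ v ∉ apSet q d m k (gr f)] := by
  tfae_have 1 → 2 := fun h d m => upper_ap k κ (by linarith) h d m
  tfae_have 2 → 3 := by
    intro h d m hd hdm Q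
    obtain ⟨C, hC⟩ := h d m
    obtain ⟨N, hN⟩ := eventually_lt (2 * C) ((d : ℝ) + m - κ * d) (by linarith)
    obtain ⟨q, hq, hprime⟩ := Nat.exists_infinite_primes (max Q N)
    have : Fact q.Prime := ⟨hprime⟩
    refine ⟨q, le_trans (le_max_left _ _) hq, hprime, fun f => exists_missing hd ?_⟩
    have hq0 : (0 : ℝ) < q := by exact_mod_cast hprime.pos
    have h1 := hN q (le_trans (le_max_right _ _) hq)
    have h2 := hC q f
    calc 2 * ((apSet q d m k (gr f)).ncard : ℝ) ≤ 2 * (C * (q : ℝ) ^ (κ * d)) := by linarith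
      _ = (2 * C) * (q : ℝ) ^ (κ * d) := by ring
      _ < (q : ℝ) ^ ((d : ℝ) + m - κ * d) * (q : ℝ) ^ (κ * d) :=
          mul_lt_mul_of_pos_right h1 (Real.rpow_pos_of_pos hq0 _)
      _ = (q : ℝ) ^ (d + m) := by
          rw [← Real.rpow_add hq0, ← Real.rpow_natCast]
          congr 1
          push_cast
          ring
  tfae_have 3 → 1 := by
    intro h
    by_contra hB
    obtain ⟨d, m, hd, hdm, hB'⟩ := exists_ratio hk hκ hB
    obtain ⟨Q, hQ⟩ := all1 k d m hk hd hB'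
    obtain ⟨q, hq, hprime, hf⟩ := h d m hd hdm Q
    have : Fact q.Prime := ⟨hprime⟩
    obtain ⟨f, hf'⟩ := hQ q hq
    obtain ⟨v, hv1, hv2⟩ := hf f
    exact hv2 (hf' v hv1)
  tfae_finish

/-- either a function with all the differences, or few differences in all dimensions -/
theorem dichotomy (k d m : ℕ) (hk : 1 ≤ k) (hd : 1 ≤ d) :
    (∃ Q : ℕ, ∀ q : ℕ, q.Prime → Q ≤ q → ∃ f : (Fin d → ZMod q) → (Fin m → ZMod q),
        ∀ v, v.1 ≠ 0 → v ∈ apSet q d m k (gr f)) ∨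
    (∀ m' : ℕ, ∃ C : ℝ, ∀ q : ℕ, q.Prime → ∀ f : (Fin d → ZMod q) → (Fin m' → ZMod q),
        ((apSet q d m' k (gr f)).ncard : ℝ) ≤ C * (q : ℝ) ^ (d + m)) := by
  have hd0 : (0 : ℝ) < d := by exact_mod_cast hd
  by_cases h : APBound k (((d : ℝ) + m) / d)
  · right
    intro m'
    obtain ⟨C, hC⟩ := upper_ap k _ (by positivity) h d m'
    refine ⟨C, fun q hq f => ?_⟩
    have : Fact q.Prime := ⟨hq⟩
    have h1 := hC q f
    have h2 : ((d : ℝ) + m) / d * d = ((d + m : ℕ) : ℝ) := by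
      push_cast
      field_simp
    rwa [h2, Real.rpow_natCast] at h1
  · left
    obtain ⟨Q, hQ⟩ := all1 k d m hk hd h
    refine ⟨Q, fun q hq hQq => ?_⟩
    have : Fact q.Prime := ⟨hq⟩
    exact hQ q hQq

/-- the conjecture -/
def Conj : Prop := ∀ ε : ℝ, 0 < ε → ∃ S : Finset ℚ, (-1 : ℚ) ∉ S ∧ Bound S (1 + ε)

theorem conj_iff : Conj ↔ ∀ ε : ℝ, 0 < ε → ∃ k : ℕ, APBound k (1 + ε) :=
  ⟨fun h ε hε => (bound_iff (1 + ε) (by linarith)).1 (h ε hε),
    fun h ε hε => (bound_iff (1 + ε) (by linarith)).2 (h ε hε)⟩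

theorem one_le_of_bound {k : ℕ} {κ : ℝ} (hκ : 0 < κ) (h : APBound k κ) : 1 ≤ k := by
  rcases Nat.eq_zero_or_pos k with rfl | hk
  · exfalso
    have h1 := h {(0, 0)}
    simp only [Finset.range_zero, Finset.sup_empty, Finset.image_singleton,
      Finset.card_singleton] at h1
    norm_num [Real.zero_rpow hκ.ne'] at h1
  · exact hk

theorem tfae_conj : List.TFAE [
    Conj,
    ∀ d m : ℕ, ∀ η : ℝ, 0 < η → ∃ k Q : ℕ, ∀ q : ℕ, q.Prime → Q ≤ q →
      ∀ f : (Fin d → ZMod q) → (Fin m → ZMod q),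
        ((apSet q d m k (gr f)).ncard : ℝ) ≤ (q : ℝ) ^ (d + η),
    ∀ D : ℕ, ∃ d : ℕ, D ≤ d ∧ ∃ k : ℕ, ∀ Q : ℕ, ∃ q : ℕ, Q ≤ q ∧ q.Prime ∧
      ∀ f : (Fin d → ZMod q) → (Fin 1 → ZMod q), ∃ v, v.1 ≠ 0 ∧ v ∉ apSet q d 1 k (gr f)] := by
  tfae_have 1 → 2 := by
    intro h d m η hη
    obtain ⟨k, hB⟩ := conj_iff.1 h (η / (2 * (d + 1))) (by positivity)
    obtain ⟨C, hC⟩ := upper_ap k _ (by positivity) hB d m
    obtain ⟨N, hN⟩ := eventually_lt C (η / 2) (by positivity)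
    refine ⟨k, N, fun q hprime hq f => ?_⟩
    have : Fact q.Prime := ⟨hprime⟩
    have hq0 : (0 : ℝ) < q := by exact_mod_cast hprime.pos
    have hq1 : (1 : ℝ) ≤ q := by exact_mod_cast hprime.one_lt.le
    have h1 := hN q hq
    refine (hC q f).trans ?_
    have h2 : (1 + η / (2 * ((d : ℝ) + 1))) * d ≤ d + η / 2 := by
      have h3 : η / (2 * ((d : ℝ) + 1)) * d ≤ η / 2 := by
        rw [div_mul_eq_mul_div, div_le_iff₀ (by positivity)]
        nlinarith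
      linarith
    calc C * (q : ℝ) ^ ((1 + η / (2 * ((d : ℝ) + 1))) * d)
        ≤ (q : ℝ) ^ (η / 2) * (q : ℝ) ^ ((1 + η / (2 * ((d : ℝ) + 1))) * d) :=
          mul_le_mul_of_nonneg_right h1.le (Real.rpow_nonneg hq0.le _)
      _ ≤ (q : ℝ) ^ (η / 2) * (q : ℝ) ^ ((d : ℝ) + η / 2) :=
          mul_le_mul_of_nonneg_left (Real.rpow_le_rpow_of_exponent_le hq1 h2)
            (Real.rpow_nonneg hq0.le _)
      _ = _ := by
          rw [← Real.rpow_add hq0]
          congr 1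
          ring
  tfae_have 2 → 3 := by
    intro h D
    obtain ⟨k, Q1, hQ1⟩ := h (D + 1) 1 (1 / 2) (by norm_num)
    refine ⟨D + 1, by omega, k, fun Q => ?_⟩
    obtain ⟨N, hN⟩ := eventually_lt 2 (1 / 2) (by norm_num)
    obtain ⟨q, hq, hprime⟩ := Nat.exists_infinite_primes (max Q (max Q1 N))
    have : Fact q.Prime := ⟨hprime⟩
    refine ⟨q, le_trans (le_max_left _ _) hq, hprime, fun f => exists_missing (by omega) ?_⟩
    have hq0 : (0 : ℝ) < q := by exact_mod_cast hprime.pos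
    have h1 := hQ1 q hprime (le_trans (le_trans (le_max_left _ _) (le_max_right _ _)) hq) f
    have h2 := hN q (le_trans (le_trans (le_max_right _ _) (le_max_right _ _)) hq)
    calc 2 * ((apSet q (D + 1) 1 k (gr f)).ncard : ℝ)
        ≤ 2 * (q : ℝ) ^ (((D + 1 : ℕ) : ℝ) + 1 / 2) := by linarith
      _ < (q : ℝ) ^ (1 / 2 : ℝ) * (q : ℝ) ^ (((D + 1 : ℕ) : ℝ) + 1 / 2) :=
          mul_lt_mul_of_pos_right h2 (Real.rpow_pos_of_pos hq0 _)
      _ = (q : ℝ) ^ (D + 1 + 1) := by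
          rw [← Real.rpow_add hq0, ← Real.rpow_natCast]
          congr 1
          push_cast
          ring
  tfae_have 3 → 1 := by
    intro h
    rw [conj_iff]
    intro ε hε
    obtain ⟨D, hD⟩ := exists_nat_gt (1 / ε)
    obtain ⟨d, hd, k, hf⟩ := h D
    refine ⟨k, ?_⟩
    by_contra hB
    have hk : 1 ≤ k := by
      rcases Nat.eq_zero_or_pos k with rfl | hk
      · exfalso
        obtain ⟨q, -, -, hf⟩ := hf 0
        obtain ⟨v, -, hv⟩ := hf (fun _ => 0)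
        exact hv ⟨0, fun j hj => absurd hj (Nat.not_lt_zero j)⟩
      · exact hk
    have hD0 : (0 : ℝ) < D := lt_trans (by positivity) hD
    have hdD : (D : ℝ) ≤ d := by exact_mod_cast hd
    have hd0 : (0 : ℝ) < d := by linarith
    have hd1 : 1 ≤ d := by exact_mod_cast hd0
    have hB' : ¬ APBound k (((d : ℝ) + (1 : ℕ)) / d) := by
      intro hB'
      apply hB
      refine ap_mono hk hB' ?_
      rw [div_le_iff₀ hd0]
      have h1 : 1 < D * ε := by rwa [div_lt_iff₀ hε] at hD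
      push_cast
      nlinarith
    obtain ⟨Q, hQ⟩ := all1 k d 1 hk hd1 hB'
    obtain ⟨q, hq, hprime, hf⟩ := hf Q
    have : Fact q.Prime := ⟨hprime⟩
    obtain ⟨f, hf'⟩ := hQ q hq
    obtain ⟨v, hv1, hv2⟩ := hf f
    exact hv2 (hf' v hv1)
  tfae_finish

/-- functions with all the differences for all the lengths, when the inequality fails -/
theorem of_not_bound {ε : ℝ} (k : ℕ) (h : ¬ APBound k (1 + ε)) (d m : ℕ) (hd : 1 ≤ d)
    (hm : (m : ℝ) ≤ ε * d) : ∃ Q : ℕ, ∀ q : ℕ, q.Prime → Q ≤ q →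
      ∃ f : (Fin d → ZMod q) → (Fin m → ZMod q), ∀ v, v.1 ≠ 0 → v ∈ apSet q d m k (gr f) := by
  rcases Nat.eq_zero_or_pos k with rfl | hk
  · exact ⟨0, fun q _ _ => ⟨fun _ => 0, fun v _ => ⟨0, fun j hj => absurd hj (Nat.not_lt_zero j)⟩⟩⟩
  have hd0 : (0 : ℝ) < d := by exact_mod_cast hd
  obtain ⟨Q, hQ⟩ := all1 k d m hk hd fun hB => h (ap_mono hk hB (by
    rw [div_le_iff₀ hd0]
    linarith))
  refine ⟨Q, fun q hq hQq => ?_⟩
  have : Fact q.Prime := ⟨hq⟩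
  exact hQ q hQq

theorem not_conj (h : ¬ Conj) : ∃ ε : ℝ, 0 < ε ∧ ∀ k d m : ℕ, 1 ≤ d → (m : ℝ) ≤ ε * d →
    ∃ Q : ℕ, ∀ q : ℕ, q.Prime → Q ≤ q →
      ∃ f : (Fin d → ZMod q) → (Fin m → ZMod q), ∀ v, v.1 ≠ 0 → v ∈ apSet q d m k (gr f) := by
  rw [conj_iff] at h
  simp only [not_forall, not_exists] at h
  obtain ⟨ε, hε, h⟩ := h
  exact ⟨ε, hε, fun k d m hd hm => of_not_bound k (h k) d m hd hm⟩

end Pool.Agent.Zk23.APFinal
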