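import Pool.Agent.Zk23.KKInv

/-!
# The implicit function theorem with a parameter, quantitative form
-/

set_option autoImplicit false

open Set Filter Topology Metric Module
open scoped ContDiff

namespace Pool.Agent.Zk23.KKChart

open Pool.Agent.Zk23.KKInv

theorem exists_chart {K Y : Type} [NormedAddCommGroup K] [NormedSpace ℝ K]
    [FiniteDimensional ℝ K] [NormedAddCommGroup Y] [NormedSpace ℝ Y] [FiniteDimensional ℝ Y]
    {w : K × Y → ℝ} (hw : ContDiff ℝ ∞ w) (p : K × Y) (hd : dy w p ≠ 0) (hp : w p = 0) :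
    ∃ (Y' : Submodule ℝ Y) (P : Y →L[ℝ] Y') (c : K × Y' → Y) (L ε : ℝ),
      finrank ℝ Y' < finrank ℝ Y ∧ ContDiff ℝ ∞ c ∧ 0 < ε ∧ 0 ≤ L ∧
      c (p.1, P p.2) = p.2 ∧
      (∀ κ ∈ closedBall p.1 ε, ∀ z ∈ closedBall p.2 ε, w (κ, z) = 0 → c (κ, P z) = z) ∧
      (∀ κ ∈ closedBall p.1 ε, ∀ z' ∈ closedBall (P p.2) ε,
        w (κ, c (κ, z')) = 0 ∧ P (c (κ, z')) = z') ∧
      (∀ κ ∈ closedBall p.1 ε, ∀ z ∈ closedBall p.2 ε, ∀ z₁ ∈ closedBall p.2 ε,
        ‖z - z₁‖ ≤ L * (|w (κ, z) - w (κ, z₁)| + ‖P z - P z₁‖)) := by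
  set l : Y →L[ℝ] ℝ := dy w p with hl
  set Y' : Submodule ℝ Y := LinearMap.ker (l : Y →ₗ[ℝ] ℝ) with hY'
  have hY'lt : Y' < ⊤ := by
    rw [lt_top_iff_ne_top]
    intro h
    apply hd
    ext y
    have : y ∈ Y' := h ▸ Submodule.mem_top
    rw [hY', LinearMap.mem_ker] at this
    exact this
  obtain ⟨g, hg⟩ := LinearMap.exists_leftInverse_of_injective Y'.subtype (Submodule.ker_subtype _)
  set P : Y →L[ℝ] Y' := LinearMap.toContinuousLinearMap g with hP
  have hP1 : ∀ z : Y', P z = z := fun z => by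
    have := congrArg (fun A : Y' →ₗ[ℝ] Y' => A z) hg
    exact this
  set Θ : K × Y → K × (ℝ × Y') := fun q => (q.1, (w q, P q.2)) with hΘd
  have hΘ : ContDiff ℝ ∞ Θ :=
    contDiff_fst.prodMk (hw.prodMk (P.contDiff.comp contDiff_snd))
  have hder : fderiv ℝ Θ p = (ContinuousLinearMap.fst ℝ K Y).prod
      ((fderiv ℝ w p).prod (P.comp (ContinuousLinearMap.snd ℝ K Y))) := by
    apply HasFDerivAt.fderiv
    exact hasFDerivAt_fst.prodMk ((hw.differentiable (by simp) p).hasFDerivAt.prodMk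
      (P.hasFDerivAt.comp p hasFDerivAt_snd))
  have hinr : ∀ y : Y, fderiv ℝ w p (0, y) = l y := fun y => by
    rw [hl, dy]; simp
  have hbij : Function.Bijective (fderiv ℝ Θ p) := by
    rw [hder]
    constructor
    · rw [injective_iff_map_eq_zero]
      rintro ⟨u, y⟩ h
      simp only [ContinuousLinearMap.prod_apply, ContinuousLinearMap.coe_fst',
        ContinuousLinearMap.coe_comp, Function.comp_apply, ContinuousLinearMap.coe_snd',
        Prod.mk_eq_zero] at h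
      obtain ⟨h1, h2, h3⟩ := h
      subst h1
      rw [hinr] at h2
      have h4 : y ∈ Y' := by
        rw [hY', LinearMap.mem_ker]
        exact h2
      have h5 := hP1 ⟨y, h4⟩
      simp only at h5
      rw [h3] at h5
      have : y = 0 := by
        have := congrArg Subtype.val h5
        simpa using this.symm
      rw [this]
      rfl
    · rintro ⟨u, s, z⟩
      obtain ⟨y₁, hy₁⟩ : ∃ y, l y ≠ 0 := by
        by_contra hcon
        push Not at hcon
        exact hd (ContinuousLinearMap.ext hcon)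
      set y₂ : Y := y₁ - (P y₁ : Y) with hy₂
      have hPy : ∀ z : Y', l z = 0 := fun z => z.2
      have h1 : l y₂ = l y₁ := by
        rw [hy₂, map_sub, hPy, sub_zero]
      have h2 : P y₂ = 0 := by
        rw [hy₂, map_sub, hP1, sub_self]
      refine ⟨(u, (z : Y) + ((s - fderiv ℝ w p (u, (z : Y))) / l y₁) • y₂), ?_⟩
      simp only [ContinuousLinearMap.prod_apply, ContinuousLinearMap.coe_fst',
        ContinuousLinearMap.coe_comp, Function.comp_apply, ContinuousLinearMap.coe_snd',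
        Prod.mk.injEq, true_and]
      constructor
      · have h3 : (u, (z : Y) + ((s - fderiv ℝ w p (u, (z : Y))) / l y₁) • y₂) =
            (u, (z : Y)) + ((s - fderiv ℝ w p (u, (z : Y))) / l y₁) • ((0 : K), y₂) := by
          simp
        rw [h3, map_add, map_smul, hinr, h1, smul_eq_mul, div_mul_cancel₀ _ hy₁]
        ring
      · rw [map_add, map_smul, h2, smul_zero, add_zero, hP1]
  obtain ⟨Ψ, hΨ, h1, h2⟩ := local_inverse hΘ p hbij
  have hΘp : Θ p = (p.1, (0, P p.2)) := by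
    rw [hΘd]
    simp only [hp]
  obtain ⟨L, t, ht, hL⟩ := ((hΨ.of_le (by simp : (1 : WithTop ℕ∞) ≤ ∞)).contDiffAt
    (x := Θ p)).exists_lipschitzOnWith
  -- the three neighbourhoods
  obtain ⟨ε₁, hε₁, H1⟩ := (Metric.nhds_basis_closedBall.eventually_iff).1 h1
  obtain ⟨ε₂, hε₂, H2⟩ := (Metric.nhds_basis_closedBall.eventually_iff).1 h2
  obtain ⟨ε₃, hε₃, H3⟩ := (Metric.nhds_basis_closedBall.eventually_iff).1
    (hΘ.continuous.continuousAt.eventually (show ∀ᶠ y in 𝓝 (Θ p), y ∈ t from ht))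
  set ε := min ε₁ (min ε₂ ε₃) with hε
  have hε0 : 0 < ε := lt_min hε₁ (lt_min hε₂ hε₃)
  have hle1 : ε ≤ ε₁ := min_le_left _ _
  have hle2 : ε ≤ ε₂ := (min_le_right _ _).trans (min_le_left _ _)
  have hle3 : ε ≤ ε₃ := (min_le_right _ _).trans (min_le_right _ _)
  have hΘq : ∀ κ z, Θ (κ, z) = (κ, (w (κ, z), P z)) := fun κ z => rfl
  have hmem1 : ∀ κ ∈ closedBall p.1 ε, ∀ z ∈ closedBall p.2 ε, Ψ (Θ (κ, z)) = (κ, z) := by
    intro κ hκ z hz
    apply H1
    rw [mem_closedBall, Prod.dist_eq]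
    exact max_le ((mem_closedBall.1 hκ).trans hle1) ((mem_closedBall.1 hz).trans hle1)
  have hmem2 : ∀ κ ∈ closedBall p.1 ε, ∀ z' ∈ closedBall (P p.2) ε,
      Θ (Ψ (κ, (0, z'))) = (κ, (0, z')) := by
    intro κ hκ z' hz'
    apply H2
    rw [hΘp, mem_closedBall, Prod.dist_eq, Prod.dist_eq]
    refine max_le ((mem_closedBall.1 hκ).trans hle2) (max_le ?_ ((mem_closedBall.1 hz').trans hle2))
    simp only [dist_self]
    exact hε₂.le
  have hmem3 : ∀ κ ∈ closedBall p.1 ε, ∀ z ∈ closedBall p.2 ε, Θ (κ, z) ∈ t := by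
    intro κ hκ z hz
    apply H3
    rw [mem_closedBall, Prod.dist_eq]
    exact max_le ((mem_closedBall.1 hκ).trans hle3) ((mem_closedBall.1 hz).trans hle3)
  refine ⟨Y', P, fun q => (Ψ (q.1, (0, q.2))).2, L, ε, ?_, ?_, hε0, L.2, ?_, ?_, ?_, ?_⟩
  · have := Submodule.finrank_lt_finrank_of_lt hY'lt
    rwa [finrank_top] at this
  · exact contDiff_snd.comp (hΨ.comp (contDiff_fst.prodMk (contDiff_const.prodMk contDiff_snd)))
  · have := hmem1 p.1 (mem_closedBall_self hε0.le) p.2 (mem_closedBall_self hε0.le)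
    simp only
    rw [← hΘp]
    exact congrArg Prod.snd this
  · intro κ hκ z hz hw0
    have := hmem1 κ hκ z hz
    rw [hΘq, hw0] at this
    exact congrArg Prod.snd this
  · intro κ hκ z' hz'
    have h3 := hmem2 κ hκ z' hz'
    have h4 : (Ψ (κ, (0, z'))).1 = κ := congrArg Prod.fst h3
    have h5 : Ψ (κ, (0, z')) = (κ, (Ψ (κ, (0, z'))).2) := by
      ext1
      · exact h4
      · rfl
    have h6 : w (Ψ (κ, (0, z'))) = 0 := congrArg (fun q => q.2.1) h3
    have h7 : P (Ψ (κ, (0, z'))).2 = z' := congrArg (fun q => q.2.2) h3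
    refine ⟨?_, h7⟩
    simp only
    rw [← h5]
    exact h6
  · intro κ hκ z hz z₁ hz₁
    have h3 := hL.dist_le_mul _ (hmem3 κ hκ z hz) _ (hmem3 κ hκ z₁ hz₁)
    rw [hmem1 κ hκ z hz, hmem1 κ hκ z₁ hz₁, hΘq, hΘq, Prod.dist_eq, Prod.dist_eq, Prod.dist_eq] at h3
    simp only [dist_self] at h3
    have h4 : ‖z - z₁‖ ≤ max 0 (dist z z₁) := by
      rw [← dist_eq_norm]
      exact le_max_right _ _
    refine h4.trans (h3.trans ?_)
    have hL0 : (0 : ℝ) ≤ L := L.2
    apply mul_le_mul_of_nonneg_left _ hL0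
    rw [Real.dist_eq, dist_eq_norm]
    have h5 : 0 ≤ |w (κ, z) - w (κ, z₁)| := abs_nonneg _
    have h6 : 0 ≤ ‖P z - P z₁‖ := norm_nonneg _
    exact max_le (by positivity) (max_le (by linarith) (by linarith))

end Pool.Agent.Zk23.KKChart
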