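import Pool.Agent.Zk23.KKIff
import Pool.Agent.Zk85.G5g

/-!
# Positive measure of the differences in countable unions of `C^1` images
-/

set_option autoImplicit false

open Set Filter Topology MeasureTheory
open scoped ContDiff ENNReal

namespace Pool.Agent.Zk23.KKConvR

open Pool.Agent.Zk23.KKEquiv
open Pool.Agent.Zk85.G5g (finite_of_measure_gen)
open Pool.Agent.Zk25.KakCode (c1_code)
open Pool.Agent.Zk72.KakCov1 (c1_cover)

/-- finite unions of compact images -/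
theorem finite_union (d n : ℕ) (g : ℕ → E d → E n) (hg : ∀ i, ContDiff ℝ 1 (g i))
    (s : Finset ℕ) : ∃ C : ℝ, 0 ≤ C ∧ ∀ δ : ℝ, 0 < δ → δ < 1 → ∃ S : Finset (E n),
      (⋃ i ∈ s, g i '' {x | ∀ j, x j ∈ Icc (0 : ℝ) 1}) ⊆ (⋃ x ∈ S, Metric.ball x δ) ∧
      (S.card : ℝ) ≤ C * δ ^ (-(d : ℝ)) := by
  classical
  have h := fun i => c1_cover d n (g i) (hg i)
  choose C hC hcov using h
  refine ⟨∑ i ∈ s, C i, Finset.sum_nonneg fun i _ => (hC i).le, fun δ h0 h1 => ?_⟩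
  choose S hS1 hS2 using fun i => hcov i δ h0 h1
  refine ⟨s.biUnion S, ?_, ?_⟩
  · intro y hy
    obtain ⟨i, hi, hy⟩ := mem_iUnion₂.1 hy
    obtain ⟨x, hx, hyx⟩ := mem_iUnion₂.1 (hS1 i hy)
    exact mem_iUnion₂.2 ⟨x, Finset.mem_biUnion.2 ⟨i, hi, hx⟩, hyx⟩
  · rw [Finset.sum_mul]
    calc ((s.biUnion S).card : ℝ) ≤ ((∑ i ∈ s, (S i).card : ℕ) : ℝ) := by
          exact_mod_cast Finset.card_biUnion_le
      _ = ∑ i ∈ s, ((S i).card : ℝ) := by push_cast; rfl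
      _ ≤ ∑ i ∈ s, C i * δ ^ (-(d : ℝ)) := by
          refine Finset.sum_le_sum fun i _ => ?_
          exact hS2 i

/-- finite sets with all differences give `C^1` images -/
theorem c1_of_finite (n k : ℕ) (hn : 1 ≤ n) (hk : 1 ≤ k) (t' τ : ℝ) (ht'0 : 0 < t')
    (ht' : t' < τ * n)
    (h : ∀ᶠ N : ℕ in atTop, ∃ A : Finset (Fin n → ℤ), (A.card : ℝ) ≤ (N : ℝ) ^ t' ∧
      ∀ v : Fin n → ℕ, (∀ i, v i < N) → ∃ α : Fin n → ℤ, ∀ j : ℕ, j < k →
        (fun i => α i + (j : ℤ) * (v i : ℤ)) ∈ A) :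
    ∃ n' d : ℕ, 1 ≤ n' ∧ (d : ℝ) < τ * n' ∧ ∃ g : E d → E n', ContDiff ℝ 1 g ∧
      HasProg k (g '' {x | ∀ i, x i ∈ Icc (0 : ℝ) 1}) := by
  -- `p` and `m`
  obtain ⟨p, hp⟩ := exists_nat_gt (t' / (τ * n - t'))
  have hp0 : (0 : ℝ) < p := lt_of_le_of_lt (div_nonneg ht'0.le (by linarith)) hp
  have hp1 : (p + 1) * t' < p * (τ * n) := by
    rw [div_lt_iff₀ (by linarith)] at hp
    linarith
  have hgap : 0 < τ * n - (p + 1) * t' / p := by
    have : (p + 1) * t' / p < τ * n := by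
      rw [div_lt_iff₀ hp0]; linarith
    linarith
  obtain ⟨m, hm⟩ := exists_nat_gt (max 1 (1 / (τ * n - (p + 1) * t' / p)))
  have hm1 : (1 : ℝ) < m := lt_of_le_of_lt (le_max_left _ _) hm
  have hm2 : 1 < m * (τ * n - (p + 1) * t' / p) := by
    have := lt_of_le_of_lt (le_max_right _ _) hm
    rwa [div_lt_iff₀ hgap] at this
  have hm1' : 1 ≤ m := by
    have : 1 < m := by exact_mod_cast hm1
    omega
  obtain ⟨d, hd'⟩ : ∃ d, d = ⌈(p + 1) * t' / p * m⌉₊ := ⟨_, rfl⟩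
  have hd1 : (p + 1) * t' / p * m ≤ d := by rw [hd']; exact Nat.le_ceil _
  have hd2 : (d : ℝ) < (p + 1) * t' / p * m + 1 := by
    rw [hd']
    exact Nat.ceil_lt_add_one (by positivity)
  have hd3 : (d : ℝ) < τ * (m * n : ℕ) := by
    push_cast
    nlinarith
  obtain ⟨N₀, hN₀⟩ := h.exists_forall_of_atTop
  obtain ⟨M, hM⟩ : ∃ M, M = max 3 N₀ := ⟨_, rfl⟩
  have hM3 : 3 ≤ M := by rw [hM]; exact le_max_left _ _
  have hM0 : (0 : ℝ) < M := by
    have : 0 < M := by omega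
    exact_mod_cast this
  obtain ⟨N, hN⟩ : ∃ N, N = M ^ (p + 1) := ⟨_, rfl⟩
  have hMN : M ≤ N := by
    rw [hN]
    exact Nat.le_self_pow (by omega) M
  obtain ⟨A, hAr, hA2⟩ := hN₀ N (((le_max_right _ _).trans hM.symm.le).trans hMN)
  obtain ⟨A', hA'1, hA'2⟩ := power (m := m) A hA2
  have hA'c : A'.card ≤ (M ^ p) ^ d := by
    have h1 : (A'.card : ℝ) ≤ ((M ^ p) ^ d : ℕ) := by
      calc (A'.card : ℝ) ≤ (A.card : ℝ) ^ m := by exact_mod_cast hA'1
        _ ≤ ((N : ℝ) ^ t') ^ m := by gcongr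
        _ = (M : ℝ) ^ (((p + 1 : ℕ) : ℝ) * (t' * m)) := by
            rw [hN]
            push_cast
            rw [← Real.rpow_natCast, ← Real.rpow_natCast, ← Real.rpow_mul hM0.le,
              ← Real.rpow_mul hM0.le]
            congr 1
            push_cast
            ring
        _ ≤ (M : ℝ) ^ ((p : ℝ) * d) := by
            apply Real.rpow_le_rpow_of_exponent_le
            · have : 1 ≤ M := by omega
              exact_mod_cast this
            · push_cast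
              have h2 := mul_le_mul_of_nonneg_left hd1 hp0.le
              have h3 : (p : ℝ) * ((p + 1) * t' / p * m) = (p + 1) * (t' * m) := by
                field_simp
              linarith
        _ = ((M ^ p) ^ d : ℕ) := by
            push_cast
            rw [← Real.rpow_natCast, ← Real.rpow_natCast, ← Real.rpow_mul hM0.le]
    exact_mod_cast h1
  have h2c : 2 * M ^ p < N := by
    rw [hN, pow_succ']
    have h2 : 0 < M ^ p := Nat.pow_pos (by omega)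
    exact Nat.mul_lt_mul_of_pos_right (by omega) h2
  obtain ⟨g, hg, hgα⟩ := c1_code d (m * n) (M ^ p) N (Nat.one_le_pow _ _ (by omega)) h2c A' hA'c
  refine ⟨m * n, d, Nat.mul_pos hm1' hn, hd3, g, hg, ?_⟩
  refine code_prog hk (by omega) A' hA'2 ?_
  intro α hα
  obtain ⟨x, hx, hx2⟩ := hgα α hα
  exact ⟨g x, ⟨x, hx, rfl⟩, hx2⟩

/-- a compact piece -/
theorem compact_piece (n d k : ℕ) (f : ℕ → E d → E n) (hf : ∀ i, ContDiff ℝ 1 (f i))
    (hv : volume {ρ : E n | ∃ a, ∀ j : ℕ, j < k → a + (j : ℝ) • ρ ∈ ⋃ i, range (f i)} ≠ 0) :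
    ∃ g : ℕ → E d → E n, (∀ i, ContDiff ℝ 1 (g i)) ∧ ∃ s : Finset ℕ,
      volume {ρ : E n | ∃ a, ∀ j : ℕ, j < k → a + (j : ℝ) • ρ ∈
        ⋃ i ∈ s, g i '' {x | ∀ j, x j ∈ Icc (0 : ℝ) 1}} ≠ 0 := by
  classical
  let φ : ℕ → E d → E d := fun M x =>
    WithLp.toLp 2 fun j => (2 * (M : ℝ)) * x j - M
  have hφ : ∀ M, ContDiff ℝ 1 (φ M) := by
    intro M
    rw [contDiff_euclidean]
    intro j
    exact (contDiff_const.mul (EuclideanSpace.proj j : E d →L[ℝ] ℝ).contDiff).sub contDiff_const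
  let g : ℕ → E d → E n := fun i => f (Nat.unpair i).1 ∘ φ (Nat.unpair i).2
  have hg : ∀ i, ContDiff ℝ 1 (g i) := fun i => (hf _).comp (hφ _)
  have hcov : (⋃ i, range (f i)) ⊆ ⋃ i, g i '' {x | ∀ j, x j ∈ Icc (0 : ℝ) 1} := by
    intro y hy
    obtain ⟨i, x, rfl⟩ := mem_iUnion.1 hy
    obtain ⟨M, hM⟩ := exists_nat_gt ‖x‖
    have hM0 : (0 : ℝ) < M := lt_of_le_of_lt (norm_nonneg _) hM
    refine mem_iUnion.2 ⟨Nat.pair i M, WithLp.toLp 2 fun j => (x j + M) / (2 * M), ?_, ?_⟩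
    · intro j
      have h1 : |x j| ≤ M := (PiLp.norm_apply_le x j).trans hM.le
      rw [abs_le] at h1
      simp only
      constructor
      · exact div_nonneg (by linarith) (by positivity)
      · rw [div_le_one (by positivity)]
        linarith
    · simp only [g, Nat.unpair_pair, Function.comp_apply]
      congr 1
      ext j
      simp only [φ]
      field_simp
      ring
  have hsub : {ρ : E n | ∃ a, ∀ j : ℕ, j < k → a + (j : ℝ) • ρ ∈ ⋃ i, range (f i)} ⊆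
      ⋃ c : Fin k → ℕ, {ρ : E n | ∃ a, ∀ j : ℕ, j < k → a + (j : ℝ) • ρ ∈
        ⋃ i ∈ Finset.univ.image c, g i '' {x | ∀ j, x j ∈ Icc (0 : ℝ) 1}} := by
    rintro ρ ⟨a, ha⟩
    have h1 : ∀ j : Fin k, ∃ i, a + ((j : ℕ) : ℝ) • ρ ∈ g i '' {x | ∀ j, x j ∈ Icc (0 : ℝ) 1} :=
      fun j => mem_iUnion.1 (hcov (ha j j.2))
    choose c hc using h1
    refine mem_iUnion.2 ⟨c, a, fun j hj => ?_⟩
    exact mem_iUnion₂.2 ⟨c ⟨j, hj⟩, Finset.mem_image_of_mem _ (Finset.mem_univ _), hc ⟨j, hj⟩⟩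
  obtain ⟨c, hc⟩ : ∃ c : Fin k → ℕ, volume {ρ : E n | ∃ a, ∀ j : ℕ, j < k → a + (j : ℝ) • ρ ∈
        ⋃ i ∈ Finset.univ.image c, g i '' {x | ∀ j, x j ∈ Icc (0 : ℝ) 1}} ≠ 0 := by
    by_contra hcon
    push Not at hcon
    exact hv (measure_mono_null hsub (measure_iUnion_null hcon))
  exact ⟨g, hg, Finset.univ.image c, hc⟩

/-- **Positive measure of the differences gives `C^1` images with all differences** -/
theorem of_union (n d k : ℕ) (hn : 1 ≤ n) (hk : 1 ≤ k) (τ : ℝ) (hd : (d : ℝ) < τ * n)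
    (f : ℕ → E d → E n) (hf : ∀ i, ContDiff ℝ 1 (f i))
    (hv : volume {ρ : E n | ∃ a, ∀ j : ℕ, j < k → a + (j : ℝ) • ρ ∈ ⋃ i, range (f i)} ≠ 0) :
    ∃ n' d : ℕ, 1 ≤ n' ∧ (d : ℝ) < τ * n' ∧ ∃ g : E d → E n', ContDiff ℝ 1 g ∧
      HasProg k (g '' {x | ∀ i, x i ∈ Icc (0 : ℝ) 1}) := by
  obtain ⟨g, hg, s, hc⟩ := compact_piece n d k f hf hv
  obtain ⟨C, hC, hcovC⟩ := finite_union d n g hg s
  obtain ⟨t', ht1, ht2⟩ := exists_between hd
  have hd0 : (0 : ℝ) ≤ d := Nat.cast_nonneg _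
  have hev := finite_of_measure_gen n k hn hk _ C d t' hd0 ht1 hcovC hc
  exact c1_of_finite n k hn hk t' τ (by linarith) ht2 hev

end Pool.Agent.Zk23.KKConvR
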