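import Pool.Agent.Zk23.KKMain
import Pool.Agent.H304R3.Corner

/-!
# Consequences for sets of positive measure of common differences
-/

set_option autoImplicit false

open Set Filter Topology Module MeasureTheory
open scoped ContDiff ENNReal Pointwise

namespace Pool.Agent.Zk23.KKCor

open Pool.Agent.Zk23.KKSard Pool.Agent.Zk23.KKMain

theorem le_dimH_of_volume {n : ℕ} {R : Set (E n)} (h : volume R ≠ 0) : (n : ℝ≥0∞) ≤ dimH R := by
  by_contra hcon
  push Not at hcon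
  apply h
  have h1 : (volume : Measure (E n)) ≪ Measure.hausdorffMeasure (finrank ℝ (E n) : ℝ) :=
    Measure.absolutelyContinuous_isAddHaarMeasure _ _
  have h2 : finrank ℝ (E n) = n := by simp
  rw [h2] at h1
  exact measure_zero_of_dimH_lt (d := (n : NNReal)) (by simpa using h1) (by simpa using hcon)

/-- all terms in smooth sets -/
theorem all_smooth (n : ℕ) (T : Finset ℝ) (d : ℝ → ℕ) (B : ℝ → Set (E n))
    (hB : ∀ t ∈ T, SmoothDim n (d t) (B t))
    (hv : volume {r | ∃ a, ∀ t ∈ T, a + t • r ∈ B t} ≠ 0) : ∑ t ∈ T, (n - d t) ≤ n := by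
  obtain ⟨t₀, ht₀⟩ := Infinite.exists_notMem_finset T
  obtain ⟨l, hl, h1, h2, -⟩ := layers n T d B hB t₀ ht₀ univ
  have h3 : {r | ∃ a, a + t₀ • r ∈ (univ : Set (E n)) ∧ ∀ t ∈ T, a + t • r ∈ B t} =
      {r | ∃ a, ∀ t ∈ T, a + t • r ∈ B t} := by
    ext r; simp
  rw [h3] at h2
  have h4 := (le_dimH_of_volume hv).trans h2
  have h5 : n ≤ l := by exact_mod_cast h4
  obtain rfl : l = n := le_antisymm hl h5
  exact h1

/-- all terms but one in smooth sets -/
theorem one_layer (n : ℕ) (T : Finset ℝ) (d : ℝ → ℕ) (B : ℝ → Set (E n))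
    (hB : ∀ t ∈ T, SmoothDim n (d t) (B t)) (t₀ : ℝ) (ht₀ : t₀ ∉ T) (Z : Set (E n))
    (hv : volume {r | ∃ a, a + t₀ • r ∈ Z ∧ ∀ t ∈ T, a + t • r ∈ B t} ≠ 0) :
    ∑ t ∈ T, (n - d t) ≤ n ∧ ((∑ t ∈ T, (n - d t) : ℕ) : ℝ≥0∞) ≤ dimH Z := by
  obtain ⟨l, hl, h1, h2, h3⟩ := layers n T d B hB t₀ ht₀ Z
  have h4 := (le_dimH_of_volume hv)
  have h5 : n ≤ l := by exact_mod_cast h4.trans h2
  obtain rfl : l = n := le_antisymm hl h5
  refine ⟨h1, ?_⟩
  have h6 : (l : ℝ≥0∞) + ((∑ t ∈ T, (l - d t) : ℕ) : ℝ≥0∞) ≤ (l : ℝ≥0∞) + dimH Z := by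
    rw [add_comm (l : ℝ≥0∞) (dimH Z)]
    exact (add_le_add h4 le_rfl).trans h3
  exact (ENNReal.add_le_add_iff_left (ENNReal.natCast_ne_top l)).1 h6

/-- smooth sets up to small exceptional sets -/
theorem exceptional (n : ℕ) (T : Finset ℝ) (d : ℝ → ℕ) (B S X : ℝ → Set (E n))
    (hB : ∀ t ∈ T, B t ⊆ S t ∪ X t) (hS : ∀ t ∈ T, SmoothDim n (d t) (S t))
    (hv : volume {r | ∃ a, ∀ t ∈ T, a + t • r ∈ B t} ≠ 0) :
    ∑ t ∈ T, (n - d t) ≤ n ∨
    (∃ s ∈ T, ((∑ t ∈ T.erase s, (n - d t) : ℕ) : ℝ≥0∞) ≤ dimH (X s)) ∨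
    (∃ s ∈ T, ∃ s' ∈ T, s ≠ s' ∧ (n : ℝ≥0∞) ≤ dimH (X s ×ˢ X s')) := by
  classical
  have hcov : {r | ∃ a, ∀ t ∈ T, a + t • r ∈ B t} ⊆ ⋃ P ∈ T.powerset,
      {r | ∃ a, (∀ t ∈ P, a + t • r ∈ X t) ∧ ∀ t ∈ T \ P, a + t • r ∈ S t} := by
    rintro r ⟨a, ha⟩
    refine mem_iUnion₂.2 ⟨T.filter fun t => a + t • r ∈ X t, ?_, a, ?_, ?_⟩
    · rw [Finset.mem_powerset]
      exact Finset.filter_subset _ _
    · intro t ht
      exact (Finset.mem_filter.1 ht).2
    · intro t ht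
      rw [Finset.mem_sdiff, Finset.mem_filter] at ht
      rcases hB t ht.1 (ha t ht.1) with h | h
      · exact h
      · exact absurd ⟨ht.1, h⟩ ht.2
  obtain ⟨P, hP, hPv⟩ : ∃ P ∈ T.powerset, volume {r : E n | ∃ a,
      (∀ t ∈ P, a + t • r ∈ X t) ∧ ∀ t ∈ T \ P, a + t • r ∈ S t} ≠ 0 := by
    by_contra hcon
    push Not at hcon
    apply hv
    refine measure_mono_null hcov ?_
    have h := (measure_biUnion_null_iff (μ := (volume : Measure (E n)))
      (s := fun P : Finset ℝ => {r : E n | ∃ a,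
        (∀ t ∈ P, a + t • r ∈ X t) ∧ ∀ t ∈ T \ P, a + t • r ∈ S t})
      (Finset.countable_toSet T.powerset)).2 (fun P hP => hcon P hP)
    simpa only [Finset.mem_coe] using h
  rw [Finset.mem_powerset] at hP
  rcases Nat.lt_or_ge 1 P.card with h2 | h2
  · -- two points in the exceptional sets
    obtain ⟨s, hs, s', hs', hne⟩ := Finset.one_lt_card.1 h2
    refine Or.inr (Or.inr ⟨s, hP hs, s', hP hs', hne, ?_⟩)
    refine (le_dimH_of_volume hPv).trans ?_
    have hne' : s' - s ≠ 0 := sub_ne_zero.2 (Ne.symm hne)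
    set g : E n × E n → E n := fun p => (s' - s)⁻¹ • (p.2 - p.1) with hg
    have hgl : LipschitzWith (‖(s' - s)⁻¹‖₊ * (1 + 1)) g := by
      have h1 : LipschitzWith (1 + 1) (fun p : E n × E n => p.2 - p.1) :=
        LipschitzWith.prod_snd.sub LipschitzWith.prod_fst
      exact (lipschitzWith_smul (s' - s)⁻¹).comp h1
    refine (dimH_mono ?_).trans (hgl.dimH_image_le (X s ×ˢ X s'))
    rintro r ⟨a, ha, -⟩
    refine ⟨(a + s • r, a + s' • r), ⟨ha s hs, ha s' hs'⟩, ?_⟩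
    rw [hg]
    simp only [add_sub_add_left_eq_sub]
    rw [← sub_smul, smul_smul, inv_mul_cancel₀ hne', one_smul]
  · rcases Nat.eq_zero_or_pos P.card with h0 | h0
    · -- no such point
      rw [Finset.card_eq_zero] at h0
      subst h0
      left
      refine all_smooth n T d S hS ?_
      intro h
      apply hPv
      refine measure_mono_null ?_ h
      rintro r ⟨a, -, ha⟩
      exact ⟨a, fun t ht => ha t (by simpa using ht)⟩
    · obtain ⟨s, hs⟩ := Finset.card_eq_one.1 (le_antisymm h2 h0)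
      subst hs
      have hsT : s ∈ T := hP (Finset.mem_singleton_self s)
      refine Or.inr (Or.inl ⟨s, hsT, ?_⟩)
      refine (one_layer n (T.erase s) d S (fun t ht => hS t (Finset.mem_of_mem_erase ht)) s
        (Finset.notMem_erase s T) (X s) ?_).2
      intro h
      apply hPv
      refine measure_mono_null ?_ h
      rintro r ⟨a, ha1, ha2⟩
      refine ⟨a, ha1 s (Finset.mem_singleton_self s), fun t ht => ha2 t ?_⟩
      rw [Finset.mem_sdiff, Finset.mem_singleton]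
      exact ⟨Finset.mem_of_mem_erase ht, Finset.ne_of_mem_erase ht⟩

/-- progressions of length `k` -/
theorem progressions (n k d : ℕ) (hk : 2 ≤ k) (S X : Set (E n)) (hS : SmoothDim n d S)
    (hX : 2 * dimH X ≤ n) (hXX : dimH (X ×ˢ X) < n)
    (hv : volume {r | ∃ a, ∀ j : ℕ, j < k → a + (j : ℝ) • r ∈ S ∪ X} ≠ 0) :
    n - n / k ≤ d := by
  classical
  set T : Finset ℝ := (Finset.range k).image (fun j : ℕ => (j : ℝ)) with hT
  have hcard : T.card = k := by
    rw [hT, Finset.card_image_of_injective _ Nat.cast_injective, Finset.card_range]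
  have hset : {r : E n | ∃ a, ∀ j : ℕ, j < k → a + (j : ℝ) • r ∈ S ∪ X} =
      {r | ∃ a, ∀ t ∈ T, a + t • r ∈ S ∪ X} := by
    ext r
    constructor
    · rintro ⟨a, ha⟩
      refine ⟨a, fun t ht => ?_⟩
      rw [hT, Finset.mem_image] at ht
      obtain ⟨j, hj, rfl⟩ := ht
      exact ha j (Finset.mem_range.1 hj)
    · rintro ⟨a, ha⟩
      refine ⟨a, fun j hj => ha j ?_⟩
      rw [hT, Finset.mem_image]
      exact ⟨j, Finset.mem_range.2 hj, rfl⟩
  rw [hset] at hv
  by_contra hcon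
  push Not at hcon
  -- `k (n - d) > n`
  have hkd : n < k * (n - d) := by
    by_contra h
    push Not at h
    have : n - d ≤ n / k := by
      rw [Nat.le_div_iff_mul_le (by omega)]
      linarith [Nat.mul_comm k (n - d)]
    omega
  rcases exceptional n T (fun _ => d) (fun _ => S ∪ X) (fun _ => S) (fun _ => X)
    (fun _ _ => subset_rfl) (fun _ _ => hS) hv with h | ⟨s, hs, h⟩ | ⟨s, hs, s', hs', -, h⟩
  · rw [Finset.sum_const, hcard, smul_eq_mul] at h
    omega
  · rw [Finset.sum_const, Finset.card_erase_of_mem hs, hcard, smul_eq_mul] at h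
    have h1 : ((2 * ((k - 1) * (n - d)) : ℕ) : ℝ≥0∞) ≤ n := by
      rw [Nat.cast_mul, Nat.cast_ofNat]
      calc (2 : ℝ≥0∞) * (((k - 1) * (n - d) : ℕ) : ℝ≥0∞) ≤ 2 * dimH X := by
            gcongr
        _ ≤ n := hX
    have h2 : 2 * ((k - 1) * (n - d)) ≤ n := by exact_mod_cast h1
    have h3 : k * (n - d) ≤ 2 * ((k - 1) * (n - d)) := by
      rw [← mul_assoc]
      apply Nat.mul_le_mul_right
      omega
    omega
  · exact absurd h (not_le.2 hXX)

/-- smooth hypersurfaces do not help -/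
theorem removal (n k₀ : ℕ) (hn : 1 ≤ n) : ∃ k : ℕ, ∀ B S : Set (E n), SmoothDim n (n - 1) S →
    volume {r | ∃ a, ∀ j : ℕ, j < k → a + (j : ℝ) • r ∈ B} ≠ 0 →
    volume {r | ∃ a, ∀ j : ℕ, j < k₀ → a + (j : ℝ) • r ∈ B \ S} ≠ 0 := by
  classical
  set k₁ := max k₀ (n + 1) with hk₁
  obtain ⟨W, hW⟩ := Pool.Agent.H304R3.Corner.vdw (k₁ - 1) 2
  refine ⟨W + 1, fun B S hS hv hcon => hv ?_⟩
  have hk₁1 : n + 1 ≤ k₁ := le_max_right _ _
  -- the progressions in `S` and in `B \ S`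
  set RS : Set (E n) := {r | ∃ a, ∀ j : ℕ, j < k₁ → a + (j : ℝ) • r ∈ S} with hRS
  set RB : Set (E n) := {r | ∃ a, ∀ j : ℕ, j < k₁ → a + (j : ℝ) • r ∈ B \ S} with hRB
  have hRS0 : volume RS = 0 := by
    by_contra h
    have hnd : 2 ≤ k₁ := by omega
    have := progressions n k₁ (n - 1) hnd S ∅ hS (by simp) (by
      simp only [Set.empty_prod, dimH_empty]
      exact_mod_cast hn) (by
      simpa only [Set.union_empty] using h)
    have h2 : n / k₁ = 0 := Nat.div_eq_of_lt (by omega)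
    omega
  have hRB0 : volume RB = 0 := by
    refine measure_mono_null ?_ hcon
    rintro r ⟨a, ha⟩
    exact ⟨a, fun j hj => ha j (lt_of_lt_of_le hj (le_max_left _ _))⟩
  have hcov : {r : E n | ∃ a, ∀ j : ℕ, j < W + 1 → a + (j : ℝ) • r ∈ B} ⊆
      ⋃ s : ℕ, (fun r : E n => ((s : ℝ) + 1)⁻¹ • r) '' (RS ∪ RB) := by
    rintro r ⟨a, ha⟩
    obtain ⟨x, s, hs1, hs2, hs3, hs4⟩ := hW (fun j => if a + (j : ℝ) • r ∈ S then 0 else 1)
    have hs0 : ((s - 1 : ℕ) : ℝ) + 1 = s := by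
      have : s - 1 + 1 = s := by omega
      exact_mod_cast this
    have hsne : (s : ℝ) ≠ 0 := by
      have : s ≠ 0 := by omega
      exact_mod_cast this
    have key : ∀ j : ℕ, a + (x : ℝ) • r + (j : ℝ) • ((s : ℝ) • r) =
        a + ((x + j * s : ℕ) : ℝ) • r := by
      intro j
      push_cast
      rw [add_smul, mul_smul, add_assoc]
    refine mem_iUnion.2 ⟨s - 1, (s : ℝ) • r, ?_, ?_⟩
    · by_cases hx : a + (x : ℝ) • r ∈ S
      · left
        refine ⟨a + (x : ℝ) • r, fun j hj => ?_⟩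
        rw [key]
        have h1 := hs4 j (by omega)
        simp only [hx, if_true] at h1
        by_contra hnot
        rw [if_neg hnot] at h1
        exact absurd h1 (by decide)
      · right
        refine ⟨a + (x : ℝ) • r, fun j hj => ?_⟩
        rw [key]
        have h1 := hs4 j (by omega)
        simp only [hx, if_false] at h1
        refine ⟨ha _ ?_, fun hin => ?_⟩
        · have : j * s ≤ (k₁ - 1) * s := Nat.mul_le_mul_right _ (by omega)
          omega
        · rw [if_pos hin] at h1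
          exact absurd h1 (by decide)
    · simp only [hs0]
      rw [smul_smul, inv_mul_cancel₀ hsne, one_smul]
  refine measure_mono_null hcov ?_
  rw [measure_iUnion_null_iff]
  intro s
  rw [show (fun r : E n => ((s : ℝ) + 1)⁻¹ • r) '' (RS ∪ RB) = ((s : ℝ) + 1)⁻¹ • (RS ∪ RB) from rfl,
    Measure.addHaar_smul, measure_union_null hRS0 hRB0, mul_zero]

/-- the dimension of an image is at least the rank -/
theorem rank_le_dimH {m n : ℕ} {f : E m → E n} (hf : ContDiff ℝ ∞ f) (x : E m) :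
    ((finrank ℝ (LinearMap.range (fderiv ℝ f x : E m →ₗ[ℝ] E n)) : ℕ) : ℝ≥0∞) ≤
      dimH (range f) := by
  set U := LinearMap.range (fderiv ℝ f x : E m →ₗ[ℝ] E n) with hU
  obtain ⟨p, hp⟩ := exists_proj U
  have h1 : HasStrictFDerivAt (fun y => p (f y)) (p.comp (fderiv ℝ f x)) x := by
    have h2 : HasStrictFDerivAt f (fderiv ℝ f x) x := hf.contDiffAt.hasStrictFDerivAt (by simp)
    exact p.hasStrictFDerivAt.comp x h2
  have hs : LinearMap.range (p.comp (fderiv ℝ f x) : E m →ₗ[ℝ] U) = ⊤ := by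
    rw [LinearMap.range_eq_top]
    intro u
    obtain ⟨v, hv⟩ := u.2
    refine ⟨v, ?_⟩
    have h3 : fderiv ℝ f x v = u := hv
    change p (fderiv ℝ f x v) = u
    rw [h3, hp]
  have h4 := h1.map_nhds_eq_of_surj hs
  have h5 : range (fun y => p (f y)) ∈ 𝓝 (p (f x)) := by
    rw [← h4]
    exact Filter.range_mem_map
  calc ((finrank ℝ U : ℕ) : ℝ≥0∞) = dimH (range (fun y => p (f y))) :=
        (Real.dimH_of_mem_nhds h5).symm
    _ = dimH (p '' range f) := by rw [← range_comp]; rfl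
    _ ≤ dimH (range f) := p.lipschitz.dimH_image_le _

/-- the lower bound for countable unions of smooth images -/
theorem images_lower (n k : ℕ) (hk : 1 ≤ k) {m : ℕ → ℕ} {f : ∀ i, E (m i) → E n}
    (hf : ∀ i, ContDiff ℝ ∞ (f i)) (X : Set (E n)) (hX : 2 * dimH X ≤ n)
    (hXX : dimH (X ×ˢ X) < n)
    (hv : volume {r | ∃ a, ∀ j : ℕ, j < k → a + (j : ℝ) • r ∈ (⋃ i, range (f i)) ∪ X} ≠ 0) :
    ((n - n / k : ℕ) : ℝ≥0∞) ≤ dimH (⋃ i, range (f i)) := by
  rcases Nat.lt_or_ge 1 k with h1 | h1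
  swap
  · obtain rfl : k = 1 := le_antisymm h1 hk
    simp
  classical
  have hbdd : ∀ i x, finrank ℝ (LinearMap.range (fderiv ℝ (f i) x : E (m i) →ₗ[ℝ] E n)) ≤ n := by
    intro i x
    refine (Submodule.finrank_le _).trans ?_
    simp
  let P : ℕ → Prop := fun d => ∀ i x,
    finrank ℝ (LinearMap.range (fderiv ℝ (f i) x : E (m i) →ₗ[ℝ] E n)) ≤ d
  have hP : ∃ d, P d := ⟨n, hbdd⟩
  set d := Nat.find hP with hd
  have hPd : P d := Nat.find_spec hP
  have hSm : SmoothDim n d (⋃ i, range (f i)) := by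
    refine ⟨m, f, hf, ?_⟩
    intro y hy
    obtain ⟨i, x, rfl⟩ := mem_iUnion.1 hy
    exact mem_iUnion.2 ⟨i, x, hPd i x, rfl⟩
  have h2 := progressions n k d h1 (⋃ i, range (f i)) X hSm hX hXX hv
  have h3 : (d : ℝ≥0∞) ≤ dimH (⋃ i, range (f i)) := by
    rcases Nat.eq_zero_or_pos d with h0 | h0
    · rw [h0]; simp
    · have h4 : ¬ P (d - 1) := Nat.find_min hP (by omega)
      simp only [P, not_forall, not_le] at h4
      obtain ⟨i, x, hx⟩ := h4
      calc (d : ℝ≥0∞) ≤ (finrank ℝ (LinearMap.range (fderiv ℝ (f i) x : E (m i) →ₗ[ℝ] E n)) : ℕ) := by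
            have : d ≤ finrank ℝ (LinearMap.range (fderiv ℝ (f i) x : E (m i) →ₗ[ℝ] E n)) := by omega
            exact_mod_cast this
        _ ≤ dimH (range (f i)) := rank_le_dimH (hf i) x
        _ ≤ dimH (⋃ i, range (f i)) := dimH_mono (subset_iUnion (fun i => range (f i)) i)
  refine le_trans ?_ h3
  exact_mod_cast h2

end Pool.Agent.Zk23.KKCor
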