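import Pool.Agent.Zk25.KakCov
set_option autoImplicit false
open Set MeasureTheory
open scoped ENNReal
namespace Pool.Agent.Zk23.KKCov
theorem dimH_image_le_add {X W : Type} [MetricSpace X] [MetricSpace W] (m N : ℕ) (hN : 1 ≤ N)
    (Z : Set X) (A : Set (X × (Fin m → ℝ))) (hAZ : ∀ p ∈ A, p.1 ∈ Z) (M : ℝ)
    (hAb : ∀ p ∈ A, ∀ i, |p.2 i| ≤ M) (g : X × (Fin m → ℝ) → W) (C : ℝ)
    (hg : ∀ p ∈ A, ∀ q ∈ A, dist (g p) (g q) ≤ C * (dist p.1 q.1 + dist p.2 q.2 ^ N)) :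
    dimH (g '' A) ≤ dimH Z + (m : ℝ≥0∞) / (N : ℝ≥0∞) :=
  Pool.Agent.Zk25.Kak.dimH_image_le_add m N hN Z A hAZ M hAb g C hg
end Pool.Agent.Zk23.KKCov
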