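import Pool.Agent.Zk23.KKEquiv
import Pool.Agent.Zk11.KK.D4

/-!
# The arithmetic Kakeya conjecture is equivalent to its version for `C^r` images: the map
-/

set_option autoImplicit false

open Set Filter Topology
open scoped ContDiff

namespace Pool.Agent.Zk23.KKCr

open Pool.Agent.Zk23.KKEquiv (E HasProg exists_digits AKC)
open Pool.Agent.Zk11.KK (smooth_code)

/-- digits of a number below `p^(r+1)` -/
theorem digit_sum (p : ℕ) (hp : 1 ≤ p) (r y : ℕ) (hy : y < p ^ r) :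
    ∑ i : Fin r, p ^ (i : ℕ) * (y / p ^ (i : ℕ) % p) = y := by
  induction r generalizing y with
  | zero =>
    have : y = 0 := by simpa using hy
    simp [this]
  | succ r ih =>
    rw [Fin.sum_univ_succ]
    have h1 : y / p < p ^ r := by
      rw [Nat.div_lt_iff_lt_mul (by omega), ← pow_succ]
      exact hy
    have h2 := ih (y / p) h1
    have h3 : ∑ i : Fin r, p ^ ((i.succ : Fin (r + 1)) : ℕ) * (y / p ^ ((i.succ : Fin (r + 1)) : ℕ) % p) =
        p * (y / p) := by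
      rw [← h2, Finset.mul_sum]
      refine Finset.sum_congr rfl fun i _ => ?_
      rw [Fin.val_succ, pow_succ', mul_assoc, ← Nat.div_div_eq_div_mul]
    rw [h3]
    simp only [Fin.val_zero, pow_zero, one_mul, Nat.div_one]
    exact Nat.mod_add_div y p

/-- bounded digits give summable series -/
theorem summable_digits {b : ℕ} (hb : 2 ≤ b) {C : ℝ} {f : ℕ → ℝ} (hf : ∀ J, |f J| ≤ C) :
    Summable fun J : ℕ => f J / (b : ℝ) ^ (J + 1) := by
  have hb0 : (0 : ℝ) < b := by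
    have : 0 < b := by omega
    exact_mod_cast this
  have hb1 : (1 : ℝ) < b := by
    have : 1 < b := by omega
    exact_mod_cast this
  have h1 : Summable fun J : ℕ => C * ((b : ℝ)⁻¹) ^ (J + 1) := by
    have : Summable fun J : ℕ => ((b : ℝ)⁻¹) ^ J :=
      summable_geometric_of_lt_one (by positivity) (inv_lt_one_of_one_lt₀ hb1)
    exact ((summable_nat_add_iff 1).2 this).mul_left C
  refine Summable.of_norm_bounded h1 fun J => ?_
  rw [norm_div, norm_pow, Real.norm_eq_abs, Real.norm_eq_abs, abs_of_pos hb0, inv_pow,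
    ← div_eq_mul_inv]
  gcongr
  exact hf J

theorem tsum_le {b : ℕ} (hb : 2 ≤ b) {k : ℕ} {f : ℕ → ℕ} (hf : ∀ J, f J ≤ k * (b - 1)) :
    ∑' J : ℕ, (f J : ℝ) / (b : ℝ) ^ (J + 1) ≤ k := by
  have hb0 : (0 : ℝ) < b := by
    have : 0 < b := by omega
    exact_mod_cast this
  have hb1 : (1 : ℝ) < b := by
    have : 1 < b := by omega
    exact_mod_cast this
  have h1 : HasSum (fun J : ℕ => ((b : ℝ)⁻¹) ^ J) (1 - (b : ℝ)⁻¹)⁻¹ :=
    hasSum_geometric_of_lt_one (by positivity) (inv_lt_one_of_one_lt₀ hb1)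
  have h2 := h1.mul_left ((k : ℝ) * ((b : ℝ) - 1) * (b : ℝ)⁻¹)
  have h3 : (k : ℝ) * ((b : ℝ) - 1) * (b : ℝ)⁻¹ * (1 - (b : ℝ)⁻¹)⁻¹ = k := by
    have : (b : ℝ) - 1 ≠ 0 := by linarith
    field_simp
  rw [h3] at h2
  have h5 : (fun J : ℕ => (k : ℝ) * ((b : ℝ) - 1) / (b : ℝ) ^ (J + 1)) =
      fun J : ℕ => (k : ℝ) * ((b : ℝ) - 1) * (b : ℝ)⁻¹ * (b : ℝ)⁻¹ ^ J := by
    ext J
    rw [pow_succ, inv_pow]
    field_simp
  rw [← h5] at h2
  have h4 : ∀ J, (f J : ℝ) ≤ k * ((b : ℝ) - 1) := by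
    intro J
    have : (f J : ℝ) ≤ ((k * (b - 1) : ℕ) : ℝ) := by exact_mod_cast hf J
    rwa [Nat.cast_mul, Nat.cast_sub (by omega), Nat.cast_one] at this
  have h6 : Summable fun J : ℕ => (f J : ℝ) / (b : ℝ) ^ (J + 1) := by
    refine summable_digits hb (C := k * ((b : ℝ) - 1)) fun J => ?_
    rw [abs_of_nonneg (Nat.cast_nonneg _)]
    exact h4 J
  refine h2.tsum_eq ▸ h6.tsum_le_tsum (fun J => ?_) h2.summable
  gcongr
  exact h4 J

/-- the map of class `C^r` from the combinatorial data -/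
theorem map_of_data (p k d s h r : ℕ) (hp : 2 ≤ p) (hk : 1 ≤ k) {ι : Type} [Finite ι]
    (u : ι → Fin d → ℕ) (v : ι → Fin (s * (r + 1)) → ℕ) (c : ι → Fin h → ℕ)
    (hu : ∀ a i, u a i ≤ k * (p - 1)) (hv : ∀ a i, v a i ≤ k * (p - 1))
    (hc : ∀ a i, c a i ≤ k * (p - 1))
    (hsep : ∀ a a', a ≠ a' →
        (∃ i, ∀ z : ℤ, (k : ℤ) + 2 ≤ |(u a i : ℤ) - u a' i + p * z|) ∨
        (∃ i, ∀ z : ℤ, (k : ℤ) + 2 ≤ |(c a i : ℤ) - c a' i + p * z|))
    (hprog : ∀ (ρ : Fin d → ℕ) (σ : Fin (s * (r + 1)) → ℕ), (∀ i, ρ i < p) → (∀ i, σ i < p) →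
        ∃ (a₀ : Fin d → ℕ) (b₀ : Fin (s * (r + 1)) → ℕ), ∀ t : ℕ, t < k → ∃ a : ι,
          (∀ i, u a i = a₀ i + t * ρ i) ∧ (∀ i, v a i = b₀ i + t * σ i)) :
    ∃ g : E (d + h) → E (d + s), ContDiff ℝ r g ∧
      HasProg k (g '' {x | ∀ i, x i ∈ Icc (0 : ℝ) 1}) := by
  classical
  set N : ℕ := p ^ (r + 1) with hN
  have hrN : p ^ r < N := by
    rw [hN, pow_succ]
    have : 0 < p ^ r := Nat.pow_pos (by omega)
    nlinarith
  have hN2 : 2 ≤ N := by
    have : 0 < p ^ r := Nat.pow_pos (by omega)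
    omega
  let e : Fin s × Fin (r + 1) ≃ Fin (s * (r + 1)) := finProdFinEquiv
  let q : ι → Fin (d + h) → ℕ := fun a => Fin.append (u a) (c a)
  have hq : ∀ a i, q a i ≤ k * (p - 1) := by
    intro a i
    refine Fin.addCases (fun i => ?_) (fun i => ?_) i
    · simp only [q, Fin.append_left]; exact hu a i
    · simp only [q, Fin.append_right]; exact hc a i
  have hsep' : ∀ a a', a ≠ a' → ∃ i, ∀ z : ℤ, (k : ℤ) + 2 ≤ |(q a i : ℤ) - q a' i + p * z| := by
    intro a a' haa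
    rcases hsep a a' haa with ⟨i, hi⟩ | ⟨i, hi⟩
    · exact ⟨Fin.castAdd h i, by simpa only [q, Fin.append_left] using hi⟩
    · exact ⟨Fin.natAdd d i, by simpa only [q, Fin.append_right] using hi⟩
  let β : Fin s → ι → ℝ := fun j a => ((∑ i : Fin (r + 1), p ^ (i : ℕ) * v a (e (j, i)) : ℕ) : ℝ)
  choose g hg1 hg2 using fun j : Fin s => smooth_code r p N k (d + h) hp hrN q (β j) hq hsep'
  let G : E (d + h) → E (d + s) := fun x =>
    WithLp.toLp 2 (Fin.append (fun i : Fin d => x (Fin.castAdd h i)) (fun j : Fin s => g j x))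
  have hG : ContDiff ℝ r G := by
    rw [contDiff_euclidean]
    intro i
    refine Fin.addCases (fun i => ?_) (fun j => ?_) i
    · simp only [G, Fin.append_left]
      exact (EuclideanSpace.proj (Fin.castAdd h i) : E (d + h) →L[ℝ] ℝ).contDiff
    · simp only [G, Fin.append_right]
      exact hg1 j
  refine ⟨fun x => G ((k : ℝ) • x), hG.comp (contDiff_const_smul _), ?_⟩
  have hk0 : (0 : ℝ) < k := by exact_mod_cast hk
  intro R hR
  -- the digits of the common difference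
  choose ρ hρ1 hρ2 using fun i : Fin d => exists_digits hp (hR (Fin.castAdd s i))
  choose y hy1 hy2 using fun j : Fin s => exists_digits hN2 (hR (Fin.natAdd d j))
  choose a₀ b₀ hab using fun J : ℕ => hprog (fun i => ρ i J)
    (fun l => y (e.symm l).1 J / p ^ ((e.symm l).2 : ℕ) % p) (fun i => hρ1 i J)
    (fun l => Nat.mod_lt _ (by omega))
  have ha₀ : ∀ J i, a₀ J i ≤ k * (p - 1) := by
    intro J i
    obtain ⟨a, h1, -⟩ := hab J 0 (by omega)
    have := h1 i
    rw [zero_mul, add_zero] at this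
    rw [← this]
    exact hu a i
  have hb₀ : ∀ J i, b₀ J i ≤ k * (p - 1) := by
    intro J i
    obtain ⟨a, -, h1⟩ := hab J 0 (by omega)
    have := h1 i
    rw [zero_mul, add_zero] at this
    rw [← this]
    exact hv a i
  have hs1 : ∀ i, Summable fun J : ℕ => (a₀ J i : ℝ) / (p : ℝ) ^ (J + 1) := by
    intro i
    refine summable_digits hp (C := ((k * (p - 1) : ℕ) : ℝ)) fun J => ?_
    rw [abs_of_nonneg (Nat.cast_nonneg _)]
    exact_mod_cast ha₀ J i
  have hs2 : ∀ j : Fin s, Summable fun J : ℕ =>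
      ((∑ i : Fin (r + 1), p ^ (i : ℕ) * b₀ J (e (j, i)) : ℕ) : ℝ) / (N : ℝ) ^ (J + 1) := by
    intro j
    refine summable_digits hN2
      (C := ((∑ i : Fin (r + 1), p ^ (i : ℕ) * (k * (p - 1)) : ℕ) : ℝ)) fun J => ?_
    rw [abs_of_nonneg (Nat.cast_nonneg _)]
    have : ∑ i : Fin (r + 1), p ^ (i : ℕ) * b₀ J (e (j, i)) ≤
        ∑ i : Fin (r + 1), p ^ (i : ℕ) * (k * (p - 1)) :=
      Finset.sum_le_sum fun i _ => Nat.mul_le_mul_left _ (hb₀ J _)
    exact_mod_cast this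
  refine ⟨WithLp.toLp 2 (Fin.append (fun i : Fin d => ∑' J : ℕ, (a₀ J i : ℝ) / (p : ℝ) ^ (J + 1))
    (fun j : Fin s => ∑' J : ℕ,
      ((∑ i : Fin (r + 1), p ^ (i : ℕ) * b₀ J (e (j, i)) : ℕ) : ℝ) / (N : ℝ) ^ (J + 1))),
    fun t ht => ?_⟩
  choose a ha1 ha2 using fun J : ℕ => hab J t ht
  set X : E (d + h) := WithLp.toLp 2 fun i => ∑' J : ℕ, (q (a J) i : ℝ) / (p : ℝ) ^ (J + 1) with hX
  refine ⟨((k : ℝ)⁻¹) • X, fun i => ?_, ?_⟩
  · rw [PiLp.smul_apply, smul_eq_mul, hX]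
    simp only
    constructor
    · exact mul_nonneg (by positivity) (tsum_nonneg fun J => by positivity)
    · rw [inv_mul_le_iff₀ hk0, mul_one]
      exact tsum_le hp fun J => hq (a J) i
  · simp only
    rw [smul_smul, mul_inv_cancel₀ hk0.ne', one_smul]
    ext l
    refine Fin.addCases (fun i => ?_) (fun j => ?_) l
    · simp only [G, Fin.append_left, PiLp.add_apply, PiLp.smul_apply, smul_eq_mul, hX, q]
      have h2 := (hs1 i).hasSum.add ((hρ2 i).mul_left (t : ℝ))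
      rw [← h2.tsum_eq]
      congr 1
      ext J
      rw [ha1 J i]
      push_cast
      ring
    · have h1 : (WithLp.toLp 2 fun i => ∑' J : ℕ, (q (a J) i : ℝ) / (p : ℝ) ^ (J + 1) : E (d + h)) = X := rfl
      simp only [G, Fin.append_right, PiLp.add_apply, PiLp.smul_apply, smul_eq_mul]
      rw [← h1, hg2 j a]
      have h2 := (hs2 j).hasSum.add ((hy2 j).mul_left (t : ℝ))
      rw [← h2.tsum_eq]
      congr 1
      ext J
      have h3 : ∑ i : Fin (r + 1), p ^ (i : ℕ) * v (a J) (e (j, i)) =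
          ∑ i : Fin (r + 1), p ^ (i : ℕ) * b₀ J (e (j, i)) + t * y j J := by
        have h4 := digit_sum p (by omega) (r + 1) (y j J) (hy1 j J)
        have h5 : t * y j J = t * ∑ i : Fin (r + 1), p ^ (i : ℕ) * (y j J / p ^ (i : ℕ) % p) := by
          rw [h4]
        rw [h5, Finset.mul_sum, ← Finset.sum_add_distrib]
        refine Finset.sum_congr rfl fun i _ => ?_
        rw [ha2 J, Equiv.symm_apply_apply]
        ring
      simp only [β]
      rw [h3]
      push_cast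
      ring

end Pool.Agent.Zk23.KKCr
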