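import Pool.Agent.Zk23.KKCr
import Pool.Agent.Zk85.Shear
import Pool.Agent.Zk9.Lift

/-!
# The arithmetic Kakeya conjecture is equivalent to its version for `C^r` images: finite sets
-/

set_option autoImplicit false

open Set Filter Topology
open scoped ContDiff

namespace Pool.Agent.Zk23.KKCrA

open Pool.Agent.Zk23.KKEquiv (E HasProg exists_digits AKC)
open Pool.Agent.Zk23.KKCr (map_of_data)

/-- powers and shears of a set of vectors modulo `p` -/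
theorem shear_set (p : ℕ) [Fact p.Prime] (k n₀ l d M h : ℕ) (e : Fin l × Fin n₀ ≃ Fin d ⊕ Fin M)
    (hh : 1 ≤ h) (A₀ : Finset (Fin n₀ → ZMod p))
    (hA₀ : ∀ ρ : Fin n₀ → ZMod p, ∃ a : Fin n₀ → ZMod p, ∀ t : ℕ, t < k → a + t • ρ ∈ A₀)
    (hcard : (A₀.card ^ l) ^ (h + 1) < p ^ (d * h)) :
    ∃ A : Finset ((Fin d → ZMod p) × (Fin M → ZMod p)),
      (∀ ρ : (Fin d → ZMod p) × (Fin M → ZMod p), ∃ a : (Fin d → ZMod p) × (Fin M → ZMod p),
        ∀ t : ℕ, t < k → a + t • ρ ∈ A) ∧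
      ∀ c : Fin d → ZMod p, (A.filter (fun x => x.1 = c)).card ≤ p ^ (h - 1) := by
  classical
  let F : (Fin l → Fin n₀ → ZMod p) → (Fin d → ZMod p) × (Fin M → ZMod p) := fun y =>
    (fun i => y (e.symm (Sum.inl i)).1 (e.symm (Sum.inl i)).2,
      fun i => y (e.symm (Sum.inr i)).1 (e.symm (Sum.inr i)).2)
  set A₁ : Finset ((Fin d → ZMod p) × (Fin M → ZMod p)) :=
    (Fintype.piFinset (fun _ : Fin l => A₀)).image F with hA₁
  have hc1 : A₁.card ≤ A₀.card ^ l := by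
    refine Finset.card_image_le.trans ?_
    rw [Fintype.card_piFinset]
    simp
  have hc2 : A₁.card ^ (h + 1) < p ^ (d * h) := lt_of_le_of_lt (Nat.pow_le_pow_left hc1 _) hcard
  have hprog : ∀ ρ : (Fin d → ZMod p) × (Fin M → ZMod p), ∃ a : (Fin d → ZMod p) × (Fin M → ZMod p),
      ∀ t : ℕ, t < k → a + t • ρ ∈ A₁ := by
    intro ρ
    choose α hα using fun q : Fin l => hA₀ (fun i => Sum.elim ρ.1 ρ.2 (e (q, i)))
    refine ⟨F α, fun t ht => ?_⟩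
    rw [hA₁, Finset.mem_image]
    refine ⟨fun q => α q + t • fun i => Sum.elim ρ.1 ρ.2 (e (q, i)), ?_, ?_⟩
    · rw [Fintype.mem_piFinset]
      exact fun q => hα q t ht
    · ext i
      · simp [F]
      · simp [F]
  obtain ⟨L, hL⟩ := Pool.Agent.Zk85.Shear.exists_shear p d M h hh A₁ hc2
  refine ⟨A₁.image (fun x => (x.1 + L x.2, x.2)), ?_, ?_⟩
  · intro ρ
    obtain ⟨a, ha⟩ := hprog (ρ.1 - L ρ.2, ρ.2)
    refine ⟨(a.1 + L a.2, a.2), fun t ht => ?_⟩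
    rw [Finset.mem_image]
    refine ⟨_, ha t ht, ?_⟩
    refine Prod.ext ?_ ?_
    · simp only [Prod.fst_add, Prod.smul_mk, Prod.snd_add, Prod.smul_fst, map_add, map_nsmul, smul_sub]
      abel
    · simp
  · intro c
    refine le_trans ?_ (hL c)
    refine le_trans (Finset.card_le_card ?_)
      (Finset.card_image_le (s := A₁.filter (fun x => x.1 + L x.2 = c))
        (f := fun x => (x.1 + L x.2, x.2)))
    intro y hy
    rw [Finset.mem_filter, Finset.mem_image] at hy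
    obtain ⟨⟨x, hx, rfl⟩, hy⟩ := hy
    rw [Finset.mem_image]
    exact ⟨x, Finset.mem_filter.2 ⟨hx, hy⟩, rfl⟩

/-- reduction modulo `p` -/
theorem reduce_set (p : ℕ) [Fact p.Prime] (k n₀ : ℕ) (A : Finset (Fin n₀ → ℤ))
    (hA : ∀ v : Fin n₀ → ℕ, (∀ i, v i < p) → ∃ α : Fin n₀ → ℤ, ∀ j : ℕ, j < k →
      (fun i => α i + (j : ℤ) * (v i : ℤ)) ∈ A) :
    ∃ A₀ : Finset (Fin n₀ → ZMod p), A₀.card ≤ A.card ∧
      ∀ ρ : Fin n₀ → ZMod p, ∃ a : Fin n₀ → ZMod p, ∀ t : ℕ, t < k → a + t • ρ ∈ A₀ := by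
  classical
  have hp : p ≠ 0 := (Fact.out : p.Prime).ne_zero
  haveI : NeZero p := ⟨hp⟩
  refine ⟨A.image (fun α i => (α i : ZMod p)), Finset.card_image_le, fun ρ => ?_⟩
  obtain ⟨α, hα⟩ := hA (fun i => (ρ i).val) (fun i => ZMod.val_lt _)
  refine ⟨fun i => (α i : ZMod p), fun t ht => ?_⟩
  rw [Finset.mem_image]
  refine ⟨_, hα t ht, ?_⟩
  ext i
  simp

/-- **From a finite set to a map of class `C^r`** -/
theorem finite_to_map (p : ℕ) (hp : p.Prime) (k n₀ l d s h r : ℕ) (hk : 1 ≤ k) (hh : 1 ≤ h)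
    (hm : l * n₀ = d + s * (r + 1)) (A : Finset (Fin n₀ → ℤ))
    (hA : ∀ v : Fin n₀ → ℕ, (∀ i, v i < p) → ∃ α : Fin n₀ → ℤ, ∀ j : ℕ, j < k →
      (fun i => α i + (j : ℤ) * (v i : ℤ)) ∈ A)
    (hcard : (A.card ^ l) ^ (h + 1) < p ^ (d * h))
    (hlarge : (2 * k + 3) ^ d * p ^ (h - 1) * k ^ (d + s * (r + 1)) + 1 ≤ (p / (k + 2)) ^ h) :
    ∃ g : E (d + h) → E (d + s), ContDiff ℝ r g ∧
      HasProg k (g '' {x | ∀ i, x i ∈ Icc (0 : ℝ) 1}) := by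
  haveI : Fact p.Prime := ⟨hp⟩
  obtain ⟨A₀, h1, h2⟩ := reduce_set p k n₀ A hA
  let e : Fin l × Fin n₀ ≃ Fin d ⊕ Fin (s * (r + 1)) :=
    finProdFinEquiv.trans ((finCongr hm).trans finSumFinEquiv.symm)
  obtain ⟨A', h3, h4⟩ := shear_set p k n₀ l d (s * (r + 1)) h e hh A₀ h2
    (lt_of_le_of_lt (Nat.pow_le_pow_left (Nat.pow_le_pow_left h1 _) _) hcard)
  obtain ⟨ι, hι, u, v, c, hu, hv, hc, hsep, hprog⟩ :=
    Pool.Agent.Zk9.KK.exists_lift p k d (s * (r + 1)) h hp hk hh A' h3 h4 hlarge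
  exact map_of_data p k d s h r hp.two_le hk u v c hu hv hc hsep hprog

end Pool.Agent.Zk23.KKCrA
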