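import Pool.Agent.Zk23.KKCrA

/-!
# The arithmetic Kakeya conjecture is equivalent to its version for `C^r` images
-/

set_option autoImplicit false

open Set Filter Topology
open scoped ContDiff

namespace Pool.Agent.Zk23.KKCrB

open Pool.Agent.Zk23.KKEquiv (E HasProg AKC HasProg.mono)
open Pool.Agent.Zk23.KKCrA (finite_to_map)
open Pool.Agent.Zk72.KakDisc (discretise)

/-- `B` is covered by at most `p^(τ n)` balls of radius `1/p`, for all large `p` -/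
def SmallCover {n : ℕ} (τ : ℝ) (B : Set (E n)) : Prop :=
  ∀ᶠ p : ℕ in atTop, ∃ S : Finset (E n), B ⊆ (⋃ x ∈ S, Metric.ball x (1 / (p : ℝ))) ∧
    (S.card : ℝ) ≤ (p : ℝ) ^ (τ * n)

/-- the number of colours is large enough -/
theorem large_p (k d M h : ℕ) (hh : 1 ≤ h) : ∀ᶠ p : ℕ in atTop,
    (2 * k + 3) ^ d * p ^ (h - 1) * k ^ (d + M) + 1 ≤ (p / (k + 2)) ^ h := by
  set C : ℕ := (2 * k + 3) ^ d * k ^ (d + M) with hC
  filter_upwards [eventually_ge_atTop (max (2 * (k + 2)) ((2 * (k + 2)) ^ h * (C + 1)))] with p hp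
  have h1 : 2 * (k + 2) ≤ p := (le_max_left _ _).trans hp
  have h2 : (2 * (k + 2)) ^ h * (C + 1) ≤ p := (le_max_right _ _).trans hp
  have h3 : p ≤ 2 * (k + 2) * (p / (k + 2)) := by
    have h4 := Nat.div_add_mod p (k + 2)
    have h5 := Nat.mod_lt p (by omega : 0 < k + 2)
    have h6 : 1 ≤ p / (k + 2) := by
      rw [Nat.one_le_div_iff (by omega)]
      omega
    nlinarith
  have h4 : p ^ h ≤ (2 * (k + 2)) ^ h * (p / (k + 2)) ^ h := by
    rw [← mul_pow]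
    exact Nat.pow_le_pow_left h3 h
  have h5 : (2 * (k + 2)) ^ h * ((C + 1) * p ^ (h - 1)) ≤ p ^ h := by
    obtain ⟨h', rfl⟩ : ∃ h', h = h' + 1 := ⟨h - 1, by omega⟩
    calc (2 * (k + 2)) ^ (h' + 1) * ((C + 1) * p ^ (h' + 1 - 1))
        = ((2 * (k + 2)) ^ (h' + 1) * (C + 1)) * p ^ h' := by
          rw [Nat.add_sub_cancel]; ring
      _ ≤ p * p ^ h' := Nat.mul_le_mul_right _ h2
      _ = p ^ (h' + 1) := by rw [pow_succ']
  have h6 : (C + 1) * p ^ (h - 1) ≤ (p / (k + 2)) ^ h :=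
    Nat.le_of_mul_le_mul_left (h5.trans h4) (by positivity)
  have h7 : 1 ≤ p ^ (h - 1) := Nat.one_le_pow _ _ (by omega)
  calc (2 * k + 3) ^ d * p ^ (h - 1) * k ^ (d + M) + 1 = C * p ^ (h - 1) + 1 := by rw [hC]; ring
    _ ≤ C * p ^ (h - 1) + p ^ (h - 1) := by omega
    _ = (C + 1) * p ^ (h - 1) := by ring
    _ ≤ _ := h6

theorem uniform (r n₀ : ℕ) (hn₀ : 1 ≤ n₀) (τ σ : ℝ) (hτ0 : 0 ≤ τ) (hτ1 : τ < 1)
    (hσ : (r + 1) * τ / (1 + r * τ) < σ) :
    ∃ n d : ℕ, 1 ≤ n ∧ (d : ℝ) < σ * n ∧ ∀ k : ℕ, 1 ≤ k → ∀ B : Set (E n₀), HasProg k B →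
      SmallCover τ B → ∃ g : E d → E n, ContDiff ℝ r g ∧
        HasProg k (g '' {x | ∀ i, x i ∈ Icc (0 : ℝ) 1}) := by
  -- the exponent `τ₂`
  have hr0 : (0 : ℝ) ≤ r := Nat.cast_nonneg _
  have hcont : ContinuousAt (fun x : ℝ => (r + 1) * x / (1 + r * x)) τ := by
    apply ContinuousAt.div
    · fun_prop
    · fun_prop
    · positivity
  have hev : ∀ᶠ x in 𝓝[>] τ, (r + 1) * x / (1 + r * x) < σ ∧ x < 1 :=
    (((hcont.eventually (gt_mem_nhds hσ)).and (gt_mem_nhds hτ1)).filter_mono nhdsWithin_le_nhds)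
  obtain ⟨τ₂, ⟨hτ₂σ, hτ₂1⟩, hττ₂⟩ := (hev.and self_mem_nhdsWithin).exists
  have hττ₂ : τ < τ₂ := hττ₂
  obtain ⟨τ₁, hττ₁, hτ₁τ₂⟩ := exists_between hττ₂
  have hτ₁0 : 0 < τ₁ := lt_of_le_of_lt hτ0 hττ₁
  have hτ₂0 : 0 < τ₂ := hτ₁0.trans hτ₁τ₂
  obtain ⟨h, hh⟩ := exists_nat_gt (max 1 (τ₁ / (τ₂ - τ₁)))
  have hh1 : (1 : ℝ) < h := lt_of_le_of_lt (le_max_left _ _) hh
  have hh1' : 1 ≤ h := by
    have : 1 < h := by exact_mod_cast hh1
    omega
  have hh2 : (h + 1) * τ₁ < h * τ₂ := by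
    have := lt_of_le_of_lt (le_max_right _ _) hh
    rw [div_lt_iff₀ (by linarith)] at this
    linarith
  have hden : (0 : ℝ) < 1 + r * τ₂ := by positivity
  rw [div_lt_iff₀ hden] at hτ₂σ
  obtain ⟨q, hq⟩ := exists_nat_gt (max 1 ((r + 1 + h) / (σ * (1 + r * τ₂) - (r + 1) * τ₂)))
  have hgap : 0 < σ * (1 + r * τ₂) - (r + 1) * τ₂ := by linarith
  have hq1 : (1 : ℝ) < q := lt_of_le_of_lt (le_max_left _ _) hq
  have hq2 : (r + 1 + h : ℝ) < q * (σ * (1 + r * τ₂) - (r + 1) * τ₂) := by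
    have := lt_of_le_of_lt (le_max_right _ _) hq
    rwa [div_lt_iff₀ hgap] at this
  have hn₀r : (1 : ℝ) ≤ n₀ := by exact_mod_cast hn₀
  set l : ℕ := (r + 1) * q with hl
  set s : ℕ := ⌊(1 - τ₂) * (q * n₀)⌋₊ with hs
  have hqn : (0 : ℝ) < q * n₀ := by positivity
  have hs1 : (s : ℝ) ≤ (1 - τ₂) * (q * n₀) := Nat.floor_le (mul_nonneg (by linarith) hqn.le)
  have hs2 : (1 - τ₂) * (q * n₀) < s + 1 := Nat.lt_floor_add_one _
  have hsle : s ≤ q * n₀ := by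
    have : (s : ℝ) ≤ ((q * n₀ : ℕ) : ℝ) := by
      push_cast
      nlinarith
    exact_mod_cast this
  obtain ⟨d, hd⟩ : ∃ d : ℕ, l * n₀ = d + s * (r + 1) := by
    refine ⟨l * n₀ - s * (r + 1), ?_⟩
    have : s * (r + 1) ≤ l * n₀ := by
      rw [hl]
      calc s * (r + 1) ≤ (q * n₀) * (r + 1) := Nat.mul_le_mul_right _ hsle
        _ = (r + 1) * q * n₀ := by ring
    omega
  have hdR : (d : ℝ) = (r + 1) * (q * n₀) - s * (r + 1) := by
    have : ((l * n₀ : ℕ) : ℝ) = ((d + s * (r + 1) : ℕ) : ℝ) := by rw [hd]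
    rw [hl] at this
    push_cast at this
    linarith
  have hd1 : τ₂ * ((r + 1) * (q * n₀)) ≤ d := by
    rw [hdR]
    nlinarith
  have hd2 : (d : ℝ) ≤ (r + 1) * τ₂ * (q * n₀) + (r + 1) := by
    rw [hdR]
    nlinarith
  have hn1 : (1 + r * τ₂) * (q * n₀) ≤ d + s := by
    rw [hdR]
    nlinarith
  have hσ0 : 0 < σ := by
    by_contra hcon
    push Not at hcon
    nlinarith [mul_nonneg (by positivity : (0 : ℝ) ≤ r + 1) hτ₂0.le]
  have hratio : ((d + h : ℕ) : ℝ) < σ * ((d + s : ℕ) : ℝ) := by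
    push_cast
    have h1 : σ * ((1 + r * τ₂) * (q * n₀)) ≤ σ * (d + s) := mul_le_mul_of_nonneg_left hn1 hσ0.le
    have h2 : (r + 1 + h : ℝ) < (q * n₀) * (σ * (1 + r * τ₂) - (r + 1) * τ₂) := by
      refine lt_of_lt_of_le hq2 ?_
      apply mul_le_mul_of_nonneg_right _ hgap.le
      nlinarith
    nlinarith
  refine ⟨d + s, d + h, ?_, hratio, ?_⟩
  · have : (0 : ℝ) < d + s := lt_of_lt_of_le (by positivity) hn1
    have : 0 < d + s := by exact_mod_cast this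
    omega
  intro k hk B hB hcov
  -- the prime
  have hev1 : ∀ᶠ p : ℕ in atTop, (3 ^ n₀ : ℝ) ≤ (p : ℝ) ^ ((τ₁ - τ) * n₀) := by
    have h1 : Tendsto (fun p : ℕ => (p : ℝ) ^ ((τ₁ - τ) * n₀)) atTop atTop :=
      (tendsto_rpow_atTop (mul_pos (by linarith) (by positivity))).comp tendsto_natCast_atTop_atTop
    exact h1.eventually_ge_atTop _
  obtain ⟨P, hP⟩ := (hcov.and (hev1.and (large_p k d (s * (r + 1)) h hh1'))).exists_forall_of_atTop
  obtain ⟨p, hpP, hp⟩ := Nat.exists_infinite_primes P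
  obtain ⟨⟨S, hS1, hS2⟩, h3, hlarge⟩ := hP p hpP
  have hp0 : (0 : ℝ) < p := by exact_mod_cast hp.pos
  have hp1 : (1 : ℝ) < p := by exact_mod_cast hp.one_lt
  obtain ⟨A, hA1, hA2⟩ := discretise n₀ k p hp.one_lt.le B hB S hS1
  refine finite_to_map p hp k n₀ l d s h r hk hh1' hd A hA2 ?_ hlarge
  have hAr : (A.card : ℝ) ≤ (p : ℝ) ^ (τ₁ * n₀) := by
    calc (A.card : ℝ) ≤ 3 ^ n₀ * S.card := by exact_mod_cast hA1
      _ ≤ (p : ℝ) ^ ((τ₁ - τ) * n₀) * (p : ℝ) ^ (τ * n₀) := by gcongr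
      _ = (p : ℝ) ^ (τ₁ * n₀) := by
          rw [← Real.rpow_add hp0]
          congr 1
          ring
  have hfin : (((A.card ^ l) ^ (h + 1) : ℕ) : ℝ) < ((p ^ (d * h) : ℕ) : ℝ) := by
    push_cast
    calc ((A.card : ℝ) ^ l) ^ (h + 1) ≤ (((p : ℝ) ^ (τ₁ * n₀)) ^ l) ^ (h + 1) := by gcongr
      _ = (p : ℝ) ^ (τ₁ * n₀ * l * ((h + 1 : ℕ) : ℝ)) := by
          rw [← Real.rpow_natCast, ← Real.rpow_natCast, ← Real.rpow_mul hp0.le,
            ← Real.rpow_mul hp0.le]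
      _ < (p : ℝ) ^ (((d * h : ℕ) : ℝ)) := by
          apply Real.rpow_lt_rpow_of_exponent_lt hp1
          rw [hl]
          push_cast
          have h4 : τ₂ * ((r + 1) * (q * n₀)) * h ≤ d * h := mul_le_mul_of_nonneg_right hd1 (by positivity)
          have h5 : ((h + 1) * τ₁) * ((r + 1) * (q * n₀)) < (h * τ₂) * ((r + 1) * (q * n₀)) :=
            mul_lt_mul_of_pos_right hh2 (by positivity)
          nlinarith
      _ = (p : ℝ) ^ (d * h) := by rw [Real.rpow_natCast]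
  exact_mod_cast hfin

/-- The version for `C^r` images of cubes of dimension `n - 1`. -/
def CrAKC (r : ℕ) : Prop := ∀ n : ℕ, 1 ≤ n → ∃ k : ℕ, ∀ g : E (n - 1) → E n, ContDiff ℝ r g →
  ¬ HasProg k (g '' {x | ∀ i, x i ∈ Icc (0 : ℝ) 1})

/-- more variables -/
theorem more_variables {d d' n k r : ℕ} (hd : d ≤ d') (g : E d → E n) (hg : ContDiff ℝ r g)
    (hP : HasProg k (g '' {x | ∀ i, x i ∈ Icc (0 : ℝ) 1})) :
    ∃ g' : E d' → E n, ContDiff ℝ r g' ∧ HasProg k (g' '' {x | ∀ i, x i ∈ Icc (0 : ℝ) 1}) := by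
  classical
  let L : E d' → E d := fun x => WithLp.toLp 2 fun i => x (Fin.castLE hd i)
  have hL : ContDiff ℝ r L := by
    rw [contDiff_euclidean]
    intro i
    exact (EuclideanSpace.proj (Fin.castLE hd i) : E d' →L[ℝ] ℝ).contDiff
  refine ⟨fun x => g (L x), hg.comp hL, ?_⟩
  intro R hR
  obtain ⟨a, ha⟩ := hP R hR
  refine ⟨a, fun j hj => ?_⟩
  obtain ⟨x, hx, hxa⟩ := ha j hj
  refine ⟨WithLp.toLp 2 fun i : Fin d' => if h : (i : ℕ) < d then x ⟨i, h⟩ else 0, ?_, ?_⟩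
  · intro i
    simp only
    split_ifs with h
    · exact hx _
    · exact ⟨le_rfl, zero_le_one⟩
  · rw [← hxa]
    simp only
    congr 1
    ext i
    simp only [L]
    have : ((Fin.castLE hd i : Fin d') : ℕ) < d := i.2
    rw [dif_pos this]
    rfl

theorem forward (r : ℕ) (hr : 1 ≤ r) (h : AKC) : CrAKC r := by
  intro n hn
  obtain ⟨k, hk⟩ := Pool.Agent.Zk23.KKEquiv.forward h n hn
  exact ⟨k, fun g hg => hk g (hg.of_le (by exact_mod_cast hr))⟩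

theorem backward (r : ℕ) (h : CrAKC r) : AKC := by
  by_contra hcon
  unfold AKC at hcon
  push Not at hcon
  obtain ⟨n₀, ε, hε, hcon⟩ := hcon
  -- the dimension is positive
  have hn₀ : 1 ≤ n₀ := by
    by_contra hn
    obtain rfl : n₀ = 0 := by omega
    obtain ⟨B, hB, δ₀, hδ₀, hδ⟩ := hcon 1
    obtain ⟨S, hS1, hS2⟩ := hδ (min δ₀ 1 / 2) (by positivity) (by
      have := min_le_left δ₀ 1
      linarith [lt_min hδ₀ one_pos])
    obtain ⟨a, ha⟩ := hB 0 (fun i => i.elim0)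
    have hne : S.Nonempty := by
      by_contra hS
      rw [Finset.not_nonempty_iff_eq_empty] at hS
      subst hS
      simpa using hS1 (ha 0 one_pos)
    have h1 : (1 : ℝ) ≤ S.card := by exact_mod_cast hne.card_pos
    have h2 : (min δ₀ 1 / 2) ^ (-(((0 : ℕ) : ℝ) - ε)) ≤ 1 := by
      apply Real.rpow_le_one (by positivity) _ (by simp; exact hε.le)
      have := min_le_right δ₀ 1
      linarith
    linarith
  have hn₀r : (0 : ℝ) < n₀ := by exact_mod_cast hn₀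
  set τ : ℝ := max 0 (1 - ε / n₀) with hτ
  have hτ1 : τ < 1 := max_lt one_pos (by
    have : 0 < ε / n₀ := by positivity
    linarith)
  have hτ0 : 0 ≤ τ := le_max_left _ _
  obtain ⟨n, d, hn, hd, H⟩ := uniform r n₀ hn₀ τ 1 hτ0 hτ1 (by
    rw [div_lt_one (by positivity)]
    nlinarith)
  rw [one_mul] at hd
  have hd' : d ≤ n - 1 := by
    have : d < n := by exact_mod_cast hd
    omega
  obtain ⟨k₁, hk₁⟩ := h n hn
  set k := max k₁ 1 with hk
  obtain ⟨B, hB, δ₀, hδ₀, hδ⟩ := hcon k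
  have hcov : SmallCover τ B := by
    obtain ⟨P, hP⟩ := exists_nat_gt (max 1 (1 / δ₀))
    filter_upwards [eventually_ge_atTop P] with p hp
    have hpR : (P : ℝ) ≤ p := by exact_mod_cast hp
    have hp1 : (1 : ℝ) < p := lt_of_lt_of_le (lt_of_le_of_lt (le_max_left _ _) hP) hpR
    have hp2 : 1 / δ₀ < p := lt_of_lt_of_le (lt_of_le_of_lt (le_max_right _ _) hP) hpR
    have hp0 : (0 : ℝ) < p := by linarith
    obtain ⟨S, hS1, hS2⟩ := hδ (1 / (p : ℝ)) (by positivity) (by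
      rw [div_lt_comm₀ hp0 hδ₀]
      exact hp2)
    refine ⟨S, hS1, hS2.le.trans ?_⟩
    have h4 : (1 / (p : ℝ)) ^ (-((n₀ : ℝ) - ε)) = (p : ℝ) ^ ((n₀ : ℝ) - ε) := by
      rw [one_div, Real.inv_rpow hp0.le, Real.rpow_neg hp0.le, inv_inv]
    rw [h4]
    apply Real.rpow_le_rpow_of_exponent_le hp1.le
    have h5 : (1 - ε / n₀) * n₀ ≤ τ * n₀ := mul_le_mul_of_nonneg_right (le_max_right _ _) hn₀r.le
    have h6 : (1 - ε / n₀) * n₀ = n₀ - ε := by field_simp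
    linarith
  obtain ⟨g, hg, hP⟩ := H k (le_max_right _ _) B hB hcov
  obtain ⟨g', hg', hP'⟩ := more_variables hd' g hg hP
  exact hk₁ g' hg' (hP'.mono (le_max_left _ _))

theorem equiv (r : ℕ) (hr : 1 ≤ r) : AKC ↔ CrAKC r := ⟨forward r hr, backward r⟩

end Pool.Agent.Zk23.KKCrB
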