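import Pool.Agent.Zk72.KakDisc
import Pool.Agent.Zk72.KakCov1
import Pool.Agent.Zk25.KakCode

/-!
# The arithmetic Kakeya conjecture is equivalent to its version for `C^1` images
-/

set_option autoImplicit false

open Set Filter Topology
open scoped ContDiff

namespace Pool.Agent.Zk23.KKEquiv

open Pool.Agent.Zk25.KakCode (c1_code)
open Pool.Agent.Zk72.KakDisc (discretise)
open Pool.Agent.Zk72.KakCov1 (c1_cover)

abbrev E (n : ℕ) := EuclideanSpace ℝ (Fin n)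

/-- `B` contains a `k`-term progression with every common difference in `[0,1]^n`. -/
def HasProg {n : ℕ} (k : ℕ) (B : Set (E n)) : Prop :=
  ∀ r : E n, (∀ i, r i ∈ Icc (0 : ℝ) 1) → ∃ a : E n, ∀ j : ℕ, j < k → a + (j : ℝ) • r ∈ B

theorem HasProg.mono {n k k' : ℕ} {B : Set (E n)} (h : HasProg k B) (hk : k' ≤ k) : HasProg k' B := by
  intro r hr
  obtain ⟨a, ha⟩ := h r hr
  exact ⟨a, fun j hj => ha j (lt_of_lt_of_le hj hk)⟩

/-- digits in base `N` of a number of `[0,1]` -/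
theorem exists_digits {N : ℕ} (hN : 2 ≤ N) {x : ℝ} (hx : x ∈ Icc (0 : ℝ) 1) :
    ∃ v : ℕ → ℕ, (∀ J, v J < N) ∧ HasSum (fun J => (v J : ℝ) / (N : ℝ) ^ (J + 1)) x := by
  haveI : NeZero N := ⟨by omega⟩
  have hN0 : (0 : ℝ) < N := by
    have : 0 < N := by omega
    exact_mod_cast this
  rcases eq_or_lt_of_le hx.2 with h | h
  · refine ⟨fun _ => N - 1, fun _ => Nat.sub_lt (by omega) one_pos, ?_⟩
    have hN1 : (1 : ℝ) < N := by
      have : 1 < N := by omega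
      exact_mod_cast this
    have h1 : HasSum (fun J : ℕ => ((N : ℝ)⁻¹) ^ J) (1 - (N : ℝ)⁻¹)⁻¹ :=
      hasSum_geometric_of_lt_one (by positivity) (inv_lt_one_of_one_lt₀ hN1)
    have h2 := h1.mul_left (((N : ℝ) - 1) * (N : ℝ)⁻¹)
    have h3 : ((N : ℝ) - 1) * (N : ℝ)⁻¹ * (1 - (N : ℝ)⁻¹)⁻¹ = x := by
      rw [h]
      have : (N : ℝ) - 1 ≠ 0 := by linarith
      field_simp
    rw [h3] at h2
    have h4 : ((N - 1 : ℕ) : ℝ) = (N : ℝ) - 1 := by
      rw [Nat.cast_sub (by omega)]; simp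
    have h5 : (fun J : ℕ => ((N - 1 : ℕ) : ℝ) / (N : ℝ) ^ (J + 1)) =
        fun J : ℕ => ((N : ℝ) - 1) * (N : ℝ)⁻¹ * (N : ℝ)⁻¹ ^ J := by
      ext J
      rw [h4, pow_succ, inv_pow]
      field_simp
    rw [h5]
    exact h2
  · refine ⟨fun J => Real.digits x N J, fun J => (Real.digits x N J).2, ?_⟩
    have h1 := Real.hasSum_ofDigitsTerm_digits x (b := N) (by omega) ⟨hx.1, h⟩
    have h5 : (fun J : ℕ => ((Real.digits x N J : ℕ) : ℝ) / (N : ℝ) ^ (J + 1)) =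
        Real.ofDigitsTerm (Real.digits x N) := by
      ext J
      rw [Real.ofDigitsTerm, div_eq_mul_inv]
    change HasSum (fun J : ℕ => ((Real.digits x N J : ℕ) : ℝ) / (N : ℝ) ^ (J + 1)) x
    rw [h5]
    exact h1

/-- the coded set contains progressions -/
theorem code_prog {n k N : ℕ} (hk : 1 ≤ k) (hN : 2 ≤ N) (A : Finset (Fin n → ℤ))
    (hA : ∀ v : Fin n → ℕ, (∀ i, v i < N) → ∃ α : Fin n → ℤ, ∀ j : ℕ, j < k →
      (fun i => α i + (j : ℤ) * (v i : ℤ)) ∈ A) {X : Set (E n)}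
    (hX : ∀ α : ℕ → Fin n → ℤ, (∀ J, α J ∈ A) → ∃ y ∈ X,
      ∀ i, y i = ∑' J : ℕ, (α J i : ℝ) / (N : ℝ) ^ (J + 1)) : HasProg k X := by
  intro r hr
  choose v hv1 hv2 using fun i => exists_digits hN (hr i)
  choose α hα using fun J : ℕ => hA (fun i => v i J) (fun i => hv1 i J)
  have hN0 : (0 : ℝ) < N := by
    have : 0 < N := by omega
    exact_mod_cast this
  have hN1 : (1 : ℝ) < N := by
    have : 1 < N := by omega
    exact_mod_cast this
  -- the labels are bounded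
  have hbdd : ∀ i, ∃ C : ℝ, ∀ J, |(α J i : ℝ)| ≤ C := by
    intro i
    obtain ⟨C, hC⟩ := (A.image fun z => |((z i : ℤ) : ℝ)|).bddAbove
    refine ⟨C, fun J => hC ?_⟩
    have h1 := hα J 0 (by omega)
    simp only [Nat.cast_zero, zero_mul, add_zero] at h1
    rw [Finset.coe_image]
    exact ⟨_, h1, rfl⟩
  have hsum : ∀ i, Summable fun J : ℕ => (α J i : ℝ) / (N : ℝ) ^ (J + 1) := by
    intro i
    obtain ⟨C, hC⟩ := hbdd i
    have h1 : Summable fun J : ℕ => C * ((N : ℝ)⁻¹) ^ (J + 1) := by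
      have : Summable fun J : ℕ => ((N : ℝ)⁻¹) ^ J :=
        summable_geometric_of_lt_one (by positivity) (inv_lt_one_of_one_lt₀ hN1)
      exact ((summable_nat_add_iff 1).2 this).mul_left C
    refine Summable.of_norm_bounded h1 fun J => ?_
    rw [norm_div, norm_pow, Real.norm_eq_abs, Real.norm_eq_abs, abs_of_pos hN0, inv_pow,
      ← div_eq_mul_inv]
    gcongr
    exact hC J
  refine ⟨WithLp.toLp 2 fun i => ∑' J : ℕ, (α J i : ℝ) / (N : ℝ) ^ (J + 1), fun j hj => ?_⟩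
  obtain ⟨y, hyX, hy⟩ := hX (fun J i => α J i + (j : ℤ) * (v i J : ℤ)) (fun J => hα J j hj)
  have h1 : (WithLp.toLp 2 fun i => ∑' J : ℕ, (α J i : ℝ) / (N : ℝ) ^ (J + 1)) + (j : ℝ) • r = y := by
    ext i
    rw [hy]
    simp only [PiLp.add_apply, PiLp.smul_apply, smul_eq_mul]
    have h2 := (hsum i).hasSum.add ((hv2 i).mul_left (j : ℝ))
    rw [← h2.tsum_eq]
    congr 1
    ext J
    push_cast
    ring
  rw [h1]
  exact hyX

/-- powers of a set of integer vectors -/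
theorem power {n k N m : ℕ} (A : Finset (Fin n → ℤ))
    (hA : ∀ v : Fin n → ℕ, (∀ i, v i < N) → ∃ α : Fin n → ℤ, ∀ j : ℕ, j < k →
      (fun i => α i + (j : ℤ) * (v i : ℤ)) ∈ A) :
    ∃ A' : Finset (Fin (m * n) → ℤ), A'.card ≤ A.card ^ m ∧
      ∀ v : Fin (m * n) → ℕ, (∀ i, v i < N) → ∃ α : Fin (m * n) → ℤ, ∀ j : ℕ, j < k →
        (fun i => α i + (j : ℤ) * (v i : ℤ)) ∈ A' := by
  classical
  let e : Fin m × Fin n ≃ Fin (m * n) := finProdFinEquiv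
  refine ⟨(Fintype.piFinset (fun _ : Fin m => A)).image
    (fun w => fun i => w (e.symm i).1 (e.symm i).2), ?_, ?_⟩
  · refine Finset.card_image_le.trans ?_
    rw [Fintype.card_piFinset]
    simp
  · intro v hv
    choose α hα using fun q : Fin m => hA (fun i => v (e (q, i))) (fun i => hv _)
    refine ⟨fun i => α (e.symm i).1 (e.symm i).2, fun j hj => ?_⟩
    rw [Finset.mem_image]
    refine ⟨fun q i => α q i + (j : ℤ) * (v (e (q, i)) : ℤ), ?_, ?_⟩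
    · rw [Fintype.mem_piFinset]
      exact fun q => hα q j hj
    · ext i
      simp

/-- The arithmetic Kakeya conjecture (Q1). -/
def AKC : Prop := ∀ n : ℕ, ∀ ε : ℝ, 0 < ε → ∃ k : ℕ, ∀ B : Set (E n), HasProg k B →
  ∀ δ₀ : ℝ, 0 < δ₀ → ∃ δ : ℝ, 0 < δ ∧ δ < δ₀ ∧ ∀ S : Finset (E n),
    B ⊆ (⋃ x ∈ S, Metric.ball x δ) → δ ^ (-((n : ℝ) - ε)) ≤ (S.card : ℝ)

/-- The version for `C^1` images of cubes of dimension `n - 1`. -/
def C1AKC : Prop := ∀ n : ℕ, 1 ≤ n → ∃ k : ℕ, ∀ g : E (n - 1) → E n, ContDiff ℝ 1 g →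
  ¬ HasProg k (g '' {x | ∀ i, x i ∈ Icc (0 : ℝ) 1})

theorem forward (h : AKC) : C1AKC := by
  intro n hn
  obtain ⟨k, hk⟩ := h n (1 / 2) (by norm_num)
  refine ⟨k, fun g hg hP => ?_⟩
  obtain ⟨C, hC, hcov⟩ := c1_cover (n - 1) n g hg
  obtain ⟨δ, hδ0, hδ1, hδ2⟩ := hk _ hP (min 1 (1 / (C + 1) ^ 2)) (lt_min one_pos (by positivity))
  have hδ3 : δ < 1 := lt_of_lt_of_le hδ1 (min_le_left _ _)
  have hδ4 : δ < 1 / (C + 1) ^ 2 := lt_of_lt_of_le hδ1 (min_le_right _ _)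
  obtain ⟨S, hS1, hS2⟩ := hcov δ hδ0 hδ3
  have h1 := (hδ2 S hS1).trans hS2
  have h2 : ((n - 1 : ℕ) : ℝ) = (n : ℝ) - 1 := by rw [Nat.cast_sub hn]; simp
  rw [h2] at h1
  have h3 : δ ^ (-((n : ℝ) - 1 / 2)) = δ ^ (-(1 / 2 : ℝ)) * δ ^ (-((n : ℝ) - 1)) := by
    rw [← Real.rpow_add hδ0]
    congr 1
    ring
  rw [h3] at h1
  have h4 : 0 < δ ^ (-((n : ℝ) - 1)) := Real.rpow_pos_of_pos hδ0 _
  have h5 : δ ^ (-(1 / 2 : ℝ)) ≤ C := le_of_mul_le_mul_right h1 h4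
  have h6 : C + 1 ≤ δ ^ (-(1 / 2 : ℝ)) := by
    have h7 : (C + 1) ^ 2 < δ⁻¹ := by
      rw [lt_inv_comm₀ (by positivity) hδ0]
      rwa [one_div] at hδ4
    have h8 : C + 1 = ((C + 1) ^ 2) ^ (1 / 2 : ℝ) := by
      rw [← Real.sqrt_eq_rpow, Real.sqrt_sq (by positivity)]
    rw [h8, Real.rpow_neg hδ0.le, ← Real.inv_rpow hδ0.le]
    exact Real.rpow_le_rpow (by positivity) h7.le (by norm_num)
  linarith

theorem backward (h : C1AKC) : AKC := by
  by_contra hcon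
  unfold AKC at hcon
  push Not at hcon
  obtain ⟨n₀, ε, hε, hcon⟩ := hcon
  -- the dimension is positive
  have hn₀ : 1 ≤ n₀ := by
    by_contra hn
    obtain rfl : n₀ = 0 := by omega
    obtain ⟨B, hB, δ₀, hδ₀, hδ⟩ := hcon 1
    obtain ⟨S, hS1, hS2⟩ := hδ (min δ₀ 1 / 2) (by positivity) (by
      have := min_le_left δ₀ 1
      linarith [lt_min hδ₀ one_pos])
    obtain ⟨a, ha⟩ := hB 0 (fun i => i.elim0)
    have hne : S.Nonempty := by
      by_contra hS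
      rw [Finset.not_nonempty_iff_eq_empty] at hS
      subst hS
      simpa using hS1 (ha 0 one_pos)
    have h1 : (1 : ℝ) ≤ S.card := by exact_mod_cast hne.card_pos
    have h2 : (min δ₀ 1 / 2) ^ (-(((0 : ℕ) : ℝ) - ε)) ≤ 1 := by
      apply Real.rpow_le_one (by positivity) _ (by simp; exact hε.le)
      have := min_le_right δ₀ 1
      linarith
    linarith
  -- the power
  obtain ⟨m, hm⟩ := exists_nat_ge (max (4 / ε) 2)
  have hmε : 4 ≤ m * ε := by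
    have := (le_max_left _ _).trans hm
    rw [div_le_iff₀ hε] at this
    exact this
  have hm2 : 2 ≤ m := by
    have := (le_max_right _ _).trans hm
    exact_mod_cast this
  obtain ⟨k₁, hk₁⟩ := h (m * n₀) (Nat.mul_pos (by omega) hn₀)
  set k := max k₁ 1 with hk
  obtain ⟨B, hB, δ₀, hδ₀, hδ⟩ := hcon k
  have hn2 : 2 ≤ m * n₀ := by nlinarith
  obtain ⟨M, hM⟩ := exists_nat_ge (max (max 3 (1 / δ₀ + 1)) ((3 ^ n₀ : ℝ) ^ (2 / ε)))
  have hM3 : 3 ≤ M := by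
    have : (3 : ℝ) ≤ M := ((le_max_left _ _).trans (le_max_left _ _)).trans hM
    exact_mod_cast this
  have hMδ : 1 / δ₀ + 1 ≤ M := ((le_max_right _ _).trans (le_max_left _ _)).trans hM
  have hMε : (3 ^ n₀ : ℝ) ^ (2 / ε) ≤ M := (le_max_right _ _).trans hM
  have hM0 : (0 : ℝ) < M := by
    have : 0 < M := by omega
    exact_mod_cast this
  obtain ⟨n, hn⟩ : ∃ n, n = m * n₀ := ⟨_, rfl⟩
  rw [← hn] at hk₁ hn2
  set N := M ^ (n - 1) with hN
  have hMN : M ≤ N := by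
    rw [hN]
    exact Nat.le_self_pow (by omega) M
  have hN3 : 3 ≤ N := hM3.trans hMN
  have hMN' : (M : ℝ) ≤ N := by exact_mod_cast hMN
  have hN0 : (0 : ℝ) < N := lt_of_lt_of_le hM0 hMN'
  have hN1 : (1 : ℝ) ≤ N := by
    have : 1 ≤ N := by omega
    exact_mod_cast this
  obtain ⟨S, hS1, hS2⟩ := hδ (1 / (N : ℝ)) (by positivity) (by
    rw [div_lt_comm₀ hN0 hδ₀]
    linarith)
  obtain ⟨A, hA1, hA2⟩ := discretise n₀ k N (by omega) B hB S hS1
  have hpow := power (m := m) A hA2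
  rw [← hn] at hpow
  obtain ⟨A', hA'1, hA'2⟩ := hpow
  -- the size of `A'`
  have hAr : (A.card : ℝ) ≤ (N : ℝ) ^ ((n₀ : ℝ) - ε / 2) := by
    have h1 : (A.card : ℝ) ≤ 3 ^ n₀ * S.card := by exact_mod_cast hA1
    have h2 : (3 ^ n₀ : ℝ) ≤ (N : ℝ) ^ (ε / 2) := by
      have h3 : ((3 ^ n₀ : ℝ) ^ (2 / ε)) ^ (ε / 2) = 3 ^ n₀ := by
        rw [← Real.rpow_mul (by positivity)]
        have : 2 / ε * (ε / 2) = 1 := by field_simp
        rw [this, Real.rpow_one]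
      rw [← h3]
      exact Real.rpow_le_rpow (by positivity) (hMε.trans hMN') (by positivity)
    have h3 : (S.card : ℝ) ≤ (N : ℝ) ^ ((n₀ : ℝ) - ε) := by
      have h4 : (1 / (N : ℝ)) ^ (-((n₀ : ℝ) - ε)) = (N : ℝ) ^ ((n₀ : ℝ) - ε) := by
        rw [one_div, Real.inv_rpow hN0.le, Real.rpow_neg hN0.le, inv_inv]
      rw [h4] at hS2
      exact hS2.le
    calc (A.card : ℝ) ≤ 3 ^ n₀ * S.card := h1
      _ ≤ (N : ℝ) ^ (ε / 2) * (N : ℝ) ^ ((n₀ : ℝ) - ε) := by gcongr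
      _ = (N : ℝ) ^ ((n₀ : ℝ) - ε / 2) := by
          rw [← Real.rpow_add hN0]
          congr 1
          ring
  have hA'c : A'.card ≤ (M ^ (n - 2)) ^ (n - 1) := by
    have h1 : (A'.card : ℝ) ≤ ((M ^ (n - 2)) ^ (n - 1) : ℕ) := by
      calc (A'.card : ℝ) ≤ (A.card : ℝ) ^ m := by exact_mod_cast hA'1
        _ ≤ ((N : ℝ) ^ ((n₀ : ℝ) - ε / 2)) ^ m := by gcongr
        _ = (N : ℝ) ^ (((n₀ : ℝ) - ε / 2) * m) := by
            rw [← Real.rpow_natCast, ← Real.rpow_mul hN0.le]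
        _ ≤ (N : ℝ) ^ ((n - 2 : ℕ) : ℝ) := by
            apply Real.rpow_le_rpow_of_exponent_le hN1
            rw [Nat.cast_sub hn2, hn]
            push_cast
            linarith
        _ = ((M ^ (n - 2)) ^ (n - 1) : ℕ) := by
            rw [Real.rpow_natCast, hN]
            push_cast
            rw [← pow_mul, ← pow_mul, mul_comm]
    exact_mod_cast h1
  have h2c : 2 * M ^ (n - 2) < N := by
    have h1 : M ^ (n - 1) = M * M ^ (n - 2) := by
      rw [← pow_succ']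
      congr 1
      omega
    rw [hN, h1]
    have h2 : 0 < M ^ (n - 2) := Nat.pow_pos (by omega)
    exact Nat.mul_lt_mul_of_pos_right (by omega) h2
  obtain ⟨g, hg, hgα⟩ := c1_code (n - 1) n (M ^ (n - 2)) N (Nat.one_le_pow _ _ (by omega)) h2c A' hA'c
  refine hk₁ g hg ?_
  have hP : HasProg k (g '' {x | ∀ i, x i ∈ Icc (0 : ℝ) 1}) := by
    refine code_prog (le_max_right _ _) (by omega) A' hA'2 ?_
    intro α hα
    obtain ⟨x, hx, hx2⟩ := hgα α hα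
    exact ⟨g x, ⟨x, hx, rfl⟩, hx2⟩
  exact hP.mono (le_max_left _ _)

theorem equiv : AKC ↔ C1AKC := ⟨forward, backward⟩

end Pool.Agent.Zk23.KKEquiv
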