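import Pool.Agent.Zk23.KKSets

/-!
# Integer sets with separated first coordinates: sets of any size (after `Zk85/GoodEquiv`)
-/

set_option autoImplicit false

namespace Pool.Agent.Zk23.KKSetsR

section

open Finset Pool.Agent.Zk85.GoodEquiv

/-- G1a: a linear change of coordinates with few conflicts -/
theorem exists_good_equiv (q : ℕ) [Fact q.Prime] (d R S k : ℕ)
    (A : Finset ((Fin d → ZMod q) × (Fin R → ZMod q)))
    (a : (Fin d → ZMod q) × (Fin R → ZMod q) → (Fin d → ZMod q) × (Fin R → ZMod q))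
    (D : Finset (Fin d → ZMod q)) :
    ∃ T : ((Fin d → ZMod q) × (Fin R → ZMod q)) ≃ₗ[ZMod q] ((Fin d → ZMod q) × (Fin R → ZMod q)),
      {ρ | ∃ t < k, ∃ v ∈ A, v ≠ a ρ + t • ρ ∧ ∃ c ∈ D,
        ∀ i, |((T (a ρ + t • ρ - v)).1 i + c i).valMinAbs| ≤ (S : ℤ)}.ncard ≤
        2 * k * D.card * (2 * S + 1) ^ d * (A.card * q ^ R) := by
  classical
  have hq : 0 < q := (Fact.out : q.Prime).pos
  set M : ℕ := 2 * k * D.card * (2 * S + 1) ^ d * (A.card * q ^ R) with hM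
  set P : (XX q d R ≃ₗ[ZMod q] XX q d R) → (XX q d R × ℕ × XX q d R × (Fin d → ZMod q)) → Prop :=
    fun T x => x.2.2.1 ≠ a x.1 + x.2.1 • x.1 ∧
      ∀ i, |((T (a x.1 + x.2.1 • x.1 - x.2.2.1)).1 i + x.2.2.2 i).valMinAbs| ≤ (S : ℤ) with hP
  set I : Finset (XX q d R × ℕ × XX q d R × (Fin d → ZMod q)) :=
    univ ×ˢ (range k ×ˢ (A ×ˢ D)) with hI
  have hIc : I.card = q ^ (d + R) * (k * (A.card * D.card)) := by
    rw [hI, card_product, card_product, card_product, card_univ, card_XX, card_range]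
  -- each set is bounded by a sum
  have h1 : ∀ T : XX q d R ≃ₗ[ZMod q] XX q d R,
      {ρ | ∃ t < k, ∃ v ∈ A, v ≠ a ρ + t • ρ ∧ ∃ c ∈ D,
        ∀ i, |((T (a ρ + t • ρ - v)).1 i + c i).valMinAbs| ≤ (S : ℤ)}.ncard ≤
        (I.filter (fun x => P T x)).card := by
    intro T
    have h2 : {ρ | ∃ t < k, ∃ v ∈ A, v ≠ a ρ + t • ρ ∧ ∃ c ∈ D,
        ∀ i, |((T (a ρ + t • ρ - v)).1 i + c i).valMinAbs| ≤ (S : ℤ)} ⊆
        (((I.filter (fun x => P T x)).image (fun x => x.1) : Finset (XX q d R)) :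
          Set (XX q d R)) := by
      rintro ρ ⟨t, ht, v, hv, hne, c, hc, h⟩
      rw [mem_coe, mem_image]
      refine ⟨(ρ, t, v, c), ?_, rfl⟩
      rw [mem_filter, hI, mem_product, mem_product, mem_product, mem_range]
      exact ⟨⟨mem_univ _, ht, hv, hc⟩, hne, h⟩
    refine (Set.ncard_le_ncard h2 (finite_toSet _)).trans ?_
    rw [Set.ncard_coe_finset]
    exact card_image_le
  by_contra hcon
  push Not at hcon
  have h2 : ∀ T : XX q d R ≃ₗ[ZMod q] XX q d R, M + 1 ≤ (I.filter (fun x => P T x)).card :=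
    fun T => Nat.succ_le_of_lt ((hcon T).trans_le (h1 T))
  have h3 : Fintype.card (XX q d R ≃ₗ[ZMod q] XX q d R) * (M + 1) ≤
      ∑ T : XX q d R ≃ₗ[ZMod q] XX q d R, (I.filter (fun x => P T x)).card := by
    rw [← card_univ, ← smul_eq_mul, ← sum_const]
    exact sum_le_sum fun T _ => h2 T
  have h4 : ∑ T : XX q d R ≃ₗ[ZMod q] XX q d R, (I.filter (fun x => P T x)).card =
      ∑ x ∈ I, (univ.filter (fun T : XX q d R ≃ₗ[ZMod q] XX q d R => P T x)).card := by
    simp only [card_filter]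
    exact sum_comm
  have h5 : ∀ x ∈ I, q ^ (d + R) *
      (univ.filter (fun T : XX q d R ≃ₗ[ZMod q] XX q d R => P T x)).card ≤
      2 * Fintype.card (XX q d R ≃ₗ[ZMod q] XX q d R) * ((2 * S + 1) ^ d * q ^ R) := by
    intro x _
    by_cases hx : x.2.2.1 = a x.1 + x.2.1 • x.1
    · have : (univ.filter (fun T : XX q d R ≃ₗ[ZMod q] XX q d R => P T x)) = ∅ := by
        apply filter_false_of_mem
        intro T _ h
        exact h.1 hx
      rw [this]
      simp
    · refine le_trans (Nat.mul_le_mul_left _ (card_le_card ?_))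
        (count_box q d R S x.2.2.2 (a x.1 + x.2.1 • x.1 - x.2.2.1)
          (fun h => hx (sub_eq_zero.1 h).symm))
      intro T hT
      rw [mem_filter] at hT ⊢
      exact ⟨mem_univ _, hT.2.2⟩
  have h6 : q ^ (d + R) * (Fintype.card (XX q d R ≃ₗ[ZMod q] XX q d R) * (M + 1)) ≤
      (q ^ (d + R) * (k * (A.card * D.card))) *
        (2 * Fintype.card (XX q d R ≃ₗ[ZMod q] XX q d R) * ((2 * S + 1) ^ d * q ^ R)) := by
    calc q ^ (d + R) * (Fintype.card (XX q d R ≃ₗ[ZMod q] XX q d R) * (M + 1))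
        ≤ q ^ (d + R) *
          ∑ x ∈ I, (univ.filter (fun T : XX q d R ≃ₗ[ZMod q] XX q d R => P T x)).card := by
          rw [← h4]; exact Nat.mul_le_mul_left _ h3
      _ = ∑ x ∈ I, q ^ (d + R) *
          (univ.filter (fun T : XX q d R ≃ₗ[ZMod q] XX q d R => P T x)).card := by rw [mul_sum]
      _ ≤ ∑ _x ∈ I, 2 * Fintype.card (XX q d R ≃ₗ[ZMod q] XX q d R) *
          ((2 * S + 1) ^ d * q ^ R) := sum_le_sum h5
      _ = _ := by rw [sum_const, smul_eq_mul, hIc]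
  have hqp : 0 < q ^ (d + R) := pow_pos hq _
  have hG : 0 < Fintype.card (XX q d R ≃ₗ[ZMod q] XX q d R) :=
    Fintype.card_pos_iff.2 ⟨LinearEquiv.refl _ _⟩
  have h7 : M + 1 ≤ k * (A.card * D.card) * (2 * ((2 * S + 1) ^ d * q ^ R)) := by
    have h8 : (q ^ (d + R) * Fintype.card (XX q d R ≃ₗ[ZMod q] XX q d R)) * (M + 1) ≤
        (q ^ (d + R) * Fintype.card (XX q d R ≃ₗ[ZMod q] XX q d R)) *
          (k * (A.card * D.card) * (2 * ((2 * S + 1) ^ d * q ^ R))) := by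
      calc _ = q ^ (d + R) * (Fintype.card (XX q d R ≃ₗ[ZMod q] XX q d R) * (M + 1)) := by ring
        _ ≤ _ := h6
        _ = _ := by ring
    exact Nat.le_of_mul_le_mul_left h8 (Nat.mul_pos hqp hG)
  have h9 : k * (A.card * D.card) * (2 * ((2 * S + 1) ^ d * q ^ R)) ≤ M := by
    rw [hM]
    exact le_of_eq (by ring)
  omega

end

open Set Filter Topology

open Pool.Agent.Zk23.KKSets (valMinAbs_le lt_valMinAbs en t1 t2 t1_sep coord)

/-- **Integer sets with separated first coordinates** -/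
theorem finite_sets (q k d R S b : ℕ) (hq : q.Prime) (hk : 1 ≤ k) (hd : 1 ≤ d)
    (hbq : 4 * k * b ≤ q) (hqS : 16 * (S + 1) * 2 ^ R ≤ q)
    (A : Finset ((Fin d → ZMod q) × (Fin R → ZMod q)))
    (hA : ∀ ρ : (Fin d → ZMod q) × (Fin R → ZMod q), ∃ a : (Fin d → ZMod q) × (Fin R → ZMod q),
      ∀ t : ℕ, t < k → a + t • ρ ∈ A) :
    ∃ G Bad : Finset ((Fin d → ℕ) × (Fin R → ℕ)),
      (∀ x ∈ G, (∀ i, x.1 i < q) ∧ ∀ i, x.2 i < q) ∧
      (∀ x ∈ G, ∀ y ∈ G, x ≠ y → ∃ i, (S : ℤ) < |(x.1 i : ℤ) - y.1 i|) ∧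
      Bad.card ≤ 2 * k * 4 ^ (d + R) * (2 * S + 1) ^ d * (A.card * q ^ R) ∧
      ∀ ρ : (Fin d → ℕ) × (Fin R → ℕ), (∀ i, ρ.1 i < b) → (∀ i, ρ.2 i < b) → ρ ∉ Bad →
        ∃ a : (Fin d → ℕ) × (Fin R → ℕ), ∀ t : ℕ, t < k → a + t • ρ ∈ G := by
  classical
  haveI : Fact q.Prime := ⟨hq⟩
  haveI : NeZero q := ⟨hq.ne_zero⟩
  have hpow : 1 ≤ 2 ^ R := Nat.one_le_two_pow
  have hq2 : q % 2 = 1 := by
    rcases hq.eq_two_or_odd with h | h
    · exfalso
      rw [h] at hqS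
      nlinarith
    · exact h
  choose a ha using hA
  let τ : (Fin d → Bool) × (Fin R → Bool) → (Fin d → ZMod q) × (Fin R → ZMod q) := fun l =>
    (fun i => ((t1 q S d R hd l i : ℤ) : ZMod q), fun i => ((t2 q d R l i : ℤ) : ZMod q))
  let D : Finset (Fin d → ZMod q) := Finset.univ.image
    (fun p : ((Fin d → Bool) × (Fin R → Bool)) × ((Fin d → Bool) × (Fin R → Bool)) =>
      (τ p.1 - τ p.2).1)
  have hD : D.card ≤ 4 ^ (d + R) := by
    refine Finset.card_image_le.trans ?_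
    simp only [Finset.card_univ, Fintype.card_prod, Fintype.card_pi, Fintype.card_bool,
      Finset.prod_const, Fintype.card_fin]
    rw [show (4 : ℕ) = 2 * 2 by norm_num, mul_pow, pow_add]
  obtain ⟨T, hT⟩ := exists_good_equiv q d R S k A a D
  set BadF : Set ((Fin d → ZMod q) × (Fin R → ZMod q)) :=
    {ρ | ∃ t < k, ∃ v ∈ A, v ≠ a ρ + t • ρ ∧ ∃ c ∈ D,
        ∀ i, |((T (a ρ + t • ρ - v)).1 i + c i).valMinAbs| ≤ (S : ℤ)} with hBadF
  let rep : (Fin d → ZMod q) × (Fin R → ZMod q) → (Fin d → ℕ) × (Fin R → ℕ) := fun z =>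
    (fun i => (z.1 i).val, fun i => (z.2 i).val)
  let light : (Fin d → ZMod q) × (Fin R → ZMod q) → Prop := fun x =>
    ∀ v ∈ A, v ≠ x → ∀ c ∈ D, ∃ i, (S : ℤ) < |((T (x - v)).1 i + c i).valMinAbs|
  have key : ∀ z w : ZMod q, |(z - w).valMinAbs| ≤ |(z.val : ℤ) - w.val| := by
    intro z w
    have h := valMinAbs_le q ((z.val : ℤ) - w.val)
    have h2 : ((((z.val : ℤ) - w.val : ℤ)) : ZMod q) = z - w := by
      push_cast
      rw [ZMod.natCast_zmod_val, ZMod.natCast_zmod_val]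
    rwa [h2] at h
  refine ⟨((A.filter light) ×ˢ (Finset.univ : Finset ((Fin d → Bool) × (Fin R → Bool)))).image
    (fun p => rep (T p.1 + τ p.2)), BadF.toFinset.image (fun ρ => rep (T ρ)), ?_, ?_, ?_, ?_⟩
  · intro x' hx'
    obtain ⟨x, -, rfl⟩ := Finset.mem_image.1 hx'
    exact ⟨fun i => ZMod.val_lt _, fun i => ZMod.val_lt _⟩
  · intro x' hx' y' hy' hxy
    obtain ⟨⟨x, l⟩, hx, rfl⟩ := Finset.mem_image.1 hx'
    obtain ⟨⟨y, m⟩, hy, rfl⟩ := Finset.mem_image.1 hy'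
    rw [Finset.mem_product, Finset.mem_filter] at hx hy
    simp only at hx hy hxy ⊢
    rcases eq_or_ne x y with rfl | hne
    · have hlm : l ≠ m := fun h => hxy (by rw [h])
      obtain ⟨i, h1, h2⟩ := t1_sep q S d R hd hq2 hqS l m hlm
      refine ⟨i, lt_of_lt_of_le (lt_valMinAbs q S _ h1 h2) ?_⟩
      refine le_trans (le_of_eq ?_) (key _ _)
      congr 2
      simp only [τ, Prod.fst_add, Pi.add_apply]
      push_cast
      ring
    · obtain ⟨i, hi⟩ := hx.1.2 y hy.1.1 hne.symm (τ l - τ m).1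
        (Finset.mem_image.2 ⟨(l, m), Finset.mem_univ _, rfl⟩)
      refine ⟨i, lt_of_lt_of_le hi ?_⟩
      refine le_trans (le_of_eq ?_) (key _ _)
      congr 2
      simp only [map_sub, Prod.fst_sub, Prod.fst_add, Pi.add_apply, Pi.sub_apply]
      ring
  · refine Finset.card_image_le.trans ?_
    rw [← Set.ncard_eq_toFinset_card']
    refine hT.trans ?_
    gcongr
  · intro σ hσ1 hσ2 hbad
    have hbq' : b ≤ q := by nlinarith
    set ρ : (Fin d → ZMod q) × (Fin R → ZMod q) :=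
      T.symm (fun i => (σ.1 i : ZMod q), fun i => (σ.2 i : ZMod q)) with hρ
    have hTρ : T ρ = (fun i => (σ.1 i : ZMod q), fun i => (σ.2 i : ZMod q)) := by
      rw [hρ, LinearEquiv.apply_symm_apply]
    have hρB : ρ ∉ BadF := by
      intro h
      refine hbad (Finset.mem_image.2 ⟨ρ, by simpa using h, ?_⟩)
      simp only [hTρ, rep]
      refine Prod.ext (funext fun i => ?_) (funext fun i => ?_)
      · exact ZMod.val_cast_of_lt ((hσ1 i).trans_le hbq')
      · exact ZMod.val_cast_of_lt ((hσ2 i).trans_le hbq')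
    have hlight : ∀ t : ℕ, t < k → light (a ρ + t • ρ) := by
      intro t ht v hv hne c hc
      by_contra hcon
      push Not at hcon
      exact hρB ⟨t, ht, v, hv, hne, c, hc, hcon⟩
    set h : ℕ := (q + 1) / 2 with hh
    set z := T (a ρ) with hz
    set l : (Fin d → Bool) × (Fin R → Bool) :=
      (fun i => decide (h ≤ (z.1 i).val), fun i => decide (h ≤ (z.2 i).val)) with hl
    have hW : 16 * ((S + 1) * 2 ^ R) ≤ q := by rw [← mul_assoc]; exact hqS
    have he : (S + 1) * (en R l.2 : ℕ) ≤ (S + 1) * 2 ^ R := Nat.mul_le_mul_left _ (en R l.2).2.le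
    refine ⟨(fun i => (z.1 i).val - (if h ≤ (z.1 i).val then h else 0) +
      (if i = ⟨0, hd⟩ then (S + 1) * (en R l.2 : ℕ) else 0),
      fun i => (z.2 i).val - (if h ≤ (z.2 i).val then h else 0)), fun t ht => ?_⟩
    rw [Finset.mem_image]
    refine ⟨(a ρ + t • ρ, l), Finset.mem_product.2 ⟨Finset.mem_filter.2 ⟨ha ρ t ht, hlight t ht⟩,
      Finset.mem_univ _⟩, ?_⟩
    have hTz : T (a ρ + t • ρ) = z + t • T ρ := by rw [map_add, map_nsmul]
    simp only [hTz, hTρ, rep]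
    refine Prod.ext (funext fun i => ?_) (funext fun i => ?_)
    · have := coord q k b S _ (en R l.2 : ℕ) h hq2 hh hW he hbq (z.1 i) (i = ⟨0, hd⟩) (σ.1 i) t
        (hσ1 i) ht
      have e1 : t1 q S d R hd l i = -(if decide (h ≤ (z.1 i).val) = true then (h : ℤ) else 0) +
        (if i = ⟨0, hd⟩ then (((S + 1) * (en R l.2 : ℕ) : ℕ) : ℤ) else 0) := rfl
      simp only [Prod.fst_add, Pi.add_apply, Prod.smul_fst, Pi.smul_apply, τ]
      rw [add_right_comm, e1]
      exact this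
    · have := coord q k b S _ (en R l.2 : ℕ) h hq2 hh hW he hbq (z.2 i) False (σ.2 i) t
        (hσ2 i) ht
      have e1 : t2 q d R l i = -(if decide (h ≤ (z.2 i).val) = true then (h : ℤ) else 0) := rfl
      simp only [Prod.snd_add, Pi.add_apply, Prod.smul_snd, Pi.smul_apply, τ]
      rw [add_right_comm, e1]
      simpa using this

end Pool.Agent.Zk23.KKSetsR
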