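import Pool.Agent.Zk23.KKGraphR
import Pool.Agent.Zk23.KKSetsR

/-!
# Graphs of maps of class `C^r`: the exact threshold
-/

set_option autoImplicit false

open Set Filter Topology MeasureTheory
open scoped ContDiff

namespace Pool.Agent.Zk23.KKGraphS

open Pool.Agent.Zk23.KKEquiv (E HasProg AKC HasProg.mono)
open Pool.Agent.Zk23.KKCrA (reduce_set)
open Pool.Agent.Zk23.KKCr (digit_sum)
open Pool.Agent.Zk23.KKCrB (SmallCover)
open Pool.Agent.Zk72.KakDisc (discretise)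
open Pool.Agent.Zk50.G2 (hier_code_gen)
open Pool.Agent.Zk50.G3 (digits_measure_gen)
open Pool.Agent.Zk23.KKSetsR (finite_sets)
open Pool.Agent.Zk23.KKGraph (power_set)
open Pool.Agent.Zk23.KKGraphR (graphSet)

/-- the sets of one level -/
theorem level (q k d m r S b : ℕ) (hq : q.Prime) (hk : 1 ≤ k) (hd : 1 ≤ d)
    (hb : 1 ≤ b) (hbq : 4 * k * (2 * b) ≤ q)
    (hqS : 16 * (S + 1) * 2 ^ (m * r) ≤ q) (A : Finset (Fin 1 → ℤ))
    (hA : ∀ v : Fin 1 → ℕ, (∀ i, v i < q) → ∃ α : Fin 1 → ℤ, ∀ j : ℕ, j < k →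
      (fun i => α i + (j : ℤ) * (v i : ℤ)) ∈ A) :
    ∃ (G : Finset ((Fin d → ℕ) × (Fin m → ℕ))) (Bad : Finset (Fin (d + m) → ℕ)),
      (∀ x ∈ G, (∀ i, x.1 i < q) ∧ ∀ j, x.2 j ≤ r * ((2 * b) ^ (r - 1) * q)) ∧
      (∀ x ∈ G, ∀ y ∈ G, x ≠ y → ∃ i, (S : ℤ) < |(x.1 i : ℤ) - y.1 i|) ∧
      Bad.card ≤ 2 * k * 4 ^ (d + m * r) * (2 * S + 1) ^ d *
        (A.card ^ (d + m * r) * q ^ (m * r)) ∧
      ∀ x : Fin (d + m) → ℕ, (∀ i, x (Fin.castAdd m i) < b) → (∀ j, x (Fin.natAdd d j) < (2 * b) ^ r) →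
        x ∉ Bad → ∃ (a : Fin d → ℕ) (c : Fin m → ℕ), ∀ t : ℕ, t < k →
          (fun i => a i + t * x (Fin.castAdd m i), fun j => c j + t * x (Fin.natAdd d j)) ∈ G := by
  classical
  haveI : Fact q.Prime := ⟨hq⟩
  obtain ⟨A₀, h1, h2⟩ := reduce_set q k 1 A hA
  let e : Fin (d + m * r) × Fin 1 ≃ Fin d ⊕ Fin (m * r) :=
    finProdFinEquiv.trans ((finCongr (mul_one _)).trans finSumFinEquiv.symm)
  obtain ⟨A₁, h3, h4⟩ := power_set q k 1 (d + m * r) d (m * r) e A₀ h2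
  obtain ⟨G, Bad, g1, g2, g3, g4⟩ := finite_sets q k d (m * r) S (2 * b) hq hk hd hbq hqS A₁ h4
  have g3' : Bad.card ≤ 2 * k * 4 ^ (d + m * r) * (2 * S + 1) ^ d *
      (A.card ^ (d + m * r) * q ^ (m * r)) :=
    g3.trans (Nat.mul_le_mul_left _ (Nat.mul_le_mul_right _ (h3.trans (Nat.pow_le_pow_left h1 _))))
  let V : (Fin (m * r) → ℕ) → Fin m → ℕ := fun y j =>
    ∑ i : Fin r, (2 * b) ^ (i : ℕ) * y (finProdFinEquiv (j, i))
  refine ⟨G.image (fun x => (x.1, V x.2)), Bad.image (fun x => Fin.append x.1 (V x.2)), ?_, ?_, ?_, ?_⟩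
  · intro x' hx'
    obtain ⟨x, hx, rfl⟩ := Finset.mem_image.1 hx'
    refine ⟨(g1 x hx).1, fun j => ?_⟩
    simp only [V]
    calc ∑ i : Fin r, (2 * b) ^ (i : ℕ) * x.2 (finProdFinEquiv (j, i))
        ≤ ∑ _i : Fin r, (2 * b) ^ (r - 1) * q := by
          refine Finset.sum_le_sum fun i _ => ?_
          refine Nat.mul_le_mul (Nat.pow_le_pow_right (by omega) (by omega)) ((g1 x hx).2 _).le
      _ = r * ((2 * b) ^ (r - 1) * q) := by simp
  · intro x' hx' y' hy' hxy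
    obtain ⟨x, hx, rfl⟩ := Finset.mem_image.1 hx'
    obtain ⟨y, hy, rfl⟩ := Finset.mem_image.1 hy'
    exact g2 x hx y hy (fun h => hxy (by rw [h]))
  · exact Finset.card_image_le.trans g3'
  · intro x hx1 hx2 hbad
    let σ : Fin (m * r) → ℕ := fun l =>
      x (Fin.natAdd d (finProdFinEquiv.symm l).1) / (2 * b) ^ ((finProdFinEquiv.symm l).2 : ℕ) % (2 * b)
    have hV : V σ = fun j => x (Fin.natAdd d j) := by
      ext j
      simp only [V, σ, Equiv.symm_apply_apply]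
      exact digit_sum (2 * b) (by omega) r _ (hx2 j)
    obtain ⟨a, ha⟩ := g4 (fun i => x (Fin.castAdd m i), σ) (fun i => (hx1 i).trans_le (by omega))
      (fun i => Nat.mod_lt _ (by omega))
      (fun h => hbad (Finset.mem_image.2 ⟨_, h, by
        simp only [hV]
        ext i
        refine Fin.addCases (fun i => ?_) (fun i => ?_) i
        · simp
        · simp⟩))
    refine ⟨a.1, V a.2, fun t ht => ?_⟩
    rw [Finset.mem_image]
    refine ⟨_, ha t ht, ?_⟩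
    refine Prod.ext ?_ ?_
    · ext i
      simp
    · ext j
      have hj : V σ j = x (Fin.natAdd d j) := congrFun hV j
      change V (a.2 + t • σ) j = V a.2 j + t * x (Fin.natAdd d j)
      rw [← hj]
      simp only [V]
      rw [Finset.mul_sum, ← Finset.sum_add_distrib]
      refine Finset.sum_congr rfl fun i _ => ?_
      simp
      ring

/-- the primes and the bases -/
theorem primes (k Q F : ℕ) (hk : 1 ≤ k) (hQ : 16 * k ≤ Q) : ∃ q b : ℕ → ℕ, ∀ J : ℕ,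
    (q J).Prime ∧ Q * (J + 1) ^ F < q J ∧ q J ≤ 2 * (Q * (J + 1) ^ F) ∧ 4 * k * (2 * b J) ≤ q J ∧
      q J ≤ 16 * k * b J ∧ 2 ≤ b J := by
  have h := fun J : ℕ => Nat.exists_prime_lt_and_le_two_mul (Q * (J + 1) ^ F) (by
    have : 0 < Q := by omega
    positivity)
  choose q hq1 hq2 hq3 using h
  refine ⟨q, fun J => q J / (8 * k), fun J => ?_⟩
  have h1 : 16 * k < q J := by
    have h2 : Q ≤ Q * (J + 1) ^ F := Nat.le_mul_of_pos_right _ (by positivity)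
    exact (hQ.trans h2).trans_lt (hq2 J)
  have h3 := Nat.div_add_mod (q J) (8 * k)
  have h4 := Nat.mod_lt (q J) (by omega : 0 < 8 * k)
  have h5 : 2 ≤ q J / (8 * k) := by
    rw [Nat.le_div_iff_mul_le (by omega)]
    omega
  refine ⟨hq1 J, hq2 J, hq3 J, ?_, ?_, h5⟩
  · calc 4 * k * (2 * (q J / (8 * k))) = 8 * k * (q J / (8 * k)) := by ring
      _ ≤ q J := by omega
  · have h6 : 8 * k ≤ 8 * k * (q J / (8 * k)) := Nat.le_mul_of_pos_right _ (by omega)
    have h7 : 16 * k * (q J / (8 * k)) = 8 * k * (q J / (8 * k)) + 8 * k * (q J / (8 * k)) := by ring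
    rw [h7]
    omega

/-- from the levels to a map -/
theorem assemble (k d m r Q F : ℕ) (hk : 1 ≤ k) (hr : 1 ≤ r) (hQ0 : 1 ≤ Q) (q b : ℕ → ℕ)
    (hq1 : ∀ J, 1 ≤ q J) (hq2 : ∀ J, q J ≤ 2 * (Q * (J + 1) ^ F))
    (hbq : ∀ J, 4 * k * (2 * b J) ≤ q J) (hqb : ∀ J, q J ≤ 16 * k * b J) (hb : ∀ J, 2 ≤ b J)
    (G : ℕ → Finset ((Fin d → ℕ) × (Fin m → ℕ))) (Bad : ℕ → Finset (Fin (d + m) → ℕ))
    (h1 : ∀ J, ∀ x ∈ G J, (∀ i, x.1 i < q J) ∧ ∀ j, x.2 j ≤ r * ((2 * b J) ^ (r - 1) * q J))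
    (h2 : ∀ J, ∀ x ∈ G J, ∀ y ∈ G J, x ≠ y → ∃ i, ((64 * k + 2 : ℕ) : ℤ) < |(x.1 i : ℤ) - y.1 i|)
    (c₁ : ℝ) (hc₁ : 0 ≤ c₁)
    (h3 : ∀ J, ((Bad J).card : ℝ) ≤ c₁ * (1 / ((J : ℝ) + 1) ^ 2) * (q J : ℝ) ^ (d + m * r))
    (η : ℝ)
    (hQ : c₁ * (16 * k) ^ (d + m * r) * ∑' J : ℕ, 1 / ((J : ℝ) + 1) ^ 2 < η)
    (h4 : ∀ J (x : Fin (d + m) → ℕ), (∀ i, x (Fin.castAdd m i) < b J) →
      (∀ j, x (Fin.natAdd d j) < (2 * b J) ^ r) → x ∉ Bad J →
        ∃ (a : Fin d → ℕ) (c : Fin m → ℕ), ∀ t : ℕ, t < k →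
          (fun i => a i + t * x (Fin.castAdd m i), fun j => c j + t * x (Fin.natAdd d j)) ∈ G J) :
    ∃ g : E d → E m, ContDiff ℝ r g ∧ ENNReal.ofReal (1 - η) ≤
      volume ({z : E (d + m) | ∀ i, z i ∈ Icc (0 : ℝ) 1} ∩
        {z | ∃ a : E (d + m), ∀ t : ℕ, t < k → a + (t : ℝ) • z ∈ graphSet g}) := by
  classical
  set P : ℕ → ℕ := fun J => ∏ j ∈ Finset.range (J + 1), b j with hP
  have hP2 : ∀ J, (2 : ℝ) ^ (J + 1) ≤ P J := by
    intro J
    have : 2 ^ (J + 1) ≤ P J := by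
      calc 2 ^ (J + 1) = ∏ _j ∈ Finset.range (J + 1), 2 := by simp
        _ ≤ P J := Finset.prod_le_prod' fun j _ => hb j
    exact_mod_cast this
  have hP1 : ∀ J, (1 : ℝ) ≤ P J := fun J => (one_le_pow₀ one_le_two).trans (hP2 J)
  have hP0 : ∀ J, (0 : ℝ) < P J := fun J => one_pos.trans_le (hP1 J)
  set Y : ℕ → ℝ := fun J => ∏ j ∈ Finset.range (J + 1), (((2 * b j) ^ r : ℕ) : ℝ) with hY
  have hYP : ∀ J, Y J = (2 : ℝ) ^ (r * (J + 1)) * (P J : ℝ) ^ r := by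
    intro J
    simp only [hY, hP]
    push_cast
    rw [← Finset.prod_pow, show (2 : ℝ) ^ (r * (J + 1)) = ∏ _j ∈ Finset.range (J + 1), (2 : ℝ) ^ r by
      rw [Finset.prod_const, Finset.card_range, ← pow_mul], ← Finset.prod_mul_distrib]
    refine Finset.prod_congr rfl fun j _ => ?_
    rw [mul_pow]
  have hY0 : ∀ J, 0 < Y J := by
    intro J
    rw [hYP]
    have := hP0 J
    positivity
  set M : ℕ → ℝ := fun J => r * ((2 * b J : ℝ) ^ (r - 1) * q J) with hM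
  have hM0 : ∀ J, 0 ≤ M J := fun J => by positivity
  have hQr : (1 : ℝ) ≤ Q := by exact_mod_cast hQ0
  have hq2r : ∀ J, (q J : ℝ) ≤ 2 * (Q * ((J : ℝ) + 1) ^ F) := fun J => by exact_mod_cast hq2 J
  have hbqr : ∀ J, (b J : ℝ) ≤ q J := by
    intro J
    have : b J ≤ q J := by
      calc b J ≤ 4 * k * (2 * b J) := by nlinarith
        _ ≤ q J := hbq J
    exact_mod_cast this
  have hq1r : ∀ J, (1 : ℝ) ≤ q J := by
    intro J
    exact_mod_cast hq1 J
  have hMs : Summable fun J => M J / (2 : ℝ) ^ (J + 1) := by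
    have hs : Summable fun J : ℕ => ((J : ℝ)) ^ (F * r) * (1 / 2 : ℝ) ^ J :=
      summable_pow_mul_geometric_of_norm_lt_one _ (by norm_num)
    have hs1 := ((summable_nat_add_iff 1).2 hs).mul_left ((r : ℝ) * (4 * Q) ^ r)
    refine Summable.of_nonneg_of_le (fun J => div_nonneg (hM0 J) (by positivity)) (fun J => ?_) hs1
    have e1 : M J ≤ (r : ℝ) * (4 * Q) ^ r * ((J : ℝ) + 1) ^ (F * r) := by
      calc M J ≤ (r : ℝ) * ((2 * q J : ℝ) ^ (r - 1) * (2 * q J)) := by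
            simp only [hM]
            have e2 : (q J : ℝ) ≤ 2 * q J := by linarith [hq1r J]
            have e3 : (2 * b J : ℝ) ≤ 2 * q J := by linarith [hbqr J]
            gcongr
        _ = (r : ℝ) * (2 * q J : ℝ) ^ r := by rw [← pow_succ, Nat.sub_add_cancel hr]
        _ ≤ (r : ℝ) * (2 * (2 * (Q * ((J : ℝ) + 1) ^ F))) ^ r := by gcongr; exact hq2r J
        _ = _ := by rw [pow_mul, mul_assoc, ← mul_pow]; ring_nf
    rw [div_eq_mul_inv]
    push_cast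
    calc M J * ((2 : ℝ) ^ (J + 1))⁻¹
        ≤ (r : ℝ) * (4 * Q) ^ r * ((J : ℝ) + 1) ^ (F * r) * ((2 : ℝ) ^ (J + 1))⁻¹ := by gcongr
      _ = _ := by rw [one_div, inv_pow]; ring
  have hMs2 : Summable fun J => M J * (P J : ℝ) ^ r / Y J := by
    refine Summable.of_nonneg_of_le (fun J => ?_) (fun J => ?_) hMs
    · exact div_nonneg (mul_nonneg (hM0 J) (pow_pos (hP0 J) _).le) (hY0 J).le
    · rw [hYP, mul_div_mul_right _ _ (pow_pos (hP0 J) _).ne']
      refine div_le_div_of_nonneg_left (hM0 J) (by positivity) ?_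
      exact pow_le_pow_right₀ one_le_two (Nat.le_mul_of_pos_left _ hr)
  -- the components
  have hgj := fun j : Fin m => hier_code_gen r d (16 * k) (by omega) b hb P (fun J => rfl) Y hY0
    (fun J => (G J).image fun x => (x.1, x.2 j)) M
    (fun J x hx i => by
      obtain ⟨x, hx', rfl⟩ := Finset.mem_image.1 hx
      exact ((h1 J x hx').1 i).le.trans (hqb J))
    (fun J x hx => by
      obtain ⟨x, hx', rfl⟩ := Finset.mem_image.1 hx
      have := (h1 J x hx').2 j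
      simp only [hM]
      exact_mod_cast this)
    (fun J x hx y hy hxy => by
      obtain ⟨x, hx', rfl⟩ := Finset.mem_image.1 hx
      obtain ⟨y, hy', rfl⟩ := Finset.mem_image.1 hy
      obtain ⟨i, hi⟩ := h2 J x hx' y hy' (fun h => hxy (by rw [h]))
      refine ⟨i, ?_⟩
      push_cast at hi ⊢
      omega) hMs2
  choose g hg1 hg2 using hgj
  refine ⟨fun x => WithLp.toLp 2 fun j => g j x, contDiff_euclidean.2 fun j => hg1 j, ?_⟩
  -- the digits
  set B : ℕ → Fin (d + m) → ℕ := fun J => Fin.append (fun _ => b J) (fun _ => (2 * b J) ^ r) with hB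
  have hBprod : ∀ J, ∏ i, (B J i : ℝ) = (b J : ℝ) ^ d * ((2 * b J : ℝ) ^ r) ^ m := by
    intro J
    rw [Fin.prod_univ_add]
    simp only [hB, Fin.append_left, Fin.append_right]
    simp
  set c₀ : ℝ := c₁ * (16 * k) ^ (d + m * r) with hc₀
  have hZ : Summable fun J : ℕ => 1 / ((J : ℝ) + 1) ^ 2 := by
    have := (summable_nat_add_iff 1).2 (Real.summable_one_div_nat_pow.2 one_lt_two)
    simpa using this
  have hdig := digits_measure_gen (d + m) B (fun J i => by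
      refine Fin.addCases (fun i => ?_) (fun i => ?_) i
      · simp only [hB, Fin.append_left]; exact hb J
      · simp only [hB, Fin.append_right]
        calc 2 ≤ 2 * b J := by have := hb J; omega
          _ ≤ (2 * b J) ^ r := Nat.le_self_pow (by omega) _)
    Bad (fun J => c₀ * (1 / ((J : ℝ) + 1) ^ 2)) (hZ.mul_left _) (fun J => by
      have e3 : (q J : ℝ) ≤ 16 * k * b J := by exact_mod_cast hqb J
      have e6 : (b J : ℝ) ^ (d + m * r) ≤ (b J : ℝ) ^ d * ((2 * b J : ℝ) ^ r) ^ m := by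
        rw [pow_add, ← pow_mul, mul_comm r m]
        have : (b J : ℝ) ≤ 2 * b J := by
          have : (0 : ℝ) ≤ b J := Nat.cast_nonneg _
          linarith
        gcongr
      rw [hBprod]
      calc ((Bad J).card : ℝ) ≤ c₁ * (1 / ((J : ℝ) + 1) ^ 2) * (q J : ℝ) ^ (d + m * r) := h3 J
        _ ≤ c₁ * (1 / ((J : ℝ) + 1) ^ 2) * (16 * k * b J) ^ (d + m * r) := by gcongr
        _ = c₀ * (1 / ((J : ℝ) + 1) ^ 2) * (b J : ℝ) ^ (d + m * r) := by
            simp only [hc₀]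
            rw [mul_pow]
            ring
        _ ≤ _ := by
            gcongr)
  refine le_trans (ENNReal.ofReal_le_ofReal ?_) (hdig.trans (measure_mono ?_))
  · rw [tsum_mul_left, hc₀]
    linarith
  · rintro z ⟨hz, x, hx, hbad, hsum⟩
    refine ⟨hz, ?_⟩
    have hx1 : ∀ J i, x J (Fin.castAdd m i) < b J := fun J i => by
      have := hx J (Fin.castAdd m i)
      simpa only [hB, Fin.append_left] using this
    have hx2 : ∀ J j, x J (Fin.natAdd d j) < (2 * b J) ^ r := fun J j => by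
      have := hx J (Fin.natAdd d j)
      simpa only [hB, Fin.append_right] using this
    have hz1 : ∀ i : Fin d, HasSum (fun J => (x J (Fin.castAdd m i) : ℝ) / (P J : ℝ))
        (z (Fin.castAdd m i)) := fun i => by
      have := hsum (Fin.castAdd m i)
      simp only [hB, Fin.append_left] at this
      simpa only [hP, Nat.cast_prod] using this
    have hz2 : ∀ j : Fin m, HasSum (fun J => (x J (Fin.natAdd d j) : ℝ) / Y J)
        (z (Fin.natAdd d j)) := fun j => by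
      have := hsum (Fin.natAdd d j)
      simpa only [hB, Fin.append_right] using this
    choose a c hac using fun J => h4 J (x J) (hx1 J) (hx2 J) (hbad J)
    have haM : ∀ J i, (a J i : ℝ) ≤ M J := by
      intro J i
      have e1 := ((h1 J _ (hac J 0 (by omega))).1 i).le
      simp only [zero_mul, add_zero] at e1
      have e2 : q J ≤ r * ((2 * b J) ^ (r - 1) * q J) := by
        have : 0 < (2 * b J) ^ (r - 1) := Nat.pow_pos (by have := hb J; omega)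
        exact (Nat.le_mul_of_pos_left _ this).trans (Nat.le_mul_of_pos_left _ (by omega))
      simp only [hM]
      exact_mod_cast e1.trans e2
    have hcM : ∀ J j, (c J j : ℝ) ≤ M J := by
      intro J j
      have e1 := (h1 J _ (hac J 0 (by omega))).2 j
      simp only [zero_mul, add_zero] at e1
      simp only [hM]
      exact_mod_cast e1
    have has : ∀ i, Summable fun J => (a J i : ℝ) / (P J : ℝ) := fun i =>
      Summable.of_nonneg_of_le (fun J => div_nonneg (Nat.cast_nonneg _) (hP0 J).le)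
        (fun J => (div_le_div_of_nonneg_right (haM J i) (hP0 J).le).trans
          (div_le_div_of_nonneg_left (hM0 J) (by positivity) (hP2 J))) hMs
    have hcs : ∀ j, Summable fun J => (c J j : ℝ) / Y J := fun j =>
      Summable.of_nonneg_of_le (fun J => div_nonneg (Nat.cast_nonneg _) (hY0 J).le)
        (fun J => by
          refine (div_le_div_of_nonneg_right (hcM J j) (hY0 J).le).trans ?_
          refine div_le_div_of_nonneg_right ?_ (hY0 J).le
          exact le_mul_of_one_le_right (hM0 J) (one_le_pow₀ (hP1 J))) hMs2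
    refine ⟨WithLp.toLp 2 (Fin.append (fun i : Fin d => ∑' J, (a J i : ℝ) / (P J : ℝ))
      (fun j => ∑' J, (c J j : ℝ) / Y J)), fun t ht j => ?_⟩
    have e1 := hg2 j (fun J => (fun i => a J i + t * x J (Fin.castAdd m i),
      c J j + t * x J (Fin.natAdd d j))) (fun J => Finset.mem_image.2 ⟨_, hac J t ht, rfl⟩)
    simp only [PiLp.add_apply, PiLp.smul_apply, smul_eq_mul, Fin.append_left, Fin.append_right]
    have e2 : ∀ i : Fin d, ∑' J, (a J i : ℝ) / (P J : ℝ) + t * z (Fin.castAdd m i) =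
        ∑' J : ℕ, ((a J i + t * x J (Fin.castAdd m i) : ℕ) : ℝ) / (P J : ℝ) := by
      intro i
      have := ((has i).hasSum.add ((hz1 i).mul_left (t : ℝ))).tsum_eq
      rw [← this]
      refine tsum_congr fun J => ?_
      push_cast
      ring
    have e3 : ∑' J, (c J j : ℝ) / Y J + t * z (Fin.natAdd d j) =
        ∑' J : ℕ, ((c J j + t * x J (Fin.natAdd d j) : ℕ) : ℝ) / Y J := by
      have := ((hcs j).hasSum.add ((hz2 j).mul_left (t : ℝ))).tsum_eq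
      rw [← this]
      refine tsum_congr fun J => ?_
      push_cast
      ring
    rw [e3]
    simp_rw [e2]
    exact e1.symm

/-- small finite sets of integers with `k`-term progressions of all differences below `q` -/
def Fin1 (k : ℕ) (t : ℝ) : Prop :=
  ∀ᶠ q : ℕ in atTop, ∃ A : Finset (Fin 1 → ℤ), (A.card : ℝ) ≤ (q : ℝ) ^ t ∧
    ∀ v : Fin 1 → ℕ, (∀ i, v i < q) → ∃ α : Fin 1 → ℤ, ∀ j : ℕ, j < k →
      (fun i => α i + (j : ℤ) * (v i : ℤ)) ∈ A

/-- reduction to dimension one -/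
theorem one_dim (n₀ k : ℕ) (hn₀ : 1 ≤ n₀) (τ t : ℝ) (hτ0 : 0 ≤ τ) (hτt : τ < t)
    (B : Set (E n₀)) (hB : HasProg k B) (hcov : SmallCover τ B) : Fin1 k t := by
  classical
  have hn₀r : (1 : ℝ) ≤ n₀ := by exact_mod_cast hn₀
  have hn₀0 : (n₀ : ℝ) ≠ 0 := by linarith
  obtain ⟨N₀, hN₀⟩ := (hcov.and (eventually_ge_atTop 2)).exists_forall_of_atTop
  have hev1 : ∀ᶠ q : ℕ in atTop, (3 ^ n₀ * 2 ^ (τ * n₀) : ℝ) ≤ (q : ℝ) ^ (t - τ) := by
    have h1 : Tendsto (fun p : ℕ => (p : ℝ) ^ (t - τ)) atTop atTop :=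
      (tendsto_rpow_atTop (by linarith)).comp tendsto_natCast_atTop_atTop
    exact h1.eventually_ge_atTop _
  filter_upwards [hev1, eventually_gt_atTop (N₀ ^ n₀), eventually_ge_atTop 1] with q hq1 hq2 hq3
  have hq0 : (0 : ℝ) < q := by exact_mod_cast hq3
  have hq1' : (1 : ℝ) ≤ q := by exact_mod_cast hq3
  -- the base
  have hex : ∃ N : ℕ, q ≤ N ^ n₀ := ⟨q, Nat.le_self_pow (by omega) q⟩
  set N := Nat.find hex with hN
  have hNs : q ≤ N ^ n₀ := Nat.find_spec hex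
  have hNN₀ : N₀ < N := by
    by_contra hcon
    have : N ^ n₀ ≤ N₀ ^ n₀ := Nat.pow_le_pow_left (not_lt.1 hcon) _
    omega
  have hN1 : 1 ≤ N := by omega
  have hNm : (N - 1) ^ n₀ < q := by
    have := Nat.find_min hex (m := N - 1) (by omega)
    omega
  have hNle : (N : ℝ) ≤ 2 * (q : ℝ) ^ (1 / (n₀ : ℝ)) := by
    have h1 : ((N - 1 : ℕ) : ℝ) ≤ (q : ℝ) ^ (1 / (n₀ : ℝ)) := by
      have h2 : ((N - 1 : ℕ) : ℝ) ^ n₀ ≤ q := by exact_mod_cast hNm.le
      calc ((N - 1 : ℕ) : ℝ) = (((N - 1 : ℕ) : ℝ) ^ (n₀ : ℝ)) ^ (1 / (n₀ : ℝ)) := by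
            rw [← Real.rpow_mul (Nat.cast_nonneg _), mul_one_div_cancel hn₀0, Real.rpow_one]
        _ ≤ (q : ℝ) ^ (1 / (n₀ : ℝ)) := by
            apply Real.rpow_le_rpow (by positivity) _ (by positivity)
            rw [Real.rpow_natCast]
            exact h2
    have h3 : (1 : ℝ) ≤ (q : ℝ) ^ (1 / (n₀ : ℝ)) := Real.one_le_rpow hq1' (by positivity)
    have h4 : (N : ℝ) = ((N - 1 : ℕ) : ℝ) + 1 := by
      rw [Nat.cast_sub hN1]; simp
    linarith
  obtain ⟨⟨T, hT1, hT2⟩, hN2⟩ := hN₀ N hNN₀.le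
  obtain ⟨A, hA1, hA2⟩ := discretise n₀ k N hN1 B hB T hT1
  let φ : (Fin n₀ → ℤ) → (Fin 1 → ℤ) := fun x _ => ∑ i : Fin n₀, (N : ℤ) ^ (i : ℕ) * x i
  refine ⟨A.image φ, ?_, ?_⟩
  · calc ((A.image φ).card : ℝ) ≤ A.card := by exact_mod_cast Finset.card_image_le
      _ ≤ 3 ^ n₀ * T.card := by exact_mod_cast hA1
      _ ≤ 3 ^ n₀ * (N : ℝ) ^ (τ * n₀) := by gcongr
      _ ≤ 3 ^ n₀ * (2 * (q : ℝ) ^ (1 / (n₀ : ℝ))) ^ (τ * n₀) := by
          gcongr
      _ = (3 ^ n₀ * 2 ^ (τ * n₀)) * (q : ℝ) ^ τ := by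
          rw [Real.mul_rpow (by norm_num) (by positivity), ← Real.rpow_mul hq0.le]
          have : 1 / (n₀ : ℝ) * (τ * n₀) = τ := by field_simp
          rw [this]
          ring
      _ ≤ (q : ℝ) ^ (t - τ) * (q : ℝ) ^ τ := by gcongr
      _ = (q : ℝ) ^ t := by
          rw [← Real.rpow_add hq0]
          congr 1
          ring
  · intro v hv
    have hv0 : v 0 < N ^ n₀ := (hv 0).trans_le hNs
    have hdig := digit_sum N hN1 n₀ (v 0) hv0
    obtain ⟨α, hα⟩ := hA2 (fun i => v 0 / N ^ (i : ℕ) % N) (fun i => Nat.mod_lt _ (by omega))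
    refine ⟨φ α, fun j hj => Finset.mem_image.2 ⟨_, hα j hj, ?_⟩⟩
    ext i
    obtain rfl : i = 0 := Subsingleton.elim _ _
    simp only [φ]
    conv_rhs => rw [← hdig]
    push_cast
    rw [Finset.mul_sum, ← Finset.sum_add_distrib]
    refine Finset.sum_congr rfl fun i _ => ?_
    ring

/-- **The exact threshold for graphs** -/
theorem graph_exact (k d m r : ℕ) (hk : 1 ≤ k) (hd : 1 ≤ d) (hr : 1 ≤ r) (t : ℝ)
    (ht : t * (d + m * r : ℕ) < d) (hF : Fin1 k t) (ε : ℝ) (hε : 0 < ε) :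
    ∃ g : E d → E m, ContDiff ℝ r g ∧ ENNReal.ofReal (1 - ε) ≤
      volume ({z : E (d + m) | ∀ i, z i ∈ Icc (0 : ℝ) 1} ∩
        {z | ∃ a : E (d + m), ∀ t : ℕ, t < k → a + (t : ℝ) • z ∈ graphSet g}) := by
  set κ : ℝ := d - t * (d + m * r : ℕ) with hκ
  have hκ0 : 0 < κ := by linarith
  obtain ⟨F, hF2⟩ := exists_nat_ge (2 / κ)
  rw [div_le_iff₀ hκ0] at hF2
  set S : ℕ := 64 * k + 2 with hS
  set C : ℕ := 2 * k * 4 ^ (d + m * r) * (2 * S + 1) ^ d with hC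
  set Z : ℝ := ∑' J : ℕ, 1 / ((J : ℝ) + 1) ^ 2 with hZ
  have hZ0 : 0 ≤ Z := tsum_nonneg fun J => by positivity
  -- the first prime
  have hev : ∀ᶠ Q : ℕ in atTop, (C : ℝ) * (16 * k) ^ (d + m * r) * Z / ε < (Q : ℝ) ^ κ := by
    have h1 : Tendsto (fun p : ℕ => (p : ℝ) ^ κ) atTop atTop :=
      (tendsto_rpow_atTop hκ0).comp tendsto_natCast_atTop_atTop
    exact h1.eventually_gt_atTop _
  obtain ⟨Q₀, hQ₀⟩ := Filter.Eventually.exists_forall_of_atTop hF
  obtain ⟨Q, hQ1, hQ2⟩ := (hev.and (eventually_ge_atTop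
    (max Q₀ (max (16 * k) (16 * (S + 1) * 2 ^ (m * r)))))).exists
  have hQa : Q₀ ≤ Q := (le_max_left _ _).trans hQ2
  have hQc : 16 * k ≤ Q := ((le_max_left _ _).trans (le_max_right _ _)).trans hQ2
  have hQd : 16 * (S + 1) * 2 ^ (m * r) ≤ Q :=
    ((le_max_right _ _).trans (le_max_right _ _)).trans hQ2
  have hQ0 : (0 : ℝ) < Q := by
    have : 0 < Q := by omega
    exact_mod_cast this
  obtain ⟨q, b, hqb⟩ := primes k Q F hk hQc
  have hQq : ∀ J, Q ≤ q J := fun J =>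
    (Nat.le_mul_of_pos_right Q (by positivity)).trans (hqb J).2.1.le
  have hlev : ∀ J : ℕ, ∃ (G : Finset ((Fin d → ℕ) × (Fin m → ℕ))) (Bad : Finset (Fin (d + m) → ℕ)),
      (∀ x ∈ G, (∀ i, x.1 i < q J) ∧ ∀ j, x.2 j ≤ r * ((2 * b J) ^ (r - 1) * q J)) ∧
      (∀ x ∈ G, ∀ y ∈ G, x ≠ y → ∃ i, (S : ℤ) < |(x.1 i : ℤ) - y.1 i|) ∧
      ((Bad.card : ℝ) ≤ (C * (Q : ℝ) ^ (-κ)) * (1 / ((J : ℝ) + 1) ^ 2) * (q J : ℝ) ^ (d + m * r)) ∧
      ∀ x : Fin (d + m) → ℕ, (∀ i, x (Fin.castAdd m i) < b J) →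
        (∀ j, x (Fin.natAdd d j) < (2 * b J) ^ r) →
        x ∉ Bad → ∃ (a : Fin d → ℕ) (c : Fin m → ℕ), ∀ t : ℕ, t < k →
          (fun i => a i + t * x (Fin.castAdd m i), fun j => c j + t * x (Fin.natAdd d j)) ∈ G := by
    intro J
    obtain ⟨p1, p2, p3, p4, p5, p6⟩ := hqb J
    obtain ⟨A, hAr, hA2⟩ := hQ₀ (q J) (hQa.trans (hQq J))
    have hp0 : (0 : ℝ) < q J := by exact_mod_cast p1.pos
    obtain ⟨G, Bad, g1, g2, g3, g4⟩ := level (q J) k d m r S (b J) p1 hk hd (by omega) p4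
      (hQd.trans (hQq J)) A hA2
    refine ⟨G, Bad, g1, g2, ?_, g4⟩
    have e1 : (q J : ℝ) ^ (-κ) ≤ (Q : ℝ) ^ (-κ) * (1 / ((J : ℝ) + 1) ^ 2) := by
      have hJ1 : (1 : ℝ) ≤ (J : ℝ) + 1 := by
        have : (0 : ℝ) ≤ J := Nat.cast_nonneg _
        linarith
      have e2 : (Q : ℝ) * ((J : ℝ) + 1) ^ F ≤ q J := by exact_mod_cast p2.le
      calc (q J : ℝ) ^ (-κ) ≤ ((Q : ℝ) * ((J : ℝ) + 1) ^ F) ^ (-κ) :=
            Real.rpow_le_rpow_of_nonpos (by positivity) e2 (by linarith)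
        _ = (Q : ℝ) ^ (-κ) * (((J : ℝ) + 1) ^ ((F : ℝ) * κ))⁻¹ := by
            rw [Real.mul_rpow hQ0.le (by positivity), ← Real.rpow_natCast,
              ← Real.rpow_mul (by positivity), ← Real.rpow_neg (by positivity)]
            congr 2
            ring
        _ ≤ (Q : ℝ) ^ (-κ) * (1 / ((J : ℝ) + 1) ^ 2) := by
            rw [one_div]
            have e3 : ((J : ℝ) + 1) ^ 2 ≤ ((J : ℝ) + 1) ^ ((F : ℝ) * κ) := by
              rw [← Real.rpow_natCast]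
              exact Real.rpow_le_rpow_of_exponent_le hJ1 (by push_cast; exact hF2)
            have e4 : (((J : ℝ) + 1) ^ ((F : ℝ) * κ))⁻¹ ≤ (((J : ℝ) + 1) ^ 2)⁻¹ :=
              inv_anti₀ (by positivity) e3
            exact mul_le_mul_of_nonneg_left e4 (Real.rpow_nonneg hQ0.le _)
    calc (Bad.card : ℝ) ≤ C * ((A.card : ℝ) ^ (d + m * r) * (q J : ℝ) ^ (m * r)) := by
          exact_mod_cast g3
      _ ≤ C * (((q J : ℝ) ^ t) ^ (d + m * r) * (q J : ℝ) ^ (m * r)) := by gcongr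
      _ = C * ((q J : ℝ) ^ (-κ) * (q J : ℝ) ^ (d + m * r)) := by
          congr 1
          rw [← Real.rpow_natCast, ← Real.rpow_natCast, ← Real.rpow_natCast, ← Real.rpow_mul hp0.le,
            ← Real.rpow_add hp0, ← Real.rpow_add hp0]
          congr 1
          rw [hκ]
          push_cast
          ring
      _ ≤ C * (((Q : ℝ) ^ (-κ) * (1 / ((J : ℝ) + 1) ^ 2)) * (q J : ℝ) ^ (d + m * r)) := by gcongr
      _ = _ := by ring
  choose G Bad g1 g2 g3 g4 using hlev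
  refine assemble k d m r Q F hk hr (by omega) q b (fun J => (hqb J).1.one_lt.le)
    (fun J => (hqb J).2.2.1)
    (fun J => (hqb J).2.2.2.1) (fun J => (hqb J).2.2.2.2.1) (fun J => (hqb J).2.2.2.2.2)
    G Bad g1 g2 (C * (Q : ℝ) ^ (-κ)) (by positivity) g3 ε ?_ g4
  rw [div_lt_iff₀ hε] at hQ1
  have e5 : (Q : ℝ) ^ (-κ) * (Q : ℝ) ^ κ = 1 := by
    rw [← Real.rpow_add hQ0]
    simp
  have e6 : 0 < (Q : ℝ) ^ (-κ) := Real.rpow_pos_of_pos hQ0 _
  calc C * (Q : ℝ) ^ (-κ) * (16 * k) ^ (d + m * r) * Z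
      = (Q : ℝ) ^ (-κ) * (C * (16 * k) ^ (d + m * r) * Z) := by ring
    _ < (Q : ℝ) ^ (-κ) * ((Q : ℝ) ^ κ * ε) := mul_lt_mul_of_pos_left hQ1 e6
    _ = ε := by rw [← mul_assoc, e5, one_mul]

end Pool.Agent.Zk23.KKGraphS
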