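import Pool.Agent.Zk23.KKFinal
import Pool.Agent.Zk23.KKGraphS
import Pool.Agent.Zk9.DigitDim

/-!
# Exact thresholds for `C^1` maps and for graphs of `C^s` maps
-/

set_option autoImplicit false

open Set Filter Topology MeasureTheory
open scoped ContDiff

namespace Pool.Agent.Zk23.KKExact

open Pool.Agent.Zk23.KKEquiv (E HasProg AKC code_prog)
open Pool.Agent.Zk23.KKCrB (SmallCover)
open Pool.Agent.Zk23.KKGraphR (graphSet)
open Pool.Agent.Zk23.KKGraphS (one_dim graph_exact)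
open Pool.Agent.Zk23.KKIff (fM)
open Pool.Agent.Zk23.KKFinal (diffs cube fM_nonneg diffs_mono cover_of_not_akc)
open Pool.Agent.Zk9.DigitDim (digit_dim)
open Pool.Agent.Zk25.KakCode (c1_code)
open Pool.Agent.Zk72.KakDisc (discretise)
open Pool.Agent.Zk85.G5g (finite_of_measure_gen)

theorem exists_of_fM {n k : ℕ} (hn : 1 ≤ n) {u : ℝ} (h : fM n k < (u : EReal)) :
    ∃ x : ℝ, 0 ≤ x ∧ x < u ∧ ∃ B : Set (E n), HasProg k B ∧ SmallCover (x / n) B := by
  obtain ⟨x, hx1, hx2⟩ := EReal.lt_iff_exists_real_btwn.1 h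
  have hx0 : 0 ≤ x := by
    have := (fM_nonneg n k).trans hx1.le
    exact_mod_cast this
  have hn0 : (n : ℝ) ≠ 0 := by
    have : n ≠ 0 := by omega
    exact_mod_cast this
  refine ⟨x, hx0, by exact_mod_cast hx2, ?_⟩
  refine Pool.Agent.Zk23.KKFinal.exists_of_fM (τ := x / n) (n := n) (k := k) ?_
  rw [div_mul_cancel₀ _ hn0]
  exact hx1

/-- `C^1` images of cubes of every dimension above the exponent -/
theorem c1_exact {n d k : ℕ} (hn : 1 ≤ n) (hk : 1 ≤ k) (h : fM n k < ((d : ℝ) : EReal)) :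
    ∃ g : E d → E n, ContDiff ℝ 1 g ∧ HasProg k (g '' cube d) := by
  obtain ⟨x, hx0, hxd, B, hB, hcov⟩ := exists_of_fM hn h
  have hn0 : (n : ℝ) ≠ 0 := by
    have : n ≠ 0 := by omega
    exact_mod_cast this
  obtain ⟨t', hxt, htd⟩ := exists_between hxd
  have ht'0 : 0 < t' := lt_of_le_of_lt hx0 hxt
  obtain ⟨p, hp⟩ := exists_nat_gt (t' / (d - t'))
  rw [div_lt_iff₀ (by linarith)] at hp
  have hp1 : (p + 1) * t' ≤ p * d := by linarith
  have hev1 : ∀ᶠ N : ℕ in atTop, (3 ^ n : ℝ) ≤ (N : ℝ) ^ (t' - x) := by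
    have h1 : Tendsto (fun p : ℕ => (p : ℝ) ^ (t' - x)) atTop atTop :=
      (tendsto_rpow_atTop (by linarith)).comp tendsto_natCast_atTop_atTop
    exact h1.eventually_ge_atTop _
  obtain ⟨N₀, hN₀⟩ := (hcov.and hev1).exists_forall_of_atTop
  obtain ⟨M, hM⟩ : ∃ M, M = max 3 N₀ := ⟨_, rfl⟩
  have hM3 : 3 ≤ M := by rw [hM]; exact le_max_left _ _
  have hM0 : (0 : ℝ) < M := by
    have : 0 < M := by omega
    exact_mod_cast this
  obtain ⟨N, hN⟩ : ∃ N, N = M ^ (p + 1) := ⟨_, rfl⟩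
  have hMN : M ≤ N := by
    rw [hN]
    exact Nat.le_self_pow (by omega) M
  have hN0 : (0 : ℝ) < N := by
    have : 0 < N := by omega
    exact_mod_cast this
  obtain ⟨⟨S, hS1, hS2⟩, hN3⟩ := hN₀ N (((le_max_right _ _).trans hM.symm.le).trans hMN)
  obtain ⟨A, hA1, hA2⟩ := discretise n k N (by omega) B hB S hS1
  have hAr : (A.card : ℝ) ≤ (N : ℝ) ^ t' := by
    calc (A.card : ℝ) ≤ 3 ^ n * S.card := by exact_mod_cast hA1
      _ ≤ (N : ℝ) ^ (t' - x) * (N : ℝ) ^ (x / n * n) := by gcongr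
      _ = (N : ℝ) ^ t' := by
          rw [div_mul_cancel₀ _ hn0, ← Real.rpow_add hN0]
          congr 1
          ring
  have hAc : A.card ≤ (M ^ p) ^ d := by
    have h1 : (A.card : ℝ) ≤ ((M ^ p) ^ d : ℕ) := by
      calc (A.card : ℝ) ≤ (N : ℝ) ^ t' := hAr
        _ = (M : ℝ) ^ (((p + 1 : ℕ) : ℝ) * t') := by
            rw [hN]
            push_cast
            rw [← Real.rpow_natCast, ← Real.rpow_mul hM0.le]
            congr 1
            push_cast
            ring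
        _ ≤ (M : ℝ) ^ ((p : ℝ) * d) := by
            apply Real.rpow_le_rpow_of_exponent_le
            · have : 1 ≤ M := by omega
              exact_mod_cast this
            · push_cast
              exact hp1
        _ = ((M ^ p) ^ d : ℕ) := by
            push_cast
            rw [← Real.rpow_natCast, ← Real.rpow_natCast, ← Real.rpow_mul hM0.le]
    exact_mod_cast h1
  have h2c : 2 * M ^ p < N := by
    rw [hN, pow_succ']
    have h2 : 0 < M ^ p := Nat.pow_pos (by omega)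
    exact Nat.mul_lt_mul_of_pos_right (by omega) h2
  obtain ⟨g, hg, hgα⟩ := c1_code d n (M ^ p) N (Nat.one_le_pow _ _ (by omega)) h2c A hAc
  refine ⟨g, hg, code_prog hk (by omega) A hA2 ?_⟩
  intro α hα
  obtain ⟨x, hx, hx2⟩ := hgα α hα
  exact ⟨g x, ⟨x, hx, rfl⟩, hx2⟩

/-- finite sets with all differences bound the exponent -/
theorem fM_le_of_finite (n k : ℕ) (hk : 1 ≤ k) (t : ℝ) (ht : 0 ≤ t)
    (h : ∀ᶠ N : ℕ in atTop, ∃ A : Finset (Fin n → ℤ), (A.card : ℝ) ≤ (N : ℝ) ^ t ∧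
      ∀ v : Fin n → ℕ, (∀ i, v i < N) → ∃ α : Fin n → ℤ, ∀ j : ℕ, j < k →
        (fun i => α i + (j : ℤ) * (v i : ℤ)) ∈ A) : fM n k ≤ (t : EReal) := by
  obtain ⟨N, ⟨A, hA1, hA2⟩, hN2⟩ := (h.and (eventually_ge_atTop 2)).exists
  obtain ⟨h1, h2⟩ := digit_dim n N hN2 A t ht hA1
  refine iInf_le_of_le _ (iInf_le_of_le h1 (iInf_le_of_le ?_ h2))
  refine code_prog hk hN2 A hA2 fun α hα => ?_
  exact ⟨WithLp.toLp 2 fun i => ∑' J : ℕ, (α J i : ℝ) / (N : ℝ) ^ (J + 1), ⟨α, hα, fun i => rfl⟩,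
    fun i => rfl⟩

/-- **Positive measure of the differences bounds the exponent** -/
theorem fM_le_of_union (n d k : ℕ) (hn : 1 ≤ n) (hk : 1 ≤ k)
    (f : ℕ → E d → E n) (hf : ∀ i, ContDiff ℝ 1 (f i))
    (hv : volume (diffs k (⋃ i, range (f i))) ≠ 0) : fM n k ≤ ((d : ℝ) : EReal) := by
  by_contra hcon
  push Not at hcon
  obtain ⟨t', ht1, ht2⟩ := EReal.lt_iff_exists_real_btwn.1 hcon
  have ht1' : (d : ℝ) < t' := by exact_mod_cast ht1
  have hd0 : (0 : ℝ) ≤ d := Nat.cast_nonneg _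
  obtain ⟨g, hg, s, hs⟩ := Pool.Agent.Zk23.KKConvR.compact_piece n d k f hf hv
  obtain ⟨C, hC, hcovC⟩ := Pool.Agent.Zk23.KKConvR.finite_union d n g hg s
  have hev := finite_of_measure_gen n k hn hk _ C d t' hd0 ht1' hcovC hs
  exact absurd (fM_le_of_finite n k hk t' (by linarith) hev) (not_le.2 ht2)

/-- **Graphs of class `C^s`** -/
theorem graph_of_fM (s d m k n : ℕ) (hs : 1 ≤ s) (hd : 1 ≤ d) (hk : 1 ≤ k) (hn : 1 ≤ n)
    (h : fM n k < ((n * d / (d + s * m) : ℝ) : EReal)) (ε : ℝ) (hε : 0 < ε) :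
    ∃ g : E d → E m, ContDiff ℝ s g ∧
      ENNReal.ofReal (1 - ε) ≤ volume (cube (d + m) ∩ diffs k (graphSet g)) := by
  obtain ⟨x, hx0, hxd, B, hB, hcov⟩ := exists_of_fM hn h
  have hn0 : (0 : ℝ) < n := by exact_mod_cast hn
  have hd0 : (0 : ℝ) < d := by exact_mod_cast hd
  have hden : (0 : ℝ) < d + s * m := by positivity
  have h1 : x / n < d / (d + s * m) := by
    rw [div_lt_iff₀ hn0]
    calc x < n * d / (d + s * m) := hxd
      _ = d / (d + s * m) * n := by ring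
  obtain ⟨t, ht1, ht2⟩ := exists_between h1
  have hF := one_dim n k hn (x / n) t (div_nonneg hx0 hn0.le) ht1 B hB hcov
  refine graph_exact k d m s hk hd hs t ?_ hF ε hε
  rw [lt_div_iff₀ hden] at ht2
  push_cast
  calc t * (d + m * s) = t * (d + s * m) := by ring
    _ < d := ht2

/-- **If the conjecture fails** -/
theorem fail (h : ¬ AKC) : ∃ c : ℝ, 0 < c ∧ ∀ s d : ℕ, 1 ≤ s → 1 ≤ d → (s : ℝ) ≤ c * d →
    ∀ (k : ℕ) (ε : ℝ), 0 < ε → ∃ g : E d → E 1, ContDiff ℝ s g ∧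
      ENNReal.ofReal (1 - ε) ≤ volume (cube (d + 1) ∩ diffs k (graphSet g)) := by
  obtain ⟨n₀, τ, hn₀, hτ0, hτ1, hk⟩ := cover_of_not_akc h
  obtain ⟨t, hτt, ht1⟩ := exists_between hτ1
  refine ⟨(1 - t) / 2, by linarith, fun s d hs hd hsd k ε hε => ?_⟩
  obtain ⟨B, hB, hcov⟩ := hk (max k 1)
  have hF := one_dim n₀ (max k 1) hn₀ τ t hτ0 hτt B hB hcov
  have hd0 : (1 : ℝ) ≤ d := by exact_mod_cast hd
  have hs0 : (1 : ℝ) ≤ s := by exact_mod_cast hs
  obtain ⟨g, hg, hv⟩ := graph_exact (max k 1) d 1 s (le_max_right _ _) hd hs t (by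
    push_cast
    nlinarith) hF ε hε
  refine ⟨g, hg, hv.trans (measure_mono ?_)⟩
  exact inter_subset_inter_right _ (diffs_mono (le_max_left _ _) Subset.rfl)

end Pool.Agent.Zk23.KKExact
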