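import Pool.Agent.Zk23.KKIff
import Pool.Agent.Zk23.KKCrB

/-!
# Exponents and `C^r` images
-/

set_option autoImplicit false

open Set Filter Topology
open scoped ContDiff

namespace Pool.Agent.Zk23.KKExpR

open Pool.Agent.Zk23.KKEquiv (E HasProg)
open Pool.Agent.Zk23.KKIff
open Pool.Agent.Results.MP_4b405e_nt.AlgebraicSets (coverNum upperMinkowski)
open Pool.Agent.Zk23.KKCrB (SmallCover uniform)

/-- small dimension gives small covers -/
theorem smallCover {n : ℕ} {τ : ℝ} {B : Set (E n)}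
    (hb : Bornology.IsBounded B) (hd : upperMinkowski B < ((τ * n : ℝ) : EReal)) :
    SmallCover τ B := by
  classical
  obtain ⟨s, hs1, hs2⟩ := EReal.lt_iff_exists_real_btwn.1 hd
  have hs2' : s < τ * n := by exact_mod_cast hs2
  obtain ⟨t, hst, ht⟩ := exists_between hs2'
  have hsmall := Pool.Agent.Zk50.KakPack.cover_small B hb hst hs1.le
  obtain ⟨η, hη, hcov⟩ := (mem_nhdsGT_iff_exists_Ioo_subset).1 hsmall
  have hη0 : (0 : ℝ) < η := hη
  have hev1 : ∀ᶠ N : ℕ in atTop, ((2 : ℝ) ^ t) ≤ (N : ℝ) ^ (τ * n - t) := by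
    have h1 : Tendsto (fun p : ℕ => (p : ℝ) ^ (τ * n - t)) atTop atTop :=
      (tendsto_rpow_atTop (by linarith)).comp tendsto_natCast_atTop_atTop
    exact h1.eventually_ge_atTop _
  obtain ⟨P, hP⟩ := exists_nat_gt (max 1 (1 / η + 1))
  filter_upwards [hev1, eventually_ge_atTop P] with N hN1 hNP
  have hMN' : (P : ℝ) ≤ N := by exact_mod_cast hNP
  have hN1' : (1 : ℝ) < N := lt_of_lt_of_le (lt_of_le_of_lt (le_max_left _ _) hP) hMN'
  have hNη : 1 / η + 1 < N := lt_of_lt_of_le (lt_of_le_of_lt (le_max_right _ _) hP) hMN'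
  have hN0 : (0 : ℝ) < N := by linarith
  have hmem : 1 / (2 * (N : ℝ)) ∈ Ioo 0 η := by
    refine ⟨by positivity, ?_⟩
    rw [div_lt_comm₀ (by positivity) hη0]
    linarith
  obtain ⟨-, K, U, hU1, hU2, hU3⟩ := hcov hmem
  -- a finite set of centres
  let S : Finset (E n) := (Finset.univ.filter fun i => (U i).Nonempty).image
    (fun i : Fin K => if h : (U i).Nonempty then h.some else 0)
  have hScard : (S.card : ℝ) ≤ (2 * (N : ℝ)) ^ t := by
    have h1 : S.card ≤ K := by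
      refine Finset.card_image_le.trans ?_
      refine (Finset.card_filter_le _ _).trans ?_
      simp
    have h2 : (K : ℝ) ≤ (2 * (N : ℝ)) ^ t := by
      have h3 : (1 / (2 * (N : ℝ))) ^ t = ((2 * (N : ℝ)) ^ t)⁻¹ := by
        rw [one_div, Real.inv_rpow (by positivity)]
      rw [h3, ← div_eq_mul_inv, div_le_one (Real.rpow_pos_of_pos (by positivity) _)] at hU3
      exact hU3
    exact le_trans (by exact_mod_cast h1) h2
  have hScov : B ⊆ ⋃ x ∈ S, Metric.ball x (1 / (N : ℝ)) := by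
    intro b hb
    obtain ⟨i, hi⟩ := mem_iUnion.1 (hU2 hb)
    have hne : (U i).Nonempty := ⟨b, hi⟩
    refine mem_iUnion₂.2 ⟨hne.some, ?_, ?_⟩
    · rw [Finset.mem_image]
      refine ⟨i, Finset.mem_filter.2 ⟨Finset.mem_univ _, hne⟩, ?_⟩
      rw [dif_pos hne]
    · rw [Metric.mem_ball]
      refine lt_of_le_of_lt (hU1 i b hi _ hne.some_mem) ?_
      rw [div_lt_div_iff₀ (by positivity) hN0]
      linarith
  refine ⟨S, hScov, hScard.trans ?_⟩
  calc (2 * (N : ℝ)) ^ t = 2 ^ t * (N : ℝ) ^ t := Real.mul_rpow (by norm_num) hN0.le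
    _ ≤ (N : ℝ) ^ (τ * n - t) * (N : ℝ) ^ t := by gcongr
    _ = (N : ℝ) ^ (τ * n) := by
        rw [← Real.rpow_add hN0]
        congr 1
        ring

/-- exponents of `C^r` images -/
theorem exponents (r n₀ : ℕ) (hn₀ : 1 ≤ n₀) (τ σ : ℝ) (hτ0 : 0 ≤ τ) (hτ1 : τ < 1)
    (hσ : (r + 1) * τ / (1 + r * τ) < σ) :
    ∃ n d : ℕ, 1 ≤ n ∧ (d : ℝ) < σ * n ∧ ∀ k : ℕ, 1 ≤ k → fM n₀ k < ((τ * n₀ : ℝ) : EReal) →
      ∃ g : E d → E n, ContDiff ℝ r g ∧ HasProg k (g '' {x | ∀ i, x i ∈ Icc (0 : ℝ) 1}) := by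
  obtain ⟨n, d, h1, h2, h3⟩ := uniform r n₀ hn₀ τ σ hτ0 hτ1 hσ
  refine ⟨n, d, h1, h2, fun k hk h => ?_⟩
  obtain ⟨B, h⟩ := iInf_lt_iff.1 h
  obtain ⟨hb, h⟩ := iInf_lt_iff.1 h
  obtain ⟨hB, h⟩ := iInf_lt_iff.1 h
  exact h3 k hk B hB (smallCover hb h)

end Pool.Agent.Zk23.KKExpR
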