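import Pool.Agent.Zk23.KKMainR
import Pool.Agent.Zk23.KKCor
import Pool.Agent.Zk72.KakEx

/-!
# Exact dimensions of countable unions of images of class `C^r`
-/

set_option autoImplicit false

open Set Filter Topology Module MeasureTheory
open scoped ContDiff ENNReal

namespace Pool.Agent.Zk23.KKFinR

open Pool.Agent.Zk23.KKMain (E)
open Pool.Agent.Zk23.KKMainR (CoverR layers)
open Pool.Agent.Zk23.KKCor (le_dimH_of_volume)

theorem mono {r r' n d : ℕ} {B : Set (E n)} (hr : r' ≤ r) (h : CoverR r n d B) : CoverR r' n d B := by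
  obtain ⟨f, hf, hB⟩ := h
  exact ⟨f, fun i => (hf i).of_le (by exact_mod_cast hr), hB⟩

/-- the multipliers of a `k`-term progression -/
noncomputable def T (k : ℕ) : Finset ℝ := (Finset.range k).image (fun j : ℕ => (j : ℝ))

theorem card_T (k : ℕ) : (T k).card = k := by
  rw [T, Finset.card_image_of_injective _ Nat.cast_injective, Finset.card_range]

theorem set_T {n k : ℕ} (B : Set (E n)) : {ρ : E n | ∃ a, ∀ j : ℕ, j < k → a + (j : ℝ) • ρ ∈ B} =
    {ρ | ∃ a, ∀ t ∈ T k, a + t • ρ ∈ B} := by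
  ext ρ
  constructor
  · rintro ⟨a, ha⟩
    refine ⟨a, fun t ht => ?_⟩
    rw [T, Finset.mem_image] at ht
    obtain ⟨j, hj, rfl⟩ := ht
    exact ha j (Finset.mem_range.1 hj)
  · rintro ⟨a, ha⟩
    refine ⟨a, fun j hj => ha j ?_⟩
    rw [T, Finset.mem_image]
    exact ⟨j, Finset.mem_range.2 hj, rfl⟩

/-- progressions of length `r + 1` and smoothness `r` -/
theorem all_layers (n : ℕ) (T : Finset ℝ) {r : ℕ} (hr : 1 ≤ r) (hq : T.card = r + 1) (d : ℝ → ℕ)
    (B : ℝ → Set (E n)) (hB : ∀ t ∈ T, CoverR r n (d t) (B t)) :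
    (r : ℝ≥0∞) * dimH {ρ | ∃ x, ∀ t ∈ T, x + t • ρ ∈ B t} ≤ ((∑ t ∈ T, d t : ℕ) : ℝ≥0∞) := by
  obtain ⟨t₀, ht₀⟩ := Infinite.exists_notMem_finset T
  have h := layers n T hr hq (zero_add r) d B hB t₀ ht₀ univ
  have h3 : {ρ | ∃ x, x + t₀ • ρ ∈ (univ : Set (E n)) ∧ ∀ t ∈ T, x + t • ρ ∈ B t} =
      {ρ | ∃ x, ∀ t ∈ T, x + t • ρ ∈ B t} := by
    ext ρ; simp
  rw [h3, Nat.cast_zero, zero_mul, zero_add, zero_add] at h
  have hr0 : (r : ℝ≥0∞) ≠ 0 := by exact_mod_cast (by omega : r ≠ 0)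
  have hrt : (r : ℝ≥0∞) ≠ ⊤ := ENNReal.natCast_ne_top r
  rw [Nat.cast_mul, mul_assoc] at h
  exact (ENNReal.mul_le_mul_iff_right hr0 hrt).1 h

/-- the lower bound -/
theorem lower {n k r d : ℕ} (hr : 1 ≤ r) (hk : 1 ≤ k) {B : Set (E n)} (hB : CoverR r n d B)
    (hv : volume {ρ : E n | ∃ a, ∀ j : ℕ, j < k → a + (j : ℝ) • ρ ∈ B} ≠ 0) :
    n - n / min k (r + 1) ≤ d := by
  obtain ⟨k', hk'⟩ : ∃ k', k' + 1 = min k (r + 1) := ⟨min k (r + 1) - 1, by omega⟩
  rw [← hk']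
  rcases Nat.eq_zero_or_pos k' with h0 | h0
  · subst h0
    simp
  have hk1 : k' + 1 ≤ k := by omega
  have hk2 : k' ≤ r := by omega
  have h1 := all_layers n (T (k' + 1)) h0 (card_T _) (fun _ => d) (fun _ => B)
    (fun _ _ => mono hk2 hB)
  rw [Finset.sum_const, card_T, smul_eq_mul, ← set_T] at h1
  have h2 : volume {ρ : E n | ∃ a, ∀ j : ℕ, j < k' + 1 → a + (j : ℝ) • ρ ∈ B} ≠ 0 := by
    intro h
    apply hv
    refine measure_mono_null ?_ h
    rintro ρ ⟨a, ha⟩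
    exact ⟨a, fun j hj => ha j (by omega)⟩
  have h3 := le_dimH_of_volume h2
  have h4 : ((k' * n : ℕ) : ℝ≥0∞) ≤ (((k' + 1) * d : ℕ) : ℝ≥0∞) := by
    rw [Nat.cast_mul]
    exact (mul_le_mul_right h3 _).trans h1
  have h5 : k' * n ≤ (k' + 1) * d := by exact_mod_cast h4
  by_contra hcon
  push Not at hcon
  have h7 : n / (k' + 1) < n - d := by
    generalize n / (k' + 1) = z at hcon ⊢
    omega
  have hdn : d ≤ n := by
    by_contra h
    have : n - d = 0 := by omega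
    rw [this] at h7
    exact absurd h7 (Nat.not_lt_zero _)
  rw [Nat.div_lt_iff_lt_mul (by omega)] at h7
  have h8 : (n - d) * (k' + 1) + (k' + 1) * d = n * (k' + 1) := by
    rw [mul_comm (k' + 1) d, ← add_mul]
    congr 1
    omega
  have h9 : n * (k' + 1) = k' * n + n := by ring
  clear h4 h1 h3 hcon
  omega

/-- a subspace of dimension at most `d` is the image of a smooth map from `ℝ^d` -/
theorem exists_param_subspace {n d : ℕ} (V : Submodule ℝ (E n)) (hV : finrank ℝ V ≤ d) :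
    ∃ f : E d → E n, ContDiff ℝ ∞ f ∧ (V : Set (E n)) ⊆ range f := by
  have h1 : finrank ℝ (E (finrank ℝ V)) = finrank ℝ V := by simp
  let e : E (finrank ℝ V) ≃L[ℝ] V := ContinuousLinearEquiv.ofFinrankEq h1
  let L : E d → E (finrank ℝ V) := fun x => WithLp.toLp 2 fun i => x (Fin.castLE hV i)
  have hL : ContDiff ℝ ∞ L := by
    rw [contDiff_euclidean]
    intro i
    exact (EuclideanSpace.proj (Fin.castLE hV i) : E d →L[ℝ] ℝ).contDiff
  refine ⟨fun x => (e (L x) : E n), V.subtypeL.contDiff.comp (e.contDiff.comp hL), ?_⟩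
  intro v hv
  refine ⟨WithLp.toLp 2 fun i : Fin d => if h : (i : ℕ) < finrank ℝ V then
    e.symm ⟨v, hv⟩ ⟨i, h⟩ else 0, ?_⟩
  have h2 : L (WithLp.toLp 2 fun i : Fin d => if h : (i : ℕ) < finrank ℝ V then
      e.symm ⟨v, hv⟩ ⟨i, h⟩ else 0) = e.symm ⟨v, hv⟩ := by
    ext i
    simp only [L]
    have : ((Fin.castLE hV i : Fin d) : ℕ) < finrank ℝ V := i.2
    rw [dif_pos this]
    rfl
  simp only
  rw [h2, e.apply_symm_apply]

/-- the example -/
theorem example_cover (n k r d : ℕ) (hk : 1 ≤ k) (hd : n - n / k ≤ d) :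
    ∃ B : Set (E n), CoverR r n d B ∧
      {ρ : E n | ∃ a, ∀ j : ℕ, j < k → a + (j : ℝ) • ρ ∈ B} = univ := by
  classical
  set T' : Finset ℝ := (T k).erase 0 with hT'
  have h0 : (0 : ℝ) ∈ T k := by
    rw [T, Finset.mem_image]
    exact ⟨0, Finset.mem_range.2 (by omega), by simp⟩
  have hcard : T'.card = k - 1 := by rw [hT', Finset.card_erase_of_mem h0, card_T]
  have hdiv : n / k ≤ n := Nat.div_le_self _ _
  have hsum : ∑ t ∈ T', (n - (n - n / k)) = (k - 1) * (n / k) := by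
    rw [Finset.sum_const, hcard, smul_eq_mul]
    congr 1
    generalize n / k = z at hdiv ⊢
    omega
  have hle : (k - 1) * (n / k) ≤ n - n / k := by
    have h1 : k * (n / k) ≤ n := Nat.mul_div_le n k
    have h2 : (k - 1) * (n / k) + n / k = k * (n / k) := by
      obtain ⟨k', rfl⟩ : ∃ k', k = k' + 1 := ⟨k - 1, by omega⟩
      rw [Nat.add_sub_cancel]
      ring
    generalize (k - 1) * (n / k) = y at h2 ⊢
    generalize n / k = z at h1 h2 ⊢
    generalize k * z = w at h1 h2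
    omega
  have hle' : (k - 1) * (n / k) ≤ n := hle.trans (Nat.sub_le _ _)
  obtain ⟨V, Z, hV, hZ, hP⟩ := Pool.Agent.Zk72.KakEx.kakeya_example n T' 0 (by simp [hT'])
    (fun _ => n - n / k) (fun _ _ => Nat.sub_le _ _) (by rw [hsum]; exact hle')
  have hVf : ∀ t : ℝ, ∃ f : E d → E n, ContDiff ℝ ∞ f ∧
      (t ∈ T' → (V t : Set (E n)) ⊆ range f) := by
    intro t
    by_cases ht : t ∈ T'
    · obtain ⟨f, hf, hf2⟩ := exists_param_subspace (V t) ((hV t ht).le.trans hd)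
      exact ⟨f, hf, fun _ => hf2⟩
    · exact ⟨fun _ => 0, contDiff_const, fun h => absurd h ht⟩
  choose f hf hf2 using hVf
  obtain ⟨g, hg, hg2⟩ := exists_param_subspace (d := d) Z (by rw [hZ, hsum]; exact hle.trans hd)
  refine ⟨⋃ i : ℕ, range (if i = 0 then g else f i), ⟨fun i => if i = 0 then g else f i, ?_,
    subset_rfl⟩, ?_⟩
  · intro i
    simp only
    split_ifs
    · exact hg.of_le (by exact_mod_cast le_top)
    · exact (hf _).of_le (by exact_mod_cast le_top)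
  · refine eq_univ_of_forall fun ρ => ?_
    obtain ⟨a, ha0, ha⟩ := hP ρ
    refine ⟨a, fun j hj => ?_⟩
    rw [mem_iUnion]
    rcases Nat.eq_zero_or_pos j with h | h
    · subst h
      refine ⟨0, ?_⟩
      rw [if_pos rfl]
      rw [Nat.cast_zero]
      exact hg2 ha0
    · refine ⟨j, ?_⟩
      rw [if_neg (by omega)]
      have hjT : (j : ℝ) ∈ T' := by
        rw [hT', Finset.mem_erase, T, Finset.mem_image]
        exact ⟨by exact_mod_cast (by omega : j ≠ 0), j, Finset.mem_range.2 hj, rfl⟩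
      exact hf2 j hjT (ha j hjT)

/-- the exact least dimension for smoothness `r ≥ k - 1` -/
theorem exact (n k r d : ℕ) (hr : 1 ≤ r) (hk : 1 ≤ k) (hkr : k ≤ r + 1) :
    ((∃ B : Set (E n), CoverR r n d B ∧
      volume {ρ : E n | ∃ a, ∀ j : ℕ, j < k → a + (j : ℝ) • ρ ∈ B} ≠ 0) ↔ n - n / k ≤ d) := by
  constructor
  · rintro ⟨B, hB, hv⟩
    have := lower hr hk hB hv
    rwa [min_eq_left hkr] at this
  · intro h
    obtain ⟨B, hB, hP⟩ := example_cover n k r d hk h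
    refine ⟨B, hB, ?_⟩
    rw [hP]
    exact (Measure.measure_univ_pos.2 (NeZero.ne _)).ne'

end Pool.Agent.Zk23.KKFinR
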