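import Pool.Agent.Zk23.KKGraph
import Pool.Agent.Zk23.KKExpR
import Pool.Agent.Zk50.G2g
import Pool.Agent.Zk50.G3g

/-!
# Graphs of maps of class `C^r` and the arithmetic Kakeya exponents
-/

set_option autoImplicit false

open Set Filter Topology MeasureTheory
open scoped ContDiff

namespace Pool.Agent.Zk23.KKGraphR

open Pool.Agent.Zk23.KKEquiv (E HasProg AKC HasProg.mono)
open Pool.Agent.Zk23.KKCrA (reduce_set)
open Pool.Agent.Zk23.KKCr (digit_sum)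
open Pool.Agent.Zk23.KKCrB (SmallCover)
open Pool.Agent.Zk72.KakDisc (discretise)
open Pool.Agent.Zk50.G2 (hier_code_gen)
open Pool.Agent.Zk50.G3 (digits_measure_gen)
open Pool.Agent.Zk23.KKSets (finite_sets)
open Pool.Agent.Zk23.KKGraph (power_set)

/-- the graph of `g : ℝ^d → ℝ^m` -/
def graphSet {d m : ℕ} (g : E d → E m) : Set (E (d + m)) :=
  {w | ∀ j : Fin m, w (Fin.natAdd d j) = g (WithLp.toLp 2 fun i => w (Fin.castAdd m i)) j}

/-- the sets of one level -/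
theorem level (q k n₀ l d m r S b : ℕ) (hq : q.Prime) (hk : 1 ≤ k) (hd : 1 ≤ d) (hm : 1 ≤ m)
    (hr : 1 ≤ r) (hb : 1 ≤ b) (hl : l * n₀ = d + m * r) (hbq : 4 * k * (2 * b) ≤ q)
    (hqS : 16 * (S + 1) * 2 ^ (m * r) ≤ q) (A : Finset (Fin n₀ → ℤ))
    (hA : ∀ v : Fin n₀ → ℕ, (∀ i, v i < q) → ∃ α : Fin n₀ → ℤ, ∀ j : ℕ, j < k →
      (fun i => α i + (j : ℤ) * (v i : ℤ)) ∈ A)
    (hcard : A.card ^ l ≤ q ^ (d - 1)) :
    ∃ (G : Finset ((Fin d → ℕ) × (Fin m → ℕ))) (Bad : Finset (Fin (d + m) → ℕ)),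
      (∀ x ∈ G, (∀ i, x.1 i < q) ∧ ∀ j, x.2 j ≤ r * ((2 * b) ^ (r - 1) * q)) ∧
      (∀ x ∈ G, ∀ y ∈ G, x ≠ y → ∃ i, (S : ℤ) < |(x.1 i : ℤ) - y.1 i|) ∧
      Bad.card ≤ 2 * k * 4 ^ (d + m * r) * (2 * S + 1) ^ d * q ^ (d + m * r - 1) ∧
      ∀ x : Fin (d + m) → ℕ, (∀ i, x (Fin.castAdd m i) < b) → (∀ j, x (Fin.natAdd d j) < (2 * b) ^ r) →
        x ∉ Bad → ∃ (a : Fin d → ℕ) (c : Fin m → ℕ), ∀ t : ℕ, t < k →
          (fun i => a i + t * x (Fin.castAdd m i), fun j => c j + t * x (Fin.natAdd d j)) ∈ G := by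
  classical
  haveI : Fact q.Prime := ⟨hq⟩
  obtain ⟨A₀, h1, h2⟩ := reduce_set q k n₀ A hA
  let e : Fin l × Fin n₀ ≃ Fin d ⊕ Fin (m * r) :=
    finProdFinEquiv.trans ((finCongr hl).trans finSumFinEquiv.symm)
  obtain ⟨A₁, h3, h4⟩ := power_set q k n₀ l d (m * r) e A₀ h2
  obtain ⟨G, Bad, g1, g2, g3, g4⟩ := finite_sets q k d (m * r) S (2 * b) hq hk hd
    (Nat.mul_pos hm hr) hbq hqS A₁ h4 ((h3.trans (Nat.pow_le_pow_left h1 l)).trans hcard)
  let V : (Fin (m * r) → ℕ) → Fin m → ℕ := fun y j =>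
    ∑ i : Fin r, (2 * b) ^ (i : ℕ) * y (finProdFinEquiv (j, i))
  refine ⟨G.image (fun x => (x.1, V x.2)), Bad.image (fun x => Fin.append x.1 (V x.2)), ?_, ?_, ?_, ?_⟩
  · intro x' hx'
    obtain ⟨x, hx, rfl⟩ := Finset.mem_image.1 hx'
    refine ⟨(g1 x hx).1, fun j => ?_⟩
    simp only [V]
    calc ∑ i : Fin r, (2 * b) ^ (i : ℕ) * x.2 (finProdFinEquiv (j, i))
        ≤ ∑ _i : Fin r, (2 * b) ^ (r - 1) * q := by
          refine Finset.sum_le_sum fun i _ => ?_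
          refine Nat.mul_le_mul (Nat.pow_le_pow_right (by omega) (by omega)) ((g1 x hx).2 _).le
      _ = r * ((2 * b) ^ (r - 1) * q) := by simp
  · intro x' hx' y' hy' hxy
    obtain ⟨x, hx, rfl⟩ := Finset.mem_image.1 hx'
    obtain ⟨y, hy, rfl⟩ := Finset.mem_image.1 hy'
    exact g2 x hx y hy (fun h => hxy (by rw [h]))
  · exact Finset.card_image_le.trans g3
  · intro x hx1 hx2 hbad
    let σ : Fin (m * r) → ℕ := fun l =>
      x (Fin.natAdd d (finProdFinEquiv.symm l).1) / (2 * b) ^ ((finProdFinEquiv.symm l).2 : ℕ) % (2 * b)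
    have hV : V σ = fun j => x (Fin.natAdd d j) := by
      ext j
      simp only [V, σ, Equiv.symm_apply_apply]
      exact digit_sum (2 * b) (by omega) r _ (hx2 j)
    obtain ⟨a, ha⟩ := g4 (fun i => x (Fin.castAdd m i), σ) (fun i => (hx1 i).trans_le (by omega))
      (fun i => Nat.mod_lt _ (by omega))
      (fun h => hbad (Finset.mem_image.2 ⟨_, h, by
        simp only [hV]
        ext i
        refine Fin.addCases (fun i => ?_) (fun i => ?_) i
        · simp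
        · simp⟩))
    refine ⟨a.1, V a.2, fun t ht => ?_⟩
    rw [Finset.mem_image]
    refine ⟨_, ha t ht, ?_⟩
    refine Prod.ext ?_ ?_
    · ext i
      simp
    · ext j
      have hj : V σ j = x (Fin.natAdd d j) := congrFun hV j
      change V (a.2 + t • σ) j = V a.2 j + t * x (Fin.natAdd d j)
      rw [← hj]
      simp only [V]
      rw [Finset.mul_sum, ← Finset.sum_add_distrib]
      refine Finset.sum_congr rfl fun i _ => ?_
      simp
      ring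

/-- the primes and the bases -/
theorem primes (k Q : ℕ) (hk : 1 ≤ k) (hQ : 16 * k ≤ Q) : ∃ q b : ℕ → ℕ, ∀ J : ℕ,
    (q J).Prime ∧ Q * (J + 1) ^ 2 < q J ∧ q J ≤ 2 * (Q * (J + 1) ^ 2) ∧ 4 * k * (2 * b J) ≤ q J ∧
      q J ≤ 16 * k * b J ∧ 2 ≤ b J := by
  obtain ⟨q, b, h⟩ := Pool.Agent.Zk23.KKGraph.primes (2 * k) Q (by omega) (by omega)
  refine ⟨q, b, fun J => ?_⟩
  obtain ⟨h1, h2, h3, h4, h5, h6⟩ := h J
  refine ⟨h1, h2, h3, ?_, ?_, h6⟩
  · calc 4 * k * (2 * b J) = 4 * (2 * k) * b J := by ring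
      _ ≤ q J := h4
  · calc q J ≤ 8 * (2 * k) * b J := h5
      _ = 16 * k * b J := by ring

/-- from the levels to a map -/
theorem assemble (k d m r Q C : ℕ) (hk : 1 ≤ k) (hr : 1 ≤ r) (hQ0 : 1 ≤ Q) (q b : ℕ → ℕ)
    (hq1 : ∀ J, Q * (J + 1) ^ 2 < q J) (hq2 : ∀ J, q J ≤ 2 * (Q * (J + 1) ^ 2))
    (hbq : ∀ J, 4 * k * (2 * b J) ≤ q J) (hqb : ∀ J, q J ≤ 16 * k * b J) (hb : ∀ J, 2 ≤ b J)
    (G : ℕ → Finset ((Fin d → ℕ) × (Fin m → ℕ))) (Bad : ℕ → Finset (Fin (d + m) → ℕ))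
    (h1 : ∀ J, ∀ x ∈ G J, (∀ i, x.1 i < q J) ∧ ∀ j, x.2 j ≤ r * ((2 * b J) ^ (r - 1) * q J))
    (h2 : ∀ J, ∀ x ∈ G J, ∀ y ∈ G J, x ≠ y → ∃ i, ((64 * k + 2 : ℕ) : ℤ) < |(x.1 i : ℤ) - y.1 i|)
    (h3 : ∀ J, (Bad J).card ≤ C * q J ^ (d + m * r - 1)) (hdm : 1 ≤ d + m * r)
    (η : ℝ) (hη : 0 < η)
    (hQ : (C : ℝ) * (16 * k) ^ (d + m * r) * ∑' J : ℕ, 1 / ((J : ℝ) + 1) ^ 2 < η * Q)
    (h4 : ∀ J (x : Fin (d + m) → ℕ), (∀ i, x (Fin.castAdd m i) < b J) →
      (∀ j, x (Fin.natAdd d j) < (2 * b J) ^ r) → x ∉ Bad J →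
        ∃ (a : Fin d → ℕ) (c : Fin m → ℕ), ∀ t : ℕ, t < k →
          (fun i => a i + t * x (Fin.castAdd m i), fun j => c j + t * x (Fin.natAdd d j)) ∈ G J) :
    ∃ g : E d → E m, ContDiff ℝ r g ∧ ENNReal.ofReal (1 - η) ≤
      volume ({z : E (d + m) | ∀ i, z i ∈ Icc (0 : ℝ) 1} ∩
        {z | ∃ a : E (d + m), ∀ t : ℕ, t < k → a + (t : ℝ) • z ∈ graphSet g}) := by
  classical
  set P : ℕ → ℕ := fun J => ∏ j ∈ Finset.range (J + 1), b j with hP
  have hP2 : ∀ J, (2 : ℝ) ^ (J + 1) ≤ P J := by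
    intro J
    have : 2 ^ (J + 1) ≤ P J := by
      calc 2 ^ (J + 1) = ∏ _j ∈ Finset.range (J + 1), 2 := by simp
        _ ≤ P J := Finset.prod_le_prod' fun j _ => hb j
    exact_mod_cast this
  have hP1 : ∀ J, (1 : ℝ) ≤ P J := fun J => (one_le_pow₀ one_le_two).trans (hP2 J)
  have hP0 : ∀ J, (0 : ℝ) < P J := fun J => one_pos.trans_le (hP1 J)
  set Y : ℕ → ℝ := fun J => ∏ j ∈ Finset.range (J + 1), (((2 * b j) ^ r : ℕ) : ℝ) with hY
  have hYP : ∀ J, Y J = (2 : ℝ) ^ (r * (J + 1)) * (P J : ℝ) ^ r := by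
    intro J
    simp only [hY, hP]
    push_cast
    rw [← Finset.prod_pow, show (2 : ℝ) ^ (r * (J + 1)) = ∏ _j ∈ Finset.range (J + 1), (2 : ℝ) ^ r by
      rw [Finset.prod_const, Finset.card_range, ← pow_mul], ← Finset.prod_mul_distrib]
    refine Finset.prod_congr rfl fun j _ => ?_
    rw [mul_pow]
  have hY0 : ∀ J, 0 < Y J := by
    intro J
    rw [hYP]
    have := hP0 J
    positivity
  set M : ℕ → ℝ := fun J => r * ((2 * b J : ℝ) ^ (r - 1) * q J) with hM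
  have hM0 : ∀ J, 0 ≤ M J := fun J => by positivity
  have hQr : (1 : ℝ) ≤ Q := by exact_mod_cast hQ0
  have hq2r : ∀ J, (q J : ℝ) ≤ 2 * (Q * ((J : ℝ) + 1) ^ 2) := fun J => by exact_mod_cast hq2 J
  have hbqr : ∀ J, (b J : ℝ) ≤ q J := by
    intro J
    have : b J ≤ q J := by
      calc b J ≤ 4 * k * (2 * b J) := by nlinarith
        _ ≤ q J := hbq J
    exact_mod_cast this
  have hq1r : ∀ J, (1 : ℝ) ≤ q J := by
    intro J
    have : 1 ≤ q J := by
      have := hq1 J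
      omega
    exact_mod_cast this
  have hMs : Summable fun J => M J / (2 : ℝ) ^ (J + 1) := by
    have hs : Summable fun J : ℕ => ((J : ℝ)) ^ (2 * r) * (1 / 2 : ℝ) ^ J :=
      summable_pow_mul_geometric_of_norm_lt_one _ (by norm_num)
    have hs1 := ((summable_nat_add_iff 1).2 hs).mul_left ((r : ℝ) * (4 * Q) ^ r)
    refine Summable.of_nonneg_of_le (fun J => div_nonneg (hM0 J) (by positivity)) (fun J => ?_) hs1
    have e1 : M J ≤ (r : ℝ) * (4 * Q) ^ r * ((J : ℝ) + 1) ^ (2 * r) := by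
      calc M J ≤ (r : ℝ) * ((2 * q J : ℝ) ^ (r - 1) * (2 * q J)) := by
            simp only [hM]
            have e2 : (q J : ℝ) ≤ 2 * q J := by linarith [hq1r J]
            have e3 : (2 * b J : ℝ) ≤ 2 * q J := by linarith [hbqr J]
            gcongr
        _ = (r : ℝ) * (2 * q J : ℝ) ^ r := by rw [← pow_succ, Nat.sub_add_cancel hr]
        _ ≤ (r : ℝ) * (2 * (2 * (Q * ((J : ℝ) + 1) ^ 2))) ^ r := by gcongr; exact hq2r J
        _ = _ := by rw [pow_mul, mul_assoc, ← mul_pow]; ring_nf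
    rw [div_eq_mul_inv]
    push_cast
    calc M J * ((2 : ℝ) ^ (J + 1))⁻¹
        ≤ (r : ℝ) * (4 * Q) ^ r * ((J : ℝ) + 1) ^ (2 * r) * ((2 : ℝ) ^ (J + 1))⁻¹ := by gcongr
      _ = _ := by rw [one_div, inv_pow]; ring
  have hMs2 : Summable fun J => M J * (P J : ℝ) ^ r / Y J := by
    refine Summable.of_nonneg_of_le (fun J => ?_) (fun J => ?_) hMs
    · exact div_nonneg (mul_nonneg (hM0 J) (pow_pos (hP0 J) _).le) (hY0 J).le
    · rw [hYP, mul_div_mul_right _ _ (pow_pos (hP0 J) _).ne']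
      refine div_le_div_of_nonneg_left (hM0 J) (by positivity) ?_
      exact pow_le_pow_right₀ one_le_two (Nat.le_mul_of_pos_left _ hr)
  -- the components
  have hgj := fun j : Fin m => hier_code_gen r d (16 * k) (by omega) b hb P (fun J => rfl) Y hY0
    (fun J => (G J).image fun x => (x.1, x.2 j)) M
    (fun J x hx i => by
      obtain ⟨x, hx', rfl⟩ := Finset.mem_image.1 hx
      exact ((h1 J x hx').1 i).le.trans (hqb J))
    (fun J x hx => by
      obtain ⟨x, hx', rfl⟩ := Finset.mem_image.1 hx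
      have := (h1 J x hx').2 j
      simp only [hM]
      exact_mod_cast this)
    (fun J x hx y hy hxy => by
      obtain ⟨x, hx', rfl⟩ := Finset.mem_image.1 hx
      obtain ⟨y, hy', rfl⟩ := Finset.mem_image.1 hy
      obtain ⟨i, hi⟩ := h2 J x hx' y hy' (fun h => hxy (by rw [h]))
      refine ⟨i, ?_⟩
      push_cast at hi ⊢
      omega) hMs2
  choose g hg1 hg2 using hgj
  refine ⟨fun x => WithLp.toLp 2 fun j => g j x, contDiff_euclidean.2 fun j => hg1 j, ?_⟩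
  -- the digits
  set B : ℕ → Fin (d + m) → ℕ := fun J => Fin.append (fun _ => b J) (fun _ => (2 * b J) ^ r) with hB
  have hBprod : ∀ J, ∏ i, (B J i : ℝ) = (b J : ℝ) ^ d * ((2 * b J : ℝ) ^ r) ^ m := by
    intro J
    rw [Fin.prod_univ_add]
    simp only [hB, Fin.append_left, Fin.append_right]
    simp
  set c₀ : ℝ := (C : ℝ) * (16 * k) ^ (d + m * r) / Q with hc₀
  have hZ : Summable fun J : ℕ => 1 / ((J : ℝ) + 1) ^ 2 := by
    have := (summable_nat_add_iff 1).2 (Real.summable_one_div_nat_pow.2 one_lt_two)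
    simpa using this
  have hdig := digits_measure_gen (d + m) B (fun J i => by
      refine Fin.addCases (fun i => ?_) (fun i => ?_) i
      · simp only [hB, Fin.append_left]; exact hb J
      · simp only [hB, Fin.append_right]
        calc 2 ≤ 2 * b J := by have := hb J; omega
          _ ≤ (2 * b J) ^ r := Nat.le_self_pow (by omega) _)
    Bad (fun J => c₀ * (1 / ((J : ℝ) + 1) ^ 2)) (hZ.mul_left _) (fun J => by
      have e1 : ((Bad J).card : ℝ) ≤ C * (q J : ℝ) ^ (d + m * r - 1) := by exact_mod_cast h3 J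
      have e2 : (Q : ℝ) * ((J : ℝ) + 1) ^ 2 ≤ q J := by exact_mod_cast (hq1 J).le
      have e3 : (q J : ℝ) ≤ 16 * k * b J := by exact_mod_cast hqb J
      have e4 : (0 : ℝ) < (Q : ℝ) * ((J : ℝ) + 1) ^ 2 := by positivity
      have e5 : (q J : ℝ) ^ (d + m * r - 1) * ((Q : ℝ) * ((J : ℝ) + 1) ^ 2) ≤
          (16 * k * b J) ^ (d + m * r) := by
        calc (q J : ℝ) ^ (d + m * r - 1) * ((Q : ℝ) * ((J : ℝ) + 1) ^ 2)
            ≤ (q J : ℝ) ^ (d + m * r - 1) * q J := by gcongr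
          _ = (q J : ℝ) ^ (d + m * r) := by rw [← pow_succ, Nat.sub_add_cancel hdm]
          _ ≤ _ := by gcongr
      have e6 : (b J : ℝ) ^ (d + m * r) ≤ (b J : ℝ) ^ d * ((2 * b J : ℝ) ^ r) ^ m := by
        rw [pow_add, ← pow_mul, mul_comm r m]
        have : (b J : ℝ) ≤ 2 * b J := by
          have : (0 : ℝ) ≤ b J := Nat.cast_nonneg _
          linarith
        gcongr
      rw [hBprod]
      calc ((Bad J).card : ℝ) ≤ C * (q J : ℝ) ^ (d + m * r - 1) := e1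
        _ ≤ C * ((16 * k * b J) ^ (d + m * r) / ((Q : ℝ) * ((J : ℝ) + 1) ^ 2)) := by
            gcongr
            rw [le_div_iff₀ e4]
            exact e5
        _ = c₀ * (1 / ((J : ℝ) + 1) ^ 2) * (b J : ℝ) ^ (d + m * r) := by
            simp only [hc₀]
            rw [mul_pow]
            field_simp
        _ ≤ _ := by
            gcongr)
  refine le_trans (ENNReal.ofReal_le_ofReal ?_) (hdig.trans (measure_mono ?_))
  · rw [tsum_mul_left, hc₀, div_mul_eq_mul_div]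
    have hQ0r : (0 : ℝ) < Q := by linarith
    have e1 := (div_lt_iff₀ hQ0r).2 hQ
    linarith
  · rintro z ⟨hz, x, hx, hbad, hsum⟩
    refine ⟨hz, ?_⟩
    have hx1 : ∀ J i, x J (Fin.castAdd m i) < b J := fun J i => by
      have := hx J (Fin.castAdd m i)
      simpa only [hB, Fin.append_left] using this
    have hx2 : ∀ J j, x J (Fin.natAdd d j) < (2 * b J) ^ r := fun J j => by
      have := hx J (Fin.natAdd d j)
      simpa only [hB, Fin.append_right] using this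
    have hz1 : ∀ i : Fin d, HasSum (fun J => (x J (Fin.castAdd m i) : ℝ) / (P J : ℝ))
        (z (Fin.castAdd m i)) := fun i => by
      have := hsum (Fin.castAdd m i)
      simp only [hB, Fin.append_left] at this
      simpa only [hP, Nat.cast_prod] using this
    have hz2 : ∀ j : Fin m, HasSum (fun J => (x J (Fin.natAdd d j) : ℝ) / Y J)
        (z (Fin.natAdd d j)) := fun j => by
      have := hsum (Fin.natAdd d j)
      simpa only [hB, Fin.append_right] using this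
    choose a c hac using fun J => h4 J (x J) (hx1 J) (hx2 J) (hbad J)
    have haM : ∀ J i, (a J i : ℝ) ≤ M J := by
      intro J i
      have e1 := ((h1 J _ (hac J 0 (by omega))).1 i).le
      simp only [zero_mul, add_zero] at e1
      have e2 : q J ≤ r * ((2 * b J) ^ (r - 1) * q J) := by
        have : 0 < (2 * b J) ^ (r - 1) := Nat.pow_pos (by have := hb J; omega)
        exact (Nat.le_mul_of_pos_left _ this).trans (Nat.le_mul_of_pos_left _ (by omega))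
      simp only [hM]
      exact_mod_cast e1.trans e2
    have hcM : ∀ J j, (c J j : ℝ) ≤ M J := by
      intro J j
      have e1 := (h1 J _ (hac J 0 (by omega))).2 j
      simp only [zero_mul, add_zero] at e1
      simp only [hM]
      exact_mod_cast e1
    have has : ∀ i, Summable fun J => (a J i : ℝ) / (P J : ℝ) := fun i =>
      Summable.of_nonneg_of_le (fun J => div_nonneg (Nat.cast_nonneg _) (hP0 J).le)
        (fun J => (div_le_div_of_nonneg_right (haM J i) (hP0 J).le).trans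
          (div_le_div_of_nonneg_left (hM0 J) (by positivity) (hP2 J))) hMs
    have hcs : ∀ j, Summable fun J => (c J j : ℝ) / Y J := fun j =>
      Summable.of_nonneg_of_le (fun J => div_nonneg (Nat.cast_nonneg _) (hY0 J).le)
        (fun J => by
          refine (div_le_div_of_nonneg_right (hcM J j) (hY0 J).le).trans ?_
          refine div_le_div_of_nonneg_right ?_ (hY0 J).le
          exact le_mul_of_one_le_right (hM0 J) (one_le_pow₀ (hP1 J))) hMs2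
    refine ⟨WithLp.toLp 2 (Fin.append (fun i : Fin d => ∑' J, (a J i : ℝ) / (P J : ℝ))
      (fun j => ∑' J, (c J j : ℝ) / Y J)), fun t ht j => ?_⟩
    have e1 := hg2 j (fun J => (fun i => a J i + t * x J (Fin.castAdd m i),
      c J j + t * x J (Fin.natAdd d j))) (fun J => Finset.mem_image.2 ⟨_, hac J t ht, rfl⟩)
    simp only [PiLp.add_apply, PiLp.smul_apply, smul_eq_mul, Fin.append_left, Fin.append_right]
    have e2 : ∀ i : Fin d, ∑' J, (a J i : ℝ) / (P J : ℝ) + t * z (Fin.castAdd m i) =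
        ∑' J : ℕ, ((a J i + t * x J (Fin.castAdd m i) : ℕ) : ℝ) / (P J : ℝ) := by
      intro i
      have := ((has i).hasSum.add ((hz1 i).mul_left (t : ℝ))).tsum_eq
      rw [← this]
      refine tsum_congr fun J => ?_
      push_cast
      ring
    have e3 : ∑' J, (c J j : ℝ) / Y J + t * z (Fin.natAdd d j) =
        ∑' J : ℕ, ((c J j + t * x J (Fin.natAdd d j) : ℕ) : ℝ) / Y J := by
      have := ((hcs j).hasSum.add ((hz2 j).mul_left (t : ℝ))).tsum_eq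
      rw [← this]
      refine tsum_congr fun J => ?_
      push_cast
      ring
    rw [e3]
    simp_rw [e2]
    exact e1.symm

/-- **Graphs with many differences from sets of small dimension** -/
theorem graph_of_cover (k n₀ l d m r : ℕ) (hk : 1 ≤ k) (hd : 1 ≤ d) (hm : 1 ≤ m) (hr : 1 ≤ r)
    (hl : l * n₀ = d + m * r) (τ τ' : ℝ) (hττ' : τ < τ') (hn₀ : 1 ≤ n₀)
    (hdτ : τ' * (l * n₀) ≤ ((d - 1 : ℕ) : ℝ)) (B : Set (E n₀)) (hB : HasProg k B)
    (hcov : SmallCover τ B) (η : ℝ) (hη : 0 < η) :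
    ∃ g : E d → E m, ContDiff ℝ r g ∧ ENNReal.ofReal (1 - η) ≤
      volume ({z : E (d + m) | ∀ i, z i ∈ Icc (0 : ℝ) 1} ∩
        {z | ∃ a : E (d + m), ∀ t : ℕ, t < k → a + (t : ℝ) • z ∈ graphSet g}) := by
  have hn₀r : (1 : ℝ) ≤ n₀ := by exact_mod_cast hn₀
  have hev1 : ∀ᶠ p : ℕ in atTop, (3 ^ n₀ : ℝ) ≤ (p : ℝ) ^ ((τ' - τ) * n₀) := by
    have h1 : Tendsto (fun p : ℕ => (p : ℝ) ^ ((τ' - τ) * n₀)) atTop atTop :=
      (tendsto_rpow_atTop (mul_pos (by linarith) (by linarith))).comp tendsto_natCast_atTop_atTop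
    exact h1.eventually_ge_atTop _
  obtain ⟨Q₀, hQ₀⟩ := (hcov.and hev1).exists_forall_of_atTop
  set S : ℕ := 64 * k + 2 with hS
  set C : ℕ := 2 * k * 4 ^ (d + m * r) * (2 * S + 1) ^ d with hC
  obtain ⟨Q₁, hQ₁⟩ := exists_nat_gt
    ((C : ℝ) * (16 * k) ^ (d + m * r) * (∑' J : ℕ, 1 / ((J : ℝ) + 1) ^ 2) / η)
  rw [div_lt_iff₀ hη] at hQ₁
  set Q : ℕ := max (max Q₀ Q₁) (max (16 * k) (16 * (S + 1) * 2 ^ (m * r))) with hQ
  have hQa : Q₀ ≤ Q := (le_max_left _ _).trans (le_max_left _ _)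
  have hQb : Q₁ ≤ Q := (le_max_right _ _).trans (le_max_left _ _)
  have hQc : 16 * k ≤ Q := (le_max_left _ _).trans (le_max_right _ _)
  have hQd : 16 * (S + 1) * 2 ^ (m * r) ≤ Q := (le_max_right _ _).trans (le_max_right _ _)
  obtain ⟨q, b, hqb⟩ := primes k Q hk hQc
  have hQq : ∀ J, Q ≤ q J := fun J =>
    (Nat.le_mul_of_pos_right Q (by positivity)).trans (hqb J).2.1.le
  have hlev : ∀ J : ℕ, ∃ (G : Finset ((Fin d → ℕ) × (Fin m → ℕ))) (Bad : Finset (Fin (d + m) → ℕ)),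
      (∀ x ∈ G, (∀ i, x.1 i < q J) ∧ ∀ j, x.2 j ≤ r * ((2 * b J) ^ (r - 1) * q J)) ∧
      (∀ x ∈ G, ∀ y ∈ G, x ≠ y → ∃ i, (S : ℤ) < |(x.1 i : ℤ) - y.1 i|) ∧
      Bad.card ≤ C * (q J) ^ (d + m * r - 1) ∧
      ∀ x : Fin (d + m) → ℕ, (∀ i, x (Fin.castAdd m i) < b J) →
        (∀ j, x (Fin.natAdd d j) < (2 * b J) ^ r) →
        x ∉ Bad → ∃ (a : Fin d → ℕ) (c : Fin m → ℕ), ∀ t : ℕ, t < k →
          (fun i => a i + t * x (Fin.castAdd m i), fun j => c j + t * x (Fin.natAdd d j)) ∈ G := by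
    intro J
    obtain ⟨⟨T, hT1, hT2⟩, h3⟩ := hQ₀ (q J) (hQa.trans (hQq J))
    obtain ⟨p1, p2, p3, p4, p5, p6⟩ := hqb J
    have hp0 : (0 : ℝ) < q J := by exact_mod_cast p1.pos
    have hp1 : (1 : ℝ) < q J := by exact_mod_cast p1.one_lt
    obtain ⟨A, hA1, hA2⟩ := discretise n₀ k (q J) p1.one_lt.le B hB T hT1
    have hAr : (A.card : ℝ) ≤ (q J : ℝ) ^ (τ' * n₀) := by
      calc (A.card : ℝ) ≤ 3 ^ n₀ * T.card := by exact_mod_cast hA1
        _ ≤ (q J : ℝ) ^ ((τ' - τ) * n₀) * (q J : ℝ) ^ (τ * n₀) := by gcongr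
        _ = (q J : ℝ) ^ (τ' * n₀) := by
            rw [← Real.rpow_add hp0]
            congr 1
            ring
    have hAc : A.card ^ l ≤ (q J) ^ (d - 1) := by
      have : ((A.card ^ l : ℕ) : ℝ) ≤ (((q J) ^ (d - 1) : ℕ) : ℝ) := by
        push_cast
        calc (A.card : ℝ) ^ l ≤ ((q J : ℝ) ^ (τ' * n₀)) ^ l := by gcongr
          _ = (q J : ℝ) ^ (τ' * (l * n₀)) := by
              rw [← Real.rpow_natCast, ← Real.rpow_mul hp0.le]
              congr 1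
              ring
          _ ≤ (q J : ℝ) ^ (((d - 1 : ℕ) : ℝ)) := Real.rpow_le_rpow_of_exponent_le hp1.le hdτ
          _ = _ := Real.rpow_natCast _ _
      exact_mod_cast this
    exact level (q J) k n₀ l d m r S (b J) p1 hk hd hm hr (by omega) hl p4 (hQd.trans (hQq J)) A hA2 hAc
  choose G Bad g1 g2 g3 g4 using hlev
  refine assemble k d m r Q C hk hr (by omega) q b (fun J => (hqb J).2.1) (fun J => (hqb J).2.2.1)
    (fun J => (hqb J).2.2.2.1) (fun J => (hqb J).2.2.2.2.1) (fun J => (hqb J).2.2.2.2.2)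
    G Bad g1 g2 g3 (by omega) η hη (hQ₁.trans_le ?_) g4
  rw [mul_comm]
  exact mul_le_mul_of_nonneg_left (by exact_mod_cast hQb) hη.le

/-- hypersurfaces -/
theorem hypersurfaces (r n₀ : ℕ) (hr : 1 ≤ r) (hn₀ : 1 ≤ n₀) (τ : ℝ) (hτ0 : 0 ≤ τ) (hτ1 : τ < 1) :
    ∃ d : ℕ, 1 ≤ d ∧ ∀ k : ℕ, 1 ≤ k → ∀ B : Set (E n₀), HasProg k B → SmallCover τ B →
      ∀ η : ℝ, 0 < η → ∃ g : E d → E 1, ContDiff ℝ r g ∧ ENNReal.ofReal (1 - η) ≤
        volume ({z : E (d + 1) | ∀ i, z i ∈ Icc (0 : ℝ) 1} ∩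
          {z | ∃ a : E (d + 1), ∀ t : ℕ, t < k → a + (t : ℝ) • z ∈ graphSet g}) := by
  obtain ⟨τ', hττ', hτ'1⟩ := exists_between hτ1
  have hτ'0 : 0 < τ' := lt_of_le_of_lt hτ0 hττ'
  have hn₀r : (1 : ℝ) ≤ n₀ := by exact_mod_cast hn₀
  obtain ⟨l, hl⟩ := exists_nat_gt ((r + 1 : ℝ) / (1 - τ'))
  rw [div_lt_iff₀ (by linarith)] at hl
  have hl1 : (r + 1 : ℝ) < l * n₀ * (1 - τ') := by
    refine hl.trans_le ?_
    apply mul_le_mul_of_nonneg_right _ (by linarith)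
    nlinarith [(Nat.cast_nonneg l : (0 : ℝ) ≤ l)]
  have hl2 : r + 1 < l * n₀ := by
    have : (r + 1 : ℝ) < l * n₀ := by
      nlinarith [mul_nonneg (Nat.cast_nonneg l : (0 : ℝ) ≤ l) (by linarith : (0 : ℝ) ≤ n₀)]
    exact_mod_cast this
  obtain ⟨d, hd⟩ : ∃ d, l * n₀ = d + 1 * r := ⟨l * n₀ - 1 * r, by omega⟩
  have hd1 : 1 ≤ d := by omega
  have hdR : (l : ℝ) * n₀ = d + r := by
    have : ((l * n₀ : ℕ) : ℝ) = ((d + 1 * r : ℕ) : ℝ) := by rw [hd]
    push_cast at this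
    linarith
  have hdτ : τ' * (l * n₀) ≤ ((d - 1 : ℕ) : ℝ) := by
    rw [Nat.cast_sub hd1]
    push_cast
    nlinarith
  exact ⟨d, hd1, fun k hk B hB hcov η hη =>
    graph_of_cover k n₀ l d 1 r hk hd1 le_rfl hr hd τ τ' hττ' hn₀ hdτ B hB hcov η hη⟩

/-- the exponents of graphs -/
theorem uniform (r n₀ : ℕ) (hr : 1 ≤ r) (hn₀ : 1 ≤ n₀) (τ σ : ℝ) (hτ0 : 0 ≤ τ) (hτ1 : τ < 1)
    (hσ : r * τ / (1 + (r - 1) * τ) < σ) :
    ∃ d m : ℕ, 1 ≤ m ∧ (d : ℝ) < σ * (d + m : ℕ) ∧ ∀ k : ℕ, 1 ≤ k → ∀ B : Set (E n₀), HasProg k B →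
      SmallCover τ B → ∀ η : ℝ, 0 < η → ∃ g : E d → E m, ContDiff ℝ r g ∧
        ENNReal.ofReal (1 - η) ≤ volume ({z : E (d + m) | ∀ i, z i ∈ Icc (0 : ℝ) 1} ∩
          {z | ∃ a : E (d + m), ∀ t : ℕ, t < k → a + (t : ℝ) • z ∈ graphSet g}) := by
  -- the exponent `τ₂`
  have hr1 : (1 : ℝ) ≤ r := by exact_mod_cast hr
  have hcont : ContinuousAt (fun x : ℝ => r * x / (1 + (r - 1) * x)) τ := by
    apply ContinuousAt.div
    · fun_prop
    · fun_prop
    · have : 0 ≤ (r - 1 : ℝ) * τ := mul_nonneg (by linarith) hτ0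
      linarith
  have hev : ∀ᶠ x in 𝓝[>] τ, r * x / (1 + (r - 1) * x) < σ ∧ x < 1 :=
    (((hcont.eventually (gt_mem_nhds hσ)).and (gt_mem_nhds hτ1)).filter_mono nhdsWithin_le_nhds)
  obtain ⟨τ₂, ⟨hτ₂σ, hτ₂1⟩, hττ₂⟩ := (hev.and self_mem_nhdsWithin).exists
  have hττ₂ : τ < τ₂ := hττ₂
  obtain ⟨τ₁, hττ₁, hτ₁τ₂⟩ := exists_between hττ₂
  have hτ₁0 : 0 < τ₁ := lt_of_le_of_lt hτ0 hττ₁
  have hτ₂0 : 0 < τ₂ := hτ₁0.trans hτ₁τ₂
  have hr0 : 0 ≤ (r - 1 : ℝ) := by linarith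
  have hden : (0 : ℝ) < 1 + (r - 1) * τ₂ := by
    have := mul_nonneg hr0 hτ₂0.le
    linarith
  rw [div_lt_iff₀ hden] at hτ₂σ
  have hgap : 0 < σ * (1 + (r - 1) * τ₂) - r * τ₂ := by linarith
  obtain ⟨q, hq⟩ := exists_nat_gt (max (r / (σ * (1 + (r - 1) * τ₂) - r * τ₂))
    (max (1 / (τ₂ - τ₁)) (1 / (1 - τ₂))))
  have hq2 : (r : ℝ) < q * (σ * (1 + (r - 1) * τ₂) - r * τ₂) := by
    have := lt_of_le_of_lt (le_max_left _ _) hq
    rwa [div_lt_iff₀ hgap] at this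
  have hq3 : 1 < q * (τ₂ - τ₁) := by
    have := lt_of_le_of_lt ((le_max_left _ _).trans (le_max_right _ _)) hq
    rwa [div_lt_iff₀ (by linarith)] at this
  have hq4 : 1 < q * (1 - τ₂) := by
    have := lt_of_le_of_lt ((le_max_right _ _).trans (le_max_right _ _)) hq
    rwa [div_lt_iff₀ (by linarith)] at this
  have hq0 : (0 : ℝ) < q := by
    by_contra hcon
    have : (q : ℝ) = 0 := le_antisymm (not_lt.1 hcon) (Nat.cast_nonneg _)
    rw [this] at hq4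
    linarith
  have hn₀r : (1 : ℝ) ≤ n₀ := by exact_mod_cast hn₀
  set l : ℕ := r * q with hl
  set m : ℕ := ⌊(1 - τ₂) * (q * n₀)⌋₊ with hm
  have hqn : (0 : ℝ) < q * n₀ := by positivity
  have hqn1 : (q : ℝ) ≤ q * n₀ := by nlinarith
  have hm1 : (m : ℝ) ≤ (1 - τ₂) * (q * n₀) := Nat.floor_le (mul_nonneg (by linarith) hqn.le)
  have hm2 : (1 - τ₂) * (q * n₀) < m + 1 := Nat.lt_floor_add_one _
  have hm3 : 1 ≤ m := by
    rw [hm, Nat.one_le_floor_iff]
    nlinarith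
  have hmle : m ≤ q * n₀ := by
    have : (m : ℝ) ≤ ((q * n₀ : ℕ) : ℝ) := by
      push_cast
      nlinarith
    exact_mod_cast this
  obtain ⟨d, hd⟩ : ∃ d : ℕ, l * n₀ = d + m * r := by
    refine ⟨l * n₀ - m * r, ?_⟩
    have : m * r ≤ l * n₀ := by
      rw [hl]
      calc m * r ≤ (q * n₀) * r := Nat.mul_le_mul_right _ hmle
        _ = r * q * n₀ := by ring
    omega
  have hdR : (d : ℝ) = r * (q * n₀) - m * r := by
    have : ((l * n₀ : ℕ) : ℝ) = ((d + m * r : ℕ) : ℝ) := by rw [hd]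
    rw [hl] at this
    push_cast at this
    linarith
  have hd1 : τ₂ * (r * (q * n₀)) ≤ d := by
    rw [hdR]
    nlinarith
  have hd2 : (d : ℝ) ≤ r * τ₂ * (q * n₀) + r := by
    rw [hdR]
    nlinarith
  have hn1 : (1 + (r - 1) * τ₂) * (q * n₀) ≤ d + m := by
    rw [hdR]
    nlinarith [mul_le_mul_of_nonneg_left hm1 hr0]
  have hσ0 : 0 < σ := by
    by_contra hcon
    push Not at hcon
    nlinarith [mul_pos (by linarith : (0 : ℝ) < r) hτ₂0]
  have hrq : q * n₀ ≤ r * (q * n₀ : ℝ) := by nlinarith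
  have hd3 : τ₁ * (r * (q * n₀)) + 1 ≤ d := by
    refine le_trans ?_ hd1
    have : 1 ≤ (τ₂ - τ₁) * (r * (q * n₀)) := by
      have h1 : (τ₂ - τ₁) * q ≤ (τ₂ - τ₁) * (r * (q * n₀)) :=
        mul_le_mul_of_nonneg_left (hqn1.trans hrq) (by linarith)
      linarith
    linarith
  have hd4 : 1 ≤ d := by
    have : (1 : ℝ) ≤ d := by
      have : 0 ≤ τ₁ * (r * (q * n₀)) := by positivity
      linarith
    exact_mod_cast this
  have hratio : (d : ℝ) < σ * ((d + m : ℕ) : ℝ) := by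
    push_cast
    have h1 : σ * ((1 + (r - 1) * τ₂) * (q * n₀)) ≤ σ * (d + m) :=
      mul_le_mul_of_nonneg_left hn1 hσ0.le
    have h2 : (r : ℝ) < (q * n₀) * (σ * (1 + (r - 1) * τ₂) - r * τ₂) := by
      refine lt_of_lt_of_le hq2 ?_
      exact mul_le_mul_of_nonneg_right hqn1 hgap.le
    nlinarith
  refine ⟨d, m, hm3, hratio, fun k hk B hB hcov η hη => ?_⟩
  refine graph_of_cover k n₀ l d m r hk hd4 hm3 hr hd τ τ₁ hττ₁ hn₀ ?_ B hB hcov η hη
  rw [Nat.cast_sub hd4, hl]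
  push_cast
  linarith

end Pool.Agent.Zk23.KKGraphR
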