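import Pool.Agent.Zk9.Lift

/-!
# Letters with positions, values and colours (after `Zk9/Lift`)
-/

set_option autoImplicit false

namespace Pool.Agent.Zk23.KKLetters

open Finset
open Pool.Agent.Zk9.KK (red card_lifts exists_coloring)

theorem letters (q k d M h S C₀ b : ℕ) (hq : q.Prime) (hk : 1 ≤ k) (hbq : k * b ≤ q)
    (A : Finset ((Fin d → ZMod q) × (Fin M → ZMod q)))
    (hA : ∀ ρ : (Fin d → ZMod q) × (Fin M → ZMod q), ∃ a : (Fin d → ZMod q) × (Fin M → ZMod q),
      ∀ t : ℕ, t < k → a + t • ρ ∈ A)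
    (hfib : ∀ c : Fin d → ZMod q, (A.filter (fun x => x.1 = c)).card ≤ q ^ (h - 1))
    (hlarge : (2 * S + 1) ^ d * 2 ^ (d + M) * q ^ (h - 1) + 1 ≤ (C₀ / (S + 1) + 1) ^ h) :
    ∃ (ι : Type) (_ : Finite ι) (u : ι → Fin d → ℕ) (v : ι → Fin M → ℕ) (c : ι → Fin h → ℕ),
      (∀ a i, u a i < 2 * q) ∧ (∀ a i, v a i < 2 * q) ∧ (∀ a i, c a i ≤ C₀) ∧
      (∀ a a', a ≠ a' → (∃ i, (S : ℤ) < |(u a i : ℤ) - u a' i|) ∨
        (∃ i, (S : ℤ) < |(c a i : ℤ) - c a' i|)) ∧
      (∀ (ρ : Fin d → ℕ) (σ : Fin M → ℕ), (∀ i, ρ i < b) → (∀ i, σ i < b) →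
        ∃ (a₀ : Fin d → ℕ) (b₀ : Fin M → ℕ), ∀ t : ℕ, t < k → ∃ a : ι,
          (∀ i, u a i = a₀ i + t * ρ i) ∧ (∀ i, v a i = b₀ i + t * σ i)) := by
  classical
  have : NeZero q := ⟨hq.ne_zero⟩
  have hq2 := hq.two_le
  set K := 2 * (q - 1) + 1 with hK
  set ι := {x : (Fin d → Fin K) × (Fin M → Fin K) // red q K d M x ∈ A} with hι
  set u : ι → Fin d → ℕ := fun a i => (a.1.1 i : ℕ) with hu
  set v : ι → Fin M → ℕ := fun a i => (a.1.2 i : ℕ) with hv
  set R : ι → ι → Prop := fun a a' => ∀ i, |(u a i : ℤ) - u a' i| ≤ S with hR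
  have hsymm : ∀ a b, R a b → R b a := by
    intro a b hab i
    rw [abs_sub_comm]
    exact hab i
  set Δ := (2 * S + 1) ^ d * 2 ^ (d + M) * q ^ (h - 1) with hΔ
  have hdeg : ∀ a : ι, {b | b ≠ a ∧ R a b}.ncard ≤ Δ := by
    intro a
    set T : Finset ι := univ.filter fun b => R a b with hT
    have h1 : {b | b ≠ a ∧ R a b}.ncard ≤ T.card := by
      rw [← Set.ncard_coe_finset]
      refine Set.ncard_le_ncard (fun b hb => ?_) (Finset.finite_toSet T)
      rw [mem_coe, hT, mem_filter]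
      exact ⟨mem_univ _, hb.2⟩
    refine h1.trans ?_
    -- the residues near `a`
    set g : (Fin d → Fin (2 * S + 1)) → (Fin d → ZMod q) := fun s i =>
      ((u a i : ℕ) : ZMod q) + ((s i : ℕ) : ZMod q) - (S : ZMod q) with hg
    set C : Finset (Fin d → ZMod q) := univ.image g with hC
    have hCc : C.card ≤ (2 * S + 1) ^ d := by
      refine card_image_le.trans ?_
      rw [card_univ, Fintype.card_fun, Fintype.card_fin, Fintype.card_fin]
    set A' := A.filter fun x => x.1 ∈ C with hA'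
    have hA'c : A'.card ≤ q ^ (h - 1) * C.card := by
      refine (card_le_mul_card_image (f := Prod.fst) A' (q ^ (h - 1)) fun c _ => ?_).trans ?_
      · refine (card_le_card ?_).trans (hfib c)
        intro x hx
        rw [mem_filter] at hx ⊢
        exact ⟨(mem_filter.1 hx.1).1, hx.2⟩
      · refine Nat.mul_le_mul_left _ (card_le_card ?_)
        intro c hc
        obtain ⟨x, hx, rfl⟩ := mem_image.1 hc
        exact (mem_filter.1 hx).2
    have himg : T.image (fun b : ι => red q K d M b.1) ⊆ A' := by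
      intro r hr
      obtain ⟨b, hb, rfl⟩ := mem_image.1 hr
      rw [hA', mem_filter]
      refine ⟨b.2, ?_⟩
      have hRb : R a b := (mem_filter.1 hb).2
      rw [hC, mem_image]
      have hlt : ∀ i, ((S : ℤ) - ((u a i : ℤ) - u b i)).toNat < 2 * S + 1 := by
        intro i
        have := abs_le.1 (hRb i)
        omega
      have hnn : ∀ i, 0 ≤ (S : ℤ) - ((u a i : ℤ) - u b i) := by
        intro i
        have := abs_le.1 (hRb i)
        omega
      refine ⟨fun i => ⟨_, hlt i⟩, mem_univ _, ?_⟩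
      funext i
      simp only [hg]
      have e1 : ((((S : ℤ) - ((u a i : ℤ) - u b i)).toNat : ℕ) : ZMod q) =
          (S : ZMod q) - (((u a i : ℕ) : ZMod q) - ((u b i : ℕ) : ZMod q)) := by
        have e2 : (((S : ℤ) - ((u a i : ℤ) - u b i)).toNat : ℤ) =
            (S : ℤ) - ((u a i : ℤ) - u b i) := Int.toNat_of_nonneg (hnn i)
        have e3 := congrArg (fun w : ℤ => (w : ZMod q)) e2
        simp only [Int.cast_natCast] at e3
        rw [e3]
        push_cast
        ring
      rw [e1]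
      show _ = ((u b i : ℕ) : ZMod q)
      ring
    have hfiber : ∀ r ∈ T.image (fun b : ι => red q K d M b.1),
        (T.filter fun b => red q K d M b.1 = r).card ≤ 2 ^ (d + M) := by
      intro r _
      refine le_trans ?_ (card_lifts (d := d) (M := M) hq one_le_two r)
      refine card_le_card_of_injOn (fun b : ι => b.1) ?_ ?_
      · intro b hb
        rw [mem_coe, mem_filter] at hb ⊢
        exact ⟨mem_univ _, hb.2⟩
      · intro b _ b' _ he
        exact Subtype.ext he
    have h2 := card_le_mul_card_image (f := fun b : ι => red q K d M b.1) T (2 ^ (d + M)) hfiber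
    calc T.card ≤ 2 ^ (d + M) * (T.image (fun b : ι => red q K d M b.1)).card := h2
      _ ≤ 2 ^ (d + M) * (q ^ (h - 1) * (2 * S + 1) ^ d) :=
          Nat.mul_le_mul_left _ ((card_le_card himg).trans (hA'c.trans (Nat.mul_le_mul_left _ hCc)))
      _ = Δ := by rw [hΔ]; ring
  obtain ⟨col, hcol⟩ := exists_coloring R hsymm Δ hdeg
  obtain ⟨emb⟩ : Nonempty (Fin (Δ + 1) ↪ (Fin h → Fin (C₀ / (S + 1) + 1))) := by
    apply Function.Embedding.nonempty_of_card_le
    rw [Fintype.card_fin, Fintype.card_fun, Fintype.card_fin, Fintype.card_fin]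
    exact hlarge
  refine ⟨ι, inferInstance, u, v, fun a i => (S + 1) * (emb (col a) i : ℕ), ?_, ?_, ?_, ?_, ?_⟩
  · intro a i
    have : (a.1.1 i : ℕ) < K := (a.1.1 i).2
    show (a.1.1 i : ℕ) < 2 * q
    omega
  · intro a i
    have : (a.1.2 i : ℕ) < K := (a.1.2 i).2
    show (a.1.2 i : ℕ) < 2 * q
    omega
  · intro a i
    have h1 : (emb (col a) i : ℕ) ≤ C₀ / (S + 1) := Nat.lt_succ_iff.1 (emb (col a) i).2
    exact (Nat.mul_le_mul_left _ h1).trans (Nat.mul_div_le C₀ (S + 1))
  · intro a a' haa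
    by_cases hRa : R a a'
    · right
      have h1 : emb (col a) ≠ emb (col a') := fun he => hcol a a' haa hRa (emb.injective he)
      obtain ⟨i, hi⟩ := Function.ne_iff.1 h1
      refine ⟨i, ?_⟩
      have h2 : (emb (col a) i : ℕ) ≠ (emb (col a') i : ℕ) := fun he => hi (Fin.ext he)
      have h3 : (1 : ℤ) ≤ |((emb (col a) i : ℕ) : ℤ) - ((emb (col a') i : ℕ) : ℤ)| :=
        Int.one_le_abs (by omega)
      push_cast
      rw [← mul_sub, abs_mul, abs_of_nonneg (by positivity : (0 : ℤ) ≤ (S : ℤ) + 1)]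
      nlinarith
    · left
      simp only [hR] at hRa
      push Not at hRa
      exact hRa
  · intro ρ σ hρ hσ
    obtain ⟨a, ha⟩ := hA (fun i => ((ρ i : ℕ) : ZMod q), fun i => ((σ i : ℕ) : ZMod q))
    have hbd : ∀ (y : ZMod q) (t r : ℕ), t < k → r < b → y.val + t * r < K := by
      intro y t r ht hr
      have h1 : y.val < q := ZMod.val_lt y
      have h2 : t * r + 1 ≤ k * b := by
        have h3 : t * r ≤ t * b := Nat.mul_le_mul_left _ hr.le
        have h4 : t * b + b ≤ k * b := by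
          calc t * b + b = (t + 1) * b := by ring
            _ ≤ k * b := Nat.mul_le_mul_right _ ht
        omega
      omega
    refine ⟨fun i => (a.1 i).val, fun i => (a.2 i).val, fun t ht => ?_⟩
    have hmem : red q K d M (fun i => ⟨(a.1 i).val + t * ρ i, hbd _ t _ ht (hρ i)⟩,
        fun i => ⟨(a.2 i).val + t * σ i, hbd _ t _ ht (hσ i)⟩) ∈ A := by
      convert ha t ht using 1
      unfold red
      ext i
      · simp
      · simp
    exact ⟨⟨_, hmem⟩, fun i => rfl, fun i => rfl⟩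

end Pool.Agent.Zk23.KKLetters
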