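import Pool.Agent.Zk23.KKCrB
import Pool.Agent.Zk23.KKExpR
import Pool.Agent.Zk50.G2g
import Pool.Agent.Zk23.KKLetters

/-!
# Images of maps of class `C^r` and the arithmetic Kakeya exponents
-/

set_option autoImplicit false

open Set Filter Topology
open scoped ContDiff

namespace Pool.Agent.Zk23.KKImgR

open Pool.Agent.Zk23.KKEquiv (E HasProg exists_digits)
open Pool.Agent.Zk23.KKCr (digit_sum summable_digits tsum_le)
open Pool.Agent.Zk23.KKCrA (reduce_set shear_set)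
open Pool.Agent.Zk23.KKCrB (SmallCover)
open Pool.Agent.Zk23.KKLetters (letters)
open Pool.Agent.Zk72.KakDisc (discretise)
open Pool.Agent.Zk50.G2 (hier_code_gen)

/-- the map of class `C^r` from the letters -/
theorem map_of_letters (b k d s h r K q : ℕ) (hb : 2 ≤ b) (hk : 1 ≤ k) (hr : 1 ≤ r) (hK : 1 ≤ K)
    {ι : Type} [Finite ι]
    (u : ι → Fin d → ℕ) (v : ι → Fin (s * r) → ℕ) (c : ι → Fin h → ℕ)
    (hu : ∀ a i, u a i ≤ K * b) (hv : ∀ a i, v a i ≤ 2 * q) (hc : ∀ a i, c a i ≤ K * b)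
    (hsep : ∀ a a', a ≠ a' → (∃ i, ((4 * K + 2 : ℕ) : ℤ) < |(u a i : ℤ) - u a' i|) ∨
      (∃ i, ((4 * K + 2 : ℕ) : ℤ) < |(c a i : ℤ) - c a' i|))
    (hprog : ∀ (ρ : Fin d → ℕ) (σ : Fin (s * r) → ℕ), (∀ i, ρ i < 2 * b) → (∀ i, σ i < 2 * b) →
        ∃ (a₀ : Fin d → ℕ) (b₀ : Fin (s * r) → ℕ), ∀ t : ℕ, t < k → ∃ a : ι,
          (∀ i, u a i = a₀ i + t * ρ i) ∧ (∀ i, v a i = b₀ i + t * σ i)) :
    ∃ g : E (d + h) → E (d + s), ContDiff ℝ r g ∧
      HasProg k (g '' {x | ∀ i, x i ∈ Icc (0 : ℝ) 1}) := by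
  classical
  haveI : Fintype ι := Fintype.ofFinite ι
  have hb0 : (0 : ℝ) < b := by
    have : 0 < b := by omega
    exact_mod_cast this
  set N : ℕ := (2 * b) ^ r with hN
  have hN2 : 2 ≤ N := by
    calc 2 ≤ 2 * b := by omega
      _ ≤ N := Nat.le_self_pow (by omega) _
  have hN0 : (0 : ℝ) < N := by
    have : 0 < N := by omega
    exact_mod_cast this
  let e : Fin s × Fin r ≃ Fin (s * r) := finProdFinEquiv
  let w : ι → Fin (d + h) → ℕ := fun a => Fin.append (u a) (c a)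
  have hw : ∀ a i, w a i ≤ K * b := by
    intro a i
    refine Fin.addCases (fun i => ?_) (fun i => ?_) i
    · simp only [w, Fin.append_left]; exact hu a i
    · simp only [w, Fin.append_right]; exact hc a i
  have hsep' : ∀ a a', a ≠ a' → ∃ i, (4 * (K : ℤ) + 3) ≤ |(w a i : ℤ) - w a' i| := by
    intro a a' haa
    rcases hsep a a' haa with ⟨i, hi⟩ | ⟨i, hi⟩
    · refine ⟨Fin.castAdd h i, ?_⟩
      simp only [w, Fin.append_left]
      push_cast at hi
      omega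
    · refine ⟨Fin.natAdd d i, ?_⟩
      simp only [w, Fin.append_right]
      push_cast at hi
      omega
  let β : Fin s → ι → ℕ := fun j a => ∑ i : Fin r, (2 * b) ^ (i : ℕ) * v a (e (j, i))
  set M₀ : ℕ := ∑ i : Fin r, (2 * b) ^ (i : ℕ) * (2 * q) with hM₀
  have hβ : ∀ j a, β j a ≤ M₀ := fun j a =>
    Finset.sum_le_sum fun i _ => Nat.mul_le_mul_left _ (hv a _)
  have hcode := fun j : Fin s => hier_code_gen r (d + h) K hK (fun _ => b) (fun _ => hb)
    (fun J => b ^ (J + 1)) (fun J => by simp) (fun J => (N : ℝ) ^ (J + 1)) (fun J => by positivity)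
    (fun _ => Finset.univ.image fun a : ι => (w a, β j a)) (fun _ => (M₀ : ℝ))
    (fun J x hx i => by
      obtain ⟨a, -, rfl⟩ := Finset.mem_image.1 hx
      exact hw a i)
    (fun J x hx => by
      obtain ⟨a, -, rfl⟩ := Finset.mem_image.1 hx
      exact_mod_cast hβ j a)
    (fun J x hx y hy hxy => by
      obtain ⟨a, -, rfl⟩ := Finset.mem_image.1 hx
      obtain ⟨a', -, rfl⟩ := Finset.mem_image.1 hy
      exact hsep' a a' (fun h => hxy (by rw [h])))
    (by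
      have h2 : Summable fun J : ℕ => ((M₀ : ℝ) * (((2 : ℝ) ^ r)⁻¹)) * (((2 : ℝ) ^ r)⁻¹) ^ J :=
        (summable_geometric_of_lt_one (by positivity) (inv_lt_one_of_one_lt₀
          (one_lt_pow₀ one_lt_two (by omega)))).mul_left _
      refine h2.congr fun J => ?_
      rw [hN]
      push_cast
      rw [← pow_mul, ← pow_mul, mul_pow, mul_comm (J + 1) r]
      have : (b : ℝ) ^ (r * (J + 1)) ≠ 0 := by positivity
      field_simp
      rw [one_div, inv_pow, pow_mul, pow_succ]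
      field_simp)
  choose g hg1 hg2 using hcode
  let G : E (d + h) → E (d + s) := fun x =>
    WithLp.toLp 2 (Fin.append (fun i : Fin d => x (Fin.castAdd h i)) (fun j : Fin s => g j x))
  have hG : ContDiff ℝ r G := by
    rw [contDiff_euclidean]
    intro i
    refine Fin.addCases (fun i => ?_) (fun j => ?_) i
    · simp only [G, Fin.append_left]
      exact (EuclideanSpace.proj (Fin.castAdd h i) : E (d + h) →L[ℝ] ℝ).contDiff
    · simp only [G, Fin.append_right]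
      exact hg1 j
  have hK0 : (0 : ℝ) < ((2 * K : ℕ) : ℝ) := by
    have : 0 < 2 * K := by omega
    exact_mod_cast this
  refine ⟨fun x => G (((2 * K : ℕ) : ℝ) • x), hG.comp (contDiff_const_smul _), ?_⟩
  intro R hR
  -- the digits of the common difference
  choose ρ hρ1 hρ2 using fun i : Fin d => exists_digits hb (hR (Fin.castAdd s i))
  choose y hy1 hy2 using fun j : Fin s => exists_digits hN2 (hR (Fin.natAdd d j))
  choose a₀ b₀ hab using fun J : ℕ => hprog (fun i => ρ i J)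
    (fun l => y (e.symm l).1 J / (2 * b) ^ ((e.symm l).2 : ℕ) % (2 * b))
    (fun i => (hρ1 i J).trans_le (by omega)) (fun l => Nat.mod_lt _ (by omega))
  have ha₀ : ∀ J i, a₀ J i ≤ K * b := by
    intro J i
    obtain ⟨a, h1, -⟩ := hab J 0 (by omega)
    have := h1 i
    rw [zero_mul, add_zero] at this
    rw [← this]
    exact hu a i
  have hb₀ : ∀ J i, b₀ J i ≤ 2 * q := by
    intro J i
    obtain ⟨a, -, h1⟩ := hab J 0 (by omega)
    have := h1 i
    rw [zero_mul, add_zero] at this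
    rw [← this]
    exact hv a i
  have hs1 : ∀ i, Summable fun J : ℕ => (a₀ J i : ℝ) / (b : ℝ) ^ (J + 1) := by
    intro i
    refine summable_digits hb (C := ((K * b : ℕ) : ℝ)) fun J => ?_
    rw [abs_of_nonneg (Nat.cast_nonneg _)]
    exact_mod_cast ha₀ J i
  have hs2 : ∀ j : Fin s, Summable fun J : ℕ =>
      ((∑ i : Fin r, (2 * b) ^ (i : ℕ) * b₀ J (e (j, i)) : ℕ) : ℝ) / (N : ℝ) ^ (J + 1) := by
    intro j
    refine summable_digits hN2 (C := (M₀ : ℝ)) fun J => ?_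
    rw [abs_of_nonneg (Nat.cast_nonneg _)]
    have : ∑ i : Fin r, (2 * b) ^ (i : ℕ) * b₀ J (e (j, i)) ≤ M₀ :=
      Finset.sum_le_sum fun i _ => Nat.mul_le_mul_left _ (hb₀ J _)
    exact_mod_cast this
  refine ⟨WithLp.toLp 2 (Fin.append (fun i : Fin d => ∑' J : ℕ, (a₀ J i : ℝ) / (b : ℝ) ^ (J + 1))
    (fun j : Fin s => ∑' J : ℕ,
      ((∑ i : Fin r, (2 * b) ^ (i : ℕ) * b₀ J (e (j, i)) : ℕ) : ℝ) / (N : ℝ) ^ (J + 1))),
    fun t ht => ?_⟩
  choose a ha1 ha2 using fun J : ℕ => hab J t ht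
  set X : E (d + h) := WithLp.toLp 2 fun i => ∑' J : ℕ, (w (a J) i : ℝ) / (b : ℝ) ^ (J + 1) with hX
  refine ⟨(((2 * K : ℕ) : ℝ)⁻¹) • X, fun i => ?_, ?_⟩
  · rw [PiLp.smul_apply, smul_eq_mul, hX]
    simp only
    constructor
    · exact mul_nonneg (by positivity) (tsum_nonneg fun J => by positivity)
    · rw [inv_mul_le_iff₀ hK0, mul_one]
      refine tsum_le hb fun J => (hw (a J) i).trans ?_
      have h1 : b ≤ 2 * (b - 1) := by omega
      calc K * b ≤ K * (2 * (b - 1)) := Nat.mul_le_mul_left _ h1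
        _ = 2 * K * (b - 1) := by ring
  · simp only
    rw [smul_smul, mul_inv_cancel₀ hK0.ne', one_smul]
    ext l
    refine Fin.addCases (fun i => ?_) (fun j => ?_) l
    · simp only [G, Fin.append_left, PiLp.add_apply, PiLp.smul_apply, smul_eq_mul, hX, w]
      have h2 := (hs1 i).hasSum.add ((hρ2 i).mul_left (t : ℝ))
      rw [← h2.tsum_eq]
      congr 1
      ext J
      rw [ha1 J i]
      push_cast
      ring
    · have h1 := hg2 j (fun J => (w (a J), β j (a J))) (fun J => Finset.mem_image.2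
        ⟨a J, Finset.mem_univ _, rfl⟩)
      have h1' : (WithLp.toLp 2 fun i => ∑' J : ℕ, (w (a J) i : ℝ) / ((b ^ (J + 1) : ℕ) : ℝ) :
          E (d + h)) = X := by
        rw [hX]
        push_cast
        rfl
      simp only at h1
      rw [h1'] at h1
      simp only [G, Fin.append_right, PiLp.add_apply, PiLp.smul_apply, smul_eq_mul]
      rw [h1]
      have h2 := (hs2 j).hasSum.add ((hy2 j).mul_left (t : ℝ))
      rw [← h2.tsum_eq]
      congr 1
      ext J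
      have h3 : ∑ i : Fin r, (2 * b) ^ (i : ℕ) * v (a J) (e (j, i)) =
          ∑ i : Fin r, (2 * b) ^ (i : ℕ) * b₀ J (e (j, i)) + t * y j J := by
        have h4 := digit_sum (2 * b) (by omega) r (y j J) (hy1 j J)
        have h5 : t * y j J = t * ∑ i : Fin r, (2 * b) ^ (i : ℕ) *
            (y j J / (2 * b) ^ (i : ℕ) % (2 * b)) := by
          rw [h4]
        rw [h5, Finset.mul_sum, ← Finset.sum_add_distrib]
        refine Finset.sum_congr rfl fun i _ => ?_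
        rw [ha2 J, Equiv.symm_apply_apply]
        ring
      simp only [β]
      rw [h3]
      push_cast
      ring

/-- the number of colours is large enough -/
theorem large_q (k d M h S K : ℕ) (hk : 1 ≤ k) (hh : 1 ≤ h) (hK : 1 ≤ K) : ∀ᶠ q : ℕ in atTop,
    (2 * S + 1) ^ d * 2 ^ (d + M) * q ^ (h - 1) + 1 ≤ (K * (q / (8 * k)) / (S + 1) + 1) ^ h := by
  set C : ℕ := (2 * S + 1) ^ d * 2 ^ (d + M) with hC
  set D : ℕ := 16 * k * (S + 1) with hD
  have hD1 : 1 ≤ D := by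
    rw [hD]
    have : 0 < 16 * k * (S + 1) := by positivity
    exact this
  filter_upwards [eventually_ge_atTop (max (8 * k) (D ^ h * (C + 1)))] with q hq
  have h1 : 8 * k ≤ q := (le_max_left _ _).trans hq
  have h2 : D ^ h * (C + 1) ≤ q := (le_max_right _ _).trans hq
  set b : ℕ := q / (8 * k) with hb
  have h3 : q ≤ D * (K * b / (S + 1) + 1) := by
    have h4 := Nat.div_add_mod q (8 * k)
    rw [← hb] at h4
    have h5 := Nat.mod_lt q (by omega : 0 < 8 * k)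
    have h6 : 1 ≤ b := by
      rw [hb, Nat.one_le_div_iff (by omega)]
      exact h1
    have h7 : q ≤ 16 * k * b := by
      have : 8 * k ≤ 8 * k * b := Nat.le_mul_of_pos_right _ h6
      have h8 : 16 * k * b = 8 * k * b + 8 * k * b := by ring
      rw [h8]
      omega
    have h8 : b ≤ (S + 1) * (K * b / (S + 1) + 1) := by
      have h9 : b ≤ K * b := Nat.le_mul_of_pos_left _ hK
      have h10 := Nat.div_add_mod (K * b) (S + 1)
      have h11 := Nat.mod_lt (K * b) (by omega : 0 < S + 1)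
      rw [mul_add, mul_one]
      omega
    calc q ≤ 16 * k * b := h7
      _ ≤ 16 * k * ((S + 1) * (K * b / (S + 1) + 1)) := Nat.mul_le_mul_left _ h8
      _ = D * (K * b / (S + 1) + 1) := by rw [hD]; ring
  have h4 : q ^ h ≤ D ^ h * (K * b / (S + 1) + 1) ^ h := by
    rw [← mul_pow]
    exact Nat.pow_le_pow_left h3 h
  have h5 : D ^ h * ((C + 1) * q ^ (h - 1)) ≤ q ^ h := by
    obtain ⟨h', rfl⟩ : ∃ h', h = h' + 1 := ⟨h - 1, by omega⟩
    calc D ^ (h' + 1) * ((C + 1) * q ^ (h' + 1 - 1))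
        = (D ^ (h' + 1) * (C + 1)) * q ^ h' := by
          rw [Nat.add_sub_cancel]; ring
      _ ≤ q * q ^ h' := Nat.mul_le_mul_right _ h2
      _ = q ^ (h' + 1) := by rw [pow_succ']
  have h6 : (C + 1) * q ^ (h - 1) ≤ (K * b / (S + 1) + 1) ^ h :=
    Nat.le_of_mul_le_mul_left (h5.trans h4) (by positivity)
  have h7 : 1 ≤ q ^ (h - 1) := Nat.one_le_pow _ _ (by omega)
  calc C * q ^ (h - 1) + 1 ≤ C * q ^ (h - 1) + q ^ (h - 1) := by omega
    _ = (C + 1) * q ^ (h - 1) := by ring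
    _ ≤ _ := h6

/-- **From a finite set to a map of class `C^r`** -/
theorem finite_to_map (q : ℕ) (hq : q.Prime) (k n₀ l d s h r : ℕ) (hk : 1 ≤ k) (hh : 1 ≤ h)
    (hr : 1 ≤ r) (hm : l * n₀ = d + s * r) (A : Finset (Fin n₀ → ℤ))
    (hA : ∀ v : Fin n₀ → ℕ, (∀ i, v i < q) → ∃ α : Fin n₀ → ℤ, ∀ j : ℕ, j < k →
      (fun i => α i + (j : ℤ) * (v i : ℤ)) ∈ A)
    (hcard : (A.card ^ l) ^ (h + 1) < q ^ (d * h)) (hq16 : 16 * k ≤ q)
    (hlarge : (2 * (128 * k + 2) + 1) ^ d * 2 ^ (d + s * r) * q ^ (h - 1) + 1 ≤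
      (32 * k * (q / (8 * k)) / (128 * k + 2 + 1) + 1) ^ h) :
    ∃ g : E (d + h) → E (d + s), ContDiff ℝ r g ∧
      HasProg k (g '' {x | ∀ i, x i ∈ Icc (0 : ℝ) 1}) := by
  haveI : Fact q.Prime := ⟨hq⟩
  obtain ⟨A₀, h1, h2⟩ := reduce_set q k n₀ A hA
  let e : Fin l × Fin n₀ ≃ Fin d ⊕ Fin (s * r) :=
    finProdFinEquiv.trans ((finCongr hm).trans finSumFinEquiv.symm)
  obtain ⟨A', h3, h4⟩ := shear_set q k n₀ l d (s * r) h e hh A₀ h2
    (lt_of_le_of_lt (Nat.pow_le_pow_left (Nat.pow_le_pow_left h1 _) _) hcard)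
  set b : ℕ := q / (8 * k) with hb
  have e4 := Nat.div_add_mod q (8 * k)
  rw [← hb] at e4
  have e5 := Nat.mod_lt q (by omega : 0 < 8 * k)
  have e6 : 2 ≤ b := by
    rw [hb, Nat.le_div_iff_mul_le (by omega)]
    omega
  have e7 : q ≤ 16 * k * b := by
    have : 8 * k ≤ 8 * k * b := Nat.le_mul_of_pos_right _ (by omega)
    have h8 : 16 * k * b = 8 * k * b + 8 * k * b := by ring
    rw [h8]
    omega
  obtain ⟨ι, hι, u, v, c, hu, hv, hc, hsep, hprog⟩ :=
    letters q k d (s * r) h (128 * k + 2) (32 * k * b) (2 * b) hq hk (by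
      calc k * (2 * b) ≤ 8 * k * b := by nlinarith
        _ ≤ q := by omega) A' h3 h4 hlarge
  refine map_of_letters b k d s h r (32 * k) q e6 hk hr (by omega) u v c (fun a i => ?_)
    (fun a i => (hv a i).le) hc (fun a a' haa => ?_) hprog
  · calc u a i ≤ 2 * q := (hu a i).le
      _ ≤ 2 * (16 * k * b) := Nat.mul_le_mul_left _ e7
      _ = 32 * k * b := by ring
  · have e8 : 4 * (32 * k) + 2 = 128 * k + 2 := by ring
    rw [e8]
    exact hsep a a' haa

/-- the exponents of images -/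
theorem uniform (r n₀ : ℕ) (hr : 1 ≤ r) (hn₀ : 1 ≤ n₀) (τ σ : ℝ) (hτ0 : 0 ≤ τ) (hτ1 : τ < 1)
    (hσ : r * τ / (1 + (r - 1) * τ) < σ) :
    ∃ n d : ℕ, 1 ≤ n ∧ (d : ℝ) < σ * n ∧ ∀ k : ℕ, 1 ≤ k → ∀ B : Set (E n₀), HasProg k B →
      SmallCover τ B → ∃ g : E d → E n, ContDiff ℝ r g ∧
        HasProg k (g '' {x | ∀ i, x i ∈ Icc (0 : ℝ) 1}) := by
  -- the exponent `τ₂`
  have hr1 : (1 : ℝ) ≤ r := by exact_mod_cast hr
  have hcont : ContinuousAt (fun x : ℝ => r * x / (1 + (r - 1) * x)) τ := by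
    apply ContinuousAt.div
    · fun_prop
    · fun_prop
    · have : 0 ≤ (r - 1 : ℝ) * τ := mul_nonneg (by linarith) hτ0
      linarith
  have hev : ∀ᶠ x in 𝓝[>] τ, r * x / (1 + (r - 1) * x) < σ ∧ x < 1 :=
    (((hcont.eventually (gt_mem_nhds hσ)).and (gt_mem_nhds hτ1)).filter_mono nhdsWithin_le_nhds)
  obtain ⟨τ₂, ⟨hτ₂σ, hτ₂1⟩, hττ₂⟩ := (hev.and self_mem_nhdsWithin).exists
  have hττ₂ : τ < τ₂ := hττ₂
  obtain ⟨τ₁, hττ₁, hτ₁τ₂⟩ := exists_between hττ₂
  have hτ₁0 : 0 < τ₁ := lt_of_le_of_lt hτ0 hττ₁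
  have hτ₂0 : 0 < τ₂ := hτ₁0.trans hτ₁τ₂
  obtain ⟨h, hh⟩ := exists_nat_gt (max 1 (τ₁ / (τ₂ - τ₁)))
  have hh1 : (1 : ℝ) < h := lt_of_le_of_lt (le_max_left _ _) hh
  have hh1' : 1 ≤ h := by
    have : 1 < h := by exact_mod_cast hh1
    omega
  have hh2 : (h + 1) * τ₁ < h * τ₂ := by
    have := lt_of_le_of_lt (le_max_right _ _) hh
    rw [div_lt_iff₀ (by linarith)] at this
    linarith
  have hr0 : 0 ≤ (r - 1 : ℝ) := by linarith
  have hden : (0 : ℝ) < 1 + (r - 1) * τ₂ := by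
    have := mul_nonneg hr0 hτ₂0.le
    linarith
  rw [div_lt_iff₀ hden] at hτ₂σ
  obtain ⟨q, hq⟩ := exists_nat_gt (max 1 ((r + h) / (σ * (1 + (r - 1) * τ₂) - r * τ₂)))
  have hgap : 0 < σ * (1 + (r - 1) * τ₂) - r * τ₂ := by linarith
  have hq1 : (1 : ℝ) < q := lt_of_le_of_lt (le_max_left _ _) hq
  have hq2 : (r + h : ℝ) < q * (σ * (1 + (r - 1) * τ₂) - r * τ₂) := by
    have := lt_of_le_of_lt (le_max_right _ _) hq
    rwa [div_lt_iff₀ hgap] at this
  have hn₀r : (1 : ℝ) ≤ n₀ := by exact_mod_cast hn₀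
  set l : ℕ := r * q with hl
  set s : ℕ := ⌊(1 - τ₂) * (q * n₀)⌋₊ with hs
  have hqn : (0 : ℝ) < q * n₀ := by positivity
  have hs1 : (s : ℝ) ≤ (1 - τ₂) * (q * n₀) := Nat.floor_le (mul_nonneg (by linarith) hqn.le)
  have hs2 : (1 - τ₂) * (q * n₀) < s + 1 := Nat.lt_floor_add_one _
  have hsle : s ≤ q * n₀ := by
    have : (s : ℝ) ≤ ((q * n₀ : ℕ) : ℝ) := by
      push_cast
      nlinarith
    exact_mod_cast this
  obtain ⟨d, hd⟩ : ∃ d : ℕ, l * n₀ = d + s * r := by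
    refine ⟨l * n₀ - s * r, ?_⟩
    have : s * r ≤ l * n₀ := by
      rw [hl]
      calc s * r ≤ (q * n₀) * r := Nat.mul_le_mul_right _ hsle
        _ = r * q * n₀ := by ring
    omega
  have hdR : (d : ℝ) = r * (q * n₀) - s * r := by
    have : ((l * n₀ : ℕ) : ℝ) = ((d + s * r : ℕ) : ℝ) := by rw [hd]
    rw [hl] at this
    push_cast at this
    linarith
  have hd1 : τ₂ * (r * (q * n₀)) ≤ d := by
    rw [hdR]
    nlinarith
  have hd2 : (d : ℝ) ≤ r * τ₂ * (q * n₀) + r := by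
    rw [hdR]
    nlinarith
  have hn1 : (1 + (r - 1) * τ₂) * (q * n₀) ≤ d + s := by
    rw [hdR]
    nlinarith [mul_le_mul_of_nonneg_left hs1 hr0]
  have hσ0 : 0 < σ := by
    by_contra hcon
    push Not at hcon
    nlinarith [mul_pos (by linarith : (0 : ℝ) < r) hτ₂0]
  have hratio : ((d + h : ℕ) : ℝ) < σ * ((d + s : ℕ) : ℝ) := by
    push_cast
    have h1 : σ * ((1 + (r - 1) * τ₂) * (q * n₀)) ≤ σ * (d + s) :=
      mul_le_mul_of_nonneg_left hn1 hσ0.le
    have h2 : (r + h : ℝ) < (q * n₀) * (σ * (1 + (r - 1) * τ₂) - r * τ₂) := by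
      refine lt_of_lt_of_le hq2 ?_
      apply mul_le_mul_of_nonneg_right _ hgap.le
      nlinarith
    nlinarith
  refine ⟨d + s, d + h, ?_, hratio, ?_⟩
  · have : (0 : ℝ) < d + s := lt_of_lt_of_le (by positivity) hn1
    have : 0 < d + s := by exact_mod_cast this
    omega
  intro k hk B hB hcov
  -- the prime
  have hev1 : ∀ᶠ p : ℕ in atTop, (3 ^ n₀ : ℝ) ≤ (p : ℝ) ^ ((τ₁ - τ) * n₀) := by
    have h1 : Tendsto (fun p : ℕ => (p : ℝ) ^ ((τ₁ - τ) * n₀)) atTop atTop :=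
      (tendsto_rpow_atTop (mul_pos (by linarith) (by positivity))).comp tendsto_natCast_atTop_atTop
    exact h1.eventually_ge_atTop _
  obtain ⟨P, hP⟩ := (hcov.and (hev1.and (large_q k d (s * r) h (128 * k + 2) (32 * k) hk hh1'
    (by omega)))).exists_forall_of_atTop
  obtain ⟨p, hpP, hp⟩ := Nat.exists_infinite_primes (max P (16 * k))
  obtain ⟨⟨S, hS1, hS2⟩, h3, hlarge⟩ := hP p ((le_max_left _ _).trans hpP)
  have hp0 : (0 : ℝ) < p := by exact_mod_cast hp.pos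
  have hp1 : (1 : ℝ) < p := by exact_mod_cast hp.one_lt
  obtain ⟨A, hA1, hA2⟩ := discretise n₀ k p hp.one_lt.le B hB S hS1
  refine finite_to_map p hp k n₀ l d s h r hk hh1' hr hd A hA2 ?_ ((le_max_right _ _).trans hpP)
    hlarge
  have hAr : (A.card : ℝ) ≤ (p : ℝ) ^ (τ₁ * n₀) := by
    calc (A.card : ℝ) ≤ 3 ^ n₀ * S.card := by exact_mod_cast hA1
      _ ≤ (p : ℝ) ^ ((τ₁ - τ) * n₀) * (p : ℝ) ^ (τ * n₀) := by gcongr
      _ = (p : ℝ) ^ (τ₁ * n₀) := by
          rw [← Real.rpow_add hp0]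
          congr 1
          ring
  have hfin : (((A.card ^ l) ^ (h + 1) : ℕ) : ℝ) < ((p ^ (d * h) : ℕ) : ℝ) := by
    push_cast
    calc ((A.card : ℝ) ^ l) ^ (h + 1) ≤ (((p : ℝ) ^ (τ₁ * n₀)) ^ l) ^ (h + 1) := by gcongr
      _ = (p : ℝ) ^ (τ₁ * n₀ * l * ((h + 1 : ℕ) : ℝ)) := by
          rw [← Real.rpow_natCast, ← Real.rpow_natCast, ← Real.rpow_mul hp0.le,
            ← Real.rpow_mul hp0.le]
      _ < (p : ℝ) ^ (((d * h : ℕ) : ℝ)) := by
          apply Real.rpow_lt_rpow_of_exponent_lt hp1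
          rw [hl]
          push_cast
          have h4 : τ₂ * (r * (q * n₀)) * h ≤ d * h := mul_le_mul_of_nonneg_right hd1 (by positivity)
          have h5 : ((h + 1) * τ₁) * (r * (q * n₀)) < (h * τ₂) * (r * (q * n₀)) :=
            mul_lt_mul_of_pos_right hh2 (by positivity)
          nlinarith
      _ = (p : ℝ) ^ (d * h) := by rw [Real.rpow_natCast]
  exact_mod_cast hfin

end Pool.Agent.Zk23.KKImgR
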