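import Pool.Agent.Zk23.KKMainG
import Pool.Agent.Zk23.KKGraphR
import Pool.Agent.Zk23.KKImgR
import Pool.Agent.Zk23.KKConvR

/-!
# Exponents, images and graphs: the final theorems
-/

set_option autoImplicit false

open Set Filter Topology MeasureTheory
open scoped ContDiff

namespace Pool.Agent.Zk23.KKFinal

open Pool.Agent.Zk23.KKEquiv (E HasProg AKC)
open Pool.Agent.Zk23.KKCrB (SmallCover CrAKC)
open Pool.Agent.Zk23.KKGraphR (graphSet)
open Pool.Agent.Zk23.KKIff (fM)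

/-- the common differences -/
def diffs {n : ℕ} (k : ℕ) (B : Set (E n)) : Set (E n) :=
  {r | ∃ a : E n, ∀ j : ℕ, j < k → a + (j : ℝ) • r ∈ B}

theorem diffs_mono {n k k' : ℕ} {B B' : Set (E n)} (hk : k ≤ k') (hB : B ⊆ B') :
    diffs k' B ⊆ diffs k B' := by
  rintro r ⟨a, ha⟩
  exact ⟨a, fun j hj => hB (ha j (hj.trans_le hk))⟩

/-- the unit cube -/
def cube (n : ℕ) : Set (E n) := {z | ∀ i, z i ∈ Icc (0 : ℝ) 1}

/-- the parametrisation of a graph -/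
theorem graph_param {d m s : ℕ} (g : E d → E m) (hg : ContDiff ℝ s g) :
    ∃ F : E d → E (d + m), ContDiff ℝ s F ∧ graphSet g ⊆ range F := by
  refine ⟨fun x => WithLp.toLp 2 (Fin.append (fun i : Fin d => x i) (fun j => g x j)), ?_, ?_⟩
  · rw [contDiff_euclidean]
    intro i
    refine Fin.addCases (fun i => ?_) (fun j => ?_) i
    · simp only [Fin.append_left]
      exact (EuclideanSpace.proj i : E d →L[ℝ] ℝ).contDiff
    · simp only [Fin.append_right]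
      exact contDiff_euclidean.1 hg j
  · intro w hw
    refine ⟨WithLp.toLp 2 fun i => w (Fin.castAdd m i), ?_⟩
    ext i
    refine Fin.addCases (fun i => ?_) (fun j => ?_) i
    · simp only [Fin.append_left]
    · simp only [Fin.append_right]
      exact (hw j).symm

theorem exists_of_fM {n k : ℕ} {τ : ℝ} (h : fM n k < ((τ * n : ℝ) : EReal)) :
    ∃ B : Set (E n), HasProg k B ∧ SmallCover τ B := by
  obtain ⟨B, h⟩ := iInf_lt_iff.1 h
  obtain ⟨hb, h⟩ := iInf_lt_iff.1 h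
  obtain ⟨hB, h⟩ := iInf_lt_iff.1 h
  exact ⟨B, hB, Pool.Agent.Zk23.KKExpR.smallCover hb h⟩

theorem fM_nonneg (n k : ℕ) : 0 ≤ fM n k := by
  refine le_iInf fun B => le_iInf fun _ => le_iInf fun _ => ?_
  have h1 : ∀ᶠ δ : ℝ in 𝓝[>] 0, (0 : EReal) ≤
      ((Real.log (Pool.Agent.Results.MP_4b405e_nt.AlgebraicSets.coverNum B δ) /
        Real.log (1 / δ) : ℝ) : EReal) := by
    have h2 : ∀ᶠ δ : ℝ in 𝓝[>] 0, δ < 1 :=
      mem_nhdsWithin_of_mem_nhds (Iio_mem_nhds one_pos)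
    filter_upwards [h2, self_mem_nhdsWithin] with δ h3 h4
    have h4' : (0 : ℝ) < δ := h4
    have h5 : 0 ≤ Real.log (Pool.Agent.Results.MP_4b405e_nt.AlgebraicSets.coverNum B δ) :=
      Real.log_natCast_nonneg _
    have h6 : 0 ≤ Real.log (1 / δ) := Real.log_nonneg (by
      rw [le_div_iff₀ h4']; linarith)
    have h7 := div_nonneg h5 h6
    exact_mod_cast h7
  exact le_limsup_of_frequently_le h1.frequently

theorem ne_zero_of_le {n : ℕ} {X Y : Set (E n)} {ε : ℝ} (hε : ε < 1)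
    (h : ENNReal.ofReal (1 - ε) ≤ volume (X ∩ Y)) : volume Y ≠ 0 := by
  intro hY
  have h1 : volume (X ∩ Y) = 0 := measure_mono_null inter_subset_right hY
  rw [h1] at h
  have h2 : 0 < ENNReal.ofReal (1 - ε) := ENNReal.ofReal_pos.2 (by linarith)
  exact absurd h (not_le.2 h2)

/-- from a small exponent to graphs -/
theorem graph_of_fM {n k : ℕ} (hn : 1 ≤ n) (hk : 1 ≤ k) {τ : ℝ}
    (h : fM n k < ((τ * n : ℝ) : EReal)) :
    ∃ d m : ℕ, (d : ℝ) < τ * (d + m : ℕ) ∧ ∃ g : E d → E m, ContDiff ℝ 1 g ∧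
      volume (diffs k (graphSet g)) ≠ 0 := by
  rcases lt_or_ge 1 τ with hτ | hτ
  · refine ⟨1, 0, by push_cast; linarith, fun _ => 0, contDiff_const, ?_⟩
    have : diffs k (graphSet (fun _ : E 1 => (0 : E 0))) = univ :=
      eq_univ_of_forall fun z => ⟨0, fun j _ i => i.elim0⟩
    rw [this]
    exact NeZero.ne _
  · obtain ⟨x, hx1, hx2⟩ := EReal.lt_iff_exists_real_btwn.1 h
    have hx2' : x < τ * n := by exact_mod_cast hx2
    have hx0 : 0 ≤ x := by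
      have := (fM_nonneg n k).trans hx1.le
      exact_mod_cast this
    have hn0 : (0 : ℝ) < n := by exact_mod_cast hn
    have h1 : x / n < τ := by rwa [div_lt_iff₀ hn0]
    obtain ⟨B, hB, hcov⟩ := exists_of_fM (τ := x / n) (n := n) (k := k) (by
      rw [div_mul_cancel₀ _ hn0.ne']
      exact hx1)
    obtain ⟨d, m, hm, hd, H⟩ := Pool.Agent.Zk23.KKGraphR.uniform 1 n le_rfl hn (x / n) τ
      (div_nonneg hx0 hn0.le) (h1.trans_le hτ) (by simpa using h1)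
    obtain ⟨g, hg, hv⟩ := H k hk B hB hcov (1 / 2) (by norm_num)
    refine ⟨d, m, hd, g, by simpa using hg, ?_⟩
    exact ne_zero_of_le (by norm_num) hv

/-- the exponents and `C^1` maps -/
theorem exponents_c1 {k : ℕ} (hk : 1 ≤ k) (τ : ℝ) : List.TFAE
    [∃ n : ℕ, 1 ≤ n ∧ fM n k < ((τ * n : ℝ) : EReal),
     ∃ n d : ℕ, 1 ≤ n ∧ (d : ℝ) < τ * n ∧ ∃ g : E d → E n, ContDiff ℝ (1 : ℕ) g ∧
        HasProg k (g '' cube d),
     ∃ d m : ℕ, (d : ℝ) < τ * (d + m : ℕ) ∧ ∃ g : E d → E m, ContDiff ℝ (1 : ℕ) g ∧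
        volume (diffs k (graphSet g)) ≠ 0,
     ∃ n d : ℕ, 1 ≤ n ∧ (d : ℝ) < τ * n ∧ ∃ f : ℕ → E d → E n,
        (∀ i, ContDiff ℝ (1 : ℕ) (f i)) ∧ volume (diffs k (⋃ i, range (f i))) ≠ 0] := by
  simp only [Nat.cast_one]
  tfae_have 1 ↔ 2 := Pool.Agent.Zk23.KKIff.iff_c1 hk τ
  tfae_have 1 → 3 := by
    rintro ⟨n, hn, h⟩
    exact graph_of_fM hn hk h
  tfae_have 3 → 4 := by
    rintro ⟨d, m, hd, g, hg, hv⟩
    obtain ⟨F, hF, hsub⟩ := graph_param (s := 1) g (by simpa using hg)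
    have h1 : 1 ≤ d + m := by
      by_contra hcon
      have h2 : d + m = 0 := by omega
      have h3 : d = 0 := by omega
      rw [h2, h3] at hd
      simp at hd
    refine ⟨d + m, d, h1, hd, fun _ => F, fun _ => by simpa using hF, fun hv' => hv ?_⟩
    refine measure_mono_null (diffs_mono le_rfl ?_) hv'
    exact hsub.trans (subset_iUnion (fun _ : ℕ => range F) 0)
  tfae_have 4 → 2 := by
    rintro ⟨n, d, hn, hd, f, hf, hv⟩
    exact Pool.Agent.Zk23.KKConvR.of_union n d k hn hk τ hd f hf hv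
  tfae_finish

/-- the exponents and `C^s` maps -/
theorem exponents_cs (s n₀ : ℕ) (hs : 1 ≤ s) (hn₀ : 1 ≤ n₀) (τ σ : ℝ) (hτ0 : 0 ≤ τ) (hτ1 : τ < 1)
    (hσ : s * τ / (1 + (s - 1) * τ) < σ) :
    (∃ n d : ℕ, 1 ≤ n ∧ (d : ℝ) < σ * n ∧ ∀ k : ℕ, 1 ≤ k → fM n₀ k < ((τ * n₀ : ℝ) : EReal) →
      ∃ g : E d → E n, ContDiff ℝ s g ∧ HasProg k (g '' cube d)) ∧
    (∃ d m : ℕ, 1 ≤ m ∧ (d : ℝ) < σ * (d + m : ℕ) ∧ ∀ k : ℕ, 1 ≤ k →
      fM n₀ k < ((τ * n₀ : ℝ) : EReal) → ∀ ε : ℝ, 0 < ε → ∃ g : E d → E m, ContDiff ℝ s g ∧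
        ENNReal.ofReal (1 - ε) ≤ volume (cube (d + m) ∩ diffs k (graphSet g))) := by
  constructor
  · obtain ⟨n, d, h1, h2, h3⟩ := Pool.Agent.Zk23.KKImgR.uniform s n₀ hs hn₀ τ σ hτ0 hτ1 hσ
    refine ⟨n, d, h1, h2, fun k hk h => ?_⟩
    obtain ⟨B, hB, hcov⟩ := exists_of_fM h
    exact h3 k hk B hB hcov
  · obtain ⟨d, m, h1, h2, h3⟩ := Pool.Agent.Zk23.KKGraphR.uniform s n₀ hs hn₀ τ σ hτ0 hτ1 hσ
    refine ⟨d, m, h1, h2, fun k hk h ε hε => ?_⟩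
    obtain ⟨B, hB, hcov⟩ := exists_of_fM h
    exact h3 k hk B hB hcov ε hε

/-- covers if the conjecture fails -/
theorem cover_of_not_akc (h : ¬ AKC) : ∃ (n₀ : ℕ) (τ : ℝ), 1 ≤ n₀ ∧ 0 ≤ τ ∧ τ < 1 ∧
    ∀ k : ℕ, ∃ B : Set (E n₀), HasProg k B ∧ SmallCover τ B := by
  unfold AKC at h
  push Not at h
  obtain ⟨n₀, ε, hε, hcon⟩ := h
  -- the dimension is positive
  have hn₀ : 1 ≤ n₀ := by
    by_contra hn
    obtain rfl : n₀ = 0 := by omega
    obtain ⟨B, hB, δ₀, hδ₀, hδ⟩ := hcon 1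
    obtain ⟨S, hS1, hS2⟩ := hδ (min δ₀ 1 / 2) (by positivity) (by
      have := min_le_left δ₀ 1
      linarith [lt_min hδ₀ one_pos])
    obtain ⟨a, ha⟩ := hB 0 (fun i => i.elim0)
    have hne : S.Nonempty := by
      by_contra hS
      rw [Finset.not_nonempty_iff_eq_empty] at hS
      subst hS
      simpa using hS1 (ha 0 one_pos)
    have h1 : (1 : ℝ) ≤ S.card := by exact_mod_cast hne.card_pos
    have h2 : (min δ₀ 1 / 2) ^ (-(((0 : ℕ) : ℝ) - ε)) ≤ 1 := by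
      apply Real.rpow_le_one (by positivity) _ (by simp; exact hε.le)
      have := min_le_right δ₀ 1
      linarith
    linarith
  have hn₀r : (1 : ℝ) ≤ n₀ := by exact_mod_cast hn₀
  set τ : ℝ := max 0 (1 - ε / n₀) with hτ
  have hτ1 : τ < 1 := max_lt one_pos (by
    have : 0 < ε / n₀ := by positivity
    linarith)
  have hτ0 : 0 ≤ τ := le_max_left _ _
  refine ⟨n₀, τ, hn₀, hτ0, hτ1, fun k => ?_⟩
  obtain ⟨B, hB, δ₀, hδ₀, hδ⟩ := hcon k
  refine ⟨B, hB, ?_⟩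
  obtain ⟨P, hP⟩ := exists_nat_gt (max 1 (1 / δ₀))
  filter_upwards [eventually_ge_atTop P] with p hp
  have hpR : (P : ℝ) ≤ p := by exact_mod_cast hp
  have hp1 : (1 : ℝ) < p := lt_of_lt_of_le (lt_of_le_of_lt (le_max_left _ _) hP) hpR
  have hp2 : 1 / δ₀ < p := lt_of_lt_of_le (lt_of_le_of_lt (le_max_right _ _) hP) hpR
  have hp0 : (0 : ℝ) < p := by linarith
  obtain ⟨S, hS1, hS2⟩ := hδ (1 / (p : ℝ)) (by positivity) (by
    rw [div_lt_comm₀ hp0 hδ₀]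
    exact hp2)
  refine ⟨S, hS1, hS2.le.trans ?_⟩
  have h4 : (1 / (p : ℝ)) ^ (-((n₀ : ℝ) - ε)) = (p : ℝ) ^ ((n₀ : ℝ) - ε) := by
    rw [one_div, Real.inv_rpow hp0.le, Real.rpow_neg hp0.le, inv_inv]
  rw [h4]
  apply Real.rpow_le_rpow_of_exponent_le hp1.le
  have h5 : (1 - ε / n₀) * n₀ ≤ τ * n₀ :=
    mul_le_mul_of_nonneg_right (le_max_right _ _) (by linarith)
  have h6 : (1 - ε / n₀) * n₀ = n₀ - ε := by field_simp
  linarith

/-- if the conjecture fails, hypersurfaces of class `C^s` have nearly all differences -/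
theorem hypersurfaces (h : ¬ AKC) (s : ℕ) (hs : 1 ≤ s) : ∃ d : ℕ, ∀ (k : ℕ) (ε : ℝ), 0 < ε →
    ∃ g : E d → E 1, ContDiff ℝ s g ∧
      ENNReal.ofReal (1 - ε) ≤ volume (cube (d + 1) ∩ diffs k (graphSet g)) := by
  obtain ⟨n₀, τ, hn₀, hτ0, hτ1, hk⟩ := cover_of_not_akc h
  obtain ⟨d, -, H⟩ := Pool.Agent.Zk23.KKGraphR.hypersurfaces s n₀ hs hn₀ τ hτ0 hτ1
  refine ⟨d, fun k ε hε => ?_⟩
  obtain ⟨B, hB, hcov⟩ := hk (max k 1)
  obtain ⟨g, hg, hv⟩ := H (max k 1) (le_max_right _ _) B hB hcov ε hε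
  refine ⟨g, hg, hv.trans (measure_mono ?_)⟩
  exact inter_subset_inter_right _ (diffs_mono (le_max_left _ _) Subset.rfl)

/-- **the equivalences** -/
theorem equivalences (s : ℕ) (hs : 1 ≤ s) : List.TFAE
    [AKC,
     ∀ d : ℕ, ∃ k : ℕ, ∀ g : E d → E 1, ContDiff ℝ s g → volume (diffs k (graphSet g)) = 0,
     ∀ n : ℕ, 1 ≤ n → ∃ k : ℕ, ∀ f : ℕ → E (n - 1) → E n, (∀ i, ContDiff ℝ s (f i)) →
        volume (diffs k (⋃ i, range (f i))) = 0,
     ∀ n : ℕ, 1 ≤ n → ∃ k : ℕ, ¬ ∃ g : E (n - 1) → E n, ContDiff ℝ s g ∧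
        HasProg k (g '' cube (n - 1))] := by
  tfae_have 1 → 3 := Pool.Agent.Zk23.KKMainG.union_of_akc s hs
  tfae_have 3 → 2 := by
    intro h d
    obtain ⟨k, hk⟩ := h (d + 1) (by omega)
    refine ⟨k, fun g hg => ?_⟩
    obtain ⟨F, hF, hsub⟩ := graph_param g hg
    refine measure_mono_null (diffs_mono le_rfl ?_) (hk (fun _ => F) (fun _ => hF))
    exact hsub.trans (subset_iUnion (fun _ : ℕ => range F) 0)
  tfae_have 2 → 1 := by
    intro h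
    by_contra hcon
    obtain ⟨d, H⟩ := hypersurfaces hcon s hs
    obtain ⟨k, hk⟩ := h d
    obtain ⟨g, hg, hv⟩ := H k (1 / 2) (by norm_num)
    exact ne_zero_of_le (by norm_num) hv (hk g hg)
  tfae_have 1 ↔ 4 := by
    have h := Pool.Agent.Zk23.KKCrB.equiv s hs
    constructor
    · intro h1 n hn
      obtain ⟨k, hk⟩ := h.1 h1 n hn
      exact ⟨k, fun ⟨g, hg, hP⟩ => hk g hg hP⟩
    · intro h1
      refine h.2 fun n hn => ?_
      obtain ⟨k, hk⟩ := h1 n hn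
      exact ⟨k, fun g hg hP => hk ⟨g, hg, hP⟩⟩
  tfae_finish

end Pool.Agent.Zk23.KKFinal
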