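import Pool.Agent.Zk23.KKEquiv
import Pool.Agent.Zk50.G5

/-!
# The arithmetic Kakeya conjecture implies its version for countable unions of `C^1` images and null
# sets of differences
-/

set_option autoImplicit false

open Set Filter Topology MeasureTheory
open scoped ContDiff ENNReal

namespace Pool.Agent.Zk23.KKForw

open Pool.Agent.Zk23.KKEquiv
open Pool.Agent.Zk50.G5 (finite_of_measure)
open Pool.Agent.Zk25.KakCode (c1_code)
open Pool.Agent.Zk72.KakCov1 (c1_cover)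

/-- finite unions of compact images -/
theorem finite_union (n k : ℕ) (hn : 1 ≤ n) (g : ℕ → E (n - 1) → E n) (hg : ∀ i, ContDiff ℝ 1 (g i))
    (s : Finset ℕ) : ∃ C : ℝ, 0 ≤ C ∧ ∀ δ : ℝ, 0 < δ → δ < 1 → ∃ S : Finset (E n),
      (⋃ i ∈ s, g i '' {x | ∀ j, x j ∈ Icc (0 : ℝ) 1}) ⊆ (⋃ x ∈ S, Metric.ball x δ) ∧
      (S.card : ℝ) ≤ C * δ ^ (-((n : ℝ) - 1)) := by
  classical
  have h := fun i => c1_cover (n - 1) n (g i) (hg i)
  choose C hC hcov using h
  refine ⟨∑ i ∈ s, C i, Finset.sum_nonneg fun i _ => (hC i).le, fun δ h0 h1 => ?_⟩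
  choose S hS1 hS2 using fun i => hcov i δ h0 h1
  have hn1 : ((n - 1 : ℕ) : ℝ) = (n : ℝ) - 1 := by rw [Nat.cast_sub hn]; simp
  refine ⟨s.biUnion S, ?_, ?_⟩
  · intro y hy
    obtain ⟨i, hi, hy⟩ := mem_iUnion₂.1 hy
    obtain ⟨x, hx, hyx⟩ := mem_iUnion₂.1 (hS1 i hy)
    exact mem_iUnion₂.2 ⟨x, Finset.mem_biUnion.2 ⟨i, hi, hx⟩, hyx⟩
  · rw [Finset.sum_mul]
    calc ((s.biUnion S).card : ℝ) ≤ ((∑ i ∈ s, (S i).card : ℕ) : ℝ) := by
          exact_mod_cast Finset.card_biUnion_le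
      _ = ∑ i ∈ s, ((S i).card : ℝ) := by push_cast; rfl
      _ ≤ ∑ i ∈ s, C i * δ ^ (-((n : ℝ) - 1)) := by
          refine Finset.sum_le_sum fun i _ => ?_
          rw [← hn1]
          exact hS2 i

/-- the conjecture implies the version for null sets of differences -/
theorem null_of_akc (h : AKC) (n : ℕ) (hn : 1 ≤ n) : ∃ k : ℕ, ∀ B : Set (E n),
    (∃ f : ℕ → E (n - 1) → E n, (∀ i, ContDiff ℝ 1 (f i)) ∧ B ⊆ ⋃ i, range (f i)) →
    volume {ρ : E n | ∃ a, ∀ j : ℕ, j < k → a + (j : ℝ) • ρ ∈ B} = 0 := by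
  classical
  set n' : ℕ := 4 * n with hn'
  obtain ⟨k₁, hk₁⟩ := forward h n' (by omega)
  set k := max k₁ 1 with hk
  have hk1 : 1 ≤ k := le_max_right _ _
  refine ⟨k, ?_⟩
  rintro B ⟨f, hf, hB⟩
  by_contra hv
  -- compact pieces
  let φ : ℕ → E (n - 1) → E (n - 1) := fun M x =>
    WithLp.toLp 2 fun j => (2 * (M : ℝ)) * x j - M
  have hφ : ∀ M, ContDiff ℝ 1 (φ M) := by
    intro M
    rw [contDiff_euclidean]
    intro j
    exact (contDiff_const.mul (EuclideanSpace.proj j : E (n - 1) →L[ℝ] ℝ).contDiff).sub contDiff_const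
  let g : ℕ → E (n - 1) → E n := fun i => f (Nat.unpair i).1 ∘ φ (Nat.unpair i).2
  have hg : ∀ i, ContDiff ℝ 1 (g i) := fun i => (hf _).comp (hφ _)
  have hcov : B ⊆ ⋃ i, g i '' {x | ∀ j, x j ∈ Icc (0 : ℝ) 1} := by
    intro y hy
    obtain ⟨i, x, rfl⟩ := mem_iUnion.1 (hB hy)
    obtain ⟨M, hM⟩ := exists_nat_gt ‖x‖
    have hM0 : (0 : ℝ) < M := lt_of_le_of_lt (norm_nonneg _) hM
    refine mem_iUnion.2 ⟨Nat.pair i M, WithLp.toLp 2 fun j => (x j + M) / (2 * M), ?_, ?_⟩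
    · intro j
      have h1 : |x j| ≤ M := (PiLp.norm_apply_le x j).trans hM.le
      rw [abs_le] at h1
      simp only
      constructor
      · exact div_nonneg (by linarith) (by positivity)
      · rw [div_le_one (by positivity)]
        linarith
    · simp only [g, Nat.unpair_pair, Function.comp_apply]
      congr 1
      ext j
      simp only [φ]
      field_simp
      ring
  have hsub : {ρ : E n | ∃ a, ∀ j : ℕ, j < k → a + (j : ℝ) • ρ ∈ B} ⊆
      ⋃ c : Fin k → ℕ, {ρ : E n | ∃ a, ∀ j : ℕ, j < k → a + (j : ℝ) • ρ ∈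
        ⋃ i ∈ Finset.univ.image c, g i '' {x | ∀ j, x j ∈ Icc (0 : ℝ) 1}} := by
    rintro ρ ⟨a, ha⟩
    have h1 : ∀ j : Fin k, ∃ i, a + ((j : ℕ) : ℝ) • ρ ∈ g i '' {x | ∀ j, x j ∈ Icc (0 : ℝ) 1} :=
      fun j => mem_iUnion.1 (hcov (ha j j.2))
    choose c hc using h1
    refine mem_iUnion.2 ⟨c, a, fun j hj => ?_⟩
    exact mem_iUnion₂.2 ⟨c ⟨j, hj⟩, Finset.mem_image_of_mem _ (Finset.mem_univ _), hc ⟨j, hj⟩⟩
  obtain ⟨c, hc⟩ : ∃ c : Fin k → ℕ, volume {ρ : E n | ∃ a, ∀ j : ℕ, j < k → a + (j : ℝ) • ρ ∈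
        ⋃ i ∈ Finset.univ.image c, g i '' {x | ∀ j, x j ∈ Icc (0 : ℝ) 1}} ≠ 0 := by
    by_contra hcon
    push Not at hcon
    exact hv (measure_mono_null hsub (measure_iUnion_null hcon))
  obtain ⟨C, hC, hcovC⟩ := finite_union n k hn g hg (Finset.univ.image c)
  have hev := finite_of_measure n k hn hk1 _ C hcovC hc
  obtain ⟨N₀, hN₀⟩ := hev.exists_forall_of_atTop
  set M : ℕ := max 3 N₀ with hM
  have hM3 : 3 ≤ M := le_max_left _ _
  set N : ℕ := M ^ (n' - 1) with hN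
  have hn'2 : 2 ≤ n' := by omega
  have hMN : M ≤ N := by
    rw [hN]
    exact Nat.le_self_pow (by omega) M
  obtain ⟨A, hA1, hA2⟩ := hN₀ N ((le_max_right _ _).trans hMN)
  obtain ⟨A', hA'1, hA'2⟩ := power (m := 4) A hA2
  have hM0 : (0 : ℝ) < M := by
    have : 0 < M := by omega
    exact_mod_cast this
  have hN1 : (1 : ℝ) ≤ N := by
    have : 1 ≤ N := by omega
    exact_mod_cast this
  have hN0 : (0 : ℝ) < N := by linarith
  have hA'c : A'.card ≤ (M ^ (n' - 2)) ^ (n' - 1) := by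
    have h1 : (A'.card : ℝ) ≤ ((M ^ (n' - 2)) ^ (n' - 1) : ℕ) := by
      calc (A'.card : ℝ) ≤ (A.card : ℝ) ^ 4 := by exact_mod_cast hA'1
        _ ≤ ((N : ℝ) ^ ((n : ℝ) - 1 / 2)) ^ 4 := by gcongr
        _ = (N : ℝ) ^ (((n : ℝ) - 1 / 2) * (4 : ℕ)) := by
            rw [← Real.rpow_natCast, ← Real.rpow_mul hN0.le]
        _ = (N : ℝ) ^ ((n' - 2 : ℕ) : ℝ) := by
            congr 1
            rw [Nat.cast_sub hn'2, hn']
            push_cast
            ring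
        _ = ((M ^ (n' - 2)) ^ (n' - 1) : ℕ) := by
            rw [Real.rpow_natCast, hN]
            push_cast
            rw [← pow_mul, ← pow_mul, mul_comm]
    exact_mod_cast h1
  have h2c : 2 * M ^ (n' - 2) < N := by
    have h1 : M ^ (n' - 1) = M * M ^ (n' - 2) := by
      rw [← pow_succ']
      congr 1
      omega
    rw [hN, h1]
    have h2 : 0 < M ^ (n' - 2) := Nat.pow_pos (by omega)
    exact Nat.mul_lt_mul_of_pos_right (by omega) h2
  obtain ⟨G, hG, hGα⟩ := c1_code (n' - 1) n' (M ^ (n' - 2)) N (Nat.one_le_pow _ _ (by omega)) h2c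
    A' hA'c
  refine hk₁ G hG ?_
  have hP : HasProg k (G '' {x | ∀ i, x i ∈ Icc (0 : ℝ) 1}) := by
    refine code_prog hk1 (by omega) A' hA'2 ?_
    intro α hα
    obtain ⟨x, hx, hx2⟩ := hGα α hα
    exact ⟨G x, ⟨x, hx, rfl⟩, hx2⟩
  exact hP.mono (le_max_left _ _)

end Pool.Agent.Zk23.KKForw
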