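import Pool.Agent.Zk85.GoodEquiv

/-!
# Integer sets with separated first coordinates
-/

set_option autoImplicit false

open Set Filter Topology

namespace Pool.Agent.Zk23.KKSets

open Pool.Agent.Zk85.GoodEquiv (exists_good_equiv)

theorem valMinAbs_le (q : ℕ) [NeZero q] (m : ℤ) : |((m : ZMod q)).valMinAbs| ≤ |m| := by
  have h1 : ((((m : ZMod q)).valMinAbs : ℤ) : ZMod q) = ((m : ℤ) : ZMod q) := by
    rw [ZMod.coe_valMinAbs]
  have h2 := ZMod.natAbs_min_of_le_div_two q _ m h1 (ZMod.natAbs_valMinAbs_le _)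
  rw [Int.abs_eq_natAbs, Int.abs_eq_natAbs]
  exact_mod_cast h2

theorem lt_valMinAbs (q : ℕ) [NeZero q] (S : ℤ) (m : ℤ) (h1 : S < |m|) (h2 : |m| < q - S) :
    S < |((m : ZMod q)).valMinAbs| := by
  by_contra hcon
  push Not at hcon
  set z := ((m : ZMod q)).valMinAbs with hz
  have h3 : (((z - m : ℤ)) : ZMod q) = 0 := by
    push_cast
    rw [hz, ZMod.coe_valMinAbs, sub_self]
  rw [ZMod.intCast_zmod_eq_zero_iff_dvd] at h3
  obtain ⟨j, hj⟩ := h3
  rcases eq_or_ne j 0 with rfl | hj0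
  · rw [mul_zero] at hj
    have : z = m := by linarith
    rw [this] at hcon
    omega
  · have h4 : (q : ℤ) ≤ |z - m| := by
      rw [hj, abs_mul]
      have h5 : 1 ≤ |j| := Int.one_le_abs hj0
      have h6 : |(q : ℤ)| = q := abs_of_nonneg (by positivity)
      rw [h6]
      nlinarith [(Nat.cast_nonneg q : (0 : ℤ) ≤ q)]
    have h5 : |z - m| ≤ |z| + |m| := abs_sub z m
    omega

/-- numbering of the binary words -/
noncomputable def en (R : ℕ) : (Fin R → Bool) ≃ Fin (2 ^ R) := Fintype.equivFinOfCardEq (by simp)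

/-- the translations, first coordinates -/
noncomputable def t1 (q S d R : ℕ) (hd : 1 ≤ d) (l : (Fin d → Bool) × (Fin R → Bool)) (i : Fin d) : ℤ :=
  -(if l.1 i then (((q + 1) / 2 : ℕ) : ℤ) else 0) +
    (if i = ⟨0, hd⟩ then (((S + 1) * (en R l.2 : ℕ) : ℕ) : ℤ) else 0)

/-- the translations, last coordinates -/
noncomputable def t2 (q d R : ℕ) (l : (Fin d → Bool) × (Fin R → Bool)) (i : Fin R) : ℤ :=
  -(if l.2 i then (((q + 1) / 2 : ℕ) : ℤ) else 0)

theorem t1_sep (q S d R : ℕ) (hd : 1 ≤ d) (hq2 : q % 2 = 1) (hqS : 16 * (S + 1) * 2 ^ R ≤ q)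
    (l m : (Fin d → Bool) × (Fin R → Bool)) (hlm : l ≠ m) :
    ∃ i, (S : ℤ) < |t1 q S d R hd l i - t1 q S d R hd m i| ∧
      |t1 q S d R hd l i - t1 q S d R hd m i| < q - S := by
  set x : ℕ := (S + 1) * (en R l.2 : ℕ) with hx
  set y : ℕ := (S + 1) * (en R m.2 : ℕ) with hy
  have hW : 16 * ((S + 1) * 2 ^ R) ≤ q := by rw [← mul_assoc]; exact hqS
  have hxW : x + (S + 1) ≤ (S + 1) * 2 ^ R := by
    rw [hx]
    have := (en R l.2).2
    calc (S + 1) * (en R l.2 : ℕ) + (S + 1) = (S + 1) * ((en R l.2 : ℕ) + 1) := by ring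
      _ ≤ _ := Nat.mul_le_mul_left _ this
  have hyW : y + (S + 1) ≤ (S + 1) * 2 ^ R := by
    rw [hy]
    have := (en R m.2).2
    calc (S + 1) * (en R m.2 : ℕ) + (S + 1) = (S + 1) * ((en R m.2 : ℕ) + 1) := by ring
      _ ≤ _ := Nat.mul_le_mul_left _ this
  set W : ℕ := (S + 1) * 2 ^ R with hWd
  by_cases h : l.1 = m.1
  · have h2 : l.2 ≠ m.2 := fun h' => hlm (Prod.ext h h')
    have h3 : (en R l.2 : ℕ) ≠ (en R m.2 : ℕ) := fun h' => h2 ((en R).injective (Fin.ext h'))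
    refine ⟨⟨0, hd⟩, ?_⟩
    have h4 : t1 q S d R hd l ⟨0, hd⟩ - t1 q S d R hd m ⟨0, hd⟩ = (x : ℤ) - y := by
      simp only [t1, h, if_true]
      rw [← hx, ← hy]
      ring
    rw [h4]
    have h5 : x + (S + 1) ≤ y ∨ y + (S + 1) ≤ x := by
      rcases lt_or_gt_of_ne h3 with h6 | h6
      · left
        rw [hx, hy]
        calc (S + 1) * (en R l.2 : ℕ) + (S + 1) = (S + 1) * ((en R l.2 : ℕ) + 1) := by ring
          _ ≤ _ := Nat.mul_le_mul_left _ h6
      · right
        rw [hx, hy]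
        calc (S + 1) * (en R m.2 : ℕ) + (S + 1) = (S + 1) * ((en R m.2 : ℕ) + 1) := by ring
          _ ≤ _ := Nat.mul_le_mul_left _ h6
    clear_value x y W
    rcases h5 with h5 | h5
    · rw [abs_of_nonpos (by omega)]
      constructor <;> omega
    · rw [abs_of_nonneg (by omega)]
      constructor <;> omega
  · obtain ⟨i, hi⟩ := Function.ne_iff.1 h
    refine ⟨i, ?_⟩
    simp only [t1]
    rw [← hx, ← hy]
    clear_value x y W
    rcases abs_cases ((-(if l.1 i = true then (((q + 1) / 2 : ℕ) : ℤ) else 0) +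
      (if i = ⟨0, hd⟩ then (x : ℤ) else 0)) - (-(if m.1 i = true then (((q + 1) / 2 : ℕ) : ℤ) else 0) +
      (if i = ⟨0, hd⟩ then (y : ℤ) else 0))) with ⟨h7, h8⟩ | ⟨h7, h8⟩ <;>
    · rw [h7]
      rcases hl : l.1 i <;> rcases hm : m.1 i <;> simp only [hl, hm] at hi h8 ⊢ <;>
        first
        | exact absurd rfl hi
        | (simp only [if_true, if_false, Bool.false_eq_true] at h8 ⊢
           split_ifs at h8 ⊢ <;> constructor <;> omega)

/-- reduction of one coordinate -/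
theorem coord (q k b S W e h : ℕ) [NeZero q] (hq2 : q % 2 = 1) (hh : h = (q + 1) / 2) (hW : 16 * W ≤ q)
    (hS : (S + 1) * e ≤ W) (hbq : 4 * k * b ≤ q) (z : ZMod q) (P : Prop) [Decidable P] (s t : ℕ)
    (hs : s < b) (ht : t < k) :
    (z + (((-(if decide (h ≤ z.val) = true then (h : ℤ) else 0) +
      (if P then (((S + 1) * e : ℕ) : ℤ) else 0) : ℤ)) : ZMod q) + t • (s : ZMod q)).val =
      (z.val - (if h ≤ z.val then h else 0) + (if P then (S + 1) * e else 0)) + t * s := by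
  have h1 := ZMod.val_lt z
  have h2 : t * s ≤ k * b := Nat.mul_le_mul ht.le hs.le
  have h3 : 4 * (k * b) ≤ q := by rw [← mul_assoc]; exact hbq
  have h4 : (z.val - (if h ≤ z.val then h else 0) + (if P then (S + 1) * e else 0)) + t * s < q := by
    split_ifs <;> omega
  have h5 : z + (((-(if decide (h ≤ z.val) = true then (h : ℤ) else 0) +
      (if P then (((S + 1) * e : ℕ) : ℤ) else 0) : ℤ)) : ZMod q) + t • (s : ZMod q) =
      (((z.val - (if h ≤ z.val then h else 0) + (if P then (S + 1) * e else 0)) + t * s : ℕ) :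
        ZMod q) := by
    by_cases hz : h ≤ z.val
    · have h6 : z = (((z.val - h : ℕ) : ZMod q) + (h : ZMod q)) := by
        rw [← Nat.cast_add, Nat.sub_add_cancel hz, ZMod.natCast_zmod_val]
      simp only [hz, decide_true, if_true]
      conv_lhs => rw [h6]
      split_ifs <;> push_cast <;> simp
    · simp only [hz, decide_false, Bool.false_eq_true, if_false]
      split_ifs <;> push_cast <;> simp
  rw [h5, ZMod.val_cast_of_lt h4]

/-- **Integer sets with separated first coordinates** -/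
theorem finite_sets (q k d R S b : ℕ) (hq : q.Prime) (hk : 1 ≤ k) (hd : 1 ≤ d) (hR : 1 ≤ R)
    (hbq : 4 * k * b ≤ q) (hqS : 16 * (S + 1) * 2 ^ R ≤ q)
    (A : Finset ((Fin d → ZMod q) × (Fin R → ZMod q)))
    (hA : ∀ ρ : (Fin d → ZMod q) × (Fin R → ZMod q), ∃ a : (Fin d → ZMod q) × (Fin R → ZMod q),
      ∀ t : ℕ, t < k → a + t • ρ ∈ A)
    (hcard : A.card ≤ q ^ (d - 1)) :
    ∃ G Bad : Finset ((Fin d → ℕ) × (Fin R → ℕ)),
      (∀ x ∈ G, (∀ i, x.1 i < q) ∧ ∀ i, x.2 i < q) ∧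
      (∀ x ∈ G, ∀ y ∈ G, x ≠ y → ∃ i, (S : ℤ) < |(x.1 i : ℤ) - y.1 i|) ∧
      Bad.card ≤ 2 * k * 4 ^ (d + R) * (2 * S + 1) ^ d * q ^ (d + R - 1) ∧
      ∀ ρ : (Fin d → ℕ) × (Fin R → ℕ), (∀ i, ρ.1 i < b) → (∀ i, ρ.2 i < b) → ρ ∉ Bad →
        ∃ a : (Fin d → ℕ) × (Fin R → ℕ), ∀ t : ℕ, t < k → a + t • ρ ∈ G := by
  classical
  haveI : Fact q.Prime := ⟨hq⟩
  haveI : NeZero q := ⟨hq.ne_zero⟩
  have hpow : 1 ≤ 2 ^ R := Nat.one_le_two_pow
  have hq2 : q % 2 = 1 := by
    rcases hq.eq_two_or_odd with h | h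
    · exfalso
      rw [h] at hqS
      nlinarith
    · exact h
  choose a ha using hA
  let τ : (Fin d → Bool) × (Fin R → Bool) → (Fin d → ZMod q) × (Fin R → ZMod q) := fun l =>
    (fun i => ((t1 q S d R hd l i : ℤ) : ZMod q), fun i => ((t2 q d R l i : ℤ) : ZMod q))
  let D : Finset (Fin d → ZMod q) := Finset.univ.image
    (fun p : ((Fin d → Bool) × (Fin R → Bool)) × ((Fin d → Bool) × (Fin R → Bool)) =>
      (τ p.1 - τ p.2).1)
  have hD : D.card ≤ 4 ^ (d + R) := by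
    refine Finset.card_image_le.trans ?_
    simp only [Finset.card_univ, Fintype.card_prod, Fintype.card_pi, Fintype.card_bool,
      Finset.prod_const, Fintype.card_fin]
    rw [show (4 : ℕ) = 2 * 2 by norm_num, mul_pow, pow_add]
  obtain ⟨T, hT⟩ := exists_good_equiv q d R S k hd hR A hcard a ha D
  set BadF : Set ((Fin d → ZMod q) × (Fin R → ZMod q)) :=
    {ρ | ∃ t < k, ∃ v ∈ A, v ≠ a ρ + t • ρ ∧ ∃ c ∈ D,
        ∀ i, |((T (a ρ + t • ρ - v)).1 i + c i).valMinAbs| ≤ (S : ℤ)} with hBadF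
  let rep : (Fin d → ZMod q) × (Fin R → ZMod q) → (Fin d → ℕ) × (Fin R → ℕ) := fun z =>
    (fun i => (z.1 i).val, fun i => (z.2 i).val)
  let light : (Fin d → ZMod q) × (Fin R → ZMod q) → Prop := fun x =>
    ∀ v ∈ A, v ≠ x → ∀ c ∈ D, ∃ i, (S : ℤ) < |((T (x - v)).1 i + c i).valMinAbs|
  have key : ∀ z w : ZMod q, |(z - w).valMinAbs| ≤ |(z.val : ℤ) - w.val| := by
    intro z w
    have h := valMinAbs_le q ((z.val : ℤ) - w.val)
    have h2 : ((((z.val : ℤ) - w.val : ℤ)) : ZMod q) = z - w := by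
      push_cast
      rw [ZMod.natCast_zmod_val, ZMod.natCast_zmod_val]
    rwa [h2] at h
  refine ⟨((A.filter light) ×ˢ (Finset.univ : Finset ((Fin d → Bool) × (Fin R → Bool)))).image
    (fun p => rep (T p.1 + τ p.2)), BadF.toFinset.image (fun ρ => rep (T ρ)), ?_, ?_, ?_, ?_⟩
  · intro x' hx'
    obtain ⟨x, -, rfl⟩ := Finset.mem_image.1 hx'
    exact ⟨fun i => ZMod.val_lt _, fun i => ZMod.val_lt _⟩
  · intro x' hx' y' hy' hxy
    obtain ⟨⟨x, l⟩, hx, rfl⟩ := Finset.mem_image.1 hx'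
    obtain ⟨⟨y, m⟩, hy, rfl⟩ := Finset.mem_image.1 hy'
    rw [Finset.mem_product, Finset.mem_filter] at hx hy
    simp only at hx hy hxy ⊢
    rcases eq_or_ne x y with rfl | hne
    · have hlm : l ≠ m := fun h => hxy (by rw [h])
      obtain ⟨i, h1, h2⟩ := t1_sep q S d R hd hq2 hqS l m hlm
      refine ⟨i, lt_of_lt_of_le (lt_valMinAbs q S _ h1 h2) ?_⟩
      refine le_trans (le_of_eq ?_) (key _ _)
      congr 2
      simp only [τ, Prod.fst_add, Pi.add_apply]
      push_cast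
      ring
    · obtain ⟨i, hi⟩ := hx.1.2 y hy.1.1 hne.symm (τ l - τ m).1
        (Finset.mem_image.2 ⟨(l, m), Finset.mem_univ _, rfl⟩)
      refine ⟨i, lt_of_lt_of_le hi ?_⟩
      refine le_trans (le_of_eq ?_) (key _ _)
      congr 2
      simp only [map_sub, Prod.fst_sub, Prod.fst_add, Pi.add_apply, Pi.sub_apply]
      ring
  · refine Finset.card_image_le.trans ?_
    rw [← Set.ncard_eq_toFinset_card']
    refine hT.trans ?_
    gcongr
  · intro σ hσ1 hσ2 hbad
    have hbq' : b ≤ q := by nlinarith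
    set ρ : (Fin d → ZMod q) × (Fin R → ZMod q) :=
      T.symm (fun i => (σ.1 i : ZMod q), fun i => (σ.2 i : ZMod q)) with hρ
    have hTρ : T ρ = (fun i => (σ.1 i : ZMod q), fun i => (σ.2 i : ZMod q)) := by
      rw [hρ, LinearEquiv.apply_symm_apply]
    have hρB : ρ ∉ BadF := by
      intro h
      refine hbad (Finset.mem_image.2 ⟨ρ, by simpa using h, ?_⟩)
      simp only [hTρ, rep]
      refine Prod.ext (funext fun i => ?_) (funext fun i => ?_)
      · exact ZMod.val_cast_of_lt ((hσ1 i).trans_le hbq')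
      · exact ZMod.val_cast_of_lt ((hσ2 i).trans_le hbq')
    have hlight : ∀ t : ℕ, t < k → light (a ρ + t • ρ) := by
      intro t ht v hv hne c hc
      by_contra hcon
      push Not at hcon
      exact hρB ⟨t, ht, v, hv, hne, c, hc, hcon⟩
    set h : ℕ := (q + 1) / 2 with hh
    set z := T (a ρ) with hz
    set l : (Fin d → Bool) × (Fin R → Bool) :=
      (fun i => decide (h ≤ (z.1 i).val), fun i => decide (h ≤ (z.2 i).val)) with hl
    have hW : 16 * ((S + 1) * 2 ^ R) ≤ q := by rw [← mul_assoc]; exact hqS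
    have he : (S + 1) * (en R l.2 : ℕ) ≤ (S + 1) * 2 ^ R := Nat.mul_le_mul_left _ (en R l.2).2.le
    refine ⟨(fun i => (z.1 i).val - (if h ≤ (z.1 i).val then h else 0) +
      (if i = ⟨0, hd⟩ then (S + 1) * (en R l.2 : ℕ) else 0),
      fun i => (z.2 i).val - (if h ≤ (z.2 i).val then h else 0)), fun t ht => ?_⟩
    rw [Finset.mem_image]
    refine ⟨(a ρ + t • ρ, l), Finset.mem_product.2 ⟨Finset.mem_filter.2 ⟨ha ρ t ht, hlight t ht⟩,
      Finset.mem_univ _⟩, ?_⟩
    have hTz : T (a ρ + t • ρ) = z + t • T ρ := by rw [map_add, map_nsmul]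
    simp only [hTz, hTρ, rep]
    refine Prod.ext (funext fun i => ?_) (funext fun i => ?_)
    · have := coord q k b S _ (en R l.2 : ℕ) h hq2 hh hW he hbq (z.1 i) (i = ⟨0, hd⟩) (σ.1 i) t
        (hσ1 i) ht
      have e1 : t1 q S d R hd l i = -(if decide (h ≤ (z.1 i).val) = true then (h : ℤ) else 0) +
        (if i = ⟨0, hd⟩ then (((S + 1) * (en R l.2 : ℕ) : ℕ) : ℤ) else 0) := rfl
      simp only [Prod.fst_add, Pi.add_apply, Prod.smul_fst, Pi.smul_apply, τ]
      rw [add_right_comm, e1]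
      exact this
    · have := coord q k b S _ (en R l.2 : ℕ) h hq2 hh hW he hbq (z.2 i) False (σ.2 i) t
        (hσ2 i) ht
      have e1 : t2 q d R l i = -(if decide (h ≤ (z.2 i).val) = true then (h : ℤ) else 0) := rfl
      simp only [Prod.snd_add, Pi.add_apply, Prod.smul_snd, Pi.smul_apply, τ]
      rw [add_right_comm, e1]
      simpa using this

end Pool.Agent.Zk23.KKSets
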