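import Pool.Agent.Zk23.KKCrB
import Pool.Agent.Zk50.G2
import Pool.Agent.Zk23.KKSets
import Pool.Agent.Zk50.G3

/-!
# Graphs of functions of class `C^r` and the arithmetic Kakeya conjecture
-/

set_option autoImplicit false

open Set Filter Topology MeasureTheory
open scoped ContDiff

namespace Pool.Agent.Zk23.KKGraph

open Pool.Agent.Zk23.KKEquiv (E HasProg AKC HasProg.mono)
open Pool.Agent.Zk23.KKCrA (reduce_set)
open Pool.Agent.Zk23.KKCr (digit_sum)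
open Pool.Agent.Zk23.KKCrB (SmallCover)
open Pool.Agent.Zk72.KakDisc (discretise)
open Pool.Agent.Zk50.G2 (hier_code)
open Pool.Agent.Zk23.KKSets (finite_sets)
open Pool.Agent.Zk50.G3 (digits_measure)

/-- powers of a set of vectors modulo `p` -/
theorem power_set (p : ℕ) [Fact p.Prime] (k n₀ l d M : ℕ) (e : Fin l × Fin n₀ ≃ Fin d ⊕ Fin M)
    (A₀ : Finset (Fin n₀ → ZMod p))
    (hA₀ : ∀ ρ : Fin n₀ → ZMod p, ∃ a : Fin n₀ → ZMod p, ∀ t : ℕ, t < k → a + t • ρ ∈ A₀) :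
    ∃ A : Finset ((Fin d → ZMod p) × (Fin M → ZMod p)), A.card ≤ A₀.card ^ l ∧
      ∀ ρ : (Fin d → ZMod p) × (Fin M → ZMod p), ∃ a : (Fin d → ZMod p) × (Fin M → ZMod p),
        ∀ t : ℕ, t < k → a + t • ρ ∈ A := by
  classical
  let F : (Fin l → Fin n₀ → ZMod p) → (Fin d → ZMod p) × (Fin M → ZMod p) := fun y =>
    (fun i => y (e.symm (Sum.inl i)).1 (e.symm (Sum.inl i)).2,
      fun i => y (e.symm (Sum.inr i)).1 (e.symm (Sum.inr i)).2)
  refine ⟨(Fintype.piFinset (fun _ : Fin l => A₀)).image F, ?_, ?_⟩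
  · refine Finset.card_image_le.trans ?_
    rw [Fintype.card_piFinset]
    simp
  · intro ρ
    choose α hα using fun q : Fin l => hA₀ (fun i => Sum.elim ρ.1 ρ.2 (e (q, i)))
    refine ⟨F α, fun t ht => ?_⟩
    rw [Finset.mem_image]
    refine ⟨fun q => α q + t • fun i => Sum.elim ρ.1 ρ.2 (e (q, i)), ?_, ?_⟩
    · rw [Fintype.mem_piFinset]
      exact fun q => hα q t ht
    · ext i
      · simp [F]
      · simp [F]

/-- the sets of one level -/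
theorem level (q k n₀ l d r S b : ℕ) (hq : q.Prime) (hk : 1 ≤ k) (hd : 1 ≤ d) (hb : 1 ≤ b)
    (hm : l * n₀ = d + (r + 1)) (hbq : 4 * k * b ≤ q) (hqS : 16 * (S + 1) * 2 ^ (r + 1) ≤ q)
    (A : Finset (Fin n₀ → ℤ))
    (hA : ∀ v : Fin n₀ → ℕ, (∀ i, v i < q) → ∃ α : Fin n₀ → ℤ, ∀ j : ℕ, j < k →
      (fun i => α i + (j : ℤ) * (v i : ℤ)) ∈ A)
    (hcard : A.card ^ l ≤ q ^ (d - 1)) :
    ∃ G Bad : Finset ((Fin d → ℕ) × ℕ),
      (∀ x ∈ G, (∀ i, x.1 i < q) ∧ x.2 ≤ (r + 1) * (b ^ r * q)) ∧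
      (∀ x ∈ G, ∀ y ∈ G, x ≠ y → ∃ i, (S : ℤ) < |(x.1 i : ℤ) - y.1 i|) ∧
      Bad.card ≤ 2 * k * 4 ^ (d + (r + 1)) * (2 * S + 1) ^ d * q ^ (d + r) ∧
      ∀ (ρ : Fin d → ℕ) (y : ℕ), (∀ i, ρ i < b) → y < b ^ (r + 1) → (ρ, y) ∉ Bad →
        ∃ (a : Fin d → ℕ) (c : ℕ), ∀ t : ℕ, t < k → (fun i => a i + t * ρ i, c + t * y) ∈ G := by
  classical
  haveI : Fact q.Prime := ⟨hq⟩
  obtain ⟨A₀, h1, h2⟩ := reduce_set q k n₀ A hA
  let e : Fin l × Fin n₀ ≃ Fin d ⊕ Fin (r + 1) :=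
    finProdFinEquiv.trans ((finCongr hm).trans finSumFinEquiv.symm)
  obtain ⟨A₁, h3, h4⟩ := power_set q k n₀ l d (r + 1) e A₀ h2
  obtain ⟨G, Bad, g1, g2, g3, g4⟩ := finite_sets q k d (r + 1) S b hq hk hd (by omega) hbq hqS A₁ h4
    ((h3.trans (Nat.pow_le_pow_left h1 l)).trans hcard)
  let Φ : (Fin d → ℕ) × (Fin (r + 1) → ℕ) → (Fin d → ℕ) × ℕ := fun x =>
    (x.1, ∑ i : Fin (r + 1), b ^ (i : ℕ) * x.2 i)
  refine ⟨G.image Φ, Bad.image Φ, ?_, ?_, ?_, ?_⟩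
  · intro x' hx'
    obtain ⟨x, hx, rfl⟩ := Finset.mem_image.1 hx'
    refine ⟨(g1 x hx).1, ?_⟩
    simp only [Φ]
    calc ∑ i : Fin (r + 1), b ^ (i : ℕ) * x.2 i ≤ ∑ _i : Fin (r + 1), b ^ r * q := by
          refine Finset.sum_le_sum fun i _ => ?_
          refine Nat.mul_le_mul (Nat.pow_le_pow_right hb (by omega)) ((g1 x hx).2 i).le
      _ = (r + 1) * (b ^ r * q) := by simp
  · intro x' hx' y' hy' hxy
    obtain ⟨x, hx, rfl⟩ := Finset.mem_image.1 hx'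
    obtain ⟨y, hy, rfl⟩ := Finset.mem_image.1 hy'
    exact g2 x hx y hy (fun h => hxy (by rw [h]))
  · refine Finset.card_image_le.trans ?_
    exact g3
  · intro ρ y hρ hy hbad
    have hd1 := digit_sum b hb (r + 1) y hy
    obtain ⟨a, ha⟩ := g4 (ρ, fun i => y / b ^ (i : ℕ) % b) hρ (fun i => Nat.mod_lt _ (by omega))
      (fun h => hbad (Finset.mem_image.2 ⟨_, h, by simp only [Φ]; rw [hd1]⟩))
    refine ⟨a.1, ∑ i : Fin (r + 1), b ^ (i : ℕ) * a.2 i, fun t ht => ?_⟩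
    rw [Finset.mem_image]
    refine ⟨_, ha t ht, ?_⟩
    refine Prod.ext ?_ ?_
    · ext i
      simp [Φ]
    · simp only [Φ]
      conv_rhs => rw [← hd1]
      rw [Finset.mul_sum, ← Finset.sum_add_distrib]
      refine Finset.sum_congr rfl fun i _ => ?_
      simp
      ring

/-- the primes and the bases -/
theorem primes (k Q : ℕ) (hk : 1 ≤ k) (hQ : 8 * k ≤ Q) : ∃ q b : ℕ → ℕ, ∀ J : ℕ,
    (q J).Prime ∧ Q * (J + 1) ^ 2 < q J ∧ q J ≤ 2 * (Q * (J + 1) ^ 2) ∧ 4 * k * b J ≤ q J ∧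
      q J ≤ 8 * k * b J ∧ 2 ≤ b J := by
  have h := fun J : ℕ => Nat.exists_prime_lt_and_le_two_mul (Q * (J + 1) ^ 2) (by
    have : 0 < Q := by omega
    positivity)
  choose q hq1 hq2 hq3 using h
  refine ⟨q, fun J => q J / (4 * k), fun J => ?_⟩
  have h1 : 8 * k < q J := by
    have h2 : Q ≤ Q * (J + 1) ^ 2 := Nat.le_mul_of_pos_right _ (by positivity)
    exact (hQ.trans h2).trans_lt (hq2 J)
  have h3 := Nat.div_add_mod (q J) (4 * k)
  have h4 := Nat.mod_lt (q J) (by omega : 0 < 4 * k)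
  have h5 : 2 ≤ q J / (4 * k) := by
    rw [Nat.le_div_iff_mul_le (by omega)]
    omega
  refine ⟨hq1 J, hq2 J, hq3 J, by simp only; omega, ?_, h5⟩
  have h6 : 4 * k ≤ 4 * k * (q J / (4 * k)) := Nat.le_mul_of_pos_right _ (by omega)
  have h7 : 8 * k * (q J / (4 * k)) = 4 * k * (q J / (4 * k)) + 4 * k * (q J / (4 * k)) := by ring
  rw [h7]
  omega

/-- from the levels to a function -/
theorem assemble (k d r Q C : ℕ) (hk : 1 ≤ k) (hQ0 : 1 ≤ Q) (q b : ℕ → ℕ)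
    (hq1 : ∀ J, Q * (J + 1) ^ 2 < q J) (hq2 : ∀ J, q J ≤ 2 * (Q * (J + 1) ^ 2))
    (hbq : ∀ J, 4 * k * b J ≤ q J) (hqb : ∀ J, q J ≤ 8 * k * b J) (hb : ∀ J, 2 ≤ b J)
    (G Bad : ℕ → Finset ((Fin d → ℕ) × ℕ))
    (h1 : ∀ J, ∀ x ∈ G J, (∀ i, x.1 i < q J) ∧ x.2 ≤ (r + 1) * (b J ^ r * q J))
    (h2 : ∀ J, ∀ x ∈ G J, ∀ y ∈ G J, x ≠ y → ∃ i, ((32 * k + 2 : ℕ) : ℤ) < |(x.1 i : ℤ) - y.1 i|)
    (h3 : ∀ J, (Bad J).card ≤ C * q J ^ (d + r))
    (hQ : (C : ℝ) * (8 * k) ^ (d + (r + 1)) * ∑' J : ℕ, 1 / ((J : ℝ) + 1) ^ 2 < Q)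
    (h4 : ∀ J (ρ : Fin d → ℕ) (y : ℕ), (∀ i, ρ i < b J) → y < b J ^ (r + 1) → (ρ, y) ∉ Bad J →
        ∃ (a : Fin d → ℕ) (c : ℕ), ∀ t : ℕ, t < k → (fun i => a i + t * ρ i, c + t * y) ∈ G J) :
    ∃ g : E d → ℝ, ContDiff ℝ r g ∧
      volume {z : E (d + 1) | ∃ a : E (d + 1), ∀ t : ℕ, t < k → a + (t : ℝ) • z ∈
        {w : E (d + 1) | w (Fin.last d) = g (WithLp.toLp 2 fun i => w (Fin.castSucc i))}} ≠ 0 := by
  classical
  set P : ℕ → ℕ := fun J => ∏ j ∈ Finset.range (J + 1), b j with hP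
  have hP2 : ∀ J, (2 : ℝ) ^ (J + 1) ≤ P J := by
    intro J
    have : 2 ^ (J + 1) ≤ P J := by
      calc 2 ^ (J + 1) = ∏ _j ∈ Finset.range (J + 1), 2 := by simp
        _ ≤ P J := Finset.prod_le_prod' fun j _ => hb j
    exact_mod_cast this
  have hP1 : ∀ J, (1 : ℝ) ≤ P J := fun J => (one_le_pow₀ one_le_two).trans (hP2 J)
  have hP0 : ∀ J, (0 : ℝ) < P J := fun J => one_pos.trans_le (hP1 J)
  set M : ℕ → ℝ := fun J => (r + 1) * ((b J : ℝ) ^ r * q J) with hM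
  have hQr : (1 : ℝ) ≤ Q := by exact_mod_cast hQ0
  have hq2r : ∀ J, (q J : ℝ) ≤ 2 * (Q * ((J : ℝ) + 1) ^ 2) := fun J => by exact_mod_cast hq2 J
  have hbqr : ∀ J, (b J : ℝ) ≤ q J := by
    intro J
    have : b J ≤ q J := (Nat.le_mul_of_pos_left _ (by omega)).trans (hbq J)
    exact_mod_cast this
  have hMs : Summable fun J => M J / (P J : ℝ) := by
    have hs : Summable fun J : ℕ => ((J : ℝ)) ^ (2 * (r + 1)) * (1 / 2 : ℝ) ^ J :=
      summable_pow_mul_geometric_of_norm_lt_one _ (by norm_num)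
    have hs1 := ((summable_nat_add_iff 1).2 hs).mul_left ((r + 1 : ℝ) * (2 * Q) ^ (r + 1))
    refine Summable.of_nonneg_of_le (fun J => div_nonneg (by positivity) (hP0 J).le) (fun J => ?_) hs1
    rw [div_le_iff₀ (hP0 J)]
    have e1 : M J ≤ (r + 1 : ℝ) * (2 * Q) ^ (r + 1) * ((J : ℝ) + 1) ^ (2 * (r + 1)) := by
      calc M J ≤ (r + 1 : ℝ) * ((q J : ℝ) ^ r * q J) := by
            simp only [hM]
            gcongr
            exact_mod_cast hbqr J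
        _ = (r + 1 : ℝ) * (q J : ℝ) ^ (r + 1) := by rw [pow_succ]
        _ ≤ (r + 1 : ℝ) * (2 * (Q * ((J : ℝ) + 1) ^ 2)) ^ (r + 1) := by gcongr; exact hq2r J
        _ = _ := by rw [pow_mul, mul_assoc, ← mul_pow]; ring_nf
    refine e1.trans ?_
    have e2 : (1 : ℝ) ≤ (1 / 2 : ℝ) ^ (J + 1) * P J := by
      rw [one_div, inv_pow, inv_mul_eq_div, le_div_iff₀ (by positivity), one_mul]
      exact hP2 J
    push_cast
    calc (r + 1 : ℝ) * (2 * Q) ^ (r + 1) * ((J : ℝ) + 1) ^ (2 * (r + 1))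
        = (r + 1 : ℝ) * (2 * Q) ^ (r + 1) * ((J : ℝ) + 1) ^ (2 * (r + 1)) * 1 := by ring
      _ ≤ (r + 1 : ℝ) * (2 * Q) ^ (r + 1) * ((J : ℝ) + 1) ^ (2 * (r + 1)) *
          ((1 / 2 : ℝ) ^ (J + 1) * P J) := by gcongr
      _ = _ := by ring
  obtain ⟨g, hg1, hg2⟩ := hier_code r d (8 * k) (by omega) b hb P (fun J => rfl) G M
    (fun J x hx i => (((h1 J x hx).1 i).le.trans (hqb J)))
    (fun J x hx => by
      have := (h1 J x hx).2
      simp only [hM]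
      exact_mod_cast this)
    (fun J x hx y hy hxy => by
      obtain ⟨i, hi⟩ := h2 J x hx y hy hxy
      refine ⟨i, ?_⟩
      push_cast at hi ⊢
      omega) hMs
  refine ⟨g, hg1, fun hv => ?_⟩
  set η : ℕ → ℝ := fun J => (C : ℝ) * (8 * k) ^ (d + (r + 1)) / Q * (1 / ((J : ℝ) + 1) ^ 2) with hη
  have hZ : Summable fun J : ℕ => 1 / ((J : ℝ) + 1) ^ 2 := by
    have := (summable_nat_add_iff 1).2 (Real.summable_one_div_nat_pow.2 one_lt_two)
    simpa using this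
  refine digits_measure d r b hb P (fun J => rfl) Bad η (hZ.mul_left _) ?_ ?_
    (measure_mono_null ?_ hv)
  · rw [tsum_mul_left, div_mul_eq_mul_div, div_lt_one (by linarith)]
    exact hQ
  · intro J
    have e1 : ((Bad J).card : ℝ) ≤ C * (q J : ℝ) ^ (d + r) := by exact_mod_cast h3 J
    have e2 : (Q : ℝ) * ((J : ℝ) + 1) ^ 2 ≤ q J := by exact_mod_cast (hq1 J).le
    have e3 : (q J : ℝ) ≤ 8 * k * b J := by exact_mod_cast hqb J
    have e4 : (0 : ℝ) < (Q : ℝ) * ((J : ℝ) + 1) ^ 2 := by positivity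
    have e5 : (q J : ℝ) ^ (d + r) * ((Q : ℝ) * ((J : ℝ) + 1) ^ 2) ≤ (8 * k * b J) ^ (d + (r + 1)) := by
      calc (q J : ℝ) ^ (d + r) * ((Q : ℝ) * ((J : ℝ) + 1) ^ 2) ≤ (q J : ℝ) ^ (d + r) * q J := by gcongr
        _ = (q J : ℝ) ^ (d + (r + 1)) := by rw [← pow_succ]; congr 1
        _ ≤ _ := by gcongr
    calc ((Bad J).card : ℝ) ≤ C * (q J : ℝ) ^ (d + r) := e1
      _ ≤ C * ((8 * k * b J) ^ (d + (r + 1)) / ((Q : ℝ) * ((J : ℝ) + 1) ^ 2)) := by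
          gcongr
          rw [le_div_iff₀ e4]
          exact e5
      _ = η J * (b J : ℝ) ^ (d + (r + 1)) := by
          simp only [hη]
          rw [mul_pow]
          field_simp
  · rintro z ⟨ρ, y, hρ, hy, hbad, hz1, hz2⟩
    choose a c hac using fun J => h4 J (ρ J) (y J) (hρ J) (hy J) (hbad J)
    have haM : ∀ J i, (a J i : ℝ) ≤ M J := by
      intro J i
      have e1 := ((h1 J _ (hac J 0 (by omega))).1 i).le
      simp only [zero_mul, add_zero] at e1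
      have e2 : q J ≤ (r + 1) * (b J ^ r * q J) := by
        have : 0 < b J ^ r := Nat.pow_pos (by have := hb J; omega)
        exact (Nat.le_mul_of_pos_left _ this).trans (Nat.le_mul_of_pos_left _ (by omega))
      simp only [hM]
      exact_mod_cast e1.trans e2
    have hcM : ∀ J, (c J : ℝ) ≤ M J := by
      intro J
      have e1 := (h1 J _ (hac J 0 (by omega))).2
      simp only [zero_mul, add_zero] at e1
      simp only [hM]
      exact_mod_cast e1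
    have has : ∀ i, Summable fun J => (a J i : ℝ) / (P J : ℝ) := fun i =>
      Summable.of_nonneg_of_le (fun J => div_nonneg (Nat.cast_nonneg _) (hP0 J).le)
        (fun J => div_le_div_of_nonneg_right (haM J i) (hP0 J).le) hMs
    have hM0 : ∀ J, 0 ≤ M J := fun J => (Nat.cast_nonneg _).trans (hcM J)
    have hcs : Summable fun J => (c J : ℝ) / (P J : ℝ) ^ (r + 1) :=
      Summable.of_nonneg_of_le (fun J => div_nonneg (Nat.cast_nonneg _) (pow_pos (hP0 J) _).le)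
        (fun J => by
          refine (div_le_div_of_nonneg_right (hcM J) (pow_pos (hP0 J) _).le).trans ?_
          exact div_le_div_of_nonneg_left (hM0 J) (hP0 J) (le_self_pow₀ (hP1 J) (by omega))) hMs
    refine ⟨WithLp.toLp 2 (Fin.snoc (α := fun _ => ℝ) (fun i : Fin d => ∑' J, (a J i : ℝ) / (P J : ℝ))
      (∑' J, (c J : ℝ) / (P J : ℝ) ^ (r + 1))), fun t ht => ?_⟩
    have e1 := hg2 (fun J => (fun i => a J i + t * ρ J i, c J + t * y J)) (fun J => hac J t ht)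
    simp only [mem_ofPred_eq, PiLp.add_apply, PiLp.smul_apply, smul_eq_mul, Fin.snoc_last,
      Fin.snoc_castSucc]
    have e2 : ∀ i : Fin d, ∑' J, (a J i : ℝ) / (P J : ℝ) + t * z (Fin.castSucc i) =
        ∑' J : ℕ, ((a J i + t * ρ J i : ℕ) : ℝ) / (P J : ℝ) := by
      intro i
      have := ((has i).hasSum.add ((hz1 i).mul_left (t : ℝ))).tsum_eq
      rw [← this]
      refine tsum_congr fun J => ?_
      push_cast
      ring
    have e3 : ∑' J, (c J : ℝ) / (P J : ℝ) ^ (r + 1) + t * z (Fin.last d) =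
        ∑' J : ℕ, ((c J + t * y J : ℕ) : ℝ) / (P J : ℝ) ^ (r + 1) := by
      have := (hcs.hasSum.add (hz2.mul_left (t : ℝ))).tsum_eq
      rw [← this]
      refine tsum_congr fun J => ?_
      push_cast
      ring
    rw [e3]
    simp_rw [e2]
    exact e1.symm

/-- **If the conjecture fails, there are graphs with many differences** -/
theorem graph_of_not_akc (h : ¬ AKC) (r : ℕ) : ∃ d : ℕ, 1 ≤ d ∧ ∀ k : ℕ, 1 ≤ k →
    ∃ g : E d → ℝ, ContDiff ℝ r g ∧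
      volume {z : E (d + 1) | ∃ a : E (d + 1), ∀ t : ℕ, t < k → a + (t : ℝ) • z ∈
        {w : E (d + 1) | w (Fin.last d) = g (WithLp.toLp 2 fun i => w (Fin.castSucc i))}} ≠ 0 := by
  unfold AKC at h
  push Not at h
  obtain ⟨n₀, ε, hε, hcon⟩ := h
  -- the dimension is positive
  have hn₀ : 1 ≤ n₀ := by
    by_contra hn
    obtain rfl : n₀ = 0 := by omega
    obtain ⟨B, hB, δ₀, hδ₀, hδ⟩ := hcon 1
    obtain ⟨S, hS1, hS2⟩ := hδ (min δ₀ 1 / 2) (by positivity) (by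
      have := min_le_left δ₀ 1
      linarith [lt_min hδ₀ one_pos])
    obtain ⟨a, ha⟩ := hB 0 (fun i => i.elim0)
    have hne : S.Nonempty := by
      by_contra hS
      rw [Finset.not_nonempty_iff_eq_empty] at hS
      subst hS
      simpa using hS1 (ha 0 one_pos)
    have h1 : (1 : ℝ) ≤ S.card := by exact_mod_cast hne.card_pos
    have h2 : (min δ₀ 1 / 2) ^ (-(((0 : ℕ) : ℝ) - ε)) ≤ 1 := by
      apply Real.rpow_le_one (by positivity) _ (by simp; exact hε.le)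
      have := min_le_right δ₀ 1
      linarith
    linarith
  have hn₀r : (1 : ℝ) ≤ n₀ := by exact_mod_cast hn₀
  set τ : ℝ := max 0 (1 - ε / n₀) with hτ
  have hτ1 : τ < 1 := max_lt one_pos (by
    have : 0 < ε / n₀ := by positivity
    linarith)
  have hτ0 : 0 ≤ τ := le_max_left _ _
  obtain ⟨τ', hττ', hτ'1⟩ := exists_between hτ1
  have hτ'0 : 0 < τ' := lt_of_le_of_lt hτ0 hττ'
  -- the power
  obtain ⟨l, hl⟩ := exists_nat_gt ((r + 2 : ℝ) / (1 - τ'))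
  rw [div_lt_iff₀ (by linarith)] at hl
  have hl1 : (r + 2 : ℝ) < l * n₀ * (1 - τ') := by
    refine hl.trans_le ?_
    apply mul_le_mul_of_nonneg_right _ (by linarith)
    nlinarith [(Nat.cast_nonneg l : (0 : ℝ) ≤ l)]
  have hl2 : r + 2 < l * n₀ := by
    have : (r + 2 : ℝ) < l * n₀ := by nlinarith [mul_nonneg (Nat.cast_nonneg l : (0 : ℝ) ≤ l) (by linarith : (0 : ℝ) ≤ n₀)]
    exact_mod_cast this
  obtain ⟨d, hd⟩ : ∃ d, l * n₀ = d + (r + 1) := ⟨l * n₀ - (r + 1), by omega⟩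
  have hd1 : 1 ≤ d := by omega
  have hdR : (l : ℝ) * n₀ = d + (r + 1) := by exact_mod_cast hd
  have hdτ : τ' * (l * n₀) ≤ ((d - 1 : ℕ) : ℝ) := by
    rw [Nat.cast_sub hd1]
    push_cast
    nlinarith
  refine ⟨d, hd1, fun k hk => ?_⟩
  obtain ⟨B, hB, δ₀, hδ₀, hδ⟩ := hcon k
  have hcov : SmallCover τ B := by
    obtain ⟨P, hP⟩ := exists_nat_gt (max 1 (1 / δ₀))
    filter_upwards [eventually_ge_atTop P] with p hp
    have hpR : (P : ℝ) ≤ p := by exact_mod_cast hp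
    have hp1 : (1 : ℝ) < p := lt_of_lt_of_le (lt_of_le_of_lt (le_max_left _ _) hP) hpR
    have hp2 : 1 / δ₀ < p := lt_of_lt_of_le (lt_of_le_of_lt (le_max_right _ _) hP) hpR
    have hp0 : (0 : ℝ) < p := by linarith
    obtain ⟨S, hS1, hS2⟩ := hδ (1 / (p : ℝ)) (by positivity) (by
      rw [div_lt_comm₀ hp0 hδ₀]
      exact hp2)
    refine ⟨S, hS1, hS2.le.trans ?_⟩
    have h4 : (1 / (p : ℝ)) ^ (-((n₀ : ℝ) - ε)) = (p : ℝ) ^ ((n₀ : ℝ) - ε) := by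
      rw [one_div, Real.inv_rpow hp0.le, Real.rpow_neg hp0.le, inv_inv]
    rw [h4]
    apply Real.rpow_le_rpow_of_exponent_le hp1.le
    have h5 : (1 - ε / n₀) * n₀ ≤ τ * n₀ :=
      mul_le_mul_of_nonneg_right (le_max_right _ _) (by linarith)
    have h6 : (1 - ε / n₀) * n₀ = n₀ - ε := by field_simp
    linarith
  have hev1 : ∀ᶠ p : ℕ in atTop, (3 ^ n₀ : ℝ) ≤ (p : ℝ) ^ ((τ' - τ) * n₀) := by
    have h1 : Tendsto (fun p : ℕ => (p : ℝ) ^ ((τ' - τ) * n₀)) atTop atTop :=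
      (tendsto_rpow_atTop (mul_pos (by linarith) (by linarith))).comp tendsto_natCast_atTop_atTop
    exact h1.eventually_ge_atTop _
  obtain ⟨Q₀, hQ₀⟩ := (hcov.and hev1).exists_forall_of_atTop
  set S : ℕ := 32 * k + 2 with hS
  set C : ℕ := 2 * k * 4 ^ (d + (r + 1)) * (2 * S + 1) ^ d with hC
  obtain ⟨Q₁, hQ₁⟩ := exists_nat_gt ((C : ℝ) * (8 * k) ^ (d + (r + 1)) * ∑' J : ℕ, 1 / ((J : ℝ) + 1) ^ 2)
  set Q : ℕ := max (max Q₀ Q₁) (max (8 * k) (16 * (S + 1) * 2 ^ (r + 1))) with hQ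
  have hQa : Q₀ ≤ Q := (le_max_left _ _).trans (le_max_left _ _)
  have hQb : Q₁ ≤ Q := (le_max_right _ _).trans (le_max_left _ _)
  have hQc : 8 * k ≤ Q := (le_max_left _ _).trans (le_max_right _ _)
  have hQd : 16 * (S + 1) * 2 ^ (r + 1) ≤ Q := (le_max_right _ _).trans (le_max_right _ _)
  obtain ⟨q, b, hqb⟩ := primes k Q hk hQc
  have hQq : ∀ J, Q ≤ q J := fun J =>
    (Nat.le_mul_of_pos_right Q (by positivity)).trans (hqb J).2.1.le
  have hlev : ∀ J : ℕ, ∃ G Bad : Finset ((Fin d → ℕ) × ℕ),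
      (∀ x ∈ G, (∀ i, x.1 i < q J) ∧ x.2 ≤ (r + 1) * (b J ^ r * q J)) ∧
      (∀ x ∈ G, ∀ y ∈ G, x ≠ y → ∃ i, (S : ℤ) < |(x.1 i : ℤ) - y.1 i|) ∧
      Bad.card ≤ C * (q J) ^ (d + r) ∧
      ∀ (ρ : Fin d → ℕ) (y : ℕ), (∀ i, ρ i < b J) → y < b J ^ (r + 1) → (ρ, y) ∉ Bad →
        ∃ (a : Fin d → ℕ) (c : ℕ), ∀ t : ℕ, t < k → (fun i => a i + t * ρ i, c + t * y) ∈ G := by
    intro J
    obtain ⟨⟨T, hT1, hT2⟩, h3⟩ := hQ₀ (q J) (hQa.trans (hQq J))
    obtain ⟨p1, p2, p3, p4, p5, p6⟩ := hqb J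
    have hp0 : (0 : ℝ) < q J := by exact_mod_cast p1.pos
    have hp1 : (1 : ℝ) < q J := by exact_mod_cast p1.one_lt
    obtain ⟨A, hA1, hA2⟩ := discretise n₀ k (q J) p1.one_lt.le B hB T hT1
    have hAr : (A.card : ℝ) ≤ (q J : ℝ) ^ (τ' * n₀) := by
      calc (A.card : ℝ) ≤ 3 ^ n₀ * T.card := by exact_mod_cast hA1
        _ ≤ (q J : ℝ) ^ ((τ' - τ) * n₀) * (q J : ℝ) ^ (τ * n₀) := by gcongr
        _ = (q J : ℝ) ^ (τ' * n₀) := by
            rw [← Real.rpow_add hp0]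
            congr 1
            ring
    have hAc : A.card ^ l ≤ (q J) ^ (d - 1) := by
      have : ((A.card ^ l : ℕ) : ℝ) ≤ (((q J) ^ (d - 1) : ℕ) : ℝ) := by
        push_cast
        calc (A.card : ℝ) ^ l ≤ ((q J : ℝ) ^ (τ' * n₀)) ^ l := by gcongr
          _ = (q J : ℝ) ^ (τ' * (l * n₀)) := by
              rw [← Real.rpow_natCast, ← Real.rpow_mul hp0.le]
              congr 1
              ring
          _ ≤ (q J : ℝ) ^ (((d - 1 : ℕ) : ℝ)) := Real.rpow_le_rpow_of_exponent_le hp1.le hdτ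
          _ = _ := Real.rpow_natCast _ _
      exact_mod_cast this
    exact level (q J) k n₀ l d r S (b J) p1 hk hd1 (by omega) hd p4 (hQd.trans (hQq J)) A hA2 hAc
  choose G Bad g1 g2 g3 g4 using hlev
  refine assemble k d r Q C hk (by omega) q b (fun J => (hqb J).2.1) (fun J => (hqb J).2.2.1)
    (fun J => (hqb J).2.2.2.1) (fun J => (hqb J).2.2.2.2.1) (fun J => (hqb J).2.2.2.2.2)
    G Bad g1 g2 g3 (hQ₁.trans_le (by exact_mod_cast hQb)) g4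

end Pool.Agent.Zk23.KKGraph
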