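import Pool.Agent.Zk23.KKEx
import Pool.Agent.Zk50.KakPack

/-!
# The exponents of the arithmetic Kakeya problem and `C^1` images
-/

set_option autoImplicit false

open Set Filter Topology
open scoped ContDiff

namespace Pool.Agent.Zk23.KKIff

open Pool.Agent.Zk23.KKEquiv
open Pool.Agent.Zk25.KakCode (c1_code)
open Pool.Agent.Zk72.KakDisc (discretise)
open Pool.Agent.Zk72.KakCov1 (c1_cover)
open Pool.Agent.Results.MP_4b405e_nt.AlgebraicSets (coverNum upperMinkowski)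

theorem coverNum_le {n : ℕ} {B : Set (E n)} {δ : ℝ} {N : ℕ} (U : Fin N → Set (E n))
    (h1 : ∀ i, ∀ x ∈ U i, ∀ y ∈ U i, dist x y ≤ δ) (h2 : B ⊆ ⋃ i, U i) : coverNum B δ ≤ N :=
  Nat.sInf_le ⟨U, h1, h2⟩

theorem coverNum_le_of_balls {n : ℕ} {B : Set (E n)} {δ : ℝ} (S : Finset (E n))
    (h : B ⊆ ⋃ x ∈ S, Metric.ball x (δ / 2)) : coverNum B δ ≤ S.card := by
  refine coverNum_le (fun i : Fin S.card => Metric.ball ((S.equivFin.symm i : S) : E n) (δ / 2)) ?_ ?_
  · intro i x hx y hy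
    rw [Metric.mem_ball] at hx hy
    calc dist x y ≤ dist x _ + dist y _ := dist_triangle_right x y ((S.equivFin.symm i : S) : E n)
      _ ≤ δ := by linarith
  · intro b hb
    obtain ⟨x, hx, hbx⟩ := mem_iUnion₂.1 (h hb)
    refine mem_iUnion.2 ⟨S.equivFin ⟨x, hx⟩, ?_⟩
    simpa using hbx

theorem upperMinkowski_le {n d : ℕ} {B : Set (E n)} {C : ℝ} (hC : 0 < C)
    (h : ∀ δ : ℝ, 0 < δ → δ < 1 → (coverNum B δ : ℝ) ≤ C * δ ^ (-(d : ℝ))) :
    upperMinkowski B ≤ ((d : ℝ) : EReal) := by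
  have h1 : Tendsto (fun δ : ℝ => (max (Real.log C) 0 / Real.log (1 / δ) + d : ℝ)) (𝓝[>] 0)
      (𝓝 (0 + d)) := by
    apply Tendsto.add_const
    apply Tendsto.div_atTop tendsto_const_nhds
    have : (fun δ : ℝ => Real.log (1 / δ)) = fun δ => -Real.log δ := by
      ext δ
      rw [one_div, Real.log_inv]
    rw [this]
    exact tendsto_neg_atBot_atTop.comp Real.tendsto_log_nhdsGT_zero
  rw [zero_add] at h1
  have h2 : Tendsto (fun δ : ℝ => ((max (Real.log C) 0 / Real.log (1 / δ) + d : ℝ) : EReal))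
      (𝓝[>] 0) (𝓝 ((d : ℝ) : EReal)) :=
    (continuous_coe_real_ereal.tendsto _).comp h1
  rw [upperMinkowski, ← h2.limsup_eq]
  refine limsup_le_limsup ?_
  have h3 : ∀ᶠ δ : ℝ in 𝓝[>] 0, δ < 1 := mem_nhdsWithin_of_mem_nhds (Iio_mem_nhds one_pos)
  filter_upwards [h3, self_mem_nhdsWithin] with δ h4 h5
  have h5' : (0 : ℝ) < δ := h5
  have hlog : 0 < Real.log (1 / δ) := Real.log_pos (by rw [lt_div_iff₀ h5']; linarith)
  rw [EReal.coe_le_coe_iff]
  rcases Nat.eq_zero_or_pos (coverNum B δ) with h0 | h0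
  · rw [h0]
    simp only [Nat.cast_zero, Real.log_zero, zero_div]
    have : 0 ≤ max (Real.log C) 0 / Real.log (1 / δ) := div_nonneg (le_max_right _ _) hlog.le
    positivity
  · have h6 : Real.log (coverNum B δ) ≤ Real.log C + d * Real.log (1 / δ) := by
      have h7 : Real.log (C * δ ^ (-(d : ℝ))) = Real.log C + d * Real.log (1 / δ) := by
        rw [Real.log_mul hC.ne' (Real.rpow_pos_of_pos h5' _).ne', Real.log_rpow h5', one_div,
          Real.log_inv]
        ring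
      rw [← h7]
      exact Real.log_le_log (by exact_mod_cast h0) (h δ h5' h4)
    rw [div_add' _ _ _ hlog.ne', div_le_div_iff_of_pos_right hlog]
    linarith [le_max_left (Real.log C) 0]

theorem image_bound {n d : ℕ} {g : E d → E n} (hg : ContDiff ℝ 1 g) :
    Bornology.IsBounded (g '' {x | ∀ i, x i ∈ Icc (0 : ℝ) 1}) ∧
    upperMinkowski (g '' {x | ∀ i, x i ∈ Icc (0 : ℝ) 1}) ≤ ((d : ℝ) : EReal) := by
  constructor
  · exact ((Pool.Agent.Zk72.KakCov1.cube_compact d).image hg.continuous).isBounded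
  · obtain ⟨C, hC, h⟩ := c1_cover d n g hg
    refine upperMinkowski_le (C := C * 2 ^ (d : ℝ)) (by positivity) fun δ h0 h1 => ?_
    obtain ⟨S, hS1, hS2⟩ := h (δ / 2) (by positivity) (by linarith)
    calc (coverNum (g '' {x | ∀ i, x i ∈ Icc (0 : ℝ) 1}) δ : ℝ) ≤ S.card := by
          exact_mod_cast coverNum_le_of_balls S hS1
      _ ≤ C * (δ / 2) ^ (-(d : ℝ)) := hS2
      _ = C * 2 ^ (d : ℝ) * δ ^ (-(d : ℝ)) := by
          rw [Real.div_rpow h0.le (by norm_num), Real.rpow_neg (by norm_num : (0 : ℝ) ≤ 2)]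
          field_simp

/-- from a set of small dimension to a `C^1` image -/
theorem to_c1 {n k : ℕ} (hn : 1 ≤ n) (hk : 1 ≤ k) {τ : ℝ} {B : Set (E n)}
    (hb : Bornology.IsBounded B) (hB : HasProg k B)
    (hd : upperMinkowski B < ((τ * n : ℝ) : EReal)) :
    ∃ n' d : ℕ, 1 ≤ n' ∧ (d : ℝ) < τ * n' ∧ ∃ g : E d → E n', ContDiff ℝ 1 g ∧
      HasProg k (g '' {x | ∀ i, x i ∈ Icc (0 : ℝ) 1}) := by
  obtain ⟨s, hs1, hs2⟩ := EReal.lt_iff_exists_real_btwn.1 hd
  have hs2' : s < τ * n := by exact_mod_cast hs2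
  have hs0 : 0 ≤ s := by
    have h1 : ∀ᶠ δ : ℝ in 𝓝[>] 0, (0 : EReal) ≤
        ((Real.log (coverNum B δ) / Real.log (1 / δ) : ℝ) : EReal) := by
      have h2 : ∀ᶠ δ : ℝ in 𝓝[>] 0, δ < 1 :=
        mem_nhdsWithin_of_mem_nhds (Iio_mem_nhds one_pos)
      filter_upwards [h2, self_mem_nhdsWithin] with δ h3 h4
      have h4' : (0 : ℝ) < δ := h4
      have h5 : 0 ≤ Real.log (coverNum B δ) := Real.log_natCast_nonneg _
      have h6 : 0 ≤ Real.log (1 / δ) := Real.log_nonneg (by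
        rw [le_div_iff₀ h4']; linarith)
      have h7 : 0 ≤ Real.log (coverNum B δ) / Real.log (1 / δ) := div_nonneg h5 h6
      exact_mod_cast h7
    have h2 : (0 : EReal) ≤ upperMinkowski B := le_limsup_of_frequently_le h1.frequently
    have := h2.trans hs1.le
    exact_mod_cast this
  obtain ⟨t, hst, ht⟩ := exists_between hs2'
  obtain ⟨t', htt', ht'⟩ := exists_between ht
  have ht0 : 0 < t := lt_of_le_of_lt hs0 hst
  have ht'0 : 0 < t' := ht0.trans htt'
  -- `p` and `m`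
  obtain ⟨p, hp⟩ := exists_nat_gt (t' / (τ * n - t'))
  have hp0 : (0 : ℝ) < p := lt_of_le_of_lt (div_nonneg ht'0.le (by linarith)) hp
  have hp1 : (p + 1) * t' < p * (τ * n) := by
    rw [div_lt_iff₀ (by linarith)] at hp
    linarith
  have hgap : 0 < τ * n - (p + 1) * t' / p := by
    have : (p + 1) * t' / p < τ * n := by
      rw [div_lt_iff₀ hp0]; linarith
    linarith
  obtain ⟨m, hm⟩ := exists_nat_gt (max 1 (1 / (τ * n - (p + 1) * t' / p)))
  have hm1 : (1 : ℝ) < m := lt_of_le_of_lt (le_max_left _ _) hm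
  have hm2 : 1 < m * (τ * n - (p + 1) * t' / p) := by
    have := lt_of_le_of_lt (le_max_right _ _) hm
    rwa [div_lt_iff₀ hgap] at this
  have hm1' : 1 ≤ m := by
    have : 1 < m := by exact_mod_cast hm1
    omega
  obtain ⟨d, hd'⟩ : ∃ d, d = ⌈(p + 1) * t' / p * m⌉₊ := ⟨_, rfl⟩
  have hd1 : (p + 1) * t' / p * m ≤ d := by rw [hd']; exact Nat.le_ceil _
  have hd2 : (d : ℝ) < (p + 1) * t' / p * m + 1 := by
    rw [hd']
    exact Nat.ceil_lt_add_one (by positivity)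
  have hd3 : (d : ℝ) < τ * (m * n : ℕ) := by
    push_cast
    nlinarith
  -- covers
  have hsmall := Pool.Agent.Zk50.KakPack.cover_small B hb hst hs1.le
  obtain ⟨η, hη, hcov⟩ := (mem_nhdsGT_iff_exists_Ioo_subset).1 hsmall
  have hη0 : (0 : ℝ) < η := hη
  obtain ⟨M, hM⟩ := exists_nat_ge (max (max 3 (1 / η + 1)) ((3 ^ n * 2 ^ t : ℝ) ^ (1 / (t' - t))))
  have hM3 : 3 ≤ M := by
    have : (3 : ℝ) ≤ M := ((le_max_left _ _).trans (le_max_left _ _)).trans hM
    exact_mod_cast this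
  have hMη : 1 / η + 1 ≤ M := ((le_max_right _ _).trans (le_max_left _ _)).trans hM
  have hMt : (3 ^ n * 2 ^ t : ℝ) ^ (1 / (t' - t)) ≤ M := (le_max_right _ _).trans hM
  have hM0 : (0 : ℝ) < M := by
    have : 0 < M := by omega
    exact_mod_cast this
  obtain ⟨N, hN⟩ : ∃ N, N = M ^ (p + 1) := ⟨_, rfl⟩
  have hMN : M ≤ N := by
    rw [hN]
    exact Nat.le_self_pow (by omega) M
  have hMN' : (M : ℝ) ≤ N := by exact_mod_cast hMN
  have hN0 : (0 : ℝ) < N := lt_of_lt_of_le hM0 hMN'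
  have hN1 : (1 : ℝ) ≤ N := by
    have : 1 ≤ N := by omega
    exact_mod_cast this
  have hmem : 1 / (2 * (N : ℝ)) ∈ Ioo 0 η := by
    refine ⟨by positivity, ?_⟩
    rw [div_lt_comm₀ (by positivity) hη0]
    linarith
  obtain ⟨-, K, U, hU1, hU2, hU3⟩ := hcov hmem
  classical
  -- a finite set of centres
  let S : Finset (E n) := (Finset.univ.filter fun i => (U i).Nonempty).image
    (fun i : Fin K => if h : (U i).Nonempty then h.some else 0)
  have hScard : (S.card : ℝ) ≤ (2 * (N : ℝ)) ^ t := by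
    have h1 : S.card ≤ K := by
      refine Finset.card_image_le.trans ?_
      refine (Finset.card_filter_le _ _).trans ?_
      simp
    have h2 : (K : ℝ) ≤ (2 * (N : ℝ)) ^ t := by
      have h3 : (1 / (2 * (N : ℝ))) ^ t = ((2 * (N : ℝ)) ^ t)⁻¹ := by
        rw [one_div, Real.inv_rpow (by positivity)]
      rw [h3, ← div_eq_mul_inv, div_le_one (Real.rpow_pos_of_pos (by positivity) _)] at hU3
      exact hU3
    exact le_trans (by exact_mod_cast h1) h2
  have hScov : B ⊆ ⋃ x ∈ S, Metric.ball x (1 / (N : ℝ)) := by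
    intro b hb
    obtain ⟨i, hi⟩ := mem_iUnion.1 (hU2 hb)
    have hne : (U i).Nonempty := ⟨b, hi⟩
    refine mem_iUnion₂.2 ⟨hne.some, ?_, ?_⟩
    · rw [Finset.mem_image]
      refine ⟨i, Finset.mem_filter.2 ⟨Finset.mem_univ _, hne⟩, ?_⟩
      rw [dif_pos hne]
    · rw [Metric.mem_ball]
      refine lt_of_le_of_lt (hU1 i b hi _ hne.some_mem) ?_
      rw [div_lt_div_iff₀ (by positivity) hN0]
      linarith
  obtain ⟨A, hA1, hA2⟩ := discretise n k N (by omega) B hB S hScov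
  have hpow := power (m := m) A hA2
  obtain ⟨A', hA'1, hA'2⟩ := hpow
  have hAr : (A.card : ℝ) ≤ (N : ℝ) ^ t' := by
    have h2 : (3 ^ n * 2 ^ t : ℝ) ≤ (N : ℝ) ^ (t' - t) := by
      have h3 : ((3 ^ n * 2 ^ t : ℝ) ^ (1 / (t' - t))) ^ (t' - t) = 3 ^ n * 2 ^ t := by
        rw [← Real.rpow_mul (by positivity), one_div, inv_mul_cancel₀ (by linarith), Real.rpow_one]
      rw [← h3]
      exact Real.rpow_le_rpow (by positivity) (hMt.trans hMN') (by linarith)
    calc (A.card : ℝ) ≤ 3 ^ n * S.card := by exact_mod_cast hA1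
      _ ≤ 3 ^ n * (2 * (N : ℝ)) ^ t := by gcongr
      _ = (3 ^ n * 2 ^ t) * (N : ℝ) ^ t := by
          rw [Real.mul_rpow (by norm_num) hN0.le]
          ring
      _ ≤ (N : ℝ) ^ (t' - t) * (N : ℝ) ^ t := by gcongr
      _ = (N : ℝ) ^ t' := by
          rw [← Real.rpow_add hN0]
          congr 1
          ring
  have hA'c : A'.card ≤ (M ^ p) ^ d := by
    have h1 : (A'.card : ℝ) ≤ ((M ^ p) ^ d : ℕ) := by
      calc (A'.card : ℝ) ≤ (A.card : ℝ) ^ m := by exact_mod_cast hA'1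
        _ ≤ ((N : ℝ) ^ t') ^ m := by gcongr
        _ = (M : ℝ) ^ (((p + 1 : ℕ) : ℝ) * (t' * m)) := by
            rw [hN]
            push_cast
            rw [← Real.rpow_natCast, ← Real.rpow_natCast, ← Real.rpow_mul hM0.le,
              ← Real.rpow_mul hM0.le]
            congr 1
            push_cast
            ring
        _ ≤ (M : ℝ) ^ ((p : ℝ) * d) := by
            apply Real.rpow_le_rpow_of_exponent_le
            · have : 1 ≤ M := by omega
              exact_mod_cast this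
            · push_cast
              have h2 := mul_le_mul_of_nonneg_left hd1 hp0.le
              have h3 : (p : ℝ) * ((p + 1) * t' / p * m) = (p + 1) * (t' * m) := by
                field_simp
              linarith
        _ = ((M ^ p) ^ d : ℕ) := by
            push_cast
            rw [← Real.rpow_natCast, ← Real.rpow_natCast, ← Real.rpow_mul hM0.le]
    exact_mod_cast h1
  have h2c : 2 * M ^ p < N := by
    rw [hN, pow_succ']
    have h2 : 0 < M ^ p := Nat.pow_pos (by omega)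
    exact Nat.mul_lt_mul_of_pos_right (by omega) h2
  obtain ⟨g, hg, hgα⟩ := c1_code d (m * n) (M ^ p) N (Nat.one_le_pow _ _ (by omega)) h2c A' hA'c
  refine ⟨m * n, d, Nat.mul_pos hm1' hn, hd3, g, hg, ?_⟩
  refine code_prog hk (by omega) A' hA'2 ?_
  intro α hα
  obtain ⟨x, hx, hx2⟩ := hgα α hα
  exact ⟨g x, ⟨x, hx, rfl⟩, hx2⟩

/-- `f^M_n(k)` -/
noncomputable def fM (n k : ℕ) : EReal :=
  ⨅ (B : Set (E n)) (_ : Bornology.IsBounded B) (_ : HasProg k B), upperMinkowski B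

theorem iff_c1 {k : ℕ} (hk : 1 ≤ k) (τ : ℝ) :
    (∃ n : ℕ, 1 ≤ n ∧ fM n k < ((τ * n : ℝ) : EReal)) ↔
    ∃ n d : ℕ, 1 ≤ n ∧ (d : ℝ) < τ * n ∧ ∃ g : E d → E n, ContDiff ℝ 1 g ∧
      HasProg k (g '' {x | ∀ i, x i ∈ Icc (0 : ℝ) 1}) := by
  constructor
  · rintro ⟨n, hn, h⟩
    obtain ⟨B, h⟩ := iInf_lt_iff.1 h
    obtain ⟨hb, h⟩ := iInf_lt_iff.1 h
    obtain ⟨hB, h⟩ := iInf_lt_iff.1 h
    exact to_c1 hn hk hb hB h
  · rintro ⟨n, d, hn, hd, g, hg, hP⟩
    refine ⟨n, hn, ?_⟩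
    obtain ⟨h1, h2⟩ := image_bound hg
    have h3 : fM n k ≤ upperMinkowski (g '' {x | ∀ i, x i ∈ Icc (0 : ℝ) 1}) :=
      iInf_le_of_le _ (iInf_le_of_le h1 (iInf_le_of_le hP le_rfl))
    refine lt_of_le_of_lt (h3.trans h2) ?_
    exact_mod_cast hd

end Pool.Agent.Zk23.KKIff
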