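import Mathlib

/-!
# Smooth local inverses and a parametrised implicit function theorem
-/

set_option autoImplicit false

open Set Filter Topology Module
open scoped ContDiff

namespace Pool.Agent.Zk23.KKInv

/-- a germ of a smooth function extends to a global smooth function -/
lemma exists_extension {X F : Type} [NormedAddCommGroup X] [NormedSpace ℝ X]
    [FiniteDimensional ℝ X] [NormedAddCommGroup F] [NormedSpace ℝ F] {ψ : X → F} {x : X}
    (hs : ∀ᶠ y in 𝓝 x, ContDiffAt ℝ ∞ ψ y) :
    ∃ Ψ : X → F, ContDiff ℝ ∞ Ψ ∧ Ψ =ᶠ[𝓝 x] ψ := by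
  obtain ⟨r, hr, h2⟩ := Metric.eventually_nhds_iff_ball.1 hs
  let b : ContDiffBump x := ⟨r / 4, r / 2, by positivity, by linarith⟩
  refine ⟨fun y => b y • ψ y, ?_, ?_⟩
  · rw [contDiff_iff_contDiffAt]
    intro y
    by_cases hy : y ∈ Metric.ball x r
    · exact ContDiffAt.smul (b.contDiff (n := ⊤)).contDiffAt (h2 y hy)
    · have h3 : ∀ᶠ z in 𝓝 y, z ∉ Metric.closedBall x (r / 2) := by
        apply (Metric.isClosed_closedBall.isOpen_compl).mem_nhds
        intro hz
        apply hy
        rw [Metric.mem_ball]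
        rw [Metric.mem_closedBall] at hz
        linarith
      have h4 : (fun y => b y • ψ y) =ᶠ[𝓝 y] fun _ => 0 := by
        filter_upwards [h3] with z hz
        have h5 : b z = 0 := b.zero_of_le_dist (by
          rw [Metric.mem_closedBall, not_le] at hz
          exact hz.le)
        rw [h5, zero_smul]
      exact contDiffAt_const.congr_of_eventuallyEq h4
  · filter_upwards [b.eventuallyEq_one] with y hy
    rw [hy]
    simp

/-- a smooth local inverse, defined everywhere -/
theorem local_inverse {X X' : Type} [NormedAddCommGroup X] [NormedSpace ℝ X]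
    [FiniteDimensional ℝ X] [NormedAddCommGroup X'] [NormedSpace ℝ X'] [FiniteDimensional ℝ X']
    {Θ : X → X'} (hΘ : ContDiff ℝ ∞ Θ) (a : X) (hb : Function.Bijective (fderiv ℝ Θ a)) :
    ∃ Ψ : X' → X, ContDiff ℝ ∞ Ψ ∧ (∀ᶠ x in 𝓝 a, Ψ (Θ x) = x) ∧
      (∀ᶠ y in 𝓝 (Θ a), Θ (Ψ y) = y) := by
  haveI : CompleteSpace X := FiniteDimensional.complete ℝ X
  set f' : X ≃L[ℝ] X' :=
    (LinearEquiv.ofBijective (fderiv ℝ Θ a : X →ₗ[ℝ] X') hb).toContinuousLinearEquiv with hf'
  have hf'1 : (f' : X →L[ℝ] X') = fderiv ℝ Θ a := by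
    ext x
    rfl
  have hd : Differentiable ℝ Θ := hΘ.differentiable (by simp)
  have h0 : HasFDerivAt Θ (f' : X →L[ℝ] X') a := by
    rw [hf'1]
    exact (hd a).hasFDerivAt
  have hn : (∞ : WithTop ℕ∞) ≠ 0 := by simp
  set e := hΘ.contDiffAt.toOpenPartialHomeomorph Θ h0 hn with he
  have hec : ∀ x, e x = Θ x := fun x => rfl
  have has : a ∈ e.source := hΘ.contDiffAt.mem_toOpenPartialHomeomorph_source h0 hn
  have hat : Θ a ∈ e.target := e.map_source has
  have hsymm : e.symm (Θ a) = a := e.left_inv has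
  have h1 : ∀ᶠ x in 𝓝 a, fderiv ℝ Θ x ∈ range ((↑) : (X ≃L[ℝ] X') → X →L[ℝ] X') := by
    have hc : ContinuousAt (fderiv ℝ Θ) a := (hΘ.continuous_fderiv (by simp)).continuousAt
    apply hc.eventually
    rw [← hf'1]
    exact ContinuousLinearEquiv.nhds f'
  have h2 : Tendsto e.symm (𝓝 (Θ a)) (𝓝 a) := by
    have := e.continuousAt_symm hat
    rw [ContinuousAt, hsymm] at this
    exact this
  have h3 : ∀ᶠ y in 𝓝 (Θ a), ContDiffAt ℝ ∞ e.symm y := by
    filter_upwards [h2.eventually h1, e.open_target.mem_nhds hat] with y hy hyt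
    obtain ⟨g', hg'⟩ := hy
    refine e.contDiffAt_symm (f₀' := g') hyt ?_ ?_
    · rw [hg']
      exact (hd _).hasFDerivAt
    · exact hΘ.contDiffAt
  obtain ⟨Ψ, hΨ, hΨe⟩ := exists_extension h3
  refine ⟨Ψ, hΨ, ?_, ?_⟩
  · filter_upwards [hΘ.continuous.continuousAt.eventually hΨe, e.open_source.mem_nhds has]
      with x hx hxs
    rw [hx]
    exact e.left_inv hxs
  · filter_upwards [hΨe, e.open_target.mem_nhds hat] with y hy hyt
    rw [hy]
    exact e.right_inv hyt

/-- the partial derivative in the second variable -/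
noncomputable def dy {U Y F : Type} [NormedAddCommGroup U] [NormedSpace ℝ U] [NormedAddCommGroup Y]
    [NormedSpace ℝ Y] [NormedAddCommGroup F] [NormedSpace ℝ F] (f : U × Y → F) (p : U × Y) :
    Y →L[ℝ] F := (fderiv ℝ f p).comp (ContinuousLinearMap.inr ℝ U Y)

/-- the implicit function theorem with a parameter -/
theorem exists_param {U Y : Type} [NormedAddCommGroup U] [NormedSpace ℝ U]
    [FiniteDimensional ℝ U] [NormedAddCommGroup Y] [NormedSpace ℝ Y] [FiniteDimensional ℝ Y]
    {w : U × Y → ℝ} (hw : ContDiff ℝ ∞ w) (p : U × Y) (hd : dy w p ≠ 0) :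
    ∃ (Y' : Submodule ℝ Y) (c : U × Y' → Y), finrank ℝ Y' < finrank ℝ Y ∧ ContDiff ℝ ∞ c ∧
      ∀ᶠ q in 𝓝 p, w q = 0 → ∃ z : Y', c (q.1, z) = q.2 := by
  set l : Y →L[ℝ] ℝ := dy w p with hl
  set Y' : Submodule ℝ Y := LinearMap.ker (l : Y →ₗ[ℝ] ℝ) with hY'
  have hY'lt : Y' < ⊤ := by
    rw [lt_top_iff_ne_top]
    intro h
    apply hd
    ext y
    have : y ∈ Y' := h ▸ Submodule.mem_top
    rw [hY', LinearMap.mem_ker] at this
    exact this
  obtain ⟨g, hg⟩ := LinearMap.exists_leftInverse_of_injective Y'.subtype (Submodule.ker_subtype _)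
  set P : Y →L[ℝ] Y' := LinearMap.toContinuousLinearMap g with hP
  have hP1 : ∀ z : Y', P z = z := fun z => by
    have := congrArg (fun A : Y' →ₗ[ℝ] Y' => A z) hg
    exact this
  set Θ : U × Y → U × (ℝ × Y') := fun q => (q.1, (w q, P q.2)) with hΘd
  have hΘ : ContDiff ℝ ∞ Θ :=
    contDiff_fst.prodMk (hw.prodMk (P.contDiff.comp contDiff_snd))
  have hder : fderiv ℝ Θ p = (ContinuousLinearMap.fst ℝ U Y).prod
      ((fderiv ℝ w p).prod (P.comp (ContinuousLinearMap.snd ℝ U Y))) := by
    apply HasFDerivAt.fderiv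
    exact hasFDerivAt_fst.prodMk ((hw.differentiable (by simp) p).hasFDerivAt.prodMk
      (P.hasFDerivAt.comp p hasFDerivAt_snd))
  have hinr : ∀ y : Y, fderiv ℝ w p (0, y) = l y := fun y => by
    rw [hl, dy]; simp
  have hbij : Function.Bijective (fderiv ℝ Θ p) := by
    rw [hder]
    constructor
    · rw [injective_iff_map_eq_zero]
      rintro ⟨u, y⟩ h
      simp only [ContinuousLinearMap.prod_apply, ContinuousLinearMap.coe_fst',
        ContinuousLinearMap.coe_comp, Function.comp_apply, ContinuousLinearMap.coe_snd',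
        Prod.mk_eq_zero] at h
      obtain ⟨h1, h2, h3⟩ := h
      subst h1
      rw [hinr] at h2
      have h4 : y ∈ Y' := by
        rw [hY', LinearMap.mem_ker]
        exact h2
      have h5 := hP1 ⟨y, h4⟩
      simp only at h5
      rw [h3] at h5
      have : y = 0 := by
        have := congrArg Subtype.val h5
        simpa using this.symm
      rw [this]
      rfl
    · rintro ⟨u, s, z⟩
      obtain ⟨y₁, hy₁⟩ : ∃ y, l y ≠ 0 := by
        by_contra hcon
        push Not at hcon
        exact hd (ContinuousLinearMap.ext hcon)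
      set y₂ : Y := y₁ - (P y₁ : Y) with hy₂
      have hPy : ∀ z : Y', l z = 0 := fun z => z.2
      have h1 : l y₂ = l y₁ := by
        rw [hy₂, map_sub, hPy, sub_zero]
      have h2 : P y₂ = 0 := by
        rw [hy₂, map_sub, hP1, sub_self]
      refine ⟨(u, (z : Y) + ((s - fderiv ℝ w p (u, (z : Y))) / l y₁) • y₂), ?_⟩
      simp only [ContinuousLinearMap.prod_apply, ContinuousLinearMap.coe_fst',
        ContinuousLinearMap.coe_comp, Function.comp_apply, ContinuousLinearMap.coe_snd',
        Prod.mk.injEq, true_and]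
      constructor
      · have h3 : (u, (z : Y) + ((s - fderiv ℝ w p (u, (z : Y))) / l y₁) • y₂) =
            (u, (z : Y)) + ((s - fderiv ℝ w p (u, (z : Y))) / l y₁) • ((0 : U), y₂) := by
          simp
        rw [h3, map_add, map_smul, hinr, h1, smul_eq_mul, div_mul_cancel₀ _ hy₁]
        ring
      · rw [map_add, map_smul, h2, smul_zero, add_zero, hP1]
  obtain ⟨Ψ, hΨ, h1, -⟩ := local_inverse hΘ p hbij
  refine ⟨Y', fun q => (Ψ (q.1, (0, q.2))).2, ?_, ?_, ?_⟩
  · have := Submodule.finrank_lt_finrank_of_lt hY'lt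
    rwa [finrank_top] at this
  · exact contDiff_snd.comp (hΨ.comp (contDiff_fst.prodMk (contDiff_const.prodMk contDiff_snd)))
  · filter_upwards [h1] with q hq hw0
    refine ⟨P q.2, ?_⟩
    have : Θ q = (q.1, (0, P q.2)) := by
      rw [hΘd]
      simp only [hw0]
    rw [this] at hq
    simp only [hq]

end Pool.Agent.Zk23.KKInv
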