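import Mathlib

/-!
# Local inverses of maps of class `C^r`
-/

set_option autoImplicit false

open Set Filter Topology Module
open scoped ContDiff

namespace Pool.Agent.Zk23.KKInvR

/-- a germ of a `C^r` function extends to a global `C^r` function -/
lemma exists_extension {X F : Type} [NormedAddCommGroup X] [NormedSpace ℝ X]
    [FiniteDimensional ℝ X] [NormedAddCommGroup F] [NormedSpace ℝ F] {ψ : X → F} {x : X} {r : ℕ}
    (hs : ∀ᶠ y in 𝓝 x, ContDiffAt ℝ r ψ y) :
    ∃ Ψ : X → F, ContDiff ℝ r Ψ ∧ Ψ =ᶠ[𝓝 x] ψ := by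
  obtain ⟨ε, hε, h2⟩ := Metric.eventually_nhds_iff_ball.1 hs
  let b : ContDiffBump x := ⟨ε / 4, ε / 2, by positivity, by linarith⟩
  refine ⟨fun y => b y • ψ y, ?_, ?_⟩
  · rw [contDiff_iff_contDiffAt]
    intro y
    by_cases hy : y ∈ Metric.ball x ε
    · exact ContDiffAt.smul (b.contDiff (n := r)).contDiffAt (h2 y hy)
    · have h3 : ∀ᶠ z in 𝓝 y, z ∉ Metric.closedBall x (ε / 2) := by
        apply (Metric.isClosed_closedBall.isOpen_compl).mem_nhds
        intro hz
        apply hy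
        rw [Metric.mem_ball]
        rw [Metric.mem_closedBall] at hz
        linarith
      have h4 : (fun y => b y • ψ y) =ᶠ[𝓝 y] fun _ => 0 := by
        filter_upwards [h3] with z hz
        have h5 : b z = 0 := b.zero_of_le_dist (by
          rw [Metric.mem_closedBall, not_le] at hz
          exact hz.le)
        rw [h5, zero_smul]
      exact contDiffAt_const.congr_of_eventuallyEq h4
  · filter_upwards [b.eventuallyEq_one] with y hy
    rw [hy]
    simp

/-- a local inverse of class `C^r`, defined everywhere -/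
theorem local_inverse {X X' : Type} [NormedAddCommGroup X] [NormedSpace ℝ X]
    [FiniteDimensional ℝ X] [NormedAddCommGroup X'] [NormedSpace ℝ X'] [FiniteDimensional ℝ X']
    {Θ : X → X'} {r : ℕ} (hr : 1 ≤ r) (hΘ : ContDiff ℝ r Θ) (a : X)
    (hb : Function.Bijective (fderiv ℝ Θ a)) :
    ∃ Ψ : X' → X, ContDiff ℝ r Ψ ∧ (∀ᶠ x in 𝓝 a, Ψ (Θ x) = x) ∧
      (∀ᶠ y in 𝓝 (Θ a), Θ (Ψ y) = y) := by
  haveI : CompleteSpace X := FiniteDimensional.complete ℝ X
  have hn : (r : WithTop ℕ∞) ≠ 0 := by exact_mod_cast (by omega : r ≠ 0)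
  have hn1 : (1 : WithTop ℕ∞) ≤ r := by exact_mod_cast hr
  set f' : X ≃L[ℝ] X' :=
    (LinearEquiv.ofBijective (fderiv ℝ Θ a : X →ₗ[ℝ] X') hb).toContinuousLinearEquiv with hf'
  have hf'1 : (f' : X →L[ℝ] X') = fderiv ℝ Θ a := by
    ext x
    rfl
  have hd : Differentiable ℝ Θ := hΘ.differentiable hn
  have h0 : HasFDerivAt Θ (f' : X →L[ℝ] X') a := by
    rw [hf'1]
    exact (hd a).hasFDerivAt
  set e := hΘ.contDiffAt.toOpenPartialHomeomorph Θ h0 hn with he
  have hec : ∀ x, e x = Θ x := fun x => rfl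
  have has : a ∈ e.source := hΘ.contDiffAt.mem_toOpenPartialHomeomorph_source h0 hn
  have hat : Θ a ∈ e.target := e.map_source has
  have hsymm : e.symm (Θ a) = a := e.left_inv has
  have h1 : ∀ᶠ x in 𝓝 a, fderiv ℝ Θ x ∈ range ((↑) : (X ≃L[ℝ] X') → X →L[ℝ] X') := by
    have hc : ContinuousAt (fderiv ℝ Θ) a := (hΘ.continuous_fderiv hn).continuousAt
    apply hc.eventually
    rw [← hf'1]
    exact ContinuousLinearEquiv.nhds f'
  have h2 : Tendsto e.symm (𝓝 (Θ a)) (𝓝 a) := by
    have := e.continuousAt_symm hat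
    rw [ContinuousAt, hsymm] at this
    exact this
  have h3 : ∀ᶠ y in 𝓝 (Θ a), ContDiffAt ℝ r e.symm y := by
    filter_upwards [h2.eventually h1, e.open_target.mem_nhds hat] with y hy hyt
    obtain ⟨g', hg'⟩ := hy
    refine e.contDiffAt_symm (f₀' := g') hyt ?_ ?_
    · rw [hg']
      exact (hd _).hasFDerivAt
    · exact hΘ.contDiffAt
  obtain ⟨Ψ, hΨ, hΨe⟩ := exists_extension h3
  refine ⟨Ψ, hΨ, ?_, ?_⟩
  · filter_upwards [hΘ.continuous.continuousAt.eventually hΨe, e.open_source.mem_nhds has]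
      with x hx hxs
    rw [hx]
    exact e.left_inv hxs
  · filter_upwards [hΨe, e.open_target.mem_nhds hat] with y hy hyt
    rw [hy]
    exact e.right_inv hyt

end Pool.Agent.Zk23.KKInvR
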