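import Pool.Agent.Zk23.KKSard
import Pool.Agent.Zk50.KakLin

/-!
# Progressions whose terms lie in smooth sets, except one
-/

set_option autoImplicit false

open Set Filter Topology Module MeasureTheory
open scoped ContDiff ENNReal

namespace Pool.Agent.Zk23.KKMain

open Pool.Agent.Zk23.KKSard

abbrev E (n : ℕ) := EuclideanSpace ℝ (Fin n)

/-- `B` is covered by countably many sets of the form: values of rank at most `d` of a smooth map
from some `ℝ^m` to `ℝ^n` -/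
def SmoothDim (n d : ℕ) (B : Set (E n)) : Prop :=
  ∃ (m : ℕ → ℕ) (f : ∀ i, E (m i) → E n), (∀ i, ContDiff ℝ ∞ (f i)) ∧
    B ⊆ ⋃ i, f i '' {x | finrank ℝ (LinearMap.range (fderiv ℝ (f i) x : E (m i) →ₗ[ℝ] E n)) ≤ d}

section choice

variable {n : ℕ} (T : Finset ℝ) {m : T → ℕ} (f : ∀ t : T, E (m t) → E n)

/-- the constraints -/
def G (p : (E n × E n) × (∀ t : T, E (m t))) : T → E n :=
  fun t => f t (p.2 t) - p.1.1 - (t : ℝ) • p.1.2

/-- the common difference -/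
def rho (p : (E n × E n) × (∀ t : T, E (m t))) : E n := p.1.2

/-- constraints and the point of the exceptional layer -/
def Pi (t₀ : ℝ) (p : (E n × E n) × (∀ t : T, E (m t))) : (T → E n) × E n :=
  (G T f p, p.1.1 + t₀ • p.1.2)

variable {f}

theorem contDiff_G (hf : ∀ t, ContDiff ℝ ∞ (f t)) : ContDiff ℝ ∞ (G T f) := by
  refine contDiff_pi.2 fun t => ?_
  refine ContDiff.sub (ContDiff.sub ?_ ?_) ?_
  · exact (hf t).comp (contDiff_pi.1 contDiff_snd t)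
  · exact contDiff_fst.comp contDiff_fst
  · exact (contDiff_snd.comp contDiff_fst).const_smul _

theorem contDiff_rho : ContDiff ℝ ∞ (rho (n := n) T (m := m)) := contDiff_snd.comp contDiff_fst

theorem contDiff_Pi (hf : ∀ t, ContDiff ℝ ∞ (f t)) (t₀ : ℝ) : ContDiff ℝ ∞ (Pi T f t₀) :=
  (contDiff_G T hf).prodMk ((contDiff_fst.comp contDiff_fst).add
    ((contDiff_snd.comp contDiff_fst).const_smul _))

/-- the derivative of `G` -/
theorem fderiv_G (hf : ∀ t, ContDiff ℝ ∞ (f t)) (p δ : (E n × E n) × (∀ t : T, E (m t))) (t : T) :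
    fderiv ℝ (G T f) p δ t = fderiv ℝ (f t) (p.2 t) (δ.2 t) - δ.1.1 - (t : ℝ) • δ.1.2 := by
  have h1 : HasFDerivAt (G T f) (fderiv ℝ (G T f) p) p :=
    ((contDiff_G T hf).differentiable (by simp) p).hasFDerivAt
  have h2 := hasFDerivAt_pi'.1 h1 t
  set A1 : ((E n × E n) × (∀ t : T, E (m t))) →L[ℝ] E n := (ContinuousLinearMap.fst ℝ (E n) (E n)).comp
        (ContinuousLinearMap.fst ℝ (E n × E n) (∀ t : T, E (m t))) with hA1
  set A2 : ((E n × E n) × (∀ t : T, E (m t))) →L[ℝ] E n := (ContinuousLinearMap.snd ℝ (E n) (E n)).comp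
        (ContinuousLinearMap.fst ℝ (E n × E n) (∀ t : T, E (m t))) with hA2
  set A3 : ((E n × E n) × (∀ t : T, E (m t))) →L[ℝ] E (m t) := (ContinuousLinearMap.proj t).comp
        (ContinuousLinearMap.snd ℝ (E n × E n) (∀ t : T, E (m t))) with hA3
  have h3a : HasFDerivAt (fun p : (E n × E n) × (∀ t : T, E (m t)) => f t (p.2 t))
      ((fderiv ℝ (f t) (p.2 t)).comp A3) p :=
    HasFDerivAt.comp p (((hf t).differentiable (by simp) (p.2 t)).hasFDerivAt) A3.hasFDerivAt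
  have h3 : HasFDerivAt (fun p : (E n × E n) × (∀ t : T, E (m t)) => G T f p t)
      ((fderiv ℝ (f t) (p.2 t)).comp A3 - A1 - (t : ℝ) • A2) p :=
    (h3a.sub A1.hasFDerivAt).sub ((t : ℝ) • A2).hasFDerivAt
  have h4 := h2.unique h3
  have h5 := congrArg (fun A : ((E n × E n) × (∀ t : T, E (m t))) →L[ℝ] E n => A δ) h4
  exact h5

theorem fderiv_rho (p δ : (E n × E n) × (∀ t : T, E (m t))) :
    fderiv ℝ (rho (n := n) T (m := m)) p δ = δ.1.2 := by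
  have h : HasFDerivAt (rho (n := n) T (m := m)) ((ContinuousLinearMap.snd ℝ (E n) (E n)).comp
        (ContinuousLinearMap.fst ℝ (E n × E n) (∀ t : T, E (m t)))) p :=
    ((ContinuousLinearMap.snd ℝ (E n) (E n)).comp
        (ContinuousLinearMap.fst ℝ (E n × E n) (∀ t : T, E (m t)))).hasFDerivAt
  rw [h.fderiv]
  rfl

theorem fderiv_Pi (hf : ∀ t, ContDiff ℝ ∞ (f t)) (t₀ : ℝ)
    (p δ : (E n × E n) × (∀ t : T, E (m t))) :
    fderiv ℝ (Pi T f t₀) p δ = (fderiv ℝ (G T f) p δ, δ.1.1 + t₀ • δ.1.2) := by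
  set A1 : ((E n × E n) × (∀ t : T, E (m t))) →L[ℝ] E n := (ContinuousLinearMap.fst ℝ (E n) (E n)).comp
        (ContinuousLinearMap.fst ℝ (E n × E n) (∀ t : T, E (m t))) with hA1
  set A2 : ((E n × E n) × (∀ t : T, E (m t))) →L[ℝ] E n := (ContinuousLinearMap.snd ℝ (E n) (E n)).comp
        (ContinuousLinearMap.fst ℝ (E n × E n) (∀ t : T, E (m t))) with hA2
  have h1 : HasFDerivAt (fun p : (E n × E n) × (∀ t : T, E (m t)) => p.1.1 + t₀ • p.1.2)
      (A1 + t₀ • A2) p := A1.hasFDerivAt.add (t₀ • A2).hasFDerivAt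
  have h2 : HasFDerivAt (Pi T f t₀) _ p :=
    ((contDiff_G T hf).differentiable (by simp) p).hasFDerivAt.prodMk h1
  rw [h2.fderiv]
  rfl

/-- the tangent spaces of the layers -/
noncomputable def V (p : (E n × E n) × (∀ t : T, E (m t))) (f : ∀ t : T, E (m t) → E n) (t : ℝ) :
    Submodule ℝ (E n) :=
  if h : t ∈ T then LinearMap.range (fderiv ℝ (f ⟨t, h⟩) (p.2 ⟨t, h⟩) : E (m ⟨t, h⟩) →ₗ[ℝ] E n)
  else ⊥

theorem mem_vert_G (hf : ∀ t, ContDiff ℝ ∞ (f t)) (p : (E n × E n) × (∀ t : T, E (m t))) (β : E n) :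
    β ∈ vert (G T f) (rho T) p ↔ ∃ α, ∀ t ∈ T, α + t • β ∈ V T p f t := by
  constructor
  · rintro ⟨δ, hδ, rfl⟩
    refine ⟨δ.1.1, fun t ht => ?_⟩
    have h1 : fderiv ℝ (G T f) p δ = 0 := hδ
    have h2 := congrFun h1 ⟨t, ht⟩
    rw [fderiv_G T hf] at h2
    rw [V, dif_pos ht]
    refine ⟨δ.2 ⟨t, ht⟩, ?_⟩
    have h3 : (fderiv ℝ (rho T) p : ((E n × E n) × (∀ t : T, E (m t))) →ₗ[ℝ] E n) δ = δ.1.2 :=
      fderiv_rho T p δ
    rw [h3]
    simp only [Pi.zero_apply] at h2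
    rw [sub_sub, sub_eq_zero] at h2
    exact h2
  · rintro ⟨α, h⟩
    have h1 : ∀ t : T, ∃ ξ : E (m t), fderiv ℝ (f t) (p.2 t) ξ = α + (t : ℝ) • β := by
      intro t
      have := h t t.2
      rw [V, dif_pos t.2] at this
      exact this
    choose ξ hξ using h1
    refine ⟨((α, β), ξ), ?_, fderiv_rho T p _⟩
    change fderiv ℝ (G T f) p ((α, β), ξ) = 0
    ext1 t
    rw [fderiv_G T hf, hξ]
    simp

theorem mem_vert_Pi (hf : ∀ t, ContDiff ℝ ∞ (f t)) {t₀ : ℝ} (ht₀ : t₀ ∉ T)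
    (p : (E n × E n) × (∀ t : T, E (m t))) (β : E n) :
    β ∈ vert (Pi T f t₀) (rho T) p ↔ ∀ t ∈ T, β ∈ V T p f t := by
  have hne : ∀ t ∈ T, t - t₀ ≠ 0 := fun t ht h => ht₀ (by rw [← sub_eq_zero.1 h]; exact ht)
  constructor
  · rintro ⟨δ, hδ, rfl⟩ t ht
    have h1 : fderiv ℝ (Pi T f t₀) p δ = 0 := hδ
    rw [fderiv_Pi T hf] at h1
    obtain ⟨h2, h3⟩ := Prod.mk_eq_zero.1 h1
    have h4 := congrFun h2 ⟨t, ht⟩
    rw [fderiv_G T hf] at h4
    have h5 : (fderiv ℝ (rho T) p : ((E n × E n) × (∀ t : T, E (m t))) →ₗ[ℝ] E n) δ = δ.1.2 :=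
      fderiv_rho T p δ
    rw [h5, V, dif_pos ht]
    have h6 : (t - t₀) • δ.1.2 ∈ LinearMap.range
        (fderiv ℝ (f ⟨t, ht⟩) (p.2 ⟨t, ht⟩) : E (m ⟨t, ht⟩) →ₗ[ℝ] E n) := by
      refine ⟨δ.2 ⟨t, ht⟩, ?_⟩
      simp only [Pi.zero_apply] at h4
      rw [sub_sub, sub_eq_zero] at h4
      have h7 : δ.1.1 = -(t₀ • δ.1.2) := eq_neg_of_add_eq_zero_left h3
      rw [h7] at h4
      change fderiv ℝ (f ⟨t, ht⟩) (p.2 ⟨t, ht⟩) (δ.2 ⟨t, ht⟩) = _
      rw [h4, sub_smul]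
      abel
    have h8 := Submodule.smul_mem _ (t - t₀)⁻¹ h6
    rwa [smul_smul, inv_mul_cancel₀ (hne t ht), one_smul] at h8
  · intro h
    have h1 : ∀ t : T, ∃ ξ : E (m t), fderiv ℝ (f t) (p.2 t) ξ = ((t : ℝ) - t₀) • β := by
      intro t
      have := h t t.2
      rw [V, dif_pos t.2] at this
      exact Submodule.smul_mem _ _ this
    choose ξ hξ using h1
    refine ⟨((-(t₀ • β), β), ξ), ?_, fderiv_rho T p _⟩
    change fderiv ℝ (Pi T f t₀) p ((-(t₀ • β), β), ξ) = 0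
    rw [fderiv_Pi T hf, Prod.mk_eq_zero]
    constructor
    · ext1 t
      rw [fderiv_G T hf, hξ, sub_smul]
      simp
    · simp

theorem algebra (hf : ∀ t, ContDiff ℝ ∞ (f t)) {t₀ : ℝ} (ht₀ : t₀ ∉ T) (d : ℝ → ℕ)
    (p : (E n × E n) × (∀ t : T, E (m t)))
    (hd : ∀ t : T, finrank ℝ (LinearMap.range (fderiv ℝ (f t) (p.2 t) : E (m t) →ₗ[ℝ] E n)) ≤ d t) :
    finrank ℝ (vert (Pi T f t₀) (rho T) p) +
      ∑ t ∈ T, (finrank ℝ (vert (G T f) (rho T) p) - d t) ≤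
      finrank ℝ (vert (G T f) (rho T) p) := by
  refine le_trans ?_ (Pool.Agent.Zk50.Kak.kakeya_linear T (V T p f) (vert (G T f) (rho T) p)
    (vert (Pi T f t₀) (rho T) p) (mem_vert_G T hf p) (mem_vert_Pi T hf ht₀ p))
  apply Nat.add_le_add_left
  apply Finset.sum_le_sum
  intro t ht
  apply Nat.sub_le_sub_left
  rw [V, dif_pos ht]
  exact hd ⟨t, ht⟩

end choice

/-- **The main inequality**: all terms but one lie in smooth sets. -/
theorem layers (n : ℕ) (T : Finset ℝ) (d : ℝ → ℕ) (B : ℝ → Set (E n))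
    (hB : ∀ t ∈ T, SmoothDim n (d t) (B t)) (t₀ : ℝ) (ht₀ : t₀ ∉ T) (Z : Set (E n)) :
    ∃ l ≤ n, (∑ t ∈ T, (l - d t) ≤ l) ∧
      dimH {r | ∃ a, a + t₀ • r ∈ Z ∧ ∀ t ∈ T, a + t • r ∈ B t} ≤ l ∧
      dimH {r | ∃ a, a + t₀ • r ∈ Z ∧ ∀ t ∈ T, a + t • r ∈ B t} + ((∑ t ∈ T, (l - d t) : ℕ) : ℝ≥0∞) ≤
        dimH Z + l := by
  classical
  set R : Set (E n) := {r | ∃ a, a + t₀ • r ∈ Z ∧ ∀ t ∈ T, a + t • r ∈ B t} with hR
  have hB' : ∀ t : T, ∃ (m : ℕ → ℕ) (f : ∀ i, E (m i) → E n), (∀ i, ContDiff ℝ ∞ (f i)) ∧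
      B t ⊆ ⋃ i, f i '' {x | finrank ℝ (LinearMap.range (fderiv ℝ (f i) x : E (m i) →ₗ[ℝ] E n))
        ≤ d t} := fun t => hB t t.2
  choose m f hf hcov using hB'
  -- the pieces
  set P : Finset (ℕ × ℕ) := (Finset.range (n + 1) ×ˢ Finset.range (n + 1)).filter
    (fun a => a.2 + ∑ t ∈ T, (a.1 - d t) ≤ a.1) with hP
  let I : ℕ × ℕ → (T → ℕ) → Set (E n) := fun a c =>
    rho T '' {p : (E n × E n) × (∀ t : T, E (m t (c t))) |
      (G T (fun t => f t (c t)) p = 0 ∧ p.1.1 + t₀ • p.1.2 ∈ Z) ∧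
      finrank ℝ (vert (G T (fun t => f t (c t))) (rho T) p) = a.1 ∧
      finrank ℝ (vert (Pi T (fun t => f t (c t)) t₀) (rho T) p) = a.2}
  have hcover : R ⊆ ⋃ a ∈ P, ⋃ c : T → ℕ, I a c := by
    rintro r ⟨a, haZ, haT⟩
    have h1 : ∀ t : T, ∃ (i : ℕ) (x : E (m t i)),
        finrank ℝ (LinearMap.range (fderiv ℝ (f t i) x : E (m t i) →ₗ[ℝ] E n)) ≤ d t ∧
        f t i x = a + (t : ℝ) • r := by
      intro t
      obtain ⟨i, x, hx, hx2⟩ := mem_iUnion.1 (hcov t (haT t t.2))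
      exact ⟨i, x, hx, hx2⟩
    choose c x hx1 hx2 using h1
    set p : (E n × E n) × (∀ t : T, E (m t (c t))) := ((a, r), x) with hp
    have halg := algebra T (f := fun t => f t (c t)) (fun t => hf t (c t)) ht₀ d p hx1
    have hw : finrank ℝ (vert (Pi T (fun t => f t (c t)) t₀) (rho T) p) ≤ n := by
      refine (Submodule.finrank_le _).trans ?_
      simp
    have hl : finrank ℝ (vert (G T (fun t => f t (c t))) (rho T) p) ≤ n := by
      refine (Submodule.finrank_le _).trans ?_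
      simp
    refine mem_iUnion₂.2 ⟨(_, _), ?_, mem_iUnion.2 ⟨c, p, ⟨⟨?_, haZ⟩, rfl, rfl⟩, rfl⟩⟩
    · rw [hP, Finset.mem_filter, Finset.mem_product, Finset.mem_range, Finset.mem_range]
      exact ⟨⟨Nat.lt_succ_of_le hl, Nat.lt_succ_of_le hw⟩, halg⟩
    · ext1 t
      simp only [G, hp, hx2, Pi.zero_apply]
      abel
  have hdim1 : ∀ a ∈ P, dimH (⋃ c : T → ℕ, I a c) ≤ (a.1 : ℝ≥0∞) := by
    intro a _
    rw [dimH_iUnion]
    refine iSup_le fun c => ?_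
    have h1 := sard (contDiff_G T (f := fun t => f t (c t)) (fun t => hf t (c t)))
      (contDiff_rho T (n := n)) {0} a.1
    rw [dimH_singleton, zero_add] at h1
    refine (dimH_mono (image_mono ?_)).trans h1
    rintro p ⟨⟨hp1, -⟩, hp2, -⟩
    exact ⟨hp1, hp2.le⟩
  have hdim2 : ∀ a ∈ P, dimH (⋃ c : T → ℕ, I a c) ≤ dimH Z + (a.2 : ℝ≥0∞) := by
    intro a _
    rw [dimH_iUnion]
    refine iSup_le fun c => ?_
    have h1 := sard (contDiff_Pi T (f := fun t => f t (c t)) (fun t => hf t (c t)) t₀)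
      (contDiff_rho T (n := n)) ((fun z : E n => ((0 : T → E n), z)) '' Z) a.2
    have h2 : dimH ((fun z : E n => ((0 : T → E n), z)) '' Z) ≤ dimH Z := by
      have : LipschitzWith 1 (fun z : E n => ((0 : T → E n), z)) := LipschitzWith.prodMk_left _
      exact this.dimH_image_le Z
    refine (dimH_mono (image_mono ?_)).trans (h1.trans (by gcongr))
    rintro p ⟨⟨hp1, hp3⟩, -, hp2⟩
    refine ⟨⟨_, hp3, ?_⟩, hp2.le⟩
    rw [Pi, hp1]
  have hPne : P.Nonempty := ⟨(0, 0), by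
    rw [hP, Finset.mem_filter]
    simp⟩
  obtain ⟨a, haP, ha⟩ := Finset.exists_max_image P (fun a => dimH (⋃ c : T → ℕ, I a c)) hPne
  have hRa : dimH R ≤ dimH (⋃ c : T → ℕ, I a c) := by
    refine (dimH_mono hcover).trans ?_
    have h := dimH_bUnion (Finset.countable_toSet P) (fun a => ⋃ c : T → ℕ, I a c)
    simp only [Finset.mem_coe] at h
    rw [h]
    exact iSup₂_le fun b hb => ha b hb
  have haP' := haP
  rw [hP, Finset.mem_filter, Finset.mem_product, Finset.mem_range, Finset.mem_range] at haP'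
  obtain ⟨⟨ha1, ha2⟩, ha3⟩ := haP'
  refine ⟨a.1, Nat.lt_succ_iff.1 ha1, le_trans (Nat.le_add_left _ _) ha3,
    hRa.trans (hdim1 a haP), ?_⟩
  calc dimH R + ((∑ t ∈ T, (a.1 - d t) : ℕ) : ℝ≥0∞)
      ≤ (dimH Z + (a.2 : ℝ≥0∞)) + ((∑ t ∈ T, (a.1 - d t) : ℕ) : ℝ≥0∞) := by
        gcongr
        exact hRa.trans (hdim2 a haP)
    _ = dimH Z + ((a.2 + ∑ t ∈ T, (a.1 - d t) : ℕ) : ℝ≥0∞) := by
        rw [add_assoc]
        norm_cast
    _ ≤ dimH Z + (a.1 : ℝ≥0∞) := by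
        gcongr

end Pool.Agent.Zk23.KKMain
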