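import Pool.Agent.Zk23.KKGraph
import Pool.Agent.Zk23.KKForw
import Pool.Agent.Zk23.KKExpR

/-!
# The equivalences with graphs and countable unions
-/

set_option autoImplicit false

open Set Filter Topology MeasureTheory
open scoped ContDiff

namespace Pool.Agent.Zk23.KKMainG

open Pool.Agent.Zk23.KKEquiv (E HasProg AKC)
open Pool.Agent.Zk23.KKGraph (graph_of_not_akc)
open Pool.Agent.Zk23.KKForw (null_of_akc)

/-- the version for countable unions -/
def UnionAKC (s : ℕ) : Prop := ∀ n : ℕ, 1 ≤ n → ∃ k : ℕ, ∀ f : ℕ → E (n - 1) → E n,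
  (∀ i, ContDiff ℝ s (f i)) →
    volume {ρ : E n | ∃ a, ∀ j : ℕ, j < k → a + (j : ℝ) • ρ ∈ ⋃ i, range (f i)} = 0

/-- the version for graphs -/
def GraphAKC (s : ℕ) : Prop := ∀ d : ℕ, ∃ k : ℕ, ∀ g : E d → ℝ, ContDiff ℝ s g →
    volume {ρ : E (d + 1) | ∃ a, ∀ j : ℕ, j < k → a + (j : ℝ) • ρ ∈
      {w : E (d + 1) | w (Fin.last d) = g (WithLp.toLp 2 fun i => w (Fin.castSucc i))}} = 0

theorem union_of_akc (s : ℕ) (hs : 1 ≤ s) (h : AKC) : UnionAKC s := by
  intro n hn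
  obtain ⟨k, hk⟩ := null_of_akc h n hn
  exact ⟨k, fun f hf => hk _ ⟨f, fun i => (hf i).of_le (by exact_mod_cast hs), Subset.rfl⟩⟩

theorem graph_of_union (s : ℕ) (h : UnionAKC s) : GraphAKC s := by
  intro d
  obtain ⟨k, hk⟩ := h (d + 1) (by omega)
  refine ⟨k, fun g hg => ?_⟩
  let F : E d → E (d + 1) := fun x =>
    WithLp.toLp 2 (Fin.snoc (α := fun _ => ℝ) (fun i : Fin d => x i) (g x))
  have hF : ContDiff ℝ s F := by
    rw [contDiff_euclidean]
    intro i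
    refine Fin.lastCases ?_ (fun i => ?_) i
    · simp only [F, Fin.snoc_last]
      exact hg
    · simp only [F, Fin.snoc_castSucc]
      exact (EuclideanSpace.proj i : E d →L[ℝ] ℝ).contDiff
  refine measure_mono_null ?_ (hk (fun _ => F) (fun _ => hF))
  rintro ρ ⟨a, ha⟩
  refine ⟨a, fun j hj => ?_⟩
  refine mem_iUnion.2 ⟨0, WithLp.toLp 2 fun i => (a + (j : ℝ) • ρ) (Fin.castSucc i), ?_⟩
  have h1 := ha j hj
  rw [mem_ofPred_eq] at h1
  ext i
  refine Fin.lastCases ?_ (fun i => ?_) i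
  · simp only [F, Fin.snoc_last]
    exact h1.symm
  · simp only [F, Fin.snoc_castSucc]

theorem akc_of_graph (s : ℕ) (h : GraphAKC s) : AKC := by
  by_contra hcon
  obtain ⟨d, -, hd⟩ := graph_of_not_akc hcon s
  obtain ⟨k, hk⟩ := h d
  obtain ⟨g, hg, hv⟩ := hd (max k 1) (le_max_right _ _)
  refine hv (measure_mono_null ?_ (hk g hg))
  rintro ρ ⟨a, ha⟩
  exact ⟨a, fun j hj => ha j (lt_max_of_lt_left hj)⟩

theorem union_iff (s : ℕ) (hs : 1 ≤ s) : AKC ↔ UnionAKC s :=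
  ⟨union_of_akc s hs, fun h => akc_of_graph s (graph_of_union s h)⟩

theorem graph_iff (s : ℕ) (hs : 1 ≤ s) : AKC ↔ GraphAKC s :=
  ⟨fun h => graph_of_union s (union_of_akc s hs h), akc_of_graph s⟩

end Pool.Agent.Zk23.KKMainG
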