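import Pool.Agent.Zk23.KKSardR
import Pool.Agent.Zk23.KKMain

/-!
# Progressions whose terms lie in countable unions of images of maps of class `C^r`
-/

set_option autoImplicit false

open Set Filter Topology Module MeasureTheory
open scoped ContDiff ENNReal

namespace Pool.Agent.Zk23.KKMainR

open Pool.Agent.Zk23.KKSard (vert exists_proj)
open Pool.Agent.Zk23.KKSardR (kk sard)
open Pool.Agent.Zk23.KKMain (E G rho Pi V)

/-- `B` is covered by countably many `C^r` images of `ℝ^d` -/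
def CoverR (r n d : ℕ) (B : Set (E n)) : Prop :=
  ∃ f : ℕ → E d → E n, (∀ i, ContDiff ℝ r (f i)) ∧ B ⊆ ⋃ i, range (f i)

section choice

variable {n : ℕ} (T : Finset ℝ) {m : T → ℕ} {f : ∀ t : T, E (m t) → E n}

theorem contDiff_G {r : WithTop ℕ∞} (hf : ∀ t, ContDiff ℝ r (f t)) : ContDiff ℝ r (G T f) := by
  refine contDiff_pi.2 fun t => ?_
  refine ContDiff.sub (ContDiff.sub ?_ ?_) ?_
  · exact (hf t).comp (contDiff_pi.1 contDiff_snd t)
  · exact contDiff_fst.comp contDiff_fst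
  · exact (contDiff_snd.comp contDiff_fst).const_smul _

theorem contDiff_rho {r : WithTop ℕ∞} : ContDiff ℝ r (rho (n := n) T (m := m)) :=
  contDiff_snd.comp contDiff_fst

theorem contDiff_Pi {r : WithTop ℕ∞} (hf : ∀ t, ContDiff ℝ r (f t)) (t₀ : ℝ) :
    ContDiff ℝ r (Pi T f t₀) :=
  (contDiff_G T hf).prodMk ((contDiff_fst.comp contDiff_fst).add
    ((contDiff_snd.comp contDiff_fst).const_smul _))

/-- the derivative of `G` -/
theorem fderiv_G (hf : ∀ t, ContDiff ℝ 1 (f t)) (p δ : (E n × E n) × (∀ t : T, E (m t))) (t : T) :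
    fderiv ℝ (G T f) p δ t = fderiv ℝ (f t) (p.2 t) (δ.2 t) - δ.1.1 - (t : ℝ) • δ.1.2 := by
  have h1 : HasFDerivAt (G T f) (fderiv ℝ (G T f) p) p :=
    ((contDiff_G T hf).differentiable (by simp) p).hasFDerivAt
  have h2 := hasFDerivAt_pi'.1 h1 t
  set A1 : ((E n × E n) × (∀ t : T, E (m t))) →L[ℝ] E n := (ContinuousLinearMap.fst ℝ (E n) (E n)).comp
        (ContinuousLinearMap.fst ℝ (E n × E n) (∀ t : T, E (m t))) with hA1
  set A2 : ((E n × E n) × (∀ t : T, E (m t))) →L[ℝ] E n := (ContinuousLinearMap.snd ℝ (E n) (E n)).comp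
        (ContinuousLinearMap.fst ℝ (E n × E n) (∀ t : T, E (m t))) with hA2
  set A3 : ((E n × E n) × (∀ t : T, E (m t))) →L[ℝ] E (m t) := (ContinuousLinearMap.proj t).comp
        (ContinuousLinearMap.snd ℝ (E n × E n) (∀ t : T, E (m t))) with hA3
  have h3a : HasFDerivAt (fun p : (E n × E n) × (∀ t : T, E (m t)) => f t (p.2 t))
      ((fderiv ℝ (f t) (p.2 t)).comp A3) p :=
    HasFDerivAt.comp p (((hf t).differentiable (by simp) (p.2 t)).hasFDerivAt) A3.hasFDerivAt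
  have h3 : HasFDerivAt (fun p : (E n × E n) × (∀ t : T, E (m t)) => G T f p t)
      ((fderiv ℝ (f t) (p.2 t)).comp A3 - A1 - (t : ℝ) • A2) p :=
    (h3a.sub A1.hasFDerivAt).sub ((t : ℝ) • A2).hasFDerivAt
  have h4 := h2.unique h3
  have h5 := congrArg (fun A : ((E n × E n) × (∀ t : T, E (m t))) →L[ℝ] E n => A δ) h4
  exact h5

theorem fderiv_rho (p δ : (E n × E n) × (∀ t : T, E (m t))) :
    fderiv ℝ (rho (n := n) T (m := m)) p δ = δ.1.2 :=
  Pool.Agent.Zk23.KKMain.fderiv_rho T p δ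

theorem fderiv_Pi (hf : ∀ t, ContDiff ℝ 1 (f t)) (t₀ : ℝ)
    (p δ : (E n × E n) × (∀ t : T, E (m t))) :
    fderiv ℝ (Pi T f t₀) p δ = (fderiv ℝ (G T f) p δ, δ.1.1 + t₀ • δ.1.2) := by
  set A1 : ((E n × E n) × (∀ t : T, E (m t))) →L[ℝ] E n := (ContinuousLinearMap.fst ℝ (E n) (E n)).comp
        (ContinuousLinearMap.fst ℝ (E n × E n) (∀ t : T, E (m t))) with hA1
  set A2 : ((E n × E n) × (∀ t : T, E (m t))) →L[ℝ] E n := (ContinuousLinearMap.snd ℝ (E n) (E n)).comp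
        (ContinuousLinearMap.fst ℝ (E n × E n) (∀ t : T, E (m t))) with hA2
  have h1 : HasFDerivAt (fun p : (E n × E n) × (∀ t : T, E (m t)) => p.1.1 + t₀ • p.1.2)
      (A1 + t₀ • A2) p := A1.hasFDerivAt.add (t₀ • A2).hasFDerivAt
  have h2 : HasFDerivAt (Pi T f t₀) _ p :=
    ((contDiff_G T hf).differentiable (by simp) p).hasFDerivAt.prodMk h1
  rw [h2.fderiv]
  rfl

theorem mem_vert_G (hf : ∀ t, ContDiff ℝ 1 (f t)) (p : (E n × E n) × (∀ t : T, E (m t))) (β : E n) :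
    β ∈ vert (G T f) (rho T) p ↔ ∃ α, ∀ t ∈ T, α + t • β ∈ V T p f t := by
  constructor
  · rintro ⟨δ, hδ, rfl⟩
    refine ⟨δ.1.1, fun t ht => ?_⟩
    have h1 : fderiv ℝ (G T f) p δ = 0 := hδ
    have h2 := congrFun h1 ⟨t, ht⟩
    rw [fderiv_G T hf] at h2
    rw [V, dif_pos ht]
    refine ⟨δ.2 ⟨t, ht⟩, ?_⟩
    have h3 : (fderiv ℝ (rho T) p : ((E n × E n) × (∀ t : T, E (m t))) →ₗ[ℝ] E n) δ = δ.1.2 :=
      fderiv_rho T p δ
    rw [h3]
    simp only [Pi.zero_apply] at h2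
    rw [sub_sub, sub_eq_zero] at h2
    exact h2
  · rintro ⟨α, h⟩
    have h1 : ∀ t : T, ∃ ξ : E (m t), fderiv ℝ (f t) (p.2 t) ξ = α + (t : ℝ) • β := by
      intro t
      have := h t t.2
      rw [V, dif_pos t.2] at this
      exact this
    choose ξ hξ using h1
    refine ⟨((α, β), ξ), ?_, fderiv_rho T p _⟩
    change fderiv ℝ (G T f) p ((α, β), ξ) = 0
    ext1 t
    rw [fderiv_G T hf, hξ]
    simp

theorem mem_vert_Pi (hf : ∀ t, ContDiff ℝ 1 (f t)) {t₀ : ℝ} (ht₀ : t₀ ∉ T)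
    (p : (E n × E n) × (∀ t : T, E (m t))) (β : E n) :
    β ∈ vert (Pi T f t₀) (rho T) p ↔ ∀ t ∈ T, β ∈ V T p f t := by
  have hne : ∀ t ∈ T, t - t₀ ≠ 0 := fun t ht h => ht₀ (by rw [← sub_eq_zero.1 h]; exact ht)
  constructor
  · rintro ⟨δ, hδ, rfl⟩ t ht
    have h1 : fderiv ℝ (Pi T f t₀) p δ = 0 := hδ
    rw [fderiv_Pi T hf] at h1
    obtain ⟨h2, h3⟩ := Prod.mk_eq_zero.1 h1
    have h4 := congrFun h2 ⟨t, ht⟩
    rw [fderiv_G T hf] at h4
    have h5 : (fderiv ℝ (rho T) p : ((E n × E n) × (∀ t : T, E (m t))) →ₗ[ℝ] E n) δ = δ.1.2 :=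
      fderiv_rho T p δ
    rw [h5, V, dif_pos ht]
    have h6 : (t - t₀) • δ.1.2 ∈ LinearMap.range
        (fderiv ℝ (f ⟨t, ht⟩) (p.2 ⟨t, ht⟩) : E (m ⟨t, ht⟩) →ₗ[ℝ] E n) := by
      refine ⟨δ.2 ⟨t, ht⟩, ?_⟩
      simp only [Pi.zero_apply] at h4
      rw [sub_sub, sub_eq_zero] at h4
      have h7 : δ.1.1 = -(t₀ • δ.1.2) := eq_neg_of_add_eq_zero_left h3
      rw [h7] at h4
      change fderiv ℝ (f ⟨t, ht⟩) (p.2 ⟨t, ht⟩) (δ.2 ⟨t, ht⟩) = _
      rw [h4, sub_smul]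
      abel
    have h8 := Submodule.smul_mem _ (t - t₀)⁻¹ h6
    rwa [smul_smul, inv_mul_cancel₀ (hne t ht), one_smul] at h8
  · intro h
    have h1 : ∀ t : T, ∃ ξ : E (m t), fderiv ℝ (f t) (p.2 t) ξ = ((t : ℝ) - t₀) • β := by
      intro t
      have := h t t.2
      rw [V, dif_pos t.2] at this
      exact Submodule.smul_mem _ _ this
    choose ξ hξ using h1
    refine ⟨((-(t₀ • β), β), ξ), ?_, fderiv_rho T p _⟩
    change fderiv ℝ (Pi T f t₀) p ((-(t₀ • β), β), ξ) = 0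
    rw [fderiv_Pi T hf, Prod.mk_eq_zero]
    constructor
    · ext1 t
      rw [fderiv_G T hf, hξ, sub_smul]
      simp
    · simp

/-- the kernel of the derivative of `f t` -/
noncomputable def kf (f : ∀ t : T, E (m t) → E n) (p : (E n × E n) × (∀ t : T, E (m t))) (t : T) :
    Submodule ℝ (E (m t)) :=
  LinearMap.ker (fderiv ℝ (f t) (p.2 t) : E (m t) →ₗ[ℝ] E n)

theorem rank_add_kf (p : (E n × E n) × (∀ t : T, E (m t))) (t : T) :
    finrank ℝ (V T p f t) + finrank ℝ (kf T f p t) = m t := by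
  have h := LinearMap.finrank_range_add_finrank_ker
    (fderiv ℝ (f t) (p.2 t) : E (m t) →ₗ[ℝ] E n)
  rw [V, dif_pos t.2, kf, h]
  simp

theorem finrank_kk_Pi (hf : ∀ t, ContDiff ℝ 1 (f t)) (t₀ : ℝ)
    (p : (E n × E n) × (∀ t : T, E (m t))) :
    finrank ℝ (kk (Pi T f t₀) (rho T) p) ≤ ∑ t : T, finrank ℝ (kf T f p t) := by
  have hproj : ∀ t : T, ∃ P : E (m t) →L[ℝ] kf T f p t, ∀ z : kf T f p t, P z = z :=
    fun t => exists_proj _
  choose P hP using hproj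
  let φ : kk (Pi T f t₀) (rho T) p →ₗ[ℝ] (∀ t : T, kf T f p t) :=
    LinearMap.pi fun t => ((P t : E (m t) →ₗ[ℝ] kf T f p t).comp
      ((LinearMap.proj t).comp (LinearMap.snd ℝ (E n × E n) (∀ t : T, E (m t))))).comp
      (Submodule.subtype _)
  have hφ : Function.Injective φ := by
    rw [injective_iff_map_eq_zero]
    rintro ⟨δ, h1, h2⟩ h
    have h1' : fderiv ℝ (Pi T f t₀) p δ = 0 := h1
    have h2' : fderiv ℝ (rho T) p δ = 0 := h2
    rw [fderiv_Pi T hf, Prod.mk_eq_zero] at h1'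
    rw [fderiv_rho] at h2'
    have h3 : δ.1.1 = 0 := by
      have := h1'.2
      rwa [h2', smul_zero, add_zero] at this
    have h4 : δ.2 = 0 := by
      ext1 t
      have e1 := congrFun h1'.1 t
      rw [fderiv_G T hf, h2', h3] at e1
      simp only [sub_zero, smul_zero, Pi.zero_apply] at e1
      have e2 : P t (δ.2 t) = 0 := congrFun h t
      have e3 := hP t ⟨δ.2 t, LinearMap.mem_ker.2 e1⟩
      simp only at e3
      rw [e2] at e3
      exact (congrArg Subtype.val e3).symm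
    apply Subtype.ext
    exact Prod.ext (Prod.ext h3 h2') h4
  refine (LinearMap.finrank_le_finrank_of_injective hφ).trans ?_
  rw [Module.finrank_pi_fintype]

theorem finrank_kk_G (hf : ∀ t, ContDiff ℝ 1 (f t)) {t₀ : ℝ} (ht₀ : t₀ ∉ T)
    (p : (E n × E n) × (∀ t : T, E (m t))) :
    finrank ℝ (kk (G T f) (rho T) p) ≤
      finrank ℝ (vert (Pi T f t₀) (rho T) p) + ∑ t : T, finrank ℝ (kf T f p t) := by
  have hproj : ∀ t : T, ∃ P : E (m t) →L[ℝ] kf T f p t, ∀ z : kf T f p t, P z = z :=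
    fun t => exists_proj _
  choose P hP using hproj
  obtain ⟨Q, hQ⟩ := exists_proj (vert (Pi T f t₀) (rho T) p)
  let φ : kk (G T f) (rho T) p →ₗ[ℝ] (vert (Pi T f t₀) (rho T) p) × (∀ t : T, kf T f p t) :=
    (((Q : E n →ₗ[ℝ] vert (Pi T f t₀) (rho T) p).comp
      ((LinearMap.fst ℝ (E n) (E n)).comp (LinearMap.fst ℝ (E n × E n) (∀ t : T, E (m t))))).comp
      (Submodule.subtype _)).prod
    (LinearMap.pi fun t => ((P t : E (m t) →ₗ[ℝ] kf T f p t).comp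
      ((LinearMap.proj t).comp (LinearMap.snd ℝ (E n × E n) (∀ t : T, E (m t))))).comp
      (Submodule.subtype _))
  have hφ : Function.Injective φ := by
    rw [injective_iff_map_eq_zero]
    rintro ⟨δ, h1, h2⟩ h
    have h1' : fderiv ℝ (G T f) p δ = 0 := h1
    have h2' : fderiv ℝ (rho T) p δ = 0 := h2
    rw [fderiv_rho] at h2'
    obtain ⟨ha, hb⟩ := Prod.mk_eq_zero.1 (show φ ⟨δ, h1, h2⟩ = (0, 0) from h)
    have h3 : δ.1.1 = 0 := by
      have hmem : δ.1.1 ∈ vert (Pi T f t₀) (rho T) p := by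
        rw [mem_vert_Pi T hf ht₀]
        intro t ht
        rw [V, dif_pos ht]
        refine ⟨δ.2 ⟨t, ht⟩, ?_⟩
        have e1 := congrFun h1' ⟨t, ht⟩
        rw [fderiv_G T hf, h2'] at e1
        simp only [smul_zero, sub_zero, Pi.zero_apply] at e1
        exact sub_eq_zero.1 e1
      have e2 : Q δ.1.1 = 0 := ha
      have e3 := hQ ⟨δ.1.1, hmem⟩
      simp only at e3
      rw [e2] at e3
      exact (congrArg Subtype.val e3).symm
    have h4 : δ.2 = 0 := by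
      ext1 t
      have e1 := congrFun h1' t
      rw [fderiv_G T hf, h2', h3] at e1
      simp only [sub_zero, smul_zero, Pi.zero_apply] at e1
      have e2 : P t (δ.2 t) = 0 := congrFun hb t
      have e3 := hP t ⟨δ.2 t, LinearMap.mem_ker.2 e1⟩
      simp only at e3
      rw [e2] at e3
      exact (congrArg Subtype.val e3).symm
    apply Subtype.ext
    exact Prod.ext (Prod.ext h3 h2') h4
  refine (LinearMap.finrank_le_finrank_of_injective hφ).trans ?_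
  rw [Module.finrank_prod, Module.finrank_pi_fintype]

/-- the numerical inequality -/
theorem numeric (hf : ∀ t, ContDiff ℝ 1 (f t)) {t₀ : ℝ} (ht₀ : t₀ ∉ T) {r a b : ℕ} (hr : 1 ≤ r)
    (hq : T.card = b + 1) (hab : a + b = r) (p : (E n × E n) × (∀ t : T, E (m t))) :
    a * (r * finrank ℝ (vert (Pi T f t₀) (rho T) p) + finrank ℝ (kk (Pi T f t₀) (rho T) p)) +
      b * r * (r * finrank ℝ (vert (G T f) (rho T) p) + finrank ℝ (kk (G T f) (rho T) p)) ≤
      r * (r * ∑ t : T, m t) := by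
  have h1 := finrank_kk_Pi T hf t₀ p
  have h2 := finrank_kk_G T hf ht₀ p
  have h3 := Pool.Agent.Zk50.Kak.kakeya_linear T (V T p f) (vert (G T f) (rho T) p)
    (vert (Pi T f t₀) (rho T) p) (mem_vert_G T hf p) (mem_vert_Pi T hf ht₀ p)
  set w := finrank ℝ (vert (Pi T f t₀) (rho T) p)
  set μ' := finrank ℝ (kk (Pi T f t₀) (rho T) p)
  set l := finrank ℝ (vert (G T f) (rho T) p)
  set μ := finrank ℝ (kk (G T f) (rho T) p)
  set κ := ∑ t : T, finrank ℝ (kf T f p t) with hκ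
  set v := ∑ t : T, finrank ℝ (V T p f t) with hv
  have hvk : v + κ = ∑ t : T, m t := by
    rw [hv, hκ, ← Finset.sum_add_distrib]
    exact Finset.sum_congr rfl fun t _ => rank_add_kf T p t
  have hsum : ∑ t ∈ T, (l - finrank ℝ (V T p f t)) = ∑ t : T, (l - finrank ℝ (V T p f t)) :=
    (Finset.sum_coe_sort T (fun t => l - finrank ℝ (V T p f t))).symm
  rw [hsum] at h3
  have h4 : (b + 1) * l ≤ ∑ t : T, (l - finrank ℝ (V T p f t)) + v := by
    rw [hv, ← Finset.sum_add_distrib]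
    have : (b + 1) * l = ∑ t : T, l := by
      rw [Finset.sum_const, Finset.card_univ, Fintype.card_coe, hq, smul_eq_mul]
    rw [this]
    exact Finset.sum_le_sum fun t _ => by omega
  have h5 : w + b * l ≤ v := by
    have : (b + 1) * l = b * l + l := by ring
    omega
  rw [← hvk]
  subst hab
  have e1 : a ≤ a * (a + b) := Nat.le_mul_of_pos_right a hr
  calc a * ((a + b) * w + μ') + b * (a + b) * ((a + b) * l + μ)
      ≤ a * ((a + b) * w + κ) + b * (a + b) * ((a + b) * l + (w + κ)) := by gcongr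
    _ = (a + b) * (a + b) * (w + b * l) + κ * (a + b * (a + b)) := by ring
    _ ≤ (a + b) * (a + b) * v + κ * (a * (a + b) + b * (a + b)) := by gcongr
    _ = (a + b) * ((a + b) * (v + κ)) := by ring

end choice

/-- **The main inequality for finite smoothness** -/
theorem layers (n : ℕ) (T : Finset ℝ) {r a b : ℕ} (hr : 1 ≤ r) (hq : T.card = b + 1)
    (hab : a + b = r) (d : ℝ → ℕ) (B : ℝ → Set (E n)) (hB : ∀ t ∈ T, CoverR r n (d t) (B t))
    (t₀ : ℝ) (ht₀ : t₀ ∉ T) (Z : Set (E n)) :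
    ((a + b * r : ℕ) : ℝ≥0∞) * dimH {ρ | ∃ x, x + t₀ • ρ ∈ Z ∧ ∀ t ∈ T, x + t • ρ ∈ B t} ≤
      a * dimH Z + r * ((∑ t ∈ T, d t : ℕ) : ℝ≥0∞) := by
  classical
  set R : Set (E n) := {ρ | ∃ x, x + t₀ • ρ ∈ Z ∧ ∀ t ∈ T, x + t • ρ ∈ B t} with hR
  have hB' : ∀ t : T, ∃ f : ℕ → E (d t) → E n, (∀ i, ContDiff ℝ r (f i)) ∧ B t ⊆ ⋃ i, range (f i) :=
    fun t => hB t t.2
  choose f hf hcov using hB'
  have hr1 : (1 : WithTop ℕ∞) ≤ r := by exact_mod_cast hr
  have hf1 : ∀ (c : T → ℕ) (t : T), ContDiff ℝ 1 (f t (c t)) := fun c t => (hf t (c t)).of_le hr1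
  have hD : ∑ t : T, d t = ∑ t ∈ T, d t := Finset.sum_coe_sort T (fun t => d t)
  -- the pieces
  set P : Set (ℕ × ℕ × ℕ × ℕ) := {x | a * (r * x.2.2.1 + x.2.2.2) + b * r * (r * x.1 + x.2.1) ≤
    r * (r * ∑ t ∈ T, d t)} with hP
  let I : (ℕ × ℕ × ℕ × ℕ) → (T → ℕ) → Set (E n) := fun x c =>
    rho T '' {p : (E n × E n) × (∀ t : T, E (d t)) |
      (G T (fun t => f t (c t)) p = 0 ∧ p.1.1 + t₀ • p.1.2 ∈ Z) ∧
      (finrank ℝ (vert (G T (fun t => f t (c t))) (rho T) p) = x.1 ∧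
      finrank ℝ (kk (G T (fun t => f t (c t))) (rho T) p) = x.2.1) ∧
      finrank ℝ (vert (Pi T (fun t => f t (c t)) t₀) (rho T) p) = x.2.2.1 ∧
      finrank ℝ (kk (Pi T (fun t => f t (c t)) t₀) (rho T) p) = x.2.2.2}
  have hcover : R ⊆ ⋃ x : P, ⋃ c : T → ℕ, I x c := by
    rintro ρ ⟨α, haZ, haT⟩
    have h1 : ∀ t : T, ∃ (i : ℕ) (x : E (d t)), f t i x = α + (t : ℝ) • ρ := by
      intro t
      obtain ⟨i, x, hx⟩ := mem_iUnion.1 (hcov t (haT t t.2))
      exact ⟨i, x, hx⟩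
    choose c x hx using h1
    set p : (E n × E n) × (∀ t : T, E (d t)) := ((α, ρ), x) with hp
    have hnum := numeric T (f := fun t => f t (c t)) (hf1 c) ht₀ hr hq hab p
    rw [hD] at hnum
    refine mem_iUnion.2 ⟨⟨(_, _, _, _), hnum⟩, mem_iUnion.2 ⟨c, p, ⟨⟨?_, haZ⟩, ⟨rfl, rfl⟩, rfl, rfl⟩,
      rfl⟩⟩
    ext1 t
    simp only [G, hp, hx, Pi.zero_apply]
    abel
  have hr0 : (r : ℝ≥0∞) ≠ 0 := by exact_mod_cast (by omega : r ≠ 0)
  have hrt : (r : ℝ≥0∞) ≠ ⊤ := ENNReal.natCast_ne_top r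
  have hcoef0 : ((a + b * r : ℕ) : ℝ≥0∞) ≠ 0 := by
    have : a + b * r ≠ 0 := by
      rcases Nat.eq_zero_or_pos a with h | h
      · have : b = r := by omega
        rw [h, this, zero_add]
        exact Nat.mul_ne_zero (by omega) (by omega)
      · omega
    exact_mod_cast this
  have hpiece : ∀ x ∈ P, ∀ c : T → ℕ, dimH (I x c) ≤
      (a * dimH Z + r * ((∑ t ∈ T, d t : ℕ) : ℝ≥0∞)) / ((a + b * r : ℕ) : ℝ≥0∞) := by
    intro x hx c
    have h1 : dimH (I x c) ≤ (x.1 : ℝ≥0∞) + (x.2.1 : ℝ≥0∞) / r := by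
      have h1 := sard hr (contDiff_G T (f := fun t => f t (c t)) (fun t => hf t (c t)))
        (contDiff_rho T (n := n)) {0} x.1 x.2.1
      rw [dimH_singleton, zero_add] at h1
      refine (dimH_mono (image_mono ?_)).trans h1
      rintro p ⟨⟨hp1, -⟩, ⟨hp2, hp3⟩, -⟩
      exact ⟨hp1, hp2, hp3⟩
    have h2 : dimH (I x c) ≤ dimH Z + ((x.2.2.1 : ℝ≥0∞) + (x.2.2.2 : ℝ≥0∞) / r) := by
      have h1 := sard hr (contDiff_Pi T (f := fun t => f t (c t)) (fun t => hf t (c t)) t₀)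
        (contDiff_rho T (n := n)) ((fun z : E n => ((0 : T → E n), z)) '' Z) x.2.2.1 x.2.2.2
      have h2 : dimH ((fun z : E n => ((0 : T → E n), z)) '' Z) ≤ dimH Z := by
        have : LipschitzWith 1 (fun z : E n => ((0 : T → E n), z)) := LipschitzWith.prodMk_left _
        exact this.dimH_image_le Z
      refine (dimH_mono (image_mono ?_)).trans (h1.trans (by gcongr))
      rintro p ⟨⟨hp1, hp3⟩, -, hp2, hp4⟩
      refine ⟨⟨_, hp3, ?_⟩, hp2, hp4⟩
      rw [Pi, hp1]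
    rw [ENNReal.le_div_iff_mul_le (Or.inl hcoef0) (Or.inl (ENNReal.natCast_ne_top _)), mul_comm]
    set X := dimH (I x c) with hX
    have hm : ∀ k : ℕ, (r : ℝ≥0∞) * ((k : ℝ≥0∞) / r) = k := fun k =>
      ENNReal.mul_div_cancel hr0 hrt
    have h1' : (r : ℝ≥0∞) * X ≤ ((r * x.1 + x.2.1 : ℕ) : ℝ≥0∞) := by
      calc (r : ℝ≥0∞) * X ≤ r * ((x.1 : ℝ≥0∞) + (x.2.1 : ℝ≥0∞) / r) := by gcongr
        _ = _ := by rw [mul_add, hm]; push_cast; rfl
    have h2' : (r : ℝ≥0∞) * X ≤ r * dimH Z + ((r * x.2.2.1 + x.2.2.2 : ℕ) : ℝ≥0∞) := by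
      calc (r : ℝ≥0∞) * X ≤ r * (dimH Z + ((x.2.2.1 : ℝ≥0∞) + (x.2.2.2 : ℝ≥0∞) / r)) := by gcongr
        _ = _ := by rw [mul_add, mul_add, hm]; push_cast; rfl
    have hx' : (a * (r * x.2.2.1 + x.2.2.2) + b * r * (r * x.1 + x.2.1) : ℕ) ≤
        r * (r * ∑ t ∈ T, d t) := hx
    have hfin : (r : ℝ≥0∞) * (((a + b * r : ℕ) : ℝ≥0∞) * X) ≤
        r * (a * dimH Z + r * ((∑ t ∈ T, d t : ℕ) : ℝ≥0∞)) := by
      calc (r : ℝ≥0∞) * (((a + b * r : ℕ) : ℝ≥0∞) * X)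
          = a * (r * X) + ((b * r : ℕ) : ℝ≥0∞) * (r * X) := by push_cast; ring
        _ ≤ a * (r * dimH Z + ((r * x.2.2.1 + x.2.2.2 : ℕ) : ℝ≥0∞)) +
            ((b * r : ℕ) : ℝ≥0∞) * ((r * x.1 + x.2.1 : ℕ) : ℝ≥0∞) := by gcongr
        _ = r * (a * dimH Z) +
            ((a * (r * x.2.2.1 + x.2.2.2) + b * r * (r * x.1 + x.2.1) : ℕ) : ℝ≥0∞) := by
            push_cast; ring
        _ ≤ r * (a * dimH Z) + ((r * (r * ∑ t ∈ T, d t) : ℕ) : ℝ≥0∞) := by gcongr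
        _ = r * (a * dimH Z + r * ((∑ t ∈ T, d t : ℕ) : ℝ≥0∞)) := by push_cast; ring
    exact (ENNReal.mul_le_mul_iff_right hr0 hrt).1 hfin
  have hfinal : dimH R ≤
      (a * dimH Z + r * ((∑ t ∈ T, d t : ℕ) : ℝ≥0∞)) / ((a + b * r : ℕ) : ℝ≥0∞) := by
    refine (dimH_mono hcover).trans ?_
    rw [dimH_iUnion]
    refine iSup_le fun x => ?_
    rw [dimH_iUnion]
    exact iSup_le fun c => hpiece x x.2 c
  rw [ENNReal.le_div_iff_mul_le (Or.inl hcoef0) (Or.inl (ENNReal.natCast_ne_top _)), mul_comm] at hfinal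
  exact hfinal

end Pool.Agent.Zk23.KKMainR
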