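import Pool.Agent.Zk23.KKRank
import Pool.Agent.Zk23.KKChart

/-!
# Values of rank zero of maps of finite smoothness: families of smooth maps, flat points
-/

set_option autoImplicit false

open Set Filter Topology Metric Module MeasureTheory
open scoped ContDiff ENNReal

namespace Pool.Agent.Zk23.KKMorse

open Pool.Agent.Zk23.KKInv Pool.Agent.Zk23.KKCov Pool.Agent.Zk23.KKRank Pool.Agent.Zk23.KKChart
open Pool.Agent.H664.Sard (mvt_pow)

lemma dimH_image_le_of_local' {X W : Type} [TopologicalSpace X] [SecondCountableTopology X]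
    [MetricSpace W] {f : X → W} {s : Set X} {b : ENNReal}
    (h : ∀ x ∈ s, ∃ V ∈ 𝓝 x, dimH (f '' (s ∩ V)) ≤ b) : dimH (f '' s) ≤ b := by
  choose! V hV hr using h
  obtain ⟨t, hts, htc, hcov⟩ := TopologicalSpace.countable_cover_nhdsWithin
    (s := s) (f := V) (fun x hx => mem_nhdsWithin_of_mem_nhds (hV x hx))
  have h1 : f '' s ⊆ ⋃ x ∈ t, f '' (s ∩ V x) := by
    rintro _ ⟨y, hy, rfl⟩
    obtain ⟨x, hx, hyx⟩ := mem_iUnion₂.1 (hcov hy)
    exact mem_iUnion₂.2 ⟨x, hx, y, ⟨hy, hyx⟩, rfl⟩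
  refine (dimH_mono h1).trans ?_
  rw [dimH_bUnion htc]
  exact iSup₂_le fun x hx => hr x (hts hx)

/-- the covering lemma for maps on an arbitrary set -/
lemma dimH_le_of_est {X U Y F : Type} [NormedAddCommGroup U] [NormedSpace ℝ U]
    [NormedAddCommGroup Y] [NormedSpace ℝ Y] [FiniteDimensional ℝ Y] [NormedAddCommGroup F]
    [NormedSpace ℝ F] (r : ℕ) (hr : 1 ≤ r) (Z : Set U) (A : Set X) (u : X → U) (y : X → Y)
    (h : X → F) (hZ : ∀ x ∈ A, u x ∈ Z) (M : ℝ) (hM : ∀ x ∈ A, ‖y x‖ ≤ M) (C : ℝ) (hC : 0 ≤ C)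
    (hest : ∀ x ∈ A, ∀ x' ∈ A, ‖h x - h x'‖ ≤ C * (‖u x - u x'‖ + ‖y x - y x'‖ ^ r)) :
    dimH (h '' A) ≤ dimH Z + (finrank ℝ Y : ℝ≥0∞) / (r : ℝ≥0∞) := by
  classical
  rcases A.eq_empty_or_nonempty with rfl | ⟨x₀, hx₀⟩
  · simp
  set m := finrank ℝ Y with hm
  set e : Y ≃L[ℝ] (Fin m → ℝ) := (ContinuousLinearEquiv.ofFinrankEq (by simp [hm])) with he
  set q : X → U × (Fin m → ℝ) := fun x => (u x, e (y x)) with hq
  set g : U × (Fin m → ℝ) → F := fun p => h (if hp : ∃ x ∈ A, q x = p then hp.choose else x₀) with hg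
  have hchoice : ∀ x ∈ A, ∃ x' ∈ A, q x' = q x ∧ g (q x) = h x' := by
    intro x hx
    have hp : ∃ x' ∈ A, q x' = q x := ⟨x, hx, rfl⟩
    refine ⟨hp.choose, hp.choose_spec.1, hp.choose_spec.2, ?_⟩
    simp only [hg]
    rw [dif_pos hp]
  have hgq : ∀ x ∈ A, g (q x) = h x := by
    intro x hx
    obtain ⟨x', hx', h1, h2⟩ := hchoice x hx
    rw [h2]
    have h3 : u x' = u x := congrArg Prod.fst h1
    have h4 : y x' = y x := e.injective (congrArg Prod.snd h1)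
    have h5 := hest x' hx' x hx
    rw [h3, h4, sub_self, sub_self, norm_zero, norm_zero, zero_pow (by omega), add_zero,
      mul_zero] at h5
    exact sub_eq_zero.1 (norm_le_zero_iff.1 h5)
  have himg : h '' A = g '' (q '' A) := by
    ext v
    constructor
    · rintro ⟨x, hx, rfl⟩
      exact ⟨q x, ⟨x, hx, rfl⟩, hgq x hx⟩
    · rintro ⟨_, ⟨x, hx, rfl⟩, rfl⟩
      exact ⟨x, hx, (hgq x hx).symm⟩
  rw [himg]
  set c : ℝ := ‖(e.symm : (Fin m → ℝ) →L[ℝ] Y)‖ with hc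
  have hc0 : 0 ≤ c := norm_nonneg _
  have hce : ∀ z z' : Y, ‖z - z'‖ ≤ c * ‖e z - e z'‖ := by
    intro z z'
    have := (e.symm : (Fin m → ℝ) →L[ℝ] Y).le_opNorm (e z - e z')
    simpa using this
  refine dimH_image_le_add m r hr Z (q '' A) ?_ (‖(e : Y →L[ℝ] (Fin m → ℝ))‖ * M) ?_ g
    (C * (1 + c ^ r)) ?_
  · rintro _ ⟨x, hx, rfl⟩
    exact hZ x hx
  · rintro _ ⟨x, hx, rfl⟩ i
    calc |(q x).2 i| = ‖(q x).2 i‖ := (Real.norm_eq_abs _).symm
      _ ≤ ‖(q x).2‖ := norm_le_pi_norm _ _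
      _ = ‖(e : Y →L[ℝ] (Fin m → ℝ)) (y x)‖ := by simp [hq]
      _ ≤ ‖(e : Y →L[ℝ] (Fin m → ℝ))‖ * ‖y x‖ := ContinuousLinearMap.le_opNorm _ _
      _ ≤ _ := by
        gcongr
        exact hM x hx
  · rintro _ ⟨x, hx, rfl⟩ _ ⟨x', hx', rfl⟩
    rw [hgq x hx, hgq x' hx', dist_eq_norm]
    refine (hest x hx x' hx').trans ?_
    simp only [hq, dist_eq_norm]
    have h1 : ‖y x - y x'‖ ^ r ≤ c ^ r * ‖e (y x) - e (y x')‖ ^ r := by
      rw [← mul_pow]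
      exact pow_le_pow_left₀ (norm_nonneg _) (hce _ _) _
    have h2 : 0 ≤ ‖u x - u x'‖ := norm_nonneg _
    have h3 : 0 ≤ ‖e (y x) - e (y x')‖ ^ r := by positivity
    have h4 : 0 ≤ c ^ r := by positivity
    rw [mul_assoc]
    apply mul_le_mul_of_nonneg_left _ hC
    nlinarith [mul_nonneg h4 h2]

section defs

variable {X U K Y F : Type} [TopologicalSpace X] [NormedAddCommGroup U] [NormedSpace ℝ U]
  [NormedAddCommGroup K] [NormedSpace ℝ K]
  [NormedAddCommGroup Y] [NormedSpace ℝ Y] [NormedAddCommGroup F]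
  [NormedSpace ℝ F]

/-- the distance of the parameters, to the power `1/r` -/
noncomputable def al (r : ℕ) (u : X → U) (x x' : X) : ℝ := ‖u x - u x'‖ ^ ((r : ℝ)⁻¹)

lemma al_nonneg (r : ℕ) (u : X → U) (x x' : X) : 0 ≤ al r u x x' :=
  Real.rpow_nonneg (norm_nonneg _) _

lemma al_pow (r : ℕ) (hr : 1 ≤ r) (u : X → U) (x x' : X) : al r u x x' ^ r = ‖u x - u x'‖ :=
  Real.rpow_inv_natCast_pow (norm_nonneg _) (by omega)

lemma al_small {r : ℕ} (hr : 1 ≤ r) {u : X → U} (hu : Continuous u) (x₀ : X) {δ : ℝ} (hδ : 0 < δ) :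
    ∃ N ∈ 𝓝 x₀, ∀ x ∈ N, ∀ x' ∈ N, al r u x x' ≤ δ := by
  have h1 : ∀ᶠ x in 𝓝 x₀, ‖u x - u x₀‖ < δ ^ r / 2 := by
    have h2 : Tendsto (fun x => ‖u x - u x₀‖) (𝓝 x₀) (𝓝 ‖u x₀ - u x₀‖) :=
      ((hu.sub continuous_const).norm).continuousAt
    rw [sub_self, norm_zero] at h2
    exact h2.eventually (gt_mem_nhds (by positivity))
  refine ⟨_, h1, fun x hx x' hx' => ?_⟩
  have h3 : al r u x x' ^ r ≤ δ ^ r := by
    rw [al_pow r hr]
    calc ‖u x - u x'‖ = ‖(u x - u x₀) - (u x' - u x₀)‖ := by congr 1; abel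
      _ ≤ ‖u x - u x₀‖ + ‖u x' - u x₀‖ := norm_sub_le _ _
      _ ≤ δ ^ r := by
        have a1 : ‖u x - u x₀‖ < δ ^ r / 2 := hx
        have a2 : ‖u x' - u x₀‖ < δ ^ r / 2 := hx'
        linarith
  exact le_of_pow_le_pow_left₀ (by omega) hδ.le h3

/-- a family of smooth maps attached to the points of a space `X`; the data of the induction -/
structure Dat (r : ℕ) (Z : Set U) (A : Set X) (u : X → U) (κ : X → K) (y : X → Y)
    (Φ : K × Y → F) : Prop where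
  hu : Continuous u
  hκ : Continuous κ
  hy : Continuous y
  hΦ : ContDiff ℝ ∞ Φ
  hZ : ∀ x ∈ A, u x ∈ Z
  h0 : ∀ x ∈ A, dy Φ (κ x, y x) = 0
  hW : ∀ x₀ ∈ A, ∃ C R : ℝ, 0 ≤ C ∧ 0 < R ∧ ∃ N ∈ 𝓝 x₀, ∀ x ∈ A ∩ N, ∀ x' ∈ A ∩ N,
    ∀ z ∈ closedBall (y x₀) R,
      ‖Φ (κ x, z) - Φ (κ x', z)‖ ≤ C * (al r u x x' + ‖z - y x‖ + ‖z - y x'‖) ^ r

theorem Dat.mono {r : ℕ} {Z : Set U} {A B : Set X} {u : X → U} {κ : X → K} {y : X → Y}
    {Φ : K × Y → F} (D : Dat r Z A u κ y Φ) (h : B ⊆ A) : Dat r Z B u κ y Φ where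
  hu := D.hu
  hκ := D.hκ
  hy := D.hy
  hΦ := D.hΦ
  hZ := fun x hx => D.hZ x (h hx)
  h0 := fun x hx => D.h0 x (h hx)
  hW := fun x₀ hx₀ => by
    obtain ⟨C, R, hC, hR, N, hN, H⟩ := D.hW x₀ (h hx₀)
    exact ⟨C, R, hC, hR, N, hN, fun x hx x' hx' z hz =>
      H x ⟨h hx.1, hx.2⟩ x' ⟨h hx'.1, hx'.2⟩ z hz⟩

end defs

variable {X U K Y F : Type} [TopologicalSpace X] [SecondCountableTopology X]
  [NormedAddCommGroup U] [NormedSpace ℝ U]
  [NormedAddCommGroup K] [NormedSpace ℝ K] [FiniteDimensional ℝ K]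
  [NormedAddCommGroup Y] [NormedSpace ℝ Y] [FiniteDimensional ℝ Y] [NormedAddCommGroup F]
  [NormedSpace ℝ F]

/-- the flat points -/
theorem flat {r : ℕ} (hr : 1 ≤ r) {Z : Set U} {A : Set X} {u : X → U} {κ : X → K} {y : X → Y}
    {Φ : K × Y → F} (D : Dat r Z A u κ y Φ) :
    dimH ((fun x => Φ (κ x, y x)) '' {x ∈ A | ∀ i, 1 ≤ i → i ≤ r - 1 → pd i Φ (κ x, y x) = 0}) ≤
      dimH Z + (finrank ℝ Y : ℝ≥0∞) / (r : ℝ≥0∞) := by
  haveI : ProperSpace K := FiniteDimensional.proper ℝ K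
  haveI : ProperSpace Y := FiniteDimensional.proper ℝ Y
  refine dimH_image_le_of_local' fun x₀ hx₀ => ?_
  obtain ⟨C, R, hC, hR, N, hN, H⟩ := D.hW x₀ hx₀.1
  have hΦd : Differentiable ℝ Φ := D.hΦ.differentiable (by simp)
  obtain ⟨C', hC', hflat⟩ := flat_taylor_param (isCompact_closedBall (κ x₀) 1)
    (isCompact_closedBall (y x₀) R) (convex_closedBall _ _) (r - 1) (dy Φ) (contDiff_dy D.hΦ)
  have hN1 : ∀ᶠ x in 𝓝 x₀, κ x ∈ closedBall (κ x₀) 1 :=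
    D.hκ.continuousAt.eventually (closedBall_mem_nhds _ one_pos)
  have hN2 : ∀ᶠ x in 𝓝 x₀, y x ∈ closedBall (y x₀) R :=
    D.hy.continuousAt.eventually (closedBall_mem_nhds _ hR)
  refine ⟨_, (hN1.and hN2).and hN, ?_⟩
  refine dimH_le_of_est r hr Z _ u y _ (fun x hx => D.hZ x hx.1.1) (‖y x₀‖ + R) ?_
    (C' + C * 2 ^ r) (by positivity) ?_
  · intro x hx
    have h1 : y x ∈ closedBall (y x₀) R := hx.2.1.2
    rw [mem_closedBall, dist_eq_norm] at h1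
    calc ‖y x‖ = ‖(y x - y x₀) + y x₀‖ := by rw [sub_add_cancel]
      _ ≤ ‖y x - y x₀‖ + ‖y x₀‖ := norm_add_le _ _
      _ ≤ ‖y x₀‖ + R := by linarith
  · rintro x ⟨⟨hxA, hxf⟩, ⟨hx1, hx2⟩, hxN⟩ x' ⟨⟨hxA', hxf'⟩, ⟨hx1', hx2'⟩, hxN'⟩
    have h2 : ‖Φ (κ x, y x') - Φ (κ x, y x)‖ ≤ C' * ‖y x' - y x‖ ^ r := by
      have h3 : ∀ i < r - 1, iteratedFDeriv ℝ i (fun z => dy Φ (κ x, z)) (y x) = 0 := by
        intro i hi
        have hsl : (fun z => dy Φ (κ x, z)) = fderiv ℝ (fun z => Φ (κ x, z)) := by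
          ext z : 1
          exact dy_eq hΦd (κ x, z)
        have h4 := hxf (i + 1) (by omega) (by omega)
        rw [pd] at h4
        rw [hsl, ← norm_eq_zero, norm_iteratedFDeriv_fderiv]
        simp only at h4
        rw [h4, norm_zero]
      have h5 : ∀ z ∈ closedBall (y x₀) R,
          ‖fderiv ℝ (fun z => Φ (κ x, z)) z‖ ≤ C' * ‖z - y x‖ ^ (r - 1) := by
        intro z hz
        have := hflat (κ x) hx1 (y x) hx2 h3 z hz
        rwa [dy_eq hΦd (κ x, z)] at this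
      have h6 := mvt_pow ((slice D.hΦ (κ x)).differentiable (by simp)) (convex_closedBall _ _) hx2
        hC' h5 (y x') hx2'
      rwa [Nat.sub_add_cancel hr] at h6
    have h7 := H x ⟨hxA, hxN⟩ x' ⟨hxA', hxN'⟩ (y x') hx2'
    rw [sub_self, norm_zero, add_zero] at h7
    have h8 : (al r u x x' + ‖y x' - y x‖) ^ r ≤ 2 ^ r * (‖u x - u x'‖ + ‖y x' - y x‖ ^ r) := by
      have a1 := al_nonneg r u x x'
      have a2 := norm_nonneg (y x' - y x)
      have a3 : (al r u x x' + ‖y x' - y x‖) ≤ 2 * max (al r u x x') ‖y x' - y x‖ := by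
        have b1 := le_max_left (al r u x x') ‖y x' - y x‖
        have b2 := le_max_right (al r u x x') ‖y x' - y x‖
        linarith
      refine (pow_le_pow_left₀ (by positivity) a3 r).trans ?_
      rw [mul_pow]
      apply mul_le_mul_of_nonneg_left _ (by positivity)
      rcases max_choice (al r u x x') ‖y x' - y x‖ with h | h
      · rw [h, al_pow r hr]
        have : 0 ≤ ‖y x' - y x‖ ^ r := by positivity
        linarith
      · rw [h]
        have := norm_nonneg (u x - u x')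
        linarith
    have h9 : Φ (κ x, y x) - Φ (κ x', y x') =
        (Φ (κ x, y x') - Φ (κ x', y x')) - (Φ (κ x, y x') - Φ (κ x, y x)) := by abel
    rw [h9]
    refine (norm_sub_le _ _).trans ?_
    rw [norm_sub_rev (y x) (y x')]
    have a1 : 0 ≤ ‖u x - u x'‖ := norm_nonneg _
    have a2 : 0 ≤ ‖y x' - y x‖ ^ r := by positivity
    calc ‖Φ (κ x, y x') - Φ (κ x', y x')‖ + ‖Φ (κ x, y x') - Φ (κ x, y x)‖
        ≤ C * (2 ^ r * (‖u x - u x'‖ + ‖y x' - y x‖ ^ r)) + C' * ‖y x' - y x‖ ^ r := by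
          refine add_le_add (h7.trans ?_) h2
          exact mul_le_mul_of_nonneg_left h8 hC
      _ ≤ (C' + C * 2 ^ r) * (‖u x - u x'‖ + ‖y x' - y x‖ ^ r) := by
          nlinarith [mul_nonneg hC' a1]

end Pool.Agent.Zk23.KKMorse
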