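import Pool.Agent.Zk23.KKMorseA
import Pool.Agent.Zk85.Interp

/-!
# Values of rank zero of maps of finite smoothness: reduction of the dimension
-/

set_option autoImplicit false

open Set Filter Topology Metric Module MeasureTheory
open scoped ContDiff ENNReal

namespace Pool.Agent.Zk23.KKMorse

open Pool.Agent.Zk23.KKInv Pool.Agent.Zk23.KKCov Pool.Agent.Zk23.KKRank Pool.Agent.Zk23.KKChart
open Pool.Agent.Zk85.Interp (interpolation)
open Pool.Agent.H664.Sard (mvt_pow)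

variable {X U K Y F : Type} [TopologicalSpace X] [SecondCountableTopology X]
  [NormedAddCommGroup U] [NormedSpace ℝ U]
  [NormedAddCommGroup K] [NormedSpace ℝ K] [FiniteDimensional ℝ K]
  [NormedAddCommGroup Y] [NormedSpace ℝ Y] [FiniteDimensional ℝ Y] [NormedAddCommGroup F]
  [NormedSpace ℝ F]

lemma pd_sub {Φ : K × Y → F} (hΦ : ContDiff ℝ ∞ Φ) (i : ℕ) (k k' : K) (z : Y) :
    iteratedFDeriv ℝ i (fun z => Φ (k, z) - Φ (k', z)) z = pd i Φ (k, z) - pd i Φ (k', z) := by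
  have h1 : ContDiff ℝ i (fun z => Φ (k, z)) := (slice hΦ k).of_le (by exact_mod_cast le_top)
  have h2 : ContDiff ℝ i (fun z => Φ (k', z)) := (slice hΦ k').of_le (by exact_mod_cast le_top)
  have h3 := iteratedFDeriv_sub h1 h2
  exact congrFun h3 z

/-- the function used to reduce the dimension -/
lemma exists_w {Φ : K × Y → F} (hΦ : ContDiff ℝ ∞ Φ) (j : ℕ) (p : K × Y)
    (hne : pd (j + 1) Φ p ≠ 0) :
    ∃ T : (ContinuousMultilinearMap ℝ (fun _ : Fin j => Y) F) →L[ℝ] ℝ,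
      ContDiff ℝ ∞ (fun q => T (pd j Φ q)) ∧ dy (fun q => T (pd j Φ q)) p ≠ 0 := by
  obtain ⟨v, hv⟩ : ∃ v, pd (j + 1) Φ p v ≠ 0 := by
    by_contra hcon
    push Not at hcon
    exact hne (ContinuousMultilinearMap.ext hcon)
  rw [pd, iteratedFDeriv_succ_apply_left] at hv
  obtain ⟨π, hπ⟩ := SeparatingDual.exists_ne_zero (R := ℝ) hv
  set T : (ContinuousMultilinearMap ℝ (fun _ : Fin j => Y) F) →L[ℝ] F :=
    ContinuousMultilinearMap.apply ℝ (fun _ : Fin j => Y) F (Fin.tail v) with hT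
  refine ⟨π.comp T, (π.comp T).contDiff.comp (contDiff_pd hΦ j), ?_⟩
  have hwc : ContDiff ℝ ∞ (fun q => (π.comp T) (pd j Φ q)) :=
    (π.comp T).contDiff.comp (contDiff_pd hΦ j)
  intro h0
  rw [dy_eq (hwc.differentiable (by simp))] at h0
  have h2 : ContDiff ℝ ∞ (iteratedFDeriv ℝ j (fun y => Φ (p.1, y))) := by
    apply (slice hΦ p.1).iteratedFDeriv_right
    exact_mod_cast le_top
  have h1 : HasFDerivAt (fun y => (π.comp T) (pd j Φ (p.1, y)))
      ((π.comp T).comp (fderiv ℝ (iteratedFDeriv ℝ j (fun y => Φ (p.1, y))) p.2)) p.2 :=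
    (π.comp T).hasFDerivAt.comp p.2 ((h2.differentiable (by simp) p.2).hasFDerivAt)
  rw [h1.fderiv] at h0
  exact hπ (congrArg (fun A : Y →L[ℝ] ℝ => A (v 0)) h0)

lemma exists_pd_bound {Φ : K × Y → F} (hΦ : ContDiff ℝ ∞ Φ) (r : ℕ) (k₀ : K) (z₀ : Y) (R : ℝ) :
    ∃ K₀ : ℝ, 0 ≤ K₀ ∧ ∀ i ≤ r, ∀ k ∈ closedBall k₀ 1, ∀ z ∈ closedBall z₀ R,
      ‖pd i Φ (k, z)‖ ≤ K₀ := by
  haveI : ProperSpace K := FiniteDimensional.proper ℝ K
  haveI : ProperSpace Y := FiniteDimensional.proper ℝ Y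
  have h : ∀ i : ℕ, ∃ B : ℝ, ∀ q ∈ closedBall k₀ 1 ×ˢ closedBall z₀ R, ‖pd i Φ q‖ ≤ B := fun i =>
    ((isCompact_closedBall k₀ 1).prod (isCompact_closedBall z₀ R)).exists_bound_of_continuousOn
      (contDiff_pd hΦ i).continuous.continuousOn
  choose B hB using h
  refine ⟨∑ i ∈ Finset.range (r + 1), |B i|, Finset.sum_nonneg fun _ _ => abs_nonneg _,
    fun i hi k hk z hz => ?_⟩
  refine (hB i (k, z) ⟨hk, hz⟩).trans ((le_abs_self _).trans ?_)
  exact Finset.single_le_sum (f := fun i => |B i|) (fun _ _ => abs_nonneg _)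
    (Finset.mem_range.2 (by omega))

/-- reduction of the dimension at a point which is not flat -/
theorem step {r : ℕ} {Z : Set U} {A : Set X} {u : X → U} {κ : X → K} {y : X → Y}
    {Φ : K × Y → F} (D : Dat r Z A u κ y Φ) (j : ℕ) (hj1 : 1 ≤ j) (hj2 : j + 2 ≤ r) (x₀ : X)
    (hx₀ : x₀ ∈ A) (hflat : ∀ x ∈ A, ∀ i, 1 ≤ i → i ≤ j → pd i Φ (κ x, y x) = 0)
    (hne : pd (j + 1) Φ (κ x₀, y x₀) ≠ 0) :
    ∃ (Y' : Submodule ℝ Y) (P : Y →L[ℝ] Y') (Φ' : K × Y' → F) (N : Set X),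
      finrank ℝ Y' < finrank ℝ Y ∧ N ∈ 𝓝 x₀ ∧ Dat r Z (A ∩ N) u κ (fun x => P (y x)) Φ' ∧
      ∀ x ∈ A ∩ N, Φ' (κ x, P (y x)) = Φ (κ x, y x) := by
  haveI : ProperSpace K := FiniteDimensional.proper ℝ K
  haveI : ProperSpace Y := FiniteDimensional.proper ℝ Y
  have hΦd : Differentiable ℝ Φ := D.hΦ.differentiable (by simp)
  obtain ⟨T, hwc, hwd⟩ := exists_w D.hΦ j (κ x₀, y x₀) hne
  set w : K × Y → ℝ := fun q => T (pd j Φ q) with hw
  have hw0 : ∀ x ∈ A, w (κ x, y x) = 0 := by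
    intro x hx
    simp only [hw]
    rw [hflat x hx j hj1 le_rfl, map_zero]
  obtain ⟨Y', P, c, L, ε, hdim, hc, hε, hL, hcp, hc1, hc2, hc3⟩ :=
    exists_chart hwc (κ x₀, y x₀) hwd (hw0 x₀ hx₀)
  simp only at hcp hc1 hc2 hc3
  obtain ⟨C, R, hC, hR, N₀, hN₀, H⟩ := D.hW x₀ hx₀
  obtain ⟨K₀, hK₀, hKb⟩ := exists_pd_bound D.hΦ r (κ x₀) (y x₀) R
  obtain ⟨C₁, hC₁, hint⟩ := interpolation (Y := Y) r j (by omega) C (2 * K₀) R (R / 2) hC
    (by positivity) (by positivity) (by linarith)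
  set C₂ : ℝ := ‖T‖ * C₁ with hC₂
  have hC₂0 : 0 ≤ C₂ := by positivity
  -- the difference of the values of `w`
  have hI : ∀ x ∈ A ∩ N₀, ∀ x' ∈ A ∩ N₀, κ x ∈ closedBall (κ x₀) 1 → κ x' ∈ closedBall (κ x₀) 1 →
      ∀ z ∈ closedBall (y x₀) (R / 2), |w (κ x, z) - w (κ x', z)| ≤
        C₂ * (al r u x x' + ‖z - y x‖ + ‖z - y x'‖) ^ (r - j) := by
    intro x hx x' hx' hk hk' z hz
    have h1 : ContDiff ℝ ∞ (fun z => Φ (κ x, z) - Φ (κ x', z)) :=
      (slice D.hΦ _).sub (slice D.hΦ _)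
    have h2 := hint (fun z => Φ (κ x, z) - Φ (κ x', z)) (y x₀) h1 (by
      intro i hi z hz
      rw [pd_sub D.hΦ]
      refine (norm_sub_le _ _).trans ?_
      have a1 := hKb i hi _ hk z hz
      have a2 := hKb i hi _ hk' z hz
      linarith) (al r u x x') (y x) (y x') (al_nonneg _ _ _ _) (H x hx x' hx') z hz
    rw [pd_sub D.hΦ] at h2
    simp only [hw]
    rw [← map_sub, ← Real.norm_eq_abs]
    refine (T.le_opNorm _).trans ?_
    rw [hC₂, mul_assoc]
    exact mul_le_mul_of_nonneg_left h2 (norm_nonneg _)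
  -- the constants
  set δ : ℝ := min 1 (1 / (2 * (L * C₂ + 1))) with hδ
  have hLC : 0 ≤ L * C₂ := mul_nonneg hL hC₂0
  have hδ0 : 0 < δ := lt_min one_pos (by positivity)
  have hδ1 : δ ≤ 1 := min_le_left _ _
  have hδ2 : L * C₂ * δ ≤ 1 / 2 := by
    have h1 : δ ≤ 1 / (2 * (L * C₂ + 1)) := min_le_right _ _
    calc L * C₂ * δ ≤ L * C₂ * (1 / (2 * (L * C₂ + 1))) := mul_le_mul_of_nonneg_left h1 hLC
      _ ≤ 1 / 2 := by
        rw [mul_one_div, div_le_div_iff₀ (by positivity) (by norm_num)]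
        linarith
  set ε' : ℝ := min ε (R / 2) with hε'
  have hε'0 : 0 < ε' := lt_min hε (by positivity)
  have hε'1 : ε' ≤ ε := min_le_left _ _
  have hε'2 : ε' ≤ R / 2 := min_le_right _ _
  obtain ⟨ε₂, hε₂, hcc⟩ := (Metric.nhds_basis_closedBall.eventually_iff).1
    (hc.continuous.continuousAt.eventually (show ∀ᶠ z in 𝓝 (c (κ x₀, P (y x₀))), z ∈
      closedBall (y x₀) ε' from by rw [hcp]; exact closedBall_mem_nhds _ hε'0))
  set R₂ : ℝ := min ε₂ ε with hR₂
  have hR₂0 : 0 < R₂ := lt_min hε₂ hε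
  -- the neighbourhood
  obtain ⟨N₁, hN₁, hN₁'⟩ := al_small (by omega : 1 ≤ r) D.hu x₀ (by positivity : 0 < δ / 2)
  have hN₂ : ∀ᶠ x in 𝓝 x₀, y x ∈ closedBall (y x₀) (min ε' (δ / 4)) :=
    D.hy.continuousAt.eventually (closedBall_mem_nhds _ (lt_min hε'0 (by positivity)))
  have hN₃ : ∀ᶠ x in 𝓝 x₀, κ x ∈ closedBall (κ x₀) (min R₂ 1) :=
    D.hκ.continuousAt.eventually (closedBall_mem_nhds _ (lt_min hR₂0 one_pos))
  have hN₅ : ∀ᶠ x in 𝓝 x₀, P (y x) ∈ closedBall (P (y x₀)) (R₂ / 2) :=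
    (P.continuous.comp D.hy).continuousAt.eventually (closedBall_mem_nhds _ (by positivity))
  set N : Set X := N₀ ∩ N₁ ∩ {x | y x ∈ closedBall (y x₀) (min ε' (δ / 4)) ∧
    κ x ∈ closedBall (κ x₀) (min R₂ 1) ∧ P (y x) ∈ closedBall (P (y x₀)) (R₂ / 2)} with hN
  have hNm : N ∈ 𝓝 x₀ := inter_mem (inter_mem hN₀ hN₁) (hN₂.and (hN₃.and hN₅))
  have m1 : ∀ x ∈ A ∩ N, x ∈ A ∩ N₀ := fun x hx => ⟨hx.1, hx.2.1.1⟩
  have m2 : ∀ x ∈ A ∩ N, y x ∈ closedBall (y x₀) ε' := fun x hx =>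
    closedBall_subset_closedBall (min_le_left _ _) hx.2.2.1
  have m3 : ∀ x ∈ A ∩ N, κ x ∈ closedBall (κ x₀) 1 := fun x hx =>
    closedBall_subset_closedBall (min_le_right _ _) hx.2.2.2.1
  have m4 : ∀ x ∈ A ∩ N, κ x ∈ closedBall (κ x₀) ε := fun x hx =>
    closedBall_subset_closedBall ((min_le_left _ _).trans (min_le_right _ _)) hx.2.2.2.1
  have m5 : ∀ x ∈ A ∩ N, κ x ∈ closedBall (κ x₀) ε₂ := fun x hx =>
    closedBall_subset_closedBall ((min_le_left _ _).trans (min_le_left _ _)) hx.2.2.2.1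
  have m6 : ∀ x ∈ A ∩ N, P (y x) ∈ closedBall (P (y x₀)) ε := fun x hx =>
    closedBall_subset_closedBall ((half_le_self hR₂0.le).trans (min_le_right _ _)) hx.2.2.2.2
  -- the chart recovers `y`
  have hcy : ∀ x ∈ A ∩ N, c (κ x, P (y x)) = y x := fun x hx =>
    hc1 _ (m4 x hx) _ (closedBall_subset_closedBall hε'1 (m2 x hx)) (hw0 x hx.1)
  -- the projection is bi-Lipschitz up to the parameter
  have hbl : ∀ x ∈ A ∩ N, ∀ x' ∈ A ∩ N, ‖y x - y x'‖ ≤ al r u x x' + 2 * L * ‖P (y x) - P (y x')‖ := by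
    intro x hx x' hx'
    have h1 := hc3 _ (m4 x hx) _ (closedBall_subset_closedBall hε'1 (m2 x hx)) _
      (closedBall_subset_closedBall hε'1 (m2 x' hx'))
    have h2 := hI x (m1 x hx) x' (m1 x' hx') (m3 x hx) (m3 x' hx') (y x')
      (closedBall_subset_closedBall hε'2 (m2 x' hx'))
    rw [sub_self, norm_zero, add_zero, hw0 x' hx'.1, sub_zero] at h2
    rw [hw0 x hx.1, zero_sub, abs_neg] at h1
    have a0 := al_nonneg r u x x'
    have a1 : al r u x x' ≤ δ / 2 := hN₁' x hx.2.1.2 x' hx'.2.1.2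
    have a2 : ‖y x' - y x‖ ≤ δ / 2 := by
      have b1 : dist (y x) (y x₀) ≤ δ / 4 := (mem_closedBall.1 hx.2.2.1).trans (min_le_right _ _)
      have b2 : dist (y x') (y x₀) ≤ δ / 4 := (mem_closedBall.1 hx'.2.2.1).trans (min_le_right _ _)
      rw [← dist_eq_norm]
      calc dist (y x') (y x) ≤ dist (y x') (y x₀) + dist (y x₀) (y x) := dist_triangle _ _ _
        _ ≤ δ / 4 + δ / 4 := add_le_add b2 (by rwa [dist_comm])
        _ = δ / 2 := by ring
    set t : ℝ := al r u x x' + ‖y x' - y x‖ with ht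
    have ht0 : 0 ≤ t := by positivity
    have htδ : t ≤ δ := by linarith
    have h3 : t ^ (r - j) ≤ δ * t := by
      have e1 : r - j = (r - j - 2) + 1 + 1 := by omega
      rw [e1, pow_succ, pow_succ]
      have e2 : t ^ (r - j - 2) ≤ 1 := pow_le_one₀ ht0 (htδ.trans hδ1)
      have e3 : t ^ (r - j - 2) * t ≤ δ := by
        calc t ^ (r - j - 2) * t ≤ 1 * t := mul_le_mul_of_nonneg_right e2 ht0
          _ ≤ δ := by linarith
      exact mul_le_mul_of_nonneg_right e3 ht0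
    have h4 : L * |w (κ x, y x')| ≤ 1 / 2 * t := by
      calc L * |w (κ x, y x')| ≤ L * (C₂ * (δ * t)) :=
            mul_le_mul_of_nonneg_left (h2.trans (mul_le_mul_of_nonneg_left h3 hC₂0)) hL
        _ = (L * C₂ * δ) * t := by ring
        _ ≤ 1 / 2 * t := mul_le_mul_of_nonneg_right hδ2 ht0
    rw [mul_add] at h1
    rw [norm_sub_rev (y x') (y x)] at ht
    linarith
  -- flatness of order `j`
  obtain ⟨C₃, hC₃, hfl⟩ := flat_taylor_param (isCompact_closedBall (κ x₀) 1)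
    (isCompact_closedBall (y x₀) ε') (convex_closedBall _ _) j (dy Φ) (contDiff_dy D.hΦ)
  have hfl' : ∀ x ∈ A ∩ N, ∀ z ∈ closedBall (y x₀) ε', ‖dy Φ (κ x, z)‖ ≤ C₃ * ‖z - y x‖ ^ j := by
    intro x hx z hz
    refine hfl _ (m3 x hx) _ (m2 x hx) (fun i hi => ?_) z hz
    have hsl : (fun z => dy Φ (κ x, z)) = fderiv ℝ (fun z => Φ (κ x, z)) := by
      ext z : 1
      exact dy_eq hΦd (κ x, z)
    have h4 := hflat x hx.1 (i + 1) (by omega) (by omega)
    rw [pd] at h4
    rw [hsl, ← norm_eq_zero, norm_iteratedFDeriv_fderiv]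
    simp only at h4
    rw [h4, norm_zero]
  set M : ℝ := 2 + 4 * L with hM
  have hM0 : 0 ≤ M := by positivity
  refine ⟨Y', P, fun q => Φ (q.1, c q), N, hdim, hNm, ?_, ?_⟩
  · refine ⟨D.hu, D.hκ, P.continuous.comp D.hy, D.hΦ.comp (contDiff_fst.prodMk hc),
      fun x hx => D.hZ x hx.1, ?_, ?_⟩
    · intro x hx
      apply dy_comp_param D.hΦ hc
      rw [hcy x hx]
      exact D.h0 x hx.1
    · intro x₁ hx₁
      refine ⟨(C₃ * (L * C₂) + C) * M ^ r, R₂ / 2, by positivity, by positivity, univ, univ_mem, ?_⟩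
      rintro x ⟨hx, -⟩ x' ⟨hx', -⟩ z' hz'
      have hz'' : z' ∈ closedBall (P (y x₀)) R₂ := by
        rw [mem_closedBall]
        calc dist z' (P (y x₀)) ≤ dist z' (P (y x₁)) + dist (P (y x₁)) (P (y x₀)) :=
              dist_triangle _ _ _
          _ ≤ R₂ / 2 + R₂ / 2 := add_le_add (mem_closedBall.1 hz') (mem_closedBall.1 hx₁.2.2.2.2)
          _ = R₂ := by ring
      have hz₁ : z' ∈ closedBall (P (y x₀)) ε := closedBall_subset_closedBall (min_le_right _ _) hz''
      have hz₂ : z' ∈ closedBall (P (y x₀)) ε₂ := closedBall_subset_closedBall (min_le_left _ _) hz''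
      have hcb : ∀ x ∈ A ∩ N, c (κ x, z') ∈ closedBall (y x₀) ε' := by
        intro x hx
        apply hcc
        rw [mem_closedBall, Prod.dist_eq]
        exact max_le (m5 x hx) hz₂
      have hcw : ∀ x ∈ A ∩ N, w (κ x, c (κ x, z')) = 0 := fun x hx => (hc2 _ (m4 x hx) _ hz₁).1
      have hcP : ∀ x ∈ A ∩ N, P (c (κ x, z')) = z' := fun x hx => (hc2 _ (m4 x hx) _ hz₁).2
      have hcz : ∀ x ∈ A ∩ N, ‖c (κ x, z') - y x‖ ≤ L * ‖z' - P (y x)‖ := by
        intro x hx
        have h1 := hc3 _ (m4 x hx) _ (closedBall_subset_closedBall hε'1 (hcb x hx)) _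
          (closedBall_subset_closedBall hε'1 (m2 x hx))
        rwa [hcw x hx, hw0 x hx.1, sub_zero, abs_zero, zero_add, hcP x hx] at h1
      set S : ℝ := al r u x x' + ‖z' - P (y x)‖ + ‖z' - P (y x')‖ with hS
      have a0 := al_nonneg r u x x'
      have a1 := norm_nonneg (z' - P (y x))
      have a2 := norm_nonneg (z' - P (y x'))
      have hS0 : 0 ≤ S := by positivity
      have b1 : ‖c (κ x, z') - y x‖ ≤ L * S := (hcz x hx).trans
        (mul_le_mul_of_nonneg_left (by linarith) hL)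
      have b2 : ‖c (κ x', z') - y x'‖ ≤ L * S := (hcz x' hx').trans
        (mul_le_mul_of_nonneg_left (by linarith) hL)
      have b3 : ‖y x - y x'‖ ≤ (1 + 2 * L) * S := by
        refine (hbl x hx x' hx').trans ?_
        have c1 : ‖P (y x) - P (y x')‖ ≤ ‖z' - P (y x)‖ + ‖z' - P (y x')‖ := by
          have : P (y x) - P (y x') = (z' - P (y x')) - (z' - P (y x)) := by abel
          rw [this]
          refine (norm_sub_le _ _).trans ?_
          linarith
        have c2 : 2 * L * ‖P (y x) - P (y x')‖ ≤ 2 * L * S :=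
          mul_le_mul_of_nonneg_left (by linarith) (by positivity)
        linarith
      have b4 : ‖c (κ x', z') - y x‖ ≤ (1 + 3 * L) * S := by
        have : c (κ x', z') - y x = (c (κ x', z') - y x') - (y x - y x') := by abel
        rw [this]
        refine (norm_sub_le _ _).trans ?_
        linarith
      set ρ : ℝ := al r u x x' + ‖c (κ x', z') - y x‖ + ‖c (κ x', z') - y x'‖ with hρ
      have hρ0 : 0 ≤ ρ := by positivity
      have hρM : ρ ≤ M * S := by
        have : al r u x x' ≤ S := by linarith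
        rw [hM]
        linarith
      have hMS : 0 ≤ M * S := mul_nonneg hM0 hS0
      -- the distance of the two points
      have d1 : ‖c (κ x, z') - c (κ x', z')‖ ≤ L * C₂ * (M * S) ^ (r - j) := by
        have h1 := hc3 _ (m4 x hx) _ (closedBall_subset_closedBall hε'1 (hcb x hx)) _
          (closedBall_subset_closedBall hε'1 (hcb x' hx'))
        rw [hcw x hx, zero_sub, abs_neg, hcP x hx, hcP x' hx', sub_self, norm_zero, add_zero] at h1
        have h2 := hI x (m1 x hx) x' (m1 x' hx') (m3 x hx) (m3 x' hx') _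
          (closedBall_subset_closedBall hε'2 (hcb x' hx'))
        rw [hcw x' hx', sub_zero] at h2
        refine h1.trans ?_
        rw [mul_assoc]
        apply mul_le_mul_of_nonneg_left _ hL
        refine h2.trans (mul_le_mul_of_nonneg_left ?_ hC₂0)
        exact pow_le_pow_left₀ hρ0 hρM _
      -- moving the point
      have d2 : ‖Φ (κ x, c (κ x, z')) - Φ (κ x, c (κ x', z'))‖ ≤
          C₃ * (M * S) ^ j * ‖c (κ x, z') - c (κ x', z')‖ := by
        set B : Set Y := closedBall (y x₀) ε' ∩ closedBall (y x) (M * S) with hB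
        have hBc : Convex ℝ B := (convex_closedBall _ _).inter (convex_closedBall _ _)
        have e1 : c (κ x, z') ∈ B := by
          refine ⟨hcb x hx, ?_⟩
          rw [mem_closedBall, dist_eq_norm]
          refine b1.trans (mul_le_mul_of_nonneg_right ?_ hS0)
          rw [hM]; linarith
        have e2 : c (κ x', z') ∈ B := by
          refine ⟨hcb x' hx', ?_⟩
          rw [mem_closedBall, dist_eq_norm]
          refine b4.trans (mul_le_mul_of_nonneg_right ?_ hS0)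
          rw [hM]; linarith
        refine hBc.norm_image_sub_le_of_norm_fderiv_le (𝕜 := ℝ) (f := fun z => Φ (κ x, z))
          (fun z _ => (slice D.hΦ (κ x)).differentiable (by simp) z) (fun z hz => ?_) e2 e1
        have := hfl' x hx z hz.1
        rw [dy_eq hΦd (κ x, z)] at this
        refine this.trans (mul_le_mul_of_nonneg_left ?_ hC₃)
        have hz2 := hz.2
        rw [mem_closedBall, dist_eq_norm] at hz2
        exact pow_le_pow_left₀ (norm_nonneg _) hz2 _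
      have d3 : ‖Φ (κ x, c (κ x', z')) - Φ (κ x', c (κ x', z'))‖ ≤ C * (M * S) ^ r := by
        refine (H x (m1 x hx) x' (m1 x' hx') _ ?_).trans ?_
        · refine closedBall_subset_closedBall ?_ (hcb x' hx')
          linarith
        · exact mul_le_mul_of_nonneg_left (pow_le_pow_left₀ hρ0 hρM _) hC
      have e0 : Φ (κ x, c (κ x, z')) - Φ (κ x', c (κ x', z')) =
          (Φ (κ x, c (κ x, z')) - Φ (κ x, c (κ x', z'))) +
          (Φ (κ x, c (κ x', z')) - Φ (κ x', c (κ x', z'))) := by abel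
      simp only
      rw [e0]
      refine (norm_add_le _ _).trans ?_
      calc ‖Φ (κ x, c (κ x, z')) - Φ (κ x, c (κ x', z'))‖ +
            ‖Φ (κ x, c (κ x', z')) - Φ (κ x', c (κ x', z'))‖
          ≤ C₃ * (M * S) ^ j * (L * C₂ * (M * S) ^ (r - j)) + C * (M * S) ^ r := by
            refine add_le_add (d2.trans ?_) d3
            exact mul_le_mul_of_nonneg_left d1 (by positivity)
        _ = (C₃ * (L * C₂) + C) * M ^ r * S ^ r := by
            have : (M * S) ^ r = (M * S) ^ j * (M * S) ^ (r - j) := by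
              rw [← pow_add]
              congr 1
              omega
            rw [mul_assoc (C₃ * (L * C₂) + C), ← mul_pow, this]
            ring
  · intro x hx
    simp only
    rw [hcy x hx]

/-- **Sharp Sard theorem, values of rank zero, for families of smooth maps.** -/
theorem morse {r : ℕ} (hr : 1 ≤ r) {Z : Set U} {u : X → U} {κ : X → K} (m : ℕ) :
    ∀ {Y : Type} [NormedAddCommGroup Y] [NormedSpace ℝ Y] [FiniteDimensional ℝ Y],
      finrank ℝ Y ≤ m → ∀ (A : Set X) (y : X → Y) (Φ : K × Y → F), Dat r Z A u κ y Φ →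
      dimH ((fun x => Φ (κ x, y x)) '' A) ≤ dimH Z + (m : ℝ≥0∞) / (r : ℝ≥0∞) := by
  induction m with
  | zero =>
    intro Y _ _ _ hm A y Φ D
    haveI : Subsingleton Y := finrank_zero_iff.1 (Nat.le_zero.1 hm)
    have h1 := flat hr D
    rw [Nat.le_zero.1 hm] at h1
    refine (dimH_mono (image_mono fun x hx => ?_)).trans h1
    refine ⟨hx, fun i hi _ => ?_⟩
    ext v
    rw [zero_apply]
    have : v = 0 := Subsingleton.elim _ _
    rw [this]
    haveI : Nonempty (Fin i) := ⟨⟨0, by omega⟩⟩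
    exact ContinuousMultilinearMap.map_zero _
  | succ m ih =>
    intro Y _ _ _ hm A y Φ D
    have hΦd : Differentiable ℝ Φ := D.hΦ.differentiable (by simp)
    set S : ℕ → Set X := fun j => {x ∈ A | ∀ i, 1 ≤ i → i ≤ j → pd i Φ (κ x, y x) = 0} with hS
    have hpd1 : ∀ p, pd 1 Φ p = 0 ↔ dy Φ p = 0 := by
      intro p
      rw [← norm_eq_zero, pd, norm_iteratedFDeriv_one, norm_eq_zero, dy_eq hΦd]
    have hle : ∀ k ≤ m + 1, dimH Z + (k : ℝ≥0∞) / (r : ℝ≥0∞) ≤
        dimH Z + ((m + 1 : ℕ) : ℝ≥0∞) / (r : ℝ≥0∞) := by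
      intro k hk
      gcongr
    have hstep : ∀ j, 1 ≤ j → j + 2 ≤ r → dimH ((fun x => Φ (κ x, y x)) '' (S j \ S (j + 1))) ≤
        dimH Z + ((m + 1 : ℕ) : ℝ≥0∞) / (r : ℝ≥0∞) := by
      intro j hj1 hj2
      refine dimH_image_le_of_local' fun x₀ hx₀ => ?_
      have hne : pd (j + 1) Φ (κ x₀, y x₀) ≠ 0 := by
        intro h0
        apply hx₀.2
        refine ⟨hx₀.1.1, fun i hi1 hi2 => ?_⟩
        rcases Nat.lt_or_ge i (j + 1) with h | h
        · exact hx₀.1.2 i hi1 (by omega)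
        · have : i = j + 1 := le_antisymm hi2 h
          rw [this]; exact h0
      have D' : Dat r Z (S j) u κ y Φ := D.mono fun x hx => hx.1
      obtain ⟨Y', P, Φ', N, hY', hN, DN, heq⟩ := step D' j hj1 hj2 x₀ hx₀.1
        (fun x hx => hx.2) hne
      refine ⟨N, hN, ?_⟩
      have h1 := ih (Y := Y') (by omega) (S j ∩ N) (fun x => P (y x)) Φ' DN
      refine le_trans (dimH_mono ?_) (h1.trans (hle m (by omega)))
      rintro _ ⟨x, ⟨hx1, hx2⟩, rfl⟩
      exact ⟨x, ⟨hx1.1, hx2⟩, heq x ⟨hx1.1, hx2⟩⟩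
    have hcov : (fun x => Φ (κ x, y x)) '' A ⊆
        (fun x => Φ (κ x, y x)) '' (S (r - 1)) ∪
          ⋃ j : {j : ℕ // 1 ≤ j ∧ j + 2 ≤ r}, (fun x => Φ (κ x, y x)) '' (S j \ S (j + 1)) := by
      rintro _ ⟨x, hx, rfl⟩
      by_cases h : ∀ i, 1 ≤ i → i ≤ r - 1 → pd i Φ (κ x, y x) = 0
      · exact Or.inl ⟨x, ⟨hx, h⟩, rfl⟩
      · right
        classical
        push Not at h
        set i := Nat.find h with hi
        obtain ⟨hi1, hi3, hi2⟩ := Nat.find_spec h
        have hne1 : i ≠ 1 := by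
          intro h1
          apply hi2
          rw [← hi, h1, hpd1]
          exact D.h0 x hx
        refine mem_iUnion.2 ⟨⟨i - 1, by omega, by omega⟩, x, ⟨⟨hx, ?_⟩, ?_⟩, rfl⟩
        · intro k hk1 hk2
          simp only at hk2
          by_contra h3
          exact Nat.find_min h (m := k) (by omega) ⟨hk1, by omega, h3⟩
        · intro h3
          have h4 := h3.2 i hi1 (by simp only; omega)
          exact hi2 h4
    refine (dimH_mono hcov).trans ?_
    rw [dimH_union, dimH_iUnion]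
    refine max_le ?_ (iSup_le fun j => hstep j j.2.1 j.2.2)
    exact (flat hr D).trans (hle _ hm)

end Pool.Agent.Zk23.KKMorse
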