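import Pool.Agent.Zk23.KKInv
import Pool.Agent.Zk23.KKCov
import Pool.Agent.H664.Sard

/-!
# Values of rank zero of smooth maps depending on a fractal parameter
-/

set_option autoImplicit false

open Set Filter Topology Module MeasureTheory
open scoped ContDiff ENNReal

namespace Pool.Agent.Zk23.KKRank

open Pool.Agent.Zk23.KKInv Pool.Agent.Zk23.KKCov
open Pool.Agent.H664.Sard (mvt_pow dimH_image_le_of_local)

section defs

variable {U Y F : Type} [NormedAddCommGroup U] [NormedSpace ℝ U] [NormedAddCommGroup Y]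
    [NormedSpace ℝ Y] [NormedAddCommGroup F] [NormedSpace ℝ F]

theorem dy_eq {f : U × Y → F} (hf : Differentiable ℝ f) (p : U × Y) :
    dy f p = fderiv ℝ (fun y => f (p.1, y)) p.2 := by
  have h1 : HasFDerivAt (fun y : Y => (p.1, y)) (ContinuousLinearMap.inr ℝ U Y) p.2 :=
    hasFDerivAt_prodMk_right p.1 p.2
  exact ((hf p).hasFDerivAt.comp p.2 h1).fderiv.symm

theorem contDiff_dy {f : U × Y → F} (hf : ContDiff ℝ ∞ f) : ContDiff ℝ ∞ (dy f) := by
  have h1 : ContDiff ℝ ∞ (fderiv ℝ f) := hf.fderiv_right (by simp)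
  exact h1.clm_comp contDiff_const

theorem slice {f : U × Y → F} {n : WithTop ℕ∞} (hf : ContDiff ℝ n f) (u : U) :
    ContDiff ℝ n fun y => f (u, y) :=
  hf.comp (contDiff_const.prodMk contDiff_id)

/-- the derivative of order `i` in the second variable -/
noncomputable def pd (i : ℕ) (f : U × Y → F) (p : U × Y) :
    ContinuousMultilinearMap ℝ (fun _ : Fin i => Y) F :=
  iteratedFDeriv ℝ i (fun y => f (p.1, y)) p.2

theorem pd_eq {f : U × Y → F} (hf : ContDiff ℝ ∞ f) (i : ℕ) (p : U × Y) :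
    pd i f p = (iteratedFDeriv ℝ i f p).compContinuousLinearMap
      (fun _ => ContinuousLinearMap.inr ℝ U Y) := by
  have h1 : (fun y => f (p.1, y)) =
      (fun q => f (q + (p.1, 0))) ∘ (ContinuousLinearMap.inr ℝ U Y) := by
    ext y
    simp
  have h2 : ContDiff ℝ ∞ (fun q : U × Y => f (q + (p.1, 0))) :=
    hf.comp (contDiff_id.add contDiff_const)
  rw [pd, h1, ContinuousLinearMap.iteratedFDeriv_comp_right _ h2 _ (by exact_mod_cast le_top),
    iteratedFDeriv_comp_add_right]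
  simp

theorem contDiff_pd {f : U × Y → F} (hf : ContDiff ℝ ∞ f) (i : ℕ) : ContDiff ℝ ∞ (pd i f) := by
  have h1 : pd i f = fun p => ContinuousMultilinearMap.compContinuousLinearMapL
      (fun _ : Fin i => ContinuousLinearMap.inr ℝ U Y) (iteratedFDeriv ℝ i f p) := by
    ext p : 1
    rw [pd_eq hf]
    rfl
  rw [h1]
  apply ContinuousLinearMap.contDiff _ |>.comp
  apply hf.iteratedFDeriv_right
  exact_mod_cast le_top

theorem flat_taylor_param [FiniteDimensional ℝ U] [FiniteDimensional ℝ Y] {A : Set U} {B : Set Y}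
    (hA : IsCompact A) (hB : IsCompact B) (hBc : Convex ℝ B) (n : ℕ) :
    ∀ {F : Type} [NormedAddCommGroup F] [NormedSpace ℝ F] (f : U × Y → F), ContDiff ℝ ∞ f →
      ∃ C : ℝ, 0 ≤ C ∧ ∀ u ∈ A, ∀ p ∈ B,
        (∀ i < n, iteratedFDeriv ℝ i (fun y => f (u, y)) p = 0) →
        ∀ q ∈ B, ‖f (u, q)‖ ≤ C * ‖q - p‖ ^ n := by
  induction n with
  | zero =>
    intro F _ _ f hf
    obtain ⟨C, hC⟩ := (hA.prod hB).exists_bound_of_continuousOn hf.continuous.continuousOn
    refine ⟨max C 0, le_max_right _ _, fun u hu p _ _ q hq => ?_⟩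
    rw [pow_zero, mul_one]
    exact (hC (u, q) ⟨hu, hq⟩).trans (le_max_left _ _)
  | succ n ih =>
    intro F _ _ f hf
    have hf1 : Differentiable ℝ f := hf.differentiable (by simp)
    obtain ⟨C, hC, h⟩ := ih (dy f) (contDiff_dy hf)
    refine ⟨C, hC, fun u hu p hp hflat q hq => ?_⟩
    have hsl : (fun y => dy f (u, y)) = fderiv ℝ (fun y => f (u, y)) := by
      ext y : 1
      exact dy_eq hf1 (u, y)
    have h0 : f (u, p) = 0 := by
      have := hflat 0 (Nat.succ_pos n)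
      have h1 := norm_iteratedFDeriv_zero (𝕜 := ℝ) (f := fun y => f (u, y)) (x := p)
      rw [this, norm_zero] at h1
      exact norm_eq_zero.1 h1.symm
    have h1 : ∀ i < n, iteratedFDeriv ℝ i (fun y => dy f (u, y)) p = 0 := by
      intro i hi
      have := hflat (i + 1) (by omega)
      rw [hsl, ← norm_eq_zero, norm_iteratedFDeriv_fderiv, this, norm_zero]
    have h3 : ∀ z ∈ B, ‖fderiv ℝ (fun y => f (u, y)) z‖ ≤ C * ‖z - p‖ ^ n := by
      intro z hz
      have := h u hu p hp h1 z hz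
      rwa [dy_eq hf1 (u, z)] at this
    have h2 := mvt_pow ((slice hf u).differentiable (by simp)) hBc hp hC h3 q hq
    simpa [h0] using h2

end defs

variable {U Y F : Type} [NormedAddCommGroup U] [NormedSpace ℝ U] [FiniteDimensional ℝ U]
  [NormedAddCommGroup Y] [NormedSpace ℝ Y] [FiniteDimensional ℝ Y]
  [NormedAddCommGroup F] [NormedSpace ℝ F]

/-- the points where the derivatives in the second variable of the orders `1, …, q` vanish -/
theorem dim_flat_le {f : U × Y → F} (hf : ContDiff ℝ ∞ f) (Z : Set U) (q : ℕ) :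
    dimH (f '' {p | p.1 ∈ Z ∧ ∀ i, 1 ≤ i → i ≤ q → pd i f p = 0}) ≤
      dimH Z + (finrank ℝ Y : ℝ≥0∞) / ((q + 1 : ℕ) : ℝ≥0∞) := by
  haveI : ProperSpace U := FiniteDimensional.proper ℝ U
  haveI : ProperSpace Y := FiniteDimensional.proper ℝ Y
  refine dimH_image_le_of_local fun p₀ _ => ?_
  set A : Set U := Metric.closedBall p₀.1 1 with hA
  set B : Set Y := Metric.closedBall p₀.2 1 with hB
  have hAc : IsCompact A := isCompact_closedBall _ _
  have hBc : IsCompact B := isCompact_closedBall _ _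
  refine ⟨A ×ˢ B, prod_mem_nhds (Metric.closedBall_mem_nhds _ one_pos)
    (Metric.closedBall_mem_nhds _ one_pos), ?_⟩
  have hfd : Differentiable ℝ f := hf.differentiable (by simp)
  obtain ⟨C, hC, hflat⟩ := flat_taylor_param hAc hBc (convex_closedBall _ _) q (dy f)
    (contDiff_dy hf)
  obtain ⟨K, hK⟩ := (hAc.prod hBc).exists_bound_of_continuousOn
    (hf.continuous_fderiv (by simp)).continuousOn
  have hK0 : 0 ≤ K := (norm_nonneg _).trans
    (hK (p₀.1, p₀.2) ⟨Metric.mem_closedBall_self zero_le_one, Metric.mem_closedBall_self zero_le_one⟩)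
  have hcv : Convex ℝ (A ×ˢ B) := (convex_closedBall _ _).prod (convex_closedBall _ _)
  set m := finrank ℝ Y with hm
  set e : Y ≃L[ℝ] (Fin m → ℝ) := (ContinuousLinearEquiv.ofFinrankEq (by simp [hm])) with he
  set S : Set (U × Y) := {p | p.1 ∈ Z ∧ ∀ i, 1 ≤ i → i ≤ q → pd i f p = 0} ∩ A ×ˢ B with hS
  set T : Set (U × (Fin m → ℝ)) := {p | (p.1, e.symm p.2) ∈ S} with hT
  have himg : f '' S = (fun p : U × (Fin m → ℝ) => f (p.1, e.symm p.2)) '' T := by
    ext x
    constructor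
    · rintro ⟨p, hp, rfl⟩
      refine ⟨(p.1, e p.2), ?_, ?_⟩
      · rw [hT, mem_ofPred_eq, e.symm_apply_apply]; exact hp
      · simp only [e.symm_apply_apply]
    · rintro ⟨p, hp, rfl⟩
      exact ⟨_, hp, rfl⟩
  rw [himg]
  -- the basic estimate
  have hest : ∀ p ∈ S, ∀ p' ∈ S, dist (f p) (f p') ≤ (K + C) * (dist p.1 p'.1 + dist p.2 p'.2 ^ (q + 1)) := by
    rintro ⟨u, y⟩ ⟨-, hu, hy⟩ ⟨u', y'⟩ ⟨⟨-, hz⟩, hu', hy'⟩
    have h1 : ‖f (u, y) - f (u', y)‖ ≤ K * ‖u - u'‖ := by
      have := hcv.norm_image_sub_le_of_norm_fderiv_le (𝕜 := ℝ) (f := f) (fun z _ => hfd z)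
        (fun z hz => hK z hz) (x := (u', y)) (y := (u, y)) ⟨hu', hy⟩ ⟨hu, hy⟩
      simpa using this
    have h2 : ‖f (u', y) - f (u', y')‖ ≤ C * ‖y - y'‖ ^ (q + 1) := by
      have h3 : ∀ i < q, iteratedFDeriv ℝ i (fun y => dy f (u', y)) y' = 0 := by
        intro i hi
        have hsl : (fun y => dy f (u', y)) = fderiv ℝ (fun y => f (u', y)) := by
          ext y : 1
          exact dy_eq hfd (u', y)
        have h4 := hz (i + 1) (by omega) (by omega)
        rw [pd] at h4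
        rw [hsl, ← norm_eq_zero, norm_iteratedFDeriv_fderiv]
        simp only at h4
        rw [h4, norm_zero]
      have h5 : ∀ z ∈ B, ‖fderiv ℝ (fun y => f (u', y)) z‖ ≤ C * ‖z - y'‖ ^ q := by
        intro z hz
        have := hflat u' hu' y' hy' h3 z hz
        rwa [dy_eq hfd (u', z)] at this
      exact mvt_pow ((slice hf u').differentiable (by simp)) (convex_closedBall _ _) hy' hC h5 y hy
    calc dist (f (u, y)) (f (u', y')) ≤ dist (f (u, y)) (f (u', y)) + dist (f (u', y)) (f (u', y')) :=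
          dist_triangle _ _ _
      _ ≤ K * ‖u - u'‖ + C * ‖y - y'‖ ^ (q + 1) := by
          rw [dist_eq_norm, dist_eq_norm]; exact add_le_add h1 h2
      _ ≤ (K + C) * (dist (u, y).1 (u', y').1 + dist (u, y).2 (u', y').2 ^ (q + 1)) := by
          simp only [dist_eq_norm]
          have a1 := norm_nonneg (u - u')
          have a2 : 0 ≤ ‖y - y'‖ ^ (q + 1) := by positivity
          nlinarith [mul_nonneg hK0 a2, mul_nonneg hC a1]
  set c : ℝ := ‖(e.symm : (Fin m → ℝ) →L[ℝ] Y)‖ with hc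
  have hc0 : 0 ≤ c := norm_nonneg _
  have hce : ∀ z z' : Fin m → ℝ, dist (e.symm z) (e.symm z') ≤ c * dist z z' := by
    intro z z'
    rw [dist_eq_norm, dist_eq_norm, ← map_sub]
    exact (e.symm : (Fin m → ℝ) →L[ℝ] Y).le_opNorm _
  refine dimH_image_le_add m (q + 1) (by omega) Z T (fun p hp => hp.1.1)
    (‖(e : Y →L[ℝ] (Fin m → ℝ))‖ * (‖p₀.2‖ + 1)) ?_ _ ((K + C) * (1 + c ^ (q + 1))) ?_
  · intro p hp i
    have h1 : ‖e.symm p.2‖ ≤ ‖p₀.2‖ + 1 := by
      have h2 : e.symm p.2 ∈ B := hp.2.2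
      rw [hB, Metric.mem_closedBall, dist_eq_norm] at h2
      calc ‖e.symm p.2‖ = ‖(e.symm p.2 - p₀.2) + p₀.2‖ := by rw [sub_add_cancel]
        _ ≤ ‖e.symm p.2 - p₀.2‖ + ‖p₀.2‖ := norm_add_le _ _
        _ ≤ ‖p₀.2‖ + 1 := by linarith
    calc |p.2 i| = ‖p.2 i‖ := (Real.norm_eq_abs _).symm
      _ ≤ ‖p.2‖ := norm_le_pi_norm _ _
      _ = ‖(e : Y →L[ℝ] (Fin m → ℝ)) (e.symm p.2)‖ := by simp
      _ ≤ ‖(e : Y →L[ℝ] (Fin m → ℝ))‖ * ‖e.symm p.2‖ := ContinuousLinearMap.le_opNorm _ _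
      _ ≤ _ := by gcongr
  · intro p hp p' hp'
    refine (hest _ hp _ hp').trans ?_
    have h1 : dist (e.symm p.2) (e.symm p'.2) ^ (q + 1) ≤ c ^ (q + 1) * dist p.2 p'.2 ^ (q + 1) := by
      rw [← mul_pow]
      exact pow_le_pow_left₀ dist_nonneg (hce _ _) _
    have h2 : 0 ≤ dist p.1 p'.1 := dist_nonneg
    have h3 : 0 ≤ dist p.2 p'.2 ^ (q + 1) := by positivity
    have h4 : 0 ≤ c ^ (q + 1) := by positivity
    rw [mul_assoc]
    apply mul_le_mul_of_nonneg_left _ (by positivity)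
    simp only
    nlinarith [mul_nonneg h4 h2]

/-- the points where all derivatives in the second variable vanish -/
theorem dim_flat {f : U × Y → F} (hf : ContDiff ℝ ∞ f) (Z : Set U) :
    dimH (f '' {p | p.1 ∈ Z ∧ ∀ i, 1 ≤ i → pd i f p = 0}) ≤ dimH Z := by
  have key : ∀ q : ℕ, dimH (f '' {p | p.1 ∈ Z ∧ ∀ i, 1 ≤ i → pd i f p = 0}) ≤
      dimH Z + (finrank ℝ Y : ℝ≥0∞) / ((q + 1 : ℕ) : ℝ≥0∞) := by
    intro q
    refine (dimH_mono (image_mono ?_)).trans (dim_flat_le hf Z q)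
    rintro p ⟨hp1, hp2⟩
    exact ⟨hp1, fun i hi _ => hp2 i hi⟩
  have ht : Tendsto (fun q : ℕ => dimH Z + (finrank ℝ Y : ℝ≥0∞) / ((q + 1 : ℕ) : ℝ≥0∞)) atTop
      (𝓝 (dimH Z + (finrank ℝ Y : ℝ≥0∞) / ⊤)) :=
    tendsto_const_nhds.add (ENNReal.Tendsto.const_div
      (ENNReal.tendsto_nat_nhds_top.comp (tendsto_add_atTop_nat 1)) (Or.inr (by simp)))
  rw [ENNReal.div_top, add_zero] at ht
  exact ge_of_tendsto' ht key

theorem dy_comp_param {Y' : Submodule ℝ Y} {f : U × Y → F} (hf : ContDiff ℝ ∞ f)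
    {c : U × Y' → Y} (hc : ContDiff ℝ ∞ c) (u : U) (z : Y') (h : dy f (u, c (u, z)) = 0) :
    dy (fun q : U × Y' => f (q.1, c q)) (u, z) = 0 := by
  have h1 : ContDiff ℝ ∞ (fun q : U × Y' => f (q.1, c q)) := hf.comp (contDiff_fst.prodMk hc)
  rw [dy_eq (h1.differentiable (by simp))]
  rw [dy_eq (hf.differentiable (by simp))] at h
  have h2 : HasFDerivAt (fun y => f (u, y)) (0 : Y →L[ℝ] F) (c (u, z)) := by
    rw [← h]
    exact ((slice hf u).differentiable (by simp) _).hasFDerivAt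
  have h3 : HasFDerivAt (fun z : Y' => c (u, z)) (fderiv ℝ (fun z : Y' => c (u, z)) z) z :=
    ((slice hc u).differentiable (by simp) _).hasFDerivAt
  have h4 := (h2.comp z h3).fderiv
  rw [ContinuousLinearMap.zero_comp] at h4
  exact h4

/-- **Values of rank zero with a fractal parameter**: the values of `f` at the points `(u, y)` with
`u ∈ Z` at which the derivative in `y` vanishes form a set of dimension at most that of `Z`. -/
theorem dim_rank0 (m : ℕ) : ∀ {Y : Type} [NormedAddCommGroup Y] [NormedSpace ℝ Y]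
    [FiniteDimensional ℝ Y], finrank ℝ Y ≤ m → ∀ (f : U × Y → F), ContDiff ℝ ∞ f → ∀ Z : Set U,
    dimH (f '' {p | p.1 ∈ Z ∧ dy f p = 0}) ≤ dimH Z := by
  haveI : ProperSpace U := FiniteDimensional.proper ℝ U
  induction m with
  | zero =>
    intro Y _ _ _ hm f hf Z
    haveI : Subsingleton Y := finrank_zero_iff.1 (Nat.le_zero.1 hm)
    have h1 : f '' {p | p.1 ∈ Z ∧ dy f p = 0} ⊆ (fun u => f (u, 0)) '' Z := by
      rintro _ ⟨⟨u, y⟩, ⟨hu, -⟩, rfl⟩
      refine ⟨u, hu, ?_⟩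
      simp only
      rw [Subsingleton.elim y 0]
    refine (dimH_mono h1).trans ?_
    have h2 : ContDiff ℝ 1 (fun u : U => f (u, 0)) :=
      (hf.comp (contDiff_id.prodMk contDiff_const)).of_le (by simp)
    refine dimH_image_le_of_locally_lipschitzOn fun x _ => ?_
    obtain ⟨K, t, ht, hK⟩ := h2.contDiffAt.exists_lipschitzOnWith (x := x)
    exact ⟨K, t, mem_nhdsWithin_of_mem_nhds ht, hK⟩
  | succ m ih =>
    intro Y _ _ _ hm f hf Z
    haveI : ProperSpace Y := FiniteDimensional.proper ℝ Y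
    have hfd : Differentiable ℝ f := hf.differentiable (by simp)
    set S : ℕ → Set (U × Y) := fun j => {p | p.1 ∈ Z ∧ ∀ i, 1 ≤ i → i ≤ j → pd i f p = 0} with hS
    have hpd1 : ∀ p, pd 1 f p = 0 ↔ dy f p = 0 := by
      intro p
      rw [← norm_eq_zero, pd, norm_iteratedFDeriv_one, norm_eq_zero, dy_eq hfd]
    have hS1 : ∀ j, 1 ≤ j → ∀ x ∈ S j, dy f x = 0 := by
      intro j hj x hx
      exact (hpd1 x).1 (hx.2 1 le_rfl hj)
    have hstep : ∀ j, 1 ≤ j → dimH (f '' (S j \ S (j + 1))) ≤ dimH Z := by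
      intro j hj
      refine dimH_image_le_of_local fun p hp => ?_
      have hne : pd (j + 1) f p ≠ 0 := by
        intro h0
        apply hp.2
        refine ⟨hp.1.1, fun i hi1 hi2 => ?_⟩
        rcases Nat.lt_or_ge i (j + 1) with h | h
        · exact hp.1.2 i hi1 (by omega)
        · have : i = j + 1 := le_antisymm hi2 h
          rw [this]; exact h0
      obtain ⟨v, hv⟩ : ∃ v, pd (j + 1) f p v ≠ 0 := by
        by_contra hcon
        push Not at hcon
        exact hne (ContinuousMultilinearMap.ext hcon)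
      rw [pd, iteratedFDeriv_succ_apply_left] at hv
      obtain ⟨π, hπ⟩ := SeparatingDual.exists_ne_zero (R := ℝ) hv
      set T : (ContinuousMultilinearMap ℝ (fun _ : Fin j => Y) F) →L[ℝ] F :=
        ContinuousMultilinearMap.apply ℝ (fun _ : Fin j => Y) F (Fin.tail v) with hT
      set w : U × Y → ℝ := fun q => (π.comp T) (pd j f q) with hw
      have hwc : ContDiff ℝ ∞ w := (π.comp T).contDiff.comp (contDiff_pd hf j)
      have hw0 : ∀ q ∈ S j, w q = 0 := by
        intro q hq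
        rw [hw]
        simp only
        rw [hq.2 j hj le_rfl, map_zero]
      have hwd : dy w p ≠ 0 := by
        intro h0
        rw [dy_eq (hwc.differentiable (by simp))] at h0
        have h2 : ContDiff ℝ ∞ (iteratedFDeriv ℝ j (fun y => f (p.1, y))) := by
          apply (slice hf p.1).iteratedFDeriv_right
          exact_mod_cast le_top
        have h1 : HasFDerivAt (fun y => w (p.1, y))
            ((π.comp T).comp (fderiv ℝ (iteratedFDeriv ℝ j (fun y => f (p.1, y))) p.2)) p.2 :=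
          (π.comp T).hasFDerivAt.comp p.2 ((h2.differentiable (by simp) p.2).hasFDerivAt)
        rw [h1.fderiv] at h0
        exact hπ (congrArg (fun A : Y →L[ℝ] ℝ => A (v 0)) h0)
      obtain ⟨Y', c, hY', hc, hcp⟩ := exists_param hwc p hwd
      refine ⟨_, hcp, ?_⟩
      have h1 := ih (Y := Y') (by omega) (fun q => f (q.1, c q)) (hf.comp (contDiff_fst.prodMk hc)) Z
      refine le_trans (dimH_mono ?_) h1
      rintro _ ⟨⟨u, y⟩, ⟨hq1, hq2⟩, rfl⟩
      obtain ⟨z, hz⟩ := hq2 (hw0 _ hq1.1)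
      simp only at hz
      refine ⟨(u, z), ⟨hq1.1.1, ?_⟩, ?_⟩
      · apply dy_comp_param hf hc
        rw [hz]
        exact hS1 j hj _ hq1.1
      · simp only
        rw [hz]
    have hcov : f '' {p | p.1 ∈ Z ∧ dy f p = 0} ⊆
        f '' {p | p.1 ∈ Z ∧ ∀ i, 1 ≤ i → pd i f p = 0} ∪
          ⋃ j : ℕ, f '' (S (j + 1) \ S (j + 2)) := by
      rintro _ ⟨x, ⟨hxZ, hx⟩, rfl⟩
      by_cases h : ∀ i, 1 ≤ i → pd i f x = 0
      · exact Or.inl ⟨x, ⟨hxZ, h⟩, rfl⟩
      · right
        classical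
        push Not at h
        set i := Nat.find h with hi
        obtain ⟨hi1, hi2⟩ := Nat.find_spec h
        have hne1 : i ≠ 1 := by
          intro h1
          apply hi2
          rw [← hi, h1, hpd1]
          exact hx
        refine mem_iUnion.2 ⟨i - 2, x, ⟨⟨hxZ, ?_⟩, ?_⟩, rfl⟩
        · intro k hk1 hk2
          by_contra h3
          exact Nat.find_min h (m := k) (by omega) ⟨hk1, h3⟩
        · intro h3
          exact hi2 (h3.2 i hi1 (by omega))
    refine (dimH_mono hcov).trans ?_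
    rw [dimH_union, dimH_iUnion]
    exact max_le (dim_flat hf Z) (iSup_le fun j => hstep (j + 1) (by omega))

end Pool.Agent.Zk23.KKRank
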