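import Pool.Agent.Zk23.KKRank

/-!
# A Sard theorem with a fractal constraint
-/

set_option autoImplicit false

open Set Filter Topology Module MeasureTheory
open scoped ContDiff ENNReal

namespace Pool.Agent.Zk23.KKSard

open Pool.Agent.Zk23.KKInv Pool.Agent.Zk23.KKCov Pool.Agent.Zk23.KKRank
open Pool.Agent.H664.Sard (dimH_image_le_of_local)

theorem dimH_prod_univ_le {U V : Type} [NormedAddCommGroup U] [NormedSpace ℝ U]
    [NormedAddCommGroup V] [NormedSpace ℝ V] [FiniteDimensional ℝ V] (Z : Set U) :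
    dimH (Z ×ˢ (univ : Set V)) ≤ dimH Z + (finrank ℝ V : ℝ≥0∞) := by
  set m := finrank ℝ V with hm
  set e : V ≃L[ℝ] (Fin m → ℝ) := (ContinuousLinearEquiv.ofFinrankEq (by simp [hm])) with he
  set c : ℝ := ‖(e.symm : (Fin m → ℝ) →L[ℝ] V)‖ with hc
  have hc0 : 0 ≤ c := norm_nonneg _
  have hce : ∀ z z' : Fin m → ℝ, dist (e.symm z) (e.symm z') ≤ c * dist z z' := by
    intro z z'
    rw [dist_eq_norm, dist_eq_norm, ← map_sub]
    exact (e.symm : (Fin m → ℝ) →L[ℝ] V).le_opNorm _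
  have h1 : Z ×ˢ (univ : Set V) ⊆ ⋃ k : ℕ, (fun p : U × (Fin m → ℝ) => (p.1, e.symm p.2)) ''
      {p | p.1 ∈ Z ∧ ∀ i, |p.2 i| ≤ k} := by
    rintro ⟨u, v⟩ ⟨hu, -⟩
    obtain ⟨k, hk⟩ := exists_nat_ge ‖e v‖
    refine mem_iUnion.2 ⟨k, (u, e v), ⟨hu, fun i => ?_⟩, ?_⟩
    · exact ((Real.norm_eq_abs _).symm.le.trans (norm_le_pi_norm (e v) i)).trans hk
    · simp
  refine (dimH_mono h1).trans ?_
  rw [dimH_iUnion]
  refine iSup_le fun k => ?_
  have h2 := dimH_image_le_add m 1 le_rfl Z {p : U × (Fin m → ℝ) | p.1 ∈ Z ∧ ∀ i, |p.2 i| ≤ k}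
    (fun p hp => hp.1) k (fun p hp => hp.2) (fun p : U × (Fin m → ℝ) => (p.1, e.symm p.2)) (1 + c) ?_
  · simpa using h2
  · rintro ⟨u, z⟩ - ⟨u', z'⟩ -
    rw [Prod.dist_eq]
    simp only [pow_one]
    have h3 : 0 ≤ dist u u' := dist_nonneg
    have h4 : 0 ≤ dist z z' := dist_nonneg
    apply max_le
    · nlinarith [mul_nonneg hc0 h3, mul_nonneg hc0 h4]
    · nlinarith [hce z z', mul_nonneg hc0 h3, mul_nonneg hc0 h4]

lemma exists_proj {E : Type} [NormedAddCommGroup E] [NormedSpace ℝ E] [FiniteDimensional ℝ E]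
    (S : Submodule ℝ E) : ∃ P : E →L[ℝ] S, ∀ z : S, P z = z := by
  obtain ⟨g, hg⟩ := LinearMap.exists_leftInverse_of_injective S.subtype (Submodule.ker_subtype _)
  refine ⟨LinearMap.toContinuousLinearMap g, fun z => ?_⟩
  have := congrArg (fun A : S →ₗ[ℝ] S => A z) hg
  exact this

lemma inj_of_surj {E S : Type} [AddCommGroup E] [Module ℝ E] [FiniteDimensional ℝ E]
    [AddCommGroup S] [Module ℝ S] [FiniteDimensional ℝ S] (R : Submodule ℝ E) (p : E →ₗ[ℝ] S)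
    (hs : ∀ s, ∃ r ∈ R, p r = s) (hd : finrank ℝ R = finrank ℝ S) :
    ∀ r ∈ R, p r = 0 → r = 0 := by
  intro r hr h0
  have h1 : Function.Surjective (p.comp R.subtype) := by
    intro s
    obtain ⟨r, hr, h⟩ := hs s
    exact ⟨⟨r, hr⟩, h⟩
  have h2 := (LinearMap.injective_iff_surjective_of_finrank_eq_finrank hd).2 h1
  have h3 : (⟨r, hr⟩ : R) = 0 := by
    apply h2
    rw [map_zero]
    exact h0
  exact congrArg Subtype.val h3

section main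

variable {N Q F : Type} [NormedAddCommGroup N] [NormedSpace ℝ N] [FiniteDimensional ℝ N]
  [NormedAddCommGroup Q] [NormedSpace ℝ Q] [FiniteDimensional ℝ Q]
  [NormedAddCommGroup F] [NormedSpace ℝ F] [FiniteDimensional ℝ F]

/-- the image under `Dρ` of the kernel of `Dπ` -/
noncomputable def vert (π : N → Q) (ρ : N → F) (x : N) : Submodule ℝ F :=
  (LinearMap.ker (fderiv ℝ π x : N →ₗ[ℝ] Q)).map (fderiv ℝ ρ x : N →ₗ[ℝ] F)

theorem sard_local {π : N → Q} {ρ : N → F} (hπ : ContDiff ℝ ∞ π) (hρ : ContDiff ℝ ∞ ρ)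
    (Z : Set Q) (j w : ℕ) (x₀ : N)
    (hj : finrank ℝ (LinearMap.range (fderiv ℝ π x₀ : N →ₗ[ℝ] Q)) = j)
    (hw : finrank ℝ (vert π ρ x₀) = w) :
    ∃ W ∈ 𝓝 x₀, dimH (ρ '' ({x | π x ∈ Z ∧
      finrank ℝ (LinearMap.range (fderiv ℝ π x : N →ₗ[ℝ] Q)) = j ∧
      finrank ℝ (vert π ρ x) = w} ∩ W)) ≤ dimH Z + w := by
  set U : Submodule ℝ Q := LinearMap.range (fderiv ℝ π x₀ : N →ₗ[ℝ] Q) with hU
  set V : Submodule ℝ F := vert π ρ x₀ with hV
  set Y : Submodule ℝ N := LinearMap.ker (fderiv ℝ π x₀ : N →ₗ[ℝ] Q) ⊓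
    LinearMap.ker (fderiv ℝ ρ x₀ : N →ₗ[ℝ] F) with hY
  obtain ⟨p, hp⟩ := exists_proj U
  obtain ⟨q, hq⟩ := exists_proj V
  obtain ⟨L, hL⟩ := exists_proj Y
  set Θ : N → (U × V) × Y := fun x => ((p (π x), q (ρ x)), L x) with hΘd
  have hΘ : ContDiff ℝ ∞ Θ :=
    ((p.contDiff.comp hπ).prodMk (q.contDiff.comp hρ)).prodMk L.contDiff
  have hπd : Differentiable ℝ π := hπ.differentiable (by simp)
  have hρd : Differentiable ℝ ρ := hρ.differentiable (by simp)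
  have hder : ∀ x, fderiv ℝ Θ x =
      ((p.comp (fderiv ℝ π x)).prod (q.comp (fderiv ℝ ρ x))).prod L := by
    intro x
    apply HasFDerivAt.fderiv
    exact ((p.hasFDerivAt.comp x (hπd x).hasFDerivAt).prodMk
      (q.hasFDerivAt.comp x (hρd x).hasFDerivAt)).prodMk L.hasFDerivAt
  have happ : ∀ x δ, fderiv ℝ Θ x δ = ((p (fderiv ℝ π x δ), q (fderiv ℝ ρ x δ)), L δ) := by
    intro x δ
    rw [hder x]
    rfl
  have hbij : Function.Bijective (fderiv ℝ Θ x₀) := by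
    constructor
    · rw [injective_iff_map_eq_zero]
      intro δ hδ
      rw [happ] at hδ
      simp only [Prod.mk_eq_zero] at hδ
      obtain ⟨⟨h1, h2⟩, h3⟩ := hδ
      have h4 : fderiv ℝ π x₀ δ = 0 := by
        have := hp ⟨fderiv ℝ π x₀ δ, ⟨δ, rfl⟩⟩
        simp only at this
        rw [h1] at this
        exact (congrArg Subtype.val this).symm
      have h5 : fderiv ℝ ρ x₀ δ = 0 := by
        have := hq ⟨fderiv ℝ ρ x₀ δ, ⟨δ, LinearMap.mem_ker.2 h4, rfl⟩⟩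
        simp only at this
        rw [h2] at this
        exact (congrArg Subtype.val this).symm
      have := hL ⟨δ, ⟨LinearMap.mem_ker.2 h4, LinearMap.mem_ker.2 h5⟩⟩
      simp only at this
      rw [h3] at this
      exact (congrArg Subtype.val this).symm
    · rintro ⟨⟨u, v⟩, y⟩
      obtain ⟨n₁, hn₁⟩ := u.2
      have hn₁' : fderiv ℝ π x₀ n₁ = u := hn₁
      obtain ⟨k, hk, hk2⟩ := (v - q (fderiv ℝ ρ x₀ n₁) : V).2
      have hk' : fderiv ℝ π x₀ k = 0 := hk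
      have hk2' : fderiv ℝ ρ x₀ k = ((v - q (fderiv ℝ ρ x₀ n₁) : V) : F) := hk2
      set n₂ := n₁ + k with hn₂
      set y₂ : Y := y - L n₂ with hy₂
      have hy₂π : fderiv ℝ π x₀ (y₂ : N) = 0 := y₂.2.1
      have hy₂ρ : fderiv ℝ ρ x₀ (y₂ : N) = 0 := y₂.2.2
      refine ⟨n₂ + (y₂ : N), ?_⟩
      rw [happ]
      have e1 : fderiv ℝ π x₀ (n₂ + (y₂ : N)) = u := by
        rw [map_add, hy₂π, hn₂, map_add, hk', hn₁']; simp
      have e2 : q (fderiv ℝ ρ x₀ (n₂ + (y₂ : N))) = v := by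
        rw [map_add (fderiv ℝ ρ x₀), hy₂ρ, hn₂, add_zero, map_add (fderiv ℝ ρ x₀), hk2', map_add, hq]
        abel
      have e3 : L (n₂ + (y₂ : N)) = y := by
        rw [map_add, hL, hy₂]
        abel
      rw [e1, e2, e3, hp]
  obtain ⟨Ψ, hΨ, h1, h2⟩ := local_inverse hΘ x₀ hbij
  have h3 : ∀ᶠ x in 𝓝 x₀, ∀ η, fderiv ℝ Θ x (fderiv ℝ Ψ (Θ x) η) = η := by
    filter_upwards [hΘ.continuous.continuousAt.eventually h2.eventually_nhds, h1] with x hx hx1 η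
    have h4 : (fun y => Θ (Ψ y)) =ᶠ[𝓝 (Θ x)] id := hx
    have h5 : HasFDerivAt (fun y => Θ (Ψ y)) ((fderiv ℝ Θ (Ψ (Θ x))).comp (fderiv ℝ Ψ (Θ x)))
        (Θ x) :=
      (hΘ.differentiable (by simp) (Ψ (Θ x))).hasFDerivAt.comp (Θ x)
        (hΨ.differentiable (by simp) (Θ x)).hasFDerivAt
    have h6 := h4.fderiv_eq (𝕜 := ℝ)
    rw [h5.fderiv, fderiv_id, hx1] at h6
    exact congrArg (fun A : ((U × V) × Y) →L[ℝ] ((U × V) × Y) => A η) h6
  set f : (U × V) × Y → F := fun y => ρ (Ψ y) with hf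
  have hfc : ContDiff ℝ ∞ f := hρ.comp hΨ
  have hmain := dim_rank0 (finrank ℝ Y) le_rfl f hfc ((p '' Z) ×ˢ (univ : Set V))
  have hdimZ : dimH ((p '' Z) ×ˢ (univ : Set V)) ≤ dimH Z + w := by
    refine (dimH_prod_univ_le _).trans ?_
    rw [hw]
    gcongr
    exact p.lipschitz.dimH_image_le Z
  refine ⟨_, h1.and h3, le_trans (dimH_mono ?_) (hmain.trans hdimZ)⟩
  rintro _ ⟨x, ⟨⟨hxZ, hxj, hxw⟩, hx1, hx3⟩, rfl⟩
  refine ⟨Θ x, ⟨⟨⟨π x, hxZ, rfl⟩, mem_univ _⟩, ?_⟩, ?_⟩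
  · -- `p` is injective on the range of `Dπ x`
    have hpi : ∀ δ, p (fderiv ℝ π x δ) = 0 → fderiv ℝ π x δ = 0 := by
      intro δ hδ
      refine inj_of_surj (LinearMap.range (fderiv ℝ π x : N →ₗ[ℝ] Q)) (p : Q →ₗ[ℝ] U) ?_
        (by rw [hxj, ← hj]) _ ⟨δ, rfl⟩ hδ
      intro s
      refine ⟨fderiv ℝ π x (fderiv ℝ Ψ (Θ x) ((s, 0), 0)), ⟨_, rfl⟩, ?_⟩
      have := hx3 ((s, 0), 0)
      rw [happ] at this
      simp only [Prod.mk.injEq] at this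
      exact this.1.1
    have hqi : ∀ δ, fderiv ℝ π x δ = 0 → q (fderiv ℝ ρ x δ) = 0 → fderiv ℝ ρ x δ = 0 := by
      intro δ hδ1 hδ2
      refine inj_of_surj (vert π ρ x) (q : F →ₗ[ℝ] V) ?_ (by rw [hxw, ← hw]) _
        ⟨δ, LinearMap.mem_ker.2 hδ1, rfl⟩ hδ2
      intro s
      have := hx3 ((0, s), 0)
      rw [happ] at this
      simp only [Prod.mk.injEq] at this
      exact ⟨fderiv ℝ ρ x (fderiv ℝ Ψ (Θ x) ((0, s), 0)),
        ⟨_, LinearMap.mem_ker.2 (hpi _ this.1.1), rfl⟩, this.1.2⟩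
    ext y
    have h5 : HasFDerivAt f ((fderiv ℝ ρ (Ψ (Θ x))).comp (fderiv ℝ Ψ (Θ x))) (Θ x) :=
      (hρd (Ψ (Θ x))).hasFDerivAt.comp (Θ x) (hΨ.differentiable (by simp) (Θ x)).hasFDerivAt
    rw [dy, h5.fderiv, hx1]
    simp only [ContinuousLinearMap.comp_apply, ContinuousLinearMap.inr_apply,
      zero_apply]
    have := hx3 (0, y)
    rw [happ] at this
    have h0 : ((0 : U × V), y) = ((0, 0), y) := rfl
    rw [h0] at this
    simp only [Prod.mk.injEq] at this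
    exact hqi _ (hpi _ this.1.1) this.1.2
  · simp only [hf, hx1]

/-- **A Sard theorem with a fractal constraint.** -/
theorem sard {π : N → Q} {ρ : N → F} (hπ : ContDiff ℝ ∞ π) (hρ : ContDiff ℝ ∞ ρ)
    (Z : Set Q) (w : ℕ) :
    dimH (ρ '' {x | π x ∈ Z ∧ finrank ℝ (vert π ρ x) ≤ w}) ≤ dimH Z + w := by
  haveI : ProperSpace N := FiniteDimensional.proper ℝ N
  have h1 : ρ '' {x | π x ∈ Z ∧ finrank ℝ (vert π ρ x) ≤ w} ⊆
      ⋃ a : ℕ × Fin (w + 1), ρ '' {x | π x ∈ Z ∧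
        finrank ℝ (LinearMap.range (fderiv ℝ π x : N →ₗ[ℝ] Q)) = a.1 ∧
        finrank ℝ (vert π ρ x) = a.2} := by
    rintro _ ⟨x, ⟨hx, hxw⟩, rfl⟩
    exact mem_iUnion.2 ⟨(_, ⟨finrank ℝ (vert π ρ x), Nat.lt_succ_of_le hxw⟩), x, ⟨hx, rfl, rfl⟩, rfl⟩
  refine (dimH_mono h1).trans ?_
  rw [dimH_iUnion]
  refine iSup_le fun a => ?_
  have h2 : dimH Z + ((a.2 : ℕ) : ℝ≥0∞) ≤ dimH Z + w := by
    gcongr
    exact Nat.lt_succ_iff.1 a.2.2
  refine le_trans (dimH_image_le_of_local fun x hx => ?_) h2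
  exact sard_local hπ hρ Z a.1 a.2 x hx.2.1 hx.2.2

end main

end Pool.Agent.Zk23.KKSard
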