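import Pool.Agent.Zk23.KKMorseB
import Pool.Agent.Zk23.KKSard
import Pool.Agent.Zk23.KKInvR
import Pool.Agent.Zk95.MS.Taylor

/-!
# A Sard theorem with a fractal constraint for maps of finite smoothness
-/

set_option autoImplicit false

open Set Filter Topology Metric Module MeasureTheory
open scoped ContDiff ENNReal

namespace Pool.Agent.Zk23.KKSardR

open Pool.Agent.Zk23.KKInv (dy)
open Pool.Agent.Zk23.KKRank Pool.Agent.Zk23.KKMorse
open Pool.Agent.Zk95.MS (taylor_family)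
open Pool.Agent.Zk23.KKSard (dimH_prod_univ_le exists_proj inj_of_surj vert)
open Pool.Agent.Zk23.KKInvR (local_inverse)
open Pool.Agent.H664.Sard (dimH_image_le_of_local)

theorem dim_rank0 {U Y F : Type} [NormedAddCommGroup U] [NormedSpace ℝ U] [FiniteDimensional ℝ U]
    [NormedAddCommGroup Y] [NormedSpace ℝ Y] [FiniteDimensional ℝ Y]
    [NormedAddCommGroup F] [NormedSpace ℝ F] [FiniteDimensional ℝ F] {r : ℕ} (hr : 1 ≤ r)
    (f : U × Y → F) (hf : ContDiff ℝ r f) (Z : Set U) :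
    dimH (f '' {p | p.1 ∈ Z ∧ dy f p = 0}) ≤ dimH Z + (finrank ℝ Y : ℝ≥0∞) / (r : ℝ≥0∞) := by
  haveI : ProperSpace U := FiniteDimensional.proper ℝ U
  haveI : ProperSpace Y := FiniteDimensional.proper ℝ Y
  obtain ⟨K, i1, i2, i3, κ, Φ, hκ, hΦ, h1, h2, h3⟩ := taylor_family r hr f hf
  have D : Dat r Z {p : U × Y | p.1 ∈ Z ∧ dy f p = 0} (fun p => p.1) κ (fun p => p.2) Φ := by
    refine ⟨continuous_fst, hκ, continuous_snd, hΦ, fun p hp => hp.1, ?_, ?_⟩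
    · intro p hp
      rw [dy_eq (hΦ.differentiable (by simp))]
      exact (h2 p hp.2).fderiv
    · intro p₀ _
      obtain ⟨C, hC, H⟩ := h3 p₀
      refine ⟨C * 3, 1, by positivity, one_pos, closedBall p₀ 1, closedBall_mem_nhds _ one_pos, ?_⟩
      rintro x ⟨-, hx⟩ x' ⟨-, hx'⟩ z hz
      rw [← closedBall_prod_same] at hx hx'
      refine (H x x' z hx.1 hx'.1 hx.2 hx'.2 hz).trans ?_
      rw [mul_assoc]
      apply mul_le_mul_of_nonneg_left _ hC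
      have a0 := al_nonneg r (fun p : U × Y => p.1) x x'
      have a1 := norm_nonneg (z - x.2)
      have a2 := norm_nonneg (z - x'.2)
      have b0 : ‖x.1 - x'.1‖ ≤ (al r (fun p : U × Y => p.1) x x' + ‖z - x.2‖ + ‖z - x'.2‖) ^ r := by
        rw [← al_pow r hr (fun p : U × Y => p.1)]
        exact pow_le_pow_left₀ a0 (by linarith) _
      have b1 : ‖z - x.2‖ ^ r ≤ (al r (fun p : U × Y => p.1) x x' + ‖z - x.2‖ + ‖z - x'.2‖) ^ r :=
        pow_le_pow_left₀ a1 (by linarith) _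
      have b2 : ‖z - x'.2‖ ^ r ≤ (al r (fun p : U × Y => p.1) x x' + ‖z - x.2‖ + ‖z - x'.2‖) ^ r :=
        pow_le_pow_left₀ a2 (by linarith) _
      linarith
  have h4 := morse (X := U × Y) hr (finrank ℝ Y) le_rfl _ _ _ D
  refine le_trans (dimH_mono ?_) h4
  rintro _ ⟨p, hp, rfl⟩
  exact ⟨p, hp, h1 p⟩

section main

variable {N Q F : Type} [NormedAddCommGroup N] [NormedSpace ℝ N] [FiniteDimensional ℝ N]
  [NormedAddCommGroup Q] [NormedSpace ℝ Q] [FiniteDimensional ℝ Q]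
  [NormedAddCommGroup F] [NormedSpace ℝ F] [FiniteDimensional ℝ F]

/-- the common kernel of the derivatives -/
noncomputable def kk (π : N → Q) (ρ : N → F) (x : N) : Submodule ℝ N :=
  LinearMap.ker (fderiv ℝ π x : N →ₗ[ℝ] Q) ⊓ LinearMap.ker (fderiv ℝ ρ x : N →ₗ[ℝ] F)

theorem sard_local {r : ℕ} (hr : 1 ≤ r) {π : N → Q} {ρ : N → F} (hπ : ContDiff ℝ r π)
    (hρ : ContDiff ℝ r ρ) (Z : Set Q) (j w : ℕ) (x₀ : N)
    (hj : finrank ℝ (LinearMap.range (fderiv ℝ π x₀ : N →ₗ[ℝ] Q)) = j)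
    (hw : finrank ℝ (vert π ρ x₀) = w) :
    ∃ W ∈ 𝓝 x₀, dimH (ρ '' ({x | π x ∈ Z ∧
      finrank ℝ (LinearMap.range (fderiv ℝ π x : N →ₗ[ℝ] Q)) = j ∧
      finrank ℝ (vert π ρ x) = w} ∩ W)) ≤
      dimH Z + (w + (finrank ℝ (kk π ρ x₀) : ℝ≥0∞) / (r : ℝ≥0∞)) := by
  have hn : (r : WithTop ℕ∞) ≠ 0 := by exact_mod_cast (by omega : r ≠ 0)
  set U : Submodule ℝ Q := LinearMap.range (fderiv ℝ π x₀ : N →ₗ[ℝ] Q) with hU
  set V : Submodule ℝ F := vert π ρ x₀ with hV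
  set Y : Submodule ℝ N := kk π ρ x₀ with hY
  obtain ⟨p, hp⟩ := exists_proj U
  obtain ⟨q, hq⟩ := exists_proj V
  obtain ⟨L, hL⟩ := exists_proj Y
  set Θ : N → (U × V) × Y := fun x => ((p (π x), q (ρ x)), L x) with hΘd
  have hΘ : ContDiff ℝ r Θ :=
    ((p.contDiff.comp hπ).prodMk (q.contDiff.comp hρ)).prodMk L.contDiff
  have hπd : Differentiable ℝ π := hπ.differentiable hn
  have hρd : Differentiable ℝ ρ := hρ.differentiable hn
  have hder : ∀ x, fderiv ℝ Θ x =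
      ((p.comp (fderiv ℝ π x)).prod (q.comp (fderiv ℝ ρ x))).prod L := by
    intro x
    apply HasFDerivAt.fderiv
    exact ((p.hasFDerivAt.comp x (hπd x).hasFDerivAt).prodMk
      (q.hasFDerivAt.comp x (hρd x).hasFDerivAt)).prodMk L.hasFDerivAt
  have happ : ∀ x δ, fderiv ℝ Θ x δ = ((p (fderiv ℝ π x δ), q (fderiv ℝ ρ x δ)), L δ) := by
    intro x δ
    rw [hder x]
    rfl
  have hbij : Function.Bijective (fderiv ℝ Θ x₀) := by
    constructor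
    · rw [injective_iff_map_eq_zero]
      intro δ hδ
      rw [happ] at hδ
      simp only [Prod.mk_eq_zero] at hδ
      obtain ⟨⟨h1, h2⟩, h3⟩ := hδ
      have h4 : fderiv ℝ π x₀ δ = 0 := by
        have := hp ⟨fderiv ℝ π x₀ δ, ⟨δ, rfl⟩⟩
        simp only at this
        rw [h1] at this
        exact (congrArg Subtype.val this).symm
      have h5 : fderiv ℝ ρ x₀ δ = 0 := by
        have := hq ⟨fderiv ℝ ρ x₀ δ, ⟨δ, LinearMap.mem_ker.2 h4, rfl⟩⟩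
        simp only at this
        rw [h2] at this
        exact (congrArg Subtype.val this).symm
      have := hL ⟨δ, ⟨LinearMap.mem_ker.2 h4, LinearMap.mem_ker.2 h5⟩⟩
      simp only at this
      rw [h3] at this
      exact (congrArg Subtype.val this).symm
    · rintro ⟨⟨u, v⟩, y⟩
      obtain ⟨n₁, hn₁⟩ := u.2
      have hn₁' : fderiv ℝ π x₀ n₁ = u := hn₁
      obtain ⟨k, hk, hk2⟩ := (v - q (fderiv ℝ ρ x₀ n₁) : V).2
      have hk' : fderiv ℝ π x₀ k = 0 := hk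
      have hk2' : fderiv ℝ ρ x₀ k = ((v - q (fderiv ℝ ρ x₀ n₁) : V) : F) := hk2
      set n₂ := n₁ + k with hn₂
      set y₂ : Y := y - L n₂ with hy₂
      have hy₂π : fderiv ℝ π x₀ (y₂ : N) = 0 := y₂.2.1
      have hy₂ρ : fderiv ℝ ρ x₀ (y₂ : N) = 0 := y₂.2.2
      refine ⟨n₂ + (y₂ : N), ?_⟩
      rw [happ]
      have e1 : fderiv ℝ π x₀ (n₂ + (y₂ : N)) = u := by
        rw [map_add, hy₂π, hn₂, map_add, hk', hn₁']; simp
      have e2 : q (fderiv ℝ ρ x₀ (n₂ + (y₂ : N))) = v := by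
        rw [map_add (fderiv ℝ ρ x₀), hy₂ρ, hn₂, add_zero, map_add (fderiv ℝ ρ x₀), hk2', map_add, hq]
        abel
      have e3 : L (n₂ + (y₂ : N)) = y := by
        rw [map_add, hL, hy₂]
        abel
      rw [e1, e2, e3, hp]
  obtain ⟨Ψ, hΨ, h1, h2⟩ := local_inverse hr hΘ x₀ hbij
  have h3 : ∀ᶠ x in 𝓝 x₀, ∀ η, fderiv ℝ Θ x (fderiv ℝ Ψ (Θ x) η) = η := by
    filter_upwards [hΘ.continuous.continuousAt.eventually h2.eventually_nhds, h1] with x hx hx1 η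
    have h4 : (fun y => Θ (Ψ y)) =ᶠ[𝓝 (Θ x)] id := hx
    have h5 : HasFDerivAt (fun y => Θ (Ψ y)) ((fderiv ℝ Θ (Ψ (Θ x))).comp (fderiv ℝ Ψ (Θ x)))
        (Θ x) :=
      (hΘ.differentiable hn (Ψ (Θ x))).hasFDerivAt.comp (Θ x)
        (hΨ.differentiable hn (Θ x)).hasFDerivAt
    have h6 := h4.fderiv_eq (𝕜 := ℝ)
    rw [h5.fderiv, fderiv_id, hx1] at h6
    exact congrArg (fun A : ((U × V) × Y) →L[ℝ] ((U × V) × Y) => A η) h6
  set f : (U × V) × Y → F := fun y => ρ (Ψ y) with hf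
  have hfc : ContDiff ℝ r f := hρ.comp hΨ
  have hmain := dim_rank0 hr f hfc ((p '' Z) ×ˢ (univ : Set V))
  have hdimZ : dimH ((p '' Z) ×ˢ (univ : Set V)) ≤ dimH Z + w := by
    refine (dimH_prod_univ_le _).trans ?_
    rw [hw]
    gcongr
    exact p.lipschitz.dimH_image_le Z
  refine ⟨_, h1.and h3, le_trans (dimH_mono ?_) (hmain.trans ?_)⟩
  swap
  · rw [← add_assoc]
    gcongr
  rintro _ ⟨x, ⟨⟨hxZ, hxj, hxw⟩, hx1, hx3⟩, rfl⟩
  refine ⟨Θ x, ⟨⟨⟨π x, hxZ, rfl⟩, mem_univ _⟩, ?_⟩, ?_⟩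
  · -- `p` is injective on the range of `Dπ x`
    have hpi : ∀ δ, p (fderiv ℝ π x δ) = 0 → fderiv ℝ π x δ = 0 := by
      intro δ hδ
      refine inj_of_surj (LinearMap.range (fderiv ℝ π x : N →ₗ[ℝ] Q)) (p : Q →ₗ[ℝ] U) ?_
        (by rw [hxj, ← hj]) _ ⟨δ, rfl⟩ hδ
      intro s
      refine ⟨fderiv ℝ π x (fderiv ℝ Ψ (Θ x) ((s, 0), 0)), ⟨_, rfl⟩, ?_⟩
      have := hx3 ((s, 0), 0)
      rw [happ] at this
      simp only [Prod.mk.injEq] at this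
      exact this.1.1
    have hqi : ∀ δ, fderiv ℝ π x δ = 0 → q (fderiv ℝ ρ x δ) = 0 → fderiv ℝ ρ x δ = 0 := by
      intro δ hδ1 hδ2
      refine inj_of_surj (vert π ρ x) (q : F →ₗ[ℝ] V) ?_ (by rw [hxw, ← hw]) _
        ⟨δ, LinearMap.mem_ker.2 hδ1, rfl⟩ hδ2
      intro s
      have := hx3 ((0, s), 0)
      rw [happ] at this
      simp only [Prod.mk.injEq] at this
      exact ⟨fderiv ℝ ρ x (fderiv ℝ Ψ (Θ x) ((0, s), 0)),
        ⟨_, LinearMap.mem_ker.2 (hpi _ this.1.1), rfl⟩, this.1.2⟩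
    ext y
    have h5 : HasFDerivAt f ((fderiv ℝ ρ (Ψ (Θ x))).comp (fderiv ℝ Ψ (Θ x))) (Θ x) :=
      (hρd (Ψ (Θ x))).hasFDerivAt.comp (Θ x) (hΨ.differentiable hn (Θ x)).hasFDerivAt
    rw [dy, h5.fderiv, hx1]
    simp only [ContinuousLinearMap.comp_apply, ContinuousLinearMap.inr_apply,
      zero_apply]
    have := hx3 (0, y)
    rw [happ] at this
    have h0 : ((0 : U × V), y) = ((0, 0), y) := rfl
    rw [h0] at this
    simp only [Prod.mk.injEq] at this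
    exact hqi _ (hpi _ this.1.1) this.1.2
  · simp only [hf, hx1]

/-- **A Sard theorem with a fractal constraint, for maps of class `C^r`.** -/
theorem sard {r : ℕ} (hr : 1 ≤ r) {π : N → Q} {ρ : N → F} (hπ : ContDiff ℝ r π)
    (hρ : ContDiff ℝ r ρ) (Z : Set Q) (w μ : ℕ) :
    dimH (ρ '' {x | π x ∈ Z ∧ finrank ℝ (vert π ρ x) = w ∧ finrank ℝ (kk π ρ x) = μ}) ≤
      dimH Z + (w + (μ : ℝ≥0∞) / (r : ℝ≥0∞)) := by
  haveI : ProperSpace N := FiniteDimensional.proper ℝ N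
  have h1 : ρ '' {x | π x ∈ Z ∧ finrank ℝ (vert π ρ x) = w ∧ finrank ℝ (kk π ρ x) = μ} ⊆
      ⋃ j : ℕ, ρ '' {x | π x ∈ Z ∧
        finrank ℝ (LinearMap.range (fderiv ℝ π x : N →ₗ[ℝ] Q)) = j ∧
        finrank ℝ (vert π ρ x) = w ∧ finrank ℝ (kk π ρ x) = μ} := by
    rintro _ ⟨x, ⟨hx, hxw, hxm⟩, rfl⟩
    exact mem_iUnion.2 ⟨_, x, ⟨hx, rfl, hxw, hxm⟩, rfl⟩
  refine (dimH_mono h1).trans ?_
  rw [dimH_iUnion]
  refine iSup_le fun j => ?_
  refine dimH_image_le_of_local fun x hx => ?_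
  obtain ⟨W, hW, h2⟩ := sard_local hr hπ hρ Z j w x hx.2.1 hx.2.2.1
  refine ⟨W, hW, ?_⟩
  rw [hx.2.2.2] at h2
  refine (dimH_mono (image_mono ?_)).trans h2
  rintro y ⟨⟨hy1, hy2, hy3, -⟩, hy4⟩
  exact ⟨⟨hy1, hy2, hy3⟩, hy4⟩

end main

end Pool.Agent.Zk23.KKSardR
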