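import Pool.Agent.Zk23.APSq
import Pool.Agent.Zk63.AKL2
import Pool.Agent.Zk23.KKDigit

/-!
# Sets of integers with few digits: squares modulo a product of primes
-/

set_option autoImplicit false

namespace Pool.Agent.Zk23.KKSq

open Finset
open Pool.Agent.Zk23.APSq (card_key card_sq)

theorem int_classes (T : Finset ℕ) (hT : ∀ p ∈ T, p.Prime ∧ p ≠ 2) (k : ℕ) :
    ∃ Y : ℕ → ℤ, ∀ j < k, ((range (∏ p ∈ T, p)).image fun v : ℕ => Y v + (j : ℤ) * (v : ℤ)).card ≤
      k * ∏ p ∈ T, ((p + 1) / 2) := by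
  classical
  set Q : ℕ := ∏ p ∈ T, p with hQ
  have hQpos : 0 < Q := prod_pos fun p hp => (hT p hp).1.pos
  have hQ0 : (0 : ℤ) < (Q : ℤ) := by exact_mod_cast hQpos
  have hdvd : ∀ p ∈ T, p ∣ Q := fun p hp => dvd_prod_of_mem _ hp
  have hodd : Q % 2 = 1 := by
    rw [← Nat.odd_iff]
    rw [hQ]
    refine Finset.prod_induction _ Odd (fun a b => Odd.mul) odd_one fun p hp => ?_
    exact (hT p hp).1.odd_of_ne_two (hT p hp).2
  set u : ℕ := (Q + 1) / 2 with hu
  have hu2 : 2 * u = Q + 1 := by omega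
  let Y : ℕ → ℤ := fun v => (((v * u) ^ 2 : ℕ) : ℤ) % (Q : ℤ)
  refine ⟨Y, fun j hj => ?_⟩
  · have hYv : ∀ p ∈ T, ∀ v : ℕ, ((Y v + (j : ℤ) * (v : ℤ) : ℤ) : ZMod p) =
        (((v * u + j : ℕ)) : ZMod p) ^ 2 - (j : ZMod p) ^ 2 := by
      intro p hp v
      have h1 : ((Y v : ℤ) : ZMod p) = (((v * u) ^ 2 : ℕ) : ZMod p) := by
        have h2 : (((Y v : ℤ)) : ZMod p) = (((((v * u) ^ 2 : ℕ) : ℤ)) : ZMod p) := by
          rw [ZMod.intCast_eq_intCast_iff_dvd_sub]
          have h3 : (Q : ℤ) ∣ ((((v * u) ^ 2 : ℕ) : ℤ)) - Y v := Int.dvd_self_sub_emod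
          exact dvd_trans (by exact_mod_cast hdvd p hp) h3
        rw [h2]
        push_cast
        rfl
      have h4 : (2 : ZMod p) * (u : ZMod p) = 1 := by
        have h5 : ((2 * u : ℕ) : ZMod p) = ((Q + 1 : ℕ) : ZMod p) := by rw [hu2]
        push_cast at h5
        rw [h5, (ZMod.natCast_eq_zero_iff Q p).2 (hdvd p hp), zero_add]
      push_cast at h1 ⊢
      rw [h1]
      linear_combination (-(j : ZMod p) * v) * h4
    refine (card_key (range Q) _ (fun v : ℕ => (((Y v + (j : ℤ) * (v : ℤ)) / (Q : ℤ)).toNat,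
      fun p : T => (((v * u + j : ℕ)) : ZMod p.1) ^ 2))
      ((range k) ×ˢ Fintype.piFinset fun p : T =>
        (range p.1).image fun n : ℕ => ((n : ZMod p.1)) ^ 2) ?_ ?_).trans ?_
    · intro v hv
      rw [mem_range] at hv
      rw [mem_product]
      have hY0 : 0 ≤ Y v := Int.emod_nonneg _ hQ0.ne'
      have hY1 : Y v < Q := Int.emod_lt_of_pos _ hQ0
      have hv' : (v : ℤ) < Q := by exact_mod_cast hv
      constructor
      · rw [mem_range]
        have h1 : (Y v + (j : ℤ) * (v : ℤ)) / (Q : ℤ) < k := by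
          apply Int.ediv_lt_of_lt_mul hQ0
          have h2 : (j : ℤ) * v ≤ j * Q := mul_le_mul_of_nonneg_left hv'.le (by positivity)
          have h3 : ((j : ℤ) + 1) * Q ≤ k * Q := by
            refine mul_le_mul_of_nonneg_right ?_ hQ0.le
            exact_mod_cast hj
          linarith
        have h4 : 0 ≤ (Y v + (j : ℤ) * (v : ℤ)) / (Q : ℤ) := Int.ediv_nonneg (by positivity) hQ0.le
        omega
      · rw [Fintype.mem_piFinset]
        intro p
        have hp := (hT p.1 p.2).1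
        have : NeZero p.1 := ⟨hp.pos.ne'⟩
        refine mem_image.2 ⟨(((v * u + j : ℕ)) : ZMod p.1).val, mem_range.2 (ZMod.val_lt _), ?_⟩
        rw [ZMod.natCast_zmod_val]
    · intro v hv v' hv' hkey
      have h1 := (Prod.ext_iff.1 hkey).1
      have h2 := (Prod.ext_iff.1 hkey).2
      simp only at h1 h2
      have hnn : ∀ v : ℕ, 0 ≤ (Y v + (j : ℤ) * (v : ℤ)) / (Q : ℤ) := fun v =>
        Int.ediv_nonneg (add_nonneg (Int.emod_nonneg _ hQ0.ne') (by positivity)) hQ0.le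
      have h3 : (Y v + (j : ℤ) * (v : ℤ)) / (Q : ℤ) = (Y v' + (j : ℤ) * (v' : ℤ)) / (Q : ℤ) := by
        have a := hnn v
        have b := hnn v'
        omega
      have h4 : (Q : ℤ) ∣ (Y v + (j : ℤ) * (v : ℤ)) - (Y v' + (j : ℤ) * (v' : ℤ)) := by
        rw [hQ]
        push_cast
        refine Finset.prod_dvd_of_coprime ?_ ?_
        · intro p hp q hq hpq
          have := (Nat.coprime_primes (hT p hp).1 (hT q hq).1).2 hpq
          exact (Nat.isCoprime_iff_coprime).2 this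
        · intro p hp
          have h5 := congrFun h2 ⟨p, hp⟩
          simp only at h5
          have h6 : ((Y v' + (j : ℤ) * (v' : ℤ) : ℤ) : ZMod p) =
              ((Y v + (j : ℤ) * (v : ℤ) : ℤ) : ZMod p) := by
            rw [hYv p hp, hYv p hp, h5]
          rwa [ZMod.intCast_eq_intCast_iff_dvd_sub] at h6
      have h7 : (Y v + (j : ℤ) * (v : ℤ)) % (Q : ℤ) = (Y v' + (j : ℤ) * (v' : ℤ)) % (Q : ℤ) :=
        (Int.emod_emod_of_dvd _ dvd_rfl).symm.trans (by
          rw [Int.emod_emod_of_dvd _ dvd_rfl]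
          exact (Int.emod_emod_of_dvd _ dvd_rfl).symm.trans (by
            rw [Int.emod_emod_of_dvd _ dvd_rfl]
            exact Int.emod_eq_emod_iff_emod_sub_eq_zero.2 (Int.emod_eq_zero_of_dvd h4)))
      rw [← Int.emod_add_mul_ediv (Y v + (j : ℤ) * (v : ℤ)) Q,
        ← Int.emod_add_mul_ediv (Y v' + (j : ℤ) * (v' : ℤ)) Q, h3, h7]
    · rw [card_product, card_range, Fintype.card_piFinset]
      refine Nat.mul_le_mul_left _ ?_
      rw [← Finset.prod_coe_sort T (fun p => (p + 1) / 2)]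
      exact Finset.prod_le_prod' fun p _ => card_sq p.1 (hT p.1 p.2).1 (hT p.1 p.2).2

end Pool.Agent.Zk23.KKSq
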