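import Mathlib
import Pool.Agent.Zk23.NCI
import Pool.Agent.Zk23.ETF

/-! All free critical points in new cycles, part 15: the theorem on the sphere. -/

set_option autoImplicit false
set_option linter.unusedVariables false

open Topology Filter Metric Set MeasureTheory
open Pool.Agent.H790R3.RB (CV hF cr ND wr rt Ix yx yc sp pr hc HypTop Attd Sink cr_eq_zero_iff
  cr_smul_left cr_smul_right cr_self cr_comm WR SP PQ pol INJL hF_iter_smul)
open Pool.Agent.W757.RD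
open Pool.Agent.W364.NM (ap ad dt ap_smul ap_ad ad_ap ad_ad ap_ne cr_ap hF_csmul wr_conj wr_eval
  sp_pr exists_pr pr_csmul mt mb_eq dt_mt)
open Pool.Agent.W402.RE.MINP (DIprop)
open scoped OnePoint

namespace Pool.Agent.Zk23

/-- All free critical points of a map of zero area type are put into new attracting cycles of
distinct large periods. -/
theorem everyN {d : ℕ} (hd : 2 ≤ d) {x₀ : CV d} (hx₀ : ND x₀)
    (harea : volume {z : ℂ | ¬ Attd (sp x₀) (z : OnePoint ℂ)} = 0)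
    {c : Fin (2 * d - 2) → OnePoint ℂ} (hcx : HCrit x₀ c)
    (hsup : ∀ i m, ¬ Sink (sp x₀) m (c i)) (Np : ℕ)
    {ε : ℝ} (hε : 0 < ε) {U : Fin (2 * d - 2) → Set (OnePoint ℂ)} (hU : ∀ i, U i ∈ 𝓝 (c i))
    {V : OnePoint ℂ → Set (OnePoint ℂ)} (hV : ∀ z, V z ∈ 𝓝 z) :
    ∃ (x' : CV d) (c' : Fin (2 * d - 2) → OnePoint ℂ) (σ : OnePoint ℂ → OnePoint ℂ)
      (p : Fin (2 * d - 2) → ℕ) (b : Fin (2 * d - 2) → OnePoint ℂ),
      ‖x' - x₀‖ < ε ∧ ND x' ∧ HypTop (sp x') ∧ HCrit x' c' ∧ Function.Injective c' ∧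
      (∀ i, c' i ∈ U i) ∧
      InjOn σ {z | ∃ m, Sink (sp x₀) m z} ∧
      (∀ m z, Sink (sp x₀) m z → (∀ m', Sink (sp x') m' (σ z) ↔ Sink (sp x₀) m' z) ∧
        σ z ∈ V z ∧ σ (sp x₀ z) = sp x' (σ z)) ∧
      (∀ i m a, Sink (sp x₀) m a → Cap (sp x₀) m a (c i) → Cap (sp x') m (σ a) (c' i)) ∧
      (∀ i, ¬ Attd (sp x₀) (c i) → Np < p i ∧ (∀ m, Sink (sp x') m (b i) ↔ 0 < m ∧ p i ∣ m) ∧
        Imm (sp x') (p i) (b i) (c' i) ∧ ∀ m z, Sink (sp x₀) m z → σ z ≠ b i) ∧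
      (∀ i i', ¬ Attd (sp x₀) (c i) → ¬ Attd (sp x₀) (c i') → p i = p i' → i = i') ∧
      ∀ m z, Sink (sp x') m z → (∃ w, Sink (sp x₀) m w ∧ z = σ w) ∨
        ∃ i j, ¬ Attd (sp x₀) (c i) ∧ z = (sp x')^[j] (b i) := by
  classical
  obtain ⟨u₁, h, mm, C, y₀, c₀, ε₀, σ₀, hu₁, hc₀, hε₀, hdi, hnear, hinf, hbase, hvol, hmm, hhm,
    hs, hC, hback⟩ := norm_zero hd hx₀ harea
  obtain ⟨s, S, hco, huS, hall, hatt⟩ := fam_sys hd hu₁ hinf
  have hsym := conj_symm h hs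
  have hcou : S.co u₁ = fam u₁ := hco _ huS
  have hcont₁ : Continuous (sp (fam u₁)) := sp_cont' hd hu₁.1
  have hcont₀ : Continuous (sp x₀) := sp_cont' hd hx₀
  -- the critical points
  have hcu := hcrit_map hd hx₀ hu₁.1 hmm h hhm hs hcx
  obtain ⟨cl, hcl, hfac⟩ := hcrit_fin hd hu₁ hcu
  have hcl' : ∀ i, h.symm ((cl i : ℂ) : OnePoint ℂ) = c i := fun i => by
    rw [← hcl i, h.symm_apply_apply]
  -- sinks
  have hsk : ∀ m z, Sink (sp x₀) m z → Sink (sp (fam u₁)) m (h z) := fun m z hz =>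
    Pool.Agent.H790R3.RB.ALL.sink h hs hz
  have hsk' : ∀ m z, Sink (sp (fam u₁)) m (h z) → Sink (sp x₀) m z := fun m z hz => by
    have := Pool.Agent.H790R3.RB.ALL.sink h.symm hsym hz
    rwa [h.symm_apply_apply] at this
  have hmark : ∀ m z, Sink (sp x₀) m z → ∃ (k : Fin s) (j : ℕ),
      h z = (sp (fam u₁))^[j] ((S.b k u₁ : ℂ) : OnePoint ℂ) := by
    intro m z hz
    obtain ⟨k, j, hkj⟩ := hall m (h z) (by rw [hcou]; exact hsk m z hz)
    rw [hcou] at hkj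
    exact ⟨k, j, hkj⟩
  -- attracted critical points
  have hati : ∀ i, Attd (sp x₀) (c i) → ∃ k, ∃ m : ℕ, S.InC k u₁ ((S.F u₁)^[m] (cl i, 1)) := by
    intro i hi
    apply hatt
    have := Pool.Agent.H790R3.RB.ALL.attd h hs hi
    rwa [hcl i] at this
  have hati' : ∀ i k, ∀ m : ℕ, S.InC k u₁ ((S.F u₁)^[m] (cl i, 1)) → Attd (sp x₀) (c i) := by
    intro i k m hkm
    have h1 := cap_of_inC S huS (c := ((cl i : ℂ) : OnePoint ℂ)) hkm
    rw [hcou, ← hcl i] at h1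
    have hsb := sink_base S huS k
    rw [hcou] at hsb
    have h2 : Attd (sp (fam u₁)) (h (c i)) := attd_of_cap hcont₁ hsb h1
    have := Pool.Agent.H790R3.RB.ALL.attd h.symm hsym h2
    rwa [h.symm_apply_apply] at this
  obtain ⟨k₀, -⟩ := hatt _ (hbase 0)
  obtain ⟨τ, hτ⟩ : ∃ τ : Fin (2 * d - 2) → Fin s,
      ∀ i k, ∀ m : ℕ, S.InC k u₁ ((S.F u₁)^[m] (cl i, 1)) → k = τ i := by
    refine ⟨fun i => if h : ∃ k, ∃ m : ℕ, S.InC k u₁ ((S.F u₁)^[m] (cl i, 1)) then h.choose else k₀,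
      fun i k m hkm => ?_⟩
    have h1 : ∃ k, ∃ m : ℕ, S.InC k u₁ ((S.F u₁)^[m] (cl i, 1)) := ⟨k, m, hkm⟩
    simp only [dif_pos h1]
    obtain ⟨m', hm'⟩ := h1.choose_spec
    exact uniqC S huS hkm hm'
  -- the cycles are not superattracting
  have hlam : ∀ k, S.lam k u₁ ≠ 0 := by
    intro k
    apply Pool.Agent.W440.RE.LNE.lam_neX S WR u₁ huS k
    intro j hj
    rw [hcou] at hj
    have hne : (hF (fam u₁))^[j] (S.cht k u₁ 0) ≠ 0 :=
      hu₁.1.iter_ne j (Pool.Agent.W440.RE.TOP.cht_ne_zero S k u₁ 0)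
    obtain ⟨h1, h2, h3, h4⟩ := fin_crit hd hu₁ hne hj
    rw [hfac] at h2
    have h5 := (mul_eq_zero.1 h2).resolve_left hu₁.2
    obtain ⟨i, -, hi⟩ := Finset.prod_eq_zero_iff.1 h5
    have h6 : ((hF (fam u₁))^[j] (S.cht k u₁ 0)).1 / ((hF (fam u₁))^[j] (S.cht k u₁ 0)).2 = cl i :=
      sub_eq_zero.1 hi
    rw [h6] at h4
    have h7 := (SP d (fam u₁) (by omega) hu₁.1).2.1 (S.cht k u₁ 0) (Pool.Agent.W440.RE.TOP.cht_ne_zero S k u₁ 0) j
    have h8 : pr (S.cht k u₁ 0) = ((S.b k u₁ : ℂ) : OnePoint ℂ) := by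
      rw [Pool.Agent.W440.RE.TOP.pr_some, add_zero]
    rw [h4, h8] at h7
    have h9 := sink_fwd hcont₁ (by have := sink_base S huS k; rwa [hcou] at this) j
    rw [h7, ← hcl i] at h9
    exact hsup i _ (hsk' _ _ h9)
  -- the area
  have hmu : mu (3 / 4) (S.KS u₁) = 0 := by
    have h1 : volume (S.KS u₁) = 0 := by
      refine measure_mono_null ?_ hvol
      intro ζ hζ hA
      obtain ⟨k, m, hkm⟩ := hatt ζ hA
      exact hζ k m hkm
    exact (p_MU (3 / 4) (by norm_num) (by norm_num)).2 _ |>.1 h1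
  -- open conditions
  have e1 : ∀ i, ∀ᶠ ζ : ℂ in 𝓝 (cl i), h.symm (ζ : OnePoint ℂ) ∈ U i := by
    intro i
    have h1 : ContinuousAt (fun ζ : ℂ => h.symm (ζ : OnePoint ℂ)) (cl i) :=
      (h.symm.continuous.comp OnePoint.continuous_coe).continuousAt
    exact h1.eventually_mem (by rw [hcl']; exact hU i)
  have e2 : ∀ᶠ u in 𝓝 u₁, ∀ k, ∀ j ∈ Finset.range (S.per k),
      h.symm (pr ((hF (fam u))^[j] (S.b k u, 1))) ∈
        V (h.symm ((sp (fam u₁))^[j] ((S.b k u₁ : ℂ) : OnePoint ℂ))) := by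
    refine eventually_all.2 fun k => ?_
    rw [Filter.eventually_all_finset]
    intro j _
    have hbc : ContinuousAt (S.b k) u₁ :=
      ((S.hb k).differentiableAt (S.hU.mem_nhds huS)).continuousAt
    have h1 : ContinuousAt (fun u : Fin (2 * d) → ℂ => pr ((hF (fam u))^[j] (S.b k u, 1))) u₁ :=
      ContinuousAt.comp (f := fun u : Fin (2 * d) → ℂ => (u, S.b k u))
        (g := fun w : (Fin (2 * d) → ℂ) × ℂ => pr ((hF (fam w.1))^[j] (w.2, 1)))
        (orb_cont hd hu₁.1 (S.b k u₁) j) (continuousAt_id.prodMk hbc)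
    have h2 := h.symm.continuous.continuousAt.comp h1
    refine h2.eventually_mem ?_
    simp only [Function.comp]
    have h3 := (SP d (fam u₁) (by omega) hu₁.1).2.1 (S.b k u₁, 1) (one_ne _) j
    rw [Pool.Agent.W586.RESMK.pr_one] at h3
    rw [← h3]
    exact hV _
  choose δc hδc hbc using fun i => Metric.eventually_nhds_iff.1 (e1 i)
  obtain ⟨δ₁, hδ₁, hδ₁le⟩ := LIN.exists_min δc hδc
  obtain ⟨δ₂, hδ₂, hb2⟩ := Metric.eventually_nhds_iff.1 e2
  obtain ⟨y, hyU, hyu, hyE, hyi, hyl, hyc, hyIn, p, hyQ, hpinj⟩ := engineN (by norm_num)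
    (by norm_num) S hco huS hlam hmu (fun j => hatt _ (hbase j)) hc₀ hε₀ hdi hnear cl hfac τ hτ
    (Np + ∑ k, S.per k)
    (min (min δ₁ δ₂) (min 1 (ε / C)))
    (lt_min (lt_min hδ₁ hδ₂) (lt_min one_pos (div_pos hε hC)))
  have l1 : ∀ i, ‖yc y i - cl i‖ < δ₁ := fun i =>
    (hyc i).trans_le ((min_le_left _ _).trans (min_le_left _ _))
  have l2 : ‖yx y - u₁‖ < δ₂ := hyu.trans_le ((min_le_left _ _).trans (min_le_right _ _))
  have l3 : ‖yx y - u₁‖ < 1 := hyu.trans_le ((min_le_right _ _).trans (min_le_left _ _))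
  have l4 : ‖yx y - u₁‖ < ε / C := hyu.trans_le ((min_le_right _ _).trans (min_le_right _ _))
  obtain ⟨u, hu⟩ : ∃ u, u = yx y := ⟨_, rfl⟩
  rw [← hu] at hyU hyl hyIn l2 l3 l4 hyQ
  have hcoy : S.co u = fam u := hco _ hyU
  have huU : u ∈ U₀ d := by
    have h1 := S.nd _ hyU
    have h2 := S.hwr _ hyU
    rw [hcoy] at h1 h2
    exact ⟨h1, h2⟩
  have hfacy : ∀ ζ : ℂ, wr (fam u) (ζ, 1) = wr (fam u) (1, 0) * ∏ i, (ζ - yc y i) := by
    have := p_ER d (2 * d) s S y hyE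
    rw [← hu, hcoy] at this
    exact this
  obtain ⟨x', hx', hND', hsx⟩ := hback u l3 huU.1
  have hsymx := conj_symm h hsx
  have hcont' : Continuous (sp (fam u)) := sp_cont' hd huU.1
  have hcontx : Continuous (sp x') := sp_cont' hd hND'
  -- the free critical points
  have hfr : ∀ i, ¬ Attd (sp x₀) (c i) → ∀ k, ∀ m : ℕ,
      ¬ S.InC k u₁ ((S.F u₁)^[m] (cl i, 1)) := fun i hi k m hkm => hi (hati' i k m hkm)
  have hnew : ∀ i, ¬ Attd (sp x₀) (c i) → ∃ bb : ℂ,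
      (∀ m, Sink (sp (fam u)) m (bb : OnePoint ℂ) ↔ 0 < m ∧ p i ∣ m) ∧
      Imm (sp (fam u)) (p i) (bb : OnePoint ℂ) ((yc y i : ℂ) : OnePoint ℂ) := by
    intro i hi
    obtain ⟨-, S', hco', hu', hper', hin⟩ := hyQ i (hfr i hi)
    have hu' : u ∈ S'.U := hu'
    have hin : S'.InC 0 u (yc y i, 1) := hin
    have hc' : S'.co u = fam u := hco' u hu'
    refine ⟨S'.b 0 u, fun m => ⟨fun hm => ⟨hm.1, ?_⟩, fun hm => ?_⟩, ?_⟩
    · rw [← hper']
      refine dvd_of_sink S' hu' (k := 0) (j := 0) ?_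
      rw [hc']
      exact hm
    · have h1 := sink_base S' hu' 0
      rw [hc', hper'] at h1
      exact sink_mul h1 hm.1 hm.2
    · have h1 := imm_of_inC S' hu' hin
      rw [hc', hper'] at h1
      exact h1
  obtain ⟨bb, hbb⟩ : ∃ bb : Fin (2 * d - 2) → ℂ, ∀ i, ¬ Attd (sp x₀) (c i) →
      (∀ m, Sink (sp (fam u)) m (bb i : OnePoint ℂ) ↔ 0 < m ∧ p i ∣ m) ∧
      Imm (sp (fam u)) (p i) (bb i : OnePoint ℂ) ((yc y i : ℂ) : OnePoint ℂ) := by
    refine ⟨fun i => if h : ∃ bb : ℂ, (∀ m, Sink (sp (fam u)) m (bb : OnePoint ℂ) ↔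
        0 < m ∧ p i ∣ m) ∧ Imm (sp (fam u)) (p i) (bb : OnePoint ℂ) ((yc y i : ℂ) : OnePoint ℂ)
        then h.choose else 0, fun i hi => ?_⟩
    have h1 := hnew i hi
    simp only [dif_pos h1]
    exact h1.choose_spec
  have hp0 : ∀ i, ¬ Attd (sp x₀) (c i) → 0 < p i := by
    intro i hi
    have := (hyQ i (hfr i hi)).1
    omega
  have hpk : ∀ i, ¬ Attd (sp x₀) (c i) → ∀ k, S.per k < p i := by
    intro i hi k
    have h1 := (hyQ i (hfr i hi)).1
    have h2 : S.per k ≤ ∑ k, S.per k :=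
      Finset.single_le_sum (f := fun k => S.per k) (fun k _ => Nat.zero_le _) (Finset.mem_univ k)
    omega
  -- all critical points are attracted
  have hold : ∀ i, Attd (sp x₀) (c i) →
      Cap (sp (fam u)) (S.per (τ i)) ((S.b (τ i) u : ℂ) : OnePoint ℂ)
        ((yc y i : ℂ) : OnePoint ℂ) := by
    intro i hi
    obtain ⟨m, hm⟩ := hyIn i (hati i hi)
    have h1 := cap_of_inC S hyU (c := ((yc y i : ℂ) : OnePoint ℂ)) hm
    rwa [hcoy] at h1
  have hcrit : ∀ c₁ : OnePoint ℂ, wr (fam u) (hc c₁) = 0 → ∃ i, c₁ = ((yc y i : ℂ) : OnePoint ℂ) := by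
    intro c₁ hw
    obtain ⟨e1, e2⟩ := (SP d (fam u) (by omega) huU.1).2.2.2.1 c₁
    obtain ⟨h1, h2, h3, h4⟩ := fin_crit hd huU e2 hw
    rw [hfacy] at h2
    have h5 := (mul_eq_zero.1 h2).resolve_left huU.2
    obtain ⟨i, -, hi⟩ := Finset.prod_eq_zero_iff.1 h5
    refine ⟨i, ?_⟩
    rw [← e1, h4]
    congr 1
    exact sub_eq_zero.1 hi
  have hsb : ∀ k, Sink (sp (fam u)) (S.per k) ((S.b k u : ℂ) : OnePoint ℂ) := by
    intro k
    have := sink_base S hyU k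
    rwa [hcoy] at this
  have hhyp : HypTop (sp (fam u)) := by
    refine hyp_of_attd hd huU.1 fun c₁ hw => ?_
    obtain ⟨i, rfl⟩ := hcrit c₁ hw
    by_cases hi : Attd (sp x₀) (c i)
    · exact attd_of_cap hcont' (hsb _) (hold i hi)
    · obtain ⟨h1, h2⟩ := hbb i hi
      exact attd_of_cap hcont' ((h1 (p i)).2 ⟨hp0 i hi, dvd_rfl⟩) (imm_cap h2)
  -- all sinks
  have hsinks : ∀ m z, Sink (sp (fam u)) m z →
      (∃ (k : Fin s) (j : ℕ), z = (sp (fam u))^[j] ((S.b k u : ℂ) : OnePoint ℂ)) ∨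
      ∃ i j, ¬ Attd (sp x₀) (c i) ∧ z = (sp (fam u))^[j] (bb i : OnePoint ℂ) := by
    intro m z hz
    obtain ⟨c₁, hw, hcap⟩ := fatou_sink hd huU.1 hz
    obtain ⟨i, rfl⟩ := hcrit c₁ hw
    by_cases hi : Attd (sp x₀) (c i)
    · obtain ⟨l, hl⟩ := same_cycle hcont' hz.1 hz.2.1 (S.hper (τ i)) hcap (hold i hi)
      exact Or.inl ⟨τ i, l, hl⟩
    · obtain ⟨h1, h2⟩ := hbb i hi
      obtain ⟨l, hl⟩ := same_cycle hcont' hz.1 hz.2.1 (hp0 i hi) hcap (imm_cap h2)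
      exact Or.inr ⟨i, l, hi, hl⟩
  obtain ⟨σ, hσ1, hσ2, hσ3⟩ := sigN S huS hyU hall
  rw [hcou, hcoy] at hσ1
  have hσ2' : ∀ m z, Sink (sp (fam u₁)) m z → ∀ m', Sink (sp (fam u)) m' (σ z) ↔
      Sink (sp (fam u₁)) m' z := by
    intro m z hz m'
    have := hσ2 m z (by rw [hcou]; exact hz) m'
    rwa [hcou, hcoy] at this
  have hσ3' : InjOn σ {z | ∃ m, Sink (sp (fam u₁)) m z} := by
    rwa [hcou] at hσ3
  have hskx : ∀ m z, Sink (sp (fam u)) m z → Sink (sp x') m (h.symm z) := fun m z hz =>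
    Pool.Agent.H790R3.RB.ALL.sink h.symm hsymx hz
  have hskx' : ∀ m z, Sink (sp x') m z → Sink (sp (fam u)) m (h z) := fun m z hz =>
    Pool.Agent.H790R3.RB.ALL.sink h hsx hz
  -- critical points of the new map
  have hcu' := hcrit_of_fin hd huU (yc y) hfacy
  have hdad : dt (ad mm) = dt mm := by simp only [dt, ad]; ring
  have hhm' : ∀ p : ℂ × ℂ, p ≠ 0 → h.symm (pr p) = pr (ap (ad mm) p) := by
    intro p hp
    have h1 : ap (ad mm) p ≠ 0 := ap_ne (by rw [hdad]; exact hmm) hp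
    apply h.injective
    rw [h.apply_symm_apply, hhm _ h1, ad_ap, pr_csmul hmm]
  have hcx' : HCrit x' (fun i => h.symm ((yc y i : ℂ) : OnePoint ℂ)) :=
    hcrit_map hd huU.1 hND' (by rw [hdad]; exact hmm) h.symm hhm'
      (fun z => (hsymx z)) hcu'
  have hit : ∀ (j : ℕ) (z : OnePoint ℂ), (sp x')^[j] (h.symm z) = h.symm ((sp (fam u))^[j] z) :=
    fun j z => Pool.Agent.H790R3.RB.ALL.iter h.symm hsymx j z
  refine ⟨x', fun i => h.symm ((yc y i : ℂ) : OnePoint ℂ), fun z => h.symm (σ (h z)), p,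
    fun i => h.symm (bb i : OnePoint ℂ), ?_, hND',
    Pool.Agent.H790R3.RB.ALL.hyp h.symm hsymx hhyp, hcx', ?_, ?_, ?_, ?_, ?_, ?_, ?_, ?_⟩
  · calc ‖x' - x₀‖ ≤ C * ‖u - u₁‖ := hx'
      _ < C * (ε / C) := mul_lt_mul_of_pos_left l4 hC
      _ = ε := by field_simp
  · intro i j hij
    exact hyi (OnePoint.coe_injective (h.symm.injective hij))
  · intro i
    refine hbc i (y := yc y i) ?_
    rw [dist_eq_norm]
    exact (l1 i).trans_le (hδ₁le i)
  · rintro z ⟨m, hz⟩ z' ⟨m', hz'⟩ he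
    exact h.injective (hσ3' ⟨m, hsk m z hz⟩ ⟨m', hsk m' z' hz'⟩ (h.symm.injective he))
  · intro m z hz
    obtain ⟨k, j, hkj⟩ := hmark m z hz
    refine ⟨fun m' => ⟨fun h1 => ?_, fun h1 => ?_⟩, ?_, ?_⟩
    · have h2 := hskx' m' _ h1
      rw [h.apply_symm_apply] at h2
      exact hsk' m' z ((hσ2' m (h z) (hsk m z hz) m').1 h2)
    · exact hskx m' _ ((hσ2' m (h z) (hsk m z hz) m').2 (hsk m' z h1))
    · show h.symm (σ (h z)) ∈ V z
      have hper := S.hper k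
      have h1 : h z = (sp (fam u₁))^[j % S.per k] ((S.b k u₁ : ℂ) : OnePoint ℂ) := by
        rw [hkj]
        have := (rel_iff S huS k k j (j % S.per k)).2 ⟨rfl, (Nat.mod_modEq j _).symm⟩
        rwa [hcou] at this
      have h2 := hb2 (y := u) (by rw [dist_eq_norm]; exact l2) k (j % S.per k)
        (Finset.mem_range.2 (Nat.mod_lt _ hper))
      rw [← h1, h.symm_apply_apply] at h2
      rw [h1, hσ1]
      have h3 := (SP d (fam u) (by omega) huU.1).2.1 (S.b k u, 1) (one_ne _) (j % S.per k)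
      rw [Pool.Agent.W586.RESMK.pr_one] at h3
      rw [h3]
      exact h2
    · show h.symm (σ (h (sp x₀ z))) = sp x' (h.symm (σ (h z)))
      rw [hsymx, ← hs, hkj, ← Function.iterate_succ_apply' (sp (fam u₁)) j, hσ1, hσ1,
        Function.iterate_succ_apply' (sp (fam u)) j]
  · intro i n a ha hcap
    obtain ⟨k, J, hkJ⟩ := hmark n a ha
    have hAi : Attd (sp x₀) (c i) := attd_of_cap hcont₀ ha hcap
    obtain ⟨k', m', hkm'⟩ := hati i hAi
    have hkτ := hτ i k' m' hkm'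
    -- the cycle
    have h1 := cap_of_inC S huS (c := ((cl i : ℂ) : OnePoint ℂ)) hkm'
    rw [hcou, ← hcl i] at h1
    have hsb₁ := sink_base S huS k'
    rw [hcou] at hsb₁
    have h4 : Cap (sp (fam u₁)) n (h a) (h (c i)) := cap_conj h hs hcap
    obtain ⟨l, hl⟩ := same_cycle hcont₁ (S.hper k') hsb₁.2.1 ha.1 h1 h4
    rw [hkJ, ← Function.iterate_add_apply] at hl
    have h5 := (rel_iff S huS k' k 0 (l + J)).1 (by rw [hcou]; exact hl)
    have hkk : k = τ i := h5.1.symm.trans hkτ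
    have h6 := cap_fwd hcont' (hold i hAi) J
    rw [← hkk] at h6
    have h3 : S.per k ∣ n := by
      refine dvd_of_sink S huS (k := k) (j := J) ?_
      rw [hcou, ← hkJ]
      exact hsk _ _ ha
    obtain ⟨l, hl⟩ := h3
    have hl0 : 0 < l := by
      rcases Nat.eq_zero_or_pos l with h0 | h0
      · have := ha.1
        rw [hl, h0, mul_zero] at this
        omega
      · exact h0
    have h7 := cap_mul hl0 h6
    rw [← hl] at h7
    show Cap (sp x') n (h.symm (σ (h a))) (h.symm ((yc y i : ℂ) : OnePoint ℂ))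
    rw [hkJ, hσ1]
    exact cap_conj h.symm hsymx h7
  · intro i hi
    obtain ⟨h1, h2⟩ := hbb i hi
    refine ⟨?_, fun m => ⟨fun hm => ?_, fun hm => ?_⟩, imm_conj h.symm hsymx h2,
      fun m z hz he => ?_⟩
    · have := (hyQ i (hfr i hi)).1
      omega
    · have h3 := hskx' m _ hm
      rw [h.apply_symm_apply] at h3
      exact (h1 m).1 h3
    · exact hskx m _ ((h1 m).2 hm)
    · obtain ⟨k, j, hkj⟩ := hmark m z hz
      have h3 : σ (h z) = (bb i : OnePoint ℂ) := h.symm.injective he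
      rw [hkj, hσ1] at h3
      have h4 := sink_fwd hcont' (hsb k) j
      rw [h3] at h4
      have h5 := ((h1 _).1 h4).2
      have h6 := Nat.le_of_dvd (S.hper k) h5
      have h7 := hpk i hi k
      omega
  · intro i i' hi hi' he
    exact hpinj i i' (hfr i hi) (hfr i' hi') he
  · intro m z hz
    have hz' := hskx' m z hz
    rcases hsinks m (h z) hz' with ⟨k, j, hkj⟩ | ⟨i, j, hi, hij⟩
    · left
      refine ⟨h.symm ((sp (fam u₁))^[j] ((S.b k u₁ : ℂ) : OnePoint ℂ)), ?_, ?_⟩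
      · have h1 : Sink (sp (fam u₁)) (S.per k) ((sp (fam u₁))^[j] ((S.b k u₁ : ℂ) : OnePoint ℂ)) := by
          have := sink_base S huS k
          rw [hcou] at this
          exact sink_fwd hcont₁ this j
        apply hsk'
        rw [h.apply_symm_apply]
        refine (hσ2' _ _ h1 m).1 ?_
        rw [hσ1, ← hkj]
        exact hz'
      · show z = h.symm (σ (h (h.symm _)))
        rw [h.apply_symm_apply, hσ1, ← hkj, h.symm_apply_apply]
    · right
      refine ⟨i, j, hi, ?_⟩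
      rw [hit, ← hij, h.symm_apply_apply]

end Pool.Agent.Zk23
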